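import Pool.Agent.TWP.TLeft40

set_option autoImplicit false

/-! TWP, block B: the comparison with `Y_40` gives the one with `Y_24`. -/

namespace TWP

namespace BAaux
open Pool.Agent.TWP.Tail

theorem take25 : cY40.take 25 = cY := by decide +kernel

theorem norm25 : 221184 * nb 221184 (cY40.drop 25) ≤
    (4 * 10 ^ 62 * 16 ^ 25) * 221184 ^ (cY40.drop 25).length := by decide +kernel

theorem main (y : ℝ) (hy0 : 0 ≤ y) (hy : y * 221184 ≤ 1) :
    |ev cY40 y - ev cY y| ≤ 4 * 10 ^ 62 * (16 * y) ^ 25 := by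
  rw [ev_split 25 cY40, take25, add_sub_cancel_left, abs_mul, abs_of_nonneg (pow_nonneg hy0 25)]
  have h1 := abs_ev_le 221184 (by norm_num) (cY40.drop 25) y (by
    rw [abs_of_nonneg hy0]; exact_mod_cast hy)
  have h2 : ((221184 * nb 221184 (cY40.drop 25) : ℤ) : ℝ) ≤
      (((4 * 10 ^ 62 * 16 ^ 25) * 221184 ^ (cY40.drop 25).length : ℤ) : ℝ) := by
    exact_mod_cast norm25
  have hp : (0 : ℝ) < (221184 : ℝ) ^ (cY40.drop 25).length := by positivity
  have h3 : |ev (cY40.drop 25) y| ≤ 4 * 10 ^ 62 * 16 ^ 25 := by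
    refine le_of_mul_le_mul_right ?_ hp
    push_cast at h1 h2 ⊢
    norm_num only at h1 h2 ⊢
    linarith
  calc y ^ 25 * |ev (cY40.drop 25) y| ≤ y ^ 25 * (4 * 10 ^ 62 * 16 ^ 25) :=
        mul_le_mul_of_nonneg_left h3 (pow_nonneg hy0 25)
    _ = 4 * 10 ^ 62 * (16 * y) ^ 25 := by rw [mul_pow]; ring

end BAaux

open Pool.Agent.TWP.Tail in
theorem hA_of_40 (y : ℝ) (t : ℝ) (ht : t ≤ -24)
    (h : |y - ev cY40 (zL t / 16)| ≤ DY40 * zL t ^ 41) :
    |y - ev cY (zL t / 16)| ≤ 5 * 10 ^ 62 * zL t ^ 25 := by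
  obtain ⟨h0, h1⟩ := zL_y t ht
  have hz := zL_pos t (by linarith)
  have hm := BAaux.main _ h0 h1
  have e : 16 * (zL t / 16) = zL t := by ring
  rw [e] at hm
  have hd : DY40 * zL t ^ 41 ≤ 1 * 10 ^ 62 * zL t ^ 25 := by
    have e2 : DY40 * zL t ^ 41 = (DY40 * zL t ^ 16) * zL t ^ 25 := by ring
    rw [e2]
    refine mul_le_mul_of_nonneg_right ?_ (by positivity)
    have h16 : zL t ^ 16 ≤ (1 / 13824) ^ 16 := pow_le_pow_left₀ hz.le (zL_le t ht) 16
    have hD0 : 0 ≤ DY40 := le_trans (by norm_num) DY40_ge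
    refine (mul_le_mul_of_nonneg_left h16 hD0).trans ?_
    rw [DY40, div_pow, one_pow, div_mul_div_comm, mul_one, div_le_iff₀ (by positivity)]
    have h : (dY40 : ℤ) ≤ 1 * 10 ^ 62 * (16 ^ 41 * 13824 ^ 16) := by decide +kernel
    exact_mod_cast h
  have e3 : y - ev cY (zL t / 16) =
      (y - ev cY40 (zL t / 16)) + (ev cY40 (zL t / 16) - ev cY (zL t / 16)) := by ring
  rw [e3]
  refine (abs_add_le _ _).trans ?_
  calc _ ≤ DY40 * zL t ^ 41 + 4 * 10 ^ 62 * zL t ^ 25 := add_le_add h hm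
    _ ≤ 1 * 10 ^ 62 * zL t ^ 25 + 4 * 10 ^ 62 * zL t ^ 25 := by linarith
    _ = 5 * 10 ^ 62 * zL t ^ 25 := by ring

end TWP

namespace TWP

open Pool.Agent.TWP.Tail in
/-- the same with the integer constant -/
theorem hA_of_int (y : ℝ) (t : ℝ) (ht : t ≤ -24)
    (h : |y - ev cY40 (zL t / 16)| ≤ (dY40 : ℝ) * (zL t / 16) ^ 41) :
    |y - ev cY (zL t / 16)| ≤ 5 * 10 ^ 62 * zL t ^ 25 := by
  refine hA_of_40 y t ht (h.trans (le_of_eq ?_))
  rw [DY40, div_pow]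
  ring

end TWP
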