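import Pool.Agent.TWP.StB

/-! TWP, modules BDB and BV0: two short inductions. -/

set_option autoImplicit false

namespace TWP

open PowerSeries Finset Filter Topology
open scoped ContDiff

theorem t_BDB : S_BDB := by
  intro ξ l
  induction l with
  | nil => simp [K.dbl, evZ]
  | cons a l ih =>
    simp only [K.dbl, evZ, ih, Int.cast_zero, map_zero]
    ring

theorem t_BV0 : S_BV0 := by
  intro ξ l
  induction l with
  | nil => simp [Pool.Agent.TWP.Tail.ev, evZ]
  | cons a l ih =>
    simp only [Pool.Agent.TWP.Tail.ev, evZ, map_add, PowerSeries.coeff_zero_eq_constantCoeff,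
      map_mul, PowerSeries.constantCoeff_C] at ih ⊢
    rw [ih]

end TWP
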