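import Pool.Agent.TWP.StB

/-!
# TWP_BDE: the derivative of a polynomial in `ξ` when `D ξ = -(C k * ξ)`
-/

set_option autoImplicit false

namespace TWP

open PowerSeries Finset

namespace BDEaux

theorem D_add (S T : ℝ⟦X⟧) : D (S + T) = D S + D T := by
  unfold D
  exact map_add _ S T

theorem D_zero : D (0 : ℝ⟦X⟧) = 0 := by
  unfold D
  exact map_zero _

theorem D_C (a : ℝ) : D (C a : ℝ⟦X⟧) = 0 := by
  unfold D
  exact PowerSeries.derivative_C

theorem D_mul (S T : ℝ⟦X⟧) : D (S * T) = S * D T + T * D S := by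
  unfold D
  have h := (d⁄dX ℝ).leibniz S T
  simpa only [smul_eq_mul] using h

theorem main (ξ : ℝ⟦X⟧) (k : ℝ) (hξ : D ξ = -(C k * ξ)) : ∀ (P : List ℤ) (n : ℤ),
    D (evZ ξ P) = C k * (evZ ξ (K.derTAux n P) + C (n : ℝ) * evZ ξ P)
  | [], n => by
    simp only [K.derTAux, evZ, D_zero, mul_zero, add_zero]
  | a :: P, n => by
    have ih := main ξ k hξ P (n + 1)
    simp only [K.derTAux, evZ, D_add, D_mul, D_C, hξ, ih]
    push_cast
    simp only [map_neg, map_mul, map_add, map_one]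
    ring

end BDEaux

/-- BDE. -/
theorem t_BDE : S_BDE := by
  intro ξ k P hξ
  have h := BDEaux.main ξ k hξ P 0
  simpa [K.derT] using h

end TWP
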