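import Pool.Agent.TWP.EngT

/-! TWP engine, middle charts: `t = (cn + ln u)/64`, `|u| ≤ h`. -/

namespace TWP.K

def prodUp (x : ℕ) : ℕ → ℕ → ℕ
  | 0, p => p
  | m + 1, p => prodUp x m (p + p * x / (ONE * (m + 1)) + 1)

/-- error bound for the jets of `(l, q)` minus the polynomials `(L, Q)`:
`eta` = error of both values at the centre; `k` with `3^k ≥ exp (Λ h)`;
`h`, `r0` numerators over 4096; `M` = order of the jets. -/
def baseG (M h r0 : ℕ) (cn : ℤ) (ln eta k : ℕ) (L Q : PL) : Option ℕ :=
  if okMul L L && okMul Q Q && okMul L Q then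
    let resl := subL (smulL (4096 * 2 ^ 160) (derM L))
      (addL (smulL (64 * ln) (subL (smulL 2 (mulL Q Q)) (mulL L L)))
        [ln * cn * 2 ^ 320, ln * ln * 2 ^ 320])
    let resq := subL (smulL (64 * 2 ^ 160) (derM Q)) (smulL ln (mulL L Q))
    let rho := nL 4096 resl / (4096 * ONE) + 1 + (nL 4096 resq / (64 * ONE) + 1)
    let Lam := max ONE (ln * (4 * nL 4096 Q + 2 * nL 4096 L) / 64 + 1 + (ONE / 1000 + 1))
    let G0 := (2 * eta + rho) * 3 ^ k
    let x := Lam * r0 / 4096 + 1
    let G := prodUp x M (G0 + rho)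
    if Nat.ble (Lam * h) (k * ONE * 4096) && Nat.ble (2000 * ln * G) (64 * ONE)
    then some G else none
  else none

/-- `λ (log f_2)'` -/
def m0two (w N : ℕ) (cn : ℤ) (ln : ℕ) (L Q : AP) : Option AP :=
  match mulA w N L L, mulA w N Q Q with
  | some L2, some W =>
    let g : AP := addA (addA L2 (intA (-1) W)) ([-cn * 2 ^ 154, -ln * 2 ^ 154], 0)
    match invA w N g, mulA w N W g with
    | some (v, _), some R => some (sclA (ln * 2 ^ 154) (addA R (intA (-1) v)))
    | _, _ => none
  | _, _ => none

/-- `λ (log f_1)'` -/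
def m0one (w N : ℕ) (cn : ℤ) (ln : ℕ) (L Q : AP) : Option AP :=
  match mulA w N L L, mulA w N Q Q with
  | some L2, some W =>
    let g : AP := addA (addA L2 (intA (-1) W)) ([-cn * 2 ^ 154, -ln * 2 ^ 154], 0)
    match mulA w N Q g with
    | some qg =>
      let h1 := addA qg ([2 ^ 160], 0)
      match invA w N h1, mulA w N Q h1 with
      | some (v, _), some B =>
        match mulA w N (addA L (intA (-1) Q)) v with
        | some A => some (sclA (ln * 2 ^ 154) (addA A (sclA (2 ^ 159) B)))
        | none => none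
      | _, _ => none
    | none => none
  | _, _ => none

/-- the check of a middle chart: `a_1, …, a_(K+1) > 0` on `|u| ≤ h` -/
def checkM (two : Bool) (K M N h r0 : ℕ) (tab : Tab) (cn : ℤ) (ln eta k : ℕ) (L Q : PL) : Bool :=
  match baseG M h r0 cn ln eta k L Q with
  | none => false
  | some G =>
    match tab with
    | (w0, c0) :: tab' =>
      match (if two then m0two w0 N cn ln (L, G) (Q, G) else m0one w0 N cn ln (L, G) (Q, G)) with
      | none => false
      | some m => chain false N h (2 ^ 160) 0 0 0 1 K tab' (intA (-1) (derA false c0 m)) ([], 0)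
    | [] => false

end TWP.K
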