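import Mathlib
import Pool.Agent.TWP.Eng2

/-! TWP: definitions for the soundness of the engine (series, norms, Taylor series of a derivation).
All of it is used only inside the proof. -/

namespace TWP

open PowerSeries Finset

/-- `∑_(m ≤ M) |c_m| r^m` -/
noncomputable def nrm (M : ℕ) (r : ℝ) (S : ℝ⟦X⟧) : ℝ :=
  ∑ m ∈ range (M + 1), |coeff m S| * r ^ m

/-- `∑ a_n ξ^n` for a list of integers -/
noncomputable def evZ (ξ : ℝ⟦X⟧) : List ℤ → ℝ⟦X⟧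
  | [] => 0
  | a :: P => C (a : ℝ) + ξ * evZ ξ P

/-- `S` is the polynomial `a.1 / 2^160` in `ξ` up to an error of norm `≤ a.2 / 2^160` -/
def Ap (M : ℕ) (r : ℝ) (ξ S : ℝ⟦X⟧) (a : K.AP) : Prop :=
  nrm M r (C ((2 : ℝ) ^ 160) * S - evZ ξ a.1) ≤ (a.2 : ℝ)

/-- abbreviation for the derivative of a series -/
noncomputable def D (S : ℝ⟦X⟧) : ℝ⟦X⟧ := d⁄dX ℝ S

/-- the derivation law of the chart variable: `D ξ = 1` (middle) or `D ξ = -ξ` (tails) -/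
def Law (tail : Bool) (ξ : ℝ⟦X⟧) : Prop := D ξ = if tail then -ξ else 1

/-- radii, weights and derivative constants fit together (order of the jets drops by one) -/
def TabOK (ξ : ℝ⟦X⟧) : ℕ → List ℝ → K.Tab → Prop
  | M, r :: r' :: rs, (w, c) :: wc :: tab =>
      0 < r ∧ w ≤ 4096 ∧ nrm M r ξ ≤ (w : ℝ) / 4096 ∧ 0 < r' ∧ r' ≤ r ∧
      (∀ n ≤ M, ((n : ℝ) + 1) * r' ^ n * 1024 ≤ c * r ^ (n + 1)) ∧ 1 ≤ M ∧
      TabOK ξ (M - 1) (r' :: rs) (wc :: tab)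
  | M, [r], [(w, _)] => 0 < r ∧ w ≤ 4096 ∧ nrm M r ξ ≤ (w : ℝ) / 4096
  | _, _, _ => False

/-- one Toda step for series: `2 a - a' + (zc/2^160) ξ^zs (hh + k1 L - k2 D L)`, `L = D a / a` -/
noncomputable def nextS (ξ : ℝ⟦X⟧) (zc : ℤ) (zs : ℕ) (hh k1 k2 : ℤ) (a a' : ℝ⟦X⟧) : ℝ⟦X⟧ :=
  2 * a - a' + C ((zc : ℝ) / 2 ^ 160) * ξ ^ zs *
    (C (hh : ℝ) + C (k1 : ℝ) * (D a * a⁻¹) - C (k2 : ℝ) * D (D a * a⁻¹))

/-- the sequence `a, next, next next, …` -/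
noncomputable def seqS (ξ : ℝ⟦X⟧) (zc : ℤ) (zs : ℕ) (hh k1 k2 : ℤ) : ℕ → ℝ⟦X⟧ → ℝ⟦X⟧ → ℝ⟦X⟧
  | 0, a, _ => a
  | k + 1, a, a' => seqS ξ zc zs hh k1 k2 k (nextS ξ zc zs hh k1 k2 a a') a

/-- the derivation `ψ d/dt` on functions -/
noncomputable def dl (ψ f : ℝ → ℝ) : ℝ → ℝ := fun t => ψ t * deriv f t

/-- formal Taylor series of `f` at `t` along the derivation `ψ d/dt` -/
noncomputable def Tay (ψ f : ℝ → ℝ) (t : ℝ) : ℝ⟦X⟧ :=
  PowerSeries.mk fun n => ((dl ψ)^[n] f) t / (n.factorial : ℝ)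

/-- the Toda chain of a function `m = (log f)'` : `toda 1 = - m'` -/
noncomputable def toda (m : ℝ → ℝ) : ℕ → ℝ → ℝ
  | 0 => fun _ => 0
  | 1 => fun t => - deriv m t
  | k + 2 => fun t => 2 * toda m (k + 1) t - toda m k t -
      deriv (fun s => deriv (toda m (k + 1)) s / toda m (k + 1) s) t

end TWP
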