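import Mathlib
import Pool.Agent.TWP.Jet

set_option autoImplicit false

/-!
# TWP, soundness of the engine: statements (MP_4cb661_pr)

Every module proves one `t_X : S_X` (hypotheses: the statements named in its row, as arguments
`(h : S_Y)`), in the namespace `TWP`. The norm lemmas are proved in `Pool/Agent/TWP/KNrm.lean`
(import it): `nrm_nonneg, nrm_add, nrm_sub, nrm_neg, nrm_C_mul, nrm_C, nrm_mono_M, nrm_mono_r, nrm_mul,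
nrm_pow_le_one, nrm_coeff_zero, nrm_D, nrm_inv`.
-/

namespace TWP

open PowerSeries Finset

/-- the conditions on radius and weight -/
def Okw (M : ℕ) (r : ℝ) (ξ : ℝ⟦X⟧) (w : ℕ) : Prop :=
  0 < r ∧ w ≤ 4096 ∧ nrm M r ξ ≤ (w : ℝ) / 4096

/-- the derivative constant `c/1024` fits to the radii `r → r'` and the order `M → M - 1` -/
def OkD (M : ℕ) (r r' : ℝ) (c : ℕ) : Prop :=
  0 < r' ∧ r' ≤ r ∧ (∀ n ≤ M, ((n : ℝ) + 1) * r' ^ n * 1024 ≤ c * r ^ (n + 1)) ∧ 1 ≤ M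

/-- EVA. Algebra of `evZ`. Proof: inductions on `P` (generalising `Q`), `C` is a ring homomorphism. -/
def S_EVA : Prop :=
  ∀ (ξ : ℝ⟦X⟧) (P Q : List ℤ) (k : ℤ) (n : ℕ),
    evZ ξ (K.addL P Q) = evZ ξ P + evZ ξ Q ∧
    evZ ξ (K.smulL k P) = C (k : ℝ) * evZ ξ P ∧
    evZ ξ (K.subL P Q) = evZ ξ P - evZ ξ Q ∧
    evZ ξ (K.shiftL n P) = ξ ^ n * evZ ξ P ∧
    evZ ξ (K.conv P Q) = evZ ξ P * evZ ξ Q

/-- MUL. The product through one big integer product. Hypothesis EVA.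
Proof. `pack (addL P Q) = pack P + pack Q`, `pack (smulL k P) = k pack P`,
`pack (conv P Q) = pack P * pack Q` (inductions). `(conv P Q).length ≤ P.length + Q.length`.
`maxAbs (addL P Q) ≤ maxAbs P + maxAbs Q`, `maxAbs (smulL k P) ≤ |k| maxAbs P`, so
`maxAbs (conv P Q) ≤ sumAbs P * maxAbs Q < 2^511`. If `maxAbs R < 2^511` and `R.length ≤ n` then
`evZ ξ (unpack n (pack R)) = evZ ξ R` (induction on `n` and `R`: for `Z = x + 2^512 Y`, `|x| < 2^511`: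
`(Z + 2^511) % 2^512 - 2^511 = x`, `(Z + 2^511) / 2^512 = Y`; for `R = []` all digits are `0`). Keep
`2^511`, `2^512` opaque for `omega` (generalise them to `B`, `2 * B`). -/
def S_MUL : Prop :=
  ∀ (ξ : ℝ⟦X⟧) (P Q : List ℤ), K.okMul P Q = true →
    evZ ξ (K.mulL P Q) = evZ ξ P * evZ ξ Q

/-- DER. Proof. `D` is a derivation (`PowerSeries.derivative ℝ` is a `Derivation`: `leibniz`), it kills
constants. `tail = false`: `D (evZ ξ P) = evZ ξ (derM P)`; induction: for all `n`,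
`C n * evZ ξ P + ξ * D (evZ ξ P) = evZ ξ (derMAux n P)`; so `D (C a + ξ * E) = E + ξ * D E =
evZ ξ (derMAux 1 P)`. `tail = true`: for all `n`,
`-(C n * evZ ξ P) + D (evZ ξ P) = evZ ξ (derTAux n P)` by induction (generalising `n`):
`D (ξ E) = -ξ E + ξ D E`. -/
def S_DER : Prop :=
  ∀ (tail : Bool) (ξ : ℝ⟦X⟧) (P : List ℤ), Law tail ξ →
    D (evZ ξ P) = evZ ξ (K.der tail P)

/-- NL. Proof. Induction: `nrm (C a) = |a|`, `nrm (ξ * E) ≤ (w/4096) nL w P ≤ nL w P * w / 4096 + 1`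
(natural division, `Nat.lt_div_mul_add` or `Nat.div_add_mod`, cast to `ℝ`). -/
def S_NL : Prop :=
  ∀ (M : ℕ) (r : ℝ) (ξ : ℝ⟦X⟧) (w : ℕ) (P : List ℤ), 0 ≤ r → nrm M r ξ ≤ (w : ℝ) / 4096 →
    nrm M r (evZ ξ P) ≤ (K.nL w P : ℝ)

/-- SC. Proof. Induction: the error of one coefficient is `a z / 2^160 - ⌊a z / 2^160⌋ ∈ [0, 1)`
(`Int` division by a positive number), and `nrm (ξ * E) ≤ nrm E`. -/
def S_SC : Prop :=
  ∀ (M : ℕ) (r : ℝ) (ξ : ℝ⟦X⟧) (z : ℤ) (P : List ℤ), 0 ≤ r → nrm M r ξ ≤ 1 →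
    nrm M r (C ((z : ℝ) / 2 ^ 160) * evZ ξ P - evZ ξ (K.scL z P)) ≤ (P.length : ℝ)

/-- LIN. The linear operations on `Ap`. Hypotheses EVA, DER, SC. Proof. With
`α = C (2^160) * S - evZ ξ a.1` (`nrm α ≤ a.2`), `β` in the same way for `b`: the errors are `α + β`,
`C p * α`, `C (p/2^160) * α + (C (p/2^160) * evZ ξ a.1 - evZ ξ (scL p a.1))`,
`D α` (`nrm (M-1) r' (D α) ≤ (c/1024) nrm M r α`, `nrm_D`; DER); natural division and `+ 1`. -/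
def S_LIN : Prop :=
  (∀ (M : ℕ) (r : ℝ) (ξ S T : ℝ⟦X⟧) (a b : K.AP), 0 ≤ r → Ap M r ξ S a → Ap M r ξ T b →
    Ap M r ξ (S + T) (K.addA a b)) ∧
  (∀ (M : ℕ) (r : ℝ) (ξ S : ℝ⟦X⟧) (a : K.AP) (p : ℤ), 0 ≤ r → Ap M r ξ S a →
    Ap M r ξ (C (p : ℝ) * S) (K.intA p a)) ∧
  (∀ (M : ℕ) (r : ℝ) (ξ S : ℝ⟦X⟧) (a : K.AP) (p : ℤ), 0 ≤ r → nrm M r ξ ≤ 1 → Ap M r ξ S a →
    Ap M r ξ (C ((p : ℝ) / 2 ^ 160) * S) (K.sclA p a)) ∧
  (∀ (M M' : ℕ) (r r' : ℝ) (ξ S : ℝ⟦X⟧) (a : K.AP), M' ≤ M → 0 ≤ r' → r' ≤ r → Ap M r ξ S a →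
    Ap M' r' ξ S a) ∧
  (∀ (tail : Bool) (M c : ℕ) (r r' : ℝ) (ξ S : ℝ⟦X⟧) (a : K.AP), Law tail ξ → OkD M r r' c →
    Ap M r ξ S a → Ap (M - 1) r' ξ (D S) (K.derA tail c a)) ∧
  (∀ (M : ℕ) (r : ℝ) (ξ : ℝ⟦X⟧) (P : List ℤ), 0 ≤ r →
    Ap M r ξ (C (((2 : ℝ) ^ 160)⁻¹) * evZ ξ P) (P, 0))

/-- MULA. Hypotheses EVA, MUL, NL. Proof. `A = evZ ξ a.1`, `B = evZ ξ b.1`, `α`, `β` the errors, `R` the
rounded product: `2^160 S T = (A + α)(B + β)/2^160`, so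
`2^160 S T - evZ R = ((A B - 2^160 evZ R) + A β + B α + α β)/2^160`, `A B - 2^160 evZ R` is the `evZ` of
the list `subL (mulL a.1 b.1) (smulL (2^160) R)` (MUL, EVA), NL for the three lists. -/
def S_MULA : Prop :=
  ∀ (M : ℕ) (r : ℝ) (ξ S T : ℝ⟦X⟧) (w N : ℕ) (a b c : K.AP), Okw M r ξ w →
    K.mulA w N a b = some c → Ap M r ξ S a → Ap M r ξ T b → Ap M r ξ (S * T) c

/-- INVA. Hypotheses EVA, MUL, NL. Proof. `V := C (2^160)⁻¹ * evZ ξ v.1`, `α` the error of `a`. Then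
`1 - V S = (2^320 - evZ v * evZ a.1)/2^320 - evZ v * α/2^320` has `nrm ≤ d/2^160 ≤ 9/10`
(`d` as in `invA`; MUL, EVA, NL); `nrm_inv` (Neumann): `coeff 0 S ≠ 0`,
`nrm S⁻¹ ≤ nrm V/(1 - d/2^160) ≤ nL v/(2^160 - d) ≤ ni/2^160`,
`nrm (S⁻¹ - V) ≤ nrm V (d/2^160)/(1 - d/2^160)`, times `2^160`: `≤ ni d/2^160`. -/
def S_INVA : Prop :=
  ∀ (M : ℕ) (r : ℝ) (ξ S : ℝ⟦X⟧) (w N ni : ℕ) (a v : K.AP), Okw M r ξ w →
    K.invA w N a = some (v, ni) → Ap M r ξ S a →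
    coeff 0 S ≠ 0 ∧ Ap M r ξ S⁻¹ v ∧ nrm M r S⁻¹ ≤ (ni : ℝ) / 2 ^ 160

/-- LOG. The error of the logarithmic derivative (first half of `stepA`). Hypotheses EVA, MUL, DER, NL,
INVA. Proof. `α = C (2^160) * S - evZ ξ a.1`. `2^160 (D S * S⁻¹) - evZ l = S⁻¹ (2^160 D S - evZ l * S)`
(`coeff 0 S ≠ 0`, so `S * S⁻¹ = 1`), and
`2^160 D S - evZ l * S = (2^160 evZ d - evZ l * evZ a.1)/2^160 + D α - evZ l * α/2^160`
(`D (evZ a.1) = evZ d`, DER). `nrm (M-1) r' (D α) ≤ (c0/1024) a.2` (`nrm_D`),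
`nrm (M-1) r' α ≤ nrm M r α ≤ a.2`, `nrm (M-1) r' S⁻¹ ≤ ni/2^160`. Here `nrm (M-1) r' ξ ≤ w1/4096`. -/
def S_LOG : Prop :=
  ∀ (tail : Bool) (M : ℕ) (r r' : ℝ) (ξ S : ℝ⟦X⟧) (w0 w1 c0 N ni : ℕ) (a v : K.AP)
    (l : List ℤ), Law tail ξ → Okw M r ξ w0 → OkD M r r' c0 → Okw (M - 1) r' ξ w1 →
    Ap M r ξ S a → K.invA w0 N a = some (v, ni) → K.okMul l a.1 = true →
    coeff 0 S ≠ 0 ∧
    Ap (M - 1) r' ξ (D S * S⁻¹)
      (l, ni * (K.nL w1 (K.subL (K.smulL (2 ^ 160) (K.der tail a.1)) (K.mulL l a.1)) / K.ONE + 1 +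
          (a.2 * c0 / 1024 + 1) + (K.nL w1 l * a.2 / K.ONE + 1)) / K.ONE + 1)

/-- STEP. Hypotheses EVA, DER, SC, LIN, LOG. Proof. Unfold `stepA` (split the matches). LOG gives
`Ap (M-1) r' (D S * S⁻¹) (l, el)`, LIN (derivative) `Ap (M-2) r'' (D (D S * S⁻¹)) (der tail l, edl)`,
then `Ap (M-2) r''` of `C hh + C k1 * L - C k2 * D L` is `(T, eT)` (linear combination; the list
`[hh * 2^160]` has no error), `sclA zc` of it, and the product by `ξ^zs` (`nrm (ξ^zs * E) ≤ nrm E`,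
EVA for `shiftL`), and `2 S - S'`. -/
def S_STEP : Prop :=
  ∀ (tail : Bool) (M : ℕ) (r r' r'' : ℝ) (ξ S S' : ℝ⟦X⟧) (w0 w1 w2 c0 c1 N : ℕ) (zc : ℤ) (zs : ℕ)
    (hh k1 k2 : ℤ) (a ap b : K.AP), Law tail ξ → Okw M r ξ w0 → OkD M r r' c0 →
    Okw (M - 1) r' ξ w1 → OkD (M - 1) r' r'' c1 → Okw (M - 2) r'' ξ w2 →
    Ap M r ξ S a → Ap M r ξ S' ap →
    K.stepA tail N w0 w1 c0 c1 zc zs hh k1 k2 a ap = some b →
    coeff 0 S ≠ 0 ∧ Ap (M - 2) r'' ξ (nextS ξ zc zs hh k1 k2 S S') b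

/-- POS. Proof. `a.1 = x :: P`. `coeff 0 (2^160 S) = coeff 0 (evZ ξ a.1) + coeff 0 α`,
`|coeff 0 α| ≤ nrm α ≤ a.2`; `coeff 0 (evZ ξ (x :: P)) = x + ξ0 e` with `e = coeff 0 (evZ ξ P)`,
`ξ0 = coeff 0 ξ`, `|e| ≤ nL h P` (induction, or NL with `M = 0`: `nrm 0 r E = |coeff 0 E|`), so
`|ξ0 e| ≤ nL h P * h / 4096 + 1` (natural division). -/
def S_POS : Prop :=
  ∀ (M : ℕ) (r : ℝ) (ξ S : ℝ⟦X⟧) (h : ℕ) (a : K.AP), 0 ≤ r →
    |coeff 0 ξ| ≤ (h : ℝ) / 4096 → Ap M r ξ S a → K.posA h a = true → 0 < coeff 0 S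

/-- CHAIN. Hypotheses LIN, STEP, POS. Proof. Induction on `m` (generalising everything). `m = 0`: POS.
`m + 1`: the table has at least three entries, so `rs = r :: r' :: r'' :: rs'`; `TabOK` unfolds to the
conditions of STEP; apply the induction hypothesis to `M - 2`, `r'' :: rs'`, the result of the step and
`a` (LIN, monotonicity). `k = 0`: POS; `k + 1`: `seqS (k+1) S S' = seqS k (nextS S S') S`. -/
def S_CHAIN : Prop :=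
  ∀ (tail : Bool) (N h : ℕ) (zc : ℤ) (zs : ℕ) (hh k1 k2 : ℤ) (m M : ℕ) (ξ S S' : ℝ⟦X⟧)
    (rs : List ℝ) (tab : K.Tab) (a ap : K.AP), 2 * m + 1 ≤ tab.length →
    K.chain tail N h zc zs hh k1 k2 m tab a ap = true → TabOK ξ M rs tab → Law tail ξ →
    |coeff 0 ξ| ≤ (h : ℝ) / 4096 → Ap M (rs.headD 1) ξ S a → Ap M (rs.headD 1) ξ S' ap →
    ∀ k ≤ m, 0 < coeff 0 (seqS ξ zc zs hh k1 k2 k S S')

end TWP
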