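import Mathlib
import Pool.Agent.TWP.KSt

set_option autoImplicit false

/-! TWP: truncated weighted l1 norms of formal power series (proved). -/

namespace TWP

open PowerSeries Finset

theorem nrm_nonneg (M : ℕ) {r : ℝ} (hr : 0 ≤ r) (A : ℝ⟦X⟧) : 0 ≤ nrm M r A :=
  sum_nonneg fun m _ => mul_nonneg (abs_nonneg _) (pow_nonneg hr m)

theorem nrm_add (M : ℕ) {r : ℝ} (hr : 0 ≤ r) (A B : ℝ⟦X⟧) :
    nrm M r (A + B) ≤ nrm M r A + nrm M r B := by
  unfold nrm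
  rw [← sum_add_distrib]
  refine sum_le_sum fun m _ => ?_
  rw [← add_mul, map_add]
  exact mul_le_mul_of_nonneg_right (abs_add_le _ _) (pow_nonneg hr m)

theorem nrm_neg (M : ℕ) (r : ℝ) (A : ℝ⟦X⟧) : nrm M r (-A) = nrm M r A := by
  unfold nrm; simp

theorem nrm_zero (M : ℕ) (r : ℝ) : nrm M r 0 = 0 := by
  unfold nrm; simp

theorem nrm_sub (M : ℕ) {r : ℝ} (hr : 0 ≤ r) (A B : ℝ⟦X⟧) :
    nrm M r (A - B) ≤ nrm M r A + nrm M r B := by
  have := nrm_add M hr A (-B)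
  rwa [nrm_neg, ← sub_eq_add_neg] at this

theorem nrm_C_mul (M : ℕ) (r : ℝ) (c : ℝ) (A : ℝ⟦X⟧) : nrm M r (C c * A) = |c| * nrm M r A := by
  unfold nrm
  rw [mul_sum]
  refine sum_congr rfl fun m _ => ?_
  rw [coeff_C_mul, abs_mul, mul_assoc]

theorem nrm_C (M : ℕ) (r : ℝ) (c : ℝ) : nrm M r (C c : ℝ⟦X⟧) = |c| := by
  unfold nrm
  rw [sum_eq_single 0]
  · simp
  · intro m _ hm; simp [coeff_C, hm]
  · intro h; simp at h

theorem nrm_one (M : ℕ) (r : ℝ) : nrm M r (1 : ℝ⟦X⟧) = 1 := by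
  have := nrm_C M r 1
  rwa [map_one, abs_one] at this

theorem nrm_mono_M {M M' : ℕ} (h : M ≤ M') {r : ℝ} (hr : 0 ≤ r) (A : ℝ⟦X⟧) :
    nrm M r A ≤ nrm M' r A :=
  sum_le_sum_of_subset_of_nonneg (range_mono (by omega))
    fun m _ _ => mul_nonneg (abs_nonneg _) (pow_nonneg hr m)

theorem nrm_mono_r (M : ℕ) {r r' : ℝ} (hr : 0 ≤ r) (h : r ≤ r') (A : ℝ⟦X⟧) :
    nrm M r A ≤ nrm M r' A :=
  sum_le_sum fun m _ => mul_le_mul_of_nonneg_left (pow_le_pow_left₀ hr h m) (abs_nonneg _)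

theorem nrm_mul (M : ℕ) {r : ℝ} (hr : 0 ≤ r) (A B : ℝ⟦X⟧) :
    nrm M r (A * B) ≤ nrm M r A * nrm M r B := by
  unfold nrm
  have h1 : ∀ m ∈ range (M + 1), |coeff m (A * B)| * r ^ m ≤
      ∑ p ∈ antidiagonal m, (|coeff p.1 A| * r ^ p.1) * (|coeff p.2 B| * r ^ p.2) := by
    intro m _
    rw [coeff_mul]
    calc |∑ p ∈ antidiagonal m, coeff p.1 A * coeff p.2 B| * r ^ m
        ≤ (∑ p ∈ antidiagonal m, |coeff p.1 A * coeff p.2 B|) * r ^ m :=
          mul_le_mul_of_nonneg_right (abs_sum_le_sum_abs _ _) (pow_nonneg hr m)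
      _ = _ := by
          rw [sum_mul]
          refine sum_congr rfl fun p hp => ?_
          rw [HasAntidiagonal.mem_antidiagonal] at hp
          rw [abs_mul, ← hp, pow_add]; ring
  refine (sum_le_sum h1).trans ?_
  rw [sum_mul_sum, ← sum_product']
  rw [sum_sigma']
  refine le_trans (le_of_eq ?_) (sum_le_sum_of_subset_of_nonneg
    (s := (range (M+1) ×ˢ range (M+1)).filter (fun p => p.1 + p.2 < M + 1)) (filter_subset _ _) ?_)
  · refine sum_bij' (fun x _ => x.2) (fun p _ => ⟨p.1 + p.2, p⟩) ?_ ?_ ?_ ?_ ?_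
    · rintro ⟨m, p⟩ h
      simp only [mem_sigma, mem_range, HasAntidiagonal.mem_antidiagonal] at h
      simp only [mem_filter, mem_product, mem_range]
      omega
    · rintro p h
      simp only [mem_filter, mem_product, mem_range] at h
      rw [mem_sigma]
      exact ⟨mem_range.2 h.2, HasAntidiagonal.mem_antidiagonal.2 rfl⟩
    · rintro ⟨m, p⟩ h
      simp only [mem_sigma, mem_range, HasAntidiagonal.mem_antidiagonal] at h
      obtain ⟨_, h2⟩ := h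
      subst h2; rfl
    · intro p _; rfl
    · intro x _; rfl
  · intro p _ _
    exact mul_nonneg (mul_nonneg (abs_nonneg _) (pow_nonneg hr _))
      (mul_nonneg (abs_nonneg _) (pow_nonneg hr _))

theorem nrm_pow_le_one (M : ℕ) {r : ℝ} (hr : 0 ≤ r) (A : ℝ⟦X⟧) (h : nrm M r A ≤ 1) (n : ℕ) :
    nrm M r (A ^ n) ≤ 1 := by
  induction n with
  | zero => rw [pow_zero, nrm_one]
  | succ n ih =>
    rw [pow_succ]
    calc nrm M r (A ^ n * A) ≤ nrm M r (A ^ n) * nrm M r A := nrm_mul M hr _ _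
      _ ≤ 1 * 1 := mul_le_mul ih h (nrm_nonneg M hr _) zero_le_one
      _ = 1 := one_mul 1

theorem nrm_coeff_zero (M : ℕ) {r : ℝ} (hr : 0 ≤ r) (A : ℝ⟦X⟧) : |coeff 0 A| ≤ nrm M r A := by
  have : |coeff 0 A| * r ^ 0 ≤ nrm M r A :=
    single_le_sum (f := fun m => |coeff m A| * r ^ m)
      (fun m _ => mul_nonneg (abs_nonneg _) (pow_nonneg hr m)) (mem_range.2 (Nat.succ_pos M))
  simpa using this

/-- Neumann: `V` approximates the inverse of `A`. -/
theorem nrm_inv (M : ℕ) {r q : ℝ} (hr : 0 ≤ r) (A V : ℝ⟦X⟧) (h : nrm M r (1 - V * A) ≤ q)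
    (hq : q < 1) :
    coeff 0 A ≠ 0 ∧ nrm M r A⁻¹ ≤ nrm M r V / (1 - q) ∧
      nrm M r (A⁻¹ - V) ≤ nrm M r V * q / (1 - q) := by
  have h0 : coeff 0 A ≠ 0 := by
    intro h0
    have h2 := nrm_coeff_zero M hr (1 - V * A)
    have h3 : coeff 0 (1 - V * A) = 1 := by
      have : coeff 0 (V * A) = coeff 0 V * coeff 0 A := by simp [coeff_mul]
      rw [map_sub, this, h0]; simp
    rw [h3, abs_one] at h2
    linarith
  have hc : constantCoeff A ≠ 0 := by simpa using h0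
  have hA : A * A⁻¹ = 1 := PowerSeries.mul_inv_cancel _ hc
  have hq0 : 0 ≤ q := (nrm_nonneg M hr _).trans h
  have h1q : 0 < 1 - q := by linarith
  have e1 : A⁻¹ = V + (1 - V * A) * A⁻¹ := by
    have : V * A * A⁻¹ = V := by rw [mul_assoc, hA, mul_one]
    rw [sub_mul, this]; ring
  have h4 : nrm M r A⁻¹ ≤ nrm M r V + q * nrm M r A⁻¹ := by
    calc nrm M r A⁻¹ = nrm M r (V + (1 - V * A) * A⁻¹) := by rw [← e1]
      _ ≤ nrm M r V + nrm M r ((1 - V * A) * A⁻¹) := nrm_add M hr _ _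
      _ ≤ nrm M r V + nrm M r (1 - V * A) * nrm M r A⁻¹ := by
          gcongr; exact nrm_mul M hr _ _
      _ ≤ _ := by
          gcongr; exact nrm_nonneg M hr _
  have h5 : nrm M r A⁻¹ ≤ nrm M r V / (1 - q) := by
    rw [le_div_iff₀ h1q]; linarith
  refine ⟨h0, h5, ?_⟩
  have e2 : A⁻¹ - V = (1 - V * A) * A⁻¹ := by
    conv_lhs => rw [e1]
    ring
  rw [e2]
  calc nrm M r ((1 - V * A) * A⁻¹) ≤ nrm M r (1 - V * A) * nrm M r A⁻¹ := nrm_mul M hr _ _
    _ ≤ q * (nrm M r V / (1 - q)) := by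
        gcongr; exact nrm_nonneg M hr _
    _ = _ := by ring

/-- derivative with loss of radius -/
theorem nrm_D (M c : ℕ) {r r' : ℝ} (hr : 0 ≤ r) (h : OkD M r r' c) (A : ℝ⟦X⟧) :
    nrm (M - 1) r' (D A) ≤ (c : ℝ) / 1024 * nrm M r A := by
  obtain ⟨_, _, hc, hM⟩ := h
  obtain ⟨M, rfl⟩ : ∃ m, M = m + 1 := ⟨M - 1, by omega⟩
  unfold nrm D
  rw [Nat.add_sub_cancel, mul_sum, sum_range_succ' _ (M + 1)]
  have h0 : 0 ≤ (c : ℝ) / 1024 * (|coeff 0 A| * r ^ 0) := by positivity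
  have h2 : ∑ m ∈ range (M + 1), |coeff m (derivative ℝ A)| * r' ^ m ≤
      ∑ m ∈ range (M + 1), (c : ℝ) / 1024 * (|coeff (m + 1) A| * r ^ (m + 1)) := by
    refine sum_le_sum fun m hm => ?_
    rw [coeff_derivative, abs_mul, abs_of_nonneg (by positivity : (0 : ℝ) ≤ (m : ℝ) + 1)]
    have := hc m (by have := mem_range.1 hm; omega)
    calc |coeff (m + 1) A| * ((m : ℝ) + 1) * r' ^ m
        = |coeff (m + 1) A| * ((m + 1 : ℝ) * r' ^ m) := by ring
      _ ≤ |coeff (m + 1) A| * ((c : ℝ) / 1024 * r ^ (m + 1)) := by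
          refine mul_le_mul_of_nonneg_left ?_ (abs_nonneg _)
          linarith
      _ = _ := by ring
  linarith

end TWP
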