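import Pool.Agent.TWP.StB
import Pool.Agent.TWP.KNrm

set_option autoImplicit false

/-! TWP, block B: exponential series (module BEX). -/

namespace TWP

open PowerSeries Finset

namespace BEXaux

theorem abs_coeff (A : ℝ⟦X⟧) (h : ∀ n : ℕ, |coeff (n + 1) A| * ((n : ℝ) + 1) = |coeff n A|)
    (n : ℕ) : |coeff n A| = |coeff 0 A| / (n.factorial : ℝ) := by
  induction n with
  | zero => simp
  | succ n ih =>
    have h1 := h n
    rw [ih] at h1
    have h2 : (0 : ℝ) < (n.factorial : ℝ) := by exact_mod_cast n.factorial_pos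
    have h3 : (0 : ℝ) < (n : ℝ) + 1 := by positivity
    rw [Nat.factorial_succ]
    push_cast
    rw [eq_div_iff (by positivity)]
    calc |coeff (n + 1) A| * (((n : ℝ) + 1) * (n.factorial : ℝ))
        = (|coeff (n + 1) A| * ((n : ℝ) + 1)) * (n.factorial : ℝ) := by ring
      _ = |coeff 0 A| / (n.factorial : ℝ) * (n.factorial : ℝ) := by rw [h1]
      _ = |coeff 0 A| := by field_simp

theorem nrm_le (A : ℝ⟦X⟧) (h : ∀ n : ℕ, |coeff (n + 1) A| * ((n : ℝ) + 1) = |coeff n A|)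
    (M : ℕ) (r : ℝ) (hr : 0 ≤ r) : nrm M r A ≤ |coeff 0 A| * Real.exp r := by
  unfold nrm
  calc ∑ m ∈ range (M + 1), |coeff m A| * r ^ m
      = |coeff 0 A| * ∑ m ∈ range (M + 1), r ^ m / (m.factorial : ℝ) := by
        rw [mul_sum]
        refine sum_congr rfl fun m _ => ?_
        rw [abs_coeff A h m]
        ring
    _ ≤ |coeff 0 A| * Real.exp r :=
        mul_le_mul_of_nonneg_left (Real.sum_le_exp_of_nonneg hr _) (abs_nonneg _)

theorem rec_of (A : ℝ⟦X⟧) (h : D A = -A ∨ D A = A) (n : ℕ) :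
    |coeff (n + 1) A| * ((n : ℝ) + 1) = |coeff n A| := by
  have h1 : coeff n (D A) = coeff (n + 1) A * ((n : ℝ) + 1) := by
    unfold D; rw [coeff_derivative]
  have h2 : |coeff n (D A)| = |coeff n A| := by
    rcases h with h | h
    · rw [h, map_neg, abs_neg]
    · rw [h]
  rw [← h2, h1, abs_mul, abs_of_nonneg (by positivity : (0 : ℝ) ≤ (n : ℝ) + 1)]

end BEXaux

theorem t_BEX : S_BEX := by
  intro ξ hD h0
  have hc : constantCoeff ξ ≠ 0 := by
    rw [← coeff_zero_eq_constantCoeff_apply]; exact h0.ne'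
  have h1 : ξ * ξ⁻¹ = 1 := PowerSeries.mul_inv_cancel _ hc
  have h2 : D ξ⁻¹ = ξ⁻¹ := by
    have h3 : D ξ⁻¹ = -ξ⁻¹ ^ 2 * D ξ := by
      unfold D; exact PowerSeries.derivative_inv' ξ
    rw [h3, hD]
    calc -ξ⁻¹ ^ 2 * -ξ = ξ⁻¹ * (ξ * ξ⁻¹) := by ring
      _ = ξ⁻¹ := by rw [h1, mul_one]
  have h4 : coeff 0 ξ⁻¹ = (coeff 0 ξ)⁻¹ := by
    have h5 : coeff 0 (ξ * ξ⁻¹) = coeff 0 ξ * coeff 0 ξ⁻¹ := by simp [coeff_mul]
    rw [h1] at h5
    have h6 : (1 : ℝ) = coeff 0 ξ * coeff 0 ξ⁻¹ := by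
      rw [← h5]; simp
    exact eq_inv_of_mul_eq_one_right h6.symm
  refine ⟨h2, h1, h4, fun M r hr => ⟨?_, ?_⟩⟩
  · have := BEXaux.nrm_le ξ (BEXaux.rec_of ξ (Or.inl hD)) M r hr
    rwa [abs_of_pos h0] at this
  · have := BEXaux.nrm_le ξ⁻¹ (BEXaux.rec_of ξ⁻¹ (Or.inr h2)) M r hr
    rwa [h4, abs_of_pos (inv_pos.2 h0)] at this

end TWP
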