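import Mathlib

/-! TWP: the definitions of the final statement (MP_4cb661_pr). -/

namespace TWP

open Filter Topology MeasureTheory

/-- `f` is a Polya frequency function of order `r` (`PF_r`): it is measurable and all its
translation minors of order `m ≤ r` are nonnegative. -/
def IsPF (r : ℕ) (f : ℝ → ℝ) : Prop :=
  Measurable f ∧ ∀ m : ℕ, 1 ≤ m → m ≤ r → ∀ x y : Fin m → ℝ, StrictMono x → StrictMono y →
    0 ≤ (Matrix.of fun i j => f (x i - y j)).det

/-- `q` is the Hastings-McLeod solution of Painlevé II: `q'' = t q + 2 q³` on the whole line,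
`q → 0` at `+∞` and `q(t) ~ √(-t/2)` at `-∞`. -/
structure IsHM (q : ℝ → ℝ) : Prop where
  ode1 : ∀ t, HasDerivAt q (deriv q t) t
  ode2 : ∀ t, HasDerivAt (deriv q) (t * q t + 2 * q t ^ 3) t
  right : Tendsto q atTop (𝓝 0)
  left : Tendsto (fun t => q t / Real.sqrt (-t / 2)) atBot (𝓝 1)

/-- the distribution function `F_2` -/
noncomputable def cdfTwo (q : ℝ → ℝ) (t : ℝ) : ℝ :=
  Real.exp (-∫ x in Set.Ioi t, (x - t) * q x ^ 2)

/-- the distribution function `F_1` -/
noncomputable def cdfOne (q : ℝ → ℝ) (t : ℝ) : ℝ :=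
  Real.exp (-(1 / 2) * ∫ x in Set.Ioi t, (q x + (x - t) * q x ^ 2))

/-- the density of `TW_2` -/
noncomputable def fTwo (q : ℝ → ℝ) : ℝ → ℝ := deriv (cdfTwo q)

/-- the density of `TW_1` -/
noncomputable def fOne (q : ℝ → ℝ) : ℝ → ℝ := deriv (cdfOne q)

end TWP
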