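import Pool.Agent.TWP.EQL
import Pool.Agent.TWP.Defs

/-
TWP, block E: existence, uniqueness and the elementary facts for `TWP.IsHM`.
-/

namespace TWP

open Filter Topology Set

open Pool.Agent.TWP.E in
theorem IsHM.hm {q : ℝ → ℝ} (h : IsHM q) : HM q (deriv q) :=
  ⟨fun t => ⟨h.ode1 t, h.ode2 t⟩, h.right, h.left⟩

open Pool.Agent.TWP.E in
theorem IsHM.of_hm {q p : ℝ → ℝ} (h : HM q p) : IsHM q := by
  have e : deriv q = p := by
    funext t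
    exact ((h.1 t).1).deriv
  refine ⟨fun t => ?_, fun t => ?_, h.2.1, h.2.2⟩
  · rw [e]
    exact (h.1 t).1
  · rw [e]
    exact (h.1 t).2

/-- there is exactly one Hastings-McLeod solution -/
theorem existsUnique_isHM : ∃! q : ℝ → ℝ, IsHM q := by
  obtain ⟨H, P, h, hu⟩ := Pool.Agent.TWP.E.exists_unique_hm
  exact ⟨H, IsHM.of_hm h, fun q hq => hu q (deriv q) hq.hm⟩

theorem IsHM.pos {q : ℝ → ℝ} (h : IsHM q) (t : ℝ) : 0 < q t :=
  (Pool.Agent.TWP.E.hm_good h.hm).2.2.1 t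

theorem IsHM.deriv_neg {q : ℝ → ℝ} (h : IsHM q) (t : ℝ) : deriv q t < 0 :=
  (Pool.Agent.TWP.E.hm_good h.hm).2.2.2 t

theorem IsHM.band {q : ℝ → ℝ} (h : IsHM q) (t : ℝ) :
    Pool.Agent.TWP.E.Pm t ≤ q t ∧ q t ≤ Pool.Agent.TWP.E.Pp t :=
  (Pool.Agent.TWP.E.hm_good h.hm).2.1 t

theorem IsHM.dec {q : ℝ → ℝ} (h : IsHM q) :
    ∃ C : ℝ, ∀ t : ℝ, 2 ≤ t → |q t| ≤ C * Real.exp (-t) ∧ |deriv q t| ≤ C * Real.exp (-t) :=
  Pool.Agent.TWP.E.hm_dec h.hm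

theorem IsHM.upb {q : ℝ → ℝ} (h : IsHM q) (t : ℝ) (ht : 1 ≤ t) :
    q t ≤ Real.exp (-(2 / 3) * (t * Real.sqrt t)) :=
  Pool.Agent.TWP.E.uPB q (deriv q) (Pool.Agent.TWP.E.hm_good h.hm) t ht

theorem IsHM.one_le {q : ℝ → ℝ} (h : IsHM q) : q 1 ≤ 1 / 2 := by
  have h1 := (h.band 1).2
  have h2 : Pool.Agent.TWP.E.Pp 1 < 1 / 2 := by
    obtain ⟨-, -, -, -, -, -, h7, -⟩ := Pool.Agent.TWP.E.t_BB
    exact h7
  linarith

/-- `q` and `q'` are bounded on `[1, ∞)` -/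
theorem IsHM.bdd {q : ℝ → ℝ} (h : IsHM q) :
    ∃ C : ℝ, ∀ t : ℝ, 1 ≤ t → |q t| ≤ C ∧ |deriv q t| ≤ C := by
  have hmono : ∀ t : ℝ, 1 ≤ t → q t ≤ q 1 := by
    have : AntitoneOn q (Ici 1) := by
      refine antitoneOn_of_deriv_nonpos (convex_Ici 1)
        (fun t _ => (h.ode1 t).continuousAt.continuousWithinAt)
        (fun t _ => (h.ode1 t).differentiableAt.differentiableWithinAt)
        (fun t _ => (h.deriv_neg t).le)
    exact fun t ht => this (mem_Ici.2 le_rfl) (mem_Ici.2 ht) ht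
  have hdm : ∀ t : ℝ, 1 ≤ t → deriv q 1 ≤ deriv q t := by
    have : MonotoneOn (deriv q) (Ici 1) := by
      refine monotoneOn_of_deriv_nonneg (convex_Ici 1)
        (fun t _ => (h.ode2 t).continuousAt.continuousWithinAt)
        (fun t _ => (h.ode2 t).differentiableAt.differentiableWithinAt)
        (fun t ht => ?_)
      rw [(h.ode2 t).deriv]
      have ht1 : 1 < t := by simpa using ht
      have := h.pos t
      positivity
    exact fun t ht => this (mem_Ici.2 le_rfl) (mem_Ici.2 ht) ht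
  refine ⟨q 1 + |deriv q 1|, fun t ht => ⟨?_, ?_⟩⟩
  · rw [abs_of_pos (h.pos t)]
    have := hmono t ht
    have := abs_nonneg (deriv q 1)
    linarith
  · rw [abs_of_neg (h.deriv_neg t)]
    have := hdm t ht
    have := neg_abs_le (deriv q 1)
    have := h.pos 1
    linarith

theorem IsHM.ql {q : ℝ → ℝ} (h : IsHM q) : QL q (fun t => deriv q t / q t) :=
  Pool.Agent.TWP.E.hm_ql h.hm

theorem IsHM.l_neg {q : ℝ → ℝ} (h : IsHM q) (t : ℝ) : deriv q t / q t < 0 :=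
  Pool.Agent.TWP.E.hm_l_neg h.hm t

theorem IsHM.g_pos {q : ℝ → ℝ} (h : IsHM q) (t : ℝ) : 0 < gf q (fun t => deriv q t / q t) t :=
  Pool.Agent.TWP.E.hm_g_pos h.hm t

/-- `q² g` is the energy, its derivative is `-q²`, it tends to 0 at `+∞` -/
theorem IsHM.g_eq {q : ℝ → ℝ} (h : IsHM q) (t : ℝ) :
    q t ^ 2 * gf q (fun t => deriv q t / q t) t = Pool.Agent.TWP.E.En q (deriv q) t :=
  Pool.Agent.TWP.E.hm_g_eq h.hm t

theorem IsHM.en_deriv {q : ℝ → ℝ} (h : IsHM q) (t : ℝ) :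
    HasDerivAt (Pool.Agent.TWP.E.En q (deriv q)) (-(q t) ^ 2) t :=
  Pool.Agent.TWP.E.en_deriv h.hm.1 t

theorem IsHM.en_tendsto {q : ℝ → ℝ} (h : IsHM q) :
    Tendsto (Pool.Agent.TWP.E.En q (deriv q)) atTop (𝓝 0) :=
  Pool.Agent.TWP.E.en_tendsto h.dec

theorem IsHM.toH {q : ℝ → ℝ} (h : IsHM q) : H.HM q (deriv q) :=
  Pool.Agent.TWP.E.hm_H h.hm

end TWP
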