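import Mathlib

/-!
# TWP, tails (helper66): integer polynomials as coefficient lists, for kernel computations
-/

set_option autoImplicit false

namespace Pool.Agent.TWP.Tail

/-- value of the polynomial with the coefficient list `l` at `y` -/
noncomputable def ev : List ℤ → ℝ → ℝ
  | [], _ => 0
  | a :: l, y => (a : ℝ) + y * ev l y

/-- value of the derivative -/
noncomputable def dv : List ℤ → ℝ → ℝ
  | [], _ => 0
  | _ :: l, y => ev l y + y * dv l y

def addL : List ℤ → List ℤ → List ℤ
  | [], b => b
  | a :: l, [] => a :: l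
  | a :: l, b :: m => (a + b) :: addL l m

def smulL (c : ℤ) : List ℤ → List ℤ
  | [] => []
  | a :: l => (c * a) :: smulL c l

def mulL : List ℤ → List ℤ → List ℤ
  | [], _ => []
  | a :: l, b => addL (smulL a b) (0 :: mulL l b)

/-- the `n`-th coefficient is multiplied by `k + n` -/
def thL : ℤ → List ℤ → List ℤ
  | _, [] => []
  | k, a :: l => (k * a) :: thL (k + 1) l

/-- `∑ |a_n| M ^ (length - 1 - n)` -/
def nb (M : ℤ) : List ℤ → ℤ
  | [] => 0
  | a :: l => |a| * M ^ l.length + nb M l

theorem ev_nil (y : ℝ) : ev [] y = 0 := rfl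

theorem ev_cons (a : ℤ) (l : List ℤ) (y : ℝ) : ev (a :: l) y = (a : ℝ) + y * ev l y := rfl

theorem ev_addL (l m : List ℤ) (y : ℝ) : ev (addL l m) y = ev l y + ev m y := by
  induction l generalizing m with
  | nil => simp [addL, ev]
  | cons a l ih =>
    cases m with
    | nil => simp [addL, ev]
    | cons b m =>
      simp only [addL, ev, ih]
      push_cast
      ring

theorem ev_smulL (c : ℤ) (l : List ℤ) (y : ℝ) : ev (smulL c l) y = c * ev l y := by
  induction l with
  | nil => simp [smulL, ev]
  | cons a l ih =>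
    simp only [smulL, ev, ih]
    push_cast
    ring

theorem ev_mulL (l m : List ℤ) (y : ℝ) : ev (mulL l m) y = ev l y * ev m y := by
  induction l with
  | nil => simp [mulL, ev]
  | cons a l ih =>
    simp only [mulL, ev_addL, ev_smulL, ev, ih]
    push_cast
    ring

theorem ev_thL (k : ℤ) (l : List ℤ) (y : ℝ) : ev (thL k l) y = k * ev l y + y * dv l y := by
  induction l generalizing k with
  | nil => simp [thL, ev, dv]
  | cons a l ih =>
    simp only [thL, ev, dv, ih]
    push_cast
    ring

theorem hasDerivAt_ev (l : List ℤ) (y : ℝ) : HasDerivAt (ev l) (dv l y) y := by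
  induction l with
  | nil => exact hasDerivAt_const y (0 : ℝ)
  | cons a l ih =>
    have h1 : HasDerivAt (fun z : ℝ => (a : ℝ) + z * ev l z) (1 * ev l y + y * dv l y) y :=
      (((hasDerivAt_id y).mul ih).const_add (a : ℝ))
    have h2 : ev (a :: l) = fun z : ℝ => (a : ℝ) + z * ev l z := rfl
    rw [h2]
    have h3 : dv (a :: l) y = 1 * ev l y + y * dv l y := by simp [dv]
    rw [h3]
    exact h1

theorem continuous_ev (l : List ℤ) : Continuous (ev l) :=
  continuous_iff_continuousAt.2 fun y => (hasDerivAt_ev l y).continuousAt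

theorem ev_split (n : ℕ) (l : List ℤ) (y : ℝ) :
    ev l y = ev (l.take n) y + y ^ n * ev (l.drop n) y := by
  induction n generalizing l with
  | zero => simp [ev]
  | succ n ih =>
    cases l with
    | nil => simp [ev]
    | cons a l =>
      simp only [List.take_succ_cons, List.drop_succ_cons, ev]
      rw [ih l, pow_succ]
      ring

theorem ev_zeros (l : List ℤ) (y : ℝ) (h : ∀ a ∈ l, a = 0) : ev l y = 0 := by
  induction l with
  | nil => rfl
  | cons a l ih =>
    rw [ev_cons, ih (fun b hb => h b (List.mem_cons_of_mem _ hb)), h a (List.mem_cons_self ..)]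
    simp

theorem nb_nonneg (M : ℤ) (hM : 0 ≤ M) (l : List ℤ) : 0 ≤ nb M l := by
  induction l with
  | nil => exact le_refl 0
  | cons a l ih =>
    simp only [nb]
    have := pow_nonneg hM l.length
    have := mul_nonneg (abs_nonneg a) this
    linarith

/-- the norm bound -/
theorem abs_ev_le (M : ℤ) (hM : 0 < M) (l : List ℤ) (y : ℝ) (hy : |y| * M ≤ 1) :
    |ev l y| * (M : ℝ) ^ l.length ≤ M * nb M l := by
  have hM' : (0 : ℝ) < M := by exact_mod_cast hM
  induction l with
  | nil => simp [ev, nb]
  | cons a l ih =>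
    rw [ev_cons, List.length_cons, nb]
    have h1 : |(a : ℝ) + y * ev l y| ≤ |(a : ℝ)| + |y| * |ev l y| := by
      rw [← abs_mul]; exact abs_add_le _ _
    have h2 : (0 : ℝ) < (M : ℝ) ^ l.length := pow_pos hM' _
    have h3 : |(a : ℝ) + y * ev l y| * (M : ℝ) ^ (l.length + 1) ≤
        (|(a : ℝ)| + |y| * |ev l y|) * (M : ℝ) ^ (l.length + 1) :=
      mul_le_mul_of_nonneg_right h1 (by positivity)
    have h4 : (|(a : ℝ)| + |y| * |ev l y|) * (M : ℝ) ^ (l.length + 1) =
        M * (|(a : ℝ)| * (M : ℝ) ^ l.length) + (|y| * M) * (|ev l y| * (M : ℝ) ^ l.length) := by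
      ring
    have h5 : (|y| * M) * (|ev l y| * (M : ℝ) ^ l.length) ≤
        1 * (|ev l y| * (M : ℝ) ^ l.length) :=
      mul_le_mul_of_nonneg_right hy (by positivity)
    push_cast
    rw [h4] at h3
    rw [mul_add]
    linarith

end Pool.Agent.TWP.Tail
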