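import Mathlib

/-!
# TWP, tails (helper66): comparison for the Riccati equation on a half-line

`W = a (p - A q)`, `a = exp (∫ A)`, is monotone and tends to 0.
-/

set_option autoImplicit false

namespace Pool.Agent.TWP.Tail

open Filter Topology Set MeasureTheory

theorem ric_aux {T : ℝ} (hT : 0 < T) {A A' : ℝ → ℝ}
    (hA : ∀ t, 0 < t → HasDerivAt A (A' t) t) :
    ∀ t, 0 < t → HasDerivAt (fun u => ∫ s in T..u, A s) (A t) t := by
  intro t ht
  have hcont : ContinuousOn A (Ioi 0) := fun s hs => (hA s hs).continuousAt.continuousWithinAt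
  have hsub : Set.uIcc T t ⊆ Ioi 0 := by
    intro s hs
    have h1 : min T t ≤ s := hs.1
    exact lt_of_lt_of_le (lt_min hT ht) h1
  have hint : IntervalIntegrable A volume T t := (hcont.mono hsub).intervalIntegrable
  have hmeas : StronglyMeasurableAtFilter A (𝓝 t) volume :=
    hcont.stronglyMeasurableAtFilter isOpen_Ioi t ht
  exact intervalIntegral.integral_hasDerivAt_right hint hmeas (hA t ht).continuousAt

/-- if `A ≤ -1` and `-2t ≤ A` on `[T,∞)` then `a (|p| + |A| |q|) → 0` for bounded `p`, `q` -/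
theorem ric_lim {T : ℝ} (hT : 0 < T) {A A' q p : ℝ → ℝ} {C : ℝ}
    (hA : ∀ t, 0 < t → HasDerivAt A (A' t) t)
    (hA1 : ∀ t, T ≤ t → A t ≤ -1) (hA2 : ∀ t, T ≤ t → -(2 * t) ≤ A t)
    (hC : ∀ t, T ≤ t → |q t| ≤ C ∧ |p t| ≤ C) :
    Tendsto (fun t => Real.exp (∫ s in T..t, A s) * (p t - A t * q t)) atTop (𝓝 0) := by
  have hC0 : 0 ≤ C := le_trans (abs_nonneg _) (hC T le_rfl).1
  have hPhi : ∀ t, T ≤ t → (∫ s in T..t, A s) ≤ -(t - T) := by
    intro t ht
    have hcont : ContinuousOn A (Set.uIcc T t) := by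
      intro s hs
      rw [Set.uIcc_of_le ht] at hs
      exact (hA s (lt_of_lt_of_le hT hs.1)).continuousAt.continuousWithinAt
    have h1 : (∫ s in T..t, A s) ≤ ∫ s in T..t, (-1 : ℝ) := by
      apply intervalIntegral.integral_mono_on ht hcont.intervalIntegrable
        intervalIntegrable_const
      intro s hs
      exact hA1 s hs.1
    simpa using h1
  have hlim : Tendsto (fun t : ℝ => Real.exp T * C * ((1 + 2 * t) * Real.exp (-t))) atTop (𝓝 0) := by
    have h1 : Tendsto (fun t : ℝ => t ^ 1 * Real.exp (-t)) atTop (𝓝 0) :=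
      Real.tendsto_pow_mul_exp_neg_atTop_nhds_zero 1
    have h0 : Tendsto (fun t : ℝ => t ^ 0 * Real.exp (-t)) atTop (𝓝 0) :=
      Real.tendsto_pow_mul_exp_neg_atTop_nhds_zero 0
    have h2 := (h0.add (h1.const_mul 2)).const_mul (Real.exp T * C)
    have e : (fun t : ℝ => Real.exp T * C * ((1 + 2 * t) * Real.exp (-t))) =
        fun t : ℝ => Real.exp T * C * (t ^ 0 * Real.exp (-t) + 2 * (t ^ 1 * Real.exp (-t))) := by
      funext t; ring
    rw [e]
    simpa using h2
  refine squeeze_zero_norm' ?_ hlim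
  filter_upwards [eventually_ge_atTop T] with t ht
  have ht0 : 0 < t := lt_of_lt_of_le hT ht
  have h1 : Real.exp (∫ s in T..t, A s) ≤ Real.exp T * Real.exp (-t) := by
    rw [← Real.exp_add]
    apply Real.exp_le_exp.2
    have := hPhi t ht
    linarith
  have h2 : |A t| ≤ 2 * t := by
    rw [abs_le]
    have := hA1 t ht
    have := hA2 t ht
    constructor <;> linarith
  have h3 : |p t - A t * q t| ≤ C * (1 + 2 * t) := by
    have h4 : |p t - A t * q t| ≤ |p t| + |A t| * |q t| := by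
      rw [← abs_mul]; exact abs_sub _ _
    have h5 : |A t| * |q t| ≤ 2 * t * C :=
      mul_le_mul h2 (hC t ht).1 (abs_nonneg _) (by positivity)
    have := (hC t ht).2
    linarith
  rw [Real.norm_eq_abs, abs_mul, abs_of_pos (Real.exp_pos _)]
  calc Real.exp (∫ s in T..t, A s) * |p t - A t * q t|
      ≤ (Real.exp T * Real.exp (-t)) * (C * (1 + 2 * t)) :=
        mul_le_mul h1 h3 (abs_nonneg _) (by positivity)
    _ = Real.exp T * C * ((1 + 2 * t) * Real.exp (-t)) := by ring

theorem ric_W {T : ℝ} (hT : 0 < T) {A A' q p : ℝ → ℝ}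
    (hq : ∀ t, HasDerivAt q (p t) t) (hp : ∀ t, HasDerivAt p (t * q t + 2 * q t ^ 3) t)
    (hA : ∀ t, 0 < t → HasDerivAt A (A' t) t) :
    ∀ t, 0 < t → HasDerivAt (fun t => Real.exp (∫ s in T..t, A s) * (p t - A t * q t))
      (Real.exp (∫ s in T..t, A s) * q t * ((t + 2 * q t ^ 2) - (A' t + A t ^ 2))) t := by
  intro t ht
  have h1 := (ric_aux hT hA t ht).exp
  have h2 := (hp t).sub ((hA t ht).mul (hq t))
  have h3 := h1.mul h2
  refine h3.congr_deriv ?_
  simp only [Pi.sub_apply, Pi.mul_apply]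
  ring

/-- lower bound of `q'/q` -/
theorem ric_lower {T : ℝ} (hT : 0 < T) {A A' q p : ℝ → ℝ} {C : ℝ}
    (hq : ∀ t, HasDerivAt q (p t) t) (hp : ∀ t, HasDerivAt p (t * q t + 2 * q t ^ 3) t)
    (hpos : ∀ t, 0 < q t) (hC : ∀ t, T ≤ t → |q t| ≤ C ∧ |p t| ≤ C)
    (hA : ∀ t, 0 < t → HasDerivAt A (A' t) t)
    (hA1 : ∀ t, T ≤ t → A t ≤ -1) (hA2 : ∀ t, T ≤ t → -(2 * t) ≤ A t)
    (hdef : ∀ t, T ≤ t → t + 2 * q t ^ 2 ≤ A' t + A t ^ 2) :
    ∀ t, T ≤ t → A t ≤ p t / q t := by
  intro t ht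
  set W : ℝ → ℝ := fun t => Real.exp (∫ s in T..t, A s) * (p t - A t * q t) with hW
  have hWd := ric_W hT hq hp hA
  have hanti : AntitoneOn W (Ici T) := by
    apply antitoneOn_of_deriv_nonpos (convex_Ici T)
    · intro s hs
      exact (hWd s (lt_of_lt_of_le hT hs)).continuousAt.continuousWithinAt
    · intro s hs
      rw [interior_Ici] at hs
      exact (hWd s (lt_trans hT hs)).differentiableAt.differentiableWithinAt
    · intro s hs
      rw [interior_Ici] at hs
      rw [(hWd s (lt_trans hT hs)).deriv]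
      have h1 := hdef s (le_of_lt hs)
      have h2 : 0 ≤ Real.exp (∫ s in T..s, A s) * q s :=
        mul_nonneg (Real.exp_pos _).le (hpos s).le
      exact mul_nonpos_of_nonneg_of_nonpos h2 (by linarith)
  have hlim := ric_lim hT hA hA1 hA2 hC
  have h0 : 0 ≤ W t := by
    apply le_of_tendsto hlim
    filter_upwards [eventually_ge_atTop t] with s hs
    exact hanti (mem_Ici.2 ht) (mem_Ici.2 (le_trans ht hs)) hs
  have h1 : 0 ≤ p t - A t * q t := by
    by_contra hcon
    push Not at hcon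
    have : W t < 0 := mul_neg_of_pos_of_neg (Real.exp_pos _) hcon
    linarith
  rw [le_div_iff₀ (hpos t)]
  linarith

/-- upper bound of `q'/q` -/
theorem ric_upper {T : ℝ} (hT : 0 < T) {A A' q p : ℝ → ℝ} {C : ℝ}
    (hq : ∀ t, HasDerivAt q (p t) t) (hp : ∀ t, HasDerivAt p (t * q t + 2 * q t ^ 3) t)
    (hpos : ∀ t, 0 < q t) (hC : ∀ t, T ≤ t → |q t| ≤ C ∧ |p t| ≤ C)
    (hA : ∀ t, 0 < t → HasDerivAt A (A' t) t)
    (hA1 : ∀ t, T ≤ t → A t ≤ -1) (hA2 : ∀ t, T ≤ t → -(2 * t) ≤ A t)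
    (hdef : ∀ t, T ≤ t → A' t + A t ^ 2 ≤ t + 2 * q t ^ 2) :
    ∀ t, T ≤ t → p t / q t ≤ A t := by
  intro t ht
  set W : ℝ → ℝ := fun t => Real.exp (∫ s in T..t, A s) * (p t - A t * q t) with hW
  have hWd := ric_W hT hq hp hA
  have hmono : MonotoneOn W (Ici T) := by
    apply monotoneOn_of_deriv_nonneg (convex_Ici T)
    · intro s hs
      exact (hWd s (lt_of_lt_of_le hT hs)).continuousAt.continuousWithinAt
    · intro s hs
      rw [interior_Ici] at hs
      exact (hWd s (lt_trans hT hs)).differentiableAt.differentiableWithinAt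
    · intro s hs
      rw [interior_Ici] at hs
      rw [(hWd s (lt_trans hT hs)).deriv]
      have h1 := hdef s (le_of_lt hs)
      have h2 : 0 ≤ Real.exp (∫ s in T..s, A s) * q s :=
        mul_nonneg (Real.exp_pos _).le (hpos s).le
      exact mul_nonneg h2 (by linarith)
  have hlim := ric_lim hT hA hA1 hA2 hC
  have h0 : W t ≤ 0 := by
    apply ge_of_tendsto hlim
    filter_upwards [eventually_ge_atTop t] with s hs
    exact hmono (mem_Ici.2 ht) (mem_Ici.2 (le_trans ht hs)) hs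
  have h1 : p t - A t * q t ≤ 0 := by
    by_contra hcon
    push Not at hcon
    have : 0 < W t := mul_pos (Real.exp_pos _) hcon
    linarith
  rw [div_le_iff₀ (hpos t)]
  linarith

end Pool.Agent.TWP.Tail
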