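import Mathlib
import Pool.Agent.TWP.TLib
import Pool.Agent.TWP.TRic

/-!
# TWP, tails (helper66): H1 and H2, the right tail

`l = q'/q = -√t S(z)`, `z = t^(-3/2)`; `S_30(z) = ev cS (z/8)`, `8^n S_n = cS_n`.
-/

set_option autoImplicit false

namespace Pool.Agent.TWP.Tail

open Filter Topology Set MeasureTheory

/-- `8^n S_n`, `n = 0, ..., 30`, where `z (δ + 1/2) S = S^2 - 1`, `δ = -(3/2) z d/dz` -/
def cS : List ℤ :=
  [1, 2, -10, 120, -2210, 54240, -1656500, 60441600, -2564063050, 123998092800, -6733922487500,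
   405806442240000, -26875761111700500, 1940434167238656000, -151699001017999425000,
   12766967977624780800000, -1150880303065351372556250, 110637525921313445560320000,
   -11298602988357702344609937500, 1221536761041308949258240000000,
   -139385199693084109215623057837500, 16740143453839624897719297638400000,
   -2110833053467918096218188765060375000, 278817731499631290639064051482624000000,
   -38500370499521043468671613930986414562500, 5547142717635398674399519153613438976000000,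
   -832495808707431398240395880304710512796875000,
   129930210846124712233389857700442684784640000000,
   -21057790186626506915560015361046583074241840625000,
   3539122970008433903588464878764224610492743680000000,
   -616035797326247114407589691514691740481445520781250000]

/-- `D = 12 * 10^27`; the error bound is `D z^31` -/
def dS : ℤ := 12 * 10 ^ 27 * 8 ^ 31

def cSp : List ℤ := cS ++ [dS]
def cSm : List ℤ := cS ++ [-dS]

/-- the defect polynomial `c^2 - 1 + y (-4 + 12 θ) c` -/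
def defS (c : List ℤ) : List ℤ :=
  addL (addL (mulL c c) [-1]) (0 :: addL (smulL (-4) c) (smulL 12 (thL 0 c)))

theorem ev_defS (c : List ℤ) (y : ℝ) :
    ev (defS c) y = ev c y ^ 2 - 1 + y * (-4 * ev c y + 12 * (y * dv c y)) := by
  simp only [defS, ev_addL, ev_mulL, ev_smulL, ev_thL, ev_cons, ev_nil]
  push_cast
  ring

theorem ev_append (l m : List ℤ) (y : ℝ) : ev (l ++ m) y = ev l y + y ^ l.length * ev m y := by
  induction l with
  | nil => simp [ev]
  | cons a l ih =>
    rw [List.cons_append, ev_cons, ev_cons, ih, List.length_cons, pow_succ]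
    ring

theorem ev_head (l : List ℤ) (y : ℝ) : ev l y = (l.headD 0 : ℝ) + y * ev l.tail y := by
  cases l with
  | nil => simp [ev]
  | cons a l => rfl

/-- `k |y ev l y| ≤ b` from the norm -/
theorem y_ev_le (M : ℤ) (hM : 0 < M) (k b : ℤ) (hk : 0 ≤ k) (l : List ℤ)
    (h : k * nb M l ≤ b * M ^ l.length) (y : ℝ) (hy0 : 0 ≤ y) (hy : y * M ≤ 1) :
    k * |y * ev l y| ≤ b := by
  have hM' : (0 : ℝ) < M := by exact_mod_cast hM
  have hk' : (0 : ℝ) ≤ k := by exact_mod_cast hk
  have h1 := abs_ev_le M hM l y (by rwa [abs_of_nonneg hy0])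
  have h2 : (k : ℝ) * nb M l ≤ b * (M : ℝ) ^ l.length := by exact_mod_cast h
  have hnb : (0 : ℝ) ≤ nb M l := by exact_mod_cast nb_nonneg M hM.le l
  have hp : (0 : ℝ) < (M : ℝ) ^ l.length := pow_pos hM' _
  have h3 : |y * ev l y| * (M : ℝ) ^ l.length ≤ nb M l := by
    rw [abs_mul, abs_of_nonneg hy0]
    calc y * |ev l y| * (M : ℝ) ^ l.length = y * (|ev l y| * (M : ℝ) ^ l.length) := by ring
      _ ≤ y * (M * nb M l) := mul_le_mul_of_nonneg_left h1 hy0
      _ = (y * M) * nb M l := by ring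
      _ ≤ 1 * nb M l := mul_le_mul_of_nonneg_right hy hnb
      _ = nb M l := one_mul _
  have h4 : (k * |y * ev l y|) * (M : ℝ) ^ l.length ≤ b * (M : ℝ) ^ l.length := by
    calc (k * |y * ev l y|) * (M : ℝ) ^ l.length = k * (|y * ev l y| * (M : ℝ) ^ l.length) := by ring
      _ ≤ k * nb M l := mul_le_mul_of_nonneg_left h3 hk'
      _ ≤ _ := h2
  exact le_of_mul_le_mul_right h4 hp

theorem cSp_zero : ∀ a ∈ (defS cSp).take 31, a = 0 := by decide +kernel
theorem cSm_zero : ∀ a ∈ (defS cSm).take 31, a = 0 := by decide +kernel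
theorem cSp_head : 8 ^ 31 ≤ ((defS cSp).drop 31).headD 0 := by decide +kernel
theorem cSp_tail : 1 * nb 1000 ((defS cSp).drop 31).tail.tail ≤
    ((defS cSp).drop 31).tail.headD 0 * 1000 ^ ((defS cSp).drop 31).tail.tail.length := by
  decide +kernel
theorem cSm_tail : 1 * nb 1000 ((defS cSm).drop 31).tail ≤
    (-(((defS cSm).drop 31).headD 0)) * 1000 ^ ((defS cSm).drop 31).tail.length := by
  decide +kernel
theorem cSp_norm : 4 * nb 1000 cSp.tail ≤ 1 * 1000 ^ cSp.tail.length := by decide +kernel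
theorem cSm_norm : 4 * nb 1000 cSm.tail ≤ 1 * 1000 ^ cSm.tail.length := by decide +kernel
theorem cSp_headD : cSp.headD 0 = 1 := by decide +kernel
theorem cSm_headD : cSm.headD 0 = 1 := by decide +kernel
theorem cS_length : cS.length = 31 := by decide +kernel

theorem defSp_ge (y : ℝ) (hy0 : 0 ≤ y) (hy : y * 1000 ≤ 1) :
    (8 : ℝ) ^ 31 * y ^ 31 ≤ ev (defS cSp) y := by
  rw [ev_split 31, ev_zeros _ _ cSp_zero, zero_add, ev_head ((defS cSp).drop 31),
    ev_head ((defS cSp).drop 31).tail]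
  have h1 := y_ev_le 1000 (by norm_num) 1 _ (by norm_num) _ cSp_tail y hy0 (by exact_mod_cast hy)
  have h2 : ((8 : ℝ) ^ 31) ≤ (((defS cSp).drop 31).headD 0 : ℤ) := by exact_mod_cast cSp_head
  have h3 := neg_abs_le (y * ev ((defS cSp).drop 31).tail.tail y)
  have h4 : (0 : ℝ) ≤ (((defS cSp).drop 31).tail.headD 0 : ℤ)
      + y * ev ((defS cSp).drop 31).tail.tail y := by
    push_cast at h1
    linarith
  have h5 := mul_nonneg hy0 h4
  have h6 : (0 : ℝ) ≤ y ^ 31 := pow_nonneg hy0 _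
  rw [mul_comm]
  exact mul_le_mul_of_nonneg_left (by linarith) h6

theorem defSm_le (y : ℝ) (hy0 : 0 ≤ y) (hy : y * 1000 ≤ 1) : ev (defS cSm) y ≤ 0 := by
  rw [ev_split 31, ev_zeros _ _ cSm_zero, zero_add, ev_head ((defS cSm).drop 31)]
  have h1 := y_ev_le 1000 (by norm_num) 1 _ (by norm_num) _ cSm_tail y hy0 (by exact_mod_cast hy)
  have h3 := le_abs_self (y * ev ((defS cSm).drop 31).tail y)
  have h4 : (((defS cSm).drop 31).headD 0 : ℤ) + y * ev ((defS cSm).drop 31).tail y ≤ (0 : ℝ) := by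
    push_cast at h1
    linarith
  have h6 : (0 : ℝ) ≤ y ^ 31 := pow_nonneg hy0 _
  exact mul_nonpos_of_nonneg_of_nonpos h6 h4

theorem cSp_near (y : ℝ) (hy0 : 0 ≤ y) (hy : y * 1000 ≤ 1) : |ev cSp y - 1| ≤ 1 / 4 := by
  rw [ev_head cSp, cSp_headD]
  have h1 := y_ev_le 1000 (by norm_num) 4 _ (by norm_num) _ cSp_norm y hy0 (by exact_mod_cast hy)
  push_cast at h1 ⊢
  rw [add_sub_cancel_left]
  linarith

theorem cSm_near (y : ℝ) (hy0 : 0 ≤ y) (hy : y * 1000 ≤ 1) : |ev cSm y - 1| ≤ 1 / 4 := by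
  rw [ev_head cSm, cSm_headD]
  have h1 := y_ev_le 1000 (by norm_num) 4 _ (by norm_num) _ cSm_norm y hy0 (by exact_mod_cast hy)
  push_cast at h1 ⊢
  rw [add_sub_cancel_left]
  linarith

/-- `z = t^(-3/2)` -/
noncomputable def zR (t : ℝ) : ℝ := 1 / (t * Real.sqrt t)

/-- `A = -√t c(z/8)` -/
noncomputable def AR (c : List ℤ) (t : ℝ) : ℝ := -(Real.sqrt t * ev c (zR t / 8))

noncomputable def AR' (c : List ℤ) (t : ℝ) : ℝ :=
  -(1 / (2 * Real.sqrt t) * ev c (zR t / 8)
    + Real.sqrt t * (dv c (zR t / 8) * (-(3 / 2) * (zR t / t) / 8)))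

theorem hasDerivAt_zR (t : ℝ) (ht : 0 < t) : HasDerivAt zR (-(3 / 2) * (zR t / t)) t := by
  have hs : 0 < Real.sqrt t := Real.sqrt_pos.2 ht
  have hss : Real.sqrt t * Real.sqrt t = t := Real.mul_self_sqrt ht.le
  have h1 : HasDerivAt (fun t : ℝ => t * Real.sqrt t) (1 * Real.sqrt t + t * (1 / (2 * Real.sqrt t))) t :=
    (hasDerivAt_id t).mul (Real.hasDerivAt_sqrt ht.ne')
  have h2 : HasDerivAt (fun t : ℝ => (t * Real.sqrt t)⁻¹)
      (-(1 * Real.sqrt t + t * (1 / (2 * Real.sqrt t))) / (t * Real.sqrt t) ^ 2) t :=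
    h1.inv (mul_pos ht hs).ne'
  have e : zR = fun t : ℝ => (t * Real.sqrt t)⁻¹ := by
    funext u; rw [zR, one_div]
  rw [e]
  refine h2.congr_deriv ?_
  have h3 : t = Real.sqrt t ^ 2 := by rw [sq]; exact hss.symm
  have h4 : ∀ r : ℝ, 0 < r → -(1 * r + r ^ 2 * (1 / (2 * r))) / (r ^ 2 * r) ^ 2 =
      -(3 / 2) * ((r ^ 2 * r)⁻¹ / r ^ 2) := by
    intro r hr
    field_simp
    ring
  have h5 := h4 (Real.sqrt t) hs
  rw [← h3] at h5
  exact h5

theorem hasDerivAt_AR (c : List ℤ) (t : ℝ) (ht : 0 < t) : HasDerivAt (AR c) (AR' c t) t := by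
  have h1 : HasDerivAt (fun u : ℝ => ev c (zR u / 8))
      (dv c (zR t / 8) * (-(3 / 2) * (zR t / t) / 8)) t :=
    HasDerivAt.comp t (hasDerivAt_ev c (zR t / 8)) ((hasDerivAt_zR t ht).div_const 8)
  have h2 := ((Real.hasDerivAt_sqrt ht.ne').mul h1).neg
  exact h2

theorem AR_riccati (c : List ℤ) (t : ℝ) (ht : 0 < t) :
    AR' c t + AR c t ^ 2 = t + t * ev (defS c) (zR t / 8) := by
  have hs : 0 < Real.sqrt t := Real.sqrt_pos.2 ht
  have hss : Real.sqrt t * Real.sqrt t = t := Real.mul_self_sqrt ht.le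
  have h3 : t = Real.sqrt t ^ 2 := by rw [sq]; exact hss.symm
  rw [ev_defS, AR', AR]
  set e0 := ev c (zR t / 8)
  set e1 := dv c (zR t / 8)
  have hz : zR t = 1 / (t * Real.sqrt t) := rfl
  rw [hz]
  set r := Real.sqrt t with hr
  rw [h3]
  field_simp
  ring

theorem zR_pos (t : ℝ) (ht : 0 < t) : 0 < zR t := by
  have hs : 0 < Real.sqrt t := Real.sqrt_pos.2 ht
  rw [zR]; positivity

theorem zR_le (t : ℝ) (ht : 25 ≤ t) : zR t ≤ 1 / 125 := by
  have hs : 5 ≤ Real.sqrt t := by
    apply Real.le_sqrt_of_sq_le; norm_num; exact ht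
  rw [zR]
  apply one_div_le_one_div_of_le (by norm_num)
  nlinarith

end Pool.Agent.TWP.Tail
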