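import Mathlib
import Pool.Agent.TWP.TLib
import Pool.Agent.TWP.TRight0

/-!
# TWP, tails (helper66): H3 (a), barriers for the left tail

`q = √(x/2) Y(z)`, `x = -t`, `z = x^(-3)`; `Y_24(z) = ev cY (z/16)`, `16^n Y_n = cY_n`.
-/

set_option autoImplicit false

namespace Pool.Agent.TWP.Tail

open Filter Topology Set

/-- `16^n Y_n`, `n = 0, ..., 24`, where `z (δ^2 - 1/4) Y = Y^3 - Y`, `δ = -3 z d/dz` -/
def cY : List ℤ :=
  [1, -2, -146, -42628, -27824554, -32183535772, -58073805561396, -150777029651365128,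
   -532574797083595558554, -2456310150000418791868972, -14335281635977422817428283996,
   -103272515807996745284668529871928, -900129816473975205440841224515187204,
   -9336193172768311346528938511071692059672, -113640546827367616167486022686372769047869096,
   -1604154117214560961071923020276397931977009203728,
   -25993763682691825778470860799830920805878724435903354,
   -479221735573695688696955790498983528482671148615249575372,
   -9973574204394290013766584771700440147794623806577642783589196,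
   -232703643808829210700943986291473471076598713386745686121531165528,
   -6049368296246774723535573160930170804317633048917961655888367512497004,
   -174246106242515809793976624729138550758332818604578058628639165515249136072,
   -5533361993601054768486078158133672974554316767650266662629712363838456210494296,
   -192848808264038014138049184109395701509720418417620472181080997442852324454776457328,
   -7345999217464427924282482841091959143030411657624497061706849344115202986740911078874404]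

/-- second derivative of the polynomial -/
noncomputable def d2v : List ℤ → ℝ → ℝ
  | [], _ => 0
  | _ :: l, y => 2 * dv l y + y * d2v l y

theorem hasDerivAt_dv (l : List ℤ) (y : ℝ) : HasDerivAt (dv l) (d2v l y) y := by
  induction l with
  | nil => exact hasDerivAt_const y (0 : ℝ)
  | cons a l ih =>
    have h1 : HasDerivAt (fun z : ℝ => ev l z + z * dv l z)
        (dv l y + (1 * dv l y + y * d2v l y)) y :=
      (hasDerivAt_ev l y).add ((hasDerivAt_id y).mul ih)
    have h2 : dv (a :: l) = fun z : ℝ => ev l z + z * dv l z := rfl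
    rw [h2]
    have h3 : d2v (a :: l) y = dv l y + (1 * dv l y + y * d2v l y) := by
      rw [d2v]; ring
    rw [h3]
    exact h1

theorem ev_th2 (l : List ℤ) (y : ℝ) :
    ev (thL 0 (thL 0 l)) y = y * dv l y + y ^ 2 * d2v l y := by
  have h1 : ev (thL 0 l) = fun y => y * dv l y := by
    funext z; rw [ev_thL]; simp
  have h2 : HasDerivAt (ev (thL 0 l)) (dv (thL 0 l) y) y := hasDerivAt_ev _ y
  have h3 : HasDerivAt (fun y => y * dv l y) (1 * dv l y + y * d2v l y) y :=
    (hasDerivAt_id y).mul (hasDerivAt_dv l y)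
  rw [h1] at h2
  have h4 := h2.unique h3
  rw [ev_thL, h4]
  push_cast
  ring

/-- the defect polynomial `y (144 θ^2 - 4) c - c^3 + c` -/
def defY (c : List ℤ) : List ℤ :=
  addL (0 :: addL (smulL 144 (thL 0 (thL 0 c))) (smulL (-4) c))
    (addL c (smulL (-1) (mulL c (mulL c c))))

theorem ev_defY (c : List ℤ) (y : ℝ) :
    ev (defY c) y = y * (144 * (y * dv c y + y ^ 2 * d2v c y) - 4 * ev c y)
      + ev c y - ev c y ^ 3 := by
  simp only [defY, ev_addL, ev_cons, ev_mulL, ev_smulL, ev_th2]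
  push_cast
  ring

theorem cY_zero : ∀ a ∈ (defY cY).take 25, a = 0 := by decide +kernel
theorem cY_def1 : ∃ b : ℤ, 1 * nb 221184 ((defY cY).drop 25).tail ≤
    b * 221184 ^ ((defY cY).drop 25).tail.length ∧
    |((defY cY).drop 25).headD 0| + b ≤ 481 * 10 ^ 60 * 16 ^ 25 :=
  ⟨10 ^ 86, by decide +kernel, by decide +kernel⟩
theorem cY_norm : 10000 * nb 221184 cY.tail ≤ 1 * 221184 ^ cY.tail.length := by decide +kernel
theorem cY_headD : cY.headD 0 = 1 := by decide +kernel

theorem defY_le (y : ℝ) (hy0 : 0 ≤ y) (hy : y * 221184 ≤ 1) :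
    |ev (defY cY) y| ≤ 481 * 10 ^ 60 * (16 * y) ^ 25 := by
  rw [ev_split 25, ev_zeros _ _ cY_zero, zero_add, ev_head ((defY cY).drop 25)]
  obtain ⟨b, hb1, hb2⟩ := cY_def1
  have h1 := y_ev_le 221184 (by norm_num) 1 _ (by norm_num) _ hb1 y hy0 (by exact_mod_cast hy)
  have h2 : |(((defY cY).drop 25).headD 0 : ℝ)| + b ≤ 481 * 10 ^ 60 * 16 ^ 25 := by
    exact_mod_cast hb2
  have h3 := abs_add_le (((defY cY).drop 25).headD 0 : ℝ) (y * ev ((defY cY).drop 25).tail y)
  have h4 : |(((defY cY).drop 25).headD 0 : ℝ) + y * ev ((defY cY).drop 25).tail y| ≤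
      481 * 10 ^ 60 * 16 ^ 25 := by
    push_cast at h1
    linarith
  rw [abs_mul, abs_of_nonneg (pow_nonneg hy0 25), mul_pow]
  have h5 : (0 : ℝ) ≤ y ^ 25 := pow_nonneg hy0 _
  calc y ^ 25 * |(((defY cY).drop 25).headD 0 : ℝ) + y * ev ((defY cY).drop 25).tail y|
      ≤ y ^ 25 * (481 * 10 ^ 60 * 16 ^ 25) := mul_le_mul_of_nonneg_left h4 h5
    _ = 481 * 10 ^ 60 * (16 ^ 25 * y ^ 25) := by ring

theorem cY_near (y : ℝ) (hy0 : 0 ≤ y) (hy : y * 221184 ≤ 1) : |ev cY y - 1| ≤ 1 / 10000 := by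
  rw [ev_head cY, cY_headD]
  have h1 := y_ev_le 221184 (by norm_num) 10000 _ (by norm_num) _ cY_norm y hy0
    (by exact_mod_cast hy)
  push_cast at h1 ⊢
  rw [add_sub_cancel_left]
  linarith

/-- `z = (-t)^(-3)` -/
noncomputable def zL (t : ℝ) : ℝ := 1 / (-t) ^ 3

/-- `f(z) = Y_24(z) + κ z^25` -/
noncomputable def fL (κ z : ℝ) : ℝ := ev cY (z / 16) + κ * z ^ 25
noncomputable def fL1 (κ z : ℝ) : ℝ := dv cY (z / 16) / 16 + 25 * κ * z ^ 24
noncomputable def fL2 (κ z : ℝ) : ℝ := d2v cY (z / 16) / 256 + 600 * κ * z ^ 23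

/-- the barrier `√(-t/2) f(z)` with its derivatives -/
noncomputable def PL (κ t : ℝ) : ℝ := Real.sqrt (-t / 2) * fL κ (zL t)
noncomputable def PL1 (κ t : ℝ) : ℝ :=
  Real.sqrt (-t / 2) / t * (fL κ (zL t) / 2 - 3 * (zL t * fL1 κ (zL t)))
noncomputable def PL2 (κ t : ℝ) : ℝ :=
  Real.sqrt (-t / 2) / t ^ 2 *
    (9 * (zL t * fL1 κ (zL t)) + 9 * (zL t ^ 2 * fL2 κ (zL t)) - fL κ (zL t) / 4)

theorem hasDerivAt_ev16 (l : List ℤ) (z : ℝ) :
    HasDerivAt (fun z : ℝ => ev l (z / 16)) (dv l (z / 16) * (1 / 16)) z := by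
  have h0 : HasDerivAt (fun z : ℝ => z / 16) (1 / 16) z := (hasDerivAt_id z).div_const 16
  have h1 : HasDerivAt (ev l ∘ fun z : ℝ => z / 16) (dv l (z / 16) * (1 / 16)) z :=
    HasDerivAt.comp z (hasDerivAt_ev l (z / 16)) h0
  exact h1

theorem hasDerivAt_dv16 (l : List ℤ) (z : ℝ) :
    HasDerivAt (fun z : ℝ => dv l (z / 16)) (d2v l (z / 16) * (1 / 16)) z := by
  have h0 : HasDerivAt (fun z : ℝ => z / 16) (1 / 16) z := (hasDerivAt_id z).div_const 16
  have h1 : HasDerivAt (dv l ∘ fun z : ℝ => z / 16) (d2v l (z / 16) * (1 / 16)) z :=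
    HasDerivAt.comp z (hasDerivAt_dv l (z / 16)) h0
  exact h1

theorem hasDerivAt_fL (κ z : ℝ) : HasDerivAt (fL κ) (fL1 κ z) z := by
  have h1 := hasDerivAt_ev16 cY z
  have h2 := h1.add ((hasDerivAt_pow 25 z).const_mul κ)
  refine h2.congr_deriv ?_
  rw [fL1]
  push_cast
  ring

theorem hasDerivAt_fL1 (κ z : ℝ) : HasDerivAt (fL1 κ) (fL2 κ z) z := by
  have h1 := hasDerivAt_dv16 cY z
  have h2 := (h1.div_const 16).add ((hasDerivAt_pow 24 z).const_mul (25 * κ))
  refine h2.congr_deriv ?_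
  rw [fL2]
  push_cast
  ring

theorem hasDerivAt_zL (t : ℝ) (ht : t < 0) : HasDerivAt zL (-(3 * zL t) / t) t := by
  have h1 : HasDerivAt (fun t : ℝ => (-t) ^ 3) (((3 : ℕ) : ℝ) * (-t) ^ (3 - 1) * (-1)) t :=
    (hasDerivAt_id t).neg.pow 3
  have h2 := h1.inv (pow_pos (neg_pos.2 ht) 3).ne'
  have e : zL = fun t : ℝ => ((-t) ^ 3)⁻¹ := by funext u; rw [zL, one_div]
  have h3 : -(3 * zL t) / t =
      -(((3 : ℕ) : ℝ) * (-t) ^ (3 - 1) * (-1)) / ((-t) ^ 3) ^ 2 := by
    rw [zL]
    have : t ≠ 0 := ht.ne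
    push_cast
    field_simp
  rw [h3, e]
  exact h2

theorem hasDerivAt_sqL (t : ℝ) (ht : t < 0) :
    HasDerivAt (fun t : ℝ => Real.sqrt (-t / 2)) (Real.sqrt (-t / 2) / (2 * t)) t := by
  have h1 : HasDerivAt (fun t : ℝ => -t / 2) (-1 / 2) t := (hasDerivAt_id t).neg.div_const 2
  have h2 : 0 < -t / 2 := by linarith
  have h3 := h1.sqrt h2.ne'
  refine h3.congr_deriv ?_
  have hs : 0 < Real.sqrt (-t / 2) := Real.sqrt_pos.2 h2
  have hss : Real.sqrt (-t / 2) ^ 2 = -t / 2 := Real.sq_sqrt h2.le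
  have ht0 : t ≠ 0 := ht.ne
  set r := Real.sqrt (-t / 2)
  have ht2 : t = -2 * r ^ 2 := by linarith
  rw [ht2]
  field_simp

theorem hasDerivAt_PL (κ t : ℝ) (ht : t < 0) : HasDerivAt (PL κ) (PL1 κ t) t := by
  have h1 := (hasDerivAt_sqL t ht).mul
    (HasDerivAt.comp t (hasDerivAt_fL κ (zL t)) (hasDerivAt_zL t ht))
  refine h1.congr_deriv ?_
  rw [PL1]
  have ht0 : t ≠ 0 := ht.ne
  simp only [Function.comp_apply]
  field_simp
  ring

theorem hasDerivAt_PL1 (κ t : ℝ) (ht : t < 0) : HasDerivAt (PL1 κ) (PL2 κ t) t := by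
  have ht0 : t ≠ 0 := ht.ne
  have hz := hasDerivAt_zL t ht
  have hf := HasDerivAt.comp t (hasDerivAt_fL κ (zL t)) hz
  have hf1 := HasDerivAt.comp t (hasDerivAt_fL1 κ (zL t)) hz
  have h1 := ((hasDerivAt_sqL t ht).div (hasDerivAt_id t) ht0).mul
    ((hf.div_const 2).sub ((hz.mul hf1).const_mul 3))
  refine h1.congr_deriv ?_
  rw [PL2]
  simp only [Function.comp_apply, Pi.div_apply, id, Pi.mul_apply, Pi.sub_apply]
  field_simp
  ring

/-- the identity for the defect -/
theorem PL_defect (κ t : ℝ) (ht : t < 0) :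
    PL2 κ t - (t * PL κ t + 2 * PL κ t ^ 3) = Real.sqrt (-t / 2) * (-t) *
      (ev (defY cY) (zL t / 16) + κ * zL t ^ 25 *
        (1 - 3 * ev cY (zL t / 16) ^ 2 + 22499 / 4 * zL t
          - 3 * ev cY (zL t / 16) * (κ * zL t ^ 25) - (κ * zL t ^ 25) ^ 2)) := by
  have ht0 : t ≠ 0 := ht.ne
  have h2 : 0 < -t / 2 := by linarith
  have hss : Real.sqrt (-t / 2) ^ 2 = -t / 2 := Real.sq_sqrt h2.le
  have e3 : PL κ t ^ 3 = Real.sqrt (-t / 2) * (-t / 2) * fL κ (zL t) ^ 3 := by
    rw [PL, mul_pow, pow_succ, hss]; ring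
  have hz : 1 / t ^ 2 = (-t) * zL t := by
    rw [zL]; field_simp
  rw [e3, PL2, PL, ev_defY, div_eq_mul_one_div (Real.sqrt (-t / 2)) (t ^ 2), hz, fL, fL1, fL2]
  set z := zL t
  set s := Real.sqrt (-t / 2)
  set a := ev cY (z / 16)
  set b := dv cY (z / 16)
  set c := d2v cY (z / 16)
  ring

end Pool.Agent.TWP.Tail
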