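import Mathlib
import Pool.Agent.TWP.TLeft0

/-!
# TWP, tails (helper66): H3 (a), barriers for the left tail

For `4 * 10^62 ≤ D`, `D * 24^(-75) ≤ 1/1000`: `PL D` is a strict supersolution and `PL (-D)` a
strict subsolution of `P'' = t P + 2 P^3` on `(-∞,-24]`; `PL κ / √(-t/2) → 1` at `-∞`.
-/

set_option autoImplicit false

namespace Pool.Agent.TWP.Tail

open Filter Topology Set

theorem zL_pos (t : ℝ) (ht : t < 0) : 0 < zL t := by
  rw [zL]
  exact one_div_pos.2 (pow_pos (neg_pos.2 ht) 3)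

theorem zL_le (t : ℝ) (ht : t ≤ -24) : zL t ≤ 1 / 13824 := by
  rw [zL]
  apply one_div_le_one_div_of_le (by norm_num)
  have h1 : (24 : ℝ) ^ 3 ≤ (-t) ^ 3 := pow_le_pow_left₀ (by norm_num) (by linarith) 3
  linarith

theorem zL_y (t : ℝ) (ht : t ≤ -24) : 0 ≤ zL t / 16 ∧ zL t / 16 * 221184 ≤ 1 := by
  have h1 := zL_pos t (by linarith)
  have h2 := zL_le t ht
  constructor <;> linarith

/-- `0 < D z^25 ≤ 1/1000` -/
theorem Dz_le (D t : ℝ) (hD0 : 0 ≤ D) (hD2 : D * (1 / 13824) ^ 25 ≤ 1 / 1000) (ht : t ≤ -24) :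
    0 ≤ D * zL t ^ 25 ∧ D * zL t ^ 25 ≤ 1 / 1000 := by
  have h1 := zL_pos t (by linarith)
  have h2 : zL t ^ 25 ≤ (1 / 13824) ^ 25 := pow_le_pow_left₀ h1.le (zL_le t ht) 25
  constructor
  · positivity
  · exact le_trans (mul_le_mul_of_nonneg_left h2 hD0) hD2

theorem bracket (Y z e : ℝ) (hY : |Y - 1| ≤ 1 / 10000) (hz : z ≤ 1 / 13824)
    (he : |e| ≤ 1 / 1000) :
    1 - 3 * Y ^ 2 + 22499 / 4 * z - 3 * Y * e - e ^ 2 ≤ -(3 / 2) := by
  have h1 := abs_le.1 hY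
  have h2 := abs_le.1 he
  have h3 : (9998 / 10000 : ℝ) ≤ Y ^ 2 := by nlinarith [h1.1]
  have h4 : -(Y * e) ≤ 2 / 1000 := by
    have h5 : |Y * e| ≤ 2 * (1 / 1000) := by
      rw [abs_mul]
      apply mul_le_mul _ he (abs_nonneg _) (by norm_num)
      rw [abs_le]; constructor <;> linarith [h1.1, h1.2]
    have := neg_abs_le (Y * e)
    linarith
  have h5 := sq_nonneg e
  nlinarith

theorem fL_near (κ t : ℝ) (hκ : |κ| * (1 / 13824) ^ 25 ≤ 1 / 1000) (ht : t ≤ -24) :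
    |fL κ (zL t) - 1| ≤ 1 / 500 := by
  have h1 := cY_near _ (zL_y t ht).1 (zL_y t ht).2
  have h2 := Dz_le |κ| t (abs_nonneg κ) hκ ht
  have h3 := zL_pos t (by linarith)
  have h4 : |κ * zL t ^ 25| ≤ 1 / 1000 := by
    rw [abs_mul, abs_of_nonneg (pow_nonneg h3.le 25)]
    exact h2.2
  rw [fL]
  have h5 : |ev cY (zL t / 16) + κ * zL t ^ 25 - 1| ≤
      |ev cY (zL t / 16) - 1| + |κ * zL t ^ 25| := by
    have e : ev cY (zL t / 16) + κ * zL t ^ 25 - 1 =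
      (ev cY (zL t / 16) - 1) + κ * zL t ^ 25 := by ring
    rw [e]
    exact abs_add_le _ _
  linarith

theorem PL_pos (κ t : ℝ) (hκ : |κ| * (1 / 13824) ^ 25 ≤ 1 / 1000) (ht : t ≤ -24) :
    0 < PL κ t := by
  have h1 := abs_le.1 (fL_near κ t hκ ht)
  rw [PL]
  exact mul_pos (Real.sqrt_pos.2 (by linarith)) (by linarith [h1.1])

/-- **H3 (a)**, supersolution -/
theorem PL_super (D t : ℝ) (hD1 : 4 * 10 ^ 62 ≤ D) (hD2 : D * (1 / 13824) ^ 25 ≤ 1 / 1000)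
    (ht : t ≤ -24) : PL2 D t < t * PL D t + 2 * PL D t ^ 3 := by
  have hD0 : 0 ≤ D := le_trans (by norm_num) hD1
  have hz := zL_pos t (by linarith)
  have hz25 : 0 < zL t ^ 25 := pow_pos hz 25
  have h1 := PL_defect D t (by linarith)
  have h2 := defY_le _ (zL_y t ht).1 (zL_y t ht).2
  have e1 : 16 * (zL t / 16) = zL t := by ring
  rw [e1] at h2
  have h3 := Dz_le D t hD0 hD2 ht
  have h4 := bracket (ev cY (zL t / 16)) (zL t) (D * zL t ^ 25)
    (cY_near _ (zL_y t ht).1 (zL_y t ht).2) (zL_le t ht)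
    (by rw [abs_of_nonneg h3.1]; exact h3.2)
  have h5 := mul_le_mul_of_nonneg_left h4 h3.1
  have h6 : 4 * 10 ^ 62 * zL t ^ 25 ≤ D * zL t ^ 25 := mul_le_mul_of_nonneg_right hD1 hz25.le
  have h7 := le_abs_self (ev (defY cY) (zL t / 16))
  have h8 : ev (defY cY) (zL t / 16) + D * zL t ^ 25 *
        (1 - 3 * ev cY (zL t / 16) ^ 2 + 22499 / 4 * zL t
          - 3 * ev cY (zL t / 16) * (D * zL t ^ 25) - (D * zL t ^ 25) ^ 2) < 0 := by
    have h9 : (481 * 10 ^ 60 : ℝ) * zL t ^ 25 < 3 / 2 * (4 * 10 ^ 62 * zL t ^ 25) := by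
      have h10 : (481 * 10 ^ 60 : ℝ) < 3 / 2 * (4 * 10 ^ 62) := by norm_num
      have h11 := mul_lt_mul_of_pos_right h10 hz25
      linarith
    linarith
  have h9 : 0 < Real.sqrt (-t / 2) * (-t) :=
    mul_pos (Real.sqrt_pos.2 (by linarith)) (by linarith)
  have h10 := mul_neg_of_pos_of_neg h9 h8
  linarith

/-- **H3 (a)**, subsolution -/
theorem PL_sub (D t : ℝ) (hD1 : 4 * 10 ^ 62 ≤ D) (hD2 : D * (1 / 13824) ^ 25 ≤ 1 / 1000)
    (ht : t ≤ -24) : t * PL (-D) t + 2 * PL (-D) t ^ 3 < PL2 (-D) t := by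
  have hD0 : 0 ≤ D := le_trans (by norm_num) hD1
  have hz := zL_pos t (by linarith)
  have hz25 : 0 < zL t ^ 25 := pow_pos hz 25
  have h1 := PL_defect (-D) t (by linarith)
  have h2 := defY_le _ (zL_y t ht).1 (zL_y t ht).2
  have e1 : 16 * (zL t / 16) = zL t := by ring
  rw [e1] at h2
  have h3 := Dz_le D t hD0 hD2 ht
  have h4 := bracket (ev cY (zL t / 16)) (zL t) (-D * zL t ^ 25)
    (cY_near _ (zL_y t ht).1 (zL_y t ht).2) (zL_le t ht)
    (by rw [neg_mul, abs_neg, abs_of_nonneg h3.1]; exact h3.2)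
  have h5 := mul_le_mul_of_nonneg_left h4 h3.1
  have h6 : 4 * 10 ^ 62 * zL t ^ 25 ≤ D * zL t ^ 25 := mul_le_mul_of_nonneg_right hD1 hz25.le
  have h7 := neg_abs_le (ev (defY cY) (zL t / 16))
  have h8 : 0 < ev (defY cY) (zL t / 16) + -D * zL t ^ 25 *
        (1 - 3 * ev cY (zL t / 16) ^ 2 + 22499 / 4 * zL t
          - 3 * ev cY (zL t / 16) * (-D * zL t ^ 25) - (-D * zL t ^ 25) ^ 2) := by
    have h9 : (481 * 10 ^ 60 : ℝ) * zL t ^ 25 < 3 / 2 * (4 * 10 ^ 62 * zL t ^ 25) := by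
      have h10 : (481 * 10 ^ 60 : ℝ) < 3 / 2 * (4 * 10 ^ 62) := by norm_num
      have h11 := mul_lt_mul_of_pos_right h10 hz25
      linarith
    have e2 : -D * zL t ^ 25 *
        (1 - 3 * ev cY (zL t / 16) ^ 2 + 22499 / 4 * zL t
          - 3 * ev cY (zL t / 16) * (-D * zL t ^ 25) - (-D * zL t ^ 25) ^ 2) =
        -(D * zL t ^ 25 *
        (1 - 3 * ev cY (zL t / 16) ^ 2 + 22499 / 4 * zL t
          - 3 * ev cY (zL t / 16) * (-D * zL t ^ 25) - (-D * zL t ^ 25) ^ 2)) := by ring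
    rw [e2]
    linarith
  have h9 : 0 < Real.sqrt (-t / 2) * (-t) :=
    mul_pos (Real.sqrt_pos.2 (by linarith)) (by linarith)
  have h10 := mul_pos h9 h8
  linarith

theorem tendsto_zL : Tendsto zL atBot (𝓝 0) := by
  have h1 : Tendsto (fun t : ℝ => (-t) ^ 3) atBot atTop :=
    (tendsto_pow_atTop (by norm_num)).comp tendsto_neg_atBot_atTop
  have h2 := h1.inv_tendsto_atTop
  refine h2.congr (fun t => ?_)
  simp [zL]

theorem tendsto_PL (κ : ℝ) : Tendsto (fun t => PL κ t / Real.sqrt (-t / 2)) atBot (𝓝 1) := by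
  have h1 : Tendsto (fun t => fL κ (zL t)) atBot (𝓝 (fL κ 0)) :=
    ((hasDerivAt_fL κ 0).continuousAt.tendsto).comp tendsto_zL
  have h2 : fL κ 0 = 1 := by
    rw [fL, ev_head cY, cY_headD]
    simp
  rw [h2] at h1
  refine h1.congr' ?_
  filter_upwards [eventually_lt_atBot (0 : ℝ)] with t ht
  rw [PL, mul_comm, mul_div_assoc, div_self (Real.sqrt_pos.2 (by linarith)).ne', mul_one]

end Pool.Agent.TWP.Tail
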