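import Mathlib
import Pool.Agent.TWP.TLeft

/-!
# TWP, tails (helper66): H3 (b), the derivative on the left tail
-/

set_option autoImplicit false

namespace Pool.Agent.TWP.Tail

open Filter Topology Set

theorem sqrt_mono_aux (x X : ℝ) (hx : 0 < x) (hX : x ≤ X) :
    Real.sqrt (X / 2) ≤ Real.sqrt (x / 2) * (X / x) := by
  have hX0 : 0 < X := lt_of_lt_of_le hx hX
  apply Real.sqrt_le_iff.2
  constructor
  · positivity
  · rw [mul_pow, Real.sq_sqrt (by positivity)]
    have e : x / 2 * (X / x) ^ 2 = X * X / (2 * x) := by field_simp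
    rw [e, div_le_div_iff₀ (by norm_num) (by positivity)]
    nlinarith

theorem tail_mono (u t : ℝ) (ht : t ≤ -24) (hut : u ≤ t) :
    Real.sqrt (-u / 2) * (-u) * zL u ^ 25 ≤ Real.sqrt (-t / 2) * (-t) * zL t ^ 25 := by
  have hx : 0 < -t := by linarith
  have hX : -t ≤ -u := by linarith
  have hX0 : 0 < -u := by linarith
  have h1 := sqrt_mono_aux (-t) (-u) hx hX
  have e1 : zL u ^ 25 = 1 / (-u) ^ 75 := by rw [zL, div_pow, one_pow, ← pow_mul]
  have e2 : zL t ^ 25 = 1 / (-t) ^ 75 := by rw [zL, div_pow, one_pow, ← pow_mul]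
  rw [e1, e2]
  have hs : 0 ≤ Real.sqrt (-t / 2) := Real.sqrt_nonneg _
  generalize Real.sqrt (-u / 2) = su at *
  generalize Real.sqrt (-t / 2) = st at *
  generalize -u = X at *
  generalize -t = x at *
  have h2 : x ^ 73 ≤ X ^ 73 := pow_le_pow_left₀ hx.le hX 73
  calc su * X * (1 / X ^ 75) ≤ (st * (X / x)) * X * (1 / X ^ 75) := by
        apply mul_le_mul_of_nonneg_right _ (by positivity)
        exact mul_le_mul_of_nonneg_right h1 hX0.le
    _ = st / x * (1 / X ^ 73) := by field_simp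
    _ ≤ st / x * (1 / x ^ 73) := by
        apply mul_le_mul_of_nonneg_left _ (by positivity)
        exact one_div_le_one_div_of_le (by positivity) h2
    _ = st * x * (1 / x ^ 75) := by field_simp

theorem tail_mono0 (u t : ℝ) (ht : t ≤ -24) (hut : u ≤ t) :
    Real.sqrt (-u / 2) * zL u ^ 25 ≤ Real.sqrt (-t / 2) * zL t ^ 25 := by
  have h1 := tail_mono u t ht hut
  have hz := zL_pos u (by linarith)
  have h2 : Real.sqrt (-u / 2) * (-t) * zL u ^ 25 ≤ Real.sqrt (-u / 2) * (-u) * zL u ^ 25 := by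
    apply mul_le_mul_of_nonneg_right _ (by positivity)
    exact mul_le_mul_of_nonneg_left (by linarith) (Real.sqrt_nonneg _)
  have h3 : (Real.sqrt (-u / 2) * zL u ^ 25) * (-t) ≤ (Real.sqrt (-t / 2) * zL t ^ 25) * (-t) := by
    linarith
  exact le_of_mul_le_mul_right h3 (by linarith)

/-- the second derivative of the error -/
theorem err2 {q : ℝ → ℝ} (D t : ℝ) (hD1 : 4 * 10 ^ 62 ≤ D)
    (hD2 : D * (1 / 13824) ^ 25 ≤ 1 / 1000) (ht : t ≤ -24)
    (hB : |q t / Real.sqrt (-t / 2) - ev cY (zL t / 16)| ≤ D * zL t ^ 25) :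
    |q t - PL 0 t| ≤ D * (Real.sqrt (-t / 2) * zL t ^ 25) ∧
    |(t * q t + 2 * q t ^ 3) - PL2 0 t| ≤
      13 / 4 * (D * (Real.sqrt (-t / 2) * (-t) * zL t ^ 25)) := by
  have hD0 : 0 ≤ D := le_trans (by norm_num) hD1
  have hs : 0 < Real.sqrt (-t / 2) := Real.sqrt_pos.2 (by linarith)
  have hss : Real.sqrt (-t / 2) ^ 2 = -t / 2 := Real.sq_sqrt (by linarith)
  have hz := zL_pos t (by linarith)
  have hz25 : 0 < zL t ^ 25 := pow_pos hz 25
  have hdef := defY_le _ (zL_y t ht).1 (zL_y t ht).2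
  have e1 : 16 * (zL t / 16) = zL t := by ring
  rw [e1] at hdef
  have hDz := Dz_le D t hD0 hD2 ht
  have hY := abs_le.1 (cY_near _ (zL_y t ht).1 (zL_y t ht).2)
  have hid := PL_defect 0 t (by linarith)
  have hP0 : PL 0 t = Real.sqrt (-t / 2) * ev cY (zL t / 16) := by
    rw [PL, fL]; ring
  set s := Real.sqrt (-t / 2) with hsdef
  set Y0 := ev cY (zL t / 16) with hY0
  set η := q t / s - Y0 with hη
  have hq : q t = s * (Y0 + η) := by
    rw [hη]; field_simp; ring
  have hηz : |η| ≤ 1 / 1000 := le_trans hB hDz.2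
  have hη2 := abs_le.1 hηz
  have hdiff : q t - PL 0 t = s * η := by rw [hq, hP0]; ring
  constructor
  · rw [hdiff, abs_mul, abs_of_pos hs]
    calc s * |η| ≤ s * (D * zL t ^ 25) := mul_le_mul_of_nonneg_left hB hs.le
      _ = D * (s * zL t ^ 25) := by ring
  · have h1 : (t * q t + 2 * q t ^ 3) - PL2 0 t =
        s * (-t) * (η * ((Y0 + η) ^ 2 + (Y0 + η) * Y0 + Y0 ^ 2 - 1)) -
          s * (-t) * ev (defY cY) (zL t / 16) := by
      have h2 : PL2 0 t = t * PL 0 t + 2 * PL 0 t ^ 3 +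
          s * (-t) * ev (defY cY) (zL t / 16) := by
        have h3 : s * (-t) * (ev (defY cY) (zL t / 16) + 0 * zL t ^ 25 *
          (1 - 3 * Y0 ^ 2 + 22499 / 4 * zL t - 3 * Y0 * (0 * zL t ^ 25) - (0 * zL t ^ 25) ^ 2)) =
            s * (-t) * ev (defY cY) (zL t / 16) := by ring
        rw [h3] at hid
        linarith
      rw [h2, hP0, hq]
      have e3 : (s * (Y0 + η)) ^ 3 = s * (-t / 2) * (Y0 + η) ^ 3 := by
        rw [mul_pow, pow_succ, hss]; ring
      have e4 : (s * Y0) ^ 3 = s * (-t / 2) * Y0 ^ 3 := by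
        rw [mul_pow, pow_succ, hss]; ring
      rw [e3, e4]
      ring
    rw [h1]
    have hst : 0 < s * (-t) := mul_pos hs (by linarith)
    have h4 : |(Y0 + η) ^ 2 + (Y0 + η) * Y0 + Y0 ^ 2 - 1| ≤ 201 / 100 := by
      have a1 : 9998 / 10000 ≤ Y0 ^ 2 := by nlinarith [hY.1]
      have a2 : Y0 ^ 2 ≤ 10003 / 10000 := by nlinarith [hY.1, hY.2]
      have a3 : |Y0 * η| ≤ 1001 / 1000 * (1 / 1000) := by
        rw [abs_mul]
        apply mul_le_mul _ hηz (abs_nonneg _) (by norm_num)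
        rw [abs_le]; constructor <;> linarith [hY.1, hY.2]
      have a4 := abs_le.1 a3
      have a5 : η ^ 2 ≤ 1 / 1000000 := by nlinarith [hη2.1, hη2.2]
      have a6 := sq_nonneg η
      rw [abs_le]
      constructor
      · nlinarith [a4.1]
      · nlinarith [a4.2]
    have h5 : |s * (-t) * (η * ((Y0 + η) ^ 2 + (Y0 + η) * Y0 + Y0 ^ 2 - 1))| ≤
        s * (-t) * (D * zL t ^ 25 * (201 / 100)) := by
      rw [abs_mul, abs_of_pos hst, abs_mul]
      apply mul_le_mul_of_nonneg_left _ hst.le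
      exact mul_le_mul hB h4 (abs_nonneg _) hDz.1
    have h6 : |s * (-t) * ev (defY cY) (zL t / 16)| ≤ s * (-t) * (D * zL t ^ 25 * (121 / 100)) := by
      rw [abs_mul, abs_of_pos hst]
      apply mul_le_mul_of_nonneg_left _ hst.le
      refine le_trans hdef ?_
      have h7 : (481 * 10 ^ 60 : ℝ) ≤ D * (121 / 100) := by
        have : (481 * 10 ^ 60 : ℝ) ≤ 4 * 10 ^ 62 * (121 / 100) := by norm_num
        linarith
      have h8 := mul_le_mul_of_nonneg_right h7 hz25.le
      linarith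
    have h7 := abs_sub (s * (-t) * (η * ((Y0 + η) ^ 2 + (Y0 + η) * Y0 + Y0 ^ 2 - 1)))
      (s * (-t) * ev (defY cY) (zL t / 16))
    have h8 : 0 ≤ s * (-t) * (D * zL t ^ 25) := mul_nonneg hst.le hDz.1
    nlinarith

/-- **H3 (b)**: the derivative `δ (q/√(-t/2)) - δ Y_24`, `δ = t d/dt`. -/
theorem H3b {q p : ℝ → ℝ} (hq : ∀ t, HasDerivAt q (p t) t)
    (hp : ∀ t, HasDerivAt p (t * q t + 2 * q t ^ 3) t) (D T : ℝ) (hT : T ≤ -24)
    (hD1 : 4 * 10 ^ 62 ≤ D) (hD2 : D * (1 / 13824) ^ 25 ≤ 1 / 1000)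
    (hB : ∀ t, t ≤ T → |q t / Real.sqrt (-t / 2) - ev cY (zL t / 16)| ≤ D * zL t ^ 25) :
    ∀ t, t ≤ T → |t * p t / Real.sqrt (-t / 2) - q t / Real.sqrt (-t / 2) / 2
        + 3 * (zL t / 16 * dv cY (zL t / 16))| ≤
      6 * (D * zL t ^ 25) * ((-t) * Real.sqrt (-t)) := by
  intro t htT
  have ht : t ≤ -24 := le_trans htT hT
  have hD0 : 0 ≤ D := le_trans (by norm_num) hD1
  have hs : 0 < Real.sqrt (-t / 2) := Real.sqrt_pos.2 (by linarith)
  have hz := zL_pos t (by linarith)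
  have hr : 4 ≤ Real.sqrt (-t) := Real.le_sqrt_of_sq_le (by linarith)
  have hr0 : 0 < Real.sqrt (-t) := by linarith
  have hrr : Real.sqrt (-t) * Real.sqrt (-t) = -t := Real.mul_self_sqrt (by linarith)
  set r := Real.sqrt (-t) with hrdef
  set s := Real.sqrt (-t / 2) with hsdef
  set e : ℝ → ℝ := fun u => q u - PL 0 u with he
  set e1 : ℝ → ℝ := fun u => p u - PL1 0 u with he1
  have hed : ∀ u, u < 0 → HasDerivAt e (e1 u) u := fun u hu => (hq u).sub (hasDerivAt_PL 0 u hu)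
  have hed1 : ∀ u, u < 0 → HasDerivAt e1 ((u * q u + 2 * q u ^ 3) - PL2 0 u) u :=
    fun u hu => (hp u).sub (hasDerivAt_PL1 0 u hu)
  set M0 := D * (s * zL t ^ 25) with hM0
  set M2 := 13 / 4 * (D * (s * (-t) * zL t ^ 25)) with hM2
  have hM0' : 0 ≤ M0 := by positivity
  have hb0 : ∀ u, u ≤ t → |e u| ≤ M0 := by
    intro u hu
    have h1 := (err2 D u hD1 hD2 (le_trans hu ht) (hB u (le_trans hu htT))).1
    refine le_trans h1 ?_
    exact mul_le_mul_of_nonneg_left (tail_mono0 u t ht hu) hD0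
  have hb2 : ∀ u, u ≤ t → |(u * q u + 2 * q u ^ 3) - PL2 0 u| ≤ M2 := by
    intro u hu
    have h1 := (err2 D u hD1 hD2 (le_trans hu ht) (hB u (le_trans hu htT))).2
    refine le_trans h1 ?_
    have h2 := mul_le_mul_of_nonneg_left (tail_mono u t ht hu) hD0
    linarith
  -- mean value theorem twice
  have hlt : t - 1 / r < t := by
    have : 0 < 1 / r := by positivity
    linarith
  obtain ⟨ξ, hξ, hξe⟩ := exists_hasDerivAt_eq_slope e e1 hlt
    (fun u hu => (hed u (by have := hu.2; linarith)).continuousAt.continuousWithinAt)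
    (fun u hu => hed u (by have := hu.2; linarith))
  obtain ⟨ζ, hζ, hζe⟩ := exists_hasDerivAt_eq_slope e1
    (fun u => (u * q u + 2 * q u ^ 3) - PL2 0 u) hξ.2
    (fun u hu => (hed1 u (by have := hu.2; linarith)).continuousAt.continuousWithinAt)
    (fun u hu => hed1 u (by have := hu.2; linarith))
  have h1 : |e1 ξ| ≤ 2 * M0 * r := by
    rw [hξe]
    have e2 : t - (t - 1 / r) = 1 / r := by ring
    rw [e2, div_div_eq_mul_div, div_one, abs_mul, abs_of_pos hr0]
    apply mul_le_mul_of_nonneg_right _ hr0.le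
    have h2 := hb0 t le_rfl
    have h3 := hb0 (t - 1 / r) hlt.le
    have h4 := abs_sub (e t) (e (t - 1 / r))
    linarith
  have h2 : |e1 t - e1 ξ| ≤ M2 / r := by
    have h3 : e1 t - e1 ξ = ((ζ * q ζ + 2 * q ζ ^ 3) - PL2 0 ζ) * (t - ξ) := by
      rw [hζe]
      have : t - ξ ≠ 0 := by have := hξ.2; linarith
      field_simp
    have h4 := hb2 ζ hζ.2.le
    have h5 : t - ξ ≤ 1 / r := by have := hξ.1; linarith
    have h6 : 0 < t - ξ := by have := hξ.2; linarith
    rw [h3, abs_mul, abs_of_pos h6, div_eq_mul_one_div]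
    exact mul_le_mul h4 h5 h6.le (le_trans (abs_nonneg _) h4)
  have h3 : |e1 t| ≤ 21 / 4 * (D * (s * zL t ^ 25)) * r := by
    have h4 : e1 t = e1 ξ + (e1 t - e1 ξ) := by ring
    have h5 := abs_add_le (e1 ξ) (e1 t - e1 ξ)
    rw [← h4] at h5
    have h6 : M2 / r = 13 / 4 * (D * (s * zL t ^ 25)) * r := by
      rw [hM2, ← hrr]
      field_simp
    rw [h6] at h2
    rw [hM0] at h1
    linarith
  -- conclusion
  have hst : s ≠ 0 := hs.ne'
  have hkey : t * p t / s - q t / s / 2 + 3 * (zL t / 16 * dv cY (zL t / 16)) =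
      t * e1 t / s - e t / s / 2 := by
    simp only [he, he1, PL, PL1, fL, fL1]
    rw [← hsdef]
    have ht0 : t ≠ 0 := by linarith
    field_simp
    ring
  rw [hkey]
  have h4 := abs_sub (t * e1 t / s) (e t / s / 2)
  have h5 : |t * e1 t / s| ≤ (-t) * (21 / 4 * (D * zL t ^ 25) * r) := by
    rw [abs_div, abs_mul, abs_of_pos hs, abs_of_neg (by linarith : t < 0), div_le_iff₀ hs]
    calc -t * |e1 t| ≤ -t * (21 / 4 * (D * (s * zL t ^ 25)) * r) :=
          mul_le_mul_of_nonneg_left h3 (by linarith)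
      _ = (-t) * (21 / 4 * (D * zL t ^ 25) * r) * s := by ring
  have h6 : |e t / s / 2| ≤ D * zL t ^ 25 / 2 := by
    rw [abs_div, abs_div, abs_of_pos hs, abs_of_pos (by norm_num : (0 : ℝ) < 2)]
    apply div_le_div_of_nonneg_right _ (by norm_num)
    rw [div_le_iff₀ hs]
    have h7 := hb0 t le_rfl
    rw [hM0] at h7
    linarith
  have h7 : 0 ≤ D * zL t ^ 25 := by positivity
  have h8 : 1 ≤ (-t) * r := by nlinarith
  nlinarith

end Pool.Agent.TWP.Tail
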