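import Mathlib
import Pool.Agent.TWP.TRight0

/-!
# TWP, tails (helper66): H1 and H2, the right tail
-/

set_option autoImplicit false

namespace Pool.Agent.TWP.Tail

open Filter Topology Set MeasureTheory

/-- **H1**: `q'/q ≤ -√t` and `q ≤ exp (-(2/3) t^(3/2))` for `t ≥ 1`. -/
theorem H1 {q p : ℝ → ℝ} {C : ℝ}
    (hq : ∀ t, HasDerivAt q (p t) t) (hp : ∀ t, HasDerivAt p (t * q t + 2 * q t ^ 3) t)
    (hpos : ∀ t, 0 < q t) (hC : ∀ t, 1 ≤ t → |q t| ≤ C ∧ |p t| ≤ C) (h1 : q 1 ≤ 1 / 2) :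
    ∀ t, 1 ≤ t → p t / q t ≤ -Real.sqrt t ∧
      q t ≤ Real.exp (-(2 / 3) * (t * Real.sqrt t)) := by
  have hl : ∀ t, 1 ≤ t → p t / q t ≤ -Real.sqrt t := by
    have := ric_upper (T := 1) one_pos (A := fun t => -Real.sqrt t)
      (A' := fun t => -(1 / (2 * Real.sqrt t))) hq hp hpos hC
      (fun t ht => (Real.hasDerivAt_sqrt ht.ne').neg)
      (fun t ht => ?_) (fun t ht => ?_) (fun t ht => ?_)
    · exact this
    · have : 1 ≤ Real.sqrt t := Real.le_sqrt_of_sq_le (by linarith)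
      linarith
    · have h2 : Real.sqrt t ≤ t := by
        rw [Real.sqrt_le_left (by linarith)]
        nlinarith
      linarith
    · have h2 : 0 ≤ 1 / (2 * Real.sqrt t) := by positivity
      have h3 : (-Real.sqrt t) ^ 2 = t := by
        rw [neg_sq, Real.sq_sqrt (by linarith)]
      rw [h3]
      have := sq_nonneg (q t)
      linarith
  intro t ht
  refine ⟨hl t ht, ?_⟩
  -- F = q exp((2/3) t √t) is antitone
  set F : ℝ → ℝ := fun t => q t * Real.exp (2 / 3 * (t * Real.sqrt t)) with hF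
  have hFd : ∀ s, 0 < s → HasDerivAt F
      (p s * Real.exp (2 / 3 * (s * Real.sqrt s)) +
        q s * (Real.exp (2 / 3 * (s * Real.sqrt s)) * Real.sqrt s)) s := by
    intro s hs
    have hss : 0 < Real.sqrt s := Real.sqrt_pos.2 hs
    have h2 : HasDerivAt (fun t : ℝ => 2 / 3 * (t * Real.sqrt t)) (Real.sqrt s) s := by
      have h3 := (((hasDerivAt_id s).mul (Real.hasDerivAt_sqrt hs.ne')).const_mul (2 / 3 : ℝ))
      refine h3.congr_deriv ?_
      have h4 : ∀ r : ℝ, 0 < r → 2 / 3 * (1 * r + r ^ 2 * (1 / (2 * r))) = r := by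
        intro r hr
        field_simp
        ring
      have h5 := h4 (Real.sqrt s) hss
      rw [Real.sq_sqrt hs.le] at h5
      exact h5
    exact (hq s).mul h2.exp
  have hanti : AntitoneOn F (Ici 1) := by
    apply antitoneOn_of_deriv_nonpos (convex_Ici 1)
    · intro s hs
      exact (hFd s (lt_of_lt_of_le one_pos hs)).continuousAt.continuousWithinAt
    · intro s hs
      rw [interior_Ici] at hs
      exact (hFd s (lt_trans one_pos hs)).differentiableAt.differentiableWithinAt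
    · intro s hs
      rw [interior_Ici] at hs
      rw [(hFd s (lt_trans one_pos hs)).deriv]
      have h2 := hl s (le_of_lt hs)
      rw [div_le_iff₀ (hpos s)] at h2
      have h3 := Real.exp_pos (2 / 3 * (s * Real.sqrt s))
      have h4 : p s * Real.exp (2 / 3 * (s * Real.sqrt s)) +
        q s * (Real.exp (2 / 3 * (s * Real.sqrt s)) * Real.sqrt s) =
        Real.exp (2 / 3 * (s * Real.sqrt s)) * (p s + Real.sqrt s * q s) := by ring
      rw [h4]
      exact mul_nonpos_of_nonneg_of_nonpos h3.le (by linarith)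
  have h2 := hanti (mem_Ici.2 (le_refl (1 : ℝ))) (mem_Ici.2 ht) ht
  have h3 : F 1 ≤ 1 := by
    simp only [hF, Real.sqrt_one, mul_one]
    have h4 : Real.exp (2 / 3) ≤ 2 := by
      have h5 := Real.exp_one_lt_d9
      have h6 : Real.exp (2 / 3) ^ 3 = Real.exp 1 ^ 2 := by
        rw [← Real.exp_nat_mul, ← Real.exp_nat_mul]
        norm_num
      have h7 : Real.exp (2 / 3) ^ 3 ≤ 2 ^ 3 := by
        rw [h6]
        have := Real.exp_pos 1
        nlinarith
      exact le_of_pow_le_pow_left₀ (by norm_num) (by norm_num) h7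
    calc q 1 * Real.exp (2 / 3) ≤ (1 / 2) * 2 :=
          mul_le_mul h1 h4 (Real.exp_pos _).le (by norm_num)
      _ = 1 := by norm_num
  have h4 : q t * Real.exp (2 / 3 * (t * Real.sqrt t)) ≤ 1 := le_trans h2 h3
  rw [neg_mul, Real.exp_neg, ← one_div, le_div_iff₀ (Real.exp_pos _)]
  exact h4

/-- `2 q^2 ≤ t z^31` for `t ≥ 25` -/
theorem small_q {q : ℝ → ℝ} (hpos : ∀ t, 0 < q t)
    (h : ∀ t, 1 ≤ t → q t ≤ Real.exp (-(2 / 3) * (t * Real.sqrt t))) (t : ℝ) (ht : 25 ≤ t) :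
    2 * q t ^ 2 ≤ t * zR t ^ 31 := by
  have hs : 5 ≤ Real.sqrt t := by
    apply Real.le_sqrt_of_sq_le; norm_num; exact ht
  set u := t * Real.sqrt t with hu
  have hu1 : 125 ≤ u := by rw [hu]; nlinarith
  have h1 : q t ^ 2 ≤ Real.exp (-(4 / 3) * u) := by
    have h2 := h t (by linarith)
    have h3 : q t ^ 2 ≤ Real.exp (-(2 / 3) * u) ^ 2 := pow_le_pow_left₀ (hpos t).le h2 2
    rw [← Real.exp_nat_mul] at h3
    have e : ((2 : ℕ) : ℝ) * (-(2 / 3) * u) = -(4 / 3) * u := by push_cast; ring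
    rwa [e] at h3
  -- u ≤ exp ((4/93) u)
  have h2 : u ≤ Real.exp (4 / 93 * u) := by
    have h3 : (148 : ℝ) ≤ Real.exp 5 := by
      have h4 := Real.exp_one_gt_d9
      have h5 : Real.exp 5 = Real.exp 1 ^ 5 := by
        rw [← Real.exp_nat_mul]; norm_num
      rw [h5]
      have h6 : (2.7182818283 : ℝ) ^ 5 ≤ Real.exp 1 ^ 5 :=
        pow_le_pow_left₀ (by norm_num) h4.le 5
      refine le_trans ?_ h6
      norm_num
    have h4 : Real.exp (4 / 93 * u) = Real.exp 5 * Real.exp (4 / 93 * u - 5) := by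
      rw [← Real.exp_add]; congr 1; ring
    have h5 := Real.add_one_le_exp (4 / 93 * u - 5)
    rw [h4]
    have h6 : 148 * (4 / 93 * u - 5 + 1) ≤ Real.exp 5 * Real.exp (4 / 93 * u - 5) := by
      apply mul_le_mul h3 h5 (by linarith) (Real.exp_pos _).le
    linarith
  have h3 : u ^ 31 ≤ Real.exp (4 / 3 * u) := by
    have h4 : u ^ 31 ≤ Real.exp (4 / 93 * u) ^ 31 := pow_le_pow_left₀ (by linarith) h2 31
    rw [← Real.exp_nat_mul] at h4
    have e : ((31 : ℕ) : ℝ) * (4 / 93 * u) = 4 / 3 * u := by push_cast; ring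
    rwa [e] at h4
  have h4 : zR t = 1 / u := rfl
  rw [h4, div_pow, one_pow]
  have h5 : Real.exp (-(4 / 3) * u) ≤ 1 / u ^ 31 := by
    rw [neg_mul, Real.exp_neg, ← one_div]
    exact one_div_le_one_div_of_le (by positivity) h3
  have h6 : (0 : ℝ) ≤ 1 / u ^ 31 := by positivity
  nlinarith

/-- **H2**, the right tail. -/
theorem H2 {q p : ℝ → ℝ} {C : ℝ}
    (hq : ∀ t, HasDerivAt q (p t) t) (hp : ∀ t, HasDerivAt p (t * q t + 2 * q t ^ 3) t)
    (hpos : ∀ t, 0 < q t) (hC : ∀ t, 1 ≤ t → |q t| ≤ C ∧ |p t| ≤ C) (h1 : q 1 ≤ 1 / 2) :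
    ∀ t, 25 ≤ t →
      |p t / q t / (-Real.sqrt t) - ev cS (zR t / 8)| ≤ 12 * 10 ^ 27 * zR t ^ 31 := by
  have hC' : ∀ t, 25 ≤ t → |q t| ≤ C ∧ |p t| ≤ C := fun t ht => hC t (by linarith)
  have hH1 := H1 hq hp hpos hC h1
  have hq2 := small_q hpos (fun t ht => (hH1 t ht).2)
  have hy : ∀ t, 25 ≤ t → 0 ≤ zR t / 8 ∧ zR t / 8 * 1000 ≤ 1 := by
    intro t ht
    have h2 := zR_pos t (by linarith)
    have h3 := zR_le t ht
    constructor <;> linarith
  have hA : ∀ (c : List ℤ), (∀ y : ℝ, 0 ≤ y → y * 1000 ≤ 1 → |ev c y - 1| ≤ 1 / 4) →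
      ∀ t, 25 ≤ t → AR c t ≤ -1 ∧ -(2 * t) ≤ AR c t := by
    intro c hc t ht
    have h2 := hc _ (hy t ht).1 (hy t ht).2
    have h3 := abs_le.1 h2
    have hs : 5 ≤ Real.sqrt t := by
      apply Real.le_sqrt_of_sq_le; norm_num; exact ht
    have hst : Real.sqrt t ≤ t := by
      rw [Real.sqrt_le_left (by linarith)]
      nlinarith
    rw [AR]
    constructor
    · nlinarith [h3.1]
    · nlinarith [h3.2]
  have hlow : ∀ t, 25 ≤ t → AR cSp t ≤ p t / q t := by
    apply ric_lower (T := 25) (by norm_num) hq hp hpos hC' (fun t ht => hasDerivAt_AR cSp t ht)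
      (fun t ht => (hA cSp cSp_near t ht).1) (fun t ht => (hA cSp cSp_near t ht).2)
    intro t ht
    rw [AR_riccati cSp t (by linarith)]
    have h2 := defSp_ge _ (hy t ht).1 (hy t ht).2
    have h3 := hq2 t ht
    have h4 : (8 : ℝ) ^ 31 * (zR t / 8) ^ 31 = zR t ^ 31 := by
      rw [div_pow]; field_simp
    rw [h4] at h2
    have h5 : t * zR t ^ 31 ≤ t * ev (defS cSp) (zR t / 8) :=
      mul_le_mul_of_nonneg_left h2 (by linarith)
    linarith
  have hupp : ∀ t, 25 ≤ t → p t / q t ≤ AR cSm t := by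
    apply ric_upper (T := 25) (by norm_num) hq hp hpos hC' (fun t ht => hasDerivAt_AR cSm t ht)
      (fun t ht => (hA cSm cSm_near t ht).1) (fun t ht => (hA cSm cSm_near t ht).2)
    intro t ht
    rw [AR_riccati cSm t (by linarith)]
    have h2 := defSm_le _ (hy t ht).1 (hy t ht).2
    have h5 : t * ev (defS cSm) (zR t / 8) ≤ 0 :=
      mul_nonpos_of_nonneg_of_nonpos (by linarith) h2
    have := sq_nonneg (q t)
    linarith
  intro t ht
  have hs : 0 < Real.sqrt t := Real.sqrt_pos.2 (by linarith)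
  have e1 : AR cSp t = -(Real.sqrt t * (ev cS (zR t / 8) + 12 * 10 ^ 27 * zR t ^ 31)) := by
    rw [AR, cSp, ev_append, cS_length]
    simp only [ev_cons, ev_nil, dS]
    push_cast
    rw [div_pow]
    ring
  have e2 : AR cSm t = -(Real.sqrt t * (ev cS (zR t / 8) - 12 * 10 ^ 27 * zR t ^ 31)) := by
    rw [AR, cSm, ev_append, cS_length]
    simp only [ev_cons, ev_nil, dS]
    push_cast
    rw [div_pow]
    ring
  have h2 := hlow t ht
  have h3 := hupp t ht
  rw [e1] at h2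
  rw [e2] at h3
  rw [abs_le]
  have h4 : p t / q t / (-Real.sqrt t) = -(p t / q t) / Real.sqrt t := by
    rw [div_neg, neg_div]
  rw [h4]
  constructor
  · rw [le_sub_iff_add_le, le_div_iff₀ hs]
    linarith
  · rw [sub_le_iff_le_add, div_le_iff₀ hs]
    linarith

end Pool.Agent.TWP.Tail
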