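import Pool.Agent.TWP.StB
import Pool.Agent.TWP.EHM
import Pool.Agent.TWP.TRight
import Pool.Agent.TWP.TLeftD

set_option autoImplicit false

/-! TWP, block B: the tails for the Hastings-McLeod solution, from `S_BR`, `S_BL` and the comparison
on the left. -/

namespace TWP

open Filter Topology

theorem zR_small {t : ℝ} (ht : 127 / 5 ≤ t) : Pool.Agent.TWP.Tail.zR t ≤ 1 / 128 := by
  have h1 : 50394 / 10000 ≤ Real.sqrt t := by
    apply Real.le_sqrt_of_sq_le
    norm_num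
    linarith
  have h2 : 128 ≤ t * Real.sqrt t := by nlinarith
  exact one_div_le_one_div_of_le (by norm_num) h2

theorem tail_right (hBR : S_BR) (q : ℝ → ℝ) (h : IsHM q) (t : ℝ) (ht : 127 / 5 ≤ t) :
    (∀ j, 1 ≤ j → j ≤ 8 → 0 < toda (mTwo q (fun t => deriv q t / q t)) j t) ∧
    (∀ j, 1 ≤ j → j ≤ 5 → 0 < toda (mOne q (fun t => deriv q t / q t)) j t) := by
  obtain ⟨C, hC⟩ := h.bdd
  have hH2 := Pool.Agent.TWP.Tail.H2 h.ode1 h.ode2 h.pos hC h.one_le
  have := hBR q (fun t => deriv q t / q t) h.ql hH2 (fun t ht => h.upb t ht) t (by linarith)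
    (zR_small ht)
  exact ⟨fun j a b => (this.1 j a b).1, fun j a b => (this.2 j a b).1⟩

theorem yL_small {t : ℝ} (ht : t ≤ -(49 / 2)) : yL t ≤ 3 / 256 := by
  have h1 : 49497 / 10000 ≤ Real.sqrt (-t) := by
    apply Real.le_sqrt_of_sq_le
    norm_num
    linarith
  have h2 : Real.sqrt 2 ≤ 14143 / 10000 := by
    rw [Real.sqrt_le_left (by norm_num)]
    norm_num
  have h3 : 12126 / 100 ≤ (-t) * Real.sqrt (-t) := by nlinarith
  unfold yL
  rw [div_le_div_iff₀ (by linarith) (by norm_num)]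
  nlinarith

theorem tail_left (hBL : S_BL) (q : ℝ → ℝ) (h : IsHM q)
    (hA : ∀ t, t ≤ -(49 / 2) → |q t / Real.sqrt (-t / 2) -
      Pool.Agent.TWP.Tail.ev Pool.Agent.TWP.Tail.cY (Pool.Agent.TWP.Tail.zL t / 16)| ≤
      5 * 10 ^ 62 * Pool.Agent.TWP.Tail.zL t ^ 25) (t : ℝ) (ht : t ≤ -(49 / 2)) :
    (∀ j, 1 ≤ j → j ≤ 8 → 0 < toda (mTwo q (fun t => deriv q t / q t)) j t) ∧
    (∀ j, 1 ≤ j → j ≤ 5 → 0 < toda (mOne q (fun t => deriv q t / q t)) j t) := by
  have hH3 := Pool.Agent.TWP.Tail.H3b h.ode1 h.ode2 (5 * 10 ^ 62) (-(49 / 2)) (by norm_num)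
    (by norm_num) (by norm_num) hA t ht
  have e : t * (deriv q t / q t * q t) / Real.sqrt (-t / 2) = t * deriv q t / Real.sqrt (-t / 2) := by
    rw [div_mul_cancel₀ _ (h.pos t).ne']
  have := hBL q (fun t => deriv q t / q t) h.ql t (by linarith) (yL_small ht) (hA t ht)
    (by beta_reduce; rw [e]; exact hH3)
  exact ⟨fun j a b => (this.1 j a b).1, fun j a b => (this.2 j a b).1⟩

end TWP
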