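import Pool.Agent.TWP.BFin
import Pool.Agent.TWP.BTail
import Pool.Agent.TWP.BA

set_option autoImplicit false

/-! TWP, block B: the tails for the Hastings-McLeod solution (right: no hypothesis; left: from the
comparison with `Y_40`). -/

namespace TWP

/-- the right tail -/
theorem hR_end (q : ℝ → ℝ) (h : IsHM q) (t : ℝ) (ht : 127 / 5 ≤ t) :
    (∀ j, 1 ≤ j → j ≤ 8 → 0 < toda (mTwo q (fun t => deriv q t / q t)) j t) ∧
    (∀ j, 1 ≤ j → j ≤ 5 → 0 < toda (mOne q (fun t => deriv q t / q t)) j t) :=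
  tail_right bR q h t ht

/-- the left tail -/
theorem hL_end (q : ℝ → ℝ) (h : IsHM q)
    (hA : ∀ t, t ≤ -(49 / 2) → |q t / Real.sqrt (-t / 2) -
      Pool.Agent.TWP.Tail.ev Pool.Agent.TWP.Tail.cY40 (Pool.Agent.TWP.Tail.zL t / 16)| ≤
      (Pool.Agent.TWP.Tail.dY40 : ℝ) * (Pool.Agent.TWP.Tail.zL t / 16) ^ 41)
    (t : ℝ) (ht : t ≤ -(49 / 2)) :
    (∀ j, 1 ≤ j → j ≤ 8 → 0 < toda (mTwo q (fun t => deriv q t / q t)) j t) ∧
    (∀ j, 1 ≤ j → j ≤ 5 → 0 < toda (mOne q (fun t => deriv q t / q t)) j t) :=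
  tail_left bL q h (fun s hs => hA_of_int _ s (by linarith) (hA s hs)) t ht

end TWP
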