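import Pool.Agent.TWP.StB
import Pool.Agent.TWP.KNrm

set_option autoImplicit false

/-! TWP: module TWP_BGJ (Gronwall for jets). -/

namespace TWP

open PowerSeries Finset

namespace BGJaux

theorem step_one (m : ℕ) (r : ℝ) (hr : 0 < r) (A : ℝ⟦X⟧) :
    nrm (m + 1) r A ≤ nrm m r A + r / ((m : ℝ) + 1) * nrm m r (D A) := by
  have h1 : nrm (m + 1) r A = nrm m r A + |coeff (m + 1) A| * r ^ (m + 1) := by
    unfold nrm
    rw [sum_range_succ _ (m + 1)]
  have h2 : |coeff m (D A)| * r ^ m ≤ nrm m r (D A) :=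
    single_le_sum (f := fun i => |coeff i (D A)| * r ^ i)
      (fun i _ => mul_nonneg (abs_nonneg _) (pow_nonneg hr.le i)) (mem_range.2 (Nat.lt_succ_self m))
  have hm : (0 : ℝ) < (m : ℝ) + 1 := by positivity
  have h3 : |coeff m (D A)| = ((m : ℝ) + 1) * |coeff (m + 1) A| := by
    unfold D
    rw [coeff_derivative, abs_mul, abs_of_pos hm]
    ring
  have h4 : |coeff (m + 1) A| * r ^ (m + 1) = r / ((m : ℝ) + 1) * (|coeff m (D A)| * r ^ m) := by
    rw [h3, pow_succ]
    field_simp
  rw [h1, h4]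
  have h5 : 0 ≤ r / ((m : ℝ) + 1) := by positivity
  have := mul_le_mul_of_nonneg_left h2 h5
  linarith

end BGJaux

theorem t_BGJ : S_BGJ := by
  intro M r Λ β e0 δ A B hr hΛ hβ he0 hA hδ hD
  have hf : ∀ j : ℕ, (1 : ℝ) ≤ 1 + r * Λ / ((j : ℝ) + 1) := by
    intro j
    have : 0 ≤ r * Λ / ((j : ℝ) + 1) := by positivity
    linarith
  have hpos : ∀ m : ℕ, 0 ≤ ∏ j ∈ range m, (1 + r * Λ / ((j : ℝ) + 1)) :=
    fun m => prod_nonneg fun j _ => by linarith [hf j]
  have hmono' : Monotone fun m : ℕ => ∏ j ∈ range m, (1 + r * Λ / ((j : ℝ) + 1)) := by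
    refine monotone_nat_of_le_succ fun m => ?_
    show ∏ j ∈ range m, (1 + r * Λ / ((j : ℝ) + 1)) ≤ ∏ j ∈ range (m + 1), (1 + r * Λ / ((j : ℝ) + 1))
    rw [prod_range_succ]
    exact le_mul_of_one_le_right (hpos m) (hf m)
  have hmono : ∀ m ≤ M, ∏ j ∈ range m, (1 + r * Λ / ((j : ℝ) + 1)) ≤
      ∏ j ∈ range M, (1 + r * Λ / ((j : ℝ) + 1)) := fun m hm => hmono' hm
  have key : ∀ m ≤ M, nrm m r A + nrm m r B + β ≤
      (e0 + β) * ∏ j ∈ range m, (1 + r * Λ / ((j : ℝ) + 1)) := by
    intro m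
    induction m with
    | zero =>
      intro _
      simp only [range_zero, prod_empty, mul_one]
      have : nrm 0 r A + nrm 0 r B = |coeff 0 A| + |coeff 0 B| := by
        unfold nrm
        simp
      linarith
    | succ m ih =>
      intro hm
      have ih' := ih (by omega)
      have h1 : nrm m r A + nrm m r B ≤ δ := by
        have h2 := mul_le_mul_of_nonneg_left (hmono m (by omega)) (by linarith : 0 ≤ e0 + β)
        linarith
      have h2 := hD m (by omega) h1
      have h3 := BGJaux.step_one m r hr A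
      have h4 := BGJaux.step_one m r hr B
      have hm1 : (0 : ℝ) < (m : ℝ) + 1 := by positivity
      have h5 : 0 ≤ r / ((m : ℝ) + 1) := by positivity
      have hN : 0 ≤ nrm m r A + nrm m r B :=
        add_nonneg (nrm_nonneg m hr.le A) (nrm_nonneg m hr.le B)
      have h6 : nrm m r (D A) + nrm m r (D B) ≤ Λ * (nrm m r A + nrm m r B + β) := by
        nlinarith
      have h7 := mul_le_mul_of_nonneg_left h6 h5
      have h8 : nrm (m + 1) r A + nrm (m + 1) r B + β ≤
          (nrm m r A + nrm m r B + β) * (1 + r * Λ / ((m : ℝ) + 1)) := by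
        have h9 : (nrm m r A + nrm m r B + β) * (1 + r * Λ / ((m : ℝ) + 1)) =
            (nrm m r A + nrm m r B + β) +
              r / ((m : ℝ) + 1) * (Λ * (nrm m r A + nrm m r B + β)) := by
          ring
        rw [h9]
        have h10 : r / ((m : ℝ) + 1) * (nrm m r (D A) + nrm m r (D B)) =
          r / ((m : ℝ) + 1) * nrm m r (D A) + r / ((m : ℝ) + 1) * nrm m r (D B) := by ring
        linarith
      rw [prod_range_succ, ← mul_assoc]
      refine h8.trans (mul_le_mul_of_nonneg_right ih' ?_)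
      linarith [hf m]
  have := key M le_rfl
  linarith

end TWP
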