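import Pool.Agent.TWP.StF
import Pool.Agent.TWP.KSt
import Pool.Agent.TWP.TailK
import Pool.Agent.TWP.TRight0
import Pool.Agent.TWP.TLeft0

/-! TWP, block B (both tails), helper21: statements with paper proofs.
Every `S_xxx` is a module `TWP_xxx` (`theorem t_xxx … : S_xxx`); hypotheses of other modules are named in
the doc strings and taken as arguments (`(h : S_YYY)`), unless the module says that they are on main.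
Norm lemmas: `Pool/Agent/TWP/KNrm.lean` (`nrm_add, nrm_sub, nrm_neg, nrm_C_mul, nrm_mul, nrm_mono_M,
nrm_mono_r, nrm_pow_le_one, nrm_coeff_zero, …`). `D` is the derivative of power series (it is a
derivation; in `Tay` series `D (Tay ψ f t) = Tay ψ (dl ψ f) t`). Chart: `ψ s = (2/3) s`.

RIGHT tail (`t > 0`): `z = t^(-3/2)`, `S = -l/√t`, `κ = q/√t`; series `ξ₁ = Tay z`, `D ξ₁ = -ξ₁`;
`ξ₁ ((3/2) D S + S/2) = S² - 1 - 2κ²`, `ξ₁ (D κ + κ/3) = -(2/3) S κ`.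
`G = √t g = S/2 + (3/2) D S + κ² ξ₁⁻¹`, `μ = m/√t`, `α_k = √t toda_k`, `α_1 = -((3/2) D μ + μ/2)`.
LEFT tail (`t < 0`, `x = -t`): `y = √2 x^(-3/2)`, `Y = q/√(x/2)`; series `υ = Tay y`, `D υ = -υ`;
`(υ²/2) ((9/4) D² Y - Y/4) = Y³ - Y`. `H = 1/2 + (3/2) D Y/Y = t l`, `G = g/x = 1 - Y²/2 + (υ²/2) H²`,
`μ = m/t²`, `α_k = (2/x) toda_k`, `α_1 = 4 μ + 3 D μ`. -/

set_option autoImplicit false

namespace TWP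

open PowerSeries Finset Filter Topology
open scoped ContDiff

noncomputable def psiT : ℝ → ℝ := fun s => 2 / 3 * s

/-- `√t g` on the right -/
noncomputable def GR (S κ ξ₁ : ℝ⟦X⟧) : ℝ⟦X⟧ := C (1 / 2 : ℝ) * S + C (3 / 2 : ℝ) * D S + κ ^ 2 * ξ₁⁻¹

/-- `m/√t` on the right (`two`: `m = (log f_2)'`, otherwise `(log f_1)'`) -/
noncomputable def muR (two : Bool) (S κ ξ₁ : ℝ⟦X⟧) : ℝ⟦X⟧ :=
  if two then κ ^ 2 * GR S κ ξ₁ - (GR S κ ξ₁)⁻¹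
  else C (1 / 2 : ℝ) * (κ ^ 2 * GR S κ ξ₁ + κ) - (S + κ) * (1 + κ * GR S κ ξ₁)⁻¹

noncomputable def HLs (Y : ℝ⟦X⟧) : ℝ⟦X⟧ := C (1 / 2 : ℝ) + C (3 / 2 : ℝ) * (D Y * Y⁻¹)

/-- `g/x` on the left -/
noncomputable def GLs (Y υ : ℝ⟦X⟧) : ℝ⟦X⟧ :=
  1 - C (1 / 2 : ℝ) * Y ^ 2 + C (1 / 2 : ℝ) * υ ^ 2 * HLs Y ^ 2

/-- `m/t²` on the left -/
noncomputable def muL (two : Bool) (Y υ : ℝ⟦X⟧) : ℝ⟦X⟧ :=
  if two then C (1 / 2 : ℝ) * (Y ^ 2 * GLs Y υ) - C (1 / 2 : ℝ) * υ ^ 2 * (GLs Y υ)⁻¹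
  else C (1 / 4 : ℝ) * (Y ^ 2 * GLs Y υ + υ * Y) -
    C (1 / 2 : ℝ) * υ ^ 2 * ((υ * HLs Y + Y) * (υ + Y * GLs Y υ)⁻¹)

/-! ### Common lemmas -/

/-- BEX. Proof. `(n+1) ξ_(n+1) = -ξ_n` (`coeff_derivative`), so `|ξ_n| = ξ_0/n!`; `∑ r^n/n! ≤ exp r`
(`Real.sum_le_exp_of_nonneg`). `η = ξ⁻¹`: `ξ η = 1` (`coeff 0 ξ ≠ 0`), `0 = D (ξ η) = -ξ η + ξ D η`, so `ξ (D η - η) = 0`,
multiply by `η`: `D η = η`; the same computation for the coefficients of `η`, `η_0 = ξ_0⁻¹`. -/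
def S_BEX : Prop := ∀ ξ : ℝ⟦X⟧, D ξ = -ξ → 0 < coeff 0 ξ →
  D ξ⁻¹ = ξ⁻¹ ∧ ξ * ξ⁻¹ = 1 ∧ coeff 0 ξ⁻¹ = (coeff 0 ξ)⁻¹ ∧
  ∀ (M : ℕ) (r : ℝ), 0 ≤ r → nrm M r ξ ≤ coeff 0 ξ * Real.exp r ∧
    nrm M r ξ⁻¹ ≤ (coeff 0 ξ)⁻¹ * Real.exp r

/-- BGJ (Gronwall for jets). Proof. Put `N m = nrm m r A + nrm m r B`, `π m` the product over `j < m`
(increasing in `m`, `≥ 1`). By induction on `m ≤ M`: `N m + β ≤ (e0 + β) π m`. `m = 0`: `nrm 0 r A = |coeff 0 A|`. Step: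
`N m ≤ δ`, `(m+1) |coeff (m+1) A| r^(m+1) = r |coeff m (D A)| r^m ≤ r nrm m r (D A)`, so
`N (m+1) + β ≤ N m + β + (r/(m+1)) (Λ N m + β) ≤ (N m + β) (1 + r Λ/(m+1))`. -/
def S_BGJ : Prop := ∀ (M : ℕ) (r Λ β e0 δ : ℝ) (A B : ℝ⟦X⟧), 0 < r → 1 ≤ Λ → 0 ≤ β → 0 ≤ e0 →
  |coeff 0 A| + |coeff 0 B| ≤ e0 →
  (e0 + β) * ∏ j ∈ range M, (1 + r * Λ / ((j : ℝ) + 1)) ≤ δ →
  (∀ m < M, nrm m r A + nrm m r B ≤ δ →
    nrm m r (D A) + nrm m r (D B) ≤ Λ * (nrm m r A + nrm m r B) + β) →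
  nrm M r A + nrm M r B ≤ (e0 + β) * ∏ j ∈ range M, (1 + r * Λ / ((j : ℝ) + 1))

/-- BPN. Proof. `1 + u a ≤ u (1 + a)` for `u ≥ 1`, so the product is `≤ u^16 ∏ (1 + a_j)`; numbers by `norm_num`
(`∏ (1 + 147.2/(j+1)) ≤ 5.67·10^21`, `∏ (1 + 128/(j+1)) ≤ 6.88·10^20`). Third: `exp (1/2) ≤ 1.65`: `(exp (1/2))² = exp 1`
`< 2.7182818286 ≤ 1.65²` (`Real.exp_one_lt_d9`). -/
def S_BPN : Prop :=
  (∀ u : ℝ, 1 ≤ u →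
    ∏ j ∈ range 16, (1 + 1 / 2 * (23 / 10 * 128 * u) / ((j : ℝ) + 1)) ≤ u ^ 16 * (6 * 10 ^ 21) ∧
    ∏ j ∈ range 16, (1 + 1 / 2 * (256 * u) / ((j : ℝ) + 1)) ≤ u ^ 16 * (7 * 10 ^ 20)) ∧
  Real.exp (1 / 2) ≤ 33 / 20 ∧ Real.exp 1 ≤ 27225 / 10000

/-- BNB. Proof. Induction on `l`: `nrm (evZ (a :: l)) ≤ |a| + nrm ξ * nrm (evZ l)`, times `W^(length + 1)`. -/
def S_BNB : Prop := ∀ (M : ℕ) (r : ℝ) (ξ : ℝ⟦X⟧) (W : ℕ) (l : List ℤ), 0 ≤ r → 0 < W →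
  nrm M r ξ * W ≤ 1 → nrm M r (evZ ξ l) * (W : ℝ) ^ l.length ≤ W * (K.nbK W l : ℝ)

/-- BDE. Proof. For all `n : ℤ`: `D (evZ ξ P) = C k * (evZ ξ (derTAux n P) + C n * evZ ξ P)` by induction on `P`
(generalising `n`); `n = 0`. -/
def S_BDE : Prop := ∀ (ξ : ℝ⟦X⟧) (k : ℝ) (P : List ℤ), D ξ = -(C k * ξ) →
  D (evZ ξ P) = C k * evZ ξ (K.derT P)

/-- BIC (comparison of two polynomials). Proof. Induction on `cs` (generalising `ss, p, d`):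
`C (p/d) * evZ (C (a/b) ξ) (c :: cs) = C (c p/d) + ξ * (C (p a/(d b)) * evZ (C (a/b) ξ) cs)`, `evZ ξ ss = C (ss.headD 0) + ξ * evZ ξ ss.tail`
and `|c p/d - s| = |c p - s d|/d ≤ natAbs (c p - s d)/natAbs d + 1` (natural division), `nrm (ξ * E) ≤ nrm E`. `cs = []`:
`nrm (evZ ξ ss) ≤ sumAbs ss`. -/
def S_BIC : Prop := ∀ (M : ℕ) (r : ℝ) (ξ : ℝ⟦X⟧) (a b p d : ℤ) (cs ss : List ℤ), 0 ≤ r →
  nrm M r ξ ≤ 1 → 0 < b → 0 < d →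
  nrm M r (C ((p : ℝ) / d) * evZ (C ((a : ℝ) / b) * ξ) cs - evZ ξ ss) ≤ (K.cmpL a b cs ss p d : ℝ)

/-- BDB. Proof. Inductions. -/
def S_BDB : Prop := ∀ (ξ : ℝ⟦X⟧) (l : List ℤ), evZ ξ (K.dbl l) = evZ (ξ ^ 2) l

/-- BV0. `coeff 0` of a polynomial series is Horner. Proof. Induction. -/
def S_BV0 : Prop := ∀ (ξ : ℝ⟦X⟧) (l : List ℤ),
  coeff 0 (evZ ξ l) = Pool.Agent.TWP.Tail.ev l (coeff 0 ξ)

/-- BRT: `radT` gives `TabOK`. Proof. Induction as `radT` recurses. `exp x ≤ expP r/(720·4096^6)`, `x = r/4096 ≤ 1`: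
`Real.exp_bound'` with `n = 6` (`7/(720·6) ≤ 2/720`). The derivative constants: `(n+1) r'^n·1024·4096 ≤ c r^(n+1)` divided by
`4096^(n+1)`. -/
def S_BRT : Prop := ∀ (zn zd M : ℕ) (rs : List ℕ) (tab : K.Tab) (ξ : ℝ⟦X⟧), 0 < zd →
  K.radT zn zd M rs tab = true →
  (∀ (M : ℕ) (r : ℝ), 0 ≤ r → nrm M r ξ ≤ (zn : ℝ) / zd * Real.exp r) →
  TabOK ξ M (rs.map fun r => (r : ℝ) / 4096) tab

/-! ### Right tail -/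

/-- BPR. With `ζ = C (1/8) * ξ`: `D ζ = -ζ`, `nrm 16 (1/2) ζ ≤ (33/160) z ≤ 1/620` (BEX, BPN). `P = evZ ζ cR`,
`nrm P ≤ 1 + nrm ζ * nrm (evZ ζ cR.tail) ≤ 101/100` (BNB, numbers `K.nbR1` of TailC, `decide +kernel`). `R = - evZ ζ residR`: `D P = evZ ζ (derT cR)`
(BDE, `k = 1`, or helper22's DER), `evZ` of `addL, smulL, conv` (EVA): `evZ ζ residR = P² - 1 + ζ (-4 P - 12 D P)`, `ξ = 8 ζ`. The
first 51 entries of `residR` are 0 (`K.residR0`), so `evZ ζ residR = ζ^51 * evZ ζ (residR.drop 51)`,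
`nrm ≤ ((33/160) z)^51 * (620 nbK 620 (drop)/620^length) ≤ 11·10^68 z^51` (`K.residR1`). Hypotheses BEX, BPN, BNB, BDE, EVA (helper22). -/
def S_BPR : Prop := ∀ (z : ℝ) (ξ : ℝ⟦X⟧), 0 < z → z ≤ 1 / 128 → D ξ = -ξ → coeff 0 ξ = z →
  nrm 16 (1 / 2) (evZ (C (1 / 8 : ℝ) * ξ) K.cR) ≤ 101 / 100 ∧
  ∃ R : ℝ⟦X⟧, ξ * (C (3 / 2 : ℝ) * D (evZ (C (1 / 8 : ℝ) * ξ) K.cR) +
      C (1 / 2 : ℝ) * evZ (C (1 / 8 : ℝ) * ξ) K.cR) =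
    evZ (C (1 / 8 : ℝ) * ξ) K.cR ^ 2 - 1 + R ∧ nrm 16 (1 / 2) R ≤ 11 * 10 ^ 68 * z ^ 51

/-- BRJ (jets of the error, right). Proof. `E = S - P`, `η = ξ⁻¹`, `nrm η ≤ (33/20)/z` (BEX, BPN). Subtract:
`ξ ((3/2) D E + E/2) = 2 P E + E² - 2 κ² - R`, so `D E = (2/3) η (2 P E + E² - 2 κ² - R) - E/3` and
`D κ = -(2/3) η (P κ + E κ) - κ/3`. For `m < 16` and `N = nrm m E + nrm m κ ≤ δ = 1/1000` (all norms at `1/2`):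
`nrm (D E) + nrm (D κ) ≤ (11/10)/z ((2.02 + .001) nrm E + .002 nrm κ + ρ + 1.011 nrm κ) + N/3 ≤ (23/10)/z N + (12/10) ρ/z`
(`1/3 ≤ (1/384)/z`). BGJ with `M = 16`, `r = 1/2`, `Λ = (23/10)/z = 23/10*128*u`, `u = 1/(128 z) ≥ 1`, `β = (12/10) ρ/z`,
`δ = 1/1000`, and BPN. Hypotheses BEX, BPN, BGJ. -/
def S_BRJ : Prop := ∀ (z ρ e0 : ℝ) (ξ S κ P R : ℝ⟦X⟧), 0 < z → z ≤ 1 / 128 → D ξ = -ξ →
  coeff 0 ξ = z → 0 ≤ ρ → 0 ≤ e0 →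
  ξ * (C (3 / 2 : ℝ) * D S + C (1 / 2 : ℝ) * S) = S ^ 2 - 1 - 2 * κ ^ 2 →
  ξ * (D κ + C (1 / 3 : ℝ) * κ) = -(C (2 / 3 : ℝ) * (S * κ)) →
  ξ * (C (3 / 2 : ℝ) * D P + C (1 / 2 : ℝ) * P) = P ^ 2 - 1 + R →
  nrm 16 (1 / 2) P ≤ 101 / 100 → nrm 16 (1 / 2) R ≤ ρ →
  |coeff 0 (S - P)| + |coeff 0 κ| ≤ e0 →
  (e0 + 12 / 10 * (ρ / z)) * (1 / (128 * z)) ^ 16 * (6 * 10 ^ 21) ≤ 1 / 1000 →
  nrm 16 (1 / 2) (S - P) + nrm 16 (1 / 2) κ ≤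
    (e0 + 12 / 10 * (ρ / z)) * (1 / (128 * z)) ^ 16 * (6 * 10 ^ 21)

/-- BRN (numbers, right). Proof. First: `z^k (1/(128 z))^16 = (1/128)^16 z^(k-16) ≤ (1/128)^k (128 z)` for `k ≥ 17`
(`k = 31, 50, 85`); the sum at `z = 1/128` is `< 2·10^-14`. Second: `exp x ≥ x^85/85!` for `x = 2/(3 z) > 0`
(`Real.pow_div_factorial_le_exp`). Third: `ev cR y = ev cS y + ∑_(31 ≤ n ≤ 50) cR_n y^n` (`cR = cS ++ …` by `decide +kernel`,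
`ev_append`, or `ev_split`), `∑ |cR_n| y^n ≤ 8^31 y^31 * 1.38·10^28` for `0 ≤ y = z/8 ≤ 1/1024` (`abs_ev_le` of TLib with `M = 1024`). -/
def S_BRN : Prop := ∀ z : ℝ, 0 < z → z ≤ 1 / 128 →
  ((3 * 10 ^ 28 * z ^ 31 + (Nat.factorial 85 : ℝ) * (3 / 2) ^ 85 * z ^ 85) +
      12 / 10 * (11 * 10 ^ 68 * z ^ 51 / z)) * (1 / (128 * z)) ^ 16 * (6 * 10 ^ 21) ≤
    1 / 10 ^ 13 * (128 * z) ∧
  Real.exp (-(2 / 3) / z) ≤ (Nat.factorial 85 : ℝ) * (3 / 2) ^ 85 * z ^ 85 ∧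
  ∀ s : ℝ, |s - Pool.Agent.TWP.Tail.ev Pool.Agent.TWP.Tail.cS (z / 8)| ≤ 12 * 10 ^ 27 * z ^ 31 →
    |s - Pool.Agent.TWP.Tail.ev K.cR (z / 8)| ≤ 3 * 10 ^ 28 * z ^ 31

/-- BRF (functions to series, right). Proof. `zR s = 1/(s √s)`, all functions are `C^∞` at `t > 0` (`q, l`: QS of helper30, on main:
FQS.lean). `dl psiT zR = - zR` near `t` (`hasDerivAt_zR` of TRight0), `dl psiT (-l/√s) = (2/3) s (-(s + 2q² - l²)/√s + l/(2 s √s))`, so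
`zR ((3/2) dl S + S/2) = S² - 1 - 2 κ²` near `t`; `dl κ = (2/3) s (l q/√s - q/(2 s √s)) = -((2/3) S/zR + 1/3) κ`. Apply TC (germs,
`coeff 0`, `D (Tay f) = Tay (dl f)`), TA, TM (all on main: FTA.lean, FTM.lean, …; take `S_TC, S_TA, S_TM, S_QS` as hypotheses if you
prefer). -/
def S_BRF : Prop := ∀ (q l : ℝ → ℝ) (t : ℝ), QL q l → 0 < t →
  D (Tay psiT Pool.Agent.TWP.Tail.zR t) = -Tay psiT Pool.Agent.TWP.Tail.zR t ∧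
  coeff 0 (Tay psiT Pool.Agent.TWP.Tail.zR t) = Pool.Agent.TWP.Tail.zR t ∧
  coeff 0 (Tay psiT (fun s => -(l s) / Real.sqrt s) t) = -(l t) / Real.sqrt t ∧
  coeff 0 (Tay psiT (fun s => q s / Real.sqrt s) t) = q t / Real.sqrt t ∧
  Tay psiT Pool.Agent.TWP.Tail.zR t *
      (C (3 / 2 : ℝ) * D (Tay psiT (fun s => -(l s) / Real.sqrt s) t) +
        C (1 / 2 : ℝ) * Tay psiT (fun s => -(l s) / Real.sqrt s) t) =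
    Tay psiT (fun s => -(l s) / Real.sqrt s) t ^ 2 - 1 -
      2 * Tay psiT (fun s => q s / Real.sqrt s) t ^ 2 ∧
  Tay psiT Pool.Agent.TWP.Tail.zR t *
      (D (Tay psiT (fun s => q s / Real.sqrt s) t) +
        C (1 / 3 : ℝ) * Tay psiT (fun s => q s / Real.sqrt s) t) =
    -(C (2 / 3 : ℝ) * (Tay psiT (fun s => -(l s) / Real.sqrt s) t *
      Tay psiT (fun s => q s / Real.sqrt s) t))

/-- BRM (the series of `m/√s`, right). Proof. `G s = √s g s = (S² - 1 - κ²)/z`, so `Tay G = ξ₁⁻¹ (S² - 1 - κ²) = GR S κ ξ₁`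
(BRF, `ξ₁ ξ₁⁻¹ = 1` as `coeff 0 ξ₁ = zR t > 0`; TI for `1/z`), `coeff 0 (GR …) = √t g t`. `mTwo/√s = κ² G - 1/G`,
`mOne/√s = (κ² G + κ)/2 - (S + κ)/(1 + κ G)` as functions near `t` (where the denominators are not 0); TC, TA, TM, TI. For
`α_1`: `√s toda m 1 = -√s deriv m = -((3/2) dl μ + μ/2)` near `t` for `μ = m/√s` smooth. Smoothness of `mTwo, mOne` at `t`: quotients with
nonzero denominators. Hypotheses BRF, TC, TA, TM, TI, QS. -/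
def S_BRM : Prop := ∀ (q l : ℝ → ℝ) (t : ℝ) (two : Bool), QL q l → 0 < t →
  (if two then
      coeff 0 (GR (Tay psiT (fun s => -(l s) / Real.sqrt s) t) (Tay psiT (fun s => q s / Real.sqrt s) t)
        (Tay psiT Pool.Agent.TWP.Tail.zR t)) ≠ 0
    else
      coeff 0 (1 + Tay psiT (fun s => q s / Real.sqrt s) t *
        GR (Tay psiT (fun s => -(l s) / Real.sqrt s) t) (Tay psiT (fun s => q s / Real.sqrt s) t)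
          (Tay psiT Pool.Agent.TWP.Tail.zR t)) ≠ 0) →
  ContDiffAt ℝ ∞ (if two then mTwo q l else mOne q l) t ∧
  Tay psiT (fun s => Real.sqrt s * toda (if two then mTwo q l else mOne q l) 1 s) t =
    -(C (3 / 2 : ℝ) * D (muR two (Tay psiT (fun s => -(l s) / Real.sqrt s) t)
        (Tay psiT (fun s => q s / Real.sqrt s) t) (Tay psiT Pool.Agent.TWP.Tail.zR t)) +
      C (1 / 2 : ℝ) * muR two (Tay psiT (fun s => -(l s) / Real.sqrt s) t)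
        (Tay psiT (fun s => q s / Real.sqrt s) t) (Tay psiT Pool.Agent.TWP.Tail.zR t))

/-- BRA (soundness of `rightA`). Hypotheses BEX, BPN, LIN, INVA (helper22). Proof. `W = κ² ξ₁⁻¹`:
`nrm W ≤ (10^-13) (10^-13·128 z) (33/20)/z ≤ 10^-20 ≤ 2^94/2^160`; `G = GR` is approximated by the list (LIN: `sclA`, `derA` with
`OkD 16 (1/2) r1 c0`, `Ap … W ([], 2^94)`). `nrm 15 r1 G ≤ 1/2·(102/100) + (3/2)(c0/1024)(102/100) + 10^-20 ≤ 16`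
(`nrm_D`, `c0 ≤ 10240`). two: INVA: `coeff 0 G ≠ 0` and `G⁻¹`; `nrm (κ² G) ≤ 16·10^-26`. not two: `nrm (κ G) ≤ 16·10^-13 < 1`, so
`1 + κ G` has constant coefficient `≠ 0` and `nrm (1 + κ G)⁻¹ ≤ 101/100` (`nrm_inv` with `V = 1`), and
`μ + S = κ (C (1/2) (κ G + 1) - (1 + κ G)⁻¹ + S G (1 + κ G)⁻¹)` has norm `≤ 10^-13·20 ≤ 2^124/2^160`.
Last: `α = -((3/2) D μ + μ/2)` with `derA` at `OkD 15 r1 r2 c1`, `sclA`. -/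
def S_BRA : Prop := ∀ (two : Bool) (N w1 c0 c1 : ℕ) (z r1 r2 : ℝ) (ξ₁ ξ S κ : ℝ⟦X⟧) (s b : K.AP),
  0 < z → z ≤ 1 / 128 → D ξ₁ = -ξ₁ → coeff 0 ξ₁ = z → Law true ξ → nrm 16 (1 / 2) ξ ≤ 1 →
  nrm 16 (1 / 2) κ ≤ 1 / 10 ^ 13 * (128 * z) → nrm 16 (1 / 2) S ≤ 102 / 100 →
  Ap 16 (1 / 2) ξ S s → OkD 16 (1 / 2) r1 c0 → c0 ≤ 10240 → Okw 15 r1 ξ w1 → OkD 15 r1 r2 c1 →
  K.rightA two N w1 c0 c1 s = some b →
  (if two then coeff 0 (GR S κ ξ₁) ≠ 0 else coeff 0 (1 + κ * GR S κ ξ₁) ≠ 0) ∧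
  Ap 14 r2 ξ (-(C (3 / 2 : ℝ) * D (muR two S κ ξ₁) + C (1 / 2 : ℝ) * muR two S κ ξ₁)) b

/-- BRS (the step condition of TL, right). Proof. Near `t > 0`, `α = √s a` is smooth and positive, `deriv a/a = (1/s) ((3/2) Λ - 1/2)`,
`Λ = dl psiT α/α = (2/3) s (deriv a/a) + 1/3`; derivative once more: `√s (a'/a)' = zR ((9/4) dl Λ - (3/2) Λ + 1/2)`, where
`√s/s² = zR s`, and `107·2^145/2^160 * (zR/(107/8192)) = zR/4`. Direct computation of the derivatives from `HasDerivAt` of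
`L = deriv a/a` near `t`. -/
def S_BRS : Prop := ∀ (a : ℝ → ℝ) (t : ℝ), 0 < t → ContDiffAt ℝ ∞ a t → 0 < a t →
  (fun s => Real.sqrt s * deriv (fun s => deriv a s / a s) s) =ᶠ[𝓝 t] fun s =>
    - ((((107 * 2 ^ 145 : ℤ) : ℝ) / 2 ^ 160) * (Pool.Agent.TWP.Tail.zR s / (107 / 8192)) ^ 1 *
      (((-2 : ℤ) : ℝ) + ((6 : ℤ) : ℝ) * (dl psiT (fun s => Real.sqrt s * a s) s / (Real.sqrt s * a s)) -
        ((9 : ℤ) : ℝ) * dl psiT (fun s => dl psiT (fun s => Real.sqrt s * a s) s / (Real.sqrt s * a s)) s))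

/-- BR: the right tail. Hypotheses: all the others. Proof. `z = zR t`, `ξ₁ = Tay zR`, `ξ = C (8192/107) * ξ₁ = Tay (zR/(107/8192))`
(TA, TM), `S, κ` the series of BRF, `P = evZ (C (1/8) ξ₁) cR`. `|coeff 0 (S - P)| ≤ 3·10^28 z^31` (BV0, BRN third, the hypothesis),
`|coeff 0 κ| ≤ q t ≤ exp (-(2/3)/z) ≤ 85! (3/2)^85 z^85` (`√t ≥ 1`, `t √t = 1/z`; `t ≥ 25` because `t √t ≥ 128`). BPR, BRJ, BRN: `nrm 16 (1/2) (S - P) + nrm 16 (1/2) κ ≤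
10^-13·128 z`. So `nrm S ≤ 102/100`. `Ap 16 (1/2) ξ S (spR, 2^128)`: `C (2^160) S - evZ ξ spR = C (2^160) (S - P) + (C (2^160) P - evZ ξ spR)`,
`C (1/8) ξ₁ = C (107/65536) ξ`, BIC with `K.cmpR` (`2^160/10^13 + 2^50 ≤ 2^128`). BRT (`K.radTR`, `coeff 0 ξ ≤ 64/107`): `TabOK ξ 16 (rsT …) tabR`;
unfold twice. `K.okR2`/`K.okR1` (TailC.lean): `checkR … = true` gives `rightA = some b` and `chain … = true`. BRA, BRM, CHAIN (helper22), TL (helper30)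
with `ρ = √`, `x = zR/(107/8192)`, BRS. -/
def S_BR : Prop := ∀ (q l : ℝ → ℝ), QL q l →
  (∀ t : ℝ, 25 ≤ t → |l t / (-Real.sqrt t) -
    Pool.Agent.TWP.Tail.ev Pool.Agent.TWP.Tail.cS (Pool.Agent.TWP.Tail.zR t / 8)| ≤
      12 * 10 ^ 27 * Pool.Agent.TWP.Tail.zR t ^ 31) →
  (∀ t : ℝ, 1 ≤ t → q t ≤ Real.exp (-(2 / 3) * (t * Real.sqrt t))) →
  ∀ t : ℝ, 0 < t → Pool.Agent.TWP.Tail.zR t ≤ 1 / 128 →
    (∀ j, 1 ≤ j → j ≤ 8 → 0 < toda (mTwo q l) j t ∧ ContDiffAt ℝ ∞ (toda (mTwo q l) j) t) ∧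
    (∀ j, 1 ≤ j → j ≤ 5 → 0 < toda (mOne q l) j t ∧ ContDiffAt ℝ ∞ (toda (mOne q l) j) t)

/-! ### Left tail -/

/-- `y = √2 x^(-3/2)` -/
noncomputable def yL (s : ℝ) : ℝ := Real.sqrt 2 / ((-s) * Real.sqrt (-s))

noncomputable def YL (q : ℝ → ℝ) (s : ℝ) : ℝ := q s / Real.sqrt (-s / 2)

/-- BPL. With `ζ = C (1/32) * υ²`: `D ζ = -(C 2 * ζ)`, `nrm 16 (1/2) ζ ≤ (27225/320000) y² ≤ 1/85589` (`exp 1 ≤ 2.7225`; BEX twice: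
`nrm υ ≤ y exp (1/2)`). As BPR: `P = evZ ζ cY`, `D P = C 2 * evZ ζ (derT cY)` (BDE, `k = 2`), `D (D P) = C 4 * evZ ζ (derT (derT cY))`,
`C (1/2) υ² = C 16 * ζ`, so `C (1/2) υ² ((9/4) D D P - P/4) - P³ + P = evZ ζ residL =: R` (EVA); `K.residL0`, `K.residL1`, `K.nbL1`. -/
def S_BPL : Prop := ∀ (y : ℝ) (υ : ℝ⟦X⟧), 0 < y → y ≤ 3 / 256 → D υ = -υ → coeff 0 υ = y →
  nrm 16 (1 / 2) (evZ (C (1 / 32 : ℝ) * υ ^ 2) K.cY - 1) ≤ 1 / 1000 ∧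
  ∃ R : ℝ⟦X⟧, C (1 / 2 : ℝ) * υ ^ 2 * (C (9 / 4 : ℝ) * D (D (evZ (C (1 / 32 : ℝ) * υ ^ 2) K.cY)) -
      C (1 / 4 : ℝ) * evZ (C (1 / 32 : ℝ) * υ ^ 2) K.cY) =
    evZ (C (1 / 32 : ℝ) * υ ^ 2) K.cY ^ 3 - evZ (C (1 / 32 : ℝ) * υ ^ 2) K.cY + R ∧
    nrm 16 (1 / 2) R ≤ 11 * 10 ^ 87 * y ^ 62

/-- BLJ (jets of the error, left). Proof. `E = Y - P`, `F = υ * D E`, `η = υ⁻¹`, `nrm η ≤ (33/20)/y`, `nrm υ ≤ (33/20) y ≤ 1/50`. Subtract: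
`(1/2) υ² ((9/4) D D E - E/4) = (3 P² - 1) E + 3 P E² + E³ - R`. So `D E = η F`,
`D F = -F + υ E/9 + (8/9) η ((3 P² - 1) E + 3 P E² + E³ - R)`. For `m < 16`, `nrm m E + nrm m F ≤ δ = 1/1000`:
`nrm (3 P² - 1) = nrm (2 + 6 (P-1) + 3 (P-1)²) ≤ 2.007`, `nrm (3 P E²) ≤ .0031 nrm E`, `nrm E³ ≤ 10^-6 nrm E`, so
`nrm (D E) + nrm (D F) ≤ ((33/20)/y + 1) nrm F + ((22/15)/y·2.0102 + .003) nrm E + (22/15) ρ/y ≤ (3/y) (nrm E + nrm F) + (3/2) ρ/y`.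
BGJ with `Λ = 3/y = 256 u`, `u = 3/(256 y)`, `β = (3/2) ρ/y`, and BPN. `coeff 0 F = y * coeff 0 (D E)`. Hypotheses BEX, BPN, BGJ. -/
def S_BLJ : Prop := ∀ (y ρ e0 : ℝ) (υ Y P R : ℝ⟦X⟧), 0 < y → y ≤ 3 / 256 → D υ = -υ →
  coeff 0 υ = y → 0 ≤ ρ → 0 ≤ e0 →
  C (1 / 2 : ℝ) * υ ^ 2 * (C (9 / 4 : ℝ) * D (D Y) - C (1 / 4 : ℝ) * Y) = Y ^ 3 - Y →
  C (1 / 2 : ℝ) * υ ^ 2 * (C (9 / 4 : ℝ) * D (D P) - C (1 / 4 : ℝ) * P) = P ^ 3 - P + R →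
  nrm 16 (1 / 2) (P - 1) ≤ 1 / 1000 → nrm 16 (1 / 2) R ≤ ρ →
  |coeff 0 (Y - P)| + |y * coeff 0 (D (Y - P))| ≤ e0 →
  (e0 + 3 / 2 * (ρ / y)) * (3 / (256 * y)) ^ 16 * (7 * 10 ^ 20) ≤ 1 / 1000 →
  nrm 16 (1 / 2) (Y - P) ≤ (e0 + 3 / 2 * (ρ / y)) * (3 / (256 * y)) ^ 16 * (7 * 10 ^ 20)

/-- BLN (numbers, left). Proof. First: `y^k (3/(256 y))^16 ≤ (3/256)^k` for `k ≥ 16` (`k = 50, 61`); sum `< 2·10^-9`. Second and third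
(`z = y²/2`, `w = z/16 = y²/32`): `ev cY w` of the long list `K.cY` (31 entries) against helper66's `Tail.cY` (25 entries, a prefix): the difference is
`∑_(25 ≤ n ≤ 30) cY_n w^n`, `≤ 3.01·10^62 z^25`; and `w (dv K.cY w - dv Tail.cY w) = ∑ n cY_n w^n`, `≤ 30·3.01·10^62 z^25`
(`dv` of TLib; `w * dv l w = ev (thL 0 l) w` by `ev_thL`). -/
def S_BLN : Prop := ∀ y : ℝ, 0 < y → y ≤ 3 / 256 →
  (4 * 10 ^ 63 * (y ^ 2 / 2) ^ 25 + 3 / 2 * (11 * 10 ^ 87 * y ^ 62 / y)) *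
    (3 / (256 * y)) ^ 16 * (7 * 10 ^ 20) ≤ 3 / 10 ^ 9 ∧
  |Pool.Agent.TWP.Tail.ev K.cY (y ^ 2 / 32) - Pool.Agent.TWP.Tail.ev Pool.Agent.TWP.Tail.cY (y ^ 2 / 32)| ≤
    301 * 10 ^ 60 * (y ^ 2 / 2) ^ 25 ∧
  |y ^ 2 / 32 * Pool.Agent.TWP.Tail.dv K.cY (y ^ 2 / 32) -
      y ^ 2 / 32 * Pool.Agent.TWP.Tail.dv Pool.Agent.TWP.Tail.cY (y ^ 2 / 32)| ≤
    9030 * 10 ^ 60 * (y ^ 2 / 2) ^ 25

/-- BLF (functions to series, left). Proof. As BRF. `x = -s > 0`. `dl psiT yL = -yL`. `YL q = q/√(-s/2)`: with `θ = s d/ds = (3/2) dl psiT`: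
`θ YL = (s l - 1/2) YL`, `(θ² - 1/4) YL = (-s)³ (YL³ - YL)` because `s² q'' = s³ q + 2 s² q³` and `q² = (-s/2) YL²`; `yL²/2 = 1/(-s)³`.
Last: the value of `D Y`: `coeff 0 (D Y) = dl psiT YL t = (2/3) (t l t - 1/2) YL t`. -/
def S_BLF : Prop := ∀ (q l : ℝ → ℝ) (t : ℝ), QL q l → t < 0 →
  D (Tay psiT yL t) = -Tay psiT yL t ∧ coeff 0 (Tay psiT yL t) = yL t ∧
  coeff 0 (Tay psiT (YL q) t) = YL q t ∧
  coeff 0 (D (Tay psiT (YL q) t)) = 2 / 3 * ((t * l t - 1 / 2) * YL q t) ∧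
  C (1 / 2 : ℝ) * Tay psiT yL t ^ 2 * (C (9 / 4 : ℝ) * D (D (Tay psiT (YL q) t)) -
    C (1 / 4 : ℝ) * Tay psiT (YL q) t) = Tay psiT (YL q) t ^ 3 - Tay psiT (YL q) t

/-- BLE (values of the error, left). Proof. `P = evZ (C (1/32) υ²) K.cY`, `coeff 0 P = ev K.cY (y²/32)` (BV0), `D P = C 2 * evZ ζ (derT K.cY)` (BDE, `k = 2`), so
`coeff 0 (D P) = 2 ev (derT K.cY) w = -2 w dv K.cY w`, `w = y²/32 = zL t/16` (`ev (derT l) w = - w dv l w`: induction). `coeff 0 (D Y)` by BLF. First summand: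
`≤ 5·10^62 z^25 + 3.01·10^62 z^25`. Second: `D Y - D P` at 0 is `(2/3) (t l Y - Y/2 + 3 w dv Tail.cY w) + 2 w (dv K.cY w - dv Tail.cY w)`, the bracket is
`≤ 6·5·10^62 z^25 x √x` (helper66's H3b, here the hypothesis), `y x √x = √2 ≤ 1.4143`; and `2 y·9.03·10^63 z^25 ≤ 2.2·10^62 z^25`. Sum
`≤ (8.01·10^62 + 28.3·10^62 + 2.2·10^62) z^25 ≤ 4·10^63 z^25`. Hypotheses BV0, BDE, BLF, BLN. -/
def S_BLE : Prop := ∀ (q l : ℝ → ℝ) (t : ℝ), QL q l → t ≤ -24 → yL t ≤ 3 / 256 →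
  |q t / Real.sqrt (-t / 2) - Pool.Agent.TWP.Tail.ev Pool.Agent.TWP.Tail.cY (Pool.Agent.TWP.Tail.zL t / 16)| ≤
    5 * 10 ^ 62 * Pool.Agent.TWP.Tail.zL t ^ 25 →
  |t * (l t * q t) / Real.sqrt (-t / 2) - q t / Real.sqrt (-t / 2) / 2 +
      3 * (Pool.Agent.TWP.Tail.zL t / 16 * Pool.Agent.TWP.Tail.dv Pool.Agent.TWP.Tail.cY
        (Pool.Agent.TWP.Tail.zL t / 16))| ≤
    6 * (5 * 10 ^ 62 * Pool.Agent.TWP.Tail.zL t ^ 25) * ((-t) * Real.sqrt (-t)) →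
  |coeff 0 (Tay psiT (YL q) t - evZ (C (1 / 32 : ℝ) * Tay psiT yL t ^ 2) K.cY)| +
    |yL t * coeff 0 (D (Tay psiT (YL q) t - evZ (C (1 / 32 : ℝ) * Tay psiT yL t ^ 2) K.cY))| ≤
    4 * 10 ^ 63 * (yL t ^ 2 / 2) ^ 25

/-- BLM (the series of `m/t²`, left). Proof. As BRM. Functions near `t < 0`: `H s = s l s` has series `HLs Y` (`YL` positive; BLF: `(3/2) dl Y/Y = s l - 1/2`);
`G s = g s/(-s)`: `g = l² - s - q²`, so `G = 1 - YL²/2 + (yL²/2) H²`, series `GLs Y υ`, `coeff 0 = g t/(-t)`. `mTwo/s² = YL² G/2 - (yL²/2)/G`;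
`q = s² YL yL/2`, `q g = YL G/yL`, `l - q = -(yL H + YL)/((-s) yL)`, so `mOne/s² = (YL² G + YL yL)/4 - (yL²/2) (yL H + YL)/(yL + YL G)`.
`α_1`: `(2/(-s)) toda m 1 = (2/s) deriv m`, `m = s² μ`, `= 4 μ + 3 dl psiT μ`. -/
def S_BLM : Prop := ∀ (q l : ℝ → ℝ) (t : ℝ) (two : Bool), QL q l → t < 0 →
  (if two then coeff 0 (GLs (Tay psiT (YL q) t) (Tay psiT yL t)) ≠ 0
    else coeff 0 (Tay psiT yL t + Tay psiT (YL q) t * GLs (Tay psiT (YL q) t) (Tay psiT yL t)) ≠ 0) →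
  ContDiffAt ℝ ∞ (if two then mTwo q l else mOne q l) t ∧
  Tay psiT (fun s => 2 / (-s) * toda (if two then mTwo q l else mOne q l) 1 s) t =
    C (4 : ℝ) * muL two (Tay psiT (YL q) t) (Tay psiT yL t) +
      C (3 : ℝ) * D (muL two (Tay psiT (YL q) t) (Tay psiT yL t))

/-- BLA (soundness of `leftA`). Hypotheses LIN, MULA, INVA (helper22). Proof. Follow the program: `υ = C (5/256) ξ` is `([0, 5·2^152], 0)` and `C (1/2) υ² = C (25/2^17) ξ²` is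
`([0,0,25·2^143], 0)` exactly (last part of LIN), all operations at index 1 (`Okw 15 r1 ξ w1`, `Y` by monotonicity), INVA gives the nonzero constant
coefficients, `derA` at `OkD 15 r1 r2 c1`. Split the matches of `leftA`. -/
def S_BLA : Prop := ∀ (two : Bool) (N w1 c0 c1 : ℕ) (r1 r2 : ℝ) (υ ξ Y : ℝ⟦X⟧) (s b : K.AP),
  Law true ξ → υ = C (5 / 256 : ℝ) * ξ → Ap 16 (1 / 2) ξ Y s → OkD 16 (1 / 2) r1 c0 →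
  Okw 15 r1 ξ w1 → OkD 15 r1 r2 c1 → K.leftA two N w1 c0 c1 s = some b →
  (if two then coeff 0 (GLs Y υ) ≠ 0 else coeff 0 (υ + Y * GLs Y υ) ≠ 0) ∧
  Ap 14 r2 ξ (C (4 : ℝ) * muL two Y υ + C (3 : ℝ) * D (muL two Y υ)) b

/-- BLS (the step condition of TL, left). Proof. `α = (2/(-s)) a`; `deriv a/a = (1/s) (1 + (3/2) Λ)`, `Λ = dl psiT α/α`;
`(2/(-s)) (a'/a)' = (2/(-s)³) ((9/4) dl Λ - (3/2) Λ - 1) = -(yL²/4) (4 + 6 Λ - 9 dl Λ)`, and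
`25·2^142/2^160 * (yL/(5/256))² = yL²/4`. -/
def S_BLS : Prop := ∀ (a : ℝ → ℝ) (t : ℝ), t < 0 → ContDiffAt ℝ ∞ a t → 0 < a t →
  (fun s => 2 / (-s) * deriv (fun s => deriv a s / a s) s) =ᶠ[𝓝 t] fun s =>
    - ((((25 * 2 ^ 142 : ℤ) : ℝ) / 2 ^ 160) * (yL s / (5 / 256)) ^ 2 *
      (((4 : ℤ) : ℝ) + ((6 : ℤ) : ℝ) * (dl psiT (fun s => 2 / (-s) * a s) s / (2 / (-s) * a s)) -
        ((9 : ℤ) : ℝ) * dl psiT (fun s => dl psiT (fun s => 2 / (-s) * a s) s / (2 / (-s) * a s)) s))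

/-- BL: the left tail. As BR: `υ = Tay yL`, `ξ = C (256/5) υ = Tay (yL/(5/256))`, `coeff 0 ξ ≤ 3/5`, BLE, BPL, BLJ, BLN: `nrm 16 (1/2) (Y - P) ≤ 3·10^-9`;
`P = evZ (C (1/32) υ²) cY = evZ (C (25/2^21) ξ²) cY` (`(5/256)²/32 = 25/2^21`), BIC for `ξ²` with `K.cmpLl`, BDB (`spL = dbl spH`): `Ap 16 (1/2) ξ Y (spL, 2^133)` (`3·2^160/10^9 + 2^70 ≤ 2^133`);
`K.radTL`, `K.okL2`, `K.okL1`, BLA, BLM, CHAIN, TL with `ρ = 2/(-s)`, `x = yL/(5/256)`, `zc = 25·2^142`, `zs = 2`, `(4,6,9)`, BLS. -/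
def S_BL : Prop := ∀ (q l : ℝ → ℝ), QL q l → ∀ t : ℝ, t ≤ -24 → yL t ≤ 3 / 256 →
  |q t / Real.sqrt (-t / 2) - Pool.Agent.TWP.Tail.ev Pool.Agent.TWP.Tail.cY (Pool.Agent.TWP.Tail.zL t / 16)| ≤
    5 * 10 ^ 62 * Pool.Agent.TWP.Tail.zL t ^ 25 →
  |t * (l t * q t) / Real.sqrt (-t / 2) - q t / Real.sqrt (-t / 2) / 2 +
      3 * (Pool.Agent.TWP.Tail.zL t / 16 * Pool.Agent.TWP.Tail.dv Pool.Agent.TWP.Tail.cY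
        (Pool.Agent.TWP.Tail.zL t / 16))| ≤
    6 * (5 * 10 ^ 62 * Pool.Agent.TWP.Tail.zL t ^ 25) * ((-t) * Real.sqrt (-t)) →
    (∀ j, 1 ≤ j → j ≤ 8 → 0 < toda (mTwo q l) j t ∧ ContDiffAt ℝ ∞ (toda (mTwo q l) j) t) ∧
    (∀ j, 1 ≤ j → j ≤ 5 → 0 < toda (mOne q l) j t ∧ ContDiffAt ℝ ∞ (toda (mOne q l) j) t)

end TWP
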