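import Mathlib
import Pool.Agent.TWP.StB
import Pool.Agent.TWP.KNrm

/-!
# TWP, module BIC (helper52): comparison of two polynomials
-/

set_option autoImplicit false

namespace TWP

open PowerSeries Finset

namespace BICaux

theorem nrm_evZ (M : ℕ) (r : ℝ) (ξ : ℝ⟦X⟧) (hr : 0 ≤ r) (h : nrm M r ξ ≤ 1) (ss : List ℤ) :
    nrm M r (evZ ξ ss) ≤ (K.sumAbs ss : ℝ) := by
  induction ss with
  | nil => simp [evZ, nrm_zero, K.sumAbs]
  | cons a P ih =>
    have h1 : evZ ξ (a :: P) = C (a : ℝ) + ξ * evZ ξ P := rfl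
    have h2 : K.sumAbs (a :: P) = a.natAbs + K.sumAbs P := rfl
    rw [h1, h2]
    have h3 : nrm M r (ξ * evZ ξ P) ≤ (K.sumAbs P : ℝ) :=
      calc nrm M r (ξ * evZ ξ P) ≤ nrm M r ξ * nrm M r (evZ ξ P) := nrm_mul M hr _ _
        _ ≤ 1 * nrm M r (evZ ξ P) := mul_le_mul_of_nonneg_right h (nrm_nonneg M hr _)
        _ = nrm M r (evZ ξ P) := one_mul _
        _ ≤ _ := ih
    have h5 : ((a.natAbs : ℕ) : ℝ) = |(a : ℝ)| := by
      rw [Nat.cast_natAbs, Int.cast_abs]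
    have h4 := nrm_add M hr (C (a : ℝ)) (ξ * evZ ξ P)
    rw [nrm_C] at h4
    push_cast
    rw [h5]
    linarith

theorem evZ_headD (ξ : ℝ⟦X⟧) (ss : List ℤ) :
    evZ ξ ss = C ((ss.headD 0 : ℤ) : ℝ) + ξ * evZ ξ ss.tail := by
  cases ss with
  | nil => simp [evZ]
  | cons a P => rfl

theorem div_le (c p s d : ℤ) (hd : 0 < d) :
    |(c : ℝ) * p / d - s| ≤ (((c * p - s * d).natAbs / d.natAbs : ℕ) : ℝ) + 1 := by
  have hd' : (0 : ℝ) < d := by exact_mod_cast hd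
  have h1 : (c : ℝ) * p / d - s = ((c * p - s * d : ℤ) : ℝ) / d := by
    push_cast
    field_simp
  have h2 : |((c * p - s * d : ℤ) : ℝ) / (d : ℝ)| =
      (((c * p - s * d).natAbs : ℕ) : ℝ) / ((d.natAbs : ℕ) : ℝ) := by
    rw [abs_div, Nat.cast_natAbs, Nat.cast_natAbs, Int.cast_abs, Int.cast_abs]
  rw [h1, h2]
  have h3 := Nat.lt_floor_add_one
    ((((c * p - s * d).natAbs : ℕ) : ℝ) / ((d.natAbs : ℕ) : ℝ))
  rw [Nat.floor_div_eq_div] at h3
  exact h3.le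

end BICaux

theorem t_BIC : S_BIC := by
  intro M r ξ a b p d cs
  induction cs generalizing p d with
  | nil =>
    intro ss hr h _ _
    have h1 : C ((p : ℝ) / d) * evZ (C ((a : ℝ) / b) * ξ) [] - evZ ξ ss = - evZ ξ ss := by
      simp [evZ]
    have h2 : K.cmpL a b [] ss p d = K.sumAbs ss := by
      simp [K.cmpL]
    rw [h1, nrm_neg, h2]
    exact BICaux.nrm_evZ M r ξ hr h ss
  | cons c cs ih =>
    intro ss hr h hb hd
    have hb' : (b : ℝ) ≠ 0 := by exact_mod_cast hb.ne'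
    have hd' : (d : ℝ) ≠ 0 := by exact_mod_cast hd.ne'
    have h1 : K.cmpL a b (c :: cs) ss p d =
        (c * p - ss.headD 0 * d).natAbs / d.natAbs + 1 +
          K.cmpL a b cs ss.tail (p * a) (d * b) := rfl
    have h2 := ih (p * a) (d * b) ss.tail hr h hb (mul_pos hd hb)
    have h3 : C ((p : ℝ) / d) * evZ (C ((a : ℝ) / b) * ξ) (c :: cs) - evZ ξ ss =
        C ((c : ℝ) * p / d - ((ss.headD 0 : ℤ) : ℝ)) +
        ξ * (C (((p * a : ℤ) : ℝ) / ((d * b : ℤ) : ℝ)) * evZ (C ((a : ℝ) / b) * ξ) cs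
          - evZ ξ ss.tail) := by
      have e1 : evZ (C ((a : ℝ) / b) * ξ) (c :: cs) =
        C (c : ℝ) + (C ((a : ℝ) / b) * ξ) * evZ (C ((a : ℝ) / b) * ξ) cs := rfl
      have e2 : (((p * a : ℤ) : ℝ) / ((d * b : ℤ) : ℝ)) = ((p : ℝ) / d) * ((a : ℝ) / b) := by
        push_cast
        field_simp
      have e3 : (c : ℝ) * p / d = ((p : ℝ) / d) * c := by ring
      rw [e1, BICaux.evZ_headD ξ ss, e2, e3, map_sub, map_mul, map_mul]
      ring
    rw [h3, h1]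
    have h4 := nrm_add M hr (C ((c : ℝ) * p / d - ((ss.headD 0 : ℤ) : ℝ)))
      (ξ * (C (((p * a : ℤ) : ℝ) / ((d * b : ℤ) : ℝ)) * evZ (C ((a : ℝ) / b) * ξ) cs
          - evZ ξ ss.tail))
    rw [nrm_C] at h4
    have h5 : nrm M r (ξ * (C (((p * a : ℤ) : ℝ) / ((d * b : ℤ) : ℝ)) *
        evZ (C ((a : ℝ) / b) * ξ) cs - evZ ξ ss.tail)) ≤
        (K.cmpL a b cs ss.tail (p * a) (d * b) : ℝ) := by
      refine (nrm_mul M hr _ _).trans ?_
      refine (mul_le_mul_of_nonneg_right h (nrm_nonneg M hr _)).trans ?_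
      rw [one_mul]
      exact h2
    have h6 := BICaux.div_le c p (ss.headD 0) d hd
    refine h4.trans ((add_le_add h6 h5).trans (le_of_eq ?_))
    push_cast
    ring

end TWP
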