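import Pool.Agent.TWP.TailK
set_option autoImplicit false
namespace TWP.K
set_option maxRecDepth 100000 in
theorem okL2 : checkL true 7 40 2458 tabL (spL, 2 ^ 133) = true := by decide +kernel
end TWP.K
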