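import Pool.Agent.TWP.TailK
set_option autoImplicit false
namespace TWP.K
set_option maxRecDepth 100000 in
theorem radTR : radT 64 107 16 rsT tabR = true := by decide +kernel
set_option maxRecDepth 100000 in
theorem radTL : radT 3 5 16 rsT tabL = true := by decide +kernel
set_option maxRecDepth 100000 in
theorem cmpR : cmpL 107 65536 cR spR (2 ^ 160) 1 ≤ 2 ^ 50 := by decide +kernel
set_option maxRecDepth 100000 in
theorem cmpLl : cmpL 25 (2 ^ 21) cY spH (2 ^ 160) 1 ≤ 2 ^ 70 := by decide +kernel
theorem residR0 : ∀ a ∈ residR.take 51, a = 0 := by decide +kernel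
theorem residL0 : ∀ a ∈ residL.take 31, a = 0 := by decide +kernel
theorem residR1 : 33 ^ 51 * (620 * nbK 620 (residR.drop 51)) * 10 ≤
    160 ^ 51 * (11 * 10 ^ 69) * 620 ^ (residR.drop 51).length := by decide +kernel
theorem residL1 : (27225) ^ 31 * (85589 * nbK 85589 (residL.drop 31)) * 10 ≤
    320000 ^ 31 * (11 * 10 ^ 88) * 85589 ^ (residL.drop 31).length := by decide +kernel
theorem nbR1 : 620 * nbK 620 cR.tail * 100 * 1 ≤ 620 * 620 ^ cR.tail.length := by decide +kernel
theorem nbL1 : 85589 * nbK 85589 cY.tail * 1000 ≤ 85589 * 85589 ^ cY.tail.length := by decide +kernel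
end TWP.K
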