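import Pool.Agent.TWP.StB
import Pool.Agent.TWP.KNrm
import Pool.Agent.TWP.TailC
import Pool.Agent.TWP.TCL2
import Pool.Agent.TWP.TCL1

set_option autoImplicit false

namespace TWP

open PowerSeries Finset Filter Topology
open scoped ContDiff

namespace BLaux

theorem D_C_mul (c : ℝ) (A : ℝ⟦X⟧) : D (C c * A) = C c * D A := by
  ext n
  simp [D, coeff_derivative, coeff_C_mul]

theorem smooth_psiT (t : ℝ) : ContDiffAt ℝ ∞ psiT t := by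
  unfold psiT
  exact contDiffAt_const.mul contDiffAt_id

theorem smooth_yL {t : ℝ} (ht : t < 0) : ContDiffAt ℝ ∞ yL t := by
  unfold yL
  have hn : 0 < -t := by linarith
  refine ContDiffAt.div contDiffAt_const
    (contDiffAt_id.neg.mul (ContDiffAt.sqrt contDiffAt_id.neg hn.ne')) ?_
  exact (mul_pos hn (Real.sqrt_pos.2 hn)).ne'

theorem Tay_smul (hTA : S_TA) (hTM : S_TM) (ψ f : ℝ → ℝ) (t c : ℝ) (hψ : ContDiffAt ℝ ∞ ψ t)
    (hf : ContDiffAt ℝ ∞ f t) : Tay ψ (fun s => f s * c) t = Tay ψ f t * C c := by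
  rw [hTM ψ t hψ f (fun _ => c) hf contDiffAt_const, (hTA ψ t hψ).1 c]

theorem unpack_tab (ξ : ℝ⟦X⟧) (M : ℕ) (r r' r'' : ℝ) (rs : List ℝ) (w c w' c' w'' c'' : ℕ)
    (tab : K.Tab)
    (h : TabOK ξ M (r :: r' :: r'' :: rs) ((w, c) :: (w', c') :: (w'', c'') :: tab)) :
    Okw M r ξ w ∧ OkD M r r' c ∧ Okw (M - 1) r' ξ w' ∧ OkD (M - 1) r' r'' c' ∧
    TabOK ξ (M - 1 - 1) (r'' :: rs) ((w'', c'') :: tab) := by
  simp only [TabOK] at h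
  obtain ⟨h1, h2, h3, h4, h5, h6, h7, g1, g2, g3, g4, g5, g6, g7, g8⟩ := h
  exact ⟨⟨h1, h2, h3⟩, ⟨h4, h5, h6, h7⟩, ⟨g1, g2, g3⟩, ⟨g4, g5, g6, g7⟩, g8⟩

theorem checkL_some (two : Bool) (Kn N h w0 c0 w1 c1 : ℕ) (tab : K.Tab) (s : K.AP)
    (hok : K.checkL two Kn N h ((w0, c0) :: (w1, c1) :: tab) s = true) :
    ∃ b, K.leftA two N w1 c0 c1 s = some b ∧
      K.chain true N h (25 * 2 ^ 142) 2 4 6 9 Kn tab b ([], 0) = true := by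
  unfold K.checkL at hok
  simp only at hok
  split at hok
  · exact absurd hok (by simp)
  · rename_i a ha
    exact ⟨a, ha, hok⟩

end BLaux

open BLaux in
theorem BL_base (hEX : S_BEX) (hIC : S_BIC) (hDB : S_BDB) (hRT : S_BRT) (hPL : S_BPL)
    (hLJ : S_BLJ) (hLN : S_BLN) (hLF : S_BLF) (hLE : S_BLE) (hTA : S_TA) (hTM : S_TM)
    (q l : ℝ → ℝ) (hql : QL q l) (t : ℝ) (ht : t ≤ -24)
    (hz : yL t ≤ 3 / 256)
    (h1 : |q t / Real.sqrt (-t / 2) -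
      Pool.Agent.TWP.Tail.ev Pool.Agent.TWP.Tail.cY (Pool.Agent.TWP.Tail.zL t / 16)| ≤
      5 * 10 ^ 62 * Pool.Agent.TWP.Tail.zL t ^ 25)
    (h2 : |t * (l t * q t) / Real.sqrt (-t / 2) - q t / Real.sqrt (-t / 2) / 2 +
      3 * (Pool.Agent.TWP.Tail.zL t / 16 * Pool.Agent.TWP.Tail.dv Pool.Agent.TWP.Tail.cY
        (Pool.Agent.TWP.Tail.zL t / 16))| ≤
      6 * (5 * 10 ^ 62 * Pool.Agent.TWP.Tail.zL t ^ 25) * ((-t) * Real.sqrt (-t))) :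
    let υ := Tay psiT yL t
    let ξ := Tay psiT (fun s => yL s / (5 / 256)) t
    let Y := Tay psiT (YL q) t
    υ = C (5 / 256 : ℝ) * ξ ∧ D ξ = -ξ ∧ |coeff 0 ξ| ≤ ((2458 : ℕ) : ℝ) / 4096 ∧
    TabOK ξ 16 (K.rsT.map fun r => (r : ℝ) / 4096) K.tabL ∧
    Ap 16 (1 / 2) ξ Y (K.spL, 2 ^ 133) := by
  intro υ ξ Y
  have ht0 : t < 0 := by linarith
  have hn : 0 < -t := by linarith
  have hsq : 0 < Real.sqrt (-t) := Real.sqrt_pos.2 hn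
  have hy0 : 0 < yL t := by
    unfold yL
    positivity
  set y := yL t with hy
  obtain ⟨f1, f2, f3, f4, f5⟩ := hLF q l t hql ht0
  rw [← hy] at f2
  have hξ : ξ = υ * C (256 / 5 : ℝ) := by
    have := Tay_smul hTA hTM psiT yL t (256 / 5) (smooth_psiT t) (smooth_yL ht0)
    rw [← this]
    show Tay psiT _ t = Tay psiT _ t
    congr 1
    funext s
    ring
  have hξ1 : υ = C (5 / 256 : ℝ) * ξ := by
    rw [hξ, mul_comm υ, ← mul_assoc, ← map_mul]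
    norm_num
  have hDξ : D ξ = -ξ := by
    rw [hξ, mul_comm, D_C_mul, f1, mul_neg]
  have hc0 : coeff 0 ξ = y * (256 / 5) := by
    rw [hξ, mul_comm, coeff_C_mul, f2, mul_comm]
  have hc0' : coeff 0 ξ ≤ 3 / 5 := by
    rw [hc0]; linarith
  have hc0p : 0 < coeff 0 ξ := by rw [hc0]; positivity
  have hnr : ∀ (M : ℕ) (r : ℝ), 0 ≤ r → nrm M r ξ ≤ ((3 : ℕ) : ℝ) / ((5 : ℕ) : ℝ) * Real.exp r := by
    intro M r hr
    refine ((hEX ξ hDξ hc0p).2.2.2 M r hr).1.trans ?_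
    refine mul_le_mul_of_nonneg_right ?_ (Real.exp_pos r).le
    push_cast
    exact hc0'
  have hTab := hRT 3 5 16 K.rsT K.tabL ξ (by norm_num) K.radTL hnr
  have hw : nrm 16 (1 / 2) ξ ≤ 1 := by
    have := (unpack_tab ξ _ _ _ _ _ _ _ _ _ _ _ _ hTab).1.2.2
    have e : (((2048 : ℕ) : ℝ) / 4096) = 1 / 2 := by norm_num
    beta_reduce at this
    rw [e] at this
    refine this.trans ?_
    norm_num
  obtain ⟨p1, R, p2, p3⟩ := hPL y υ hy0 hz f1 f2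
  set P := evZ (C (1 / 32 : ℝ) * υ ^ 2) K.cY with hP
  obtain ⟨n1, n2, n3⟩ := hLN y hy0 hz
  have hE := hLE q l t hql ht hz h1 h2
  rw [← hy] at hE
  have hρ : 0 ≤ 11 * 10 ^ 87 * y ^ 62 := by positivity
  have he0 : 0 ≤ 4 * 10 ^ 63 * (y ^ 2 / 2) ^ 25 := by positivity
  have hJ := hLJ y (11 * 10 ^ 87 * y ^ 62) (4 * 10 ^ 63 * (y ^ 2 / 2) ^ 25) υ Y P R hy0 hz f1 f2
    hρ he0 f5 p2 p1 p3 hE (n1.trans (by norm_num))
  have hJ' := hJ.trans n1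
  have hh : (0 : ℝ) ≤ 1 / 2 := by norm_num
  refine ⟨hξ1, hDξ, ?_, hTab, ?_⟩
  · rw [abs_of_pos hc0p]
    refine hc0'.trans ?_
    norm_num
  · show nrm 16 (1 / 2) (C ((2 : ℝ) ^ 160) * Y - evZ ξ K.spL) ≤ (((2 ^ 133 : ℕ)) : ℝ)
    have hw2 : nrm 16 (1 / 2) (ξ ^ 2) ≤ 1 := nrm_pow_le_one 16 hh ξ hw 2
    have hic := hIC 16 (1 / 2) (ξ ^ 2) 25 (2 ^ 21) (2 ^ 160) 1 K.cY K.spH hh hw2 (by norm_num)
      (by norm_num)
    have e2 : C ((((25 : ℤ) : ℝ)) / ((2 ^ 21 : ℤ) : ℝ)) * ξ ^ 2 = C (1 / 32 : ℝ) * υ ^ 2 := by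
      rw [hξ1, mul_pow, ← mul_assoc, ← map_pow, ← map_mul]
      norm_num
    rw [e2, ← hP] at hic
    have e3 : ((((2 ^ 160 : ℤ) : ℝ)) / ((1 : ℤ) : ℝ)) = (2 : ℝ) ^ 160 := by
      push_cast; norm_num
    rw [e3, ← hDB ξ K.spH] at hic
    have hcm : ((K.cmpL 25 (2 ^ 21) K.cY K.spH (2 ^ 160) 1 : ℕ) : ℝ) ≤ ((2 ^ 70 : ℕ) : ℝ) := by
      exact_mod_cast K.cmpLl
    have e4 : C ((2 : ℝ) ^ 160) * Y - evZ ξ K.spL =
        C ((2 : ℝ) ^ 160) * (Y - P) + (C ((2 : ℝ) ^ 160) * P - evZ ξ (K.dbl K.spH)) := by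
      show C ((2 : ℝ) ^ 160) * Y - evZ ξ (K.dbl K.spH) = _
      ring
    rw [e4]
    refine (nrm_add 16 hh _ _).trans ?_
    rw [nrm_C_mul]
    have e5 : |(2 : ℝ) ^ 160| = 2 ^ 160 := abs_of_pos (by positivity)
    rw [e5]
    have h6 : (2 : ℝ) ^ 160 * nrm 16 (1 / 2) (Y - P) ≤ 2 ^ 160 * (3 / 10 ^ 9) :=
      mul_le_mul_of_nonneg_left hJ' (by positivity)
    have h7 := hic.trans hcm
    push_cast at h7 ⊢
    refine (add_le_add h6 h7).trans ?_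
    norm_num

theorem BL_core (hEX : S_BEX) (hIC : S_BIC) (hDB : S_BDB) (hRT : S_BRT) (hPL : S_BPL)
    (hLJ : S_BLJ) (hLN : S_BLN) (hLF : S_BLF) (hLE : S_BLE) (hLM : S_BLM) (hLA : S_BLA)
    (hLS : S_BLS) (hTA : S_TA) (hTM : S_TM) (hTL : S_TL) (hCH : S_CHAIN)
    (q l : ℝ → ℝ) (hql : QL q l) (t : ℝ) (ht : t ≤ -24)
    (hz : yL t ≤ 3 / 256)
    (h1 : |q t / Real.sqrt (-t / 2) -
      Pool.Agent.TWP.Tail.ev Pool.Agent.TWP.Tail.cY (Pool.Agent.TWP.Tail.zL t / 16)| ≤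
      5 * 10 ^ 62 * Pool.Agent.TWP.Tail.zL t ^ 25)
    (h2 : |t * (l t * q t) / Real.sqrt (-t / 2) - q t / Real.sqrt (-t / 2) / 2 +
      3 * (Pool.Agent.TWP.Tail.zL t / 16 * Pool.Agent.TWP.Tail.dv Pool.Agent.TWP.Tail.cY
        (Pool.Agent.TWP.Tail.zL t / 16))| ≤
      6 * (5 * 10 ^ 62 * Pool.Agent.TWP.Tail.zL t ^ 25) * ((-t) * Real.sqrt (-t)))
    (two : Bool) (Kn : ℕ) (hK : 2 * Kn + 1 ≤ 15)
    (hok : K.checkL two Kn 40 2458 K.tabL (K.spL, 2 ^ 133) = true) :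
    ∀ j, 1 ≤ j → j ≤ Kn + 1 → 0 < toda (if two then mTwo q l else mOne q l) j t ∧
      ContDiffAt ℝ ∞ (toda (if two then mTwo q l else mOne q l) j) t := by
  obtain ⟨hξ1, hDξ, hc, hTab, hAp⟩ :=
    BL_base hEX hIC hDB hRT hPL hLJ hLN hLF hLE hTA hTM q l hql t ht hz h1 h2
  have ht0 : t < 0 := by linarith
  have hn : 0 < -t := by linarith
  obtain ⟨w0, d0, w1, d1, hT2⟩ := BLaux.unpack_tab _ _ _ _ _ _ _ _ _ _ _ _ _ hTab
  have e : (((2048 : ℕ) : ℝ) / 4096) = 1 / 2 := by norm_num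
  beta_reduce at w0 d0 w1 d1 hT2
  rw [e] at w0 d0
  have hLaw : Law true (Tay psiT (fun s => yL s / (5 / 256)) t) := by
    unfold Law; simpa using hDξ
  have hok' := BLaux.checkL_some two Kn 40 2458 4052 9474 3888 10325 (K.tabL.drop 2)
    (K.spL, 2 ^ 133) hok
  obtain ⟨b, hb1, hb2⟩ := hok'
  obtain ⟨a1, a2⟩ := hLA two 40 3888 9474 10325 _ _ (Tay psiT yL t)
    (Tay psiT (fun s => yL s / (5 / 256)) t) (Tay psiT (YL q) t)
    (K.spL, 2 ^ 133) b hLaw hξ1 hAp d0 w1 d1 hb1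
  obtain ⟨m1, m2⟩ := hLM q l t two hql ht0 a1
  have hc14 := hCH true 40 2458 (25 * 2 ^ 142) 2 4 6 9 Kn 14 _
    _ 0 _ _ b ([], 0) (by simpa [K.tabL] using hK) hb2 hT2 hLaw hc a2
    (by simp [Ap, evZ, nrm_zero])
  rw [← m2] at hc14
  have hρ : ContDiffAt ℝ ∞ (fun s : ℝ => 2 / (-s)) t :=
    ContDiffAt.div contDiffAt_const contDiffAt_id.neg hn.ne'
  have hx : ContDiffAt ℝ ∞ (fun s => yL s / (5 / 256)) t :=
    (BLaux.smooth_yL ht0).div_const _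
  exact hTL psiT (fun s => 2 / (-s)) (fun s => yL s / (5 / 256)) _ t
    (25 * 2 ^ 142) 2 4 6 9 Kn (BLaux.smooth_psiT t) hρ hx m1 (div_pos (by norm_num) hn)
    (fun a ha hpos => hLS a t ht0 ha hpos) hc14

theorem t_BL (hEX : S_BEX) (hIC : S_BIC) (hDB : S_BDB) (hRT : S_BRT) (hPL : S_BPL)
    (hLJ : S_BLJ) (hLN : S_BLN) (hLF : S_BLF) (hLE : S_BLE) (hLM : S_BLM) (hLA : S_BLA)
    (hLS : S_BLS) (hTA : S_TA) (hTM : S_TM) (hTL : S_TL) (hCH : S_CHAIN) : S_BL := by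
  intro q l hql t ht hz h1 h2
  constructor
  · intro j hj1 hj2
    have := BL_core hEX hIC hDB hRT hPL hLJ hLN hLF hLE hLM hLA hLS hTA hTM hTL hCH q l hql t ht hz
      h1 h2 true 7 (by norm_num) K.okL2 j hj1 (by omega)
    simpa using this
  · intro j hj1 hj2
    have := BL_core hEX hIC hDB hRT hPL hLJ hLN hLF hLE hLM hLA hLS hTA hTM hTL hCH q l hql t ht hz
      h1 h2 false 4 (by norm_num) K.okL1 j hj1 (by omega)
    simpa using this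

end TWP
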