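import Mathlib
import Pool.Agent.TWP.StB
import Pool.Agent.TWP.KNrm

set_option autoImplicit false

/-! TWP, block B: soundness of `leftA` (module TWP_BLA). -/

namespace TWP

open PowerSeries

namespace BLAaux

theorem exact0 (hLIN : S_LIN) (M : ℕ) (r : ℝ) (ξ : ℝ⟦X⟧) (p : ℤ) (x : ℝ) (hr : 0 ≤ r)
    (hx : ((2 : ℝ) ^ 160)⁻¹ * (p : ℝ) = x) : Ap M r ξ (C x) ([p], 0) := by
  have h := hLIN.2.2.2.2.2 M r ξ [p] hr
  have e : C (((2 : ℝ) ^ 160)⁻¹) * evZ ξ [p] = C x := by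
    simp only [evZ]
    rw [mul_zero, add_zero, ← map_mul, hx]
  rwa [e] at h

theorem exact1 (hLIN : S_LIN) (M : ℕ) (r : ℝ) (ξ : ℝ⟦X⟧) (p : ℤ) (x : ℝ) (hr : 0 ≤ r)
    (hx : ((2 : ℝ) ^ 160)⁻¹ * (p : ℝ) = x) : Ap M r ξ (C x * ξ) ([0, p], 0) := by
  have h := hLIN.2.2.2.2.2 M r ξ [0, p] hr
  have e : C (((2 : ℝ) ^ 160)⁻¹) * evZ ξ [0, p] = C x * ξ := by
    simp only [evZ]
    rw [mul_zero, add_zero, ← hx, map_mul]
    have : (C (((0 : ℤ) : ℝ)) : ℝ⟦X⟧) = 0 := by rw [Int.cast_zero, map_zero]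
    rw [this, zero_add]; ring
  rwa [e] at h

theorem exact2 (hLIN : S_LIN) (M : ℕ) (r : ℝ) (ξ : ℝ⟦X⟧) (p : ℤ) (x : ℝ) (hr : 0 ≤ r)
    (hx : ((2 : ℝ) ^ 160)⁻¹ * (p : ℝ) = x) : Ap M r ξ (C x * ξ ^ 2) ([0, 0, p], 0) := by
  have h := hLIN.2.2.2.2.2 M r ξ [0, 0, p] hr
  have e : C (((2 : ℝ) ^ 160)⁻¹) * evZ ξ [0, 0, p] = C x * ξ ^ 2 := by
    simp only [evZ]
    rw [mul_zero, add_zero, ← hx, map_mul]
    have : (C (((0 : ℤ) : ℝ)) : ℝ⟦X⟧) = 0 := by rw [Int.cast_zero, map_zero]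
    rw [this, zero_add, zero_add]; ring
  rwa [e] at h

/-- rational scaling with a given value -/
theorem scl' (hLIN : S_LIN) {M : ℕ} {r : ℝ} {ξ S : ℝ⟦X⟧} {a : K.AP} (p : ℤ) (x : ℝ) (hr : 0 ≤ r)
    (hξ : nrm M r ξ ≤ 1) (hx : (p : ℝ) / 2 ^ 160 = x) (h : Ap M r ξ S a) :
    Ap M r ξ (C x * S) (K.sclA p a) := by
  have := hLIN.2.2.1 M r ξ S a p hr hξ h
  rwa [hx] at this

end BLAaux

open BLAaux in
theorem t_BLA (hLIN : S_LIN) (hMULA : S_MULA) (hINVA : S_INVA) : S_BLA := by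
  intro two N w1 c0 c1 r1 r2 υ ξ Y s b hlaw hυ hY hD0 hw hD1 hb
  obtain ⟨hr, hw4, hx⟩ := id hw
  have hx1 : nrm 15 r1 ξ ≤ 1 := hx.trans (by
    rw [div_le_one (by norm_num)]; exact_mod_cast hw4)
  have aDY : Ap 15 r1 ξ (D Y) (K.derA true c0 s) :=
    hLIN.2.2.2.2.1 true 16 c0 (1 / 2) r1 ξ Y s hlaw hD0 hY
  have aY : Ap 15 r1 ξ Y s := hLIN.2.2.2.1 16 15 (1 / 2) r1 ξ Y s (by norm_num) hr.le hD0.2.1 hY
  have aυ : Ap 15 r1 ξ υ ([0, 5 * 2 ^ 152], 0) := by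
    rw [hυ]
    exact exact1 hLIN 15 r1 ξ (5 * 2 ^ 152) (5 / 256) hr.le (by push_cast; norm_num)
  have aυ2 : Ap 15 r1 ξ (C (1 / 2 : ℝ) * υ ^ 2) ([0, 0, 25 * 2 ^ 143], 0) := by
    have e : C (1 / 2 : ℝ) * υ ^ 2 = C (25 / 2 ^ 17 : ℝ) * ξ ^ 2 := by
      have e0 : (25 / 2 ^ 17 : ℝ) = 1 / 2 * (5 / 256) ^ 2 := by norm_num
      rw [hυ, e0, map_mul, map_pow]
      ring
    rw [e]
    exact exact2 hLIN 15 r1 ξ (25 * 2 ^ 143) (25 / 2 ^ 17) hr.le (by push_cast; norm_num)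
  have aone : Ap 15 r1 ξ (C (1 : ℝ)) ([2 ^ 160], 0) :=
    exact0 hLIN 15 r1 ξ (2 ^ 160) 1 hr.le (by push_cast; norm_num)
  have ahalf : Ap 15 r1 ξ (C (1 / 2 : ℝ)) ([2 ^ 159], 0) :=
    exact0 hLIN 15 r1 ξ (2 ^ 159) (1 / 2) hr.le (by push_cast; norm_num)
  have add : ∀ {S T : ℝ⟦X⟧} {a b : K.AP}, Ap 15 r1 ξ S a → Ap 15 r1 ξ T b →
      Ap 15 r1 ξ (S + T) (K.addA a b) := fun h1 h2 => hLIN.1 15 r1 ξ _ _ _ _ hr.le h1 h2
  have neg : ∀ {S : ℝ⟦X⟧} {a : K.AP}, Ap 15 r1 ξ S a → Ap 15 r1 ξ (-S) (K.intA (-1) a) := by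
    intro S a h
    have := hLIN.2.1 15 r1 ξ S a (-1) hr.le h
    have e : C (((-1 : ℤ) : ℝ)) * S = -S := by push_cast; rw [map_neg, map_one]; ring
    rwa [e] at this
  have mul : ∀ {S T : ℝ⟦X⟧} {a b c : K.AP}, K.mulA w1 N a b = some c → Ap 15 r1 ξ S a →
      Ap 15 r1 ξ T b → Ap 15 r1 ξ (S * T) c := fun hc h1 h2 =>
    hMULA 15 r1 ξ _ _ w1 N _ _ _ hw hc h1 h2
  have inv : ∀ {S : ℝ⟦X⟧} {a v : K.AP} {ni : ℕ}, K.invA w1 N a = some (v, ni) → Ap 15 r1 ξ S a →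
      coeff 0 S ≠ 0 ∧ Ap 15 r1 ξ S⁻¹ v := fun hc h1 =>
    ⟨(hINVA 15 r1 ξ _ w1 N _ _ _ hw hc h1).1, (hINVA 15 r1 ξ _ w1 N _ _ _ hw hc h1).2.1⟩
  -- the last step
  have last : ∀ (μ : ℝ⟦X⟧) (mu : K.AP), Ap 15 r1 ξ μ mu →
      Ap 14 r2 ξ (C (4 : ℝ) * μ + C (3 : ℝ) * D μ)
        (K.addA (K.intA 4 mu) (K.intA 3 (K.derA true c1 mu))) := by
    intro μ mu h
    have hr2 : 0 ≤ r2 := hD1.1.le
    have h1 : Ap 14 r2 ξ μ mu := hLIN.2.2.2.1 15 14 r1 r2 ξ μ mu (by norm_num) hr2 hD1.2.1 h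
    have h2 : Ap 14 r2 ξ (D μ) (K.derA true c1 mu) :=
      hLIN.2.2.2.2.1 true 15 c1 r1 r2 ξ μ mu hlaw hD1 h
    have h3 := hLIN.2.1 14 r2 ξ μ mu 4 hr2 h1
    have h4 := hLIN.2.1 14 r2 ξ (D μ) _ 3 hr2 h2
    have h5 := hLIN.1 14 r2 ξ _ _ _ _ hr2 h3 h4
    have e1 : (C (((4 : ℤ) : ℝ)) : ℝ⟦X⟧) = C (4 : ℝ) := by push_cast; rfl
    have e2 : (C (((3 : ℤ) : ℝ)) : ℝ⟦X⟧) = C (3 : ℝ) := by push_cast; rfl
    rwa [e1, e2] at h5
  unfold K.leftA at hb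
  simp only at hb
  split at hb
  case h_1 => exact absurd hb (by simp)
  case h_2 iY niY hiY =>
  obtain ⟨_, aiY⟩ := inv hiY aY
  split at hb
  case h_2 => exact absurd hb (by simp)
  case h_1 LY Y2 hLY hY2 =>
  have aLY := mul hLY aDY aiY
  have aY2 := mul hY2 aY aY
  have aH : Ap 15 r1 ξ (HLs Y) (K.addA ([2 ^ 159], 0) (K.sclA (3 * 2 ^ 159) LY)) :=
    add ahalf (scl' hLIN (3 * 2 ^ 159) (3 / 2) hr.le hx1 (by push_cast; norm_num) aLY)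
  split at hb
  case h_1 => exact absurd hb (by simp)
  case h_2 H2 hH2 =>
  have aH2 := mul hH2 aH aH
  split at hb
  case h_1 => exact absurd hb (by simp)
  case h_2 zH2 hzH2 =>
  have azH2 := mul hzH2 aυ2 aH2
  have aG : Ap 15 r1 ξ (GLs Y υ)
      (K.addA (K.addA ([2 ^ 160], 0) (K.sclA (-(2 ^ 159)) Y2)) zH2) := by
    have h := add (add aone (scl' hLIN (-(2 ^ 159)) (-(1 / 2)) hr.le hx1
      (by push_cast; norm_num) aY2)) azH2
    have e : C (1 : ℝ) + C (-(1 / 2) : ℝ) * (Y * Y) + C (1 / 2 : ℝ) * υ ^ 2 * (HLs Y * HLs Y) =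
        GLs Y υ := by
      unfold GLs
      rw [map_neg, map_one]; ring
    rwa [e] at h
  split at hb
  case h_1 => exact absurd hb (by simp)
  case h_2 R hR =>
  have aR := mul hR aY2 aG
  cases two
  case true =>
    simp only [if_true] at hb ⊢
    split at hb
    case h_1 => exact absurd hb (by simp)
    case h_2 mu hmu =>
    split at hmu
    case h_1 => exact absurd hmu (by simp)
    case h_2 iG niG hiG =>
    obtain ⟨hG0, aiG⟩ := inv hiG aG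
    split at hmu
    case h_1 => exact absurd hmu (by simp)
    case h_2 ziG hziG =>
    have aziG := mul hziG aυ2 aiG
    have amu := add (scl' hLIN (2 ^ 159) (1 / 2) hr.le hx1 (by push_cast; norm_num) aR) (neg aziG)
    have emu : C (1 / 2 : ℝ) * (Y * Y * GLs Y υ) + -(C (1 / 2 : ℝ) * υ ^ 2 * (GLs Y υ)⁻¹) =
        muL true Y υ := by
      simp only [muL, if_true]
      ring
    rw [emu] at amu
    have e1 : mu = K.addA (K.sclA (2 ^ 159) R) (K.intA (-1) ziG) := by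
      simpa using hmu.symm
    have e2 : b = K.addA (K.intA 4 mu) (K.intA 3 (K.derA true c1 mu)) := by
      simpa using hb.symm
    refine ⟨hG0, ?_⟩
    rw [e2, e1]
    exact last _ _ amu
  case false =>
    simp only [Bool.false_eq_true, if_false] at hb ⊢
    split at hb
    case h_1 => exact absurd hb (by simp)
    case h_2 mu hmu =>
    split at hmu
    case h_2 => exact absurd hmu (by simp)
    case h_1 yY YG yH hyY hYG hyH =>
    have ayY := mul hyY aυ aY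
    have aYG := mul hYG aY aG
    have ayH := mul hyH aυ aH
    split at hmu
    case h_1 => exact absurd hmu (by simp)
    case h_2 iden niden hiden =>
    obtain ⟨hd0, aiden⟩ := inv hiden (add aυ aYG)
    split at hmu
    case h_1 => exact absurd hmu (by simp)
    case h_2 q1 hq1 =>
    have aq1 := mul hq1 (add ayH aY) aiden
    split at hmu
    case h_1 => exact absurd hmu (by simp)
    case h_2 t2 ht2 =>
    have at2 := mul ht2 aυ2 aq1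
    have amu := add (scl' hLIN (2 ^ 158) (1 / 4) hr.le hx1 (by push_cast; norm_num)
      (add aR ayY)) (neg at2)
    have emu : C (1 / 4 : ℝ) * (Y * Y * GLs Y υ + υ * Y) +
        -(C (1 / 2 : ℝ) * υ ^ 2 * ((υ * HLs Y + Y) * (υ + Y * GLs Y υ)⁻¹)) =
        muL false Y υ := by
      simp only [muL, Bool.false_eq_true, if_false]
      ring
    rw [emu] at amu
    have e1 : mu = K.addA (K.sclA (2 ^ 158) (K.addA R yY)) (K.intA (-1) t2) := by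
      simpa using hmu.symm
    have e2 : b = K.addA (K.intA 4 mu) (K.intA 3 (K.derA true c1 mu)) := by
      simpa using hb.symm
    refine ⟨hd0, ?_⟩
    rw [e2, e1]
    exact last _ _ amu

end TWP
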