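import Pool.Agent.TWP.StB

set_option autoImplicit false

/-! TWP, module BLE: the values of the error of the series on the left. -/

namespace TWP

open PowerSeries Finset Filter Topology
open scoped ContDiff

namespace BLEaux

open Pool.Agent.TWP.Tail (ev dv)

theorem ev_derT (w : ℝ) : ∀ (l : List ℤ) (n : ℤ),
    ev (K.derTAux n l) w = -(n * ev l w) - w * dv l w := by
  intro l
  induction l with
  | nil => intro n; simp [K.derTAux, ev, dv]
  | cons a l ih =>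
    intro n
    simp only [K.derTAux, ev, dv, ih]
    push_cast
    ring

theorem D_zeta (υ : ℝ⟦X⟧) (h : D υ = -υ) :
    D (C (1 / 32 : ℝ) * υ ^ 2) = -(C (2 : ℝ) * (C (1 / 32 : ℝ) * υ ^ 2)) := by
  have e1 : D (C (1 / 32 : ℝ) * υ ^ 2) = C (1 / 32 : ℝ) * (2 * (υ * D υ)) := by
    unfold D
    rw [Derivation.leibniz, derivative_C, pow_two, Derivation.leibniz]
    simp only [smul_eq_mul]
    ring
  rw [e1, h, map_ofNat]
  ring

theorem coeff_zeta (υ : ℝ⟦X⟧) : coeff 0 (C (1 / 32 : ℝ) * υ ^ 2) = (coeff 0 υ) ^ 2 / 32 := by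
  rw [coeff_C_mul, coeff_zero_eq_constantCoeff_apply, coeff_zero_eq_constantCoeff_apply, map_pow]
  ring

theorem yL_sq (t : ℝ) (ht : t < 0) : Pool.Agent.TWP.Tail.zL t = yL t ^ 2 / 2 := by
  have hx : 0 < -t := by linarith
  have h2 : Real.sqrt 2 ^ 2 = 2 := Real.sq_sqrt (by norm_num)
  have h3 : Real.sqrt (-t) ^ 2 = -t := Real.sq_sqrt hx.le
  unfold Pool.Agent.TWP.Tail.zL yL
  rw [div_pow, mul_pow, h2, h3]
  have hx' : (-t) ≠ 0 := hx.ne'
  field_simp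

theorem yL_mul (t : ℝ) (ht : t < 0) : yL t * ((-t) * Real.sqrt (-t)) = Real.sqrt 2 := by
  have hx : 0 < -t := by linarith
  have h3 : 0 < Real.sqrt (-t) := Real.sqrt_pos.2 hx
  unfold yL
  rw [div_mul_cancel₀]
  positivity

end BLEaux

theorem t_BLE (hV0 : S_BV0) (hDE : S_BDE) (hLF : S_BLF) (hLN : S_BLN) : S_BLE := by
  intro q l t hQL ht hy h1 h2
  have ht0 : t < 0 := by linarith
  have hx : 0 < -t := by linarith
  obtain ⟨f1, f2, f3, f4, -⟩ := hLF q l t hQL ht0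
  have hy0 : 0 < yL t := by
    unfold yL
    have h3 : 0 < Real.sqrt (-t) := Real.sqrt_pos.2 hx
    have h4 : 0 < Real.sqrt 2 := Real.sqrt_pos.2 (by norm_num)
    positivity
  obtain ⟨-, n2, n3⟩ := hLN (yL t) hy0 hy
  have hz := BLEaux.yL_sq t ht0
  have hw : Pool.Agent.TWP.Tail.zL t / 16 = yL t ^ 2 / 32 := by rw [hz]; ring
  rw [hw, hz] at h1 h2
  have hmul := BLEaux.yL_mul t ht0
  have hs2 : Real.sqrt 2 ≤ 14143 / 10000 := by
    rw [Real.sqrt_le_left (by norm_num)]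
    norm_num
  -- values of the series
  have c1 : coeff 0 (evZ (C (1 / 32 : ℝ) * Tay psiT yL t ^ 2) K.cY) =
      Pool.Agent.TWP.Tail.ev K.cY (yL t ^ 2 / 32) := by
    rw [hV0, BLEaux.coeff_zeta, f2]
  have c2 : coeff 0 (D (evZ (C (1 / 32 : ℝ) * Tay psiT yL t ^ 2) K.cY)) =
      -(2 * (yL t ^ 2 / 32 * Pool.Agent.TWP.Tail.dv K.cY (yL t ^ 2 / 32))) := by
    rw [hDE _ 2 K.cY (BLEaux.D_zeta _ f1), coeff_C_mul, hV0, BLEaux.coeff_zeta, f2]
    have h5 : K.derT K.cY = K.derTAux 0 K.cY := rfl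
    rw [h5, BLEaux.ev_derT]
    push_cast
    ring
  have c3 : coeff 0 (Tay psiT (YL q) t - evZ (C (1 / 32 : ℝ) * Tay psiT yL t ^ 2) K.cY) =
      YL q t - Pool.Agent.TWP.Tail.ev K.cY (yL t ^ 2 / 32) := by
    rw [map_sub, f3, c1]
  have c4 : coeff 0 (D (Tay psiT (YL q) t - evZ (C (1 / 32 : ℝ) * Tay psiT yL t ^ 2) K.cY)) =
      2 / 3 * ((t * l t - 1 / 2) * YL q t) +
        2 * (yL t ^ 2 / 32 * Pool.Agent.TWP.Tail.dv K.cY (yL t ^ 2 / 32)) := by
    have h5 : D (Tay psiT (YL q) t - evZ (C (1 / 32 : ℝ) * Tay psiT yL t ^ 2) K.cY) =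
        D (Tay psiT (YL q) t) - D (evZ (C (1 / 32 : ℝ) * Tay psiT yL t ^ 2) K.cY) := by
      unfold D
      exact map_sub _ _ _
    rw [h5, map_sub, f4, c2]
    ring
  rw [c3, c4]
  have hY : q t / Real.sqrt (-t / 2) = YL q t := rfl
  have hY2 : t * (l t * q t) / Real.sqrt (-t / 2) = t * l t * YL q t := by
    rw [← hY]; ring
  rw [hY] at h1
  rw [hY, hY2] at h2
  -- abstract the numbers
  generalize Pool.Agent.TWP.Tail.ev K.cY (yL t ^ 2 / 32) = A at *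
  generalize Pool.Agent.TWP.Tail.ev Pool.Agent.TWP.Tail.cY (yL t ^ 2 / 32) = A' at *
  generalize yL t ^ 2 / 32 * Pool.Agent.TWP.Tail.dv K.cY (yL t ^ 2 / 32) = B at *
  generalize yL t ^ 2 / 32 * Pool.Agent.TWP.Tail.dv Pool.Agent.TWP.Tail.cY (yL t ^ 2 / 32) = B' at *
  have hZ : 0 ≤ (yL t ^ 2 / 2) ^ 25 := by positivity
  generalize (yL t ^ 2 / 2) ^ 25 = Z at *
  generalize YL q t = Y at *
  generalize hxs : (-t) * Real.sqrt (-t) = X at *
  generalize hyy : yL t = y at *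
  have e1 : |Y - A| ≤ 5 * 10 ^ 62 * Z + 301 * 10 ^ 60 * Z := by
    have e2 : Y - A = (Y - A') - (A - A') := by ring
    rw [e2]
    calc |(Y - A') - (A - A')| ≤ |Y - A'| + |A - A'| := abs_sub _ _
      _ ≤ _ := add_le_add h1 n2
  have hX : 0 ≤ X := by
    rw [← hxs]
    have := Real.sqrt_nonneg (-t)
    positivity
  have e3 : |y * (2 / 3 * ((t * l t - 1 / 2) * Y) + 2 * B)| ≤
      2 / 3 * (6 * (5 * 10 ^ 62 * Z) * (y * X)) + 2 * y * (9030 * 10 ^ 60 * Z) := by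
    have e4 : y * (2 / 3 * ((t * l t - 1 / 2) * Y) + 2 * B) =
        2 / 3 * (y * (t * l t * Y - Y / 2 + 3 * B')) + 2 * y * (B - B') := by ring
    rw [e4]
    have e5 : |2 / 3 * (y * (t * l t * Y - Y / 2 + 3 * B'))| ≤
        2 / 3 * (6 * (5 * 10 ^ 62 * Z) * (y * X)) := by
      rw [abs_mul, abs_mul, abs_of_pos hy0, abs_of_pos (by norm_num : (0 : ℝ) < 2 / 3)]
      have := mul_le_mul_of_nonneg_left h2 hy0.le
      have e6 : y * (6 * (5 * 10 ^ 62 * Z) * X) = 6 * (5 * 10 ^ 62 * Z) * (y * X) := by ring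
      rw [e6] at this
      exact mul_le_mul_of_nonneg_left this (by norm_num)
    have e7 : |2 * y * (B - B')| ≤ 2 * y * (9030 * 10 ^ 60 * Z) := by
      rw [abs_mul, abs_of_pos (by positivity : 0 < 2 * y)]
      exact mul_le_mul_of_nonneg_left n3 (by positivity)
    exact (abs_add_le _ _).trans (add_le_add e5 e7)
  have e8 : 6 * (5 * 10 ^ 62 * Z) * (y * X) ≤ 6 * (5 * 10 ^ 62 * Z) * (14143 / 10000) := by
    rw [hmul]
    exact mul_le_mul_of_nonneg_left hs2 (by positivity)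
  have e9 : 2 * y * (9030 * 10 ^ 60 * Z) ≤ 2 * (3 / 256) * (9030 * 10 ^ 60 * Z) := by
    have : 0 ≤ 9030 * 10 ^ 60 * Z := by positivity
    have := mul_le_mul_of_nonneg_right hy this
    linarith
  calc |Y - A| + |y * (2 / 3 * ((t * l t - 1 / 2) * Y) + 2 * B)|
      ≤ (5 * 10 ^ 62 * Z + 301 * 10 ^ 60 * Z) +
        (2 / 3 * (6 * (5 * 10 ^ 62 * Z) * (14143 / 10000)) +
          2 * (3 / 256) * (9030 * 10 ^ 60 * Z)) := by
        refine add_le_add e1 (e3.trans ?_)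
        exact add_le_add (mul_le_mul_of_nonneg_left e8 (by norm_num)) e9
    _ = (5 * 10 ^ 62 + 301 * 10 ^ 60 + 2 / 3 * (6 * (5 * 10 ^ 62) * (14143 / 10000)) +
          2 * (3 / 256) * (9030 * 10 ^ 60)) * Z := by ring
    _ ≤ 4 * 10 ^ 63 * Z := mul_le_mul_of_nonneg_right (by norm_num) hZ

end TWP
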