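import Pool.Agent.TWP.StF

/-! TWP_QS: smoothness of `q` and `l` from the first order system. -/

namespace TWP

open PowerSeries Filter Topology
open scoped ContDiff

theorem QS : S_QS := by
  intro q l h
  have hdq : Differentiable ℝ q := fun t => (h.dq t).differentiableAt
  have hdl : Differentiable ℝ l := fun t => (h.dl t).differentiableAt
  have key : ∀ n : ℕ, ContDiff ℝ n q ∧ ContDiff ℝ n l := by
    intro n
    induction n with
    | zero =>
      exact ⟨contDiff_zero.2 hdq.continuous, contDiff_zero.2 hdl.continuous⟩
    | succ n ih =>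
      obtain ⟨hq, hl⟩ := ih
      have e1 : deriv q = fun t => l t * q t := funext fun t => (h.dq t).deriv
      have e2 : deriv l = fun t => t + 2 * q t ^ 2 - l t ^ 2 := funext fun t => (h.dl t).deriv
      have c1 : ContDiff ℝ n (deriv q) := by
        rw [e1]
        exact hl.mul hq
      have c2 : ContDiff ℝ n (deriv l) := by
        rw [e2]
        exact (contDiff_id.add (contDiff_const.mul (hq.pow 2))).sub (hl.pow 2)
      constructor
      · have := (contDiff_succ_iff_deriv (n := (n : ℕ∞ω)) (f := q) (𝕜 := ℝ)).2
          ⟨hdq, by intro hc; exact absurd hc (by simp), c1⟩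
        exact_mod_cast this
      · have := (contDiff_succ_iff_deriv (n := (n : ℕ∞ω)) (f := l) (𝕜 := ℝ)).2
          ⟨hdl, by intro hc; exact absurd hc (by simp), c2⟩
        exact_mod_cast this
  exact ⟨contDiff_infty.2 fun n => (key n).1, contDiff_infty.2 fun n => (key n).2⟩

end TWP
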