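import Pool.Agent.TWP.StF

/-! TWP, module TA: the Taylor functor is additive and sends constants to constants (helper61). -/

set_option autoImplicit false

namespace TWP

open PowerSeries Filter Topology
open scoped ContDiff

theorem ta_iter_zero (ψ : ℝ → ℝ) (n : ℕ) :
    (dl ψ)^[n] (fun _ => (0 : ℝ)) = fun _ => (0 : ℝ) := by
  induction n with
  | zero => rfl
  | succ n ih =>
    rw [Function.iterate_succ_apply]
    have : dl ψ (fun _ => (0 : ℝ)) = fun _ => (0 : ℝ) := by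
      funext s
      simp [dl]
    rw [this]
    exact ih

theorem ta_iter_const (ψ : ℝ → ℝ) (c : ℝ) (n : ℕ) :
    (dl ψ)^[n + 1] (fun _ => c) = fun _ => (0 : ℝ) := by
  rw [Function.iterate_succ_apply]
  have : dl ψ (fun _ => c) = fun _ => (0 : ℝ) := by
    funext s
    simp [dl]
  rw [this]
  exact ta_iter_zero ψ n

theorem ta_iter_congr (ψ : ℝ → ℝ) (t : ℝ) (n : ℕ) : ∀ f g : ℝ → ℝ, f =ᶠ[𝓝 t] g →
    (dl ψ)^[n] f =ᶠ[𝓝 t] (dl ψ)^[n] g := by
  induction n with
  | zero => exact fun f g h => h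
  | succ n ih =>
    intro f g h
    rw [Function.iterate_succ_apply, Function.iterate_succ_apply]
    refine ih _ _ ?_
    filter_upwards [h.deriv] with s hs
    simp only [dl, hs]

theorem ta_diff {f : ℝ → ℝ} {t : ℝ} (hf : ContDiffAt ℝ ∞ f t) :
    ∀ᶠ s in 𝓝 t, DifferentiableAt ℝ f s := by
  have h1 : ContDiffAt ℝ 1 f t := hf.of_le (by exact_mod_cast le_top)
  filter_upwards [h1.eventually (by simp)] with s hs
  exact hs.differentiableAt (by simp)

theorem ta_dl (ψ f g : ℝ → ℝ) (t e : ℝ) (hf : ContDiffAt ℝ ∞ f t) (hg : ContDiffAt ℝ ∞ g t) :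
    dl ψ (fun s => f s + e * g s) =ᶠ[𝓝 t] fun s => dl ψ f s + e * dl ψ g s := by
  filter_upwards [ta_diff hf, ta_diff hg] with s h1 h2
  simp only [dl]
  rw [deriv_fun_add h1 (h2.const_mul e), deriv_const_mul e h2]
  ring

theorem ta_iter (hS : S_TS) (ψ : ℝ → ℝ) (t e : ℝ) (hψ : ContDiffAt ℝ ∞ ψ t) (n : ℕ) :
    ∀ f g : ℝ → ℝ, ContDiffAt ℝ ∞ f t → ContDiffAt ℝ ∞ g t →
    (dl ψ)^[n] (fun s => f s + e * g s) =ᶠ[𝓝 t] fun s => (dl ψ)^[n] f s + e * (dl ψ)^[n] g s := by
  induction n with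
  | zero => exact fun f g _ _ => EventuallyEq.rfl
  | succ n ih =>
    intro f g hf hg
    have h1 := ta_iter_congr ψ t n _ _ (ta_dl ψ f g t e hf hg)
    have h2 := ih (dl ψ f) (dl ψ g) (hS.2.1 ψ f t hψ hf) (hS.2.1 ψ g t hψ hg)
    have h3 := h1.trans h2
    simpa only [Function.iterate_succ_apply] using h3

theorem ta_tay (hS : S_TS) (ψ : ℝ → ℝ) (t e : ℝ) (hψ : ContDiffAt ℝ ∞ ψ t)
    (f g : ℝ → ℝ) (hf : ContDiffAt ℝ ∞ f t) (hg : ContDiffAt ℝ ∞ g t) :
    Tay ψ (fun s => f s + e * g s) t = Tay ψ f t + C e * Tay ψ g t := by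
  ext n
  have h := (ta_iter hS ψ t e hψ n f g hf hg).eq_of_nhds
  rw [map_add, coeff_C_mul]
  simp only [Tay, coeff_mk]
  rw [h]
  ring

/-- **TA**. -/
theorem TA : S_TC → S_TS → S_TA := by
  intro _ hS ψ t hψ
  refine ⟨fun c => ?_, fun f g hf hg => ?_, fun f g hf hg => ?_⟩
  · ext n
    cases n with
    | zero => simp [Tay]
    | succ n =>
      simp only [Tay, coeff_mk]
      rw [ta_iter_const, coeff_C]
      simp
  · have h := ta_tay hS ψ t 1 hψ f g hf hg
    simpa only [one_mul, map_one] using h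
  · have h := ta_tay hS ψ t (-1) hψ f g hf hg
    have e1 : (fun s => f s + -1 * g s) = fun s => f s - g s := by
      funext s
      ring
    rw [e1] at h
    rw [h, map_neg, map_one]
    ring

end TWP
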