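import Pool.Agent.TWP.StF

namespace TWP

open PowerSeries Filter Topology
open scoped ContDiff

theorem tc_dl_germ (ψ f g : ℝ → ℝ) (t : ℝ) (h : f =ᶠ[𝓝 t] g) : dl ψ f =ᶠ[𝓝 t] dl ψ g := by
  have h1 := h.deriv
  filter_upwards [h1] with s hs
  simp only [dl, hs]

theorem tc_iter_germ (ψ f g : ℝ → ℝ) (t : ℝ) (h : f =ᶠ[𝓝 t] g) (n : ℕ) :
    (dl ψ)^[n] f =ᶠ[𝓝 t] (dl ψ)^[n] g := by
  induction n with
  | zero => exact h
  | succ n ih =>
    rw [Function.iterate_succ_apply', Function.iterate_succ_apply']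
    exact tc_dl_germ ψ _ _ t ih

theorem TC : S_TC := by
  intro ψ f g t h
  refine ⟨?_, ?_, ?_⟩
  · ext n
    simp only [Tay, PowerSeries.coeff_mk]
    rw [(tc_iter_germ ψ f g t h n).eq_of_nhds]
  · simp only [Tay, PowerSeries.coeff_mk, Function.iterate_zero, id_eq, Nat.factorial_zero,
      Nat.cast_one, div_one]
  · ext n
    simp only [D, Tay]
    rw [PowerSeries.coeff_derivative, PowerSeries.coeff_mk, PowerSeries.coeff_mk,
      Function.iterate_succ_apply, Nat.factorial_succ]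
    have h1 : ((n : ℝ) + 1) ≠ 0 := by positivity
    have h2 : ((n.factorial : ℕ) : ℝ) ≠ 0 := by positivity
    push_cast
    field_simp

end TWP
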