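import Pool.Agent.TWP.StF

/-! Module TWP_TM (helper91): the Taylor functor is multiplicative. -/

set_option autoImplicit false

namespace TWP

open PowerSeries Filter Topology
open scoped ContDiff

theorem TM_germ (ψ f g : ℝ → ℝ) (t : ℝ) (hf : ContDiffAt ℝ ∞ f t) (hg : ContDiffAt ℝ ∞ g t) :
    dl ψ (fun s => f s * g s) =ᶠ[𝓝 t] fun s => dl ψ f s * g s + f s * dl ψ g s := by
  have hf1 : ∀ᶠ s in 𝓝 t, ContDiffAt ℝ 1 f s :=
    (hf.of_le (by exact_mod_cast le_top)).eventually (by simp)
  have hg1 : ∀ᶠ s in 𝓝 t, ContDiffAt ℝ 1 g s :=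
    (hg.of_le (by exact_mod_cast le_top)).eventually (by simp)
  filter_upwards [hf1, hg1] with s h1 h2
  have d1 : DifferentiableAt ℝ f s := h1.differentiableAt (by simp)
  have d2 : DifferentiableAt ℝ g s := h2.differentiableAt (by simp)
  simp only [dl]
  rw [deriv_fun_mul d1 d2]
  ring

theorem TM : S_TC → S_TS → S_TA → S_TM := by
  intro hTC hTS hTA ψ t hψ
  have key : ∀ n : ℕ, ∀ f g : ℝ → ℝ, ContDiffAt ℝ ∞ f t → ContDiffAt ℝ ∞ g t →
      coeff n (Tay ψ (fun s => f s * g s) t) = coeff n (Tay ψ f t * Tay ψ g t) := by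
    intro n
    induction n with
    | zero =>
      intro f g hf hg
      rw [(hTC ψ (fun s => f s * g s) _ t EventuallyEq.rfl).2.1]
      rw [coeff_zero_eq_constantCoeff, map_mul, ← coeff_zero_eq_constantCoeff]
      rw [(hTC ψ f _ t EventuallyEq.rfl).2.1, (hTC ψ g _ t EventuallyEq.rfl).2.1]
    | succ n ih =>
      intro f g hf hg
      have hf' := hTS.2.1 ψ f t hψ hf
      have hg' := hTS.2.1 ψ g t hψ hg
      have e1 : D (Tay ψ (fun s => f s * g s) t) =
          Tay ψ (fun s => dl ψ f s * g s) t + Tay ψ (fun s => f s * dl ψ g s) t := by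
        rw [(hTC ψ (fun s => f s * g s) _ t EventuallyEq.rfl).2.2,
          (hTC ψ _ _ t (TM_germ ψ f g t hf hg)).1,
          (hTA ψ t hψ).2.1 (fun s => dl ψ f s * g s) (fun s => f s * dl ψ g s)
            (hf'.mul hg) (hf.mul hg')]
      have e2 : D (Tay ψ f t * Tay ψ g t) =
          Tay ψ (dl ψ f) t * Tay ψ g t + Tay ψ f t * Tay ψ (dl ψ g) t := by
        rw [← (hTC ψ f _ t EventuallyEq.rfl).2.2, ← (hTC ψ g _ t EventuallyEq.rfl).2.2]
        unfold D
        rw [Derivation.leibniz]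
        simp only [smul_eq_mul]
        ring
      have e3 : coeff n (D (Tay ψ (fun s => f s * g s) t)) =
          coeff n (D (Tay ψ f t * Tay ψ g t)) := by
        rw [e1, e2, map_add, map_add, ih _ _ hf' hg, ih _ _ hf hg']
      unfold D at e3
      rw [coeff_derivative, coeff_derivative] at e3
      have hn : ((n : ℝ) + 1) ≠ 0 := by positivity
      exact mul_right_cancel₀ hn e3
  intro f g hf hg
  ext n
  exact key n f g hf hg

end TWP
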