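import Pool.Agent.TWP.StF

/-! TWP_TS: smoothness of `dl` and of the Toda chain at a point. -/

namespace TWP

open PowerSeries Filter Topology
open scoped ContDiff

private theorem ts_deriv (f : ℝ → ℝ) (t : ℝ) (hf : ContDiffAt ℝ ∞ f t) :
    ContDiffAt ℝ ∞ (deriv f) t := by
  have h1 : ContDiffAt ℝ ∞ (fderiv ℝ f) t := hf.fderiv_right (m := ∞) (by simp)
  have h2 : deriv f = fun x => fderiv ℝ f x 1 := by
    funext x
    exact (fderiv_apply_one_eq_deriv).symm
  rw [h2]
  exact h1.clm_apply contDiffAt_const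

theorem TS : S_TS := by
  refine ⟨ts_deriv, ?_, ?_, ?_⟩
  · intro ψ f t hψ hf
    exact hψ.mul (ts_deriv f t hf)
  · intro m t hm
    have h := (ts_deriv m t hm).neg
    exact h
  · intro m t k h0 h1 hne
    have h2 := ts_deriv _ t h1
    have h3 := h2.div h1 hne
    have h4 := ts_deriv _ t h3
    have h5 := ((contDiffAt_const (c := (2 : ℝ))).mul h1).sub h0
    exact h5.sub h4

end TWP
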