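import Pool.Agent.TWP.StB
import Pool.Agent.TWP.FTC
import Pool.Agent.TWP.FTS
import Pool.Agent.TWP.FTA
import Pool.Agent.TWP.FTM
import Pool.Agent.TWP.FQS

/-! TWP, module BLF: functions to series, left tail. -/

set_option autoImplicit false

namespace TWP

open PowerSeries Finset Filter Topology
open scoped ContDiff

namespace BLFaux

theorem hd_yL (s : ℝ) (hs : s < 0) : HasDerivAt yL (-(3 / 2) * (yL s / s)) s := by
  have hx : 0 < -s := neg_pos.2 hs
  have hr : 0 < Real.sqrt (-s) := Real.sqrt_pos.2 hx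
  have hsq : Real.sqrt (-s) * Real.sqrt (-s) = -s := Real.mul_self_sqrt hx.le
  have h1 : HasDerivAt (fun s : ℝ => -s) (-1) s := (hasDerivAt_id s).neg
  have h2 : HasDerivAt (fun s : ℝ => Real.sqrt (-s)) (-1 / (2 * Real.sqrt (-s))) s :=
    h1.sqrt hx.ne'
  have h3 : HasDerivAt (fun s : ℝ => (-s) * Real.sqrt (-s))
      ((-1) * Real.sqrt (-s) + (-s) * (-1 / (2 * Real.sqrt (-s)))) s := h1.mul h2
  have h4 := (hasDerivAt_const s (Real.sqrt 2)).div h3 (mul_pos hx hr).ne'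
  refine h4.congr_deriv ?_
  unfold yL
  have hs0 : s ≠ 0 := hs.ne
  rw [zero_mul, zero_sub]
  have e1 : (-1) * Real.sqrt (-s) + (-s) * (-1 / (2 * Real.sqrt (-s))) =
      -(3 / 2) * Real.sqrt (-s) := by
    field_simp
    nlinarith [hsq]
  rw [e1]
  field_simp

theorem hd_YL (q l : ℝ → ℝ) (h : QL q l) (s : ℝ) (hs : s < 0) :
    HasDerivAt (YL q) ((l s - 1 / (2 * s)) * YL q s) s := by
  have hx : 0 < -s / 2 := by linarith
  have hr : 0 < Real.sqrt (-s / 2) := Real.sqrt_pos.2 hx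
  have hsq : Real.sqrt (-s / 2) * Real.sqrt (-s / 2) = -s / 2 := Real.mul_self_sqrt hx.le
  have h1 : HasDerivAt (fun s : ℝ => -s / 2) (-1 / 2) s := (hasDerivAt_id s).neg.div_const 2
  have h2 : HasDerivAt (fun s : ℝ => Real.sqrt (-s / 2))
      (-1 / 2 / (2 * Real.sqrt (-s / 2))) s := h1.sqrt hx.ne'
  have h4 := (h.dq s).div h2 hr.ne'
  refine h4.congr_deriv ?_
  unfold YL
  have hs0 : s ≠ 0 := hs.ne
  have hs2 : s = -2 * (Real.sqrt (-s / 2) * Real.sqrt (-s / 2)) := by rw [hsq]; ring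
  set r : ℝ := Real.sqrt (-s / 2) with hrdef
  have h5 : (1 : ℝ) / (2 * s) = -1 / (4 * (r * r)) := by
    rw [hs2]
    field_simp
    ring
  rw [h5]
  field_simp
  ring

theorem yL_sq (s : ℝ) (hs : s < 0) : yL s * yL s = -2 / s ^ 3 := by
  have hx : 0 < -s := neg_pos.2 hs
  have hr : 0 < Real.sqrt (-s) := Real.sqrt_pos.2 hx
  have hsq : Real.sqrt (-s) ^ 2 = -s := Real.sq_sqrt hx.le
  have h2 : Real.sqrt 2 ^ 2 = 2 := Real.sq_sqrt (by norm_num)
  unfold yL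
  have hs0 : s ≠ 0 := hs.ne
  rw [div_mul_div_comm]
  have e1 : Real.sqrt 2 * Real.sqrt 2 = 2 := by rw [← sq, h2]
  have e2 : -s * Real.sqrt (-s) * (-s * Real.sqrt (-s)) = -s ^ 3 := by
    have : -s * Real.sqrt (-s) * (-s * Real.sqrt (-s)) = s ^ 2 * Real.sqrt (-s) ^ 2 := by ring
    rw [this, hsq]
    ring
  rw [e1, e2, div_neg, neg_div]

theorem q_sq (q : ℝ → ℝ) (s : ℝ) (hs : s < 0) : q s ^ 2 = -s / 2 * YL q s ^ 2 := by
  have hx : 0 < -s / 2 := by linarith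
  have hr : 0 < Real.sqrt (-s / 2) := Real.sqrt_pos.2 hx
  have hsq : Real.sqrt (-s / 2) ^ 2 = -s / 2 := Real.sq_sqrt hx.le
  unfold YL
  rw [div_pow, hsq, mul_div_cancel₀ _ hx.ne']

theorem cd_sqrt (t : ℝ) (c : ℝ) (hc : 0 < c) (ht : t < 0) :
    ContDiffAt ℝ ∞ (fun s : ℝ => Real.sqrt (-s / c)) t := by
  have h1 : ContDiffAt ℝ ∞ (fun s : ℝ => -s / c) t :=
    (contDiff_id.neg.div_const c).contDiffAt
  exact h1.sqrt (by have : 0 < -t / c := div_pos (neg_pos.2 ht) hc; exact this.ne')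

theorem cd_yL (t : ℝ) (ht : t < 0) : ContDiffAt ℝ ∞ yL t := by
  have h1 : ContDiffAt ℝ ∞ (fun s : ℝ => Real.sqrt (-s)) t := by
    have := cd_sqrt t 1 one_pos ht
    simpa using this
  have h2 : ContDiffAt ℝ ∞ (fun s : ℝ => (-s) * Real.sqrt (-s)) t :=
    (contDiff_id.neg).contDiffAt.mul h1
  refine contDiffAt_const.div h2 ?_
  have hx : 0 < -t := neg_pos.2 ht
  exact (mul_pos hx (Real.sqrt_pos.2 hx)).ne'

theorem cd_YL (q l : ℝ → ℝ) (h : QL q l) (t : ℝ) (ht : t < 0) : ContDiffAt ℝ ∞ (YL q) t := by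
  have hx : 0 < -t / 2 := by linarith
  exact ((QS q l h).1.contDiffAt).div (cd_sqrt t 2 two_pos ht) (Real.sqrt_pos.2 hx).ne'

theorem cd_psi (t : ℝ) : ContDiffAt ℝ ∞ psiT t :=
  (contDiff_const.mul contDiff_id).contDiffAt

theorem tay_cmul (t c : ℝ) (f : ℝ → ℝ) (hf : ContDiffAt ℝ ∞ f t) :
    Tay psiT (fun s => c * f s) t = C c * Tay psiT f t := by
  have hA := TA TC TS psiT t (cd_psi t)
  have hM := TM TC TS (TA TC TS) psiT t (cd_psi t) (fun _ => c) f contDiffAt_const hf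
  rw [hM, hA.1 c]

theorem tay_D (t : ℝ) (f : ℝ → ℝ) : D (Tay psiT f t) = Tay psiT (dl psiT f) t :=
  (TC psiT f f t (EventuallyEq.refl _ _)).2.2

end BLFaux

open BLFaux in
/-- BLF: the series of the functions of the left tail. -/
theorem t_BLF : S_BLF := by
  intro q l t h ht
  have hneg : ∀ᶠ s in 𝓝 t, s < 0 := gt_mem_nhds ht
  have hyc := cd_yL t ht
  have hYc := cd_YL q l h t ht
  set f1 : ℝ → ℝ := fun s => 2 / 3 * ((s * l s - 1 / 2) * YL q s) with hf1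
  have h1 : dl psiT yL =ᶠ[𝓝 t] fun s => (-1) * yL s := by
    filter_upwards [hneg] with s hs
    simp only [dl, psiT]
    rw [(hd_yL s hs).deriv]
    have hs0 : s ≠ 0 := hs.ne
    field_simp
  have h2 : dl psiT (YL q) =ᶠ[𝓝 t] f1 := by
    filter_upwards [hneg] with s hs
    simp only [dl, psiT, hf1]
    rw [(hd_YL q l h s hs).deriv]
    have hs0 : s ≠ 0 := hs.ne
    field_simp
  have h3 : dl psiT (dl psiT (YL q)) =ᶠ[𝓝 t] fun s =>
      2 / 3 * s * (2 / 3 * ((1 * l s + s * (s + 2 * q s ^ 2 - l s ^ 2)) * YL q s +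
        (s * l s - 1 / 2) * ((l s - 1 / (2 * s)) * YL q s))) := by
    have h4 : dl psiT (dl psiT (YL q)) =ᶠ[𝓝 t] dl psiT f1 := tc_dl_germ _ _ _ _ h2
    refine h4.trans ?_
    filter_upwards [hneg] with s hs
    have hd : HasDerivAt f1 (2 / 3 * ((1 * l s + s * (s + 2 * q s ^ 2 - l s ^ 2)) * YL q s +
        (s * l s - 1 / 2) * ((l s - 1 / (2 * s)) * YL q s))) s := by
      have a1 : HasDerivAt (fun s => s * l s - 1 / 2)
          (1 * l s + s * (s + 2 * q s ^ 2 - l s ^ 2)) s :=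
        ((hasDerivAt_id s).mul (h.dl s)).sub_const (1 / 2)
      exact (a1.mul (hd_YL q l h s hs)).const_mul (2 / 3)
    simp only [dl, psiT]
    rw [hd.deriv]
  refine ⟨?_, (TC psiT yL yL t (EventuallyEq.refl _ _)).2.1,
    (TC psiT (YL q) (YL q) t (EventuallyEq.refl _ _)).2.1, ?_, ?_⟩
  · rw [tay_D, (TC psiT _ _ t h1).1, tay_cmul t (-1) yL hyc]
    rw [map_neg, map_one, neg_one_mul]
  · rw [tay_D, (TC psiT _ _ t (EventuallyEq.refl _ (dl psiT (YL q)))).2.1, h2.eq_of_nhds]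
  · have hA := TA TC TS psiT t (cd_psi t)
    have hM := TM TC TS (TA TC TS) psiT t (cd_psi t)
    have hd1 : ContDiffAt ℝ ∞ (dl psiT (YL q)) t := TS.2.1 psiT (YL q) t (cd_psi t) hYc
    have hd2 : ContDiffAt ℝ ∞ (dl psiT (dl psiT (YL q))) t :=
      TS.2.1 psiT _ t (cd_psi t) hd1
    have e1 : Tay psiT (fun s => 1 / 2 * (yL s * yL s)) t =
        C (1 / 2 : ℝ) * (Tay psiT yL t * Tay psiT yL t) := by
      rw [tay_cmul t (1 / 2) (fun s => yL s * yL s) (hyc.mul hyc), hM yL yL hyc hyc]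
    have e2 : Tay psiT (fun s => 9 / 4 * dl psiT (dl psiT (YL q)) s - 1 / 4 * YL q s) t =
        C (9 / 4 : ℝ) * D (D (Tay psiT (YL q) t)) - C (1 / 4 : ℝ) * Tay psiT (YL q) t := by
      rw [hA.2.2 (fun s => 9 / 4 * dl psiT (dl psiT (YL q)) s) (fun s => 1 / 4 * YL q s)
        (contDiffAt_const.mul hd2) (contDiffAt_const.mul hYc),
        tay_cmul t (9 / 4) _ hd2, tay_cmul t (1 / 4) _ hYc, tay_D, tay_D]
    have e3 : Tay psiT (fun s => (1 / 2 * (yL s * yL s)) *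
        (9 / 4 * dl psiT (dl psiT (YL q)) s - 1 / 4 * YL q s)) t =
        (C (1 / 2 : ℝ) * (Tay psiT yL t * Tay psiT yL t)) *
        (C (9 / 4 : ℝ) * D (D (Tay psiT (YL q) t)) - C (1 / 4 : ℝ) * Tay psiT (YL q) t) := by
      rw [hM (fun s => 1 / 2 * (yL s * yL s))
        (fun s => 9 / 4 * dl psiT (dl psiT (YL q)) s - 1 / 4 * YL q s)
        (contDiffAt_const.mul (hyc.mul hyc))
        ((contDiffAt_const.mul hd2).sub (contDiffAt_const.mul hYc)), e1, e2]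
    have e4 : Tay psiT (fun s => YL q s * (YL q s * YL q s) - YL q s) t =
        Tay psiT (YL q) t * (Tay psiT (YL q) t * Tay psiT (YL q) t) - Tay psiT (YL q) t := by
      rw [hA.2.2 (fun s => YL q s * (YL q s * YL q s)) (YL q) (hYc.mul (hYc.mul hYc)) hYc,
        hM (YL q) (fun s => YL q s * YL q s) hYc (hYc.mul hYc), hM (YL q) (YL q) hYc hYc]
    have e5 : (fun s => (1 / 2 * (yL s * yL s)) *
        (9 / 4 * dl psiT (dl psiT (YL q)) s - 1 / 4 * YL q s)) =ᶠ[𝓝 t]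
        fun s => YL q s * (YL q s * YL q s) - YL q s := by
      filter_upwards [hneg, h3] with s hs h3s
      rw [h3s, yL_sq s hs, q_sq q s hs]
      have hs0 : s ≠ 0 := hs.ne
      field_simp
      ring
    have e6 := (TC psiT _ _ t e5).1
    rw [e3, e4] at e6
    calc C (1 / 2 : ℝ) * Tay psiT yL t ^ 2 * (C (9 / 4 : ℝ) * D (D (Tay psiT (YL q) t)) -
        C (1 / 4 : ℝ) * Tay psiT (YL q) t)
        = (C (1 / 2 : ℝ) * (Tay psiT yL t * Tay psiT yL t)) *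
        (C (9 / 4 : ℝ) * D (D (Tay psiT (YL q) t)) - C (1 / 4 : ℝ) * Tay psiT (YL q) t) := by
          rw [sq]
      _ = Tay psiT (YL q) t * (Tay psiT (YL q) t * Tay psiT (YL q) t) - Tay psiT (YL q) t := e6
      _ = Tay psiT (YL q) t ^ 3 - Tay psiT (YL q) t := by
          rw [show Tay psiT (YL q) t ^ 3 =
            Tay psiT (YL q) t * (Tay psiT (YL q) t * Tay psiT (YL q) t) by ring]

end TWP
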