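import Pool.Agent.TWP.StB
import Pool.Agent.TWP.KNrm

set_option autoImplicit false

/-! TWP, module BLJ: jets of the error, left tail. -/

namespace TWP

open PowerSeries Finset

namespace BLJaux

theorem D_sub' (A B : ℝ⟦X⟧) : D (A - B) = D A - D B := by
  unfold D; exact map_sub _ A B

theorem D_mul (A B : ℝ⟦X⟧) : D (A * B) = D A * B + A * D B := by
  unfold D
  rw [Derivation.leibniz, smul_eq_mul, smul_eq_mul]; ring

/-- norm of the nonlinear term -/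
theorem nrmG (m : ℕ) (Q E R : ℝ⟦X⟧) (ρ : ℝ) (hQ : nrm m (1 / 2) Q ≤ 1 / 1000)
    (hE : nrm m (1 / 2) E ≤ 1 / 1000) (hR : nrm m (1 / 2) R ≤ ρ) :
    nrm m (1 / 2) ((C (2 : ℝ) + C (6 : ℝ) * Q + C (3 : ℝ) * (Q * Q)) * E +
      C (3 : ℝ) * ((1 + Q) * (E * E)) + E * (E * E) - R) ≤
      (20102 / 10000) * nrm m (1 / 2) E + ρ := by
  have hr : (0 : ℝ) ≤ 1 / 2 := by norm_num
  have q0 := nrm_nonneg m hr Q
  have e0 := nrm_nonneg m hr E
  generalize ha : nrm m (1 / 2) Q = a at *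
  generalize hb : nrm m (1 / 2) E = b at *
  have h1 : nrm m (1 / 2) (Q * Q) ≤ a * a := by
    have := nrm_mul m hr Q Q; rwa [ha] at this
  have h2 : nrm m (1 / 2) (C (2 : ℝ) + C (6 : ℝ) * Q + C (3 : ℝ) * (Q * Q)) ≤ 2007 / 1000 := by
    have h3 := nrm_add m hr (C (2 : ℝ) + C (6 : ℝ) * Q) (C (3 : ℝ) * (Q * Q))
    have h4 := nrm_add m hr (C (2 : ℝ)) (C (6 : ℝ) * Q)
    rw [nrm_C_mul, nrm_C] at h4
    rw [nrm_C_mul] at h3
    rw [ha] at h4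
    rw [abs_of_pos (by norm_num : (0 : ℝ) < 2), abs_of_pos (by norm_num : (0 : ℝ) < 6)] at h4
    rw [abs_of_pos (by norm_num : (0 : ℝ) < 3)] at h3
    nlinarith
  have h5 : nrm m (1 / 2) ((C (2 : ℝ) + C (6 : ℝ) * Q + C (3 : ℝ) * (Q * Q)) * E) ≤
      2007 / 1000 * b := by
    refine (nrm_mul m hr _ _).trans ?_
    rw [hb]
    exact mul_le_mul_of_nonneg_right h2 e0
  have hEE : nrm m (1 / 2) (E * E) ≤ b * b := by
    have := nrm_mul m hr E E; rwa [hb] at this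
  have h6 : nrm m (1 / 2) (1 + Q) ≤ 1001 / 1000 := by
    have := nrm_add m hr 1 Q
    rw [nrm_one, ha] at this
    linarith
  have h7 : nrm m (1 / 2) (C (3 : ℝ) * ((1 + Q) * (E * E))) ≤ 31 / 10000 * b := by
    rw [nrm_C_mul, abs_of_pos (by norm_num : (0 : ℝ) < 3)]
    have h8 : nrm m (1 / 2) ((1 + Q) * (E * E)) ≤ 1001 / 1000 * (b * b) :=
      (nrm_mul m hr _ _).trans (mul_le_mul h6 hEE (nrm_nonneg m hr _) (by norm_num))
    have h9 : b * b ≤ 1 / 1000 * b := mul_le_mul_of_nonneg_right hE e0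
    linarith
  have h10 : nrm m (1 / 2) (E * (E * E)) ≤ 1 / 1000000 * b := by
    refine (nrm_mul m hr _ _).trans ?_
    rw [hb]
    have h9 : b * b ≤ 1 / 1000000 := by nlinarith
    have h11 : nrm m (1 / 2) (E * E) ≤ 1 / 1000000 := hEE.trans h9
    calc b * nrm m (1 / 2) (E * E) ≤ b * (1 / 1000000) := mul_le_mul_of_nonneg_left h11 e0
      _ = _ := by ring
  have k1 := nrm_sub m hr ((C (2 : ℝ) + C (6 : ℝ) * Q + C (3 : ℝ) * (Q * Q)) * E +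
      C (3 : ℝ) * ((1 + Q) * (E * E)) + E * (E * E)) R
  have k2 := nrm_add m hr ((C (2 : ℝ) + C (6 : ℝ) * Q + C (3 : ℝ) * (Q * Q)) * E +
      C (3 : ℝ) * ((1 + Q) * (E * E))) (E * (E * E))
  have k3 := nrm_add m hr ((C (2 : ℝ) + C (6 : ℝ) * Q + C (3 : ℝ) * (Q * Q)) * E)
      (C (3 : ℝ) * ((1 + Q) * (E * E)))
  linarith

end BLJaux

open BLJaux in
theorem t_BLJ (hEX : S_BEX) (hPN : S_BPN) (hGJ : S_BGJ) : S_BLJ := by
  intro y ρ e0 υ Y P R hy hy2 hυ hυ0 hρ he0 hY hP hP1 hR hE0 hsmall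
  have hr : (0 : ℝ) ≤ 1 / 2 := by norm_num
  obtain ⟨-, hinv, -, hn⟩ := hEX υ hυ (by rw [hυ0]; exact hy)
  rw [hυ0] at hn
  obtain ⟨hprod, hexp, -⟩ := hPN
  set η : ℝ⟦X⟧ := υ⁻¹ with hη
  set E : ℝ⟦X⟧ := Y - P with hE
  set F : ℝ⟦X⟧ := υ * D E with hF
  have hyi : 0 < y⁻¹ := inv_pos.2 hy
  have nυ : ∀ m : ℕ, nrm m (1 / 2) υ ≤ 33 / 20 * y := fun m => by
    have := (hn m (1 / 2) hr).1
    nlinarith
  have nη : ∀ m : ℕ, nrm m (1 / 2) η ≤ 33 / 20 * y⁻¹ := fun m => by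
    have := (hn m (1 / 2) hr).2
    nlinarith
  -- the two equations
  have hDE : D E = η * F := by
    rw [hF, ← mul_assoc, mul_comm η υ, hinv, one_mul]
  set Q : ℝ⟦X⟧ := P - 1 with hQ
  set G : ℝ⟦X⟧ := (C (2 : ℝ) + C (6 : ℝ) * Q + C (3 : ℝ) * (Q * Q)) * E +
      C (3 : ℝ) * ((1 + Q) * (E * E)) + E * (E * E) - R with hG
  have c2 : (C (2 : ℝ) : ℝ⟦X⟧) = 2 := map_ofNat C 2
  have c3 : (C (3 : ℝ) : ℝ⟦X⟧) = 3 := map_ofNat C 3
  have c6 : (C (6 : ℝ) : ℝ⟦X⟧) = 6 := map_ofNat C 6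
  have hG2 : C (1 / 2 : ℝ) * υ ^ 2 * (C (9 / 4 : ℝ) * D (D E) - C (1 / 4 : ℝ) * E) = G := by
    have e1 : D (D E) = D (D Y) - D (D P) := by rw [hE, D_sub', D_sub']
    rw [e1, hG, c2, c3, c6, hQ]
    linear_combination hY - hP
  have hc1 : (C (8 / 9 : ℝ) : ℝ⟦X⟧) * C (1 / 2 : ℝ) * C (9 / 4 : ℝ) = 1 := by
    rw [← map_mul, ← map_mul, ← map_one C]; congr 1; norm_num
  have hc2 : (C (8 / 9 : ℝ) : ℝ⟦X⟧) * C (1 / 2 : ℝ) * C (1 / 4 : ℝ) = C (1 / 9 : ℝ) := by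
    rw [← map_mul, ← map_mul]; congr 1; norm_num
  have hDD : υ * D (D E) = C (8 / 9 : ℝ) * (η * G) + C (1 / 9 : ℝ) * (υ * E) := by
    rw [← hG2]
    linear_combination -((C (8 / 9 : ℝ) * C (1 / 2 : ℝ) * C (9 / 4 : ℝ) * υ * D (D E) -
      C (8 / 9 : ℝ) * C (1 / 2 : ℝ) * C (1 / 4 : ℝ) * υ * E) * hinv + υ * D (D E) * hc1 -
      υ * E * hc2)
  have hDF : D F = -F + C (1 / 9 : ℝ) * (υ * E) + C (8 / 9 : ℝ) * (η * G) := by
    rw [hF, D_mul, hυ, hDD]; ring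
  have hΛ : 1 ≤ 3 / y := by
    rw [le_div_iff₀ hy]; linarith
  have hβ : 0 ≤ 3 / 2 * (ρ / y) := by positivity
  -- Gronwall
  have hu : (1 : ℝ) ≤ 3 / (256 * y) := by
    rw [le_div_iff₀ (by positivity)]; linarith
  have hpr := (hprod (3 / (256 * y)) hu).2
  have hL : 256 * (3 / (256 * y)) = 3 / y := by
    field_simp
  rw [hL] at hpr
  have hb : (e0 + 3 / 2 * (ρ / y)) * ∏ j ∈ range 16, (1 + 1 / 2 * (3 / y) / ((j : ℝ) + 1)) ≤
      (e0 + 3 / 2 * (ρ / y)) * (3 / (256 * y)) ^ 16 * (7 * 10 ^ 20) := by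
    rw [mul_assoc]
    exact mul_le_mul_of_nonneg_left hpr (by positivity)
  have hc0 : |coeff 0 E| + |coeff 0 F| ≤ e0 := by
    have e1 : coeff 0 F = y * coeff 0 (D E) := by
      rw [hF, ← hυ0]
      simp [coeff_mul]
    rw [e1]; exact hE0
  have hmain := hGJ 16 (1 / 2) (3 / y) (3 / 2 * (ρ / y)) e0 (1 / 1000) E F (by norm_num) hΛ hβ he0
    hc0 (hb.trans hsmall) ?_
  · have hF0 := nrm_nonneg 16 hr F
    linarith
  · intro m hm hN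
    have nE0 := nrm_nonneg m hr E
    have nF0 := nrm_nonneg m hr F
    have hE' : nrm m (1 / 2) E ≤ 1 / 1000 := by linarith
    have hQm : nrm m (1 / 2) Q ≤ 1 / 1000 := (nrm_mono_M hm.le hr _).trans hP1
    have hRm : nrm m (1 / 2) R ≤ ρ := (nrm_mono_M hm.le hr _).trans hR
    have hGn := nrmG m Q E R ρ hQm hE' hRm
    rw [← hG] at hGn
    have d1 : nrm m (1 / 2) (D E) ≤ 33 / 20 * y⁻¹ * nrm m (1 / 2) F := by
      rw [hDE]
      exact (nrm_mul m hr _ _).trans (mul_le_mul_of_nonneg_right (nη m) nF0)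
    have d2 : nrm m (1 / 2) (υ * E) ≤ 33 / 20 * y * nrm m (1 / 2) E :=
      (nrm_mul m hr _ _).trans (mul_le_mul_of_nonneg_right (nυ m) nE0)
    have d3 : nrm m (1 / 2) (η * G) ≤
        33 / 20 * y⁻¹ * (20102 / 10000 * nrm m (1 / 2) E + ρ) :=
      (nrm_mul m hr _ _).trans (mul_le_mul (nη m) hGn (nrm_nonneg m hr _) (by positivity))
    have d4 : nrm m (1 / 2) (D F) ≤ nrm m (1 / 2) F + 1 / 9 * nrm m (1 / 2) (υ * E) +
        8 / 9 * nrm m (1 / 2) (η * G) := by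
      rw [hDF]
      have k1 := nrm_add m hr (-F + C (1 / 9 : ℝ) * (υ * E)) (C (8 / 9 : ℝ) * (η * G))
      have k2 := nrm_add m hr (-F) (C (1 / 9 : ℝ) * (υ * E))
      rw [nrm_neg, nrm_C_mul, abs_of_pos (by norm_num : (0 : ℝ) < 1 / 9)] at k2
      rw [nrm_C_mul, abs_of_pos (by norm_num : (0 : ℝ) < 8 / 9)] at k1
      linarith
    have hyy : y * y⁻¹ = 1 := mul_inv_cancel₀ hy.ne'
    have hy1 : 1 ≤ 135 / 100 * y⁻¹ := by
      have : (256 / 3 : ℝ) ≤ y⁻¹ := by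
        rw [le_inv_comm₀ (by norm_num) hy]; linarith
      linarith
    have hy3 : 1 / 9 * (33 / 20 * y) ≤ 5 / 100 * y⁻¹ := by
      have : (256 / 3 : ℝ) ≤ y⁻¹ := by
        rw [le_inv_comm₀ (by norm_num) hy]; linarith
      linarith
    have m1 : 1 * nrm m (1 / 2) F ≤ 135 / 100 * y⁻¹ * nrm m (1 / 2) F :=
      mul_le_mul_of_nonneg_right hy1 nF0
    have m2 : 1 / 9 * (33 / 20 * y) * nrm m (1 / 2) E ≤ 5 / 100 * y⁻¹ * nrm m (1 / 2) E :=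
      mul_le_mul_of_nonneg_right hy3 nE0
    have m3 : 0 ≤ y⁻¹ * nrm m (1 / 2) E := by positivity
    have m4 : 0 ≤ y⁻¹ * ρ := by positivity
    rw [div_eq_mul_inv 3 y, div_eq_mul_inv ρ y]
    nlinarith

end TWP
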