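import Pool.Agent.TWP.StF

/-! TWP_TI: the Taylor series (functor `Tay`) of inverses and quotients. -/

namespace TWP

open PowerSeries Filter Topology
open scoped ContDiff

theorem TI : S_TC → S_TS → S_TA → S_TM → S_TI := by
  intro hTC _ hTA hTM ψ t hψ f g hf hg hgt
  have hginv : ContDiffAt ℝ ∞ (fun s => (g s)⁻¹) t := hg.inv hgt
  have hne : ∀ᶠ s in 𝓝 t, g s ≠ 0 := hg.continuousAt.eventually_ne hgt
  have hone : (fun s => (g s)⁻¹ * g s) =ᶠ[𝓝 t] (fun _ => (1 : ℝ)) := by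
    filter_upwards [hne] with s hs
    exact inv_mul_cancel₀ hs
  have h1 : Tay ψ (fun s => (g s)⁻¹) t * Tay ψ g t = 1 := by
    rw [← hTM ψ t hψ (fun s => (g s)⁻¹) g hginv hg, (hTC ψ _ _ t hone).1, (hTA ψ t hψ).1 1]
    exact map_one C
  have hc : constantCoeff (Tay ψ g t) ≠ 0 := by
    rw [← coeff_zero_eq_constantCoeff_apply, (hTC ψ g g t (EventuallyEq.refl _ _)).2.1]
    exact hgt
  have hinv : Tay ψ (fun s => (g s)⁻¹) t = (Tay ψ g t)⁻¹ :=
    (PowerSeries.eq_inv_iff_mul_eq_one hc).2 h1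
  refine ⟨hinv, ?_⟩
  have hq : (fun s => f s / g s) = fun s => f s * (g s)⁻¹ := by
    funext s
    exact div_eq_mul_inv _ _
  rw [hq, hTM ψ t hψ f (fun s => (g s)⁻¹) hf hginv, hinv]

end TWP
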