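import Pool.Agent.TWP.StB
import Pool.Agent.TWP.FTC
import Pool.Agent.TWP.FTS
import Pool.Agent.TWP.FTA
import Pool.Agent.TWP.FTM
import Pool.Agent.TWP.FTI
import Pool.Agent.TWP.FQS

/-! TWP, module BLM (helper14): the series of `m/t²` on the left. -/

set_option autoImplicit false

namespace TWP.BLMaux

open PowerSeries Filter Topology
open scoped ContDiff

theorem hTA : S_TA := TA TC TS
theorem hTM : S_TM := TM TC TS hTA
theorem hTI : S_TI := TI TC TS hTA hTM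

theorem sm_psi (t : ℝ) : ContDiffAt ℝ ∞ psiT t := contDiffAt_const.mul contDiffAt_id

/-- `f` is smooth at `t` with the series `S`. -/
def Rp (t : ℝ) (f : ℝ → ℝ) (S : ℝ⟦X⟧) : Prop := ContDiffAt ℝ ∞ f t ∧ Tay psiT f t = S

variable {t : ℝ} {f g : ℝ → ℝ} {S T : ℝ⟦X⟧}

theorem rconst (t c : ℝ) : Rp t (fun _ => c) (C c) := ⟨contDiffAt_const, (hTA psiT t (sm_psi t)).1 c⟩

theorem radd (h : Rp t f S) (k : Rp t g T) : Rp t (fun s => f s + g s) (S + T) :=
  ⟨h.1.add k.1, by rw [(hTA psiT t (sm_psi t)).2.1 f g h.1 k.1, h.2, k.2]⟩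

theorem rsub (h : Rp t f S) (k : Rp t g T) : Rp t (fun s => f s - g s) (S - T) :=
  ⟨h.1.sub k.1, by rw [(hTA psiT t (sm_psi t)).2.2 f g h.1 k.1, h.2, k.2]⟩

theorem rmul (h : Rp t f S) (k : Rp t g T) : Rp t (fun s => f s * g s) (S * T) :=
  ⟨h.1.mul k.1, by rw [hTM psiT t (sm_psi t) f g h.1 k.1, h.2, k.2]⟩

theorem rinv (k : Rp t g T) (h0 : g t ≠ 0) : Rp t (fun s => (g s)⁻¹) T⁻¹ :=
  ⟨k.1.inv h0, by rw [(hTI psiT t (sm_psi t) g g k.1 k.1 h0).1, k.2]⟩

theorem rcongr (h : Rp t f S) (e : g =ᶠ[𝓝 t] f) : Rp t g S :=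
  ⟨h.1.congr_of_eventuallyEq e, by rw [(TC psiT g f t e).1, h.2]⟩

theorem rD (h : Rp t f S) : Rp t (dl psiT f) (D S) :=
  ⟨TS.2.1 psiT f t (sm_psi t) h.1, by
    rw [← h.2, (TC psiT f f t EventuallyEq.rfl).2.2]⟩

theorem rval (h : Rp t f S) : coeff 0 S = f t := by
  rw [← h.2, (TC psiT f f t EventuallyEq.rfl).2.1]

theorem rsq (h : Rp t f S) : Rp t (fun s => f s ^ 2) (S ^ 2) := by
  have := rmul h h
  rw [← sq] at this
  refine rcongr this (Eventually.of_forall fun s => ?_)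
  show f s ^ 2 = f s * f s
  ring

/-- The root of `-s/2`. -/
theorem root {s : ℝ} (hs : s < 0) : ∃ r : ℝ, 0 < r ∧ Real.sqrt (-s / 2) = r ∧ s = -2 * r ^ 2 ∧
    yL s = 1 / (2 * r ^ 3) := by
  have h0 : 0 < -s / 2 := by linarith
  refine ⟨Real.sqrt (-s / 2), Real.sqrt_pos.2 h0, rfl, ?_, ?_⟩
  · rw [Real.sq_sqrt h0.le]; ring
  · set r := Real.sqrt (-s / 2) with hr
    have hrp : 0 < r := Real.sqrt_pos.2 h0
    have h2 : s = -2 * r ^ 2 := by rw [hr, Real.sq_sqrt h0.le]; ring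
    have h3 : Real.sqrt (-s) = Real.sqrt 2 * r := by
      have : -s = 2 * r ^ 2 := by rw [h2]; ring
      rw [this, Real.sqrt_mul (by norm_num), Real.sqrt_sq hrp.le]
    have h4 : Real.sqrt 2 ≠ 0 := by positivity
    unfold yL
    rw [h3]
    have : -s = 2 * r ^ 2 := by rw [h2]; ring
    rw [this]
    field_simp

theorem smY (q l : ℝ → ℝ) (hQ : QL q l) {t : ℝ} (ht : t < 0) : ContDiffAt ℝ ∞ (YL q) t := by
  have h0 : -t / 2 ≠ 0 := by
    have : 0 < -t / 2 := by linarith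
    exact this.ne'
  have h1 : ContDiffAt ℝ ∞ (fun s : ℝ => Real.sqrt (-s / 2)) t :=
    (contDiffAt_id.neg.div_const 2).sqrt h0
  have h2 : Real.sqrt (-t / 2) ≠ 0 := by
    have : 0 < -t / 2 := by linarith
    exact (Real.sqrt_pos.2 this).ne'
  exact (QS q l hQ).1.contDiffAt.div h1 h2

theorem smy {t : ℝ} (ht : t < 0) : ContDiffAt ℝ ∞ yL t := by
  have h0 : -t ≠ 0 := by linarith
  have h1 : ContDiffAt ℝ ∞ (fun s : ℝ => Real.sqrt (-s)) t := contDiffAt_id.neg.sqrt h0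
  have h2 : -t * Real.sqrt (-t) ≠ 0 := by
    have : 0 < -t := by linarith
    have := Real.sqrt_pos.2 this
    positivity
  exact contDiffAt_const.div (contDiffAt_id.neg.mul h1) h2

theorem dlY (q l : ℝ → ℝ) (hQ : QL q l) {s : ℝ} (hs : s < 0) :
    dl psiT (YL q) s = 2 / 3 * ((s * l s - 1 / 2) * YL q s) := by
  obtain ⟨r, hr, h1, h2, -⟩ := root hs
  have h0 : -s / 2 ≠ 0 := by
    have : 0 < -s / 2 := by linarith
    exact this.ne'
  have hd : HasDerivAt (fun s : ℝ => Real.sqrt (-s / 2)) (-1 / 2 / (2 * Real.sqrt (-s / 2))) s :=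
    ((hasDerivAt_id s).neg.div_const 2).sqrt h0
  have hY : HasDerivAt (YL q) ((l s * q s * Real.sqrt (-s / 2) -
      q s * (-1 / 2 / (2 * Real.sqrt (-s / 2)))) / Real.sqrt (-s / 2) ^ 2) s := by
    refine (hQ.dq s).div hd ?_
    rw [h1]; exact hr.ne'
  have e : psiT s = 2 / 3 * (-2 * r ^ 2) := by
    unfold psiT; rw [← h2]
  have e2 : s * l s = -2 * r ^ 2 * l s := by rw [← h2]
  unfold dl
  rw [hY.deriv, e, e2]
  unfold YL
  rw [h1]
  field_simp
  ring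

/-- `g/x`. -/
noncomputable def Gf (q l : ℝ → ℝ) : ℝ → ℝ := fun s =>
  1 - 1 / 2 * YL q s ^ 2 + 1 / 2 * yL s ^ 2 * (s * l s) ^ 2

theorem gf_eq (q l : ℝ → ℝ) {s r : ℝ} (hr : 0 < r) (h1 : Real.sqrt (-s / 2) = r)
    (h2 : s = -2 * r ^ 2) (h3 : yL s = 1 / (2 * r ^ 3)) : gf q l s = 2 * r ^ 2 * Gf q l s := by
  have e2 : s * l s = -2 * r ^ 2 * l s := by rw [← h2]
  have e3 : gf q l s = l s ^ 2 - (-2 * r ^ 2) - q s ^ 2 := by
    unfold gf; rw [← h2]
  unfold Gf YL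
  rw [e3, h1, h3, e2]
  field_simp
  ring

/-- `m/t²`. -/
noncomputable def mu (two : Bool) (q l : ℝ → ℝ) : ℝ → ℝ := fun s =>
  if two then 1 / 2 * (YL q s ^ 2 * Gf q l s) - 1 / 2 * yL s ^ 2 * (Gf q l s)⁻¹
  else 1 / 4 * (YL q s ^ 2 * Gf q l s + yL s * YL q s) -
    1 / 2 * yL s ^ 2 * ((yL s * (s * l s) + YL q s) * (yL s + YL q s * Gf q l s)⁻¹)

theorem m_eq (two : Bool) (q l : ℝ → ℝ) {s : ℝ} (hs : s < 0) :
    (if two then mTwo q l else mOne q l) s = s ^ 2 * mu two q l s := by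
  obtain ⟨r, hr, h1, h2, h3⟩ := root hs
  have hg := gf_eq q l hr h1 h2 h3
  have e2 : s * l s = -2 * r ^ 2 * l s := by rw [← h2]
  have e4 : s ^ 2 = 4 * r ^ 4 := by rw [h2]; ring
  have hY : YL q s = q s / r := by unfold YL; rw [h1]
  cases two with
  | true =>
    simp only [if_true]
    unfold mTwo mu
    simp only [if_true]
    rw [hg, hY, h3, e4, one_div (2 * r ^ 2 * Gf q l s), mul_inv]
    generalize (Gf q l s)⁻¹ = Gi
    field_simp
    ring
  | false =>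
    simp only [Bool.false_eq_true, if_false]
    unfold mOne mu
    simp only [Bool.false_eq_true, if_false]
    rw [hg, hY, h3, e4, e2]
    have e5 : 1 / (2 * r ^ 3) + q s / r * Gf q l s =
        (1 + q s * (2 * r ^ 2 * Gf q l s)) / (2 * r ^ 3) := by
      field_simp
    rw [e5, inv_div, div_eq_mul_inv (l s - q s), div_eq_mul_inv (2 * r ^ 3)]
    generalize (1 + q s * (2 * r ^ 2 * Gf q l s))⁻¹ = Gi
    field_simp
    ring

theorem neg_nhds {t : ℝ} (ht : t < 0) : ∀ᶠ s in 𝓝 t, s < 0 := eventually_lt_nhds ht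

theorem rH (q l : ℝ → ℝ) (hQ : QL q l) {t : ℝ} (ht : t < 0) :
    Rp t (fun s => s * l s) (HLs (Tay psiT (YL q) t)) := by
  have rY : Rp t (YL q) (Tay psiT (YL q) t) := ⟨smY q l hQ ht, rfl⟩
  have hY0 : ∀ s : ℝ, s < 0 → YL q s ≠ 0 := by
    intro s hs
    obtain ⟨r, hr, h1, -, -⟩ := root hs
    unfold YL
    rw [h1]
    exact (div_pos (hQ.pos s) hr).ne'
  have h := radd (rconst t (1 / 2)) (rmul (rconst t (3 / 2)) (rmul (rD rY) (rinv rY (hY0 t ht))))
  refine rcongr h ?_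
  filter_upwards [neg_nhds ht] with s hs
  rw [dlY q l hQ hs]
  have := hY0 s hs
  field_simp
  ring

theorem rG (q l : ℝ → ℝ) (hQ : QL q l) {t : ℝ} (ht : t < 0) :
    Rp t (Gf q l) (GLs (Tay psiT (YL q) t) (Tay psiT yL t)) := by
  have rY : Rp t (YL q) (Tay psiT (YL q) t) := ⟨smY q l hQ ht, rfl⟩
  have ry : Rp t yL (Tay psiT yL t) := ⟨smy ht, rfl⟩
  have h := radd (rsub (rconst t 1) (rmul (rconst t (1 / 2)) (rsq rY)))
    (rmul (rmul (rconst t (1 / 2)) (rsq ry)) (rsq (rH q l hQ ht)))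
  rw [map_one] at h
  exact h

theorem rmu (two : Bool) (q l : ℝ → ℝ) (hQ : QL q l) {t : ℝ} (ht : t < 0)
    (h0 : if two then Gf q l t ≠ 0 else yL t + YL q t * Gf q l t ≠ 0) :
    Rp t (mu two q l) (muL two (Tay psiT (YL q) t) (Tay psiT yL t)) := by
  have rY : Rp t (YL q) (Tay psiT (YL q) t) := ⟨smY q l hQ ht, rfl⟩
  have ry : Rp t yL (Tay psiT yL t) := ⟨smy ht, rfl⟩
  have rg := rG q l hQ ht
  have rh := rH q l hQ ht
  cases two with
  | true =>
    simp only [if_true] at h0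
    have h := rsub (rmul (rconst t (1 / 2)) (rmul (rsq rY) rg))
      (rmul (rmul (rconst t (1 / 2)) (rsq ry)) (rinv rg h0))
    unfold muL mu
    simp only [if_true]
    exact h
  | false =>
    simp only [Bool.false_eq_true, if_false] at h0
    have rd := radd ry (rmul rY rg)
    have h := rsub (rmul (rconst t (1 / 4)) (radd (rmul (rsq rY) rg) (rmul ry rY)))
      (rmul (rmul (rconst t (1 / 2)) (rsq ry)) (rmul (radd (rmul ry rh) rY) (rinv rd h0)))
    unfold muL mu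
    simp only [Bool.false_eq_true, if_false]
    exact h

theorem alpha (m μ : ℝ → ℝ) {t : ℝ} (ht : t < 0) {S : ℝ⟦X⟧} (hμ : Rp t μ S)
    (hm : ∀ s : ℝ, s < 0 → m s = s ^ 2 * μ s) :
    ContDiffAt ℝ ∞ m t ∧ Tay psiT (fun s => 2 / (-s) * toda m 1 s) t = C (4 : ℝ) * S + C (3 : ℝ) * D S := by
  have e : m =ᶠ[𝓝 t] fun s => s ^ 2 * μ s := by
    filter_upwards [neg_nhds ht] with s hs
    exact hm s hs
  refine ⟨((contDiffAt_id.pow 2).mul hμ.1).congr_of_eventuallyEq e, ?_⟩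
  have h := radd (rmul (rconst t 4) hμ) (rmul (rconst t 3) (rD hμ))
  refine (rcongr h ?_).2
  have hd : ∀ᶠ s in 𝓝 t, DifferentiableAt ℝ μ s := by
    have h1 : ContDiffAt ℝ 1 μ t := hμ.1.of_le (by exact_mod_cast le_top)
    filter_upwards [h1.eventually (by simp)] with s hs
    exact hs.differentiableAt (by simp)
  filter_upwards [neg_nhds ht, e.deriv, hd] with s hs h1 h2
  have h3 : HasDerivAt (fun s : ℝ => s ^ 2 * μ s) (2 * s * μ s + s ^ 2 * deriv μ s) s := by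
    have := HasDerivAt.fun_mul (hasDerivAt_pow 2 s) h2.hasDerivAt
    simpa using this
  show 2 / (-s) * (- deriv m s) = 4 * μ s + 3 * (psiT s * deriv μ s)
  rw [h1, h3.deriv]
  unfold psiT
  have : s ≠ 0 := hs.ne
  field_simp
  ring

end TWP.BLMaux

namespace TWP

open PowerSeries Filter Topology
open scoped ContDiff

theorem t_BLM (_hLF : S_BLF) : S_BLM := by
  intro q l t two hQ ht h0
  have rY : BLMaux.Rp t (YL q) (Tay psiT (YL q) t) := ⟨BLMaux.smY q l hQ ht, rfl⟩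
  have ry : BLMaux.Rp t yL (Tay psiT yL t) := ⟨BLMaux.smy ht, rfl⟩
  have rg := BLMaux.rG q l hQ ht
  have h1 : if two then BLMaux.Gf q l t ≠ 0 else yL t + YL q t * BLMaux.Gf q l t ≠ 0 := by
    cases two with
    | true =>
      simp only [if_true] at h0 ⊢
      rwa [BLMaux.rval rg] at h0
    | false =>
      simp only [Bool.false_eq_true, if_false] at h0 ⊢
      rwa [BLMaux.rval (BLMaux.radd ry (BLMaux.rmul rY rg))] at h0
  exact BLMaux.alpha _ _ ht (BLMaux.rmu two q l hQ ht h1) fun s hs => BLMaux.m_eq two q l hs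

end TWP
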