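import Mathlib
import Pool.Agent.TWP.StB

set_option autoImplicit false

/-! TWP, block B: BLN (numbers, left). -/

namespace TWP

open PowerSeries Finset Filter Topology

namespace BLNaux

open Pool.Agent.TWP.Tail

theorem ev_abs (l : List ℤ) (w W : ℝ) (h0 : 0 ≤ w) (hW : w ≤ W) :
    |ev l w| ≤ ev (l.map (fun a => |a|)) W ∧ 0 ≤ ev (l.map (fun a => |a|)) W := by
  induction l with
  | nil => simp [ev]
  | cons a l ih =>
    simp only [List.map_cons, ev]
    obtain ⟨h1, h2⟩ := ih
    have h3 : |w * ev l w| ≤ W * ev (l.map (fun a => |a|)) W := by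
      rw [abs_mul, abs_of_nonneg h0]
      exact mul_le_mul hW h1 (abs_nonneg _) (h0.trans hW)
    have h4 : (((|a| : ℤ)) : ℝ) = |(a : ℝ)| := by push_cast; rfl
    rw [h4]
    refine ⟨(abs_add_le _ _).trans (by linarith), ?_⟩
    have := mul_nonneg (h0.trans hW) h2
    have := abs_nonneg (a : ℝ)
    linarith

theorem diff (l m : List ℤ) (h : l.take 25 = m) (w W B : ℝ) (h0 : 0 ≤ w) (hW : w ≤ W)
    (hB : ev ((l.drop 25).map (fun a => |a|)) W ≤ B * 16 ^ 25) :
    |ev l w - ev m w| ≤ B * (16 * w) ^ 25 := by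
  rw [ev_split 25 l w, h, add_sub_cancel_left, abs_mul, abs_of_nonneg (pow_nonneg h0 25)]
  calc w ^ 25 * |ev (l.drop 25) w| ≤ w ^ 25 * (B * 16 ^ 25) :=
        mul_le_mul_of_nonneg_left ((ev_abs _ w W h0 hW).1.trans hB) (pow_nonneg h0 25)
    _ = B * (16 * w) ^ 25 := by rw [mul_pow]; ring

theorem take1 : K.cY.take 25 = cY := by decide +kernel

theorem take2 : (thL 0 K.cY).take 25 = thL 0 cY := by decide +kernel

def l1 : List ℤ :=
  [304682747572144879999681014967730450265909521627583881821034278321830815432944507872332929272,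
   13711945570180079948753164604786667417790031170014235907217804736024404843252203697440017908271896,
   667442795146642255734577557918304143581690111891256704286845390507283821479680912227793396905497454128,
   35035413165725899303487984128453066983193696736313180162957033590558767474080937860749205746045056368879304,
   1977819434134462363222331397119024740082015919201035496464824644971747849122563183380705475112752945953935767472,
   119768848874686942511192815746007138979689366609411869377440431505217788611196110232049340657358339347626337039484496]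

def l2 : List ℤ :=
  [7617068689303621999992025374193261256647738040689597045525856958045770385823612696808323231800,
   356510584824682078667582279724453352862540810420370133587662923136634525924557296133440465615069296,
   18020955468959340904833594063794211876705633021063931015744825543696663179951384630150421716448431261456,
   980991568640325180497663555596685875529423508616769044562796940535645489274266260100977760889261578328620512,
   57356763589899408533447610516451717462378461656830029397479914704180687624554332318040458778269835432664137256688,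
   3593065466240608275335784472380214169390680998282356081323212945156533658335883306961480219720750180428790111184534880]

theorem drop1 : (K.cY.drop 25).map (fun a => |a|) = l1 := by decide +kernel

theorem drop2 : ((thL 0 K.cY).drop 25).map (fun a => |a|) = l2 := by decide +kernel

theorem num1 : ev l1 (9 / 2097152) ≤ 301 * 10 ^ 60 * 16 ^ 25 := by
  simp only [l1, ev]
  norm_num

theorem num2 : ev l2 (9 / 2097152) ≤ 9030 * 10 ^ 60 * 16 ^ 25 := by
  simp only [l2, ev]
  norm_num

theorem part1 (y : ℝ) (hy : 0 < y) (hy1 : y ≤ 3 / 256) :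
    (4 * 10 ^ 63 * (y ^ 2 / 2) ^ 25 + 3 / 2 * (11 * 10 ^ 87 * y ^ 62 / y)) *
      (3 / (256 * y)) ^ 16 * (7 * 10 ^ 20) ≤ 3 / 10 ^ 9 := by
  have e1 : (4 * 10 ^ 63 * (y ^ 2 / 2) ^ 25 + 3 / 2 * (11 * 10 ^ 87 * y ^ 62 / y)) *
      (3 / (256 * y)) ^ 16 * (7 * 10 ^ 20) =
      (4 * 10 ^ 63 / 2 ^ 25 * y ^ 34 + 3 / 2 * (11 * 10 ^ 87) * y ^ 45) * (3 / 256) ^ 16 *
        (7 * 10 ^ 20) := by
    have hy0 : y ≠ 0 := hy.ne'
    have a1 : (3 / (256 * y)) ^ 16 = (3 / 256 : ℝ) ^ 16 * (1 / y ^ 16) := by
      rw [show 3 / (256 * y) = (3 / 256 : ℝ) * (1 / y) by field_simp, mul_pow, div_pow 1 y, one_pow]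
    have a2 : (y ^ 2 / 2) ^ 25 = y ^ 50 / 2 ^ 25 := by rw [div_pow, ← pow_mul]
    have a3 : y ^ 50 * (1 / y ^ 16) = y ^ 34 := by field_simp
    have a4 : y ^ 62 / y * (1 / y ^ 16) = y ^ 45 := by field_simp
    rw [a1, a2, ← a3, ← a4]
    ring
  rw [e1]
  have h1 : y ^ 34 ≤ (3 / 256) ^ 34 := pow_le_pow_left₀ hy.le hy1 34
  have h2 : y ^ 45 ≤ (3 / 256) ^ 45 := pow_le_pow_left₀ hy.le hy1 45
  have h3 : (4 * 10 ^ 63 / 2 ^ 25 * y ^ 34 + 3 / 2 * (11 * 10 ^ 87) * y ^ 45) ≤
      (4 * 10 ^ 63 / 2 ^ 25 * (3 / 256) ^ 34 + 3 / 2 * (11 * 10 ^ 87) * (3 / 256) ^ 45) := by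
    gcongr
  calc _ ≤ (4 * 10 ^ 63 / 2 ^ 25 * (3 / 256) ^ 34 + 3 / 2 * (11 * 10 ^ 87) * (3 / 256) ^ 45) *
        (3 / 256) ^ 16 * (7 * 10 ^ 20) := by gcongr
    _ ≤ (3 / 10 ^ 9 : ℝ) := by norm_num

end BLNaux

theorem t_BLN : S_BLN := by
  intro y hy hy1
  have hw0 : 0 ≤ y ^ 2 / 32 := by positivity
  have hw1 : y ^ 2 / 32 ≤ 9 / 2097152 := by
    have : y ^ 2 ≤ (3 / 256) ^ 2 := pow_le_pow_left₀ hy.le hy1 2
    norm_num at this ⊢
    linarith
  have e1 : y ^ 2 / 2 = 16 * (y ^ 2 / 32) := by ring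
  refine ⟨BLNaux.part1 y hy hy1, ?_, ?_⟩
  · rw [e1]
    exact BLNaux.diff _ _ BLNaux.take1 _ _ _ hw0 hw1 (by rw [BLNaux.drop1]; exact BLNaux.num1)
  · have h := BLNaux.diff _ _ BLNaux.take2 _ _ _ hw0 hw1 (by rw [BLNaux.drop2]; exact BLNaux.num2)
    rw [Pool.Agent.TWP.Tail.ev_thL, Pool.Agent.TWP.Tail.ev_thL] at h
    rw [e1]
    simpa using h

end TWP
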