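import Pool.Agent.TWP.StB

/-! TWP, block B, module BLS: the step condition of TL, left. -/

set_option autoImplicit false

namespace TWP

open PowerSeries Finset Filter Topology
open scoped ContDiff

namespace BLSaux

lemma deriv_diff {a : ℝ → ℝ} {s : ℝ} (h : ContDiffAt ℝ 2 a s) : DifferentiableAt ℝ (deriv a) s := by
  have h1 : ContDiffAt ℝ 1 (fderiv ℝ a) s := h.fderiv_right (m := 1) (by norm_num)
  have h2 : ContDiffAt ℝ 1 (fun x => fderiv ℝ a x 1) s := h1.clm_apply contDiffAt_const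
  have h3 : (fun x => fderiv ℝ a x 1) = deriv a := by
    funext x
    exact fderiv_apply_one_eq_deriv
  rw [h3] at h2
  exact h2.differentiableAt (by norm_num)

lemma deriv_al {a : ℝ → ℝ} {s : ℝ} (hs : s < 0) (h : DifferentiableAt ℝ a s) :
    HasDerivAt (fun s => 2 / (-s) * a s) (2 / s ^ 2 * a s + 2 / (-s) * deriv a s) s := by
  have h1 : HasDerivAt (fun s : ℝ => 2 / (-s)) (2 / s ^ 2) s := by
    have h0 : HasDerivAt (fun s : ℝ => -s) (-1) s := (hasDerivAt_id s).neg
    have h2 := (hasDerivAt_const s (2 : ℝ)).div h0 (neg_ne_zero.mpr hs.ne)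
    have h3 : (0 * -s - 2 * -1) / (-s) ^ 2 = 2 / s ^ 2 := by
      rw [neg_sq]
      norm_num
    rw [← h3]
    exact h2
  exact h1.mul h.hasDerivAt

lemma lam {a : ℝ → ℝ} {s : ℝ} (hs : s < 0) (h : DifferentiableAt ℝ a s) (hpos : 0 < a s) :
    dl psiT (fun s => 2 / (-s) * a s) s / (2 / (-s) * a s) =
      2 / 3 * (s * (deriv a s / a s) - 1) := by
  unfold dl psiT
  rw [(deriv_al hs h).deriv]
  have h1 := hs.ne
  have h2 := hpos.ne'
  field_simp
  ring

lemma yL_sq {s : ℝ} (hs : s < 0) : yL s ^ 2 = 2 / (-s) ^ 3 := by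
  unfold yL
  have h1 : 0 < -s := by linarith
  rw [div_pow, mul_pow, Real.sq_sqrt (by norm_num), Real.sq_sqrt h1.le]
  congr 1

end BLSaux

theorem t_BLS : S_BLS := by
  intro a t ht ha hpos
  have hC2 : ∀ᶠ s in 𝓝 t, ContDiffAt ℝ 2 a s :=
    (ha.of_le (WithTop.coe_le_coe.mpr le_top)).eventually (by simp)
  have hpos' : ∀ᶠ s in 𝓝 t, 0 < a s := ha.continuousAt.eventually (lt_mem_nhds hpos)
  have hneg : ∀ᶠ s in 𝓝 t, s < 0 := Iio_mem_nhds ht
  have hL : ∀ᶠ s in 𝓝 t, dl psiT (fun s => 2 / (-s) * a s) s / (2 / (-s) * a s) =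
      2 / 3 * (s * (deriv a s / a s) - 1) := by
    filter_upwards [hC2, hpos', hneg] with s h1 h2 h3
    exact BLSaux.lam h3 (h1.differentiableAt (by norm_num)) h2
  filter_upwards [hC2, hpos', hneg, hL.eventually_nhds] with s h1 h2 h3 h4
  have hd : DifferentiableAt ℝ (fun s => deriv a s / a s) s :=
    (BLSaux.deriv_diff h1).div (h1.differentiableAt (by norm_num)) h2.ne'
  have e1 : deriv (fun s => dl psiT (fun s => 2 / (-s) * a s) s / (2 / (-s) * a s)) s =
      2 / 3 * (1 * (deriv a s / a s) + s * deriv (fun s => deriv a s / a s) s) := by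
    have h5 : (fun s => dl psiT (fun s => 2 / (-s) * a s) s / (2 / (-s) * a s)) =ᶠ[𝓝 s]
        fun s => 2 / 3 * (s * (deriv a s / a s) - 1) := h4
    rw [h5.deriv_eq]
    exact ((((hasDerivAt_id s).mul hd.hasDerivAt).sub_const 1).const_mul (2 / 3)).deriv
  have e2 : dl psiT (fun s => dl psiT (fun s => 2 / (-s) * a s) s / (2 / (-s) * a s)) s =
      2 / 3 * s * (2 / 3 * (1 * (deriv a s / a s) + s * deriv (fun s => deriv a s / a s) s)) := by
    conv_lhs => unfold dl
    have e3 := e1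
    unfold dl at e3
    rw [e3]
    rfl
  rw [e2, h4.self_of_nhds, div_pow, BLSaux.yL_sq h3]
  generalize deriv (fun s => deriv a s / a s) s = L1
  generalize deriv a s / a s = L0
  have h6 := h3.ne
  push_cast
  field_simp
  ring

end TWP
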