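import Pool.Agent.TWP.StB
import Pool.Agent.TWP.KNrm

set_option autoImplicit false

/-! TWP, module BNB: the norm of `evZ` through `nbK` (helper77). -/

namespace TWP

open PowerSeries Finset

theorem t_BNB : S_BNB := by
  intro M r ξ W l hr hW hξ
  have hW' : (0 : ℝ) < (W : ℝ) := by exact_mod_cast hW
  induction l with
  | nil =>
    simp [evZ, nrm_zero, K.nbK]
  | cons a l ih =>
    have h1 : nrm M r (evZ ξ (a :: l)) ≤ |(a : ℝ)| + nrm M r ξ * nrm M r (evZ ξ l) := by
      show nrm M r (C (a : ℝ) + ξ * evZ ξ l) ≤ _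
      refine (nrm_add M hr _ _).trans ?_
      rw [nrm_C]
      linarith [nrm_mul M hr ξ (evZ ξ l)]
    have h2 : 0 ≤ nrm M r (evZ ξ l) := nrm_nonneg M hr _
    have h3 : (0 : ℝ) ≤ (W : ℝ) ^ l.length := by positivity
    have h4 : ((K.nbK W (a :: l) : ℕ) : ℝ) = |(a : ℝ)| * (W : ℝ) ^ l.length + (K.nbK W l : ℝ) := by
      show ((a.natAbs * W ^ l.length + K.nbK W l : ℕ) : ℝ) = _
      push_cast
      rw [Nat.cast_natAbs]
      push_cast
      ring
    rw [h4, List.length_cons, pow_succ]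
    calc nrm M r (evZ ξ (a :: l)) * ((W : ℝ) ^ l.length * W)
        ≤ (|(a : ℝ)| + nrm M r ξ * nrm M r (evZ ξ l)) * ((W : ℝ) ^ l.length * W) :=
          mul_le_mul_of_nonneg_right h1 (by positivity)
      _ = W * (|(a : ℝ)| * (W : ℝ) ^ l.length) +
          (nrm M r ξ * W) * (nrm M r (evZ ξ l) * (W : ℝ) ^ l.length) := by ring
      _ ≤ W * (|(a : ℝ)| * (W : ℝ) ^ l.length) +
          1 * (nrm M r (evZ ξ l) * (W : ℝ) ^ l.length) := by
          have h5 := mul_le_mul_of_nonneg_right hξ (mul_nonneg h2 h3)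
          linarith
      _ ≤ W * (|(a : ℝ)| * (W : ℝ) ^ l.length + (K.nbK W l : ℝ)) := by
          rw [one_mul, mul_add]
          linarith

end TWP
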