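import Pool.Agent.TWP.StB
import Pool.Agent.TWP.KNrm
import Pool.Agent.TWP.TailC

/-! TWP, block B: the left polynomial and its defect (module BPL). -/

set_option autoImplicit false

namespace TWP

open PowerSeries Finset Filter Topology
open scoped ContDiff

namespace BPLaux

theorem D_C_mul (c : ℝ) (S : ℝ⟦X⟧) : D (C c * S) = C c * D S := by
  unfold D
  rw [Derivation.leibniz, PowerSeries.derivative_C, smul_zero, add_zero, smul_eq_mul]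

theorem D_mul (A B : ℝ⟦X⟧) : D (A * B) = A * D B + B * D A := by
  unfold D
  rw [Derivation.leibniz, smul_eq_mul, smul_eq_mul]

theorem D_zeta {υ : ℝ⟦X⟧} (h : D υ = -υ) :
    D (C (1 / 32 : ℝ) * υ ^ 2) = -(C 2 * (C (1 / 32 : ℝ) * υ ^ 2)) := by
  rw [D_C_mul, pow_two, D_mul, h]
  have h2 : (C (2 : ℝ) : ℝ⟦X⟧) = 2 := by
    rw [map_ofNat]
  rw [h2]
  ring

theorem nrm_pow (M : ℕ) {r : ℝ} (hr : 0 ≤ r) (A : ℝ⟦X⟧) (n : ℕ) :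
    nrm M r (A ^ n) ≤ nrm M r A ^ n := by
  induction n with
  | zero => rw [pow_zero, nrm_one, pow_zero]
  | succ n ih =>
    rw [pow_succ, pow_succ]
    exact (nrm_mul M hr _ _).trans (mul_le_mul_of_nonneg_right ih (nrm_nonneg M hr A))

theorem evZ_drop (ξ : ℝ⟦X⟧) (n : ℕ) : ∀ l : List ℤ, (∀ a ∈ l.take n, a = 0) →
    evZ ξ l = ξ ^ n * evZ ξ (l.drop n) := by
  induction n with
  | zero =>
    intro l _
    rw [pow_zero, one_mul, List.drop_zero]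
  | succ n ih =>
    intro l hl
    cases l with
    | nil =>
      rw [List.drop_nil]
      show (0 : ℝ⟦X⟧) = ξ ^ (n + 1) * 0
      rw [mul_zero]
    | cons a l =>
      have ha : a = 0 := hl a (by rw [List.take_succ_cons]; exact List.mem_cons_self)
      have h1 := ih l fun b hb => hl b (by
        rw [List.take_succ_cons]
        exact List.mem_cons_of_mem _ hb)
      rw [List.drop_succ_cons]
      show C (a : ℝ) + ξ * evZ ξ l = ξ ^ (n + 1) * evZ ξ (l.drop n)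
      rw [ha, h1, Int.cast_zero, map_zero, zero_add, pow_succ]
      ring

theorem nrm_zeta (hEX : S_BEX) (hPN : S_BPN) {y : ℝ} {υ : ℝ⟦X⟧} (hy : 0 < y)
    (hD : D υ = -υ) (h0 : coeff 0 υ = y) :
    nrm 16 (1 / 2) (C (1 / 32 : ℝ) * υ ^ 2) ≤ 27225 / 320000 * y ^ 2 := by
  have hhalf : (0 : ℝ) ≤ 1 / 2 := by norm_num
  have h1 : nrm 16 (1 / 2) υ ≤ y * Real.exp (1 / 2) := by
    have h := ((hEX υ hD (by rw [h0]; exact hy)).2.2.2 16 (1 / 2) hhalf).1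
    rw [h0] at h
    exact h
  have h2 : nrm 16 (1 / 2) (υ ^ 2) ≤ (y * Real.exp (1 / 2)) ^ 2 :=
    (nrm_pow 16 hhalf υ 2).trans (pow_le_pow_left₀ (nrm_nonneg 16 hhalf υ) h1 2)
  have h3 : (y * Real.exp (1 / 2)) ^ 2 = y ^ 2 * Real.exp 1 := by
    rw [mul_pow, ← Real.exp_nat_mul]
    norm_num
  rw [h3] at h2
  rw [nrm_C_mul, abs_of_nonneg (by norm_num : (0 : ℝ) ≤ 1 / 32)]
  have h4 : y ^ 2 * Real.exp 1 ≤ y ^ 2 * (27225 / 10000) :=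
    mul_le_mul_of_nonneg_left hPN.2.2 (sq_nonneg y)
  linarith

theorem zeta_le {y : ℝ} (hy : 0 < y) (hy2 : y ≤ 3 / 256) :
    27225 / 320000 * y ^ 2 * ((85589 : ℕ) : ℝ) ≤ 1 := by
  have h1 : y ^ 2 ≤ (3 / 256) ^ 2 := pow_le_pow_left₀ hy.le hy2 2
  have h2 : 27225 / 320000 * y ^ 2 * ((85589 : ℕ) : ℝ) =
      (27225 / 320000 * 85589) * y ^ 2 := by
    push_cast
    ring
  rw [h2]
  refine (mul_le_mul_of_nonneg_left h1 (by norm_num)).trans ?_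
  norm_num

theorem cY_cons : K.cY = 1 :: K.cY.tail := rfl

theorem first (hNB : S_BNB) {ζ : ℝ⟦X⟧} (hζ : nrm 16 (1 / 2) ζ * ((85589 : ℕ) : ℝ) ≤ 1) :
    nrm 16 (1 / 2) (evZ ζ K.cY - 1) ≤ 1 / 1000 := by
  have hhalf : (0 : ℝ) ≤ 1 / 2 := by norm_num
  have h1 : evZ ζ K.cY - 1 = ζ * evZ ζ K.cY.tail := by
    have h2 : evZ ζ K.cY = C ((1 : ℤ) : ℝ) + ζ * evZ ζ K.cY.tail := by
      conv_lhs => rw [cY_cons]
      rfl
    rw [h2, Int.cast_one, map_one]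
    ring
  rw [h1]
  refine (nrm_mul 16 hhalf _ _).trans ?_
  have h3 := hNB 16 (1 / 2) ζ 85589 K.cY.tail hhalf (by norm_num) hζ
  have h4 : ((85589 * K.nbK 85589 K.cY.tail * 1000 : ℕ) : ℝ) ≤
      ((85589 * 85589 ^ K.cY.tail.length : ℕ) : ℝ) := Nat.cast_le.2 K.nbL1
  generalize hL : K.nbK 85589 K.cY.tail = L at h3 h4
  generalize hn : K.cY.tail.length = n at h3 h4
  generalize hN : nrm 16 (1 / 2) (evZ ζ K.cY.tail) = N at h3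
  have hN0 : 0 ≤ N := by
    rw [← hN]
    exact nrm_nonneg 16 hhalf _
  rw [Nat.cast_mul, Nat.cast_mul, Nat.cast_mul, Nat.cast_pow] at h4
  have hWn : (0 : ℝ) < ((85589 : ℕ) : ℝ) ^ n := pow_pos (by norm_num) n
  have h5 : N * ((85589 : ℕ) : ℝ) ^ n * ((1000 : ℕ) : ℝ) ≤
      ((85589 : ℕ) : ℝ) * ((85589 : ℕ) : ℝ) ^ n :=
    (mul_le_mul_of_nonneg_right h3 (by norm_num)).trans h4
  have h6 : (N * ((1000 : ℕ) : ℝ)) * ((85589 : ℕ) : ℝ) ^ n ≤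
      ((85589 : ℕ) : ℝ) * ((85589 : ℕ) : ℝ) ^ n := by
    have h7 : (N * ((1000 : ℕ) : ℝ)) * ((85589 : ℕ) : ℝ) ^ n =
        N * ((85589 : ℕ) : ℝ) ^ n * ((1000 : ℕ) : ℝ) := by ring
    rw [h7]
    exact h5
  have h8 : N * ((1000 : ℕ) : ℝ) ≤ ((85589 : ℕ) : ℝ) := le_of_mul_le_mul_right h6 hWn
  have hz0 : 0 ≤ nrm 16 (1 / 2) ζ := nrm_nonneg 16 hhalf ζ
  have h9 : nrm 16 (1 / 2) ζ * (N * ((1000 : ℕ) : ℝ)) ≤ nrm 16 (1 / 2) ζ * ((85589 : ℕ) : ℝ) :=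
    mul_le_mul_of_nonneg_left h8 hz0
  have h10 : nrm 16 (1 / 2) ζ * N * 1000 ≤ 1 := by
    have h11 : nrm 16 (1 / 2) ζ * (N * ((1000 : ℕ) : ℝ)) = nrm 16 (1 / 2) ζ * N * 1000 := by
      push_cast
      ring
    rw [← h11]
    exact h9.trans hζ
  linarith

theorem last (hNB : S_BNB) {ζ : ℝ⟦X⟧} {y : ℝ} (hy : 0 < y)
    (hζ1 : nrm 16 (1 / 2) ζ ≤ 27225 / 320000 * y ^ 2)
    (hζ : nrm 16 (1 / 2) ζ * ((85589 : ℕ) : ℝ) ≤ 1) :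
    nrm 16 (1 / 2) (evZ ζ K.residL) ≤ 11 * 10 ^ 87 * y ^ 62 := by
  have hhalf : (0 : ℝ) ≤ 1 / 2 := by norm_num
  rw [evZ_drop ζ 31 K.residL K.residL0]
  refine (nrm_mul 16 hhalf _ _).trans ?_
  have h3 := hNB 16 (1 / 2) ζ 85589 (K.residL.drop 31) hhalf (by norm_num) hζ
  have h4 : ((27225 ^ 31 * (85589 * K.nbK 85589 (K.residL.drop 31)) * 10 : ℕ) : ℝ) ≤
      ((320000 ^ 31 * (11 * 10 ^ 88) * 85589 ^ (K.residL.drop 31).length : ℕ) : ℝ) :=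
    Nat.cast_le.2 K.residL1
  generalize hL : K.nbK 85589 (K.residL.drop 31) = L at h3 h4
  generalize hn : (K.residL.drop 31).length = n at h3 h4
  generalize hN : nrm 16 (1 / 2) (evZ ζ (K.residL.drop 31)) = N at h3 ⊢
  have hN0 : 0 ≤ N := by
    rw [← hN]
    exact nrm_nonneg 16 hhalf _
  have hWn : (0 : ℝ) < ((85589 : ℕ) : ℝ) ^ n := pow_pos (by norm_num) n
  have h4' : (27225 : ℝ) ^ 31 * (((85589 : ℕ) : ℝ) * (L : ℝ)) * 10 ≤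
      (320000 : ℝ) ^ 31 * (11 * 10 ^ 88) * ((85589 : ℕ) : ℝ) ^ n := by
    have h5 := h4
    simp only [Nat.cast_mul, Nat.cast_pow, Nat.cast_ofNat] at h5 ⊢
    exact h5
  have h6 : (27225 : ℝ) ^ 31 * (N * ((85589 : ℕ) : ℝ) ^ n) * 10 ≤
      (320000 : ℝ) ^ 31 * (11 * 10 ^ 88) * ((85589 : ℕ) : ℝ) ^ n :=
    (mul_le_mul_of_nonneg_right (mul_le_mul_of_nonneg_left h3 (by positivity))
      (by norm_num)).trans h4'
  have h7 : ((27225 : ℝ) ^ 31 * N * 10) * ((85589 : ℕ) : ℝ) ^ n ≤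
      ((320000 : ℝ) ^ 31 * (11 * 10 ^ 88)) * ((85589 : ℕ) : ℝ) ^ n := by
    have h8 : ((27225 : ℝ) ^ 31 * N * 10) * ((85589 : ℕ) : ℝ) ^ n =
        (27225 : ℝ) ^ 31 * (N * ((85589 : ℕ) : ℝ) ^ n) * 10 := by ring
    rw [h8]
    exact h6
  have h9 : (27225 : ℝ) ^ 31 * N * 10 ≤ (320000 : ℝ) ^ 31 * (11 * 10 ^ 88) :=
    le_of_mul_le_mul_right h7 hWn
  have h10 : (27225 / 320000 : ℝ) ^ 31 * N ≤ 11 * 10 ^ 87 := by
    rw [div_pow, div_mul_eq_mul_div, div_le_iff₀ (by positivity)]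
    have h11 : (10 : ℝ) ^ 88 = 10 ^ 87 * 10 := pow_succ 10 87
    rw [h11] at h9
    generalize (27225 : ℝ) ^ 31 * N = A at h9 ⊢
    generalize (320000 : ℝ) ^ 31 = B at h9 ⊢
    generalize (10 : ℝ) ^ 87 = T at h9 ⊢
    linarith
  have h12 : nrm 16 (1 / 2) (ζ ^ 31) ≤ (27225 / 320000 * y ^ 2) ^ 31 :=
    (nrm_pow 16 hhalf ζ 31).trans (pow_le_pow_left₀ (nrm_nonneg 16 hhalf ζ) hζ1 31)
  refine (mul_le_mul_of_nonneg_right h12 hN0).trans ?_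
  have h13 : (27225 / 320000 * y ^ 2) ^ 31 * N = ((27225 / 320000 : ℝ) ^ 31 * N) * y ^ 62 := by
    rw [mul_pow, ← pow_mul]
    ring
  rw [h13]
  exact mul_le_mul_of_nonneg_right h10 (by positivity)

theorem evZ_cons (ξ : ℝ⟦X⟧) (a : ℤ) (P : List ℤ) : evZ ξ (a :: P) = C (a : ℝ) + ξ * evZ ξ P := rfl

theorem resid (hEVA : S_EVA) (ζ : ℝ⟦X⟧) :
    evZ ζ K.residL = ζ * (C (144 : ℝ) * evZ ζ (K.derT (K.derT K.cY)) - C (4 : ℝ) * evZ ζ K.cY) -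
      evZ ζ K.cY ^ 3 + evZ ζ K.cY := by
  unfold K.residL
  rw [(hEVA ζ _ K.cY 0 0).1, (hEVA ζ _ _ 0 0).1, evZ_cons, (hEVA ζ _ _ 0 0).1,
    (hEVA ζ (K.derT (K.derT K.cY)) [] 144 0).2.1, (hEVA ζ K.cY [] (-4) 0).2.1,
    (hEVA ζ (K.conv K.cY (K.conv K.cY K.cY)) [] (-1) 0).2.1,
    (hEVA ζ K.cY (K.conv K.cY K.cY) 0 0).2.2.2.2, (hEVA ζ K.cY K.cY 0 0).2.2.2.2]
  have h1 : (C (((-4 : ℤ)) : ℝ) : ℝ⟦X⟧) = - C (4 : ℝ) := by
    rw [← map_neg]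
    norm_num
  have h2 : (C (((-1 : ℤ)) : ℝ) : ℝ⟦X⟧) = -1 := by
    rw [← map_one (C (R := ℝ)), ← map_neg]
    norm_num
  have h3 : (C (((144 : ℤ)) : ℝ) : ℝ⟦X⟧) = C (144 : ℝ) := by norm_num
  have h4 : (C (((0 : ℤ)) : ℝ) : ℝ⟦X⟧) = 0 := by
    rw [Int.cast_zero, map_zero]
  rw [h1, h2, h3, h4]
  ring

end BPLaux

open BPLaux in
theorem t_BPL (hEX : S_BEX) (hPN : S_BPN) (hNB : S_BNB) (hDE : S_BDE) (hEVA : S_EVA) : S_BPL := by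
  intro y υ hy hy2 hD h0
  have hζ1 := nrm_zeta hEX hPN hy hD h0
  have hζ : nrm 16 (1 / 2) (C (1 / 32 : ℝ) * υ ^ 2) * ((85589 : ℕ) : ℝ) ≤ 1 :=
    (mul_le_mul_of_nonneg_right hζ1 (by norm_num)).trans (zeta_le hy hy2)
  refine ⟨first hNB hζ, evZ (C (1 / 32 : ℝ) * υ ^ 2) K.residL, ?_, last hNB hy hζ1 hζ⟩
  have hDζ := D_zeta hD
  have h16 : C (1 / 2 : ℝ) * υ ^ 2 = C (16 : ℝ) * (C (1 / 32 : ℝ) * υ ^ 2) := by
    rw [← mul_assoc, ← map_mul]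
    norm_num
  generalize hz : C (1 / 32 : ℝ) * υ ^ 2 = ζ at hDζ h16
  rw [h16, resid hEVA ζ, hDE ζ 2 K.cY hDζ, D_C_mul, hDE ζ 2 (K.derT K.cY) hDζ]
  generalize evZ ζ (K.derT (K.derT K.cY)) = E2
  generalize evZ ζ K.cY = P
  have e1 : C (16 : ℝ) * ζ * (C (9 / 4 : ℝ) * (C (2 : ℝ) * (C (2 : ℝ) * E2)) - C (1 / 4 : ℝ) * P) =
      ζ * ((C (16 : ℝ) * C (9 / 4 : ℝ) * C (2 : ℝ) * C (2 : ℝ)) * E2 -
        (C (16 : ℝ) * C (1 / 4 : ℝ)) * P) := by ring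
  have e2 : (C (16 : ℝ) * C (9 / 4 : ℝ) * C (2 : ℝ) * C (2 : ℝ) : ℝ⟦X⟧) = C (144 : ℝ) := by
    rw [← map_mul, ← map_mul, ← map_mul]
    norm_num
  have e3 : (C (16 : ℝ) * C (1 / 4 : ℝ) : ℝ⟦X⟧) = C (4 : ℝ) := by
    rw [← map_mul]
    norm_num
  rw [e1, e2, e3]
  ring

end TWP
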