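import Pool.Agent.TWP.StB

set_option autoImplicit false

namespace TWP

open Finset

namespace BPNaux

theorem prodle (u c K : ℝ) (hu : 1 ≤ u) (hc : 0 ≤ c)
    (hK : ∏ j ∈ range 16, (1 + 1 / 2 * c / ((j : ℝ) + 1)) ≤ K) :
    ∏ j ∈ range 16, (1 + 1 / 2 * (c * u) / ((j : ℝ) + 1)) ≤ u ^ 16 * K := by
  have h1 : ∏ j ∈ range 16, (1 + 1 / 2 * (c * u) / ((j : ℝ) + 1)) ≤
      ∏ j ∈ range 16, (u * (1 + 1 / 2 * c / ((j : ℝ) + 1))) := by
    apply prod_le_prod
    · intro j _
      positivity
    · intro j _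
      have e : 1 / 2 * (c * u) / ((j : ℝ) + 1) = u * (1 / 2 * c / ((j : ℝ) + 1)) := by ring
      rw [e, mul_add, mul_one]
      linarith
  rw [prod_mul_distrib, prod_const, card_range] at h1
  exact h1.trans (mul_le_mul_of_nonneg_left hK (by positivity))

end BPNaux

theorem t_BPN : S_BPN := by
  refine ⟨?_, ?_, ?_⟩
  · intro u hu
    constructor
    · refine BPNaux.prodle u (23 / 10 * 128) (6 * 10 ^ 21) hu (by norm_num) ?_
      simp only [prod_range_succ, prod_range_zero]
      norm_num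
    · refine BPNaux.prodle u 256 (7 * 10 ^ 20) hu (by norm_num) ?_
      simp only [prod_range_succ, prod_range_zero]
      norm_num
  · have h1 : Real.exp (1 / 2) ^ 2 = Real.exp 1 := by
      rw [← Real.exp_nat_mul]
      norm_num
    have h2 := Real.exp_one_lt_d9
    have h3 : Real.exp (1 / 2) ^ 2 ≤ (33 / 20 : ℝ) ^ 2 := by
      rw [h1]
      norm_num
      linarith
    exact (pow_le_pow_iff_left₀ (Real.exp_pos _).le (by norm_num) (by norm_num)).mp h3
  · have h2 := Real.exp_one_lt_d9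
    norm_num
    linarith

end TWP
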