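import Pool.Agent.TWP.StB
import Pool.Agent.TWP.KNrm
import Pool.Agent.TWP.TailC

set_option autoImplicit false

namespace TWP

open PowerSeries Finset

namespace BPRaux

theorem D_C_mul (a : ℝ) (A : ℝ⟦X⟧) : D (C a * A) = C a * D A := by
  unfold D
  rw [Derivation.leibniz, smul_eq_mul, smul_eq_mul]
  have : (d⁄dX ℝ) (C a) = (0 : ℝ⟦X⟧) := PowerSeries.derivative_C
  rw [this, mul_zero, add_zero]

theorem nrm_pow_le (M : ℕ) {r : ℝ} (hr : 0 ≤ r) (A : ℝ⟦X⟧) (c : ℝ) (h : nrm M r A ≤ c) (n : ℕ) :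
    nrm M r (A ^ n) ≤ c ^ n := by
  have hc : 0 ≤ c := (nrm_nonneg M hr A).trans h
  induction n with
  | zero => rw [pow_zero, pow_zero, nrm_one]
  | succ n ih =>
    rw [pow_succ, pow_succ]
    exact (nrm_mul M hr _ _).trans (mul_le_mul ih h (nrm_nonneg M hr _) (pow_nonneg hc n))

theorem evZ_drop (ζ : ℝ⟦X⟧) : ∀ (k : ℕ) (l : List ℤ), (∀ a ∈ l.take k, a = 0) →
    evZ ζ l = ζ ^ k * evZ ζ (l.drop k) := by
  intro k
  induction k with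
  | zero => intro l _; rw [pow_zero, one_mul, List.drop_zero]
  | succ k ih =>
    intro l h
    cases l with
    | nil => simp only [evZ, List.drop_nil, mul_zero]
    | cons a l =>
      rw [List.take_succ_cons] at h
      have ha : a = 0 := h a (List.mem_cons_self)
      have hl : ∀ b ∈ l.take k, b = 0 := fun b hb => h b (List.mem_cons_of_mem _ hb)
      rw [List.drop_succ_cons]
      simp only [evZ]
      rw [ih l hl, ha, Int.cast_zero, map_zero, zero_add, pow_succ]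
      ring

theorem num1 (x e : ℝ) (N Lq : ℕ) (hL : 0 < Lq) (hx0 : 0 ≤ x) (hx : x * 620 ≤ 1)
    (h : 620 * N * 100 * 1 ≤ 620 * Lq) (he0 : 0 ≤ e) (he : e * (Lq : ℝ) ≤ 620 * (N : ℝ)) :
    x * e ≤ 1 / 100 := by
  have hLr : (0 : ℝ) < (Lq : ℝ) := Nat.cast_pos.2 hL
  have h1 : (620 : ℝ) * N * 100 ≤ 620 * Lq := by
    have : ((620 * N * 100 * 1 : ℕ) : ℝ) ≤ ((620 * Lq : ℕ) : ℝ) := Nat.cast_le.2 h
    push_cast at this
    linarith
  have h2 : e * (Lq : ℝ) ≤ 620 / 100 * Lq := by linarith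
  have h3 : e ≤ 620 / 100 := le_of_mul_le_mul_right h2 hLr
  nlinarith

theorem num2 (z e c : ℝ) (A B N Lq : ℕ) (hL : 0 < Lq) (hB : 0 < B) (hz : 0 ≤ z) (he0 : 0 ≤ e)
    (hc : c = (A : ℝ) / (B : ℝ)) (T : ℕ) (T' : ℝ) (hT : (T : ℝ) = T' * 10)
    (h : A * (620 * N) * 10 ≤ B * T * Lq)
    (he : e * (Lq : ℝ) ≤ 620 * (N : ℝ)) : (c * z) * e ≤ T' * z := by
  have hLr : (0 : ℝ) < (Lq : ℝ) := Nat.cast_pos.2 hL
  have hBr : (0 : ℝ) < (B : ℝ) := Nat.cast_pos.2 hB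
  have h1 : (A : ℝ) * (620 * N) * 10 ≤ B * T * Lq := by
    have : ((A * (620 * N) * 10 : ℕ) : ℝ) ≤ ((B * T * Lq : ℕ) : ℝ) := Nat.cast_le.2 h
    push_cast at this
    exact this
  rw [hT] at h1
  have h2 : (A : ℝ) * (620 * N) ≤ B * T' * Lq := by linarith
  have h3 : (A : ℝ) * (e * Lq) ≤ B * T' * Lq :=
    (mul_le_mul_of_nonneg_left he (Nat.cast_nonneg A)).trans h2
  have h4 : (A : ℝ) * e ≤ B * T' := by
    refine le_of_mul_le_mul_right ?_ hLr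
    calc (A : ℝ) * e * Lq = A * (e * Lq) := by ring
      _ ≤ _ := h3
  have h5 : c * e ≤ T' := by
    rw [hc, div_mul_eq_mul_div, div_le_iff₀ hBr]
    linarith
  calc c * z * e = (c * e) * z := by ring
    _ ≤ T' * z := mul_le_mul_of_nonneg_right h5 hz

end BPRaux

theorem t_BPR (hEX : S_BEX) (hPN : S_BPN) (hNB : S_BNB) (hDE : S_BDE) (hEVA : S_EVA) :
    S_BPR := by
  intro z ξ hz hz1 hD h0
  have hr : (0 : ℝ) ≤ 1 / 2 := by norm_num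
  have hξ : nrm 16 (1 / 2) ξ ≤ 33 / 20 * z := by
    have h1 := ((hEX ξ hD (by rw [h0]; exact hz)).2.2.2 16 (1 / 2) hr).1
    rw [h0] at h1
    have h2 := mul_le_mul_of_nonneg_left hPN.2.1 hz.le
    linarith
  obtain ⟨ζ, hζ⟩ : ∃ ζ : ℝ⟦X⟧, ζ = C (1 / 8 : ℝ) * ξ := ⟨_, rfl⟩
  rw [← hζ]
  have hζn : nrm 16 (1 / 2) ζ ≤ 33 / 160 * z := by
    rw [hζ, nrm_C_mul, abs_of_pos (by norm_num)]
    linarith
  have hζ0 : 0 ≤ nrm 16 (1 / 2) ζ := nrm_nonneg 16 hr ζ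
  have hζ620 : nrm 16 (1 / 2) ζ * 620 ≤ 1 := by linarith
  have hζ620' : nrm 16 (1 / 2) ζ * ((620 : ℕ) : ℝ) ≤ 1 := by
    rw [Nat.cast_ofNat]; exact hζ620
  have hDζ : D ζ = -(C (1 : ℝ) * ζ) := by
    rw [hζ, BPRaux.D_C_mul, hD, map_one, one_mul]
    ring
  have hP1 : nrm 16 (1 / 2) (evZ ζ K.cR) ≤ 101 / 100 := by
    have hcons : ∃ l, K.cR = 1 :: l ∧ K.cR.tail = l := ⟨_, rfl, rfl⟩
    obtain ⟨l, hl1, hl2⟩ := hcons
    have hb := hNB 16 (1 / 2) ζ 620 l hr (by norm_num) hζ620'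
    have hn := K.nbR1
    rw [hl2] at hn
    rw [Nat.cast_ofNat] at hb
    have h3 := BPRaux.num1 (nrm 16 (1 / 2) ζ) (nrm 16 (1 / 2) (evZ ζ l)) (K.nbK 620 l)
      (620 ^ l.length) (pow_pos (by norm_num) _) hζ0 hζ620 hn (nrm_nonneg 16 hr _)
      (by rw [Nat.cast_pow, Nat.cast_ofNat]; exact hb)
    rw [hl1]
    simp only [evZ]
    have h4 := nrm_add 16 hr (C (((1 : ℤ)) : ℝ) : ℝ⟦X⟧) (ζ * evZ ζ l)
    have h5 := nrm_mul 16 hr ζ (evZ ζ l)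
    rw [nrm_C, Int.cast_one, abs_one] at h4
    rw [Int.cast_one]
    linarith
  refine ⟨hP1, -evZ ζ K.residR, ?_, ?_⟩
  · have e1 := (hEVA ζ (K.addL (K.conv K.cR K.cR) [-1])
      (0 :: K.addL (K.smulL (-4) K.cR) (K.smulL (-12) (K.derT K.cR))) 0 0).1
    have e2 := (hEVA ζ (K.conv K.cR K.cR) [-1] 0 0).1
    have e3 := (hEVA ζ K.cR K.cR 0 0).2.2.2.2
    have e4 := (hEVA ζ (K.smulL (-4) K.cR) (K.smulL (-12) (K.derT K.cR)) 0 0).1
    have e5 := (hEVA ζ K.cR [] (-4) 0).2.1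
    have e6 := (hEVA ζ (K.derT K.cR) [] (-12) 0).2.1
    have e7 := hDE ζ 1 K.cR hDζ
    rw [map_one, one_mul] at e7
    have hres : evZ ζ K.residR = evZ ζ (K.addL (K.addL (K.conv K.cR K.cR) [-1])
      (0 :: K.addL (K.smulL (-4) K.cR) (K.smulL (-12) (K.derT K.cR)))) := rfl
    rw [hres, e1, e2, e3]
    have h6 : evZ ζ [-1] = -1 := by
      simp only [evZ, mul_zero, add_zero]
      rw [Int.cast_neg, Int.cast_one, map_neg, map_one]
    have h7 : evZ ζ (0 :: K.addL (K.smulL (-4) K.cR) (K.smulL (-12) (K.derT K.cR))) =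
        ζ * (C (((-4 : ℤ)) : ℝ) * evZ ζ K.cR + C (((-12 : ℤ)) : ℝ) * D (evZ ζ K.cR)) := by
      have h8 : evZ ζ (0 :: K.addL (K.smulL (-4) K.cR) (K.smulL (-12) (K.derT K.cR))) =
        C (((0 : ℤ)) : ℝ) +
          ζ * evZ ζ (K.addL (K.smulL (-4) K.cR) (K.smulL (-12) (K.derT K.cR))) := rfl
      rw [h8, e4, e5, e6, ← e7, Int.cast_zero, map_zero, zero_add]
    rw [h6, h7]
    have hξ8 : ξ = C (8 : ℝ) * ζ := by
      rw [hζ, ← mul_assoc, ← map_mul]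
      have : (8 : ℝ) * (1 / 8) = 1 := by norm_num
      rw [this, map_one, one_mul]
    rw [hξ8]
    generalize evZ ζ K.cR = P
    generalize D P = Q
    have c1 : (C (8 : ℝ) : ℝ⟦X⟧) * C (3 / 2 : ℝ) = 12 := by
      rw [← map_mul]
      have : (8 : ℝ) * (3 / 2) = 12 := by norm_num
      rw [this, map_ofNat]
    have c2 : (C (8 : ℝ) : ℝ⟦X⟧) * C (1 / 2 : ℝ) = 4 := by
      rw [← map_mul]
      have : (8 : ℝ) * (1 / 2) = 4 := by norm_num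
      rw [this, map_ofNat]
    have c3 : (C (((-4 : ℤ)) : ℝ) : ℝ⟦X⟧) = -4 := by
      rw [Int.cast_neg, map_neg, Int.cast_ofNat, map_ofNat]
    have c4 : (C (((-12 : ℤ)) : ℝ) : ℝ⟦X⟧) = -12 := by
      rw [Int.cast_neg, map_neg, Int.cast_ofNat, map_ofNat]
    rw [c3, c4]
    linear_combination ζ * Q * c1 + ζ * P * c2
  · rw [nrm_neg, BPRaux.evZ_drop ζ 51 K.residR K.residR0]
    have hr1 := K.residR1
    generalize K.residR.drop 51 = l at hr1 ⊢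
    have hb := hNB 16 (1 / 2) ζ 620 l hr (by norm_num) hζ620'
    rw [Nat.cast_ofNat] at hb
    have hp := BPRaux.nrm_pow_le 16 hr ζ (33 / 160 * z) hζn 51
    have hm := nrm_mul 16 hr (ζ ^ 51) (evZ ζ l)
    have hE0 := nrm_nonneg 16 hr (evZ ζ l)
    refine hm.trans ((mul_le_mul_of_nonneg_right hp hE0).trans ?_)
    rw [mul_pow]
    refine BPRaux.num2 (z ^ 51) (nrm 16 (1 / 2) (evZ ζ l)) ((33 / 160 : ℝ) ^ 51) (33 ^ 51)
      (160 ^ 51) (K.nbK 620 l) (620 ^ l.length) (pow_pos (by norm_num) _) (pow_pos (by norm_num) _)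
      (pow_nonneg hz.le _) hE0 ?_ (11 * 10 ^ 69) (11 * 10 ^ 68) ?_ hr1 ?_
    · rw [div_pow, Nat.cast_pow, Nat.cast_pow, Nat.cast_ofNat, Nat.cast_ofNat]
    · rw [Nat.cast_mul, Nat.cast_pow, Nat.cast_ofNat, Nat.cast_ofNat, pow_succ (10 : ℝ) 68]
      ring
    · rw [Nat.cast_pow, Nat.cast_ofNat]; exact hb

end TWP
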