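import Pool.Agent.TWP.StB
import Pool.Agent.TWP.KNrm
import Pool.Agent.TWP.TailC
import Pool.Agent.TWP.TCR2
import Pool.Agent.TWP.TCR1

set_option autoImplicit false

namespace TWP

open PowerSeries Finset Filter Topology
open scoped ContDiff

namespace BRaux

open Pool.Agent.TWP.Tail (zR ev cS)

theorem D_C_mul (c : ℝ) (A : ℝ⟦X⟧) : D (C c * A) = C c * D A := by
  ext n
  simp [D, coeff_derivative, coeff_C_mul]

theorem smooth_psiT (t : ℝ) : ContDiffAt ℝ ∞ psiT t := by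
  unfold psiT
  exact contDiffAt_const.mul contDiffAt_id

theorem smooth_zR {t : ℝ} (ht : 0 < t) : ContDiffAt ℝ ∞ zR t := by
  unfold Pool.Agent.TWP.Tail.zR
  refine ContDiffAt.div contDiffAt_const (contDiffAt_id.mul (Real.contDiffAt_sqrt ht.ne')) ?_
  exact (mul_pos ht (Real.sqrt_pos.2 ht)).ne'

theorem Tay_smul (hTA : S_TA) (hTM : S_TM) (ψ f : ℝ → ℝ) (t c : ℝ) (hψ : ContDiffAt ℝ ∞ ψ t)
    (hf : ContDiffAt ℝ ∞ f t) : Tay ψ (fun s => f s * c) t = Tay ψ f t * C c := by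
  rw [hTM ψ t hψ f (fun _ => c) hf contDiffAt_const, (hTA ψ t hψ).1 c]

/-- the chain part, for any side -/
theorem unpack_tab (ξ : ℝ⟦X⟧) (M : ℕ) (r r' r'' : ℝ) (rs : List ℝ) (w c w' c' w'' c'' : ℕ)
    (tab : K.Tab)
    (h : TabOK ξ M (r :: r' :: r'' :: rs) ((w, c) :: (w', c') :: (w'', c'') :: tab)) :
    Okw M r ξ w ∧ OkD M r r' c ∧ Okw (M - 1) r' ξ w' ∧ OkD (M - 1) r' r'' c' ∧
    TabOK ξ (M - 1 - 1) (r'' :: rs) ((w'', c'') :: tab) := by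
  simp only [TabOK] at h
  obtain ⟨h1, h2, h3, h4, h5, h6, h7, g1, g2, g3, g4, g5, g6, g7, g8⟩ := h
  exact ⟨⟨h1, h2, h3⟩, ⟨h4, h5, h6, h7⟩, ⟨g1, g2, g3⟩, ⟨g4, g5, g6, g7⟩, g8⟩

theorem checkR_some (two : Bool) (Kn N h w0 c0 w1 c1 : ℕ) (tab : K.Tab) (s : K.AP)
    (hok : K.checkR two Kn N h ((w0, c0) :: (w1, c1) :: tab) s = true) :
    ∃ b, K.rightA two N w1 c0 c1 s = some b ∧
      K.chain true N h (107 * 2 ^ 145) 1 (-2) 6 9 Kn tab b ([], 0) = true := by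
  unfold K.checkR at hok
  simp only at hok
  split at hok
  · exact absurd hok (by simp)
  · rename_i a ha
    exact ⟨a, ha, hok⟩

end BRaux

open BRaux in
theorem BR_base (hEX : S_BEX) (hIC : S_BIC) (hV0 : S_BV0) (hRT : S_BRT) (hPR : S_BPR)
    (hRJ : S_BRJ) (hRN : S_BRN) (hRF : S_BRF) (hTA : S_TA) (hTM : S_TM) (q l : ℝ → ℝ) (hql : QL q l)
    (t : ℝ) (ht : 0 < t)
    (h1 : |l t / (-Real.sqrt t) -
      Pool.Agent.TWP.Tail.ev Pool.Agent.TWP.Tail.cS (Pool.Agent.TWP.Tail.zR t / 8)| ≤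
      12 * 10 ^ 27 * Pool.Agent.TWP.Tail.zR t ^ 31)
    (h2 : q t ≤ Real.exp (-(2 / 3) * (t * Real.sqrt t))) (h3 : 1 ≤ t)
    (hz : Pool.Agent.TWP.Tail.zR t ≤ 1 / 128) :
    let ξ₁ := Tay psiT Pool.Agent.TWP.Tail.zR t
    let ξ := Tay psiT (fun s => Pool.Agent.TWP.Tail.zR s / (107 / 8192)) t
    let S := Tay psiT (fun s => -(l s) / Real.sqrt s) t
    let κ := Tay psiT (fun s => q s / Real.sqrt s) t
    let z := Pool.Agent.TWP.Tail.zR t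
    0 < z ∧ D ξ₁ = -ξ₁ ∧ coeff 0 ξ₁ = z ∧ D ξ = -ξ ∧ |coeff 0 ξ| ≤ ((2450 : ℕ) : ℝ) / 4096 ∧
    TabOK ξ 16 (K.rsT.map fun r => (r : ℝ) / 4096) K.tabR ∧
    nrm 16 (1 / 2) κ ≤ 1 / 10 ^ 13 * (128 * z) ∧ nrm 16 (1 / 2) S ≤ 102 / 100 ∧
    Ap 16 (1 / 2) ξ S (K.spR, 2 ^ 128) := by
  intro ξ₁ ξ S κ z
  have hsq : 0 < Real.sqrt t := Real.sqrt_pos.2 ht
  have hz0 : 0 < z := by
    show 0 < 1 / (t * Real.sqrt t)
    positivity
  obtain ⟨f1, f2, f3, f4, f5, f6⟩ := hRF q l t hql ht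
  have hξ : ξ = ξ₁ * C (8192 / 107 : ℝ) := by
    have := Tay_smul hTA hTM psiT Pool.Agent.TWP.Tail.zR t (8192 / 107) (smooth_psiT t)
      (smooth_zR ht)
    rw [← this]
    show Tay psiT _ t = Tay psiT _ t
    congr 1
    funext s
    ring
  have hξ1 : ξ₁ = C (107 / 8192 : ℝ) * ξ := by
    rw [hξ, mul_comm ξ₁, ← mul_assoc, ← map_mul]
    norm_num
  have hDξ : D ξ = -ξ := by
    rw [hξ, mul_comm, D_C_mul, f1, mul_neg]
  have hc0 : coeff 0 ξ = z * (8192 / 107) := by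
    rw [hξ, mul_comm, coeff_C_mul, f2, mul_comm]
  have hc0' : coeff 0 ξ ≤ 64 / 107 := by
    rw [hc0]; linarith
  have hc0p : 0 < coeff 0 ξ := by rw [hc0]; positivity
  have hn : ∀ (M : ℕ) (r : ℝ), 0 ≤ r → nrm M r ξ ≤ ((64 : ℕ) : ℝ) / ((107 : ℕ) : ℝ) * Real.exp r := by
    intro M r hr
    refine ((hEX ξ hDξ hc0p).2.2.2 M r hr).1.trans ?_
    refine mul_le_mul_of_nonneg_right ?_ (Real.exp_pos r).le
    push_cast
    exact hc0'
  have hTab := hRT 64 107 16 K.rsT K.tabR ξ (by norm_num) K.radTR hn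
  have hw : nrm 16 (1 / 2) ξ ≤ 1 := by
    have := (unpack_tab ξ _ _ _ _ _ _ _ _ _ _ _ _ hTab).1.2.2
    have e : (((2048 : ℕ) : ℝ) / 4096) = 1 / 2 := by norm_num
    beta_reduce at this
    rw [e] at this
    refine this.trans ?_
    norm_num
  obtain ⟨p1, R, p2, p3⟩ := hPR z ξ₁ hz0 hz f1 f2
  set P := evZ (C (1 / 8 : ℝ) * ξ₁) K.cR with hP
  obtain ⟨n1, n2, n3⟩ := hRN z hz0 hz
  have hS0 : |coeff 0 (S - P)| ≤ 3 * 10 ^ 28 * z ^ 31 := by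
    have e1 : coeff 0 (S - P) = -(l t) / Real.sqrt t - Pool.Agent.TWP.Tail.ev K.cR (z / 8) := by
      rw [map_sub, f3, hP, hV0, coeff_C_mul, f2]
      congr 2
      ring
    rw [e1]
    refine n3 _ ?_
    rw [neg_div, ← div_neg]
    exact h1
  have htt : t * Real.sqrt t = 1 / z := by
    show t * Real.sqrt t = 1 / (1 / (t * Real.sqrt t))
    rw [one_div_one_div]
  have hκ0 : |coeff 0 κ| ≤ (Nat.factorial 85 : ℝ) * (3 / 2) ^ 85 * z ^ 85 := by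
    rw [f4, abs_of_pos (div_pos (hql.pos t) hsq)]
    have hs1 : 1 ≤ Real.sqrt t := Real.one_le_sqrt.mpr h3
    refine (div_le_self (hql.pos t).le hs1).trans (h2.trans ?_)
    have : -(2 / 3) * (t * Real.sqrt t) = -(2 / 3) / z := by
      rw [htt]; ring
    rw [this]
    exact n2
  have hρ : 0 ≤ 11 * 10 ^ 68 * z ^ 51 := by positivity
  have he0 : 0 ≤ 3 * 10 ^ 28 * z ^ 31 + (Nat.factorial 85 : ℝ) * (3 / 2) ^ 85 * z ^ 85 := by
    positivity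
  have hz1 : 1 / 10 ^ 13 * (128 * z) ≤ 1 / 10 ^ 13 := by
    have : 128 * z ≤ 1 := by
      have : z ≤ 1 / 128 := hz
      linarith
    nlinarith
  have hJ := hRJ z (11 * 10 ^ 68 * z ^ 51)
    (3 * 10 ^ 28 * z ^ 31 + (Nat.factorial 85 : ℝ) * (3 / 2) ^ 85 * z ^ 85) ξ₁ S κ P R hz0 hz f1 f2
    hρ he0 f5 f6 p2 p1 p3 (add_le_add hS0 hκ0)
    (n1.trans (hz1.trans (by norm_num)))
  have hJ' := hJ.trans n1
  have hh : (0 : ℝ) ≤ 1 / 2 := by norm_num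
  have hκn : nrm 16 (1 / 2) κ ≤ 1 / 10 ^ 13 * (128 * z) := by
    have := nrm_nonneg 16 hh (S - P)
    linarith
  have hSP : nrm 16 (1 / 2) (S - P) ≤ 1 / 10 ^ 13 := by
    have := nrm_nonneg 16 hh κ
    linarith
  have hSn : nrm 16 (1 / 2) S ≤ 102 / 100 := by
    have h := nrm_add 16 hh (S - P) P
    rw [sub_add_cancel] at h
    refine h.trans ?_
    linarith [show (1 : ℝ) / 10 ^ 13 ≤ 1 / 100 by norm_num]
  refine ⟨hz0, f1, f2, hDξ, ?_, hTab, hκn, hSn, ?_⟩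
  · rw [abs_of_pos hc0p]
    refine hc0'.trans ?_
    norm_num
  · show nrm 16 (1 / 2) (C ((2 : ℝ) ^ 160) * S - evZ ξ K.spR) ≤ (((2 ^ 128 : ℕ)) : ℝ)
    have hic := hIC 16 (1 / 2) ξ 107 65536 (2 ^ 160) 1 K.cR K.spR hh hw (by norm_num) (by norm_num)
    have e2 : C ((((107 : ℤ) : ℝ)) / ((65536 : ℤ) : ℝ)) * ξ = C (1 / 8 : ℝ) * ξ₁ := by
      rw [hξ1, ← mul_assoc, ← map_mul]
      norm_num
    rw [e2, ← hP] at hic
    have e3 : ((((2 ^ 160 : ℤ) : ℝ)) / ((1 : ℤ) : ℝ)) = (2 : ℝ) ^ 160 := by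
      push_cast; norm_num
    rw [e3] at hic
    have hcm : ((K.cmpL 107 65536 K.cR K.spR (2 ^ 160) 1 : ℕ) : ℝ) ≤ ((2 ^ 50 : ℕ) : ℝ) := by
      exact_mod_cast K.cmpR
    have e4 : C ((2 : ℝ) ^ 160) * S - evZ ξ K.spR =
        C ((2 : ℝ) ^ 160) * (S - P) + (C ((2 : ℝ) ^ 160) * P - evZ ξ K.spR) := by ring
    rw [e4]
    refine (nrm_add 16 hh _ _).trans ?_
    rw [nrm_C_mul]
    have e5 : |(2 : ℝ) ^ 160| = 2 ^ 160 := abs_of_pos (by positivity)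
    rw [e5]
    have h6 : (2 : ℝ) ^ 160 * nrm 16 (1 / 2) (S - P) ≤ 2 ^ 160 * (1 / 10 ^ 13) :=
      mul_le_mul_of_nonneg_left hSP (by positivity)
    have h7 := hic.trans hcm
    push_cast at h7 ⊢
    refine (add_le_add h6 h7).trans ?_
    norm_num

theorem BR_core (hEX : S_BEX) (hIC : S_BIC) (hV0 : S_BV0) (hRT : S_BRT) (hPR : S_BPR)
    (hRJ : S_BRJ) (hRN : S_BRN) (hRF : S_BRF) (hRM : S_BRM) (hRA : S_BRA) (hRS : S_BRS)
    (hTA : S_TA) (hTM : S_TM) (hTL : S_TL) (hCH : S_CHAIN) (q l : ℝ → ℝ) (hql : QL q l)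
    (t : ℝ) (ht : 0 < t)
    (h1 : |l t / (-Real.sqrt t) -
      Pool.Agent.TWP.Tail.ev Pool.Agent.TWP.Tail.cS (Pool.Agent.TWP.Tail.zR t / 8)| ≤
      12 * 10 ^ 27 * Pool.Agent.TWP.Tail.zR t ^ 31)
    (h2 : q t ≤ Real.exp (-(2 / 3) * (t * Real.sqrt t))) (h3 : 1 ≤ t)
    (hz : Pool.Agent.TWP.Tail.zR t ≤ 1 / 128) (two : Bool) (Kn : ℕ) (hK : 2 * Kn + 1 ≤ 15)
    (hok : K.checkR two Kn 40 2450 K.tabR (K.spR, 2 ^ 128) = true) :
    ∀ j, 1 ≤ j → j ≤ Kn + 1 → 0 < toda (if two then mTwo q l else mOne q l) j t ∧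
      ContDiffAt ℝ ∞ (toda (if two then mTwo q l else mOne q l) j) t := by
  obtain ⟨hz0, f1, f2, hDξ, hc, hTab, hκn, hSn, hAp⟩ :=
    BR_base hEX hIC hV0 hRT hPR hRJ hRN hRF hTA hTM q l hql t ht h1 h2 h3 hz
  have hTab' := hTab
  obtain ⟨w0, d0, w1, d1, hT2⟩ := BRaux.unpack_tab _ _ _ _ _ _ _ _ _ _ _ _ _ hTab
  have e : (((2048 : ℕ) : ℝ) / 4096) = 1 / 2 := by norm_num
  beta_reduce at w0 d0 w1 d1 hT2
  rw [e] at w0 d0
  have hLaw : Law true (Tay psiT (fun s => Pool.Agent.TWP.Tail.zR s / (107 / 8192)) t) := by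
    unfold Law; simpa using hDξ
  -- unfold the check
  have hok' := BRaux.checkR_some two Kn 40 2450 4040 9474 3876 10325 (K.tabR.drop 2) (K.spR, 2 ^ 128) hok
  obtain ⟨b, hb1, hb2⟩ := hok'
  have hw1 : nrm 16 (1 / 2) (Tay psiT (fun s => Pool.Agent.TWP.Tail.zR s / (107 / 8192)) t) ≤ 1 := by
    refine w0.2.2.trans ?_
    norm_num
  obtain ⟨a1, a2⟩ := hRA two 40 3876 9474 10325 (Pool.Agent.TWP.Tail.zR t) _ _
    (Tay psiT Pool.Agent.TWP.Tail.zR t)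
    (Tay psiT (fun s => Pool.Agent.TWP.Tail.zR s / (107 / 8192)) t)
    (Tay psiT (fun s => -(l s) / Real.sqrt s) t) (Tay psiT (fun s => q s / Real.sqrt s) t)
    (K.spR, 2 ^ 128) b hz0 hz f1 f2 hLaw hw1 hκn hSn hAp d0 (by norm_num) w1 d1 hb1
  obtain ⟨m1, m2⟩ := hRM q l t two hql ht a1
  have hc14 := hCH true 40 2450 (107 * 2 ^ 145) 1 (-2) 6 9 Kn 14 _
    _ 0 _ _ b ([], 0) (by simpa [K.tabR] using hK) hb2 hT2 hLaw hc a2
    (by simp [Ap, evZ, nrm_zero])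
  rw [← m2] at hc14
  have hρ : ContDiffAt ℝ ∞ Real.sqrt t := Real.contDiffAt_sqrt ht.ne'
  have hx : ContDiffAt ℝ ∞ (fun s => Pool.Agent.TWP.Tail.zR s / (107 / 8192)) t :=
    (BRaux.smooth_zR ht).div_const _
  exact hTL psiT Real.sqrt (fun s => Pool.Agent.TWP.Tail.zR s / (107 / 8192)) _ t
    (107 * 2 ^ 145) 1 (-2) 6 9 Kn (BRaux.smooth_psiT t) hρ hx m1 (Real.sqrt_pos.2 ht)
    (fun a ha hpos => hRS a t ht ha hpos) hc14

theorem t_BR (hEX : S_BEX) (hIC : S_BIC) (hV0 : S_BV0) (hRT : S_BRT) (hPR : S_BPR)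
    (hRJ : S_BRJ) (hRN : S_BRN) (hRF : S_BRF) (hRM : S_BRM) (hRA : S_BRA) (hRS : S_BRS)
    (hTA : S_TA) (hTM : S_TM) (hTL : S_TL) (hCH : S_CHAIN) : S_BR := by
  intro q l hql h1 h2 t ht hz
  have hsq : 0 < Real.sqrt t := Real.sqrt_pos.2 ht
  have h128 : 128 ≤ t * Real.sqrt t := by
    have hz' : 1 / (t * Real.sqrt t) ≤ 1 / 128 := hz
    exact (one_div_le_one_div (by positivity) (by norm_num)).1 hz'
  have h25 : 25 ≤ t := by
    by_contra hlt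
    push Not at hlt
    have : Real.sqrt t ≤ 5 := by
      rw [Real.sqrt_le_left (by norm_num)]
      nlinarith
    nlinarith
  have h1' := h1 t h25
  have h2' := h2 t (by linarith)
  constructor
  · intro j hj1 hj2
    have := BR_core hEX hIC hV0 hRT hPR hRJ hRN hRF hRM hRA hRS hTA hTM hTL hCH q l hql t ht h1' h2'
      (by linarith) hz true 7 (by norm_num) K.okR2 j hj1 (by omega)
    simpa using this
  · intro j hj1 hj2
    have := BR_core hEX hIC hV0 hRT hPR hRJ hRN hRF hRM hRA hRS hTA hTM hTL hCH q l hql t ht h1' h2'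
      (by linarith) hz false 4 (by norm_num) K.okR1 j hj1 (by omega)
    simpa using this

end TWP
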