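import Pool.Agent.TWP.StB
import Pool.Agent.TWP.KNrm

set_option autoImplicit false

namespace TWP

open PowerSeries Finset Filter Topology

namespace BRAaux

/-- the list of G -/
def Gl (c0 : ℕ) (S : K.AP) : K.AP :=
  K.addA (K.addA (K.sclA (2 ^ 159) S) (K.sclA (3 * 2 ^ 159) (K.derA true c0 S))) ([], 2 ^ 94)

def fin' (c1 : ℕ) (mu : K.AP) : K.AP :=
  K.addA (K.sclA (-(3 * 2 ^ 159)) (K.derA true c1 mu)) (K.sclA (-(2 ^ 159)) mu)

theorem rightA_true (N w1 c0 c1 : ℕ) (s b : K.AP) (h : K.rightA true N w1 c0 c1 s = some b) :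
    ∃ iG ni, K.invA w1 N (Gl c0 s) = some (iG, ni) ∧
      b = fin' c1 (K.addA (K.intA (-1) iG) ([], 2 ^ 94)) := by
  unfold K.rightA at h
  simp only [if_true] at h
  split at h
  · exact absurd h (by simp)
  · rename_i mu hmu
    split at hmu
    · exact absurd hmu (by simp)
    · rename_i iG ni hi
      simp only [Option.some.injEq] at hmu h
      refine ⟨iG, ni, ?_, ?_⟩
      · rw [Gl]; exact hi
      · rw [hmu, fin']; exact h.symm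

theorem rightA_false (N w1 c0 c1 : ℕ) (s b : K.AP) (h : K.rightA false N w1 c0 c1 s = some b) :
    b = fin' c1 (K.addA (K.intA (-1) s) ([], 2 ^ 124)) := by
  unfold K.rightA at h
  simp only [Bool.false_eq_true, if_false, Option.some.injEq] at h
  exact h.symm

theorem ap_small (M : ℕ) (r : ℝ) (ξ W : ℝ⟦X⟧) (k : ℕ) (hW : nrm M r W ≤ (k : ℝ) / 2 ^ 160) :
    Ap M r ξ W ([], k) := by
  show nrm M r (C ((2 : ℝ) ^ 160) * W - evZ ξ []) ≤ (k : ℝ)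
  rw [show evZ ξ [] = 0 from rfl, sub_zero, nrm_C_mul, abs_of_pos (by positivity)]
  have := mul_le_mul_of_nonneg_left hW (show (0 : ℝ) ≤ 2 ^ 160 by positivity)
  refine this.trans (le_of_eq ?_)
  field_simp

theorem fin_ok (hLIN : S_LIN) (ξ μ : ℝ⟦X⟧) (w1 c1 : ℕ) (r1 r2 : ℝ) (m : K.AP) (hLaw : Law true ξ)
    (hw1 : Okw 15 r1 ξ w1) (hD1 : OkD 15 r1 r2 c1) (h : Ap 15 r1 ξ μ m) :
    Ap 14 r2 ξ (-(C (3 / 2 : ℝ) * D μ + C (1 / 2 : ℝ) * μ)) (fin' c1 m) := by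
  obtain ⟨hadd, hint, hscl, hmono, hder, hpoly⟩ := hLIN
  have hr2 : 0 ≤ r2 := hD1.1.le
  have hw : nrm 14 r2 ξ ≤ 1 := by
    have h1 := nrm_mono_r 14 hr2 hD1.2.1 ξ
    have h2 := nrm_mono_M (show 14 ≤ 15 by norm_num) hw1.1.le ξ
    have h3 : (w1 : ℝ) / 4096 ≤ 1 := by
      rw [div_le_one (by norm_num)]
      exact_mod_cast hw1.2.1
    exact h1.trans (h2.trans (hw1.2.2.trans h3))
  have d := hder true 15 c1 r1 r2 ξ μ m hLaw hD1 h
  have m14 := hmono 15 14 r1 r2 ξ μ m (by norm_num) hr2 hD1.2.1 h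
  have a1 := hscl 14 r2 ξ (D μ) _ (-(3 * 2 ^ 159)) hr2 hw d
  have a2 := hscl 14 r2 ξ μ _ (-(2 ^ 159)) hr2 hw m14
  have a3 := hadd 14 r2 ξ _ _ _ _ hr2 a1 a2
  have e : -(C (3 / 2 : ℝ) * D μ + C (1 / 2 : ℝ) * μ) =
      C (((-(3 * 2 ^ 159) : ℤ) : ℝ) / 2 ^ 160) * D μ + C (((-(2 ^ 159) : ℤ) : ℝ) / 2 ^ 160) * μ := by
    have e1 : (((-(3 * 2 ^ 159) : ℤ) : ℝ) / 2 ^ 160) = -(3 / 2) := by push_cast; norm_num
    have e2 : (((-(2 ^ 159) : ℤ) : ℝ) / 2 ^ 160) = -(1 / 2) := by push_cast; norm_num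
    rw [e1, e2, map_neg, map_neg]
    ring
  rw [e]
  exact a3

end BRAaux

open BRAaux in
theorem t_BRA (hEX : S_BEX) (hPN : S_BPN) (hLIN : S_LIN) (hINVA : S_INVA) : S_BRA := by
  intro two N w1 c0 c1 z r1 r2 ξ₁ ξ S κ s b hz hz1 hDξ₁ hξ0 hLaw hn hκ hS hs hD0 hc0' hw1 hD1 hA
  have hLIN' := hLIN
  obtain ⟨hadd, hint, hscl, hmono, hder, hpoly⟩ := hLIN
  have hh : (0 : ℝ) ≤ 1 / 2 := by norm_num
  have hr1 : 0 ≤ r1 := hD0.1.le
  have hr1' : r1 ≤ 1 / 2 := hD0.2.1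
  have hw : nrm 15 r1 ξ ≤ 1 := by
    have h3 : (w1 : ℝ) / 4096 ≤ 1 := by
      rw [div_le_one (by norm_num)]
      exact_mod_cast hw1.2.1
    exact hw1.2.2.trans h3
  have mono : ∀ A : ℝ⟦X⟧, nrm 15 r1 A ≤ nrm 16 (1 / 2) A := fun A =>
    (nrm_mono_r 15 hr1 hr1' A).trans (nrm_mono_M (by norm_num) hh A)
  have hz128 : 128 * z ≤ 1 := by linarith
  have hκ' : nrm 16 (1 / 2) κ ≤ 1 / 10 ^ 13 := by
    refine hκ.trans ?_
    nlinarith
  have hκ1 : nrm 15 r1 κ ≤ 1 / 10 ^ 13 := (mono κ).trans hκ'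
  have hκ0 : 0 ≤ nrm 15 r1 κ := nrm_nonneg 15 hr1 κ
  have hS1 : nrm 15 r1 S ≤ 102 / 100 := (mono S).trans hS
  -- the inverse of ξ₁
  have hη : nrm 16 (1 / 2) ξ₁⁻¹ ≤ 33 / 20 / z := by
    have := ((hEX ξ₁ hDξ₁ (by rw [hξ0]; exact hz)).2.2.2 16 (1 / 2) hh).2
    rw [hξ0] at this
    refine this.trans ?_
    rw [mul_comm, ← div_eq_mul_inv]
    exact div_le_div_of_nonneg_right hPN.2.1 hz.le
  set W := κ ^ 2 * ξ₁⁻¹ with hW
  have hWn : nrm 15 r1 W ≤ ((2 ^ 94 : ℕ) : ℝ) / 2 ^ 160 := by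
    refine (mono W).trans ?_
    have h1 : nrm 16 (1 / 2) W ≤ nrm 16 (1 / 2) κ * nrm 16 (1 / 2) κ * nrm 16 (1 / 2) ξ₁⁻¹ := by
      rw [hW, sq]
      refine (nrm_mul 16 hh _ _).trans ?_
      exact mul_le_mul_of_nonneg_right (nrm_mul 16 hh _ _) (nrm_nonneg 16 hh _)
    refine h1.trans ?_
    have k0 := nrm_nonneg 16 hh κ
    have e0 := nrm_nonneg 16 hh ξ₁⁻¹
    calc nrm 16 (1 / 2) κ * nrm 16 (1 / 2) κ * nrm 16 (1 / 2) ξ₁⁻¹
        ≤ (1 / 10 ^ 13) * (1 / 10 ^ 13 * (128 * z)) * (33 / 20 / z) := by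
          refine mul_le_mul (mul_le_mul hκ' hκ k0 (by norm_num)) hη e0 (by positivity)
      _ = (1 / 10 ^ 26) * 128 * (33 / 20) := by field_simp
      _ ≤ ((2 ^ 94 : ℕ) : ℝ) / 2 ^ 160 := by
          push_cast
          norm_num
  have hWt : nrm 15 r1 W ≤ 1 / 10 ^ 13 := hWn.trans (by push_cast; norm_num)
  -- the norm of D S
  have hDS : nrm 15 r1 (D S) ≤ 10 * (102 / 100) := by
    have := nrm_D 16 c0 hh hD0 S
    refine this.trans ?_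
    have hc : (c0 : ℝ) / 1024 ≤ 10 := by
      rw [div_le_iff₀ (by norm_num)]
      have : (c0 : ℝ) ≤ 10240 := by exact_mod_cast hc0'
      linarith
    exact mul_le_mul hc hS (nrm_nonneg 16 hh S) (by norm_num)
  set G := GR S κ ξ₁ with hG
  have hGe : G = C (1 / 2 : ℝ) * S + C (3 / 2 : ℝ) * D S + W := rfl
  have hGn : nrm 15 r1 G ≤ 16 := by
    rw [hGe]
    refine (nrm_add 15 hr1 _ _).trans ?_
    have h1 := nrm_add 15 hr1 (C (1 / 2 : ℝ) * S) (C (3 / 2 : ℝ) * D S)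
    rw [nrm_C_mul, nrm_C_mul, abs_of_pos (by norm_num), abs_of_pos (by norm_num)] at h1
    have : (1 : ℝ) / 10 ^ 13 ≤ 1 / 100 := by norm_num
    linarith
  have hG0 : 0 ≤ nrm 15 r1 G := nrm_nonneg 15 hr1 G
  -- the list for G
  have hs1 := hmono 16 15 (1 / 2) r1 ξ S s (by norm_num) hr1 hr1' hs
  have d1 := hder true 16 c0 (1 / 2) r1 ξ S s hLaw hD0 hs
  have a1 := hscl 15 r1 ξ S _ (2 ^ 159) hr1 hw hs1
  have a2 := hscl 15 r1 ξ (D S) _ (3 * 2 ^ 159) hr1 hw d1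
  have a3 := hadd 15 r1 ξ _ _ _ _ hr1 a1 a2
  have a4 := hadd 15 r1 ξ _ _ _ _ hr1 a3 (ap_small 15 r1 ξ W (2 ^ 94) hWn)
  have hAG : Ap 15 r1 ξ G (Gl c0 s) := by
    have e1 : (((2 ^ 159 : ℤ) : ℝ) / 2 ^ 160) = 1 / 2 := by push_cast; norm_num
    have e2 : (((3 * 2 ^ 159 : ℤ) : ℝ) / 2 ^ 160) = 3 / 2 := by push_cast; norm_num
    rw [e1, e2] at a4
    rw [hGe]
    exact a4
  have hκG : nrm 15 r1 (κ * G) ≤ 1 / 10 ^ 13 * 16 :=
    (nrm_mul 15 hr1 _ _).trans (mul_le_mul hκ1 hGn hG0 (by norm_num))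
  cases two with
  | true =>
    obtain ⟨iG, ni, hi, rfl⟩ := rightA_true N w1 c0 c1 s b hA
    obtain ⟨g0, g1, -⟩ := hINVA 15 r1 ξ G w1 N ni (Gl c0 s) iG hw1 hi hAG
    refine ⟨by simpa using g0, ?_⟩
    refine fin_ok hLIN' ξ _ w1 c1 r1 r2 _ hLaw hw1 hD1 ?_
    have b1 := hint 15 r1 ξ G⁻¹ iG (-1) hr1 g1
    have hk2 : nrm 15 r1 (κ ^ 2 * G) ≤ ((2 ^ 94 : ℕ) : ℝ) / 2 ^ 160 := by
      have e : κ ^ 2 * G = κ * (κ * G) := by ring
      rw [e]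
      refine (nrm_mul 15 hr1 _ _).trans ?_
      refine (mul_le_mul hκ1 hκG (nrm_nonneg 15 hr1 _) (by norm_num)).trans ?_
      push_cast
      norm_num
    have b2 := hadd 15 r1 ξ _ _ _ _ hr1 b1 (ap_small 15 r1 ξ _ (2 ^ 94) hk2)
    have e : muR true S κ ξ₁ = C (((-1 : ℤ)) : ℝ) * G⁻¹ + κ ^ 2 * G := by
      simp only [muR, if_true]
      push_cast
      rw [map_neg, map_one, ← hG]
      ring
    rw [e]
    exact b2
  | false =>
    have hb := rightA_false N w1 c0 c1 s b hA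
    subst hb
    have hq : nrm 15 r1 (1 - 1 * (1 + κ * G)) ≤ 1 / 1000 := by
      have e : (1 : ℝ⟦X⟧) - 1 * (1 + κ * G) = -(κ * G) := by ring
      rw [e, nrm_neg]
      exact hκG.trans (by norm_num)
    obtain ⟨i0, i1, -⟩ := nrm_inv 15 hr1 (1 + κ * G) 1 hq (by norm_num)
    rw [nrm_one] at i1
    have i2 : nrm 15 r1 (1 + κ * G)⁻¹ ≤ 101 / 100 := i1.trans (by norm_num)
    refine ⟨by simpa using i0, ?_⟩
    refine fin_ok hLIN' ξ _ w1 c1 r1 r2 _ hLaw hw1 hD1 ?_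
    have b1 := hint 15 r1 ξ S s (-1) hr1 hs1
    set I := (1 + κ * G)⁻¹ with hI
    have hinv : (1 + κ * G) * I = 1 := PowerSeries.mul_inv_cancel _ (by simpa using i0)
    set T := κ * (C (1 / 2 : ℝ) * (κ * G + 1) - I + S * G * I) with hT
    have hTn : nrm 15 r1 T ≤ ((2 ^ 124 : ℕ) : ℝ) / 2 ^ 160 := by
      rw [hT]
      refine (nrm_mul 15 hr1 _ _).trans ?_
      have j1 : nrm 15 r1 (C (1 / 2 : ℝ) * (κ * G + 1)) ≤ 1 := by
        rw [nrm_C_mul, abs_of_pos (by norm_num)]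
        have := nrm_add 15 hr1 (κ * G) 1
        rw [nrm_one] at this
        have h5 : (1 : ℝ) / 10 ^ 13 * 16 ≤ 1 := by norm_num
        linarith
      have j2 : nrm 15 r1 (S * G * I) ≤ 17 := by
        refine (nrm_mul 15 hr1 _ _).trans ?_
        have h6 := nrm_mul 15 hr1 S G
        have h7 : nrm 15 r1 S * nrm 15 r1 G ≤ 102 / 100 * 16 :=
          mul_le_mul hS1 hGn hG0 (by norm_num)
        refine (mul_le_mul (h6.trans h7) i2 (nrm_nonneg 15 hr1 _) (by norm_num)).trans ?_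
        norm_num
      have j3 : nrm 15 r1 (C (1 / 2 : ℝ) * (κ * G + 1) - I + S * G * I) ≤ 20 := by
        have h8 := nrm_add 15 hr1 (C (1 / 2 : ℝ) * (κ * G + 1) - I) (S * G * I)
        have h9 := nrm_sub 15 hr1 (C (1 / 2 : ℝ) * (κ * G + 1)) I
        linarith
      refine (mul_le_mul hκ1 j3 (nrm_nonneg 15 hr1 _) (by norm_num)).trans ?_
      push_cast
      norm_num
    have b2 := hadd 15 r1 ξ _ _ _ _ hr1 b1 (ap_small 15 r1 ξ T (2 ^ 124) hTn)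
    have e : muR false S κ ξ₁ = C (((-1 : ℤ)) : ℝ) * S + T := by
      have hc : (C (1 / 2 : ℝ) : ℝ⟦X⟧) * 2 = 1 := by
        rw [show (2 : ℝ⟦X⟧) = C (2 : ℝ) by rw [map_ofNat], ← map_mul]
        norm_num
      simp only [muR, Bool.false_eq_true, if_false]
      push_cast
      rw [map_neg, map_one, ← hG, ← hI, hT]
      linear_combination (-S) * hinv
    rw [e]
    exact b2

end TWP
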