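import Mathlib
import Pool.Agent.TWP.StB
import Pool.Agent.TWP.KNrm
import Pool.Agent.TWP.FTC
import Pool.Agent.TWP.FTS
import Pool.Agent.TWP.FTA
import Pool.Agent.TWP.FTM
import Pool.Agent.TWP.FQS

set_option autoImplicit false

/-! TWP, module BRF: functions to series, right tail (helper69, for helper21). -/

namespace TWP

open PowerSeries Finset Filter Topology
open scoped ContDiff

namespace BRFaux

theorem ta : S_TA := TA TC TS

theorem tm : S_TM := TM TC TS ta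

theorem psi_smooth (t : ℝ) : ContDiffAt ℝ ∞ psiT t := by
  unfold psiT
  fun_prop

theorem sqrt_smooth {t : ℝ} (ht : 0 < t) : ContDiffAt ℝ ∞ Real.sqrt t :=
  Real.contDiffAt_sqrt ht.ne'

theorem tay_cmul {ψ f : ℝ → ℝ} {t : ℝ} (hψ : ContDiffAt ℝ ∞ ψ t) (hf : ContDiffAt ℝ ∞ f t)
    (c : ℝ) : Tay ψ (fun s => c * f s) t = C c * Tay ψ f t := by
  have h1 := tm ψ t hψ (fun _ => c) f contDiffAt_const hf
  rw [h1, (ta ψ t hψ).1 c]

theorem tay_neg {ψ f : ℝ → ℝ} {t : ℝ} (hψ : ContDiffAt ℝ ∞ ψ t) (hf : ContDiffAt ℝ ∞ f t) :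
    Tay ψ (fun s => -(f s)) t = -Tay ψ f t := by
  have h1 := tay_cmul hψ hf (-1)
  have h2 : (fun s => (-1 : ℝ) * f s) = fun s => -(f s) := by funext s; ring
  rw [h2] at h1
  rw [h1, map_neg, map_one]
  ring

theorem zR_smooth {t : ℝ} (ht : 0 < t) : ContDiffAt ℝ ∞ Pool.Agent.TWP.Tail.zR t := by
  have h1 : ContDiffAt ℝ ∞ (fun s : ℝ => 1 / (s * Real.sqrt s)) t := by
    refine ContDiffAt.div contDiffAt_const (contDiffAt_id.mul (sqrt_smooth ht)) ?_
    exact (mul_pos ht (Real.sqrt_pos.2 ht)).ne'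
  exact h1

theorem divsqrt_smooth {f : ℝ → ℝ} {t : ℝ} (ht : 0 < t) (hf : ContDiffAt ℝ ∞ f t) :
    ContDiffAt ℝ ∞ (fun s => f s / Real.sqrt s) t :=
  hf.div (sqrt_smooth ht) (Real.sqrt_pos.2 ht).ne'

theorem deriv_divsqrt {f : ℝ → ℝ} {f' s : ℝ} (hs : 0 < s) (hf : HasDerivAt f f' s) :
    deriv (fun s => f s / Real.sqrt s) s =
      (f' * Real.sqrt s - f s * (1 / (2 * Real.sqrt s))) / Real.sqrt s ^ 2 :=
  (hf.div (Real.hasDerivAt_sqrt hs.ne') (Real.sqrt_pos.2 hs).ne').deriv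

end BRFaux

open BRFaux in
theorem t_BRF : S_BRF := by
  intro q l t hQL ht
  obtain ⟨hq, hl⟩ := QS q l hQL
  have hψ := psi_smooth t
  have hz : ContDiffAt ℝ ∞ Pool.Agent.TWP.Tail.zR t := zR_smooth ht
  have hqt : ContDiffAt ℝ ∞ q t := hq.contDiffAt
  have hlt : ContDiffAt ℝ ∞ l t := hl.contDiffAt
  have hS : ContDiffAt ℝ ∞ (fun s => -(l s) / Real.sqrt s) t := divsqrt_smooth ht hlt.neg
  have hκ : ContDiffAt ℝ ∞ (fun s => q s / Real.sqrt s) t := divsqrt_smooth ht hqt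
  have hdS := TS.2.1 psiT _ t hψ hS
  have hdκ := TS.2.1 psiT _ t hψ hκ
  have hpos : ∀ᶠ s : ℝ in 𝓝 t, 0 < s := eventually_gt_nhds ht
  refine ⟨?_, (TC psiT _ _ t EventuallyEq.rfl).2.1, (TC psiT _ _ t EventuallyEq.rfl).2.1,
    (TC psiT _ _ t EventuallyEq.rfl).2.1, ?_, ?_⟩
  · -- `D ξ = -ξ`
    rw [(TC psiT Pool.Agent.TWP.Tail.zR Pool.Agent.TWP.Tail.zR t EventuallyEq.rfl).2.2,
      ← tay_neg hψ hz]
    refine (TC psiT _ _ t ?_).1
    filter_upwards [hpos] with s hs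
    show 2 / 3 * s * deriv Pool.Agent.TWP.Tail.zR s = -(Pool.Agent.TWP.Tail.zR s)
    rw [(Pool.Agent.TWP.Tail.hasDerivAt_zR s hs).deriv]
    field_simp
  · -- the Riccati equation
    rw [(TC psiT (fun s => -(l s) / Real.sqrt s) (fun s => -(l s) / Real.sqrt s) t
      EventuallyEq.rfl).2.2]
    have e1 : Tay psiT (fun s => Pool.Agent.TWP.Tail.zR s *
        (3 / 2 * dl psiT (fun s => -(l s) / Real.sqrt s) s + 1 / 2 * (-(l s) / Real.sqrt s))) t =
        Tay psiT Pool.Agent.TWP.Tail.zR t *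
        (C (3 / 2 : ℝ) * Tay psiT (dl psiT (fun s => -(l s) / Real.sqrt s)) t +
          C (1 / 2 : ℝ) * Tay psiT (fun s => -(l s) / Real.sqrt s) t) := by
      rw [tm psiT t hψ _ _ hz ((contDiffAt_const.mul hdS).add (contDiffAt_const.mul hS)),
        (ta psiT t hψ).2.1 _ _ (contDiffAt_const.mul hdS) (contDiffAt_const.mul hS),
        tay_cmul hψ hdS, tay_cmul hψ hS]
    have e2 : Tay psiT (fun s => (-(l s) / Real.sqrt s) * (-(l s) / Real.sqrt s) - 1 -
        2 * ((q s / Real.sqrt s) * (q s / Real.sqrt s))) t =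
        Tay psiT (fun s => -(l s) / Real.sqrt s) t ^ 2 - 1 -
          2 * Tay psiT (fun s => q s / Real.sqrt s) t ^ 2 := by
      rw [(ta psiT t hψ).2.2 _ _ ((hS.mul hS).sub contDiffAt_const)
          (contDiffAt_const.mul (hκ.mul hκ)),
        (ta psiT t hψ).2.2 _ _ (hS.mul hS) contDiffAt_const,
        tay_cmul hψ (hκ.mul hκ), tm psiT t hψ _ _ hS hS, tm psiT t hψ _ _ hκ hκ,
        (ta psiT t hψ).1, map_one, map_ofNat]
      ring
    rw [← e1, ← e2]
    refine (TC psiT _ _ t ?_).1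
    filter_upwards [hpos] with s hs
    have hsq : 0 < Real.sqrt s := Real.sqrt_pos.2 hs
    have hss : Real.sqrt s ^ 2 = s := Real.sq_sqrt hs.le
    have hd := deriv_divsqrt hs (hQL.dl s).neg
    show Pool.Agent.TWP.Tail.zR s * (3 / 2 * (2 / 3 * s * deriv (fun s => -(l s) / Real.sqrt s) s) +
      1 / 2 * (-(l s) / Real.sqrt s)) = _
    have hd' : deriv (fun s => -(l s) / Real.sqrt s) s =
      (-(s + 2 * q s ^ 2 - l s ^ 2) * Real.sqrt s - (-(l s)) * (1 / (2 * Real.sqrt s))) /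
        Real.sqrt s ^ 2 := hd
    rw [hd']
    show 1 / (s * Real.sqrt s) * _ = _
    generalize Real.sqrt s = w at hsq hss ⊢
    subst hss
    field_simp
    ring
  · -- the linear equation
    rw [(TC psiT (fun s => q s / Real.sqrt s) (fun s => q s / Real.sqrt s) t
      EventuallyEq.rfl).2.2]
    have e1 : Tay psiT (fun s => Pool.Agent.TWP.Tail.zR s *
        (dl psiT (fun s => q s / Real.sqrt s) s + 1 / 3 * (q s / Real.sqrt s))) t =
        Tay psiT Pool.Agent.TWP.Tail.zR t *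
        (Tay psiT (dl psiT (fun s => q s / Real.sqrt s)) t +
          C (1 / 3 : ℝ) * Tay psiT (fun s => q s / Real.sqrt s) t) := by
      rw [tm psiT t hψ _ _ hz (hdκ.add (contDiffAt_const.mul hκ)),
        (ta psiT t hψ).2.1 _ _ hdκ (contDiffAt_const.mul hκ), tay_cmul hψ hκ]
    have e2 : Tay psiT (fun s => -(2 / 3 * ((-(l s) / Real.sqrt s) * (q s / Real.sqrt s)))) t =
        -(C (2 / 3 : ℝ) * (Tay psiT (fun s => -(l s) / Real.sqrt s) t *
          Tay psiT (fun s => q s / Real.sqrt s) t)) := by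
      rw [tay_neg hψ (contDiffAt_const.mul (hS.mul hκ)), tay_cmul hψ (hS.mul hκ),
        tm psiT t hψ _ _ hS hκ]
    rw [← e1, ← e2]
    refine (TC psiT _ _ t ?_).1
    filter_upwards [hpos] with s hs
    have hsq : 0 < Real.sqrt s := Real.sqrt_pos.2 hs
    have hss : Real.sqrt s ^ 2 = s := Real.sq_sqrt hs.le
    have hd := deriv_divsqrt hs (hQL.dq s)
    show Pool.Agent.TWP.Tail.zR s * (2 / 3 * s * deriv (fun s => q s / Real.sqrt s) s +
      1 / 3 * (q s / Real.sqrt s)) = _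
    rw [hd]
    show 1 / (s * Real.sqrt s) * _ = _
    generalize Real.sqrt s = w at hsq hss ⊢
    subst hss
    field_simp
    ring

end TWP
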