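import Pool.Agent.TWP.StB
import Pool.Agent.TWP.FTC
import Pool.Agent.TWP.FTA
import Pool.Agent.TWP.FTM
import Pool.Agent.TWP.FTI
import Pool.Agent.TWP.FTS
import Pool.Agent.TWP.FQS

/-! TWP, module BRM: the series of `m/√s` on the right. -/

set_option autoImplicit false

namespace TWP

open PowerSeries Finset Filter Topology
open scoped ContDiff

namespace BRMaux

open Pool.Agent.TWP.Tail (zR zR_pos hasDerivAt_zR)

lemma tc : S_TC := TC
lemma ts : S_TS := TS
lemma ta : S_TA := TA TC TS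
lemma tm : S_TM := TM TC TS ta
lemma ti : S_TI := TI TC TS ta tm

lemma psi_smooth (t : ℝ) : ContDiffAt ℝ ∞ psiT t := by
  unfold psiT
  exact contDiffAt_const.mul contDiffAt_id

lemma sqrt_smooth (t : ℝ) (ht : 0 < t) : ContDiffAt ℝ ∞ Real.sqrt t :=
  Real.contDiffAt_sqrt ht.ne'

lemma zR_smooth (t : ℝ) (ht : 0 < t) : ContDiffAt ℝ ∞ zR t := by
  have h : zR = fun s : ℝ => 1 / (s * Real.sqrt s) := rfl
  rw [h]
  exact contDiffAt_const.div (contDiffAt_id.mul (sqrt_smooth t ht))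
    (mul_pos ht (Real.sqrt_pos.2 ht)).ne'

lemma tay_cmul (t c : ℝ) (f : ℝ → ℝ) (hf : ContDiffAt ℝ ∞ f t) :
    Tay psiT (fun s => c * f s) t = C c * Tay psiT f t := by
  have h := tm psiT t (psi_smooth t) (fun _ => c) f contDiffAt_const hf
  rw [(ta psiT t (psi_smooth t)).1 c] at h
  exact h

/-- the general step from `μ = m/√s` to the first Toda function -/
lemma step (m μ : ℝ → ℝ) (t : ℝ) (ht : 0 < t) (hμ : ContDiffAt ℝ ∞ μ t)
    (hm : m =ᶠ[𝓝 t] fun s => Real.sqrt s * μ s) :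
    ContDiffAt ℝ ∞ m t ∧
    Tay psiT (fun s => Real.sqrt s * toda m 1 s) t =
      -(C (3 / 2 : ℝ) * D (Tay psiT μ t) + C (1 / 2 : ℝ) * Tay psiT μ t) := by
  have hms : ContDiffAt ℝ ∞ m t := ((sqrt_smooth t ht).mul hμ).congr_of_eventuallyEq hm
  refine ⟨hms, ?_⟩
  have hev : (fun s => Real.sqrt s * toda m 1 s) =ᶠ[𝓝 t]
      fun s => (-(3 / 2)) * dl psiT μ s + (-(1 / 2)) * μ s := by
    have hd : ∀ᶠ s in 𝓝 t, DifferentiableAt ℝ μ s := by
      have h1 : ContDiffAt ℝ 1 μ t := hμ.of_le (by exact_mod_cast le_top)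
      have h2 := h1.eventually (by simp)
      exact h2.mono fun s hs => hs.differentiableAt (by simp)
    have hp : ∀ᶠ s in 𝓝 t, 0 < s := lt_mem_nhds ht
    have hd2 : deriv m =ᶠ[𝓝 t] deriv (fun s => Real.sqrt s * μ s) := hm.deriv
    filter_upwards [hd, hp, hd2] with s hs hs0 hs2
    have hsq : HasDerivAt Real.sqrt (1 / (2 * Real.sqrt s)) s := Real.hasDerivAt_sqrt hs0.ne'
    have h3 : deriv (fun s => Real.sqrt s * μ s) s =
        1 / (2 * Real.sqrt s) * μ s + Real.sqrt s * deriv μ s :=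
      (hsq.mul hs.hasDerivAt).deriv
    have h4 : toda m 1 s = - deriv m s := rfl
    have hss : Real.sqrt s * Real.sqrt s = s := Real.mul_self_sqrt hs0.le
    have hs1 : Real.sqrt s ≠ 0 := (Real.sqrt_pos.2 hs0).ne'
    rw [h4, hs2, h3, dl, psiT]
    have h5 : Real.sqrt s * -(1 / (2 * Real.sqrt s) * μ s + Real.sqrt s * deriv μ s) =
        -(1 / 2 * μ s) - (Real.sqrt s * Real.sqrt s) * deriv μ s := by
      field_simp
      ring
    rw [h5, hss]
    ring
  have hdl : ContDiffAt ℝ ∞ (dl psiT μ) t := ts.2.1 psiT μ t (psi_smooth t) hμ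
  rw [(tc psiT _ _ t hev).1]
  have h1 := (ta psiT t (psi_smooth t)).2.1 (fun s => (-(3 / 2)) * dl psiT μ s)
    (fun s => (-(1 / 2)) * μ s) (contDiffAt_const.mul hdl) (contDiffAt_const.mul hμ)
  rw [h1, tay_cmul t _ _ hdl, tay_cmul t _ _ hμ, (tc psiT μ μ t (Filter.EventuallyEq.refl _ _)).2.2]
  rw [map_neg, map_neg]
  ring

end BRMaux

open BRMaux in
open Pool.Agent.TWP.Tail (zR zR_pos hasDerivAt_zR) in
theorem t_BRM (hRF : S_BRF) : S_BRM := by
  intro q l t two hq ht hne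
  obtain ⟨hqs, hls⟩ := QS q l hq
  have hψ := psi_smooth t
  set Sf : ℝ → ℝ := fun s => -(l s) / Real.sqrt s with hSf
  set κf : ℝ → ℝ := fun s => q s / Real.sqrt s with hκf
  obtain ⟨-, hz0, hS0, hκ0, hSeq, -⟩ := hRF q l t hq ht
  have hsq : Real.sqrt t ≠ 0 := (Real.sqrt_pos.2 ht).ne'
  have hSs : ContDiffAt ℝ ∞ Sf t := (hls.contDiffAt.neg).div (sqrt_smooth t ht) hsq
  have hκs : ContDiffAt ℝ ∞ κf t := hqs.contDiffAt.div (sqrt_smooth t ht) hsq
  have hzs := zR_smooth t ht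
  have hzp := zR_pos t ht
  set S : ℝ⟦X⟧ := Tay psiT Sf t with hS
  set κ : ℝ⟦X⟧ := Tay psiT κf t with hκ
  set ξ : ℝ⟦X⟧ := Tay psiT zR t with hξ
  have hξne : constantCoeff ξ ≠ 0 := by
    have : constantCoeff ξ = coeff 0 ξ := by rw [coeff_zero_eq_constantCoeff_apply]
    rw [this, hz0]
    exact hzp.ne'
  have hξi : ξ * ξ⁻¹ = 1 := PowerSeries.mul_inv_cancel _ hξne
  -- the function `G`
  set Gf : ℝ → ℝ := fun s => (Sf s * Sf s - 1 - κf s * κf s) / zR s with hGf
  have hN : ContDiffAt ℝ ∞ (fun s => Sf s * Sf s - 1 - κf s * κf s) t :=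
    ((hSs.mul hSs).sub contDiffAt_const).sub (hκs.mul hκs)
  have hGs : ContDiffAt ℝ ∞ Gf t := hN.div hzs hzp.ne'
  have hTN : Tay psiT (fun s => Sf s * Sf s - 1 - κf s * κf s) t = S * S - 1 - κ * κ := by
    have h1 := (ta psiT t hψ).2.2 (fun s => Sf s * Sf s - 1) (fun s => κf s * κf s)
      ((hSs.mul hSs).sub contDiffAt_const) (hκs.mul hκs)
    have h2 := (ta psiT t hψ).2.2 (fun s => Sf s * Sf s) (fun _ => 1)
      (hSs.mul hSs) contDiffAt_const
    rw [h1, h2, (ta psiT t hψ).1 1, tm psiT t hψ Sf Sf hSs hSs, tm psiT t hψ κf κf hκs hκs, map_one]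
  have hTG : Tay psiT Gf t = GR S κ ξ := by
    have h1 := (ti psiT t hψ (fun s => Sf s * Sf s - 1 - κf s * κf s) zR hN hzs hzp.ne').2
    rw [hGf, h1, hTN, GR]
    have h2 : C (3 / 2 : ℝ) * D S + C (1 / 2 : ℝ) * S = ξ⁻¹ * (S ^ 2 - 1 - 2 * κ ^ 2) := by
      rw [← hSeq]
      calc C (3 / 2 : ℝ) * D S + C (1 / 2 : ℝ) * S
          = (ξ * ξ⁻¹) * (C (3 / 2 : ℝ) * D S + C (1 / 2 : ℝ) * S) := by rw [hξi, one_mul]
        _ = _ := by ring
    calc (S * S - 1 - κ * κ) * ξ⁻¹ = ξ⁻¹ * (S ^ 2 - 1 - 2 * κ ^ 2) + κ ^ 2 * ξ⁻¹ := by ring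
      _ = _ := by rw [← h2]; ring
  have hG0 : coeff 0 (GR S κ ξ) = Gf t := by
    rw [← hTG]; exact (tc psiT Gf Gf t (Filter.EventuallyEq.refl _ _)).2.1
  have hGval : ∀ s : ℝ, 0 < s → Gf s = Real.sqrt s * gf q l s := by
    intro s hs
    have h0 : Real.sqrt s ≠ 0 := (Real.sqrt_pos.2 hs).ne'
    have hss : Real.sqrt s * Real.sqrt s = s := Real.mul_self_sqrt hs.le
    have hss2 : Real.sqrt s ^ 2 = s := by rw [sq, hss]
    have hzz : zR s = 1 / (s * Real.sqrt s) := rfl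
    simp only [hGf, hSf, hκf, gf, hzz]
    have e1 : -l s / Real.sqrt s * (-l s / Real.sqrt s) = l s ^ 2 / s := by
      rw [div_mul_div_comm, hss]; ring
    have e2 : q s / Real.sqrt s * (q s / Real.sqrt s) = q s ^ 2 / s := by
      rw [div_mul_div_comm, hss]; ring
    rw [e1, e2]
    field_simp
  have hκ0' : coeff 0 κ = κf t := hκ0
  cases two with
  | true =>
    simp only [if_true] at hne ⊢
    rw [hG0] at hne
    set μ : ℝ → ℝ := fun s => κf s * κf s * Gf s - (Gf s)⁻¹ with hμ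
    have hμs : ContDiffAt ℝ ∞ μ t := ((hκs.mul hκs).mul hGs).sub (hGs.inv hne)
    have hTμ : Tay psiT μ t = muR true S κ ξ := by
      have h1 := (ta psiT t hψ).2.2 (fun s => κf s * κf s * Gf s) (fun s => (Gf s)⁻¹)
        ((hκs.mul hκs).mul hGs) (hGs.inv hne)
      rw [h1, tm psiT t hψ (fun s => κf s * κf s) Gf (hκs.mul hκs) hGs,
        tm psiT t hψ κf κf hκs hκs, (ti psiT t hψ Gf Gf hGs hGs hne).1, hTG]
      simp only [muR, if_true]
      ring
    have hm : mTwo q l =ᶠ[𝓝 t] fun s => Real.sqrt s * μ s := by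
      have hp : ∀ᶠ s in 𝓝 t, 0 < s := lt_mem_nhds ht
      filter_upwards [hp] with s hs
      have h0 : Real.sqrt s ≠ 0 := (Real.sqrt_pos.2 hs).ne'
      have hss : Real.sqrt s * Real.sqrt s = s := Real.mul_self_sqrt hs.le
      simp only [hμ, hGval s hs, mTwo, hκf]
      have e2 : q s / Real.sqrt s * (q s / Real.sqrt s) = q s ^ 2 / s := by
        rw [div_mul_div_comm, hss]; ring
      rw [e2, mul_inv, one_div]
      have e3 : Real.sqrt s * (q s ^ 2 / s * (Real.sqrt s * gf q l s) -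
          (Real.sqrt s)⁻¹ * (gf q l s)⁻¹) =
          (Real.sqrt s * Real.sqrt s) / s * (q s ^ 2 * gf q l s) -
          (Real.sqrt s * (Real.sqrt s)⁻¹) * (gf q l s)⁻¹ := by ring
      rw [e3, hss, div_self hs.ne', mul_inv_cancel₀ h0]
      ring
    have := step (mTwo q l) μ t ht hμs hm
    rw [hTμ] at this
    exact this
  | false =>
    simp only [Bool.false_eq_true, if_false] at hne ⊢
    have hne' : 1 + κf t * Gf t ≠ 0 := by
      have h1 : coeff 0 (1 + κ * GR S κ ξ) = 1 + κf t * Gf t := by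
        rw [← hκ0', ← hG0]
        simp only [coeff_zero_eq_constantCoeff_apply, map_add, map_mul, map_one]
      rw [← h1]; exact hne
    set μ : ℝ → ℝ := fun s => 1 / 2 * (κf s * κf s * Gf s + κf s) -
      (Sf s + κf s) * (1 + κf s * Gf s)⁻¹ with hμ
    have hden : ContDiffAt ℝ ∞ (fun s => 1 + κf s * Gf s) t :=
      contDiffAt_const.add (hκs.mul hGs)
    have hA : ContDiffAt ℝ ∞ (fun s => κf s * κf s * Gf s + κf s) t :=
      ((hκs.mul hκs).mul hGs).add hκs
    have hμs : ContDiffAt ℝ ∞ μ t :=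
      (contDiffAt_const.mul hA).sub ((hSs.add hκs).mul (hden.inv hne'))
    have hTμ : Tay psiT μ t = muR false S κ ξ := by
      have h1 := (ta psiT t hψ).2.2 (fun s => 1 / 2 * (κf s * κf s * Gf s + κf s))
        (fun s => (Sf s + κf s) * (1 + κf s * Gf s)⁻¹)
        (contDiffAt_const.mul hA) ((hSs.add hκs).mul (hden.inv hne'))
      have h2 := (ta psiT t hψ).2.1 (fun s => κf s * κf s * Gf s) κf
        ((hκs.mul hκs).mul hGs) hκs
      have h3 := (ta psiT t hψ).2.1 Sf κf hSs hκs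
      have h4 := (ta psiT t hψ).2.1 (fun _ => 1) (fun s => κf s * Gf s) contDiffAt_const (hκs.mul hGs)
      rw [h1, tay_cmul t _ _ hA, h2, tm psiT t hψ (fun s => κf s * κf s) Gf (hκs.mul hκs) hGs,
        tm psiT t hψ κf κf hκs hκs,
        tm psiT t hψ (fun s => Sf s + κf s) (fun s => (1 + κf s * Gf s)⁻¹) (hSs.add hκs)
          (hden.inv hne'), h3,
        (ti psiT t hψ (fun s => 1 + κf s * Gf s) (fun s => 1 + κf s * Gf s) hden hden hne').1, h4,
        tm psiT t hψ κf Gf hκs hGs, (ta psiT t hψ).1 1, map_one, hTG]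
      simp only [muR, Bool.false_eq_true, if_false]
      ring
    have hm : mOne q l =ᶠ[𝓝 t] fun s => Real.sqrt s * μ s := by
      have hp : ∀ᶠ s in 𝓝 t, 0 < s := lt_mem_nhds ht
      filter_upwards [hp] with s hs
      have h0 : Real.sqrt s ≠ 0 := (Real.sqrt_pos.2 hs).ne'
      have hss : Real.sqrt s * Real.sqrt s = s := Real.mul_self_sqrt hs.le
      simp only [hμ, hGval s hs, mOne, hκf, hSf]
      have e2 : q s / Real.sqrt s * (q s / Real.sqrt s) = q s ^ 2 / s := by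
        rw [div_mul_div_comm, hss]; ring
      have e4 : q s / Real.sqrt s * (Real.sqrt s * gf q l s) = q s * gf q l s := by
        field_simp
      rw [e2, e4]
      have e3 : Real.sqrt s * (1 / 2 * (q s ^ 2 / s * (Real.sqrt s * gf q l s) + q s / Real.sqrt s) -
          (-l s / Real.sqrt s + q s / Real.sqrt s) * (1 + q s * gf q l s)⁻¹) =
          1 / 2 * ((Real.sqrt s * Real.sqrt s) / s * (q s ^ 2 * gf q l s) +
            (Real.sqrt s / Real.sqrt s) * q s) -
          (Real.sqrt s / Real.sqrt s) * (-l s + q s) * (1 + q s * gf q l s)⁻¹ := by ring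
      rw [e3, hss, div_self hs.ne', div_self h0, div_eq_mul_inv (l s - q s)]
      ring
    have := step (mOne q l) μ t ht hμs hm
    rw [hTμ] at this
    exact this

end TWP
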