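import Pool.Agent.TWP.StB

/-! TWP, module BRN: numbers, right tail (helper61). -/

set_option autoImplicit false

namespace TWP

open PowerSeries Finset Filter Topology
open scoped ContDiff

namespace BRNaux

open Pool.Agent.TWP.Tail

theorem take_cR : K.cR.take 31 = cS := by decide +kernel

theorem nb_cR : 1024 * nb 1024 (K.cR.drop 31) ≤
    18 * 10 ^ 27 * 8 ^ 31 * 1024 ^ (K.cR.drop 31).length := by decide +kernel

theorem ev_diff (z : ℝ) (hz : 0 < z) (hz1 : z ≤ 1 / 128) :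
    |ev K.cR (z / 8) - ev cS (z / 8)| ≤ 18 * 10 ^ 27 * z ^ 31 := by
  have h1 : ev K.cR (z / 8) - ev cS (z / 8) = (z / 8) ^ 31 * ev (K.cR.drop 31) (z / 8) := by
    rw [ev_split 31 K.cR, take_cR]
    ring
  have h2 := abs_ev_le 1024 (by norm_num) (K.cR.drop 31) (z / 8) (by
    rw [abs_of_pos (by positivity)]
    push_cast
    linarith)
  have h3 : (1024 : ℝ) * nb 1024 (K.cR.drop 31) ≤
      18 * 10 ^ 27 * 8 ^ 31 * 1024 ^ (K.cR.drop 31).length := by exact_mod_cast nb_cR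
  have h4 : |ev (K.cR.drop 31) (z / 8)| ≤ 18 * 10 ^ 27 * 8 ^ 31 := by
    refine le_of_mul_le_mul_right (a := (1024 : ℝ) ^ (K.cR.drop 31).length) ?_ (by positivity)
    have h5 := h2
    push_cast at h5
    exact h5.trans h3
  rw [h1, abs_mul, abs_of_pos (by positivity : (0 : ℝ) < (z / 8) ^ 31), div_pow]
  calc z ^ 31 / 8 ^ 31 * |ev (K.cR.drop 31) (z / 8)|
      ≤ z ^ 31 / 8 ^ 31 * (18 * 10 ^ 27 * 8 ^ 31) := mul_le_mul_of_nonneg_left h4 (by positivity)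
    _ = 18 * 10 ^ 27 * z ^ 31 := by field_simp

theorem pw (u : ℝ) (hu : 0 < u) (hu1 : u ≤ 1) (k : ℕ) :
    (u / 128) ^ (17 + k) * (1 / u) ^ 16 ≤ (1 / 128) ^ (17 + k) * u := by
  have h1 : (u / 128) ^ (17 + k) * (1 / u) ^ 16 = (1 / 128) ^ (17 + k) * (u * u ^ k) := by
    rw [div_pow, div_pow, div_pow, one_pow, one_pow, show 17 + k = 16 + (1 + k) by omega,
      pow_add u 16 (1 + k), pow_add u 1 k, pow_one]
    field_simp
  rw [h1]
  have h2 : u ^ k ≤ 1 := pow_le_one₀ hu.le hu1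
  refine mul_le_mul_of_nonneg_left ?_ (by positivity)
  nlinarith

theorem part1 (z : ℝ) (hz : 0 < z) (hz1 : z ≤ 1 / 128) :
    ((3 * 10 ^ 28 * z ^ 31 + (Nat.factorial 85 : ℝ) * (3 / 2) ^ 85 * z ^ 85) +
      12 / 10 * (11 * 10 ^ 68 * z ^ 51 / z)) * (1 / (128 * z)) ^ 16 * (6 * 10 ^ 21) ≤
    1 / 10 ^ 13 * (128 * z) := by
  obtain ⟨u, hu⟩ : ∃ u : ℝ, u = 128 * z := ⟨_, rfl⟩
  have hu0 : 0 < u := by rw [hu]; positivity
  have hu1 : u ≤ 1 := by rw [hu]; linarith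
  have hzu : u / 128 = z := by rw [hu]; ring
  have e1 : z ^ 31 * (1 / u) ^ 16 ≤ (1 / 128) ^ 31 * u := by
    have := pw u hu0 hu1 14
    rwa [hzu] at this
  have e2 : z ^ 85 * (1 / u) ^ 16 ≤ (1 / 128) ^ 85 * u := by
    have := pw u hu0 hu1 68
    rwa [hzu] at this
  have e3 : z ^ 50 * (1 / u) ^ 16 ≤ (1 / 128) ^ 50 * u := by
    have := pw u hu0 hu1 33
    rwa [hzu] at this
  rw [← hu]
  have h1 : z ^ 51 / z = z ^ 50 := by
    rw [pow_succ]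
    field_simp
  have h2 : ((3 * 10 ^ 28 * z ^ 31 + (Nat.factorial 85 : ℝ) * (3 / 2) ^ 85 * z ^ 85) +
      12 / 10 * (11 * 10 ^ 68 * z ^ 51 / z)) * (1 / u) ^ 16 * (6 * 10 ^ 21) =
      6 * 10 ^ 21 * (3 * 10 ^ 28 * (z ^ 31 * (1 / u) ^ 16) +
        (Nat.factorial 85 : ℝ) * (3 / 2) ^ 85 * (z ^ 85 * (1 / u) ^ 16) +
        12 / 10 * (11 * 10 ^ 68 * (z ^ 50 * (1 / u) ^ 16))) := by
    rw [mul_div_assoc, h1]
    ring
  rw [h2]
  have h3 : (0 : ℝ) ≤ (Nat.factorial 85 : ℝ) * (3 / 2) ^ 85 := by positivity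
  have e1' := mul_le_mul_of_nonneg_left e1 (by positivity : (0 : ℝ) ≤ 3 * 10 ^ 28)
  have e2' := mul_le_mul_of_nonneg_left e2 h3
  have e3' := mul_le_mul_of_nonneg_left e3 (by positivity : (0 : ℝ) ≤ 11 * 10 ^ 68)
  have e3'' := mul_le_mul_of_nonneg_left e3' (by norm_num : (0 : ℝ) ≤ 12 / 10)
  have hc : 6 * 10 ^ 21 * (3 * 10 ^ 28 * (1 / 128) ^ 31 +
      (Nat.factorial 85 : ℝ) * (3 / 2) ^ 85 * (1 / 128) ^ 85 +
      12 / 10 * (11 * 10 ^ 68 * (1 / 128) ^ 50)) ≤ (1 / 10 ^ 13 : ℝ) := by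
    norm_num [Nat.factorial]
  calc _ ≤ 6 * 10 ^ 21 * (3 * 10 ^ 28 * ((1 / 128) ^ 31 * u) +
        (Nat.factorial 85 : ℝ) * (3 / 2) ^ 85 * ((1 / 128) ^ 85 * u) +
        12 / 10 * (11 * 10 ^ 68 * ((1 / 128) ^ 50 * u))) :=
        mul_le_mul_of_nonneg_left (add_le_add (add_le_add e1' e2') e3'') (by positivity)
    _ = (6 * 10 ^ 21 * (3 * 10 ^ 28 * (1 / 128) ^ 31 +
      (Nat.factorial 85 : ℝ) * (3 / 2) ^ 85 * (1 / 128) ^ 85 +
      12 / 10 * (11 * 10 ^ 68 * (1 / 128) ^ 50))) * u := by ring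
    _ ≤ 1 / 10 ^ 13 * u := mul_le_mul_of_nonneg_right hc hu0.le

theorem part2 (z : ℝ) (hz : 0 < z) :
    Real.exp (-(2 / 3) / z) ≤ (Nat.factorial 85 : ℝ) * (3 / 2) ^ 85 * z ^ 85 := by
  have hx : 0 < 2 / 3 / z := by positivity
  have h1 := Real.pow_div_factorial_le_exp (2 / 3 / z) hx.le 85
  have h2 : -(2 / 3) / z = -(2 / 3 / z) := by ring
  rw [h2, Real.exp_neg]
  have h3 : 0 < (2 / 3 / z) ^ 85 / (Nat.factorial 85 : ℝ) := by positivity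
  refine (inv_anti₀ h3 h1).trans (le_of_eq ?_)
  rw [inv_div, div_pow, div_pow, div_pow]
  field_simp

end BRNaux

/-- **BRN**. -/
theorem t_BRN : S_BRN := by
  intro z hz hz1
  refine ⟨BRNaux.part1 z hz hz1, BRNaux.part2 z hz, fun s hs => ?_⟩
  have h1 := BRNaux.ev_diff z hz hz1
  have h2 : s - Pool.Agent.TWP.Tail.ev K.cR (z / 8) =
      (s - Pool.Agent.TWP.Tail.ev Pool.Agent.TWP.Tail.cS (z / 8)) -
        (Pool.Agent.TWP.Tail.ev K.cR (z / 8) -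
          Pool.Agent.TWP.Tail.ev Pool.Agent.TWP.Tail.cS (z / 8)) := by ring
  rw [h2]
  calc |_| ≤ |s - Pool.Agent.TWP.Tail.ev Pool.Agent.TWP.Tail.cS (z / 8)| +
        |Pool.Agent.TWP.Tail.ev K.cR (z / 8) -
          Pool.Agent.TWP.Tail.ev Pool.Agent.TWP.Tail.cS (z / 8)| := abs_sub _ _
    _ ≤ 12 * 10 ^ 27 * z ^ 31 + 18 * 10 ^ 27 * z ^ 31 := add_le_add hs h1
    _ = 3 * 10 ^ 28 * z ^ 31 := by ring

end TWP
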