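import Pool.Agent.TWP.StB

set_option autoImplicit false

/-! TWP, block B: the step condition on the right. -/

namespace TWP

open PowerSeries Finset Filter Topology
open scoped ContDiff

namespace BRSaux

/-- the condition at one point -/
def Good (a : ℝ → ℝ) (s : ℝ) : Prop := 0 < s ∧ ContDiffAt ℝ 3 a s ∧ 0 < a s

theorem good_ev {a : ℝ → ℝ} {t : ℝ} (ht : 0 < t) (ha : ContDiffAt ℝ ∞ a t) (h0 : 0 < a t) :
    ∀ᶠ s in 𝓝 t, Good a s := by
  have h3 : ContDiffAt ℝ 3 a t := by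
    refine ha.of_le ?_
    have e : ((3 : ℕ∞) : WithTop ℕ∞) ≤ ((⊤ : ℕ∞) : WithTop ℕ∞) := WithTop.coe_le_coe.2 le_top
    exact e
  have e1 : ∀ᶠ s in 𝓝 t, 0 < s := lt_mem_nhds ht
  have e2 : ∀ᶠ s in 𝓝 t, ContDiffAt ℝ 3 a s := h3.eventually (by decide)
  have e3 : ∀ᶠ s in 𝓝 t, 0 < a s := ha.continuousAt.eventually (lt_mem_nhds h0)
  filter_upwards [e1, e2, e3] with s h1 h2 h4
  exact ⟨h1, h2, h4⟩

theorem lam_val {a : ℝ → ℝ} {s : ℝ} (h : Good a s) :
    dl psiT (fun s => Real.sqrt s * a s) s / (Real.sqrt s * a s) =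
      1 / 3 + 2 / 3 * (s * (deriv a s / a s)) := by
  obtain ⟨hs, hc, h0⟩ := h
  have hd : DifferentiableAt ℝ a s := hc.differentiableAt (by norm_num)
  have hr : 0 < Real.sqrt s := Real.sqrt_pos.2 hs
  have hss : Real.sqrt s * Real.sqrt s = s := Real.mul_self_sqrt hs.le
  have h1 : HasDerivAt (fun s => Real.sqrt s * a s)
      (1 / (2 * Real.sqrt s) * a s + Real.sqrt s * deriv a s) s :=
    (Real.hasDerivAt_sqrt hs.ne').mul hd.hasDerivAt
  unfold dl psiT
  rw [h1.deriv]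
  have e : 2 / 3 * s = 2 / 3 * (Real.sqrt s * Real.sqrt s) := by rw [hss]
  have e2 : s * (deriv a s / a s) = Real.sqrt s * Real.sqrt s * (deriv a s / a s) := by rw [hss]
  rw [e, e2]
  field_simp

theorem lam_der {a : ℝ → ℝ} {s : ℝ} (h : ∀ᶠ u in 𝓝 s, Good a u) :
    dl psiT (fun s => dl psiT (fun s => Real.sqrt s * a s) s / (Real.sqrt s * a s)) s =
      4 / 9 * (s * (deriv a s / a s) + s ^ 2 * deriv (fun s => deriv a s / a s) s) := by
  have heq : (fun s => dl psiT (fun s => Real.sqrt s * a s) s / (Real.sqrt s * a s)) =ᶠ[𝓝 s]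
      fun u => 1 / 3 + 2 / 3 * (u * (deriv a u / a u)) := by
    filter_upwards [h] with u hu
    exact lam_val hu
  obtain ⟨hs, hc, h0⟩ := h.self_of_nhds
  have hd : DifferentiableAt ℝ a s := hc.differentiableAt (by norm_num)
  have hd2 : DifferentiableAt ℝ (deriv a) s := by
    have h2 : ContDiffAt ℝ 2 (fderiv ℝ a) s := hc.fderiv_right (by norm_num)
    have h4 : ContDiffAt ℝ 2 (fun u => fderiv ℝ a u 1) s := h2.clm_apply contDiffAt_const
    exact h4.differentiableAt (by norm_num)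
  have hL : DifferentiableAt ℝ (fun s => deriv a s / a s) s := hd2.div hd h0.ne'
  have h1 : HasDerivAt (fun u => 1 / 3 + 2 / 3 * (u * (deriv a u / a u)))
      (2 / 3 * (1 * (deriv a s / a s) + s * deriv (fun s => deriv a s / a s) s)) s := by
    exact (((hasDerivAt_id s).mul hL.hasDerivAt).const_mul (2 / 3 : ℝ)).const_add (1 / 3)
  have h2 : deriv (fun s => dl psiT (fun s => Real.sqrt s * a s) s / (Real.sqrt s * a s)) s =
      2 / 3 * (1 * (deriv a s / a s) + s * deriv (fun s => deriv a s / a s) s) := by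
    rw [heq.deriv_eq, h1.deriv]
  have h3 : dl psiT (fun s => dl psiT (fun s => Real.sqrt s * a s) s / (Real.sqrt s * a s)) s =
      2 / 3 * s * deriv (fun s => dl psiT (fun s => Real.sqrt s * a s) s /
        (Real.sqrt s * a s)) s := rfl
  rw [h3, h2]
  ring

end BRSaux

open BRSaux in
theorem t_BRS : S_BRS := by
  intro a t ht ha h0
  have hg := good_ev ht ha h0
  filter_upwards [hg.eventually_nhds] with s hs
  have hs0 := hs.self_of_nhds
  rw [lam_der hs, lam_val hs0]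
  have hpos : 0 < s := hs0.1
  have hr : 0 < Real.sqrt s := Real.sqrt_pos.2 hpos
  have hss : Real.sqrt s * Real.sqrt s = s := Real.mul_self_sqrt hpos.le
  have hz : Pool.Agent.TWP.Tail.zR s * s ^ 2 = Real.sqrt s := by
    unfold Pool.Agent.TWP.Tail.zR
    have e : s ^ 2 = s * (Real.sqrt s * Real.sqrt s) := by rw [hss]; ring
    rw [e]
    field_simp
  have e : ((((107 * 2 ^ 145 : ℤ) : ℝ) / 2 ^ 160) *
      (Pool.Agent.TWP.Tail.zR s / (107 / 8192)) ^ 1) = Pool.Agent.TWP.Tail.zR s / 4 := by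
    rw [pow_one]
    push_cast
    norm_num
    ring
  rw [e]
  have e2 : -(Pool.Agent.TWP.Tail.zR s / 4 *
      (((-2 : ℤ) : ℝ) + ((6 : ℤ) : ℝ) * (1 / 3 + 2 / 3 * (s * (deriv a s / a s))) -
        ((9 : ℤ) : ℝ) * (4 / 9 * (s * (deriv a s / a s) +
          s ^ 2 * deriv (fun s => deriv a s / a s) s)))) =
      Pool.Agent.TWP.Tail.zR s * s ^ 2 * deriv (fun s => deriv a s / a s) s := by
    push_cast
    ring
  rw [e2, hz]

end TWP
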