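import Pool.Agent.TWP.StB
import Pool.Agent.TWP.KNrm

/-! TWP, block B, module BRT: `radT` gives `TabOK`. -/

set_option autoImplicit false

namespace TWP

open PowerSeries Finset

namespace BRTaux

theorem exp_le (r : ℕ) (h : r ≤ 4096) :
    Real.exp ((r : ℝ) / 4096) ≤ (K.expP r : ℝ) / (720 * 4096 ^ 6) := by
  have hx0 : (0 : ℝ) ≤ (r : ℝ) / 4096 := by positivity
  have hr : (r : ℝ) ≤ 4096 := by exact_mod_cast h
  have hx1 : (r : ℝ) / 4096 ≤ 1 := by
    rw [div_le_one (by norm_num)]; exact hr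
  obtain ⟨x, hx⟩ : ∃ x : ℝ, x = (r : ℝ) / 4096 := ⟨_, rfl⟩
  have hrx : (r : ℝ) = 4096 * x := by rw [hx]; ring
  rw [← hx] at hx0 hx1 ⊢
  have h1 := Real.exp_bound' hx0 hx1 (n := 6) (by norm_num)
  have h2 : (K.expP r : ℝ) / (720 * 4096 ^ 6) =
      1 + x + x ^ 2 / 2 + x ^ 3 / 6 + x ^ 4 / 24 + x ^ 5 / 120 + 2 * x ^ 6 / 720 := by
    unfold K.expP
    push_cast
    rw [hrx]
    ring
  rw [h2]
  have h3 : (∑ m ∈ Finset.range 6, x ^ m / (m.factorial : ℝ)) =
      1 + x + x ^ 2 / 2 + x ^ 3 / 6 + x ^ 4 / 24 + x ^ 5 / 120 := by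
    simp only [Finset.sum_range_succ, Finset.sum_range_zero, Nat.factorial]
    norm_num
  rw [h3] at h1
  have h4 : x ^ 6 * ((6 : ℕ) + 1 : ℝ) / (((6 : ℕ).factorial : ℝ) * (6 : ℕ)) ≤ 2 * x ^ 6 / 720 := by
    have h5 : (0 : ℝ) ≤ x ^ 6 := by positivity
    have h6 : (((6 : ℕ).factorial : ℕ) : ℝ) = 720 := by norm_num [Nat.factorial]
    rw [h6]
    push_cast
    rw [div_le_div_iff₀ (by norm_num) (by norm_num)]
    nlinarith
  linarith

theorem w_le (zn zd r w : ℕ) (hzd : 0 < zd) (hr : r ≤ 4096)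
    (h : zn * K.expP r * 4096 ≤ w * zd * (720 * 4096 ^ 6)) :
    (zn : ℝ) / zd * Real.exp ((r : ℝ) / 4096) ≤ (w : ℝ) / 4096 := by
  have hzd' : (0 : ℝ) < zd := by exact_mod_cast hzd
  have h1 := exp_le r hr
  have h2 : (zn : ℝ) * K.expP r * 4096 ≤ w * zd * (720 * 4096 ^ 6) := by exact_mod_cast h
  have h3 : (zn : ℝ) / zd * Real.exp ((r : ℝ) / 4096) ≤
      (zn : ℝ) / zd * ((K.expP r : ℝ) / (720 * 4096 ^ 6)) :=
    mul_le_mul_of_nonneg_left h1 (by positivity)
  refine h3.trans ?_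
  rw [div_mul_div_comm, div_le_div_iff₀ (by positivity) (by norm_num)]
  calc (zn : ℝ) * K.expP r * 4096 ≤ w * zd * (720 * 4096 ^ 6) := h2
    _ = _ := by ring

theorem c_le (r r' c n : ℕ) (h : (n + 1) * r' ^ n * 1024 * 4096 ≤ c * r ^ (n + 1)) :
    ((n : ℝ) + 1) * ((r' : ℝ) / 4096) ^ n * 1024 ≤ c * ((r : ℝ) / 4096) ^ (n + 1) := by
  have h1 : ((n : ℝ) + 1) * (r' : ℝ) ^ n * 1024 * 4096 ≤ c * (r : ℝ) ^ (n + 1) := by
    exact_mod_cast h
  have hp : (0 : ℝ) < 4096 ^ (n + 1) := by positivity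
  have e1 : ((n : ℝ) + 1) * ((r' : ℝ) / 4096) ^ n * 1024 =
      (((n : ℝ) + 1) * (r' : ℝ) ^ n * 1024 * 4096) / 4096 ^ (n + 1) := by
    rw [div_pow, pow_succ]
    field_simp
  have e2 : (c : ℝ) * ((r : ℝ) / 4096) ^ (n + 1) = (c * (r : ℝ) ^ (n + 1)) / 4096 ^ (n + 1) := by
    rw [div_pow, mul_div_assoc]
  rw [e1, e2]
  exact div_le_div_of_nonneg_right h1 hp.le

end BRTaux

theorem BRTaux.main (zn zd M : ℕ) (rs : List ℕ) (tab : K.Tab) (ξ : ℝ⟦X⟧) (hzd : 0 < zd)
    (h : K.radT zn zd M rs tab = true)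
    (hξ : ∀ (M : ℕ) (r : ℝ), 0 ≤ r → nrm M r ξ ≤ (zn : ℝ) / zd * Real.exp r) :
    TabOK ξ M (List.map (fun r : ℕ => (r : ℝ) / 4096) rs) tab := by
  induction rs generalizing M tab with
  | nil => simp [K.radT] at h
  | cons r rs ih =>
    cases rs with
    | nil =>
      match tab, h with
      | [], h => simp [K.radT] at h
      | [(w, c)], h =>
        simp only [K.radT, Bool.and_eq_true, decide_eq_true_eq] at h
        obtain ⟨⟨⟨h1, h2⟩, h3⟩, h4⟩ := h
        change TabOK ξ M [(r : ℝ) / 4096] [(w, c)]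
        unfold TabOK
        have hr0 : (0 : ℝ) < (r : ℝ) / 4096 := by
          have : (0 : ℝ) < (r : ℝ) := by exact_mod_cast h1
          positivity
        exact ⟨hr0, h4, (hξ M _ hr0.le).trans (BRTaux.w_le zn zd r w hzd h2 h3)⟩
      | _ :: _ :: _, h => simp [K.radT] at h
    | cons r' rs =>
      match tab, h with
      | [], h => simp [K.radT] at h
      | [(w, c)], h => simp [K.radT] at h
      | (w, c) :: wc :: tab, h =>
        simp only [K.radT, Bool.and_eq_true, decide_eq_true_eq, List.all_eq_true,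
          List.mem_range] at h
        obtain ⟨⟨⟨⟨⟨⟨⟨⟨h1, h2⟩, h3⟩, h4⟩, h5⟩, h6⟩, h7⟩, h8⟩, h9⟩ := h
        have hr0 : (0 : ℝ) < (r : ℝ) / 4096 := by
          have : (0 : ℝ) < (r : ℝ) := by exact_mod_cast h1
          positivity
        have hr1 : (0 : ℝ) < (r' : ℝ) / 4096 := by
          have : (0 : ℝ) < (r' : ℝ) := by exact_mod_cast h5
          positivity
        have hrr : (r' : ℝ) / 4096 ≤ (r : ℝ) / 4096 := by
          have : (r' : ℝ) ≤ (r : ℝ) := by exact_mod_cast h6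
          exact div_le_div_of_nonneg_right this (by norm_num)
        change TabOK ξ M ((r : ℝ) / 4096 :: (r' : ℝ) / 4096 :: rs.map fun r : ℕ => (r : ℝ) / 4096)
          ((w, c) :: wc :: tab)
        unfold TabOK
        refine ⟨hr0, h4, (hξ M _ hr0.le).trans (BRTaux.w_le zn zd r w hzd h2 h3), hr1, hrr,
          fun n hn => BRTaux.c_le r r' c n (h7 n (by omega)), h8, ?_⟩
        have := ih (M - 1) (wc :: tab) h9
        simpa only [List.map_cons] using this

theorem t_BRT : S_BRT := by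
  intro zn zd M rs tab ξ hzd h hξ
  have h1 := BRTaux.main zn zd M rs tab ξ hzd h hξ
  have e : (rs.map fun r => (r : ℝ) / 4096) = List.map (fun r : ℕ => (r : ℝ) / 4096) rs := by
    clear h h1
    induction rs with
    | nil => rfl
    | cons a rs ih =>
      simp only [List.map_cons]
      rw [← ih]
      rfl
  rw [← e] at h1
  exact h1

end TWP
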