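import Pool.Agent.TWP.Eng
namespace TWP.K
/-- table entries (weight numerator ω·4096, derivative constant c·1024) -/
abbrev Tab := List (ℕ × ℕ)

/-- the chain: checks positivity of a_1, …, a_K ; table starts at the index of a -/
def chain (tail : Bool) (N h : ℕ) (zc : ℤ) (zs : ℕ) (hh k1 k2 : ℤ) : ℕ → Tab → AP → AP → Bool
  | 0, _, a, _ => posA h a
  | K + 1, (w0, c0) :: (w1, c1) :: tab, a, ap =>
    posA h a && (match stepA tail N w0 w1 c0 c1 zc zs hh k1 k2 a ap with
      | none => false
      | some b => chain tail N h zc zs hh k1 k2 K tab b a)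
  | _ + 1, _, _, _ => false
end TWP.K
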