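import Mathlib
import Pool.Agent.TWP.KNrm
import Pool.Agent.TWP.EngT

set_option autoImplicit false

/-! TWP: soundness of the chain (module CHAIN). -/

namespace TWP

open PowerSeries Finset

namespace KCh

theorem tab_head (ξ : ℝ⟦X⟧) (M : ℕ) (rs : List ℝ) (w c : ℕ) (tab : K.Tab)
    (h : TabOK ξ M rs ((w, c) :: tab)) :
    ∃ r rs', rs = r :: rs' ∧ Okw M r ξ w := by
  match rs, tab, h with
  | [r], [], h => exact ⟨r, [], rfl, h⟩
  | r :: r' :: rs', wc :: tab', h => exact ⟨r, r' :: rs', rfl, h.1, h.2.1, h.2.2.1⟩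
  | [], _, h => simp [TabOK] at h
  | [r], _ :: _, h => simp [TabOK] at h
  | r :: r' :: rs', [], h => simp [TabOK] at h

theorem tab_two (ξ : ℝ⟦X⟧) (M : ℕ) (rs : List ℝ) (w c w1 c1 : ℕ) (tab : K.Tab)
    (h : TabOK ξ M rs ((w, c) :: (w1, c1) :: tab)) :
    ∃ r r' rs', rs = r :: r' :: rs' ∧ Okw M r ξ w ∧ OkD M r r' c ∧
      TabOK ξ (M - 1) (r' :: rs') ((w1, c1) :: tab) := by
  match rs, h with
  | r :: r' :: rs', h =>
    obtain ⟨h1, h2, h3, h4, h5, h6, h7, h8⟩ := h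
    exact ⟨r, r', rs', rfl, ⟨h1, h2, h3⟩, ⟨h4, h5, h6, h7⟩, h8⟩
  | [], h => simp [TabOK] at h
  | [r], h => simp [TabOK] at h

theorem tab_len (tab : K.Tab) (h : 3 ≤ tab.length) :
    ∃ w0 c0 w1 c1 w2 c2 tab', tab = (w0, c0) :: (w1, c1) :: (w2, c2) :: tab' := by
  rcases tab with _ | ⟨⟨w0, c0⟩, tab⟩
  · simp at h
  rcases tab with _ | ⟨⟨w1, c1⟩, tab⟩
  · simp at h
  rcases tab with _ | ⟨⟨w2, c2⟩, tab⟩
  · simp at h
  exact ⟨w0, c0, w1, c1, w2, c2, tab, rfl⟩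

attribute [local irreducible] K.stepA K.posA in
theorem chain_zero (tail : Bool) (N h : ℕ) (zc : ℤ) (zs : ℕ) (hh k1 k2 : ℤ)
    (tab : K.Tab) (a ap : K.AP) :
    K.chain tail N h zc zs hh k1 k2 0 tab a ap = K.posA h a := rfl

attribute [local irreducible] K.stepA K.posA in
theorem chain_succ (tail : Bool) (N h : ℕ) (zc : ℤ) (zs : ℕ) (hh k1 k2 : ℤ) (m w0 c0 w1 c1 : ℕ)
    (tab : K.Tab) (a ap : K.AP) :
    K.chain tail N h zc zs hh k1 k2 (m + 1) ((w0, c0) :: (w1, c1) :: tab) a ap =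
    (K.posA h a && (match K.stepA tail N w0 w1 c0 c1 zc zs hh k1 k2 a ap with
      | none => false
      | some b => K.chain tail N h zc zs hh k1 k2 m tab b a)) := rfl

theorem chain_some (tail : Bool) (N h : ℕ) (zc : ℤ) (zs : ℕ) (hh k1 k2 : ℤ) (m w0 c0 w1 c1 : ℕ)
    (tab : K.Tab) (a ap : K.AP)
    (H : K.chain tail N h zc zs hh k1 k2 (m + 1) ((w0, c0) :: (w1, c1) :: tab) a ap = true) :
    K.posA h a = true ∧ ∃ b, K.stepA tail N w0 w1 c0 c1 zc zs hh k1 k2 a ap = some b ∧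
      K.chain tail N h zc zs hh k1 k2 m tab b a = true := by
  rw [chain_succ, Bool.and_eq_true] at H
  refine ⟨H.1, ?_⟩
  have H2 := H.2
  generalize K.stepA tail N w0 w1 c0 c1 zc zs hh k1 k2 a ap = o at H2 ⊢
  cases o with
  | none => exact absurd H2 (by simp)
  | some b => exact ⟨b, rfl, H2⟩

end KCh

theorem t_CHAIN (hLIN : S_LIN) (hSTEP : S_STEP) (hPOS : S_POS) : S_CHAIN := by
  intro tail N h zc zs hh k1 k2 m
  induction m with
  | zero =>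
    intro M ξ S S' rs tab a ap hlen hch htab hlaw hξ hS hS' k hk
    obtain rfl : k = 0 := by omega
    rcases tab with _ | ⟨⟨w, c⟩, tab⟩
    · simp at hlen
    obtain ⟨r, rs', rfl, hw⟩ := KCh.tab_head ξ M rs w c tab htab
    rw [KCh.chain_zero] at hch
    exact hPOS M r ξ S h a hw.1.le hξ hS hch
  | succ m ih =>
    intro M ξ S S' rs tab a ap hlen hch htab hlaw hξ hS hS' k hk
    obtain ⟨w0, c0, w1, c1, w2, c2, tab, rfl⟩ := KCh.tab_len tab (by omega)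
    obtain ⟨hp, b, hb, hst⟩ := KCh.chain_some _ _ _ _ _ _ _ _ _ _ _ _ _ _ _ _ hch
    obtain ⟨r, r', rs1, rfl, hw0, hd0, htab1⟩ := KCh.tab_two ξ M rs w0 c0 w1 c1 _ htab
    obtain ⟨r1, r2, rs2, hr, hw1, hd1, htab2⟩ := KCh.tab_two ξ (M - 1) (r' :: rs1) w1 c1 w2 c2 _ htab1
    obtain ⟨r3, rs3, hr3, hw2⟩ := KCh.tab_head ξ (M - 1 - 1) (r2 :: rs2) w2 c2 tab htab2
    obtain ⟨rfl, rfl⟩ := List.cons.inj hr
    obtain ⟨rfl, rfl⟩ := List.cons.inj hr3
    have hM : M - 1 - 1 = M - 2 := by omega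
    rw [hM] at hw2 htab2
    have hS0 : Ap M r ξ S a := hS
    have hS1 : Ap M r ξ S' ap := hS'
    have hpos : 0 < coeff 0 S := hPOS M r ξ S h a hw0.1.le hξ hS0 hp
    rcases k with _ | k
    · exact hpos
    · have hs := hSTEP tail M r r' r2 ξ S S' w0 w1 w2 c0 c1 N zc zs hh k1 k2 a ap b hlaw
        hw0 hd0 hw1 hd1 hw2 hS0 hS1 hb
      have hr2 : r2 ≤ r := hd1.2.1.trans hd0.2.1
      have hSa : Ap (M - 2) r2 ξ S a :=
        hLIN.2.2.2.1 M (M - 2) r r2 ξ S a (by omega) hw2.1.le hr2 hS0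
      exact ih (M - 2) ξ (nextS ξ zc zs hh k1 k2 S S') S (r2 :: rs2) ((w2, c2) :: tab) b a
        (by simp only [List.length_cons] at hlen ⊢; omega) hst htab2 hlaw hξ
        hs.2 hSa k (by omega)

end TWP
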