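import Pool.Agent.TWP.Eng2

/-! TWP engine: chain with a negative last term -/

namespace TWP.K

/-- `c_0 + ∑_(n ≥ 1) |c_n| (h/4096)^n + e < 0` -/
def negA (h : ℕ) (a : AP) : Bool := posA h (smulL (-1) a.1, a.2)

/-- `a_1, …, a_K > 0 > a_(K+1)` -/
def chainN (tail : Bool) (N h : ℕ) (zc : ℤ) (zs : ℕ) (hh k1 k2 : ℤ) : ℕ → Tab → AP → AP → Bool
  | 0, _, a, _ => negA h a
  | K + 1, (w0, c0) :: (w1, c1) :: tab, a, ap =>
    posA h a && (match stepA tail N w0 w1 c0 c1 zc zs hh k1 k2 a ap with
      | none => false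
      | some b => chainN tail N h zc zs hh k1 k2 K tab b a)
  | _ + 1, _, _, _ => false

/-- the check of a middle chart, last term negative -/
def checkMN (two : Bool) (K M N h r0 : ℕ) (tab : Tab) (cn : ℤ) (ln eta k : ℕ) (L Q : PL) : Bool :=
  match baseG M h r0 cn ln eta k L Q with
  | none => false
  | some G =>
    match tab with
    | (w0, c0) :: tab' =>
      match (if two then m0two w0 N cn ln (L, G) (Q, G) else m0one w0 N cn ln (L, G) (Q, G)) with
      | none => false
      | some m => chainN false N h (2 ^ 160) 0 0 0 1 K tab' (intA (-1) (derA false c0 m)) ([], 0)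
    | [] => false

end TWP.K
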