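import Mathlib
import Pool.Agent.TWP.KSt
import Pool.Agent.TWP.Eng3

set_option autoImplicit false

/-! TWP, soundness of the engine: the chain with a negative last term. -/

namespace TWP

open PowerSeries Finset

/-- CHAINN. Hypotheses LIN, STEP, POS. Proof. As CHAIN (`Pool/Agent/TWP/KSt.lean`). `m = 0`:
`negA h a = posA h (smulL (-1) a.1, a.2)`, LIN (second part, `p = -1`: `K.intA (-1) a =
(smulL (-1) a.1, 1 * a.2)`) gives `Ap M r ξ (C (-1) * S) (smulL (-1) a.1, a.2)`; POS: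
`0 < coeff 0 (C (-1) * S) = - coeff 0 S`. -/
def S_CHAINN : Prop :=
  ∀ (tail : Bool) (N h : ℕ) (zc : ℤ) (zs : ℕ) (hh k1 k2 : ℤ) (m M : ℕ) (ξ S S' : ℝ⟦X⟧)
    (rs : List ℝ) (tab : K.Tab) (a ap : K.AP), 2 * m + 1 ≤ tab.length →
    K.chainN tail N h zc zs hh k1 k2 m tab a ap = true → TabOK ξ M rs tab → Law tail ξ →
    |coeff 0 ξ| ≤ (h : ℝ) / 4096 → Ap M (rs.headD 1) ξ S a → Ap M (rs.headD 1) ξ S' ap →
    (∀ k < m, 0 < coeff 0 (seqS ξ zc zs hh k1 k2 k S S')) ∧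
      coeff 0 (seqS ξ zc zs hh k1 k2 m S S') < 0

end TWP
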