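import Mathlib
import Pool.Agent.TWP.KNrm
import Pool.Agent.TWP.KSt2

set_option autoImplicit false

/-! TWP, module CHAINN: the chain with a negative last term. -/

namespace TWP

open PowerSeries Finset

theorem CHAINN.head {ξ : ℝ⟦X⟧} {M : ℕ} {rs : List ℝ} {w c : ℕ} {tab : K.Tab}
    (h : TabOK ξ M rs ((w, c) :: tab)) :
    ∃ (r : ℝ) (rs' : List ℝ), rs = r :: rs' ∧ Okw M r ξ w := by
  rcases rs with _ | ⟨r, rs⟩
  · simp [TabOK] at h
  · refine ⟨r, rs, rfl, ?_⟩
    rcases rs with _ | ⟨r', rs⟩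
    · rcases tab with _ | ⟨wc, tab⟩
      · simp only [TabOK] at h
        exact h
      · simp [TabOK] at h
    · rcases tab with _ | ⟨wc, tab⟩
      · simp [TabOK] at h
      · simp only [TabOK] at h
        exact ⟨h.1, h.2.1, h.2.2.1⟩

theorem CHAINN.two {ξ : ℝ⟦X⟧} {M : ℕ} {rs : List ℝ} {w c : ℕ} {wc : ℕ × ℕ} {tab : K.Tab}
    (h : TabOK ξ M rs ((w, c) :: wc :: tab)) :
    ∃ (r r' : ℝ) (rs' : List ℝ), rs = r :: r' :: rs' ∧ Okw M r ξ w ∧ OkD M r r' c ∧
      TabOK ξ (M - 1) (r' :: rs') (wc :: tab) := by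
  rcases rs with _ | ⟨r, rs⟩
  · simp [TabOK] at h
  · rcases rs with _ | ⟨r', rs⟩
    · simp [TabOK] at h
    · simp only [TabOK] at h
      exact ⟨r, r', rs, rfl, ⟨h.1, h.2.1, h.2.2.1⟩,
        ⟨h.2.2.2.1, h.2.2.2.2.1, h.2.2.2.2.2.1, h.2.2.2.2.2.2.1⟩, h.2.2.2.2.2.2.2⟩

theorem CHAINN.zero (tail : Bool) (N h : ℕ) (zc : ℤ) (zs : ℕ) (hh k1 k2 : ℤ) (tab : K.Tab)
    (a ap : K.AP) : K.chainN tail N h zc zs hh k1 k2 0 tab a ap =
      K.posA h (K.smulL (-1) a.1, a.2) := rfl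

theorem CHAINN.succ (tail : Bool) (N h : ℕ) (zc : ℤ) (zs : ℕ) (hh k1 k2 : ℤ) (m : ℕ)
    (w0 c0 w1 c1 : ℕ) (tab : K.Tab) (a ap : K.AP)
    (H : K.chainN tail N h zc zs hh k1 k2 (m + 1) ((w0, c0) :: (w1, c1) :: tab) a ap = true) :
    K.posA h a = true ∧ ∃ b, K.stepA tail N w0 w1 c0 c1 zc zs hh k1 k2 a ap = some b ∧
      K.chainN tail N h zc zs hh k1 k2 m tab b a = true := by
  change (K.posA h a && _) = true at H
  rw [Bool.and_eq_true] at H
  refine ⟨H.1, ?_⟩
  have H2 := H.2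
  clear H
  split at H2
  · exact absurd H2 Bool.false_ne_true
  · rename_i b hb
    exact ⟨b, hb, H2⟩

/-- Module CHAINN. -/
theorem t_CHAINN (hLIN : S_LIN) (hSTEP : S_STEP) (hPOS : S_POS) : S_CHAINN := by
  intro tail N h zc zs hh k1 k2 m
  induction m with
  | zero =>
    intro M ξ S S' rs tab a ap hlen hch htab hlaw hξ ha hap
    refine ⟨fun k hk => absurd hk (Nat.not_lt_zero k), ?_⟩
    rcases tab with _ | ⟨⟨w, c⟩, tab⟩
    · simp at hlen
    · obtain ⟨r, rs', rfl, hr⟩ := CHAINN.head htab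
      have hr0 : 0 ≤ r := hr.1.le
      have ha' : Ap M r ξ S a := ha
      have h1 := hLIN.2.1 M r ξ S a (-1) hr0 ha'
      have e : K.intA (-1) a = (K.smulL (-1) a.1, a.2) := by
        unfold K.intA
        simp
      rw [e] at h1
      have hch' : K.posA h (K.smulL (-1) a.1, a.2) = true :=
        (CHAINN.zero tail N h zc zs hh k1 k2 ((w, c) :: tab) a ap).symm.trans hch
      have h2 := hPOS M r ξ _ h _ hr0 hξ h1 hch'
      rw [coeff_C_mul] at h2
      change coeff 0 S < 0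
      push_cast at h2
      linarith
  | succ m ih =>
    intro M ξ S S' rs tab a ap hlen hch htab hlaw hξ ha hap
    rcases tab with _ | ⟨⟨w0, c0⟩, tab⟩
    · simp at hlen
    rcases tab with _ | ⟨⟨w1, c1⟩, tab⟩
    · simp at hlen
    rcases tab with _ | ⟨⟨w2, c2⟩, tab⟩
    · simp at hlen
      omega
    obtain ⟨r, r', rs', rfl, hr, hd, htab1⟩ := CHAINN.two htab
    obtain ⟨r1, r'', rs'', hrs, hr', hd', htab2⟩ := CHAINN.two htab1
    have hr1 : r' = r1 := by
      have := congrArg List.head? hrs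
      simpa using this
    subst hr1
    have hrs2 : rs' = r'' :: rs'' := by
      have := congrArg List.tail hrs
      simpa using this
    subst hrs2
    obtain ⟨r2, rs3, hrs3, hr''⟩ := CHAINN.head htab2
    have hr2 : r'' = r2 := by
      have := congrArg List.head? hrs3
      simpa using this
    subst hr2
    have ha' : Ap M r ξ S a := ha
    have hap' : Ap M r ξ S' ap := hap
    have hr0 : 0 ≤ r := hr.1.le
    have e1 : M - 1 - 1 = M - 2 := by omega
    rw [e1] at hr'' htab2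
    obtain ⟨hpos, b, hst, hrest⟩ := CHAINN.succ tail N h zc zs hh k1 k2 m w0 c0 w1 c1 _ a ap hch
    have hS : 0 < coeff 0 S := hPOS M r ξ S h a hr0 hξ ha' hpos
    have hst' := hSTEP tail M r r' r'' ξ S S' w0 w1 w2 c0 c1 N zc zs hh k1 k2 a ap b hlaw
      hr hd hr' hd' hr'' ha' hap' hst
    have hmono : Ap (M - 2) r'' ξ S a :=
      hLIN.2.2.2.1 M (M - 2) r r'' ξ S a (Nat.sub_le _ _) hr''.1.le
        (hd'.2.1.trans hd.2.1) ha'
    have hlen' : 2 * m + 1 ≤ ((w2, c2) :: tab : K.Tab).length := by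
      simp only [List.length_cons] at hlen ⊢
      omega
    have hih := ih (M - 2) ξ (nextS ξ zc zs hh k1 k2 S S') S (r'' :: rs'') ((w2, c2) :: tab)
      b a hlen' hrest htab2 hlaw hξ hst'.2 hmono
    refine ⟨?_, hih.2⟩
    intro k hk
    rcases k with _ | k
    · exact hS
    · exact hih.1 k (by omega)

end TWP
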