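import Mathlib
import Pool.Agent.TWP.KNrm

set_option autoImplicit false

namespace TWP

open PowerSeries Finset

theorem DER_mul (A B : ℝ⟦X⟧) : D (A * B) = A * D B + B * D A := by
  unfold D
  rw [Derivation.leibniz, smul_eq_mul, smul_eq_mul]

theorem DER_add (A B : ℝ⟦X⟧) : D (A + B) = D A + D B := by
  unfold D
  rw [map_add]

theorem DER_zero : D (0 : ℝ⟦X⟧) = 0 := by
  unfold D
  rw [map_zero]

theorem DER_C (a : ℝ) : D (C a : ℝ⟦X⟧) = 0 := by
  unfold D
  exact PowerSeries.derivative_C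

theorem DER_auxM (ξ : ℝ⟦X⟧) (hξ : D ξ = 1) : ∀ (P : List ℤ) (n : ℤ),
    evZ ξ (K.derMAux n P) = C (n : ℝ) * evZ ξ P + ξ * D (evZ ξ P) := by
  intro P
  induction P with
  | nil =>
    intro n
    simp only [K.derMAux, evZ, DER_zero, mul_zero, add_zero]
  | cons a P ih =>
    intro n
    simp only [K.derMAux, evZ, ih, DER_add, DER_mul, DER_C, hξ]
    have h1 : (C (((n * a : ℤ)) : ℝ) : ℝ⟦X⟧) = C (n : ℝ) * C (a : ℝ) := by
      rw [← map_mul]; push_cast; rfl
    have h2 : (C (((n + 1 : ℤ)) : ℝ) : ℝ⟦X⟧) = C (n : ℝ) + 1 := by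
      rw [← map_one (C : ℝ →+* ℝ⟦X⟧), ← map_add]; push_cast; rfl
    rw [h1, h2]
    ring

theorem DER_auxT (ξ : ℝ⟦X⟧) (hξ : D ξ = -ξ) : ∀ (P : List ℤ) (n : ℤ),
    evZ ξ (K.derTAux n P) = -(C (n : ℝ) * evZ ξ P) + D (evZ ξ P) := by
  intro P
  induction P with
  | nil =>
    intro n
    simp only [K.derTAux, evZ, DER_zero, mul_zero, add_zero, neg_zero]
  | cons a P ih =>
    intro n
    simp only [K.derTAux, evZ, ih, DER_add, DER_mul, DER_C, hξ]
    have h1 : (C (((-n * a : ℤ)) : ℝ) : ℝ⟦X⟧) = -(C (n : ℝ) * C (a : ℝ)) := by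
      rw [← map_mul, ← map_neg]; push_cast; rw [neg_mul]
    have h2 : (C (((n + 1 : ℤ)) : ℝ) : ℝ⟦X⟧) = C (n : ℝ) + 1 := by
      rw [← map_one (C : ℝ →+* ℝ⟦X⟧), ← map_add]; push_cast; rfl
    rw [h1, h2]
    ring

theorem t_DER : S_DER := by
  intro tail ξ P hlaw
  cases tail with
  | false =>
    have hξ : D ξ = 1 := by simpa [Law] using hlaw
    cases P with
    | nil => simp only [K.der, K.derM, evZ, DER_zero, Bool.false_eq_true, if_false]
    | cons a P =>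
      simp only [K.der, K.derM, evZ, Bool.false_eq_true, if_false]
      rw [DER_auxM ξ hξ P 1, DER_add, DER_mul, DER_C, hξ]
      have h1 : (C (((1 : ℤ)) : ℝ) : ℝ⟦X⟧) = 1 := by
        rw [Int.cast_one, map_one]
      rw [h1]
      ring
  | true =>
    have hξ : D ξ = -ξ := by simpa [Law] using hlaw
    simp only [K.der, K.derT, if_true]
    rw [DER_auxT ξ hξ P 0]
    have h1 : (C (((0 : ℤ)) : ℝ) : ℝ⟦X⟧) = 0 := by
      rw [Int.cast_zero, map_zero]
    rw [h1]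
    ring

end TWP
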