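import Mathlib
import Pool.Agent.TWP.KNrm

set_option autoImplicit false

/-! TWP: algebra of the evaluation of integer lists at a power series. -/

namespace TWP

open PowerSeries Finset

theorem eva_add (ξ : ℝ⟦X⟧) : ∀ P Q : List ℤ, evZ ξ (K.addL P Q) = evZ ξ P + evZ ξ Q
  | [], Q => by simp only [K.addL, evZ, zero_add]
  | x :: xs, [] => by simp only [K.addL, evZ, add_zero]
  | x :: xs, y :: ys => by
      simp only [K.addL, evZ]
      rw [eva_add ξ xs ys, Int.cast_add, map_add]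
      ring

theorem eva_smul (ξ : ℝ⟦X⟧) (k : ℤ) : ∀ P : List ℤ, evZ ξ (K.smulL k P) = C (k : ℝ) * evZ ξ P
  | [] => by simp only [K.smulL, evZ, mul_zero]
  | x :: xs => by
      simp only [K.smulL, evZ]
      rw [eva_smul ξ k xs, Int.cast_mul, map_mul]
      ring

theorem eva_sub (ξ : ℝ⟦X⟧) (P Q : List ℤ) : evZ ξ (K.subL P Q) = evZ ξ P - evZ ξ Q := by
  unfold K.subL
  rw [eva_add, eva_smul, Int.cast_neg, Int.cast_one, map_neg, map_one]
  ring

theorem eva_shift (ξ : ℝ⟦X⟧) : ∀ (n : ℕ) (P : List ℤ), evZ ξ (K.shiftL n P) = ξ ^ n * evZ ξ P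
  | 0, P => by simp only [K.shiftL, pow_zero, one_mul]
  | n + 1, P => by
      simp only [K.shiftL, evZ]
      rw [eva_shift ξ n P, Int.cast_zero, map_zero, pow_succ]
      ring

theorem eva_conv (ξ : ℝ⟦X⟧) : ∀ P Q : List ℤ, evZ ξ (K.conv P Q) = evZ ξ P * evZ ξ Q
  | [], Q => by simp only [K.conv, evZ, zero_mul]
  | x :: xs, Q => by
      simp only [K.conv]
      rw [eva_add, eva_smul]
      simp only [evZ]
      rw [eva_conv ξ xs Q, Int.cast_zero, map_zero]
      ring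

theorem t_EVA : S_EVA := fun ξ P Q k n =>
  ⟨eva_add ξ P Q, eva_smul ξ k P, eva_sub ξ P Q, eva_shift ξ n P, eva_conv ξ P Q⟩

end TWP
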