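import Pool.Agent.TWP.KNrm

set_option autoImplicit false

/-! TWP: soundness of the inverse (module INVA). -/

namespace TWP

open PowerSeries Finset

theorem inva_ndiv (m n : ℕ) (hn : 0 < n) :
    (m : ℝ) ≤ (n : ℝ) * (((m / n : ℕ) : ℝ) + 1) := by
  have h1 : m ≤ n * (m / n + 1) := by
    have h2 := Nat.div_add_mod m n
    have h3 := Nat.mod_lt m hn
    rw [mul_add, mul_one]
    omega
  exact_mod_cast h1

theorem inva_core (M : ℕ) (r : ℝ) (hr : 0 ≤ r) (S A Ev : ℝ⟦X⟧) (n1 nv a2 B d ni : ℕ)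
    (hB : 0 < B) (hα : nrm M r (C (B : ℝ) * S - A) ≤ (a2 : ℝ))
    (h1 : nrm M r (C ((B : ℝ) ^ 2) - Ev * A) ≤ (n1 : ℝ)) (hv : nrm M r Ev ≤ (nv : ℝ))
    (hd : d = n1 / B + 1 + nv * a2 / B + 1) (hd9 : 10 * d ≤ 9 * B)
    (hni : ni = nv * B / (B - d) + 1) :
    coeff 0 S ≠ 0 ∧ nrm M r (C (B : ℝ) * S⁻¹ - Ev) ≤ ((ni * d / B + 1 : ℕ) : ℝ) ∧
      nrm M r S⁻¹ ≤ (ni : ℝ) / (B : ℝ) := by
  have hb : (0 : ℝ) < (B : ℝ) := by exact_mod_cast hB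
  have hb0 : (B : ℝ) ≠ 0 := ne_of_gt hb
  obtain ⟨b, hbB⟩ : ∃ b : ℝ, b = (B : ℝ) := ⟨_, rfl⟩
  rw [← hbB] at hb hb0 hα h1 ⊢
  have hdB : d < B := by omega
  have hdb : (d : ℝ) < b := by rw [hbB]; exact_mod_cast hdB
  have hd0 : (0 : ℝ) ≤ (d : ℝ) := Nat.cast_nonneg d
  have e1 : (C (b⁻¹ ^ 2) : ℝ⟦X⟧) * C (b ^ 2) = 1 := by
    rw [← map_mul]
    have : b⁻¹ ^ 2 * b ^ 2 = 1 := by
      rw [← mul_pow, inv_mul_cancel₀ hb0, one_pow]
    rw [this, map_one]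
  have e2 : (C (b⁻¹ ^ 2) : ℝ⟦X⟧) * C b = C b⁻¹ := by
    rw [← map_mul]
    congr 1
    field_simp
  have e3 : (C b : ℝ⟦X⟧) * C b⁻¹ = 1 := by
    rw [← map_mul, mul_inv_cancel₀ hb0, map_one]
  have key : 1 - (C b⁻¹ * Ev) * S =
      C (b⁻¹ ^ 2) * ((C (b ^ 2) - Ev * A) - Ev * (C b * S - A)) := by
    linear_combination (-1 : ℝ⟦X⟧) * e1 + (Ev * S) * e2
  have hEα : nrm M r (Ev * (C b * S - A)) ≤ (nv : ℝ) * (a2 : ℝ) :=
    (nrm_mul M hr _ _).trans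
      (mul_le_mul hv hα (nrm_nonneg M hr _) (Nat.cast_nonneg nv))
  have hn : (n1 : ℝ) + (nv : ℝ) * (a2 : ℝ) ≤ b * (d : ℝ) := by
    have h2 := inva_ndiv n1 B hB
    have h3 := inva_ndiv (nv * a2) B hB
    rw [← hbB] at h2 h3
    have h4 : (d : ℝ) = ((n1 / B : ℕ) : ℝ) + 1 + ((nv * a2 / B : ℕ) : ℝ) + 1 := by
      rw [hd]; push_cast; ring
    rw [h4]
    push_cast at h2 h3 ⊢
    linarith
  have hq : nrm M r (1 - (C b⁻¹ * Ev) * S) ≤ (d : ℝ) / b := by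
    rw [key, nrm_C_mul, abs_of_nonneg (by positivity)]
    have h5 : nrm M r ((C (b ^ 2) - Ev * A) - Ev * (C b * S - A)) ≤ b * (d : ℝ) :=
      (nrm_sub M hr _ _).trans (by linarith)
    calc b⁻¹ ^ 2 * nrm M r ((C (b ^ 2) - Ev * A) - Ev * (C b * S - A))
        ≤ b⁻¹ ^ 2 * (b * (d : ℝ)) := mul_le_mul_of_nonneg_left h5 (by positivity)
      _ = (d : ℝ) / b := by field_simp
  have hq1 : (d : ℝ) / b < 1 := by rw [div_lt_one hb]; exact hdb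
  obtain ⟨c0, c1, c2⟩ := nrm_inv M hr S (C b⁻¹ * Ev) hq hq1
  have hV : nrm M r (C b⁻¹ * Ev) ≤ (nv : ℝ) / b := by
    rw [nrm_C_mul, abs_of_nonneg (by positivity), div_eq_inv_mul]
    exact mul_le_mul_of_nonneg_left hv (by positivity)
  have hV0 := nrm_nonneg M hr (C b⁻¹ * Ev)
  have h1q : 0 < 1 - (d : ℝ) / b := by linarith
  have hbd : 0 < b - (d : ℝ) := by linarith
  have e4 : (nv : ℝ) / b / (1 - (d : ℝ) / b) = (nv : ℝ) / (b - (d : ℝ)) := by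
    field_simp
  have hni1 : (nv : ℝ) * b ≤ (b - (d : ℝ)) * (ni : ℝ) := by
    have h6 := inva_ndiv (nv * B) (B - d) (by omega)
    rw [Nat.cast_sub hdB.le, ← hbB] at h6
    have h7 : (ni : ℝ) = ((nv * B / (B - d) : ℕ) : ℝ) + 1 := by
      rw [hni]; push_cast; ring
    rw [h7]
    have h8 : ((nv * B : ℕ) : ℝ) = (nv : ℝ) * b := by rw [hbB]; push_cast; ring
    rw [h8] at h6
    exact h6
  have hN : (nv : ℝ) / (b - (d : ℝ)) ≤ (ni : ℝ) / b := by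
    rw [div_le_div_iff₀ hbd hb]
    linarith
  have c1' : nrm M r (C b⁻¹ * Ev) / (1 - (d : ℝ) / b) ≤ (ni : ℝ) / b := by
    calc nrm M r (C b⁻¹ * Ev) / (1 - (d : ℝ) / b)
        ≤ ((nv : ℝ) / b) / (1 - (d : ℝ) / b) := div_le_div_of_nonneg_right hV h1q.le
      _ = (nv : ℝ) / (b - (d : ℝ)) := e4
      _ ≤ _ := hN
  refine ⟨c0, ?_, c1.trans c1'⟩
  have e5 : C b * S⁻¹ - Ev = C b * (S⁻¹ - C b⁻¹ * Ev) := by
    linear_combination Ev * e3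
  rw [e5, nrm_C_mul, abs_of_nonneg hb.le]
  have h9 : nrm M r (C b⁻¹ * Ev) * ((d : ℝ) / b) / (1 - (d : ℝ) / b) ≤
      (ni : ℝ) / b * ((d : ℝ) / b) := by
    have : nrm M r (C b⁻¹ * Ev) * ((d : ℝ) / b) / (1 - (d : ℝ) / b) =
        nrm M r (C b⁻¹ * Ev) / (1 - (d : ℝ) / b) * ((d : ℝ) / b) := by ring
    rw [this]
    exact mul_le_mul_of_nonneg_right c1' (by positivity)
  have h10 : ((ni * d : ℕ) : ℝ) / b ≤ ((ni * d / B + 1 : ℕ) : ℝ) := by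
    have h11 := inva_ndiv (ni * d) B hB
    rw [← hbB] at h11
    rw [div_le_iff₀ hb]
    push_cast at h11 ⊢
    linarith
  calc b * nrm M r (S⁻¹ - C b⁻¹ * Ev)
      ≤ b * ((ni : ℝ) / b * ((d : ℝ) / b)) :=
        mul_le_mul_of_nonneg_left (c2.trans h9) hb.le
    _ = ((ni * d : ℕ) : ℝ) / b := by push_cast; field_simp
    _ ≤ _ := h10

theorem t_INVA (hEVA : S_EVA) (hMUL : S_MUL) (hNL : S_NL) : S_INVA := by
  intro M r ξ S w N ni a v hw hinv hS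
  obtain ⟨hr, hw1, hw2⟩ := hw
  unfold K.invA at hinv
  dsimp only at hinv
  by_cases hok : K.okMul (K.invL N a.1) a.1 = true
  · rw [if_pos hok] at hinv
    generalize hv0 : K.invL N a.1 = v0 at hinv hok
    have hm := hMUL ξ v0 a.1 hok
    have h2 := (hEVA ξ [2 ^ 320] (K.mulL v0 a.1) 0 0).2.2.1
    have h3 := hNL M r ξ w (K.subL [2 ^ 320] (K.mulL v0 a.1)) hr.le hw2
    have h4 := hNL M r ξ w v0 hr.le hw2
    rw [h2, hm] at h3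
    have hONE : ((K.ONE : ℕ) : ℝ) = (2 : ℝ) ^ 160 := by
      norm_num [K.ONE]
    have h5a : (((2 : ℤ) ^ 320 : ℤ) : ℝ) = ((K.ONE : ℕ) : ℝ) ^ 2 := by
      rw [hONE, ← pow_mul, Int.cast_pow, Int.cast_ofNat]
    have h5 : evZ ξ [2 ^ 320] = C (((K.ONE : ℕ) : ℝ) ^ 2) := by
      have h5b : evZ ξ [(2 : ℤ) ^ 320] = C (((2 : ℤ) ^ 320 : ℤ) : ℝ) + ξ * evZ ξ [] := rfl
      have h5c : evZ ξ [] = 0 := rfl
      rw [h5b, h5c, mul_zero, add_zero, h5a]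
    rw [h5] at h3
    generalize K.nL w (K.subL [2 ^ 320] (K.mulL v0 a.1)) = n1 at hinv h3
    generalize K.nL w v0 = nv at hinv h4
    have hB : 0 < K.ONE := by
      unfold K.ONE
      positivity
    have hα : nrm M r (C ((K.ONE : ℕ) : ℝ) * S - evZ ξ a.1) ≤ (a.2 : ℝ) := by
      rw [hONE]
      exact hS
    by_cases hb : Nat.ble (10 * (n1 / K.ONE + 1 + nv * a.2 / K.ONE + 1)) (9 * K.ONE) = true
    · rw [if_pos hb] at hinv
      have hd9 := Nat.le_of_ble_eq_true hb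
      obtain ⟨c0, c1, c2⟩ := inva_core M r hr.le S (evZ ξ a.1) (evZ ξ v0) n1 nv a.2 K.ONE
        (n1 / K.ONE + 1 + nv * a.2 / K.ONE + 1)
        (nv * K.ONE / (K.ONE - (n1 / K.ONE + 1 + nv * a.2 / K.ONE + 1)) + 1) hB hα h3 h4 rfl hd9 rfl
      rw [Option.some.injEq, Prod.mk.injEq] at hinv
      obtain ⟨rfl, rfl⟩ := hinv
      rw [hONE] at c1 c2
      exact ⟨c0, c1, c2⟩
    · rw [if_neg hb] at hinv
      exact absurd hinv (by simp)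
  · rw [if_neg hok] at hinv
    exact absurd hinv (by simp)

end TWP
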