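import Mathlib
import Pool.Agent.TWP.KNrm

set_option autoImplicit false

/-! TWP, module LIN: the linear operations on approximated series. -/

namespace TWP

open PowerSeries Finset

theorem LIN.D_sub (A B : ℝ⟦X⟧) : D (A - B) = D A - D B := by
  unfold D; exact map_sub _ A B

theorem LIN.D_C_mul (c : ℝ) (A : ℝ⟦X⟧) : D (C c * A) = C c * D A := by
  unfold D
  rw [Derivation.leibniz, derivative_C, smul_zero, add_zero, smul_eq_mul]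

theorem LIN.div_le (x k : ℕ) (hk : 0 < k) : (x : ℝ) / (k : ℝ) ≤ ((x / k : ℕ) : ℝ) + 1 := by
  have hk' : (0 : ℝ) < k := by exact_mod_cast hk
  rw [div_le_iff₀ hk']
  have h := Nat.div_add_mod x k
  have h2 := Nat.mod_lt x hk
  have h3 : x ≤ (x / k + 1) * k := by
    rw [Nat.add_mul, Nat.one_mul, Nat.mul_comm (x / k) k]; omega
  exact_mod_cast h3

theorem LIN.natAbs_cast (p : ℤ) : ((p.natAbs : ℕ) : ℝ) = |(p : ℝ)| := by
  rw [Nat.cast_natAbs, Int.cast_abs]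

theorem LIN.add (hEVA : S_EVA) (M : ℕ) (r : ℝ) (ξ S T : ℝ⟦X⟧) (a b : K.AP) (hr : 0 ≤ r)
    (ha : Ap M r ξ S a) (hb : Ap M r ξ T b) : Ap M r ξ (S + T) (K.addA a b) := by
  unfold Ap K.addA at *
  dsimp only
  have e : C ((2 : ℝ) ^ 160) * (S + T) - evZ ξ (K.addL a.1 b.1) =
      (C ((2 : ℝ) ^ 160) * S - evZ ξ a.1) + (C ((2 : ℝ) ^ 160) * T - evZ ξ b.1) := by
    rw [(hEVA ξ a.1 b.1 0 0).1]; ring
  rw [e]
  refine (nrm_add M hr _ _).trans ?_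
  push_cast
  linarith

theorem LIN.int (hEVA : S_EVA) (M : ℕ) (r : ℝ) (ξ S : ℝ⟦X⟧) (a : K.AP) (p : ℤ) (hr : 0 ≤ r)
    (ha : Ap M r ξ S a) : Ap M r ξ (C (p : ℝ) * S) (K.intA p a) := by
  unfold Ap K.intA at *
  dsimp only
  have e : C ((2 : ℝ) ^ 160) * (C (p : ℝ) * S) - evZ ξ (K.smulL p a.1) =
      C (p : ℝ) * (C ((2 : ℝ) ^ 160) * S - evZ ξ a.1) := by
    rw [(hEVA ξ a.1 a.1 p 0).2.1]; ring
  rw [e, nrm_C_mul]
  rw [Nat.cast_mul, LIN.natAbs_cast]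
  exact mul_le_mul_of_nonneg_left ha (abs_nonneg _)

theorem LIN.scl (hSC : S_SC) (M : ℕ) (r : ℝ) (ξ S : ℝ⟦X⟧) (a : K.AP) (p : ℤ) (hr : 0 ≤ r)
    (hξ : nrm M r ξ ≤ 1) (ha : Ap M r ξ S a) :
    Ap M r ξ (C ((p : ℝ) / 2 ^ 160) * S) (K.sclA p a) := by
  unfold Ap K.sclA at *
  dsimp only
  have e : C ((2 : ℝ) ^ 160) * (C ((p : ℝ) / 2 ^ 160) * S) - evZ ξ (K.scL p a.1) =
      C ((p : ℝ) / 2 ^ 160) * (C ((2 : ℝ) ^ 160) * S - evZ ξ a.1) +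
        (C ((p : ℝ) / 2 ^ 160) * evZ ξ a.1 - evZ ξ (K.scL p a.1)) := by
    ring
  rw [e]
  refine (nrm_add M hr _ _).trans ?_
  have h1 := hSC M r ξ p a.1 hr hξ
  rw [nrm_C_mul]
  have h2 : |(p : ℝ) / 2 ^ 160| * nrm M r (C ((2 : ℝ) ^ 160) * S - evZ ξ a.1) ≤
      ((p.natAbs * a.2 / K.ONE : ℕ) : ℝ) + 1 := by
    have h3 := LIN.div_le (p.natAbs * a.2) K.ONE (by unfold K.ONE; positivity)
    refine le_trans ?_ h3
    have h4 : ((K.ONE : ℕ) : ℝ) = (2 : ℝ) ^ 160 := by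
      unfold K.ONE; rw [Nat.cast_pow, Nat.cast_ofNat]
    rw [h4, Nat.cast_mul, LIN.natAbs_cast, abs_div, abs_of_pos (by positivity : (0 : ℝ) < 2 ^ 160),
      div_mul_eq_mul_div]
    exact div_le_div_of_nonneg_right (mul_le_mul_of_nonneg_left ha (abs_nonneg _)) (by positivity)
  rw [Nat.cast_add, Nat.cast_add, Nat.cast_one]
  linarith

theorem LIN.mono (M M' : ℕ) (r r' : ℝ) (ξ S : ℝ⟦X⟧) (a : K.AP) (hM : M' ≤ M) (hr' : 0 ≤ r')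
    (hr : r' ≤ r) (ha : Ap M r ξ S a) : Ap M' r' ξ S a := by
  unfold Ap at *
  exact ((nrm_mono_M hM hr' _).trans (nrm_mono_r M hr' hr _)).trans ha

theorem LIN.der (hDER : S_DER) (tail : Bool) (M c : ℕ) (r r' : ℝ) (ξ S : ℝ⟦X⟧) (a : K.AP)
    (hL : Law tail ξ) (hO : OkD M r r' c) (ha : Ap M r ξ S a) :
    Ap (M - 1) r' ξ (D S) (K.derA tail c a) := by
  unfold Ap K.derA at *
  dsimp only
  have hr : 0 ≤ r := hO.1.le.trans hO.2.1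
  have e : C ((2 : ℝ) ^ 160) * D S - evZ ξ (K.der tail a.1) =
      D (C ((2 : ℝ) ^ 160) * S - evZ ξ a.1) := by
    rw [LIN.D_sub, LIN.D_C_mul, hDER tail ξ a.1 hL]
  rw [e]
  refine (nrm_D M c hr hO _).trans ?_
  have h3 := LIN.div_le (a.2 * c) 1024 (by norm_num)
  rw [Nat.cast_add, Nat.cast_one]
  refine le_trans ?_ h3
  rw [Nat.cast_mul, Nat.cast_ofNat]
  have h5 : (c : ℝ) / 1024 * nrm M r (C ((2 : ℝ) ^ 160) * S - evZ ξ a.1) ≤ (c : ℝ) / 1024 * (a.2 : ℝ) :=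
    mul_le_mul_of_nonneg_left ha (by positivity)
  refine h5.trans (le_of_eq ?_)
  ring

theorem LIN.exact (M : ℕ) (r : ℝ) (ξ : ℝ⟦X⟧) (P : List ℤ) :
    Ap M r ξ (C (((2 : ℝ) ^ 160)⁻¹) * evZ ξ P) (P, 0) := by
  unfold Ap
  dsimp only
  have e : C ((2 : ℝ) ^ 160) * (C (((2 : ℝ) ^ 160)⁻¹) * evZ ξ P) - evZ ξ P = 0 := by
    rw [← mul_assoc, ← map_mul, mul_inv_cancel₀ (by positivity), map_one, one_mul, sub_self]
  rw [e, nrm_zero, Nat.cast_zero]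

theorem t_LIN (hEVA : S_EVA) (hDER : S_DER) (hSC : S_SC) : S_LIN :=
  ⟨fun M r ξ S T a b hr ha hb => LIN.add hEVA M r ξ S T a b hr ha hb,
   fun M r ξ S a p hr ha => LIN.int hEVA M r ξ S a p hr ha,
   fun M r ξ S a p hr hξ ha => LIN.scl hSC M r ξ S a p hr hξ ha,
   fun M M' r r' ξ S a hM hr' hr ha => LIN.mono M M' r r' ξ S a hM hr' hr ha,
   fun tail M c r r' ξ S a hL hO ha => LIN.der hDER tail M c r r' ξ S a hL hO ha,
   fun M r ξ P _ => LIN.exact M r ξ P⟩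

end TWP
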