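import Mathlib
import Pool.Agent.TWP.KNrm

set_option autoImplicit false

/-! TWP, soundness of the engine: the error of the logarithmic derivative. -/

namespace TWP

open PowerSeries Finset

theorem log_natdiv (x n : ℕ) (hn : 0 < n) : (x : ℝ) / n ≤ ((x / n + 1 : ℕ) : ℝ) := by
  have h : x < n * (x / n + 1) := Nat.lt_mul_div_succ x hn
  have hn' : (0 : ℝ) < n := by exact_mod_cast hn
  rw [div_le_iff₀ hn']
  have h2 : (x : ℝ) < (n : ℝ) * ((x / n + 1 : ℕ) : ℝ) := by exact_mod_cast h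
  rw [mul_comm]
  exact h2.le

theorem log_D_C_mul (c : ℝ) (S : ℝ⟦X⟧) : D (C c * S) = C c * D S := by
  unfold D
  rw [← PowerSeries.smul_eq_C_mul, Derivation.map_smul, PowerSeries.smul_eq_C_mul]

theorem log_D_add (S T : ℝ⟦X⟧) : D (S + T) = D S + D T := by
  unfold D
  rw [map_add]

theorem log_main (c : ℝ) (hc : c ≠ 0) (S L d A X al : ℝ⟦X⟧) (hS : S * S⁻¹ = 1)
    (h1 : C c * S = A + al) (h2 : D A = d) (h3 : X = C c * d - L * A) :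
    C c * (D S * S⁻¹) - L = S⁻¹ * (C c⁻¹ * X + D al - C c⁻¹ * (L * al)) := by
  have h4 : C c * D S = d + D al := by
    rw [← log_D_C_mul, h1, log_D_add, h2]
  have h5 : (C c⁻¹ : ℝ⟦X⟧) * C c = 1 := by
    rw [← map_mul, inv_mul_cancel₀ hc, map_one]
  have h6 : S = C c⁻¹ * (A + al) := by
    rw [← h1, ← mul_assoc, h5, one_mul]
  have h7 : C c⁻¹ * X + D al - C c⁻¹ * (L * al) = C c * D S - L * S := by
    have e1 : L * S = C c⁻¹ * (L * A) + C c⁻¹ * (L * al) := by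
      conv_lhs => rw [h6]
      ring
    have e2 : C c⁻¹ * X = d - C c⁻¹ * (L * A) := by
      rw [h3, mul_sub, ← mul_assoc, h5, one_mul]
    rw [e1, e2, h4]
    ring
  rw [h7]
  have e3 : S⁻¹ * (C c * D S - L * S) = C c * (D S * S⁻¹) - L * (S * S⁻¹) := by ring
  rw [e3, hS, mul_one]

theorem t_LOG (hEVA : S_EVA) (hMUL : S_MUL) (hDER : S_DER) (hNL : S_NL) (hINVA : S_INVA) :
    S_LOG := by
  intro tail M r r' ξ S w0 w1 c0 N ni a v l hLaw hOk0 hOkD hOk1 hAp hinv hmul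
  obtain ⟨hS0, -, hni⟩ := hINVA M r ξ S w0 N ni a v hOk0 hinv hAp
  refine ⟨hS0, ?_⟩
  have hr : 0 < r := hOk0.1
  have hr' : 0 < r' := hOk1.1
  have hrr : r' ≤ r := hOkD.2.1
  have hM1 : M - 1 ≤ M := Nat.sub_le _ _
  obtain ⟨c, hc⟩ : ∃ c : ℝ, c = (2 : ℝ) ^ 160 := ⟨_, rfl⟩
  have hcpos : 0 < c := by rw [hc]; positivity
  have hONEr : ((K.ONE : ℕ) : ℝ) = c := by
    rw [hc]; norm_num [K.ONE]
  have hONE : 0 < K.ONE := by unfold K.ONE; positivity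
  unfold Ap at hAp ⊢
  rw [← hc] at hAp hni ⊢
  obtain ⟨al, hal⟩ : ∃ al, al = C c * S - evZ ξ a.1 := ⟨_, rfl⟩
  rw [← hal] at hAp
  have hSS : S * S⁻¹ = 1 := PowerSeries.mul_inv_cancel _ (by simpa using hS0)
  obtain ⟨X, hX⟩ : ∃ X, X = K.subL (K.smulL (2 ^ 160) (K.der tail a.1)) (K.mulL l a.1) :=
    ⟨_, rfl⟩
  have hX2 : evZ ξ X = C c * evZ ξ (K.der tail a.1) - evZ ξ l * evZ ξ a.1 := by
    rw [hX, (hEVA ξ _ _ 0 0).2.2.1, (hEVA ξ _ [] _ 0).2.1, hMUL ξ l a.1 hmul]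
    have e : (((2 : ℤ) ^ 160 : ℤ) : ℝ) = c := by rw [hc]; norm_num
    rw [e]
  have key := log_main c hcpos.ne' S (evZ ξ l) (evZ ξ (K.der tail a.1)) (evZ ξ a.1) (evZ ξ X) al
    hSS (by rw [hal]; ring) (hDER tail ξ a.1 hLaw) hX2
  rw [← hX]
  simp only []
  rw [key]
  have n0 : nrm (M - 1) r' S⁻¹ ≤ (ni : ℝ) / c :=
    ((nrm_mono_M hM1 hr'.le _).trans (nrm_mono_r M hr'.le hrr _)).trans hni
  have n1 : nrm (M - 1) r' (C c⁻¹ * evZ ξ X) ≤ ((K.nL w1 X / K.ONE + 1 : ℕ) : ℝ) := by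
    rw [nrm_C_mul, abs_of_pos (inv_pos.2 hcpos)]
    refine le_trans ?_ (log_natdiv _ _ hONE)
    rw [hONEr, div_eq_inv_mul]
    exact mul_le_mul_of_nonneg_left (hNL _ _ _ _ _ hr'.le hOk1.2.2) (inv_pos.2 hcpos).le
  have n2 : nrm (M - 1) r' (D al) ≤ ((a.2 * c0 / 1024 + 1 : ℕ) : ℝ) := by
    refine (nrm_D M c0 hr.le hOkD al).trans (le_trans ?_ (log_natdiv _ _ (by norm_num)))
    have : (c0 : ℝ) / 1024 * nrm M r al ≤ (c0 : ℝ) / 1024 * a.2 :=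
      mul_le_mul_of_nonneg_left hAp (by positivity)
    refine this.trans (le_of_eq ?_)
    push_cast
    ring
  have n3 : nrm (M - 1) r' (C c⁻¹ * (evZ ξ l * al)) ≤
      ((K.nL w1 l * a.2 / K.ONE + 1 : ℕ) : ℝ) := by
    rw [nrm_C_mul, abs_of_pos (inv_pos.2 hcpos)]
    refine le_trans ?_ (log_natdiv _ _ hONE)
    rw [hONEr, div_eq_inv_mul]
    refine mul_le_mul_of_nonneg_left ?_ (inv_pos.2 hcpos).le
    refine (nrm_mul _ hr'.le _ _).trans ?_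
    push_cast
    have h1 := hNL (M - 1) r' ξ w1 l hr'.le hOk1.2.2
    have h2 : nrm (M - 1) r' al ≤ (a.2 : ℝ) :=
      ((nrm_mono_M hM1 hr'.le _).trans (nrm_mono_r M hr'.le hrr _)).trans hAp
    exact mul_le_mul h1 h2 (nrm_nonneg _ hr'.le _) (Nat.cast_nonneg _)
  obtain ⟨B, hB⟩ : ∃ B : ℕ, B = K.nL w1 X / K.ONE + 1 + (a.2 * c0 / 1024 + 1) +
      (K.nL w1 l * a.2 / K.ONE + 1) := ⟨_, rfl⟩
  have n4 : nrm (M - 1) r' (C c⁻¹ * evZ ξ X + D al - C c⁻¹ * (evZ ξ l * al)) ≤ (B : ℝ) := by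
    refine (nrm_sub _ hr'.le _ _).trans ?_
    have h5 := nrm_add (M - 1) hr'.le (C c⁻¹ * evZ ξ X) (D al)
    have h6 : (B : ℝ) = ((K.nL w1 X / K.ONE + 1 : ℕ) : ℝ) + ((a.2 * c0 / 1024 + 1 : ℕ) : ℝ) +
        ((K.nL w1 l * a.2 / K.ONE + 1 : ℕ) : ℝ) := by
      rw [hB]; push_cast; ring
    rw [h6]
    linarith
  refine (nrm_mul _ hr'.le _ _).trans ?_
  have h7 : ni * (K.nL w1 X / K.ONE + 1 + (a.2 * c0 / 1024 + 1) +
      (K.nL w1 l * a.2 / K.ONE + 1)) / K.ONE + 1 = ni * B / K.ONE + 1 := by rw [hB]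
  rw [h7]
  refine le_trans ?_ (log_natdiv _ _ hONE)
  rw [hONEr]
  push_cast
  calc nrm (M - 1) r' S⁻¹ * nrm (M - 1) r' (C c⁻¹ * evZ ξ X + D al - C c⁻¹ * (evZ ξ l * al))
      ≤ (ni : ℝ) / c * B := mul_le_mul n0 n4 (nrm_nonneg _ hr'.le _) (by positivity)
    _ = _ := by ring

end TWP
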