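import Pool.Agent.TWP.Jet

/-! TWP, block F/N: statements with paper proofs (Taylor functor, link with the Toda chain,
middle charts).  Every `S_xxx` is a module `TWP_xxx` (`theorem TWP.xxx : S_xxx`). -/

namespace TWP

open PowerSeries Filter Topology
open scoped ContDiff

/-! ### Taylor functor -/

/-- TC: `Tay` depends only on the germ (and `coeff 0` is the value). Proof: `dl ψ f =ᶠ dl ψ g` from
`EventuallyEq.deriv`, induct. -/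
def S_TC : Prop := ∀ (ψ f g : ℝ → ℝ) (t : ℝ), f =ᶠ[𝓝 t] g →
  Tay ψ f t = Tay ψ g t ∧ coeff 0 (Tay ψ f t) = f t ∧ D (Tay ψ f t) = Tay ψ (dl ψ f) t

/-- TS: smoothness of `dl`, and of the Toda chain at a point where the earlier ones are positive.
Proof: `ContDiffAt.deriv`/`contDiffAt_succ…`: a function which is `C^∞` at `t` is `C^n` near `t` for each
`n`, its derivative is `C^(n-1)`; `toda m (k+2)` is built from `toda m (k+1)`, `toda m k` by ring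
operations, division by `toda m (k+1)` (non-zero near `t`) and `deriv`. -/
def S_TS : Prop :=
  (∀ (f : ℝ → ℝ) (t : ℝ), ContDiffAt ℝ ∞ f t → ContDiffAt ℝ ∞ (deriv f) t) ∧
  (∀ (ψ f : ℝ → ℝ) (t : ℝ), ContDiffAt ℝ ∞ ψ t → ContDiffAt ℝ ∞ f t → ContDiffAt ℝ ∞ (dl ψ f) t) ∧
  (∀ (m : ℝ → ℝ) (t : ℝ), ContDiffAt ℝ ∞ m t → ContDiffAt ℝ ∞ (toda m 1) t) ∧
  (∀ (m : ℝ → ℝ) (t : ℝ) (k : ℕ), ContDiffAt ℝ ∞ (toda m k) t → ContDiffAt ℝ ∞ (toda m (k + 1)) t →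
    toda m (k + 1) t ≠ 0 → ContDiffAt ℝ ∞ (toda m (k + 2)) t)

/-- TA: additivity and constants. Proof: `dl ψ (f + g) =ᶠ dl ψ f + dl ψ g` near `t` (both are
differentiable near `t`), iterate with the first part of TC and the second of TS. -/
def S_TA : Prop := ∀ (ψ : ℝ → ℝ) (t : ℝ), ContDiffAt ℝ ∞ ψ t →
  (∀ c : ℝ, Tay ψ (fun _ => c) t = C c) ∧
  (∀ f g : ℝ → ℝ, ContDiffAt ℝ ∞ f t → ContDiffAt ℝ ∞ g t →
    Tay ψ (fun s => f s + g s) t = Tay ψ f t + Tay ψ g t) ∧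
  (∀ f g : ℝ → ℝ, ContDiffAt ℝ ∞ f t → ContDiffAt ℝ ∞ g t →
    Tay ψ (fun s => f s - g s) t = Tay ψ f t - Tay ψ g t)

/-- TM: multiplicativity. Proof: by induction on `n`, for all smooth `f, g`:
`coeff n (Tay (f g)) = coeff n (Tay f * Tay g)`. `n = 0`: values. `n + 1`:
`(n+1) coeff (n+1) S = coeff n (D S)` (`PowerSeries.coeff_derivative`), `D (Tay (fg)) = Tay (dl (fg)) =
Tay (dl f * g + f * dl g)` (germs), `= ` by TA and the induction hypothesis (coefficient `n`)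
`Tay (dl f) Tay g + Tay f Tay (dl g) = D (Tay f * Tay g)`. -/
def S_TM : Prop := ∀ (ψ : ℝ → ℝ) (t : ℝ), ContDiffAt ℝ ∞ ψ t →
  ∀ f g : ℝ → ℝ, ContDiffAt ℝ ∞ f t → ContDiffAt ℝ ∞ g t →
    Tay ψ (fun s => f s * g s) t = Tay ψ f t * Tay ψ g t

/-- TI: inverses and quotients. Proof: `g * g⁻¹ =ᶠ 1`, TM, TA, and `PowerSeries.eq_inv_iff_mul_eq_one`
(constant coefficient `g t ≠ 0`). -/
def S_TI : Prop := ∀ (ψ : ℝ → ℝ) (t : ℝ), ContDiffAt ℝ ∞ ψ t →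
  ∀ f g : ℝ → ℝ, ContDiffAt ℝ ∞ f t → ContDiffAt ℝ ∞ g t → g t ≠ 0 →
    Tay ψ (fun s => (g s)⁻¹) t = (Tay ψ g t)⁻¹ ∧
    Tay ψ (fun s => f s / g s) t = Tay ψ f t * (Tay ψ g t)⁻¹

/-! ### The link with the Toda chain -/

/-- TL: general link. `α_k = Tay (ρ * toda m k)`. If `ρ (a'/a)'` is the given expression in
`L = dl ψ (ρ a) / (ρ a)` for every positive smooth `a`, then the series `α_k` follow `nextS`, and
positivity of the constant coefficients (= `ρ t * toda m k t`) propagates.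
Proof: induction on `K`, for general `j`: if `toda m (j+1)`, `toda m j` are smooth at `t`, and
`0 < coeff 0 (seqS k (Tay (ρ toda (j+1))) (Tay (ρ toda j)))` for `k ≤ K`, then `0 < toda m (j+1+k) t` and
smooth for all `k ≤ K`. `k = 0`: `coeff 0 = ρ t * toda m (j+1) t`. Step: `toda m (j+2)` is smooth (TS) and
`Tay (ρ toda (j+2)) = 2 Tay (ρ toda (j+1)) - Tay (ρ toda j) - Tay (ρ (a'/a)')`, `a = toda m (j+1)`,
`= nextS …` by `hstep`, TC, TA, TM, TI (`ρ a` positive at `t`). For `j = 0`: `Tay (ρ * toda m 0) = 0`. -/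
def S_TL : Prop := ∀ (ψ ρ x m : ℝ → ℝ) (t : ℝ) (zc : ℤ) (zs : ℕ) (hh k1 k2 : ℤ) (K : ℕ),
  ContDiffAt ℝ ∞ ψ t → ContDiffAt ℝ ∞ ρ t → ContDiffAt ℝ ∞ x t → ContDiffAt ℝ ∞ m t → 0 < ρ t →
  (∀ a : ℝ → ℝ, ContDiffAt ℝ ∞ a t → 0 < a t →
    (fun s => ρ s * deriv (fun s => deriv a s / a s) s) =ᶠ[𝓝 t] fun s =>
      - (((zc : ℝ) / 2 ^ 160) * x s ^ zs *
        ((hh : ℝ) + k1 * (dl ψ (fun s => ρ s * a s) s / (ρ s * a s)) -
          k2 * dl ψ (fun s => dl ψ (fun s => ρ s * a s) s / (ρ s * a s)) s))) →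
  (∀ k ≤ K, 0 < coeff 0 (seqS (Tay ψ x t) zc zs hh k1 k2 k
    (Tay ψ (fun s => ρ s * toda m 1 s) t) 0)) →
  ∀ k, 1 ≤ k → k ≤ K + 1 → 0 < toda m k t ∧ ContDiffAt ℝ ∞ (toda m k) t

/-- TLM: the middle charts, `ψ = λ`, `ρ = λ²`, `zc = 2^160`, `zs = 0`, `(hh,k1,k2) = (0,0,1)`.
Proof: TL; the step condition is `λ² (a'/a)' = λ (λ (λ² a)'/(λ² a))'`, true near `t`.
Also `Tay λ (λ² * toda m 1) t = - D (C λ * Tay λ m t)`. Stated with that series. -/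
def S_TLM : Prop := ∀ (lam c : ℝ) (m : ℝ → ℝ) (t : ℝ) (K : ℕ), 0 < lam → ContDiffAt ℝ ∞ m t →
  (∀ k ≤ K, 0 < coeff 0 (seqS (Tay (fun _ => lam) (fun s => (s - c) / lam) t) (2 ^ 160) 0 0 0 1 k
    (- D (C lam * Tay (fun _ => lam) m t)) 0)) →
  ∀ k, 1 ≤ k → k ≤ K + 1 → 0 < toda m k t ∧ ContDiffAt ℝ ∞ (toda m k) t

/-! ### The functions `q, l` and the middle charts -/

/-- `q > 0` solves Painlevé II and `l = q'/q`. -/
structure QL (q l : ℝ → ℝ) : Prop where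
  dq : ∀ t, HasDerivAt q (l t * q t) t
  dl : ∀ t, HasDerivAt l (t + 2 * q t ^ 2 - l t ^ 2) t
  pos : ∀ t, 0 < q t

noncomputable def gf (q l : ℝ → ℝ) : ℝ → ℝ := fun t => l t ^ 2 - t - q t ^ 2

/-- `(log f_2)'` -/
noncomputable def mTwo (q l : ℝ → ℝ) : ℝ → ℝ := fun t => q t ^ 2 * gf q l t - 1 / gf q l t

/-- `(log f_1)'` -/
noncomputable def mOne (q l : ℝ → ℝ) : ℝ → ℝ := fun t =>
  (q t ^ 2 * gf q l t + q t) / 2 + (l t - q t) / (1 + q t * gf q l t)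

/-- QS: smoothness. Proof: bootstrap `ContDiff ℝ n` for all `n` from the two equations. -/
def S_QS : Prop := ∀ q l : ℝ → ℝ, QL q l → ContDiff ℝ ∞ q ∧ ContDiff ℝ ∞ l

/-- XI: the chart variable `ξ = Tay λ ((s - c)/λ) t = C u + X`, `u = (t - c)/λ`, and the Taylor series
of `s ↦ s` is `C c + C λ * ξ`. Norm `|u| + r` (`M ≥ 1`). -/
def S_XI : Prop := ∀ (lam c t : ℝ), 0 < lam →
  Tay (fun _ => lam) (fun s => (s - c) / lam) t = C ((t - c) / lam) + X ∧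
  Tay (fun _ => lam) (fun s => s) t = C c + C lam * Tay (fun _ => lam) (fun s => (s - c) / lam) t ∧
  D (Tay (fun _ => lam) (fun s => (s - c) / lam) t) = 1 ∧
  (∀ (M : ℕ) (r : ℝ), 0 ≤ r → nrm M r (Tay (fun _ => lam) (fun s => (s - c) / lam) t) ≤
    |(t - c) / lam| + r)

/-- GR: Gronwall on the real interval, with a bootstrap for the quadratic terms.
Proof. Let `e u = |l (c + λ u) - pl u| + |q (c + λ u) - pq u|`. The derivatives of the two differences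
are bounded by `(λ (4 nq + 2 nl) + 2 λ e) e + ρ` (sum of both): `2 (q² - pq²) = 2 (2 pq + Eq) Eq`,
`l² - pl² = (2 pl + El) El`, `l q - pl pq = pl Eq + pq El + El Eq`. As long as `2 λ e ≤ 1/1000` this is
`≤ Λ e + ρ`, so `e u ≤ (e0 + ρ) exp (Λ |u|) < …`; the set of `u ∈ [0,h]` with `e ≤ (e0+ρ) exp(Λ s)` on
`[0,u]` is closed and open (bootstrap; Mathlib: `norm_le_gronwallBound_of_norm_deriv_right_le` with the
norm `|x| + |y|`, or a direct argument with the function `(El² + δ)^(1/2)`), `exp (Λ h) ≤ 3^k`.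
Same on `[-h,0]` by reflection. -/
def S_GR : Prop := ∀ (q l : ℝ → ℝ) (c lam h e0 r1 r2 nl nq Lam : ℝ) (k : ℕ) (pl pq pl' pq' : ℝ → ℝ),
  QL q l → 0 < lam → 0 < h → 0 ≤ r1 → 0 ≤ r2 → 0 ≤ e0 →
  (∀ u, HasDerivAt pl (pl' u) u) → (∀ u, HasDerivAt pq (pq' u) u) →
  (∀ u, |u| ≤ h → |pl u| ≤ nl ∧ |pq u| ≤ nq ∧
    |pl' u - lam * (c + lam * u + 2 * pq u ^ 2 - pl u ^ 2)| ≤ r1 ∧
    |pq' u - lam * (pl u * pq u)| ≤ r2) →
  |l c - pl 0| + |q c - pq 0| ≤ e0 →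
  1 ≤ Lam → lam * (4 * nq + 2 * nl) + 1 / 1000 ≤ Lam → Lam * h ≤ k →
  2 * lam * ((e0 + (r1 + r2)) * 3 ^ k) ≤ 1 / 1000 →
  ∀ u, |u| ≤ h → |l (c + lam * u) - pl u| + |q (c + lam * u) - pq u| ≤ (e0 + (r1 + r2)) * 3 ^ k

/-- JE: jets from the constant coefficients. Proof: `N_m = nrm m r (𝓁 - pL) + nrm m r (𝓆 - pQ)`;
`N_m + ρ ≤ (G0 + ρ) ∏_(j<m) (1 + r Λ/(j+1))` by induction on `m ≤ M`:
`(m+1) |coeff (m+1) E| r^(m+1) = r |coeff m (D E)| r^m ≤ r nrm m r (D E)`, sum of both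
`≤ r ((λ (4 nq + 2 nl) + 2 λ N_m) N_m + ρ) ≤ r (Λ N_m + ρ) ≤ r Λ (N_m + ρ)` (algebra as in GR, with
`nrm_mul`). -/
def S_JE : Prop := ∀ (M : ℕ) (r lam r1 r2 nl nq Lam G0 : ℝ) (l q pL pQ τ : ℝ⟦X⟧),
  0 < r → r ≤ 1 → 0 < lam → 0 ≤ r1 → 0 ≤ r2 → 0 ≤ G0 →
  D l = C lam * (τ + 2 * q ^ 2 - l ^ 2) → D q = C lam * (l * q) →
  nrm M r (D pL - C lam * (τ + 2 * pQ ^ 2 - pL ^ 2)) ≤ r1 →
  nrm M r (D pQ - C lam * (pL * pQ)) ≤ r2 →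
  nrm M r pL ≤ nl → nrm M r pQ ≤ nq →
  1 ≤ Lam → lam * (4 * nq + 2 * nl) + 1 / 1000 ≤ Lam →
  |coeff 0 (l - pL)| + |coeff 0 (q - pQ)| ≤ G0 →
  2 * lam * ((G0 + (r1 + r2)) * ∏ m ∈ Finset.range M, (1 + r * Lam / (m + 1))) ≤ 1 / 1000 →
  nrm M r (l - pL) + nrm M r (q - pQ) ≤
    (G0 + (r1 + r2)) * ∏ m ∈ Finset.range M, (1 + r * Lam / (m + 1))

/-- PU: `prodUp` is an upper bound of the product. -/
def S_PU : Prop := ∀ (x M p : ℕ) (y : ℝ), y ≤ (x : ℝ) / 2 ^ 160 → 0 ≤ y →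
  (p : ℝ) * ∏ m ∈ Finset.range M, (1 + y / (m + 1)) ≤ (K.prodUp x M p : ℝ)

/-- GS: soundness of `baseG`. Uses XI, GR (for `pl u = ∑ L_n u^n / 2^160`), JE, PU and the list lemmas of
helper22 (evZ, nL, mulL). -/
def S_GS : Prop := ∀ (q l : ℝ → ℝ) (M h r0 : ℕ) (cn : ℤ) (ln eta k : ℕ) (L Q : List ℤ) (G : ℕ),
  QL q l → h + r0 = 4096 → 0 < r0 → 0 < h → 0 < ln → 1 ≤ M →
  K.baseG M h r0 cn ln eta k L Q = some G →
  |(2 : ℝ) ^ 160 * l ((cn : ℝ) / 64) - (L.headD 0 : ℤ)| ≤ eta →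
  |(2 : ℝ) ^ 160 * q ((cn : ℝ) / 64) - (Q.headD 0 : ℤ)| ≤ eta →
  ∀ t : ℝ, |(t - (cn : ℝ) / 64) / ((ln : ℝ) / 64)| ≤ (h : ℝ) / 4096 →
    Ap M ((r0 : ℝ) / 4096) (Tay (fun _ => (ln : ℝ) / 64) (fun s => (s - (cn : ℝ) / 64) / ((ln : ℝ) / 64)) t)
      (Tay (fun _ => (ln : ℝ) / 64) l t) (L, G) ∧
    Ap M ((r0 : ℝ) / 4096) (Tay (fun _ => (ln : ℝ) / 64) (fun s => (s - (cn : ℝ) / 64) / ((ln : ℝ) / 64)) t)
      (Tay (fun _ => (ln : ℝ) / 64) q t) (Q, G)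

/-- M2: soundness of `m0two` (series level; `ξ` the chart variable, `c = cn/64`, `λ = ln/64`).
`g = l² - (c + λ ξ) - q²`, `m = q² g - g⁻¹`. -/
def S_M2 : Prop := ∀ (M : ℕ) (r : ℝ) (ξ l q : ℝ⟦X⟧) (w N : ℕ) (cn : ℤ) (ln : ℕ) (L Q b : K.AP),
  0 < r → w ≤ 4096 → nrm M r ξ ≤ (w : ℝ) / 4096 → K.m0two w N cn ln L Q = some b →
  Ap M r ξ l L → Ap M r ξ q Q →
  coeff 0 (l ^ 2 - (C ((cn : ℝ) / 64) + C ((ln : ℝ) / 64) * ξ) - q ^ 2) ≠ 0 ∧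
  Ap M r ξ (C ((ln : ℝ) / 64) * (q ^ 2 * (l ^ 2 - (C ((cn : ℝ) / 64) + C ((ln : ℝ) / 64) * ξ) - q ^ 2) -
    (l ^ 2 - (C ((cn : ℝ) / 64) + C ((ln : ℝ) / 64) * ξ) - q ^ 2)⁻¹)) b

/-- M1: soundness of `m0one`: `m = (q² g + q)/2 + (l - q)/(1 + q g)`. -/
def S_M1 : Prop := ∀ (M : ℕ) (r : ℝ) (ξ l q : ℝ⟦X⟧) (w N : ℕ) (cn : ℤ) (ln : ℕ) (L Q b : K.AP),
  0 < r → w ≤ 4096 → nrm M r ξ ≤ (w : ℝ) / 4096 → K.m0one w N cn ln L Q = some b →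
  Ap M r ξ l L → Ap M r ξ q Q →
  coeff 0 (1 + q * (l ^ 2 - (C ((cn : ℝ) / 64) + C ((ln : ℝ) / 64) * ξ) - q ^ 2)) ≠ 0 ∧
  Ap M r ξ (C ((ln : ℝ) / 64) * (C (1 / 2 : ℝ) *
      (q ^ 2 * (l ^ 2 - (C ((cn : ℝ) / 64) + C ((ln : ℝ) / 64) * ξ) - q ^ 2) + q) +
    (l - q) * (1 + q * (l ^ 2 - (C ((cn : ℝ) / 64) + C ((ln : ℝ) / 64) * ξ) - q ^ 2))⁻¹)) b

/-- the table of radii fits (numbers only): `h + r_i = w_i`, decreasing, derivative constants. -/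
def radOK (h : ℕ) : ℕ → List ℕ → K.Tab → Bool
  | M, r :: r' :: rs, (w, c) :: wc :: tab =>
      decide (0 < r) && decide (h + r ≤ w) && decide (w ≤ 4096) && decide (0 < r') && decide (r' ≤ r) &&
      (List.range (M + 1)).all (fun n => decide ((n + 1) * r' ^ n * 1024 * 4096 ≤ c * r ^ (n + 1))) &&
      decide (1 ≤ M) && radOK h (M - 1) (r' :: rs) (wc :: tab)
  | _, [r], [(w, _)] => decide (0 < r) && decide (h + r ≤ w) && decide (w ≤ 4096)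
  | _, _, _ => false

/-- RT: `radOK` gives `TabOK` for every middle chart point. -/
def S_RT : Prop := ∀ (h : ℕ) (M : ℕ) (rs : List ℕ) (tab : K.Tab) (ξ : ℝ⟦X⟧) (u : ℝ),
  radOK h M rs tab = true → (∀ (M : ℕ) (r : ℝ), 0 ≤ r → nrm M r ξ ≤ |u| + r) → |u| ≤ (h : ℝ) / 4096 →
  TabOK ξ M (rs.map fun r => (r : ℝ) / 4096) tab

/-- CM: soundness of `checkM`. From GS, M2/M1 (with QS, TI …: the series of `mTwo q l` is the one of M2),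
derA, chain_sound (helper22), TLM, RT. -/
def S_CM : Prop := ∀ (q l : ℝ → ℝ) (two : Bool) (k0 M N h r0 : ℕ) (rs : List ℕ) (tab : K.Tab) (cn : ℤ)
  (ln eta k : ℕ) (L Q : List ℤ), QL q l → h + r0 = 4096 → 0 < r0 → 0 < h → 0 < ln →
  radOK h M rs tab = true → rs.headD 0 = r0 →
  K.checkM two k0 M N h r0 tab cn ln eta k L Q = true →
  |(2 : ℝ) ^ 160 * l ((cn : ℝ) / 64) - (L.headD 0 : ℤ)| ≤ eta →
  |(2 : ℝ) ^ 160 * q ((cn : ℝ) / 64) - (Q.headD 0 : ℤ)| ≤ eta →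
  ∀ t : ℝ, |(t - (cn : ℝ) / 64) / ((ln : ℝ) / 64)| ≤ (h : ℝ) / 4096 →
    ∀ j, 1 ≤ j → j ≤ k0 + 1 →
      0 < toda (if two then mTwo q l else mOne q l) j t ∧
      ContDiffAt ℝ ∞ (toda (if two then mTwo q l else mOne q l) j) t

end TWP
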