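import Mathlib
import Pool.Agent.TWP.KNrm
import Pool.Agent.TWP.StF

set_option autoImplicit false

/-! TWP: soundness of `m0two` and `m0one`. -/

namespace TWP

open PowerSeries

/-- the linear part `- c - λ ξ` -/
theorem Ap_lin (hLIN : S_LIN) (M : ℕ) (r : ℝ) (ξ : ℝ⟦X⟧) (cn : ℤ) (ln : ℕ) (hr : 0 ≤ r) :
    Ap M r ξ (-(C ((cn : ℝ) / 64) + C ((ln : ℝ) / 64) * ξ)) ([-cn * 2 ^ 154, -ln * 2 ^ 154], 0) := by
  have h := hLIN.2.2.2.2.2 M r ξ [-cn * 2 ^ 154, -ln * 2 ^ 154] hr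
  have e : C (((2 : ℝ) ^ 160)⁻¹) * evZ ξ [-cn * 2 ^ 154, -ln * 2 ^ 154] =
      -(C ((cn : ℝ) / 64) + C ((ln : ℝ) / 64) * ξ) := by
    simp only [evZ]
    have e1 : (((-cn * 2 ^ 154 : ℤ) : ℝ)) = 2 ^ 160 * (-((cn : ℝ) / 64)) := by
      push_cast; ring
    have e2 : (((-(ln : ℤ) * 2 ^ 154 : ℤ) : ℝ)) = 2 ^ 160 * (-((ln : ℝ) / 64)) := by
      push_cast; ring
    rw [e1, e2, map_mul, map_mul, mul_zero, add_zero]
    have e3 : (C (((2 : ℝ) ^ 160)⁻¹) : ℝ⟦X⟧) * C ((2 : ℝ) ^ 160) = 1 := by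
      rw [← map_mul, inv_mul_cancel₀ (by positivity), map_one]
    calc (C (((2 : ℝ) ^ 160)⁻¹) : ℝ⟦X⟧) * (C ((2 : ℝ) ^ 160) * C (-((cn : ℝ) / 64)) +
          ξ * (C ((2 : ℝ) ^ 160) * C (-((ln : ℝ) / 64))))
        = (C (((2 : ℝ) ^ 160)⁻¹) * C ((2 : ℝ) ^ 160)) * (C (-((cn : ℝ) / 64)) +
          ξ * C (-((ln : ℝ) / 64))) := by ring
      _ = _ := by rw [e3, one_mul, map_neg, map_neg]; ring
  rwa [e] at h

theorem t_M2 (hLIN : S_LIN) (hMULA : S_MULA) (hINVA : S_INVA) : S_M2 := by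
  intro M r ξ l q w N cn ln L Q b hr hw hx hb hl hq
  have hok : Okw M r ξ w := ⟨hr, hw, hx⟩
  have hx1 : nrm M r ξ ≤ 1 := hx.trans (by
    rw [div_le_one (by norm_num)]; exact_mod_cast hw)
  set g : ℝ⟦X⟧ := l ^ 2 - (C ((cn : ℝ) / 64) + C ((ln : ℝ) / 64) * ξ) - q ^ 2 with hg
  unfold K.m0two at hb
  split at hb
  case h_2 => exact absurd hb (by simp)
  case h_1 L2 W hL2 hW =>
    have aL2 : Ap M r ξ (l * l) L2 := hMULA M r ξ l l w N L L L2 hok hL2 hl hl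
    have aW : Ap M r ξ (q * q) W := hMULA M r ξ q q w N Q Q W hok hW hq hq
    have aNW := hLIN.2.1 M r ξ (q * q) W (-1) hr.le aW
    have a1 := hLIN.1 M r ξ _ _ _ _ hr.le aL2 aNW
    have a2 := hLIN.1 M r ξ _ _ _ _ hr.le a1 (Ap_lin hLIN M r ξ cn ln hr.le)
    have eg : l * l + C (((-1 : ℤ) : ℝ)) * (q * q) +
        -(C ((cn : ℝ) / 64) + C ((ln : ℝ) / 64) * ξ) = g := by
      rw [hg]; push_cast; rw [map_neg, map_one]; ring
    rw [eg] at a2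
    simp only at hb
    split at hb
    case h_2 => exact absurd hb (by simp)
    case h_1 v ni R hv hR =>
      obtain ⟨h0, av, _⟩ := hINVA M r ξ g w N ni _ v hok hv a2
      have aR : Ap M r ξ (q * q * g) R := hMULA M r ξ _ _ w N _ _ R hok hR aW a2
      have a3 := hLIN.2.1 M r ξ _ v (-1) hr.le av
      have a4 := hLIN.1 M r ξ _ _ _ _ hr.le aR a3
      have a5 := hLIN.2.2.1 M r ξ _ _ (ln * 2 ^ 154) hr.le hx1 a4
      refine ⟨h0, ?_⟩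
      have e5 : C ((((ln : ℤ) * 2 ^ 154 : ℤ) : ℝ) / 2 ^ 160) * (q * q * g + C (((-1 : ℤ) : ℝ)) * g⁻¹) =
          C ((ln : ℝ) / 64) * (q ^ 2 * g - g⁻¹) := by
        have : (((ln : ℤ) * 2 ^ 154 : ℤ) : ℝ) / 2 ^ 160 = (ln : ℝ) / 64 := by
          push_cast; ring
        rw [this]; push_cast; rw [map_neg, map_one]; ring
      rw [e5] at a5
      have : b = K.sclA (ln * 2 ^ 154) (K.addA R (K.intA (-1) v)) := by
        simpa using hb.symm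
      rw [this]
      exact a5

end TWP
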