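import Mathlib
import Pool.Agent.TWP.KM2

set_option autoImplicit false

/-! TWP: soundness of `m0one`. -/

namespace TWP

open PowerSeries

/-- the constant `1` -/
theorem Ap_one (hLIN : S_LIN) (M : ℕ) (r : ℝ) (ξ : ℝ⟦X⟧) (hr : 0 ≤ r) :
    Ap M r ξ 1 ([2 ^ 160], 0) := by
  have h := hLIN.2.2.2.2.2 M r ξ [2 ^ 160] hr
  have e : C (((2 : ℝ) ^ 160)⁻¹) * evZ ξ [2 ^ 160] = 1 := by
    simp only [evZ]
    rw [mul_zero, add_zero, ← map_mul]
    have : ((2 : ℝ) ^ 160)⁻¹ * ((2 ^ 160 : ℤ) : ℝ) = 1 := by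
      push_cast
      norm_num
    rw [this, map_one]
  rwa [e] at h

theorem t_M1 (hLIN : S_LIN) (hMULA : S_MULA) (hINVA : S_INVA) : S_M1 := by
  intro M r ξ l q w N cn ln L Q b hr hw hx hb hl hq
  have hok : Okw M r ξ w := ⟨hr, hw, hx⟩
  have hx1 : nrm M r ξ ≤ 1 := hx.trans (by
    rw [div_le_one (by norm_num)]; exact_mod_cast hw)
  set g : ℝ⟦X⟧ := l ^ 2 - (C ((cn : ℝ) / 64) + C ((ln : ℝ) / 64) * ξ) - q ^ 2 with hg
  unfold K.m0one at hb
  split at hb
  case h_2 => exact absurd hb (by simp)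
  case h_1 L2 W hL2 hW =>
    have aL2 : Ap M r ξ (l * l) L2 := hMULA M r ξ l l w N L L L2 hok hL2 hl hl
    have aW : Ap M r ξ (q * q) W := hMULA M r ξ q q w N Q Q W hok hW hq hq
    have aNW := hLIN.2.1 M r ξ (q * q) W (-1) hr.le aW
    have a1 := hLIN.1 M r ξ _ _ _ _ hr.le aL2 aNW
    have a2 := hLIN.1 M r ξ _ _ _ _ hr.le a1 (Ap_lin hLIN M r ξ cn ln hr.le)
    have eg : l * l + C (((-1 : ℤ) : ℝ)) * (q * q) +
        -(C ((cn : ℝ) / 64) + C ((ln : ℝ) / 64) * ξ) = g := by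
      rw [hg]; push_cast; rw [map_neg, map_one]; ring
    rw [eg] at a2
    simp only at hb
    split at hb
    case h_2 => exact absurd hb (by simp)
    case h_1 qg hqg =>
      have aqg : Ap M r ξ (q * g) qg := hMULA M r ξ q g w N _ _ qg hok hqg hq a2
      have ah := hLIN.1 M r ξ _ _ _ _ hr.le aqg (Ap_one hLIN M r ξ hr.le)
      rw [add_comm (q * g) 1] at ah
      try simp only at hb
      split at hb
      case h_2 => exact absurd hb (by simp)
      case h_1 v ni B hv hB =>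
        obtain ⟨h0, av, _⟩ := hINVA M r ξ (1 + q * g) w N ni _ v hok hv ah
        have aB : Ap M r ξ (q * (1 + q * g)) B := hMULA M r ξ _ _ w N _ _ B hok hB hq ah
        try simp only at hb
        split at hb
        case h_2 => exact absurd hb (by simp)
        case h_1 A hA =>
          have a3 := hLIN.2.1 M r ξ _ Q (-1) hr.le hq
          have a4 := hLIN.1 M r ξ _ _ _ _ hr.le hl a3
          have e4 : l + C (((-1 : ℤ) : ℝ)) * q = l - q := by
            push_cast; rw [map_neg, map_one]; ring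
          rw [e4] at a4
          have aA : Ap M r ξ ((l - q) * (1 + q * g)⁻¹) A := hMULA M r ξ _ _ w N _ _ A hok hA a4 av
          have aB2 := hLIN.2.2.1 M r ξ _ B (2 ^ 159) hr.le hx1 aB
          have a5 := hLIN.1 M r ξ _ _ _ _ hr.le aA aB2
          have a6 := hLIN.2.2.1 M r ξ _ _ (ln * 2 ^ 154) hr.le hx1 a5
          refine ⟨h0, ?_⟩
          have e5 : C ((((ln : ℤ) * 2 ^ 154 : ℤ) : ℝ) / 2 ^ 160) *
              ((l - q) * (1 + q * g)⁻¹ + C (((2 ^ 159 : ℤ) : ℝ) / 2 ^ 160) * (q * (1 + q * g))) =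
              C ((ln : ℝ) / 64) * (C (1 / 2 : ℝ) * (q ^ 2 * g + q) + (l - q) * (1 + q * g)⁻¹) := by
            have h1 : (((ln : ℤ) * 2 ^ 154 : ℤ) : ℝ) / 2 ^ 160 = (ln : ℝ) / 64 := by
              push_cast; ring
            have h2 : (((2 ^ 159 : ℤ) : ℝ) / 2 ^ 160) = 1 / 2 := by
              push_cast; norm_num
            rw [h1, h2]; ring
          rw [e5] at a6
          have : b = K.sclA (ln * 2 ^ 154) (K.addA A (K.sclA (2 ^ 159) B)) := by
            simpa using hb.symm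
          rw [this]
          exact a6

end TWP
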