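import Pool.Agent.TWP.KNrm

set_option autoImplicit false

/-! TWP: the product of two approximated series (module MULA). -/

namespace TWP

open PowerSeries Finset

theorem mula_div (x : ℕ) : (x : ℝ) / 2 ^ 160 ≤ ((x / K.ONE + 1 : ℕ) : ℝ) := by
  have hO : 0 < K.ONE := by unfold K.ONE; positivity
  have h1 : x < K.ONE * (x / K.ONE + 1) := Nat.lt_mul_div_succ x hO
  have h2 : ((K.ONE : ℕ) : ℝ) = 2 ^ 160 := by unfold K.ONE; norm_num
  have h3 : (x : ℝ) ≤ 2 ^ 160 * ((x / K.ONE + 1 : ℕ) : ℝ) := by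
    rw [← h2]; exact_mod_cast h1.le
  rw [div_le_iff₀ (by positivity)]
  linarith

theorem t_MULA (hEVA : S_EVA) (hMUL : S_MUL) (hNL : S_NL) : S_MULA := by
  intro M r ξ S T w N a b c hok hm ha hb
  obtain ⟨hr, hw, hξ⟩ := hok
  have hr0 : 0 ≤ r := hr.le
  unfold K.mulA at hm
  split_ifs at hm with hk
  rw [Option.some.injEq] at hm
  subst hm
  unfold Ap at ha hb ⊢
  set R := K.rndL N (K.mulL a.1 b.1) with hR
  set P := K.nL w (K.subL (K.mulL a.1 b.1) (K.smulL (2 ^ 160) R)) with hP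
  set Q := K.nL w a.1 * b.2 + K.nL w b.1 * a.2 + a.2 * b.2 with hQ
  set A := evZ ξ a.1 with hA
  set B := evZ ξ b.1 with hB
  set α := C ((2 : ℝ) ^ 160) * S - A with hα
  set β := C ((2 : ℝ) ^ 160) * T - B with hβ
  have e1 : evZ ξ (K.subL (K.mulL a.1 b.1) (K.smulL (2 ^ 160) R)) =
      A * B - C ((2 : ℝ) ^ 160) * evZ ξ R := by
    rw [(hEVA ξ (K.mulL a.1 b.1) (K.smulL (2 ^ 160) R) 0 0).2.2.1, hMUL ξ a.1 b.1 hk,
      (hEVA ξ R [] (2 ^ 160) 0).2.1]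
    have h3 : (((2 : ℤ) ^ 160 : ℤ) : ℝ) = (2 : ℝ) ^ 160 := by norm_num
    rw [h3]
  have nP : nrm M r (A * B - C ((2 : ℝ) ^ 160) * evZ ξ R) ≤ (P : ℝ) := by
    rw [← e1]; exact hNL M r ξ w _ hr0 hξ
  have nA : nrm M r A ≤ (K.nL w a.1 : ℝ) := hNL M r ξ w _ hr0 hξ
  have nB : nrm M r B ≤ (K.nL w b.1 : ℝ) := hNL M r ξ w _ hr0 hξ
  have e2 : C ((2 : ℝ) ^ 160) * (C ((2 : ℝ) ^ 160) * (S * T) - evZ ξ R) =
      (A * B - C ((2 : ℝ) ^ 160) * evZ ξ R) + (A * β + B * α + α * β) := by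
    rw [hα, hβ]; ring
  have n1 : nrm M r (A * β) ≤ (K.nL w a.1 : ℝ) * (b.2 : ℝ) :=
    (nrm_mul M hr0 _ _).trans (mul_le_mul nA hb (nrm_nonneg M hr0 _) (by positivity))
  have n2 : nrm M r (B * α) ≤ (K.nL w b.1 : ℝ) * (a.2 : ℝ) :=
    (nrm_mul M hr0 _ _).trans (mul_le_mul nB ha (nrm_nonneg M hr0 _) (by positivity))
  have n3 : nrm M r (α * β) ≤ (a.2 : ℝ) * (b.2 : ℝ) :=
    (nrm_mul M hr0 _ _).trans (mul_le_mul ha hb (nrm_nonneg M hr0 _) (by positivity))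
  have n4 : nrm M r (A * β + B * α + α * β) ≤ (Q : ℝ) := by
    have h1 := nrm_add M hr0 (A * β + B * α) (α * β)
    have h2 := nrm_add M hr0 (A * β) (B * α)
    rw [hQ]; push_cast
    linarith
  have n5 : 2 ^ 160 * nrm M r (C ((2 : ℝ) ^ 160) * (S * T) - evZ ξ R) ≤ (P : ℝ) + (Q : ℝ) := by
    have h1 : |(2 : ℝ) ^ 160| = 2 ^ 160 := abs_of_nonneg (by positivity)
    have h2 := nrm_C_mul M r ((2 : ℝ) ^ 160) (C ((2 : ℝ) ^ 160) * (S * T) - evZ ξ R)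
    rw [h1, e2] at h2
    rw [← h2]
    exact (nrm_add M hr0 _ _).trans (add_le_add nP n4)
  have n6 : nrm M r (C ((2 : ℝ) ^ 160) * (S * T) - evZ ξ R) ≤ (P : ℝ) / 2 ^ 160 + (Q : ℝ) / 2 ^ 160 := by
    rw [← add_div, le_div_iff₀ (by positivity)]
    linarith
  have h7 := mula_div P
  have h8 := mula_div Q
  refine n6.trans ((add_le_add h7 h8).trans (le_of_eq ?_))
  push_cast
  ring

end TWP
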