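import Mathlib
import Pool.Agent.TWP.KNrm

set_option autoImplicit false

/-! TWP: the product of lists through one big integer product. -/

namespace TWP

open PowerSeries

namespace KMULb

theorem pack_addL : ∀ P Q : List ℤ, K.pack (K.addL P Q) = K.pack P + K.pack Q
  | [], Q => by simp [K.addL, K.pack]
  | x :: P, [] => by simp [K.addL, K.pack]
  | x :: P, y :: Q => by
    rw [K.addL, K.pack, K.pack, K.pack, pack_addL P Q]; ring

theorem pack_smulL (k : ℤ) : ∀ P : List ℤ, K.pack (K.smulL k P) = k * K.pack P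
  | [] => by simp [K.smulL, K.pack]
  | x :: P => by rw [K.smulL, K.pack, K.pack, pack_smulL k P]; ring

theorem pack_conv : ∀ P Q : List ℤ, K.pack (K.conv P Q) = K.pack P * K.pack Q
  | [], Q => by simp [K.conv, K.pack]
  | x :: P, Q => by
    rw [K.conv, pack_addL, pack_smulL, K.pack, K.pack, pack_conv P Q]; ring

theorem maxAbs_addL : ∀ P Q : List ℤ, K.maxAbs (K.addL P Q) ≤ K.maxAbs P + K.maxAbs Q
  | [], Q => by simp [K.addL, K.maxAbs]
  | x :: P, [] => by simp [K.addL, K.maxAbs]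
  | x :: P, y :: Q => by
    rw [K.addL, K.maxAbs, K.maxAbs, K.maxAbs]
    have h1 := maxAbs_addL P Q
    have h2 := Int.natAbs_add_le x y
    omega

theorem maxAbs_smulL (k : ℤ) : ∀ P : List ℤ, K.maxAbs (K.smulL k P) ≤ k.natAbs * K.maxAbs P
  | [] => by simp [K.smulL, K.maxAbs]
  | x :: P => by
    rw [K.smulL, K.maxAbs, K.maxAbs, Int.natAbs_mul]
    have h1 := maxAbs_smulL k P
    refine max_le ?_ ?_
    · exact Nat.mul_le_mul_left _ (le_max_left _ _)
    · exact h1.trans (Nat.mul_le_mul_left _ (le_max_right _ _))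

theorem maxAbs_conv : ∀ P Q : List ℤ, K.maxAbs (K.conv P Q) ≤ K.sumAbs P * K.maxAbs Q
  | [], Q => by simp [K.conv, K.maxAbs]
  | x :: P, Q => by
    rw [K.conv, K.sumAbs, Nat.add_mul]
    refine (maxAbs_addL _ _).trans ?_
    refine Nat.add_le_add (maxAbs_smulL x Q) ?_
    rw [K.maxAbs]
    simpa using maxAbs_conv P Q

theorem length_addL : ∀ P Q : List ℤ, (K.addL P Q).length = max P.length Q.length
  | [], Q => by simp [K.addL]
  | x :: P, [] => by simp [K.addL]
  | x :: P, y :: Q => by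
    rw [K.addL, List.length_cons, List.length_cons, List.length_cons, length_addL P Q]
    omega

theorem length_smulL (k : ℤ) : ∀ P : List ℤ, (K.smulL k P).length = P.length
  | [] => rfl
  | x :: P => by rw [K.smulL, List.length_cons, List.length_cons, length_smulL k P]

theorem length_conv : ∀ P Q : List ℤ, (K.conv P Q).length ≤ P.length + Q.length
  | [], Q => by simp [K.conv]
  | x :: P, Q => by
    rw [K.conv, length_addL, length_smulL, List.length_cons, List.length_cons]
    have := length_conv P Q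
    omega

/-- one balanced digit -/
theorem digit (B x Y : ℤ) (hx : -B < x) (hx2 : x < B) :
    ((x + 2 * B * Y + B) % (2 * B) - B = x) ∧ ((x + 2 * B * Y + B) / (2 * B) = Y) := by
  have hB : 0 < 2 * B := by linarith
  have e : x + 2 * B * Y + B = (x + B) + 2 * B * Y := by ring
  rw [e]
  constructor
  · rw [Int.add_mul_emod_self_left, Int.emod_eq_of_lt (by linarith) (by linarith)]; ring
  · rw [Int.add_mul_ediv_left _ _ hB.ne', Int.ediv_eq_zero_of_lt (by linarith) (by linarith), zero_add]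

theorem unpack_pack (ξ : PowerSeries ℝ) : ∀ (n : ℕ) (R : List ℤ), R.length ≤ n →
    K.maxAbs R < 2 ^ 511 → evZ ξ (K.unpack n (K.pack R)) = evZ ξ R
  | 0, R, h, _ => by
    have : R = [] := List.eq_nil_of_length_eq_zero (Nat.le_zero.1 h)
    subst this
    rw [K.unpack]
  | n + 1, [], _, hm => by
    have hB : (0 : ℤ) < 2 ^ 511 := pow_pos (by norm_num) _
    have h1 := digit (2 ^ 511) 0 0 (neg_lt_zero.2 hB) hB
    rw [K.unpack]
    have e2 : (2 : ℤ) ^ 512 = 2 * 2 ^ 511 := by rw [← pow_succ']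
    have e0 : K.pack [] = 0 := rfl
    rw [e0, e2]
    have e3 : (0 : ℤ) + 2 * 2 ^ 511 * 0 + 2 ^ 511 = 0 + 2 ^ 511 := by ring
    rw [e3] at h1
    rw [h1.1, h1.2]
    have ih := unpack_pack ξ n [] (Nat.zero_le _) hm
    rw [e0] at ih
    show C ((0 : ℤ) : ℝ) + ξ * evZ ξ (K.unpack n 0) = 0
    rw [ih]
    show C ((0 : ℤ) : ℝ) + ξ * 0 = 0
    rw [mul_zero, add_zero, Int.cast_zero, map_zero]
  | n + 1, x :: R, h, hm => by
    rw [K.maxAbs] at hm
    have hx : x.natAbs < 2 ^ 511 := lt_of_le_of_lt (le_max_left _ _) hm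
    have hR : K.maxAbs R < 2 ^ 511 := lt_of_le_of_lt (le_max_right _ _) hm
    have hx' : |x| < 2 ^ 511 := by
      rw [Int.abs_eq_natAbs]
      exact_mod_cast hx
    obtain ⟨hx1, hx2⟩ := abs_lt.1 hx'
    have h1 := digit (2 ^ 511) x (K.pack R) hx1 hx2
    have e2 : (2 : ℤ) ^ 512 = 2 * 2 ^ 511 := by rw [← pow_succ']
    rw [K.unpack, K.pack, e2, h1.1, h1.2, evZ, evZ,
      unpack_pack ξ n R (by simpa using h) hR]

end KMULb

theorem t_MULb (hEVA : S_EVA) : S_MUL := by
  intro ξ P Q h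
  have h1 : K.sumAbs P * K.maxAbs Q < 2 ^ 511 := by
    unfold K.okMul at h
    rw [Nat.blt_eq] at h
    exact h
  have h2 : K.maxAbs (K.conv P Q) < 2 ^ 511 := lt_of_le_of_lt (KMULb.maxAbs_conv P Q) h1
  unfold K.mulL
  rw [← KMULb.pack_conv, KMULb.unpack_pack ξ _ _ (KMULb.length_conv P Q) h2]
  exact (hEVA ξ P Q 0 0).2.2.2.2

end TWP
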