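import Mathlib
import Pool.Agent.TWP.KNrm

set_option autoImplicit false

/-! TWP, soundness of the engine: the norm of a list polynomial. -/

namespace TWP

open PowerSeries Finset

theorem t_NL : S_NL := by
  intro M r ξ w P hr hξ
  induction P with
  | nil => simp [evZ, K.nL, nrm_zero]
  | cons a P ih =>
    have h1 : nrm M r (evZ ξ (a :: P)) ≤ nrm M r (C (a : ℝ)) + nrm M r (ξ * evZ ξ P) :=
      nrm_add M hr _ _
    have h2 : nrm M r (ξ * evZ ξ P) ≤ nrm M r ξ * nrm M r (evZ ξ P) := nrm_mul M hr _ _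
    have h3 : nrm M r ξ * nrm M r (evZ ξ P) ≤ (w : ℝ) / 4096 * (K.nL w P : ℝ) :=
      mul_le_mul hξ ih (nrm_nonneg M hr _) (by positivity)
    have h4 : (K.nL w P * w : ℕ) < (K.nL w P * w / 4096 + 1) * 4096 := by omega
    have h5 : ((K.nL w P : ℝ) * (w : ℝ)) < (((K.nL w P * w / 4096 : ℕ) : ℝ) + 1) * 4096 := by
      exact_mod_cast h4
    have h6 : ((K.nL w (a :: P) : ℕ) : ℝ) =
        |(a : ℝ)| + (((K.nL w P * w / 4096 : ℕ) : ℝ) + 1) := by
      have e : K.nL w (a :: P) = a.natAbs + (K.nL w P * w / 4096 + 1) := rfl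
      rw [e, Nat.cast_add, Nat.cast_add, Nat.cast_natAbs, Nat.cast_one, Int.cast_abs]
    rw [nrm_C] at h1
    rw [h6]
    linarith

end TWP
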