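import Mathlib
import Pool.Agent.TWP.KNrm

set_option autoImplicit false

/-! TWP, module SC: error of a rounded scalar multiple. -/

namespace TWP

open PowerSeries Finset

theorem SC_floor (a z : ℤ) : |((a : ℝ) * z / 2 ^ 160) - ((a * z / (2 ^ 160 : ℤ) : ℤ) : ℝ)| ≤ 1 := by
  have h1 := Int.emod_add_mul_ediv (a * z) (2 ^ 160)
  have h2 := Int.emod_nonneg (a * z) (show (2 ^ 160 : ℤ) ≠ 0 by norm_num)
  have h3 := Int.emod_lt_of_pos (a * z) (show (0 : ℤ) < 2 ^ 160 by norm_num)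
  set q : ℤ := a * z / 2 ^ 160
  set m : ℤ := a * z % 2 ^ 160
  have h1' : ((m : ℝ)) + 2 ^ 160 * (q : ℝ) = (a : ℝ) * z := by exact_mod_cast h1
  have h2' : (0 : ℝ) ≤ m := by exact_mod_cast h2
  have h3' : (m : ℝ) ≤ 2 ^ 160 := by exact_mod_cast h3.le
  have hp : (0 : ℝ) < 2 ^ 160 := by positivity
  rw [← h1']
  have h4 : ((m : ℝ) + 2 ^ 160 * (q : ℝ)) / 2 ^ 160 - q = m / 2 ^ 160 := by
    field_simp
    ring
  rw [h4, abs_of_nonneg (div_nonneg h2' hp.le)]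
  exact (div_le_one hp).2 h3'

theorem t_SC : S_SC := by
  intro M r ξ z P hr hξ
  induction P with
  | nil =>
    simp only [evZ, K.scL, mul_zero, sub_zero, nrm_zero, List.length_nil, Nat.cast_zero, le_refl]
  | cons a P ih =>
    have e1 : C ((z : ℝ) / 2 ^ 160) * evZ ξ (a :: P) - evZ ξ (K.scL z (a :: P)) =
        C (((a : ℝ) * z / 2 ^ 160) - ((a * z / (2 ^ 160 : ℤ) : ℤ) : ℝ)) +
          ξ * (C ((z : ℝ) / 2 ^ 160) * evZ ξ P - evZ ξ (K.scL z P)) := by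
      have e2 : (a : ℝ) * z / 2 ^ 160 = (z : ℝ) / 2 ^ 160 * a := by ring
      rw [map_sub, e2, map_mul]
      simp only [evZ, K.scL]
      ring
    rw [e1]
    calc nrm M r (C (((a : ℝ) * z / 2 ^ 160) - ((a * z / (2 ^ 160 : ℤ) : ℤ) : ℝ)) +
          ξ * (C ((z : ℝ) / 2 ^ 160) * evZ ξ P - evZ ξ (K.scL z P)))
        ≤ nrm M r (C (((a : ℝ) * z / 2 ^ 160) - ((a * z / (2 ^ 160 : ℤ) : ℤ) : ℝ))) +
          nrm M r (ξ * (C ((z : ℝ) / 2 ^ 160) * evZ ξ P - evZ ξ (K.scL z P))) := nrm_add M hr _ _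
      _ ≤ 1 + 1 * (P.length : ℝ) := by
          refine add_le_add ?_ ?_
          · rw [nrm_C]; exact SC_floor a z
          · exact (nrm_mul M hr _ _).trans
              (mul_le_mul hξ ih (nrm_nonneg M hr _) zero_le_one)
      _ = ((a :: P).length : ℝ) := by
          rw [List.length_cons]; push_cast; ring

end TWP
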