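import Pool.Agent.TWP.KNrm

set_option autoImplicit false

/-! TWP, module K STEP: soundness of one Toda step of the engine. -/

namespace TWP

open PowerSeries Finset

namespace KSTEP

/-- the linear combination `C hh + C k1 * L - C k2 * L'` -/
lemma comb (hEVA : S_EVA) (M : ℕ) {r : ℝ} (hr : 0 ≤ r) (ξ L L' : ℝ⟦X⟧) (hh k1 k2 : ℤ)
    (l dl' : List ℤ) (el edl : ℕ) (hL : Ap M r ξ L (l, el)) (hL' : Ap M r ξ L' (dl', edl)) :
    Ap M r ξ (C (hh : ℝ) + C (k1 : ℝ) * L - C (k2 : ℝ) * L')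
      (K.addL [hh * 2 ^ 160] (K.subL (K.smulL k1 l) (K.smulL k2 dl')),
        k1.natAbs * el + k2.natAbs * edl) := by
  unfold Ap at hL hL' ⊢
  dsimp only at hL hL' ⊢
  have e1 := (hEVA ξ [hh * 2 ^ 160] (K.subL (K.smulL k1 l) (K.smulL k2 dl')) 0 0).1
  have e2 := (hEVA ξ (K.smulL k1 l) (K.smulL k2 dl') 0 0).2.2.1
  have e3 := (hEVA ξ l l k1 0).2.1
  have e4 := (hEVA ξ dl' dl' k2 0).2.1
  have e5 : evZ ξ [hh * 2 ^ 160] = C ((2 : ℝ) ^ 160) * C (hh : ℝ) := by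
    unfold evZ
    unfold evZ
    rw [mul_zero, add_zero, ← map_mul]
    congr 1
    rw [Int.cast_mul, Int.cast_pow, Int.cast_ofNat]
    ring
  rw [e1, e2, e3, e4, e5]
  have e6 : C ((2 : ℝ) ^ 160) * (C (hh : ℝ) + C (k1 : ℝ) * L - C (k2 : ℝ) * L') -
      (C ((2 : ℝ) ^ 160) * C (hh : ℝ) + (C (k1 : ℝ) * evZ ξ l - C (k2 : ℝ) * evZ ξ dl')) =
      C (k1 : ℝ) * (C ((2 : ℝ) ^ 160) * L - evZ ξ l) -
        C (k2 : ℝ) * (C ((2 : ℝ) ^ 160) * L' - evZ ξ dl') := by ring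
  rw [e6]
  refine (nrm_sub M hr _ _).trans ?_
  rw [nrm_C_mul, nrm_C_mul]
  have h1 : |(k1 : ℝ)| = (k1.natAbs : ℝ) := by
    rw [Nat.cast_natAbs, Int.cast_abs]
  have h2 : |(k2 : ℝ)| = (k2.natAbs : ℝ) := by
    rw [Nat.cast_natAbs, Int.cast_abs]
  rw [h1, h2, Nat.cast_add, Nat.cast_mul, Nat.cast_mul]
  exact add_le_add (mul_le_mul_of_nonneg_left hL (Nat.cast_nonneg _))
    (mul_le_mul_of_nonneg_left hL' (Nat.cast_nonneg _))

/-- the final combination `2 S - S' + ξ^zs Y` -/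
lemma fin (hEVA : S_EVA) (M : ℕ) {r : ℝ} (hr : 0 ≤ r) (ξ S S' Y : ℝ⟦X⟧) (zs : ℕ)
    (a ap y : K.AP) (hξ : nrm M r ξ ≤ 1) (hS : Ap M r ξ S a) (hS' : Ap M r ξ S' ap)
    (hY : Ap M r ξ Y y) :
    Ap M r ξ (2 * S - S' + ξ ^ zs * Y)
      (K.addL (K.subL (K.smulL 2 a.1) ap.1) (K.shiftL zs y.1), 2 * a.2 + ap.2 + y.2) := by
  unfold Ap at hS hS' hY ⊢
  dsimp only
  have e1 := (hEVA ξ (K.subL (K.smulL 2 a.1) ap.1) (K.shiftL zs y.1) 0 0).1
  have e2 := (hEVA ξ (K.smulL 2 a.1) ap.1 0 0).2.2.1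
  have e3 := (hEVA ξ a.1 a.1 2 0).2.1
  have e4 := (hEVA ξ y.1 y.1 0 zs).2.2.2.1
  have e5 : (C ((2 : ℤ) : ℝ) : ℝ⟦X⟧) = 2 := by
    rw [Int.cast_ofNat]; exact map_ofNat C 2
  rw [e1, e2, e3, e4, e5]
  have e6 : C ((2 : ℝ) ^ 160) * (2 * S - S' + ξ ^ zs * Y) -
      (2 * evZ ξ a.1 - evZ ξ ap.1 + ξ ^ zs * evZ ξ y.1) =
      (2 * (C ((2 : ℝ) ^ 160) * S - evZ ξ a.1) - (C ((2 : ℝ) ^ 160) * S' - evZ ξ ap.1)) +
        ξ ^ zs * (C ((2 : ℝ) ^ 160) * Y - evZ ξ y.1) := by ring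
  rw [e6]
  have h1 : nrm M r (2 * (C ((2 : ℝ) ^ 160) * S - evZ ξ a.1)) ≤ 2 * (a.2 : ℝ) := by
    have h2 : (2 : ℝ⟦X⟧) = C (2 : ℝ) := (map_ofNat C 2).symm
    rw [h2, nrm_C_mul, abs_of_pos (by norm_num : (0 : ℝ) < 2)]
    exact mul_le_mul_of_nonneg_left hS (by norm_num)
  have h3 : nrm M r (ξ ^ zs * (C ((2 : ℝ) ^ 160) * Y - evZ ξ y.1)) ≤ (y.2 : ℝ) := by
    refine (nrm_mul M hr _ _).trans ?_
    calc nrm M r (ξ ^ zs) * nrm M r (C ((2 : ℝ) ^ 160) * Y - evZ ξ y.1)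
        ≤ 1 * (y.2 : ℝ) := mul_le_mul (nrm_pow_le_one M hr ξ hξ zs) hY
          (nrm_nonneg M hr _) zero_le_one
      _ = (y.2 : ℝ) := one_mul _
  have h4 := nrm_add M hr (2 * (C ((2 : ℝ) ^ 160) * S - evZ ξ a.1) -
    (C ((2 : ℝ) ^ 160) * S' - evZ ξ ap.1)) (ξ ^ zs * (C ((2 : ℝ) ^ 160) * Y - evZ ξ y.1))
  have h5 := nrm_sub M hr (2 * (C ((2 : ℝ) ^ 160) * S - evZ ξ a.1))
    (C ((2 : ℝ) ^ 160) * S' - evZ ξ ap.1)
  rw [Nat.cast_add, Nat.cast_add, Nat.cast_mul, Nat.cast_ofNat]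
  linarith

end KSTEP

theorem t_STEP (hEVA : S_EVA) (hDER : S_DER) (hSC : S_SC) (hLIN : S_LIN) (hLOG : S_LOG) :
    S_STEP := by
  intro tail M r r' r'' ξ S S' w0 w1 w2 c0 c1 N zc zs hh k1 k2 a ap b hlaw hw0 hD0 hw1 hD1 hw2
    hS hS' hstep
  rcases hinv : K.invA w0 N a with _ | ⟨v, ni⟩
  · unfold K.stepA at hstep
    rw [hinv] at hstep
    exact absurd hstep (by intro h; cases h)
  · unfold K.stepA at hstep
    rw [hinv] at hstep
    dsimp only at hstep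
    by_cases hok1 : K.okMul (K.der tail a.1) v.1 = true
    · rw [if_pos hok1] at hstep
      by_cases hok2 : K.okMul (K.rndL N (K.mulL (K.der tail a.1) v.1)) a.1 = true
      · rw [if_pos hok2] at hstep
        have hb := Option.some.inj hstep
        obtain ⟨hc, hlog⟩ := hLOG tail M r r' ξ S w0 w1 c0 N ni a v
          (K.rndL N (K.mulL (K.der tail a.1) v.1)) hlaw hw0 hD0 hw1 hS hinv hok2
        refine ⟨hc, ?_⟩
        obtain ⟨hadd, hint, hscl, hmono, hder, hlist⟩ := hLIN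
        have hr'' : 0 < r'' := hD1.1
        have hr' : 0 < r' := hD0.1
        have hr''r' : r'' ≤ r' := hD1.2.1
        have hr'r : r' ≤ r := hD0.2.1
        have hξ1 : nrm (M - 2) r'' ξ ≤ 1 := by
          refine hw2.2.2.trans ?_
          rw [div_le_one (by norm_num)]
          exact_mod_cast hw2.2.1
        have hM : M - 1 - 1 = M - 2 := by omega
        have hdl := hder tail (M - 1) c1 r' r'' ξ (D S * S⁻¹) _ hlaw hD1 hlog
        rw [hM] at hdl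
        have hl2 := hmono (M - 1) (M - 2) r' r'' ξ (D S * S⁻¹) _ (by omega) hr''.le hr''r' hlog
        have hT := KSTEP.comb hEVA (M - 2) hr''.le ξ (D S * S⁻¹) (D (D S * S⁻¹)) hh k1 k2
          _ _ _ _ hl2 hdl
        have hY := hscl (M - 2) r'' ξ _ _ zc hr''.le hξ1 hT
        have hSm := hmono M (M - 2) r r'' ξ S a (by omega) hr''.le (hr''r'.trans hr'r) hS
        have hSm' := hmono M (M - 2) r r'' ξ S' ap (by omega) hr''.le (hr''r'.trans hr'r) hS'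
        have hF := KSTEP.fin hEVA (M - 2) hr''.le ξ S S' _ zs a ap _ hξ1 hSm hSm' hY
        have hn : nextS ξ zc zs hh k1 k2 S S' = 2 * S - S' + ξ ^ zs *
            (C ((zc : ℝ) / 2 ^ 160) * (C (hh : ℝ) + C (k1 : ℝ) * (D S * S⁻¹) -
              C (k2 : ℝ) * D (D S * S⁻¹))) := by
          unfold nextS; ring
        rw [hn, ← hb]
        exact hF
      · rw [if_neg hok2] at hstep
        exact absurd hstep (by intro h; cases h)
    · rw [if_neg hok1] at hstep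
      exact absurd hstep (by intro h; cases h)

end TWP
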