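import Mathlib
import Pool.Agent.TWP.KNrm

set_option autoImplicit false

/-! TWP: module TWP_K_POS. -/

namespace TWP

open PowerSeries Finset

/-- natural division loses at most one -/
theorem pos_div_aux (a : ℕ) : (a : ℝ) / 4096 ≤ ((a / 4096 : ℕ) : ℝ) + 1 := by
  have h := Nat.div_add_mod a 4096
  have h2 := Nat.mod_lt a (show 0 < 4096 by norm_num)
  have h3 : a ≤ 4096 * (a / 4096) + 4096 := by omega
  have h4 : (a : ℝ) ≤ 4096 * ((a / 4096 : ℕ) : ℝ) + 4096 := by exact_mod_cast h3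
  rw [div_le_iff₀ (by norm_num)]
  linarith

theorem pos_coeff_aux (ξ : ℝ⟦X⟧) (a : ℤ) (E : ℝ⟦X⟧) :
    coeff 0 (C (a : ℝ) + ξ * E) = (a : ℝ) + coeff 0 ξ * coeff 0 E := by
  simp

theorem pos_mul_aux (x e : ℝ) (h n : ℕ) (hx : |x| ≤ (h : ℝ) / 4096) (he : |e| ≤ (n : ℝ)) :
    |x * e| ≤ ((n * h / 4096 : ℕ) : ℝ) + 1 := by
  have h1 := pos_div_aux (n * h)
  have h2 : |x * e| ≤ (h : ℝ) / 4096 * n := by
    rw [abs_mul]
    exact mul_le_mul hx he (abs_nonneg _) (by positivity)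
  have h3 : (h : ℝ) / 4096 * n = ((n * h : ℕ) : ℝ) / 4096 := by
    push_cast; ring
  rw [h3] at h2
  exact h2.trans h1

theorem pos_nL_aux (ξ : ℝ⟦X⟧) (h : ℕ) (hx : |coeff 0 ξ| ≤ (h : ℝ) / 4096) :
    ∀ P : List ℤ, |coeff 0 (evZ ξ P)| ≤ (K.nL h P : ℝ)
  | [] => by simp [evZ, K.nL]
  | a :: P => by
    have ih := pos_nL_aux ξ h hx P
    have h1 := pos_mul_aux _ _ h _ hx ih
    have h2 : |(a : ℝ)| = ((a.natAbs : ℕ) : ℝ) := by
      rw [Nat.cast_natAbs, Int.cast_abs]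
    rw [evZ, pos_coeff_aux, K.nL]
    refine (abs_add_le _ _).trans ?_
    rw [h2]
    push_cast at h1 ⊢
    linarith

theorem t_POS : S_POS := by
  intro M r ξ S h a hr hx hA hp
  obtain ⟨L, e⟩ := a
  cases L with
  | nil => simp [K.posA] at hp
  | cons x P =>
    have hp' : ((K.nL h P * h / 4096 + 1 + e : ℕ) : ℤ) < x := by
      have := hp
      simp only [K.posA, decide_eq_true_eq] at this
      push_cast
      exact this
    have hp2 : ((K.nL h P * h / 4096 : ℕ) : ℝ) + 1 + (e : ℝ) < (x : ℝ) := by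
      generalize K.nL h P * h / 4096 = t at hp'
      exact_mod_cast hp'
    have h1 := pos_mul_aux _ _ h _ hx (pos_nL_aux ξ h hx P)
    have h2 := (nrm_coeff_zero M hr _).trans hA
    rw [map_sub, coeff_C_mul, evZ, pos_coeff_aux] at h2
    have h3 := (abs_le.1 h2).1
    have h4 := (abs_le.1 h1).1
    simp only at h3
    have h7 : 0 < (2 : ℝ) ^ 160 * coeff 0 S := by linarith
    exact pos_of_mul_pos_right h7 (by positivity)

end TWP
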