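import Mathlib
import Pool.Agent.TWP.KEVA
import Pool.Agent.TWP.KMULb
import Pool.Agent.TWP.KDER
import Pool.Agent.TWP.KNL
import Pool.Agent.TWP.KSC
import Pool.Agent.TWP.KLIN
import Pool.Agent.TWP.KMULA
import Pool.Agent.TWP.KINVA
import Pool.Agent.TWP.KLOG
import Pool.Agent.TWP.KSTEP
import Pool.Agent.TWP.K_POS
import Pool.Agent.TWP.KCHAIN
import Pool.Agent.TWP.KCHAINN
import Pool.Agent.TWP.KM1

set_option autoImplicit false

/-! TWP: soundness of the engine, without hypotheses. -/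

namespace TWP

theorem kEVA : S_EVA := t_EVA
theorem kMUL : S_MUL := t_MULb kEVA
theorem kDER : S_DER := t_DER
theorem kNL : S_NL := t_NL
theorem kSC : S_SC := t_SC
theorem kLIN : S_LIN := t_LIN kEVA kDER kSC
theorem kMULA : S_MULA := t_MULA kEVA kMUL kNL
theorem kINVA : S_INVA := t_INVA kEVA kMUL kNL
theorem kLOG : S_LOG := t_LOG kEVA kMUL kDER kNL kINVA
theorem kSTEP : S_STEP := t_STEP kEVA kDER kSC kLIN kLOG
theorem kPOS : S_POS := t_POS
theorem kCHAIN : S_CHAIN := t_CHAIN kLIN kSTEP kPOS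
theorem kCHAINN : S_CHAINN := t_CHAINN kLIN kSTEP kPOS
theorem kM2 : S_M2 := t_M2 kLIN kMULA kINVA
theorem kM1 : S_M1 := t_M1 kLIN kMULA kINVA

end TWP
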