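import Pool.Agent.TWP.StF

/-! TWP, module TL: the general link between the Toda chain of functions and the series chain. -/

namespace TWP

open PowerSeries Filter Topology
open scoped ContDiff

theorem TL : S_TC → S_TS → S_TA → S_TM → S_TI → S_TL := by
  intro hTC hTS hTA hTM hTI ψ ρ x m t zc zs hh k1 k2 K hψ hρ hx hm hρ0 hstep hpos
  obtain ⟨_, hTS2, hTS3, hTS4⟩ := hTS
  obtain ⟨hTAc, hTAa, hTAs⟩ := hTA ψ t hψ
  have hTM' := hTM ψ t hψ
  have hTI' := hTI ψ t hψ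
  have hpow : ∀ n : ℕ, Tay ψ (fun s => x s ^ n) t = (Tay ψ x t) ^ n := by
    intro n
    induction n with
    | zero =>
      have h := hTAc 1
      simp only [pow_zero]
      rw [h, map_one]
    | succ n ih =>
      have h := hTM' (fun s => x s ^ n) x (hx.pow n) hx
      simp only [pow_succ]
      rw [h, ih]
  have key : ∀ a a' : ℝ → ℝ, ContDiffAt ℝ ∞ a t → ContDiffAt ℝ ∞ a' t → 0 < a t →
      Tay ψ (fun s => ρ s * (2 * a s - a' s - deriv (fun s => deriv a s / a s) s)) t =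
      nextS (Tay ψ x t) zc zs hh k1 k2 (Tay ψ (fun s => ρ s * a s) t)
        (Tay ψ (fun s => ρ s * a' s) t) := by
    intro a a' ha ha' ha0
    obtain ⟨f, hfdef⟩ : ∃ f : ℝ → ℝ, f = fun s => ρ s * a s := ⟨_, rfl⟩
    have hf : ContDiffAt ℝ ∞ f t := by rw [hfdef]; exact hρ.mul ha
    have hft : f t ≠ 0 := by
      rw [hfdef]
      exact (mul_pos hρ0 ha0).ne'
    obtain ⟨L, hLdef⟩ : ∃ L : ℝ → ℝ, L = fun s => dl ψ f s / f s := ⟨_, rfl⟩
    have hdlf : ContDiffAt ℝ ∞ (dl ψ f) t := hTS2 ψ f t hψ hf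
    have hL : ContDiffAt ℝ ∞ L t := by rw [hLdef]; exact hdlf.div hf hft
    have hdL : ContDiffAt ℝ ∞ (dl ψ L) t := hTS2 ψ L t hψ hL
    have e1 : Tay ψ L t = D (Tay ψ f t) * (Tay ψ f t)⁻¹ := by
      rw [hLdef, (hTI' (dl ψ f) f hdlf hf hft).2, (hTC ψ f f t EventuallyEq.rfl).2.2]
    have e2 : Tay ψ (dl ψ L) t = D (Tay ψ L t) := ((hTC ψ L L t EventuallyEq.rfl).2.2).symm
    have hs := hstep a ha ha0
    have hev : (fun s => ρ s * (2 * a s - a' s - deriv (fun s => deriv a s / a s) s)) =ᶠ[𝓝 t]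
        fun s => (f s + f s - ρ s * a' s) + (((zc : ℝ) / 2 ^ 160) * x s ^ zs *
          (((hh : ℝ) + (k1 : ℝ) * L s) - (k2 : ℝ) * dl ψ L s)) := by
      filter_upwards [hs] with s hs
      have h1 : ρ s * (2 * a s - a' s - deriv (fun s => deriv a s / a s) s) =
        2 * (ρ s * a s) - ρ s * a' s - ρ s * deriv (fun s => deriv a s / a s) s := by ring
      rw [h1, hs, hLdef, hfdef]
      ring
    rw [(hTC ψ _ _ t hev).1]
    have c1 : ContDiffAt ℝ ∞ (fun s => ρ s * a' s) t := hρ.mul ha'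
    have c2 : ContDiffAt ℝ ∞ (fun s => f s + f s) t := hf.add hf
    have c3 : ContDiffAt ℝ ∞ (fun s => f s + f s - ρ s * a' s) t := c2.sub c1
    have c4 : ContDiffAt ℝ ∞ (fun s => x s ^ zs) t := hx.pow zs
    have c5 : ContDiffAt ℝ ∞ (fun s => ((zc : ℝ) / 2 ^ 160) * x s ^ zs) t :=
      contDiffAt_const.mul c4
    have c6 : ContDiffAt ℝ ∞ (fun s => (k1 : ℝ) * L s) t := contDiffAt_const.mul hL
    have c7 : ContDiffAt ℝ ∞ (fun s => (k2 : ℝ) * dl ψ L s) t := contDiffAt_const.mul hdL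
    have c8 : ContDiffAt ℝ ∞ (fun s => (hh : ℝ) + (k1 : ℝ) * L s) t := contDiffAt_const.add c6
    have c9 : ContDiffAt ℝ ∞ (fun s => ((hh : ℝ) + (k1 : ℝ) * L s) - (k2 : ℝ) * dl ψ L s) t :=
      c8.sub c7
    have c10 : ContDiffAt ℝ ∞ (fun s => ((zc : ℝ) / 2 ^ 160) * x s ^ zs *
          (((hh : ℝ) + (k1 : ℝ) * L s) - (k2 : ℝ) * dl ψ L s)) t := c5.mul c9
    have t1 := hTAa (fun s => f s + f s - ρ s * a' s) (fun s => ((zc : ℝ) / 2 ^ 160) * x s ^ zs *
          (((hh : ℝ) + (k1 : ℝ) * L s) - (k2 : ℝ) * dl ψ L s)) c3 c10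
    have t2 := hTAs (fun s => f s + f s) (fun s => ρ s * a' s) c2 c1
    have t3 := hTAa f f hf hf
    have t4 := hTM' (fun s => ((zc : ℝ) / 2 ^ 160) * x s ^ zs)
      (fun s => ((hh : ℝ) + (k1 : ℝ) * L s) - (k2 : ℝ) * dl ψ L s) c5 c9
    have t5 := hTM' (fun _ => (zc : ℝ) / 2 ^ 160) (fun s => x s ^ zs) contDiffAt_const c4
    have t6 := hTAs (fun s => (hh : ℝ) + (k1 : ℝ) * L s) (fun s => (k2 : ℝ) * dl ψ L s) c8 c7
    have t7 := hTAa (fun _ => (hh : ℝ)) (fun s => (k1 : ℝ) * L s) contDiffAt_const c6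
    have t8 := hTM' (fun _ => (k1 : ℝ)) L contDiffAt_const hL
    have t9 := hTM' (fun _ => (k2 : ℝ)) (dl ψ L) contDiffAt_const hdL
    rw [t1, t2, t3, t4, t5, t6, t7, t8, t9, hTAc, hTAc, hTAc, hTAc, hpow, e2, e1]
    rw [hfdef]
    unfold nextS
    ring
  have pos0 : ∀ a : ℝ → ℝ, 0 < coeff 0 (Tay ψ (fun s => ρ s * a s) t) → 0 < a t := by
    intro a ha
    rw [(hTC ψ (fun s => ρ s * a s) _ t EventuallyEq.rfl).2.1] at ha
    exact (mul_pos_iff_of_pos_left hρ0).1 ha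
  have main : ∀ (K' j : ℕ), ContDiffAt ℝ ∞ (toda m (j + 1)) t → ContDiffAt ℝ ∞ (toda m j) t →
      (∀ k ≤ K', 0 < coeff 0 (seqS (Tay ψ x t) zc zs hh k1 k2 k
        (Tay ψ (fun s => ρ s * toda m (j + 1) s) t) (Tay ψ (fun s => ρ s * toda m j s) t))) →
      ∀ k ≤ K', 0 < toda m (j + 1 + k) t ∧ ContDiffAt ℝ ∞ (toda m (j + 1 + k)) t := by
    intro K'
    induction K' with
    | zero =>
      intro j h1 h0 hp k hk
      obtain rfl : k = 0 := by omega
      exact ⟨pos0 _ (hp 0 le_rfl), h1⟩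
    | succ K' ih =>
      intro j h1 h0 hp k hk
      have hp0 : 0 < toda m (j + 1) t := pos0 _ (hp 0 (Nat.zero_le _))
      have h2 : ContDiffAt ℝ ∞ (toda m (j + 2)) t := hTS4 m t j h0 h1 hp0.ne'
      rcases k with _ | k
      · exact ⟨hp0, h1⟩
      · have e : Tay ψ (fun s => ρ s * toda m (j + 1 + 1) s) t =
            nextS (Tay ψ x t) zc zs hh k1 k2 (Tay ψ (fun s => ρ s * toda m (j + 1) s) t)
              (Tay ψ (fun s => ρ s * toda m j s) t) := key (toda m (j + 1)) (toda m j) h1 h0 hp0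
        have h3 := ih (j + 1) h2 h1 (fun k hk => by
          have h4 := hp (k + 1) (by omega)
          rw [e]
          exact h4) k (by omega)
        rw [show j + 1 + (k + 1) = j + 1 + 1 + k by ring]
        exact h3
  intro k hk1 hk2
  have z0 : Tay ψ (fun s => ρ s * toda m 0 s) t = 0 := by
    have h : (fun s => ρ s * toda m 0 s) = fun _ => (0 : ℝ) := by
      funext s
      show ρ s * 0 = 0
      ring
    rw [h, hTAc 0, map_zero]
  have h := main K 0 (hTS3 m t hm) contDiffAt_const (fun k hk => by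
    rw [z0]
    exact hpos k hk) (k - 1) (by omega)
  rw [show 0 + 1 + (k - 1) = k by omega] at h
  exact h

end TWP
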