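import Mathlib
import Pool.Agent.TWP.KFin
import Pool.Agent.TWP.FTC
import Pool.Agent.TWP.FTS
import Pool.Agent.TWP.FTA
import Pool.Agent.TWP.FTM
import Pool.Agent.TWP.FTI
import Pool.Agent.TWP.TL
import Pool.Agent.TWP.BEX
import Pool.Agent.TWP.BGJ
import Pool.Agent.TWP.BPN
import Pool.Agent.TWP.BNB
import Pool.Agent.TWP.BDE
import Pool.Agent.TWP.BIC
import Pool.Agent.TWP.BDB
import Pool.Agent.TWP.BRT
import Pool.Agent.TWP.BPR
import Pool.Agent.TWP.BRJ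
import Pool.Agent.TWP.BRN
import Pool.Agent.TWP.BRF
import Pool.Agent.TWP.BRM
import Pool.Agent.TWP.BRA
import Pool.Agent.TWP.BRS
import Pool.Agent.TWP.BR
import Pool.Agent.TWP.BPL
import Pool.Agent.TWP.BLJ
import Pool.Agent.TWP.BLN
import Pool.Agent.TWP.BLF
import Pool.Agent.TWP.BLE
import Pool.Agent.TWP.BLM
import Pool.Agent.TWP.BLA
import Pool.Agent.TWP.BLS
import Pool.Agent.TWP.BL

set_option autoImplicit false

/-! TWP, block B: both tails, without hypotheses. -/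

namespace TWP

theorem bTA : S_TA := TA TC TS
theorem bTM : S_TM := TM TC TS bTA
theorem bTI : S_TI := TI TC TS bTA bTM
theorem bTL : S_TL := TL TC TS bTA bTM bTI
theorem bPR : S_BPR := t_BPR t_BEX t_BPN t_BNB t_BDE kEVA
theorem bRJ : S_BRJ := t_BRJ t_BEX t_BPN t_BGJ
theorem bRM : S_BRM := t_BRM t_BRF
theorem bRA : S_BRA := t_BRA t_BEX t_BPN kLIN kINVA
theorem bPL : S_BPL := t_BPL t_BEX t_BPN t_BNB t_BDE kEVA
theorem bLJ : S_BLJ := t_BLJ t_BEX t_BPN t_BGJ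
theorem bLE : S_BLE := t_BLE t_BV0 t_BDE t_BLF t_BLN
theorem bLM : S_BLM := t_BLM t_BLF
theorem bLA : S_BLA := t_BLA kLIN kMULA kINVA

/-- the right tail -/
theorem bR : S_BR :=
  t_BR t_BEX t_BIC t_BV0 t_BRT bPR bRJ t_BRN t_BRF bRM bRA t_BRS bTA bTM bTL kCHAIN

/-- the left tail -/
theorem bL : S_BL :=
  t_BL t_BEX t_BIC t_BDB t_BRT bPL bLJ t_BLN t_BLF bLE bLM bLA t_BLS bTA bTM bTL kCHAIN

end TWP
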