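import Pool.Agent.TWP.StB
import Pool.Agent.TWP.KNrm

set_option autoImplicit false

namespace TWP

open PowerSeries Finset Filter Topology
open scoped ContDiff

namespace BRJaux

theorem D_add (A B : ℝ⟦X⟧) : D (A + B) = D A + D B := by
  unfold D
  exact map_add _ _ _

theorem C2 : (C (2 : ℝ) : ℝ⟦X⟧) = 2 := map_ofNat C 2

theorem Cab : (C (2 / 3 : ℝ) : ℝ⟦X⟧) * C (3 / 2 : ℝ) = 1 := by
  rw [← map_mul]
  norm_num

theorem Cac : (C (2 / 3 : ℝ) : ℝ⟦X⟧) * C (1 / 2 : ℝ) = C (1 / 3 : ℝ) := by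
  rw [← map_mul]
  norm_num

/-- the equation for the derivative of the error -/
theorem eqE {ξ η E κ P R : ℝ⟦X⟧} (hη : ξ * η = 1)
    (hS : ξ * (C (3 / 2 : ℝ) * D (P + E) + C (1 / 2 : ℝ) * (P + E)) = (P + E) ^ 2 - 1 - 2 * κ ^ 2)
    (hP : ξ * (C (3 / 2 : ℝ) * D P + C (1 / 2 : ℝ) * P) = P ^ 2 - 1 + R) :
    D E = C (2 / 3 : ℝ) * (η * (C (2 : ℝ) * (P * E) + E * E - C (2 : ℝ) * (κ * κ) - R)) -
      C (1 / 3 : ℝ) * E := by
  rw [D_add] at hS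
  have h1 : ξ * (C (3 / 2 : ℝ) * D E + C (1 / 2 : ℝ) * E) =
      C (2 : ℝ) * (P * E) + E * E - C (2 : ℝ) * (κ * κ) - R := by
    rw [C2]
    linear_combination hS - hP
  have h2 : C (3 / 2 : ℝ) * D E + C (1 / 2 : ℝ) * E =
      η * (C (2 : ℝ) * (P * E) + E * E - C (2 : ℝ) * (κ * κ) - R) := by
    linear_combination η * h1 - (C (3 / 2 : ℝ) * D E + C (1 / 2 : ℝ) * E) * hη
  linear_combination (C (2 / 3 : ℝ) : ℝ⟦X⟧) * h2 - D E * Cab - E * Cac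

/-- the equation for the derivative of `κ` -/
theorem eqK {ξ η E κ P : ℝ⟦X⟧} (hη : ξ * η = 1)
    (hκ : ξ * (D κ + C (1 / 3 : ℝ) * κ) = -(C (2 / 3 : ℝ) * ((P + E) * κ))) :
    D κ = -(C (2 / 3 : ℝ) * (η * (P * κ + E * κ))) - C (1 / 3 : ℝ) * κ := by
  linear_combination η * hκ - (D κ + C (1 / 3 : ℝ) * κ) * hη

theorem num1 {a b p h k H ρ w : ℝ} (ha0 : 0 ≤ a) (hb0 : 0 ≤ b) (hab : a + b ≤ 1 / 1000)
    (hp0 : 0 ≤ p) (hp : p ≤ 101 / 100) (hh0 : 0 ≤ h) (hh : h ≤ H) (hH : H = 33 / 20 * w)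
    (hk0 : 0 ≤ k) (hk : k ≤ ρ) (hw : 128 ≤ w) :
    (2 / 3 * (h * (2 * (p * a) + a * a + 2 * (b * b) + k)) + 1 / 3 * a) +
      (2 / 3 * (h * (p * b + a * b)) + 1 / 3 * b) ≤
      23 / 10 * w * (a + b) + 12 / 10 * (ρ * w) := by
  have ha1 : a ≤ 1 / 1000 := by linarith
  have hb1 : b ≤ 1 / 1000 := by linarith
  have e1 : 2 * (p * a) + a * a + 2 * (b * b) + k ≤ 2021 / 1000 * a + 2 / 1000 * b + ρ := by
    have f1 : p * a ≤ 101 / 100 * a := mul_le_mul_of_nonneg_right hp ha0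
    have f2 : a * a ≤ 1 / 1000 * a := mul_le_mul_of_nonneg_right ha1 ha0
    have f3 : b * b ≤ 1 / 1000 * b := mul_le_mul_of_nonneg_right hb1 hb0
    linarith
  have e2 : p * b + a * b ≤ 1011 / 1000 * b := by
    have f1 : p * b ≤ 101 / 100 * b := mul_le_mul_of_nonneg_right hp hb0
    have f2 : a * b ≤ 1 / 1000 * b := mul_le_mul_of_nonneg_right ha1 hb0
    linarith
  have hH0 : 0 ≤ H := hh0.trans hh
  have g1 : h * (2 * (p * a) + a * a + 2 * (b * b) + k) ≤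
      H * (2021 / 1000 * a + 2 / 1000 * b + ρ) :=
    mul_le_mul hh e1 (by positivity) hH0
  have g2 : h * (p * b + a * b) ≤ H * (1011 / 1000 * b) := mul_le_mul hh e2 (by positivity) hH0
  rw [hH] at g1 g2
  have hA : 128 * a ≤ w * a := mul_le_mul_of_nonneg_right hw ha0
  have hB : 128 * b ≤ w * b := mul_le_mul_of_nonneg_right hw hb0
  have hρ0 : 0 ≤ ρ := hk0.trans hk
  have hR : 0 ≤ ρ * w := by positivity
  nlinarith

end BRJaux

open BRJaux in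
theorem t_BRJ (hEX : S_BEX) (hPN : S_BPN) (hGJ : S_BGJ) : S_BRJ := by
  intro z ρ e0 ξ S κ P R hz hz1 hDξ hξ0 hρ he0 hS hκ hP hPn hRn hc hδ
  obtain ⟨E, rfl⟩ : ∃ E, S = P + E := ⟨S - P, by ring⟩
  rw [add_sub_cancel_left] at hc ⊢
  obtain ⟨-, hξη, -, hηn⟩ := hEX ξ hDξ (by rw [hξ0]; exact hz)
  obtain ⟨hprod, hexp, -⟩ := hPN
  have hr : (0 : ℝ) ≤ 1 / 2 := by norm_num
  have hz0 : z ≠ 0 := hz.ne'
  have hηn' : ∀ M, nrm M (1 / 2) ξ⁻¹ ≤ 33 / 20 * (1 / z) := by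
    intro M
    have h := (hηn M (1 / 2) hr).2
    rw [hξ0] at h
    refine h.trans ?_
    have hz' : 1 / z = z⁻¹ := one_div z
    rw [hz', mul_comm]
    exact mul_le_mul_of_nonneg_right hexp (by positivity)
  have hDE := eqE hξη hS hP
  have hDκ := eqK hξη hκ
  have hw : 128 ≤ 1 / z := by
    rw [le_div_iff₀ hz]
    linarith
  -- the bound for the derivatives
  have hder : ∀ m < 16, nrm m (1 / 2) E + nrm m (1 / 2) κ ≤ 1 / 1000 →
      nrm m (1 / 2) (D E) + nrm m (1 / 2) (D κ) ≤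
        23 / 10 * (1 / z) * (nrm m (1 / 2) E + nrm m (1 / 2) κ) + 12 / 10 * (ρ * (1 / z)) := by
    intro m hm hN
    have n1 : nrm m (1 / 2) (D E) ≤
        2 / 3 * (nrm m (1 / 2) ξ⁻¹ * (2 * (nrm m (1 / 2) P * nrm m (1 / 2) E) +
          nrm m (1 / 2) E * nrm m (1 / 2) E + 2 * (nrm m (1 / 2) κ * nrm m (1 / 2) κ) +
          nrm m (1 / 2) R)) + 1 / 3 * nrm m (1 / 2) E := by
      rw [hDE]
      refine (nrm_sub m hr _ _).trans ?_
      rw [nrm_C_mul, nrm_C_mul, abs_of_pos (by norm_num : (0 : ℝ) < 2 / 3),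
        abs_of_pos (by norm_num : (0 : ℝ) < 1 / 3)]
      have q1 : nrm m (1 / 2) (C (2 : ℝ) * (P * E) + E * E - C (2 : ℝ) * (κ * κ) - R) ≤
          2 * (nrm m (1 / 2) P * nrm m (1 / 2) E) +
          nrm m (1 / 2) E * nrm m (1 / 2) E + 2 * (nrm m (1 / 2) κ * nrm m (1 / 2) κ) +
          nrm m (1 / 2) R := by
        refine (nrm_sub m hr _ _).trans ?_
        refine add_le_add ((nrm_sub m hr _ _).trans (add_le_add ((nrm_add m hr _ _).trans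
          (add_le_add ?_ (nrm_mul m hr _ _))) ?_)) le_rfl
        · rw [nrm_C_mul, abs_of_pos (by norm_num : (0 : ℝ) < 2)]
          exact mul_le_mul_of_nonneg_left (nrm_mul m hr _ _) (by norm_num)
        · rw [nrm_C_mul, abs_of_pos (by norm_num : (0 : ℝ) < 2)]
          exact mul_le_mul_of_nonneg_left (nrm_mul m hr _ _) (by norm_num)
      have q2 := (nrm_mul m hr ξ⁻¹ (C (2 : ℝ) * (P * E) + E * E - C (2 : ℝ) * (κ * κ) - R)).trans
        (mul_le_mul_of_nonneg_left q1 (nrm_nonneg m hr _))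
      linarith
    have n2 : nrm m (1 / 2) (D κ) ≤
        2 / 3 * (nrm m (1 / 2) ξ⁻¹ * (nrm m (1 / 2) P * nrm m (1 / 2) κ +
          nrm m (1 / 2) E * nrm m (1 / 2) κ)) + 1 / 3 * nrm m (1 / 2) κ := by
      rw [hDκ]
      refine (nrm_sub m hr _ _).trans ?_
      rw [nrm_neg, nrm_C_mul, nrm_C_mul, abs_of_pos (by norm_num : (0 : ℝ) < 2 / 3),
        abs_of_pos (by norm_num : (0 : ℝ) < 1 / 3)]
      have q1 : nrm m (1 / 2) (P * κ + E * κ) ≤ nrm m (1 / 2) P * nrm m (1 / 2) κ +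
          nrm m (1 / 2) E * nrm m (1 / 2) κ :=
        (nrm_add m hr _ _).trans (add_le_add (nrm_mul m hr _ _) (nrm_mul m hr _ _))
      have q2 := (nrm_mul m hr ξ⁻¹ (P * κ + E * κ)).trans
        (mul_le_mul_of_nonneg_left q1 (nrm_nonneg m hr _))
      linarith
    have hPm : nrm m (1 / 2) P ≤ 101 / 100 := (nrm_mono_M (by omega) hr P).trans hPn
    have hRm : nrm m (1 / 2) R ≤ ρ := (nrm_mono_M (by omega) hr R).trans hRn
    have key := num1 (nrm_nonneg m hr E) (nrm_nonneg m hr κ) hN (nrm_nonneg m hr P) hPm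
      (nrm_nonneg m hr ξ⁻¹) (hηn' m) rfl (nrm_nonneg m hr R) hRm hw
    linarith
  -- the constants
  have hu : 1 ≤ 1 / (128 * z) := by
    rw [le_div_iff₀ (by positivity)]
    linarith
  have hΛ : 23 / 10 * 128 * (1 / (128 * z)) = 23 / 10 * (1 / z) := by
    field_simp
  have hβ : 12 / 10 * (ρ / z) = 12 / 10 * (ρ * (1 / z)) := by
    rw [mul_one_div]
  have hpr := (hprod (1 / (128 * z)) hu).1
  have hβ0 : 0 ≤ 12 / 10 * (ρ / z) := by positivity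
  have hsum0 : 0 ≤ e0 + 12 / 10 * (ρ / z) := by linarith
  have hpr2 : (e0 + 12 / 10 * (ρ / z)) *
      ∏ j ∈ range 16, (1 + 1 / 2 * (23 / 10 * 128 * (1 / (128 * z))) / ((j : ℝ) + 1)) ≤
      (e0 + 12 / 10 * (ρ / z)) * (1 / (128 * z)) ^ 16 * (6 * 10 ^ 21) := by
    rw [mul_assoc (e0 + 12 / 10 * (ρ / z))]
    exact mul_le_mul_of_nonneg_left hpr hsum0
  refine le_trans (hGJ 16 (1 / 2) (23 / 10 * 128 * (1 / (128 * z))) (12 / 10 * (ρ / z)) e0
    (1 / 1000) E κ (by norm_num) ?_ hβ0 he0 hc (hpr2.trans hδ) ?_) hpr2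
  · linarith
  · intro m hm hN
    rw [hΛ, hβ]
    exact hder m hm hN

end TWP
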