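import Mathlib

/-
TWP, block E: existence and uniqueness of the Hastings-McLeod solution of
Painleve II, q'' = t q + 2 q^3, q -> 0 at +oo, q / sqrt(-t/2) -> 1 at -oo.
Every statement is a Prop S_x; its module proves t_x from the hypotheses
named in the module row. Paper proofs are in the comments.
-/

namespace Pool.Agent.TWP.E

open Filter Topology Set

/-- a solution pair (q, q') of Painleve II on the whole line -/
def P2 (q p : ℝ → ℝ) : Prop :=
  ∀ t : ℝ, HasDerivAt q (p t) t ∧ HasDerivAt p (t * q t + 2 * q t ^ 3) t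

/-- the Hastings-McLeod boundary conditions, for a solution pair -/
def HM (q p : ℝ → ℝ) : Prop :=
  P2 q p ∧ Tendsto q atTop (𝓝 0) ∧ Tendsto (fun t => q t / Real.sqrt (-t / 2)) atBot (𝓝 1)

/-- exponential decay at +oo of a solution pair -/
def Dec (q p : ℝ → ℝ) : Prop :=
  ∃ C : ℝ, ∀ t : ℝ, 2 ≤ t → |q t| ≤ C * Real.exp (-t) ∧ |p t| ≤ C * Real.exp (-t)

/-- the lower barrier: sqrt((-1-t)/2) for t <= -3/2, then its tangent line down to 0, then 0 -/
noncomputable def Pm (t : ℝ) : ℝ :=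
  if t ≤ -3 / 2 then Real.sqrt ((-1 - t) / 2) else max (-1 / 4 - t / 2) 0

/-- the upper barrier: sqrt((1-t)/2) for t <= 3/8, then sqrt(5/16) exp(-(4/5)(t-3/8)) -/
noncomputable def Pp (t : ℝ) : ℝ :=
  if t ≤ 3 / 8 then Real.sqrt ((1 - t) / 2)
  else Real.sqrt (5 / 16) * Real.exp (-(4 / 5) * (t - 3 / 8))

/-- the constructed solution -/
def Good (H P : ℝ → ℝ) : Prop :=
  P2 H P ∧ (∀ t, Pm t ≤ H t ∧ H t ≤ Pp t) ∧ (∀ t, 0 < H t) ∧ (∀ t, P t < 0)

/-- energy -/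
def En (q p : ℝ → ℝ) (t : ℝ) : ℝ := p t ^ 2 - t * q t ^ 2 - q t ^ 4

/-- SDT. second derivative test at an interior local minimum -/
def S_SDT : Prop :=
  ∀ (f g : ℝ → ℝ) (c t0 : ℝ), (∀ᶠ t in 𝓝 t0, HasDerivAt f (g t) t) → HasDerivAt g c t0 →
    IsLocalMin f t0 → g t0 = 0 ∧ 0 ≤ c

/-- BVP. Boundary value problem u'' = F(t,u), u(a) = al, u(b) = be, F bounded, continuous and
Lipschitz in u.
PROOF. Vector field v(t,(u,p)) = (max (-R) (min p R), F t u) with R = |be - al|/(b-a) + 2 C (b-a) + 1,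
bounded by max R C, Lipschitz in (u,p) with constant max 1 K, continuous in t. Picard-Lindelof
(Mathlib: IsPicardLindelof, one ball of radius r + (max R C) (b-a+2) around (al,0), interval
[a-1,b+1], t0 = a, initial points (al,s), |s| <= r := R) gives solutions x_s on [a-1,b+1] with
x_s(a) = (al,s), depending Lipschitz continuously on s at time b
(exists_forall_mem_closedBall_eq_hasDerivWithinAt_lipschitzOnWith).
For |s| <= |be-al|/(b-a) + C (b-a) the clamp is inactive on [a,b] because |p(t) - s| <= C (b-a).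
At s1 := (be-al)/(b-a) + C (b-a): p >= s1 - C(b-a) on [a,b], so u(b) - al >= be - al.
At s0 := (be-al)/(b-a) - C(b-a): u(b) <= be. Intermediate value theorem between s0 and s1.
On [a,b] inside (a-1,b+1) the derivative is two-sided. -/
def S_BVP : Prop :=
  ∀ (F : ℝ → ℝ → ℝ) (a b C K : ℝ), a < b → Continuous (Function.uncurry F) →
    (∀ t u, |F t u| ≤ C) → (∀ t u v, |F t u - F t v| ≤ K * |u - v|) →
    ∀ al be : ℝ, ∃ u p : ℝ → ℝ, u a = al ∧ u b = be ∧
      ∀ t ∈ Icc a b, HasDerivAt u (p t) t ∧ HasDerivAt p (F t (u t)) t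

/-- TM. touching functions for the lower barrier.
PROOF. t0 <= -3/2: A = sqrt((-1-t)/2), A'' = -(1/16) A^(-3), and A (t + 2A^2) = -A; the claim
-A <= -(1/16) A^(-3) is A^4 >= 1/16, A^2 >= 1/4. A <= Pm near t0 (the tangent line of the
concave function A at -3/2 is -1/4 - t/2). -3/2 < t0 < -1/2: A = -1/4 - t/2, A'' = 0 and
Pm (t0 + 2 Pm^2) <= 0 since 0 <= Pm <= 1/2 and 2 Pm^2 <= Pm <= -t0. t0 >= -1/2: A = 0. -/
def S_TM : Prop :=
  ∀ t0 : ℝ, ∃ (A A1 : ℝ → ℝ) (c : ℝ), (∀ᶠ t in 𝓝 t0, HasDerivAt A (A1 t) t) ∧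
    HasDerivAt A1 c t0 ∧ A t0 = Pm t0 ∧ (∀ᶠ t in 𝓝 t0, A t ≤ Pm t) ∧
    t0 * Pm t0 + 2 * Pm t0 ^ 3 ≤ c

/-- TP. touching functions for the upper barrier.
PROOF. t0 < 3/8: A = sqrt((1-t)/2), A'' = -(1/16) A^(-3) <= 0 <= A = A (t + 2 A^2).
t0 >= 3/8: A = sqrt(5/16) exp(-(4/5)(t-3/8)), A'' = (16/25) A <= A (t0 + 2 A^2) since
t0 + (5/8) exp(-(8/5)(t0-3/8)) >= t0 + 5/8 - (t0 - 3/8) = 1. Everywhere A >= sqrt((1-t)/2) for t <= 3/8:
square it and use exp x >= 1 + x with x = -(8/5)(t - 3/8), (5/16)(1+x) = (1-t)/2. -/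
def S_TP : Prop :=
  ∀ t0 : ℝ, ∃ (A A1 : ℝ → ℝ) (c : ℝ), (∀ᶠ t in 𝓝 t0, HasDerivAt A (A1 t) t) ∧
    HasDerivAt A1 c t0 ∧ A t0 = Pp t0 ∧ (∀ᶠ t in 𝓝 t0, Pp t ≤ A t) ∧
    c ≤ t0 * Pp t0 + 2 * Pp t0 ^ 3

/-- BB. elementary facts on the barriers -/
def S_BB : Prop :=
  Continuous Pm ∧ Continuous Pp ∧ (∀ t, 0 ≤ Pm t) ∧ (∀ t, Pm t ≤ Pp t) ∧ (∀ t, 0 < Pp t) ∧
  0 < Pm (-1) ∧ Pp 1 < 1 / 2 ∧ (∀ t : ℝ, t ≤ -1 → Pp t ≤ -t) ∧ Tendsto Pp atTop (𝓝 0) ∧
  Tendsto (fun t => Pm t / Real.sqrt (-t / 2)) atBot (𝓝 1) ∧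
  Tendsto (fun t => Pp t / Real.sqrt (-t / 2)) atBot (𝓝 1)

/-- BAND. Solutions in the band on [-N,N]. Hypotheses BVP, SDT, TM, TP, BB.
PROOF. Put s(t) = max (-N) (min t N), cl(t,u) = max (Pm (s t)) (min u (Pp (s t))) and
F(t,u) = s(t) cl + 2 cl^3 + max (-1) (min (u - cl) 1): continuous, bounded, Lipschitz in u
(x -> s x + 2 x^3 is Lipschitz on the bounded range of cl). BVP with boundary values Pm(-N), Pm(N).
The solution u satisfies Pm <= u: otherwise u - Pm has a negative minimum at an interior point t0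
of [-N,N] (u = Pm at the ends); with the touching function A of TM, u - A has a local minimum at
t0, so by SDT 0 <= F(t0,u(t0)) - c; but cl = Pm(t0), F = t0 Pm + 2 Pm^3 + max (-1) (min (u-Pm) 1)
< t0 Pm + 2 Pm^3 <= c. In the same way u <= Pp (u = Pm <= Pp at the ends; Pp - u has a negative minimum).
Then cl = u and F(t,u) = t u + 2 u^3. -/
def S_BAND : Prop :=
  ∀ N : ℝ, 2 ≤ N → ∃ u p : ℝ → ℝ,
    (∀ t ∈ Icc (-N) N, HasDerivAt u (p t) t ∧ HasDerivAt p (t * u t + 2 * u t ^ 3) t) ∧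
    ∀ t ∈ Icc (-N) N, Pm t ≤ u t ∧ u t ≤ Pp t

/-- LIM. A solution in the band on the whole line. Hypotheses BAND, BB.
PROOF. (u_n, p_n) from BAND with N = n + 2. |u_n| <= max over [-R,R] of Pp =: B_R on [-R,R] as soon as
n + 2 >= R, |u_n''| <= R B_R + 2 B_R^3; mean value theorem on [0,1]: |p_n(0)| <= C. So the initial data
(u_n(0), p_n(0)) are bounded: a subsequence converges. Gronwall (dist_le_of_trajectories_ODE_of_mem, forward
and backward, Lipschitz constant on |u| <= B_R) : along the subsequence (u_n, p_n) is uniformly Cauchy on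
[-R,R] for every R. q, p := the limits; hasDerivAt_of_tendstoUniformlyOn on (-R,R) twice. -/
def S_LIM : Prop :=
  ∃ q p : ℝ → ℝ, P2 q p ∧ ∀ t, Pm t ≤ q t ∧ q t ≤ Pp t

/-- UNQ. uniqueness for the initial value problem (no hypotheses; Mathlib: ODE_solution_unique_of_mem_Ioo
with the set of (u,p) in a ball) -/
def S_UNQ : Prop :=
  ∀ q1 p1 q2 p2 : ℝ → ℝ, P2 q1 p1 → P2 q2 p2 → ∀ t0, q1 t0 = q2 t0 → p1 t0 = p2 t0 →
    q1 = q2 ∧ p1 = p2

/-- POS. Hypotheses UNQ, BB. q >= Pm >= 0; if q(t0) = 0 then t0 is a minimum, p(t0) = 0, so q = 0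
by UNQ with the zero solution; but q(-1) >= Pm(-1) > 0. -/
def S_POS : Prop :=
  ∀ q p : ℝ → ℝ, P2 q p → (∀ t, Pm t ≤ q t ∧ q t ≤ Pp t) → ∀ t, 0 < q t

/-- MON. Hypotheses POS, SDT, BB. q' < 0.
PROOF. (1) On [0,oo): q'' > 0, so p is strictly increasing; if p(t0) >= 0 for a t0 >= 0 then q is
increasing on [t0,oo), against q -> 0, q > 0. So p < 0 on [0,oo).
(2) For h > 0 put r(t) = q(t+h)/q(t). r -> 1 at -oo (squeeze by the barriers:
r = [q(t+h)/sqrt(-(t+h)/2)] [sqrt(-t/2)/q(t)] sqrt((t+h)/t)), r < 1 on [0,oo) by (1).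
If r(t1) > 1 somewhere, r has a maximum at some t* < 0 with r(t*) > 1 (compactness). With k = r(t*),
f(t) = k q(t) - q(t+h) >= 0 with equality at t*: local minimum, so by SDT f''(t*) >= 0. But
f''(t*) = k (t* q + 2 q^3) - ((t*+h) k q + 2 k^3 q^3) = - h k q - 2 k q^3 (k^2 - 1) < 0 (q = q(t*)).
So q(t+h) <= q(t) for all t and h > 0: p <= 0.
(3) If p(t0) = 0: t0 is a maximum of p, so t0 q + 2 q^3 = 0 at t0 (derivative of p); p has the derivative
g = t q + 2 q^3, g(t0) = 0, g'(t0) = q(t0) + (t0 + 6 q^2) p(t0) = q(t0) > 0: -p has a local minimum at t0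
and by SDT 0 <= -q(t0), a contradiction. -/
def S_MON : Prop :=
  ∀ q p : ℝ → ℝ, P2 q p → (∀ t, Pm t ≤ q t ∧ q t ≤ Pp t) → ∀ t, p t < 0

/-- DEC. No hypotheses. 0 <= y <= y'' for t >= T and y(t)/t -> 0 give exponential decay.
PROOF. z' = w >= 0: z increasing. If z(t0) > 0 then y grows at least linearly: against y/t -> 0. So z <= 0.
(z + y)' = w + z >= z + y; so exp(-t)(z+y) is increasing; if z(t0) + y(t0) = c > 0 then
y >= z + y >= c exp(t - t0): against y/t -> 0. So z + y <= 0, exp(t) y decreasing: y(t) <= y(T) exp(T - t).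
For t >= T+1: -z(t) <= y(t-1) - y(t) (z increasing) <= y(t-1). -/
def S_DEC : Prop :=
  ∀ (y z w : ℝ → ℝ) (T : ℝ), (∀ t, T ≤ t → HasDerivAt y (z t) t ∧ HasDerivAt z (w t) t) →
    (∀ t, T ≤ t → 0 ≤ y t ∧ y t ≤ w t) → Tendsto (fun t => y t / t) atTop (𝓝 0) →
    ∃ C : ℝ, ∀ t, T + 1 ≤ t → y t ≤ C * Real.exp (-t) ∧ -(C * Real.exp (-t)) ≤ z t ∧ z t ≤ 0

/-- SGN. Hypotheses UNQ, DEC. Sign and decay of any nonzero solution that tends to 0 at +oo.
PROOF. (q^2)' = 2 q p, (q^2)'' = 2 p^2 + 2 q^2 (t + 2 q^2) >= 0 for t >= 0. If q(t0) <> 0, t0 >= 0 and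
q(t0) p(t0) >= 0 then q^2 is nondecreasing on [t0,oo), against q -> 0. So q <> 0 implies q p < 0 on [0,oo).
If q(t0) = 0, t0 >= 0: p(t0) <> 0 (UNQ with the zero solution) and q p > 0 right after t0, a contradiction.
So q has a constant sign s on [0,oo) (intermediate value theorem). y = s q on [1,oo): y'' = y (t + 2 y^2) >= y, DEC
with T = 1. -/
def S_SGN : Prop :=
  ∀ q p : ℝ → ℝ, P2 q p → Tendsto q atTop (𝓝 0) → (∃ t, q t ≠ 0) →
    Dec q p ∧ ((∀ t, 0 ≤ t → 0 < q t) ∨ (∀ t, 0 ≤ t → q t < 0))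

/-- WR. No hypotheses. W = p H - q P, W' = 2 q H (q^2 - H^2).
PROOF. Suppose W(t1) >= 0. Let b = the supremum of the b' such that q > H on [t1,b'] (continuity:
b > t1). On [t1,b): W' > 0, W > 0 on (t1,b), (q/H)' = W/H^2 > 0, so q/H >= q(t1)/H(t1) > 1 on [t1,b]; if b is finite
this gives q(b) > H(b) and b was not the supremum. So q > H on [t1,oo), W is strictly increasing there,
W >= W(t1+1) > W(t1) >= 0 on [t1+1,oo), but W -> 0 at +oo by Dec. -/
def S_WR : Prop :=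
  ∀ H P q p : ℝ → ℝ, P2 H P → P2 q p → Dec H P → Dec q p → ∀ t1 : ℝ,
    (∀ t, t1 ≤ t → 0 < H t ∧ 0 < q t) → H t1 < q t1 → p t1 * H t1 - q t1 * P t1 < 0

/-- TRI. Hypotheses WR, UNQ. If q <> H then q and H do not meet where both are positive up to +oo.
PROOF. Let q(t1) = H(t1), W = p H - q P. If W(t1) > 0, then (q/H)' > 0 near t1: q > H and W > 0 at some
t > t1, against WR. If W(t1) < 0: q < H and W < 0 at some t > t1, against WR with the roles exchanged
(W changes its sign). So W(t1) = 0, p(t1) = P(t1), q = H by UNQ. -/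
def S_TRI : Prop :=
  ∀ H P q p : ℝ → ℝ, P2 H P → P2 q p → Dec H P → Dec q p → ∀ t1 : ℝ,
    (∀ t, t1 ≤ t → 0 < H t ∧ 0 < q t) → q t1 = H t1 → q = H

/-- BIG. Hypotheses WR, TRI. A solution above H near +oo is above H everywhere and q/H is decreasing.
PROOF. For t >= 0: q > H (intermediate value theorem and TRI, q <> H), so WR applies at every t >= 0.
Going left: let a = inf of the a' <= 0 such that q > H on [a',0]. WR at every t in (a,0]: W < 0,
(q/H)' < 0, so q/H >= q(0)/H(0) > 1 on (a,0], also at a if finite, so a was not the infimum. -/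
def S_BIG : Prop :=
  ∀ H P q p : ℝ → ℝ, P2 H P → P2 q p → Dec H P → Dec q p → (∀ t, 0 < H t) →
    (∀ t, 0 ≤ t → 0 < q t) → H 0 < q 0 → ∀ t, H t < q t ∧ p t * H t - q t * P t < 0

/-- SML. Hypotheses WR, TRI. A solution below H near +oo has |q| < H and a smaller energy everywhere.
PROOF. (En q p)' = - q^2. For t >= 0: 0 < q < H (intermediate value theorem and TRI). Suppose |q| >= H somewhere and let t1 be
the supremum of these points (t1 < 0, |q(t1)| = H(t1), |q| < H on (t1,oo)). D = En H P - En q p: D' = q^2 - H^2 < 0 on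
(t1,oo), D -> 0 at +oo by Dec, so D(t1) > 0, i.e. p(t1)^2 < P(t1)^2 since |q| = H at t1. With
s = sign of q(t1): s q <= H on [t1,oo) with equality at t1, so s p(t1) <= P(t1) < 0, p^2 >= P^2, a
contradiction. So |q| < H everywhere, D is strictly decreasing with limit 0 at +oo: D > 0. -/
def S_SML : Prop :=
  ∀ H P q p : ℝ → ℝ, P2 H P → P2 q p → Dec H P → Dec q p → (∀ t, 0 < H t) → (∀ t, P t < 0) →
    (∀ t, 0 ≤ t → 0 < q t) → q 0 < H 0 → ∀ t, |q t| < H t ∧ En q p t < En H P t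

/-- NEG. Hypotheses DEC, BB. The energy difference tends to 0 at -oo: a contradiction.
PROOF. d = H - q > 0. D = En H P - En q p, D' = q^2 - H^2 < 0, so D(t) >= D(0) > 0 for t <= 0.
q/sqrt(-t/2) -> 1 and H/sqrt(-t/2) -> 1 (barriers), so for t <= -T: q > 0 and
d'' = d (t + 2 (H^2 + H q + q^2)) >= d (2 (2.8) (-t/2) + t) >= d. y(s) = d(-s) satisfies the hypotheses of DEC
(y(s)/s <= H(-s)/s -> 0), so d, |d'| <= C exp(t) for t <= -T-1.
|P|, |p| <= 8 (1+|t|)^3 for t <= -T' (mean value theorem on [t,t+1]; |q|,|H| <= Pp <= |t|, |q''| <= |t|^2 + 2|t|^3).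
D = (P - p)(P + p) - (H - q)(H + q)(t + H^2 + q^2) -> 0 at -oo, a contradiction. -/
def S_NEG : Prop :=
  ∀ H P q p : ℝ → ℝ, Good H P → HM q p → ¬ ((∀ t, |q t| < H t) ∧ ∀ t, En q p t < En H P t)

/-- UNI. Hypotheses SGN, TRI, BIG, SML, NEG, BB.
PROOF. H -> 0 at +oo (barriers), so Dec H P; q is not 0 (left limit), Dec q p, q > 0 or q < 0 on [0,oo).
s = 1 or -1 with s q > 0 on [0,oo); (s q, s p) is a solution pair. If s q(0) = H(0): s q = H by TRI; s = -1
contradicts the left limit (q/sqrt -> 1, so q > 0 somewhere). If s q(0) > H(0): BIG: s q > H > 0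
everywhere, so s = 1 (left limit), q/H strictly decreasing, with limit 1 at -oo: q/H < 1, a contradiction.
If s q(0) < H(0): SML for (s q, s p): |q| < H, and En is even in (q,p): NEG. -/
def S_UNI : Prop :=
  ∀ H P q p : ℝ → ℝ, Good H P → HM q p → q = H

/-- EX. Hypotheses LIM, POS, MON. -/
def S_EX : Prop := ∃ H P : ℝ → ℝ, Good H P

/-- UPB. Hypotheses BB, SDT. The bound q <= exp(-(2/3) t^(3/2)) for t >= 1.
PROOF. A = exp(-(2/3) t^(3/2)), A' = -sqrt t A, A'' = (t - 1/(2 sqrt t)) A < t A + 2 A^3. f = A - H: f(1) > 0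
(A(1) = exp(-2/3) > 1/2 > Pp(1)), f -> 0 at +oo; if f < 0 somewhere, f has a negative minimum at some t* > 1,
SDT: f''(t*) >= 0, but f'' < t*(A - H) + 2 (A^3 - H^3) < 0. -/
def S_UPB : Prop :=
  ∀ H P : ℝ → ℝ, Good H P → ∀ t : ℝ, 1 ≤ t → H t ≤ Real.exp (-(2 / 3) * (t * Real.sqrt t))

end Pool.Agent.TWP.E
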