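import Mathlib
import Pool.Agent.TWP.ESt

namespace Pool.Agent.TWP.E

open Filter Topology Set

/-- the time clamped to [-N,N] -/
noncomputable def bandS (N t : ℝ) : ℝ := max (-N) (min t N)

/-- the value clamped to the band -/
noncomputable def bandC (N t u : ℝ) : ℝ := max (Pm (bandS N t)) (min u (Pp (bandS N t)))

/-- the truncated right-hand side -/
noncomputable def bandF (N t u : ℝ) : ℝ :=
  bandS N t * bandC N t u + 2 * bandC N t u ^ 3 + max (-1) (min (u - bandC N t u) 1)

lemma band_s_eq {N t : ℝ} (h : t ∈ Icc (-N) N) : bandS N t = t := by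
  unfold bandS
  rw [min_eq_left h.2, max_eq_right h.1]

lemma band_s_mem {N : ℝ} (hN : 2 ≤ N) (t : ℝ) : bandS N t ∈ Icc (-N) N := by
  unfold bandS
  constructor
  · exact le_max_left _ _
  · apply max_le
    · linarith
    · exact min_le_right _ _

lemma band_clip (a b u v : ℝ) : |max a (min u b) - max a (min v b)| ≤ |u - v| := by
  have h1 : |max a (min u b) - max a (min v b)| ≤ |min u b - min v b| := by
    have := abs_max_sub_max_le_max a (min u b) a (min v b)
    simpa using this
  have h2 : |min u b - min v b| ≤ |u - v| := by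
    have := abs_min_sub_min_le_max u b v b
    simpa using this
  exact h1.trans h2

lemma band_nomin {N : ℝ} {w : ℝ → ℝ} (hN : 0 < N) (hw : ContinuousOn w (Icc (-N) N))
    (h0 : 0 ≤ w (-N)) (h1 : 0 ≤ w N)
    (hloc : ∀ t0 ∈ Ioo (-N) N, w t0 < 0 → IsLocalMin w t0 → False) :
    ∀ t ∈ Icc (-N) N, 0 ≤ w t := by
  intro t1 ht1
  by_contra hneg
  push Not at hneg
  obtain ⟨t0, ht0, hmin⟩ := isCompact_Icc.exists_isMinOn ⟨t1, ht1⟩ hw
  have hle : w t0 ≤ w t1 := hmin ht1
  have hlt : w t0 < 0 := lt_of_le_of_lt hle hneg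
  have hne1 : t0 ≠ -N := by
    rintro rfl
    linarith
  have hne2 : t0 ≠ N := by
    rintro rfl
    linarith
  have hIoo : t0 ∈ Ioo (-N) N :=
    ⟨lt_of_le_of_ne ht0.1 (Ne.symm hne1), lt_of_le_of_ne ht0.2 hne2⟩
  exact hloc t0 hIoo hlt (hmin.isLocalMin (Icc_mem_nhds hIoo.1 hIoo.2))

theorem t_BAND (hBVP : S_BVP) (hSDT : S_SDT) (hTM : S_TM) (hTP : S_TP) (hBB : S_BB) :
    S_BAND := by
  intro N hN
  obtain ⟨hcm, hcp, hm0, hmp, hp0, -, -, -, -, -, -⟩ := hBB
  have hN0 : 0 < N := by linarith
  have hNN : -N < N := by linarith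
  -- the bound of Pp on [-N,N]
  obtain ⟨M, hM⟩ : ∃ M, ∀ t ∈ Icc (-N) N, Pp t ≤ M := by
    obtain ⟨x, -, hx⟩ := isCompact_Icc.exists_isMaxOn (nonempty_Icc.2 hNN.le) hcp.continuousOn
    exact ⟨Pp x, fun t ht => hx ht⟩
  have hMpos : 0 < M := lt_of_lt_of_le (hp0 0) (hM 0 ⟨by linarith, by linarith⟩)
  have hC0 : ∀ t u, 0 ≤ bandC N t u := fun t u => (hm0 _).trans (le_max_left _ _)
  have hCM : ∀ t u, bandC N t u ≤ M := by
    intro t u
    have hs := band_s_mem hN t
    exact (max_le (hmp _) (min_le_right _ _)).trans (hM _ hs)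
  have hs_abs : ∀ t, |bandS N t| ≤ N := fun t => abs_le.2 (band_s_mem hN t)
  have hcS : Continuous (fun t => bandS N t) := by
    unfold bandS
    fun_prop
  have hcC : Continuous (fun z : ℝ × ℝ => bandC N z.1 z.2) := by
    unfold bandC
    have h1 : Continuous (fun z : ℝ × ℝ => bandS N z.1) := hcS.comp continuous_fst
    have h2 := hcm.comp h1
    have h3 := hcp.comp h1
    exact h2.max (continuous_snd.min h3)
  have hcF : Continuous (Function.uncurry (bandF N)) := by
    have h1 : Continuous (fun z : ℝ × ℝ => bandS N z.1) := hcS.comp continuous_fst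
    have : Function.uncurry (bandF N) = fun z : ℝ × ℝ =>
        bandS N z.1 * bandC N z.1 z.2 + 2 * bandC N z.1 z.2 ^ 3 +
          max (-1) (min (z.2 - bandC N z.1 z.2) 1) := by
      funext z
      rfl
    rw [this]
    exact ((h1.mul hcC).add (continuous_const.mul (hcC.pow 3))).add
      (continuous_const.max ((continuous_snd.sub hcC).min continuous_const))
  have hclip1 : ∀ x : ℝ, |max (-1) (min x 1)| ≤ 1 := by
    intro x
    rw [abs_le]
    exact ⟨le_max_left _ _, max_le (by norm_num) (min_le_right _ _)⟩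
  have hbF : ∀ t u, |bandF N t u| ≤ N * M + 2 * M ^ 3 + 1 := by
    intro t u
    unfold bandF
    have hc0 := hC0 t u
    have hcM := hCM t u
    have h1 : |bandS N t * bandC N t u| ≤ N * M := by
      rw [abs_mul, abs_of_nonneg hc0]
      exact mul_le_mul (hs_abs t) hcM hc0 hN0.le
    have h2 : |2 * bandC N t u ^ 3| ≤ 2 * M ^ 3 := by
      rw [abs_of_nonneg (by positivity)]
      have := pow_le_pow_left₀ hc0 hcM 3
      linarith
    have h3 := hclip1 (u - bandC N t u)
    calc _ ≤ |bandS N t * bandC N t u + 2 * bandC N t u ^ 3| +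
          |max (-1) (min (u - bandC N t u) 1)| := abs_add_le _ _
      _ ≤ |bandS N t * bandC N t u| + |2 * bandC N t u ^ 3| +
          |max (-1) (min (u - bandC N t u) 1)| := by
            gcongr
            exact abs_add_le _ _
      _ ≤ _ := by linarith
  have hlF : ∀ t u v, |bandF N t u - bandF N t v| ≤ (N + 6 * M ^ 2 + 2) * |u - v| := by
    intro t u v
    have hcc : |bandC N t u - bandC N t v| ≤ |u - v| := band_clip _ _ u v
    have hu0 := hC0 t u
    have hv0 := hC0 t v
    have huM := hCM t u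
    have hvM := hCM t v
    have hs := hs_abs t
    unfold bandF
    set a := bandC N t u with ha
    set b := bandC N t v with hb
    have h1 : |bandS N t * a - bandS N t * b| ≤ N * |u - v| := by
      rw [← mul_sub, abs_mul]
      exact mul_le_mul hs hcc (abs_nonneg _) hN0.le
    have h2 : |2 * a ^ 3 - 2 * b ^ 3| ≤ 6 * M ^ 2 * |u - v| := by
      have e : 2 * a ^ 3 - 2 * b ^ 3 = (2 * (a ^ 2 + a * b + b ^ 2)) * (a - b) := by ring
      rw [e, abs_mul, abs_of_nonneg (by positivity)]
      have hq : 2 * (a ^ 2 + a * b + b ^ 2) ≤ 6 * M ^ 2 := by nlinarith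
      exact mul_le_mul hq hcc (abs_nonneg _) (by positivity)
    have h3 : |max (-1) (min (u - a) 1) - max (-1) (min (v - b) 1)| ≤ 2 * |u - v| := by
      have h := band_clip (-1) 1 (u - a) (v - b)
      have h' : |(u - a) - (v - b)| ≤ 2 * |u - v| := by
        have e : (u - a) - (v - b) = (u - v) - (a - b) := by ring
        rw [e]
        have := abs_sub (u - v) (a - b)
        linarith
      exact h.trans h'
    have e : bandS N t * a + 2 * a ^ 3 + max (-1) (min (u - a) 1) -
        (bandS N t * b + 2 * b ^ 3 + max (-1) (min (v - b) 1)) =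
        (bandS N t * a - bandS N t * b) + (2 * a ^ 3 - 2 * b ^ 3) +
        (max (-1) (min (u - a) 1) - max (-1) (min (v - b) 1)) := by ring
    rw [e]
    calc _ ≤ |(bandS N t * a - bandS N t * b) + (2 * a ^ 3 - 2 * b ^ 3)| +
          |max (-1) (min (u - a) 1) - max (-1) (min (v - b) 1)| := abs_add_le _ _
      _ ≤ |bandS N t * a - bandS N t * b| + |2 * a ^ 3 - 2 * b ^ 3| +
          |max (-1) (min (u - a) 1) - max (-1) (min (v - b) 1)| := by
            gcongr
            exact abs_add_le _ _
      _ ≤ _ := by linarith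
  obtain ⟨u, p, hua, hub, hup⟩ := hBVP (bandF N) (-N) N (N * M + 2 * M ^ 3 + 1)
    (N + 6 * M ^ 2 + 2) hNN hcF hbF hlF (Pm (-N)) (Pm N)
  have hucont : ContinuousOn u (Icc (-N) N) := fun t ht =>
    (hup t ht).1.continuousAt.continuousWithinAt
  have hev : ∀ t0 ∈ Ioo (-N) N, ∀ᶠ t in 𝓝 t0, HasDerivAt u (p t) t := by
    intro t0 ht0
    filter_upwards [Icc_mem_nhds ht0.1 ht0.2] with t ht
    exact (hup t ht).1
  -- the lower barrier
  have hlow : ∀ t ∈ Icc (-N) N, 0 ≤ u t - Pm t := by
    apply band_nomin (w := fun t => u t - Pm t) hN0 (hucont.sub hcm.continuousOn)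
    · simp only [hua]
      linarith
    · simp only [hub]
      linarith
    · intro t0 ht0 hneg hmin
      obtain ⟨A, A1, c, hA, hA1, hA0, hAle, hc⟩ := hTM t0
      have hmem : t0 ∈ Icc (-N) N := Ioo_subset_Icc_self ht0
      have hlm : IsLocalMin (fun t => u t - A t) t0 := by
        have hmin' : ∀ᶠ t in 𝓝 t0, u t0 - Pm t0 ≤ u t - Pm t := hmin
        change ∀ᶠ t in 𝓝 t0, u t0 - A t0 ≤ u t - A t
        filter_upwards [hmin', hAle] with t h1 h2
        rw [hA0]
        linarith
      have hd : ∀ᶠ t in 𝓝 t0, HasDerivAt (fun t => u t - A t) (p t - A1 t) t := by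
        filter_upwards [hev t0 ht0, hA] with t h1 h2
        exact h1.sub h2
      have hd2 : HasDerivAt (fun t => p t - A1 t) (bandF N t0 (u t0) - c) t0 :=
        (hup t0 hmem).2.sub hA1
      have key := (hSDT _ _ _ _ hd hd2 hlm).2
      have hst : bandS N t0 = t0 := band_s_eq hmem
      have hneg' : u t0 < Pm t0 := by linarith
      have hcl : bandC N t0 (u t0) = Pm t0 := by
        unfold bandC
        rw [hst]
        exact max_eq_left ((min_le_left _ _).trans hneg'.le)
      have hlast : max (-1) (min (u t0 - Pm t0) 1) < 0 := by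
        apply max_lt (by norm_num)
        exact lt_of_le_of_lt (min_le_left _ _) (by linarith)
      unfold bandF at key
      rw [hcl, hst] at key
      linarith
  -- the upper barrier
  have hupp : ∀ t ∈ Icc (-N) N, 0 ≤ Pp t - u t := by
    apply band_nomin (w := fun t => Pp t - u t) hN0 (hcp.continuousOn.sub hucont)
    · simp only [hua]
      linarith [hmp (-N)]
    · simp only [hub]
      linarith [hmp N]
    · intro t0 ht0 hneg hmin
      obtain ⟨A, A1, c, hA, hA1, hA0, hAle, hc⟩ := hTP t0
      have hmem : t0 ∈ Icc (-N) N := Ioo_subset_Icc_self ht0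
      have hlm : IsLocalMin (fun t => A t - u t) t0 := by
        have hmin' : ∀ᶠ t in 𝓝 t0, Pp t0 - u t0 ≤ Pp t - u t := hmin
        change ∀ᶠ t in 𝓝 t0, A t0 - u t0 ≤ A t - u t
        filter_upwards [hmin', hAle] with t h1 h2
        rw [hA0]
        linarith
      have hd : ∀ᶠ t in 𝓝 t0, HasDerivAt (fun t => A t - u t) (A1 t - p t) t := by
        filter_upwards [hev t0 ht0, hA] with t h1 h2
        exact h2.sub h1
      have hd2 : HasDerivAt (fun t => A1 t - p t) (c - bandF N t0 (u t0)) t0 :=
        hA1.sub (hup t0 hmem).2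
      have key := (hSDT _ _ _ _ hd hd2 hlm).2
      have hst : bandS N t0 = t0 := band_s_eq hmem
      have hneg' : Pp t0 < u t0 := by linarith
      have hcl : bandC N t0 (u t0) = Pp t0 := by
        unfold bandC
        rw [hst, min_eq_right hneg'.le]
        exact max_eq_right (hmp t0)
      have hlast : 0 < max (-1) (min (u t0 - Pp t0) 1) := by
        apply lt_max_of_lt_right
        exact lt_min (by linarith) one_pos
      unfold bandF at key
      rw [hcl, hst] at key
      linarith
  refine ⟨u, p, ?_, ?_⟩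
  · intro t ht
    refine ⟨(hup t ht).1, ?_⟩
    have h := (hup t ht).2
    have hst : bandS N t = t := band_s_eq ht
    have hcl : bandC N t (u t) = u t := by
      unfold bandC
      rw [hst, min_eq_left (by linarith [hupp t ht])]
      exact max_eq_right (by linarith [hlow t ht])
    have hF : bandF N t (u t) = t * u t + 2 * u t ^ 3 := by
      unfold bandF
      rw [hcl, hst]
      simp
    rw [hF] at h
    exact h
  · intro t ht
    exact ⟨by linarith [hlow t ht], by linarith [hupp t ht]⟩

end Pool.Agent.TWP.E
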