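import Pool.Agent.TWP.ESt

/-
TWP, block E, module BB: elementary facts on the barriers.
-/

namespace Pool.Agent.TWP.E

open Filter Topology Set

theorem bb_continuous_Pm : Continuous Pm := by
  unfold Pm
  refine Continuous.if_le (by fun_prop) (by fun_prop) continuous_id continuous_const ?_
  intro t ht
  have ht' : t = -3 / 2 := ht
  rw [ht']
  have h1 : Real.sqrt ((-1 - -3 / 2) / 2) = 1 / 2 := by
    rw [show ((-1 - -3 / 2) / 2 : ℝ) = (1 / 2) ^ 2 by norm_num]
    exact Real.sqrt_sq (by norm_num)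
  rw [h1]
  norm_num

theorem bb_continuous_Pp : Continuous Pp := by
  unfold Pp
  refine Continuous.if_le (by fun_prop) (by fun_prop) continuous_id continuous_const ?_
  intro t ht
  have ht' : t = 3 / 8 := ht
  rw [ht']
  norm_num

theorem bb_Pm_nonneg (t : ℝ) : 0 ≤ Pm t := by
  unfold Pm
  split_ifs
  · exact Real.sqrt_nonneg _
  · exact le_max_right _ _

theorem bb_Pp_pos (t : ℝ) : 0 < Pp t := by
  unfold Pp
  split_ifs with h
  · exact Real.sqrt_pos.2 (by linarith)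
  · exact mul_pos (Real.sqrt_pos.2 (by norm_num)) (Real.exp_pos _)

theorem bb_Pm_le_Pp (t : ℝ) : Pm t ≤ Pp t := by
  by_cases h1 : t ≤ -3 / 2
  · have h2 : t ≤ 3 / 8 := by linarith
    rw [Pm, Pp, if_pos h1, if_pos h2]
    exact Real.sqrt_le_sqrt (by linarith)
  · by_cases h2 : t ≤ 3 / 8
    · rw [Pm, Pp, if_neg h1, if_pos h2]
      refine max_le ?_ (Real.sqrt_nonneg _)
      refine Real.le_sqrt_of_sq_le ?_
      push Not at h1
      nlinarith
    · have h3 : Pm t = 0 := by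
        rw [Pm, if_neg h1]
        push Not at h2
        exact max_eq_right (by linarith)
      rw [h3]
      exact (bb_Pp_pos t).le

theorem bb_Pm_neg_one : 0 < Pm (-1) := by
  rw [Pm, if_neg (by norm_num)]
  exact lt_max_of_lt_left (by norm_num)

theorem bb_Pp_one : Pp 1 < 1 / 2 := by
  rw [Pp, if_neg (by norm_num)]
  have h1 : Real.sqrt (5 / 16) < 3 / 4 := by
    rw [Real.sqrt_lt' (by norm_num)]
    norm_num
  have h2 : Real.exp (-(4 / 5) * (1 - 3 / 8)) ≤ 2 / 3 := by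
    rw [show (-(4 / 5) * (1 - 3 / 8) : ℝ) = -(1 / 2) by norm_num, Real.exp_neg]
    have h3 : (3 / 2 : ℝ) ≤ Real.exp (1 / 2) := by
      have := Real.add_one_le_exp (1 / 2 : ℝ)
      linarith
    calc (Real.exp (1 / 2))⁻¹ ≤ (3 / 2 : ℝ)⁻¹ := inv_anti₀ (by norm_num) h3
      _ = 2 / 3 := by norm_num
  have h4 := Real.exp_pos (-(4 / 5) * (1 - 3 / 8))
  have h5 := Real.sqrt_nonneg (5 / 16)
  nlinarith

theorem bb_Pp_le (t : ℝ) (ht : t ≤ -1) : Pp t ≤ -t := by
  rw [Pp, if_pos (by linarith)]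
  rw [Real.sqrt_le_left (by linarith)]
  nlinarith

theorem bb_Pp_atTop : Tendsto Pp atTop (𝓝 0) := by
  have h1 : Tendsto (fun t : ℝ => Real.sqrt (5 / 16) * Real.exp (-(4 / 5) * (t - 3 / 8))) atTop
      (𝓝 (Real.sqrt (5 / 16) * 0)) := by
    refine Tendsto.const_mul _ ?_
    refine Real.tendsto_exp_atBot.comp ?_
    refine Tendsto.const_mul_atTop_of_neg (by norm_num) ?_
    exact tendsto_atTop_add_const_right _ _ tendsto_id
  rw [mul_zero] at h1
  refine h1.congr' ?_
  filter_upwards [eventually_gt_atTop (3 / 8 : ℝ)] with t ht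
  rw [Pp, if_neg (by linarith)]

theorem bb_Pm_atBot : Tendsto (fun t => Pm t / Real.sqrt (-t / 2)) atBot (𝓝 1) := by
  have h1 : Tendsto (fun t : ℝ => Real.sqrt (1 + t⁻¹)) atBot (𝓝 (Real.sqrt (1 + 0))) := by
    refine (Real.continuous_sqrt.tendsto _).comp ?_
    exact tendsto_const_nhds.add tendsto_inv_atBot_zero
  rw [add_zero, Real.sqrt_one] at h1
  refine h1.congr' ?_
  filter_upwards [eventually_le_atBot (-2 : ℝ)] with t ht
  rw [Pm, if_pos (by linarith), ← Real.sqrt_div (by linarith)]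
  congr 1
  have h0 : t ≠ 0 := by linarith
  field_simp
  ring

theorem bb_Pp_atBot : Tendsto (fun t => Pp t / Real.sqrt (-t / 2)) atBot (𝓝 1) := by
  have h1 : Tendsto (fun t : ℝ => Real.sqrt (1 - t⁻¹)) atBot (𝓝 (Real.sqrt (1 - 0))) := by
    refine (Real.continuous_sqrt.tendsto _).comp ?_
    exact tendsto_const_nhds.sub tendsto_inv_atBot_zero
  rw [sub_zero, Real.sqrt_one] at h1
  refine h1.congr' ?_
  filter_upwards [eventually_le_atBot (-2 : ℝ)] with t ht
  rw [Pp, if_pos (by linarith), ← Real.sqrt_div (by linarith)]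
  congr 1
  have h0 : t ≠ 0 := by linarith
  field_simp
  ring

/-- BB. -/
theorem t_BB : S_BB :=
  ⟨bb_continuous_Pm, bb_continuous_Pp, bb_Pm_nonneg, bb_Pm_le_Pp, bb_Pp_pos, bb_Pm_neg_one,
    bb_Pp_one, bb_Pp_le, bb_Pp_atTop, bb_Pm_atBot, bb_Pp_atBot⟩

end Pool.Agent.TWP.E
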