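import Pool.Agent.TWP.ESt

/-!
# TWP, block E, module BIG: a solution above `H` near `+∞` is above `H` everywhere
-/

set_option autoImplicit false

namespace Pool.Agent.TWP.E

open Filter Topology Set

theorem t_BIG (hWR : S_WR) (hTRI : S_TRI) : S_BIG := by
  intro H P q p hH hq dH dq Hpos qpos h0
  have cH : Continuous H := continuous_iff_continuousAt.2 fun t => (hH t).1.continuousAt
  have cq : Continuous q := continuous_iff_continuousAt.2 fun t => (hq t).1.continuousAt
  have hne : q ≠ H := fun h => by rw [h] at h0; exact lt_irrefl _ h0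
  -- on the right half line
  have hA : ∀ t, 0 ≤ t → H t < q t := by
    intro t ht
    by_contra hcon
    push Not at hcon
    have hiv := intermediate_value_Icc' ht ((cq.sub cH).continuousOn (s := Icc 0 t))
    have hmem : (0 : ℝ) ∈ Icc ((q t) - (H t)) ((q 0) - (H 0)) := ⟨by linarith, by linarith⟩
    obtain ⟨s, hs, hs0⟩ := hiv hmem
    have hs1 : q s = H s := by
      have : q s - H s = 0 := hs0
      linarith
    exact hne (hTRI H P q p hH hq dH dq s
      (fun r hr => ⟨Hpos r, qpos r (le_trans hs.1 hr)⟩) hs1)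
  -- everywhere
  have hB : ∀ t, H t < q t := by
    intro t0
    rcases le_or_gt 0 t0 with h | h
    · exact hA t0 h
    by_contra hcon
    push Not at hcon
    have hcl : IsClosed {t | q t ≤ H t} := isClosed_le cq cH
    have hcomp : IsCompact (Icc t0 0 ∩ {t | q t ≤ H t}) := isCompact_Icc.inter_right hcl
    obtain ⟨a, ha, hmax⟩ := hcomp.exists_isGreatest ⟨t0, ⟨le_refl _, h.le⟩, hcon⟩
    have ha1 : q a ≤ H a := ha.2
    have ha0 : a < 0 := by
      rcases lt_or_eq_of_le ha.1.2 with h1 | h1
      · exact h1
      · rw [h1] at ha1; exact absurd ha1 (not_le.2 h0)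
    have hgt : ∀ s, a < s → H s < q s := by
      intro s hs
      rcases le_or_gt 0 s with h1 | h1
      · exact hA s h1
      · by_contra h2
        push Not at h2
        have := hmax ⟨⟨le_trans ha.1.1 hs.le, h1.le⟩, h2⟩
        exact absurd this (not_le.2 hs)
    have hge : H a ≤ q a := by
      have h1 : Tendsto H (𝓝[>] a) (𝓝 (H a)) := cH.continuousAt.tendsto.mono_left nhdsWithin_le_nhds
      have h2 : Tendsto q (𝓝[>] a) (𝓝 (q a)) := cq.continuousAt.tendsto.mono_left nhdsWithin_le_nhds
      exact le_of_tendsto_of_tendsto h1 h2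
        (eventually_nhdsWithin_of_forall fun s hs => (hgt s hs).le)
    have heq : q a = H a := le_antisymm ha1 hge
    refine hne (hTRI H P q p hH hq dH dq a (fun r hr => ⟨Hpos r, ?_⟩) heq)
    rcases lt_or_eq_of_le hr with h1 | h1
    · exact (Hpos r).trans (hgt r h1)
    · rw [← h1, heq]; exact Hpos a
  intro t
  exact ⟨hB t, hWR H P q p hH hq dH dq t
    (fun r _ => ⟨Hpos r, (Hpos r).trans (hB r)⟩) (hB t)⟩

end Pool.Agent.TWP.E
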