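import Mathlib
import Pool.Agent.TWP.ESt

/-
TWP, block E, DEC: exponential decay from y'' >= y >= 0 and y(t)/t -> 0.
-/

namespace Pool.Agent.TWP.E

open Filter Topology Set

namespace DEC

/-- a function with nonnegative derivative on a half line is nondecreasing there -/
theorem mono {f f' : ℝ → ℝ} {a : ℝ} (hd : ∀ t, a ≤ t → HasDerivAt f (f' t) t)
    (hn : ∀ t, a ≤ t → 0 ≤ f' t) {s t : ℝ} (hs : a ≤ s) (hst : s ≤ t) : f s ≤ f t := by
  have h : MonotoneOn f (Ici a) := by
    refine monotoneOn_of_deriv_nonneg (convex_Ici a) ?_ ?_ ?_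
    · intro x hx
      exact (hd x hx).continuousAt.continuousWithinAt
    · intro x hx
      rw [interior_Ici] at hx
      exact (hd x (le_of_lt hx)).differentiableAt.differentiableWithinAt
    · intro x hx
      rw [interior_Ici] at hx
      rw [(hd x (le_of_lt hx)).deriv]
      exact hn x (le_of_lt hx)
  exact h (mem_Ici.2 hs) (mem_Ici.2 (hs.trans hst)) hst

/-- linear growth contradicts y(t)/t -> 0 -/
theorem no_linear {y : ℝ → ℝ} (hlim : Tendsto (fun t => y t / t) atTop (𝓝 0)) {c t0 : ℝ}
    (hc : 0 < c) (h : ∀ t, t0 ≤ t → c * (t - t0) ≤ y t) : False := by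
  have h1 : ∀ᶠ t in atTop, y t / t < c / 2 :=
    hlim.eventually (gt_mem_nhds (by linarith))
  obtain ⟨t, ht1, ht2⟩ := (h1.and (eventually_gt_atTop (max 1 (2 * |t0|)))).exists
  have ht3 : 1 < t := lt_of_le_of_lt (le_max_left _ _) ht2
  have ht4 : 2 * |t0| < t := lt_of_le_of_lt (le_max_right _ _) ht2
  have ht5 : t0 ≤ |t0| := le_abs_self t0
  have ht6 : 0 ≤ |t0| := abs_nonneg t0
  have htpos : 0 < t := by linarith
  have h2 : y t < c / 2 * t := (div_lt_iff₀ htpos).1 ht1
  have h3 := h t (by linarith)
  have h4 : c * (t / 2) ≤ c * (t - t0) := mul_le_mul_of_nonneg_left (by linarith) hc.le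
  linarith

end DEC

open DEC in
theorem t_DEC : S_DEC := by
  intro y z w T hd hb hlim
  -- z is nondecreasing
  have hz : ∀ s t, T ≤ s → s ≤ t → z s ≤ z t := fun s t hs hst =>
    mono (fun t ht => (hd t ht).2) (fun t ht => (hb t ht).1.trans (hb t ht).2) hs hst
  -- z is nonpositive
  have hz0 : ∀ t, T ≤ t → z t ≤ 0 := by
    intro t0 ht0
    by_contra hcon
    have hc : 0 < z t0 := lt_of_not_ge hcon
    refine no_linear hlim hc (t0 := t0) fun t ht => ?_
    have h1 : (fun s => y s - z t0 * s) t0 ≤ (fun s => y s - z t0 * s) t := by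
      refine mono (f := fun s => y s - z t0 * s) (f' := fun s => z s - z t0) (a := t0)
        (fun s hs => ?_) (fun s hs => ?_) (le_refl t0) ht
      · have h2 : HasDerivAt (fun s : ℝ => z t0 * s) (z t0) s := by
          have h3 := (hasDerivAt_id s).const_mul (z t0)
          rw [mul_one] at h3
          exact h3
        exact (hd s (ht0.trans hs)).1.sub h2
      · have h3 := hz t0 s ht0 hs
        show 0 ≤ z s - z t0
        linarith
    have h2 : y t0 - z t0 * t0 ≤ y t - z t0 * t := h1
    have h3 := (hb t0 ht0).1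
    have h4 : z t0 * (t - t0) = z t0 * t - z t0 * t0 := by ring
    rw [h4]
    linarith
  -- z + y is nonpositive
  have hzy : ∀ t, T ≤ t → z t + y t ≤ 0 := by
    intro t0 ht0
    by_contra hcon
    have hc : 0 < z t0 + y t0 := lt_of_not_ge hcon
    refine no_linear hlim hc (t0 := t0) fun t ht => ?_
    have h1 : (fun s => Real.exp (-s) * (z s + y s)) t0 ≤
        (fun s => Real.exp (-s) * (z s + y s)) t := by
      refine mono (f := fun s => Real.exp (-s) * (z s + y s))
        (f' := fun s => -Real.exp (-s) * (z s + y s) + Real.exp (-s) * (w s + z s))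
        (a := t0) (fun s hs => ?_) (fun s hs => ?_) (le_refl t0) ht
      · have h2 : HasDerivAt (fun s : ℝ => Real.exp (-s)) (-Real.exp (-s)) s := by
          have h3 := (hasDerivAt_neg s).exp
          rw [mul_neg_one] at h3
          exact h3
        exact h2.mul ((hd s (ht0.trans hs)).2.add (hd s (ht0.trans hs)).1)
      · have h3 := (hb s (ht0.trans hs)).2
        have h4 : 0 ≤ Real.exp (-s) * (w s - y s) :=
          mul_nonneg (Real.exp_pos _).le (by linarith)
        show 0 ≤ -Real.exp (-s) * (z s + y s) + Real.exp (-s) * (w s + z s)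
        have h5 : -Real.exp (-s) * (z s + y s) + Real.exp (-s) * (w s + z s) =
          Real.exp (-s) * (w s - y s) := by ring
        rw [h5]
        exact h4
    have h2 : Real.exp (-t0) * (z t0 + y t0) ≤ Real.exp (-t) * (z t + y t) := h1
    have h3 : Real.exp t * (Real.exp (-t0) * (z t0 + y t0)) ≤
        Real.exp t * (Real.exp (-t) * (z t + y t)) :=
      mul_le_mul_of_nonneg_left h2 (Real.exp_pos t).le
    have h4 : Real.exp t * (Real.exp (-t) * (z t + y t)) = z t + y t := by
      rw [← mul_assoc, ← Real.exp_add, add_neg_cancel, Real.exp_zero, one_mul]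
    have h5 : Real.exp t * (Real.exp (-t0) * (z t0 + y t0)) =
        (z t0 + y t0) * Real.exp (t - t0) := by
      rw [← mul_assoc, ← Real.exp_add, ← sub_eq_add_neg, mul_comm]
    rw [h4, h5] at h3
    have h6 : (t - t0) + 1 ≤ Real.exp (t - t0) := Real.add_one_le_exp _
    have h7 : (z t0 + y t0) * (t - t0) ≤ (z t0 + y t0) * Real.exp (t - t0) :=
      mul_le_mul_of_nonneg_left (by linarith) hc.le
    have h8 := hz0 t (ht0.trans ht)
    linarith
  -- exp t * y t is nonincreasing
  have hy : ∀ t, T ≤ t → y t ≤ y T * Real.exp T * Real.exp (-t) := by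
    intro t ht
    have h1 : (fun s => -(Real.exp s * y s)) T ≤ (fun s => -(Real.exp s * y s)) t := by
      refine mono (f := fun s => -(Real.exp s * y s))
        (f' := fun s => -(Real.exp s * y s + Real.exp s * z s)) (a := T)
        (fun s hs => ?_) (fun s hs => ?_) (le_refl T) ht
      · exact ((Real.hasDerivAt_exp s).mul (hd s hs).1).neg
      · have h3 := hzy s hs
        have h4 : 0 ≤ Real.exp s * (-(z s + y s)) :=
          mul_nonneg (Real.exp_pos _).le (by linarith)
        show 0 ≤ -(Real.exp s * y s + Real.exp s * z s)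
        have h5 : -(Real.exp s * y s + Real.exp s * z s) = Real.exp s * (-(z s + y s)) := by ring
        rw [h5]
        exact h4
    have h2 : -(Real.exp T * y T) ≤ -(Real.exp t * y t) := h1
    have h3 : Real.exp t * y t ≤ Real.exp T * y T := by linarith
    have h4 : Real.exp t * y t * Real.exp (-t) ≤ Real.exp T * y T * Real.exp (-t) :=
      mul_le_mul_of_nonneg_right h3 (Real.exp_pos _).le
    have h5 : Real.exp t * y t * Real.exp (-t) = y t := by
      rw [mul_right_comm, ← Real.exp_add, add_neg_cancel, Real.exp_zero, one_mul]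
    rw [h5] at h4
    rw [mul_comm (y T) (Real.exp T)]
    exact h4
  have hyT : 0 ≤ y T := (hb T (le_refl T)).1
  refine ⟨y T * Real.exp T * Real.exp 1, fun t ht => ⟨?_, ?_, hz0 t (by linarith)⟩⟩
  · refine (hy t (by linarith)).trans ?_
    refine mul_le_mul_of_nonneg_right ?_ (Real.exp_pos _).le
    have h1 : (1 : ℝ) ≤ Real.exp 1 := Real.one_le_exp zero_le_one
    have h2 : 0 ≤ y T * Real.exp T := mul_nonneg hyT (Real.exp_pos _).le
    exact le_mul_of_one_le_right h2 h1
  · have ht1 : T ≤ t - 1 := by linarith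
    -- y t - y (t - 1) ≤ z t
    have h1 : y t - y (t - 1) ≤ z t := by
      obtain ⟨s, hs, hs'⟩ := exists_hasDerivAt_eq_slope y z (a := t - 1) (b := t) (by linarith)
        (fun x hx => ((hd x (ht1.trans hx.1)).1.continuousAt.continuousWithinAt))
        (fun x hx => (hd x (ht1.trans hx.1.le)).1)
      have h2 := hz s t (ht1.trans hs.1.le) hs.2.le
      have h3 : t - (t - 1) = 1 := by ring
      rw [h3, div_one] at hs'
      linarith
    have h2 := hy (t - 1) ht1
    have h3 := (hb t (by linarith)).1
    have h4 : y T * Real.exp T * Real.exp (-(t - 1)) =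
        y T * Real.exp T * Real.exp 1 * Real.exp (-t) := by
      have h5 : -(t - 1) = 1 + -t := by ring
      rw [h5, Real.exp_add, ← mul_assoc]
    rw [h4] at h2
    linarith

end Pool.Agent.TWP.E
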