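import Mathlib
import Pool.Agent.TWP.ESt

set_option autoImplicit false

/-!
# TWP, block E: module LIM
-/

namespace Pool.Agent.TWP.E

open Filter Topology Set

theorem lim_alg (g R B a b : ℝ) (hg : |g| ≤ R) (ha : |a| ≤ B) (hb : |b| ≤ B) :
    |g * a + 2 * a ^ 3 - (g * b + 2 * b ^ 3)| ≤ (R + 6 * B ^ 2) * |a - b| := by
  have h1 : g * a + 2 * a ^ 3 - (g * b + 2 * b ^ 3) =
      (g + 2 * (a * a + a * b + b * b)) * (a - b) := by ring
  rw [h1, abs_mul]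
  apply mul_le_mul_of_nonneg_right _ (abs_nonneg _)
  have hB : 0 ≤ B := le_trans (abs_nonneg a) ha
  have h2 : |a * a| ≤ B * B := by
    rw [abs_mul]; exact mul_le_mul ha ha (abs_nonneg _) hB
  have h3 : |a * b| ≤ B * B := by
    rw [abs_mul]; exact mul_le_mul ha hb (abs_nonneg _) hB
  have h4 : |b * b| ≤ B * B := by
    rw [abs_mul]; exact mul_le_mul hb hb (abs_nonneg _) hB
  rw [abs_le] at *
  constructor <;> nlinarith

theorem lim_lip (g : ℝ → ℝ) (R B : ℝ) (t : ℝ) (hg : |g t| ≤ R) :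
    LipschitzOnWith (Real.toNNReal (max 1 (R + 6 * B ^ 2)))
      (fun x : ℝ × ℝ => (x.2, g t * x.1 + 2 * x.1 ^ 3)) {x : ℝ × ℝ | |x.1| ≤ B} := by
  apply LipschitzOnWith.of_dist_le_mul
  intro x hx y hy
  have hK : (0 : ℝ) ≤ max 1 (R + 6 * B ^ 2) := le_trans zero_le_one (le_max_left _ _)
  rw [Real.coe_toNNReal _ hK, Prod.dist_eq, Prod.dist_eq]
  simp only [Real.dist_eq]
  have h0 : 0 ≤ max |x.1 - y.1| |x.2 - y.2| := le_trans (abs_nonneg _) (le_max_left _ _)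
  apply max_le
  · calc |x.2 - y.2| ≤ max |x.1 - y.1| |x.2 - y.2| := le_max_right _ _
      _ = 1 * max |x.1 - y.1| |x.2 - y.2| := (one_mul _).symm
      _ ≤ _ := mul_le_mul_of_nonneg_right (le_max_left _ _) h0
  · calc |g t * x.1 + 2 * x.1 ^ 3 - (g t * y.1 + 2 * y.1 ^ 3)|
        ≤ (R + 6 * B ^ 2) * |x.1 - y.1| := lim_alg _ _ _ _ _ hg hx hy
      _ ≤ max 1 (R + 6 * B ^ 2) * |x.1 - y.1| :=
          mul_le_mul_of_nonneg_right (le_max_right _ _) (abs_nonneg _)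
      _ ≤ _ := mul_le_mul_of_nonneg_left (le_max_left _ _) hK

theorem lim_gron (g : ℝ → ℝ) (R B : ℝ) (_ : 0 ≤ R)
    (hg : ∀ t ∈ Icc 0 R, |g t| ≤ R) (u1 p1 u2 p2 : ℝ → ℝ)
    (h1 : ∀ t ∈ Icc 0 R, HasDerivAt u1 (p1 t) t ∧ HasDerivAt p1 (g t * u1 t + 2 * u1 t ^ 3) t)
    (h2 : ∀ t ∈ Icc 0 R, HasDerivAt u2 (p2 t) t ∧ HasDerivAt p2 (g t * u2 t + 2 * u2 t ^ 3) t)
    (b1 : ∀ t ∈ Icc 0 R, |u1 t| ≤ B) (b2 : ∀ t ∈ Icc 0 R, |u2 t| ≤ B) :
    ∀ t ∈ Icc 0 R, |u1 t - u2 t| ≤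
      Real.exp (max 1 (R + 6 * B ^ 2) * R) * max |u1 0 - u2 0| |p1 0 - p2 0| ∧
      |p1 t - p2 t| ≤
      Real.exp (max 1 (R + 6 * B ^ 2) * R) * max |u1 0 - u2 0| |p1 0 - p2 0| := by
  intro t ht
  have hK : (0 : ℝ) ≤ max 1 (R + 6 * B ^ 2) := le_trans zero_le_one (le_max_left _ _)
  have key := dist_le_of_trajectories_ODE_of_mem
    (v := fun t (x : ℝ × ℝ) => (x.2, g t * x.1 + 2 * x.1 ^ 3))
    (s := fun _ => {x : ℝ × ℝ | |x.1| ≤ B})
    (K := Real.toNNReal (max 1 (R + 6 * B ^ 2)))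
    (f := fun t => (u1 t, p1 t)) (g := fun t => (u2 t, p2 t)) (a := 0) (b := R)
    (δ := max |u1 0 - u2 0| |p1 0 - p2 0|)
    (fun t ht => lim_lip g R B t (hg t (Ico_subset_Icc_self ht)))
    (fun t ht => ((h1 t ht).1.continuousAt.prodMk (h1 t ht).2.continuousAt).continuousWithinAt)
    (fun t ht => by
      have := h1 t (Ico_subset_Icc_self ht)
      exact (this.1.prodMk this.2).hasDerivWithinAt)
    (fun t ht => b1 t (Ico_subset_Icc_self ht))
    (fun t ht => ((h2 t ht).1.continuousAt.prodMk (h2 t ht).2.continuousAt).continuousWithinAt)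
    (fun t ht => by
      have := h2 t (Ico_subset_Icc_self ht)
      exact (this.1.prodMk this.2).hasDerivWithinAt)
    (fun t ht => b2 t (Ico_subset_Icc_self ht))
    (by rw [Prod.dist_eq, Real.dist_eq, Real.dist_eq]) t ht
  rw [Real.coe_toNNReal _ hK, Prod.dist_eq] at key
  simp only [Real.dist_eq, sub_zero] at key
  have h0 : 0 ≤ max |u1 0 - u2 0| |p1 0 - p2 0| := le_trans (abs_nonneg _) (le_max_left _ _)
  have h3 : max |u1 0 - u2 0| |p1 0 - p2 0| * Real.exp (max 1 (R + 6 * B ^ 2) * t) ≤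
      Real.exp (max 1 (R + 6 * B ^ 2) * R) * max |u1 0 - u2 0| |p1 0 - p2 0| := by
    rw [mul_comm]
    apply mul_le_mul_of_nonneg_right _ h0
    apply Real.exp_le_exp.mpr
    exact mul_le_mul_of_nonneg_left ht.2 hK
  exact ⟨le_trans (le_trans (le_max_left _ _) key) h3, le_trans (le_trans (le_max_right _ _) key) h3⟩

theorem lim_gron2 (R B : ℝ) (hR : 0 ≤ R) (u1 p1 u2 p2 : ℝ → ℝ)
    (h1 : ∀ t ∈ Icc (-R) R, HasDerivAt u1 (p1 t) t ∧ HasDerivAt p1 (t * u1 t + 2 * u1 t ^ 3) t)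
    (h2 : ∀ t ∈ Icc (-R) R, HasDerivAt u2 (p2 t) t ∧ HasDerivAt p2 (t * u2 t + 2 * u2 t ^ 3) t)
    (b1 : ∀ t ∈ Icc (-R) R, |u1 t| ≤ B) (b2 : ∀ t ∈ Icc (-R) R, |u2 t| ≤ B) :
    ∀ t ∈ Icc (-R) R, |u1 t - u2 t| ≤
      Real.exp (max 1 (R + 6 * B ^ 2) * R) * max |u1 0 - u2 0| |p1 0 - p2 0| ∧
      |p1 t - p2 t| ≤
      Real.exp (max 1 (R + 6 * B ^ 2) * R) * max |u1 0 - u2 0| |p1 0 - p2 0| := by
  intro t ht
  rcases le_total 0 t with h | h
  · have hsub : Icc 0 R ⊆ Icc (-R) R := Icc_subset_Icc (by linarith) le_rfl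
    exact lim_gron (fun t => t) R B hR (fun t ht => by rw [abs_of_nonneg ht.1]; exact ht.2)
      u1 p1 u2 p2 (fun t ht => h1 t (hsub ht)) (fun t ht => h2 t (hsub ht))
      (fun t ht => b1 t (hsub ht)) (fun t ht => b2 t (hsub ht)) t ⟨h, ht.2⟩
  · have hneg : ∀ t : ℝ, t ∈ Icc 0 R → -t ∈ Icc (-R) R := fun t ht =>
      ⟨by linarith [ht.2], by linarith [ht.1]⟩
    have hflip : ∀ u p : ℝ → ℝ,
        (∀ t ∈ Icc (-R) R, HasDerivAt u (p t) t ∧ HasDerivAt p (t * u t + 2 * u t ^ 3) t) →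
        ∀ t ∈ Icc 0 R, HasDerivAt (fun t => u (-t)) (-p (-t)) t ∧
          HasDerivAt (fun t => -p (-t)) (-t * u (-t) + 2 * u (-t) ^ 3) t := by
      intro u p hup t ht
      obtain ⟨ha, hb⟩ := hup (-t) (hneg t ht)
      constructor
      · have := ha.scomp t (hasDerivAt_neg t)
        simpa [Function.comp_def] using this
      · have := (hb.scomp t (hasDerivAt_neg t)).neg
        simp only [Function.comp_def, smul_eq_mul, neg_mul, one_mul, neg_neg] at this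
        rw [neg_mul]
        exact this
    have := lim_gron (fun t => -t) R B hR
      (fun t ht => by rw [abs_neg, abs_of_nonneg ht.1]; exact ht.2)
      (fun t => u1 (-t)) (fun t => -p1 (-t)) (fun t => u2 (-t)) (fun t => -p2 (-t))
      (hflip u1 p1 h1) (hflip u2 p2 h2)
      (fun t ht => b1 _ (hneg t ht)) (fun t ht => b2 _ (hneg t ht)) (-t)
      ⟨by linarith, by linarith [ht.1]⟩
    simp only [neg_neg, neg_zero] at this
    have e1 : |-p1 0 - -p2 0| = |p1 0 - p2 0| := by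
      rw [show -p1 0 - -p2 0 = -(p1 0 - p2 0) by ring, abs_neg]
    have e2 : |-p1 t - -p2 t| = |p1 t - p2 t| := by
      rw [show -p1 t - -p2 t = -(p1 t - p2 t) by ring, abs_neg]
    rw [e1, e2] at this
    exact this

theorem lim_ucs {F : ℕ → ℝ → ℝ} {s : Set ℝ} {d : ℕ → ℝ × ℝ} (hd : CauchySeq d) {E : ℝ}
    (hE : 0 ≤ E) {N0 : ℕ}
    (h : ∀ m ≥ N0, ∀ n ≥ N0, ∀ t ∈ s, |F m t - F n t| ≤ E * dist (d m) (d n)) :
    UniformCauchySeqOn F atTop s := by
  rw [Metric.uniformCauchySeqOn_iff]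
  intro ε hε
  obtain ⟨N, hN⟩ := Metric.cauchySeq_iff.mp hd (ε / (E + 1)) (by positivity)
  refine ⟨max N N0, fun m hm n hn t ht => ?_⟩
  rw [Real.dist_eq]
  have h1 := h m (le_trans (le_max_right _ _) hm) n (le_trans (le_max_right _ _) hn) t ht
  have h2 := hN m (le_trans (le_max_left _ _) hm) n (le_trans (le_max_left _ _) hn)
  have h3 : E * dist (d m) (d n) ≤ E * (ε / (E + 1)) := mul_le_mul_of_nonneg_left h2.le hE
  have h4 : E * (ε / (E + 1)) < ε := by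
    rw [← mul_div_assoc, div_lt_iff₀ (by linarith)]
    nlinarith
  linarith

theorem t_LIM (hBAND : S_BAND) (hBB : S_BB) : S_LIM := by
  obtain ⟨hcm, hcp, hm0, hmp, -, -, -, -, -, -, -⟩ := hBB
  -- the solutions on [-(n+2), n+2]
  have hb : ∀ n : ℕ, ∃ u p : ℝ → ℝ,
      (∀ t ∈ Icc (-((n : ℝ) + 2)) ((n : ℝ) + 2),
        HasDerivAt u (p t) t ∧ HasDerivAt p (t * u t + 2 * u t ^ 3) t) ∧
      ∀ t ∈ Icc (-((n : ℝ) + 2)) ((n : ℝ) + 2), Pm t ≤ u t ∧ u t ≤ Pp t := fun n =>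
    hBAND ((n : ℝ) + 2) (by have : (0 : ℝ) ≤ n := Nat.cast_nonneg n; linarith)
  choose u p hode hband using hb
  -- bounds of Pp on compact intervals
  have hPp : ∀ R : ℝ, ∃ B : ℝ, 0 ≤ B ∧ ∀ t ∈ Icc (-R) R, Pp t ≤ B := by
    intro R
    obtain ⟨B, hB⟩ := (isCompact_Icc (a := -R) (b := R)).bddAbove_image hcp.continuousOn
    refine ⟨max B 0, le_max_right _ _, fun t ht => ?_⟩
    exact le_trans (hB (mem_image_of_mem _ ht)) (le_max_left _ _)
  have hub : ∀ (n : ℕ) (R B : ℝ), R ≤ (n : ℝ) + 2 → (∀ t ∈ Icc (-R) R, Pp t ≤ B) →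
      ∀ t ∈ Icc (-R) R, |u n t| ≤ B := by
    intro n R B hR hB t ht
    have ht' : t ∈ Icc (-((n : ℝ) + 2)) ((n : ℝ) + 2) :=
      ⟨by linarith [ht.1], by linarith [ht.2]⟩
    obtain ⟨h1, h2⟩ := hband n t ht'
    rw [abs_of_nonneg (le_trans (hm0 t) h1)]
    exact le_trans h2 (hB t ht)
  -- bounded initial data
  obtain ⟨B1, hB10, hB1⟩ := hPp 1
  have hdata : ∀ n : ℕ, |u n 0| ≤ B1 ∧ |p n 0| ≤ 2 * B1 + (B1 + 2 * B1 ^ 3) := by
    intro n
    have hn : (1 : ℝ) ≤ (n : ℝ) + 2 := by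
      have : (0 : ℝ) ≤ n := Nat.cast_nonneg n
      linarith
    have hu := hub n 1 B1 hn hB1
    have hsub : ∀ t ∈ Icc (0 : ℝ) 1, t ∈ Icc (-((n : ℝ) + 2)) ((n : ℝ) + 2) := fun t ht =>
      ⟨by linarith [ht.1], by linarith [ht.2]⟩
    have hsub1 : ∀ t ∈ Icc (0 : ℝ) 1, t ∈ Icc (-1 : ℝ) 1 := fun t ht =>
      ⟨by linarith [ht.1], ht.2⟩
    refine ⟨hu 0 ⟨by norm_num, by norm_num⟩, ?_⟩
    obtain ⟨ξ, hξ, hξe⟩ := exists_hasDerivAt_eq_slope (u n) (p n) (a := 0) (b := 1) one_pos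
      (fun t ht => (hode n t (hsub t ht)).1.continuousAt.continuousWithinAt)
      (fun t ht => (hode n t (hsub t (Ioo_subset_Icc_self ht))).1)
    have h1 : |p n ξ| ≤ 2 * B1 := by
      rw [hξe, sub_zero, div_one]
      have ha := hu 1 ⟨by norm_num, le_rfl⟩
      have hb := hu 0 ⟨by norm_num, by norm_num⟩
      calc |u n 1 - u n 0| ≤ |u n 1| + |u n 0| := abs_sub _ _
        _ ≤ 2 * B1 := by linarith
    have h2 : |p n ξ - p n 0| ≤ (B1 + 2 * B1 ^ 3) * |ξ - 0| := by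
      have := (convex_Icc (0 : ℝ) 1).norm_image_sub_le_of_norm_hasDerivWithin_le
        (f := p n) (f' := fun t => t * u n t + 2 * u n t ^ 3) (C := B1 + 2 * B1 ^ 3)
        (x := 0) (y := ξ)
        (fun t ht => (hode n t (hsub t ht)).2.hasDerivWithinAt)
        (fun t ht => by
          rw [Real.norm_eq_abs]
          have h3 := hu t (hsub1 t ht)
          have h4 : |t| ≤ 1 := by rw [abs_of_nonneg ht.1]; exact ht.2
          calc |t * u n t + 2 * u n t ^ 3| ≤ |t * u n t| + |2 * u n t ^ 3| := abs_add_le _ _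
            _ = |t| * |u n t| + 2 * |u n t| ^ 3 := by
                rw [abs_mul, abs_mul, abs_pow, abs_two]
            _ ≤ 1 * B1 + 2 * B1 ^ 3 := by
                have h5 : |u n t| ^ 3 ≤ B1 ^ 3 := pow_le_pow_left₀ (abs_nonneg _) h3 3
                have h6 : |t| * |u n t| ≤ 1 * B1 :=
                  mul_le_mul h4 h3 (abs_nonneg _) zero_le_one
                linarith
            _ = B1 + 2 * B1 ^ 3 := by ring)
        ⟨le_rfl, zero_le_one⟩ (Ioo_subset_Icc_self hξ)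
      simpa [Real.norm_eq_abs] using this
    have h3 : |ξ - 0| ≤ 1 := by
      rw [sub_zero, abs_of_nonneg hξ.1.le]
      exact hξ.2.le
    have h4 : (B1 + 2 * B1 ^ 3) * |ξ - 0| ≤ (B1 + 2 * B1 ^ 3) * 1 :=
      mul_le_mul_of_nonneg_left h3 (by positivity)
    calc |p n 0| = |p n ξ - (p n ξ - p n 0)| := by congr 1; ring
      _ ≤ |p n ξ| + |p n ξ - p n 0| := abs_sub _ _
      _ ≤ 2 * B1 + (B1 + 2 * B1 ^ 3) := by linarith
  -- a convergent subsequence of the initial data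
  have hcomp : IsCompact (Icc (-B1) B1 ×ˢ
      Icc (-(2 * B1 + (B1 + 2 * B1 ^ 3))) (2 * B1 + (B1 + 2 * B1 ^ 3))) :=
    isCompact_Icc.prod isCompact_Icc
  obtain ⟨d0, -, φ, hφ, hlim⟩ := hcomp.tendsto_subseq (x := fun n => (u n 0, p n 0))
    (fun n => ⟨abs_le.mp (hdata n).1, abs_le.mp (hdata n).2⟩)
  have hcau : CauchySeq (fun n => ((u (φ n) 0, p (φ n) 0) : ℝ × ℝ)) := hlim.cauchySeq
  -- uniform estimates
  have hest : ∀ R : ℝ, 0 ≤ R → ∃ (B : ℝ) (E : ℝ) (N0 : ℕ), 0 ≤ B ∧ 0 ≤ E ∧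
      (∀ n ≥ N0, R ≤ ((φ n : ℕ) : ℝ) + 2) ∧
      (∀ n ≥ N0, ∀ t ∈ Icc (-R) R, |u (φ n) t| ≤ B) ∧
      (∀ m ≥ N0, ∀ n ≥ N0, ∀ t ∈ Icc (-R) R,
        |u (φ m) t - u (φ n) t| ≤ E * dist ((u (φ m) 0, p (φ m) 0) : ℝ × ℝ)
          (u (φ n) 0, p (φ n) 0) ∧
        |p (φ m) t - p (φ n) t| ≤ E * dist ((u (φ m) 0, p (φ m) 0) : ℝ × ℝ)
          (u (φ n) 0, p (φ n) 0)) := by
    intro R hR
    obtain ⟨B, hB0, hB⟩ := hPp R
    obtain ⟨N0, hN0⟩ := exists_nat_ge R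
    have hbig : ∀ n ≥ N0, R ≤ ((φ n : ℕ) : ℝ) + 2 := by
      intro n hn
      have h1 : N0 ≤ φ n := le_trans hn (hφ.le_apply)
      have h2 : (N0 : ℝ) ≤ (φ n : ℝ) := by exact_mod_cast h1
      linarith
    refine ⟨B, Real.exp (max 1 (R + 6 * B ^ 2) * R), N0, hB0, (Real.exp_pos _).le, hbig,
      fun n hn => hub (φ n) R B (hbig n hn) hB, ?_⟩
    intro m hm n hn t ht
    have hin : ∀ k ≥ N0, ∀ t ∈ Icc (-R) R,
        t ∈ Icc (-(((φ k : ℕ) : ℝ) + 2)) (((φ k : ℕ) : ℝ) + 2) := by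
      intro k hk t ht
      have := hbig k hk
      exact ⟨by linarith [ht.1], by linarith [ht.2]⟩
    have := lim_gron2 R B hR (u (φ m)) (p (φ m)) (u (φ n)) (p (φ n))
      (fun t ht => hode (φ m) t (hin m hm t ht)) (fun t ht => hode (φ n) t (hin n hn t ht))
      (hub (φ m) R B (hbig m hm) hB) (hub (φ n) R B (hbig n hn) hB) t ht
    rw [Prod.dist_eq]
    simp only [Real.dist_eq]
    exact this
  -- the limits
  have hq : ∀ t : ℝ, ∃ l : ℝ, Tendsto (fun n => u (φ n) t) atTop (𝓝 l) := by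
    intro t
    obtain ⟨B, E, N0, -, hE, -, -, h⟩ := hest |t| (abs_nonneg t)
    have := lim_ucs (F := fun n => u (φ n)) (s := Icc (-|t|) |t|) hcau hE
      (N0 := N0) (fun m hm n hn s hs => (h m hm n hn s hs).1)
    exact cauchySeq_tendsto_of_complete (this.cauchySeq ⟨neg_abs_le t, le_abs_self t⟩)
  have hp : ∀ t : ℝ, ∃ l : ℝ, Tendsto (fun n => p (φ n) t) atTop (𝓝 l) := by
    intro t
    obtain ⟨B, E, N0, -, hE, -, -, h⟩ := hest |t| (abs_nonneg t)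
    have := lim_ucs (F := fun n => p (φ n)) (s := Icc (-|t|) |t|) hcau hE
      (N0 := N0) (fun m hm n hn s hs => (h m hm n hn s hs).2)
    exact cauchySeq_tendsto_of_complete (this.cauchySeq ⟨neg_abs_le t, le_abs_self t⟩)
  choose q hq using hq
  choose r hr using hp
  refine ⟨q, r, ?_, ?_⟩
  · intro t
    have hR : (0 : ℝ) ≤ |t| + 1 := by positivity
    obtain ⟨B, E, N0, hB0, hE, hbig, hbu, h⟩ := hest (|t| + 1) hR
    have hto : t ∈ Ioo (-(|t| + 1)) (|t| + 1) :=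
      ⟨by linarith [neg_abs_le t], by linarith [le_abs_self t]⟩
    have hode' : ∀ n ≥ N0, ∀ s ∈ Ioo (-(|t| + 1)) (|t| + 1),
        HasDerivAt (u (φ n)) (p (φ n) s) s ∧
        HasDerivAt (p (φ n)) (s * u (φ n) s + 2 * u (φ n) s ^ 3) s := by
      intro n hn s hs
      have := hbig n hn
      exact hode (φ n) s ⟨by linarith [hs.1], by linarith [hs.2]⟩
    constructor
    · have huc := lim_ucs (F := fun n => p (φ n)) (s := Ioo (-(|t| + 1)) (|t| + 1)) hcau hE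
        (N0 := N0) (fun m hm n hn s hs => (h m hm n hn s (Ioo_subset_Icc_self hs)).2)
      have htu : TendstoUniformlyOn (fun n => p (φ n)) r atTop (Ioo (-(|t| + 1)) (|t| + 1)) :=
        huc.tendstoUniformlyOn_of_tendsto (fun s _ => hr s)
      exact hasDerivAt_of_tendstoUniformlyOn isOpen_Ioo htu
        (eventually_atTop.mpr ⟨N0, fun n hn s hs => (hode' n hn s hs).1⟩)
        (fun s _ => hq s) hto
    · have huc := lim_ucs (F := fun n s => s * u (φ n) s + 2 * u (φ n) s ^ 3)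
        (s := Ioo (-(|t| + 1)) (|t| + 1)) hcau
        (E := ((|t| + 1) + 6 * B ^ 2) * E) (by positivity)
        (N0 := N0) (fun m hm n hn s hs => by
          have hs' := Ioo_subset_Icc_self hs
          have h1 := lim_alg s (|t| + 1) B (u (φ m) s) (u (φ n) s) (abs_le.mpr hs')
            (hbu m hm s hs') (hbu n hn s hs')
          have h2 := (h m hm n hn s hs').1
          calc _ ≤ ((|t| + 1) + 6 * B ^ 2) * |u (φ m) s - u (φ n) s| := h1
            _ ≤ ((|t| + 1) + 6 * B ^ 2) * (E * dist ((u (φ m) 0, p (φ m) 0) : ℝ × ℝ)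
                (u (φ n) 0, p (φ n) 0)) := mul_le_mul_of_nonneg_left h2 (by positivity)
            _ = _ := by ring)
      have htu : TendstoUniformlyOn (fun n s => s * u (φ n) s + 2 * u (φ n) s ^ 3)
          (fun s => s * q s + 2 * q s ^ 3) atTop (Ioo (-(|t| + 1)) (|t| + 1)) :=
        huc.tendstoUniformlyOn_of_tendsto (fun s _ =>
          ((hq s).const_mul s).add (((hq s).pow 3).const_mul 2))
      exact hasDerivAt_of_tendstoUniformlyOn (g' := fun s => s * q s + 2 * q s ^ 3)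
        isOpen_Ioo htu
        (eventually_atTop.mpr ⟨N0, fun n hn s hs => (hode' n hn s hs).2⟩)
        (fun s _ => hr s) hto
  · intro t
    obtain ⟨B, E, N0, -, -, hbig, -, -⟩ := hest |t| (abs_nonneg t)
    have hev : ∀ᶠ n in atTop, Pm t ≤ u (φ n) t ∧ u (φ n) t ≤ Pp t := by
      refine eventually_atTop.mpr ⟨N0, fun n hn => ?_⟩
      have := hbig n hn
      exact hband (φ n) t ⟨by linarith [neg_abs_le t], by linarith [le_abs_self t]⟩
    exact ⟨ge_of_tendsto (hq t) (hev.mono fun n h => h.1),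
      le_of_tendsto (hq t) (hev.mono fun n h => h.2)⟩

end Pool.Agent.TWP.E
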