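import Pool.Agent.TWP.ESt

/-
TWP_E_MON: the solution in the band is decreasing.
-/

namespace Pool.Agent.TWP.E

open Filter Topology Set

/-- the limit at +oo -/
theorem mon_top (hBB : S_BB) {q : ℝ → ℝ} (hb : ∀ t, Pm t ≤ q t ∧ q t ≤ Pp t)
    (hpos : ∀ t, 0 < q t) : Tendsto q atTop (𝓝 0) := by
  obtain ⟨-, -, -, -, -, -, -, -, hlim, -, -⟩ := hBB
  exact squeeze_zero (fun t => (hpos t).le) (fun t => (hb t).2) hlim

/-- the limit at -oo -/
theorem mon_bot (hBB : S_BB) {q : ℝ → ℝ} (hb : ∀ t, Pm t ≤ q t ∧ q t ≤ Pp t) :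
    Tendsto (fun t => q t / Real.sqrt (-t / 2)) atBot (𝓝 1) := by
  obtain ⟨-, -, -, -, -, -, -, -, -, h1, h2⟩ := hBB
  refine tendsto_of_tendsto_of_tendsto_of_le_of_le h1 h2 ?_ ?_
  · intro t
    exact div_le_div_of_nonneg_right (hb t).1 (Real.sqrt_nonneg _)
  · intro t
    exact div_le_div_of_nonneg_right (hb t).2 (Real.sqrt_nonneg _)

/-- step (1) -/
theorem mon_right {q p : ℝ → ℝ} (h2 : P2 q p) (hpos : ∀ t, 0 < q t)
    (hlim : Tendsto q atTop (𝓝 0)) : ∀ t : ℝ, 0 ≤ t → p t < 0 := by
  intro t0 ht0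
  by_contra hcon
  rw [not_lt] at hcon
  have hpmono : StrictMonoOn p (Ici 0) := by
    refine strictMonoOn_of_deriv_pos (convex_Ici 0) ?_ ?_
    · exact fun t _ => (h2 t).2.continuousAt.continuousWithinAt
    · intro t ht
      rw [interior_Ici] at ht
      rw [(h2 t).2.deriv]
      have h0 : 0 < t := ht
      have := hpos t
      positivity
  have hqmono : MonotoneOn q (Ici t0) := by
    refine monotoneOn_of_deriv_nonneg (convex_Ici t0) ?_ ?_ ?_
    · exact fun t _ => (h2 t).1.continuousAt.continuousWithinAt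
    · exact fun t _ => (h2 t).1.differentiableAt.differentiableWithinAt
    · intro t ht
      rw [interior_Ici] at ht
      rw [(h2 t).1.deriv]
      have h0 : t0 < t := ht
      have := hpmono (show t0 ∈ Ici (0 : ℝ) from ht0) (show t ∈ Ici (0 : ℝ) from
        le_trans ht0 h0.le) h0
      linarith
  have hge : ∀ᶠ t in atTop, q t0 ≤ q t := by
    filter_upwards [eventually_ge_atTop t0] with t ht
    exact hqmono (show t0 ∈ Ici t0 from le_refl t0) ht ht
  have := ge_of_tendsto hlim hge
  linarith [hpos t0]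

/-- step (2) -/
theorem mon_shift (hSDT : S_SDT) {q p : ℝ → ℝ} (h2 : P2 q p) (hpos : ∀ t, 0 < q t)
    (hbot : Tendsto (fun t => q t / Real.sqrt (-t / 2)) atBot (𝓝 1))
    (hright : ∀ t : ℝ, 0 ≤ t → p t < 0) (h : ℝ) (hh : 0 < h) (t1 : ℝ) : q (t1 + h) ≤ q t1 := by
  have hqc : Continuous q := continuous_iff_continuousAt.2 fun t => (h2 t).1.continuousAt
  have hanti : ∀ t, 0 ≤ t → q (t + h) ≤ q t := by
    intro t ht
    have hA : AntitoneOn q (Ici 0) := by
      refine antitoneOn_of_deriv_nonpos (convex_Ici 0) hqc.continuousOn ?_ ?_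
      · exact fun t _ => (h2 t).1.differentiableAt.differentiableWithinAt
      · intro t ht
        rw [interior_Ici] at ht
        rw [(h2 t).1.deriv]
        exact (hright t (le_of_lt ht)).le
    exact hA (show t ∈ Ici (0 : ℝ) from ht) (show t + h ∈ Ici (0 : ℝ) from by
      show (0 : ℝ) ≤ t + h
      linarith) (by linarith)
  by_contra hcon
  rw [not_le] at hcon
  have ht1 : t1 < 0 := by
    by_contra hc
    rw [not_lt] at hc
    exact absurd (hanti t1 hc) (not_le.2 hcon)
  set R : ℝ := q (t1 + h) / q t1 with hR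
  have hR1 : 1 < R := by
    rw [hR, one_lt_div (hpos t1)]
    exact hcon
  have hcomp : Tendsto (fun t => q (t + h) / Real.sqrt (-(t + h) / 2)) atBot (𝓝 1) :=
    hbot.comp (tendsto_atBot_add_const_right _ h tendsto_id)
  have hquot : Tendsto (fun t => (q (t + h) / Real.sqrt (-(t + h) / 2)) /
      (q t / Real.sqrt (-t / 2))) atBot (𝓝 (1 / 1)) := hcomp.div hbot one_ne_zero
  rw [div_one] at hquot
  have hev : ∀ᶠ t in atBot, q (t + h) / q t < R := by
    filter_upwards [hquot.eventually_lt_const hR1, eventually_lt_atBot (-h)] with t ht hth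
    refine lt_of_le_of_lt ?_ ht
    have hs1 : 0 < Real.sqrt (-(t + h) / 2) := Real.sqrt_pos.2 (by linarith)
    have hs2 : 0 < Real.sqrt (-t / 2) := Real.sqrt_pos.2 (by linarith)
    have hs3 : Real.sqrt (-(t + h) / 2) ≤ Real.sqrt (-t / 2) :=
      Real.sqrt_le_sqrt (by linarith)
    have e1 : (q (t + h) / Real.sqrt (-(t + h) / 2)) / (q t / Real.sqrt (-t / 2)) =
        (q (t + h) / q t) * (Real.sqrt (-t / 2) / Real.sqrt (-(t + h) / 2)) := by
      have := (hpos t).ne'
      field_simp
    rw [e1]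
    have h3 : 1 ≤ Real.sqrt (-t / 2) / Real.sqrt (-(t + h) / 2) := (one_le_div hs1).2 hs3
    have h4 : 0 ≤ q (t + h) / q t := (div_pos (hpos _) (hpos _)).le
    calc q (t + h) / q t = (q (t + h) / q t) * 1 := (mul_one _).symm
      _ ≤ _ := mul_le_mul_of_nonneg_left h3 h4
  obtain ⟨T, hT⟩ := (eventually_atBot.1 hev)
  set T' : ℝ := min T (t1 - 1) with hT'
  have hT'1 : T' ≤ T := min_le_left _ _
  have hT't1 : T' < t1 := lt_of_le_of_lt (min_le_right _ _) (by linarith)
  have hrc : Continuous fun t => q (t + h) / q t :=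
    (hqc.comp (continuous_id.add continuous_const)).div hqc fun t => (hpos t).ne'
  obtain ⟨ts, hts, hmax⟩ := isCompact_Icc.exists_isMaxOn
    (⟨t1, hT't1.le, ht1.le⟩ : (Icc T' 0).Nonempty) hrc.continuousOn
  have hmax' : ∀ t ∈ Icc T' 0, q (t + h) / q t ≤ q (ts + h) / q ts := fun t ht => hmax ht
  have hk : R ≤ q (ts + h) / q ts := hmax' t1 ⟨hT't1.le, ht1.le⟩
  have hts1 : T' < ts := by
    rcases lt_or_eq_of_le hts.1 with h1 | h1
    · exact h1
    · exfalso
      have := hT T' hT'1
      rw [h1] at this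
      linarith
  have hts0 : ts < 0 := by
    rcases lt_or_eq_of_le hts.2 with h1 | h1
    · exact h1
    · exfalso
      have h5 := hanti ts (by rw [h1])
      have h6 : q (ts + h) / q ts ≤ 1 := (div_le_one (hpos ts)).2 h5
      linarith
  set k : ℝ := q (ts + h) / q ts with hkdef
  have hk1 : 1 < k := lt_of_lt_of_le hR1 hk
  have hkq : q (ts + h) = k * q ts := by
    rw [hkdef]
    have := (hpos ts).ne'
    field_simp
  have hlm : IsLocalMin (fun t => k * q t - q (t + h)) ts := by
    have hnb : ∀ᶠ t in 𝓝 ts, t ∈ Icc T' 0 := Icc_mem_nhds hts1 hts0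
    filter_upwards [hnb] with t ht
    have h7 := hmax' t ht
    rw [div_le_iff₀ (hpos t)] at h7
    show k * q ts - q (ts + h) ≤ k * q t - q (t + h)
    rw [hkq]
    linarith
  have hshift : ∀ t, HasDerivAt (fun s => q (s + h)) (p (t + h)) t := by
    intro t
    exact (h2 (t + h)).1.comp_add_const t h
  have hshiftp : ∀ t, HasDerivAt (fun s => p (s + h))
      ((t + h) * q (t + h) + 2 * q (t + h) ^ 3) t := by
    intro t
    exact (h2 (t + h)).2.comp_add_const t h
  have hres := hSDT (fun t => k * q t - q (t + h)) (fun t => k * p t - p (t + h))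
    (k * (ts * q ts + 2 * q ts ^ 3) - ((ts + h) * q (ts + h) + 2 * q (ts + h) ^ 3)) ts
    (Eventually.of_forall fun t => ((h2 t).1.const_mul k).sub (hshift t))
    (((h2 ts).2.const_mul k).sub (hshiftp ts)) hlm
  have h8 := hres.2
  rw [hkq] at h8
  have h9 : k * (ts * q ts + 2 * q ts ^ 3) - ((ts + h) * (k * q ts) + 2 * (k * q ts) ^ 3) =
      -(h * k * q ts) - 2 * k * q ts ^ 3 * (k ^ 2 - 1) := by ring
  rw [h9] at h8
  have hq0 := hpos ts
  have h10 : 0 < h * k * q ts := by
    have : 0 < k := by linarith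
    positivity
  have h11 : 0 ≤ 2 * k * q ts ^ 3 * (k ^ 2 - 1) := by
    have hk0 : 0 < k := by linarith
    have : 0 ≤ k ^ 2 - 1 := by nlinarith
    positivity
  linarith

theorem t_MON (hPOS : S_POS) (hSDT : S_SDT) (hBB : S_BB) : S_MON := by
  intro q p h2 hb
  have hpos := hPOS q p h2 hb
  have htop := mon_top hBB hb hpos
  have hbot := mon_bot hBB hb
  have hright := mon_right h2 hpos htop
  have hshift := mon_shift hSDT h2 hpos hbot hright
  have hanti : Antitone q := by
    intro a b hab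
    rcases lt_or_eq_of_le hab with h1 | h1
    · have := hshift (b - a) (by linarith) a
      have e : a + (b - a) = b := by ring
      rwa [e] at this
    · rw [h1]
  have hp0 : ∀ t, p t ≤ 0 := by
    intro t
    have := Antitone.deriv_nonpos (x := t) hanti
    rw [(h2 t).1.deriv] at this
    exact this
  intro t0
  refine lt_of_le_of_ne (hp0 t0) ?_
  intro hz
  have hlm : IsLocalMin (fun t => -p t) t0 := by
    refine Eventually.of_forall fun t => ?_
    show -p t0 ≤ -p t
    rw [hz]
    linarith [hp0 t]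
  have hd : HasDerivAt (fun t => -(t * q t + 2 * q t ^ 3))
      (-((1 * q t0 + t0 * p t0) + 2 * (3 * q t0 ^ 2 * p t0))) t0 := by
    have h3 : HasDerivAt (fun t => t * q t) (1 * q t0 + t0 * p t0) t0 :=
      (hasDerivAt_id t0).mul (h2 t0).1
    have h4 : HasDerivAt (fun t => q t ^ 3) (3 * q t0 ^ 2 * p t0) t0 := by
      have := (h2 t0).1.fun_pow 3
      simpa using this
    exact (h3.add (h4.const_mul 2)).neg
  have hres := hSDT (fun t => -p t) (fun t => -(t * q t + 2 * q t ^ 3)) _ t0
    (Eventually.of_forall fun t => (h2 t).2.neg) hd hlm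
  have h5 := hres.2
  rw [hz] at h5
  linarith [hpos t0]

end Pool.Agent.TWP.E
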