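import Mathlib
import Pool.Agent.TWP.ESt

/-! Module TWP_E_NEG (helper52): the energy difference tends to 0 at -oo. -/

set_option autoImplicit false

namespace Pool.Agent.TWP.E

open Filter Topology Set

theorem neg_en_deriv (q p : ℝ → ℝ) (h : P2 q p) (t : ℝ) :
    HasDerivAt (En q p) (-(q t) ^ 2) t := by
  have h1 := (h t).1
  have h2 := (h t).2
  have h3 := ((h2.fun_pow 2).fun_sub ((hasDerivAt_id' t).fun_mul (h1.fun_pow 2))).fun_sub (h1.fun_pow 4)
  have h4 : HasDerivAt (fun t => p t ^ 2 - t * q t ^ 2 - q t ^ 4) (-(q t) ^ 2) t := by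
    refine h3.congr_deriv ?_
    push_cast
    ring
  exact h4

theorem neg_bound (u v : ℝ → ℝ) (h : P2 u v) (hu : ∀ t : ℝ, t ≤ -1 → |u t| ≤ -t) :
    ∃ K : ℝ, 0 ≤ K ∧ ∀ t : ℝ, t ≤ -1 → |v t| ≤ K * t ^ 2 := by
  set E1 : ℝ := En u v (-1) with hE1
  have hG : MonotoneOn (fun t => En u v t + t ^ 3 / 3) (Iic (-1 : ℝ)) := by
    have hd : ∀ t : ℝ, HasDerivAt (fun t => En u v t + t ^ 3 / 3) (-(u t) ^ 2 + t ^ 2) t := by
      intro t
      have h1 := (neg_en_deriv u v h t).fun_add (((hasDerivAt_id' t).fun_pow 3).div_const 3)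
      refine h1.congr_deriv ?_
      push_cast
      ring
    refine monotoneOn_of_deriv_nonneg (convex_Iic _) ?_ ?_ ?_
    · exact fun t _ => (hd t).continuousAt.continuousWithinAt
    · exact fun t _ => (hd t).differentiableAt.differentiableWithinAt
    · intro t ht
      rw [interior_Iic] at ht
      rw [(hd t).deriv]
      have h1 := hu t ht.le
      have h2 : (u t) ^ 2 ≤ (-t) ^ 2 := by
        rw [← sq_abs (u t)]
        exact pow_le_pow_left₀ (abs_nonneg _) h1 2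
      nlinarith [h2]
  refine ⟨|E1| + 2, by positivity, fun t ht => ?_⟩
  have h1 := hG (show t ∈ Iic (-1 : ℝ) from ht) (show (-1 : ℝ) ∈ Iic (-1 : ℝ) from Set.mem_Iic.mpr le_rfl) ht
  simp only at h1
  have h2 := hu t ht
  have hu2 : (u t) ^ 2 ≤ t ^ 2 := by
    have := pow_le_pow_left₀ (abs_nonneg _) h2 2
    rw [sq_abs] at this
    nlinarith [this]
  have hv : v t ^ 2 = En u v t + t * u t ^ 2 + u t ^ 4 := by unfold En; ring
  have hu4 : u t ^ 4 ≤ t ^ 4 := by
    have h5 : (u t ^ 2) ^ 2 ≤ (t ^ 2) ^ 2 := pow_le_pow_left₀ (sq_nonneg _) hu2 2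
    calc u t ^ 4 = (u t ^ 2) ^ 2 := by ring
      _ ≤ _ := h5
      _ = t ^ 4 := by ring
  have ht2 : 1 ≤ t ^ 2 := by nlinarith
  have ht4 : t ^ 2 ≤ t ^ 4 := by nlinarith
  have ht3 : -t ^ 3 ≤ t ^ 4 := by nlinarith [sq_nonneg t]
  have habs : E1 ≤ |E1| := le_abs_self _
  have hE1n := abs_nonneg E1
  have h6 : |E1| ≤ |E1| * t ^ 4 := by nlinarith
  have h7 : t * u t ^ 2 ≤ 0 := by nlinarith [sq_nonneg (u t)]
  have h8 : v t ^ 2 ≤ (|E1| + 2) * t ^ 4 := by
    rw [hv]
    norm_num at h1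
    nlinarith
  have h9 : v t ^ 2 ≤ ((|E1| + 2) * t ^ 2) ^ 2 := by
    have : (|E1| + 2) * t ^ 4 ≤ ((|E1| + 2) * t ^ 2) ^ 2 := by
      have h10 : ((|E1| + 2) * t ^ 2) ^ 2 = (|E1| + 2) * ((|E1| + 2) * t ^ 4) := by ring
      rw [h10]
      have h11 : 0 ≤ (|E1| + 2) * t ^ 4 := by positivity
      nlinarith
    linarith
  exact abs_le_of_sq_le_sq h9 (by positivity)

theorem t_NEG (hDEC : S_DEC) (hBB : S_BB) : S_NEG := by
  intro H P q p hGood hHM hcon
  obtain ⟨hq, hE⟩ := hcon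
  obtain ⟨hPH, hbar, hpos, -⟩ := hGood
  obtain ⟨hPq, -, hqlim⟩ := hHM
  obtain ⟨-, -, -, -, -, -, -, hPple, -, hPmlim, hPplim⟩ := hBB
  -- D is antitone
  have hDd : ∀ t : ℝ, HasDerivAt (fun t => En H P t - En q p t) (-(H t) ^ 2 - -(q t) ^ 2) t :=
    fun t => (neg_en_deriv H P hPH t).fun_sub (neg_en_deriv q p hPq t)
  have hanti : Antitone (fun t => En H P t - En q p t) := by
    refine antitone_of_deriv_nonpos (fun t => (hDd t).differentiableAt) fun t => ?_
    rw [(hDd t).deriv]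
    have h1 := hq t
    have h2 : (q t) ^ 2 ≤ (H t) ^ 2 := by
      rw [← sq_abs (q t)]
      exact pow_le_pow_left₀ (abs_nonneg _) h1.le 2
    linarith
  -- the limits of the quotients
  have hHlim : Tendsto (fun t => H t / Real.sqrt (-t / 2)) atBot (𝓝 1) :=
    tendsto_of_tendsto_of_tendsto_of_le_of_le hPmlim hPplim
      (fun t => div_le_div_of_nonneg_right (hbar t).1 (Real.sqrt_nonneg _))
      (fun t => div_le_div_of_nonneg_right (hbar t).2 (Real.sqrt_nonneg _))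
  have hH' : Tendsto (fun s : ℝ => H (-s) / Real.sqrt (s / 2)) atTop (𝓝 1) := by
    have := hHlim.comp tendsto_neg_atTop_atBot
    refine this.congr fun s => ?_
    simp
  have hq' : Tendsto (fun s : ℝ => q (-s) / Real.sqrt (s / 2)) atTop (𝓝 1) := by
    have := hqlim.comp tendsto_neg_atTop_atBot
    refine this.congr fun s => ?_
    simp
  have he1 : ∀ᶠ s : ℝ in atTop, 9 / 10 < H (-s) / Real.sqrt (s / 2) :=
    hH'.eventually (lt_mem_nhds (by norm_num))
  have he2 : ∀ᶠ s : ℝ in atTop, 9 / 10 < q (-s) / Real.sqrt (s / 2) :=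
    hq'.eventually (lt_mem_nhds (by norm_num))
  have he3 : ∀ᶠ s : ℝ in atTop, H (-s) / Real.sqrt (s / 2) < 2 :=
    hH'.eventually (gt_mem_nhds (by norm_num))
  obtain ⟨T0, hT0⟩ := Filter.eventually_atTop.mp (he1.and (he2.and he3))
  set T : ℝ := max T0 1 with hT
  have hT1 : 1 ≤ T := le_max_right _ _
  have hTT : T0 ≤ T := le_max_left _ _
  have hfac : ∀ s : ℝ, T ≤ s → 9 / 10 * Real.sqrt (s / 2) < H (-s) ∧
      9 / 10 * Real.sqrt (s / 2) < q (-s) ∧ H (-s) < 2 * Real.sqrt (s / 2) := by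
    intro s hs
    obtain ⟨a1, a2, a3⟩ := hT0 s (hTT.trans hs)
    have hsp : 0 < Real.sqrt (s / 2) := Real.sqrt_pos.mpr (by linarith)
    exact ⟨(lt_div_iff₀ hsp).mp a1, (lt_div_iff₀ hsp).mp a2, (div_lt_iff₀ hsp).mp a3⟩
  -- the decay lemma
  have hneg : ∀ s : ℝ, HasDerivAt (fun x : ℝ => -x) (-1) s := fun s => hasDerivAt_neg' s
  have hder : ∀ s, T ≤ s →
      HasDerivAt (fun s => H (-s) - q (-s)) (-(P (-s)) + p (-s)) s ∧
      HasDerivAt (fun s => -(P (-s)) + p (-s))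
        ((-s * H (-s) + 2 * H (-s) ^ 3) - (-s * q (-s) + 2 * q (-s) ^ 3)) s := by
    intro s _
    have b1 := (hPH (-s)).1.comp s (hneg s)
    have b2 := (hPH (-s)).2.comp s (hneg s)
    have b3 := (hPq (-s)).1.comp s (hneg s)
    have b4 := (hPq (-s)).2.comp s (hneg s)
    constructor
    · have := b1.sub b3
      refine (this.congr_deriv ?_)
      ring
    · have := b2.neg.add b4
      refine (this.congr_deriv ?_)
      ring
  have hineq : ∀ s, T ≤ s → 0 ≤ H (-s) - q (-s) ∧ H (-s) - q (-s) ≤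
      (-s * H (-s) + 2 * H (-s) ^ 3) - (-s * q (-s) + 2 * q (-s) ^ 3) := by
    intro s hs
    obtain ⟨a1, a2, -⟩ := hfac s hs
    have hd : 0 < H (-s) - q (-s) := by
      have := hq (-s); have := le_abs_self (q (-s)); linarith
    refine ⟨hd.le, ?_⟩
    have hr0 : 0 ≤ Real.sqrt (s / 2) := Real.sqrt_nonneg _
    have hr2 : Real.sqrt (s / 2) ^ 2 = s / 2 := Real.sq_sqrt (by linarith)
    set r := Real.sqrt (s / 2)
    set h := H (-s)
    set u := q (-s)
    have c1 : 81 / 100 * (s / 2) ≤ h ^ 2 := by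
      rw [← hr2]; nlinarith
    have c2 : 81 / 100 * (s / 2) ≤ u ^ 2 := by
      rw [← hr2]; nlinarith
    have c3 : 81 / 100 * (s / 2) ≤ h * u := by
      rw [← hr2]
      have : (9 / 10 * r) * (9 / 10 * r) ≤ h * u :=
        mul_le_mul a1.le a2.le (by positivity) (by nlinarith)
      nlinarith
    have c4 : 1 ≤ -s + 2 * (h ^ 2 + h * u + u ^ 2) := by nlinarith
    have c5 : (-s * h + 2 * h ^ 3) - (-s * u + 2 * u ^ 3)
        = (h - u) * (-s + 2 * (h ^ 2 + h * u + u ^ 2)) := by ring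
    rw [c5]
    nlinarith
  have hlim : Tendsto (fun s => (H (-s) - q (-s)) / s) atTop (𝓝 0) := by
    have hz : Tendsto (fun s : ℝ => 4 * (1 / Real.sqrt s)) atTop (𝓝 0) := by
      have h1 : Tendsto (fun s : ℝ => (Real.sqrt s)⁻¹) atTop (𝓝 0) :=
        tendsto_inv_atTop_zero.comp Real.tendsto_sqrt_atTop
      have h2 := h1.const_mul 4
      simpa [one_div] using h2
    refine tendsto_of_tendsto_of_tendsto_of_le_of_le' tendsto_const_nhds hz ?_ ?_
    · filter_upwards [eventually_ge_atTop T] with s hs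
      exact div_nonneg (hineq s hs).1 (by linarith)
    · filter_upwards [eventually_ge_atTop T] with s hs
      obtain ⟨-, -, a3⟩ := hfac s hs
      have hs0 : 0 < s := by linarith
      have h1 : H (-s) - q (-s) ≤ 4 * Real.sqrt s := by
        have h2 := neg_abs_le (q (-s))
        have h3 := hq (-s)
        have h4 : Real.sqrt (s / 2) ≤ Real.sqrt s := Real.sqrt_le_sqrt (by linarith)
        linarith
      calc (H (-s) - q (-s)) / s ≤ 4 * Real.sqrt s / s := div_le_div_of_nonneg_right h1 hs0.le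
        _ = 4 * (1 / Real.sqrt s) := by
          rw [mul_div_assoc, Real.sqrt_div_self']
  obtain ⟨C, hC⟩ := hDEC (fun s => H (-s) - q (-s)) (fun s => -(P (-s)) + p (-s))
    (fun s => (-s * H (-s) + 2 * H (-s) ^ 3) - (-s * q (-s) + 2 * q (-s) ^ 3)) T hder hineq hlim
  -- bounds
  have hHb : ∀ t : ℝ, t ≤ -1 → |H t| ≤ -t := by
    intro t ht
    rw [abs_of_pos (hpos t)]
    exact (hbar t).2.trans (hPple t ht)
  have hqb : ∀ t : ℝ, t ≤ -1 → |q t| ≤ -t := by
    intro t ht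
    have h1 := hHb t ht
    rw [abs_of_pos (hpos t)] at h1
    exact (hq t).le.trans h1
  obtain ⟨K1, hK1, hP1⟩ := neg_bound H P hPH hHb
  obtain ⟨K2, hK2, hp1⟩ := neg_bound q p hPq hqb
  have hfin : ∀ᶠ s : ℝ in atTop, En H P 0 - En q p 0 ≤ C * (K1 + K2 + 6) * (s ^ 4 * Real.exp (-s)) := by
    filter_upwards [eventually_ge_atTop (T + 1)] with s hs
    obtain ⟨d1, d2, d3⟩ := hC s hs
    have hs1 : 1 ≤ s := by linarith
    have hsm : -s ≤ -1 := by linarith
    have e0 : 0 ≤ H (-s) - q (-s) := (hineq s (by linarith)).1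
    have hCe : 0 ≤ C * Real.exp (-s) := e0.trans d1
    have e1 : |P (-s) - p (-s)| ≤ C * Real.exp (-s) := by
      rw [abs_le]; constructor <;> linarith
    have e2 : |H (-s) - q (-s)| ≤ C * Real.exp (-s) := by
      rw [abs_of_nonneg e0]; exact d1
    have e3 := hP1 (-s) hsm
    have e4 := hp1 (-s) hsm
    have e5 := hHb (-s) hsm
    have e6 := hqb (-s) hsm
    rw [neg_neg] at e5 e6
    have e7 : |P (-s) + p (-s)| ≤ (K1 + K2) * s ^ 2 := by
      have := abs_add_le (P (-s)) (p (-s))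
      have e8 : (-s) ^ 2 = s ^ 2 := by ring
      rw [e8] at e3 e4
      nlinarith
    have e9 : |H (-s) + q (-s)| ≤ 2 * s := by
      have := abs_add_le (H (-s)) (q (-s))
      linarith
    have e10 : |(-s) + H (-s) ^ 2 + q (-s) ^ 2| ≤ 3 * s ^ 2 := by
      have f1 : H (-s) ^ 2 ≤ s ^ 2 := by
        rw [← sq_abs]; exact pow_le_pow_left₀ (abs_nonneg _) e5 2
      have f2 : q (-s) ^ 2 ≤ s ^ 2 := by
        rw [← sq_abs]; exact pow_le_pow_left₀ (abs_nonneg _) e6 2
      have f3 : s ≤ s ^ 2 := by nlinarith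
      have f4 := sq_nonneg (H (-s))
      have f5 := sq_nonneg (q (-s))
      rw [abs_le]; constructor <;> nlinarith
    have g1 : En H P (-s) - En q p (-s) = (P (-s) - p (-s)) * (P (-s) + p (-s))
        - (H (-s) - q (-s)) * ((H (-s) + q (-s)) * ((-s) + H (-s) ^ 2 + q (-s) ^ 2)) := by
      unfold En; ring
    have g2 : En H P (-s) - En q p (-s) ≤ C * Real.exp (-s) * ((K1 + K2) * s ^ 2)
        + C * Real.exp (-s) * (2 * s * (3 * s ^ 2)) := by
      rw [g1]
      have k1 : (P (-s) - p (-s)) * (P (-s) + p (-s)) ≤ C * Real.exp (-s) * ((K1 + K2) * s ^ 2) := by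
        refine (le_abs_self _).trans ?_
        rw [abs_mul]
        exact mul_le_mul e1 e7 (abs_nonneg _) hCe
      have k2 : -((H (-s) - q (-s)) * ((H (-s) + q (-s)) * ((-s) + H (-s) ^ 2 + q (-s) ^ 2)))
          ≤ C * Real.exp (-s) * (2 * s * (3 * s ^ 2)) := by
        refine (neg_le_abs _).trans ?_
        rw [abs_mul, abs_mul]
        exact mul_le_mul e2 (mul_le_mul e9 e10 (abs_nonneg _) (by positivity))
          (by positivity) hCe
      linarith
    have g3 : En H P 0 - En q p 0 ≤ En H P (-s) - En q p (-s) := hanti (by linarith)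
    have g4 : (K1 + K2) * s ^ 2 ≤ (K1 + K2) * s ^ 4 := by
      have : s ^ 2 ≤ s ^ 4 := pow_le_pow_right₀ hs1 (by norm_num)
      exact mul_le_mul_of_nonneg_left this (by linarith)
    have g5 : 2 * s * (3 * s ^ 2) ≤ 6 * s ^ 4 := by
      have : s ^ 3 ≤ s ^ 4 := pow_le_pow_right₀ hs1 (by norm_num)
      nlinarith
    calc En H P 0 - En q p 0 ≤ C * Real.exp (-s) * ((K1 + K2) * s ^ 2)
        + C * Real.exp (-s) * (2 * s * (3 * s ^ 2)) := g3.trans g2
      _ ≤ C * Real.exp (-s) * ((K1 + K2) * s ^ 4) + C * Real.exp (-s) * (6 * s ^ 4) :=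
        add_le_add (mul_le_mul_of_nonneg_left g4 hCe) (mul_le_mul_of_nonneg_left g5 hCe)
      _ = C * (K1 + K2 + 6) * (s ^ 4 * Real.exp (-s)) := by ring
  have hto : Tendsto (fun s : ℝ => C * (K1 + K2 + 6) * (s ^ 4 * Real.exp (-s))) atTop (𝓝 0) := by
    have := (Real.tendsto_pow_mul_exp_neg_atTop_nhds_zero 4).const_mul (C * (K1 + K2 + 6))
    simpa using this
  have hle : En H P 0 - En q p 0 ≤ 0 := ge_of_tendsto hto hfin
  have := hE 0
  linarith

end Pool.Agent.TWP.E
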