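import Pool.Agent.TWP.ESt

/-
TWP, block E, module POS: a solution in the band is positive (helper81).
-/

namespace Pool.Agent.TWP.E

open Filter Topology Set

theorem t_POS (hUNQ : S_UNQ) (hBB : S_BB) : S_POS := by
  intro q p hP hband t
  obtain ⟨-, -, hPm0, -, -, hPm1, -⟩ := hBB
  have hq0 : ∀ s, 0 ≤ q s := fun s => (hPm0 s).trans (hband s).1
  rcases (hq0 t).lt_or_eq with h | h
  · exact h
  · exfalso
    have hmin : IsLocalMin q t := by
      refine Filter.Eventually.of_forall fun s => ?_
      rw [← h]
      exact hq0 s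
    have hp : p t = 0 := hmin.hasDerivAt_eq_zero (hP t).1
    have hzero : P2 (fun _ => 0) (fun _ => 0) := by
      intro s
      refine ⟨hasDerivAt_const s 0, ?_⟩
      have h1 := hasDerivAt_const s (0 : ℝ)
      simpa using h1
    have h2 := hUNQ q p (fun _ => 0) (fun _ => 0) hP hzero t h.symm hp
    have h3 : q (-1) = 0 := by rw [h2.1]
    have h4 := (hband (-1)).1
    rw [h3] at h4
    exact absurd hPm1 (not_lt.2 h4)

end Pool.Agent.TWP.E
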