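import Mathlib
import Pool.Agent.TWP.ESt

/-!
Module TWP_E_SGN (helper91): sign and decay at +oo.
-/

set_option autoImplicit false

namespace Pool.Agent.TWP.E

open Filter Topology Set

/-- the derivative of `q p` -/
theorem SGN_deriv_g {q p : ℝ → ℝ} (hP : P2 q p) (t : ℝ) :
    HasDerivAt (fun s => q s * p s) (p t ^ 2 + q t ^ 2 * (t + 2 * q t ^ 2)) t := by
  refine ((hP t).1.fun_mul (hP t).2).congr_deriv ?_
  ring

theorem SGN_mono_g {q p : ℝ → ℝ} (hP : P2 q p) :
    MonotoneOn (fun s => q s * p s) (Ici 0) := by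
  apply monotoneOn_of_deriv_nonneg (convex_Ici 0)
  · exact fun t _ => (SGN_deriv_g hP t).continuousAt.continuousWithinAt
  · exact fun t _ => (SGN_deriv_g hP t).differentiableAt.differentiableWithinAt
  · intro t ht
    rw [interior_Ici] at ht
    have ht' : 0 < t := ht
    rw [(SGN_deriv_g hP t).deriv]
    have h2 : 0 ≤ q t ^ 2 * (t + 2 * q t ^ 2) := by positivity
    have h1 : 0 ≤ p t ^ 2 := sq_nonneg _
    linarith

/-- if `q t0` is nonzero then `q p < 0` at `t0` -/
theorem SGN_neg {q p : ℝ → ℝ} (hP : P2 q p) (hq : Tendsto q atTop (𝓝 0)) {t0 : ℝ}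
    (ht0 : 0 ≤ t0) (h0 : q t0 ≠ 0) : q t0 * p t0 < 0 := by
  by_contra hcon
  push Not at hcon
  have hmono : MonotoneOn (fun s => q s ^ 2) (Ici t0) := by
    have hd : ∀ t, HasDerivAt (fun s => q s ^ 2) (2 * (q t * p t)) t := by
      intro t
      refine ((hP t).1.fun_pow 2).congr_deriv ?_
      push_cast
      ring
    apply monotoneOn_of_deriv_nonneg (convex_Ici t0)
    · exact fun t _ => (hd t).continuousAt.continuousWithinAt
    · exact fun t _ => (hd t).differentiableAt.differentiableWithinAt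
    · intro t ht
      rw [interior_Ici] at ht
      have ht' : t0 < t := ht
      rw [(hd t).deriv]
      have := SGN_mono_g hP (show t0 ∈ Ici (0 : ℝ) from ht0)
        (show t ∈ Ici (0 : ℝ) from (le_trans ht0 ht'.le)) ht'.le
      simp only at this
      linarith
  have hlim : Tendsto (fun s => q s ^ 2) atTop (𝓝 0) := by
    have := hq.pow 2
    simpa using this
  have hge : ∀ᶠ t in atTop, q t0 ^ 2 ≤ q t ^ 2 := by
    filter_upwards [eventually_ge_atTop t0] with t ht
    exact hmono (Set.mem_Ici.mpr le_rfl) (Set.mem_Ici.mpr ht) ht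
  have h1 : q t0 ^ 2 ≤ 0 := ge_of_tendsto hlim hge
  have h2 : 0 < q t0 ^ 2 := by positivity
  linarith

theorem SGN_zero_sol : P2 (fun _ => 0) (fun _ => 0) := by
  intro t
  constructor
  · exact hasDerivAt_const t 0
  · have := hasDerivAt_const t (0 : ℝ)
    simpa using this

theorem SGN_ne {q p : ℝ → ℝ} (hUNQ : S_UNQ) (hP : P2 q p) (hq : Tendsto q atTop (𝓝 0))
    (hne : ∃ t, q t ≠ 0) {t0 : ℝ} (ht0 : 0 ≤ t0) : q t0 ≠ 0 := by
  intro h0
  have hz : ∀ t, t0 ≤ t → q t = 0 := by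
    intro t ht
    by_contra hqt
    have h1 := SGN_neg hP hq (le_trans ht0 ht) hqt
    have h2 := SGN_mono_g hP (show t0 ∈ Ici (0 : ℝ) from ht0)
      (show t ∈ Ici (0 : ℝ) from (le_trans ht0 ht)) ht
    simp only [h0, zero_mul] at h2
    linarith
  have hev : q =ᶠ[𝓝 (t0 + 1)] fun _ => (0 : ℝ) := by
    filter_upwards [lt_mem_nhds (show t0 < t0 + 1 by linarith)] with t ht
    exact hz t ht.le
  have hp : p (t0 + 1) = 0 := by
    have h1 : HasDerivAt q 0 (t0 + 1) :=
      (hasDerivAt_const (t0 + 1) (0 : ℝ)).congr_of_eventuallyEq hev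
    exact (hP (t0 + 1)).1.unique h1
  have hq1 : q (t0 + 1) = 0 := hz _ (by linarith)
  have := (hUNQ q p (fun _ => 0) (fun _ => 0) hP SGN_zero_sol (t0 + 1) hq1 hp).1
  obtain ⟨t, ht⟩ := hne
  exact ht (by rw [this])

theorem SGN_cont {q p : ℝ → ℝ} (hP : P2 q p) : Continuous q :=
  continuous_iff_continuousAt.mpr fun t => (hP t).1.continuousAt

/-- a nowhere vanishing continuous function on `[0, oo)` with `q 0 > 0` is positive -/
theorem SGN_pos {q : ℝ → ℝ} (hc : Continuous q) (hne : ∀ t, 0 ≤ t → q t ≠ 0) (h0 : 0 < q 0) :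
    ∀ t, 0 ≤ t → 0 < q t := by
  intro t ht
  by_contra hcon
  push Not at hcon
  have hsub := intermediate_value_Icc' ht hc.continuousOn
  have hmem : (0 : ℝ) ∈ Icc (q t) (q 0) := ⟨hcon, h0.le⟩
  obtain ⟨s, hs, hs0⟩ := hsub hmem
  exact hne s hs.1 hs0

/-- decay for a positive solution -/
theorem SGN_decay {q p : ℝ → ℝ} (hDEC : S_DEC) (hP : P2 q p) (hq : Tendsto q atTop (𝓝 0))
    (hpos : ∀ t, 0 ≤ t → 0 < q t) : Dec q p := by
  have hlim : Tendsto (fun t => q t / t) atTop (𝓝 0) := by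
    have h1 : Tendsto (fun t : ℝ => t⁻¹) atTop (𝓝 0) := tendsto_inv_atTop_zero
    have := hq.mul h1
    simpa [div_eq_mul_inv] using this
  obtain ⟨C, hC⟩ := hDEC q p (fun t => t * q t + 2 * q t ^ 3) 1 (fun t _ => hP t)
    (by
      intro t ht
      have h0 : 0 < q t := hpos t (by linarith)
      refine ⟨h0.le, ?_⟩
      have h3 : 0 ≤ 2 * q t ^ 3 := by positivity
      nlinarith) hlim
  refine ⟨C, ?_⟩
  intro t ht
  obtain ⟨h1, h2, h3⟩ := hC t (by linarith)
  have h0 : 0 < q t := hpos t (by linarith)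
  refine ⟨?_, ?_⟩
  · rw [abs_of_pos h0]; exact h1
  · rw [abs_of_nonpos h3]; linarith

theorem SGN_P2_neg {q p : ℝ → ℝ} (hP : P2 q p) : P2 (fun t => -q t) (fun t => -p t) := by
  intro t
  refine ⟨(hP t).1.fun_neg, ?_⟩
  refine (hP t).2.fun_neg.congr_deriv ?_
  ring

theorem t_SGN (hUNQ : S_UNQ) (hDEC : S_DEC) : S_SGN := by
  intro q p hP hq hne
  have hnz : ∀ t, 0 ≤ t → q t ≠ 0 := fun t ht => SGN_ne hUNQ hP hq hne ht
  have hc := SGN_cont hP
  rcases lt_or_gt_of_ne (hnz 0 le_rfl) with h0 | h0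
  · have hpos : ∀ t, 0 ≤ t → 0 < -q t :=
      SGN_pos (q := fun t => -q t) hc.neg (fun t ht => neg_ne_zero.mpr (hnz t ht))
        (by simpa using h0)
    have hq' : Tendsto (fun t => -q t) atTop (𝓝 0) := by simpa using hq.neg
    obtain ⟨C, hC⟩ := SGN_decay hDEC (SGN_P2_neg hP) hq' hpos
    refine ⟨⟨C, ?_⟩, Or.inr ?_⟩
    · intro t ht
      have := hC t ht
      simpa only [abs_neg] using this
    · intro t ht
      have := hpos t ht
      linarith
  · have hpos := SGN_pos hc hnz h0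
    exact ⟨SGN_decay hDEC hP hq hpos, Or.inl hpos⟩

end Pool.Agent.TWP.E
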