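import Pool.Agent.TWP.ESt

/-
TWP, block E, module TM: touching functions for the lower barrier.
-/

namespace Pool.Agent.TWP.E

open Filter Topology Set

lemma tm_sqrt_deriv {t : ℝ} (ht : t < -1) :
    HasDerivAt (fun t : ℝ => Real.sqrt ((-1 - t) / 2)) (-(1 / 4) / Real.sqrt ((-1 - t) / 2)) t := by
  have hpos : 0 < (-1 - t) / 2 := by linarith
  have hs : 0 < Real.sqrt ((-1 - t) / 2) := Real.sqrt_pos.mpr hpos
  have h1 : HasDerivAt (fun t : ℝ => (-1 - t) / 2) (-1 / 2) t := by
    have h := ((hasDerivAt_id t).const_sub (-1)).div_const 2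
    simpa using h
  have h2 := h1.sqrt hpos.ne'
  convert h2 using 1
  field_simp
  ring

lemma tm_sqrt_deriv2 {t : ℝ} (ht : t < -1) :
    HasDerivAt (fun t : ℝ => -(1 / 4) / Real.sqrt ((-1 - t) / 2))
      (-(1 / 16) / Real.sqrt ((-1 - t) / 2) ^ 3) t := by
  have hpos : 0 < (-1 - t) / 2 := by linarith
  have hs : 0 < Real.sqrt ((-1 - t) / 2) := Real.sqrt_pos.mpr hpos
  have h1 := tm_sqrt_deriv ht
  have h2 := (hasDerivAt_const t (-(1 / 4) : ℝ)).div h1 hs.ne'
  have h3 : -(1 / 16) / Real.sqrt ((-1 - t) / 2) ^ 3 =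
      (0 * Real.sqrt ((-1 - t) / 2) - -(1 / 4) * (-(1 / 4) / Real.sqrt ((-1 - t) / 2))) /
        Real.sqrt ((-1 - t) / 2) ^ 2 := by
    generalize Real.sqrt ((-1 - t) / 2) = s at hs
    field_simp
    ring
  rw [h3]
  exact h2

theorem t_TM : S_TM := by
  intro t0
  rcases le_or_gt t0 (-3 / 2) with h | h
  · have hlt : t0 < -1 := by linarith
    have hnear : ∀ᶠ t in 𝓝 t0, t < -1 := Iio_mem_nhds hlt
    have hPm : Pm t0 = Real.sqrt ((-1 - t0) / 2) := by
      unfold Pm
      rw [if_pos h]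
    refine ⟨fun t => Real.sqrt ((-1 - t) / 2), fun t => -(1 / 4) / Real.sqrt ((-1 - t) / 2),
      -(1 / 16) / Real.sqrt ((-1 - t0) / 2) ^ 3, ?_, tm_sqrt_deriv2 hlt, hPm.symm, ?_, ?_⟩
    · filter_upwards [hnear] with t ht using tm_sqrt_deriv ht
    · filter_upwards [hnear] with t ht
      unfold Pm
      split_ifs with h2
      · exact le_rfl
      · apply le_max_of_le_left
        have hpos : 0 ≤ (-1 - t) / 2 := by linarith
        have hsq := Real.sq_sqrt hpos
        nlinarith [sq_nonneg (Real.sqrt ((-1 - t) / 2) - 1 / 2)]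
    · rw [hPm]
      have hu : 1 / 4 ≤ (-1 - t0) / 2 := by linarith
      have hpos : 0 < (-1 - t0) / 2 := by linarith
      have hs : 0 < Real.sqrt ((-1 - t0) / 2) := Real.sqrt_pos.mpr hpos
      have hsq := Real.sq_sqrt hpos.le
      set s := Real.sqrt ((-1 - t0) / 2) with hsdef
      have ht0 : t0 = -1 - 2 * s ^ 2 := by linarith
      have h1 : t0 * s + 2 * s ^ 3 = -s := by
        rw [ht0]
        ring
      rw [h1, le_div_iff₀ (by positivity)]
      have h4 : (1 / 4 : ℝ) ≤ s ^ 2 := by linarith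
      nlinarith [mul_self_nonneg (s ^ 2 - 1 / 4)]
  · have hnear : ∀ᶠ t in 𝓝 t0, -3 / 2 < t := Ioi_mem_nhds h
    have hPm : Pm t0 = max (-1 / 4 - t0 / 2) 0 := by
      unfold Pm
      rw [if_neg (not_le.mpr h)]
    rcases lt_or_ge t0 (-1 / 2) with h2 | h2
    · have hmax : max (-1 / 4 - t0 / 2) 0 = -1 / 4 - t0 / 2 := max_eq_left (by linarith)
      refine ⟨fun t => -1 / 4 - t / 2, fun _ => -(1 / 2), 0, ?_, hasDerivAt_const _ _, ?_, ?_, ?_⟩
      · refine Eventually.of_forall fun t => ?_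
        have := ((hasDerivAt_id t).div_const 2).const_sub (-1 / 4)
        simpa using this
      · rw [hPm, hmax]
      · filter_upwards [hnear] with t ht
        unfold Pm
        rw [if_neg (not_le.mpr ht)]
        exact le_max_left _ _
      · rw [hPm, hmax]
        have hx0 : 0 ≤ -1 / 4 - t0 / 2 := by linarith
        have hx1 : -1 / 4 - t0 / 2 ≤ 1 / 2 := by linarith
        set x := -1 / 4 - t0 / 2 with hx
        have ht0 : t0 = -2 * x - 1 / 2 := by rw [hx]; ring
        have h1 : t0 * x + 2 * x ^ 3 = -(x * (2 * x * (1 - x) + 1 / 2)) := by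
          rw [ht0]
          ring
        rw [h1]
        have : 0 ≤ x * (2 * x * (1 - x) + 1 / 2) := by
          apply mul_nonneg hx0
          have := mul_nonneg (mul_nonneg (by norm_num : (0 : ℝ) ≤ 2) hx0) (by linarith : 0 ≤ 1 - x)
          linarith
        linarith
    · have hmax : max (-1 / 4 - t0 / 2) 0 = 0 := max_eq_right (by linarith)
      refine ⟨fun _ => 0, fun _ => 0, 0, ?_, hasDerivAt_const _ _, ?_, ?_, ?_⟩
      · exact Eventually.of_forall fun t => hasDerivAt_const _ _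
      · rw [hPm, hmax]
      · filter_upwards [hnear] with t ht
        unfold Pm
        rw [if_neg (not_le.mpr ht)]
        exact le_max_right _ _
      · rw [hPm, hmax]
        simp

end Pool.Agent.TWP.E
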