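import Pool.Agent.TWP.ESt

/-
TWP, block E, module TP: touching functions for the upper barrier.
-/

namespace Pool.Agent.TWP.E

open Filter Topology Set

lemma tp_sqrt_deriv {t : ℝ} (ht : t < 3 / 8) :
    HasDerivAt (fun t : ℝ => Real.sqrt ((1 - t) / 2)) (-(1 / 4) / Real.sqrt ((1 - t) / 2)) t := by
  have hpos : 0 < (1 - t) / 2 := by linarith
  have hs : 0 < Real.sqrt ((1 - t) / 2) := Real.sqrt_pos.mpr hpos
  have h1 : HasDerivAt (fun t : ℝ => (1 - t) / 2) (-1 / 2) t := by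
    have h := ((hasDerivAt_id t).const_sub (1 : ℝ)).div_const 2
    simpa using h
  have h2 := h1.sqrt hpos.ne'
  have h3 : -(1 / 4) / Real.sqrt ((1 - t) / 2) = -1 / 2 / (2 * Real.sqrt ((1 - t) / 2)) := by
    field_simp
    ring
  rw [h3]
  exact h2

lemma tp_sqrt_deriv2 {t : ℝ} (ht : t < 3 / 8) :
    HasDerivAt (fun t : ℝ => -(1 / 4) / Real.sqrt ((1 - t) / 2))
      (-(1 / 16) / Real.sqrt ((1 - t) / 2) ^ 3) t := by
  have hpos : 0 < (1 - t) / 2 := by linarith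
  have hs : 0 < Real.sqrt ((1 - t) / 2) := Real.sqrt_pos.mpr hpos
  have h1 := tp_sqrt_deriv ht
  have h2 := (hasDerivAt_const t (-(1 / 4) : ℝ)).div h1 hs.ne'
  have h3 : -(1 / 16) / Real.sqrt ((1 - t) / 2) ^ 3 =
      (0 * Real.sqrt ((1 - t) / 2) - -(1 / 4) * (-(1 / 4) / Real.sqrt ((1 - t) / 2))) /
        Real.sqrt ((1 - t) / 2) ^ 2 := by
    generalize Real.sqrt ((1 - t) / 2) = s at hs
    field_simp
    ring
  rw [h3]
  exact h2

lemma tp_exp_deriv (k t : ℝ) :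
    HasDerivAt (fun t : ℝ => k * Real.exp (-(4 / 5) * (t - 3 / 8)))
      (-(4 / 5) * (k * Real.exp (-(4 / 5) * (t - 3 / 8)))) t := by
  have h1 : HasDerivAt (fun t : ℝ => -(4 / 5) * (t - 3 / 8)) (-(4 / 5)) t := by
    have h := ((hasDerivAt_id t).sub_const (3 / 8 : ℝ)).const_mul (-(4 / 5) : ℝ)
    simpa using h
  have h2 := (h1.exp).const_mul k
  have h3 : -(4 / 5) * (k * Real.exp (-(4 / 5) * (t - 3 / 8))) =
      k * (Real.exp (-(4 / 5) * (t - 3 / 8)) * -(4 / 5)) := by ring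
  rw [h3]
  exact h2

lemma tp_sq (t : ℝ) :
    (Real.sqrt (5 / 16) * Real.exp (-(4 / 5) * (t - 3 / 8))) ^ 2 =
      5 / 16 * Real.exp (-(8 / 5) * (t - 3 / 8)) := by
  rw [mul_pow, Real.sq_sqrt (by norm_num), ← Real.exp_nat_mul]
  congr 2
  push_cast
  ring

lemma tp_ge (t : ℝ) (_ht : t ≤ 3 / 8) :
    Real.sqrt ((1 - t) / 2) ≤ Real.sqrt (5 / 16) * Real.exp (-(4 / 5) * (t - 3 / 8)) := by
  have h0 : 0 ≤ Real.sqrt (5 / 16) * Real.exp (-(4 / 5) * (t - 3 / 8)) := by positivity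
  apply Real.sqrt_le_iff.mpr
  refine ⟨h0, ?_⟩
  rw [tp_sq]
  have h := Real.add_one_le_exp (-(8 / 5) * (t - 3 / 8))
  nlinarith

theorem t_TP : S_TP := by
  intro t0
  rcases lt_or_ge t0 (3 / 8) with h | h
  · have hnear : ∀ᶠ t in 𝓝 t0, t < 3 / 8 := Iio_mem_nhds h
    have hPp : Pp t0 = Real.sqrt ((1 - t0) / 2) := by
      unfold Pp
      rw [if_pos h.le]
    refine ⟨fun t => Real.sqrt ((1 - t) / 2), fun t => -(1 / 4) / Real.sqrt ((1 - t) / 2),
      -(1 / 16) / Real.sqrt ((1 - t0) / 2) ^ 3, ?_, tp_sqrt_deriv2 h, hPp.symm, ?_, ?_⟩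
    · filter_upwards [hnear] with t ht using tp_sqrt_deriv ht
    · filter_upwards [hnear] with t ht
      unfold Pp
      rw [if_pos ht.le]
    · rw [hPp]
      have hpos : 0 < (1 - t0) / 2 := by linarith
      have hs : 0 < Real.sqrt ((1 - t0) / 2) := Real.sqrt_pos.mpr hpos
      have hsq := Real.sq_sqrt hpos.le
      have h1 : t0 * Real.sqrt ((1 - t0) / 2) + 2 * Real.sqrt ((1 - t0) / 2) ^ 3 =
          Real.sqrt ((1 - t0) / 2) := by
        have h2 : Real.sqrt ((1 - t0) / 2) ^ 3 =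
            Real.sqrt ((1 - t0) / 2) * Real.sqrt ((1 - t0) / 2) ^ 2 := by ring
        rw [h2, hsq]
        ring
      rw [h1]
      have h3 : -(1 / 16) / Real.sqrt ((1 - t0) / 2) ^ 3 ≤ 0 :=
        div_nonpos_of_nonpos_of_nonneg (by norm_num) (by positivity)
      linarith
  · have hPp : Pp t0 = Real.sqrt (5 / 16) * Real.exp (-(4 / 5) * (t0 - 3 / 8)) := by
      unfold Pp
      split_ifs with h2
      · have h3 : t0 = 3 / 8 := le_antisymm h2 h
        subst h3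
        norm_num
      · rfl
    refine ⟨fun t => Real.sqrt (5 / 16) * Real.exp (-(4 / 5) * (t - 3 / 8)),
      fun t => -(4 / 5) * (Real.sqrt (5 / 16) * Real.exp (-(4 / 5) * (t - 3 / 8))),
      -(4 / 5) * (-(4 / 5) * (Real.sqrt (5 / 16) * Real.exp (-(4 / 5) * (t0 - 3 / 8)))),
      ?_, ?_, hPp.symm, ?_, ?_⟩
    · exact Filter.Eventually.of_forall fun t => tp_exp_deriv _ t
    · exact (tp_exp_deriv (Real.sqrt (5 / 16)) t0).const_mul (-(4 / 5) : ℝ)
    · refine Filter.Eventually.of_forall fun t => ?_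
      unfold Pp
      split_ifs with h2
      · exact tp_ge t h2
      · exact le_rfl
    · rw [hPp]
      have hsq := tp_sq t0
      have hpos : 0 < Real.sqrt (5 / 16) * Real.exp (-(4 / 5) * (t0 - 3 / 8)) := by positivity
      have hexp := Real.add_one_le_exp (-(8 / 5) * (t0 - 3 / 8))
      generalize Real.sqrt (5 / 16) * Real.exp (-(4 / 5) * (t0 - 3 / 8)) = s at hsq hpos
      have h4 : 1 ≤ t0 + 2 * s ^ 2 := by
        rw [hsq]
        nlinarith
      have h5 : s * 1 ≤ s * (t0 + 2 * s ^ 2) := mul_le_mul_of_nonneg_left h4 hpos.le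
      nlinarith

end Pool.Agent.TWP.E
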