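import Pool.Agent.TWP.ESt

namespace Pool.Agent.TWP.E

open Filter Topology Set

theorem tri_aux {H P q p : ℝ → ℝ} (hH : P2 H P) (hq : P2 q p) {t1 : ℝ} (h0 : 0 < H t1)
    (he : q t1 = H t1) (hW : 0 < p t1 * H t1 - q t1 * P t1) :
    ∃ t, t1 < t ∧ H t < q t ∧ 0 < p t * H t - q t * P t := by
  have hd : 0 < p t1 - P t1 := by
    rw [he] at hW
    have h2 : 0 < H t1 * (p t1 - P t1) := by linarith
    exact (pos_iff_pos_of_mul_pos h2).mp h0
  have hder : HasDerivAt (fun t => q t - H t) (p t1 - P t1) t1 := (hq t1).1.sub (hH t1).1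
  have hsl := hasDerivAt_iff_tendsto_slope.mp hder
  have hev : ∀ᶠ t in 𝓝[≠] t1, 0 < slope (fun t => q t - H t) t1 t :=
    hsl.eventually (lt_mem_nhds hd)
  have hev2 : ∀ᶠ t in 𝓝[>] t1, 0 < slope (fun t => q t - H t) t1 t :=
    hev.filter_mono (nhdsWithin_mono _ (fun x hx => ne_of_gt hx))
  have hcW : ContinuousAt (fun t => p t * H t - q t * P t) t1 :=
    ((hq t1).2.continuousAt.mul (hH t1).1.continuousAt).sub
      ((hq t1).1.continuousAt.mul (hH t1).2.continuousAt)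
  have hev3 : ∀ᶠ t in 𝓝[>] t1, 0 < p t * H t - q t * P t :=
    (hcW.tendsto.eventually (lt_mem_nhds hW)).filter_mono nhdsWithin_le_nhds
  have hev4 : ∀ᶠ t in 𝓝[>] t1, t1 < t := self_mem_nhdsWithin
  obtain ⟨t, h1, h2, h3⟩ := (hev2.and (hev3.and hev4)).exists
  refine ⟨t, h3, ?_, h2⟩
  rw [slope_def_field] at h1
  have h4 : 0 < t - t1 := sub_pos.mpr h3
  have h5 : 0 < (q t - H t) - (q t1 - H t1) := by
    rcases div_pos_iff.mp h1 with h | h
    · exact h.1
    · exact absurd h.2 (not_lt.mpr h4.le)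
  rw [he] at h5
  linarith

theorem t_TRI (hWR : S_WR) (hUNQ : S_UNQ) : S_TRI := by
  intro H P q p hH hq dH dq t1 hpos he
  have hp1 := hpos t1 le_rfl
  rcases lt_trichotomy (p t1 * H t1 - q t1 * P t1) 0 with h | h | h
  · exfalso
    have hW : 0 < P t1 * q t1 - H t1 * p t1 := by linarith
    obtain ⟨t, h1, h2, h3⟩ := tri_aux hq hH hp1.2 he.symm hW
    have h4 := hWR q p H P hq hH dq dH t
      (fun s hs => ⟨(hpos s (h1.le.trans hs)).2, (hpos s (h1.le.trans hs)).1⟩) h2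
    exact absurd h3 (not_lt.mpr h4.le)
  · have h2 : p t1 = P t1 := by
      rw [he] at h
      have h3 : H t1 * (p t1 - P t1) = 0 := by linarith
      rcases mul_eq_zero.mp h3 with h4 | h4
      · exact absurd h4 (ne_of_gt hp1.1)
      · linarith
    exact (hUNQ q p H P hq hH t1 he h2).1
  · exfalso
    obtain ⟨t, h1, h2, h3⟩ := tri_aux hH hq hp1.1 he h
    have h4 := hWR H P q p hH hq dH dq t (fun s hs => hpos s (h1.le.trans hs)) h2
    exact absurd h3 (not_lt.mpr h4.le)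

end Pool.Agent.TWP.E
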