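import Pool.Agent.TWP.ESt

/-
TWP, block E, UNQ: uniqueness for the initial value problem of Painleve II (helper3).
-/

set_option autoImplicit false

namespace Pool.Agent.TWP.E

open Filter Topology Set

/-- the vector field of Painleve II as a first order system -/
private def unqV (t : ℝ) (x : ℝ × ℝ) : ℝ × ℝ := (x.2, t * x.1 + 2 * x.1 ^ 3)

private lemma unq_lip (B T : ℝ) (hT : 0 ≤ T) (t : ℝ) (ht : |t| ≤ T) :
    LipschitzOnWith (Real.toNNReal (1 + T + 6 * B ^ 2)) (unqV t) {x | |x.1| ≤ B} := by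
  refine LipschitzOnWith.of_dist_le_mul fun x hx y hy => ?_
  have hx' : |x.1| ≤ B := hx
  have hy' : |y.1| ≤ B := hy
  have hB : 0 ≤ B := (abs_nonneg _).trans hx'
  rw [Real.coe_toNNReal _ (by positivity)]
  have h1 : |x.1 - y.1| ≤ dist x y := by
    rw [Prod.dist_eq, ← Real.dist_eq]; exact le_max_left _ _
  have h2 : |x.2 - y.2| ≤ dist x y := by
    rw [Prod.dist_eq, ← Real.dist_eq]; exact le_max_right _ _
  have hd : 0 ≤ dist x y := dist_nonneg
  show dist (unqV t x) (unqV t y) ≤ _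
  rw [Prod.dist_eq]
  refine max_le ?_ ?_
  · show dist x.2 y.2 ≤ _
    rw [Real.dist_eq]
    have : 0 ≤ (T + 6 * B ^ 2) * dist x y := by positivity
    nlinarith
  · show dist (t * x.1 + 2 * x.1 ^ 3) (t * y.1 + 2 * y.1 ^ 3) ≤ _
    rw [Real.dist_eq]
    have e : t * x.1 + 2 * x.1 ^ 3 - (t * y.1 + 2 * y.1 ^ 3)
        = (t + 2 * (x.1 ^ 2 + x.1 * y.1 + y.1 ^ 2)) * (x.1 - y.1) := by ring
    rw [e, abs_mul]
    have hx2 : x.1 ^ 2 ≤ B ^ 2 := sq_le_sq' (by linarith [abs_le.1 hx']) (abs_le.1 hx').2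
    have hy2 : y.1 ^ 2 ≤ B ^ 2 := sq_le_sq' (by linarith [abs_le.1 hy']) (abs_le.1 hy').2
    have hxy : |x.1 * y.1| ≤ B ^ 2 := by
      rw [abs_mul, sq]; exact mul_le_mul hx' hy' (abs_nonneg _) hB
    have hxy' := abs_le.1 hxy
    have ht' := abs_le.1 ht
    have h3 : |t + 2 * (x.1 ^ 2 + x.1 * y.1 + y.1 ^ 2)| ≤ T + 6 * B ^ 2 := by
      rw [abs_le]
      constructor
      · nlinarith [sq_nonneg x.1, sq_nonneg y.1, sq_nonneg (x.1 + y.1), sq_nonneg B]
      · nlinarith [sq_nonneg x.1, sq_nonneg y.1]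
    calc _ ≤ (T + 6 * B ^ 2) * dist x y :=
          mul_le_mul h3 h1 (abs_nonneg _) (by positivity)
      _ ≤ _ := by nlinarith

theorem t_UNQ : S_UNQ := by
  intro q1 p1 q2 p2 h1 h2 t0 hq hp
  have key : ∀ t, q1 t = q2 t ∧ p1 t = p2 t := by
    intro t
    have hT : 0 ≤ |t| + |t0| + 1 := by positivity
    have c1 : Continuous q1 := continuous_iff_continuousAt.2 fun t => (h1 t).1.continuousAt
    have c2 : Continuous q2 := continuous_iff_continuousAt.2 fun t => (h2 t).1.continuousAt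
    obtain ⟨B1, hB1⟩ := (isCompact_Icc (a := -(|t| + |t0| + 1))
      (b := |t| + |t0| + 1)).exists_bound_of_continuousOn c1.continuousOn
    obtain ⟨B2, hB2⟩ := (isCompact_Icc (a := -(|t| + |t0| + 1))
      (b := |t| + |t0| + 1)).exists_bound_of_continuousOn c2.continuousOn
    have hv : ∀ s ∈ Ioo (-(|t| + |t0| + 1)) (|t| + |t0| + 1),
        LipschitzOnWith (Real.toNNReal (1 + (|t| + |t0| + 1) + 6 * (max B1 B2) ^ 2)) (unqV s)
          ((fun _ : ℝ => {x : ℝ × ℝ | |x.1| ≤ max B1 B2}) s) := fun s hs =>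
      unq_lip (max B1 B2) _ hT s (abs_le.2 ⟨hs.1.le, hs.2.le⟩)
    have ht0 : t0 ∈ Ioo (-(|t| + |t0| + 1)) (|t| + |t0| + 1) := by
      constructor <;> [skip; skip] <;>
        nlinarith [abs_nonneg t, abs_nonneg t0, le_abs_self t0, neg_abs_le t0]
    have ht : t ∈ Ioo (-(|t| + |t0| + 1)) (|t| + |t0| + 1) := by
      constructor <;> nlinarith [abs_nonneg t, abs_nonneg t0, le_abs_self t, neg_abs_le t]
    have hf : ∀ s ∈ Ioo (-(|t| + |t0| + 1)) (|t| + |t0| + 1),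
        HasDerivAt (fun s => (q1 s, p1 s)) (unqV s (q1 s, p1 s)) s ∧
          (q1 s, p1 s) ∈ ((fun _ : ℝ => {x : ℝ × ℝ | |x.1| ≤ max B1 B2}) s) := fun s hs =>
      ⟨(h1 s).1.prodMk (h1 s).2, by
        have := hB1 s ⟨hs.1.le, hs.2.le⟩
        rw [Real.norm_eq_abs] at this
        exact this.trans (le_max_left _ _)⟩
    have hg : ∀ s ∈ Ioo (-(|t| + |t0| + 1)) (|t| + |t0| + 1),
        HasDerivAt (fun s => (q2 s, p2 s)) (unqV s (q2 s, p2 s)) s ∧
          (q2 s, p2 s) ∈ ((fun _ : ℝ => {x : ℝ × ℝ | |x.1| ≤ max B1 B2}) s) := fun s hs =>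
      ⟨(h2 s).1.prodMk (h2 s).2, by
        have := hB2 s ⟨hs.1.le, hs.2.le⟩
        rw [Real.norm_eq_abs] at this
        exact this.trans (le_max_right _ _)⟩
    have := ODE_solution_unique_of_mem_Ioo hv ht0 hf hg (by simp [hq, hp]) ht
    simpa using this
  exact ⟨funext fun t => (key t).1, funext fun t => (key t).2⟩

end Pool.Agent.TWP.E
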