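import Pool.Agent.TWP.ESt

set_option autoImplicit false

/-!
# The upper bound for the Hastings-McLeod solution (module UPB)
-/

namespace Pool.Agent.TWP.E

open Filter Topology Set

/-- derivative of the comparison function -/
theorem upb_der1 {t : ℝ} (ht : 0 < t) :
    HasDerivAt (fun t : ℝ => Real.exp (-(2 / 3) * (t * Real.sqrt t)))
      (-(Real.sqrt t * Real.exp (-(2 / 3) * (t * Real.sqrt t)))) t := by
  have hs : 0 < Real.sqrt t := Real.sqrt_pos.mpr ht
  have h1 : HasDerivAt (fun t : ℝ => t * Real.sqrt t)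
      (1 * Real.sqrt t + t * (1 / (2 * Real.sqrt t))) t :=
    (hasDerivAt_id t).mul (Real.hasDerivAt_sqrt ht.ne')
  have h2 := (h1.const_mul (-(2 / 3) : ℝ)).exp
  refine h2.congr_deriv ?_
  have h3 : t * (1 / (2 * Real.sqrt t)) = Real.sqrt t / 2 := by
    have h4 : Real.sqrt t * Real.sqrt t = t := Real.mul_self_sqrt ht.le
    field_simp
    nlinarith
  rw [h3]
  ring

/-- second derivative of the comparison function -/
theorem upb_der2 {t : ℝ} (ht : 0 < t) :
    HasDerivAt (fun t : ℝ => -(Real.sqrt t * Real.exp (-(2 / 3) * (t * Real.sqrt t))))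
      ((t - 1 / (2 * Real.sqrt t)) * Real.exp (-(2 / 3) * (t * Real.sqrt t))) t := by
  have h4 : Real.sqrt t * Real.sqrt t = t := Real.mul_self_sqrt ht.le
  have h1 := ((Real.hasDerivAt_sqrt ht.ne').mul (upb_der1 ht)).neg
  refine h1.congr_deriv ?_
  linear_combination Real.exp (-(2 / 3) * (t * Real.sqrt t)) * h4

theorem t_UPB (hBB : S_BB) (hSDT : S_SDT) : S_UPB := by
  obtain ⟨-, -, -, -, -, -, hPp1, -, hPp0, -, -⟩ := hBB
  rintro H P ⟨hP2, hband, hpos, -⟩ t0 ht0
  by_contra hcon
  push Not at hcon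
  set A : ℝ → ℝ := fun t => Real.exp (-(2 / 3) * (t * Real.sqrt t)) with hA
  have hApos : ∀ t, 0 < A t := fun t => Real.exp_pos _
  have hcon' : 0 < H t0 - A t0 := sub_pos.mpr hcon
  -- a point far to the right
  obtain ⟨T, hT1, hT2⟩ : ∃ T, t0 < T ∧ Pp T < H t0 - A t0 :=
    ((eventually_gt_atTop t0).and (hPp0.eventually (gt_mem_nhds hcon'))).exists
  have h1T : 1 < T := lt_of_le_of_lt ht0 hT1
  have hHc : Continuous H := continuous_iff_continuousAt.mpr fun t => (hP2 t).1.continuousAt
  have hAc : Continuous A := by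
    rw [hA]
    fun_prop
  set f : ℝ → ℝ := fun t => A t - H t with hf
  have hfc : Continuous f := hAc.sub hHc
  obtain ⟨s, hs, hmin⟩ := isCompact_Icc.exists_isMinOn (nonempty_Icc.mpr h1T.le)
    hfc.continuousOn
  have hs0 : f s ≤ f t0 := hmin ⟨ht0, hT1.le⟩
  have hft0 : f t0 < 0 := by
    have : f t0 = A t0 - H t0 := rfl
    linarith
  -- the value at 1
  have hf1 : 0 < f 1 := by
    have h1 : H 1 < 1 / 2 := lt_of_le_of_lt (hband 1).2 hPp1
    have h2 : (1 / 2 : ℝ) < A 1 := by
      have h3 : A 1 = Real.exp (-(2 / 3)) := by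
        rw [hA]
        simp
      have h4 : (1 / 2 : ℝ) = Real.exp (-Real.log 2) := by
        rw [Real.exp_neg, Real.exp_log (by norm_num)]
        norm_num
      rw [h3, h4, Real.exp_lt_exp]
      have := Real.log_two_gt_d9
      linarith
    have : f 1 = A 1 - H 1 := rfl
    linarith
  have hfT : f t0 < f T := by
    have h1 : H T ≤ Pp T := (hband T).2
    have h2 := hApos T
    have h3 : f T = A T - H T := rfl
    have h4 : f t0 = A t0 - H t0 := rfl
    linarith
  have hs1 : 1 < s := by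
    rcases eq_or_lt_of_le hs.1 with h | h
    · rw [← h] at hs0
      linarith
    · exact h
  have hsT : s < T := by
    rcases eq_or_lt_of_le hs.2 with h | h
    · rw [h] at hs0
      linarith
    · exact h
  have hloc : IsLocalMin f s := hmin.isLocalMin (Icc_mem_nhds hs1 hsT)
  have hsp : 0 < s := by linarith
  have hder : ∀ᶠ t in 𝓝 s, HasDerivAt f
      (-(Real.sqrt t * Real.exp (-(2 / 3) * (t * Real.sqrt t))) - P t) t := by
    filter_upwards [lt_mem_nhds hsp] with t ht
    exact (upb_der1 ht).sub (hP2 t).1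
  have hder2 : HasDerivAt
      (fun t => -(Real.sqrt t * Real.exp (-(2 / 3) * (t * Real.sqrt t))) - P t)
      ((s - 1 / (2 * Real.sqrt s)) * Real.exp (-(2 / 3) * (s * Real.sqrt s)) -
        (s * H s + 2 * H s ^ 3)) s := (upb_der2 hsp).sub (hP2 s).2
  have hc := (hSDT f _ _ s hder hder2 hloc).2
  have hAs : Real.exp (-(2 / 3) * (s * Real.sqrt s)) = A s := rfl
  rw [hAs] at hc
  have hlt : A s < H s := by
    have : f s = A s - H s := rfl
    linarith
  have h5 : 0 < 1 / (2 * Real.sqrt s) := by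
    have := Real.sqrt_pos.mpr hsp
    positivity
  have h6 : 0 < 1 / (2 * Real.sqrt s) * A s := mul_pos h5 (hApos s)
  have h7 : 0 < H s ^ 3 := pow_pos (hpos s) 3
  have h8 : s * A s < s * H s := mul_lt_mul_of_pos_left hlt hsp
  nlinarith

end Pool.Agent.TWP.E
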