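import Pool.Agent.TWP.ESt

/-!
TWP, block E, module WR: sign of the Wronskian of two positive decaying solutions.
-/

namespace Pool.Agent.TWP.E

open Filter Topology Set

theorem wr_deriv {H P q p : ℝ → ℝ} (h1 : P2 H P) (h2 : P2 q p) (t : ℝ) :
    HasDerivAt (fun t => p t * H t - q t * P t) (2 * q t * H t * (q t ^ 2 - H t ^ 2)) t := by
  have a := ((h2 t).2.mul (h1 t).1).sub ((h2 t).1.mul (h1 t).2)
  have e : (2 * q t * H t * (q t ^ 2 - H t ^ 2)) =
      (t * q t + 2 * q t ^ 3) * H t + p t * P t -
        (p t * P t + q t * (t * H t + 2 * H t ^ 3)) := by ring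
  rw [e]
  exact a

theorem wr_tendsto {H P q p : ℝ → ℝ} (h1 : Dec H P) (h2 : Dec q p) :
    Tendsto (fun t => p t * H t - q t * P t) atTop (𝓝 0) := by
  obtain ⟨C, hC⟩ := h1
  obtain ⟨D, hD⟩ := h2
  have hE : Tendsto (fun t : ℝ => Real.exp (-t)) atTop (𝓝 0) :=
    Real.tendsto_exp_neg_atTop_nhds_zero
  have hb : ∀ (f : ℝ → ℝ) (K : ℝ), (∀ t : ℝ, 2 ≤ t → |f t| ≤ K * Real.exp (-t)) →
      Tendsto f atTop (𝓝 0) := by
    intro f K hf
    have h0 : Tendsto (fun t : ℝ => K * Real.exp (-t)) atTop (𝓝 0) := by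
      simpa using hE.const_mul K
    refine squeeze_zero_norm' ?_ h0
    filter_upwards [eventually_ge_atTop (2 : ℝ)] with t ht
    simpa [Real.norm_eq_abs] using hf t ht
  have tH := hb H C (fun t ht => (hC t ht).1)
  have tP := hb P C (fun t ht => (hC t ht).2)
  have tq := hb q D (fun t ht => (hD t ht).1)
  have tp := hb p D (fun t ht => (hD t ht).2)
  simpa using (tp.mul tH).sub (tq.mul tP)

theorem t_WR : S_WR := by
  intro H P q p h1 h2 d1 d2 t1 hpos hlt
  by_contra hcon
  have hW0 : 0 ≤ p t1 * H t1 - q t1 * P t1 := not_lt.1 hcon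
  have hcH : Continuous H := continuous_iff_continuousAt.2 fun t => (h1 t).1.continuousAt
  have hcq : Continuous q := continuous_iff_continuousAt.2 fun t => (h2 t).1.continuousAt
  have hdW := wr_deriv h1 h2
  have hcW : Continuous (fun t => p t * H t - q t * P t) :=
    continuous_iff_continuousAt.2 fun t => (hdW t).continuousAt
  -- monotonicity of W on an interval where H ≤ q
  have key : ∀ b, t1 ≤ b → (∀ t, t1 ≤ t → t < b → H t ≤ q t) →
      MonotoneOn (fun t => p t * H t - q t * P t) (Icc t1 b) := by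
    intro b _ hb
    refine monotoneOn_of_deriv_nonneg (convex_Icc t1 b) hcW.continuousOn ?_ ?_
    · intro t _
      exact (hdW t).differentiableAt.differentiableWithinAt
    · intro t ht
      rw [interior_Icc] at ht
      rw [(hdW t).deriv]
      have hp := hpos t ht.1.le
      have hh := hb t ht.1.le ht.2
      have : 0 ≤ q t ^ 2 - H t ^ 2 := by nlinarith
      have h3 : 0 ≤ 2 * q t * H t := by
        have := mul_pos hp.2 hp.1
        nlinarith
      exact mul_nonneg h3 this
  have hgt : ∀ t, t1 ≤ t → H t < q t := by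
    by_contra hno
    push Not at hno
    obtain ⟨s, hs1, hs2⟩ := hno
    set S : Set ℝ := {t | t1 ≤ t ∧ q t ≤ H t} with hS
    have hSc : IsClosed S :=
      (isClosed_le continuous_const continuous_id).inter (isClosed_le hcq hcH)
    have hSne : S.Nonempty := ⟨s, hs1, hs2⟩
    have hSb : BddBelow S := ⟨t1, fun t ht => ht.1⟩
    have hb : sInf S ∈ S := hSc.csInf_mem hSne hSb
    set b := sInf S with hbdef
    have hb1 : t1 ≤ b := hb.1
    have hbefore : ∀ t, t1 ≤ t → t < b → H t ≤ q t := by
      intro t ht htb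
      by_contra hc
      have : t ∈ S := ⟨ht, (not_le.1 hc).le⟩
      exact absurd (csInf_le hSb this) (not_le.2 htb)
    have hmW := key b hb1 hbefore
    -- the quotient is monotone
    have hquot : ∀ t, t1 ≤ t → HasDerivAt (fun t => q t / H t)
        ((p t * H t - q t * P t) / H t ^ 2) t := by
      intro t ht
      exact (h2 t).1.div (h1 t).1 (hpos t ht).1.ne'
    have hmq : MonotoneOn (fun t => q t / H t) (Icc t1 b) := by
      refine monotoneOn_of_deriv_nonneg (convex_Icc t1 b) ?_ ?_ ?_
      · intro t ht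
        exact (hquot t ht.1).continuousAt.continuousWithinAt
      · intro t ht
        rw [interior_Icc] at ht
        exact (hquot t ht.1.le).differentiableAt.differentiableWithinAt
      · intro t ht
        rw [interior_Icc] at ht
        rw [(hquot t ht.1.le).deriv]
        have := hmW (left_mem_Icc.2 hb1) ⟨ht.1.le, ht.2.le⟩ ht.1.le
        have h3 : 0 ≤ p t * H t - q t * P t := le_trans hW0 this
        positivity
    have h3 := hmq (left_mem_Icc.2 hb1) (right_mem_Icc.2 hb1) hb1
    have h4 : 1 < q t1 / H t1 := by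
      rw [one_lt_div (hpos t1 le_rfl).1]
      exact hlt
    have h5 : 1 < q b / H b := lt_of_lt_of_le h4 h3
    rw [one_lt_div (hpos b hb1).1] at h5
    exact absurd hb.2 (not_le.2 h5)
  have hsm : StrictMonoOn (fun t => p t * H t - q t * P t) (Ici t1) := by
    refine strictMonoOn_of_deriv_pos (convex_Ici t1) hcW.continuousOn ?_
    intro t ht
    rw [interior_Ici] at ht
    have ht' : t1 ≤ t := le_of_lt ht
    rw [(hdW t).deriv]
    have hp := hpos t ht'
    have hh := hgt t ht'
    have h6 : 0 < q t ^ 2 - H t ^ 2 := by nlinarith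
    have h7 : 0 < 2 * q t * H t := by
      have := mul_pos hp.2 hp.1
      nlinarith
    exact mul_pos h7 h6
  have hlim := wr_tendsto d1 d2
  have hW1 : 0 < p (t1 + 1) * H (t1 + 1) - q (t1 + 1) * P (t1 + 1) := by
    have := hsm (show t1 ∈ Ici t1 from by simp) (show t1 + 1 ∈ Ici t1 by simp) (by linarith)
    exact lt_of_le_of_lt hW0 this
  have hev : ∀ᶠ t in atTop, p (t1 + 1) * H (t1 + 1) - q (t1 + 1) * P (t1 + 1) ≤
      p t * H t - q t * P t := by
    filter_upwards [eventually_ge_atTop (t1 + 1)] with t ht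
    exact hsm.monotoneOn (show t1 + 1 ∈ Ici t1 by simp) (show t ∈ Ici t1 from by
      show t1 ≤ t
      linarith) ht
  have := ge_of_tendsto hlim hev
  linarith

end Pool.Agent.TWP.E
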