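import Pool.Agent.TWP.ESt

namespace Pool.Agent.TWP.E

open Filter Topology Set Metric

theorem t_BVP : S_BVP := by
  intro F a b C K hab hF hC hK al be
  have hC0 : 0 ≤ C := le_trans (abs_nonneg _) (hC 0 0)
  have hK0 : 0 ≤ K := by
    have h := hK 0 1 0
    simp only [sub_zero, abs_one, mul_one] at h
    exact le_trans (abs_nonneg _) h
  have hba : 0 < b - a := sub_pos.2 hab
  obtain ⟨m, hm⟩ : ∃ m : ℝ, m = (be - al) / (b - a) := ⟨_, rfl⟩
  have hCb : 0 ≤ C * (b - a) := by positivity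
  obtain ⟨R, hR⟩ : ∃ R : ℝ, R = |m| + 2 * (C * (b - a)) + 1 := ⟨_, rfl⟩
  have hR0 : 0 < R := by
    have := abs_nonneg m
    rw [hR]; linarith
  obtain ⟨L, hL⟩ : ∃ L : ℝ, L = max R C := ⟨_, rfl⟩
  have hLR : R ≤ L := by rw [hL]; exact le_max_left _ _
  have hLC : C ≤ L := by rw [hL]; exact le_max_right _ _
  have hL0 : 0 ≤ L := le_trans hR0.le hLR
  obtain ⟨v, hv⟩ : ∃ v : ℝ → ℝ × ℝ → ℝ × ℝ,
      v = fun t z => (max (-R) (min z.2 R), F t z.1) := ⟨_, rfl⟩
  obtain ⟨A, hA⟩ : ∃ A : ℝ, A = R + L * (b - a + 2) := ⟨_, rfl⟩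
  have hA0 : 0 ≤ A := by
    rw [hA]
    have : 0 ≤ L * (b - a + 2) := by positivity
    linarith
  have hmaxK : 0 ≤ max 1 K := le_trans zero_le_one (le_max_left _ _)
  have ha0 : a ∈ Icc (a - 1) (b + 1) := ⟨by linarith, by linarith⟩
  have hPL : IsPicardLindelof v (⟨a, ha0⟩ : Icc (a - 1) (b + 1)) ((al, 0) : ℝ × ℝ)
      ⟨A, hA0⟩ ⟨R, hR0.le⟩ ⟨L, hL0⟩ ⟨max 1 K, hmaxK⟩ := by
    refine ⟨?_, ?_, ?_, ?_⟩
    · intro t _
      refine LipschitzOnWith.of_dist_le_mul ?_
      intro x _ y _
      simp only [hv, Prod.dist_eq, Real.dist_eq]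
      have h1 : |max (-R) (min x.2 R) - max (-R) (min y.2 R)| ≤ |x.2 - y.2| := by
        rw [max_comm (-R), max_comm (-R)]
        refine le_trans (abs_max_sub_max_le_abs _ _ _) ?_
        exact (abs_min_sub_min_le_max _ _ _ _).trans (by simp)
      have h2 := hK t x.1 y.1
      have hM0 : 0 ≤ max |x.1 - y.1| |x.2 - y.2| := le_trans (abs_nonneg _) (le_max_left _ _)
      refine max_le ?_ ?_
      · calc |max (-R) (min x.2 R) - max (-R) (min y.2 R)| ≤ |x.2 - y.2| := h1
          _ ≤ 1 * max |x.1 - y.1| |x.2 - y.2| := by rw [one_mul]; exact le_max_right _ _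
          _ ≤ max 1 K * max |x.1 - y.1| |x.2 - y.2| :=
            mul_le_mul_of_nonneg_right (le_max_left _ _) hM0
      · calc |F t x.1 - F t y.1| ≤ K * |x.1 - y.1| := h2
          _ ≤ max 1 K * max |x.1 - y.1| |x.2 - y.2| :=
            mul_le_mul (le_max_right _ _) (le_max_left _ _) (abs_nonneg _) hmaxK
    · intro x _
      have hc : Continuous (fun t : ℝ => v t x) := by
        simp only [hv]
        exact continuous_const.prodMk
          (hF.comp (continuous_id.prodMk continuous_const))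
      exact hc.continuousOn
    · intro t _ x _
      simp only [hv, Prod.norm_def, Real.norm_eq_abs]
      refine max_le ?_ (le_trans (hC _ _) hLC)
      refine le_trans (abs_le.2 ⟨le_max_left _ _, ?_⟩) hLR
      exact max_le (by linarith) (min_le_right _ _)
    · show L * max (b + 1 - a) (a - (a - 1)) ≤ A - R
      rw [hA]
      have h1 : max (b + 1 - a) (a - (a - 1)) ≤ b - a + 2 := max_le (by linarith) (by linarith)
      have h2 := mul_le_mul_of_nonneg_left h1 hL0
      linarith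
  obtain ⟨α, hα, L', hL'⟩ :=
    hPL.exists_forall_mem_closedBall_eq_hasDerivWithinAt_lipschitzOnWith
  have hmem : ∀ s : ℝ, |s| ≤ R → ((al, s) : ℝ × ℝ) ∈ closedBall ((al, 0) : ℝ × ℝ)
      ((⟨R, hR0.le⟩ : NNReal) : ℝ) := by
    intro s hs
    simp only [mem_closedBall, Prod.dist_eq, Real.dist_eq, sub_self, abs_zero, sub_zero]
    exact max_le hR0.le hs
  -- the two components
  have hd : ∀ s : ℝ, |s| ≤ R → ∀ t ∈ Icc a b,
      HasDerivAt (fun t => (α (al, s) t).1) (max (-R) (min (α (al, s) t).2 R)) t ∧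
      HasDerivAt (fun t => (α (al, s) t).2) (F t (α (al, s) t).1) t := by
    intro s hs t ht
    have h := (hα _ (hmem s hs)).2 t ⟨by linarith [ht.1], by linarith [ht.2]⟩
    have h' : HasDerivAt (α (al, s)) (v t (α (al, s) t)) t :=
      h.hasDerivAt (Icc_mem_nhds (by linarith [ht.1]) (by linarith [ht.2]))
    simp only [hv] at h'
    exact ⟨h'.fst, h'.snd⟩
  have hini : ∀ s : ℝ, |s| ≤ R → α (al, s) a = (al, s) := fun s hs => (hα _ (hmem s hs)).1
  have hp : ∀ s : ℝ, |s| ≤ R → ∀ t ∈ Icc a b, |(α (al, s) t).2 - s| ≤ C * (b - a) := by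
    intro s hs t ht
    rcases eq_or_lt_of_le ht.1 with h | h
    · rw [← h, hini s hs]
      simpa using hCb
    · obtain ⟨c, hc, hc'⟩ := exists_hasDerivAt_eq_slope (fun t => (α (al, s) t).2)
        (fun t => F t (α (al, s) t).1) h
        (fun x hx => (hd s hs x ⟨hx.1, hx.2.trans ht.2⟩).2.continuousAt.continuousWithinAt)
        (fun x hx => (hd s hs x ⟨hx.1.le, hx.2.le.trans ht.2⟩).2)
      have hta : 0 < t - a := sub_pos.2 h
      have e : (α (al, s) t).2 - s = F c (α (al, s) c).1 * (t - a) := by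
        have e1 : (α (al, s) a).2 = s := by rw [hini s hs]
        rw [eq_div_iff hta.ne'] at hc'
        simp only [e1] at hc'
        exact hc'.symm
      rw [e, abs_mul, abs_of_pos hta]
      exact mul_le_mul (hC _ _) (by linarith [ht.2]) hta.le hC0
  have hclamp : ∀ s : ℝ, |s| ≤ |m| + C * (b - a) → ∀ t ∈ Icc a b,
      max (-R) (min (α (al, s) t).2 R) = (α (al, s) t).2 := by
    intro s hs t ht
    have hs' : |s| ≤ R := by rw [hR]; linarith
    have h := abs_le.1 (hp s hs' t ht)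
    have h2 := abs_le.1 hs
    have h3 : (α (al, s) t).2 ≤ R := by rw [hR]; linarith
    have h4 : -R ≤ (α (al, s) t).2 := by rw [hR]; linarith
    rw [min_eq_left h3, max_eq_right h4]
  -- slope at the end
  have hslope : ∀ s : ℝ, |s| ≤ |m| + C * (b - a) → ∃ c ∈ Icc a b,
      (α (al, s) b).1 = al + (α (al, s) c).2 * (b - a) := by
    intro s hs
    have hs' : |s| ≤ R := by rw [hR]; linarith
    obtain ⟨c, hc, hc'⟩ := exists_hasDerivAt_eq_slope (fun t => (α (al, s) t).1)
        (fun t => (max (-R) (min (α (al, s) t).2 R))) hab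
        (fun x hx => (hd s hs' x hx).1.continuousAt.continuousWithinAt)
        (fun x hx => (hd s hs' x ⟨hx.1.le, hx.2.le⟩).1)
    refine ⟨c, ⟨hc.1.le, hc.2.le⟩, ?_⟩
    have e1 : (α (al, s) a).1 = al := by rw [hini s hs']
    rw [eq_div_iff hba.ne'] at hc'
    simp only [e1, hclamp s hs c ⟨hc.1.le, hc.2.le⟩] at hc'
    linarith
  have hmb : m * (b - a) = be - al := by
    rw [hm]; field_simp
  have hs1 : |m + C * (b - a)| ≤ |m| + C * (b - a) := by
    refine (abs_add_le _ _).trans ?_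
    rw [abs_of_nonneg hCb]
  have hs0 : |m - C * (b - a)| ≤ |m| + C * (b - a) := by
    refine (abs_sub _ _).trans ?_
    rw [abs_of_nonneg hCb]
  have hR1 : ∀ s, |s| ≤ |m| + C * (b - a) → |s| ≤ R := by
    intro s hs
    rw [hR]; linarith
  have hb1 : be ≤ (α (al, m + C * (b - a)) b).1 := by
    obtain ⟨c, hc, e⟩ := hslope _ hs1
    have h := abs_le.1 (hp _ (hR1 _ hs1) c hc)
    have h2 : m ≤ (α (al, m + C * (b - a)) c).2 := by linarith
    have h3 := mul_le_mul_of_nonneg_right h2 hba.le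
    rw [e]; linarith
  have hb0 : (α (al, m - C * (b - a)) b).1 ≤ be := by
    obtain ⟨c, hc, e⟩ := hslope _ hs0
    have h := abs_le.1 (hp _ (hR1 _ hs0) c hc)
    have h2 : (α (al, m - C * (b - a)) c).2 ≤ m := by linarith
    have h3 := mul_le_mul_of_nonneg_right h2 hba.le
    rw [e]; linarith
  have hcont : ContinuousOn (fun s : ℝ => (α (al, s) b).1)
      (Icc (m - C * (b - a)) (m + C * (b - a))) := by
    have h1 := (hL' b ⟨by linarith, by linarith⟩).continuousOn
    have h2 : ContinuousOn (fun s : ℝ => α (al, s) b)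
        (Icc (m - C * (b - a)) (m + C * (b - a))) := by
      refine ContinuousOn.comp (f := fun s : ℝ => ((al, s) : ℝ × ℝ)) h1
        (continuous_const.prodMk continuous_id).continuousOn ?_
      intro s hs
      refine hmem s (hR1 s ?_)
      have h3 := neg_abs_le m
      have h4 := le_abs_self m
      exact abs_le.2 ⟨by linarith [hs.1], by linarith [hs.2]⟩
    exact continuous_fst.comp_continuousOn h2
  obtain ⟨s, hs, hse⟩ := intermediate_value_Icc (by linarith) hcont ⟨hb0, hb1⟩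
  have hsb : |s| ≤ |m| + C * (b - a) := by
    have h3 := neg_abs_le m
    have h4 := le_abs_self m
    exact abs_le.2 ⟨by linarith [hs.1], by linarith [hs.2]⟩
  refine ⟨fun t => (α (al, s) t).1, fun t => (α (al, s) t).2, ?_, hse, ?_⟩
  · show (α (al, s) a).1 = al
    rw [hini s (hR1 s hsb)]
  · intro t ht
    have h := hd s (hR1 s hsb) t ht
    rw [hclamp s hsb t ht] at h
    exact h

end Pool.Agent.TWP.E
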