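import Pool.Agent.TWP.ESt

set_option autoImplicit false

/-!
# Solutions of Painleve II below the Hastings-McLeod solution (module E_SML)
-/

namespace Pool.Agent.TWP.E

open Filter Topology Set

/-- The energy of a solution has the derivative `-q^2`. -/
theorem sml_en_deriv (q p : ℝ → ℝ) (hq : P2 q p) (t : ℝ) :
    HasDerivAt (En q p) (-(q t) ^ 2) t := by
  have h1 := (hq t).2.fun_pow 2
  have h2 := (hasDerivAt_id' t).fun_mul ((hq t).1.fun_pow 2)
  have h3 := (hq t).1.fun_pow 4
  have h4 := (h1.fun_sub h2).fun_sub h3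
  have h5 : HasDerivAt (fun t => p t ^ 2 - t * q t ^ 2 - q t ^ 4) (-(q t) ^ 2) t := by
    refine HasDerivAt.congr_deriv h4 ?_
    push_cast
    ring
  exact h5

/-- The energy of a decaying solution tends to zero. -/
theorem sml_en_tendsto (q p : ℝ → ℝ) (h : Dec q p) : Tendsto (En q p) atTop (𝓝 0) := by
  obtain ⟨C, hC⟩ := h
  have he : Tendsto (fun t : ℝ => C * Real.exp (-t)) atTop (𝓝 0) := by
    have h1 := Real.tendsto_exp_neg_atTop_nhds_zero.const_mul C
    rwa [mul_zero] at h1
  have hte : Tendsto (fun t : ℝ => C * (t ^ 1 * Real.exp (-t))) atTop (𝓝 0) := by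
    have h1 := (Real.tendsto_pow_mul_exp_neg_atTop_nhds_zero 1).const_mul C
    rwa [mul_zero] at h1
  have hp : Tendsto p atTop (𝓝 0) := by
    refine squeeze_zero_norm' (eventually_atTop.2 ⟨2, fun t ht => ?_⟩) he
    rw [Real.norm_eq_abs]
    exact (hC t ht).2
  have hq : Tendsto q atTop (𝓝 0) := by
    refine squeeze_zero_norm' (eventually_atTop.2 ⟨2, fun t ht => ?_⟩) he
    rw [Real.norm_eq_abs]
    exact (hC t ht).1
  have htq : Tendsto (fun t => t * q t) atTop (𝓝 0) := by
    refine squeeze_zero_norm' (eventually_atTop.2 ⟨2, fun t ht => ?_⟩) hte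
    rw [Real.norm_eq_abs, abs_mul, abs_of_nonneg (by linarith : (0 : ℝ) ≤ t), pow_one]
    have h1 := mul_le_mul_of_nonneg_left (hC t ht).1 (by linarith : (0 : ℝ) ≤ t)
    linarith [h1, mul_left_comm t C (Real.exp (-t))]
  have h1 := ((hp.pow 2).sub (htq.mul hq)).sub (hq.pow 4)
  have e0 : (0 : ℝ) ^ 2 - 0 * 0 - 0 ^ 4 = 0 := by norm_num
  rw [e0] at h1
  refine h1.congr fun t => ?_
  unfold En
  ring

/-- The right derivative of a function with a right minimum zero is nonnegative. -/
theorem sml_right (g : ℝ → ℝ) (c t : ℝ) (h : HasDerivAt g c t) (h0 : g t = 0)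
    (hg : ∀ s, t < s → 0 ≤ g s) : 0 ≤ c := by
  have h1 : Tendsto (slope g t) (𝓝[>] t) (𝓝 c) :=
    (hasDerivAt_iff_tendsto_slope.1 h).mono_left (nhdsWithin_mono t fun s hs => ne_of_gt hs)
  refine ge_of_tendsto h1 ?_
  filter_upwards [self_mem_nhdsWithin] with s hs
  have hs' : t < s := hs
  rw [slope_def_field, h0, sub_zero]
  exact div_nonneg (hg s hs') (by linarith)

theorem t_SML (hWR : S_WR) (hTRI : S_TRI) : S_SML := by
  intro H P q p hH hq dH dq Hpos Pneg qpos h0
  have cH : Continuous H := continuous_iff_continuousAt.2 fun t => (hH t).1.continuousAt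
  have cq : Continuous q := continuous_iff_continuousAt.2 fun t => (hq t).1.continuousAt
  -- the right half-line
  have hright : ∀ t, 0 ≤ t → q t < H t := by
    intro t ht
    by_contra hcon
    rw [not_lt] at hcon
    have hiv : (0 : ℝ) ∈ (fun s => q s - H s) '' Icc 0 t := by
      refine intermediate_value_Icc ht (cq.sub cH).continuousOn ⟨?_, ?_⟩
      · show q 0 - H 0 ≤ 0
        linarith
      · show 0 ≤ q t - H t
        linarith
    obtain ⟨t1, ht1, h1⟩ := hiv
    have h1' : q t1 = H t1 := by
      have : q t1 - H t1 = 0 := h1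
      linarith
    have h2 := hTRI H P q p hH hq dH dq t1
      (fun s hs => ⟨Hpos s, qpos s (ht1.1.trans hs)⟩) h1'
    rw [h2] at h0
    exact lt_irrefl _ h0
  -- the difference of the energies
  have hD : ∀ t, HasDerivAt (fun t => En H P t - En q p t) (q t ^ 2 - H t ^ 2) t := by
    intro t
    refine HasDerivAt.congr_deriv ((sml_en_deriv H P hH t).fun_sub (sml_en_deriv q p hq t)) ?_
    ring
  have hD0 : Tendsto (fun t => En H P t - En q p t) atTop (𝓝 0) := by
    have h1 := (sml_en_tendsto H P dH).sub (sml_en_tendsto q p dq)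
    rwa [sub_zero] at h1
  have key : ∀ t1, (∀ t, t1 < t → |q t| < H t) → En q p t1 < En H P t1 := by
    intro t1 h1
    have hanti : StrictAntiOn (fun t => En H P t - En q p t) (Ici t1) := by
      refine strictAntiOn_of_deriv_neg (convex_Ici t1)
        (fun t _ => (hD t).continuousAt.continuousWithinAt) fun t ht => ?_
      rw [interior_Ici] at ht
      rw [(hD t).deriv]
      have h2 := h1 t ht
      have h3 : q t ^ 2 < H t ^ 2 := by
        rw [← sq_abs (q t)]
        exact pow_lt_pow_left₀ h2 (abs_nonneg _) two_ne_zero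
      linarith
    have h2 : En H P (t1 + 1) - En q p (t1 + 1) < En H P t1 - En q p t1 :=
      hanti (mem_Ici.2 le_rfl) (mem_Ici.2 (by linarith)) (by linarith)
    have h3 : 0 ≤ En H P (t1 + 1) - En q p (t1 + 1) := by
      refine le_of_tendsto hD0 (eventually_atTop.2 ⟨t1 + 1, fun s hs => ?_⟩)
      exact hanti.antitoneOn (mem_Ici.2 (by linarith)) (mem_Ici.2 (by linarith)) hs
    linarith
  -- the absolute value
  have habs : ∀ t, |q t| < H t := by
    intro t'
    by_contra hcon
    rw [not_lt] at hcon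
    have habs0 : ∀ t, 0 ≤ t → |q t| < H t := fun t ht => by
      rw [abs_of_pos (qpos t ht)]
      exact hright t ht
    have ht' : t' < 0 := by
      by_contra h1
      rw [not_lt] at h1
      exact absurd (habs0 t' h1) (not_lt.2 hcon)
    have hcomp : IsCompact (Icc t' 0 ∩ {t | H t ≤ |q t|}) :=
      isCompact_Icc.inter_right (isClosed_le cH cq.abs)
    obtain ⟨t1, ht1, hmax⟩ := hcomp.exists_isGreatest ⟨t', ⟨le_rfl, ht'.le⟩, hcon⟩
    have h1 : H t1 ≤ |q t1| := ht1.2
    have h2 : ∀ t, t1 < t → |q t| < H t := by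
      intro t ht
      by_contra h3
      rw [not_lt] at h3
      by_cases h4 : t ≤ 0
      · exact absurd (hmax ⟨⟨ht1.1.1.trans ht.le, h4⟩, h3⟩) (not_le.2 ht)
      · exact absurd (habs0 t (not_le.1 h4).le) (not_lt.2 h3)
    have h3 : |q t1| ≤ H t1 := by
      have h4 : Tendsto (fun t => |q t|) (𝓝[>] t1) (𝓝 |q t1|) :=
        (cq.abs.tendsto t1).mono_left nhdsWithin_le_nhds
      have h5 : Tendsto H (𝓝[>] t1) (𝓝 (H t1)) := (cH.tendsto t1).mono_left nhdsWithin_le_nhds
      refine le_of_tendsto_of_tendsto h4 h5 ?_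
      filter_upwards [self_mem_nhdsWithin] with s hs
      exact (h2 s hs).le
    have h4 : |q t1| = H t1 := le_antisymm h3 h1
    have h5 := key t1 h2
    have h6 : q t1 ^ 2 = H t1 ^ 2 := by rw [← sq_abs, h4]
    have h7 : p t1 ^ 2 < P t1 ^ 2 := by
      unfold En at h5
      have h8 : q t1 ^ 4 = H t1 ^ 4 := by
        have : q t1 ^ 4 = (q t1 ^ 2) ^ 2 := by ring
        rw [this, h6]
        ring
      rw [h8, h6] at h5
      linarith
    have hP := Pneg t1
    rcases abs_choice (q t1) with h8 | h8
    · have h9 : 0 ≤ P t1 - p t1 := by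
        refine sml_right (fun t => H t - q t) _ t1 ((hH t1).1.fun_sub (hq t1).1) ?_ ?_
        · show H t1 - q t1 = 0
          rw [← h4, h8, sub_self]
        · intro s hs
          show 0 ≤ H s - q s
          have := h2 s hs
          have := le_abs_self (q s)
          linarith
      nlinarith
    · have h9 : 0 ≤ P t1 + p t1 := by
        refine sml_right (fun t => H t + q t) _ t1 ((hH t1).1.fun_add (hq t1).1) ?_ ?_
        · show H t1 + q t1 = 0
          rw [← h4, h8]
          ring
        · intro s hs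
          show 0 ≤ H s + q s
          have := h2 s hs
          have := neg_abs_le (q s)
          linarith
      nlinarith
  exact fun t => ⟨habs t, key t fun s _ => habs s⟩

end Pool.Agent.TWP.E
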