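import Pool.Agent.TWP.ESDT
import Pool.Agent.TWP.E_BVP
import Pool.Agent.TWP.ETM
import Pool.Agent.TWP.ETP
import Pool.Agent.TWP.EBB
import Pool.Agent.TWP.EBAND
import Pool.Agent.TWP.ELIM
import Pool.Agent.TWP.EUNQ
import Pool.Agent.TWP.EPOS
import Pool.Agent.TWP.EMON
import Pool.Agent.TWP.EDEC
import Pool.Agent.TWP.ESGN
import Pool.Agent.TWP.EWR
import Pool.Agent.TWP.ETRI
import Pool.Agent.TWP.EBIG
import Pool.Agent.TWP.MSml
import Pool.Agent.TWP.ENEG
import Pool.Agent.TWP.EUNI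
import Pool.Agent.TWP.EUPB

/-
TWP, block E: assembly. Existence and uniqueness of the Hastings-McLeod solution
and its elementary bounds.
-/

namespace Pool.Agent.TWP.E

open Filter Topology Set

theorem bAND : S_BAND := t_BAND t_BVP t_SDT t_TM t_TP t_BB
theorem pOS : S_POS := t_POS t_UNQ t_BB
theorem mON : S_MON := t_MON pOS t_SDT t_BB
theorem lIM : S_LIM := t_LIM bAND t_BB
theorem sGN : S_SGN := t_SGN t_UNQ t_DEC
theorem tRI : S_TRI := t_TRI t_WR t_UNQ
theorem bIG : S_BIG := t_BIG t_WR tRI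
theorem sML : S_SML := t_SML t_WR tRI
theorem nEG : S_NEG := t_NEG t_DEC t_BB
theorem uNI : S_UNI := t_UNI sGN tRI bIG sML nEG t_BB
theorem uPB : S_UPB := t_UPB t_BB t_SDT

theorem t_EX : S_EX := by
  obtain ⟨q, p, h, hb⟩ := lIM
  exact ⟨q, p, h, hb, pOS q p h hb, mON q p h hb⟩

/-- the constructed solution satisfies the Hastings-McLeod conditions -/
theorem good_hm {H P : ℝ → ℝ} (h : Good H P) : HM H P := by
  obtain ⟨h2, hb, hp, hn⟩ := h
  obtain ⟨-, -, -, -, -, -, -, -, hT, hL, hU⟩ := t_BB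
  refine ⟨h2, ?_, ?_⟩
  · exact tendsto_of_tendsto_of_tendsto_of_le_of_le tendsto_const_nhds hT
      (fun t => (hp t).le) (fun t => (hb t).2)
  · refine tendsto_of_tendsto_of_tendsto_of_le_of_le hL hU ?_ ?_
    · intro t
      exact div_le_div_of_nonneg_right (hb t).1 (Real.sqrt_nonneg _)
    · intro t
      exact div_le_div_of_nonneg_right (hb t).2 (Real.sqrt_nonneg _)

/-- every Hastings-McLeod pair is good -/
theorem hm_good {q p : ℝ → ℝ} (h : HM q p) : Good q p := by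
  obtain ⟨H, P, hG⟩ := t_EX
  have e : q = H := uNI H P q p hG h
  subst e
  have e2 : p = P := by
    funext t
    exact ((h.1 t).1).unique ((hG.1 t).1)
  subst e2
  exact hG

/-- existence and uniqueness -/
theorem exists_unique_hm :
    ∃ H P : ℝ → ℝ, HM H P ∧ ∀ q p : ℝ → ℝ, HM q p → q = H := by
  obtain ⟨H, P, hG⟩ := t_EX
  exact ⟨H, P, good_hm hG, fun q p h => uNI H P q p hG h⟩

/-- decay of a Hastings-McLeod pair at +oo -/
theorem hm_dec {q p : ℝ → ℝ} (h : HM q p) : Dec q p := by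
  have hG := hm_good h
  exact (sGN q p h.1 h.2.1 ⟨0, (hG.2.2.1 0).ne'⟩).1

end Pool.Agent.TWP.E
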