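import Mathlib

/-!
TWP, blocks H and E (architect helper31): the Hastings-McLeod solution, its existence, uniqueness,
and rigorous enclosures.

Everything here is elementary real analysis.  `HM q q1` says that `q` is the Hastings-McLeod
solution of the second Painleve equation and `q1` its derivative.
-/

set_option autoImplicit false

namespace TWP.H

open Filter Topology

/-- `q` is the Hastings-McLeod solution of Painleve II, `q1` its derivative. -/
structure HM (q q1 : ℝ → ℝ) : Prop where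
  pos : ∀ t, 0 < q t
  d1 : ∀ t, HasDerivAt q (q1 t) t
  d2 : ∀ t, HasDerivAt q1 (t * q t + 2 * q t ^ 3) t
  top : Tendsto q atTop (𝓝 0)
  bot : Tendsto (fun t => q t / Real.sqrt (-t / 2)) atBot (𝓝 1)

/-- `P` is a supersolution at `t0` (in the contact sense): a function `φ` with two derivatives
touches `P` from above at `t0` and satisfies `φ'' ≤ t φ + 2 φ ^ 3` there. -/
def SupAt (P : ℝ → ℝ) (t0 : ℝ) : Prop :=
  ∃ (φ φ1 : ℝ → ℝ) (c : ℝ), (∀ᶠ t in 𝓝 t0, HasDerivAt φ (φ1 t) t) ∧ HasDerivAt φ1 c t0 ∧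
    φ t0 = P t0 ∧ (∀ᶠ t in 𝓝 t0, P t ≤ φ t) ∧ c ≤ t0 * φ t0 + 2 * φ t0 ^ 3

/-- `P` is a subsolution at `t0` (in the contact sense). -/
def SubAt (P : ℝ → ℝ) (t0 : ℝ) : Prop :=
  ∃ (φ φ1 : ℝ → ℝ) (c : ℝ), (∀ᶠ t in 𝓝 t0, HasDerivAt φ (φ1 t) t) ∧ HasDerivAt φ1 c t0 ∧
    φ t0 = P t0 ∧ (∀ᶠ t in 𝓝 t0, φ t ≤ P t) ∧ t0 * φ t0 + 2 * φ t0 ^ 3 ≤ c

/-- The explicit global supersolution. -/
noncomputable def PU (t : ℝ) : ℝ := Real.sqrt (Real.sqrt (t ^ 2 + 1) - t) / 2

/-- The derivative of `PU`. -/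
noncomputable def PU1 (t : ℝ) : ℝ := -PU t / (2 * Real.sqrt (t ^ 2 + 1))

/-- The second derivative of `PU`. -/
noncomputable def PU2 (t : ℝ) : ℝ :=
  PU t * (1 / (4 * (t ^ 2 + 1)) + t / (2 * (Real.sqrt (t ^ 2 + 1)) ^ 3))

/-- The small positive subsolution. -/
noncomputable def PLa (t : ℝ) : ℝ := Real.exp (-(t + 4) ^ 2) / 2

/-- The left piece of the subsolution (`t ≤ -121/50`). -/
noncomputable def PLb (t : ℝ) : ℝ := Real.sqrt (-t / 2) * (1 + 4 / t ^ 3)

/-- The linear piece of the subsolution. -/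
noncomputable def PLc (t : ℝ) : ℝ :=
  11 / 10 * (1 - 4 * (50 / 121) ^ 3) - 27 / 50 * (t + 121 / 50)

/-- The explicit global positive subsolution. -/
noncomputable def PL (t : ℝ) : ℝ := max (PLa t) (if t ≤ -(121 / 50) then PLb t else PLc t)

end TWP.H
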