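import Pool.Agent.TWP.EFin
import Pool.Agent.TWP.StF
import Pool.Agent.TWP.HDefs

/-
TWP, block E: consequences for every Hastings-McLeod pair in the language of the other blocks.
-/

namespace Pool.Agent.TWP.E

open Filter Topology Set

/-- the energy has derivative `-q^2` -/
theorem en_deriv {q p : ℝ → ℝ} (h : P2 q p) (t : ℝ) : HasDerivAt (En q p) (-(q t) ^ 2) t := by
  obtain ⟨h1, h2⟩ := h t
  have a := ((h2.pow 2).sub ((hasDerivAt_id t).mul (h1.pow 2))).sub (h1.pow 4)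
  have e : (((p ^ 2 - id * q ^ 2) - q ^ 4) : ℝ → ℝ) = En q p := by
    funext s
    simp [En]
  rw [e] at a
  refine a.congr_deriv ?_
  simp
  ring

/-- `t^k exp(-t)`-type limits of a decaying pair -/
theorem dec_tendsto {q p : ℝ → ℝ} (h : Dec q p) :
    Tendsto q atTop (𝓝 0) ∧ Tendsto p atTop (𝓝 0) ∧ Tendsto (fun t => t * q t ^ 2) atTop (𝓝 0) := by
  obtain ⟨C, hC⟩ := h
  have he : Tendsto (fun t : ℝ => C * Real.exp (-t)) atTop (𝓝 0) := by
    simpa using (Real.tendsto_exp_neg_atTop_nhds_zero).const_mul C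
  have hq : Tendsto q atTop (𝓝 0) := by
    refine squeeze_zero_norm' ?_ he
    filter_upwards [eventually_ge_atTop (2 : ℝ)] with t ht
    simpa [Real.norm_eq_abs] using (hC t ht).1
  have hp : Tendsto p atTop (𝓝 0) := by
    refine squeeze_zero_norm' ?_ he
    filter_upwards [eventually_ge_atTop (2 : ℝ)] with t ht
    simpa [Real.norm_eq_abs] using (hC t ht).2
  refine ⟨hq, hp, ?_⟩
  have ht1 : Tendsto (fun t : ℝ => t * Real.exp (-t)) atTop (𝓝 0) := by
    simpa using Real.tendsto_pow_mul_exp_neg_atTop_nhds_zero 1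
  have hb : Tendsto (fun t : ℝ => C * (t * Real.exp (-t)) * (C * Real.exp (-t))) atTop (𝓝 0) := by
    simpa using (ht1.const_mul C).mul he
  refine squeeze_zero_norm' ?_ hb
  filter_upwards [eventually_ge_atTop (2 : ℝ)] with t ht
  have h1 := (hC t ht).1
  have h0 : 0 ≤ C * Real.exp (-t) := (abs_nonneg _).trans h1
  have h2 : |q t| * |q t| ≤ (C * Real.exp (-t)) * (C * Real.exp (-t)) :=
    mul_le_mul h1 h1 (abs_nonneg _) h0
  rw [Real.norm_eq_abs, abs_mul, abs_of_nonneg (by linarith : (0 : ℝ) ≤ t), abs_pow, sq]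
  calc t * (|q t| * |q t|) ≤ t * ((C * Real.exp (-t)) * (C * Real.exp (-t))) :=
        mul_le_mul_of_nonneg_left h2 (by linarith)
    _ = C * (t * Real.exp (-t)) * (C * Real.exp (-t)) := by ring

/-- the energy tends to 0 at +oo -/
theorem en_tendsto {q p : ℝ → ℝ} (h : Dec q p) : Tendsto (En q p) atTop (𝓝 0) := by
  obtain ⟨hq, hp, hq2⟩ := dec_tendsto h
  have h := ((hp.pow 2).sub hq2).sub (hq.pow 4)
  have e : (fun t => p t ^ 2 - t * q t ^ 2 - q t ^ 4) = En q p := by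
    funext t
    rfl
  rw [← e]
  simpa using h

/-- the energy of a Hastings-McLeod pair is positive -/
theorem hm_en_pos {q p : ℝ → ℝ} (h : HM q p) (t : ℝ) : 0 < En q p t := by
  have hG := hm_good h
  have hanti : StrictAnti (En q p) := by
    refine strictAnti_of_deriv_neg fun s => ?_
    rw [(en_deriv h.1 s).deriv]
    have := hG.2.2.1 s
    nlinarith [sq_nonneg (q s), pow_pos this 2]
  have hlim := en_tendsto (hm_dec h)
  have h1 : En q p (t + 1) < En q p t := hanti (by linarith)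
  have h2 : 0 ≤ En q p (t + 1) := hanti.antitone.le_of_tendsto hlim (t + 1)
  linarith

/-- `q`, `l = q'/q` satisfy the system of the engine -/
theorem hm_ql {q p : ℝ → ℝ} (h : HM q p) : _root_.TWP.QL q (fun t => p t / q t) := by
  have hG := hm_good h
  refine ⟨fun t => ?_, fun t => ?_, fun t => hG.2.2.1 t⟩
  · have hq : q t ≠ 0 := (hG.2.2.1 t).ne'
    have h1 := (h.1 t).1
    refine h1.congr_deriv ?_
    field_simp
  · have hq : q t ≠ 0 := (hG.2.2.1 t).ne'
    have h1 := (h.1 t).2.div (h.1 t).1 hq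
    refine h1.congr_deriv ?_
    field_simp

/-- `l < 0` -/
theorem hm_l_neg {q p : ℝ → ℝ} (h : HM q p) (t : ℝ) : p t / q t < 0 :=
  div_neg_of_neg_of_pos ((hm_good h).2.2.2 t) ((hm_good h).2.2.1 t)

/-- `q^2 g` is the energy -/
theorem hm_g_eq {q p : ℝ → ℝ} (h : HM q p) (t : ℝ) :
    q t ^ 2 * _root_.TWP.gf q (fun t => p t / q t) t = En q p t := by
  have hq : q t ≠ 0 := ((hm_good h).2.2.1 t).ne'
  unfold _root_.TWP.gf En
  field_simp

/-- `g > 0` -/
theorem hm_g_pos {q p : ℝ → ℝ} (h : HM q p) (t : ℝ) :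
    0 < _root_.TWP.gf q (fun t => p t / q t) t := by
  have h1 := hm_en_pos h t
  rw [← hm_g_eq h t] at h1
  have hq : 0 < q t ^ 2 := pow_pos ((hm_good h).2.2.1 t) 2
  exact (mul_pos_iff_of_pos_left hq).1 h1

/-- helper31's structure -/
theorem hm_H {q p : ℝ → ℝ} (h : HM q p) : _root_.TWP.H.HM q p :=
  ⟨(hm_good h).2.2.1, fun t => (h.1 t).1, fun t => (h.1 t).2, h.2.1, h.2.2⟩

theorem H_hm {q p : ℝ → ℝ} (h : _root_.TWP.H.HM q p) : HM q p :=
  ⟨fun t => ⟨h.d1 t, h.d2 t⟩, h.top, h.bot⟩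

theorem exists_H : ∃ q p : ℝ → ℝ, _root_.TWP.H.HM q p := by
  obtain ⟨H, P, h, -⟩ := exists_unique_hm
  exact ⟨H, P, hm_H h⟩

end Pool.Agent.TWP.E
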