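import Mathlib
import Pool.Agent.TWP.ESt

/-!
SDT, the second derivative test at a local minimum (helper61).
-/

set_option autoImplicit false

namespace Pool.Agent.TWP.E

open Filter Topology Set

/-- **SDT**. -/
theorem t_SDT : S_SDT := by
  intro f g c t0 hf hg hmin
  have hg0 : g t0 = 0 := hmin.hasDerivAt_eq_zero hf.self_of_nhds
  refine ⟨hg0, ?_⟩
  by_contra hc
  rw [not_le] at hc
  have h1 : ∀ᶠ t in 𝓝[≠] t0, slope g t0 t < 0 :=
    (hasDerivAt_iff_tendsto_slope.1 hg).eventually_lt_const hc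
  rw [eventually_nhdsWithin_iff] at h1
  obtain ⟨δ, hδ, h2⟩ := Metric.eventually_nhds_iff.1 ((hf.and h1).and hmin)
  have key : ∀ t, t0 ≤ t → t < t0 + δ →
      HasDerivAt f (g t) t ∧ (t0 < t → g t < 0) ∧ f t0 ≤ f t := by
    intro t ht1 ht2
    obtain ⟨⟨h3, h4⟩, h5⟩ := h2 (show dist t t0 < δ by
      rw [Real.dist_eq, abs_lt]
      constructor <;> linarith)
    refine ⟨h3, fun ht => ?_, h5⟩
    have h6 := h4 (show t ∈ ({t0}ᶜ : Set ℝ) from ne_of_gt ht)
    rw [slope_def_field, hg0, sub_zero, div_neg_iff] at h6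
    rcases h6 with ⟨-, h⟩ | ⟨h, -⟩
    · linarith
    · exact h
  obtain ⟨x, hx, hx2⟩ := exists_hasDerivAt_eq_slope f g (show t0 < t0 + δ / 2 by linarith)
    (fun t ht => ((key t ht.1 (by linarith [ht.2])).1.continuousAt).continuousWithinAt)
    (fun t ht => (key t ht.1.le (by linarith [ht.2])).1)
  have h3 := (key x hx.1.le (by linarith [hx.2])).2.1 hx.1
  have h4 := (key (t0 + δ / 2) (by linarith) (by linarith)).2.2
  rw [hx2, div_neg_iff] at h3
  rcases h3 with ⟨-, h⟩ | ⟨h, -⟩ <;> linarith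

end Pool.Agent.TWP.E
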