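import Pool.Agent.TWP.ESt

/-
TWP, module E_UNI: every Hastings-McLeod pair agrees with the constructed solution.
-/

namespace Pool.Agent.TWP.E

open Filter Topology Set

theorem uni_neg_P2 {q p : ℝ → ℝ} (h : P2 q p) : P2 (fun t => -q t) (fun t => -p t) := by
  intro t
  refine ⟨(h t).1.neg, ?_⟩
  have e : t * (-q t) + 2 * (-q t) ^ 3 = -(t * q t + 2 * q t ^ 3) := by ring
  show HasDerivAt (fun t => -p t) (t * (-q t) + 2 * (-q t) ^ 3) t
  rw [e]
  exact (h t).2.neg

theorem uni_neg_Dec {q p : ℝ → ℝ} (h : Dec q p) : Dec (fun t => -q t) (fun t => -p t) := by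
  obtain ⟨C, hC⟩ := h
  refine ⟨C, fun t ht => ?_⟩
  simp only [abs_neg]
  exact hC t ht

theorem uni_left_pos {q : ℝ → ℝ}
    (h : Tendsto (fun t => q t / Real.sqrt (-t / 2)) atBot (𝓝 1)) :
    ∀ᶠ t in atBot, 0 < q t := by
  have h1 : ∀ᶠ t in atBot, (0 : ℝ) < q t / Real.sqrt (-t / 2) :=
    h.eventually (lt_mem_nhds one_pos)
  filter_upwards [h1, eventually_lt_atBot (0 : ℝ)] with t ht1 ht2
  have hs : 0 < Real.sqrt (-t / 2) := Real.sqrt_pos.mpr (by linarith)
  exact (div_pos_iff_of_pos_right hs).mp ht1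

theorem uni_H0 (hBB : S_BB) {H P : ℝ → ℝ} (hG : Good H P) :
    Tendsto H atTop (𝓝 0) ∧
      Tendsto (fun t => H t / Real.sqrt (-t / 2)) atBot (𝓝 1) := by
  obtain ⟨-, hband, hpos, -⟩ := hG
  obtain ⟨-, -, -, -, -, -, -, -, h0, hm, hp⟩ := hBB
  refine ⟨squeeze_zero (fun t => (hpos t).le) (fun t => (hband t).2) h0, ?_⟩
  refine tendsto_of_tendsto_of_tendsto_of_le_of_le hm hp (fun t => ?_) (fun t => ?_)
  · exact div_le_div_of_nonneg_right (hband t).1 (Real.sqrt_nonneg _)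
  · exact div_le_div_of_nonneg_right (hband t).2 (Real.sqrt_nonneg _)

theorem uni_big {H P q p : ℝ → ℝ} (hH : P2 H P) (hq : P2 q p) (hpos : ∀ t, 0 < H t)
    (hb : ∀ t, H t < q t ∧ p t * H t - q t * P t < 0)
    (hHl : Tendsto (fun t => H t / Real.sqrt (-t / 2)) atBot (𝓝 1))
    (hql : Tendsto (fun t => q t / Real.sqrt (-t / 2)) atBot (𝓝 1)) : False := by
  have hd : ∀ t, HasDerivAt (fun t => q t / H t) ((p t * H t - q t * P t) / H t ^ 2) t :=
    fun t => (hq t).1.div (hH t).1 (hpos t).ne'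
  have hanti : StrictAnti (fun t => q t / H t) :=
    strictAnti_of_deriv_neg (fun t => by
      rw [(hd t).deriv]
      exact div_neg_of_neg_of_pos (hb t).2 (pow_pos (hpos t) 2))
  have hlim : Tendsto (fun t => q t / H t) atBot (𝓝 1) := by
    have h := hql.div hHl one_ne_zero
    rw [div_one] at h
    refine h.congr' ?_
    filter_upwards [eventually_lt_atBot (0 : ℝ)] with t ht
    have hs : 0 < Real.sqrt (-t / 2) := Real.sqrt_pos.mpr (by linarith)
    exact div_div_div_cancel_right₀ hs.ne' _ _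
  have h0 : q 0 / H 0 ≤ 1 := by
    refine ge_of_tendsto hlim ?_
    filter_upwards [eventually_le_atBot (0 : ℝ)] with t ht
    exact hanti.antitone ht
  have h1 : 1 < q 0 / H 0 := (one_lt_div (hpos 0)).mpr (hb 0).1
  linarith

theorem t_UNI (hSGN : S_SGN) (hTRI : S_TRI) (hBIG : S_BIG) (hSML : S_SML) (hNEG : S_NEG)
    (hBB : S_BB) : S_UNI := by
  intro H P q p hG hM
  have hHlim := uni_H0 hBB hG
  obtain ⟨hH2, -, hHpos, hPneg⟩ := id hG
  obtain ⟨hq2, hq0, hql⟩ := id hM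
  have hqpos := uni_left_pos hql
  have hDH : Dec H P := (hSGN H P hH2 hHlim.1 ⟨0, (hHpos 0).ne'⟩).1
  obtain ⟨t0, ht0⟩ := hqpos.exists
  obtain ⟨hDq, hsgn⟩ := hSGN q p hq2 hq0 ⟨t0, ht0.ne'⟩
  rcases hsgn with hs | hs
  · rcases lt_trichotomy (q 0) (H 0) with h | h | h
    · have hS := hSML H P q p hH2 hq2 hDH hDq hHpos hPneg hs h
      exact (hNEG H P q p hG hM ⟨fun t => (hS t).1, fun t => (hS t).2⟩).elim
    · exact hTRI H P q p hH2 hq2 hDH hDq 0 (fun t ht => ⟨hHpos t, hs t ht⟩) h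
    · exact (uni_big hH2 hq2 hHpos (hBIG H P q p hH2 hq2 hDH hDq hHpos hs h) hHlim.2 hql).elim
  · exfalso
    have hq2' := uni_neg_P2 hq2
    have hDq' := uni_neg_Dec hDq
    have hs' : ∀ t : ℝ, 0 ≤ t → 0 < (fun t => -q t) t := fun t ht => by
      have := hs t ht
      simp only
      linarith
    rcases lt_trichotomy ((fun t => -q t) 0) (H 0) with h | h | h
    · have hS := hSML H P _ _ hH2 hq2' hDH hDq' hHpos hPneg hs' h
      refine hNEG H P q p hG hM ⟨fun t => ?_, fun t => ?_⟩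
      · have := (hS t).1
        simpa only [abs_neg] using this
      · have := (hS t).2
        simp only [En] at this ⊢
        nlinarith [this]
    · have hT := hTRI H P _ _ hH2 hq2' hDH hDq' 0 (fun t ht => ⟨hHpos t, hs' t ht⟩) h
      have h1 : -q t0 = H t0 := congrFun hT t0
      have h2 := hHpos t0
      linarith
    · have h1 := (hBIG H P _ _ hH2 hq2' hDH hDq' hHpos hs' h t0).1
      have h2 := hHpos t0
      linarith

end Pool.Agent.TWP.E
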