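import Mathlib.Data.Nat.Basic
import Mathlib.Data.Int.Basic

/-! TWP engine: computable part (fixed point polynomials, scale 2^160).
A polynomial is a `List ℤ` `[a_0, a_1, …]`, meaning `∑ a_n ξ^n / 2^160`. -/

namespace TWP.K

abbrev PL := List ℤ

/-- the scale -/
def ONE : ℕ := 2 ^ 160

def addL : PL → PL → PL
  | [], ys => ys
  | x :: xs, [] => x :: xs
  | x :: xs, y :: ys => (x + y) :: addL xs ys

def smulL (k : ℤ) : PL → PL
  | [] => []
  | x :: xs => (k * x) :: smulL k xs

def subL (P Q : PL) : PL := addL P (smulL (-1) Q)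

/-- exact convolution (specification of `mulL`) -/
def conv : PL → PL → PL
  | [], _ => []
  | x :: xs, ys => addL (smulL x ys) (0 :: conv xs ys)

def sumAbs : PL → ℕ
  | [] => 0
  | x :: xs => x.natAbs + sumAbs xs

def maxAbs : PL → ℕ
  | [] => 0
  | x :: xs => max x.natAbs (maxAbs xs)

/-- evaluation at `2^512` -/
def pack : PL → ℤ
  | [] => 0
  | x :: xs => x + 2 ^ 512 * pack xs

/-- balanced digits in base `2^512` -/
def unpack : ℕ → ℤ → PL
  | 0, _ => []
  | n + 1, Z => ((Z + 2 ^ 511) % 2 ^ 512 - 2 ^ 511) :: unpack n ((Z + 2 ^ 511) / 2 ^ 512)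

/-- product of two polynomials through one big integer product -/
def mulL (P Q : PL) : PL := unpack (P.length + Q.length) (pack P * pack Q)

/-- no overflow in `mulL` -/
def okMul (P Q : PL) : Bool := Nat.blt (sumAbs P * maxAbs Q) (2 ^ 511)

/-- upper bound of `∑ |a_n| (w/4096)^n` -/
def nL (w : ℕ) : PL → ℕ
  | [] => 0
  | a :: P => a.natAbs + (nL w P * w / 4096 + 1)

/-- division of the first `N` coefficients by `2^160` -/
def rndL : ℕ → PL → PL
  | 0, _ => []
  | _ + 1, [] => []
  | N + 1, a :: P => (a / 2 ^ 160) :: rndL N P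

/-- multiplication of all coefficients by `z / 2^160`, rounded -/
def scL (z : ℤ) : PL → PL
  | [] => []
  | a :: P => (a * z / 2 ^ 160) :: scL z P

def shiftL : ℕ → PL → PL
  | 0, P => P
  | n + 1, P => 0 :: shiftL n P

/-- derivative, ordinary (`tail = false`: `D ξ = 1`) -/
def derMAux : ℤ → PL → PL
  | _, [] => []
  | n, a :: P => (n * a) :: derMAux (n + 1) P

def derM : PL → PL
  | [] => []
  | _ :: P => derMAux 1 P

/-- derivative for `D ξ = - ξ` -/
def derTAux : ℤ → PL → PL
  | _, [] => []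
  | n, a :: P => (-n * a) :: derTAux (n + 1) P

def derT (P : PL) : PL := derTAux 0 P

def der (tail : Bool) (P : PL) : PL := if tail then derT P else derM P

/-- a polynomial with an error bound -/
abbrev AP := PL × ℕ

def addA (a b : AP) : AP := (addL a.1 b.1, a.2 + b.2)

/-- multiplication by the rational `p / 2^160` (`p` an integer) -/
def sclA (p : ℤ) (a : AP) : AP := (scL p a.1, p.natAbs * a.2 / ONE + 1 + a.1.length)

/-- multiplication by an integer (exact) -/
def intA (p : ℤ) (a : AP) : AP := (smulL p a.1, p.natAbs * a.2)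

def derA (tail : Bool) (c : ℕ) (a : AP) : AP := (der tail a.1, a.2 * c / 1024 + 1)

/-- product at weight `w`, `N` coefficients kept -/
def mulA (w N : ℕ) (a b : AP) : Option AP :=
  if okMul a.1 b.1 then
    some (rndL N (mulL a.1 b.1),
      nL w (subL (mulL a.1 b.1) (smulL (2 ^ 160) (rndL N (mulL a.1 b.1)))) / ONE + 1 +
        (nL w a.1 * b.2 + nL w b.1 * a.2 + a.2 * b.2) / ONE + 1)
  else none

/-- Newton iteration for the inverse (no claim about the result) -/
def newt : ℕ → ℕ → PL → PL → PL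
  | 0, _, _, v => v
  | k + 1, n, a, v =>
    newt k (2 * n) a (rndL (2 * n) (mulL v (subL [2 ^ 161] (rndL (2 * n) (mulL (a.take (2 * n)) v)))))

def invL (N : ℕ) (a : PL) : PL :=
  (newt 6 1 a [2 ^ 320 / a.headD 1]).take N

/-- inverse: returns `(v, ni, e)`: `‖S⁻¹‖ ≤ ni`, `‖S⁻¹ - v‖ ≤ e` -/
def invA (w N : ℕ) (a : AP) : Option (AP × ℕ) :=
  let v := invL N a.1
  if okMul v a.1 then
    let d := nL w (subL [2 ^ 320] (mulL v a.1)) / ONE + 1 + nL w v * a.2 / ONE + 1
    if Nat.ble (10 * d) (9 * ONE) then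
      let ni := nL w v * ONE / (ONE - d) + 1
      some ((v, ni * d / ONE + 1), ni)
    else none
  else none

/-- one Toda step `2 a - a' + zc ξ^zs (hh + k1 L - k2 D L)`, `L = D a / a` -/
def stepA (tail : Bool) (N w0 w1 c0 c1 : ℕ) (zc : ℤ) (zs : ℕ) (hh k1 k2 : ℤ) (a ap : AP) :
    Option AP :=
  match invA w0 N a with
  | none => none
  | some (v, ni) =>
    let d := der tail a.1
    if okMul d v.1 then
      let l := rndL N (mulL d v.1)
      if okMul l a.1 then
        let el := ni * (nL w1 (subL (smulL (2 ^ 160) d) (mulL l a.1)) / ONE + 1 +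
          (a.2 * c0 / 1024 + 1) + (nL w1 l * a.2 / ONE + 1)) / ONE + 1
        let edl := el * c1 / 1024 + 1
        let T := addL [hh * 2 ^ 160] (subL (smulL k1 l) (smulL k2 (der tail l)))
        let eT := k1.natAbs * el + k2.natAbs * edl
        some (addL (subL (smulL 2 a.1) ap.1) (shiftL zs (scL zc T)),
          2 * a.2 + ap.2 + (zc.natAbs * eT / ONE + 1 + T.length))
      else none
    else none

/-- `c_0 - ∑_(n ≥ 1) |c_n| (h/4096)^n - e > 0` -/
def posA (h : ℕ) (a : AP) : Bool :=
  match a.1 with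
  | [] => false
  | x :: P => decide ((nL h P * h / 4096 + 1 + a.2 : ℤ) < x)

end TWP.K
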