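import Pool.Agent.TWP.Eng3

/-! TWP engine, `β = 4`: the third function `τ = tanh(½ ∫_t^∞ q) / q`,
`τ' = -(1 - q² τ²)/2 - l τ`, and `(log f_4)' = q² B/2 - ((1 + q² τ²)/2 + l τ)/B`,
`B = l² - t - q² - τ`. -/

namespace TWP.K

/-- residual of the third equation: `T' + λ/2 - (λ/2) (Q T)² + λ L T` -/
def resT (w N ln : ℕ) (L Q T : PL) : Option AP :=
  match mulA w N (Q, 0) (T, 0), mulA w N (L, 0) (T, 0) with
  | some X, some Y =>
    match mulA w N X X with
    | some X2 =>
      some (addA (derM T, 0) (addA ([ln * 2 ^ 153], 0)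
        (addA (sclA (-(ln * 2 ^ 153)) X2) (sclA (ln * 2 ^ 154) Y))))
    | none => none
  | _, _ => none

/-- error bound for the jets of `τ` minus the polynomial `T` (`G` = the bound of `baseG`;
`etaT` = error of the value at the centre; `3^k4 ≥ exp (Λ h)`). -/
def baseT (N M h r0 ln etaT k4 : ℕ) (L Q T : PL) (G : ℕ) : Option ℕ :=
  match resT 4096 N ln L Q T with
  | none => none
  | some R =>
    let r3 := nL 4096 R.1 + R.2
    let e := ONE / 1000 + 1
    let qt := nL 4096 Q * nL 4096 T / ONE + 1 + e
    let Lam := max ONE (ln * ((nL 4096 Q + e) * qt / ONE + 1 + nL 4096 L + e) / 64 + 1)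
    let R4 := ln * ((nL 4096 T * G / ONE + 1) * (qt + ONE) / ONE + 1) / 64 + 1 + r3
    let GT := prodUp (Lam * r0 / 4096 + 1) M ((etaT + R4) * 3 ^ k4 + R4)
    if Nat.ble (Lam * h) (k4 * ONE * 4096) && Nat.ble (1000 * G) ONE &&
        Nat.ble (1000 * ((nL 4096 Q + G) * GT + nL 4096 T * G)) (ONE * ONE)
    then some GT else none

/-- `λ (log f_4)'` -/
def m0four (w N : ℕ) (cn : ℤ) (ln : ℕ) (L Q T : AP) : Option AP :=
  match mulA w N L L, mulA w N Q Q, mulA w N T T, mulA w N L T with
  | some L2, some W, some T2, some LT =>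
    let B : AP := addA (addA (addA L2 (intA (-1) W)) ([-cn * 2 ^ 154, -ln * 2 ^ 154], 0))
      (intA (-1) T)
    match invA w N B, mulA w N W B, mulA w N W T2 with
    | some (v, _), some WB, some WT =>
      match mulA w N (addA (sclA (2 ^ 159) (addA WT ([2 ^ 160], 0))) LT) v with
      | some A => some (addA (sclA (ln * 2 ^ 153) WB) (sclA (-(ln * 2 ^ 154)) A))
      | none => none
    | _, _, _ => none
  | _, _, _, _ => none

/-- the check of a middle chart, `β = 4`: `a_1, …, a_(K+1) > 0` on `|u| ≤ h` -/
def checkM4 (K M N h r0 : ℕ) (tab : Tab) (cn : ℤ) (ln eta k etaT k4 : ℕ) (L Q T : PL) : Bool :=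
  match baseG M h r0 cn ln eta k L Q with
  | none => false
  | some G =>
    match baseT N M h r0 ln etaT k4 L Q T G with
    | none => false
    | some GT =>
      match tab with
      | (w0, c0) :: tab' =>
        match m0four w0 N cn ln (L, G) (Q, G) (T, GT) with
        | none => false
        | some m => chain false N h (2 ^ 160) 0 0 0 1 K tab' (intA (-1) (derA false c0 m)) ([], 0)
      | [] => false

/-- the check of a middle chart, `β = 4`, last term negative -/
def checkMN4 (K M N h r0 : ℕ) (tab : Tab) (cn : ℤ) (ln eta k etaT k4 : ℕ) (L Q T : PL) : Bool :=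
  match baseG M h r0 cn ln eta k L Q with
  | none => false
  | some G =>
    match baseT N M h r0 ln etaT k4 L Q T G with
    | none => false
    | some GT =>
      match tab with
      | (w0, c0) :: tab' =>
        match m0four w0 N cn ln (L, G) (Q, G) (T, GT) with
        | none => false
        | some m => chainN false N h (2 ^ 160) 0 0 0 1 K tab' (intA (-1) (derA false c0 m)) ([], 0)
      | [] => false

end TWP.K
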