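import Pool.Agent.TWP.Eng4

/-! TWP engine, `β = 4`: propagation of the value of `ν` (= `τ`) from chart to chart, from right to left. -/

namespace TWP.K

/-- bound for `|2^160 l - L| + |2^160 q - Q|` on `|u| ≤ h/4096`; the residuals are taken at weight `h`. -/
def baseS (h : ℕ) (cn : ℤ) (ln eta k : ℕ) (L Q : PL) : Option ℕ :=
  if okMul L L && okMul Q Q && okMul L Q then
    let resl := subL (smulL (4096 * 2 ^ 160) (derM L))
      (addL (smulL (64 * ln) (subL (smulL 2 (mulL Q Q)) (mulL L L)))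
        [ln * cn * 2 ^ 320, ln * ln * 2 ^ 320])
    let resq := subL (smulL (64 * 2 ^ 160) (derM Q)) (smulL ln (mulL L Q))
    let rho := nL h resl / (4096 * ONE) + 1 + (nL h resq / (64 * ONE) + 1)
    let Lam := max ONE (ln * (4 * nL h Q + 2 * nL h L) / 64 + 1 + (ONE / 1000 + 1))
    let G0 := (2 * eta + rho) * 3 ^ k
    if Nat.ble (Lam * h) (k * ONE * 4096) && Nat.ble (2000 * ln * G0) (64 * ONE)
    then some G0 else none
  else none

/-- `exp (s/16) ≥ expS s / (24 * 16^4)` -/
def expS (s : ℕ) : ℕ := 24 * 16 ^ 4 + 24 * 16 ^ 3 * s + 12 * 16 ^ 2 * s ^ 2 + 4 * 16 * s ^ 3 + s ^ 4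

/-- upper bound of `x * exp (-s/16)` -/
def conS (s x : ℕ) : ℕ := x * (24 * 16 ^ 4) / expS s + 1

/-- bound `RR` for the change of `|2^160 ν - T|` over a half chart (`|u|` from `0` to `h/4096`): going to the left,
the new error is at most `exp (-s/16)` times the old one plus `RR`. -/
def stepV (N h : ℕ) (cn : ℤ) (ln eta k s : ℕ) (L Q T : PL) : Option ℕ :=
  match baseS h cn ln eta k L Q, resT h N ln L Q T with
  | some G, some R =>
    let nt := nL h T
    let A := G * nt / ONE + 1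
    let B := A * ((2 * nL h Q + G) * nt / ONE + 1) / (2 * ONE) + 1
    if posA h (T, 0) && posA h (subL (smulL (-1) L) [(s * 4 * 4096 * ONE / (ln * h) + 1 + G : ℕ)], 0)
    then some ((ln * (A + B) / 64 + 1 + (nL h R.1 + R.2)) * h / 4096 + 1) else none
  | _, _ => none

/-- `4^(length) * P (s/4)` -/
def hor (s : ℤ) : PL → ℤ
  | [] => 0
  | a :: P => a * 4 ^ (P.length + 1) + s * hor s P

/-- the data of a chart of `β = 4`; `RV` is the bound of `stepV` -/
structure Ch4 where
  cn : ℤ
  ln : ℕ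
  eta : ℕ
  k : ℕ
  etaT : ℕ
  k4 : ℕ
  s : ℕ
  RV : ℕ
  L : PL
  Q : PL
  T : PL

/-- check of one chart for the propagation (`h = 1024`) -/
def okV (N : ℕ) (c : Ch4) : Bool :=
  Nat.ble 1 c.ln &&
  match stepV N 1024 c.cn c.ln c.eta c.k c.s c.L c.Q c.T with
  | some R => Nat.ble R c.RV
  | none => false

/-- neighbours: `c` left of `c'`, common end point, and the errors fit; `e` bounds the jump. -/
def link (e : ℕ) (c c' : Ch4) : Bool :=
  decide (4 * c.cn + c.ln = 4 * c'.cn - c'.ln) &&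
  decide ((hor 1 c.T * 4 ^ c'.T.length - hor (-1) c'.T * 4 ^ c.T.length).natAbs ≤
    e * 4 ^ (c.T.length + c'.T.length)) &&
  Nat.ble (conS c.s (conS c'.s c'.etaT + c'.RV + e) + c.RV) c.etaT

/-- the chain of charts, in increasing order; at the right end `x = xn/256` the value `V1/2^160` of `ν` is
known up to `e1/2^160`. -/
def chainV (e : ℕ) (xn : ℤ) (V1 : ℤ) (e1 : ℕ) : List Ch4 → Bool
  | [] => true
  | [c] => decide (4 * c.cn + c.ln = xn) &&
      decide ((hor 1 c.T - V1 * 4 ^ c.T.length).natAbs ≤ e * 4 ^ c.T.length) &&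
      Nat.ble (conS c.s (e1 + e) + c.RV) c.etaT
  | c :: c' :: cs => link e c c' && chainV e xn V1 e1 (c' :: cs)

end TWP.K
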