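import Pool.Agent.TWP.EHM
import Pool.Agent.TWP.FQS

/-!
TWP, block F: the densities of `TW_2` and `TW_1` are positive and smooth, with logarithmic
derivatives `mTwo`, `mOne`.
-/

namespace TWP

open Filter Topology MeasureTheory Set
open scoped ContDiff

namespace F12

/-- derivative of a tail integral -/
theorem tail_hasDerivAt {f : ℝ → ℝ} (hf : Continuous f) (hi : ∀ a, IntegrableOn f (Ioi a))
    (t : ℝ) : HasDerivAt (fun t => ∫ x in Ioi t, f x) (-f t) t := by
  have e : (fun t => ∫ x in Ioi t, f x) =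
      fun t => (∫ x in Ioi (0 : ℝ), f x) - ∫ x in (0 : ℝ)..t, f x := by
    funext s
    have := intervalIntegral.integral_interval_add_Ioi (hi 0) (hi s)
    linarith
  rw [e]
  have h1 : HasDerivAt (fun u => ∫ x in (0 : ℝ)..u, f x) (f t) t :=
    (hf.integral_hasStrictDerivAt 0 t).hasDerivAt
  exact h1.const_sub _

/-- a tail integral tends to 0 -/
theorem tail_tendsto {f : ℝ → ℝ} (hi : ∀ a, IntegrableOn f (Ioi a)) :
    Tendsto (fun t => ∫ x in Ioi t, f x) atTop (𝓝 0) := by
  have e : (fun t => ∫ x in Ioi t, f x) =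
      fun t => (∫ x in Ioi (0 : ℝ), f x) - ∫ x in (0 : ℝ)..t, f x := by
    funext s
    have := intervalIntegral.integral_interval_add_Ioi (hi 0) (hi s)
    linarith
  rw [e]
  have h1 := intervalIntegral_tendsto_integral_Ioi 0 (hi 0) tendsto_id
  have h2 := h1.const_sub (∫ x in Ioi (0 : ℝ), f x)
  simpa using h2

/-- `exp(-2x)`-decay of a decreasing energy -/
theorem energy_bound {E q : ℝ → ℝ} (hE : ∀ t, HasDerivAt E (-(q t) ^ 2) t)
    (hE0 : Tendsto E atTop (𝓝 0)) {C : ℝ} (hq : ∀ t, 2 ≤ t → |q t| ≤ C * Real.exp (-t)) :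
    ∀ t, 2 ≤ t → E t ≤ C ^ 2 / 2 * Real.exp (-2 * t) := by
  have hmono : MonotoneOn (fun t => E t - C ^ 2 / 2 * Real.exp (-2 * t)) (Ici 2) := by
    have hd : ∀ t, HasDerivAt (fun t => E t - C ^ 2 / 2 * Real.exp (-2 * t))
        (-(q t) ^ 2 + C ^ 2 * Real.exp (-2 * t)) t := by
      intro t
      have h1 : HasDerivAt (fun t : ℝ => Real.exp (-2 * t)) (Real.exp (-2 * t) * (-2)) t := by
        have := ((hasDerivAt_id t).const_mul (-2 : ℝ)).exp
        simpa using this
      refine ((hE t).sub (h1.const_mul (C ^ 2 / 2))).congr_deriv ?_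
      ring
    refine monotoneOn_of_deriv_nonneg (convex_Ici 2)
      (fun t _ => (hd t).continuousAt.continuousWithinAt)
      (fun t _ => (hd t).differentiableAt.differentiableWithinAt) (fun t ht => ?_)
    rw [(hd t).deriv]
    have ht2 : 2 ≤ t := by
      have : 2 < t := by simpa using ht
      linarith
    have h1 := hq t ht2
    have h2 : |q t| ^ 2 ≤ (C * Real.exp (-t)) ^ 2 := pow_le_pow_left₀ (abs_nonneg _) h1 2
    rw [sq_abs, mul_pow] at h2
    have h3 : Real.exp (-t) ^ 2 = Real.exp (-2 * t) := by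
      rw [← Real.exp_nat_mul]
      congr 1
      push_cast
      ring
    rw [h3] at h2
    linarith
  intro t ht
  have hlim : Tendsto (fun t => E t - C ^ 2 / 2 * Real.exp (-2 * t)) atTop (𝓝 0) := by
    have h1 : Tendsto (fun t : ℝ => Real.exp (-2 * t)) atTop (𝓝 0) := by
      have h2 := Real.tendsto_exp_neg_atTop_nhds_zero.mul Real.tendsto_exp_neg_atTop_nhds_zero
      have e : (fun t : ℝ => Real.exp (-2 * t)) = fun t => Real.exp (-t) * Real.exp (-t) := by
        funext t
        rw [← Real.exp_add]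
        congr 1
        ring
      rw [e]
      simpa using h2
    have := hE0.sub (h1.const_mul (C ^ 2 / 2))
    simpa using this
  have h1 : E t - C ^ 2 / 2 * Real.exp (-2 * t) ≤ 0 := by
    refine ge_of_tendsto hlim ?_
    filter_upwards [eventually_ge_atTop t] with s hs
    exact hmono (mem_Ici.2 ht) (mem_Ici.2 (ht.trans hs)) hs
  linarith

theorem integrable_of_bound {f : ℝ → ℝ} (hf : Continuous f) {C : ℝ}
    (hb : ∀ t, 2 ≤ t → |f t| ≤ C * Real.exp (-t)) (a : ℝ) : IntegrableOn f (Ioi a) := by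
  refine integrable_of_isBigO_exp_neg (b := 1) one_pos hf.continuousOn ?_
  refine Asymptotics.IsBigO.of_bound C ?_
  filter_upwards [eventually_ge_atTop (2 : ℝ)] with t ht
  have := hb t ht
  simpa [Real.norm_eq_abs, Real.abs_exp] using this

end F12

open F12

section

variable {q : ℝ → ℝ} (h : IsHM q)

include h

theorem IsHM.cont : Continuous q :=
  continuous_iff_continuousAt.2 fun t => (h.ode1 t).continuousAt

/-- the energy `E = q² g = ∫_t^∞ q²` -/
theorem IsHM.en_cont : Continuous (Pool.Agent.TWP.E.En q (deriv q)) :=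
  continuous_iff_continuousAt.2 fun t => (h.en_deriv t).continuousAt

theorem IsHM.en_pos (t : ℝ) : 0 < Pool.Agent.TWP.E.En q (deriv q) t :=
  Pool.Agent.TWP.E.hm_en_pos h.hm t

theorem IsHM.en_bound : ∃ C : ℝ, 0 ≤ C ∧ ∀ t, 2 ≤ t →
    |Pool.Agent.TWP.E.En q (deriv q) t| ≤ C * Real.exp (-2 * t) := by
  obtain ⟨C, hC⟩ := h.dec
  refine ⟨C ^ 2 / 2, by positivity, fun t ht => ?_⟩
  rw [abs_of_pos (h.en_pos t)]
  exact energy_bound h.en_deriv h.en_tendsto (fun t ht => (hC t ht).1) t ht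

theorem IsHM.q_int (a : ℝ) : IntegrableOn q (Ioi a) := by
  obtain ⟨C, hC⟩ := h.dec
  exact integrable_of_bound h.cont (fun t ht => (hC t ht).1) a

theorem IsHM.en_int (a : ℝ) : IntegrableOn (Pool.Agent.TWP.E.En q (deriv q)) (Ioi a) := by
  obtain ⟨C, hC0, hC⟩ := h.en_bound
  refine integrable_of_bound h.en_cont (C := C) (fun t ht => (hC t ht).trans ?_) a
  refine mul_le_mul_of_nonneg_left ?_ hC0
  exact Real.exp_le_exp.2 (by linarith)

/-- `V = ∫_t^∞ E` -/
theorem IsHM.V_deriv (t : ℝ) :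
    HasDerivAt (fun t => ∫ x in Ioi t, Pool.Agent.TWP.E.En q (deriv q) x)
      (-(Pool.Agent.TWP.E.En q (deriv q) t)) t :=
  tail_hasDerivAt h.en_cont h.en_int t

/-- the primitive of `(x - t) q²` -/
theorem IsHM.phi_deriv (t x : ℝ) :
    HasDerivAt (fun x => -((x - t) * Pool.Agent.TWP.E.En q (deriv q) x) -
      ∫ y in Ioi x, Pool.Agent.TWP.E.En q (deriv q) y) ((x - t) * q x ^ 2) x := by
  have h1 := (((hasDerivAt_id x).sub_const t).mul (h.en_deriv x)).neg.sub (h.V_deriv x)
  refine h1.congr_deriv ?_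
  simp

theorem IsHM.phi_tendsto (t : ℝ) :
    Tendsto (fun x => -((x - t) * Pool.Agent.TWP.E.En q (deriv q) x) -
      ∫ y in Ioi x, Pool.Agent.TWP.E.En q (deriv q) y) atTop (𝓝 0) := by
  obtain ⟨C, hC0, hC⟩ := h.en_bound
  have hexp : Tendsto (fun x : ℝ => Real.exp (-x)) atTop (𝓝 0) :=
    Real.tendsto_exp_neg_atTop_nhds_zero
  have hx : Tendsto (fun x : ℝ => x * Real.exp (-x)) atTop (𝓝 0) := by
    simpa using Real.tendsto_pow_mul_exp_neg_atTop_nhds_zero 1
  have hb : Tendsto (fun x : ℝ => C * ((x * Real.exp (-x) + |t| * Real.exp (-x)) *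
      Real.exp (-x))) atTop (𝓝 0) := by
    simpa using (((hx.add (hexp.const_mul |t|)).mul hexp).const_mul C)
  have h1 : Tendsto (fun x => (x - t) * Pool.Agent.TWP.E.En q (deriv q) x) atTop (𝓝 0) := by
    refine squeeze_zero_norm' ?_ hb
    filter_upwards [eventually_ge_atTop (2 : ℝ)] with x hx2
    have h2 := hC x hx2
    have h3 : Real.exp (-2 * x) = Real.exp (-x) * Real.exp (-x) := by
      rw [← Real.exp_add]
      congr 1
      ring
    rw [h3] at h2
    rw [Real.norm_eq_abs, abs_mul]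
    have h4 : |x - t| ≤ x + |t| := by
      have := abs_sub x t
      rw [abs_of_nonneg (by linarith : (0 : ℝ) ≤ x)] at this
      exact this
    have h5 : 0 ≤ x + |t| := by positivity
    calc |x - t| * |Pool.Agent.TWP.E.En q (deriv q) x|
        ≤ (x + |t|) * (C * (Real.exp (-x) * Real.exp (-x))) :=
          mul_le_mul h4 h2 (abs_nonneg _) h5
      _ = C * ((x * Real.exp (-x) + |t| * Real.exp (-x)) * Real.exp (-x)) := by ring
  have h2 := h1.neg.sub (tail_tendsto h.en_int)
  simpa using h2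

theorem IsHM.int_phi (t : ℝ) : IntegrableOn (fun x => (x - t) * q x ^ 2) (Ioi t) :=
  integrableOn_Ioi_deriv_of_nonneg' (fun x _ => h.phi_deriv t x)
    (fun _ hx => mul_nonneg (sub_nonneg.2 (mem_Ioi.1 hx).le) (sq_nonneg _)) (h.phi_tendsto t)

theorem IsHM.int_phi_eq (t : ℝ) :
    ∫ x in Ioi t, (x - t) * q x ^ 2 = ∫ x in Ioi t, Pool.Agent.TWP.E.En q (deriv q) x := by
  have h1 := integral_Ioi_of_hasDerivAt_of_tendsto' (a := t) (fun x _ => h.phi_deriv t x)
    (h.int_phi t) (h.phi_tendsto t)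
  rw [h1]
  simp

theorem IsHM.cdfTwo_eq : cdfTwo q =
    fun t => Real.exp (-∫ x in Ioi t, Pool.Agent.TWP.E.En q (deriv q) x) := by
  funext t
  unfold cdfTwo
  rw [h.int_phi_eq t]

theorem IsHM.cdfOne_eq : cdfOne q =
    fun t => Real.exp (-(1 / 2) * ((∫ x in Ioi t, q x) +
      ∫ x in Ioi t, Pool.Agent.TWP.E.En q (deriv q) x)) := by
  funext t
  unfold cdfOne
  rw [integral_add (h.q_int t) (h.int_phi t), h.int_phi_eq t]

theorem IsHM.cdfTwo_deriv (t : ℝ) :
    HasDerivAt (cdfTwo q) (Pool.Agent.TWP.E.En q (deriv q) t * cdfTwo q t) t := by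
  rw [h.cdfTwo_eq]
  have h1 := (h.V_deriv t).neg.exp
  refine h1.congr_deriv ?_
  simp
  ring

theorem IsHM.cdfOne_deriv (t : ℝ) :
    HasDerivAt (cdfOne q) ((q t + Pool.Agent.TWP.E.En q (deriv q) t) / 2 * cdfOne q t) t := by
  rw [h.cdfOne_eq]
  have h1 := (((tail_hasDerivAt h.cont h.q_int t).add (h.V_deriv t)).const_mul (-(1 / 2) : ℝ)).exp
  refine h1.congr_deriv ?_
  simp
  ring

omit h in
theorem cdfTwo_pos (t : ℝ) : 0 < cdfTwo q t := Real.exp_pos _

omit h in
theorem cdfOne_pos (t : ℝ) : 0 < cdfOne q t := Real.exp_pos _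

theorem IsHM.fTwo_eq : fTwo q = fun t => Pool.Agent.TWP.E.En q (deriv q) t * cdfTwo q t := by
  funext t
  exact (h.cdfTwo_deriv t).deriv

theorem IsHM.fOne_eq :
    fOne q = fun t => (q t + Pool.Agent.TWP.E.En q (deriv q) t) / 2 * cdfOne q t := by
  funext t
  exact (h.cdfOne_deriv t).deriv

theorem IsHM.fTwo_pos (t : ℝ) : 0 < fTwo q t := by
  rw [h.fTwo_eq]
  exact mul_pos (h.en_pos t) (cdfTwo_pos t)

theorem IsHM.fOne_pos (t : ℝ) : 0 < fOne q t := by
  rw [h.fOne_eq]
  have h1 := h.en_pos t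
  have h2 := h.pos t
  exact mul_pos (by linarith) (cdfOne_pos t)

/-- smoothness -/
theorem IsHM.q_smooth : ContDiff ℝ ∞ q := (QS q _ h.ql).1

theorem IsHM.en_smooth : ContDiff ℝ ∞ (Pool.Agent.TWP.E.En q (deriv q)) := by
  have e : deriv (Pool.Agent.TWP.E.En q (deriv q)) = fun t => -(q t) ^ 2 := by
    funext t
    exact (h.en_deriv t).deriv
  rw [contDiff_infty_iff_deriv]
  refine ⟨fun t => (h.en_deriv t).differentiableAt, ?_⟩
  rw [e]
  exact (h.q_smooth.pow 2).neg

theorem IsHM.cdfTwo_smooth : ContDiff ℝ ∞ (cdfTwo q) := by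
  rw [h.cdfTwo_eq]
  refine (ContDiff.neg ?_).exp
  rw [contDiff_infty_iff_deriv]
  refine ⟨fun t => (h.V_deriv t).differentiableAt, ?_⟩
  have e : deriv (fun t => ∫ x in Ioi t, Pool.Agent.TWP.E.En q (deriv q) x) =
      fun t => -(Pool.Agent.TWP.E.En q (deriv q) t) := by
    funext t
    exact (h.V_deriv t).deriv
  rw [e]
  exact h.en_smooth.neg

theorem IsHM.cdfOne_smooth : ContDiff ℝ ∞ (cdfOne q) := by
  rw [h.cdfOne_eq]
  refine (contDiff_const.mul (ContDiff.add ?_ ?_)).exp
  · rw [contDiff_infty_iff_deriv]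
    refine ⟨fun t => (tail_hasDerivAt h.cont h.q_int t).differentiableAt, ?_⟩
    have e : deriv (fun t => ∫ x in Ioi t, q x) = fun t => -(q t) := by
      funext t
      exact (tail_hasDerivAt h.cont h.q_int t).deriv
    rw [e]
    exact h.q_smooth.neg
  · rw [contDiff_infty_iff_deriv]
    refine ⟨fun t => (h.V_deriv t).differentiableAt, ?_⟩
    have e : deriv (fun t => ∫ x in Ioi t, Pool.Agent.TWP.E.En q (deriv q) x) =
        fun t => -(Pool.Agent.TWP.E.En q (deriv q) t) := by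
      funext t
      exact (h.V_deriv t).deriv
    rw [e]
    exact h.en_smooth.neg

theorem IsHM.fTwo_smooth : ContDiff ℝ ∞ (fTwo q) := by
  rw [h.fTwo_eq]
  exact h.en_smooth.mul h.cdfTwo_smooth

theorem IsHM.fOne_smooth : ContDiff ℝ ∞ (fOne q) := by
  rw [h.fOne_eq]
  exact ((h.q_smooth.add h.en_smooth).div_const 2).mul h.cdfOne_smooth

/-- the logarithmic derivative of the density of `TW_2` is `mTwo` -/
theorem IsHM.fTwo_deriv (t : ℝ) :
    HasDerivAt (fTwo q) (mTwo q (fun t => deriv q t / q t) t * fTwo q t) t := by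
  rw [h.fTwo_eq]
  have h1 := (h.en_deriv t).mul (h.cdfTwo_deriv t)
  refine h1.congr_deriv ?_
  have hq := (h.pos t).ne'
  have hg := (h.g_pos t).ne'
  have e : Pool.Agent.TWP.E.En q (deriv q) t =
      q t ^ 2 * gf q (fun t => deriv q t / q t) t := (h.g_eq t).symm
  change -(q t) ^ 2 * cdfTwo q t + Pool.Agent.TWP.E.En q (deriv q) t *
    (Pool.Agent.TWP.E.En q (deriv q) t * cdfTwo q t) =
    mTwo q (fun t => deriv q t / q t) t * (Pool.Agent.TWP.E.En q (deriv q) t * cdfTwo q t)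
  unfold mTwo
  rw [e]
  generalize gf q (fun t => deriv q t / q t) t = g at hg
  field_simp
  ring

/-- the logarithmic derivative of the density of `TW_1` is `mOne` -/
theorem IsHM.fOne_deriv (t : ℝ) :
    HasDerivAt (fOne q) (mOne q (fun t => deriv q t / q t) t * fOne q t) t := by
  rw [h.fOne_eq]
  have h1 := (((h.ode1 t).add (h.en_deriv t)).div_const 2).mul (h.cdfOne_deriv t)
  refine h1.congr_deriv ?_
  have hq := (h.pos t).ne'
  have hg := h.g_pos t
  have hq0 := h.pos t
  have e : Pool.Agent.TWP.E.En q (deriv q) t =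
      q t ^ 2 * gf q (fun t => deriv q t / q t) t := (h.g_eq t).symm
  have hb : (1 + q t * gf q (fun t => deriv q t / q t) t) ≠ 0 := by positivity
  change (deriv q t + -(q t) ^ 2) / 2 * cdfOne q t +
    (q t + Pool.Agent.TWP.E.En q (deriv q) t) / 2 *
      ((q t + Pool.Agent.TWP.E.En q (deriv q) t) / 2 * cdfOne q t) =
    mOne q (fun t => deriv q t / q t) t *
      ((q t + Pool.Agent.TWP.E.En q (deriv q) t) / 2 * cdfOne q t)
  unfold mOne
  rw [e]
  generalize gf q (fun t => deriv q t / q t) t = g at hb hg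
  field_simp
  ring

theorem IsHM.m_smooth : ContDiff ℝ ∞ (mTwo q (fun t => deriv q t / q t)) ∧
    ContDiff ℝ ∞ (mOne q (fun t => deriv q t / q t)) := by
  obtain ⟨h1, h2⟩ := QS q _ h.ql
  have hg : ContDiff ℝ ∞ (gf q (fun t => deriv q t / q t)) := by
    unfold gf
    exact ((h2.pow 2).sub contDiff_id).sub (h1.pow 2)
  have hp : ∀ t, gf q (fun t => deriv q t / q t) t ≠ 0 := fun t => (h.g_pos t).ne'
  have hb : ∀ t, (1 + q t * gf q (fun t => deriv q t / q t) t) ≠ 0 := by
    intro t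
    have := h.g_pos t
    have := h.pos t
    positivity
  constructor
  · unfold mTwo
    exact ((h1.pow 2).mul hg).sub (contDiff_const.div hg hp)
  · unfold mOne
    exact ((((h1.pow 2).mul hg).add h1).div_const 2).add
      ((h2.sub h1).div (contDiff_const.add (h1.mul hg)) hb)

end

end TWP
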