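import Pool.Agent.TWP.F12

/-!
TWP, block F for `TW_4`: definition, derivative and logarithmic derivative of the density.
-/

namespace TWP

open Filter Topology MeasureTheory Set
open scoped ContDiff

/-- the distribution function `F_4` (in the variable of the Painlevé formula) -/
noncomputable def cdfFour (q : ℝ → ℝ) (t : ℝ) : ℝ :=
  Real.cosh ((1 / 2) * ∫ x in Set.Ioi t, q x) *
    Real.exp (-(1 / 2) * ∫ x in Set.Ioi t, (x - t) * q x ^ 2)

/-- the density of `TW_4` -/
noncomputable def fFour (q : ℝ → ℝ) : ℝ → ℝ := deriv (cdfFour q)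

/-- `e = exp(-∫_t^∞ q)` -/
noncomputable def eF (q : ℝ → ℝ) (t : ℝ) : ℝ := Real.exp (-∫ x in Set.Ioi t, q x)

/-- `T = (1-e)/(1+e) = tanh (½ ∫_t^∞ q)` -/
noncomputable def tF (e : ℝ → ℝ) : ℝ → ℝ := fun t => (1 - e t) / (1 + e t)

/-- `B = q g - T` -/
noncomputable def bF (q l e : ℝ → ℝ) : ℝ → ℝ := fun t => q t * gf q l t - tF e t

/-- `(log f_4)'` -/
noncomputable def mFour (q l e : ℝ → ℝ) : ℝ → ℝ := fun t =>
  q t * bF q l e t / 2 + l t -
    q t * (l t * gf q l t + (1 + tF e t ^ 2) / 2) / bF q l e t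

section

variable {q : ℝ → ℝ} (h : IsHM q)

include h

theorem IsHM.mu_deriv (t : ℝ) : HasDerivAt (fun t => ∫ x in Ioi t, q x) (-(q t)) t :=
  F12.tail_hasDerivAt h.cont h.q_int t

theorem IsHM.eF_deriv (t : ℝ) : HasDerivAt (eF q) (q t * eF q t) t := by
  have h1 := (h.mu_deriv t).neg.exp
  refine h1.congr_deriv ?_
  unfold eF
  simp
  ring

omit h in
theorem eF_pos (q : ℝ → ℝ) (t : ℝ) : 0 < eF q t := Real.exp_pos _

theorem IsHM.cdfFour_eq : cdfFour q = fun t =>
    Real.cosh ((1 / 2) * ∫ x in Ioi t, q x) *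
      Real.exp (-(1 / 2) * ∫ x in Ioi t, Pool.Agent.TWP.E.En q (deriv q) x) := by
  funext t
  unfold cdfFour
  rw [h.int_phi_eq t]

theorem IsHM.cdfFour_deriv (t : ℝ) :
    HasDerivAt (cdfFour q)
      (1 / 2 * ((Pool.Agent.TWP.E.En q (deriv q) t - q t * tF (eF q) t) * cdfFour q t)) t := by
  rw [h.cdfFour_eq]
  have h1 := ((h.mu_deriv t).const_mul (1 / 2 : ℝ)).cosh
  have h2 := ((h.V_deriv t).const_mul (-(1 / 2) : ℝ)).exp
  refine (h1.mul h2).congr_deriv ?_
  have e1 : tF (eF q) t = Real.sinh ((1 / 2) * ∫ x in Ioi t, q x) /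
      Real.cosh ((1 / 2) * ∫ x in Ioi t, q x) := by
    unfold tF eF
    rw [Real.sinh_eq, Real.cosh_eq]
    set m := ∫ x in Ioi t, q x with hm
    have e2 : Real.exp (-m) = Real.exp (-(1 / 2 * m)) * Real.exp (-(1 / 2 * m)) := by
      rw [← Real.exp_add]
      congr 1
      ring
    have e3 : Real.exp (1 / 2 * m) * Real.exp (-(1 / 2 * m)) = 1 := by
      rw [← Real.exp_add]
      simp
    have p1 : 0 < Real.exp (1 / 2 * m) := Real.exp_pos _
    have p2 : 0 < Real.exp (-(1 / 2 * m)) := Real.exp_pos _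
    rw [e2]
    generalize Real.exp (1 / 2 * m) = a at e3 p1
    generalize Real.exp (-(1 / 2 * m)) = b at e3 p2
    rw [div_eq_div_iff (by positivity) (by positivity)]
    have : a = 1 / b := by field_simp; linarith
    subst this
    field_simp
  have hc : Real.cosh ((1 / 2) * ∫ x in Ioi t, q x) ≠ 0 := (Real.cosh_pos _).ne'
  rw [e1]
  field_simp
  ring

theorem IsHM.fFour_eq : fFour q = fun t =>
    1 / 2 * ((Pool.Agent.TWP.E.En q (deriv q) t - q t * tF (eF q) t) * cdfFour q t) := by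
  funext t
  exact (h.cdfFour_deriv t).deriv

omit h in
theorem cdfFour_pos (q : ℝ → ℝ) (t : ℝ) : 0 < cdfFour q t :=
  mul_pos (Real.cosh_pos _) (Real.exp_pos _)

theorem IsHM.fFour_eq' : fFour q = fun t =>
    1 / 2 * (q t * bF q (fun t => deriv q t / q t) (eF q) t * cdfFour q t) := by
  rw [h.fFour_eq]
  funext t
  rw [← h.g_eq t]
  unfold bF
  ring

theorem IsHM.fFour_pos (hB : ∀ t, 0 < bF q (fun t => deriv q t / q t) (eF q) t) (t : ℝ) :
    0 < fFour q t := by
  rw [h.fFour_eq']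
  have h1 := h.pos t
  have h2 := hB t
  have h3 := cdfFour_pos q t
  positivity

theorem IsHM.mu_smooth : ContDiff ℝ ∞ (fun t => ∫ x in Ioi t, q x) := by
  rw [contDiff_infty_iff_deriv]
  refine ⟨fun t => (h.mu_deriv t).differentiableAt, ?_⟩
  have e : deriv (fun t => ∫ x in Ioi t, q x) = fun t => -(q t) := by
    funext t
    exact (h.mu_deriv t).deriv
  rw [e]
  exact h.q_smooth.neg

theorem IsHM.eF_smooth : ContDiff ℝ ∞ (eF q) := h.mu_smooth.neg.exp

theorem IsHM.tF_smooth : ContDiff ℝ ∞ (tF (eF q)) := by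
  unfold tF
  refine (contDiff_const.sub h.eF_smooth).div (contDiff_const.add h.eF_smooth) fun t => ?_
  have := eF_pos q t
  positivity

theorem IsHM.gf_smooth : ContDiff ℝ ∞ (gf q (fun t => deriv q t / q t)) := by
  obtain ⟨h1, h2⟩ := QS q _ h.ql
  unfold gf
  exact ((h2.pow 2).sub contDiff_id).sub (h1.pow 2)

theorem IsHM.bF_smooth : ContDiff ℝ ∞ (bF q (fun t => deriv q t / q t) (eF q)) := by
  unfold bF
  exact (h.q_smooth.mul h.gf_smooth).sub h.tF_smooth

theorem IsHM.cdfFour_smooth : ContDiff ℝ ∞ (cdfFour q) := by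
  rw [h.cdfFour_eq]
  refine ContDiff.mul (contDiff_const.mul h.mu_smooth).cosh (contDiff_const.mul ?_).exp
  rw [contDiff_infty_iff_deriv]
  refine ⟨fun t => (h.V_deriv t).differentiableAt, ?_⟩
  have e : deriv (fun t => ∫ x in Ioi t, Pool.Agent.TWP.E.En q (deriv q) x) =
      fun t => -(Pool.Agent.TWP.E.En q (deriv q) t) := by
    funext t
    exact (h.V_deriv t).deriv
  rw [e]
  exact h.en_smooth.neg

theorem IsHM.fFour_smooth : ContDiff ℝ ∞ (fFour q) := by
  rw [h.fFour_eq']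
  exact contDiff_const.mul ((h.q_smooth.mul h.bF_smooth).mul h.cdfFour_smooth)

theorem IsHM.mFour_smooth (hB : ∀ t, 0 < bF q (fun t => deriv q t / q t) (eF q) t) :
    ContDiff ℝ ∞ (mFour q (fun t => deriv q t / q t) (eF q)) := by
  obtain ⟨h1, h2⟩ := QS q _ h.ql
  unfold mFour
  exact (((h1.mul h.bF_smooth).div_const 2).add h2).sub
    ((h1.mul ((h2.mul h.gf_smooth).add
      ((contDiff_const.add (h.tF_smooth.pow 2)).div_const 2))).div h.bF_smooth
        fun t => (hB t).ne')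

/-- the logarithmic derivative of the density of `TW_4` is `mFour` -/
theorem IsHM.fFour_deriv (hB : ∀ t, 0 < bF q (fun t => deriv q t / q t) (eF q) t) (t : ℝ) :
    HasDerivAt (fFour q)
      (mFour q (fun t => deriv q t / q t) (eF q) t * fFour q t) t := by
  have hT : HasDerivAt (tF (eF q)) (-(q t / 2) * (1 - tF (eF q) t ^ 2)) t := by
    have he := h.eF_deriv t
    have hp := eF_pos q t
    have hne : 1 + eF q t ≠ 0 := by positivity
    have h1 := (he.const_sub 1).div (he.const_add 1) hne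
    refine h1.congr_deriv ?_
    unfold tF
    field_simp
    ring
  have h2 := (((h.en_deriv t).sub ((h.ode1 t).mul hT)).mul (h.cdfFour_deriv t)).const_mul (1 / 2 : ℝ)
  rw [h.fFour_eq]
  refine h2.congr_deriv ?_
  have hb := hB t
  have hq := h.pos t
  have e : Pool.Agent.TWP.E.En q (deriv q) t =
      q t ^ 2 * gf q (fun t => deriv q t / q t) t := (h.g_eq t).symm
  have e3 : deriv q t = (deriv q t / q t) * q t := by field_simp
  change 1 / 2 * ((-(q t) ^ 2 - (deriv q t * tF (eF q) t +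
      q t * (-(q t / 2) * (1 - tF (eF q) t ^ 2)))) * cdfFour q t +
    (Pool.Agent.TWP.E.En q (deriv q) t - q t * tF (eF q) t) *
      (1 / 2 * ((Pool.Agent.TWP.E.En q (deriv q) t - q t * tF (eF q) t) * cdfFour q t))) =
    mFour q (fun t => deriv q t / q t) (eF q) t *
      (1 / 2 * ((Pool.Agent.TWP.E.En q (deriv q) t - q t * tF (eF q) t) * cdfFour q t))
  unfold mFour
  unfold bF at hb ⊢
  rw [e]
  generalize gf q (fun t => deriv q t / q t) t = g at hb ⊢
  generalize tF (eF q) t = T at hb ⊢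
  obtain ⟨l, hl⟩ : ∃ l, l = deriv q t / q t := ⟨_, rfl⟩
  have e4 : deriv q t = l * q t := by rw [hl]; exact e3
  beta_reduce
  rw [← hl, e4]
  have hb' := hb.ne'
  field_simp
  ring

end

end TWP
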