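import Pool.Agent.TWP.F4

/-!
TWP, `TW_4` in the variable `ν = tanh(½ ∫_t^∞ q) / q`: `ν' = - l ν - 1/2 + q² ν² / 2`, `b = g - ν > 0`,
`(log f_4)' = q² b / 2 + l - (l g + (1 + q² ν²)/2) / b`.
-/

namespace TWP

open Filter Topology MeasureTheory Set
open scoped ContDiff

/-- `q, l, ν` with their differential equations -/
structure QLN (q l ν : ℝ → ℝ) : Prop where
  ql : QL q l
  dn : ∀ t, HasDerivAt ν (-(l t * ν t) - 1 / 2 + q t ^ 2 * ν t ^ 2 / 2) t

/-- `ν = T / q` -/
noncomputable def nuF (q : ℝ → ℝ) : ℝ → ℝ := fun t => tF (eF q) t / q t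

/-- `b = g - ν` -/
noncomputable def bNu (q l ν : ℝ → ℝ) : ℝ → ℝ := fun t => gf q l t - ν t

/-- `(log f_4)'` -/
noncomputable def mNu (q l ν : ℝ → ℝ) : ℝ → ℝ := fun t =>
  q t ^ 2 * bNu q l ν t / 2 + l t -
    (l t * gf q l t + (1 + q t ^ 2 * ν t ^ 2) / 2) / bNu q l ν t

section

variable {q : ℝ → ℝ} (h : IsHM q)

include h

theorem IsHM.tF_deriv (t : ℝ) :
    HasDerivAt (tF (eF q)) (-(q t / 2) * (1 - tF (eF q) t ^ 2)) t := by
  have he := h.eF_deriv t
  have hp := eF_pos q t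
  have hne : 1 + eF q t ≠ 0 := by positivity
  have h1 := (he.const_sub 1).div (he.const_add 1) hne
  refine h1.congr_deriv ?_
  unfold tF
  field_simp
  ring

theorem IsHM.qln : QLN q (fun t => deriv q t / q t) (nuF q) := by
  refine ⟨h.ql, fun t => ?_⟩
  have hq := (h.pos t).ne'
  have h1 := (h.tF_deriv t).div (h.ode1 t) hq
  refine h1.congr_deriv ?_
  unfold nuF
  field_simp
  ring

theorem IsHM.bF_eq (t : ℝ) : bF q (fun t => deriv q t / q t) (eF q) t =
    q t * bNu q (fun t => deriv q t / q t) (nuF q) t := by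
  have hq := (h.pos t).ne'
  unfold bF bNu nuF
  field_simp

theorem IsHM.mFour_eq (hb : ∀ t, 0 < bNu q (fun t => deriv q t / q t) (nuF q) t) (t : ℝ) :
    mFour q (fun t => deriv q t / q t) (eF q) t =
      mNu q (fun t => deriv q t / q t) (nuF q) t := by
  have hq := (h.pos t).ne'
  have hb0 := (hb t).ne'
  have e : tF (eF q) t = q t * nuF q t := by
    unfold nuF
    field_simp
  unfold mFour mNu
  rw [h.bF_eq t, e]
  field_simp

theorem IsHM.fFour_pos' (hb : ∀ t, 0 < bNu q (fun t => deriv q t / q t) (nuF q) t) (t : ℝ) :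
    0 < fFour q t :=
  h.fFour_pos (fun t => by rw [h.bF_eq t]; exact mul_pos (h.pos t) (hb t)) t

theorem IsHM.fFour_deriv' (hb : ∀ t, 0 < bNu q (fun t => deriv q t / q t) (nuF q) t) (t : ℝ) :
    HasDerivAt (fFour q) (mNu q (fun t => deriv q t / q t) (nuF q) t * fFour q t) t := by
  have h1 := h.fFour_deriv (fun t => by rw [h.bF_eq t]; exact mul_pos (h.pos t) (hb t)) t
  rw [h.mFour_eq hb t] at h1
  exact h1

theorem IsHM.nu_smooth : ContDiff ℝ ∞ (nuF q) :=
  h.tF_smooth.div h.q_smooth fun t => (h.pos t).ne'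

theorem IsHM.mNu_smooth (hb : ∀ t, 0 < bNu q (fun t => deriv q t / q t) (nuF q) t) :
    ContDiff ℝ ∞ (mNu q (fun t => deriv q t / q t) (nuF q)) := by
  have e : mFour q (fun t => deriv q t / q t) (eF q) =
      mNu q (fun t => deriv q t / q t) (nuF q) := funext fun t => h.mFour_eq hb t
  rw [← e]
  exact h.mFour_smooth (fun t => by rw [h.bF_eq t]; exact mul_pos (h.pos t) (hb t))

/-- elementary facts on `T` and `ν` -/
theorem IsHM.tF_bounds (t : ℝ) : 0 < tF (eF q) t ∧ tF (eF q) t < 1 := by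
  have hp := eF_pos q t
  have hmu : 0 < ∫ x in Ioi t, q x := by
    have hanti : StrictAnti (fun t => ∫ x in Ioi t, q x) := by
      refine strictAnti_of_deriv_neg fun s => ?_
      rw [(h.mu_deriv s).deriv]
      have := h.pos s
      linarith
    have h0 : Tendsto (fun t => ∫ x in Ioi t, q x) atTop (𝓝 0) := F12.tail_tendsto h.q_int
    have h1 : (∫ x in Ioi (t + 1), q x) < ∫ x in Ioi t, q x := hanti (by linarith)
    have h2 : 0 ≤ ∫ x in Ioi (t + 1), q x := hanti.antitone.le_of_tendsto h0 (t + 1)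
    linarith
  have h1 : eF q t < 1 := by
    unfold eF
    rw [Real.exp_lt_one_iff]
    linarith
  unfold tF
  refine ⟨div_pos (by linarith) (by linarith), ?_⟩
  rw [div_lt_one (by linarith)]
  linarith

theorem IsHM.nu_pos (t : ℝ) : 0 < nuF q t := div_pos (h.tF_bounds t).1 (h.pos t)

theorem IsHM.q_nu (t : ℝ) : q t * nuF q t = tF (eF q) t := by
  have hq := (h.pos t).ne'
  unfold nuF
  field_simp

theorem IsHM.one_sub_q_nu (t : ℝ) : 1 - q t * nuF q t = 2 * eF q t / (1 + eF q t) := by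
  rw [h.q_nu t]
  have hp := eF_pos q t
  unfold tF
  field_simp
  ring

end

end TWP
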