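import Pool.Agent.TWP.StF

/-! TWP: module RT (helper15). -/

set_option autoImplicit false

namespace TWP

open PowerSeries Finset

/-- the list of radii in `S_RT` (the coercion is a `do` block there) -/
theorem RT_list (rs : List ℕ) :
    (List.map (fun r => r / 4096) (do let a ← rs; pure (a : ℝ)) : List ℝ) =
      List.map (fun r : ℕ => (r : ℝ) / 4096) rs := by
  induction rs with
  | nil => rfl
  | cons r rs ih =>
    simp only [List.map_cons, ← ih]
    rfl

theorem RT_aux (h : ℕ) : ∀ (rs : List ℕ) (M : ℕ) (tab : K.Tab) (ξ : ℝ⟦X⟧) (u : ℝ),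
    radOK h M rs tab = true → (∀ (M : ℕ) (r : ℝ), 0 ≤ r → nrm M r ξ ≤ |u| + r) →
    |u| ≤ (h : ℝ) / 4096 → TabOK ξ M (List.map (fun r : ℕ => (r : ℝ) / 4096) rs) tab := by
  intro rs
  induction rs with
  | nil =>
    intro M tab ξ u hr
    simp [radOK] at hr
  | cons r rs ih =>
    intro M tab ξ u hr hξ hu
    have key : ∀ (M : ℕ) (w : ℕ), h + r ≤ w → nrm M ((r : ℝ) / 4096) ξ ≤ (w : ℝ) / 4096 := by
      intro M w hw
      have h1 := hξ M ((r : ℝ) / 4096) (by positivity)
      have h2 : ((h + r : ℕ) : ℝ) ≤ (w : ℝ) := by exact_mod_cast hw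
      push_cast at h2
      calc nrm M ((r : ℝ) / 4096) ξ ≤ |u| + (r : ℝ) / 4096 := h1
        _ ≤ (h : ℝ) / 4096 + (r : ℝ) / 4096 := by linarith
        _ ≤ (w : ℝ) / 4096 := by linarith
    rcases rs with _ | ⟨r', rs⟩
    · rcases tab with _ | ⟨⟨w, c⟩, _ | ⟨wc, tab⟩⟩
      · simp [radOK] at hr
      · simp only [radOK, Bool.and_eq_true, decide_eq_true_eq] at hr
        obtain ⟨⟨hr0, hw⟩, hw2⟩ := hr
        simp only [List.map_cons, List.map_nil, TabOK]
        refine ⟨?_, hw2, key M w hw⟩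
        have : (0 : ℝ) < r := by exact_mod_cast hr0
        positivity
      · simp [radOK] at hr
    · rcases tab with _ | ⟨⟨w, c⟩, _ | ⟨wc, tab⟩⟩
      · simp [radOK] at hr
      · simp [radOK] at hr
      · simp only [radOK, Bool.and_eq_true, decide_eq_true_eq, List.all_eq_true,
          List.mem_range] at hr
        obtain ⟨⟨⟨⟨⟨⟨⟨hr0, hw⟩, hw2⟩, hr0'⟩, hrr⟩, hall⟩, hM⟩, hrec⟩ := hr
        have ih' := ih (M - 1) (wc :: tab) ξ u hrec hξ hu
        simp only [List.map_cons, TabOK] at ih' ⊢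
        have p1 : (0 : ℝ) < r := by exact_mod_cast hr0
        have p2 : (0 : ℝ) < r' := by exact_mod_cast hr0'
        have p3 : (r' : ℝ) ≤ r := by exact_mod_cast hrr
        refine ⟨by positivity, hw2, key M w hw, by positivity, by gcongr, ?_, hM, ih'⟩
        intro n hn
        have h1 := hall n (by omega)
        have h2 : ((n : ℝ) + 1) * (r' : ℝ) ^ n * 1024 * 4096 ≤ (c : ℝ) * (r : ℝ) ^ (n + 1) := by
          exact_mod_cast h1
        have h3 : (0 : ℝ) < 4096 ^ (n + 1) := by positivity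
        have e1 : ((n : ℝ) + 1) * ((r' : ℝ) / 4096) ^ n * 1024 =
            (((n : ℝ) + 1) * (r' : ℝ) ^ n * 1024 * 4096) / 4096 ^ (n + 1) := by
          rw [div_pow, pow_succ]
          field_simp
        have e2 : (c : ℝ) * ((r : ℝ) / 4096) ^ (n + 1) =
            ((c : ℝ) * (r : ℝ) ^ (n + 1)) / 4096 ^ (n + 1) := by
          rw [div_pow, mul_div_assoc]
        rw [e1, e2]
        exact div_le_div_of_nonneg_right h2 h3.le

theorem RT : S_RT := by
  intro h M rs tab ξ u hr hξ hu
  have := RT_aux h rs M tab ξ u hr hξ hu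
  rw [← RT_list] at this
  exact this

end TWP
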