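import Pool.Agent.TWP.StF

/-! TWP, module XI: the chart variable. -/

namespace TWP

open PowerSeries Filter Topology
open scoped ContDiff

namespace FXI

theorem dl_const (lam a : ℝ) : dl (fun _ => lam) (fun _ => a) = fun _ => 0 := by
  funext t
  simp [dl]

theorem dl_zero_iter (lam : ℝ) (n : ℕ) :
    (dl (fun _ => lam))^[n] (fun _ => (0 : ℝ)) = fun _ => 0 := by
  induction n with
  | zero => rfl
  | succ n ih => rw [Function.iterate_succ_apply, dl_const, ih]

theorem tay_affine (lam a : ℝ) (f : ℝ → ℝ) (t : ℝ)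
    (h : dl (fun _ => lam) f = fun _ => a) :
    Tay (fun _ => lam) f t = C (f t) + C a * X := by
  ext n
  rcases n with _ | _ | n
  · simp [Tay]
  · simp [Tay, h, coeff_C, coeff_X]
  · have h2 : (dl (fun _ => lam))^[n + 1 + 1] f = fun _ => 0 := by
      rw [Function.iterate_succ_apply, h, Function.iterate_succ_apply, dl_const, dl_zero_iter]
    rw [Tay, coeff_mk, h2, map_add, coeff_C, coeff_C_mul, coeff_X]
    simp

theorem dl_chart (lam c : ℝ) (hl : 0 < lam) :
    dl (fun _ => lam) (fun s => (s - c) / lam) = fun _ => 1 := by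
  funext t
  have h1 : HasDerivAt (fun s : ℝ => (s - c) / lam) (1 / lam) t :=
    ((hasDerivAt_id t).sub_const c).div_const lam
  simp only [dl]
  rw [h1.deriv]
  field_simp

theorem dl_id (lam : ℝ) : dl (fun _ => lam) (fun s => s) = fun _ => lam := by
  funext t
  simp only [dl]
  rw [(hasDerivAt_id' t).deriv, mul_one]

theorem nrm_le (u r : ℝ) (M : ℕ) (hr : 0 ≤ r) :
    nrm M r (C u + X : ℝ⟦X⟧) ≤ |u| + r := by
  have hterm : ∀ m ∈ Finset.range (M + 1), |coeff m (C u + X : ℝ⟦X⟧)| * r ^ m =
      (if m = 0 then |u| else 0) + (if m = 1 then r else 0) := by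
    intro m _
    rcases m with _ | _ | m
    · simp
    · simp [coeff_C, coeff_X]
    · rw [map_add, coeff_C, coeff_X]
      simp
  unfold nrm
  rw [Finset.sum_congr rfl hterm, Finset.sum_add_distrib]
  have h0 : ∑ m ∈ Finset.range (M + 1), (if m = 0 then |u| else 0) ≤ |u| := by
    rw [Finset.sum_ite_eq']
    split_ifs
    · exact le_rfl
    · exact abs_nonneg u
  have h1 : ∑ m ∈ Finset.range (M + 1), (if m = 1 then r else 0) ≤ r := by
    rw [Finset.sum_ite_eq']
    split_ifs
    · exact le_rfl
    · exact hr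
  linarith

end FXI

open FXI in
theorem XI : S_XI := by
  intro lam c t hl
  have e1 : Tay (fun _ => lam) (fun s => (s - c) / lam) t = C ((t - c) / lam) + X := by
    rw [tay_affine lam 1 _ t (dl_chart lam c hl), map_one, one_mul]
  have e2 : Tay (fun _ => lam) (fun s => s) t = C t + C lam * X :=
    tay_affine lam lam _ t (dl_id lam)
  refine ⟨e1, ?_, ?_, ?_⟩
  · rw [e1, e2, mul_add, ← map_mul, ← add_assoc, ← map_add]
    congr 2
    field_simp
    ring_nf
  · rw [e1]
    unfold D
    simp
  · intro M r hr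
    rw [e1]
    exact nrm_le _ r M hr

end TWP
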