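import Pool.Agent.TWP.StMid
import Pool.Agent.TWP.FTS
import Pool.Agent.TWP.FTA
import Pool.Agent.TWP.FTM
import Pool.Agent.TWP.FTI
import Pool.Agent.TWP.FQS
import Pool.Agent.TWP.FXI
import Pool.Agent.TWP.FRT

set_option autoImplicit false

/-! TWP, module CB: the first term of the chain in the middle charts. -/

namespace TWP

open PowerSeries Filter Topology
open scoped ContDiff

namespace CB

/-- own copy of TC (with the germ lemma of TA) -/
theorem tc : S_TC := by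
  intro ψ f g t hfg
  refine ⟨?_, ?_, ?_⟩
  · ext n
    unfold Tay
    rw [coeff_mk, coeff_mk]
    rw [(ta_iter_congr ψ t n f g hfg).eq_of_nhds]
  · unfold Tay
    rw [coeff_mk]
    simp
  · ext n
    unfold D Tay
    rw [coeff_derivative, coeff_mk, coeff_mk, Function.iterate_succ_apply]
    rw [Nat.factorial_succ]
    have h1 : ((n : ℝ) + 1) ≠ 0 := by positivity
    have h2 : (n.factorial : ℝ) ≠ 0 := by positivity
    push_cast
    field_simp

theorem ta : S_TA := TA tc TS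
theorem tm : S_TM := TM tc TS ta
theorem ti : S_TI := TI tc TS ta tm

variable (q l : ℝ → ℝ) (lam c t : ℝ)

/-- the series of `g = l ^ 2 - s - q ^ 2` -/
theorem tay_gf (h : QL q l) (hlam : 0 < lam) (ξ : ℝ⟦X⟧)
    (hξ : ξ = Tay (fun _ => lam) (fun s => (s - c) / lam) t) :
    ContDiffAt ℝ ∞ (gf q l) t ∧
    Tay (fun _ => lam) (gf q l) t =
      Tay (fun _ => lam) l t ^ 2 - (C c + C lam * ξ) - Tay (fun _ => lam) q t ^ 2 := by
  obtain ⟨hq, hl⟩ := QS q l h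
  have hq' : ContDiffAt ℝ ∞ q t := hq.contDiffAt
  have hl' : ContDiffAt ℝ ∞ l t := hl.contDiffAt
  have hψ : ContDiffAt ℝ ∞ (fun _ : ℝ => lam) t := contDiffAt_const
  have hid : ContDiffAt ℝ ∞ (fun s : ℝ => s) t := contDiffAt_id
  have hll : ContDiffAt ℝ ∞ (fun s => l s * l s) t := hl'.mul hl'
  have hqq : ContDiffAt ℝ ∞ (fun s => q s * q s) t := hq'.mul hq'
  have e0 : gf q l = fun s => (l s * l s - s) - q s * q s := by
    funext s; unfold gf; ring
  rw [e0]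
  refine ⟨(hll.sub hid).sub hqq, ?_⟩
  rw [(ta (fun _ => lam) t hψ).2.2 (fun s => l s * l s - s) (fun s => q s * q s)
    (hll.sub hid) hqq, (ta (fun _ => lam) t hψ).2.2 (fun s => l s * l s) (fun s => s) hll hid,
    tm (fun _ => lam) t hψ l l hl' hl', tm (fun _ => lam) t hψ q q hq' hq',
    (XI lam c t hlam).2.1, ← hξ]
  ring

/-- the series of `mTwo` -/
theorem tay_two (h : QL q l) (g : ℝ⟦X⟧)
    (hs : ContDiffAt ℝ ∞ (gf q l) t) (hg : Tay (fun _ => lam) (gf q l) t = g)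
    (hg0 : coeff 0 g ≠ 0) :
    ContDiffAt ℝ ∞ (mTwo q l) t ∧
    Tay (fun _ => lam) (mTwo q l) t = Tay (fun _ => lam) q t ^ 2 * g - g⁻¹ := by
  obtain ⟨hq, hl⟩ := QS q l h
  have hq' : ContDiffAt ℝ ∞ q t := hq.contDiffAt
  have hψ : ContDiffAt ℝ ∞ (fun _ : ℝ => lam) t := contDiffAt_const
  have hgt : gf q l t ≠ 0 := by
    have := (tc (fun _ => lam) (gf q l) (gf q l) t EventuallyEq.rfl).2.1
    rw [hg] at this
    rwa [this] at hg0
  have hqq : ContDiffAt ℝ ∞ (fun s => q s * q s) t := hq'.mul hq'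
  have hqg : ContDiffAt ℝ ∞ (fun s => (q s * q s) * gf q l s) t := hqq.mul hs
  have hinv : ContDiffAt ℝ ∞ (fun s => (gf q l s)⁻¹) t := hs.inv hgt
  have e0 : mTwo q l = fun s => (q s * q s) * gf q l s - (gf q l s)⁻¹ := by
    funext s; unfold mTwo; rw [one_div]; ring
  rw [e0]
  refine ⟨hqg.sub hinv, ?_⟩
  rw [(ta (fun _ => lam) t hψ).2.2 (fun s => (q s * q s) * gf q l s) (fun s => (gf q l s)⁻¹)
    hqg hinv, tm (fun _ => lam) t hψ (fun s => q s * q s) (gf q l) hqq hs,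
    tm (fun _ => lam) t hψ q q hq' hq', (ti (fun _ => lam) t hψ (gf q l) (gf q l) hs hs hgt).1,
    hg]
  ring

/-- the series of `mOne` -/
theorem tay_one (h : QL q l) (g : ℝ⟦X⟧)
    (hs : ContDiffAt ℝ ∞ (gf q l) t) (hg : Tay (fun _ => lam) (gf q l) t = g)
    (hg0 : coeff 0 (1 + Tay (fun _ => lam) q t * g) ≠ 0) :
    ContDiffAt ℝ ∞ (mOne q l) t ∧
    Tay (fun _ => lam) (mOne q l) t =
      C (1 / 2 : ℝ) * (Tay (fun _ => lam) q t ^ 2 * g + Tay (fun _ => lam) q t) +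
        (Tay (fun _ => lam) l t - Tay (fun _ => lam) q t) * (1 + Tay (fun _ => lam) q t * g)⁻¹ := by
  obtain ⟨hq, hl⟩ := QS q l h
  have hq' : ContDiffAt ℝ ∞ q t := hq.contDiffAt
  have hl' : ContDiffAt ℝ ∞ l t := hl.contDiffAt
  have hψ : ContDiffAt ℝ ∞ (fun _ : ℝ => lam) t := contDiffAt_const
  have hone : ContDiffAt ℝ ∞ (fun _ : ℝ => (1 : ℝ)) t := contDiffAt_const
  have hhalf : ContDiffAt ℝ ∞ (fun _ : ℝ => (1 / 2 : ℝ)) t := contDiffAt_const
  have hqg1 : ContDiffAt ℝ ∞ (fun s => q s * gf q l s) t := hq'.mul hs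
  have hd : ContDiffAt ℝ ∞ (fun s => 1 + q s * gf q l s) t := hone.add hqg1
  have ed : Tay (fun _ => lam) (fun s => 1 + q s * gf q l s) t =
      1 + Tay (fun _ => lam) q t * g := by
    rw [(ta (fun _ => lam) t hψ).2.1 (fun _ => (1 : ℝ)) (fun s => q s * gf q l s) hone hqg1,
      (ta (fun _ => lam) t hψ).1 1, tm (fun _ => lam) t hψ q (gf q l) hq' hs, hg, map_one]
  have hdt : 1 + q t * gf q l t ≠ 0 := by
    have := (tc (fun _ => lam) (fun s => 1 + q s * gf q l s) (fun s => 1 + q s * gf q l s) t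
      EventuallyEq.rfl).2.1
    rw [ed] at this
    rwa [this] at hg0
  have hqq : ContDiffAt ℝ ∞ (fun s => q s * q s) t := hq'.mul hq'
  have hqg : ContDiffAt ℝ ∞ (fun s => (q s * q s) * gf q l s) t := hqq.mul hs
  have hsum : ContDiffAt ℝ ∞ (fun s => (q s * q s) * gf q l s + q s) t := hqg.add hq'
  have hf : ContDiffAt ℝ ∞ (fun s => (1 / 2 : ℝ) * ((q s * q s) * gf q l s + q s)) t :=
    hhalf.mul hsum
  have hlq : ContDiffAt ℝ ∞ (fun s => l s - q s) t := hl'.sub hq'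
  have hquo : ContDiffAt ℝ ∞ (fun s => (l s - q s) / (1 + q s * gf q l s)) t := hlq.div hd hdt
  have e0 : mOne q l = fun s => (1 / 2 : ℝ) * ((q s * q s) * gf q l s + q s) +
      (l s - q s) / (1 + q s * gf q l s) := by
    funext s; unfold mOne; ring
  rw [e0]
  refine ⟨hf.add hquo, ?_⟩
  rw [(ta (fun _ => lam) t hψ).2.1 (fun s => (1 / 2 : ℝ) * ((q s * q s) * gf q l s + q s))
    (fun s => (l s - q s) / (1 + q s * gf q l s)) hf hquo,
    tm (fun _ => lam) t hψ (fun _ => (1 / 2 : ℝ)) (fun s => (q s * q s) * gf q l s + q s) hhalf hsum,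
    (ta (fun _ => lam) t hψ).1 (1 / 2),
    (ta (fun _ => lam) t hψ).2.1 (fun s => (q s * q s) * gf q l s) q hqg hq',
    tm (fun _ => lam) t hψ (fun s => q s * q s) (gf q l) hqq hs,
    tm (fun _ => lam) t hψ q q hq' hq', hg,
    (ti (fun _ => lam) t hψ (fun s => l s - q s) (fun s => 1 + q s * gf q l s) hlq hd hdt).2,
    (ta (fun _ => lam) t hψ).2.2 l q hl' hq', ed]
  ring

end CB

theorem t_CB (hGS : S_GS) (hM2 : S_M2) (hM1 : S_M1) (hLIN : S_LIN) : S_CB := by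
  intro q l two M N h r0 rs w0 c0 tab' cn ln eta k L Q G m hQL hhr hr0 hh hln hrad hrs htab
    hbase hm hl0 hq0 t ξ hu hξ
  have hlam : (0 : ℝ) < (ln : ℝ) / 64 := by
    have : (0 : ℝ) < ln := by exact_mod_cast hln
    positivity
  obtain ⟨hx1, hx2, hx3, hx4⟩ := XI ((ln : ℝ) / 64) ((cn : ℝ) / 64) t hlam
  have hlaw : Law false ξ := by
    unfold Law
    rw [hξ]
    exact hx3
  have hc0 : |coeff 0 ξ| ≤ (h : ℝ) / 4096 := by
    rw [hξ, hx1]
    simpa using hu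
  -- the table
  rcases rs with _ | ⟨r, _ | ⟨r', rs⟩⟩
  · simp [radOK] at hrad
  · rcases tab' with _ | ⟨wc, tab'⟩
    · exact absurd rfl htab
    · simp [radOK] at hrad
  rcases tab' with _ | ⟨wc, tab'⟩
  · exact absurd rfl htab
  have hr : r = r0 := hrs
  subst hr
  have hT := RT_aux h (r :: r' :: rs) M ((w0, c0) :: wc :: tab') ξ
    ((t - (cn : ℝ) / 64) / ((ln : ℝ) / 64)) hrad (by
      intro M r hr
      rw [hξ]
      exact hx4 M r hr) hu
  simp only [List.map_cons, TabOK] at hT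
  obtain ⟨hT1, hT2, hT3, hT4, hT5, hT6, hT7, hT8⟩ := hT
  obtain ⟨hAl, hAq⟩ := hGS q l M h r cn ln eta k L Q G hQL hhr hr0 hh hln hT7 hbase hl0 hq0 t hu
  rw [← hξ] at hAl hAq
  obtain ⟨hsg, hg⟩ := CB.tay_gf q l ((ln : ℝ) / 64) ((cn : ℝ) / 64) t hQL hlam ξ hξ
  have key : ContDiffAt ℝ ∞ (mSel q l two) t ∧
      Ap M ((r : ℝ) / 4096) ξ (C ((ln : ℝ) / 64) *
        Tay (fun _ => (ln : ℝ) / 64) (mSel q l two) t) m := by
    cases two with
    | true =>
      rw [if_pos rfl] at hm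
      obtain ⟨h1, h2⟩ := hM2 M ((r : ℝ) / 4096) ξ _ _ w0 N cn ln (L, G) (Q, G) m hT1 hT2 hT3 hm
        hAl hAq
      obtain ⟨h3, h4⟩ := CB.tay_two q l ((ln : ℝ) / 64) t hQL _ hsg hg h1
      unfold mSel
      rw [if_pos rfl]
      refine ⟨h3, ?_⟩
      rw [h4]
      exact h2
    | false =>
      rw [if_neg (by decide)] at hm
      obtain ⟨h1, h2⟩ := hM1 M ((r : ℝ) / 4096) ξ _ _ w0 N cn ln (L, G) (Q, G) m hT1 hT2 hT3 hm
        hAl hAq
      obtain ⟨h3, h4⟩ := CB.tay_one q l ((ln : ℝ) / 64) t hQL _ hsg hg h1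
      unfold mSel
      rw [if_neg (by decide)]
      refine ⟨h3, ?_⟩
      rw [h4]
      exact h2
  refine ⟨key.1, hlaw, hc0, ((r' : ℝ) / 4096) :: List.map (fun r : ℕ => (r : ℝ) / 4096) rs,
    hT8, ?_⟩
  obtain ⟨hadd, hint, hscl, hmono, hder, hlist⟩ := hLIN
  have hD := hder false M c0 ((r : ℝ) / 4096) ((r' : ℝ) / 4096) ξ _ m hlaw
    ⟨hT4, hT5, hT6, hT7⟩ key.2
  have hI := hint (M - 1) ((r' : ℝ) / 4096) ξ _ _ (-1) hT4.le hD
  have e1 : C (((-1 : ℤ)) : ℝ) * D (C ((ln : ℝ) / 64) *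
      Tay (fun _ => (ln : ℝ) / 64) (mSel q l two) t) =
      - D (C ((ln : ℝ) / 64) * Tay (fun _ => (ln : ℝ) / 64) (mSel q l two) t) := by
    rw [Int.cast_neg, Int.cast_one, map_neg, map_one, neg_one_mul]
  rw [e1] at hI
  exact hI

end TWP
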