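import Pool.Agent.TWP.StG

/-! TWP: the middle charts with a negative last term (module TLMN). -/

namespace TWP

open PowerSeries Filter Topology
open scoped ContDiff

namespace FTLMN

theorem step (lam c : ℝ) (hlam : 0 < lam) (a : ℝ → ℝ) (s : ℝ) :
    (fun s => (fun _ : ℝ => lam ^ 2) s * deriv (fun s => deriv a s / a s) s) s =
      - ((((2 ^ 160 : ℤ) : ℝ) / 2 ^ 160) * ((fun s => (s - c) / lam) s) ^ 0 *
        (((0 : ℤ) : ℝ) + ((0 : ℤ) : ℝ) *
            (dl (fun _ => lam) (fun s => (fun _ : ℝ => lam ^ 2) s * a s) s /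
              ((fun _ : ℝ => lam ^ 2) s * a s)) -
          ((1 : ℤ) : ℝ) * dl (fun _ => lam) (fun s => dl (fun _ => lam)
            (fun s => (fun _ : ℝ => lam ^ 2) s * a s) s / ((fun _ : ℝ => lam ^ 2) s * a s)) s)) := by
  have hl2 : lam ^ 2 ≠ 0 := pow_ne_zero 2 hlam.ne'
  have h1 : (fun s => dl (fun _ => lam)
      (fun s => (fun _ : ℝ => lam ^ 2) s * a s) s / ((fun _ : ℝ => lam ^ 2) s * a s)) =
      fun s => lam * (deriv a s / a s) := by
    funext s
    show lam * deriv (fun s => lam ^ 2 * a s) s / (lam ^ 2 * a s) = lam * (deriv a s / a s)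
    rw [deriv_const_mul_field, mul_left_comm, mul_div_mul_left _ _ hl2, mul_div_assoc]
  rw [h1]
  have h2 : dl (fun _ => lam) (fun s => lam * (deriv a s / a s)) s =
      lam ^ 2 * deriv (fun s => deriv a s / a s) s := by
    show lam * deriv (fun s => lam * (deriv a s / a s)) s =
      lam ^ 2 * deriv (fun s => deriv a s / a s) s
    rw [deriv_const_mul_field]
    ring
  rw [h2]
  have h3 : (((2 ^ 160 : ℤ) : ℝ) / 2 ^ 160) = 1 := by
    rw [Int.cast_pow, Int.cast_ofNat]
    exact div_self (pow_ne_zero 160 two_ne_zero)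
  rw [h3, Int.cast_zero, Int.cast_one, pow_zero]
  show lam ^ 2 * deriv (fun s => deriv a s / a s) s = _
  ring

end FTLMN

open FTLMN in
theorem TLMN : S_TC → S_TS → S_TA → S_TM → S_TI → S_TLN → S_TLMN := by
  intro hTC hTS hTA hTM _ hTLN lam c m t K hlam hm hpos
  have hψ : ContDiffAt ℝ ∞ (fun _ : ℝ => lam) t := contDiffAt_const
  have hρ : ContDiffAt ℝ ∞ (fun _ : ℝ => lam ^ 2) t := contDiffAt_const
  have hx : ContDiffAt ℝ ∞ (fun s : ℝ => (s - c) / lam) t :=
    (contDiffAt_id.sub contDiffAt_const).div_const lam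
  have hser : Tay (fun _ => lam) (fun s => (fun _ : ℝ => lam ^ 2) s * toda m 1 s) t =
      - D (C lam * Tay (fun _ => lam) m t) := by
    have hdl : ContDiffAt ℝ ∞ (dl (fun _ => lam) m) t := hTS.2.1 _ m t hψ hm
    have h1 : (fun s => (fun _ : ℝ => lam ^ 2) s * toda m 1 s) =
        fun s => (fun _ : ℝ => -lam) s * dl (fun _ => lam) m s := by
      funext s
      show lam ^ 2 * (- deriv m s) = -lam * (lam * deriv m s)
      ring
    have h2 : Tay (fun _ => lam) (fun s => (fun _ : ℝ => -lam) s * dl (fun _ => lam) m s) t =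
        Tay (fun _ => lam) (fun _ : ℝ => -lam) t * Tay (fun _ => lam) (dl (fun _ => lam) m) t :=
      hTM _ t hψ (fun _ => -lam) (dl (fun _ => lam) m) contDiffAt_const hdl
    have h3 : Tay (fun _ => lam) (fun _ : ℝ => -lam) t = C (-lam) := (hTA _ t hψ).1 (-lam)
    have h4 : D (Tay (fun _ => lam) m t) = Tay (fun _ => lam) (dl (fun _ => lam) m) t :=
      (hTC (fun _ => lam) m m t (Filter.EventuallyEq.refl _ _)).2.2
    have h5 : D (C lam * Tay (fun _ => lam) m t) = C lam * D (Tay (fun _ => lam) m t) := by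
      unfold D
      rw [Derivation.leibniz, PowerSeries.derivative_C, smul_zero, add_zero, smul_eq_mul]
    rw [h1, h2, h3, h5, ← h4, map_neg, neg_mul]
  have h := hTLN (fun _ => lam) (fun _ => lam ^ 2) (fun s => (s - c) / lam) m t (2 ^ 160) 0 0 0 1 K
    hψ hρ hx hm (pow_pos hlam 2)
    (fun a _ _ => Filter.Eventually.of_forall fun s => step lam c hlam a s)
    (fun k hk => by
      rw [hser]
      exact hpos k hk)
  rw [hser] at h
  exact h

end TWP
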