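import Pool.Agent.TWP.StF
import Pool.Agent.TWP.Eng3

/-! TWP: statements, part G (chains with a negative last term). -/

namespace TWP

open PowerSeries Filter Topology
open scoped ContDiff

/-- TLN: as TL, but the last constant coefficient is identified instead of being positive.
Proof: as TL (the induction there gives: `toda m (j+1)`, `toda m j` smooth, `0 < toda m (j + 1 + i) t` for
`i < K`; then `seqS K … = Tay (ρ * toda m (j+1+K))`, constant coefficient `ρ t * toda m (j+1+K) t`). -/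
def S_TLN : Prop := ∀ (ψ ρ x m : ℝ → ℝ) (t : ℝ) (zc : ℤ) (zs : ℕ) (hh k1 k2 : ℤ) (K : ℕ),
  ContDiffAt ℝ ∞ ψ t → ContDiffAt ℝ ∞ ρ t → ContDiffAt ℝ ∞ x t → ContDiffAt ℝ ∞ m t → 0 < ρ t →
  (∀ a : ℝ → ℝ, ContDiffAt ℝ ∞ a t → 0 < a t →
    (fun s => ρ s * deriv (fun s => deriv a s / a s) s) =ᶠ[𝓝 t] fun s =>
      - (((zc : ℝ) / 2 ^ 160) * x s ^ zs *
        ((hh : ℝ) + k1 * (dl ψ (fun s => ρ s * a s) s / (ρ s * a s)) -
          k2 * dl ψ (fun s => dl ψ (fun s => ρ s * a s) s / (ρ s * a s)) s))) →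
  (∀ k < K, 0 < coeff 0 (seqS (Tay ψ x t) zc zs hh k1 k2 k
    (Tay ψ (fun s => ρ s * toda m 1 s) t) 0)) →
  coeff 0 (seqS (Tay ψ x t) zc zs hh k1 k2 K (Tay ψ (fun s => ρ s * toda m 1 s) t) 0) =
    ρ t * toda m (K + 1) t ∧ ContDiffAt ℝ ∞ (toda m (K + 1)) t

/-- TLMN: the middle charts, as TLM. From TLN. -/
def S_TLMN : Prop := ∀ (lam c : ℝ) (m : ℝ → ℝ) (t : ℝ) (K : ℕ), 0 < lam → ContDiffAt ℝ ∞ m t →
  (∀ k < K, 0 < coeff 0 (seqS (Tay (fun _ => lam) (fun s => (s - c) / lam) t) (2 ^ 160) 0 0 0 1 k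
    (- D (C lam * Tay (fun _ => lam) m t)) 0)) →
  coeff 0 (seqS (Tay (fun _ => lam) (fun s => (s - c) / lam) t) (2 ^ 160) 0 0 0 1 K
    (- D (C lam * Tay (fun _ => lam) m t)) 0) = lam ^ 2 * toda m (K + 1) t ∧
  ContDiffAt ℝ ∞ (toda m (K + 1)) t

/-- CMN: soundness of `checkMN` (from GS, M2/M1, chainN_sound, TLM, TLMN, RT): at every point of the chart
`a_1, …, a_K > 0 > a_(K+1)`. -/
def S_CMN : Prop := ∀ (q l : ℝ → ℝ) (two : Bool) (k0 M N h r0 : ℕ) (rs : List ℕ) (tab : K.Tab) (cn : ℤ)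
  (ln eta k : ℕ) (L Q : List ℤ), QL q l → h + r0 = 4096 → 0 < r0 → 0 < h → 0 < ln →
  radOK h M rs tab = true → rs.headD 0 = r0 →
  K.checkMN two k0 M N h r0 tab cn ln eta k L Q = true →
  |(2 : ℝ) ^ 160 * l ((cn : ℝ) / 64) - (L.headD 0 : ℤ)| ≤ eta →
  |(2 : ℝ) ^ 160 * q ((cn : ℝ) / 64) - (Q.headD 0 : ℤ)| ≤ eta →
  ∀ t : ℝ, |(t - (cn : ℝ) / 64) / ((ln : ℝ) / 64)| ≤ (h : ℝ) / 4096 →
    toda (if two then mTwo q l else mOne q l) (k0 + 1) t < 0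

end TWP
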