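import Mathlib
import Pool.Agent.TWP.StG

set_option autoImplicit false

/-! TWP: module TLN. -/

namespace TWP

open PowerSeries Filter Topology
open scoped ContDiff

theorem tln_pow (hTA : S_TA) (hTM : S_TM) (ψ x : ℝ → ℝ) (t : ℝ) (hψ : ContDiffAt ℝ ∞ ψ t)
    (hx : ContDiffAt ℝ ∞ x t) (n : ℕ) :
    Tay ψ (fun s => x s ^ n) t = (Tay ψ x t) ^ n := by
  induction n with
  | zero => simpa using (hTA ψ t hψ).1 1
  | succ n ih =>
    have h := hTM ψ t hψ (fun s => x s ^ n) x (hx.pow n) hx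
    simp only [pow_succ]
    rw [h, ih]

theorem tln_cmul (hTA : S_TA) (hTM : S_TM) (ψ f : ℝ → ℝ) (t : ℝ) (hψ : ContDiffAt ℝ ∞ ψ t)
    (hf : ContDiffAt ℝ ∞ f t) (c : ℝ) :
    Tay ψ (fun s => c * f s) t = C c * Tay ψ f t := by
  have h := hTM ψ t hψ (fun _ => c) f contDiffAt_const hf
  rw [h, (hTA ψ t hψ).1 c]

theorem tln_step (hTC : S_TC) (hTS : S_TS) (hTA : S_TA) (hTM : S_TM) (hTI : S_TI)
    (ψ ρ x m : ℝ → ℝ) (t : ℝ) (zc : ℤ) (zs : ℕ) (hh k1 k2 : ℤ)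
    (hψ : ContDiffAt ℝ ∞ ψ t) (hρ : ContDiffAt ℝ ∞ ρ t) (hx : ContDiffAt ℝ ∞ x t)
    (hρ0 : 0 < ρ t)
    (hstep : ∀ a : ℝ → ℝ, ContDiffAt ℝ ∞ a t → 0 < a t →
      (fun s => ρ s * deriv (fun s => deriv a s / a s) s) =ᶠ[𝓝 t] fun s =>
        - (((zc : ℝ) / 2 ^ 160) * x s ^ zs *
          ((hh : ℝ) + k1 * (dl ψ (fun s => ρ s * a s) s / (ρ s * a s)) -
            k2 * dl ψ (fun s => dl ψ (fun s => ρ s * a s) s / (ρ s * a s)) s)))
    (j : ℕ) (h1 : ContDiffAt ℝ ∞ (toda m (j + 1)) t) (h0 : ContDiffAt ℝ ∞ (toda m j) t)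
    (hpos : 0 < toda m (j + 1) t) :
    Tay ψ (fun s => ρ s * toda m (j + 2) s) t = nextS (Tay ψ x t) zc zs hh k1 k2
      (Tay ψ (fun s => ρ s * toda m (j + 1) s) t) (Tay ψ (fun s => ρ s * toda m j s) t) := by
  set a : ℝ → ℝ := toda m (j + 1) with ha
  set b : ℝ → ℝ := toda m j with hb
  -- the functions
  have hg : ContDiffAt ℝ ∞ (fun s => ρ s * a s) t := hρ.mul h1
  have hb' : ContDiffAt ℝ ∞ (fun s => ρ s * b s) t := hρ.mul h0
  have hg0 : (fun s => ρ s * a s) t ≠ 0 := (mul_pos hρ0 hpos).ne'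
  have hdg : ContDiffAt ℝ ∞ (dl ψ (fun s => ρ s * a s)) t := hTS.2.1 ψ _ t hψ hg
  have hL : ContDiffAt ℝ ∞ (fun s => dl ψ (fun s => ρ s * a s) s / (ρ s * a s)) t :=
    hdg.div hg hg0
  have hdL : ContDiffAt ℝ ∞
      (dl ψ (fun s => dl ψ (fun s => ρ s * a s) s / (ρ s * a s))) t := hTS.2.1 ψ _ t hψ hL
  -- series of L and of its derivative
  have eL : Tay ψ (fun s => dl ψ (fun s => ρ s * a s) s / (ρ s * a s)) t =
      D (Tay ψ (fun s => ρ s * a s) t) * (Tay ψ (fun s => ρ s * a s) t)⁻¹ := by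
    rw [(hTI ψ t hψ (dl ψ (fun s => ρ s * a s)) (fun s => ρ s * a s) hdg hg hg0).2,
      (hTC ψ (fun s => ρ s * a s) (fun s => ρ s * a s) t EventuallyEq.rfl).2.2]
  have edL : Tay ψ (dl ψ (fun s => dl ψ (fun s => ρ s * a s) s / (ρ s * a s))) t =
      D (D (Tay ψ (fun s => ρ s * a s) t) * (Tay ψ (fun s => ρ s * a s) t)⁻¹) := by
    rw [← (hTC ψ _ _ t (EventuallyEq.rfl (f :=
      fun s => dl ψ (fun s => ρ s * a s) s / (ρ s * a s)))).2.2, eL]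
  -- the germ of `ρ toda (j+2)`
  have hgerm : (fun s => ρ s * toda m (j + 2) s) =ᶠ[𝓝 t] fun s =>
      (2 * (ρ s * a s) - ρ s * b s) + (((zc : ℝ) / 2 ^ 160) * x s ^ zs) *
        (((hh : ℝ) + k1 * (dl ψ (fun s => ρ s * a s) s / (ρ s * a s))) -
          k2 * dl ψ (fun s => dl ψ (fun s => ρ s * a s) s / (ρ s * a s)) s) := by
    filter_upwards [hstep a h1 hpos] with s hs
    have e1 : toda m (j + 2) s = 2 * a s - b s - deriv (fun s => deriv a s / a s) s := rfl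
    rw [e1]
    have e2 : ρ s * (2 * a s - b s - deriv (fun s => deriv a s / a s) s) =
        (2 * (ρ s * a s) - ρ s * b s) - ρ s * deriv (fun s => deriv a s / a s) s := by ring
    rw [e2, hs]
    ring
  rw [(hTC ψ _ _ t hgerm).1]
  have c2 : ContDiffAt ℝ ∞ (fun s => 2 * (ρ s * a s)) t := contDiffAt_const.mul hg
  have c3 : ContDiffAt ℝ ∞ (fun s => 2 * (ρ s * a s) - ρ s * b s) t := c2.sub hb'
  have c4 : ContDiffAt ℝ ∞ (fun s => x s ^ zs) t := hx.pow zs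
  have c5 : ContDiffAt ℝ ∞ (fun s => ((zc : ℝ) / 2 ^ 160) * x s ^ zs) t :=
    contDiffAt_const.mul c4
  have c6 : ContDiffAt ℝ ∞
      (fun s => (k1 : ℝ) * (dl ψ (fun s => ρ s * a s) s / (ρ s * a s))) t :=
    contDiffAt_const.mul hL
  have c7 : ContDiffAt ℝ ∞
      (fun s => (hh : ℝ) + k1 * (dl ψ (fun s => ρ s * a s) s / (ρ s * a s))) t :=
    contDiffAt_const.add c6
  have c8 : ContDiffAt ℝ ∞
      (fun s => (k2 : ℝ) * dl ψ (fun s => dl ψ (fun s => ρ s * a s) s / (ρ s * a s)) s) t :=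
    contDiffAt_const.mul hdL
  have c9 : ContDiffAt ℝ ∞
      (fun s => ((hh : ℝ) + k1 * (dl ψ (fun s => ρ s * a s) s / (ρ s * a s))) -
          k2 * dl ψ (fun s => dl ψ (fun s => ρ s * a s) s / (ρ s * a s)) s) t := c7.sub c8
  rw [(hTA ψ t hψ).2.1 _ _ c3 (c5.mul c9), (hTA ψ t hψ).2.2 _ _ c2 hb',
    tln_cmul hTA hTM ψ _ t hψ hg, hTM ψ t hψ _ _ c5 c9, tln_cmul hTA hTM ψ _ t hψ c4,
    tln_pow hTA hTM ψ x t hψ hx, (hTA ψ t hψ).2.2 _ _ c7 c8,
    (hTA ψ t hψ).2.1 _ _ contDiffAt_const c6, (hTA ψ t hψ).1,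
    tln_cmul hTA hTM ψ _ t hψ hL, tln_cmul hTA hTM ψ _ t hψ hdL, eL, edL, nextS]
  have e3 : (C (2 : ℝ) : ℝ⟦X⟧) = 2 := map_ofNat C 2
  rw [e3]

theorem TLN : S_TC → S_TS → S_TA → S_TM → S_TI → S_TLN := by
  intro hTC hTS hTA hTM hTI ψ ρ x m t zc zs hh k1 k2 K hψ hρ hx hm hρ0 hstep hpos
  have key : ∀ (K j : ℕ), ContDiffAt ℝ ∞ (toda m (j + 1)) t → ContDiffAt ℝ ∞ (toda m j) t →
      (∀ k < K, 0 < coeff 0 (seqS (Tay ψ x t) zc zs hh k1 k2 k
        (Tay ψ (fun s => ρ s * toda m (j + 1) s) t) (Tay ψ (fun s => ρ s * toda m j s) t))) →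
      seqS (Tay ψ x t) zc zs hh k1 k2 K (Tay ψ (fun s => ρ s * toda m (j + 1) s) t)
        (Tay ψ (fun s => ρ s * toda m j s) t) =
        Tay ψ (fun s => ρ s * toda m (j + 1 + K) s) t ∧
      ContDiffAt ℝ ∞ (toda m (j + 1 + K)) t := by
    intro K
    induction K with
    | zero =>
      intro j h1 _ _
      exact ⟨rfl, h1⟩
    | succ K ih =>
      intro j h1 h0 hp
      have hp0 := hp 0 (Nat.succ_pos K)
      rw [seqS, (hTC ψ _ _ t (EventuallyEq.rfl (f := fun s => ρ s * toda m (j + 1) s))).2.1]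
        at hp0
      have hpos1 : 0 < toda m (j + 1) t := by
        rcases (mul_pos_iff.mp hp0) with h | h
        · exact h.2
        · exact absurd h.1 (not_lt.mpr hρ0.le)
      have h2 : ContDiffAt ℝ ∞ (toda m (j + 2)) t := hTS.2.2.2 m t j h0 h1 hpos1.ne'
      have hst := tln_step hTC hTS hTA hTM hTI ψ ρ x m t zc zs hh k1 k2 hψ hρ hx hρ0 hstep j
        h1 h0 hpos1
      have hih := ih (j + 1) h2 h1 (fun k hk => by
        have := hp (k + 1) (Nat.succ_lt_succ hk)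
        rw [seqS, ← hst] at this
        exact this)
      have hidx : j + 1 + (K + 1) = j + 1 + 1 + K := by omega
      rw [seqS, ← hst, hidx]
      exact hih
  have h1 : ContDiffAt ℝ ∞ (toda m 1) t := hTS.2.2.1 m t hm
  have h0 : ContDiffAt ℝ ∞ (toda m 0) t := contDiffAt_const
  have hz : Tay ψ (fun s => ρ s * toda m 0 s) t = 0 := by
    have e : (fun s => ρ s * toda m 0 s) = fun _ => (0 : ℝ) := by
      funext s
      show ρ s * 0 = 0
      ring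
    rw [e, (hTA ψ t hψ).1 0, map_zero]
  have hk := key K 0 h1 h0 (by
    intro k hk
    rw [hz]
    exact hpos k hk)
  rw [hz, show 0 + 1 + K = K + 1 by omega] at hk
  refine ⟨?_, hk.2⟩
  rw [show (0 + 1 : ℕ) = 1 from rfl] at hk
  rw [hk.1, (hTC ψ _ _ t (EventuallyEq.rfl (f := fun s => ρ s * toda m (K + 1) s))).2.1]

end TWP
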