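import Pool.Agent.TWP.StMid
import Pool.Agent.TWP.FTS
import Pool.Agent.TWP.FTA
import Pool.Agent.TWP.FTM
import Pool.Agent.TWP.FTI
import Pool.Agent.TWP.FTLN
import Pool.Agent.TWP.FTLMN

/-! TWP: soundness of `checkMN` (module CMN2). -/

namespace TWP

open PowerSeries Filter Topology
open scoped ContDiff

namespace FCMN2

theorem ap_zero (M : ℕ) (r : ℝ) (ξ : ℝ⟦X⟧) : Ap M r ξ 0 ([], 0) := by
  have h : nrm M r (C ((2 : ℝ) ^ 160) * 0 - evZ ξ []) = 0 := by
    show nrm M r (C ((2 : ℝ) ^ 160) * 0 - 0) = 0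
    rw [mul_zero, sub_zero]
    unfold nrm
    refine Finset.sum_eq_zero fun m _ => ?_
    rw [map_zero, abs_zero, zero_mul]
  show nrm M r (C ((2 : ℝ) ^ 160) * 0 - evZ ξ []) ≤ ((0 : ℕ) : ℝ)
  rw [h, Nat.cast_zero]

theorem dl_congr (ψ : ℝ → ℝ) {f g : ℝ → ℝ} {t : ℝ} (h : f =ᶠ[𝓝 t] g) :
    dl ψ f =ᶠ[𝓝 t] dl ψ g := by
  filter_upwards [h.deriv] with s hs
  show ψ s * deriv f s = ψ s * deriv g s
  rw [hs]

theorem iter_congr (ψ : ℝ → ℝ) {f g : ℝ → ℝ} {t : ℝ} (h : f =ᶠ[𝓝 t] g) (n : ℕ) :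
    (dl ψ)^[n] f =ᶠ[𝓝 t] (dl ψ)^[n] g := by
  induction n with
  | zero => exact h
  | succ n ih =>
    rw [Function.iterate_succ_apply', Function.iterate_succ_apply']
    exact dl_congr ψ ih

theorem tc : S_TC := by
  intro ψ f g t h
  refine ⟨?_, ?_, ?_⟩
  · unfold Tay
    ext n
    rw [PowerSeries.coeff_mk, PowerSeries.coeff_mk, (iter_congr ψ h n).eq_of_nhds]
  · unfold Tay
    rw [PowerSeries.coeff_mk, Nat.factorial_zero, Nat.cast_one, div_one]
    rfl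
  · unfold D Tay
    ext n
    rw [PowerSeries.coeff_derivative, PowerSeries.coeff_mk, PowerSeries.coeff_mk,
      Function.iterate_succ_apply, Nat.factorial_succ, Nat.cast_mul, Nat.cast_add, Nat.cast_one]
    have h1 : ((n : ℝ) + 1) ≠ 0 := by positivity
    have h2 : ((n.factorial : ℕ) : ℝ) ≠ 0 := Nat.cast_ne_zero.2 (Nat.factorial_ne_zero n)
    field_simp

end FCMN2

open FCMN2 in
theorem t_CMN2 (hCB : S_CB) (hCHAINN : S_CHAINN) : S_CMN2 := by
  have hTC : S_TC := tc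
  intro q l two k0 M N h r0 rs tab cn ln eta k L Q hql hr hr0 hh hln hrad hrs hlen hchk hL hQ t ht
  unfold K.checkMN at hchk
  rcases hG : K.baseG M h r0 cn ln eta k L Q with _ | G
  · rw [hG] at hchk
    exact absurd hchk Bool.false_ne_true
  rw [hG] at hchk
  rcases tab with _ | ⟨⟨w0, c0⟩, tab'⟩
  · exact absurd hchk Bool.false_ne_true
  rcases hm : (if two then K.m0two w0 N cn ln (L, G) (Q, G) else
    K.m0one w0 N cn ln (L, G) (Q, G)) with _ | m
  · simp only [hm] at hchk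
    exact absurd hchk Bool.false_ne_true
  simp only [hm] at hchk
  have hlen' : 2 * k0 + 1 ≤ tab'.length := by
    rw [List.length_cons] at hlen
    omega
  have htab' : tab' ≠ [] := by
    intro h0
    rw [h0, List.length_nil] at hlen'
    omega
  obtain ⟨hsm, hlaw, hξ0, rs', hTab, hAp⟩ := hCB q l two M N h r0 rs w0 c0 tab' cn ln eta k L Q G m
    hql hr hr0 hh hln hrad hrs htab' hG hm hL hQ t _ ht rfl
  have hchain := hCHAINN false N h (2 ^ 160) 0 0 0 1 k0 (M - 1) _ _ 0 rs' tab' _ ([], 0) hlen' hchk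
    hTab hlaw hξ0 hAp (ap_zero _ _ _)
  have hTA := TA hTC TS
  have hTM := TM hTC TS hTA
  have hTI := TI hTC TS hTA hTM
  have hTLN := TLN hTC TS hTA hTM hTI
  have hlam : (0 : ℝ) < (ln : ℝ) / 64 := div_pos (Nat.cast_pos.2 hln) (by norm_num)
  have hfin := (TLMN hTC TS hTA hTM hTI hTLN) ((ln : ℝ) / 64) ((cn : ℝ) / 64) (mSel q l two) t k0
    hlam hsm hchain.1
  have hneg := hchain.2
  rw [hfin.1] at hneg
  by_contra hcon
  have h1 : 0 ≤ ((ln : ℝ) / 64) ^ 2 * toda (mSel q l two) (k0 + 1) t :=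
    mul_nonneg (pow_nonneg hlam.le 2) (le_of_not_gt hcon)
  linarith

end TWP
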