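import Pool.Agent.TWP.StT

/-! TWP, module DAR: the reduction of the derivatives is the Toda chain. -/

namespace TWP

open Filter Topology
open scoped ContDiff

/-- the systems `s k` of module DAR -/
noncomputable def darS (f : ℝ → ℝ) : ℕ → ℕ → ℝ → ℝ
  | 0, j => fun t => (-1) ^ j * iteratedDeriv j f t
  | k + 1, j => deriv (fun t => darS f k (j + 1) t / darS f k 0 t)

/-- the quotients `p k` of module DAR -/
noncomputable def darP (f : ℝ → ℝ) (k j : ℕ) : ℝ → ℝ := fun t => darS f k j t / darS f k 0 t

/-- the quotients of the previous index -/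
noncomputable def darPm (f : ℝ → ℝ) : ℕ → ℕ → ℝ → ℝ
  | 0, _ => fun _ => 0
  | k + 1, j => darP f k j

theorem darS_zero (f : ℝ → ℝ) (j : ℕ) (t : ℝ) : darS f 0 j t = (-1) ^ j * iteratedDeriv j f t := rfl

theorem darS_succ (f : ℝ → ℝ) (k j : ℕ) : darS f (k + 1) j = deriv (darP f k (j + 1)) := rfl

theorem dar_smooth_iter (f : ℝ → ℝ) (hf : ContDiff ℝ ∞ f) (j : ℕ) :
    ContDiff ℝ ∞ (iteratedDeriv j f) := by
  induction j with
  | zero => rw [iteratedDeriv_zero]; exact hf
  | succ j ih =>
    rw [iteratedDeriv_succ]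
    exact (contDiff_infty_iff_deriv.mp ih).2

/-- what is known about the index `k` -/
structure DarInv (f : ℝ → ℝ) (k : ℕ) : Prop where
  sm : ∀ j, ContDiff ℝ ∞ (darS f k j)
  pos : ∀ t, 0 < darS f k 0 t
  hPm : ∀ j t, HasDerivAt (darPm f k (j + 1))
    (toda (fun t => deriv f t / f t) k t * darP f k j t) t
  hR : ∀ j t, HasDerivAt (darP f k j)
    (-darP f k (j + 1) t + (darP f k 1 t - darPm f k 1 t) * darP f k j t + darPm f k (j + 1) t) t
  hT : ∀ t, darS f (k + 1) 0 t = toda (fun t => deriv f t / f t) (k + 1) t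

theorem DarInv.smP {f : ℝ → ℝ} {k : ℕ} (h : DarInv f k) (j : ℕ) : ContDiff ℝ ∞ (darP f k j) :=
  (h.sm j).div (h.sm 0) (fun t => ne_of_gt (h.pos t))

theorem DarInv.smS {f : ℝ → ℝ} {k : ℕ} (h : DarInv f k) (j : ℕ) :
    ContDiff ℝ ∞ (darS f (k + 1) j) := by
  rw [darS_succ]
  exact (contDiff_infty_iff_deriv.mp (h.smP (j + 1))).2

theorem DarInv.dP {f : ℝ → ℝ} {k : ℕ} (h : DarInv f k) (j : ℕ) (t : ℝ) :
    HasDerivAt (darP f k (j + 1)) (darS f (k + 1) j t) t := by
  rw [darS_succ]
  exact ((contDiff_infty_iff_deriv.mp (h.smP (j + 1))).1 t).hasDerivAt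

theorem dar_base (f : ℝ → ℝ) (hf : ContDiff ℝ ∞ f) (hpos : ∀ t, 0 < f t) : DarInv f 0 := by
  have h00 : ∀ t, darS f 0 0 t = f t := by
    intro t; rw [darS_zero, iteratedDeriv_zero]; ring
  have h01 : ∀ t, darS f 0 1 t = -deriv f t := by
    intro t; rw [darS_zero, iteratedDeriv_one]; ring
  have hsm : ∀ j, ContDiff ℝ ∞ (darS f 0 j) := fun j =>
    contDiff_const.mul (dar_smooth_iter f hf j)
  have hder : ∀ j t, HasDerivAt (darS f 0 j) (-darS f 0 (j + 1) t) t := by
    intro j t
    have h1 : HasDerivAt (iteratedDeriv j f) (iteratedDeriv (j + 1) f t) t := by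
      rw [iteratedDeriv_succ]
      exact ((contDiff_infty_iff_deriv.mp (dar_smooth_iter f hf j)).1 t).hasDerivAt
    have h2 := h1.const_mul ((-1 : ℝ) ^ j)
    have h3 : -darS f 0 (j + 1) t = (-1) ^ j * iteratedDeriv (j + 1) f t := by
      rw [darS_zero]; ring
    rw [h3]
    exact h2
  refine ⟨hsm, fun t => by rw [h00]; exact hpos t, ?_, ?_, ?_⟩
  · intro j t
    have : toda (fun t => deriv f t / f t) 0 t * darP f 0 j t = 0 := by
      simp [toda]
    rw [this]
    exact hasDerivAt_const t (0 : ℝ)
  · intro j t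
    have hne : darS f 0 0 t ≠ 0 := by rw [h00]; exact ne_of_gt (hpos t)
    have h1 := (hder j t).div (hder 0 t) hne
    have h2 : -darP f 0 (j + 1) t + (darP f 0 1 t - darPm f 0 1 t) * darP f 0 j t +
        darPm f 0 (j + 1) t =
        (-darS f 0 (j + 1) t * darS f 0 0 t - darS f 0 j t * -darS f 0 (0 + 1) t) /
          darS f 0 0 t ^ 2 := by
      have e1 : darPm f 0 1 t = 0 := rfl
      have e2 : darPm f 0 (j + 1) t = 0 := rfl
      rw [e1, e2]
      unfold darP
      field_simp
      ring
    rw [h2]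
    exact h1
  · intro t
    have e1 : darS f (0 + 1) 0 = deriv (fun t => -(deriv f t / f t)) := by
      rw [darS_succ]
      congr 1
      funext u
      unfold darP
      rw [zero_add, h01, h00, neg_div]
    rw [e1]
    simp only [toda]
    exact deriv.fun_neg

theorem dar_step (f : ℝ → ℝ) (k : ℕ) (h : DarInv f k)
    (hp : ∀ t, 0 < toda (fun t => deriv f t / f t) (k + 1) t) : DarInv f (k + 1) := by
  have hpos : ∀ t, 0 < darS f (k + 1) 0 t := fun t => by rw [h.hT]; exact hp t
  have hne : ∀ t, darS f (k + 1) 0 t ≠ 0 := fun t => ne_of_gt (hpos t)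
  have hP0 : ∀ t, darP f k 0 t = 1 := fun t => div_self (ne_of_gt (h.pos t))
  have hmul : ∀ j t, darS f (k + 1) j t = darS f (k + 1) 0 t * darP f (k + 1) j t := by
    intro j t
    unfold darP
    rw [mul_div_cancel₀]
    exact hne t
  -- formula for `s (k+1) j`
  have hform : ∀ j, darS f (k + 1) j = fun t => -darP f k (j + 2) t +
      (darP f k 1 t - darPm f k 1 t) * darP f k (j + 1) t + darPm f k (j + 2) t := by
    intro j
    funext t
    exact (h.dP j t).unique (h.hR (j + 1) t)
  have hB : ∀ t, HasDerivAt (fun t => darP f k 1 t - darPm f k 1 t)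
      (darS f (k + 1) 0 t - toda (fun t => deriv f t / f t) k t) t := by
    intro t
    have h1 := (h.dP 0 t).sub (h.hPm 0 t)
    rw [hP0, mul_one] at h1
    exact h1
  have hE : ∀ j t, HasDerivAt (darS f (k + 1) j)
      (darS f (k + 1) 0 t * (-darP f (k + 1) (j + 1) t + darP f k (j + 1) t +
        (darP f k 1 t - darPm f k 1 t) * darP f (k + 1) j t)) t := by
    intro j t
    have h1 := (((h.dP (j + 1) t).neg).add ((hB t).mul (h.dP j t))).add (h.hPm (j + 1) t)
    rw [hform j]
    have e : -darS f (k + 1) (j + 1) t +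
        ((darS f (k + 1) 0 t - toda (fun t => deriv f t / f t) k t) * darP f k (j + 1) t +
          (darP f k 1 t - darPm f k 1 t) * darS f (k + 1) j t) +
        toda (fun t => deriv f t / f t) k t * darP f k (j + 1) t =
        darS f (k + 1) 0 t * (-darP f (k + 1) (j + 1) t + darP f k (j + 1) t +
        (darP f k 1 t - darPm f k 1 t) * darP f (k + 1) j t) := by
      rw [hmul (j + 1) t, hmul j t]
      ring
    rw [← e]
    exact h1
  have hP0' : ∀ t, darP f (k + 1) 0 t = 1 := fun t => div_self (hne t)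
  have hR : ∀ j t, HasDerivAt (darP f (k + 1) j)
      (-darP f (k + 1) (j + 1) t + (darP f (k + 1) 1 t - darPm f (k + 1) 1 t) *
        darP f (k + 1) j t + darPm f (k + 1) (j + 1) t) t := by
    intro j t
    have h1 := (hE j t).div (hE 0 t) (hne t)
    have e1 : darPm f (k + 1) 1 t = darP f k 1 t := rfl
    have e2 : darPm f (k + 1) (j + 1) t = darP f k (j + 1) t := rfl
    have e3 : -darP f (k + 1) (j + 1) t + (darP f (k + 1) 1 t - darPm f (k + 1) 1 t) *
        darP f (k + 1) j t + darPm f (k + 1) (j + 1) t =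
        (darS f (k + 1) 0 t * (-darP f (k + 1) (j + 1) t + darP f k (j + 1) t +
          (darP f k 1 t - darPm f k 1 t) * darP f (k + 1) j t) * darS f (k + 1) 0 t -
          darS f (k + 1) j t * (darS f (k + 1) 0 t * (-darP f (k + 1) (0 + 1) t +
            darP f k (0 + 1) t + (darP f k 1 t - darPm f k 1 t) * darP f (k + 1) 0 t))) /
          darS f (k + 1) 0 t ^ 2 := by
      rw [e1, e2, hP0', hmul j t, zero_add]
      have hn := hne t
      generalize darS f (k + 1) 0 t = a at hn ⊢
      field_simp
      ring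
    rw [e3]
    exact h1
  have hdP : ∀ t, HasDerivAt (darP f (k + 1) 1) (darS f (k + 2) 0 t) t := by
    intro t
    have e : darS f (k + 2) 0 = deriv (darP f (k + 1) 1) := rfl
    rw [e]
    exact (hR 1 t).differentiableAt.hasDerivAt
  refine ⟨h.smS, hpos, ?_, hR, ?_⟩
  · intro j t
    have h1 := h.dP j t
    have e : toda (fun t => deriv f t / f t) (k + 1) t * darP f (k + 1) j t =
        darS f (k + 1) j t := by
      rw [← h.hT, ← hmul]
    rw [e]
    exact h1
  · intro t
    have e1 : toda (fun t => deriv f t / f t) (k + 1) = darS f (k + 1) 0 := by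
      funext u; exact (h.hT u).symm
    have e2 : toda (fun t => deriv f t / f t) (k + 1 + 1) t =
        2 * toda (fun t => deriv f t / f t) (k + 1) t - toda (fun t => deriv f t / f t) k t -
        deriv (fun s => deriv (toda (fun t => deriv f t / f t) (k + 1)) s /
          toda (fun t => deriv f t / f t) (k + 1) s) t := by
      simp only [toda]
    have e3 : (fun s => deriv (toda (fun t => deriv f t / f t) (k + 1)) s /
          toda (fun t => deriv f t / f t) (k + 1) s) =
        fun s => -darP f (k + 1) 1 s + darP f k 1 s + (darP f k 1 s - darPm f k 1 s) := by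
      funext s
      rw [e1, (hE 0 s).deriv, mul_div_assoc, mul_comm, div_mul_cancel₀ _ (hne s), hP0', mul_one]
    have h1 := (((hdP t).neg).add (h.dP 0 t)).add (hB t)
    have e4 : deriv (fun s => -darP f (k + 1) 1 s + darP f k 1 s +
        (darP f k 1 s - darPm f k 1 s)) t =
        -darS f (k + 2) 0 t + darS f (k + 1) 0 t +
          (darS f (k + 1) 0 t - toda (fun t => deriv f t / f t) k t) := h1.deriv
    rw [e2, e3, e4, e1]
    ring

theorem t_DAR : S_DAR := by
  intro f n hf hpos htod
  have hinv : ∀ k, k < n → DarInv f k := by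
    intro k
    induction k with
    | zero => intro _; exact dar_base f hf hpos
    | succ k ih =>
      intro hk
      exact dar_step f k (ih (by omega)) (htod (k + 1) (by omega) hk)
  refine ⟨darS f, fun j t => rfl, fun k _ j => rfl, ?_, ?_⟩
  · intro k hk j
    cases k with
    | zero => exact contDiff_const.mul (dar_smooth_iter f hf j)
    | succ k => exact (hinv k (by omega)).smS j
  · intro k hk1 hk t
    cases k with
    | zero => omega
    | succ k => exact (hinv k (by omega)).hT t

end TWP
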