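import Pool.Agent.TWP.StG
import Pool.Agent.TWP.KSt2

/-! TWP, middle charts: statements (the soundness of `baseG`, `checkM`, `checkMN`).
Every `S_xxx` is a module `TWP_xxx` (`theorem TWP.t_xxx : … → S_xxx`). -/

namespace TWP

open PowerSeries Filter Topology
open scoped ContDiff

/-- value of a list at a real number -/
noncomputable def evR (u : ℝ) : List ℤ → ℝ
  | [] => 0
  | a :: P => (a : ℝ) + u * evR u P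

/-- GA. Lists as real polynomials. Proof. Inductions on `P`. Derivative: for all `n`, with `d` the
derivative of `v ↦ evR v P` at `u`: `n * evR u P + u * d = evR u (derMAux n P)`. Bound: `nL 4096 (a :: P) =
|a| + (nL 4096 P * 4096 / 4096 + 1)`. -/
def S_GA : Prop := ∀ (u : ℝ) (P : List ℤ),
  (∀ ξ : ℝ⟦X⟧, coeff 0 ξ = u → coeff 0 (evZ ξ P) = evR u P) ∧
  HasDerivAt (fun v => evR v P) (evR u (K.derM P)) u ∧
  (|u| ≤ 1 → |evR u P| ≤ (K.nL 4096 P : ℝ))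

/-- the polynomial `P / 2^160` in `ξ` -/
noncomputable def pZ (ξ : ℝ⟦X⟧) (P : List ℤ) : ℝ⟦X⟧ := C (((2 : ℝ) ^ 160)⁻¹) * evZ ξ P

/-- what `baseG M h r0 cn ln eta k L Q = some G` says (`r1`, `r2` residual bounds, `Lam` the Lipschitz
constant; everything in units of `2^-160`). -/
structure BG (M h r0 : ℕ) (cn : ℤ) (ln eta k : ℕ) (L Q : List ℤ) (G r1 r2 Lam : ℕ) : Prop where
  res1 : ∀ (M' : ℕ) (r : ℝ) (ξ : ℝ⟦X⟧), 0 ≤ r → nrm M' r ξ ≤ 1 →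
    nrm M' r (pZ ξ (K.derM L) - C ((ln : ℝ) / 64) *
      ((C ((cn : ℝ) / 64) + C ((ln : ℝ) / 64) * ξ) + 2 * pZ ξ Q ^ 2 - pZ ξ L ^ 2)) ≤ (r1 : ℝ) / 2 ^ 160
  res2 : ∀ (M' : ℕ) (r : ℝ) (ξ : ℝ⟦X⟧), 0 ≤ r → nrm M' r ξ ≤ 1 →
    nrm M' r (pZ ξ (K.derM Q) - C ((ln : ℝ) / 64) * (pZ ξ L * pZ ξ Q)) ≤ (r2 : ℝ) / 2 ^ 160
  lam1 : (2 : ℝ) ^ 160 ≤ Lam
  lam2 : (ln : ℝ) / 64 * (4 * K.nL 4096 Q + 2 * K.nL 4096 L) + 2 ^ 160 / 1000 ≤ (Lam : ℝ)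
  lam3 : (Lam : ℝ) * h ≤ k * 2 ^ 160 * 4096
  fin : 2 * ((ln : ℝ) / 64) * G ≤ 2 ^ 160 / 1000
  eqG : G = K.prodUp (Lam * r0 / 4096 + 1) M ((2 * eta + (r1 + r2)) * 3 ^ k + (r1 + r2))

/-- GB. Proof. Unfold `baseG`; `r1 = nL 4096 resl / (4096 * ONE) + 1`, `r2 = nL 4096 resq / (64 * ONE) + 1`,
`Lam = max …`. `4096 * 2^320 * (the series in res1) = evZ ξ resl` (EVA, MUL: `okMul`), NL with `w = 4096`
and natural division; the same for `res2` with `64 * 2^320`. -/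
def S_GB : Prop := ∀ (M h r0 : ℕ) (cn : ℤ) (ln eta k : ℕ) (L Q : List ℤ) (G : ℕ),
  K.baseG M h r0 cn ln eta k L Q = some G →
  ∃ r1 r2 Lam : ℕ, BG M h r0 cn ln eta k L Q G r1 r2 Lam

/-- GI. The interval part. Proof. GR with `lam = ln/64`, `c = cn/64`, `h/4096`, `e0 = 2 eta/2^160`,
`r_i/2^160`, `nl = nL 4096 L/2^160`, `nq = nL 4096 Q/2^160`, `Lam/2^160`, `pl u = evR u L/2^160`,
`pl' u = evR u (derM L)/2^160` (GA). The residual bounds at `u`, `|u| ≤ h/4096 ≤ 1`, are `res1`, `res2` for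
`M' = 0`, `r = 0`, `ξ = C u` (`nrm 0 r S = |coeff 0 S|`, `coeff 0` is a ring homomorphism, GA). The last
hypothesis of GR from `fin` and `(2 eta + r1 + r2) 3^k ≤ G` (`prodUp x M p ≥ p`). -/
def S_GI : Prop := ∀ (q l : ℝ → ℝ) (M h r0 : ℕ) (cn : ℤ) (ln eta k : ℕ) (L Q : List ℤ)
  (G r1 r2 Lam : ℕ), QL q l → h + r0 = 4096 → 0 < r0 → 0 < h → 0 < ln →
  BG M h r0 cn ln eta k L Q G r1 r2 Lam →
  |(2 : ℝ) ^ 160 * l ((cn : ℝ) / 64) - (L.headD 0 : ℤ)| ≤ eta →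
  |(2 : ℝ) ^ 160 * q ((cn : ℝ) / 64) - (Q.headD 0 : ℤ)| ≤ eta →
  ∀ u : ℝ, |u| ≤ (h : ℝ) / 4096 →
    |(2 : ℝ) ^ 160 * l ((cn : ℝ) / 64 + (ln : ℝ) / 64 * u) - evR u L| +
    |(2 : ℝ) ^ 160 * q ((cn : ℝ) / 64 + (ln : ℝ) / 64 * u) - evR u Q| ≤
      ((2 * eta + (r1 + r2)) * 3 ^ k : ℕ)

/-- GJ. The jets. Proof. `ξ = Tay λ ((s - c)/λ) t = C u + X` (XI), `D ξ = 1`, `nrm M r ξ ≤ |u| + r ≤ 1`
(`r = r0/4096`). JE with `l ↦ Tay λ l t`, `q ↦ Tay λ q t`, `pL = pZ ξ L`, `pQ = pZ ξ Q`,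
`τ = C c + C λ * ξ`: `D (Tay λ l t) = Tay λ (dl λ l) t` (TC), `dl λ l = λ (s + 2 q² - l²)` (from `QL`), TA,
TM, XI; `D (pZ ξ L) = pZ ξ (derM L)` (DER with `tail = false`, `D (C a * S) = C a * D S`); `res1`, `res2`;
`nrm (pZ ξ L) ≤ nL/2^160` (NL); `coeff 0 (Tay λ l t) = l t`, `t = c + λ u`, `coeff 0 (pZ ξ L) = evR u L/2^160`
(GA), so `G0 = (2 eta + r1 + r2) 3^k/2^160`; PU with `y = r Lam/2^160 ≤ (Lam r0/4096 + 1)/2^160`, so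
`(G0 + ρ) ∏ ≤ G/2^160`; multiply by `2^160`: `C (2^160) * (S - pZ ξ L) = C (2^160) * S - evZ ξ L`. -/
def S_GJ : Prop := ∀ (q l : ℝ → ℝ) (M h r0 : ℕ) (cn : ℤ) (ln eta k : ℕ) (L Q : List ℤ)
  (G r1 r2 Lam : ℕ), QL q l → h + r0 = 4096 → 0 < r0 → 0 < h → 0 < ln →
  BG M h r0 cn ln eta k L Q G r1 r2 Lam →
  ∀ t u : ℝ, u = (t - (cn : ℝ) / 64) / ((ln : ℝ) / 64) → |u| ≤ (h : ℝ) / 4096 →
    |(2 : ℝ) ^ 160 * l t - evR u L| + |(2 : ℝ) ^ 160 * q t - evR u Q| ≤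
      ((2 * eta + (r1 + r2)) * 3 ^ k : ℕ) →
    Ap M ((r0 : ℝ) / 4096) (Tay (fun _ => (ln : ℝ) / 64) (fun s => (s - (cn : ℝ) / 64) / ((ln : ℝ) / 64)) t)
      (Tay (fun _ => (ln : ℝ) / 64) l t) (L, G) ∧
    Ap M ((r0 : ℝ) / 4096) (Tay (fun _ => (ln : ℝ) / 64) (fun s => (s - (cn : ℝ) / 64) / ((ln : ℝ) / 64)) t)
      (Tay (fun _ => (ln : ℝ) / 64) q t) (Q, G)

/-- `(log f_2)'` or `(log f_1)'` -/
noncomputable def mSel (q l : ℝ → ℝ) (two : Bool) : ℝ → ℝ := if two then mTwo q l else mOne q l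

/-- CB. The first term of the chain, common to `checkM` and `checkMN`. Proof. `ξ = Tay …` (XI),
`r = r0/4096`, GS gives `Ap` of `Tay λ l t` and `Tay λ q t`. M2/M1 give `Ap` of the series, which is
`C λ * Tay λ (mSel q l two) t` (TA, TM, TI, XI: `Tay λ (gf q l) t = l̂² - (C c + C λ ξ) - q̂²`; QS; `coeff 0`
of it is `gf q l t ≠ 0`, so `mSel` is smooth at `t`). Then LIN (derivative, `OkD` from `radOK`; `intA (-1)`):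
`Ap (M - 1) r' ξ (- D (…))`. `rs = r0 :: r' :: rs'`; RT for `TabOK`. (RT: the cast list is
`rs.map fun r : ℕ => (r : ℝ) / 4096`, see `TWP.RT_list`, `TWP.RT_aux` in `FRT.lean`.) -/
def S_CB : Prop := ∀ (q l : ℝ → ℝ) (two : Bool) (M N h r0 : ℕ) (rs : List ℕ) (w0 c0 : ℕ) (tab' : K.Tab)
  (cn : ℤ) (ln eta k : ℕ) (L Q : List ℤ) (G : ℕ) (m : K.AP), QL q l → h + r0 = 4096 → 0 < r0 → 0 < h →
  0 < ln → radOK h M rs ((w0, c0) :: tab') = true → rs.headD 0 = r0 → tab' ≠ [] →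
  K.baseG M h r0 cn ln eta k L Q = some G →
  (if two then K.m0two w0 N cn ln (L, G) (Q, G) else K.m0one w0 N cn ln (L, G) (Q, G)) = some m →
  |(2 : ℝ) ^ 160 * l ((cn : ℝ) / 64) - (L.headD 0 : ℤ)| ≤ eta →
  |(2 : ℝ) ^ 160 * q ((cn : ℝ) / 64) - (Q.headD 0 : ℤ)| ≤ eta →
  ∀ (t : ℝ) (ξ : ℝ⟦X⟧), |(t - (cn : ℝ) / 64) / ((ln : ℝ) / 64)| ≤ (h : ℝ) / 4096 →
    ξ = Tay (fun _ => (ln : ℝ) / 64) (fun s => (s - (cn : ℝ) / 64) / ((ln : ℝ) / 64)) t →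
    ContDiffAt ℝ ∞ (mSel q l two) t ∧ Law false ξ ∧ |coeff 0 ξ| ≤ (h : ℝ) / 4096 ∧
    ∃ rs' : List ℝ, TabOK ξ (M - 1) rs' tab' ∧
      Ap (M - 1) (rs'.headD 1) ξ
        (- D (C ((ln : ℝ) / 64) * Tay (fun _ => (ln : ℝ) / 64) (mSel q l two) t))
        (K.intA (-1) (K.derA false c0 m))

/-- CM2: soundness of `checkM` (the final form, with the length of the table). From CB, CHAIN (`S' = 0`:
`Ap … 0 ([], 0)`), TLM. -/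
def S_CM2 : Prop := ∀ (q l : ℝ → ℝ) (two : Bool) (k0 M N h r0 : ℕ) (rs : List ℕ) (tab : K.Tab) (cn : ℤ)
  (ln eta k : ℕ) (L Q : List ℤ), QL q l → h + r0 = 4096 → 0 < r0 → 0 < h → 0 < ln →
  radOK h M rs tab = true → rs.headD 0 = r0 → 2 * k0 + 2 ≤ tab.length →
  K.checkM two k0 M N h r0 tab cn ln eta k L Q = true →
  |(2 : ℝ) ^ 160 * l ((cn : ℝ) / 64) - (L.headD 0 : ℤ)| ≤ eta →
  |(2 : ℝ) ^ 160 * q ((cn : ℝ) / 64) - (Q.headD 0 : ℤ)| ≤ eta →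
  ∀ t : ℝ, |(t - (cn : ℝ) / 64) / ((ln : ℝ) / 64)| ≤ (h : ℝ) / 4096 →
    ∀ j, 1 ≤ j → j ≤ k0 + 1 →
      0 < toda (mSel q l two) j t ∧ ContDiffAt ℝ ∞ (toda (mSel q l two) j) t

/-- CMN2: soundness of `checkMN` (final form). From CB, CHAINN, TLMN. -/
def S_CMN2 : Prop := ∀ (q l : ℝ → ℝ) (two : Bool) (k0 M N h r0 : ℕ) (rs : List ℕ) (tab : K.Tab) (cn : ℤ)
  (ln eta k : ℕ) (L Q : List ℤ), QL q l → h + r0 = 4096 → 0 < r0 → 0 < h → 0 < ln →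
  radOK h M rs tab = true → rs.headD 0 = r0 → 2 * k0 + 2 ≤ tab.length →
  K.checkMN two k0 M N h r0 tab cn ln eta k L Q = true →
  |(2 : ℝ) ^ 160 * l ((cn : ℝ) / 64) - (L.headD 0 : ℤ)| ≤ eta →
  |(2 : ℝ) ^ 160 * q ((cn : ℝ) / 64) - (Q.headD 0 : ℤ)| ≤ eta →
  ∀ t : ℝ, |(t - (cn : ℝ) / 64) / ((ln : ℝ) / 64)| ≤ (h : ℝ) / 4096 →
    toda (mSel q l two) (k0 + 1) t < 0

end TWP
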