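import Mathlib
import Pool.Agent.TWP.StMid

/-!
# TWP, module GA (helper52): integer lists as real polynomials
-/

set_option autoImplicit false

namespace TWP

open PowerSeries Filter Topology

theorem evR_zero (u : ℝ) : evR u [] = 0 := rfl

theorem evR_cons (u : ℝ) (a : ℤ) (P : List ℤ) : evR u (a :: P) = (a : ℝ) + u * evR u P := rfl

theorem GA_coeff (u : ℝ) (ξ : ℝ⟦X⟧) (hξ : coeff 0 ξ = u) (P : List ℤ) :
    coeff 0 (evZ ξ P) = evR u P := by
  induction P with
  | nil => simp [evZ, evR]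
  | cons a P ih =>
    rw [evR_cons, ← ih, ← hξ]
    simp [evZ]

theorem GA_der (u : ℝ) (P : List ℤ) : ∃ d : ℝ, HasDerivAt (fun v => evR v P) d u ∧
    ∀ n : ℤ, (n : ℝ) * evR u P + u * d = evR u (K.derMAux n P) := by
  induction P with
  | nil =>
    refine ⟨0, ?_, fun n => ?_⟩
    · have : (fun v : ℝ => evR v []) = fun _ => (0 : ℝ) := rfl
      rw [this]
      exact hasDerivAt_const u 0
    · simp [evR, K.derMAux]
  | cons a P ih =>
    obtain ⟨d, hd, hn⟩ := ih
    refine ⟨evR u P + u * d, ?_, fun n => ?_⟩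
    · have h1 : HasDerivAt (fun v : ℝ => (a : ℝ) + v * evR v P) (1 * evR u P + u * d) u :=
        ((hasDerivAt_id u).mul hd).const_add _
      rw [one_mul] at h1
      exact h1
    · have h2 := hn (n + 1)
      have h3 : evR u (K.derMAux n (a :: P)) =
          ((n * a : ℤ) : ℝ) + u * evR u (K.derMAux (n + 1) P) := rfl
      rw [h3, ← h2, evR_cons]
      push_cast
      ring

theorem GA_bound (u : ℝ) (hu : |u| ≤ 1) (P : List ℤ) : |evR u P| ≤ (K.nL 4096 P : ℝ) := by
  induction P with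
  | nil => simp [evR, K.nL]
  | cons a P ih =>
    have h1 : K.nL 4096 (a :: P) = a.natAbs + (K.nL 4096 P * 4096 / 4096 + 1) := rfl
    have h2 : K.nL 4096 P * 4096 / 4096 = K.nL 4096 P := Nat.mul_div_cancel _ (by norm_num)
    rw [h1, h2, evR_cons]
    have h3 : |(a : ℝ) + u * evR u P| ≤ |(a : ℝ)| + |u * evR u P| := abs_add_le _ _
    have h4 : |u * evR u P| ≤ (K.nL 4096 P : ℝ) := by
      rw [abs_mul]
      calc |u| * |evR u P| ≤ 1 * |evR u P| := mul_le_mul_of_nonneg_right hu (abs_nonneg _)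
        _ = |evR u P| := one_mul _
        _ ≤ _ := ih
    have h5 : ((a.natAbs : ℕ) : ℝ) = |(a : ℝ)| := by
      rw [Nat.cast_natAbs, Int.cast_abs]
    push_cast
    rw [← h5] at h3
    linarith

theorem t_GA : S_GA := by
  intro u P
  refine ⟨fun ξ hξ => GA_coeff u ξ hξ P, ?_, fun hu => GA_bound u hu P⟩
  cases P with
  | nil =>
    have : (fun v : ℝ => evR v []) = fun _ => (0 : ℝ) := rfl
    rw [this]
    exact hasDerivAt_const u 0
  | cons a P =>
    obtain ⟨d, hd, hn⟩ := GA_der u P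
    have h1 : HasDerivAt (fun v : ℝ => (a : ℝ) + v * evR v P) (1 * evR u P + u * d) u :=
      ((hasDerivAt_id u).mul hd).const_add _
    have h2 := hn 1
    have h3 : evR u (K.derM (a :: P)) = evR u (K.derMAux 1 P) := rfl
    rw [h3, ← h2]
    push_cast
    exact h1

end TWP
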