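import Mathlib
import Pool.Agent.TWP.StMid
import Pool.Agent.TWP.KNrm

set_option autoImplicit false

namespace TWP

open PowerSeries Finset

theorem GB_div (n d : ℕ) (hd : 0 < d) : (n : ℝ) ≤ ((n / d + 1 : ℕ) : ℝ) * (d : ℝ) := by
  have h : n ≤ (n / d + 1) * d := by
    have := Nat.lt_div_mul_add (a := n) hd
    rw [add_mul, one_mul]; exact this.le
  exact_mod_cast h

theorem GB_one : ((K.ONE : ℕ) : ℝ) = 2 ^ 160 := by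
  unfold K.ONE
  rw [Nat.cast_pow, Nat.cast_ofNat]

theorem GB_pow : (2 : ℝ) ^ 320 = 2 ^ 160 * 2 ^ 160 := by
  rw [← pow_add]

theorem GB_onepos : 0 < K.ONE := by
  unfold K.ONE
  exact pow_pos (by norm_num) _

/-- from the identity for the residual list to the norm bound -/
theorem GB_res (hNL : S_NL) (ξ S : ℝ⟦X⟧) (P : List ℤ) (s : ℕ) (hs : 0 < s)
    (hev : evZ ξ P = C ((s : ℝ) * 2 ^ 320) * S) (M' : ℕ) (r : ℝ) (hr : 0 ≤ r)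
    (hξ : nrm M' r ξ ≤ 1) :
    nrm M' r S ≤ ((K.nL 4096 P / (s * K.ONE) + 1 : ℕ) : ℝ) / 2 ^ 160 := by
  have h1 : nrm M' r (evZ ξ P) ≤ (K.nL 4096 P : ℝ) := by
    refine hNL M' r ξ 4096 P hr ?_
    have : ((4096 : ℕ) : ℝ) / 4096 = 1 := by norm_num
    rw [this]; exact hξ
  have hspos : (0 : ℝ) < (s : ℝ) := Nat.cast_pos.2 hs
  have hp : (0 : ℝ) < (2 : ℝ) ^ 160 := by positivity
  rw [hev, nrm_C_mul, abs_of_pos (by positivity)] at h1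
  have h2 := GB_div (K.nL 4096 P) (s * K.ONE) (Nat.mul_pos hs GB_onepos)
  rw [Nat.cast_mul, GB_one] at h2
  rw [le_div_iff₀ hp]
  have h3 : (s : ℝ) * 2 ^ 320 * nrm M' r S ≤
      ((K.nL 4096 P / (s * K.ONE) + 1 : ℕ) : ℝ) * ((s : ℝ) * 2 ^ 160) := h1.trans h2
  have h4 : (2 : ℝ) ^ 320 = 2 ^ 160 * 2 ^ 160 := by rw [← pow_add]
  rw [h4] at h3
  have h5 : (0 : ℝ) < (s : ℝ) * 2 ^ 160 := mul_pos hspos hp
  refine le_of_mul_le_mul_left ?_ h5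
  calc (s : ℝ) * 2 ^ 160 * (nrm M' r S * 2 ^ 160)
      = (s : ℝ) * (2 ^ 160 * 2 ^ 160) * nrm M' r S := by ring
    _ ≤ _ := h3
    _ = _ := by ring

theorem t_GB (hEVA : S_EVA) (hMUL : S_MUL) (hNL : S_NL) : S_GB := by
  intro M h r0 cn ln eta k L Q G hG
  unfold K.baseG at hG
  dsimp only at hG
  by_cases h1 : (K.okMul L L && K.okMul Q Q && K.okMul L Q) = true
  swap
  · rw [if_neg h1] at hG
    exact absurd hG (by simp)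
  rw [if_pos h1] at hG
  obtain ⟨resl, hresl⟩ : ∃ x, x = K.subL (K.smulL (4096 * 2 ^ 160) (K.derM L))
      (K.addL (K.smulL (64 * ln) (K.subL (K.smulL 2 (K.mulL Q Q)) (K.mulL L L)))
        [ln * cn * 2 ^ 320, ln * ln * 2 ^ 320]) := ⟨_, rfl⟩
  obtain ⟨resq, hresq⟩ : ∃ x, x = K.subL (K.smulL (64 * 2 ^ 160) (K.derM Q))
      (K.smulL ln (K.mulL L Q)) := ⟨_, rfl⟩
  rw [← hresl, ← hresq] at hG
  obtain ⟨Lam, hLam⟩ : ∃ x, x = max K.ONE (ln * (4 * K.nL 4096 Q + 2 * K.nL 4096 L) / 64 + 1 +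
      (K.ONE / 1000 + 1)) := ⟨_, rfl⟩
  rw [← hLam] at hG
  obtain ⟨r1, hr1⟩ : ∃ x, x = K.nL 4096 resl / (4096 * K.ONE) + 1 := ⟨_, rfl⟩
  obtain ⟨r2, hr2⟩ : ∃ x, x = K.nL 4096 resq / (64 * K.ONE) + 1 := ⟨_, rfl⟩
  rw [← hr1, ← hr2] at hG
  simp only [Bool.and_eq_true] at h1
  obtain ⟨⟨hLL, hQQ⟩, hLQ⟩ := h1
  obtain ⟨G', hG'⟩ : ∃ x, x = K.prodUp (Lam * r0 / 4096 + 1) M
      ((2 * eta + (r1 + r2)) * 3 ^ k + (r1 + r2)) := ⟨_, rfl⟩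
  rw [← hG'] at hG
  by_cases h2 : (Nat.ble (Lam * h) (k * K.ONE * 4096) && Nat.ble (2000 * ln * G') (64 * K.ONE))
      = true
  swap
  · rw [if_neg h2] at hG
    exact absurd hG (by simp)
  rw [if_pos h2] at hG
  have hGG : G' = G := Option.some.inj hG
  subst hGG
  simp only [Bool.and_eq_true, Nat.ble_eq] at h2
  obtain ⟨h3, h4⟩ := h2
  have hp : (0 : ℝ) < (2 : ℝ) ^ 160 := by positivity
  refine ⟨r1, r2, Lam, ?_, ?_, ?_, ?_, ?_, ?_, hG'⟩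
  · intro M' r ξ hr hξ
    rw [hr1]
    refine GB_res hNL ξ _ resl 4096 (by norm_num) ?_ M' r hr hξ
    have e1 := (hEVA ξ (K.smulL (4096 * 2 ^ 160) (K.derM L))
      (K.addL (K.smulL (64 * ln) (K.subL (K.smulL 2 (K.mulL Q Q)) (K.mulL L L)))
        [ln * cn * 2 ^ 320, ln * ln * 2 ^ 320]) 0 0).2.2.1
    have e2 := (hEVA ξ (K.derM L) [] (4096 * 2 ^ 160) 0).2.1
    have e3 := (hEVA ξ (K.smulL (64 * ln) (K.subL (K.smulL 2 (K.mulL Q Q)) (K.mulL L L)))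
        [ln * cn * 2 ^ 320, ln * ln * 2 ^ 320] 0 0).1
    have e4 := (hEVA ξ (K.subL (K.smulL 2 (K.mulL Q Q)) (K.mulL L L)) [] (64 * ln) 0).2.1
    have e5 := (hEVA ξ (K.smulL 2 (K.mulL Q Q)) (K.mulL L L) 0 0).2.2.1
    have e6 := (hEVA ξ (K.mulL Q Q) [] 2 0).2.1
    rw [hresl, e1, e2, e3, e4, e5, e6, hMUL ξ Q Q hQQ, hMUL ξ L L hLL]
    unfold pZ
    simp only [evZ]
    have hz : (2 : ℝ) ^ 320 = 2 ^ 160 * 2 ^ 160 := GB_pow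
    have hz0 : (2 : ℝ) ^ 160 ≠ 0 := hp.ne'
    have d1 : (((4096 * 2 ^ 160 : ℤ)) : ℝ) =
        (((4096 : ℕ) : ℝ) * 2 ^ 320) * (((2 : ℝ) ^ 160)⁻¹) := by
      rw [hz, Int.cast_mul, Int.cast_pow, Int.cast_ofNat, Int.cast_ofNat, Nat.cast_ofNat]
      generalize (2 : ℝ) ^ 160 = z at hz0 ⊢
      field_simp
    have d2 : (((ln * cn * 2 ^ 320 : ℤ)) : ℝ) =
        (((4096 : ℕ) : ℝ) * 2 ^ 320) * (((ln : ℝ) / 64) * ((cn : ℝ) / 64)) := by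
      push_cast
      generalize (2 : ℝ) ^ 320 = z
      ring
    have d3 : (((ln * ln * 2 ^ 320 : ℤ)) : ℝ) =
        (((4096 : ℕ) : ℝ) * 2 ^ 320) * (((ln : ℝ) / 64) * ((ln : ℝ) / 64)) := by
      push_cast
      generalize (2 : ℝ) ^ 320 = z
      ring
    have d4 : (((64 * ln : ℤ)) : ℝ) =
        (((4096 : ℕ) : ℝ) * 2 ^ 320) * (((ln : ℝ) / 64) *
          ((((2 : ℝ) ^ 160)⁻¹) * (((2 : ℝ) ^ 160)⁻¹))) := by
      rw [hz]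
      push_cast
      generalize (2 : ℝ) ^ 160 = z at hz0 ⊢
      field_simp
      ring
    have c1 : (C (((4096 * 2 ^ 160 : ℤ)) : ℝ) : ℝ⟦X⟧) =
        C (((4096 : ℕ) : ℝ) * 2 ^ 320) * C (((2 : ℝ) ^ 160)⁻¹) := by
      rw [d1, map_mul]
    have c2 : (C (((ln * cn * 2 ^ 320 : ℤ)) : ℝ) : ℝ⟦X⟧) =
        C (((4096 : ℕ) : ℝ) * 2 ^ 320) * (C ((ln : ℝ) / 64) * C ((cn : ℝ) / 64)) := by
      rw [d2, map_mul C (((4096 : ℕ) : ℝ) * 2 ^ 320), map_mul C ((ln : ℝ) / 64)]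
    have c3 : (C (((ln * ln * 2 ^ 320 : ℤ)) : ℝ) : ℝ⟦X⟧) =
        C (((4096 : ℕ) : ℝ) * 2 ^ 320) * (C ((ln : ℝ) / 64) * C ((ln : ℝ) / 64)) := by
      rw [d3, map_mul C (((4096 : ℕ) : ℝ) * 2 ^ 320), map_mul C ((ln : ℝ) / 64)]
    have c4 : (C (((64 * ln : ℤ)) : ℝ) : ℝ⟦X⟧) =
        C (((4096 : ℕ) : ℝ) * 2 ^ 320) * (C ((ln : ℝ) / 64) *
          (C (((2 : ℝ) ^ 160)⁻¹) * C (((2 : ℝ) ^ 160)⁻¹))) := by
      rw [d4, map_mul C (((4096 : ℕ) : ℝ) * 2 ^ 320), map_mul C ((ln : ℝ) / 64),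
        map_mul C (((2 : ℝ) ^ 160)⁻¹)]
    have c5 : (C (((2 : ℤ)) : ℝ) : ℝ⟦X⟧) = 2 := by
      rw [Int.cast_ofNat, map_ofNat]
    rw [c1, c2, c3, c4, c5]
    generalize (C (((4096 : ℕ) : ℝ) * 2 ^ 320) : ℝ⟦X⟧) = K0
    generalize (C (((2 : ℝ) ^ 160)⁻¹) : ℝ⟦X⟧) = K1
    ring
  · intro M' r ξ hr hξ
    rw [hr2]
    refine GB_res hNL ξ _ resq 64 (by norm_num) ?_ M' r hr hξ
    have e1 := (hEVA ξ (K.smulL (64 * 2 ^ 160) (K.derM Q)) (K.smulL ln (K.mulL L Q)) 0 0).2.2.1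
    have e2 := (hEVA ξ (K.derM Q) [] (64 * 2 ^ 160) 0).2.1
    have e3 := (hEVA ξ (K.mulL L Q) [] ln 0).2.1
    rw [hresq, e1, e2, e3, hMUL ξ L Q hLQ]
    unfold pZ
    have hz : (2 : ℝ) ^ 320 = 2 ^ 160 * 2 ^ 160 := GB_pow
    have hz0 : (2 : ℝ) ^ 160 ≠ 0 := hp.ne'
    have d1 : (((64 * 2 ^ 160 : ℤ)) : ℝ) =
        (((64 : ℕ) : ℝ) * 2 ^ 320) * (((2 : ℝ) ^ 160)⁻¹) := by
      rw [hz, Int.cast_mul, Int.cast_pow, Int.cast_ofNat, Int.cast_ofNat, Nat.cast_ofNat]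
      generalize (2 : ℝ) ^ 160 = z at hz0 ⊢
      field_simp
    have d4 : (((ln : ℤ)) : ℝ) =
        (((64 : ℕ) : ℝ) * 2 ^ 320) * (((ln : ℝ) / 64) *
          ((((2 : ℝ) ^ 160)⁻¹) * (((2 : ℝ) ^ 160)⁻¹))) := by
      rw [hz]
      push_cast
      generalize (2 : ℝ) ^ 160 = z at hz0 ⊢
      field_simp
    have c1 : (C (((64 * 2 ^ 160 : ℤ)) : ℝ) : ℝ⟦X⟧) =
        C (((64 : ℕ) : ℝ) * 2 ^ 320) * C (((2 : ℝ) ^ 160)⁻¹) := by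
      rw [d1, map_mul]
    have c4 : (C (((ln : ℤ)) : ℝ) : ℝ⟦X⟧) =
        C (((64 : ℕ) : ℝ) * 2 ^ 320) * (C ((ln : ℝ) / 64) *
          (C (((2 : ℝ) ^ 160)⁻¹) * C (((2 : ℝ) ^ 160)⁻¹))) := by
      rw [d4, map_mul C (((64 : ℕ) : ℝ) * 2 ^ 320), map_mul C ((ln : ℝ) / 64),
        map_mul C (((2 : ℝ) ^ 160)⁻¹)]
    rw [c1, c4]
    generalize (C (((64 : ℕ) : ℝ) * 2 ^ 320) : ℝ⟦X⟧) = K0
    generalize (C (((2 : ℝ) ^ 160)⁻¹) : ℝ⟦X⟧) = K1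
    ring
  · have : K.ONE ≤ Lam := by rw [hLam]; exact le_max_left _ _
    have h5 : ((K.ONE : ℕ) : ℝ) ≤ (Lam : ℝ) := Nat.cast_le.2 this
    rwa [GB_one] at h5
  · have h5 : ln * (4 * K.nL 4096 Q + 2 * K.nL 4096 L) / 64 + 1 + (K.ONE / 1000 + 1) ≤ Lam := by
      rw [hLam]; exact le_max_right _ _
    have h6 : ((ln * (4 * K.nL 4096 Q + 2 * K.nL 4096 L) / 64 + 1 : ℕ) : ℝ) +
        ((K.ONE / 1000 + 1 : ℕ) : ℝ) ≤ (Lam : ℝ) := by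
      rw [← Nat.cast_add]
      exact Nat.cast_le.2 h5
    have h7 := GB_div (ln * (4 * K.nL 4096 Q + 2 * K.nL 4096 L)) 64 (by norm_num)
    have h8 := GB_div K.ONE 1000 (by norm_num)
    rw [GB_one] at h8
    obtain ⟨A, hA⟩ : ∃ x : ℝ, x = ((ln * (4 * K.nL 4096 Q + 2 * K.nL 4096 L) / 64 + 1 : ℕ) : ℝ) :=
      ⟨_, rfl⟩
    obtain ⟨B, hB⟩ : ∃ x : ℝ, x = ((K.ONE / 1000 + 1 : ℕ) : ℝ) := ⟨_, rfl⟩
    rw [← hA] at h6 h7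
    rw [← hB] at h6 h8
    have h9 : (ln : ℝ) / 64 * (4 * K.nL 4096 Q + 2 * K.nL 4096 L) ≤ A := by
      have h10 : ((ln * (4 * K.nL 4096 Q + 2 * K.nL 4096 L) : ℕ) : ℝ) =
          (ln : ℝ) * (4 * K.nL 4096 Q + 2 * K.nL 4096 L) := by push_cast; ring
      rw [h10] at h7
      have h11 : ((64 : ℕ) : ℝ) = 64 := by norm_num
      rw [h11] at h7
      linarith
    have h12 : (2 : ℝ) ^ 160 / 1000 ≤ B := by
      have h11 : ((1000 : ℕ) : ℝ) = 1000 := by norm_num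
      rw [h11] at h8
      rw [div_le_iff₀ (by norm_num)]
      exact h8
    linarith
  · have h5 : ((Lam * h : ℕ) : ℝ) ≤ ((k * K.ONE * 4096 : ℕ) : ℝ) := Nat.cast_le.2 h3
    rw [Nat.cast_mul, Nat.cast_mul, Nat.cast_mul, GB_one] at h5
    have h11 : ((4096 : ℕ) : ℝ) = 4096 := by norm_num
    rw [h11] at h5
    exact h5
  · have h5 : ((2000 * ln * G' : ℕ) : ℝ) ≤ ((64 * K.ONE : ℕ) : ℝ) := Nat.cast_le.2 h4
    rw [Nat.cast_mul, Nat.cast_mul, Nat.cast_mul, GB_one] at h5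
    have h11 : ((2000 : ℕ) : ℝ) = 2000 := by norm_num
    have h12 : ((64 : ℕ) : ℝ) = 64 := by norm_num
    rw [h11, h12] at h5
    obtain ⟨Z, hZ⟩ : ∃ x : ℝ, x = (2 : ℝ) ^ 160 := ⟨_, rfl⟩
    rw [← hZ] at h5 ⊢
    rw [le_div_iff₀ (by norm_num)]
    have : 2 * ((ln : ℝ) / 64) * G' * 1000 = 2000 * ln * G' / 64 := by ring
    rw [this, div_le_iff₀ (by norm_num)]
    linarith

end TWP
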