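import Mathlib
import Pool.Agent.TWP.StMid
import Pool.Agent.TWP.KNrm

set_option autoImplicit false

/-! TWP, module GI: the interval part (helper69, for helper30). -/

namespace TWP

open PowerSeries Filter Topology
open scoped ContDiff

namespace GIm

theorem prodUp_ge (x : ℕ) : ∀ (M p : ℕ), p ≤ K.prodUp x M p := by
  intro M
  induction M with
  | zero => intro p; exact le_refl p
  | succ m ih =>
    intro p
    show p ≤ K.prodUp x m (p + p * x / (K.ONE * (m + 1)) + 1)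
    exact le_trans (by rw [add_assoc]; exact Nat.le_add_right p _) (ih _)

theorem evR_zero (L : List ℤ) : evR 0 L = ((L.headD 0 : ℤ) : ℝ) := by
  cases L with
  | nil => simp [evR]
  | cons a P => simp [evR]

theorem nrm00 (S : ℝ⟦X⟧) : nrm 0 0 S = |coeff 0 S| := by
  simp [nrm]

theorem coeff_pZ (hGA : S_GA) (u : ℝ) (P : List ℤ) :
    coeff 0 (pZ (C u) P) = evR u P / 2 ^ 160 := by
  have h1 : coeff 0 (evZ (C u : ℝ⟦X⟧) P) = evR u P :=
    (hGA u P).1 (C u) (by simp)
  unfold pZ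
  rw [coeff_C_mul, h1]
  ring

end GIm

open GIm in
theorem t_GI (hGA : S_GA) (hGR : S_GR) : S_GI := by
  intro q l M h r0 cn ln eta k L Q G r1 r2 Lam hQL hh hr0 hh0 hln hBG hl hq u hu
  obtain ⟨T, hT⟩ : ∃ T : ℝ, T = (2 : ℝ) ^ 160 := ⟨_, rfl⟩
  have hTpos : 0 < T := by rw [hT]; positivity
  have hTne : T ≠ 0 := hTpos.ne'
  have hh1 : (h : ℝ) / 4096 ≤ 1 := by
    have : h ≤ 4096 := by omega
    have h2 : (h : ℝ) ≤ 4096 := by exact_mod_cast this
    rw [div_le_one (by norm_num)]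
    exact h2
  have hlnR : (0 : ℝ) < (ln : ℝ) := by exact_mod_cast hln
  have hres1 := fun v (hv : |v| ≤ (1 : ℝ)) => hBG.res1 0 0 (C v) le_rfl (by rw [nrm_C]; exact hv)
  have hres2 := fun v (hv : |v| ≤ (1 : ℝ)) => hBG.res2 0 0 (C v) le_rfl (by rw [nrm_C]; exact hv)
  have hG : ((2 * eta + (r1 + r2)) * 3 ^ k : ℕ) ≤ G := by
    rw [hBG.eqG]
    exact le_trans (Nat.le_add_right _ _) (prodUp_ge _ _ _)
  have hGR' : (((2 * eta + (r1 + r2)) * 3 ^ k : ℕ) : ℝ) ≤ (G : ℝ) := by exact_mod_cast hG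
  have hcast : (((2 * eta + (r1 + r2)) * 3 ^ k : ℕ) : ℝ) =
      (2 * (eta : ℝ) + ((r1 : ℝ) + r2)) * 3 ^ k := by push_cast; ring
  have key := hGR q l ((cn : ℝ) / 64) ((ln : ℝ) / 64) ((h : ℝ) / 4096) (2 * (eta : ℝ) / T)
    ((r1 : ℝ) / T) ((r2 : ℝ) / T) ((K.nL 4096 L : ℝ) / T) ((K.nL 4096 Q : ℝ) / T) ((Lam : ℝ) / T) k
    (fun v => evR v L / T) (fun v => evR v Q / T) (fun v => evR v (K.derM L) / T)
    (fun v => evR v (K.derM Q) / T) hQL (by positivity)
    (by
      have : (0 : ℝ) < (h : ℝ) := by exact_mod_cast hh0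
      positivity)
    (by positivity) (by positivity) (by positivity)
    (fun v => (hGA v L).2.1.div_const T) (fun v => (hGA v Q).2.1.div_const T)
    ?_ ?_ ?_ ?_ ?_ ?_ u hu
  · -- conclusion
    rw [hcast, ← hT]
    have e1 : T * l ((cn : ℝ) / 64 + (ln : ℝ) / 64 * u) - evR u L =
        T * (l ((cn : ℝ) / 64 + (ln : ℝ) / 64 * u) - evR u L / T) := by
      field_simp
    have e2 : T * q ((cn : ℝ) / 64 + (ln : ℝ) / 64 * u) - evR u Q =
        T * (q ((cn : ℝ) / 64 + (ln : ℝ) / 64 * u) - evR u Q / T) := by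
      field_simp
    rw [e1, e2, abs_mul, abs_mul, abs_of_pos hTpos, ← mul_add]
    refine le_trans (mul_le_mul_of_nonneg_left key hTpos.le) (le_of_eq ?_)
    field_simp
  · -- bounds on the interval
    intro v hv
    have hv1 : |v| ≤ 1 := hv.trans hh1
    refine ⟨?_, ?_, ?_, ?_⟩
    · show |evR v L / T| ≤ _
      rw [abs_div, abs_of_pos hTpos]
      exact div_le_div_of_nonneg_right ((hGA v L).2.2 hv1) hTpos.le
    · show |evR v Q / T| ≤ _
      rw [abs_div, abs_of_pos hTpos]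
      exact div_le_div_of_nonneg_right ((hGA v Q).2.2 hv1) hTpos.le
    · have h1 := hres1 v hv1
      rw [nrm00] at h1
      have h2 : coeff 0 (pZ (C v) (K.derM L) - C ((ln : ℝ) / 64) *
          ((C ((cn : ℝ) / 64) + C ((ln : ℝ) / 64) * C v) + 2 * pZ (C v) Q ^ 2 -
            pZ (C v) L ^ 2)) =
          evR v (K.derM L) / 2 ^ 160 - (ln : ℝ) / 64 * ((cn : ℝ) / 64 + (ln : ℝ) / 64 * v +
            2 * (evR v Q / 2 ^ 160) ^ 2 - (evR v L / 2 ^ 160) ^ 2) := by
        have hcp := coeff_pZ hGA v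
        simp only [coeff_zero_eq_constantCoeff, coeff_zero_eq_constantCoeff_apply] at hcp
        simp only [coeff_zero_eq_constantCoeff, coeff_zero_eq_constantCoeff_apply, map_sub,
          map_add, map_mul, map_pow, hcp, constantCoeff_C, map_ofNat]
      rw [h2] at h1
      rw [← hT] at h1
      exact h1
    · have h1 := hres2 v hv1
      rw [nrm00] at h1
      have h2 : coeff 0 (pZ (C v) (K.derM Q) - C ((ln : ℝ) / 64) * (pZ (C v) L * pZ (C v) Q)) =
          evR v (K.derM Q) / 2 ^ 160 - (ln : ℝ) / 64 *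
            ((evR v L / 2 ^ 160) * (evR v Q / 2 ^ 160)) := by
        have hcp := coeff_pZ hGA v
        simp only [coeff_zero_eq_constantCoeff, coeff_zero_eq_constantCoeff_apply] at hcp
        simp only [coeff_zero_eq_constantCoeff, coeff_zero_eq_constantCoeff_apply, map_sub,
          map_mul, hcp, constantCoeff_C]
      rw [h2] at h1
      rw [← hT] at h1
      exact h1
  · -- the centre
    show |l ((cn : ℝ) / 64) - evR 0 L / T| + |q ((cn : ℝ) / 64) - evR 0 Q / T| ≤ 2 * (eta : ℝ) / T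
    rw [evR_zero, evR_zero]
    rw [← hT] at hl hq
    have e1 : l ((cn : ℝ) / 64) - ((L.headD 0 : ℤ) : ℝ) / T =
        (T * l ((cn : ℝ) / 64) - ((L.headD 0 : ℤ) : ℝ)) / T := by field_simp
    have e2 : q ((cn : ℝ) / 64) - ((Q.headD 0 : ℤ) : ℝ) / T =
        (T * q ((cn : ℝ) / 64) - ((Q.headD 0 : ℤ) : ℝ)) / T := by field_simp
    rw [e1, e2, abs_div, abs_div, abs_of_pos hTpos, ← add_div]
    exact div_le_div_of_nonneg_right (by linarith) hTpos.le
  · rw [le_div_iff₀ hTpos, one_mul, hT]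
    exact hBG.lam1
  · rw [le_div_iff₀ hTpos]
    have h1 := hBG.lam2
    rw [← hT] at h1
    refine le_trans (le_of_eq ?_) h1
    field_simp
  · have h1 := hBG.lam3
    rw [← hT] at h1
    rw [div_mul_div_comm, div_le_iff₀ (by positivity)]
    refine le_trans h1 (le_of_eq ?_)
    ring
  · have h1 := hBG.fin
    rw [← hT] at h1
    have h2 : 2 * ((ln : ℝ) / 64) * (((2 * (eta : ℝ) + ((r1 : ℝ) + r2)) * 3 ^ k)) ≤ T / 1000 := by
      rw [← hcast]
      exact le_trans (mul_le_mul_of_nonneg_left hGR' (by positivity)) h1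
    have e : 2 * ((ln : ℝ) / 64) * ((2 * (eta : ℝ) / T + ((r1 : ℝ) / T + (r2 : ℝ) / T)) * 3 ^ k) =
        (2 * ((ln : ℝ) / 64) * (((2 * (eta : ℝ) + ((r1 : ℝ) + r2)) * 3 ^ k))) / T := by
      field_simp
    rw [e, div_le_iff₀ hTpos]
    refine le_trans h2 (le_of_eq ?_)
    ring

end TWP
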