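import Pool.Agent.TWP.StF
import Pool.Agent.TWPx.Nm

set_option autoImplicit false

/-! TWP, module JE: jets of the error from the constant coefficients. -/

namespace TWP

open PowerSeries Finset Pool.Agent.TWPx

theorem je_nrm (M : ℕ) (r : ℝ) (S : ℝ⟦X⟧) : nrm M r S = Nm M r S := rfl

theorem je_C_mul (M : ℕ) (r c : ℝ) (hc : 0 ≤ c) (S : ℝ⟦X⟧) : Nm M r (C c * S) = c * Nm M r S := by
  unfold Nm
  rw [mul_sum]
  refine sum_congr rfl fun m _ => ?_
  rw [coeff_C_mul, abs_mul, abs_of_nonneg hc, mul_assoc]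

theorem je_coeff (m : ℕ) (r : ℝ) (S : ℝ⟦X⟧) :
    ((m : ℝ) + 1) * (|coeff (m + 1) S| * r ^ (m + 1)) = r * (|coeff m (D S)| * r ^ m) := by
  unfold D
  rw [coeff_derivative, abs_mul, abs_of_nonneg (by positivity : (0 : ℝ) ≤ (m : ℝ) + 1)]
  ring

theorem je_succ (m : ℕ) (r : ℝ) (S : ℝ⟦X⟧) :
    Nm (m + 1) r S = Nm m r S + |coeff (m + 1) S| * r ^ (m + 1) := by
  unfold Nm
  rw [sum_range_succ]

theorem je_last (m : ℕ) (r : ℝ) (hr : 0 ≤ r) (S : ℝ⟦X⟧) : |coeff m S| * r ^ m ≤ Nm m r S := by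
  unfold Nm
  exact single_le_sum (f := fun j => |coeff j S| * r ^ j)
    (fun j _ => mul_nonneg (abs_nonneg _) (pow_nonneg hr j)) (mem_range.2 (Nat.lt_succ_self m))

theorem JE : S_JE := by
  intro M r lam r1 r2 nl nq Lam G0 l q pL pQ τ hr hr1 hlam h1 h2 hG hDl hDq hR1 hR2 hnl hnq
    hLam hL hG0 hsm
  have hr0 : 0 ≤ r := hr.le
  set P : ℕ → ℝ := fun m => ∏ j ∈ Finset.range m, (1 + r * Lam / ((j : ℝ) + 1)) with hP
  have hfac : ∀ j : ℕ, 1 ≤ 1 + r * Lam / ((j : ℝ) + 1) := by
    intro j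
    have : 0 ≤ r * Lam / ((j : ℝ) + 1) := by positivity
    linarith
  have hPpos : ∀ m, 0 ≤ P m := fun m => prod_nonneg fun j _ => by linarith [hfac j]
  have hPsucc : ∀ m, P (m + 1) = P m * (1 + r * Lam / ((m : ℝ) + 1)) := fun m => by
    simp only [hP, prod_range_succ]
  have hPmono : Monotone P := monotone_nat_of_le_succ fun m => by
    rw [hPsucc]
    exact le_mul_of_one_le_right (hPpos m) (hfac m)
  set E1 := l - pL with hE1
  set E2 := q - pQ with hE2
  set ρ := r1 + r2 with hρ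
  have hρ0 : 0 ≤ ρ := by positivity
  -- the derivatives of the errors
  have hD1 : D E1 = C lam * (((pQ + pQ + E2) * E2 + (pQ + pQ + E2) * E2) -
      (pL + pL + E1) * E1) - (D pL - C lam * (τ + 2 * pQ ^ 2 - pL ^ 2)) := by
    have h : D E1 = D l - D pL := by
      unfold D
      rw [hE1, map_sub]
    rw [h, hDl, hE1, hE2]
    ring
  have hD2 : D E2 = C lam * (pL * E2 + pQ * E1 + E1 * E2) - (D pQ - C lam * (pL * pQ)) := by
    have h : D E2 = D q - D pQ := by
      unfold D
      rw [hE2, map_sub]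
    rw [h, hDq, hE1, hE2]
    ring
  have key : ∀ m, m ≤ M → Nm m r (D E1) + Nm m r (D E2) ≤
      (lam * (4 * nq + 2 * nl) + 2 * lam * (Nm m r E1 + Nm m r E2)) * (Nm m r E1 + Nm m r E2) +
        ρ := by
    intro m hm
    have hl : Nm m r pL ≤ nl := (Nm_mono_M hm hr0 pL).trans hnl
    have hq : Nm m r pQ ≤ nq := (Nm_mono_M hm hr0 pQ).trans hnq
    have hR1' := (Nm_mono_M hm hr0 (D pL - C lam * (τ + 2 * pQ ^ 2 - pL ^ 2))).trans hR1
    have hR2' := (Nm_mono_M hm hr0 (D pQ - C lam * (pL * pQ))).trans hR2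
    have hl0 := Nm_nonneg m hr0 pL
    have hq0 := Nm_nonneg m hr0 pQ
    have he1 := Nm_nonneg m hr0 E1
    have he2 := Nm_nonneg m hr0 E2
    have hY : Nm m r ((pQ + pQ + E2) * E2) ≤ (nq + nq + Nm m r E2) * Nm m r E2 := by
      refine (Nm_mul m hr0 _ _).trans (mul_le_mul_of_nonneg_right ?_ he2)
      have ha := Nm_add m hr0 (pQ + pQ) E2
      have hb := Nm_add m hr0 pQ pQ
      linarith
    have hZ : Nm m r ((pL + pL + E1) * E1) ≤ (nl + nl + Nm m r E1) * Nm m r E1 := by
      refine (Nm_mul m hr0 _ _).trans (mul_le_mul_of_nonneg_right ?_ he1)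
      have ha := Nm_add m hr0 (pL + pL) E1
      have hb := Nm_add m hr0 pL pL
      linarith
    have hA : Nm m r (D E1) ≤ lam * (2 * ((nq + nq + Nm m r E2) * Nm m r E2) +
        (nl + nl + Nm m r E1) * Nm m r E1) + r1 := by
      rw [hD1]
      refine (Nm_sub m hr0 _ _).trans (add_le_add ?_ hR1')
      rw [je_C_mul m r lam hlam.le]
      refine mul_le_mul_of_nonneg_left ?_ hlam.le
      have ha := Nm_sub m hr0 ((pQ + pQ + E2) * E2 + (pQ + pQ + E2) * E2) ((pL + pL + E1) * E1)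
      have hb := Nm_add m hr0 ((pQ + pQ + E2) * E2) ((pQ + pQ + E2) * E2)
      linarith
    have hB : Nm m r (D E2) ≤ lam * (nl * Nm m r E2 + nq * Nm m r E1 +
        Nm m r E1 * Nm m r E2) + r2 := by
      rw [hD2]
      refine (Nm_sub m hr0 _ _).trans (add_le_add ?_ hR2')
      rw [je_C_mul m r lam hlam.le]
      refine mul_le_mul_of_nonneg_left ?_ hlam.le
      have ha := Nm_add m hr0 (pL * E2 + pQ * E1) (E1 * E2)
      have hb := Nm_add m hr0 (pL * E2) (pQ * E1)
      have hc := Nm_mul m hr0 pL E2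
      have hd := Nm_mul m hr0 pQ E1
      have he := Nm_mul m hr0 E1 E2
      have hf := mul_le_mul_of_nonneg_right hl he2
      have hg := mul_le_mul_of_nonneg_right hq he1
      linarith
    have hnl0 : 0 ≤ nl := hl0.trans hl
    have hnq0 : 0 ≤ nq := hq0.trans hq
    have halg : lam * (2 * ((nq + nq + Nm m r E2) * Nm m r E2) +
        (nl + nl + Nm m r E1) * Nm m r E1) + lam * (nl * Nm m r E2 + nq * Nm m r E1 +
        Nm m r E1 * Nm m r E2) ≤
        (lam * (4 * nq + 2 * nl) + 2 * lam * (Nm m r E1 + Nm m r E2)) *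
          (Nm m r E1 + Nm m r E2) := by
      have hx : 0 ≤ lam * (3 * nq * Nm m r E1 + nl * Nm m r E2 + Nm m r E1 ^ 2 +
          3 * (Nm m r E1 * Nm m r E2)) := by positivity
      linarith [hx]
    linarith
  have main : ∀ m, m ≤ M → Nm m r E1 + Nm m r E2 + ρ ≤ (G0 + ρ) * P m := by
    intro m
    induction m with
    | zero =>
      intro _
      have e1 : ∀ S : ℝ⟦X⟧, Nm 0 r S = |coeff 0 S| := by
        intro S
        unfold Nm
        simp
      rw [e1, e1]
      simp only [hP, prod_range_zero, mul_one]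
      linarith
    | succ m ih =>
      intro hm
      have hm' : m ≤ M := by omega
      have ih' := ih hm'
      have hN0 : 0 ≤ Nm m r E1 + Nm m r E2 := add_nonneg (Nm_nonneg m hr0 _) (Nm_nonneg m hr0 _)
      have hsmall : 2 * lam * (Nm m r E1 + Nm m r E2) ≤ 1 / 1000 := by
        have ha : Nm m r E1 + Nm m r E2 ≤ (G0 + ρ) * P M := by
          have hb : (G0 + ρ) * P m ≤ (G0 + ρ) * P M :=
            mul_le_mul_of_nonneg_left (hPmono hm') (by positivity)
          linarith
        exact (mul_le_mul_of_nonneg_left ha (by positivity)).trans hsm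
      have hk := key m hm'
      have hk2 : Nm m r (D E1) + Nm m r (D E2) ≤ Lam * (Nm m r E1 + Nm m r E2 + ρ) := by
        have ha : (lam * (4 * nq + 2 * nl) + 2 * lam * (Nm m r E1 + Nm m r E2)) *
            (Nm m r E1 + Nm m r E2) ≤ Lam * (Nm m r E1 + Nm m r E2) :=
          mul_le_mul_of_nonneg_right (by linarith) hN0
        have hb : ρ ≤ Lam * ρ := le_mul_of_one_le_left hρ0 hLam
        linarith
      have hc1 := je_coeff m r E1
      have hc2 := je_coeff m r E2
      have hd1 := mul_le_mul_of_nonneg_left (je_last m r hr0 (D E1)) hr0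
      have hd2 := mul_le_mul_of_nonneg_left (je_last m r hr0 (D E2)) hr0
      have hm1 : (0 : ℝ) < (m : ℝ) + 1 := by positivity
      have hstep : ((m : ℝ) + 1) * (|coeff (m + 1) E1| * r ^ (m + 1) +
          |coeff (m + 1) E2| * r ^ (m + 1)) ≤ r * Lam * (Nm m r E1 + Nm m r E2 + ρ) := by
        have ha := mul_le_mul_of_nonneg_left hk2 hr0
        linarith
      have hstep2 : |coeff (m + 1) E1| * r ^ (m + 1) + |coeff (m + 1) E2| * r ^ (m + 1) ≤
          r * Lam / ((m : ℝ) + 1) * (Nm m r E1 + Nm m r E2 + ρ) := by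
        rw [div_mul_eq_mul_div, le_div_iff₀ hm1]
        linarith
      have hfm : 0 ≤ 1 + r * Lam / ((m : ℝ) + 1) := by linarith [hfac m]
      have hlast := mul_le_mul_of_nonneg_right ih' hfm
      rw [je_succ, je_succ, hPsucc, ← mul_assoc]
      linarith
  have hfin := main M le_rfl
  show Nm M r E1 + Nm M r E2 ≤ (G0 + ρ) * P M
  linarith

end TWP
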