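import Pool.Agent.TWP.StMid
import Pool.Agent.TWP.FTC
import Pool.Agent.TWP.FTS
import Pool.Agent.TWP.FTA
import Pool.Agent.TWP.FTM
import Pool.Agent.TWP.FQS
import Pool.Agent.TWP.FXI
import Pool.Agent.TWP.MJE
import Pool.Agent.TWP.KNrm

set_option autoImplicit false

/-! TWP, module GJ: the jets of `l` and `q` in the middle charts (helper77). -/

namespace TWP

open PowerSeries Filter Topology
open scoped ContDiff

namespace GJm

theorem D_C_mul (a : ℝ) (S : ℝ⟦X⟧) : D (C a * S) = C a * D S := by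
  unfold D
  rw [← smul_eq_C_mul, ← smul_eq_C_mul]
  exact Derivation.map_smul _ _ _

/-- the two differential equations for the Taylor series -/
theorem odes (q l : ℝ → ℝ) (lam c t : ℝ) (h : QL q l) (hlam : 0 < lam) :
    D (Tay (fun _ => lam) l t) = C lam * ((C c + C lam * Tay (fun _ => lam)
        (fun s => (s - c) / lam) t) + 2 * Tay (fun _ => lam) q t ^ 2 -
        Tay (fun _ => lam) l t ^ 2) ∧
    D (Tay (fun _ => lam) q t) = C lam * (Tay (fun _ => lam) l t * Tay (fun _ => lam) q t) := by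
  obtain ⟨hq, hl⟩ := QS q l h
  have ta : S_TA := TA TC TS
  have tm : S_TM := TM TC TS ta
  have hq' : ContDiffAt ℝ ∞ q t := hq.contDiffAt
  have hl' : ContDiffAt ℝ ∞ l t := hl.contDiffAt
  have hψ : ContDiffAt ℝ ∞ (fun _ : ℝ => lam) t := contDiffAt_const
  have h2' : ContDiffAt ℝ ∞ (fun _ : ℝ => (2 : ℝ)) t := contDiffAt_const
  have hid : ContDiffAt ℝ ∞ (fun s : ℝ => s) t := contDiffAt_id
  have hll : ContDiffAt ℝ ∞ (fun s => l s * l s) t := hl'.mul hl'
  have hqq : ContDiffAt ℝ ∞ (fun s => q s * q s) t := hq'.mul hq'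
  have hlq : ContDiffAt ℝ ∞ (fun s => l s * q s) t := hl'.mul hq'
  have h2qq : ContDiffAt ℝ ∞ (fun s => (2 : ℝ) * (q s * q s)) t := h2'.mul hqq
  have hsum : ContDiffAt ℝ ∞ (fun s => s + (2 : ℝ) * (q s * q s)) t := hid.add h2qq
  have hdif : ContDiffAt ℝ ∞ (fun s => (s + (2 : ℝ) * (q s * q s)) - l s * l s) t :=
    hsum.sub hll
  constructor
  · have e1 : dl (fun _ => lam) l =
        fun s => lam * ((s + (2 : ℝ) * (q s * q s)) - l s * l s) := by
      funext s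
      unfold dl
      rw [(h.dl s).deriv]
      ring
    rw [(TC (fun _ => lam) l l t EventuallyEq.rfl).2.2, e1,
      tm (fun _ => lam) t hψ (fun _ => lam) (fun s => (s + (2 : ℝ) * (q s * q s)) - l s * l s)
        hψ hdif,
      (ta (fun _ => lam) t hψ).1 lam,
      (ta (fun _ => lam) t hψ).2.2 (fun s => s + (2 : ℝ) * (q s * q s)) (fun s => l s * l s)
        hsum hll,
      (ta (fun _ => lam) t hψ).2.1 (fun s => s) (fun s => (2 : ℝ) * (q s * q s)) hid h2qq,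
      tm (fun _ => lam) t hψ (fun _ => (2 : ℝ)) (fun s => q s * q s) h2' hqq,
      (ta (fun _ => lam) t hψ).1 2,
      tm (fun _ => lam) t hψ q q hq' hq', tm (fun _ => lam) t hψ l l hl' hl',
      (XI lam c t hlam).2.1]
    have e2 : (C (2 : ℝ) : ℝ⟦X⟧) = 2 := by
      rw [show (2 : ℝ) = 1 + 1 by norm_num, map_add, map_one]
      norm_num
    rw [e2]
    ring
  · have e1 : dl (fun _ => lam) q = fun s => lam * (l s * q s) := by
      funext s
      unfold dl
      rw [(h.dq s).deriv]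
    rw [(TC (fun _ => lam) q q t EventuallyEq.rfl).2.2, e1,
      tm (fun _ => lam) t hψ (fun _ => lam) (fun s => l s * q s) hψ hlq,
      (ta (fun _ => lam) t hψ).1 lam, tm (fun _ => lam) t hψ l q hl' hq']

end GJm

open GJm in
theorem t_GJ (hGA : S_GA) (hDER : S_DER) (hNL : S_NL) (hPU : S_PU) : S_GJ := by
  intro q l M h r0 cn ln eta k L Q G r1 r2 Lam hQL hh hr0 hh0 hln hBG t u hu huh hval
  obtain ⟨T, hT⟩ : ∃ T : ℝ, T = (2 : ℝ) ^ 160 := ⟨_, rfl⟩
  have hTpos : 0 < T := by rw [hT]; positivity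
  have hTne : T ≠ 0 := hTpos.ne'
  obtain ⟨lam, hlamdef⟩ : ∃ lam : ℝ, lam = (ln : ℝ) / 64 := ⟨_, rfl⟩
  obtain ⟨c, hcdef⟩ : ∃ c : ℝ, c = (cn : ℝ) / 64 := ⟨_, rfl⟩
  have hlnR : (0 : ℝ) < (ln : ℝ) := by exact_mod_cast hln
  have hlam : 0 < lam := by rw [hlamdef]; positivity
  have hres1 := hBG.res1
  have hres2 := hBG.res2
  have hlam1 := hBG.lam1
  have hlam2 := hBG.lam2
  have hfin := hBG.fin
  rw [← hlamdef, ← hcdef] at hu ⊢
  simp only [← hlamdef, ← hcdef, ← hT] at hres1 hres2 hlam1 hlam2 hfin hval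
  obtain ⟨ξ, hξ⟩ : ∃ ξ : ℝ⟦X⟧, ξ = Tay (fun _ => lam) (fun s => (s - c) / lam) t := ⟨_, rfl⟩
  obtain ⟨hX1, -, hX3, hX4⟩ := XI lam c t hlam
  obtain ⟨hodel, hodeq⟩ := odes q l lam c t hQL hlam
  rw [← hξ] at hX1 hX3 hX4 hodel ⊢
  rw [← hu] at hX1 hX4
  obtain ⟨lh, hlh⟩ : ∃ S : ℝ⟦X⟧, S = Tay (fun _ => lam) l t := ⟨_, rfl⟩
  obtain ⟨qh, hqh⟩ : ∃ S : ℝ⟦X⟧, S = Tay (fun _ => lam) q t := ⟨_, rfl⟩
  have hl0 : coeff 0 lh = l t := by
    rw [hlh]; exact (TC (fun _ => lam) l l t EventuallyEq.rfl).2.1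
  have hq0 : coeff 0 qh = q t := by
    rw [hqh]; exact (TC (fun _ => lam) q q t EventuallyEq.rfl).2.1
  rw [← hlh, ← hqh] at hodel hodeq ⊢
  obtain ⟨r, hrdef⟩ : ∃ r : ℝ, r = (r0 : ℝ) / 4096 := ⟨_, rfl⟩
  rw [← hrdef]
  have hr0R : (0 : ℝ) < (r0 : ℝ) := by exact_mod_cast hr0
  have hr : 0 < r := by rw [hrdef]; positivity
  have hhR : (h : ℝ) + (r0 : ℝ) = 4096 := by exact_mod_cast hh
  have hhR0 : (0 : ℝ) ≤ (h : ℝ) := Nat.cast_nonneg h
  have hr1 : r ≤ 1 := by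
    rw [hrdef, div_le_one (by norm_num)]
    linarith
  have hnξ : nrm M r ξ ≤ 1 := by
    refine (hX4 M r hr.le).trans ?_
    have h1 : |u| + r ≤ (h : ℝ) / 4096 + (r0 : ℝ) / 4096 := by
      rw [hrdef]
      linarith
    refine h1.trans (le_of_eq ?_)
    rw [← add_div, hhR]
    norm_num
  have hcξ : coeff 0 ξ = u := by
    rw [hX1]
    simp
  have hLaw : Law false ξ := by
    unfold Law
    simpa using hX3
  -- the polynomials
  have hpZ : ∀ P : List ℤ, pZ ξ P = C (T⁻¹) * evZ ξ P := fun P => by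
    unfold pZ
    rw [hT]
  have hDp : ∀ P : List ℤ, D (pZ ξ P) = pZ ξ (K.derM P) := by
    intro P
    have h1 := hDER false ξ P hLaw
    have h2 : K.der false P = K.derM P := by
      unfold K.der
      simp
    rw [hpZ, hpZ, D_C_mul, h1, h2]
  have hnp : ∀ P : List ℤ, nrm M r (pZ ξ P) ≤ (K.nL 4096 P : ℝ) / T := by
    intro P
    have h1 := hNL M r ξ 4096 P hr.le (by
      refine hnξ.trans (le_of_eq ?_)
      norm_num)
    rw [hpZ, nrm_C_mul, abs_of_pos (inv_pos.2 hTpos), div_eq_inv_mul]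
    exact mul_le_mul_of_nonneg_left h1 (inv_pos.2 hTpos).le
  have hcp : ∀ P : List ℤ, coeff 0 (pZ ξ P) = evR u P / T := by
    intro P
    rw [hpZ, coeff_C_mul, (hGA u P).1 ξ hcξ, div_eq_inv_mul]
  obtain ⟨G0, hG0⟩ : ∃ G0 : ℕ, G0 = (2 * eta + (r1 + r2)) * 3 ^ k := ⟨_, rfl⟩
  have hGeq := hBG.eqG
  rw [← hG0] at hval hGeq
  -- the product
  have hLamR : (0 : ℝ) ≤ (Lam : ℝ) := Nat.cast_nonneg _
  have hPUx := hPU (Lam * r0 / 4096 + 1) M (G0 + (r1 + r2)) (r * ((Lam : ℝ) / T))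
    (by
      rw [← hT]
      have h1 : (Lam : ℝ) * (r0 : ℝ) / 4096 ≤ ((Lam * r0 / 4096 + 1 : ℕ) : ℝ) := by
        have h2 : Lam * r0 < (Lam * r0 / 4096 + 1) * 4096 := by
          have := Nat.div_add_mod (Lam * r0) 4096
          have h3 := Nat.mod_lt (Lam * r0) (show 4096 > 0 by norm_num)
          omega
        have h4 : (Lam : ℝ) * (r0 : ℝ) ≤ ((Lam * r0 / 4096 + 1 : ℕ) : ℝ) * 4096 := by
          exact_mod_cast h2.le
        rw [div_le_iff₀ (by norm_num)]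
        exact h4
      have h5 : r * ((Lam : ℝ) / T) = ((Lam : ℝ) * (r0 : ℝ) / 4096) / T := by
        rw [hrdef]
        ring
      rw [h5]
      exact div_le_div_of_nonneg_right h1 hTpos.le)
    (by positivity)
  rw [← hGeq] at hPUx
  have hprod : ((G0 : ℝ) / T + ((r1 : ℝ) / T + (r2 : ℝ) / T)) *
      ∏ m ∈ Finset.range M, (1 + r * ((Lam : ℝ) / T) / (m + 1)) ≤ (G : ℝ) / T := by
    have h1 : (G0 : ℝ) / T + ((r1 : ℝ) / T + (r2 : ℝ) / T) =
        ((G0 + (r1 + r2) : ℕ) : ℝ) / T := by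
      push_cast
      ring
    rw [h1, div_mul_eq_mul_div]
    exact div_le_div_of_nonneg_right hPUx hTpos.le
  -- the application of JE
  have hJE := JE M r lam ((r1 : ℝ) / T) ((r2 : ℝ) / T) ((K.nL 4096 L : ℝ) / T)
    ((K.nL 4096 Q : ℝ) / T) ((Lam : ℝ) / T) ((G0 : ℝ) / T) lh qh (pZ ξ L) (pZ ξ Q)
    (C c + C lam * ξ) hr hr1 hlam (by positivity) (by positivity) (by positivity) hodel hodeq
    (by rw [hDp]; exact hres1 M r ξ hr.le hnξ) (by rw [hDp]; exact hres2 M r ξ hr.le hnξ)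
    (hnp L) (hnp Q)
    (by rw [le_div_iff₀ hTpos, one_mul]; exact hlam1)
    (by
      rw [le_div_iff₀ hTpos]
      refine le_trans (le_of_eq ?_) hlam2
      field_simp)
    (by
      rw [map_sub, map_sub, hl0, hq0, hcp, hcp]
      have h1 : |l t - evR u L / T| = |T * l t - evR u L| / T := by
        rw [show l t - evR u L / T = (T * l t - evR u L) / T by field_simp, abs_div,
          abs_of_pos hTpos]
      have h2 : |q t - evR u Q / T| = |T * q t - evR u Q| / T := by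
        rw [show q t - evR u Q / T = (T * q t - evR u Q) / T by field_simp, abs_div,
          abs_of_pos hTpos]
      rw [h1, h2, ← add_div]
      exact div_le_div_of_nonneg_right hval hTpos.le)
    (by
      have h1 : 2 * lam * ((G : ℝ) / T) ≤ 1 / 1000 := by
        rw [mul_div_assoc', div_le_iff₀ hTpos]
        linarith
      refine le_trans (mul_le_mul_of_nonneg_left hprod (by positivity)) h1)
  have hfinal := hJE.trans hprod
  have hnn1 : 0 ≤ nrm M r (lh - pZ ξ L) := nrm_nonneg M hr.le _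
  have hnn2 : 0 ≤ nrm M r (qh - pZ ξ Q) := nrm_nonneg M hr.le _
  have hback : ∀ (S : ℝ⟦X⟧) (P : List ℤ), nrm M r (S - pZ ξ P) ≤ (G : ℝ) / T →
      Ap M r ξ S (P, G) := by
    intro S P hS
    unfold Ap
    have h1 : C ((2 : ℝ) ^ 160) * S - evZ ξ (P, G).1 = C T * (S - pZ ξ P) := by
      rw [hpZ, ← hT, mul_sub, ← mul_assoc, ← map_mul, mul_inv_cancel₀ hTne, map_one, one_mul]
    rw [h1, nrm_C_mul, abs_of_pos hTpos]
    rw [le_div_iff₀ hTpos] at hS
    rw [mul_comm]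
    exact hS
  exact ⟨hback lh L (by linarith), hback qh Q (by linarith)⟩

end TWP
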