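import Pool.Agent.TWP.StF

/-! TWP, module GR: Gronwall with a bootstrap. -/

namespace TWP

/-- the one-sided comparison -/
theorem gr_aux (El Eq El' Eq' : ℝ → ℝ) (lam h e0 ρ A Lam E : ℝ)
    (hlam : 0 < lam) (_hh : 0 < h) (he0 : 0 ≤ e0) (hρ : 0 ≤ ρ)
    (hLam : 1 ≤ Lam) (hA : A + 1 / 1000 ≤ Lam)
    (hE : Real.exp (Lam * h) ≤ E) (hsmall : 2 * lam * ((e0 + ρ) * E) < 1 / 1000)
    (hl : ∀ u, HasDerivAt El (El' u) u) (hq : ∀ u, HasDerivAt Eq (Eq' u) u)
    (hb : ∀ u, 0 ≤ u → u ≤ h →
      |El' u| + |Eq' u| ≤ (A + 2 * lam * (|El u| + |Eq u|)) * (|El u| + |Eq u|) + ρ)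
    (h0 : |El 0| + |Eq 0| ≤ e0) :
    ∀ u, 0 ≤ u → u ≤ h → |El u| + |Eq u| ≤ (e0 + ρ) * E := by
  have hE0 : 0 < E := lt_of_lt_of_le (Real.exp_pos _) hE
  -- the statement with a small `δ`
  have key : ∀ δ : ℝ, 0 < δ → 2 * lam * ((e0 + ρ + δ) * E) < 1 / 1000 →
      ∀ u, 0 ≤ u → u ≤ h → |El u| + |Eq u| ≤ (e0 + ρ + δ) * E := by
    intro δ hδ hs u hu0 huh
    set c : ℝ := e0 + ρ + δ with hc
    have hcpos : 0 < c := by positivity
    let f : ℝ → WithLp 1 (ℝ × ℝ) := fun u => WithLp.toLp 1 (El u, Eq u)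
    let f' : ℝ → WithLp 1 (ℝ × ℝ) := fun u => WithLp.toLp 1 (El' u, Eq' u)
    have hnf : ∀ u, ‖f u‖ = |El u| + |Eq u| := by
      intro u
      simp only [f]
      rw [WithLp.prod_norm_eq_of_L1]
      simp [Real.norm_eq_abs]
    have hnf' : ∀ u, ‖f' u‖ = |El' u| + |Eq' u| := by
      intro u
      simp only [f']
      rw [WithLp.prod_norm_eq_of_L1]
      simp [Real.norm_eq_abs]
    have hder : ∀ u, HasDerivAt f (f' u) u := by
      intro u
      have h1 : HasDerivAt (fun u => (El u, Eq u)) (El' u, Eq' u) u := (hl u).prodMk (hq u)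
      have h2 := ((WithLp.prodContinuousLinearEquiv 1 ℝ ℝ ℝ).symm :
        (ℝ × ℝ) →L[ℝ] WithLp 1 (ℝ × ℝ)).hasFDerivAt.comp_hasDerivAt u h1
      exact h2
    have hB : ∀ u, HasDerivAt (fun u => c * Real.exp (Lam * u) - ρ) (Lam * (c * Real.exp (Lam * u))) u := by
      intro u
      have h1 : HasDerivAt (fun u : ℝ => Lam * u) Lam u := by
        simpa using (hasDerivAt_id u).const_mul Lam
      have h2 := ((h1.exp).const_mul c).sub_const ρ
      exact h2.congr_deriv (by ring)
    have main := image_norm_le_of_norm_deriv_right_lt_deriv_boundary' (a := 0) (b := h) (f := f) (f' := f')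
      (fun x _ => (hder x).continuousAt.continuousWithinAt)
      (fun x _ => (hder x).hasDerivWithinAt)
      (B := fun u => c * Real.exp (Lam * u) - ρ) (B' := fun u => Lam * (c * Real.exp (Lam * u)))
      (by
        rw [hnf]
        simp only [mul_zero, Real.exp_zero, mul_one]
        linarith)
      (fun x _ => (hB x).continuousAt.continuousWithinAt)
      (fun x _ => (hB x).hasDerivWithinAt)
      (by
        intro x hx hfx
        have hx0 : 0 ≤ x := hx.1
        have hxh : x ≤ h := hx.2.le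
        have h1 := hb x hx0 hxh
        rw [hnf] at hfx
        rw [hnf']
        rw [hfx] at h1
        set Bx : ℝ := c * Real.exp (Lam * x) - ρ with hBx
        have hexp1 : 1 ≤ Real.exp (Lam * x) := by
          rw [← Real.exp_zero]
          exact Real.exp_le_exp.mpr (by positivity)
        have hexp2 : Real.exp (Lam * x) ≤ E := by
          refine le_trans (Real.exp_le_exp.mpr ?_) hE
          exact mul_le_mul_of_nonneg_left hxh (by linarith)
        have hBpos : 0 < Bx := by
          have : c * 1 ≤ c * Real.exp (Lam * x) := mul_le_mul_of_nonneg_left hexp1 hcpos.le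
          rw [hBx]; linarith
        have hBle : Bx ≤ c * E := by
          have : c * Real.exp (Lam * x) ≤ c * E := mul_le_mul_of_nonneg_left hexp2 hcpos.le
          rw [hBx]; linarith
        have h2 : 2 * lam * Bx < 1 / 1000 := by
          have : 2 * lam * Bx ≤ 2 * lam * (c * E) := mul_le_mul_of_nonneg_left hBle (by positivity)
          linarith
        have h3 : (A + 2 * lam * Bx) * Bx < Lam * Bx :=
          mul_lt_mul_of_pos_right (by linarith) hBpos
        have h4 : c * Real.exp (Lam * x) = Bx + ρ := by rw [hBx]; ring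
        have h5 : ρ ≤ Lam * ρ := by nlinarith
        show |El' x| + |Eq' x| < Lam * (c * Real.exp (Lam * x))
        rw [h4, mul_add]
        linarith)
    have h6 := main (x := u) ⟨hu0, huh⟩
    rw [hnf] at h6
    have hexp2 : Real.exp (Lam * u) ≤ E := by
      refine le_trans (Real.exp_le_exp.mpr ?_) hE
      exact mul_le_mul_of_nonneg_left huh (by linarith)
    have : c * Real.exp (Lam * u) ≤ c * E := mul_le_mul_of_nonneg_left hexp2 hcpos.le
    have h7 : |El u| + |Eq u| ≤ c * Real.exp (Lam * u) - ρ := h6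
    linarith
  intro u hu0 huh
  -- let `δ → 0`
  refine le_of_forall_pos_le_add fun ε hε => ?_
  have hgap : 0 < 1 / 1000 - 2 * lam * ((e0 + ρ) * E) := by linarith
  set δ : ℝ := min (ε / E) ((1 / 1000 - 2 * lam * ((e0 + ρ) * E)) / (2 * (2 * lam * E))) with hδ
  have hδ0 : 0 < δ := by
    rw [hδ]; exact lt_min (by positivity) (by positivity)
  have hδ1 : δ * E ≤ ε := by
    have : δ ≤ ε / E := min_le_left _ _
    calc δ * E ≤ ε / E * E := mul_le_mul_of_nonneg_right this hE0.le
      _ = ε := by field_simp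
  have hδ2 : 2 * lam * (δ * E) < 1 / 1000 - 2 * lam * ((e0 + ρ) * E) := by
    have h1 : δ ≤ (1 / 1000 - 2 * lam * ((e0 + ρ) * E)) / (2 * (2 * lam * E)) := min_le_right _ _
    have h2 : 2 * lam * E * δ ≤ 2 * lam * E *
        ((1 / 1000 - 2 * lam * ((e0 + ρ) * E)) / (2 * (2 * lam * E))) :=
      mul_le_mul_of_nonneg_left h1 (by positivity)
    have h3 : 2 * lam * E * ((1 / 1000 - 2 * lam * ((e0 + ρ) * E)) / (2 * (2 * lam * E))) =
        (1 / 1000 - 2 * lam * ((e0 + ρ) * E)) / 2 := by
      field_simp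
    nlinarith
  have h8 := key δ hδ0 (by nlinarith) u hu0 huh
  nlinarith

theorem GR_gron : S_GR := by
  intro q l c lam h e0 r1 r2 nl nq Lam k pl pq pl' pq' hQL hlam hh hr1 hr2 he0 hpl hpq hall h0
    hLam hA hk hsmall
  have hnl : 0 ≤ nl := le_trans (abs_nonneg _) (hall 0 (by simpa using hh.le)).1
  have hnq : 0 ≤ nq := le_trans (abs_nonneg _) (hall 0 (by simpa using hh.le)).2.1
  have hk1 : 1 ≤ k := by
    rcases Nat.eq_zero_or_pos k with hk0 | hk0
    · exfalso
      rw [hk0] at hk
      have : 0 < Lam * h := by positivity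
      simp at hk
      linarith
    · exact hk0
  have hexp : Real.exp (Lam * h) ≤ Real.exp 1 ^ k := by
    rw [← Real.exp_nat_mul]
    exact Real.exp_le_exp.mpr (by simpa using hk)
  have he3 : Real.exp 1 < 3 := lt_trans Real.exp_one_lt_d9 (by norm_num)
  have hlt3 : Real.exp 1 ^ k < 3 ^ k :=
    pow_lt_pow_left₀ he3 (Real.exp_pos _).le (by omega)
  set ρ : ℝ := r1 + r2 with hρdef
  have hρ : 0 ≤ ρ := by positivity
  have hsmall' : 2 * lam * ((e0 + ρ) * Real.exp 1 ^ k) < 1 / 1000 := by
    rcases (add_nonneg he0 hρ).lt_or_eq with hpos | hzero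
    · refine lt_of_lt_of_le ?_ hsmall
      have : (e0 + ρ) * Real.exp 1 ^ k < (e0 + ρ) * 3 ^ k := mul_lt_mul_of_pos_left hlt3 hpos
      exact mul_lt_mul_of_pos_left this (by positivity)
    · rw [← hzero]; norm_num
  -- the differences and their derivatives
  have hlin : ∀ u : ℝ, HasDerivAt (fun u : ℝ => c + lam * u) lam u := by
    intro u
    have h1 := ((hasDerivAt_id u).const_mul lam).const_add c
    simpa using h1
  have hdl : ∀ u : ℝ, HasDerivAt (fun u => l (c + lam * u) - pl u)
      (((c + lam * u) + 2 * q (c + lam * u) ^ 2 - l (c + lam * u) ^ 2) * lam - pl' u) u := by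
    intro u
    exact ((hQL.dl (c + lam * u)).comp u (hlin u)).sub (hpl u)
  have hdq : ∀ u : ℝ, HasDerivAt (fun u => q (c + lam * u) - pq u)
      ((l (c + lam * u) * q (c + lam * u)) * lam - pq' u) u := by
    intro u
    exact ((hQL.dq (c + lam * u)).comp u (hlin u)).sub (hpq u)
  have hbound : ∀ u : ℝ, |u| ≤ h →
      |((c + lam * u) + 2 * q (c + lam * u) ^ 2 - l (c + lam * u) ^ 2) * lam - pl' u| +
      |(l (c + lam * u) * q (c + lam * u)) * lam - pq' u| ≤
      (lam * (4 * nq + 2 * nl) + 2 * lam * (|l (c + lam * u) - pl u| + |q (c + lam * u) - pq u|)) *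
        (|l (c + lam * u) - pl u| + |q (c + lam * u) - pq u|) + ρ := by
    intro u hu
    obtain ⟨hl1, hq1, hr1', hr2'⟩ := hall u hu
    set L := l (c + lam * u) with hL
    set Q := q (c + lam * u) with hQ
    set a := |L - pl u| with ha
    set b := |Q - pq u| with hb
    have ha0 : 0 ≤ a := abs_nonneg _
    have hb0 : 0 ≤ b := abs_nonneg _
    -- first
    have e1 : ((c + lam * u) + 2 * Q ^ 2 - L ^ 2) * lam - pl' u =
        lam * (2 * ((Q - pq u) * (2 * pq u + (Q - pq u))) - (L - pl u) * (2 * pl u + (L - pl u))) -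
        (pl' u - lam * (c + lam * u + 2 * pq u ^ 2 - pl u ^ 2)) := by ring
    have e2 : (L * Q) * lam - pq' u =
        lam * (pl u * (Q - pq u) + pq u * (L - pl u) + (L - pl u) * (Q - pq u)) -
        (pq' u - lam * (pl u * pq u)) := by ring
    have b1 : |(Q - pq u) * (2 * pq u + (Q - pq u))| ≤ b * (2 * nq + b) := by
      rw [abs_mul]
      refine mul_le_mul_of_nonneg_left ?_ hb0
      refine le_trans (abs_add_le _ _) ?_
      rw [abs_mul, abs_two]
      have : 2 * |pq u| ≤ 2 * nq := by linarith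
      linarith
    have b2 : |(L - pl u) * (2 * pl u + (L - pl u))| ≤ a * (2 * nl + a) := by
      rw [abs_mul]
      refine mul_le_mul_of_nonneg_left ?_ ha0
      refine le_trans (abs_add_le _ _) ?_
      rw [abs_mul, abs_two]
      have : 2 * |pl u| ≤ 2 * nl := by linarith
      linarith
    have b3 : |pl u * (Q - pq u)| ≤ nl * b := by
      rw [abs_mul]
      exact mul_le_mul_of_nonneg_right hl1 hb0
    have b4 : |pq u * (L - pl u)| ≤ nq * a := by
      rw [abs_mul]
      exact mul_le_mul_of_nonneg_right hq1 ha0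
    have b5 : |(L - pl u) * (Q - pq u)| ≤ a * b := by
      rw [abs_mul]
    have c1 : |((c + lam * u) + 2 * Q ^ 2 - L ^ 2) * lam - pl' u| ≤
        lam * (2 * (b * (2 * nq + b)) + a * (2 * nl + a)) + r1 := by
      rw [e1]
      refine le_trans (abs_sub _ _) ?_
      refine add_le_add ?_ hr1'
      rw [abs_mul, abs_of_pos hlam]
      refine mul_le_mul_of_nonneg_left ?_ hlam.le
      refine le_trans (abs_sub _ _) ?_
      rw [abs_mul 2, abs_two]
      exact add_le_add (by linarith) b2
    have c2 : |(L * Q) * lam - pq' u| ≤ lam * (nl * b + nq * a + a * b) + r2 := by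
      rw [e2]
      refine le_trans (abs_sub _ _) ?_
      refine add_le_add ?_ hr2'
      rw [abs_mul, abs_of_pos hlam]
      refine mul_le_mul_of_nonneg_left ?_ hlam.le
      refine le_trans (abs_add_le _ _) ?_
      refine add_le_add ?_ b5
      refine le_trans (abs_add_le _ _) ?_
      exact add_le_add b3 b4
    have d1 : lam * (2 * (b * (2 * nq + b)) + a * (2 * nl + a)) + lam * (nl * b + nq * a + a * b) ≤
        (lam * (4 * nq + 2 * nl) + 2 * lam * (a + b)) * (a + b) := by
      have : (2 * (b * (2 * nq + b)) + a * (2 * nl + a)) + (nl * b + nq * a + a * b) ≤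
          ((4 * nq + 2 * nl) + 2 * (a + b)) * (a + b) := by
        have t1 : 0 ≤ nl * b := by positivity
        have t2 : 0 ≤ nq * a := by positivity
        have t3 : 0 ≤ a * b := by positivity
        have t4 : 0 ≤ a ^ 2 := by positivity
        nlinarith
      have h2 := mul_le_mul_of_nonneg_left this hlam.le
      calc lam * (2 * (b * (2 * nq + b)) + a * (2 * nl + a)) + lam * (nl * b + nq * a + a * b)
          = lam * ((2 * (b * (2 * nq + b)) + a * (2 * nl + a)) + (nl * b + nq * a + a * b)) := by ring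
        _ ≤ lam * (((4 * nq + 2 * nl) + 2 * (a + b)) * (a + b)) := h2
        _ = (lam * (4 * nq + 2 * nl) + 2 * lam * (a + b)) * (a + b) := by ring
    rw [hρdef]
    linarith
  have hfin : ∀ x : ℝ, x ≤ (e0 + ρ) * Real.exp 1 ^ k → x ≤ (e0 + ρ) * 3 ^ k := by
    intro x hx
    refine le_trans hx ?_
    exact mul_le_mul_of_nonneg_left hlt3.le (add_nonneg he0 hρ)
  intro u hu
  rcases le_total 0 u with hu0 | hu0
  · refine hfin _ ?_
    refine gr_aux (fun u => l (c + lam * u) - pl u) (fun u => q (c + lam * u) - pq u) _ _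
      lam h e0 ρ (lam * (4 * nq + 2 * nl)) Lam (Real.exp 1 ^ k) hlam hh he0 hρ hLam hA hexp hsmall'
      hdl hdq ?_ ?_ u hu0 (le_trans (le_abs_self u) hu)
    · intro v hv0 hvh
      exact hbound v (by rw [abs_of_nonneg hv0]; exact hvh)
    · simpa using h0
  · refine hfin _ ?_
    have hneg : ∀ u : ℝ, HasDerivAt (fun u : ℝ => -u) (-1) u := fun u => (hasDerivAt_id u).neg
    have hdl' : ∀ u : ℝ, HasDerivAt (fun u => l (c + lam * (-u)) - pl (-u))
        ((((c + lam * (-u)) + 2 * q (c + lam * (-u)) ^ 2 - l (c + lam * (-u)) ^ 2) * lam - pl' (-u)) * (-1))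
        u := fun u => (hdl (-u)).comp u (hneg u)
    have hdq' : ∀ u : ℝ, HasDerivAt (fun u => q (c + lam * (-u)) - pq (-u))
        (((l (c + lam * (-u)) * q (c + lam * (-u))) * lam - pq' (-u)) * (-1)) u :=
      fun u => (hdq (-u)).comp u (hneg u)
    have h9 := gr_aux (fun u => l (c + lam * (-u)) - pl (-u)) (fun u => q (c + lam * (-u)) - pq (-u)) _ _
      lam h e0 ρ (lam * (4 * nq + 2 * nl)) Lam (Real.exp 1 ^ k) hlam hh he0 hρ hLam hA hexp hsmall'
      hdl' hdq' (by
        intro v hv0 hvh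
        have := hbound (-v) (by rw [abs_neg, abs_of_nonneg hv0]; exact hvh)
        simp only [mul_neg, mul_one, abs_neg] at this ⊢
        exact this) (by simpa using h0) (-u) (by linarith)
      (by have := neg_abs_le u; linarith)
    simpa using h9

end TWP
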