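import Pool.Agent.TWP.StT

/-! TWP, module MV: mean value theorem row by row. -/

namespace TWP

/-- first step: differences of consecutive rows -/
theorem mv_diff (m : ℕ) (φ : Fin m → ℝ → ℝ) (x : Fin (m + 1) → ℝ) :
    (Matrix.of fun (i j : Fin (m + 1)) =>
      (Fin.cons (1 : ℝ) (fun j : Fin m => φ j (x i)) : Fin (m + 1) → ℝ) j).det =
    (Matrix.of fun (i j : Fin m) => φ j (x i.succ) - φ j (x i.castSucc)).det := by
  set A : Matrix (Fin (m + 1)) (Fin (m + 1)) ℝ := Matrix.of fun (i j : Fin (m + 1)) =>
      (Fin.cons (1 : ℝ) (fun j : Fin m => φ j (x i)) : Fin (m + 1) → ℝ) j with hA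
  let B : Matrix (Fin (m + 1)) (Fin (m + 1)) ℝ := Matrix.of fun (i j : Fin (m + 1)) =>
      (Fin.cons (A 0 j) (fun i : Fin m => A i.succ j - A i.castSucc j) : Fin (m + 1) → ℝ) i
  have hAB : A.det = B.det := by
    refine Matrix.det_eq_of_forall_row_eq_smul_add_pred (fun _ => (1 : ℝ)) ?_ ?_
    · intro j
      simp [B]
    · intro i j
      simp only [B, Matrix.of_apply, Fin.cons_succ]
      ring
  rw [hAB, Matrix.det_succ_column_zero, Fin.sum_univ_succ]
  have hz : ∀ i : Fin m, B i.succ 0 = 0 := by
    intro i
    simp [B, hA]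
  have h1 : B 0 0 = 1 := by simp [B, hA]
  simp only [hz, h1, mul_zero, zero_mul, Finset.sum_const_zero, add_zero, Fin.val_zero, pow_zero,
    one_mul]
  congr 1

theorem t_MV : S_MV := by
  intro m φ x hφ hx
  have key : ∀ s : Finset (Fin m), ∃ ξ : Fin m → ℝ,
      (∀ i ∈ s, x i.castSucc < ξ i ∧ ξ i < x i.succ) ∧
      (Matrix.of fun (i j : Fin m) => φ j (x i.succ) - φ j (x i.castSucc)).det =
      (∏ i ∈ s, (x i.succ - x i.castSucc)) *
        (Matrix.of fun (i j : Fin m) =>
          if i ∈ s then deriv (φ j) (ξ i) else φ j (x i.succ) - φ j (x i.castSucc)).det := by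
    intro s
    induction s using Finset.induction_on with
    | empty => exact ⟨fun _ => 0, by simp, by simp⟩
    | insert r s hr ih =>
      obtain ⟨ξ, hξ, hdet⟩ := ih
      set M : Matrix (Fin m) (Fin m) ℝ := Matrix.of fun (i j : Fin m) =>
          if i ∈ s then deriv (φ j) (ξ i) else φ j (x i.succ) - φ j (x i.castSucc) with hM
      have hab : x r.castSucc < x r.succ := hx r.castSucc_lt_succ
      let L : (Fin m → ℝ) →L[ℝ] ℝ :=
        LinearMap.toContinuousLinearMap ((LinearMap.proj r) ∘ₗ (Matrix.cramer M.transpose))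
      have hL : ∀ b : Fin m → ℝ, L b = (M.updateRow r b).det := by
        intro b
        show Matrix.cramer M.transpose b r = _
        rw [Matrix.cramer_transpose_apply]
      have hd : ∀ t : ℝ, HasDerivAt (fun t => L (fun j => φ j t)) (L (fun j => deriv (φ j) t)) t := by
        intro t
        have h1 : HasDerivAt (fun t => (fun j => φ j t : Fin m → ℝ)) (fun j => deriv (φ j) t) t :=
          hasDerivAt_pi.mpr fun j => (hφ j t).hasDerivAt
        exact L.hasFDerivAt.comp_hasDerivAt t h1
      obtain ⟨c, hc, hceq⟩ := exists_hasDerivAt_eq_slope (fun t => L (fun j => φ j t))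
        (fun t => L (fun j => deriv (φ j) t)) hab
        (fun t _ => (hd t).continuousAt.continuousWithinAt) (fun t _ => hd t)
      have hMdet : M.det = (x r.succ - x r.castSucc) * (M.updateRow r (fun j => deriv (φ j) c)).det := by
        have h2 : M.det = L (fun j => φ j (x r.succ)) - L (fun j => φ j (x r.castSucc)) := by
          rw [← map_sub, hL]
          congr 1
          ext i j
          by_cases hi : i = r
          · subst hi
            simp [hM, hr]
          · rw [Matrix.updateRow_ne hi]
        have h3 : x r.succ - x r.castSucc ≠ 0 := by linarith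
        rw [h2, ← hL, hceq]
        field_simp
      refine ⟨Function.update ξ r c, ?_, ?_⟩
      · intro i hi
        rcases Finset.mem_insert.mp hi with rfl | hi'
        · simpa using hc
        · have hne : i ≠ r := fun h => hr (h ▸ hi')
          rw [Function.update_of_ne hne]
          exact hξ i hi'
      · rw [Finset.prod_insert hr, hdet, hMdet]
        have hmat : M.updateRow r (fun j => deriv (φ j) c) = Matrix.of fun (i j : Fin m) =>
            if i ∈ insert r s then deriv (φ j) (Function.update ξ r c i)
            else φ j (x i.succ) - φ j (x i.castSucc) := by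
          ext i j
          by_cases hi : i = r
          · subst hi
            simp
          · rw [Matrix.updateRow_ne hi]
            simp [hM, hi]
        rw [hmat]
        ring
  obtain ⟨ξ, hξ, hdet⟩ := key Finset.univ
  have hξ' : ∀ i : Fin m, x i.castSucc < ξ i ∧ ξ i < x i.succ := fun i => hξ i (Finset.mem_univ i)
  refine ⟨ξ, ?_, hξ', ?_⟩
  · intro i j hij
    have h1 : x i.succ ≤ x j.castSucc := hx.monotone (by
      rw [Fin.le_def, Fin.val_succ, Fin.val_castSucc]
      exact hij)
    exact lt_of_lt_of_le (hξ' i).2 (le_trans h1 (hξ' j).1.le)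
  · rw [mv_diff, hdet]
    simp

end TWP
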