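import Pool.Agent.TWP.StF

/-! Module TWP_PU (helper64): `prodUp` is an upper bound of the product. -/

set_option autoImplicit false

namespace TWP

open Finset

theorem PU : S_PU := by
  intro x M
  induction M with
  | zero =>
    intro p y _ _
    simp [K.prodUp]
  | succ M ih =>
    intro p y hy h0
    rw [Finset.prod_range_succ, K.prodUp]
    set p' : ℕ := p + p * x / (K.ONE * (M + 1)) + 1 with hp'
    have h1 := ih p' y hy h0
    have hprod : 0 ≤ ∏ m ∈ Finset.range M, (1 + y / ((m : ℝ) + 1)) := by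
      apply Finset.prod_nonneg
      intro m _
      positivity
    have hONE : (K.ONE : ℝ) = 2 ^ 160 := by
      rw [K.ONE]
      push_cast
      norm_num
    have hpos : (0 : ℝ) < 2 ^ 160 * ((M : ℝ) + 1) := by positivity
    have hdiv : ((p * x : ℕ) : ℝ) / ((K.ONE * (M + 1) : ℕ) : ℝ) ≤
        ((p * x / (K.ONE * (M + 1)) : ℕ) : ℝ) + 1 := by
      have hlt := Nat.lt_div_mul_add (a := p * x) (b := K.ONE * (M + 1)) (by
        have : 0 < K.ONE := by simp [K.ONE]
        positivity)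
      have hbpos : (0 : ℝ) < ((K.ONE * (M + 1) : ℕ) : ℝ) := by
        rw [Nat.cast_mul, hONE]
        push_cast
        positivity
      rw [div_le_iff₀ hbpos]
      have hlt' : ((p * x : ℕ) : ℝ) ≤
          ((p * x / (K.ONE * (M + 1)) * (K.ONE * (M + 1)) + K.ONE * (M + 1) : ℕ) : ℝ) := by
        exact_mod_cast hlt.le
      rw [Nat.cast_add, Nat.cast_mul (p * x / (K.ONE * (M + 1)))] at hlt'
      linarith
    have hstep : (p : ℝ) * (1 + y / ((M : ℝ) + 1)) ≤ (p' : ℝ) := by
      have e1 : (p : ℝ) * (y / ((M : ℝ) + 1)) ≤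
          ((p * x : ℕ) : ℝ) / ((K.ONE * (M + 1) : ℕ) : ℝ) := by
        rw [Nat.cast_mul, Nat.cast_mul, hONE]
        push_cast
        have : (p : ℝ) * (y / ((M : ℝ) + 1)) ≤ (p : ℝ) * (((x : ℝ) / 2 ^ 160) / ((M : ℝ) + 1)) := by
          gcongr
        refine this.trans (le_of_eq ?_)
        field_simp
      have e2 : (p' : ℝ) = (p : ℝ) + ((p * x / (K.ONE * (M + 1)) : ℕ) : ℝ) + 1 := by
        rw [hp']
        push_cast
        ring
      rw [e2]
      linarith
    calc (p : ℝ) * ((∏ m ∈ Finset.range M, (1 + y / ((m : ℝ) + 1))) * (1 + y / ((M : ℝ) + 1)))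
        = ((p : ℝ) * (1 + y / ((M : ℝ) + 1))) * ∏ m ∈ Finset.range M, (1 + y / ((m : ℝ) + 1)) := by
          ring
      _ ≤ (p' : ℝ) * ∏ m ∈ Finset.range M, (1 + y / ((m : ℝ) + 1)) :=
          mul_le_mul_of_nonneg_right hstep hprod
      _ ≤ _ := h1

end TWP
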