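import Pool.Agent.TWP.StT

/-! TWP, module REC: systems with positive weights (helper61). -/

set_option autoImplicit false

namespace TWP

open Filter Topology
open scoped ContDiff

theorem rec_red {u : ℕ → ℝ → ℝ} (hu : ∀ j, ContDiff ℝ ∞ (u j)) (h0 : ∀ t, 0 < u 0 t) (j : ℕ) :
    ContDiff ℝ ∞ (fun s => u (j + 1) s / u 0 s) ∧ ContDiff ℝ ∞ (red u j) := by
  have h1 : ContDiff ℝ ∞ (fun s => u (j + 1) s / u 0 s) :=
    (hu (j + 1)).div (hu 0) fun t => (h0 t).ne'
  exact ⟨h1, (contDiff_infty_iff_deriv.1 h1).2⟩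

/-- **REC**. -/
theorem t_REC (hMV : S_MV) : S_REC := by
  intro m
  induction m with
  | zero =>
    intro u σ I _ _ _ hl x _ hxI
    have h := hl (x 0) (hxI 0)
    simpa [dt, Matrix.det_fin_one] using h
  | succ m ih =>
    intro u σ I hI hu hk hl x hx hxI
    have h0 : ∀ t, 0 < u 0 t := fun t => by simpa using hk 0 (Nat.succ_pos m) t
    obtain ⟨ξ, hξ, hξx, hdet⟩ := hMV (m + 1) (fun j => fun s => u ((j : ℕ) + 1) s / u 0 s) x
      (fun j => ((rec_red hu h0 j).1).differentiable (by simp)) hx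
    have h1 : dt (m + 1 + 1) u x = (∏ i : Fin (m + 1 + 1), u 0 (x i)) *
        (Matrix.of fun (i j : Fin (m + 1 + 1)) =>
          (Fin.cons (1 : ℝ) (fun j : Fin (m + 1) => u ((j : ℕ) + 1) (x i) / u 0 (x i)) :
            Fin (m + 1 + 1) → ℝ) j).det := by
      rw [← Matrix.det_mul_column, dt]
      congr 1
      ext i j
      simp only [Matrix.of_apply]
      refine Fin.cases ?_ (fun j => ?_) j
      · simp
      · simp only [Fin.cons_succ, Fin.val_succ]
        rw [mul_div_cancel₀ _ (h0 (x i)).ne']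
    have h2 : (Matrix.of fun i j : Fin (m + 1) =>
        deriv (fun s => u ((j : ℕ) + 1) s / u 0 s) (ξ i)).det = dt (m + 1) (red u) ξ := rfl
    rw [h2] at hdet
    rw [h1, hdet]
    have h3 : 0 < σ * dt (m + 1) (red u) ξ := by
      refine ih (red u) σ I hI (fun j => (rec_red hu h0 j).2) ?_ ?_ ξ hξ ?_
      · intro k hkm t
        have := hk (k + 1) (by omega) t
        rwa [Function.iterate_succ_apply] at this
      · intro t ht
        have := hl t ht
        rwa [Function.iterate_succ_apply] at this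
      · intro i
        exact hI.out (hxI i.castSucc) (hxI i.succ) ⟨(hξx i).1.le, (hξx i).2.le⟩
    have h4 : 0 < ∏ i : Fin (m + 1 + 1), u 0 (x i) := Finset.prod_pos fun i _ => h0 _
    have h5 : 0 < ∏ i : Fin (m + 1), (x i.succ - x i.castSucc) :=
      Finset.prod_pos fun i _ => sub_pos.2 (hx (Fin.castSucc_lt_succ))
    have h6 := mul_pos (mul_pos h4 h5) h3
    calc (0 : ℝ) < _ := h6
      _ = _ := by ring

end TWP
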