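import Pool.Agent.TWP.StT

/-! TWP, module T1: a positive Toda chain gives total positivity. -/

namespace TWP

open Filter Topology
open scoped ContDiff

/-- T1: if the first `n - 1` functions of the Toda chain are positive then `f` is `PF n`. -/
theorem t_T1 (hTV : S_TV) (hWPOS : S_WPOS) (hREC : S_REC) : S_T1 := by
  intro f n hn hf hpos htoda
  refine ⟨hf.continuous.measurable, ?_⟩
  intro m hm1 hmn x y hx hy
  obtain ⟨k, rfl⟩ : ∃ k, m = k + 1 := ⟨m - 1, by omega⟩
  set Y : ℕ → ℝ := fun j => if h : j < k + 1 then y ⟨j, h⟩ else 0 with hY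
  have hYeq : ∀ (j : ℕ) (h : j < k + 1), Y j = y ⟨j, h⟩ := by
    intro j h
    simp only [hY]
    rw [dif_pos h]
  have hYm : ∀ l, l ≤ k + 1 → StrictMono (fun j : Fin l => Y (j : ℕ)) := by
    intro l hl i j hij
    simp only []
    rw [hYeq _ (lt_of_lt_of_le i.2 hl), hYeq _ (lt_of_lt_of_le j.2 hl)]
    exact hy (by exact_mod_cast hij)
  set u : ℕ → ℝ → ℝ := fun j x => f (x - Y j) with hu
  have husm : ∀ j, ContDiff ℝ ∞ (u j) := fun j => hf.comp (contDiff_id.sub contDiff_const)
  have hWr : ∀ (l : ℕ) (x : ℝ), Wr l u x =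
      (Matrix.of fun i j : Fin l => iteratedDeriv i f (x - Y (j : ℕ))).det := by
    intro l x
    unfold Wr
    congr 1
    ext i j
    simp only [Matrix.of_apply, hu]
    rw [iteratedDeriv_comp_sub_const]
  obtain ⟨hTV1, -⟩ := hTV f n hn hf hpos htoda
  have hW : ∀ l, 1 ≤ l → l ≤ k + 1 → ∀ t, 0 < Wr l u t := by
    intro l h1 h2 t
    rw [hWr]
    exact hTV1 l h1 (h2.trans hmn) t (fun j => Y (j : ℕ)) (hYm l h2)
  obtain ⟨hP1, hP2⟩ := hWPOS k u 1 husm (fun l h1 h2 t => hW l h1 (by omega) t)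
  have hfin := hREC k u 1 Set.univ Set.ordConnected_univ husm hP1
    (fun t _ => hP2 t (by rw [one_mul]; exact hW (k + 1) (by omega) le_rfl t)) x hx
    (fun i => Set.mem_univ _)
  rw [one_mul] at hfin
  have hdt : dt (k + 1) u x = (Matrix.of fun i j : Fin (k + 1) => f (x i - y j)).det := by
    unfold dt
    congr 1
    ext i j
    simp only [Matrix.of_apply, hu]
    rw [hYeq _ j.2]
  rw [hdt] at hfin
  exact hfin.le

end TWP
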