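import Pool.Agent.TWP.StT

/-! TWP, module T2: the order of total positivity is not larger. -/

namespace TWP

open Filter Topology
open scoped ContDiff

/-- T2: if the `n`-th function of the Toda chain is negative at a point then `f` is not `PF (n+1)`. -/
theorem t_T2 (hTV : S_TV) (hWPOS : S_WPOS) (hREC : S_REC) (hDAR : S_DAR) : S_T2 := by
  intro f n t0 hn hf hpos htoda hneg hPF
  obtain ⟨s, _, _, hs, hst⟩ := hDAR f n hf hpos htoda
  have hsn : s n 0 = toda (fun t => deriv f t / f t) n := funext fun t => hst n hn le_rfl t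
  have hcont : Continuous (toda (fun t => deriv f t / f t) n) := by
    rw [← hsn]
    exact (hs n le_rfl 0).continuous
  -- a neighbourhood on which `toda n` is negative
  have hnb : ∀ᶠ t in 𝓝 t0, toda (fun t => deriv f t / f t) n t < 0 :=
    hcont.continuousAt.eventually (gt_mem_nhds hneg)
  obtain ⟨δ, hδ, hball⟩ := Metric.eventually_nhds_iff.1 hnb
  have hneg' : ∀ t, |t - t0| < δ → toda (fun t => deriv f t / f t) n t < 0 := by
    intro t ht
    exact hball (by rw [Real.dist_eq]; exact ht)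
  -- the points
  set c : ℝ := δ / (4 * ((n : ℝ) + 1)) with hc
  have hn1 : (0 : ℝ) < (n : ℝ) + 1 := by positivity
  have hc0 : 0 < c := by positivity
  have hcn : c * ((n : ℝ) + 1) = δ / 4 := by
    rw [hc]
    field_simp
  have hYlt : ∀ j : ℕ, j ≤ n → c * (j : ℝ) < δ / 2 := by
    intro j hj
    have h1 : (j : ℝ) ≤ n := by exact_mod_cast hj
    have h2 : c * (j : ℝ) ≤ c * ((n : ℝ) + 1) := by
      apply mul_le_mul_of_nonneg_left _ hc0.le
      linarith
    rw [hcn] at h2
    linarith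
  have hY0 : ∀ j : ℕ, -(δ / 2) < c * (j : ℝ) := by
    intro j
    have : 0 ≤ c * (j : ℝ) := by positivity
    linarith
  have hmono : ∀ k : ℕ, StrictMono (fun j : Fin k => c * ((j : ℕ) : ℝ)) := by
    intro k i j hij
    have h1 : ((i : ℕ) : ℝ) < ((j : ℕ) : ℝ) := by exact_mod_cast hij
    exact mul_lt_mul_of_pos_left h1 hc0
  set u : ℕ → ℝ → ℝ := fun j x => f (x - c * (j : ℝ)) with hu
  have husm : ∀ j, ContDiff ℝ ∞ (u j) := fun j => hf.comp (contDiff_id.sub contDiff_const)
  have hWr : ∀ (k : ℕ) (x : ℝ), Wr k u x =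
      (Matrix.of fun i j : Fin k => iteratedDeriv i f (x - c * ((j : ℕ) : ℝ))).det := by
    intro k x
    unfold Wr
    congr 1
    ext i j
    simp only [Matrix.of_apply, hu]
    rw [iteratedDeriv_comp_sub_const]
  obtain ⟨hTV1, hTV2⟩ := hTV f n hn hf hpos htoda
  have hW1 : ∀ k, 1 ≤ k → k ≤ n → ∀ t, 0 < Wr k u t := by
    intro k h1 h2 t
    rw [hWr]
    exact hTV1 k h1 h2 t (fun j => c * ((j : ℕ) : ℝ)) (hmono k)
  have hW2 : ∀ t ∈ Set.Ioo (t0 - δ / 2) (t0 + δ / 2), 0 < (-1 : ℝ) * Wr (n + 1) u t := by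
    intro t ht
    rw [hWr]
    refine hTV2 t (-1) (Set.Ioo (-(δ / 2)) (δ / 2)) Set.ordConnected_Ioo ?_
      (fun j => c * ((j : ℕ) : ℝ)) (hmono (n + 1)) ?_
    · intro y hy
      have := hneg' (t - y) (by
        rw [abs_lt]
        constructor <;> linarith [ht.1, ht.2, hy.1, hy.2])
      linarith
    · intro j
      exact ⟨hY0 j, hYlt j (Nat.lt_succ_iff.1 j.2)⟩
  obtain ⟨hP1, hP2⟩ := hWPOS n u (-1) husm hW1
  set x : Fin (n + 1) → ℝ := fun i => t0 + c * ((i : ℕ) : ℝ) with hx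
  have hxm : StrictMono x := by
    intro i j hij
    have := hmono (n + 1) hij
    simp only [hx]
    simpa using this
  have hxI : ∀ i, x i ∈ Set.Ioo (t0 - δ / 2) (t0 + δ / 2) := by
    intro i
    have h1 := hY0 i
    have h2 := hYlt i (Nat.lt_succ_iff.1 i.2)
    exact ⟨by simp only [hx]; linarith, by simp only [hx]; linarith⟩
  have hfin := hREC n u (-1) (Set.Ioo (t0 - δ / 2) (t0 + δ / 2)) Set.ordConnected_Ioo husm hP1
    (fun t ht => hP2 t (hW2 t ht)) x hxm hxI
  have hge := hPF.2 (n + 1) (by omega) le_rfl x (fun j => c * ((j : ℕ) : ℝ)) hxm (hmono (n + 1))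
  have hdt : dt (n + 1) u x =
      (Matrix.of fun i j : Fin (n + 1) => f (x i - c * ((j : ℕ) : ℝ))).det := rfl
  rw [hdt] at hfin
  linarith

end TWP
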