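import Pool.Agent.TWP.StF

/-! TWP_TLM: the link with the Toda chain in the middle charts
(`ψ = λ`, `ρ = λ²`, `zc = 2^160`, `zs = 0`, `(hh, k1, k2) = (0, 0, 1)`). -/

namespace TWP

open PowerSeries Filter Topology
open scoped ContDiff

/-- the step condition of `S_TL` holds everywhere for the constant weight -/
private theorem tlm_step (lam c : ℝ) (hlam : 0 < lam) (a : ℝ → ℝ) (s : ℝ) :
    lam ^ 2 * deriv (fun s => deriv a s / a s) s =
      - (((((2 : ℤ) ^ 160 : ℤ) : ℝ) / 2 ^ 160) * ((s - c) / lam) ^ 0 *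
        (((0 : ℤ) : ℝ) + ((0 : ℤ) : ℝ) * (dl (fun _ => lam) (fun s => lam ^ 2 * a s) s /
            (lam ^ 2 * a s)) -
          ((1 : ℤ) : ℝ) * dl (fun _ => lam)
            (fun s => dl (fun _ => lam) (fun s => lam ^ 2 * a s) s / (lam ^ 2 * a s)) s)) := by
  have h2 : lam ^ 2 ≠ 0 := by positivity
  have e1 : (fun s => dl (fun _ => lam) (fun s => lam ^ 2 * a s) s / (lam ^ 2 * a s)) =
      fun s => lam * (deriv a s / a s) := by
    funext s
    simp only [dl]
    rw [deriv_const_mul_field]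
    rw [show lam * (lam ^ 2 * deriv a s) = lam ^ 2 * (lam * deriv a s) by ring,
      mul_div_mul_left _ _ h2, mul_div_assoc]
  have h3 : ((((2 : ℤ) ^ 160 : ℤ) : ℝ) / 2 ^ 160) = 1 := by
    rw [Int.cast_pow, Int.cast_ofNat]
    exact div_self (by positivity)
  rw [e1, h3]
  have e5 : dl (fun _ => lam) (fun s => lam * (deriv a s / a s)) s =
      lam * (lam * deriv (fun s => deriv a s / a s) s) := by
    show lam * deriv (fun s => lam * (deriv a s / a s)) s = _
    rw [deriv_const_mul_field]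
  rw [e5, Int.cast_zero, Int.cast_one]
  ring

theorem TLM : S_TC → S_TS → S_TA → S_TM → S_TI → S_TL → S_TLM := by
  intro hTC hTS hTA hTM _ hTL lam c m t K hlam hm hpos
  have hψ : ContDiffAt ℝ ∞ (fun _ : ℝ => lam) t := contDiffAt_const
  have hρ : ContDiffAt ℝ ∞ (fun _ : ℝ => lam ^ 2) t := contDiffAt_const
  have hx : ContDiffAt ℝ ∞ (fun s : ℝ => (s - c) / lam) t :=
    (contDiffAt_id.sub contDiffAt_const).div_const lam
  have hρ0 : 0 < (fun _ : ℝ => lam ^ 2) t := by
    show 0 < lam ^ 2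
    positivity
  -- the series of `λ² toda m 1`
  have hlm : ContDiffAt ℝ ∞ (fun s => lam * m s) t := contDiffAt_const.mul hm
  have hdlm : ContDiffAt ℝ ∞ (dl (fun _ => lam) (fun s => lam * m s)) t :=
    hTS.2.1 _ _ t hψ hlm
  obtain ⟨hA1, -, hA3⟩ := hTA (fun _ => lam) t hψ
  have e1 : Tay (fun _ => lam) (fun s => lam * m s) t = C lam * Tay (fun _ => lam) m t := by
    rw [hTM (fun _ => lam) t hψ (fun _ => lam) m contDiffAt_const hm, hA1 lam]
  have e2 : D (Tay (fun _ => lam) (fun s => lam * m s) t) =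
      Tay (fun _ => lam) (dl (fun _ => lam) (fun s => lam * m s)) t :=
    (hTC (fun _ => lam) (fun s => lam * m s) (fun s => lam * m s) t (EventuallyEq.refl _ _)).2.2
  have e3 : (fun s : ℝ => (lam ^ 2) * toda m 1 s) =
      fun s => (0 : ℝ) - dl (fun _ => lam) (fun s => lam * m s) s := by
    funext s
    simp only [dl, toda]
    rw [deriv_const_mul_field]
    ring
  have e4 : Tay (fun _ => lam) (fun s => (lam ^ 2) * toda m 1 s) t =
      - D (C lam * Tay (fun _ => lam) m t) := by
    rw [e3, hA3 (fun _ => (0 : ℝ)) _ contDiffAt_const hdlm, hA1 0, ← e1, e2]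
    simp
  refine hTL (fun _ => lam) (fun _ => lam ^ 2) (fun s => (s - c) / lam) m t (2 ^ 160) 0 0 0 1 K
    hψ hρ hx hm hρ0 ?_ ?_
  · intro a _ _
    exact Eventually.of_forall fun s => tlm_step lam c hlam a s
  · intro k hk
    have h := hpos k hk
    rw [← e4] at h
    exact h

end TWP
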