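import Pool.Agent.TWP.StT

/-! TWP, module TV: the determinants of derivatives. -/

namespace TWP

open Filter Topology
open scoped ContDiff

/-- The reduction of `v i y = f^(i) (x - y)` is `(-1)^j s k j (x - y)`. -/
private lemma TV_iter (f : ℝ → ℝ) (n : ℕ) (s : ℕ → ℕ → ℝ → ℝ)
    (h0 : ∀ j t, s 0 j t = (-1) ^ j * iteratedDeriv j f t)
    (h1 : ∀ k < n, ∀ j, s (k + 1) j = deriv (fun t => s k (j + 1) t / s k 0 t)) (x : ℝ) :
    ∀ k ≤ n, ∀ (j : ℕ) (y : ℝ),
      (red^[k] (fun i y => iteratedDeriv i f (x - y))) j y = (-1) ^ j * s k j (x - y) := by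
  intro k
  induction k with
  | zero =>
    intro _ j y
    simp only [Function.iterate_zero, id_eq]
    rw [h0, ← mul_assoc, ← pow_add, ← two_mul, pow_mul]
    simp
  | succ k ih =>
    intro hk j y
    have ih' := ih (by omega)
    rw [Function.iterate_succ_apply']
    change deriv (fun t => (red^[k] (fun i y => iteratedDeriv i f (x - y))) (j + 1) t /
      (red^[k] (fun i y => iteratedDeriv i f (x - y))) 0 t) y = _
    have e : (fun t => (red^[k] (fun i y => iteratedDeriv i f (x - y))) (j + 1) t /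
        (red^[k] (fun i y => iteratedDeriv i f (x - y))) 0 t) =
        fun t => (-1) ^ (j + 1) * (fun w => s k (j + 1) w / s k 0 w) (x - t) := by
      funext t
      rw [ih' (j + 1) t, ih' 0 t]
      simp only [pow_zero, one_mul, mul_div_assoc]
    have hd : deriv (fun t => (fun w => s k (j + 1) w / s k 0 w) (x - t)) y =
        - deriv (fun w => s k (j + 1) w / s k 0 w) (x - y) :=
      deriv_comp_const_sub (fun w => s k (j + 1) w / s k 0 w) x y
    rw [e, deriv_const_mul_field, hd, h1 k (by omega) j]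
    ring

theorem t_TV (hREC : S_REC) (hDAR : S_DAR) : S_TV := by
  intro f n hn hf hpos htoda
  obtain ⟨s, h0, h1, h2, h3⟩ := hDAR f n hf hpos htoda
  have hv : ∀ x : ℝ, ∀ j : ℕ, ContDiff ℝ ∞ (fun y => iteratedDeriv j f (x - y)) := by
    intro x j
    have e : (fun y => iteratedDeriv j f (x - y)) = fun y => (-1) ^ j * s 0 j (x - y) := by
      funext y
      rw [h0, ← mul_assoc, ← pow_add, ← two_mul, pow_mul]
      simp
    rw [e]
    have h := h2 0 (Nat.zero_le n) j
    exact contDiff_const.mul (h.comp (contDiff_const.sub contDiff_id))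
  have hw : ∀ x : ℝ, ∀ k < n, ∀ y : ℝ,
      0 < (red^[k] (fun i y => iteratedDeriv i f (x - y))) 0 y := by
    intro x k hk y
    rw [TV_iter f n s h0 h1 x k hk.le 0 y, pow_zero, one_mul]
    rcases Nat.eq_zero_or_pos k with rfl | hk0
    · rw [h0]
      simpa using hpos (x - y)
    · rw [h3 k hk0 hk.le]
      exact htoda k hk0 hk _
  have hdet : ∀ (k : ℕ) (x : ℝ) (y : Fin k → ℝ),
      (Matrix.of fun i j : Fin k => iteratedDeriv i f (x - y j)).det =
        dt k (fun i y => iteratedDeriv i f (x - y)) y := by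
    intro k x y
    unfold dt
    rw [← Matrix.det_transpose]
    rfl
  refine ⟨?_, ?_⟩
  · intro k hk1 hkn x y hy
    obtain ⟨m, rfl⟩ : ∃ m, k = m + 1 := ⟨k - 1, by omega⟩
    rw [hdet]
    have h := hREC m (fun i y => iteratedDeriv i f (x - y)) 1 Set.univ Set.ordConnected_univ
      (hv x) (fun k' hk' t => hw x k' (by omega) t)
      (fun t _ => by rw [one_mul]; exact hw x m (by omega) t) y hy (fun _ => Set.mem_univ _)
    simpa using h
  · intro x σ I hI hσ y hy hyI
    rw [hdet]
    refine hREC n (fun i y => iteratedDeriv i f (x - y)) σ I hI (hv x)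
      (fun k' hk' t => hw x k' hk' t) ?_ y hy hyI
    intro t ht
    rw [TV_iter f n s h0 h1 x n le_rfl 0 t, pow_zero, one_mul, h3 n hn le_rfl]
    exact hσ t ht

end TWP
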