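import Pool.Agent.TWP.Defs
import Pool.Agent.TWP.Jet
import Pool.Agent.TWP.StF

/-! TWP, block P: the Toda chain decides the Polya frequency order.  Statements with paper proofs.
Every `S_xxx` is a module `TWP_P_xxx` (`theorem TWP.P.t_xxx : … → S_xxx`, file `Pool/Agent/TWP/Pxxx.lean`).

Notation: `f > 0` smooth, `m = (log f)'`, `toda m k` the Toda chain (`Jet.lean`), `sy f k j` the reduced
system: `sy f 0 j = (-1)^j f^(j)`, `sy f (k+1) = red (sy f k)`.  Plan: SY: `sy f k 0 = toda m k` for `k ≥ 1`.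
RD: one reduction step for collocation determinants (mean value theorem).  DD: the determinants
`det (f^(j) (z_i))`, `z` decreasing.  WR: the Wronskian of a system is that of the reduced system.
EC: positive Wronskians give positive collocation determinants.  T1, T2: the result. -/

namespace TWP.P

open Filter Topology
open scoped ContDiff

/-- collocation determinant of `u 0, …, u (m-1)` at the points `x 0, …, x (m-1)` -/
noncomputable def co (m : ℕ) (u : ℕ → ℝ → ℝ) (x : Fin m → ℝ) : ℝ :=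
  (Matrix.of fun i j : Fin m => u (j : ℕ) (x i)).det

/-- Wronskian of `u 0, …, u (m-1)` -/
noncomputable def wr (m : ℕ) (u : ℕ → ℝ → ℝ) (x : ℝ) : ℝ :=
  (Matrix.of fun i j : Fin m => iteratedDeriv (i : ℕ) (u (j : ℕ)) x).det

/-- the reduced system `(u (j+1) / u 0)'` -/
noncomputable def red (u : ℕ → ℝ → ℝ) : ℕ → ℝ → ℝ := fun j => deriv (fun s => u (j + 1) s / u 0 s)

/-- the reduced systems of `(-1)^j f^(j)` -/
noncomputable def sy (f : ℝ → ℝ) : ℕ → ℕ → ℝ → ℝ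
  | 0 => fun j t => (-1) ^ j * iteratedDeriv j f t
  | k + 1 => red (sy f k)

/-- the hypotheses of the two theorems -/
structure Ch (f m : ℝ → ℝ) (n : ℕ) : Prop where
  smf : ContDiff ℝ ∞ f
  smm : ContDiff ℝ ∞ m
  pos : ∀ t, 0 < f t
  der : ∀ t, HasDerivAt f (m t * f t) t
  tod : ∀ k, 1 ≤ k → k < n → ∀ t, 0 < toda m k t

/-- MV: mean value theorem for determinants, row by row.
Proof. Let `A` be the matrix with rows `R i = (h j (x i.succ) - h j (x i.castSucc))_j`. Claim for every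
`s : Finset (Fin m)` (induction on `s`): there are `ξ i ∈ (x i.castSucc, x i.succ)`, `i ∈ s`, with
`det A = (∏ i ∈ s, (x i.succ - x i.castSucc)) * det B`, `B` = `A` with the rows `i ∈ s` replaced by
`(v j (ξ i))_j`. Step `insert a s`: with the other rows of `B` fixed, `φ y = det (B.updateRow a (h · y))`
is differentiable with derivative `det (B.updateRow a (v · y))` (`Matrix.det_updateRow_add`, `…_smul`, or expand
along the row: `φ y = ∑ j, c j * h j y`, `Matrix.det_succ_row`/`Matrix.mulVec_cramer`/linear map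
`Matrix.cramer`), and `φ (x a.succ) - φ (x a.castSucc) = det B` (linearity in row `a`); `exists_hasDerivAt_eq_slope`. -/
def S_MV : Prop := ∀ (m : ℕ) (h v : Fin m → ℝ → ℝ) (x : Fin (m + 1) → ℝ), StrictMono x →
  (∀ j t, HasDerivAt (h j) (v j t) t) →
  ∃ ξ : Fin m → ℝ, (∀ i : Fin m, x i.castSucc < ξ i ∧ ξ i < x i.succ) ∧
    (Matrix.of fun i j : Fin m => h j (x i.succ) - h j (x i.castSucc)).det =
      (∏ i : Fin m, (x i.succ - x i.castSucc)) * (Matrix.of fun i j : Fin m => v j (ξ i)).det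

/-- RD: one reduction step. Proof. Put `h j = u (j+1) / u 0`, differentiable with derivative `red u j`.
Factor `u 0 (x i) > 0` out of row `i` (`Matrix.det_mul_column` / `Matrix.det_mul_row`): the rest has first
column 1 and further columns `h j (x i)`. Subtract from each row the previous one
(`Matrix.det_eq_of_forall_row_eq_smul_add_pred` with `c = 1`): first column `(1,0,…,0)`, so
(`Matrix.det_succ_column_zero`) the determinant is `det (h j (x i.succ) - h j (x i.castSucc))`; now MV.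
`ξ i < x i.succ ≤ x (i+1).castSucc < ξ (i+1)` gives `StrictMono ξ` (`Fin.strictMono_iff_lt_succ` or directly). -/
def S_RD : Prop := ∀ (m : ℕ) (u : ℕ → ℝ → ℝ) (x : Fin (m + 1) → ℝ), StrictMono x →
  (∀ j, ContDiff ℝ ∞ (u j)) → (∀ t, 0 < u 0 t) →
  ∃ ξ : Fin m → ℝ, StrictMono ξ ∧ (∀ i : Fin m, x i.castSucc < ξ i ∧ ξ i < x i.succ) ∧
    ∃ c : ℝ, 0 < c ∧ co (m + 1) u x = c * co m (red u) ξ

/-- SM: smoothness of the reduced system. Proof. `ContDiff.div` (`u 0 ≠ 0`) and `ContDiff ℝ ∞ g → ContDiff ℝ ∞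
(deriv g)` (`contDiff_infty_iff_deriv`). -/
def S_SM : Prop := ∀ u : ℕ → ℝ → ℝ, (∀ j, ContDiff ℝ ∞ (u j)) → (∀ t, 0 < u 0 t) →
  ∀ j, ContDiff ℝ ∞ (red u j)

/-- WL: Leibniz rule for Wronskians: `wr (g h_j) = g^m wr (h_j)`. Proof. The matrix
`(iteratedDeriv i (g * h j) x)_(i,j)` is `L * (iteratedDeriv k (h j) x)_(k,j)` with the lower triangular matrix
`L i k = i.choose k * iteratedDeriv (i-k) g x` for `k ≤ i`, `0` else (Leibniz formula, `iteratedDeriv_mul` or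
`iteratedDerivWithin_mul`; or by induction), diagonal entries `g x` (`Matrix.det_of_lowerTriangular`). -/
def S_WL : Prop := ∀ (m : ℕ) (g : ℝ → ℝ) (h : ℕ → ℝ → ℝ), ContDiff ℝ ∞ g → (∀ j, ContDiff ℝ ∞ (h j)) →
  ∀ x, wr m (fun j s => g s * h j s) x = g x ^ m * wr m h x

/-- WC: Wronskian of `1, h 1, …, h m`. Proof. The first column is `(1,0,…,0)` (`iteratedDeriv` of a constant),
`Matrix.det_succ_column_zero`, and `iteratedDeriv (i+1) g = iteratedDeriv i (deriv g)` (`iteratedDeriv_succ'`). -/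
def S_WC : Prop := ∀ (m : ℕ) (h : ℕ → ℝ → ℝ), (∀ t, h 0 t = 1) →
  ∀ x, wr (m + 1) h x = wr m (fun j => deriv (h (j + 1))) x

/-- WR: Wronskian and reduction. Proof. WL with `g = u 0`, `h j = u j / u 0` (so `g * h j = u j`), then WC
(`h 0 = 1`, `deriv (h (j+1)) = red u j`). -/
def S_WR : Prop := ∀ (m : ℕ) (u : ℕ → ℝ → ℝ), (∀ j, ContDiff ℝ ∞ (u j)) → (∀ t, 0 < u 0 t) →
  ∀ x, wr (m + 1) u x = u 0 x ^ (m + 1) * wr m (red u) x

/-- EC: positive Wronskians give positive collocation determinants, with a sign `σ` for the last one.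
Proof. Induction on `m ≥ 1`, for all `u`. `m = 1`: `co 1 u x = u 0 (x 0) = wr 1 u (x 0)`. `m + 1`, `m ≥ 1`:
`u 0 = wr 1 u > 0` everywhere; RD gives `ξ`, `c > 0`; `red u` is smooth (SM), `wr k (red u) t =
wr (k+1) u t / u 0 t ^ (k+1)` (WR) is positive for `1 ≤ k < m` and has sign `σ` on `I` for `k = m`; `ξ i ∈ I`
since `I` is order connected and `x i.castSucc, x i.succ ∈ I`; induction hypothesis. -/
def S_EC : Prop := ∀ (m : ℕ), 1 ≤ m → ∀ (u : ℕ → ℝ → ℝ) (σ : ℝ) (I : Set ℝ), I.OrdConnected →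
  (∀ j, ContDiff ℝ ∞ (u j)) → (∀ k, 1 ≤ k → k < m → ∀ t, 0 < wr k u t) →
  (∀ t ∈ I, 0 < σ * wr m u t) →
  ∀ x : Fin m → ℝ, StrictMono x → (∀ i, x i ∈ I) → 0 < σ * co m u x

/-- SY: the reduced system of `f` starts with the Toda chain. Proof. Write `s k j = sy f k j`,
`p k j = s k j / s k 0`, `P k j = p (k-1) j` for `k ≥ 1` and `P 0 j = 0`, `T k = toda m k` (`T 0 = 0`). By definition
`s (k+1) j = (p k (j+1))'`. Induction on `k < n`: all `s k j` are smooth, `s k 0 > 0` (`s 0 0 = f`, and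
`s k 0 = T k > 0` for `1 ≤ k < n`), and
(R_k)  `(p k j)' = - p k (j+1) + (p k 1 - P k 1) * p k j + P k (j+1)` for all `j`.
`k = 0`: `s 0 j = (-1)^j f^(j)`, quotient rule, `p 0 1 = - f'/f = - m`.
Step: let (R_k) hold. Then `s (k+1) j = - p k (j+2) + (p k 1 - P k 1) * p k (j+1) + P k (j+2)`. Differentiate; use
`(p k (j+2))' = s (k+1) (j+1)`, `(p k 1)' = s (k+1) 0`, `(P k (j+2))' = T k * p k (j+1)` and `(P k 1)' = T k` (for
`k ≥ 1`: `(p (k-1) (j+2))' = s k (j+1) = s k 0 * p k (j+1)`, `s k 0 = T k`; for `k = 0` all is 0). Result: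
(*_(k+1))  `(s (k+1) j)' = - s (k+1) (j+1) + s (k+1) 0 * p k (j+1) + (p k 1 - P k 1) * s (k+1) j`.
`s (k+1) 0 = T (k+1)`: for `k = 0`, `s 1 0 = (p 0 1)' = - m' = T 1`. For `k ≥ 1`, divide (*_k), `j = 0`, by
`s k 0 = T k > 0`: `(T k)' / T k = - p k 1 + 2 * p (k-1) 1 - P (k-1) 1`; differentiate:
`((T k)'/T k)' = - s (k+1) 0 + 2 * T k - T (k-1)`, which is the definition of `T (k+1)` (`toda`).
(R_(k+1)) for `k + 1 < n`: `(p (k+1) j)' = (s (k+1) j)'/s (k+1) 0 - p (k+1) j * (s (k+1) 0)'/s (k+1) 0`, insert (*_(k+1)) for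
`j` and for `0`: `= - p (k+1) (j+1) + p k (j+1) + (p k 1 - P k 1) p (k+1) j - p (k+1) j (- p (k+1) 1 + 2 p k 1 - P k 1)`. -/
def S_SY : Prop := ∀ (f m : ℝ → ℝ) (n : ℕ), Ch f m n →
  (∀ k, k ≤ n → ∀ j, ContDiff ℝ ∞ (sy f k j)) ∧ (∀ t, sy f 0 0 t = f t) ∧
  ∀ k, 1 ≤ k → k ≤ n → ∀ t, sy f k 0 t = toda m k t

/-- SZ: collocation of a reduced system at decreasing points. Proof. Induction on `N`, for all `k`. `N = 1`: the
determinant is `sy f k 0 (z 0)`. `N + 1`, `N ≥ 1`: `u j y = (-1)^j * sy f k j (-y)`, `x i = - z i` increasing, `u 0 > 0`;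
`red u j y = (-1)^j * sy f (k+1) j (-y)` (chain rule: `u (j+1) / u 0 = (-1)^(j+1) (sy f k (j+1) / sy f k 0) ∘ neg`); RD
gives `ξ` increasing, `-ξ i` between `z i.succ` and `z i.castSucc`, hence in `J`; induction hypothesis for `k + 1`. -/
def S_SZ : Prop := ∀ (f : ℝ → ℝ) (N : ℕ), 1 ≤ N → ∀ (k : ℕ) (σ : ℝ) (J : Set ℝ), J.OrdConnected →
  (∀ l, l < N → ∀ j, ContDiff ℝ ∞ (sy f (k + l) j)) →
  (∀ l, l + 1 < N → ∀ t, 0 < sy f (k + l) 0 t) → (∀ t ∈ J, 0 < σ * sy f (k + (N - 1)) 0 t) →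
  ∀ z : Fin N → ℝ, StrictAnti z → (∀ i, z i ∈ J) →
    0 < σ * (Matrix.of fun i j : Fin N => (-1) ^ (j : ℕ) * sy f k (j : ℕ) (z i)).det

/-- DD: the determinants of the derivatives of `f`. Proof. SZ with `k = 0` and SY:
`(-1)^j * sy f 0 j = iteratedDeriv j f`; (a) `σ = 1`, `J = univ`; (b) `N = n + 1`. -/
def S_DD : Prop := ∀ (f m : ℝ → ℝ) (n : ℕ), 1 ≤ n → Ch f m n →
  (∀ N, 1 ≤ N → N ≤ n → ∀ z : Fin N → ℝ, StrictAnti z →
    0 < (Matrix.of fun i j : Fin N => iteratedDeriv (j : ℕ) f (z i)).det) ∧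
  (∀ (σ : ℝ) (J : Set ℝ), J.OrdConnected → (∀ t ∈ J, 0 < σ * toda m n t) →
    ∀ z : Fin (n + 1) → ℝ, StrictAnti z → (∀ i, z i ∈ J) →
      0 < σ * (Matrix.of fun i j : Fin (n + 1) => iteratedDeriv (j : ℕ) f (z i)).det)

/-- TT: the translates. For `y` increasing put `u j x = f (x - y j)` (`j < N`, and `u j = 1` for `j ≥ N`).
Proof. `wr k u x = det (iteratedDeriv i f (x - y j))_(i,j)` is the determinant of the transpose of
`(iteratedDeriv j f (z i))`, `z i = x - y i` decreasing (`Matrix.det_transpose`; the derivative of a translate is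
`iteratedDeriv_comp_sub_const` or by induction), so (a) of DD gives `wr k u > 0` for `k ≤ n`, (b) the sign for
`N = n + 1` on `I = {x | ∀ j, x - y j ∈ J}`; EC. (a) `σ = 1`, `I = univ`. -/
def S_TT : Prop := ∀ (f m : ℝ → ℝ) (n : ℕ), 1 ≤ n → Ch f m n →
  (∀ N, 1 ≤ N → N ≤ n → ∀ x y : Fin N → ℝ, StrictMono x → StrictMono y →
    0 < (Matrix.of fun i j : Fin N => f (x i - y j)).det) ∧
  (∀ (σ : ℝ) (J : Set ℝ), J.OrdConnected → (∀ t ∈ J, 0 < σ * toda m n t) →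
    ∀ x y : Fin (n + 1) → ℝ, StrictMono x → StrictMono y → (∀ i j, x i - y j ∈ J) →
      0 < σ * (Matrix.of fun i j : Fin (n + 1) => f (x i - y j)).det)

/-- T1: the positive half. Proof. TT (a); `f` is continuous, hence measurable. -/
def S_T1 : Prop := ∀ (f m : ℝ → ℝ) (n : ℕ), 1 ≤ n → Ch f m n → IsPF n f

/-- T2: the negative half. Proof. `toda m n` is continuous (`= sy f n 0`, SY), so it is negative on some
`J = Ioo (t0 - δ) (t0 + δ)`. Take `x i = t0 + i * η`, `y j = j * η`, `η = δ / (n + 2)`: all `x i - y j ∈ J`; TT (b) with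
`σ = -1`: the determinant of order `n + 1` is negative. -/
def S_T2 : Prop := ∀ (f m : ℝ → ℝ) (n : ℕ), 1 ≤ n → Ch f m n → ∀ t0, toda m n t0 < 0 → ¬ IsPF (n + 1) f

end TWP.P

/-! TWP, blocks T (total positivity from the Toda chain) and F (the densities): statements.
Every `S_xxx` is a module `TWP_xxx` (`theorem TWP.t_xxx : … → S_xxx`). -/

namespace TWP

open Filter Topology
open scoped ContDiff

/-- reduction of a system of functions: `(u_(j+1)/u_0)'` -/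
noncomputable def red (u : ℕ → ℝ → ℝ) : ℕ → ℝ → ℝ := fun j => deriv (fun s => u (j + 1) s / u 0 s)

/-- `det (u_j(x_i))`, rows = points -/
noncomputable def dt (m : ℕ) (u : ℕ → ℝ → ℝ) (x : Fin m → ℝ) : ℝ :=
  (Matrix.of fun i j : Fin m => u j (x i)).det

/-- Wronskian, rows = derivatives -/
noncomputable def Wr (m : ℕ) (u : ℕ → ℝ → ℝ) (t : ℝ) : ℝ :=
  (Matrix.of fun i j : Fin m => iteratedDeriv i (u j) t).det

/-- MV. Mean value, row by row. Proof. `Matrix.det_eq_of_forall_row_eq_smul_add_pred` (subtract row `i`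
from row `i+1`) and the expansion along column 0 give `det [1 | φ_j(x_i)] = det [φ_j(x_(i+1)) - φ_j(x_i)]`.
For a row `r` the function `F s = det (updateRow A r (fun j => φ_j s))` is linear in the row, so
differentiable with `F' s = det (updateRow A r (fun j => deriv (φ_j) s))`, and
`det (updateRow A r (fun j => φ_j(x_(r+1)) - φ_j(x_r))) = F(x_(r+1)) - F(x_r) = (x_(r+1) - x_r) F'(ξ_r)`.
Induct over a `Finset` of rows already replaced. -/
def S_MV : Prop := ∀ (m : ℕ) (φ : Fin m → ℝ → ℝ) (x : Fin (m + 1) → ℝ),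
  (∀ j, Differentiable ℝ (φ j)) → StrictMono x →
  ∃ ξ : Fin m → ℝ, StrictMono ξ ∧ (∀ i : Fin m, x i.castSucc < ξ i ∧ ξ i < x i.succ) ∧
    (Matrix.of fun (i j : Fin (m + 1)) =>
      (Fin.cons (1 : ℝ) (fun j : Fin m => φ j (x i)) : Fin (m + 1) → ℝ) j).det =
      (∏ i : Fin m, (x i.succ - x i.castSucc)) * (Matrix.of fun i j : Fin m => deriv (φ j) (ξ i)).det

/-- REC. Systems with positive weights (only the last one has the sign `σ`, on `I`). Proof. Induction on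
`m` for all `u`. `m = 0`: a `1 × 1` determinant. `m + 1`: `u_0 > 0`, `det [u_j(x_i)] =
(∏ u_0(x_i)) det [u_j(x_i)/u_0(x_i)]` (`Matrix.det_mul_column`), the first column is `1`, MV with
`φ_j = u_(j+1)/u_0`, then the induction hypothesis for `red u` (smooth; `red^[k] (red u) = red^[k+1] u`) and
`ξ`; `ξ_i ∈ I` since `I` is order connected. -/
def S_REC : Prop := ∀ (m : ℕ) (u : ℕ → ℝ → ℝ) (σ : ℝ) (I : Set ℝ), I.OrdConnected →
  (∀ j, ContDiff ℝ ∞ (u j)) → (∀ k < m, ∀ t, 0 < (red^[k] u) 0 t) →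
  (∀ t ∈ I, 0 < σ * (red^[m] u) 0 t) →
  ∀ x : Fin (m + 1) → ℝ, StrictMono x → (∀ i, x i ∈ I) → 0 < σ * dt (m + 1) u x

/-- WR. Reduction of the Wronskian. Proof. `u_j = u_0 g_j`, `g_j = u_j/u_0` smooth, `g_0 = 1`. By the
Leibniz rule `iteratedDeriv i (u_0 g_j) = ∑_(l ≤ i) (i choose l) iteratedDeriv (i-l) u_0 iteratedDeriv l g_j`,
so the matrix is `T * G` with `T` lower triangular, diagonal `u_0 t` (`Matrix.det_of_lowerTriangular`), and
`det G` is expanded along column 0 (`iteratedDeriv i 1 = 0` for `i ≥ 1`): `iteratedDeriv (i+1) g_(j+1) =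
iteratedDeriv i (deriv g_(j+1)) = iteratedDeriv i (red u j)` (`iteratedDeriv_succ'`). -/
def S_WR : Prop := ∀ (m : ℕ) (u : ℕ → ℝ → ℝ) (t : ℝ), (∀ j, ContDiff ℝ ∞ (u j)) → (∀ t, 0 < u 0 t) →
  Wr (m + 1) u t = u 0 t ^ (m + 1) * Wr m (red u) t

/-- WPOS. From Wronskians to weights. Hypothesis WR. Proof. Induction on `m` for all `u`: `Wr 1 u = u 0`;
for `m + 1`, `u 0 > 0`, `red u` is smooth, and by WR `Wr k (red u) > 0` for `1 ≤ k ≤ m`;
`red^[k+1] u = red^[k] (red u)`. -/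
def S_WPOS : Prop := ∀ (m : ℕ) (u : ℕ → ℝ → ℝ) (σ : ℝ), (∀ j, ContDiff ℝ ∞ (u j)) →
  (∀ k, 1 ≤ k → k ≤ m → ∀ t, 0 < Wr k u t) →
  (∀ k < m, ∀ t, 0 < (red^[k] u) 0 t) ∧
  (∀ t, 0 < σ * Wr (m + 1) u t → 0 < σ * (red^[m] u) 0 t)

/-- DAR. The reduction of the derivatives is the Toda chain. Proof. Define `s 0 j = (-1)^j f^(j)`,
`s (k+1) j = (s k (j+1)/s k 0)'`, `p k j = s k j / s k 0` (`k < n`, the denominators `f, a_1, …, a_(n-1)` are
positive). `R_k`: `(p k j)' = - p k (j+1) + b_k p k j + p (k-1) (j+1)`, `b_k = p k 1 - p (k-1) 1`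
(`p (-1) = 0`). `R_0`: quotient rule. Step: write `a = (p k 1)' = s (k+1) 0`, `a⁻ = (p (k-1) 1)'`
(`0` for `k = 0`); then `(p k (j+1))' = a p (k+1) j`, `(p (k-1) (j+2))' = a⁻ p k (j+1)`, `b_k' = a - a⁻`;
differentiate `R_k` at `j+1`: `a' p (k+1) j + a (p (k+1) j)' = - a p (k+1) (j+1) + a p k (j+1) +
b_k a p (k+1) j`, so `(p (k+1) j)' = - p (k+1) (j+1) + p k (j+1) + (b_k - a'/a) p (k+1) j`, and `j = 0`
(`p (k+1) 0 = 1`) gives `b_k - a'/a = p (k+1) 1 - p k 1 = b_(k+1)`: `R_(k+1)`. Its derivative is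
`a_(k+2) - a_(k+1) = a_(k+1) - a_k - (log a_(k+1))''`, the recursion of `toda`; `a_1 = (-f'/f)'`. -/
def S_DAR : Prop := ∀ (f : ℝ → ℝ) (n : ℕ), ContDiff ℝ ∞ f → (∀ t, 0 < f t) →
  (∀ k, 1 ≤ k → k < n → ∀ t, 0 < toda (fun t => deriv f t / f t) k t) →
  ∃ s : ℕ → ℕ → ℝ → ℝ, (∀ j t, s 0 j t = (-1) ^ j * iteratedDeriv j f t) ∧
    (∀ k < n, ∀ j, s (k + 1) j = deriv (fun t => s k (j + 1) t / s k 0 t)) ∧
    (∀ k ≤ n, ∀ j, ContDiff ℝ ∞ (s k j)) ∧
    (∀ k, 1 ≤ k → k ≤ n → ∀ t, s k 0 t = toda (fun t => deriv f t / f t) k t)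

/-- TV. The determinants of derivatives. Hypotheses REC, DAR. Proof. Fix `x`, `v i y = iteratedDeriv i f
(x - y)`. By induction `(red^[k] v) j y = (-1)^j s k j (x - y)` (`k ≤ n`, chain rule), so the weights are
`f (x - y)`, `toda … k (x - y)`. REC with `m = n`; for the first part REC with `m = k - 1`, `σ = 1`,
`I = univ`. (The matrix here is the transpose of the one of `dt`.) -/
def S_TV : Prop := ∀ (f : ℝ → ℝ) (n : ℕ), 1 ≤ n → ContDiff ℝ ∞ f → (∀ t, 0 < f t) →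
  (∀ k, 1 ≤ k → k < n → ∀ t, 0 < toda (fun t => deriv f t / f t) k t) →
  (∀ k, 1 ≤ k → k ≤ n → ∀ (x : ℝ) (y : Fin k → ℝ), StrictMono y →
    0 < (Matrix.of fun i j : Fin k => iteratedDeriv i f (x - y j)).det) ∧
  (∀ (x σ : ℝ) (I : Set ℝ), I.OrdConnected →
    (∀ y ∈ I, 0 < σ * toda (fun t => deriv f t / f t) n (x - y)) →
    ∀ y : Fin (n + 1) → ℝ, StrictMono y → (∀ j, y j ∈ I) →
      0 < σ * (Matrix.of fun i j : Fin (n + 1) => iteratedDeriv i f (x - y j)).det)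

/-- T1. Hypotheses TV, WPOS, REC. Proof. For `1 ≤ m ≤ n`, `y` strictly increasing, `u j x = f (x - y_j)` for
`j < m` (any smooth functions for `j ≥ m`): `Wr k u x = det (iteratedDeriv i f (x - y_j))_(i,j<k) > 0` for
`k ≤ m` by TV (applied to the first `k` of the `y_j`). WPOS (`σ = 1`), REC (`m - 1`, `I = univ`).
`f` is measurable since continuous. -/
def S_T1 : Prop := ∀ (f : ℝ → ℝ) (n : ℕ), 1 ≤ n → ContDiff ℝ ∞ f → (∀ t, 0 < f t) →
  (∀ k, 1 ≤ k → k < n → ∀ t, 0 < toda (fun t => deriv f t / f t) k t) → IsPF n f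

/-- T2. Hypotheses TV, WPOS, REC. Proof. `toda … n` is continuous at `t0` (smooth by DAR, or TS), so
`< 0` on `(t0 - δ, t0 + δ)`. Take `n + 1` points `y_j` in `(-δ/2, δ/2)` and `x_i` in
`(t0 - δ/2, t0 + δ/2)`. TV (`σ = -1`, `I = (-δ/2, δ/2)`) gives `Wr (n+1) u x < 0` for
`x ∈ (t0 - δ/2, t0 + δ/2)`, and `Wr k u x > 0` for `k ≤ n`, all `x`. WPOS, REC (`σ = -1`): the minor is
negative. -/
def S_T2 : Prop := ∀ (f : ℝ → ℝ) (n : ℕ) (t0 : ℝ), 1 ≤ n → ContDiff ℝ ∞ f → (∀ t, 0 < f t) →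
  (∀ k, 1 ≤ k → k < n → ∀ t, 0 < toda (fun t => deriv f t / f t) k t) →
  toda (fun t => deriv f t / f t) n t0 < 0 → ¬ IsPF (n + 1) f

/-- FD. The densities (block F). Proof. `∫_t^∞ q² = q'² - t q² - q⁴ = q² gf` (derivative `- q²`, limit `0`),
`(log F_2)' = ∫_t^∞ q²`, `(log F_1)' = (q + ∫_t^∞ q²)/2`. -/
def S_FD : Prop := ∀ q : ℝ → ℝ, IsHM q →
  QL q (fun t => deriv q t / q t) ∧
  (∀ t, 0 < fTwo q t) ∧ ContDiff ℝ ∞ (fTwo q) ∧
  (∀ t, deriv (fTwo q) t / fTwo q t = mTwo q (fun t => deriv q t / q t) t) ∧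
  (∀ t, 0 < fOne q t) ∧ ContDiff ℝ ∞ (fOne q) ∧
  (∀ t, deriv (fOne q) t / fOne q t = mOne q (fun t => deriv q t / q t) t)

end TWP
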