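import Mathlib
import Pool.Agent.TWP.StT

/-!
# TWP, module WPOS (helper52): from Wronskians to weights
-/

set_option autoImplicit false

namespace TWP

open Filter Topology
open scoped ContDiff

theorem WPOS_red_smooth (u : ℕ → ℝ → ℝ) (hu : ∀ j, ContDiff ℝ ∞ (u j)) (h0 : ∀ t, 0 < u 0 t) :
    ∀ j, ContDiff ℝ ∞ (red u j) := by
  intro j
  have h1 : ContDiff ℝ ∞ (fun s => u (j + 1) s / u 0 s) :=
    (hu (j + 1)).div (hu 0) (fun t => (h0 t).ne')
  exact (contDiff_infty_iff_deriv.mp h1).2

theorem WPOS_Wr_one (u : ℕ → ℝ → ℝ) (t : ℝ) : Wr 1 u t = u 0 t := by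
  simp [Wr, Matrix.det_fin_one]

theorem t_WPOS (hWR : S_WR) : S_WPOS := by
  intro m
  induction m with
  | zero =>
    intro u σ _ _
    refine ⟨fun k hk => absurd hk (Nat.not_lt_zero k), fun t ht => ?_⟩
    rw [WPOS_Wr_one] at ht
    exact ht
  | succ m ih =>
    intro u σ hu hW
    have h0 : ∀ t, 0 < u 0 t := by
      intro t
      have := hW 1 le_rfl (by omega) t
      rwa [WPOS_Wr_one] at this
    have hr := WPOS_red_smooth u hu h0
    have hW' : ∀ k, 1 ≤ k → k ≤ m → ∀ t, 0 < Wr k (red u) t := by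
      intro k _ hk t
      have h1 := hW (k + 1) (by omega) (by omega) t
      rw [hWR k u t hu h0] at h1
      exact (pos_iff_pos_of_mul_pos h1).mp (pow_pos (h0 t) _)
    obtain ⟨ih1, ih2⟩ := ih (red u) σ hr hW'
    refine ⟨?_, ?_⟩
    · intro k hk t
      cases k with
      | zero => exact h0 t
      | succ k =>
        rw [Function.iterate_succ_apply]
        exact ih1 k (by omega) t
    · intro t ht
      rw [hWR (m + 1) u t hu h0] at ht
      rw [Function.iterate_succ_apply]
      refine ih2 t ?_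
      have h2 : 0 < u 0 t ^ (m + 1 + 1) * (σ * Wr (m + 1) (red u) t) := by
        have h3 : σ * (u 0 t ^ (m + 1 + 1) * Wr (m + 1) (red u) t) =
            u 0 t ^ (m + 1 + 1) * (σ * Wr (m + 1) (red u) t) := by ring
        rwa [h3] at ht
      exact (pos_iff_pos_of_mul_pos h2).mp (pow_pos (h0 t) _)

end TWP
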