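import Pool.Agent.TWP.StT

/-! TWP: reduction of the Wronskian (module WR). -/

namespace TWP

open Filter Topology
open scoped ContDiff

namespace FWR

/-- the triangular matrix of the Leibniz rule -/
noncomputable def T (m : ℕ) (f : ℝ → ℝ) (t : ℝ) : Matrix (Fin (m + 1)) (Fin (m + 1)) ℝ :=
  Matrix.of fun i l => ((i : ℕ).choose l : ℝ) * iteratedDeriv ((i : ℕ) - l) f t

theorem det_T (m : ℕ) (f : ℝ → ℝ) (t : ℝ) : (T m f t).det = f t ^ (m + 1) := by
  have h : (T m f t).BlockTriangular OrderDual.toDual := by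
    intro i l hil
    have h1 : i < l := OrderDual.toDual_lt_toDual.1 hil
    show ((i : ℕ).choose l : ℝ) * iteratedDeriv ((i : ℕ) - l) f t = 0
    rw [Nat.choose_eq_zero_of_lt (Fin.lt_def.1 h1), Nat.cast_zero, zero_mul]
  rw [Matrix.det_of_isLowerTriangular _ h]
  have h2 : ∀ i : Fin (m + 1), T m f t i i = f t := by
    intro i
    show ((i : ℕ).choose i : ℝ) * iteratedDeriv ((i : ℕ) - i) f t = f t
    rw [Nat.choose_self, Nat.cast_one, one_mul, Nat.sub_self, iteratedDeriv_zero]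
  rw [Finset.prod_congr rfl fun i _ => h2 i, Finset.prod_const, Finset.card_univ,
    Fintype.card_fin]

/-- the matrix of the derivatives of the quotients -/
noncomputable def G (m : ℕ) (u : ℕ → ℝ → ℝ) (t : ℝ) : Matrix (Fin (m + 1)) (Fin (m + 1)) ℝ :=
  Matrix.of fun l j => iteratedDeriv (l : ℕ) (fun s => u j s / u 0 s) t

theorem leibniz {f g : ℝ → ℝ} (hf : ContDiff ℝ ∞ f) (hg : ContDiff ℝ ∞ g) (n : ℕ) (t : ℝ) :
    iteratedDeriv n (f * g) t = ∑ l ∈ Finset.range (n + 1),
      (n.choose l : ℝ) * iteratedDeriv l f t * iteratedDeriv (n - l) g t :=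
  iteratedDeriv_mul ((hf.of_le (by exact_mod_cast le_top)).contDiffAt)
    ((hg.of_le (by exact_mod_cast le_top)).contDiffAt)

theorem det_G (m : ℕ) (u : ℕ → ℝ → ℝ) (t : ℝ) (hpos : ∀ t, 0 < u 0 t) :
    (G m u t).det = Wr m (red u) t := by
  have hg0 : (fun s => u 0 s / u 0 s) = fun _ => (1 : ℝ) := by
    funext s
    exact div_self (hpos s).ne'
  have h0 : G m u t 0 0 = 1 := by
    show iteratedDeriv ((0 : Fin (m + 1)) : ℕ) (fun s => u ((0 : Fin (m + 1)) : ℕ) s / u 0 s) t = 1
    rw [Fin.val_zero, iteratedDeriv_zero]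
    exact div_self (hpos t).ne'
  have h1 : ∀ i : Fin m, G m u t i.succ 0 = 0 := by
    intro i
    show iteratedDeriv ((i.succ : Fin (m + 1)) : ℕ)
      (fun s => u ((0 : Fin (m + 1)) : ℕ) s / u 0 s) t = 0
    rw [Fin.val_zero, hg0, Fin.val_succ, iteratedDeriv_succ', deriv_const']
    rw [iteratedDeriv_const]
    split_ifs <;> rfl
  rw [Matrix.det_succ_column_zero, Fin.sum_univ_succ, h0]
  have h2 : ∑ i : Fin m, (-1 : ℝ) ^ ((i.succ : Fin (m + 1)) : ℕ) * G m u t i.succ 0 *
      ((G m u t).submatrix (i.succ).succAbove Fin.succ).det = 0 := by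
    refine Finset.sum_eq_zero fun i _ => ?_
    rw [h1 i, mul_zero, zero_mul]
  rw [h2, add_zero, Fin.val_zero, pow_zero, one_mul, one_mul]
  unfold Wr
  congr 1
  ext i j
  show iteratedDeriv (((0 : Fin (m + 1)).succAbove i : Fin (m + 1)) : ℕ)
    (fun s => u ((j.succ : Fin (m + 1)) : ℕ) s / u 0 s) t = iteratedDeriv (i : ℕ) (red u j) t
  rw [Fin.succAbove_zero, Fin.val_succ, Fin.val_succ, iteratedDeriv_succ']
  rfl

end FWR

open FWR in
theorem t_WR : S_WR := by
  intro m u t hu hpos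
  have hmul : (Matrix.of fun i j : Fin (m + 1) => iteratedDeriv (i : ℕ) (u j) t) =
      T m (u 0) t * G m u t := by
    ext i j
    rw [Matrix.mul_apply]
    show iteratedDeriv (i : ℕ) (u j) t = ∑ l : Fin (m + 1),
      (((i : ℕ).choose l : ℝ) * iteratedDeriv ((i : ℕ) - l) (u 0) t) *
        iteratedDeriv (l : ℕ) (fun s => u j s / u 0 s) t
    have hg : ContDiff ℝ ∞ (fun s => u j s / u 0 s) :=
      (hu j).div (hu 0) fun s => (hpos s).ne'
    have h1 : u j = (fun s => u j s / u 0 s) * u 0 := by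
      funext s
      show u j s = u j s / u 0 s * u 0 s
      rw [div_mul_cancel₀ _ (hpos s).ne']
    have h2 : iteratedDeriv (i : ℕ) (u j) t = ∑ l ∈ Finset.range ((i : ℕ) + 1),
        ((i : ℕ).choose l : ℝ) * iteratedDeriv l (fun s => u j s / u 0 s) t *
          iteratedDeriv ((i : ℕ) - l) (u 0) t := by
      have h3 := leibniz hg (hu 0) (i : ℕ) t
      rw [← h1] at h3
      exact h3
    rw [h2, Fin.sum_univ_eq_sum_range (fun l => (((i : ℕ).choose l : ℝ) *
      iteratedDeriv ((i : ℕ) - l) (u 0) t) * iteratedDeriv l (fun s => u j s / u 0 s) t) (m + 1)]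
    have hsub : Finset.range ((i : ℕ) + 1) ⊆ Finset.range (m + 1) :=
      Finset.range_subset_range.2 (Nat.succ_le_of_lt i.2)
    rw [← Finset.sum_subset hsub]
    · refine Finset.sum_congr rfl fun l _ => ?_
      ring
    · intro l _ hl
      rw [Finset.mem_range, not_lt] at hl
      rw [Nat.choose_eq_zero_of_lt (Nat.lt_of_succ_le hl), Nat.cast_zero, zero_mul, zero_mul]
  unfold Wr
  rw [hmul, Matrix.det_mul, det_T, det_G m u t hpos]
  rfl

end TWP
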