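import Pool.Agent.TWP.Defs

/-! TWP: the family of the classical densities, `β = 1, 2`. -/

namespace TWP

/-- the density of `TW_β`, `β = 1, 2` (only these values of `β` are used) -/
noncomputable def twDensity (q : ℝ → ℝ) (β : ℕ) : ℝ → ℝ := if β = 1 then fOne q else fTwo q

/-- the Polya frequency order of `TW_β`, `β = 1, 2` (only these values of `β` are used) -/
def twOrder (β : ℕ) : ℕ := if β = 1 then 6 else 9

end TWP
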