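import Pool.Agent.TWP.Defs
import Pool.Agent.TWP.F4

/-! TWP: the family of the classical densities, `β = 1, 2, 4`. -/

namespace TWP

/-- the density of the classical law `TW_β`, `β = 1, 2, 4` (only these values of `β` are used) -/
noncomputable def classicalDensity (q : ℝ → ℝ) (β : ℕ) : ℝ → ℝ :=
  if β = 1 then fOne q else if β = 2 then fTwo q else fFour q

/-- the Polya frequency order of `TW_β`, `β = 1, 2, 4` (only these values of `β` are used) -/
def classicalOrder (β : ℕ) : ℕ := if β = 1 then 6 else if β = 2 then 9 else 13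

theorem famC (h : (∃! q : ℝ → ℝ, IsHM q) ∧ ∀ q, IsHM q →
      IsGreatest {r | IsPF r (fTwo q)} 9 ∧ IsGreatest {r | IsPF r (fOne q)} 6)
    (h4 : ∀ q, IsHM q → IsGreatest {r | IsPF r (fFour q)} 13) :
    (∃! q : ℝ → ℝ, IsHM q) ∧ ∀ q : ℝ → ℝ, IsHM q → ∀ β ∈ ({1, 2, 4} : Finset ℕ),
      IsGreatest {r : ℕ | IsPF r (classicalDensity q β)} (classicalOrder β) := by
  refine ⟨h.1, fun q hq β hβ => ?_⟩
  obtain ⟨h2, h1⟩ := h.2 q hq
  simp only [Finset.mem_insert, Finset.mem_singleton] at hβ
  rcases hβ with rfl | rfl | rfl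
  · simpa [classicalDensity, classicalOrder] using h1
  · simpa [classicalDensity, classicalOrder] using h2
  · simpa [classicalDensity, classicalOrder] using h4 q hq

end TWP
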