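import Pool.Agent.TWP.Main12
import Pool.Agent.TWP.Fam

namespace TWP

theorem fam12 (h : (∃! q : ℝ → ℝ, IsHM q) ∧ ∀ q, IsHM q →
      IsGreatest {r | IsPF r (fTwo q)} 9 ∧ IsGreatest {r | IsPF r (fOne q)} 6) :
    (∃! q : ℝ → ℝ, IsHM q) ∧ ∀ q : ℝ → ℝ, IsHM q → ∀ β ∈ ({1, 2} : Finset ℕ),
      IsGreatest {r | IsPF r (twDensity q β)} (twOrder β) := by
  refine ⟨h.1, fun q hq β hβ => ?_⟩
  obtain ⟨h2, h1⟩ := h.2 q hq
  simp only [Finset.mem_insert, Finset.mem_singleton] at hβ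
  rcases hβ with rfl | rfl
  · simpa [twDensity, twOrder] using h1
  · simpa [twDensity, twOrder] using h2

end TWP
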