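import Pool.Agent.TWP.HFin21
import Pool.Agent.TWP.Fin12

/-! TWP: the theorem for `β = 1, 2`. -/

namespace TWP

theorem final12 : (∃! q : ℝ → ℝ, IsHM q) ∧ ∀ q : ℝ → ℝ, IsHM q → ∀ β ∈ ({1, 2} : Finset ℕ),
    IsGreatest {r : ℕ | IsPF r (twDensity q β)} (twOrder β) :=
  fam12 main21

end TWP
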