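import Pool.Agent.TWP.HCenL
import Pool.Agent.TWP.C4.List

/-!
TWP, block H: the values of `q'/q` and `q` at the centres of all charts of `β = 4`.
-/

set_option autoImplicit false

namespace TWP.H

theorem cL4_all : C4.chs.all cL4 = true := by decide +kernel

theorem cenL_all {q : ℝ → ℝ} (h : IsHM q) : ∀ c ∈ C4.chs, CenL q (lq q) c :=
  cenL_of h _ cL4_all

end TWP.H
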