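import Pool.Agent.TWP.MFin

/-! TWP, middle charts: `checkM` and `checkMN` are sound (no hypotheses). -/

namespace TWP

open PowerSeries Filter Topology
open scoped ContDiff

theorem GS_all : S_GS := by
  intro q l M h r0 cn ln eta k L Q G hql hr hr0 hh hln hM hG hL hQ t ht
  obtain ⟨r1, r2, Lam, hBG⟩ := t_GB kEVA kMUL kNL M h r0 cn ln eta k L Q G hG
  have hlam : ((ln : ℝ) / 64) ≠ 0 := by
    have : (0 : ℝ) < ln := Nat.cast_pos.2 hln
    positivity
  have h1 := t_GI t_GA GR_gron q l M h r0 cn ln eta k L Q G r1 r2 Lam hql hr hr0 hh hln hBG hL hQ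
    ((t - (cn : ℝ) / 64) / ((ln : ℝ) / 64)) ht
  have e : (cn : ℝ) / 64 + (ln : ℝ) / 64 * ((t - (cn : ℝ) / 64) / ((ln : ℝ) / 64)) = t := by
    rw [mul_div_cancel₀ _ hlam]; ring
  rw [e] at h1
  exact t_GJ t_GA kDER kNL PU q l M h r0 cn ln eta k L Q G r1 r2 Lam hql hr hr0 hh hln hBG t _ rfl
    ht h1

theorem CB_all : S_CB := t_CB GS_all kM2 kM1 kLIN

theorem CMN2_all : S_CMN2 := t_CMN2 CB_all kCHAINN

theorem CM2_all : S_CM2 := by
  intro q l two k0 M N h r0 rs tab cn ln eta k L Q hql hr hr0 hh hln hrad hrs hlen hchk hL hQ t ht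
  unfold K.checkM at hchk
  rcases hG : K.baseG M h r0 cn ln eta k L Q with _ | G
  · rw [hG] at hchk
    exact absurd hchk Bool.false_ne_true
  rw [hG] at hchk
  rcases tab with _ | ⟨⟨w0, c0⟩, tab'⟩
  · exact absurd hchk Bool.false_ne_true
  rcases hm : (if two then K.m0two w0 N cn ln (L, G) (Q, G) else
    K.m0one w0 N cn ln (L, G) (Q, G)) with _ | m
  · simp only [hm] at hchk
    exact absurd hchk Bool.false_ne_true
  simp only [hm] at hchk
  have hlen' : 2 * k0 + 1 ≤ tab'.length := by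
    rw [List.length_cons] at hlen
    omega
  have htab' : tab' ≠ [] := by
    intro h0
    rw [h0, List.length_nil] at hlen'
    omega
  obtain ⟨hsm, hlaw, hξ0, rs', hTab, hAp⟩ := CB_all q l two M N h r0 rs w0 c0 tab' cn ln eta k L Q
    G m hql hr hr0 hh hln hrad hrs htab' hG hm hL hQ t _ ht rfl
  have hchain := kCHAIN false N h (2 ^ 160) 0 0 0 1 k0 (M - 1) _ _ 0 rs' tab' _ ([], 0) hlen' hchk
    hTab hlaw hξ0 hAp (FCMN2.ap_zero _ _ _)
  have hlam : (0 : ℝ) < (ln : ℝ) / 64 := div_pos (Nat.cast_pos.2 hln) (by norm_num)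
  exact TLM_all ((ln : ℝ) / 64) ((cn : ℝ) / 64) (mSel q l two) t k0 hlam hsm hchain

end TWP
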