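import Pool.Agent.TWP.StMid
import Pool.Agent.TWP.C.Cents
import Pool.Agent.TWP.C.Tab

/-! TWP, middle charts: the general lemma (covering by charts). -/

namespace TWP

/-- a chart `(cn, ln, k, L, Q)` -/
abbrev Ch := ℤ × ℕ × ℕ × List ℤ × List ℤ

/-- the charts cover `[a/256, b/256]` -/
def cov : ℤ → List Ch → ℤ → Bool
  | a, [], b => decide (b < a)
  | a, c :: cs, b => decide (4 * c.1 - c.2.1 ≤ a) && cov (4 * c.1 + c.2.1) cs b

theorem cov_spec : ∀ (cs : List Ch) (a b : ℤ), cov a cs b = true → ∀ x : ℝ, (a : ℝ) ≤ x → x ≤ b →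
    ∃ c ∈ cs, (4 * (c.1 : ℝ) - (c.2.1 : ℝ) ≤ x ∧ x ≤ 4 * (c.1 : ℝ) + (c.2.1 : ℝ)) := by
  intro cs
  induction cs with
  | nil =>
    intro a b h x ha hb
    simp only [cov, decide_eq_true_eq] at h
    have : (b : ℝ) < a := by exact_mod_cast h
    linarith
  | cons c cs ih =>
    intro a b h x ha hb
    simp only [cov, Bool.and_eq_true, decide_eq_true_eq] at h
    obtain ⟨h1, h2⟩ := h
    by_cases hx : x ≤ 4 * (c.1 : ℝ) + (c.2.1 : ℝ)
    · refine ⟨c, by simp, ?_, hx⟩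
      have : ((4 * c.1 - c.2.1 : ℤ) : ℝ) ≤ a := by exact_mod_cast h1
      push_cast at this
      linarith
    · push Not at hx
      obtain ⟨c', hc', h3⟩ := ih _ _ h2 x (by push_cast; linarith) hb
      exact ⟨c', by simp [hc'], h3⟩

/-- the values of `l`, `q` at the centres -/
def CentOK (q l : ℝ → ℝ) : Prop := ∀ x ∈ C.cents,
  |(2 : ℝ) ^ 160 * l ((x.1 : ℝ) / 64) - (x.2.1 : ℝ)| ≤ 2 ^ 20 ∧
  |(2 : ℝ) ^ 160 * q ((x.1 : ℝ) / 64) - (x.2.2 : ℝ)| ≤ 2 ^ 20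

theorem mid_gen (hCM : S_CM2) (q l : ℝ → ℝ) (two : Bool) (k0 M N : ℕ) (rs : List ℕ) (tab : K.Tab)
    (chs : List Ch) (hrad : radOK 1024 M rs tab = true) (hhead : rs.headD 0 = 3072)
    (hlen : 2 * k0 + 2 ≤ tab.length)
    (hpos : ∀ c ∈ chs, 0 < c.2.1)
    (hchk : ∀ c ∈ chs, K.checkM two k0 M N 1024 3072 tab c.1 c.2.1 (2 ^ 20) c.2.2.1 c.2.2.2.1
      c.2.2.2.2 = true)
    (hcent : ∀ c ∈ chs, (c.1, c.2.2.2.1.headD 0, c.2.2.2.2.headD 0) ∈ C.cents)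
    (a b : ℤ) (hcov : cov a chs b = true) (hQ : QL q l) (hc : CentOK q l) :
    ∀ t : ℝ, (a : ℝ) / 256 ≤ t → t ≤ (b : ℝ) / 256 → ∀ j, 1 ≤ j → j ≤ k0 + 1 →
      0 < toda (mSel q l two) j t := by
  intro t ha hb j hj1 hj2
  obtain ⟨c, hcm, h1, h2⟩ := cov_spec chs a b hcov (256 * t) (by linarith) (by linarith)
  obtain ⟨e1, e2⟩ := hc _ (hcent c hcm)
  have hp : (0 : ℝ) < (c.2.1 : ℝ) := by exact_mod_cast hpos c hcm
  refine (hCM q l two k0 M N 1024 3072 rs tab c.1 c.2.1 (2 ^ 20) c.2.2.1 c.2.2.2.1 c.2.2.2.2 hQ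
    (by norm_num) (by norm_num) (by norm_num) (hpos c hcm) hrad hhead hlen (hchk c hcm) ?_ ?_ t ?_
    j hj1 hj2).1
  · exact e1.trans (by norm_num)
  · exact e2.trans (by norm_num)
  · have e : (t - (c.1 : ℝ) / 64) / ((c.2.1 : ℝ) / 64) = (64 * t - c.1) / c.2.1 := by
      field_simp
    rw [e, abs_le]
    constructor
    · rw [le_div_iff₀ hp]; push_cast; linarith
    · rw [div_le_iff₀ hp]; push_cast; linarith

end TWP
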