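import Pool.Agent.TWP.C.a0
import Pool.Agent.TWP.C.a1
import Pool.Agent.TWP.C.a2
import Pool.Agent.TWP.C.a3
import Pool.Agent.TWP.C.a4
import Pool.Agent.TWP.C.a5
import Pool.Agent.TWP.C.a6
import Pool.Agent.TWP.C.a7
import Pool.Agent.TWP.C.a8
import Pool.Agent.TWP.C.a9
import Pool.Agent.TWP.C.a10
import Pool.Agent.TWP.C.a11
import Pool.Agent.TWP.C.a12
import Pool.Agent.TWP.C.a13
import Pool.Agent.TWP.C.a14
import Pool.Agent.TWP.C.a15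
import Pool.Agent.TWP.C.a16
import Pool.Agent.TWP.C.a17
import Pool.Agent.TWP.C.a18
import Pool.Agent.TWP.C.a19
import Pool.Agent.TWP.C.a20
import Pool.Agent.TWP.C.a21
import Pool.Agent.TWP.C.a22
import Pool.Agent.TWP.C.a23
import Pool.Agent.TWP.C.a24
import Pool.Agent.TWP.C.a25
import Pool.Agent.TWP.C.a26
import Pool.Agent.TWP.C.a27
import Pool.Agent.TWP.C.a28
import Pool.Agent.TWP.C.a29
import Pool.Agent.TWP.C.a30
import Pool.Agent.TWP.C.a31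
import Pool.Agent.TWP.C.a32
import Pool.Agent.TWP.C.a33
import Pool.Agent.TWP.C.a34
import Pool.Agent.TWP.C.a35
import Pool.Agent.TWP.C.a36
import Pool.Agent.TWP.C.a37
import Pool.Agent.TWP.C.a38
import Pool.Agent.TWP.C.a39
import Pool.Agent.TWP.C.a40
import Pool.Agent.TWP.C.a41
import Pool.Agent.TWP.C.a42
import Pool.Agent.TWP.C.a43
import Pool.Agent.TWP.C.a44
import Pool.Agent.TWP.C.a45
import Pool.Agent.TWP.C.a46
import Pool.Agent.TWP.C.a47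
import Pool.Agent.TWP.C.a48
import Pool.Agent.TWP.Mid

/-! TWP, middle charts, list A. -/

namespace TWP

namespace C

def chA : List Ch := [
  (-1504, 256, 15, aL0, aQ0),
  (-1360, 320, 19, aL1, aQ1),
  (-1216, 256, 14, aL2, aQ2),
  (-1088, 256, 14, aL3, aQ3),
  (-960, 256, 13, aL4, aQ4),
  (-848, 192, 9, aL5, aQ5),
  (-752, 192, 9, aL6, aQ6),
  (-656, 192, 8, aL7, aQ7),
  (-560, 192, 8, aL8, aQ8),
  (-480, 128, 5, aL9, aQ9),
  (-416, 128, 5, aL10, aQ10),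
  (-352, 128, 5, aL11, aQ11),
  (-288, 128, 4, aL12, aQ12),
  (-232, 96, 3, aL13, aQ13),
  (-184, 96, 3, aL14, aQ14),
  (-144, 64, 2, aL15, aQ15),
  (-112, 64, 2, aL16, aQ16),
  (-80, 64, 2, aL17, aQ17),
  (-48, 64, 2, aL18, aQ18),
  (-20, 48, 1, aL19, aQ19),
  (-4, 16, 1, aL20, aQ20),
  (4, 16, 1, aL21, aQ21),
  (14, 24, 1, aL22, aQ22),
  (28, 32, 1, aL23, aQ23),
  (44, 32, 1, aL24, aQ24),
  (60, 32, 1, aL25, aQ25),
  (76, 32, 1, aL26, aQ26),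
  (92, 32, 1, aL27, aQ27),
  (108, 32, 1, aL28, aQ28),
  (124, 32, 1, aL29, aQ29),
  (144, 48, 1, aL30, aQ30),
  (172, 64, 2, aL31, aQ31),
  (212, 96, 2, aL32, aQ32),
  (260, 96, 2, aL33, aQ33),
  (316, 128, 3, aL34, aQ34),
  (380, 128, 3, aL35, aQ35),
  (444, 128, 4, aL36, aQ36),
  (508, 128, 4, aL37, aQ37),
  (588, 192, 6, aL38, aQ38),
  (684, 192, 6, aL39, aQ39),
  (780, 192, 6, aL40, aQ40),
  (876, 192, 7, aL41, aQ41),
  (988, 256, 9, aL42, aQ42),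
  (1116, 256, 10, aL43, aQ43),
  (1244, 256, 10, aL44, aQ44),
  (1356, 192, 8, aL45, aQ45),
  (1452, 192, 8, aL46, aQ46),
  (1548, 192, 8, aL47, aQ47),
  (1584, 192, 8, aL48, aQ48)]

theorem chA_pos : ∀ c ∈ chA, 0 < c.2.1 := by decide +kernel

theorem chA_cent : ∀ c ∈ chA, (c.1, c.2.2.2.1.headD 0, c.2.2.2.2.headD 0) ∈ cents := by
  decide +kernel

theorem chA_cov : cov (-6272) chA 6503 = true := by decide +kernel

theorem rad_okA : radOK 1024 18 rad2 tab2 = true := by decide +kernel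

theorem chA_chk : ∀ c ∈ chA, K.checkM true 7 18 60 1024 3072 tab2 c.1 c.2.1 (2 ^ 20) c.2.2.1 c.2.2.2.1
    c.2.2.2.2 = true := by
  unfold chA
  refine List.forall_mem_cons.2 ⟨a_chk0, ?_⟩
  refine List.forall_mem_cons.2 ⟨a_chk1, ?_⟩
  refine List.forall_mem_cons.2 ⟨a_chk2, ?_⟩
  refine List.forall_mem_cons.2 ⟨a_chk3, ?_⟩
  refine List.forall_mem_cons.2 ⟨a_chk4, ?_⟩
  refine List.forall_mem_cons.2 ⟨a_chk5, ?_⟩
  refine List.forall_mem_cons.2 ⟨a_chk6, ?_⟩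
  refine List.forall_mem_cons.2 ⟨a_chk7, ?_⟩
  refine List.forall_mem_cons.2 ⟨a_chk8, ?_⟩
  refine List.forall_mem_cons.2 ⟨a_chk9, ?_⟩
  refine List.forall_mem_cons.2 ⟨a_chk10, ?_⟩
  refine List.forall_mem_cons.2 ⟨a_chk11, ?_⟩
  refine List.forall_mem_cons.2 ⟨a_chk12, ?_⟩
  refine List.forall_mem_cons.2 ⟨a_chk13, ?_⟩
  refine List.forall_mem_cons.2 ⟨a_chk14, ?_⟩
  refine List.forall_mem_cons.2 ⟨a_chk15, ?_⟩
  refine List.forall_mem_cons.2 ⟨a_chk16, ?_⟩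
  refine List.forall_mem_cons.2 ⟨a_chk17, ?_⟩
  refine List.forall_mem_cons.2 ⟨a_chk18, ?_⟩
  refine List.forall_mem_cons.2 ⟨a_chk19, ?_⟩
  refine List.forall_mem_cons.2 ⟨a_chk20, ?_⟩
  refine List.forall_mem_cons.2 ⟨a_chk21, ?_⟩
  refine List.forall_mem_cons.2 ⟨a_chk22, ?_⟩
  refine List.forall_mem_cons.2 ⟨a_chk23, ?_⟩
  refine List.forall_mem_cons.2 ⟨a_chk24, ?_⟩
  refine List.forall_mem_cons.2 ⟨a_chk25, ?_⟩
  refine List.forall_mem_cons.2 ⟨a_chk26, ?_⟩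
  refine List.forall_mem_cons.2 ⟨a_chk27, ?_⟩
  refine List.forall_mem_cons.2 ⟨a_chk28, ?_⟩
  refine List.forall_mem_cons.2 ⟨a_chk29, ?_⟩
  refine List.forall_mem_cons.2 ⟨a_chk30, ?_⟩
  refine List.forall_mem_cons.2 ⟨a_chk31, ?_⟩
  refine List.forall_mem_cons.2 ⟨a_chk32, ?_⟩
  refine List.forall_mem_cons.2 ⟨a_chk33, ?_⟩
  refine List.forall_mem_cons.2 ⟨a_chk34, ?_⟩
  refine List.forall_mem_cons.2 ⟨a_chk35, ?_⟩
  refine List.forall_mem_cons.2 ⟨a_chk36, ?_⟩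
  refine List.forall_mem_cons.2 ⟨a_chk37, ?_⟩
  refine List.forall_mem_cons.2 ⟨a_chk38, ?_⟩
  refine List.forall_mem_cons.2 ⟨a_chk39, ?_⟩
  refine List.forall_mem_cons.2 ⟨a_chk40, ?_⟩
  refine List.forall_mem_cons.2 ⟨a_chk41, ?_⟩
  refine List.forall_mem_cons.2 ⟨a_chk42, ?_⟩
  refine List.forall_mem_cons.2 ⟨a_chk43, ?_⟩
  refine List.forall_mem_cons.2 ⟨a_chk44, ?_⟩
  refine List.forall_mem_cons.2 ⟨a_chk45, ?_⟩
  refine List.forall_mem_cons.2 ⟨a_chk46, ?_⟩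
  refine List.forall_mem_cons.2 ⟨a_chk47, ?_⟩
  refine List.forall_mem_cons.2 ⟨a_chk48, ?_⟩
  exact fun x hx => absurd hx List.not_mem_nil

end C

theorem mid_two (hCM : S_CM2) (q l : ℝ → ℝ) (hQ : QL q l) (hc : CentOK q l) (t : ℝ)
    (h1 : -(49 / 2) ≤ t) (h2 : t ≤ 127 / 5) : ∀ j, 1 ≤ j → j ≤ 8 → 0 < toda (mTwo q l) j t := by
  intro j hj1 hj2
  have h := mid_gen hCM q l true 7 18 60 C.rad2 C.tab2 C.chA C.rad_okA (by decide) (by decide)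
    C.chA_pos C.chA_chk C.chA_cent (-6272) 6503 C.chA_cov hQ hc t (by push_cast; linarith)
    (by push_cast; linarith) j hj1 (by omega)
  simpa [mSel] using h

end TWP
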