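import Pool.Agent.TWP.C.b0
import Pool.Agent.TWP.C.b1
import Pool.Agent.TWP.C.b2
import Pool.Agent.TWP.C.b3
import Pool.Agent.TWP.C.b4
import Pool.Agent.TWP.C.b5
import Pool.Agent.TWP.C.b6
import Pool.Agent.TWP.C.b7
import Pool.Agent.TWP.C.b8
import Pool.Agent.TWP.C.b9
import Pool.Agent.TWP.C.b10
import Pool.Agent.TWP.C.b11
import Pool.Agent.TWP.C.b12
import Pool.Agent.TWP.C.b13
import Pool.Agent.TWP.C.b14
import Pool.Agent.TWP.C.b15
import Pool.Agent.TWP.C.b16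
import Pool.Agent.TWP.C.b17
import Pool.Agent.TWP.C.b18
import Pool.Agent.TWP.C.b19
import Pool.Agent.TWP.C.b20
import Pool.Agent.TWP.C.b21
import Pool.Agent.TWP.C.b22
import Pool.Agent.TWP.C.b23
import Pool.Agent.TWP.C.b24
import Pool.Agent.TWP.C.b25
import Pool.Agent.TWP.C.b26
import Pool.Agent.TWP.C.b27
import Pool.Agent.TWP.C.b28
import Pool.Agent.TWP.C.b29
import Pool.Agent.TWP.C.b30
import Pool.Agent.TWP.C.b31
import Pool.Agent.TWP.C.b32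
import Pool.Agent.TWP.C.b33
import Pool.Agent.TWP.C.b34
import Pool.Agent.TWP.C.b35
import Pool.Agent.TWP.C.b36
import Pool.Agent.TWP.C.b37
import Pool.Agent.TWP.C.b38
import Pool.Agent.TWP.C.b39
import Pool.Agent.TWP.C.b40
import Pool.Agent.TWP.C.b41
import Pool.Agent.TWP.C.b42
import Pool.Agent.TWP.Mid

/-! TWP, middle charts, list B. -/

namespace TWP

namespace C

def chB : List Ch := [
  (-1504, 256, 15, bL0, bQ0),
  (-1376, 256, 15, bL1, bQ1),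
  (-1248, 256, 14, bL2, bQ2),
  (-1136, 192, 10, bL3, bQ3),
  (-1040, 192, 10, bL4, bQ4),
  (-944, 192, 10, bL5, bQ5),
  (-848, 192, 9, bL6, bQ6),
  (-752, 192, 9, bL7, bQ7),
  (-656, 192, 8, bL8, bQ8),
  (-576, 128, 5, bL9, bQ9),
  (-512, 128, 5, bL10, bQ10),
  (-448, 128, 5, bL11, bQ11),
  (-384, 128, 5, bL12, bQ12),
  (-320, 128, 5, bL13, bQ13),
  (-264, 96, 3, bL14, bQ14),
  (-216, 96, 3, bL15, bQ15),
  (-176, 64, 2, bL16, bQ16),
  (-144, 64, 2, bL17, bQ17),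
  (-112, 64, 2, bL18, bQ18),
  (-80, 64, 2, bL19, bQ19),
  (-48, 64, 2, bL20, bQ20),
  (-16, 64, 2, bL21, bQ21),
  (16, 64, 2, bL22, bQ22),
  (48, 64, 2, bL23, bQ23),
  (80, 64, 2, bL24, bQ24),
  (112, 64, 2, bL25, bQ25),
  (152, 96, 2, bL26, bQ26),
  (200, 96, 2, bL27, bQ27),
  (256, 128, 3, bL28, bQ28),
  (320, 128, 3, bL29, bQ29),
  (384, 128, 3, bL30, bQ30),
  (448, 128, 4, bL31, bQ31),
  (512, 128, 4, bL32, bQ32),
  (592, 192, 6, bL33, bQ33),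
  (688, 192, 6, bL34, bQ34),
  (784, 192, 6, bL35, bQ35),
  (880, 192, 7, bL36, bQ36),
  (992, 256, 9, bL37, bQ37),
  (1120, 256, 10, bL38, bQ38),
  (1248, 256, 10, bL39, bQ39),
  (1376, 256, 11, bL40, bQ40),
  (1504, 256, 11, bL41, bQ41),
  (1568, 256, 11, bL42, bQ42)]

theorem chB_pos : ∀ c ∈ chB, 0 < c.2.1 := by decide +kernel

theorem chB_cent : ∀ c ∈ chB, (c.1, c.2.2.2.1.headD 0, c.2.2.2.2.headD 0) ∈ cents := by
  decide +kernel

theorem chB_cov : cov (-6272) chB 6503 = true := by decide +kernel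

theorem rad_okB : radOK 1024 12 rad1 tab1 = true := by decide +kernel

theorem chB_chk : ∀ c ∈ chB, K.checkM false 4 12 48 1024 3072 tab1 c.1 c.2.1 (2 ^ 20) c.2.2.1 c.2.2.2.1
    c.2.2.2.2 = true := by
  unfold chB
  refine List.forall_mem_cons.2 ⟨b_chk0, ?_⟩
  refine List.forall_mem_cons.2 ⟨b_chk1, ?_⟩
  refine List.forall_mem_cons.2 ⟨b_chk2, ?_⟩
  refine List.forall_mem_cons.2 ⟨b_chk3, ?_⟩
  refine List.forall_mem_cons.2 ⟨b_chk4, ?_⟩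
  refine List.forall_mem_cons.2 ⟨b_chk5, ?_⟩
  refine List.forall_mem_cons.2 ⟨b_chk6, ?_⟩
  refine List.forall_mem_cons.2 ⟨b_chk7, ?_⟩
  refine List.forall_mem_cons.2 ⟨b_chk8, ?_⟩
  refine List.forall_mem_cons.2 ⟨b_chk9, ?_⟩
  refine List.forall_mem_cons.2 ⟨b_chk10, ?_⟩
  refine List.forall_mem_cons.2 ⟨b_chk11, ?_⟩
  refine List.forall_mem_cons.2 ⟨b_chk12, ?_⟩
  refine List.forall_mem_cons.2 ⟨b_chk13, ?_⟩
  refine List.forall_mem_cons.2 ⟨b_chk14, ?_⟩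
  refine List.forall_mem_cons.2 ⟨b_chk15, ?_⟩
  refine List.forall_mem_cons.2 ⟨b_chk16, ?_⟩
  refine List.forall_mem_cons.2 ⟨b_chk17, ?_⟩
  refine List.forall_mem_cons.2 ⟨b_chk18, ?_⟩
  refine List.forall_mem_cons.2 ⟨b_chk19, ?_⟩
  refine List.forall_mem_cons.2 ⟨b_chk20, ?_⟩
  refine List.forall_mem_cons.2 ⟨b_chk21, ?_⟩
  refine List.forall_mem_cons.2 ⟨b_chk22, ?_⟩
  refine List.forall_mem_cons.2 ⟨b_chk23, ?_⟩
  refine List.forall_mem_cons.2 ⟨b_chk24, ?_⟩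
  refine List.forall_mem_cons.2 ⟨b_chk25, ?_⟩
  refine List.forall_mem_cons.2 ⟨b_chk26, ?_⟩
  refine List.forall_mem_cons.2 ⟨b_chk27, ?_⟩
  refine List.forall_mem_cons.2 ⟨b_chk28, ?_⟩
  refine List.forall_mem_cons.2 ⟨b_chk29, ?_⟩
  refine List.forall_mem_cons.2 ⟨b_chk30, ?_⟩
  refine List.forall_mem_cons.2 ⟨b_chk31, ?_⟩
  refine List.forall_mem_cons.2 ⟨b_chk32, ?_⟩
  refine List.forall_mem_cons.2 ⟨b_chk33, ?_⟩
  refine List.forall_mem_cons.2 ⟨b_chk34, ?_⟩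
  refine List.forall_mem_cons.2 ⟨b_chk35, ?_⟩
  refine List.forall_mem_cons.2 ⟨b_chk36, ?_⟩
  refine List.forall_mem_cons.2 ⟨b_chk37, ?_⟩
  refine List.forall_mem_cons.2 ⟨b_chk38, ?_⟩
  refine List.forall_mem_cons.2 ⟨b_chk39, ?_⟩
  refine List.forall_mem_cons.2 ⟨b_chk40, ?_⟩
  refine List.forall_mem_cons.2 ⟨b_chk41, ?_⟩
  refine List.forall_mem_cons.2 ⟨b_chk42, ?_⟩
  exact fun x hx => absurd hx List.not_mem_nil

end C

theorem mid_one (hCM : S_CM2) (q l : ℝ → ℝ) (hQ : QL q l) (hc : CentOK q l) (t : ℝ)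
    (h1 : -(49 / 2) ≤ t) (h2 : t ≤ 127 / 5) : ∀ j, 1 ≤ j → j ≤ 5 → 0 < toda (mOne q l) j t := by
  intro j hj1 hj2
  have h := mid_gen hCM q l false 4 12 48 C.rad1 C.tab1 C.chB C.rad_okB (by decide) (by decide)
    C.chB_pos C.chB_chk C.chB_cent (-6272) 6503 C.chB_cov hQ hc t (by push_cast; linarith)
    (by push_cast; linarith) j hj1 (by omega)
  simpa [mSel] using h

end TWP
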