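import Pool.Agent.TWP.C.neg1
import Pool.Agent.TWP.C.neg2
import Pool.Agent.TWP.Mid

/-! TWP: the two points with a negative term of the chain. -/

namespace TWP

namespace C

theorem radN2 : radOK 1024 18 rad2 tab2 = true := by decide +kernel

theorem radN1 : radOK 1024 12 rad1 tab1 = true := by decide +kernel

theorem neg2_cent : ((4, neg2L.headD 0, neg2Q.headD 0) : ℤ × ℤ × ℤ) ∈ cents := by decide +kernel

theorem neg1_cent : ((96, neg1L.headD 0, neg1Q.headD 0) : ℤ × ℤ × ℤ) ∈ cents := by decide +kernel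

end C

theorem neg_two (hCM : S_CMN2) (q l : ℝ → ℝ) (hQ : QL q l) (hc : CentOK q l) :
    toda (mTwo q l) 9 (1 / 16) < 0 := by
  obtain ⟨e1, e2⟩ := hc _ C.neg2_cent
  have h := hCM q l true 8 18 48 1024 3072 C.rad2 C.tab2 4 4 (2 ^ 20) 1 C.neg2L C.neg2Q hQ
    (by norm_num) (by norm_num) (by norm_num) (by norm_num) C.radN2 (by decide) (by decide)
    C.neg2_chk (e1.trans (by norm_num)) (e2.trans (by norm_num)) (1 / 16) (by norm_num)
  simpa [mSel] using h

theorem neg_one (hCM : S_CMN2) (q l : ℝ → ℝ) (hQ : QL q l) (hc : CentOK q l) :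
    toda (mOne q l) 6 (3 / 2) < 0 := by
  obtain ⟨e1, e2⟩ := hc _ C.neg1_cent
  have h := hCM q l false 5 12 48 1024 3072 C.rad1 C.tab1 96 16 (2 ^ 20) 1 C.neg1L C.neg1Q hQ
    (by norm_num) (by norm_num) (by norm_num) (by norm_num) C.radN1 (by decide) (by decide)
    C.neg1_chk (e1.trans (by norm_num)) (e2.trans (by norm_num)) (3 / 2) (by norm_num)
  simpa [mSel] using h

end TWP
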