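import Pool.Agent.TWP.TFin
import Pool.Agent.TWP.MFin2
import Pool.Agent.TWP.MidA
import Pool.Agent.TWP.MidB
import Pool.Agent.TWP.Neg
import Pool.Agent.TWP.F12

/-! TWP: the final theorem for `β = 1, 2` from the values at the centres and the tails. -/

namespace TWP

open Filter Topology

theorem IsPF.mono {r s : ℕ} {f : ℝ → ℝ} (h : IsPF r f) (hs : s ≤ r) : IsPF s f :=
  ⟨h.1, fun m h1 h2 x y hx hy => h.2 m h1 (h2.trans hs) x y hx hy⟩

theorem isGreatest_pf {f : ℝ → ℝ} {n : ℕ} (h1 : IsPF n f) (h2 : ¬ IsPF (n + 1) f) :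
    IsGreatest {r | IsPF r f} n := by
  refine ⟨h1, fun r hr => ?_⟩
  by_contra hlt
  exact h2 (IsPF.mono (Set.mem_setOf_eq ▸ hr) (by omega))

/-- `l = q'/q` -/
noncomputable def lq (q : ℝ → ℝ) : ℝ → ℝ := fun t => deriv q t / q t

/-- positivity of the chains at `t` -/
def PosAt (q : ℝ → ℝ) (t : ℝ) : Prop :=
  (∀ j, 1 ≤ j → j ≤ 8 → 0 < toda (mTwo q (lq q)) j t) ∧
  (∀ j, 1 ≤ j → j ≤ 5 → 0 < toda (mOne q (lq q)) j t)

theorem main12 (hC : ∀ q, IsHM q → CentOK q (lq q))
    (hR : ∀ q, IsHM q → ∀ t, 127 / 5 ≤ t → PosAt q t)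
    (hL : ∀ q, IsHM q → ∀ t, t ≤ -(49 / 2) → PosAt q t) :
    (∃! q : ℝ → ℝ, IsHM q) ∧ ∀ q, IsHM q →
      IsGreatest {r | IsPF r (fTwo q)} 9 ∧ IsGreatest {r | IsPF r (fOne q)} 6 := by
  refine ⟨existsUnique_isHM, fun q h => ?_⟩
  have hQ : QL q (lq q) := h.ql
  have hc := hC q h
  have hall : ∀ t, PosAt q t := by
    intro t
    rcases le_total t (-(49 / 2)) with h1 | h1
    · exact hL q h t h1
    rcases le_total (127 / 5) t with h2 | h2
    · exact hR q h t h2
    · exact ⟨fun j a b => mid_two CM2_all q (lq q) hQ hc t h1 h2 j a b,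
        fun j a b => mid_one CM2_all q (lq q) hQ hc t h1 h2 j a b⟩
  have e2 : (fun t => deriv (fTwo q) t / fTwo q t) = mTwo q (lq q) := by
    funext t
    rw [(h.fTwo_deriv t).deriv, mul_div_assoc, div_self (h.fTwo_pos t).ne', mul_one]
    rfl
  have e1 : (fun t => deriv (fOne q) t / fOne q t) = mOne q (lq q) := by
    funext t
    rw [(h.fOne_deriv t).deriv, mul_div_assoc, div_self (h.fOne_pos t).ne', mul_one]
    rfl
  constructor
  · apply isGreatest_pf
    · refine T1_all (fTwo q) 9 (by norm_num) h.fTwo_smooth h.fTwo_pos ?_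
      rw [e2]
      exact fun k h1 h2 t => (hall t).1 k h1 (by omega)
    · refine T2_all (fTwo q) 9 (1 / 16) (by norm_num) h.fTwo_smooth h.fTwo_pos ?_ ?_
      · rw [e2]
        exact fun k h1 h2 t => (hall t).1 k h1 (by omega)
      · rw [e2]
        exact neg_two CMN2_all q (lq q) hQ hc
  · apply isGreatest_pf
    · refine T1_all (fOne q) 6 (by norm_num) h.fOne_smooth h.fOne_pos ?_
      rw [e1]
      exact fun k h1 h2 t => (hall t).2 k h1 (by omega)
    · refine T2_all (fOne q) 6 (3 / 2) (by norm_num) h.fOne_smooth h.fOne_pos ?_ ?_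
      · rw [e1]
        exact fun k h1 h2 t => (hall t).2 k h1 (by omega)
      · rw [e1]
        exact neg_one CMN2_all q (lq q) hQ hc

end TWP
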