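import Pool.Agent.TWP.Eng4V
import Pool.Agent.TWP.StMid
import Pool.Agent.TWP.F4N

/-! TWP, `β = 4` (architect helper50): the value of `ν` at the centres of the charts.
Statements with paper proofs.  Every `S_xxx` is a module `TWP_xxx`: `theorem t_xxx … : S_xxx`, namespace
`TWP`, file `Pool/Agent/TWP/V….lean`; the hypotheses named are arguments.
`evR u P` is the value of the list `P` at `u` (StM.lean); all lists are in units of `2^-160`. -/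

set_option autoImplicit false

namespace TWP

open Filter Topology
open scoped ContDiff

/-- VCON (contraction from right to left).
Proof. For `κ > 0` put `F u = √(δ u ^ 2 + κ ^ 2) + ρ * u`. `F` is differentiable on `[u0, u1]` with derivative
`(a δ² + r δ)/√(δ² + κ²) + ρ ≥ ρ - |r| |δ|/√(δ² + κ²) ≥ 0`, so `F` is monotone (`monotoneOn_of_deriv_nonneg` or
`image_sub_le…`), `√(δ u0 ^ 2 + κ²) ≤ √(δ u1 ^ 2 + κ²) + ρ (u1 - u0) ≤ |δ u1| + κ + ρ (u1 - u0)`; `|δ u0| ≤ √(δ u0 ^ 2 + κ²)`;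
let `κ → 0` (`le_of_forall_pos_le_add`). -/
def S_VCON : Prop := ∀ (δ a r : ℝ → ℝ) (ρ u0 u1 : ℝ), u0 ≤ u1 →
  (∀ u, u0 ≤ u → u ≤ u1 → HasDerivAt δ (a u * δ u + r u) u) →
  (∀ u, u0 ≤ u → u ≤ u1 → 0 ≤ a u) → (∀ u, u0 ≤ u → u ≤ u1 → |r u| ≤ ρ) →
  |δ u0| ≤ |δ u1| + ρ * (u1 - u0)

/-- VCO2 (contraction with a rate). Hypothesis VCON. Proof. VCON for `δ' u = δ u * exp (-(α * (u - u0)))`, whose derivative is
`(a u - α) * δ' u + r u * exp (-(α * (u - u0)))`, `|r u * exp …| ≤ ρ` as `exp … ≤ 1` for `u ≥ u0` (`α ≥ 0`). -/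
def S_VCO2 : Prop := ∀ (δ a r : ℝ → ℝ) (ρ u0 u1 α : ℝ), u0 ≤ u1 → 0 ≤ α →
  (∀ u, u0 ≤ u → u ≤ u1 → HasDerivAt δ (a u * δ u + r u) u) →
  (∀ u, u0 ≤ u → u ≤ u1 → α ≤ a u) → (∀ u, u0 ≤ u → u ≤ u1 → |r u| ≤ ρ) →
  |δ u0| ≤ |δ u1| * Real.exp (-(α * (u1 - u0))) + ρ * (u1 - u0)

/-- VES. Proof. `exp (s/16) ≥ ∑_(k ≤ 4) (s/16)^k/k! = expS s/(24 * 16^4)` (`Real.sum_le_exp_of_nonneg`), natural division. -/
def S_VES : Prop := ∀ (s x : ℕ) (y : ℝ), y ≤ x → 0 ≤ y → y * Real.exp (-((s : ℝ) / 16)) ≤ (K.conS s x : ℝ)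

/-- VNL: the value of a list. Hypothesis NL. Proof. NL with `M = 0`, `r = 0`, `ξ = C u`: `nrm 0 0 (C u) = |u|`,
`nrm 0 0 (evZ (C u) P) = |coeff 0 (evZ (C u) P)| = |evR u P|` (GA, or induction). -/
def S_VNL : Prop := ∀ (u : ℝ) (h : ℕ) (P : List ℤ), |u| ≤ (h : ℝ) / 4096 → |evR u P| ≤ (K.nL h P : ℝ)

/-- VBS: soundness of `baseS`. Hypotheses GR, GA, EVA, MUL, VNL. Proof. As GB and GI (`FGB.lean`, `FGI.lean`; copy)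
with the weight `h` instead of 4096: `r1 = nL h resl/(4096 * ONE) + 1`, `r2 = nL h resq/(64 * ONE) + 1`; for `|u| ≤ h/4096`:
`4096 * 2^320 * (L'/2^160 - λ (c + λ u + 2 (Q/2^160)² - (L/2^160)²)) = evR u resl` (EVA and MUL for `ξ = C u`, coefficient 0,
`λ = ln/64`, `c = cn/64`), the same for `q` with `64 * 2^320`. GR with `e0 = 2 eta/2^160`, `r_i/2^160`, `nl = nL h L/2^160`,
`nq = nL h Q/2^160`, `Lam/2^160`. -/
def S_VBS : Prop := ∀ (q l : ℝ → ℝ) (h : ℕ) (cn : ℤ) (ln eta k : ℕ) (L Q : List ℤ) (G : ℕ),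
  QL q l → 0 < h → h ≤ 4096 → 0 < ln → K.baseS h cn ln eta k L Q = some G →
  |(2 : ℝ) ^ 160 * l ((cn : ℝ) / 64) - (L.headD 0 : ℤ)| ≤ eta →
  |(2 : ℝ) ^ 160 * q ((cn : ℝ) / 64) - (Q.headD 0 : ℤ)| ≤ eta →
  ∀ u : ℝ, |u| ≤ (h : ℝ) / 4096 →
    |(2 : ℝ) ^ 160 * l ((cn : ℝ) / 64 + (ln : ℝ) / 64 * u) - evR u L| +
    |(2 : ℝ) ^ 160 * q ((cn : ℝ) / 64 + (ln : ℝ) / 64 * u) - evR u Q| ≤ (G : ℝ)

/-- VRT: soundness of `resT` at a point. Hypotheses LIN, MULA, VNL, GA. Proof. With `M = 0`, `r = 1`, `ξ = C u`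
(`Okw 0 1 (C u) h`), `(P, 0)` approximates `C (evR u P/2^160)` (LIN, last part: `evZ (C u) P = C (evR u P)`). Follow the program
(as in `KM2.lean`): `X` approximates `C (Q T/2^320)`, `X2` its square, `Y` the product `L T`, `R` the series
`C (T'/2^160 + λ/2 - (λ/2) (Q T/2^320)² + λ L T/2^320)`. Unfold `Ap` (`nrm 0 1 S = |coeff 0 S|`):
`|2^160 (…) - evR u R.1| ≤ R.2`, and VNL for `R.1`. -/
def S_VRT : Prop := ∀ (N h ln : ℕ) (L Q T : List ℤ) (R : K.AP), h ≤ 4096 →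
  K.resT h N ln L Q T = some R → ∀ u : ℝ, |u| ≤ (h : ℝ) / 4096 →
  |(2 : ℝ) ^ 160 * (evR u (K.derM T) / 2 ^ 160 + (ln : ℝ) / 64 * (1 / 2 -
      (evR u Q / 2 ^ 160 * (evR u T / 2 ^ 160)) ^ 2 / 2 + evR u L / 2 ^ 160 * (evR u T / 2 ^ 160)))| ≤
    (K.nL h R.1 : ℝ) + R.2

/-- VPO. Hypotheses POS, LIN, GA. Proof. POS with `M = 0`, `r = 0`, `ξ = C u`, `S = C (evR u T/2^160)`, `a = (T, 0)`. (Or a direct
induction.) -/
def S_VPO : Prop := ∀ (h : ℕ) (T : List ℤ) (u : ℝ), K.posA h (T, 0) = true → |u| ≤ (h : ℝ) / 4096 →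
  0 < evR u T

/-- VST: soundness of `stepV`. Hypotheses VCO2, VNL, VBS, VRT, VPO, GA. Proof. `λ = ln/64`, `c = cn/64`, `O = 2^160`,
`pl = evR u L/O`, `pq = evR u Q/O`, `pt = evR u T/O > 0` (VPO), `pt' = evR u (derM T)/O` (GA), `δ u = ν (c + λ u) - pt u`.
`δ' = λ (-l ν - 1/2 + q² ν²/2) - pt' = a δ + r`, `a = λ (-l + q² (ν + pt)/2) ≥ λ (-l) ≥ α := (s/16) (4096/h)`: the second
`posA` (VPO, EVA) says `-evR u L > s*4*4096*O/(ln h) + G` and `|O l - evR u L| ≤ G` (VBS), `λ (-l) ≥ (ln/64) (s*4*4096)/(ln h)`.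
`r = λ (-(l - pl) pt + (q² - pq²) pt²/2) - (pt' + λ/2 - (λ/2) (pq pt)² + λ pl pt)`. With `|l - pl| + |q - pq| ≤ G/O`:
`|q² - pq²| ≤ |q - pq| (2 |pq| + |q - pq|)`, `|(l - pl) pt| ≤ G nt/O²`, `|(q² - pq²) pt²/2| ≤ (G/O)((2 nL Q + G)/O)(nt/O)²/2`, so
(natural division) `O |r| ≤ λ (A + B) + 1 + (nL R.1 + R.2) =: ρ'`, and VCO2 with `ρ = ρ'/O` on `[0, h/4096]` and on
`[-h/4096, 0]` (`α h/4096 = s/16`): the term `ρ' h/4096` is at most `RR`. -/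
def S_VST : Prop := ∀ (q l ν : ℝ → ℝ) (N h : ℕ) (cn : ℤ) (ln eta k s : ℕ) (L Q T : List ℤ) (RR : ℕ),
  QLN q l ν → (∀ t, 0 < ν t) → 0 < h → h ≤ 4096 → 0 < ln →
  K.stepV N h cn ln eta k s L Q T = some RR →
  |(2 : ℝ) ^ 160 * l ((cn : ℝ) / 64) - (L.headD 0 : ℤ)| ≤ eta →
  |(2 : ℝ) ^ 160 * q ((cn : ℝ) / 64) - (Q.headD 0 : ℤ)| ≤ eta →
  |(2 : ℝ) ^ 160 * ν ((cn : ℝ) / 64) - (T.headD 0 : ℤ)| ≤
    |(2 : ℝ) ^ 160 * ν ((cn : ℝ) / 64 + (ln : ℝ) / 64 * ((h : ℝ) / 4096)) - evR ((h : ℝ) / 4096) T| *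
      Real.exp (-((s : ℝ) / 16)) + RR ∧
  |(2 : ℝ) ^ 160 * ν ((cn : ℝ) / 64 + (ln : ℝ) / 64 * (-((h : ℝ) / 4096))) - evR (-((h : ℝ) / 4096)) T| ≤
    |(2 : ℝ) ^ 160 * ν ((cn : ℝ) / 64) - (T.headD 0 : ℤ)| * Real.exp (-((s : ℝ) / 16)) + RR

/-- VHO. Proof. Induction on `P`. -/
def S_VHO : Prop := ∀ (s : ℤ) (P : List ℤ), (4 : ℝ) ^ P.length * evR ((s : ℝ) / 4) P = (K.hor s P : ℝ)

/-- the values at the centre of a chart are right -/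
def CenL (q l : ℝ → ℝ) (c : K.Ch4) : Prop :=
  |(2 : ℝ) ^ 160 * l ((c.cn : ℝ) / 64) - (c.L.headD 0 : ℤ)| ≤ c.eta ∧
  |(2 : ℝ) ^ 160 * q ((c.cn : ℝ) / 64) - (c.Q.headD 0 : ℤ)| ≤ c.eta

def CenT (ν : ℝ → ℝ) (c : K.Ch4) : Prop :=
  |(2 : ℝ) ^ 160 * ν ((c.cn : ℝ) / 64) - (c.T.headD 0 : ℤ)| ≤ c.etaT

/-- VCH: the chain of charts. Hypotheses VST, VHO, VES. Proof. Induction on the list (from the right: first apply the
induction hypothesis to `c' :: cs`). `h = 1024`, `h/4096 = 1/4`; `x = (4 c.cn + c.ln)/256 = c.cn/64 + c.ln/64 * (1/4) =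
c'.cn/64 + c'.ln/64 * (-1/4)`. VHO with `s = 1` for `c.T`, `s = -1` for `c'.T` turns the condition of `link` into
`|evR (1/4) c.T - evR (-1/4) c'.T| ≤ e`. Then `|O ν(x) - evR (-1/4) c'.T| ≤ conS c'.s etaT' + RV'` (VST, second part, for `c'`, and VES),
`|O ν(x) - evR (1/4) c.T| ≤ conS c'.s etaT' + RV' + e`, `|O ν(c) - head| ≤ conS c.s (…) + RV ≤ etaT` (VST, first part, VES). -/
def S_VCH : Prop := ∀ (q l ν : ℝ → ℝ) (N e : ℕ) (xn V1 : ℤ) (e1 : ℕ) (chs : List K.Ch4),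
  QLN q l ν → (∀ t, 0 < ν t) →
  (∀ c ∈ chs, K.okV N c = true) → (∀ c ∈ chs, CenL q l c) → K.chainV e xn V1 e1 chs = true →
  |(2 : ℝ) ^ 160 * ν ((xn : ℝ) / 256) - V1| ≤ e1 → ∀ c ∈ chs, CenT ν c

/-- VCV: the charts cover the interval between the ends. Proof. Induction; only the first conditions of `link` and the last
chart matter: `4 cn - ln` of the head to `xn`. -/
def S_VCV : Prop := ∀ (e : ℕ) (xn V1 : ℤ) (e1 : ℕ) (c0 : K.Ch4) (chs : List K.Ch4),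
  K.chainV e xn V1 e1 (c0 :: chs) = true → ∀ t : ℝ, ((4 * c0.cn - c0.ln : ℤ) : ℝ) / 256 ≤ t →
    t ≤ (xn : ℝ) / 256 → ∃ c ∈ c0 :: chs, |256 * t - 4 * (c.cn : ℝ)| ≤ (c.ln : ℝ)

end TWP
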