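import Pool.Agent.TWP.HCen4
import Pool.Agent.TWP.St4V
import Pool.Agent.TWP.Main12

/-!
TWP, block H: the values of `q'/q` and `q` at the centres of the charts of `β = 4`.
-/

set_option autoImplicit false

namespace TWP.H

/-- the check of the centre of a chart of `β = 4` -/
def cL4 (c : K.Ch4) : Bool := decide (4096 ≤ c.eta) && cOK4 (c.cn, c.L.headD 0, c.Q.headD 0)

theorem cenL1 {q : ℝ → ℝ} (h : IsHM q) (c : K.Ch4) (hc : cL4 c = true) : CenL q (lq q) c := by
  rw [cL4, Bool.and_eq_true, decide_eq_true_eq] at hc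
  obtain ⟨h1, h2⟩ := hc
  obtain ⟨a, b⟩ := cen4 h _ h2
  have h3 : (2 : ℝ) ^ 12 ≤ (c.eta : ℝ) := by
    have : ((4096 : ℕ) : ℝ) ≤ (c.eta : ℝ) := by exact_mod_cast h1
    norm_num at this ⊢
    exact this
  exact ⟨a.trans h3, b.trans h3⟩

theorem cenL_of {q : ℝ → ℝ} (h : IsHM q) (chs : List K.Ch4) (hchk : chs.all cL4 = true) :
    ∀ c ∈ chs, CenL q (lq q) c :=
  fun c hc => cenL1 h c (List.all_eq_true.1 hchk c hc)

end TWP.H
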