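import Pool.Agent.TWP.Main4G
import Pool.Agent.TWP.HCenL
import Pool.Agent.TWP.HCenA
import Pool.Agent.TWP.C4.KAll
import Pool.Agent.TWP.C4.KN

/-! TWP, `β = 4`: the theorem for `TW_4` without hypotheses (assembly, helper66). -/

set_option autoImplicit false

namespace TWP

open Filter Topology Set

namespace M4

theorem radP : radOK 1024 23 C4.rad4 C4.tab4 = true := by decide +kernel

theorem radQ : radOK 1024 25 C4.radN C4.tabN = true := by decide +kernel

theorem lnP : C4.chs.all (fun c => decide (0 < c.ln)) = true := by decide +kernel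

theorem cenP : C4.chs.all cenOK = true := by decide +kernel

theorem v1P : |C4.V1 - R4Vaux.V25| ≤ 1000 := by decide +kernel

theorem covP : 4 * C4.ch0.cn - C4.ch0.ln ≤ -6272 := by decide +kernel

theorem chsE : C4.chs = C4.ch0 :: C4.chs.tail := rfl

theorem all4 : OK 23 60 60 C4.tab4 C4.rad4 32 C4.V1 (2 ^ 45) C4.ch0 C4.chs.tail where
  rad := radP
  rad0 := rfl
  len := by decide
  pos := fun c hc => by
    rw [← chsE] at hc
    exact of_decide_eq_true (List.all_eq_true.1 lnP c hc)
  chk := fun c hc => by
    rw [← chsE] at hc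
    exact (C4.kAll c hc).1
  okv := fun c hc => by
    rw [← chsE] at hc
    exact (C4.kAll c hc).2
  cen := fun c hc => by
    rw [← chsE] at hc
    exact List.all_eq_true.1 cenP c hc
  chain := by
    rw [← chsE]
    exact C4.chain4
  v1 := v1P
  e1 := le_rfl
  cov := covP

/-- the chart with the negative term -/
def dN : K.Ch4 where
  cn := -84
  ln := 16
  eta := 4096
  k := 1
  etaT := C4.ch21.etaT
  k4 := 1
  s := 0
  RV := 0
  L := C4.LN
  Q := C4.QN
  T := C4.TN

theorem negN : Neg 25 60 C4.tabN C4.radN C4.ch21 dN where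
  rad := radQ
  rad0 := rfl
  len := by decide
  pos := by decide
  cn := (congrArg (fun x => x.1) C4.cN).symm
  hL := (congrArg (fun x => x.2.2.1) C4.cN).symm
  hQ := (congrArg (fun x => x.2.2.2.1) C4.cN).symm
  hT := (congrArg (fun x => x.2.2.2.2) C4.cN).symm
  eta := le_of_eq (congrArg (fun x => x.2.1) C4.cN)
  etaT := le_rfl
  chk := C4.kN

end M4

/-- the Polya frequency order of the density of `TW_4` is exactly `13` -/
theorem main4 : ∀ q : ℝ → ℝ, IsHM q → IsGreatest {r : ℕ | IsPF r (fFour q)} 13 := by
  refine fun q h => M4.all4.main (c := C4.ch21) ?_ M4.negN q h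
  rw [← M4.chsE, C4.chs]
  simp

end TWP
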