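import Pool.Agent.TWP.HFin21
import Pool.Agent.TWP.FamC
import Pool.Agent.TWP.Main4

/-! TWP: the Polya frequency orders of `TW_1`, `TW_2`, `TW_4`, without hypotheses. -/

namespace TWP

theorem finalC : (∃! q : ℝ → ℝ, IsHM q) ∧ ∀ q : ℝ → ℝ, IsHM q → ∀ β ∈ ({1, 2, 4} : Finset ℕ),
    IsGreatest {r : ℕ | IsPF r (classicalDensity q β)} (classicalOrder β) :=
  famC main21 main4

end TWP
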