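import Mathlib
import Pool.Agent.TWP.TLeftD

/-!
# TWP, tails (helper66): H3 with K = 40, barriers for the left tail

`q = √(x/2) Y(z)`, `x = -t`, `z = x^(-3)`; `Y_40(z) = ev cY40 (z/16)`, `16^n Y_n = cY40_n`.
-/

set_option autoImplicit false

namespace Pool.Agent.TWP.Tail

open Filter Topology Set

/-- `16^n Y_n`, `n = 0, ..., 40`, where `z (δ^2 - 1/4) Y = Y^3 - Y`, `δ = -3 z d/dz` -/
def cY40 : List ℤ :=
  [1, -2, -146, -42628, -27824554, -32183535772, -58073805561396, -150777029651365128,
   -532574797083595558554, -2456310150000418791868972, -14335281635977422817428283996,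
   -103272515807996745284668529871928, -900129816473975205440841224515187204,
   -9336193172768311346528938511071692059672, -113640546827367616167486022686372769047869096,
   -1604154117214560961071923020276397931977009203728,
   -25993763682691825778470860799830920805878724435903354,
   -479221735573695688696955790498983528482671148615249575372,
   -9973574204394290013766584771700440147794623806577642783589196,
   -232703643808829210700943986291473471076598713386745686121531165528,
   -6049368296246774723535573160930170804317633048917961655888367512497004,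
   -174246106242515809793976624729138550758332818604578058628639165515249136072,
   -5533361993601054768486078158133672974554316767650266662629712363838456210494296,
   -192848808264038014138049184109395701509720418417620472181080997442852324454776457328,
   -7345999217464427924282482841091959143030411657624497061706849344115202986740911078874404,
   -304682747572144879999681014967730450265909521627583881821034278321830815432944507872332929272,
   -13711945570180079948753164604786667417790031170014235907217804736024404843252203697440017908271896,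
   -667442795146642255734577557918304143581690111891256704286845390507283821479680912227793396905497454128,
   -35035413165725899303487984128453066983193696736313180162957033590558767474080937860749205746045056368879304,
   -1977819434134462363222331397119024740082015919201035496464824644971747849122563183380705475112752945953935767472,
   -119768848874686942511192815746007138979689366609411869377440431505217788611196110232049340657358339347626337039484496,
   -7761501341399885816652713127822477573238277309295580880693655354236113792103647269144238442269192340970533718670995280928,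
   -537064898813829411958875492641411374006236367938858054721084616326635728700415020542289157725313116606884143745387772359792954,
   -39598872487689477454345332811991032888808747607910394653875140923308922990030789593499189956675867201950405967427925476540070588172,
   -3105027022512676453352973246513858457260466890091667379776452871583657779038927169723151964989791571981283348506304341741474087657319596,
   -258450046421447140959953429903225863743664617410427479465080619121344404161855084385811663536432749508308229087725351403010054778784852312728,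
   -22796329241003816915185939747026035237730368880310790963488340666089381014958218301396968522914852442095298534260247984174590137680822229178896604,
   -2127262371501642736476719501108523539043286155645179595976795531939505689930459671924455998656916071953083224130448890767945946681754343948982325328872,
   -209688516364761591075922402031278749114370901488955504180431108748463680301614027188993730591309006859211101676401753887935135503481462937193281641977464696,
   -21801735345371458587920101967314870084612040179127581990630012950964951329099928734016730209314503601328867708324461970151406045052392469889973442320816325924528,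
   -2387638938941240865861994989642954097298656986372840744030638311484944364937890684049765945489397970254673612888124021239754672433968159267015832547653832847501909004]

theorem cY40_zero : ∀ a ∈ (defY cY40).take 41, a = 0 := by decide +kernel
theorem cY40_def1 : ∃ b : ℤ, 1 * nb 221184 ((defY cY40).drop 41).tail ≤
    b * 221184 ^ ((defY cY40).drop 41).tail.length ∧
    |((defY cY40).drop 41).headD 0| + b ≤ 236 * 10 ^ 119 * 16 ^ 41 :=
  ⟨10 ^ 164, by decide +kernel, by decide +kernel⟩
theorem cY40_norm : 10000 * nb 221184 cY40.tail ≤ 1 * 221184 ^ cY40.tail.length := by decide +kernel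
theorem cY40_headD : cY40.headD 0 = 1 := by decide +kernel

theorem defY40_le (y : ℝ) (hy0 : 0 ≤ y) (hy : y * 221184 ≤ 1) :
    |ev (defY cY40) y| ≤ 236 * 10 ^ 119 * (16 * y) ^ 41 := by
  rw [ev_split 41, ev_zeros _ _ cY40_zero, zero_add, ev_head ((defY cY40).drop 41)]
  obtain ⟨b, hb1, hb2⟩ := cY40_def1
  have h1 := y_ev_le 221184 (by norm_num) 1 _ (by norm_num) _ hb1 y hy0 (by exact_mod_cast hy)
  have h2 : |(((defY cY40).drop 41).headD 0 : ℝ)| + b ≤ 236 * 10 ^ 119 * 16 ^ 41 := by
    exact_mod_cast hb2
  have h3 := abs_add_le (((defY cY40).drop 41).headD 0 : ℝ) (y * ev ((defY cY40).drop 41).tail y)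
  have h4 : |(((defY cY40).drop 41).headD 0 : ℝ) + y * ev ((defY cY40).drop 41).tail y| ≤
      236 * 10 ^ 119 * 16 ^ 41 := by
    push_cast at h1
    linarith
  rw [abs_mul, abs_of_nonneg (pow_nonneg hy0 41), mul_pow]
  have h5 : (0 : ℝ) ≤ y ^ 41 := pow_nonneg hy0 _
  calc y ^ 41 * |(((defY cY40).drop 41).headD 0 : ℝ) + y * ev ((defY cY40).drop 41).tail y|
      ≤ y ^ 41 * (236 * 10 ^ 119 * 16 ^ 41) := mul_le_mul_of_nonneg_left h4 h5
    _ = 236 * 10 ^ 119 * (16 ^ 41 * y ^ 41) := by ring

theorem cY40_near (y : ℝ) (hy0 : 0 ≤ y) (hy : y * 221184 ≤ 1) : |ev cY40 y - 1| ≤ 1 / 10000 := by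
  rw [ev_head cY40, cY40_headD]
  have h1 := y_ev_le 221184 (by norm_num) 10000 _ (by norm_num) _ cY40_norm y hy0
    (by exact_mod_cast hy)
  push_cast at h1 ⊢
  rw [add_sub_cancel_left]
  linarith

/-- `f(z) = Y_40(z) + κ z^41` -/
noncomputable def gL (κ z : ℝ) : ℝ := ev cY40 (z / 16) + κ * z ^ 41
noncomputable def gL1 (κ z : ℝ) : ℝ := dv cY40 (z / 16) / 16 + 41 * κ * z ^ 40
noncomputable def gL2 (κ z : ℝ) : ℝ := d2v cY40 (z / 16) / 256 + 1640 * κ * z ^ 39

/-- the barrier `√(-t/2) f(z)` with its derivatives -/
noncomputable def QL (κ t : ℝ) : ℝ := Real.sqrt (-t / 2) * gL κ (zL t)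
noncomputable def QL1 (κ t : ℝ) : ℝ :=
  Real.sqrt (-t / 2) / t * (gL κ (zL t) / 2 - 3 * (zL t * gL1 κ (zL t)))
noncomputable def QL2 (κ t : ℝ) : ℝ :=
  Real.sqrt (-t / 2) / t ^ 2 *
    (9 * (zL t * gL1 κ (zL t)) + 9 * (zL t ^ 2 * gL2 κ (zL t)) - gL κ (zL t) / 4)

theorem hasDerivAt_gL (κ z : ℝ) : HasDerivAt (gL κ) (gL1 κ z) z := by
  have h1 := hasDerivAt_ev16 cY40 z
  have h2 := h1.add ((hasDerivAt_pow 41 z).const_mul κ)
  refine h2.congr_deriv ?_
  rw [gL1]
  push_cast
  ring

theorem hasDerivAt_gL1 (κ z : ℝ) : HasDerivAt (gL1 κ) (gL2 κ z) z := by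
  have h1 := hasDerivAt_dv16 cY40 z
  have h2 := (h1.div_const 16).add ((hasDerivAt_pow 40 z).const_mul (41 * κ))
  refine h2.congr_deriv ?_
  rw [gL2]
  push_cast
  ring

theorem hasDerivAt_QL (κ t : ℝ) (ht : t < 0) : HasDerivAt (QL κ) (QL1 κ t) t := by
  have h1 := (hasDerivAt_sqL t ht).mul
    (HasDerivAt.comp t (hasDerivAt_gL κ (zL t)) (hasDerivAt_zL t ht))
  refine h1.congr_deriv ?_
  rw [QL1]
  have ht0 : t ≠ 0 := ht.ne
  simp only [Function.comp_apply]
  field_simp
  ring

theorem hasDerivAt_QL1 (κ t : ℝ) (ht : t < 0) : HasDerivAt (QL1 κ) (QL2 κ t) t := by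
  have ht0 : t ≠ 0 := ht.ne
  have hz := hasDerivAt_zL t ht
  have hf := HasDerivAt.comp t (hasDerivAt_gL κ (zL t)) hz
  have hf1 := HasDerivAt.comp t (hasDerivAt_gL1 κ (zL t)) hz
  have h1 := ((hasDerivAt_sqL t ht).div (hasDerivAt_id t) ht0).mul
    ((hf.div_const 2).sub ((hz.mul hf1).const_mul 3))
  refine h1.congr_deriv ?_
  rw [QL2]
  simp only [Function.comp_apply, Pi.div_apply, id, Pi.mul_apply, Pi.sub_apply]
  field_simp
  ring

/-- the identity for the defect -/
theorem QL_defect (κ t : ℝ) (ht : t < 0) :
    QL2 κ t - (t * QL κ t + 2 * QL κ t ^ 3) = Real.sqrt (-t / 2) * (-t) *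
      (ev (defY cY40) (zL t / 16) + κ * zL t ^ 41 *
        (1 - 3 * ev cY40 (zL t / 16) ^ 2 + 60515 / 4 * zL t
          - 3 * ev cY40 (zL t / 16) * (κ * zL t ^ 41) - (κ * zL t ^ 41) ^ 2)) := by
  have ht0 : t ≠ 0 := ht.ne
  have h2 : 0 < -t / 2 := by linarith
  have hss : Real.sqrt (-t / 2) ^ 2 = -t / 2 := Real.sq_sqrt h2.le
  have e3 : QL κ t ^ 3 = Real.sqrt (-t / 2) * (-t / 2) * gL κ (zL t) ^ 3 := by
    rw [QL, mul_pow, pow_succ, hss]; ring
  have hz : 1 / t ^ 2 = (-t) * zL t := by
    rw [zL]; field_simp
  rw [e3, QL2, QL, ev_defY, div_eq_mul_one_div (Real.sqrt (-t / 2)) (t ^ 2), hz, gL, gL1, gL2]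
  set z := zL t
  set s := Real.sqrt (-t / 2)
  set a := ev cY40 (z / 16)
  set b := dv cY40 (z / 16)
  set c := d2v cY40 (z / 16)
  ring

end Pool.Agent.TWP.Tail
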