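import Mathlib
import Pool.Agent.TWP.TLeft40a

/-!
# TWP, tails (helper66): H3 with K = 40

For `3.6 * 10^121 ≤ D`, `D * 24^(-123) ≤ 1/1000`: `QL D` is a strict supersolution and `QL (-D)` a
strict subsolution of `P'' = t P + 2 P^3` on `(-∞,-24]`; `QL κ / √(-t/2) → 1` at `-∞`; and the
derivative bound `H3b40`.
-/

set_option autoImplicit false

namespace Pool.Agent.TWP.Tail

open Filter Topology Set

/-- `0 < D z^41 ≤ 1/1000` -/
theorem Dz40_le (D t : ℝ) (hD0 : 0 ≤ D) (hD2 : D * (1 / 13824) ^ 41 ≤ 1 / 1000) (ht : t ≤ -24) :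
    0 ≤ D * zL t ^ 41 ∧ D * zL t ^ 41 ≤ 1 / 1000 := by
  have h1 := zL_pos t (by linarith)
  have h2 : zL t ^ 41 ≤ (1 / 13824) ^ 41 := pow_le_pow_left₀ h1.le (zL_le t ht) 41
  constructor
  · positivity
  · exact le_trans (mul_le_mul_of_nonneg_left h2 hD0) hD2

theorem bracket40 (Y z e : ℝ) (hY : |Y - 1| ≤ 1 / 10000) (hz : z ≤ 1 / 13824)
    (he : |e| ≤ 1 / 1000) :
    1 - 3 * Y ^ 2 + 60515 / 4 * z - 3 * Y * e - e ^ 2 ≤ -(9 / 10) := by
  have h1 := abs_le.1 hY
  have h2 := abs_le.1 he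
  have h3 : (9998 / 10000 : ℝ) ≤ Y ^ 2 := by nlinarith [h1.1]
  have h4 : -(Y * e) ≤ 2 / 1000 := by
    have h5 : |Y * e| ≤ 2 * (1 / 1000) := by
      rw [abs_mul]
      apply mul_le_mul _ he (abs_nonneg _) (by norm_num)
      rw [abs_le]; constructor <;> linarith [h1.1, h1.2]
    have := neg_abs_le (Y * e)
    linarith
  have h5 := sq_nonneg e
  nlinarith

theorem gL_near (κ t : ℝ) (hκ : |κ| * (1 / 13824) ^ 41 ≤ 1 / 1000) (ht : t ≤ -24) :
    |gL κ (zL t) - 1| ≤ 1 / 500 := by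
  have h1 := cY40_near _ (zL_y t ht).1 (zL_y t ht).2
  have h2 := Dz40_le |κ| t (abs_nonneg κ) hκ ht
  have h3 := zL_pos t (by linarith)
  have h4 : |κ * zL t ^ 41| ≤ 1 / 1000 := by
    rw [abs_mul, abs_of_nonneg (pow_nonneg h3.le 41)]
    exact h2.2
  rw [gL]
  have h5 : |ev cY40 (zL t / 16) + κ * zL t ^ 41 - 1| ≤
      |ev cY40 (zL t / 16) - 1| + |κ * zL t ^ 41| := by
    have e : ev cY40 (zL t / 16) + κ * zL t ^ 41 - 1 =
      (ev cY40 (zL t / 16) - 1) + κ * zL t ^ 41 := by ring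
    rw [e]
    exact abs_add_le _ _
  linarith

theorem QL_pos (κ t : ℝ) (hκ : |κ| * (1 / 13824) ^ 41 ≤ 1 / 1000) (ht : t ≤ -24) :
    0 < QL κ t := by
  have h1 := abs_le.1 (gL_near κ t hκ ht)
  rw [QL]
  exact mul_pos (Real.sqrt_pos.2 (by linarith)) (by linarith [h1.1])

/-- **H3 (a)**, supersolution -/
theorem QL_super (D t : ℝ) (hD1 : 36 * 10 ^ 120 ≤ D) (hD2 : D * (1 / 13824) ^ 41 ≤ 1 / 1000)
    (ht : t ≤ -24) : QL2 D t < t * QL D t + 2 * QL D t ^ 3 := by
  have hD0 : 0 ≤ D := le_trans (by norm_num) hD1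
  have hz := zL_pos t (by linarith)
  have hz41 : 0 < zL t ^ 41 := pow_pos hz 41
  have h1 := QL_defect D t (by linarith)
  have h2 := defY40_le _ (zL_y t ht).1 (zL_y t ht).2
  have e1 : 16 * (zL t / 16) = zL t := by ring
  rw [e1] at h2
  have h3 := Dz40_le D t hD0 hD2 ht
  have h4 := bracket40 (ev cY40 (zL t / 16)) (zL t) (D * zL t ^ 41)
    (cY40_near _ (zL_y t ht).1 (zL_y t ht).2) (zL_le t ht)
    (by rw [abs_of_nonneg h3.1]; exact h3.2)
  have h5 := mul_le_mul_of_nonneg_left h4 h3.1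
  have h6 : 36 * 10 ^ 120 * zL t ^ 41 ≤ D * zL t ^ 41 := mul_le_mul_of_nonneg_right hD1 hz41.le
  have h7 := le_abs_self (ev (defY cY40) (zL t / 16))
  have h8 : ev (defY cY40) (zL t / 16) + D * zL t ^ 41 *
        (1 - 3 * ev cY40 (zL t / 16) ^ 2 + 60515 / 4 * zL t
          - 3 * ev cY40 (zL t / 16) * (D * zL t ^ 41) - (D * zL t ^ 41) ^ 2) < 0 := by
    have h9 : (236 * 10 ^ 119 : ℝ) * zL t ^ 41 < 9 / 10 * (36 * 10 ^ 120 * zL t ^ 41) := by
      have h10 : (236 * 10 ^ 119 : ℝ) < 9 / 10 * (36 * 10 ^ 120) := by norm_num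
      have h11 := mul_lt_mul_of_pos_right h10 hz41
      linarith
    linarith
  have h9 : 0 < Real.sqrt (-t / 2) * (-t) :=
    mul_pos (Real.sqrt_pos.2 (by linarith)) (by linarith)
  have h10 := mul_neg_of_pos_of_neg h9 h8
  linarith

/-- **H3 (a)**, subsolution -/
theorem QL_sub (D t : ℝ) (hD1 : 36 * 10 ^ 120 ≤ D) (hD2 : D * (1 / 13824) ^ 41 ≤ 1 / 1000)
    (ht : t ≤ -24) : t * QL (-D) t + 2 * QL (-D) t ^ 3 < QL2 (-D) t := by
  have hD0 : 0 ≤ D := le_trans (by norm_num) hD1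
  have hz := zL_pos t (by linarith)
  have hz41 : 0 < zL t ^ 41 := pow_pos hz 41
  have h1 := QL_defect (-D) t (by linarith)
  have h2 := defY40_le _ (zL_y t ht).1 (zL_y t ht).2
  have e1 : 16 * (zL t / 16) = zL t := by ring
  rw [e1] at h2
  have h3 := Dz40_le D t hD0 hD2 ht
  have h4 := bracket40 (ev cY40 (zL t / 16)) (zL t) (-D * zL t ^ 41)
    (cY40_near _ (zL_y t ht).1 (zL_y t ht).2) (zL_le t ht)
    (by rw [neg_mul, abs_neg, abs_of_nonneg h3.1]; exact h3.2)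
  have h5 := mul_le_mul_of_nonneg_left h4 h3.1
  have h6 : 36 * 10 ^ 120 * zL t ^ 41 ≤ D * zL t ^ 41 := mul_le_mul_of_nonneg_right hD1 hz41.le
  have h7 := neg_abs_le (ev (defY cY40) (zL t / 16))
  have h8 : 0 < ev (defY cY40) (zL t / 16) + -D * zL t ^ 41 *
        (1 - 3 * ev cY40 (zL t / 16) ^ 2 + 60515 / 4 * zL t
          - 3 * ev cY40 (zL t / 16) * (-D * zL t ^ 41) - (-D * zL t ^ 41) ^ 2) := by
    have h9 : (236 * 10 ^ 119 : ℝ) * zL t ^ 41 < 9 / 10 * (36 * 10 ^ 120 * zL t ^ 41) := by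
      have h10 : (236 * 10 ^ 119 : ℝ) < 9 / 10 * (36 * 10 ^ 120) := by norm_num
      have h11 := mul_lt_mul_of_pos_right h10 hz41
      linarith
    have e2 : -D * zL t ^ 41 *
        (1 - 3 * ev cY40 (zL t / 16) ^ 2 + 60515 / 4 * zL t
          - 3 * ev cY40 (zL t / 16) * (-D * zL t ^ 41) - (-D * zL t ^ 41) ^ 2) =
        -(D * zL t ^ 41 *
        (1 - 3 * ev cY40 (zL t / 16) ^ 2 + 60515 / 4 * zL t
          - 3 * ev cY40 (zL t / 16) * (-D * zL t ^ 41) - (-D * zL t ^ 41) ^ 2)) := by ring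
    rw [e2]
    linarith
  have h9 : 0 < Real.sqrt (-t / 2) * (-t) :=
    mul_pos (Real.sqrt_pos.2 (by linarith)) (by linarith)
  have h10 := mul_pos h9 h8
  linarith

theorem tendsto_QL (κ : ℝ) : Tendsto (fun t => QL κ t / Real.sqrt (-t / 2)) atBot (𝓝 1) := by
  have h1 : Tendsto (fun t => gL κ (zL t)) atBot (𝓝 (gL κ 0)) :=
    ((hasDerivAt_gL κ 0).continuousAt.tendsto).comp tendsto_zL
  have h2 : gL κ 0 = 1 := by
    rw [gL, ev_head cY40, cY40_headD]
    simp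
  rw [h2] at h1
  refine h1.congr' ?_
  filter_upwards [eventually_lt_atBot (0 : ℝ)] with t ht
  rw [QL, mul_comm, mul_div_assoc, div_self (Real.sqrt_pos.2 (by linarith)).ne', mul_one]

theorem tail40_mono (u t : ℝ) (ht : t ≤ -24) (hut : u ≤ t) :
    Real.sqrt (-u / 2) * (-u) * zL u ^ 41 ≤ Real.sqrt (-t / 2) * (-t) * zL t ^ 41 := by
  have hx : 0 < -t := by linarith
  have hX : -t ≤ -u := by linarith
  have hX0 : 0 < -u := by linarith
  have h1 := sqrt_mono_aux (-t) (-u) hx hX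
  have e1 : zL u ^ 41 = 1 / (-u) ^ 123 := by rw [zL, div_pow, one_pow, ← pow_mul]
  have e2 : zL t ^ 41 = 1 / (-t) ^ 123 := by rw [zL, div_pow, one_pow, ← pow_mul]
  rw [e1, e2]
  have hs : 0 ≤ Real.sqrt (-t / 2) := Real.sqrt_nonneg _
  generalize Real.sqrt (-u / 2) = su at *
  generalize Real.sqrt (-t / 2) = st at *
  generalize -u = X at *
  generalize -t = x at *
  have h2 : x ^ 121 ≤ X ^ 121 := pow_le_pow_left₀ hx.le hX 121
  calc su * X * (1 / X ^ 123) ≤ (st * (X / x)) * X * (1 / X ^ 123) := by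
        apply mul_le_mul_of_nonneg_right _ (by positivity)
        exact mul_le_mul_of_nonneg_right h1 hX0.le
    _ = st / x * (1 / X ^ 121) := by field_simp
    _ ≤ st / x * (1 / x ^ 121) := by
        apply mul_le_mul_of_nonneg_left _ (by positivity)
        exact one_div_le_one_div_of_le (by positivity) h2
    _ = st * x * (1 / x ^ 123) := by field_simp

theorem tail40_mono0 (u t : ℝ) (ht : t ≤ -24) (hut : u ≤ t) :
    Real.sqrt (-u / 2) * zL u ^ 41 ≤ Real.sqrt (-t / 2) * zL t ^ 41 := by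
  have h1 := tail40_mono u t ht hut
  have hz := zL_pos u (by linarith)
  have h2 : Real.sqrt (-u / 2) * (-t) * zL u ^ 41 ≤ Real.sqrt (-u / 2) * (-u) * zL u ^ 41 := by
    apply mul_le_mul_of_nonneg_right _ (by positivity)
    exact mul_le_mul_of_nonneg_left (by linarith) (Real.sqrt_nonneg _)
  have h3 : (Real.sqrt (-u / 2) * zL u ^ 41) * (-t) ≤ (Real.sqrt (-t / 2) * zL t ^ 41) * (-t) := by
    linarith
  exact le_of_mul_le_mul_right h3 (by linarith)

/-- the second derivative of the error -/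
theorem err240 {q : ℝ → ℝ} (D t : ℝ) (hD1 : 36 * 10 ^ 120 ≤ D)
    (hD2 : D * (1 / 13824) ^ 41 ≤ 1 / 1000) (ht : t ≤ -24)
    (hB : |q t / Real.sqrt (-t / 2) - ev cY40 (zL t / 16)| ≤ D * zL t ^ 41) :
    |q t - QL 0 t| ≤ D * (Real.sqrt (-t / 2) * zL t ^ 41) ∧
    |(t * q t + 2 * q t ^ 3) - QL2 0 t| ≤
      13 / 4 * (D * (Real.sqrt (-t / 2) * (-t) * zL t ^ 41)) := by
  have hD0 : 0 ≤ D := le_trans (by norm_num) hD1
  have hs : 0 < Real.sqrt (-t / 2) := Real.sqrt_pos.2 (by linarith)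
  have hss : Real.sqrt (-t / 2) ^ 2 = -t / 2 := Real.sq_sqrt (by linarith)
  have hz := zL_pos t (by linarith)
  have hz41 : 0 < zL t ^ 41 := pow_pos hz 41
  have hdef := defY40_le _ (zL_y t ht).1 (zL_y t ht).2
  have e1 : 16 * (zL t / 16) = zL t := by ring
  rw [e1] at hdef
  have hDz := Dz40_le D t hD0 hD2 ht
  have hY := abs_le.1 (cY40_near _ (zL_y t ht).1 (zL_y t ht).2)
  have hid := QL_defect 0 t (by linarith)
  have hP0 : QL 0 t = Real.sqrt (-t / 2) * ev cY40 (zL t / 16) := by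
    rw [QL, gL]; ring
  set s := Real.sqrt (-t / 2) with hsdef
  set Y0 := ev cY40 (zL t / 16) with hY0
  set η := q t / s - Y0 with hη
  have hq : q t = s * (Y0 + η) := by
    rw [hη]; field_simp; ring
  have hηz : |η| ≤ 1 / 1000 := le_trans hB hDz.2
  have hη2 := abs_le.1 hηz
  have hdiff : q t - QL 0 t = s * η := by rw [hq, hP0]; ring
  constructor
  · rw [hdiff, abs_mul, abs_of_pos hs]
    calc s * |η| ≤ s * (D * zL t ^ 41) := mul_le_mul_of_nonneg_left hB hs.le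
      _ = D * (s * zL t ^ 41) := by ring
  · have h1 : (t * q t + 2 * q t ^ 3) - QL2 0 t =
        s * (-t) * (η * ((Y0 + η) ^ 2 + (Y0 + η) * Y0 + Y0 ^ 2 - 1)) -
          s * (-t) * ev (defY cY40) (zL t / 16) := by
      have h2 : QL2 0 t = t * QL 0 t + 2 * QL 0 t ^ 3 +
          s * (-t) * ev (defY cY40) (zL t / 16) := by
        have h3 : s * (-t) * (ev (defY cY40) (zL t / 16) + 0 * zL t ^ 41 *
          (1 - 3 * Y0 ^ 2 + 60515 / 4 * zL t - 3 * Y0 * (0 * zL t ^ 41) - (0 * zL t ^ 41) ^ 2)) =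
            s * (-t) * ev (defY cY40) (zL t / 16) := by ring
        rw [h3] at hid
        linarith
      rw [h2, hP0, hq]
      have e3 : (s * (Y0 + η)) ^ 3 = s * (-t / 2) * (Y0 + η) ^ 3 := by
        rw [mul_pow, pow_succ, hss]; ring
      have e4 : (s * Y0) ^ 3 = s * (-t / 2) * Y0 ^ 3 := by
        rw [mul_pow, pow_succ, hss]; ring
      rw [e3, e4]
      ring
    rw [h1]
    have hst : 0 < s * (-t) := mul_pos hs (by linarith)
    have h4 : |(Y0 + η) ^ 2 + (Y0 + η) * Y0 + Y0 ^ 2 - 1| ≤ 201 / 100 := by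
      have a1 : 9998 / 10000 ≤ Y0 ^ 2 := by nlinarith [hY.1]
      have a2 : Y0 ^ 2 ≤ 10003 / 10000 := by nlinarith [hY.1, hY.2]
      have a3 : |Y0 * η| ≤ 1001 / 1000 * (1 / 1000) := by
        rw [abs_mul]
        apply mul_le_mul _ hηz (abs_nonneg _) (by norm_num)
        rw [abs_le]; constructor <;> linarith [hY.1, hY.2]
      have a4 := abs_le.1 a3
      have a5 : η ^ 2 ≤ 1 / 1000000 := by nlinarith [hη2.1, hη2.2]
      have a6 := sq_nonneg η
      rw [abs_le]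
      constructor
      · nlinarith [a4.1]
      · nlinarith [a4.2]
    have h5 : |s * (-t) * (η * ((Y0 + η) ^ 2 + (Y0 + η) * Y0 + Y0 ^ 2 - 1))| ≤
        s * (-t) * (D * zL t ^ 41 * (201 / 100)) := by
      rw [abs_mul, abs_of_pos hst, abs_mul]
      apply mul_le_mul_of_nonneg_left _ hst.le
      exact mul_le_mul hB h4 (abs_nonneg _) hDz.1
    have h6 : |s * (-t) * ev (defY cY40) (zL t / 16)| ≤ s * (-t) * (D * zL t ^ 41 * (121 / 100)) := by
      rw [abs_mul, abs_of_pos hst]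
      apply mul_le_mul_of_nonneg_left _ hst.le
      refine le_trans hdef ?_
      have h7 : (236 * 10 ^ 119 : ℝ) ≤ D * (121 / 100) := by
        have : (236 * 10 ^ 119 : ℝ) ≤ 36 * 10 ^ 120 * (121 / 100) := by norm_num
        linarith
      have h8 := mul_le_mul_of_nonneg_right h7 hz41.le
      linarith
    have h7 := abs_sub (s * (-t) * (η * ((Y0 + η) ^ 2 + (Y0 + η) * Y0 + Y0 ^ 2 - 1)))
      (s * (-t) * ev (defY cY40) (zL t / 16))
    have h8 : 0 ≤ s * (-t) * (D * zL t ^ 41) := mul_nonneg hst.le hDz.1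
    nlinarith

/-- **H3 (b)**: the derivative `δ (q/√(-t/2)) - δ Y_40`, `δ = t d/dt`. -/
theorem H3b40 {q p : ℝ → ℝ} (hq : ∀ t, HasDerivAt q (p t) t)
    (hp : ∀ t, HasDerivAt p (t * q t + 2 * q t ^ 3) t) (D T : ℝ) (hT : T ≤ -24)
    (hD1 : 36 * 10 ^ 120 ≤ D) (hD2 : D * (1 / 13824) ^ 41 ≤ 1 / 1000)
    (hB : ∀ t, t ≤ T → |q t / Real.sqrt (-t / 2) - ev cY40 (zL t / 16)| ≤ D * zL t ^ 41) :
    ∀ t, t ≤ T → |t * p t / Real.sqrt (-t / 2) - q t / Real.sqrt (-t / 2) / 2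
        + 3 * (zL t / 16 * dv cY40 (zL t / 16))| ≤
      6 * (D * zL t ^ 41) * ((-t) * Real.sqrt (-t)) := by
  intro t htT
  have ht : t ≤ -24 := le_trans htT hT
  have hD0 : 0 ≤ D := le_trans (by norm_num) hD1
  have hs : 0 < Real.sqrt (-t / 2) := Real.sqrt_pos.2 (by linarith)
  have hz := zL_pos t (by linarith)
  have hr : 4 ≤ Real.sqrt (-t) := Real.le_sqrt_of_sq_le (by linarith)
  have hr0 : 0 < Real.sqrt (-t) := by linarith
  have hrr : Real.sqrt (-t) * Real.sqrt (-t) = -t := Real.mul_self_sqrt (by linarith)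
  set r := Real.sqrt (-t) with hrdef
  set s := Real.sqrt (-t / 2) with hsdef
  set e : ℝ → ℝ := fun u => q u - QL 0 u with he
  set e1 : ℝ → ℝ := fun u => p u - QL1 0 u with he1
  have hed : ∀ u, u < 0 → HasDerivAt e (e1 u) u := fun u hu => (hq u).sub (hasDerivAt_QL 0 u hu)
  have hed1 : ∀ u, u < 0 → HasDerivAt e1 ((u * q u + 2 * q u ^ 3) - QL2 0 u) u :=
    fun u hu => (hp u).sub (hasDerivAt_QL1 0 u hu)
  set M0 := D * (s * zL t ^ 41) with hM0
  set M2 := 13 / 4 * (D * (s * (-t) * zL t ^ 41)) with hM2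
  have hM0' : 0 ≤ M0 := by positivity
  have hb0 : ∀ u, u ≤ t → |e u| ≤ M0 := by
    intro u hu
    have h1 := (err240 D u hD1 hD2 (le_trans hu ht) (hB u (le_trans hu htT))).1
    refine le_trans h1 ?_
    exact mul_le_mul_of_nonneg_left (tail40_mono0 u t ht hu) hD0
  have hb2 : ∀ u, u ≤ t → |(u * q u + 2 * q u ^ 3) - QL2 0 u| ≤ M2 := by
    intro u hu
    have h1 := (err240 D u hD1 hD2 (le_trans hu ht) (hB u (le_trans hu htT))).2
    refine le_trans h1 ?_
    have h2 := mul_le_mul_of_nonneg_left (tail40_mono u t ht hu) hD0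
    linarith
  -- mean value theorem twice
  have hlt : t - 1 / r < t := by
    have : 0 < 1 / r := by positivity
    linarith
  obtain ⟨ξ, hξ, hξe⟩ := exists_hasDerivAt_eq_slope e e1 hlt
    (fun u hu => (hed u (by have := hu.2; linarith)).continuousAt.continuousWithinAt)
    (fun u hu => hed u (by have := hu.2; linarith))
  obtain ⟨ζ, hζ, hζe⟩ := exists_hasDerivAt_eq_slope e1
    (fun u => (u * q u + 2 * q u ^ 3) - QL2 0 u) hξ.2
    (fun u hu => (hed1 u (by have := hu.2; linarith)).continuousAt.continuousWithinAt)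
    (fun u hu => hed1 u (by have := hu.2; linarith))
  have h1 : |e1 ξ| ≤ 2 * M0 * r := by
    rw [hξe]
    have e2 : t - (t - 1 / r) = 1 / r := by ring
    rw [e2, div_div_eq_mul_div, div_one, abs_mul, abs_of_pos hr0]
    apply mul_le_mul_of_nonneg_right _ hr0.le
    have h2 := hb0 t le_rfl
    have h3 := hb0 (t - 1 / r) hlt.le
    have h4 := abs_sub (e t) (e (t - 1 / r))
    linarith
  have h2 : |e1 t - e1 ξ| ≤ M2 / r := by
    have h3 : e1 t - e1 ξ = ((ζ * q ζ + 2 * q ζ ^ 3) - QL2 0 ζ) * (t - ξ) := by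
      rw [hζe]
      have : t - ξ ≠ 0 := by have := hξ.2; linarith
      field_simp
    have h4 := hb2 ζ hζ.2.le
    have h5 : t - ξ ≤ 1 / r := by have := hξ.1; linarith
    have h6 : 0 < t - ξ := by have := hξ.2; linarith
    rw [h3, abs_mul, abs_of_pos h6, div_eq_mul_one_div]
    exact mul_le_mul h4 h5 h6.le (le_trans (abs_nonneg _) h4)
  have h3 : |e1 t| ≤ 21 / 4 * (D * (s * zL t ^ 41)) * r := by
    have h4 : e1 t = e1 ξ + (e1 t - e1 ξ) := by ring
    have h5 := abs_add_le (e1 ξ) (e1 t - e1 ξ)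
    rw [← h4] at h5
    have h6 : M2 / r = 13 / 4 * (D * (s * zL t ^ 41)) * r := by
      rw [hM2, ← hrr]
      field_simp
    rw [h6] at h2
    rw [hM0] at h1
    linarith
  -- conclusion
  have hst : s ≠ 0 := hs.ne'
  have hkey : t * p t / s - q t / s / 2 + 3 * (zL t / 16 * dv cY40 (zL t / 16)) =
      t * e1 t / s - e t / s / 2 := by
    simp only [he, he1, QL, QL1, gL, gL1]
    rw [← hsdef]
    have ht0 : t ≠ 0 := by linarith
    field_simp
    ring
  rw [hkey]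
  have h4 := abs_sub (t * e1 t / s) (e t / s / 2)
  have h5 : |t * e1 t / s| ≤ (-t) * (21 / 4 * (D * zL t ^ 41) * r) := by
    rw [abs_div, abs_mul, abs_of_pos hs, abs_of_neg (by linarith : t < 0), div_le_iff₀ hs]
    calc -t * |e1 t| ≤ -t * (21 / 4 * (D * (s * zL t ^ 41)) * r) :=
          mul_le_mul_of_nonneg_left h3 (by linarith)
      _ = (-t) * (21 / 4 * (D * zL t ^ 41) * r) * s := by ring
  have h6 : |e t / s / 2| ≤ D * zL t ^ 41 / 2 := by
    rw [abs_div, abs_div, abs_of_pos hs, abs_of_pos (by norm_num : (0 : ℝ) < 2)]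
    apply div_le_div_of_nonneg_right _ (by norm_num)
    rw [div_le_iff₀ hs]
    have h7 := hb0 t le_rfl
    rw [hM0] at h7
    linarith
  have h7 : 0 ≤ D * zL t ^ 41 := by positivity
  have h8 : 1 ≤ (-t) * r := by nlinarith
  nlinarith

/-- `6 |16^41 Y_41|` -/
def dY40 : ℤ := 6 * 275065565766947702487860477894593965113463348189379378524074632172547415287460407944801557227277073682024445222548237484796289107888967255342531012379038056354066691052072

/-- the real `D` with `D z^41 = dY40 (z/16)^41` -/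
noncomputable def DY40 : ℝ := (dY40 : ℝ) / 16 ^ 41

theorem DY40_ge : 36 * 10 ^ 120 ≤ DY40 := by
  rw [DY40, le_div_iff₀ (by positivity)]
  have h : (36 * 10 ^ 120 * 16 ^ 41 : ℤ) ≤ dY40 := by decide +kernel
  exact_mod_cast h

theorem DY40_le : DY40 * (1 / 13824) ^ 41 ≤ 1 / 1000 := by
  rw [DY40, div_pow, one_pow, div_mul_div_comm, mul_one, div_le_div_iff₀ (by positivity) (by norm_num)]
  have h : (dY40 * 1000 : ℤ) ≤ 1 * (16 ^ 41 * 13824 ^ 41) := by decide +kernel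
  exact_mod_cast h

theorem cY40_length : cY40.length = 41 := by decide +kernel

/-- the barrier with the integer lists -/
theorem gL_list (s : ℤ) (z : ℝ) :
    gL (s * DY40) z = ev (cY40 ++ [s * dY40]) (z / 16) := by
  rw [gL, ev_append, cY40_length]
  simp only [ev_cons, ev_nil, DY40]
  push_cast
  rw [div_pow]
  ring

theorem QL_list (s : ℤ) (t : ℝ) :
    QL (s * DY40) t = Real.sqrt (-t / 2) * ev (cY40 ++ [s * dY40]) (zL t / 16) := by
  rw [QL, gL_list]

/-- values at `t = -49/2`: `zL = 8/117649`, `√(-t/2) = 7/2` -/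
theorem zL_left : zL (-49 / 2) = 8 / 117649 := by
  rw [zL]; norm_num

theorem sqrt_left : Real.sqrt (-(-49 / 2) / 2) = 7 / 2 := by
  rw [Real.sqrt_eq_iff_mul_self_eq (by norm_num) (by norm_num)]
  norm_num

theorem z_gL1 (s : ℤ) (z : ℝ) :
    z * gL1 (s * DY40) z = ev (thL 0 (cY40 ++ [s * dY40])) (z / 16) := by
  have h1 : HasDerivAt (gL (s * DY40)) (gL1 (s * DY40) z) z := hasDerivAt_gL _ z
  have e : gL (s * DY40) = fun z => ev (cY40 ++ [s * dY40]) (z / 16) := by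
    funext w; exact gL_list s w
  rw [e] at h1
  have h2 := h1.unique (hasDerivAt_ev16 _ z)
  rw [h2, ev_thL]
  push_cast
  ring

/-- `Q(-49/2) = (7/2) W`, `Q'(-49/2) = -(1/7) (W/2 - 3 θW)` -/
theorem QL_left (s : ℤ) :
    QL (s * DY40) (-49 / 2) = 7 / 2 * ev (cY40 ++ [s * dY40]) (1 / 235298) ∧
    QL1 (s * DY40) (-49 / 2) = -(1 / 7) * (ev (cY40 ++ [s * dY40]) (1 / 235298) / 2
      - 3 * ev (thL 0 (cY40 ++ [s * dY40])) (1 / 235298)) := by
  have hz : (8 / 117649 : ℝ) / 16 = 1 / 235298 := by norm_num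
  constructor
  · rw [QL_list, zL_left, sqrt_left, hz]
  · rw [QL1, zL_left, sqrt_left, z_gL1, gL_list, hz]
    ring

end Pool.Agent.TWP.Tail
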