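import Mathlib
import Pool.Agent.TWP.TRight

/-!
# TWP, tails (helper66): H2 with K = 60, the right tail

`S_60(z) = ev cS60 (z/8)`, `8^n S_n = cS60_n`; error `2 * 10^74 z^61` (2.5e-54 at `t = 25`).
-/

set_option autoImplicit false

namespace Pool.Agent.TWP.Tail

open Filter Topology Set MeasureTheory

/-- `8^n S_n`, `n = 0, ..., 60`, where `z (δ + 1/2) S = S^2 - 1`, `δ = -(3/2) z d/dz` -/
def cS60 : List ℤ :=
  [1, 2, -10, 120, -2210, 54240, -1656500, 60441600, -2564063050, 123998092800, -6733922487500,
   405806442240000, -26875761111700500, 1940434167238656000, -151699001017999425000,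
   12766967977624780800000, -1150880303065351372556250, 110637525921313445560320000,
   -11298602988357702344609937500, 1221536761041308949258240000000,
   -139385199693084109215623057837500, 16740143453839624897719297638400000,
   -2110833053467918096218188765060375000, 278817731499631290639064051482624000000,
   -38500370499521043468671613930986414562500, 5547142717635398674399519153613438976000000,
   -832495808707431398240395880304710512796875000,
   129930210846124712233389857700442684784640000000,
   -21057790186626506915560015361046583074241840625000,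
   3539122970008433903588464878764224610492743680000000,
   -616035797326247114407589691514691740481445520781250000,
   110924706731618035587472274856598684043933908992000000000,
   -20638635968451894094469729999513909792597319624911322656250,
   3963810529397415467230686528994384340087753579220172800000000,
   -785055781621630216282583777922718754263132704144232747148437500,
   160193780393049133058460255891663817807459459475806617600000000000,
   -33649073040365906137489663928628388476492094764828300712485117187500,
   7269906034898569267984259345811849309820173250475581495050240000000000,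
   -1614276846856328391080824657138294789638513046212026217286334898046875000,
   368132262856058293947177022982380052932628713153283887328133120000000000000,
   -86160049332298507990740487877535979952651002265645929422110715358698867187500,
   20682305093935492464817109037137804012652006306647075267485720305991680000000000,
   -5088756859486078908747453264557943891990050252365211000097270364223232331640625000,
   1282584806602998849187998764351545629471628584266685186857548771553496268800000000000,
   -330960463157449870870301052039555813016950568194776484983768530936506072516005859375000,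
   87387049885444232501042580821466928647253468430025144834489797020543156538572800000000000,
   -23597979522181145841278300444694515758850594658512344812080427442179263212586808105468750000,
   6513959085084614938400897300925917319367432454102874203061284891275015000562860032000000000000,
   -1837183739186519753781717471727178940161147573131228944987207471380040714852960041998461914062500,
   529177101810115197269714443689082791113955360600100219768311031758303864946942543921152000000000000,
   -155597278978230428955532007541741312029264694835526034833432099730326344342726387260231618896484375000,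
   46684711771209158024773638220679277817875645016895812442702398408902479209519785902604288000000000000000,
   -14287145734950821027477349299810587460336297365517537040502922751782962347781140110241098281484208984375000,
   4458076269719381785062067188083323992973272187407993995638452434907881665815950782375480472371200000000000000,
   -1417817103477376881398485301224557281672981801241258169580190956145682796717563943475234771473380626464843750000,
   459419149367689558051654520761014249290165158075924058454526126449650466121107885138936326667632640000000000000000,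
   -151623066833752080287717013931162327699680377699065693557662339800684062428356425431209618455192713891792236328125000,
   50950125501349291337875080118505921588616716305049548664734026714490194546187499332783240814381777289216000000000000000,
   -17426517684578403962137524606012931298605477815753437419797283744428779854724765921579964171045379237947921853027343750000,
   6064956950866925336455245889921931267240390005971553884602577858064704687112465586329533452081977622947430400000000000000000,
   -2147175502466488999725543980325691369148638524777482555635747702482498259426491978062538989223718417631107644666398925781250000]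

def dS60 : ℤ := 2 * 10 ^ 74 * 8 ^ 61

def cSp60 : List ℤ := cS60 ++ [dS60]
def cSm60 : List ℤ := cS60 ++ [-dS60]

theorem cSp60_zero : ∀ a ∈ (defS cSp60).take 61, a = 0 := by decide +kernel
theorem cSm60_zero : ∀ a ∈ (defS cSm60).take 61, a = 0 := by decide +kernel
theorem cSp60_head : 10 ^ 70 * 8 ^ 61 ≤ ((defS cSp60).drop 61).headD 0 := by decide +kernel
theorem cSp60_tail : 1 * nb 1000 ((defS cSp60).drop 61).tail.tail ≤
    ((defS cSp60).drop 61).tail.headD 0 * 1000 ^ ((defS cSp60).drop 61).tail.tail.length := by
  decide +kernel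
theorem cSm60_tail : 1 * nb 1000 ((defS cSm60).drop 61).tail ≤
    (-(((defS cSm60).drop 61).headD 0)) * 1000 ^ ((defS cSm60).drop 61).tail.length := by
  decide +kernel
theorem cSp60_norm : 4 * nb 1000 cSp60.tail ≤ 1 * 1000 ^ cSp60.tail.length := by decide +kernel
theorem cSm60_norm : 4 * nb 1000 cSm60.tail ≤ 1 * 1000 ^ cSm60.tail.length := by decide +kernel
theorem cSp60_headD : cSp60.headD 0 = 1 := by decide +kernel
theorem cSm60_headD : cSm60.headD 0 = 1 := by decide +kernel
theorem cS60_length : cS60.length = 61 := by decide +kernel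

theorem defSp60_ge (y : ℝ) (hy0 : 0 ≤ y) (hy : y * 1000 ≤ 1) :
    10 ^ 70 * ((8 : ℝ) ^ 61 * y ^ 61) ≤ ev (defS cSp60) y := by
  rw [ev_split 61, ev_zeros _ _ cSp60_zero, zero_add, ev_head ((defS cSp60).drop 61),
    ev_head ((defS cSp60).drop 61).tail]
  have h1 := y_ev_le 1000 (by norm_num) 1 _ (by norm_num) _ cSp60_tail y hy0 (by exact_mod_cast hy)
  have h2 : (10 : ℝ) ^ 70 * ((8 : ℝ) ^ 61) ≤ (((defS cSp60).drop 61).headD 0 : ℤ) := by
    exact_mod_cast cSp60_head
  have h3 := neg_abs_le (y * ev ((defS cSp60).drop 61).tail.tail y)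
  have h4 : (0 : ℝ) ≤ (((defS cSp60).drop 61).tail.headD 0 : ℤ)
      + y * ev ((defS cSp60).drop 61).tail.tail y := by
    push_cast at h1
    linarith
  have h5 := mul_nonneg hy0 h4
  have h6 : (0 : ℝ) ≤ y ^ 61 := pow_nonneg hy0 _
  have e : (10 : ℝ) ^ 70 * (8 ^ 61 * y ^ 61) = y ^ 61 * (10 ^ 70 * 8 ^ 61) := by ring
  rw [e]
  exact mul_le_mul_of_nonneg_left (by linarith) h6

theorem defSm60_le (y : ℝ) (hy0 : 0 ≤ y) (hy : y * 1000 ≤ 1) : ev (defS cSm60) y ≤ 0 := by
  rw [ev_split 61, ev_zeros _ _ cSm60_zero, zero_add, ev_head ((defS cSm60).drop 61)]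
  have h1 := y_ev_le 1000 (by norm_num) 1 _ (by norm_num) _ cSm60_tail y hy0 (by exact_mod_cast hy)
  have h3 := le_abs_self (y * ev ((defS cSm60).drop 61).tail y)
  have h4 : (((defS cSm60).drop 61).headD 0 : ℤ) + y * ev ((defS cSm60).drop 61).tail y ≤ (0 : ℝ) := by
    push_cast at h1
    linarith
  have h6 : (0 : ℝ) ≤ y ^ 61 := pow_nonneg hy0 _
  exact mul_nonpos_of_nonneg_of_nonpos h6 h4

theorem cSp60_near (y : ℝ) (hy0 : 0 ≤ y) (hy : y * 1000 ≤ 1) : |ev cSp60 y - 1| ≤ 1 / 4 := by
  rw [ev_head cSp60, cSp60_headD]
  have h1 := y_ev_le 1000 (by norm_num) 4 _ (by norm_num) _ cSp60_norm y hy0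
    (by exact_mod_cast hy)
  push_cast at h1 ⊢
  rw [add_sub_cancel_left]
  linarith

theorem cSm60_near (y : ℝ) (hy0 : 0 ≤ y) (hy : y * 1000 ≤ 1) : |ev cSm60 y - 1| ≤ 1 / 4 := by
  rw [ev_head cSm60, cSm60_headD]
  have h1 := y_ev_le 1000 (by norm_num) 4 _ (by norm_num) _ cSm60_norm y hy0
    (by exact_mod_cast hy)
  push_cast at h1 ⊢
  rw [add_sub_cancel_left]
  linarith

/-- `2 q^2 ≤ t 10^70 z^61` for `t ≥ 25` -/
theorem small_q60 {q : ℝ → ℝ} (hpos : ∀ t, 0 < q t)
    (h : ∀ t, 1 ≤ t → q t ≤ Real.exp (-(2 / 3) * (t * Real.sqrt t))) (t : ℝ) (ht : 25 ≤ t) :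
    2 * q t ^ 2 ≤ t * (10 ^ 70 * zR t ^ 61) := by
  have hs : 5 ≤ Real.sqrt t := by
    apply Real.le_sqrt_of_sq_le; norm_num; exact ht
  set u := t * Real.sqrt t with hu
  have hu1 : 125 ≤ u := by rw [hu]; nlinarith
  have h1 : q t ^ 2 ≤ Real.exp (-(4 / 3) * u) := by
    have h2 := h t (by linarith)
    have h3 : q t ^ 2 ≤ Real.exp (-(2 / 3) * u) ^ 2 := pow_le_pow_left₀ (hpos t).le h2 2
    rw [← Real.exp_nat_mul] at h3
    have e : ((2 : ℕ) : ℝ) * (-(2 / 3) * u) = -(4 / 3) * u := by push_cast; ring
    rwa [e] at h3
  -- u / 10 ≤ exp ((4/183) u)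
  have h2 : u / 10 ≤ Real.exp (4 / 183 * u) := by
    have h3 : (12 : ℝ) ≤ Real.exp (5 / 2) := by
      have h4 := Real.exp_one_gt_d9
      have h5 : Real.exp (5 / 2) ^ 2 = Real.exp 1 ^ 5 := by
        rw [← Real.exp_nat_mul, ← Real.exp_nat_mul]; norm_num
      have h6 : (2.7182818283 : ℝ) ^ 5 ≤ Real.exp 1 ^ 5 :=
        pow_le_pow_left₀ (by norm_num) h4.le 5
      have h7 : (12 : ℝ) ^ 2 ≤ Real.exp (5 / 2) ^ 2 := by
        rw [h5]
        refine le_trans ?_ h6
        norm_num
      exact le_of_pow_le_pow_left₀ (by norm_num) (Real.exp_pos _).le h7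
    have h4 : Real.exp (4 / 183 * u) = Real.exp (5 / 2) * Real.exp (4 / 183 * u - 5 / 2) := by
      rw [← Real.exp_add]; congr 1; ring
    have h5 := Real.add_one_le_exp (4 / 183 * u - 5 / 2)
    rw [h4]
    have h6 : 12 * (4 / 183 * u - 5 / 2 + 1) ≤ Real.exp (5 / 2) * Real.exp (4 / 183 * u - 5 / 2) := by
      apply mul_le_mul h3 h5 (by linarith) (Real.exp_pos _).le
    linarith
  have h3 : u ^ 61 ≤ 10 ^ 70 * Real.exp (4 / 3 * u) := by
    have h4 : (u / 10) ^ 61 ≤ Real.exp (4 / 183 * u) ^ 61 := pow_le_pow_left₀ (by linarith) h2 61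
    rw [← Real.exp_nat_mul] at h4
    have e : ((61 : ℕ) : ℝ) * (4 / 183 * u) = 4 / 3 * u := by push_cast; ring
    rw [e, div_pow, div_le_iff₀ (by positivity)] at h4
    have h5 := Real.exp_pos (4 / 3 * u)
    nlinarith
  have h4 : zR t = 1 / u := rfl
  rw [h4, div_pow, one_pow]
  have h5 : Real.exp (-(4 / 3) * u) ≤ 10 ^ 70 * (1 / u ^ 61) := by
    rw [neg_mul, Real.exp_neg, ← one_div, mul_one_div, div_le_div_iff₀ (Real.exp_pos _) (by positivity)]
    linarith
  have h6 : (0 : ℝ) ≤ 10 ^ 70 * (1 / u ^ 61) := by positivity
  nlinarith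

/-- **H2**, the right tail, `K = 60`. -/
theorem H2_60 {q p : ℝ → ℝ} {C : ℝ}
    (hq : ∀ t, HasDerivAt q (p t) t) (hp : ∀ t, HasDerivAt p (t * q t + 2 * q t ^ 3) t)
    (hpos : ∀ t, 0 < q t) (hC : ∀ t, 1 ≤ t → |q t| ≤ C ∧ |p t| ≤ C) (h1 : q 1 ≤ 1 / 2) :
    ∀ t, 25 ≤ t →
      |p t / q t / (-Real.sqrt t) - ev cS60 (zR t / 8)| ≤ 2 * 10 ^ 74 * zR t ^ 61 := by
  have hC' : ∀ t, 25 ≤ t → |q t| ≤ C ∧ |p t| ≤ C := fun t ht => hC t (by linarith)
  have hH1 := H1 hq hp hpos hC h1
  have hq2 := small_q60 hpos (fun t ht => (hH1 t ht).2)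
  have hy : ∀ t, 25 ≤ t → 0 ≤ zR t / 8 ∧ zR t / 8 * 1000 ≤ 1 := by
    intro t ht
    have h2 := zR_pos t (by linarith)
    have h3 := zR_le t ht
    constructor <;> linarith
  have hA : ∀ (c : List ℤ), (∀ y : ℝ, 0 ≤ y → y * 1000 ≤ 1 → |ev c y - 1| ≤ 1 / 4) →
      ∀ t, 25 ≤ t → AR c t ≤ -1 ∧ -(2 * t) ≤ AR c t := by
    intro c hc t ht
    have h2 := hc _ (hy t ht).1 (hy t ht).2
    have h3 := abs_le.1 h2
    have hs : 5 ≤ Real.sqrt t := by
      apply Real.le_sqrt_of_sq_le; norm_num; exact ht
    have hst : Real.sqrt t ≤ t := by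
      rw [Real.sqrt_le_left (by linarith)]
      nlinarith
    rw [AR]
    constructor
    · nlinarith [h3.1]
    · nlinarith [h3.2]
  have hlow : ∀ t, 25 ≤ t → AR cSp60 t ≤ p t / q t := by
    apply ric_lower (T := 25) (by norm_num) hq hp hpos hC' (fun t ht => hasDerivAt_AR cSp60 t ht)
      (fun t ht => (hA cSp60 cSp60_near t ht).1) (fun t ht => (hA cSp60 cSp60_near t ht).2)
    intro t ht
    rw [AR_riccati cSp60 t (by linarith)]
    have h2 := defSp60_ge _ (hy t ht).1 (hy t ht).2
    have h3 := hq2 t ht
    have h4 : (8 : ℝ) ^ 61 * (zR t / 8) ^ 61 = zR t ^ 61 := by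
      rw [div_pow]; field_simp
    rw [h4] at h2
    have h5 : t * (10 ^ 70 * zR t ^ 61) ≤ t * ev (defS cSp60) (zR t / 8) :=
      mul_le_mul_of_nonneg_left h2 (by linarith)
    linarith
  have hupp : ∀ t, 25 ≤ t → p t / q t ≤ AR cSm60 t := by
    apply ric_upper (T := 25) (by norm_num) hq hp hpos hC' (fun t ht => hasDerivAt_AR cSm60 t ht)
      (fun t ht => (hA cSm60 cSm60_near t ht).1) (fun t ht => (hA cSm60 cSm60_near t ht).2)
    intro t ht
    rw [AR_riccati cSm60 t (by linarith)]
    have h2 := defSm60_le _ (hy t ht).1 (hy t ht).2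
    have h5 : t * ev (defS cSm60) (zR t / 8) ≤ 0 :=
      mul_nonpos_of_nonneg_of_nonpos (by linarith) h2
    have := sq_nonneg (q t)
    linarith
  intro t ht
  have hs : 0 < Real.sqrt t := Real.sqrt_pos.2 (by linarith)
  have e1 : AR cSp60 t = -(Real.sqrt t * (ev cS60 (zR t / 8) + 2 * 10 ^ 74 * zR t ^ 61)) := by
    rw [AR, cSp60, ev_append, cS60_length]
    simp only [ev_cons, ev_nil, dS60]
    push_cast
    rw [div_pow]
    ring
  have e2 : AR cSm60 t = -(Real.sqrt t * (ev cS60 (zR t / 8) - 2 * 10 ^ 74 * zR t ^ 61)) := by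
    rw [AR, cSm60, ev_append, cS60_length]
    simp only [ev_cons, ev_nil, dS60]
    push_cast
    rw [div_pow]
    ring
  have h2 := hlow t ht
  have h3 := hupp t ht
  rw [e1] at h2
  rw [e2] at h3
  rw [abs_le]
  have h4 : p t / q t / (-Real.sqrt t) = -(p t / q t) / Real.sqrt t := by
    rw [div_neg, neg_div]
  rw [h4]
  constructor
  · rw [le_sub_iff_add_le, le_div_iff₀ hs]
    linarith
  · rw [sub_le_iff_le_add, div_le_iff₀ hs]
    linarith

end Pool.Agent.TWP.Tail
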