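import Mathlib
import Pool.Agent.TWP.MTab
import Pool.Agent.TWP.TLeft40
import Pool.Agent.TWP.TRight60
import Pool.Agent.TWP.TLeftD

/-!
TWP, block H: the numbers at the two ends of the middle region.
-/

set_option autoImplicit false

namespace TWP.H

open Pool.Agent.TWP.Tail

/-- `Σ a_n M ^ (length - 1 - n)`. -/
def hz (M : ℤ) : List ℤ → ℤ
  | [] => 0
  | a :: l => a * M ^ l.length + hz M l

theorem ev_hz (M : ℤ) (hM : 0 < M) (l : List ℤ) :
    ev l (1 / (M : ℝ)) * (M : ℝ) ^ l.length = M * hz M l := by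
  have hM' : (0 : ℝ) < M := by exact_mod_cast hM
  induction l with
  | nil => simp [ev, hz]
  | cons a l ih =>
    rw [ev_cons, List.length_cons, hz, pow_succ]
    push_cast
    have h1 : (1 / (M : ℝ)) * M = 1 := by field_simp
    calc ((a : ℝ) + 1 / (M : ℝ) * ev l (1 / M)) * ((M : ℝ) ^ l.length * M)
        = (a : ℝ) * ((M : ℝ) ^ l.length * M) + (1 / (M : ℝ) * M) * (ev l (1 / M) * (M : ℝ) ^ l.length) := by
          ring
      _ = M * ((a : ℝ) * (M : ℝ) ^ l.length + hz M l) := by rw [h1, ih]; ring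

/-- Numerators at the left end. -/
def wz (s : ℤ) : ℤ := hz 235298 (cY40 ++ [s * dY40])

/-- Numerators at the left end. -/
def uz (s : ℤ) : ℤ := hz 235298 (thL 0 (cY40 ++ [s * dY40]))

theorem ev_w (s : ℤ) : ev (cY40 ++ [s * dY40]) (1 / 235298) = wz s / 235298 ^ 41 := by
  have h := ev_hz 235298 (by norm_num) (cY40 ++ [s * dY40])
  have hl : (cY40 ++ [s * dY40]).length = 42 := by
    rw [List.length_append, cY40_length]; rfl
  rw [hl] at h
  rw [eq_div_iff (by positivity)]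
  push_cast at h
  have h2 : ev (cY40 ++ [s * dY40]) (1 / 235298) * 235298 ^ 42 = 235298 * (wz s : ℝ) := h
  have h3 : (235298 : ℝ) * (ev (cY40 ++ [s * dY40]) (1 / 235298) * 235298 ^ 41) =
      235298 * (wz s : ℝ) := by rw [← h2]; ring
  exact mul_left_cancel₀ (by norm_num) h3

theorem thL_length (k : ℤ) (l : List ℤ) : (thL k l).length = l.length := by
  induction l generalizing k with
  | nil => rfl
  | cons a l ih => simp [thL, ih]

theorem ev_u (s : ℤ) : ev (thL 0 (cY40 ++ [s * dY40])) (1 / 235298) = uz s / 235298 ^ 41 := by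
  have h := ev_hz 235298 (by norm_num) (thL 0 (cY40 ++ [s * dY40]))
  have hl : (thL 0 (cY40 ++ [s * dY40])).length = 42 := by
    rw [thL_length, List.length_append, cY40_length]; rfl
  rw [hl] at h
  rw [eq_div_iff (by positivity)]
  push_cast at h
  have h2 : ev (thL 0 (cY40 ++ [s * dY40])) (1 / 235298) * 235298 ^ 42 = 235298 * (uz s : ℝ) := h
  have h3 : (235298 : ℝ) * (ev (thL 0 (cY40 ++ [s * dY40])) (1 / 235298) * 235298 ^ 41) =
      235298 * (uz s : ℝ) := by rw [← h2]; ring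
  exact mul_left_cancel₀ (by norm_num) h3

theorem num_V0 : 0 < nV 0 := by decide +kernel
theorem num_V0le : nV 0 * 10 ≤ 36 * 2 ^ 400 := by decide +kernel
theorem num_V198 : 0 < nV 198 := by decide +kernel
theorem num_p1 : 2 * 235298 ^ 41 * nV 0 * (2 * 10 ^ 49 + 1) ≤ 7 * wz 1 * 2 ^ 400 * (2 * 10 ^ 49) := by
  decide +kernel
theorem num_p2 : 7 * wz 1 * 2 ^ 400 * 10 ^ 50 ≤ 2 * 235298 ^ 41 * nV 0 * (10 ^ 50 + 15) := by
  decide +kernel
theorem num_p3 : 392 * nS 0 * wz 1 * 2 ^ 400 + 98 * wz 1 * nV 0 * 2 ^ 400 -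
    28 * nV 0 ^ 2 * 235298 ^ 41 + (wz 1 - 6 * uz 1) * nV 0 * 2 ^ 400 < 0 := by decide +kernel
theorem num_m1 : 7 * wz (-1) * 2 ^ 400 * (2 * 10 ^ 49) ≤
    2 * 235298 ^ 41 * nV 0 * (2 * 10 ^ 49 - 1) := by decide +kernel
theorem num_m2 : 2 * 235298 ^ 41 * nV 0 * (10 ^ 50 - 15) ≤ 7 * wz (-1) * 2 ^ 400 * 10 ^ 50 := by
  decide +kernel
theorem num_m3 : 0 < 392 * nS 0 * wz (-1) * 2 ^ 400 + 98 * wz (-1) * nV 0 * 2 ^ 400 -
    28 * nV 0 ^ 2 * 235298 ^ 41 + (wz (-1) - 6 * uz (-1)) * nV 0 * 2 ^ 400 := by decide +kernel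

/-- Numerator at the right end. -/
def sz : ℤ := hz 1000 cS60

theorem ev_s : ev cS60 (1 / 1000) = sz / 1000 ^ 60 := by
  have h := ev_hz 1000 (by norm_num) cS60
  rw [cS60_length] at h
  rw [eq_div_iff (by positivity)]
  push_cast at h
  have h2 : ev cS60 (1 / 1000) * 1000 ^ 61 = 1000 * (sz : ℝ) := h
  have h3 : (1000 : ℝ) * (ev cS60 (1 / 1000) * 1000 ^ 60) = 1000 * (sz : ℝ) := by rw [← h2]; ring
  exact mul_left_cancel₀ (by norm_num) h3

/-- `8 S/V + 5 s < 1/(4*10^49) - 10^75/125^61`, multiplied by `V 1000^60 4 10^49 125^61`. -/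
theorem num_r1 : (8 * nS 198 * 1000 ^ 60 + 5 * sz * nV 198) * (4 * 10 ^ 49 * 125 ^ 61) <
    nV 198 * 1000 ^ 60 * (125 ^ 61 - 4 * 10 ^ 49 * 10 ^ 75) := by decide +kernel
theorem num_r2 : -((8 * nS 198 * 1000 ^ 60 + 5 * sz * nV 198) * (4 * 10 ^ 49 * 125 ^ 61)) <
    nV 198 * 1000 ^ 60 * (125 ^ 61 - 4 * 10 ^ 49 * 10 ^ 75) := by decide +kernel

theorem cY_take : cY40.take 25 = cY := by decide +kernel
theorem cY_drop : 235298 * nb 235298 (cY40.drop 25) ≤ 49 * 10 ^ 61 * 16 ^ 25 * 235298 ^ 16 := by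
  decide +kernel
theorem cY_droplen : (cY40.drop 25).length = 16 := by decide +kernel

end TWP.H
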