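import Mathlib
import Pool.Agent.TWP.HDefs

/-!
TWP, blocks H and E: statements with complete paper proofs.  Module `X` proves
`theorem t_X : S_X` in the file `Pool/Agent/TWP/HX.lean`, namespace `TWP.H`; other statements
only as hypotheses.
-/

set_option autoImplicit false

namespace TWP.H

open Filter Topology Set

/-- NLM.  A function which is touched from above at `t0` by a function with negative second
derivative at `t0` has no local minimum at `t0`.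

PROOF.  Suppose `f` has a local minimum at `t0`.  Near `t0`: `φ t ≥ f t ≥ f t0 = φ t0`, so `φ` has a
local minimum at `t0` and `φ1 t0 = 0` (IsLocalMin.hasDerivAt_eq_zero).  Since `φ1` has derivative
`c < 0` at `t0`, `φ1 t < 0` for all `t > t0` close to `t0`, so by the mean value theorem
`φ t < φ t0` for `t > t0` close to `t0`: contradiction. -/
def S_NLM : Prop :=
  ∀ (f φ φ1 : ℝ → ℝ) (c t0 : ℝ), (∀ᶠ t in 𝓝 t0, HasDerivAt φ (φ1 t) t) → HasDerivAt φ1 c t0 →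
    c < 0 → f t0 = φ t0 → (∀ᶠ t in 𝓝 t0, f t ≤ φ t) → ¬ IsLocalMin f t0

/-- CP (ratio principle on a half line).

PROOF.  `ρ = F / G` is continuous and positive on `(-∞, T]`, `ρ → 1` at `-∞`.  Suppose
`ρ t1 > max 1 (ρ T)` for some `t1 ≤ T`.  Choose `A < t1` with `ρ < ρ t1` on `(-∞, A]`; let `t0` be
a maximum point of `ρ` on the compact set `[A, T]`, `κ = ρ t0 ≥ ρ t1 > max 1 (ρ T)`.  Then `κ` is
the maximum of `ρ` on `(-∞, T]`, `t0 < T` (as `ρ T < κ`), `F t0 = κ G t0` and `F ≤ κ G` on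
`(-∞, T]`, which is a neighbourhood of `t0`: contradiction with the last hypothesis. -/
def S_CP : Prop :=
  ∀ (F G : ℝ → ℝ) (T : ℝ), ContinuousOn F (Iic T) → ContinuousOn G (Iic T) →
    (∀ t ≤ T, 0 < F t) → (∀ t ≤ T, 0 < G t) → Tendsto (fun t => F t / G t) atBot (𝓝 1) →
    (∀ t0 < T, ∀ κ : ℝ, 1 < κ → F t0 = κ * G t0 → (∀ᶠ t in 𝓝 t0, F t ≤ κ * G t) → False) →
    ∀ t ≤ T, F t ≤ max 1 (F T / G T) * G t

/-- RCP (ratio principle on a compact interval).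

PROOF.  Let `t0` be a maximum point of `ρ = F / G` on `[a, b]` and suppose `κ = ρ t0 > 1`.  Then
`t0 ≠ a, b`, `F t0 = κ G t0` and `F ≤ κ G` on `[a, b]`, a neighbourhood of `t0`: contradiction. -/
def S_RCP : Prop :=
  ∀ (F G : ℝ → ℝ) (a b : ℝ), a < b → ContinuousOn F (Icc a b) → ContinuousOn G (Icc a b) →
    (∀ t ∈ Icc a b, 0 < G t) → F a ≤ G a → F b ≤ G b →
    (∀ t0 ∈ Ioo a b, ∀ κ : ℝ, 1 < κ → F t0 = κ * G t0 →
      (∀ᶠ t in 𝓝 t0, F t ≤ κ * G t) → False) →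
    ∀ t ∈ Icc a b, F t ≤ G t

/-- CMPU (comparison with a supersolution on a half line, slope condition at the right end).

PROOF (uses S_CP, S_NLM).  Apply S_CP with `F = q`, `G = P`.  Contact: `t0 < T`, `κ > 1`,
`q t0 = κ P t0`, `q ≤ κ P` near `t0`.  Let `φ, φ1, c` be from `SupAt P t0`.  The function
`f = κ P - q` has a local minimum (value 0) at `t0` and is touched from above by `κ φ - q` whose
second derivative at `t0` is `κ c - (t0 q + 2 q ^ 3) ≤ κ (t0 φ + 2 φ ^ 3) - t0 κ φ - 2 κ ^ 3 φ ^ 3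
= 2 κ φ ^ 3 (1 - κ ^ 2) < 0` (`φ t0 = P t0 > 0`, `q t0 = κ φ t0`): contradiction with S_NLM.
So `q ≤ max 1 κ0 * P` on `(-∞, T]`, `κ0 = q T / P T`.  If `κ0 ≤ 1` we are done.  If `κ0 > 1` then
`f = κ0 P - q ≥ 0` on `(-∞, T]`, `f T = 0`, so its left derivative at `T` is `≤ 0`:
`κ0 d ≤ q1 T`, i.e. `d * q T ≤ q1 T * P T` (multiply by `P T`): contradiction. -/
def S_CMPU : Prop :=
  ∀ (q q1 P : ℝ → ℝ) (T d : ℝ), HM q q1 → ContinuousOn P (Iic T) → (∀ t ≤ T, 0 < P t) →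
    (∀ t < T, SupAt P t) → Tendsto (fun t => q t / P t) atBot (𝓝 1) →
    HasDerivWithinAt P d (Iic T) T → q1 T * P T < d * q T → ∀ t ≤ T, q t ≤ P t

/-- CMPL (comparison with a subsolution on a half line, slope condition at the right end).

PROOF (uses S_CP, S_NLM).  Apply S_CP with `F = P`, `G = q`.  Contact: `t0 < T`, `κ > 1`,
`P t0 = κ q t0`, `P ≤ κ q` near `t0`.  Let `φ, φ1, c` be from `SubAt P t0` (`φ ≤ P` near `t0`).
`f = κ q - P` has a local minimum at `t0` and is touched from above by `κ q - φ`, with second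
derivative `κ (t0 q + 2 q ^ 3) - c ≤ κ (t0 q + 2 q ^ 3) - t0 φ - 2 φ ^ 3`, and `φ t0 = κ q t0`, so this
is `≤ 2 κ q ^ 3 (1 - κ ^ 2) < 0`: contradiction with S_NLM.  So `P ≤ max 1 κ0 * q`, `κ0 = P T / q T`;
if `κ0 > 1` then `κ0 q - P ≥ 0` on `(-∞, T]` and `= 0` at `T`, so `κ0 q1 T ≤ d`, i.e.
`q1 T * P T ≤ d * q T`: contradiction. -/
def S_CMPL : Prop :=
  ∀ (q q1 P : ℝ → ℝ) (T d : ℝ), HM q q1 → ContinuousOn P (Iic T) → (∀ t ≤ T, 0 < P t) →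
    (∀ t < T, SubAt P t) → Tendsto (fun t => P t / q t) atBot (𝓝 1) →
    HasDerivWithinAt P d (Iic T) T → d * q T < q1 T * P T → ∀ t ≤ T, P t ≤ q t

/-- DEC (behaviour at `+∞`).

PROOF.  For `t ≥ 0`, `q1' = t q + 2 q ^ 3 ≥ 0`: `q1` is monotone on `[0, ∞)`.  If `q1 t0 > 0` with
`t0 ≥ 0`, then `q t ≥ q t0 + q1 t0 (t - t0)` for `t ≥ t0`, contradiction with `q → 0`.  This is the
first claim.  Second: `g = q1 + q` has, for `t ≥ 1`, `g' = t q + 2 q ^ 3 + q1 ≥ g`.  If `g t0 > 0`,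
`t0 ≥ 1`, then `g ≥ g t0 > 0` on `[t0, ∞)` (`g' ≥ g > 0` as long as `g > 0`), but `g ≤ q → 0` by the
first claim: contradiction.  So `q1 ≤ -q` on `[1, ∞)` and `(q e^t)' = (q1 + q) e^t ≤ 0`: third claim.
Fourth: for `t ≥ 1` the mean value theorem on `[t - 1, t]` gives `ξ` with
`q t - q (t - 1) = q1 ξ ≤ q1 t ≤ 0`, and the left side tends to 0.  Fifth: squeeze with the third. -/
def S_DEC : Prop :=
  ∀ q q1 : ℝ → ℝ, HM q q1 → (∀ t, 0 ≤ t → q1 t ≤ 0) ∧ (∀ t, 1 ≤ t → q1 t ≤ -q t) ∧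
    (∀ t, 1 ≤ t → q t ≤ q 1 * Real.exp (1 - t)) ∧ Tendsto q1 atTop (𝓝 0) ∧
    Tendsto (fun t => t * q t ^ 2) atTop (𝓝 0)

/-- ENG (energy).

PROOF (uses S_DEC).  `E = q1 ^ 2 - t q ^ 2 - q ^ 4` has derivative
`2 q1 (t q + 2 q ^ 3) - q ^ 2 - 2 t q q1 - 4 q ^ 3 q1 = -q ^ 2 < 0` and tends to 0 at `+∞` (S_DEC); a
strictly decreasing function with limit 0 at `+∞` is positive. -/
def S_ENG : Prop :=
  ∀ q q1 : ℝ → ℝ, HM q q1 → ∀ t, t * q t ^ 2 + q t ^ 4 < q1 t ^ 2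

/-- NEG.

PROOF (uses S_CP, S_NLM, S_DEC).  (1) Fix `s > 0`.  Claim: `q (t + s) ≤ q t` for all `t`.  For `t ≥ 0`
this is S_DEC (first claim).  On `(-∞, 0]` use S_CP with `T = 0`, `F t = q (t + s)`, `G = q`; the
quotient tends to 1 at `-∞` because `q t / sqrt (-t/2) → 1`, `q (t + s) / sqrt (-(t + s)/2) → 1` and
`sqrt (-(t + s)/2) / sqrt (-t/2) → 1`.  Contact at `t0 < 0` with `κ > 1`: `f = κ q - F` has a local
minimum at `t0`, `f'' t0 = κ (t0 q + 2 q ^ 3) - ((t0 + s) F + 2 F ^ 3)` with `F t0 = κ q t0`, i.e.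
`= -s κ q + 2 κ q ^ 3 (1 - κ ^ 2) < 0`: contradiction with S_NLM (`φ = f`).  S_CP gives
`F ≤ max 1 (F 0 / q 0) q = q` as `F 0 = q s ≤ q 0`.  (2) So `q` is antitone and `q1 ≤ 0`.
(3) Suppose `q1 t0 = 0`.  Then `q1` has a local maximum at `t0`, so its derivative
`r = t q + 2 q ^ 3` vanishes at `t0`.  Apply S_NLM to `f = -q1`, `φ = -q1`, `φ1 = -r`: the derivative
of `r` at `t0` is `q + t q1 + 6 q ^ 2 q1 = q t0 > 0`, so `c = -q t0 < 0` and `-q1` has no local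
minimum at `t0`: contradiction. -/
def S_NEG : Prop :=
  ∀ q q1 : ℝ → ℝ, HM q q1 → ∀ t, q1 t < 0

/-- PUP: the properties of the explicit supersolution `PU`.

PROOF.  Put `r = sqrt (t^2 + 1) > |t|`, `w = (r - t) / 4 > 0`, `PU = sqrt w` (as
`sqrt (r - t) / 2 = sqrt ((r - t) / 4)`).  `w' = (t / r - 1) / 4 = - w / r`.  So `PU' = - PU / (2 r)`,
`PU'' = PU / (4 r ^ 2) + PU t / (2 r ^ 3) = PU2`.  `t PU + 2 PU ^ 3 = PU (t + 2 w) = PU (t + r) / 2`.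
Need `1 / (4 r ^ 2) + t / (2 r ^ 3) ≤ (t + r) / 2`, i.e. `r + 2 t ≤ 2 r ^ 3 (t + r)`.  With
`s = t + r > 0`, `r - t = 1 / s`: `r = (s + 1/s) / 2`, `t = (s - 1/s) / 2` and the claim is
`6 s^3 - 2 s ≤ (s^2 + 1)^3`, true because `(s^2+1)^3 = s^6 + 3 s^4 + 3 s^2 + 1` and
`3 s^4 + 3 s^2 ≥ 6 s^3`.  `PU ^ 2 = (r - t)/4 ≤ (|t| + 1 + |t|) / 4`.  Limits: for `t > 0`,
`r - t = 1 / (r + t) ≤ 1 / t`; for `t < 0`, `PU ^ 2 / (-t/2) = (r - t) / (-2 t) → 1`. -/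
def S_PUP : Prop :=
  (∀ t, 0 < PU t) ∧ (∀ t, HasDerivAt PU (PU1 t) t) ∧ (∀ t, HasDerivAt PU1 (PU2 t) t) ∧
    (∀ t, PU2 t ≤ t * PU t + 2 * PU t ^ 3) ∧ (∀ t, PU t ^ 2 ≤ (2 * |t| + 1) / 4) ∧
    (∀ t, PU t ^ 2 = (Real.sqrt (t ^ 2 + 1) - t) / 4) ∧
    Tendsto PU atTop (𝓝 0) ∧ Tendsto (fun t => PU t / Real.sqrt (-t / 2)) atBot (𝓝 1)

/-- QPU: the Hastings-McLeod solution lies below `PU`.

PROOF (uses S_PUP, S_CMPU, S_ENG, S_NEG).  Given `t`, apply S_CMPU with `T = max t 1`, `P = PU`,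
`d = PU1 T`: `SupAt PU` holds everywhere with `φ = PU`; `q / PU = (q / sqrt (-t/2)) / (PU / sqrt
(-t/2)) → 1` at `-∞`.  Slope: by S_ENG `q1 T ^ 2 > T q T ^ 2 ≥ q T ^ 2`, and `q1 T < 0`, so
`q1 T < -q T`; and `PU1 T = -PU T / (2 r) ≥ -PU T / 2`; so `q1 T PU T < -q T PU T ≤ -q T PU T / 2 ≤
PU1 T q T`. -/
def S_QPU : Prop :=
  ∀ q q1 : ℝ → ℝ, HM q q1 → ∀ t, q t ≤ PU t

/-- EXP: superexponential decay.

PROOF (uses S_ENG, S_NEG, S_QPU, S_PUP).  For `t ≥ 1`, S_ENG and S_NEG give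
`q1 t < - sqrt t q t`.  So `q exp ((2/3) t sqrt t)` has derivative `(q1 + sqrt t q) exp (..) ≤ 0` on
`[1, ∞)`, hence `q t ≤ q 1 exp (2/3) exp (-(2/3) t sqrt t)`.  `q 1 ≤ PU 1 = sqrt (sqrt 2 - 1) / 2
≤ 1/3` and `exp (2/3) ≤ 3` (indeed `≤ 2`). -/
def S_EXP : Prop :=
  ∀ q q1 : ℝ → ℝ, HM q q1 → ∀ t, 1 ≤ t → q t ≤ Real.exp (-(2 / 3) * (t * Real.sqrt t))

/-- UNI: uniqueness of the Hastings-McLeod solution.

PROOF (uses S_CP, S_NLM, S_DEC).  By symmetry it suffices: `q t1 ≤ p t1` for all `t1`.  Suppose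
`q t1 > p t1`.  (1) Contact principle: for every `T`, `F = q`, `G = p` satisfy the hypotheses of S_CP
(`q / p → 1` at `-∞`; contact at `t0` with `κ > 1`: `f = κ p - q`, `f'' t0 = κ (t0 p + 2 p ^ 3) -
(t0 q + 2 q ^ 3) = 2 κ p ^ 3 (1 - κ ^ 2) < 0`, S_NLM).  So with `ρ = q / p`: `ρ t ≤ max 1 (ρ T)` for
all `t ≤ T`.  For `T ≥ t1`: `1 < ρ t1 ≤ max 1 (ρ T)`, so `ρ T > 1` and `ρ t ≤ ρ T` for
all `t ≤ T`.  Hence `ρ > 1` and `ρ` is monotone on `[t1, ∞)`, so `ρ' ≥ 0`, i.e.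
`W = q p1 - q1 p ≤ 0` on `(t1, ∞)`.  (2) `W' = q (t p + 2 p ^ 3) - (t q + 2 q ^ 3) p = 2 q p (p ^ 2 -
q ^ 2) < 0` on `[t1, ∞)`, so `W` is strictly decreasing there, and `W → 0` at `+∞` (S_DEC:
`q, q1, p, p1 → 0`), so `W > 0` on `[t1, ∞)`: contradiction with (1). -/
def S_UNI : Prop :=
  ∀ q q1 p p1 : ℝ → ℝ, HM q q1 → HM p p1 → ∀ t, q t = p t

/-- PLB: the left piece of the subsolution.

PROOF.  Write `x = -t`, `z = 1/x^3`, `W = 1 - 4 z`, `PLb = sqrt (x/2) W`.  For `t < 0` everything is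
smooth: `PLb1 = -(1/(4 sqrt (x/2))) (1 + 4/t^3) - 12 sqrt (x/2) / t^4`, and `PLb2` its derivative.
With `D = x d/dx`: `x^2 PLb'' = sqrt (x/2) (D^2 - 1/4) W`, `D z = -3 z`, so
`PLb'' - t PLb - 2 PLb ^ 3 = sqrt (x/2) x [ z (D^2 W - W/4) - (W^3 - W) ]`, and the bracket is
`z (-36 z - (1 - 4 z)/4) + 8 z - 48 z^2 + 64 z^3 = z (31/4 - 83 z + 64 z^2)`.  For `x ≥ 121/50`,
`z ≤ (50/121)^3 < 0.0706`, so `31/4 - 83 z > 1.8 > 0`.  `PLb1 (-121/50)` : `sqrt (121/100) = 11/10`,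
value `-(1/sqrt 2) (x^(-1/2)/2 + 10 x^(-7/2)) = -0.5480.. < -27/50`. -/
def S_PLB : Prop :=
  ∃ PLb1 PLb2 : ℝ → ℝ, (∀ t < 0, HasDerivAt PLb (PLb1 t) t ∧ HasDerivAt PLb1 (PLb2 t) t) ∧
    (∀ t ≤ -(121 / 50), 0 < PLb t ∧ t * PLb t + 2 * PLb t ^ 3 ≤ PLb2 t) ∧
    PLb1 (-(121 / 50)) < -(27 / 50) ∧ PLb (-(121 / 50)) = PLc (-(121 / 50))

/-- PLS: `PL` is a positive continuous subsolution.

PROOF (uses S_PLB).  Write `x = -t`.  Positivity: `PL ≥ PLa > 0`.  Continuity: at `t = -121/50`,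
`PLb = sqrt (121/100) (1 - 4 (50/121)^3) = PLc`.
(a) `PLa` is a subsolution at every `t`: `PLa'' = (4 (t+4)^2 - 2) PLa`, and
`t PLa + 2 PLa ^ 3 ≤ (t + 1/2) PLa` (`PLa ≤ 1/2`), and `4 (t+4)^2 - 2 - t - 1/2 =
4 (t + 4)^2 - (t + 4) + 3/2 > 0` (discriminant `1 - 24 < 0`).
(b) `PLb` is a subsolution for `x ≥ 121/50`: S_PLB.
(c) `PLc` is a subsolution where `0 < PLc` and `x ≤ 121/50`: `PLc'' = 0 ≥ t PLc + 2 PLc^3` iff
`2 PLc ^ 2 ≤ x`.  `PLc = A + (27/50) (x - 121/50)`, `A = 0.78953..`; it vanishes at `x0 = 0.957..`;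
`2 PLc ^ 2 - x` is convex in `x` and negative at `x0` and at `121/50` (`2 A^2 = 1.247`), so it is
negative between.
Now let `t0` be given and let `M t0` be the second entry of the max.  If `PLa t0 ≥ M t0`: `φ = PLa`
(`PLa ≤ PL` everywhere, equality at `t0`).  If `M t0 > PLa t0 > 0`: for `t0 < -121/50` take `φ = PLb`
(near `t0`, `PLb ≤ PL`), for `t0 > -121/50` take `φ = PLc`.  For `t0 = -121/50` take `φ = PLc`:
`φ t0 = PL t0`; for `t ≥ t0`, `PLc = M ≤ PL`; for `t < t0` close to `t0`, `PLc t ≤ PLb t = M t ≤ PL t`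
because at `t0` the derivative of `PLb` in `t` is `-(1/sqrt 2) (x^(-1/2)/2 + 10 x^(-7/2)) =
-0.5480..`, smaller than the derivative `-27/50` of `PLc`. -/
def S_PLS : Prop :=
  (∀ t, 0 < PL t) ∧ Continuous PL ∧ ∀ t, SubAt PL t

/-- PLU: `PL ≤ PU` and the limit at `-∞`.

PROOF (uses S_PUP).  `PU ^ 2 = (sqrt (t^2+1) - t) / 4`.  `PLa ≤ PU`: `exp (-2 (t+4)^2) ≤
sqrt (t^2+1) - t`; for `t ≤ 0` the right side is `≥ 1`; for `t > 0` it is `1 / (sqrt (t^2+1) + t) ≥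
1 / (1 + 2 t) ≥ exp (-2 t) ≥ exp (-2 (t+4)^2)`.  For `x = -t ≥ 121/50`: `PLb ≤ sqrt (x/2) ≤ PU` (`x/2 =
2 x/4 ≤ (sqrt (x^2+1) + x)/4`).  `PLc ≤ PU` for `x < 121/50`: trivial if `PLc ≤ 0`; else
`2 PLc ^ 2 ≤ x` (see PLS (c)), so `PLc ^ 2 ≤ x/2 ≤ PU ^ 2`.  Limit: for `t ≤ -121/50`,
`1 + 4/t^3 ≤ PL / sqrt (-t/2) ≤ PU / sqrt (-t/2)`; both sides tend to 1. -/
def S_PLU : Prop :=
  (∀ t, PL t ≤ PU t) ∧ Tendsto (fun t => PL t / Real.sqrt (-t / 2)) atBot (𝓝 1)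

/-- ECMP (linear type comparison on a compact interval).

PROOF (uses S_NLM).  Let `t0` be a minimum point of `f` on `[a, b]`; if `f t0 < 0` then
`t0 ∈ (a, b)`, `f` has a local minimum at `t0`, contradiction with S_NLM. -/
def S_ECMP : Prop :=
  ∀ (f : ℝ → ℝ) (a b : ℝ), a < b → ContinuousOn f (Icc a b) → 0 ≤ f a → 0 ≤ f b →
    (∀ t0 ∈ Ioo a b, f t0 < 0 → ∃ (φ φ1 : ℝ → ℝ) (c : ℝ),
      (∀ᶠ t in 𝓝 t0, HasDerivAt φ (φ1 t) t) ∧ HasDerivAt φ1 c t0 ∧ c < 0 ∧ f t0 = φ t0 ∧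
        ∀ᶠ t in 𝓝 t0, f t ≤ φ t) →
    ∀ t ∈ Icc a b, 0 ≤ f t

/-- ELIN (linear boundary value problem `u'' = k^2 u - h`).

PROOF.  `v t = -(1/(2 k)) (exp (k t) I1 t - exp (-k t) I2 t)`, `I1 t = ∫_a^t exp (-k s) h s`,
`I2 t = ∫_a^t exp (k s) h s`, satisfies `v a = 0`,
`v1 t = -(1/2) (exp (k t) I1 t + exp (-k t) I2 t)`, `v1' = k^2 v - h`.  Then
`u = v + A cosh (k (t - a)) + β sinh (k (t - a))` with
`β = (B - v b - A cosh (k (b - a))) / sinh (k (b - a))`. -/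
def S_ELIN : Prop :=
  ∀ (k a b A B : ℝ) (h : ℝ → ℝ), 0 < k → a < b → Continuous h → ∃ u u1 : ℝ → ℝ,
    u a = A ∧ u b = B ∧ (∀ t, HasDerivAt u (u1 t) t) ∧
      ∀ t, HasDerivAt u1 (k ^ 2 * u t - h t) t

/-- ELIM (limits of solutions, integrated form).

PROOF.  For each `n` and `t ∈ [a, b]`, Taylor with integral remainder:
`U n t = U n a + U1 n a (t - a) + ∫_a^t (t - s) G n s ds` (fundamental theorem of calculus twice, or
differentiate in `t`; `G n` is continuous on `[a, b]`).  At `t = b` this gives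
`U1 n a = (U n b - U n a - ∫_a^b (b - s) G n s) / (b - a)`, which converges by dominated convergence
(`|G n| ≤ C`, pointwise convergence) to a number `κ`.  Pass to the limit in the formula for `t`
(dominated convergence again). -/
def S_ELIM : Prop :=
  ∀ (a b C : ℝ) (U U1 G : ℕ → ℝ → ℝ) (u g : ℝ → ℝ), a < b →
    (∀ n, ∀ t ∈ Icc a b, HasDerivAt (U n) (U1 n t) t) →
    (∀ n, ∀ t ∈ Icc a b, HasDerivAt (U1 n) (G n t) t) → (∀ n, ContinuousOn (G n) (Icc a b)) →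
    (∀ n, ∀ t ∈ Icc a b, |G n t| ≤ C) →
    (∀ t ∈ Icc a b, Tendsto (fun n => U n t) atTop (𝓝 (u t))) →
    (∀ t ∈ Icc a b, Tendsto (fun n => G n t) atTop (𝓝 (g t))) →
    ∃ κ : ℝ, ∀ t ∈ Icc a b, IntervalIntegrable g MeasureTheory.volume a t ∧
      u t = u a + κ * (t - a) + ∫ s in a..t, (t - s) * g s

/-- EBOOT (regularity).

PROOF.  `∫_a^t (t - s) g = t ∫_a^t g - ∫_a^t s g`, both integrals are continuous in `t ∈ [a, b]`, so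
`u` is continuous on `[a, b]`, hence so is `g` (`g s = s u s + 2 u s ^ 3` there).  With `g`
continuous, for `t ∈ (a, b)`: derivative of `t ∫_a^t g - ∫_a^t s g` is `∫_a^t g`, so
`u1 t = κ + ∫_a^t g`, whose derivative is `g t`. -/
def S_EBOOT : Prop :=
  ∀ (a b κ : ℝ) (u g : ℝ → ℝ), a < b →
    (∀ t ∈ Icc a b, IntervalIntegrable g MeasureTheory.volume a t ∧
      u t = u a + κ * (t - a) + ∫ s in a..t, (t - s) * g s) →
    (∀ t ∈ Icc a b, g t = t * u t + 2 * u t ^ 3) →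
    ContinuousOn u (Icc a b) ∧ ∃ u1 : ℝ → ℝ, ∀ t ∈ Ioo a b, HasDerivAt u (u1 t) t ∧
      HasDerivAt u1 (t * u t + 2 * u t ^ 3) t

/-- EITER (monotone iteration on `[-N, N]`).

PROOF (uses S_ELIN, S_ECMP, S_PUP, S_PLS, S_PLU).  Put `K = 4 N + 2 = k ^ 2`,
`G (s, v) = K v - s v - 2 v ^ 3`; for `|s| ≤ N` and `0 ≤ v ≤ w ≤ PU s` one has `G (s, v) ≤ G (s, w)`:
`G (s, w) - G (s, v) = (w - v) (K - s - 2 (v^2 + v w + w^2))` and `6 PU ^ 2 ≤ 6 (2 N + 1)/4 =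
3 N + 3/2`, `K - N - 3 N - 3/2 ≥ 0`.  `U 0 = PU`, `U (n+1)` = the solution of
`u'' = K u - G (s, U n s)` with the boundary values `PU (±N)` (S_ELIN; `s ↦ G (s, U n s)` is
continuous).  Claims on `[-N, N]`, by induction: `PL ≤ U (n+1) ≤ U n ≤ PU`, each by S_ECMP:
(i) `f = U n - U (n+1)`, `n ≥ 1`, with `U n ≤ U (n-1)`: `f'' = K f - (G (t, U (n-1)) - G (t, U n)) ≤
K f`, negative where `f < 0` (`φ = f`);
(ii) `f = PU - U 1`: `f'' = PU2 - K U 1 + G (t, PU) ≤ (t PU + 2 PU ^ 3) - K U 1 + K PU - t PU -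
2 PU ^ 3 = K f`;
(iii) `f = U (n+1) - PL` with `PL ≤ U n ≤ PU`: at `t0` take `φ0` from `SubAt PL t0`,
`φ = U (n+1) - φ0 ≥ f` near `t0`, `φ'' t0 ≤ K U (n+1) - G (t0, U n) - t0 φ0 - 2 φ0 ^ 3 = K U (n+1) -
K φ0 - (G (t0, U n) - G (t0, φ0)) ≤ K f t0 < 0` (`φ0 t0 = PL t0 ≤ U n t0`). -/
def S_EITER : Prop :=
  ∀ N : ℝ, 0 < N → ∃ U U1 U2 : ℕ → ℝ → ℝ, U 0 = PU ∧
    (∀ n t, HasDerivAt (U n) (U1 n t) t) ∧ (∀ n t, HasDerivAt (U1 n) (U2 n t) t) ∧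
    (∀ n t, U2 (n + 1) t =
      (4 * N + 2) * U (n + 1) t - ((4 * N + 2) * U n t - t * U n t - 2 * U n t ^ 3)) ∧
    (∀ n, U n (-N) = PU (-N) ∧ U n N = PU N) ∧
    ∀ n, ∀ t ∈ Icc (-N) N, PL t ≤ U n t ∧ U (n + 1) t ≤ U n t ∧ U n t ≤ PU t

/-- EBVP (nonlinear boundary value problem on `[-N, N]`).

PROOF (uses S_EITER, S_ELIM, S_EBOOT, S_PUP, S_PLS).  For `t ∈ [-N, N]` the sequence `U n t` is
decreasing and bounded below by `PL t > 0`: limit `u t`, `PL ≤ u ≤ PU`.  Apply S_ELIM to the sequence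
`U (n+1)`, `G n = U2 (n+1)` (continuous, bounded since `0 ≤ U ≤ PU` on the compact interval), limit
`g = (4N+2) u - ((4N+2) u - t u - 2 u ^ 3) = t u + 2 u ^ 3`.  Then S_EBOOT. -/
def S_EBVP : Prop :=
  ∀ N : ℝ, 0 < N → ∃ u u1 : ℝ → ℝ, ContinuousOn u (Icc (-N) N) ∧ u (-N) = PU (-N) ∧ u N = PU N ∧
    (∀ t ∈ Icc (-N) N, PL t ≤ u t ∧ u t ≤ PU t) ∧
    ∀ t ∈ Ioo (-N) N, HasDerivAt u (u1 t) t ∧ HasDerivAt u1 (t * u t + 2 * u t ^ 3) t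

/-- EMON (monotonicity in the interval).

PROOF (uses S_RCP, S_NLM).  S_RCP on `[-N, N]` with `F = v`, `G = u`.  Contact at `t0`, `κ > 1`:
`f = κ u - v ≥ 0` near `t0`, `f t0 = 0`, `f'' t0 = κ (t0 u + 2 u ^ 3) - (t0 v + 2 v ^ 3)` with
`v t0 = κ u t0`: `= 2 κ u ^ 3 (1 - κ ^ 2) < 0`: contradiction with S_NLM. -/
def S_EMON : Prop :=
  ∀ (N : ℝ) (u u1 v v1 : ℝ → ℝ), 0 < N → ContinuousOn u (Icc (-N) N) →
    ContinuousOn v (Icc (-N) N) → (∀ t ∈ Icc (-N) N, 0 < u t) →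
    (∀ t ∈ Ioo (-N) N, HasDerivAt u (u1 t) t ∧ HasDerivAt u1 (t * u t + 2 * u t ^ 3) t) →
    (∀ t ∈ Ioo (-N) N, HasDerivAt v (v1 t) t ∧ HasDerivAt v1 (t * v t + 2 * v t ^ 3) t) →
    v (-N) ≤ u (-N) → v N ≤ u N → ∀ t ∈ Icc (-N) N, v t ≤ u t

/-- EEX: existence of the Hastings-McLeod solution.

PROOF (uses S_EBVP, S_EMON, S_ELIM, S_EBOOT, S_PUP, S_PLS, S_PLU).  For `n ∈ ℕ` let `u n` be from
S_EBVP with `N = n + 1`.  By S_EMON (`v = u (n+1)`, `u = u n` on `[-(n+1), n+1]`; at the end points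
`u (n+1) ≤ PU = u n`) the sequence `n ↦ u n t` is decreasing for `n ≥ |t|`, bounded below by `PL t`:
limit `q t` (for all real `t`), `PL ≤ q ≤ PU`.  For `M > 0` apply S_ELIM on `[-M, M]` to the sequence
`u (n + m)`, `m ≥ M` fixed (so that the derivatives exist on `[-M, M] ⊂ (-(m+1), m+1)`),
`G n = t u + 2 u ^ 3`, and S_EBOOT: `q` has on `(-M, M)` a derivative which has the derivative
`t q + 2 q ^ 3`.  As `M` is arbitrary, `q1 = deriv q` works on the whole line.  `q ≥ PL > 0`;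
`0 < q ≤ PU → 0` at `+∞`; `PL / sqrt ≤ q / sqrt ≤ PU / sqrt` at `-∞`. -/
def S_EEX : Prop :=
  ∃ q q1 : ℝ → ℝ, HM q q1

/-- RICL (Riccati comparison from below).

PROOF.  Suppose `δ = m - l > 0` at `t0 ≥ T`.  For `t ≥ t0` with `δ > 0`: `δ' = m1 - (t + 2 w - l^2) ≥
l^2 - m^2 = δ (-m - l) = δ (δ - 2 m) ≥ δ^2 > 0` (`l = m - δ`, `m < 0`).  So `δ` stays positive
(it is increasing as long as it is positive) and `(1/δ)' ≤ -1` on `[t0, ∞)`; then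
`1/δ (t0 + 1/δ t0 + 1) ≤ 1/δ t0 - (1/δ t0 + 1) < 0`: contradiction. -/
def S_RICL : Prop :=
  ∀ (l m m1 w : ℝ → ℝ) (T : ℝ), (∀ t, T ≤ t → HasDerivAt l (t + 2 * w t - l t ^ 2) t) →
    (∀ t, T ≤ t → HasDerivAt m (m1 t) t) → (∀ t, T ≤ t → m t < 0) →
    (∀ t, T ≤ t → t + 2 * w t ≤ m1 t + m t ^ 2) → ∀ t, T ≤ t → m t ≤ l t

/-- RICU (Riccati comparison from above).

PROOF.  Suppose `δ = l - m > 0` at `t0 ≥ T`.  For `t ≥ t0` with `δ > 0`: `δ' = t + 2 w - l^2 - m1 ≥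
m^2 - l^2 = δ (-m - l) ≥ δ` (`-m ≥ 1`, `-l > 0`).  So `δ` stays positive and
`δ t ≥ δ t0 exp (t - t0)` on `[t0, ∞)`; but `δ = l - m < -m ≤ C t`: contradiction for large `t`. -/
def S_RICU : Prop :=
  ∀ (l m m1 w : ℝ → ℝ) (T C : ℝ), (∀ t, T ≤ t → HasDerivAt l (t + 2 * w t - l t ^ 2) t) →
    (∀ t, T ≤ t → l t < 0) → (∀ t, T ≤ t → HasDerivAt m (m1 t) t) → (∀ t, T ≤ t → m t ≤ -1) →
    (∀ t, T ≤ t → -m t ≤ C * t) →
    (∀ t, T ≤ t → m1 t + m t ^ 2 ≤ t + 2 * w t) → ∀ t, T ≤ t → l t ≤ m t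

/-- GLU (comparison with a piecewise supersolution; pieces `F 0` on `(-∞, x 0]`, `F (j+1)` on
`[x j, x (j+1)]`, `j < M`; concave kinks at the nodes).

PROOF (uses S_CMPU).  Let `P` be the glued function (`P = F 0` on `(-∞, x 0]`, `P = F (j+1)` on
`(x j, x (j+1)]`), continuous on `(-∞, x M]` and positive.  `SupAt P t0`: at interior points of the
pieces `φ` = the piece; at a node `t0 = x j`, `j < M`: `φ = F j`: for `t ≤ t0` near `t0` it equals `P`,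
for `t > t0` near `t0`, `P = F (j+1) < F j` as `F (j+1) - F j` vanishes at `x j` and has negative
derivative there.  (The last interval may also be treated with `M = 0`: then only `F 0`.)
Left derivative of `P` at `x M` is `F1 M (x M)`.  Apply S_CMPU with `T = x M`. -/
def S_GLU : Prop :=
  ∀ (q q1 : ℝ → ℝ) (M : ℕ) (x : ℕ → ℝ) (F F1 F2 : ℕ → ℝ → ℝ), HM q q1 → StrictMono x →
    (∀ t ≤ x 0, 0 < F 0 t ∧ HasDerivAt (F 0) (F1 0 t) t ∧ HasDerivAt (F1 0) (F2 0 t) t ∧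
      F2 0 t ≤ t * F 0 t + 2 * F 0 t ^ 3) →
    (∀ j < M, ∀ t ∈ Icc (x j) (x (j + 1)), 0 < F (j + 1) t ∧
      HasDerivAt (F (j + 1)) (F1 (j + 1) t) t ∧ HasDerivAt (F1 (j + 1)) (F2 (j + 1) t) t ∧
      F2 (j + 1) t ≤ t * F (j + 1) t + 2 * F (j + 1) t ^ 3) →
    (∀ j < M, F (j + 1) (x j) = F j (x j)) → (∀ j < M, F1 (j + 1) (x j) < F1 j (x j)) →
    Tendsto (fun t => q t / F 0 t) atBot (𝓝 1) →
    q1 (x M) * F M (x M) < F1 M (x M) * q (x M) →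
    (∀ t ≤ x 0, q t ≤ F 0 t) ∧ ∀ j < M, ∀ t ∈ Icc (x j) (x (j + 1)), q t ≤ F (j + 1) t

/-- GLL (comparison with a piecewise subsolution, convex kinks at the nodes).

PROOF (uses S_CMPL): as for GLU with all inequalities reversed. -/
def S_GLL : Prop :=
  ∀ (q q1 : ℝ → ℝ) (M : ℕ) (x : ℕ → ℝ) (F F1 F2 : ℕ → ℝ → ℝ), HM q q1 → StrictMono x →
    (∀ t ≤ x 0, 0 < F 0 t ∧ HasDerivAt (F 0) (F1 0 t) t ∧ HasDerivAt (F1 0) (F2 0 t) t ∧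
      t * F 0 t + 2 * F 0 t ^ 3 ≤ F2 0 t) →
    (∀ j < M, ∀ t ∈ Icc (x j) (x (j + 1)), 0 < F (j + 1) t ∧
      HasDerivAt (F (j + 1)) (F1 (j + 1) t) t ∧ HasDerivAt (F1 (j + 1)) (F2 (j + 1) t) t ∧
      t * F (j + 1) t + 2 * F (j + 1) t ^ 3 ≤ F2 (j + 1) t) →
    (∀ j < M, F (j + 1) (x j) = F j (x j)) → (∀ j < M, F1 j (x j) < F1 (j + 1) (x j)) →
    Tendsto (fun t => F 0 t / q t) atBot (𝓝 1) →
    F1 M (x M) * q (x M) < q1 (x M) * F M (x M) →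
    (∀ t ≤ x 0, F 0 t ≤ q t) ∧ ∀ j < M, ∀ t ∈ Icc (x j) (x (j + 1)), F (j + 1) t ≤ q t

/-- LAN (Landau interpolation on a short interval).

PROOF.  By Taylor with the Lagrange (or integral) remainder, `g b - g a = g1 a (b - a) + (b - a)^2/2
* g'' ξ` and `g b - g a = g1 b (b - a) - (b - a)^2/2 g'' ξ'`; so
`|g1 t| ≤ 2 A / δ + C δ / 2` for one end of an interval of length `δ` inside `[a, b]`. (For
`t ∈ [a, b]` one of `[t, t + δ]`, `[t - δ, t]` lies in `[a, b]`, `δ = (b - a)/2`.)  With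
`h t = g t - g t0 - g1 t0 (t - t0) - C (t - t0)^2/2` monotonicity arguments give the same. -/
def S_LAN : Prop :=
  ∀ (a b A C : ℝ) (g g1 g2 : ℝ → ℝ), a < b → (∀ t ∈ Icc a b, HasDerivAt g (g1 t) t) →
    (∀ t ∈ Icc a b, HasDerivAt g1 (g2 t) t) → (∀ t ∈ Icc a b, |g t| ≤ A) →
    (∀ t ∈ Icc a b, |g2 t| ≤ C) →
    ∀ t ∈ Icc a b, |g1 t| ≤ 4 * A / (b - a) + C * (b - a) / 4

end TWP.H
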