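import Mathlib
import Pool.Agent.TWP.StH
import Pool.Agent.TWP.MTab

/-!
TWP, block H, middle: statements with complete paper proofs.  Module `X` proves
`theorem t_X : S_X` in the file `Pool/Agent/TWP/HX.lean`, namespace `TWP.H`; other statements
only as hypotheses.  The functions `ev`, `dv`, `addL`, `smulL`, `mulL`, `thL` and their lemmas are
those of `TLib`; `chk`, `pp`, `pp1`, `pp2`, `nd`, `th`, `tn`, `sl` of `MDefs`; `nV`, `nS` of `MTab`.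
-/

set_option autoImplicit false

namespace TWP.H

open Pool.Agent.TWP.Tail Filter Topology Set

/-- The barrier `p (1 + ε θ)` on the piece `i` (`ε` may be negative). -/
noncomputable def Pe (ε : ℝ) (i : ℕ) (b : List ℤ) (t : ℝ) : ℝ := pp i b t * (1 + ε * th i t)

/-- Its derivative. -/
noncomputable def Pe1 (ε : ℝ) (i : ℕ) (b : List ℤ) (t : ℝ) : ℝ :=
  pp1 i b t * (1 + ε * th i t) + pp i b t * (ε * sl i)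

/-- Its second derivative. -/
noncomputable def Pe2 (ε : ℝ) (i : ℕ) (b : List ℤ) (t : ℝ) : ℝ :=
  pp2 i b t * (1 + ε * th i t) + 2 * (pp1 i b t * (ε * sl i))

/-- PCE (soundness of the check).

PROOF.  `ev (derL l) y = dv l y` (`ev_thL`, definition of `dv`), so the derivatives are
`hasDerivAt_ev` and the chain rule (`lv' = 8`).  For `t ∈ [nd i, nd (i+1)]`, `v = lv i t ∈ [-1, 1]`
(`nd (i+1) - nd i = 1/4`), and `|ev A v| ≤ nrm A` for every list (induction).  So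
`-ev (derL b) v ≥ -d0 - nrm (tail) = m > 0`, `ev b v ≥ b0 - nrm (tail) > 0`, and
`|ev (derL b) v| ≤ nrm (derL b) ≤ V`.  As `8 t = 2 i - 195 + v`,
`pp2 - t pp - 2 pp^3 = ev (resL i b) v / (8 * 2^1200)`, in absolute value
`≤ nrm (resL i b) / (8 * 2^1200) ≤ 64 * 2^800 m / (2 * 10^49 * 8 * 2^1200) = (8 m / 2^400) / (2 * 10^49)
≤ -pp1 / (2 * 10^49)`.  The end values: `lv i (nd i) = -1`, `lv i (nd (i+1)) = 1`,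
`ev A (y : ℝ) = evZ A y` for integers `y`. -/
def S_PCE : Prop :=
  ∀ (i : ℕ) (b : List ℤ) (V S V' S' : ℤ), i < 198 → chk i b V S V' S' = true →
    (∀ t, HasDerivAt (pp i b) (pp1 i b t) t) ∧ (∀ t, HasDerivAt (pp1 i b) (pp2 i b t) t) ∧
    (∀ t ∈ Icc (nd i) (nd (i + 1)), 0 < pp i b t ∧ pp1 i b t < 0 ∧
      |pp2 i b t - t * pp i b t - 2 * pp i b t ^ 3| ≤ -pp1 i b t / (2 * 10 ^ 49) ∧
      -pp1 i b t ≤ 8 * (V / 2 ^ 400)) ∧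
    pp i b (nd i) = V / 2 ^ 400 ∧ pp1 i b (nd i) = 8 * S / 2 ^ 400 ∧
    pp i b (nd (i + 1)) = V' / 2 ^ 400 ∧ pp1 i b (nd (i + 1)) = 8 * S' / 2 ^ 400

/-- THP (the weight).

PROOF.  Arithmetic: `tn (i+1) - tn i = sl i / 4`; `sl i ∈ [1.01, 2]` and `tn i ∈ [1, 75.7]` for
`i ≤ 198` (`tn` is increasing, `tn 198 = 75.62125`). -/
def S_THP : Prop :=
  (∀ i, th i (nd i) = tn i) ∧ (∀ i, th i (nd (i + 1)) = tn (i + 1)) ∧ (∀ i, sl (i + 1) < sl i) ∧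
    (∀ i < 198, 1 ≤ sl i ∧ sl i ≤ 2) ∧
    ∀ i < 198, ∀ t ∈ Icc (nd i) (nd (i + 1)), 1 ≤ th i t ∧ th i t ≤ 76

/-- PSU (the upper barrier is a supersolution on each piece).

PROOF (uses S_PCE, S_THP).  With `r = pp2 - t pp - 2 pp^3`, `p = pp`, `p' = pp1 < 0`, `s = sl i ≥ 1`,
`θ = th i t`, `0 < ε θ ≤ 76/100`:
`Pe2 - t Pe - 2 Pe^3 = (1 + ε θ) r + 2 ε s p' - 2 p^3 (1 + ε θ) ((1 + ε θ)^2 - 1)
≤ (1 + ε θ) (-p') / (2 * 10^49) - 2 ε s (-p') ≤ (-p') (2 / (2 * 10^49) - 2 ε) ≤ 0`. -/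
def S_PSU : Prop :=
  ∀ (i : ℕ) (b : List ℤ) (V S V' S' : ℤ) (ε : ℝ), i < 198 → chk i b V S V' S' = true →
    1 / (2 * 10 ^ 49) ≤ ε → ε ≤ 1 / 100 → ∀ t ∈ Icc (nd i) (nd (i + 1)), 0 < Pe ε i b t ∧
      HasDerivAt (Pe ε i b) (Pe1 ε i b t) t ∧ HasDerivAt (Pe1 ε i b) (Pe2 ε i b t) t ∧
      Pe2 ε i b t ≤ t * Pe ε i b t + 2 * Pe ε i b t ^ 3

/-- PSL (the lower barrier is a subsolution on each piece).

PROOF (uses S_PCE, S_THP).  With `κ = 1 - ε θ ∈ (0, 1)`: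
`Pe2 - t Pe - 2 Pe^3 = κ r - 2 ε s p' + 2 p^3 κ (1 - κ^2) ≥ -κ (-p') / (2 * 10^49) + 2 ε s (-p') ≥ 0`. -/
def S_PSL : Prop :=
  ∀ (i : ℕ) (b : List ℤ) (V S V' S' : ℤ) (ε : ℝ), i < 198 → chk i b V S V' S' = true →
    1 / (2 * 10 ^ 49) ≤ ε → ε ≤ 1 / 100 → ∀ t ∈ Icc (nd i) (nd (i + 1)), 0 < Pe (-ε) i b t ∧
      HasDerivAt (Pe (-ε) i b) (Pe1 (-ε) i b t) t ∧
      HasDerivAt (Pe1 (-ε) i b) (Pe2 (-ε) i b t) t ∧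
      t * Pe (-ε) i b t + 2 * Pe (-ε) i b t ^ 3 ≤ Pe2 (-ε) i b t

/-- MIDU (the upper bound for `q` on the left tail and on all pieces).

PROOF (uses S_GLU, S_PCE, S_PSU, S_THP).  S_GLU with `M = 198`, `x = nd`, `F 0 = F0`,
`F (j+1) = Pe ε j (bs j)`.  Node 0: `Pe ε 0 b (nd 0) = (nV 0 / 2^400) (1 + ε)` (`tn 0 = 1`),
`Pe1 ε 0 b (nd 0) = (8 nS 0/2^400)(1 + ε) + (nV 0/2^400) (ε * 2)` (`sl 0 = 2`).  Node `j`,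
`0 < j < 198`: both pieces have the value `(nV j / 2^400) (1 + ε tn j)` and the slopes
`(8 nS j/2^400)(1 + ε tn j) + (nV j/2^400) ε s`, `s = sl (j-1)` on the left, `s = sl j < sl (j-1)` on
the right (`nV j > 0` because `pp > 0`).  Right end `nd 198 = 25`: `P' / P = 8 nS 198 / nV 198 +
ε sl 197 / (1 + ε tn 198) ≥ 8 nS 198 / nV 198 + ε / 2 > q1 / q` (`sl 197 = 1.015`,
`ε tn 198 ≤ 0.757`). -/
def S_MIDU : Prop :=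
  ∀ (q q1 : ℝ → ℝ) (bs : ℕ → List ℤ) (F0 F01 F02 : ℝ → ℝ) (ε : ℝ), HM q q1 →
    (∀ i < 198, chk i (bs i) (nV i) (nS i) (nV (i + 1)) (nS (i + 1)) = true) →
    1 / (2 * 10 ^ 49) ≤ ε → ε ≤ 1 / 100 →
    (∀ t ≤ nd 0, 0 < F0 t ∧ HasDerivAt F0 (F01 t) t ∧ HasDerivAt F01 (F02 t) t ∧
      F02 t ≤ t * F0 t + 2 * F0 t ^ 3) →
    F0 (nd 0) = nV 0 / 2 ^ 400 * (1 + ε) →
    8 * nS 0 / 2 ^ 400 * (1 + ε) + nV 0 / 2 ^ 400 * (2 * ε) < F01 (nd 0) →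
    Tendsto (fun t => q t / F0 t) atBot (𝓝 1) →
    q1 25 / q 25 < 8 * nS 198 / nV 198 + ε / 2 →
    (∀ t ≤ nd 0, q t ≤ F0 t) ∧
      ∀ i < 198, ∀ t ∈ Icc (nd i) (nd (i + 1)), q t ≤ Pe ε i (bs i) t

/-- MIDL (the lower bound for `q`).

PROOF (uses S_GLL, S_PCE, S_PSL, S_THP): as for MIDU; right end: `P' / P = 8 nS 198 / nV 198 -
ε sl 197 / (1 - ε tn 198) ≤ 8 nS 198 / nV 198 - ε < q1 / q`. -/
def S_MIDL : Prop :=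
  ∀ (q q1 : ℝ → ℝ) (bs : ℕ → List ℤ) (F0 F01 F02 : ℝ → ℝ) (ε : ℝ), HM q q1 →
    (∀ i < 198, chk i (bs i) (nV i) (nS i) (nV (i + 1)) (nS (i + 1)) = true) →
    1 / (2 * 10 ^ 49) ≤ ε → ε ≤ 1 / 100 →
    (∀ t ≤ nd 0, 0 < F0 t ∧ HasDerivAt F0 (F01 t) t ∧ HasDerivAt F01 (F02 t) t ∧
      t * F0 t + 2 * F0 t ^ 3 ≤ F02 t) →
    F0 (nd 0) = nV 0 / 2 ^ 400 * (1 - ε) →
    F01 (nd 0) < 8 * nS 0 / 2 ^ 400 * (1 - ε) - nV 0 / 2 ^ 400 * (2 * ε) →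
    Tendsto (fun t => F0 t / q t) atBot (𝓝 1) →
    8 * nS 198 / nV 198 - ε / 2 < q1 25 / q 25 →
    (∀ t ≤ nd 0, F0 t ≤ q t) ∧
      ∀ i < 198, ∀ t ∈ Icc (nd i) (nd (i + 1)), Pe (-ε) i (bs i) t ≤ q t

/-- DRV (the derivative).

PROOF (uses S_PCE, S_LAN).  Put `p = pp i b`, `pm = V / 2^400 = p (nd i)`, `E = q - p`; `p` is
decreasing, so `0 < p ≤ pm ≤ 3.6`, `|E| ≤ A pm`, `A = 12/10^48`, `q ≤ 1.001 * 3.6`.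
`E'' = t q + 2 q^3 - pp2 = t E + 2 (q^3 - p^3) - r`, `|t| ≤ 25`, `|q^3 - p^3| ≤ 3 (3.604)^2 |E| ≤
39 |E|`, `|r| ≤ 8 pm / (2 * 10^49)`.  So `|E''| ≤ 103 A pm + 4 pm/10^49 ≤ 1.24 pm / 10^45`, and S_LAN
on `[nd i, nd (i+1)]` (length 1/4): `|E'| ≤ 16 A pm + (1.24 pm/10^45)/16 ≤ 3 pm / 10^46`. -/
def S_DRV : Prop :=
  ∀ (q q1 : ℝ → ℝ) (i : ℕ) (b : List ℤ) (V S V' S' : ℤ), HM q q1 → i < 198 →
    chk i b V S V' S' = true → (V : ℝ) / 2 ^ 400 ≤ 36 / 10 →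
    (∀ t ∈ Icc (nd i) (nd (i + 1)), |q t - pp i b t| ≤ 12 / 10 ^ 48 * (V / 2 ^ 400)) →
    ∀ t ∈ Icc (nd i) (nd (i + 1)), |q1 t - pp1 i b t| ≤ 3 / 10 ^ 46 * (V / 2 ^ 400)

/-- CEN (values at a point).

PROOF (uses S_PCE).  `|q - Qc/2^200| ≤ 12/10^48 * 3.6 + 2^(-141) ≤ 2^(-140)`.  For the quotient:
`q1/q - pp1/pp = ((q1 - pp1) pp + pp1 (pp - q)) / (q pp)`, in absolute value
`≤ (3/10^46 + 8 * 12/10^48) (V/2^400) / q ≤ 4/10^46 * (4 pp) / q ≤ 2/10^45 ≤ 2^(-141)`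
(`V / 2^400 ≤ 4 pp`, `q ≥ pp/2`, since `|q - pp| ≤ 12/10^48 * 4 pp`). -/
def S_CEN : Prop :=
  ∀ (q q1 : ℝ → ℝ) (i : ℕ) (b : List ℤ) (V S V' S' Qc Lc : ℤ) (c : ℝ), HM q q1 → i < 198 →
    chk i b V S V' S' = true → c ∈ Icc (nd i) (nd (i + 1)) → (V : ℝ) / 2 ^ 400 ≤ 36 / 10 →
    (V : ℝ) / 2 ^ 400 ≤ 4 * pp i b c →
    |q c - pp i b c| ≤ 12 / 10 ^ 48 * (V / 2 ^ 400) →
    |q1 c - pp1 i b c| ≤ 3 / 10 ^ 46 * (V / 2 ^ 400) →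
    |pp i b c - Qc / 2 ^ 200| ≤ 1 / 2 ^ 141 →
    |pp1 i b c / pp i b c - Lc / 2 ^ 200| ≤ 1 / 2 ^ 141 →
    |q c - Qc / 2 ^ 200| ≤ 1 / 2 ^ 140 ∧ |q1 c / q c - Lc / 2 ^ 200| ≤ 1 / 2 ^ 140

end TWP.H
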