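import Mathlib
import Pool.Agent.TWP.HNum
import Pool.Agent.TWP.StM

/-!
TWP, block H: the two ends and the assembly of the enclosures.
-/

set_option autoImplicit false

namespace TWP.H

open Pool.Agent.TWP.Tail Filter Topology Set

theorem nd0 : nd 0 = -49 / 2 := by rw [nd]; push_cast; ring

theorem nd198 : nd 198 = 25 := by rw [nd]; push_cast; norm_num

theorem c_V0 : (0 : ℝ) < nV 0 := by exact_mod_cast num_V0

theorem c_V198 : (0 : ℝ) < nV 198 := by exact_mod_cast num_V198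

theorem left_p : ∃ ε : ℝ, 1 / (2 * 10 ^ 49) ≤ ε ∧ ε ≤ 15 / 10 ^ 50 ∧
    QL DY40 (nd 0) = nV 0 / 2 ^ 400 * (1 + ε) ∧
    8 * nS 0 / 2 ^ 400 * (1 + ε) + nV 0 / 2 ^ 400 * (2 * ε) < QL1 DY40 (nd 0) := by
  have h := QL_left 1
  rw [ev_w, ev_u, Int.cast_one, one_mul] at h
  obtain ⟨h1, h2⟩ := h
  have hV := c_V0
  have hM : (0 : ℝ) < 235298 ^ 41 := by positivity
  have hK : (0 : ℝ) < 2 ^ 400 := by positivity
  have n1 : (2 : ℝ) * 235298 ^ 41 * nV 0 * (2 * 10 ^ 49 + 1) ≤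
      7 * wz 1 * 2 ^ 400 * (2 * 10 ^ 49) := by exact_mod_cast num_p1
  have n2 : (7 : ℝ) * wz 1 * 2 ^ 400 * 10 ^ 50 ≤ 2 * 235298 ^ 41 * nV 0 * (10 ^ 50 + 15) := by
    exact_mod_cast num_p2
  have n3 : (392 : ℝ) * nS 0 * wz 1 * 2 ^ 400 + 98 * wz 1 * nV 0 * 2 ^ 400 -
      28 * nV 0 ^ 2 * 235298 ^ 41 + (wz 1 - 6 * uz 1) * nV 0 * 2 ^ 400 < 0 := by
    exact_mod_cast num_p3
  generalize (nV 0 : ℝ) = V at *
  generalize (nS 0 : ℝ) = S at *
  generalize (wz 1 : ℝ) = w at *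
  generalize (uz 1 : ℝ) = u at *
  generalize (235298 : ℝ) ^ 41 = M at *
  generalize (2 : ℝ) ^ 400 = K at *
  refine ⟨7 / 2 * (w / M) / (V / K) - 1, ?_, ?_, ?_, ?_⟩
  · rw [le_sub_iff_add_le, le_div_iff₀ (by positivity)]
    rw [← sub_nonneg]
    have e : 7 / 2 * (w / M) - (1 / (2 * 10 ^ 49) + 1) * (V / K) =
        (7 * w * K * (2 * 10 ^ 49) - 2 * M * V * (2 * 10 ^ 49 + 1)) / (2 * M * K * (2 * 10 ^ 49)) := by
      field_simp
      ring
    rw [e]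
    exact div_nonneg (by linarith) (by positivity)
  · rw [sub_le_iff_le_add, div_le_iff₀ (by positivity)]
    rw [← sub_nonneg]
    have e : (15 / 10 ^ 50 + 1) * (V / K) - 7 / 2 * (w / M) =
        (2 * M * V * (10 ^ 50 + 15) - 7 * w * K * 10 ^ 50) / (2 * M * K * 10 ^ 50) := by
      field_simp
      ring
    rw [e]
    exact div_nonneg (by linarith) (by positivity)
  · rw [nd0, h1]
    field_simp
    ring
  · rw [nd0, h2, ← sub_pos]
    have e : -(1 / 7) * (w / M / 2 - 3 * (u / M)) - (8 * S / K * (1 + (7 / 2 * (w / M) / (V / K) - 1)) +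
        V / K * (2 * (7 / 2 * (w / M) / (V / K) - 1))) =
        -(392 * S * w * K + 98 * w * V * K - 28 * V ^ 2 * M + (w - 6 * u) * V * K) /
          (14 * M * V * K) := by
      field_simp
      ring
    rw [e]
    exact div_pos (by linarith) (by positivity)

theorem left_m : ∃ ε : ℝ, 1 / (2 * 10 ^ 49) ≤ ε ∧ ε ≤ 15 / 10 ^ 50 ∧
    QL (-DY40) (nd 0) = nV 0 / 2 ^ 400 * (1 - ε) ∧
    QL1 (-DY40) (nd 0) < 8 * nS 0 / 2 ^ 400 * (1 - ε) - nV 0 / 2 ^ 400 * (2 * ε) := by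
  have h := QL_left (-1)
  rw [ev_w, ev_u, Int.cast_neg, Int.cast_one, neg_one_mul] at h
  obtain ⟨h1, h2⟩ := h
  have hV := c_V0
  have hM : (0 : ℝ) < 235298 ^ 41 := by positivity
  have hK : (0 : ℝ) < 2 ^ 400 := by positivity
  have n1 : (7 : ℝ) * wz (-1) * 2 ^ 400 * (2 * 10 ^ 49) ≤
    2 * 235298 ^ 41 * nV 0 * (2 * 10 ^ 49 - 1) := by exact_mod_cast num_m1
  have n2 : (2 : ℝ) * 235298 ^ 41 * nV 0 * (10 ^ 50 - 15) ≤ 7 * wz (-1) * 2 ^ 400 * 10 ^ 50 := by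
    exact_mod_cast num_m2
  have n3 : (0 : ℝ) < 392 * nS 0 * wz (-1) * 2 ^ 400 + 98 * wz (-1) * nV 0 * 2 ^ 400 -
      28 * nV 0 ^ 2 * 235298 ^ 41 + (wz (-1) - 6 * uz (-1)) * nV 0 * 2 ^ 400 := by
    exact_mod_cast num_m3
  generalize (nV 0 : ℝ) = V at *
  generalize (nS 0 : ℝ) = S at *
  generalize (wz (-1) : ℝ) = w at *
  generalize (uz (-1) : ℝ) = u at *
  generalize (235298 : ℝ) ^ 41 = M at *
  generalize (2 : ℝ) ^ 400 = K at *
  refine ⟨1 - 7 / 2 * (w / M) / (V / K), ?_, ?_, ?_, ?_⟩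
  · rw [le_sub_iff_add_le, ← le_sub_iff_add_le', div_le_iff₀ (by positivity)]
    rw [← sub_nonneg]
    have e : (1 - 1 / (2 * 10 ^ 49)) * (V / K) - 7 / 2 * (w / M) =
        (2 * M * V * (2 * 10 ^ 49 - 1) - 7 * w * K * (2 * 10 ^ 49)) / (2 * M * K * (2 * 10 ^ 49)) := by
      field_simp
    rw [e]
    exact div_nonneg (by linarith) (by positivity)
  · rw [sub_le_comm, le_div_iff₀ (by positivity)]
    rw [← sub_nonneg]
    have e : 7 / 2 * (w / M) - (1 - 15 / 10 ^ 50) * (V / K) =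
        (7 * w * K * 10 ^ 50 - 2 * M * V * (10 ^ 50 - 15)) / (2 * M * K * 10 ^ 50) := by
      field_simp
    rw [e]
    exact div_nonneg (by linarith) (by positivity)
  · rw [nd0, h1]
    field_simp
    ring
  · rw [nd0, h2, ← sub_pos]
    have e : 8 * S / K * (1 - (1 - 7 / 2 * (w / M) / (V / K))) -
        V / K * (2 * (1 - 7 / 2 * (w / M) / (V / K))) - -(1 / 7) * (w / M / 2 - 3 * (u / M)) =
        (392 * S * w * K + 98 * w * V * K - 28 * V ^ 2 * M + (w - 6 * u) * V * K) /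
          (14 * M * V * K) := by
      field_simp
      ring
    rw [e]
    exact div_pos (by linarith) (by positivity)

theorem right_end {l : ℝ} (h : |l / (-Real.sqrt 25) - ev cS60 (zR 25 / 8)| ≤
    2 * 10 ^ 74 * zR 25 ^ 61) : |l - 8 * nS 198 / nV 198| < 1 / (4 * 10 ^ 49) := by
  have e5 : Real.sqrt 25 = 5 := by
    rw [show (25 : ℝ) = 5 ^ 2 by norm_num]
    exact Real.sqrt_sq (by norm_num)
  have ez : zR 25 = 1 / 125 := by rw [zR, e5]; norm_num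
  have e8 : (1 / 125 : ℝ) / 8 = 1 / 1000 := by norm_num
  rw [ez, e8, e5, ev_s] at h
  have hV := c_V198
  have n1 : ((8 : ℝ) * nS 198 * 1000 ^ 60 + 5 * sz * nV 198) * (4 * 10 ^ 49 * 125 ^ 61) <
    nV 198 * 1000 ^ 60 * (125 ^ 61 - 4 * 10 ^ 49 * 10 ^ 75) := by exact_mod_cast num_r1
  have n2 : -(((8 : ℝ) * nS 198 * 1000 ^ 60 + 5 * sz * nV 198) * (4 * 10 ^ 49 * 125 ^ 61)) <
    nV 198 * 1000 ^ 60 * (125 ^ 61 - 4 * 10 ^ 49 * 10 ^ 75) := by exact_mod_cast num_r2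
  generalize (nV 198 : ℝ) = V at *
  generalize (nS 198 : ℝ) = S at *
  generalize (sz : ℝ) = s at *
  have h1 : (8 * S / V + 5 * (s / 1000 ^ 60)) < 1 / (4 * 10 ^ 49) - 10 ^ 75 / 125 ^ 61 := by
    rw [← sub_pos]
    have e : 1 / (4 * 10 ^ 49) - 10 ^ 75 / 125 ^ 61 - (8 * S / V + 5 * (s / 1000 ^ 60)) =
        (V * 1000 ^ 60 * (125 ^ 61 - 4 * 10 ^ 49 * 10 ^ 75) -
          (8 * S * 1000 ^ 60 + 5 * s * V) * (4 * 10 ^ 49 * 125 ^ 61)) /
        (V * 1000 ^ 60 * (4 * 10 ^ 49) * 125 ^ 61) := by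
      have : (V : ℝ) ≠ 0 := hV.ne'
      field_simp
    rw [e]
    exact div_pos (by linarith) (by positivity)
  have h2 : -(8 * S / V + 5 * (s / 1000 ^ 60)) < 1 / (4 * 10 ^ 49) - 10 ^ 75 / 125 ^ 61 := by
    rw [← sub_pos]
    have e : 1 / (4 * 10 ^ 49) - 10 ^ 75 / 125 ^ 61 - -(8 * S / V + 5 * (s / 1000 ^ 60)) =
        (V * 1000 ^ 60 * (125 ^ 61 - 4 * 10 ^ 49 * 10 ^ 75) +
          (8 * S * 1000 ^ 60 + 5 * s * V) * (4 * 10 ^ 49 * 125 ^ 61)) /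
        (V * 1000 ^ 60 * (4 * 10 ^ 49) * 125 ^ 61) := by
      have : (V : ℝ) ≠ 0 := hV.ne'
      field_simp
      ring
    rw [e]
    exact div_pos (by linarith) (by positivity)
  have h3 : (2 : ℝ) * 10 ^ 74 * (1 / 125) ^ 61 = 10 ^ 75 / 125 ^ 61 / 5 := by
    rw [div_pow, one_pow]
    norm_num
  rw [h3] at h
  rw [abs_le] at h
  rw [abs_lt]
  have h4 : l / -5 = -(l / 5) := by ring
  rw [h4] at h
  constructor <;> linarith [h.1, h.2]

end TWP.H
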