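import Mathlib
import Pool.Agent.TWP.HEnd

/-!
TWP, block H: the enclosures (A) on the left tail and (B) in the middle, from the statements.
-/

set_option autoImplicit false

namespace TWP.H

open Pool.Agent.TWP.Tail Filter Topology Set

theorem ratio_QL {q q1 : ℝ → ℝ} (h : HM q q1) (κ : ℝ) :
    Tendsto (fun t => q t / QL κ t) atBot (𝓝 1) := by
  have h1 := h.bot.div (tendsto_QL κ) one_ne_zero
  rw [div_one] at h1
  refine h1.congr' ?_
  filter_upwards [eventually_lt_atBot (0 : ℝ)] with t ht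
  have hs : Real.sqrt (-t / 2) ≠ 0 := (Real.sqrt_pos.2 (by linarith)).ne'
  show q t / Real.sqrt (-t / 2) / (QL κ t / Real.sqrt (-t / 2)) = q t / QL κ t
  rw [div_div_div_cancel_right₀ hs]

theorem ratio_QL' {q q1 : ℝ → ℝ} (h : HM q q1) (κ : ℝ) :
    Tendsto (fun t => QL κ t / q t) atBot (𝓝 1) := by
  have h1 := (ratio_QL h κ).inv₀ one_ne_zero
  rw [inv_one] at h1
  refine h1.congr fun t => ?_
  rw [inv_div]

theorem nd_le {t : ℝ} (ht : t ≤ nd 0) : t ≤ -24 := by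
  rw [nd0] at ht; linarith

theorem bounds (hMIDU : S_MIDU) (hMIDL : S_MIDL) {q q1 : ℝ → ℝ} (h : HM q q1)
    (hH2 : |q1 25 / q 25 / (-Real.sqrt 25) - ev cS60 (zR 25 / 8)| ≤ 2 * 10 ^ 74 * zR 25 ^ 61)
    (bs : ℕ → List ℤ)
    (hdat : ∀ i < 198, chk i (bs i) (nV i) (nS i) (nV (i + 1)) (nS (i + 1)) = true) :
    (∀ t ≤ nd 0, QL (-DY40) t ≤ q t ∧ q t ≤ QL DY40 t) ∧
    ∃ e1 e2 : ℝ, 0 ≤ e1 ∧ e1 ≤ 15 / 10 ^ 50 ∧ 0 ≤ e2 ∧ e2 ≤ 15 / 10 ^ 50 ∧
      ∀ i < 198, ∀ t ∈ Icc (nd i) (nd (i + 1)), Pe (-e2) i (bs i) t ≤ q t ∧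
        q t ≤ Pe e1 i (bs i) t := by
  obtain ⟨e1, a1, a2, a3, a4⟩ := left_p
  obtain ⟨e2, b1, b2, b3, b4⟩ := left_m
  have hr := abs_lt.1 (right_end hH2)
  have hD0 : 0 ≤ DY40 := le_trans (by norm_num) DY40_ge
  have hU := hMIDU q q1 bs (QL DY40) (QL1 DY40) (QL2 DY40) e1 h hdat a1
    (le_trans a2 (by norm_num))
    (fun t ht => ⟨QL_pos _ _ (by rw [abs_of_nonneg hD0]; exact DY40_le) (nd_le ht),
      hasDerivAt_QL _ _ (by linarith [nd_le ht]), hasDerivAt_QL1 _ _ (by linarith [nd_le ht]),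
      (QL_super _ _ DY40_ge DY40_le (nd_le ht)).le⟩) a3 a4 (ratio_QL h _)
    (by
      have : 1 / (4 * 10 ^ 49) ≤ e1 / 2 := by
        have e : (1 : ℝ) / (4 * 10 ^ 49) = 1 / (2 * 10 ^ 49) / 2 := by norm_num
        rw [e]; linarith
      linarith [hr.2])
  have hL := hMIDL q q1 bs (QL (-DY40)) (QL1 (-DY40)) (QL2 (-DY40)) e2 h hdat b1
    (le_trans b2 (by norm_num))
    (fun t ht => ⟨QL_pos _ _ (by rw [abs_neg, abs_of_nonneg hD0]; exact DY40_le) (nd_le ht),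
      hasDerivAt_QL _ _ (by linarith [nd_le ht]), hasDerivAt_QL1 _ _ (by linarith [nd_le ht]),
      (QL_sub _ _ DY40_ge DY40_le (nd_le ht)).le⟩) b3 b4 (ratio_QL' h _)
    (by
      have : 1 / (4 * 10 ^ 49) ≤ e2 / 2 := by
        have e : (1 : ℝ) / (4 * 10 ^ 49) = 1 / (2 * 10 ^ 49) / 2 := by norm_num
        rw [e]; linarith
      linarith [hr.1])
  refine ⟨fun t ht => ⟨hL.1 t ht, hU.1 t ht⟩, e1, e2, le_trans (by positivity) a1, a2,
    le_trans (by positivity) b1, b2, fun i hi t ht => ⟨hL.2 i hi t ht, hU.2 i hi t ht⟩⟩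

/-- (A) for `K = 40`. -/
theorem boundA {q q1 : ℝ → ℝ} (_h : HM q q1) {t : ℝ} (ht : t ≤ nd 0)
    (hb : QL (-DY40) t ≤ q t ∧ q t ≤ QL DY40 t) :
    |q t / Real.sqrt (-t / 2) - ev cY40 (zL t / 16)| ≤ DY40 * zL t ^ 41 := by
  have hs : 0 < Real.sqrt (-t / 2) := Real.sqrt_pos.2 (by linarith [nd_le ht])
  rw [QL, QL, gL, gL] at hb
  rw [abs_le]
  have h1 : ev cY40 (zL t / 16) + -DY40 * zL t ^ 41 ≤ q t / Real.sqrt (-t / 2) := by
    rw [le_div_iff₀ hs, mul_comm]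
    exact hb.1
  have h2 : q t / Real.sqrt (-t / 2) ≤ ev cY40 (zL t / 16) + DY40 * zL t ^ 41 := by
    rw [div_le_iff₀ hs, mul_comm]
    exact hb.2
  constructor <;> linarith

/-- (A) for `K = 24`, the form used for the left tail. -/
theorem boundA24 {q : ℝ → ℝ} {t : ℝ} (ht : t ≤ nd 0)
    (hb : |q t / Real.sqrt (-t / 2) - ev cY40 (zL t / 16)| ≤ DY40 * zL t ^ 41) :
    |q t / Real.sqrt (-t / 2) - ev cY (zL t / 16)| ≤ 5 * 10 ^ 62 * zL t ^ 25 := by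
  have ht' := nd_le ht
  have hz := zL_pos t (by linarith)
  have hzs : zL t * 14000 ≤ 1 := by
    have hx : (49 / 2 : ℝ) ≤ -t := by rw [nd0] at ht; linarith
    have h3 : (49 / 2 : ℝ) ^ 3 ≤ (-t) ^ 3 := pow_le_pow_left₀ (by norm_num) hx 3
    have h4 : zL t = 1 / (-t) ^ 3 := rfl
    rw [h4, div_mul_eq_mul_div, div_le_one (by positivity)]
    have h5 : (14000 : ℝ) ≤ (49 / 2) ^ 3 := by norm_num
    linarith
  have hy : |zL t / 16| * ((235298 : ℤ) : ℝ) ≤ 1 := by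
    have hx : (49 / 2 : ℝ) ≤ -t := by rw [nd0] at ht; linarith
    have h3 : (49 / 2 : ℝ) ^ 3 ≤ (-t) ^ 3 := pow_le_pow_left₀ (by norm_num) hx 3
    have h4 : zL t = 1 / (-t) ^ 3 := rfl
    rw [abs_of_pos (by positivity), h4]
    push_cast
    rw [div_div, div_mul_eq_mul_div, div_le_one (by positivity)]
    have h5 : (1 : ℝ) * 235298 ≤ (49 / 2) ^ 3 * 16 := by norm_num
    linarith
  have h1 := ev_split 25 cY40 (zL t / 16)
  rw [cY_take] at h1
  have h2 := abs_ev_le 235298 (by norm_num) (cY40.drop 25) (zL t / 16) hy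
  rw [cY_droplen] at h2
  have h3 : (235298 : ℝ) * nb 235298 (cY40.drop 25) ≤ 49 * 10 ^ 61 * 16 ^ 25 * 235298 ^ 16 := by
    exact_mod_cast cY_drop
  push_cast at h2
  have h4 : |ev (cY40.drop 25) (zL t / 16)| ≤ 49 * 10 ^ 61 * 16 ^ 25 := by
    have := le_trans h2 h3
    exact le_of_mul_le_mul_right this (by positivity)
  have h5 : |ev cY40 (zL t / 16) - ev cY (zL t / 16)| ≤ 49 * 10 ^ 61 * zL t ^ 25 := by
    have e : ev cY40 (zL t / 16) - ev cY (zL t / 16) =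
        (zL t / 16) ^ 25 * ev (cY40.drop 25) (zL t / 16) := by rw [h1]; ring
    rw [e, abs_mul, abs_of_pos (by positivity), div_pow]
    have h6 : zL t ^ 25 / 16 ^ 25 * |ev (cY40.drop 25) (zL t / 16)| ≤
        zL t ^ 25 / 16 ^ 25 * (49 * 10 ^ 61 * 16 ^ 25) :=
      mul_le_mul_of_nonneg_left h4 (by positivity)
    have e2 : zL t ^ 25 / 16 ^ 25 * (49 * 10 ^ 61 * 16 ^ 25) = 49 * 10 ^ 61 * zL t ^ 25 := by
      field_simp
    linarith
  have h6 : DY40 * zL t ^ 41 ≤ 10 ^ 61 * zL t ^ 25 := by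
    have h7 : DY40 * zL t ^ 16 ≤ 10 ^ 61 := by
      have h8 : zL t ^ 16 ≤ (1 / 14000) ^ 16 := by
        apply pow_le_pow_left₀ hz.le
        rw [le_div_iff₀ (by norm_num)]
        exact hzs
      have h9 : DY40 ≤ 10 ^ 61 * 14000 ^ 16 := by
        rw [DY40, div_le_iff₀ (by positivity)]
        have : (dY40 : ℤ) ≤ 10 ^ 61 * 14000 ^ 16 * 16 ^ 41 := by decide +kernel
        exact_mod_cast this
      have hD0 : 0 ≤ DY40 := le_trans (by norm_num) DY40_ge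
      calc DY40 * zL t ^ 16 ≤ (10 ^ 61 * 14000 ^ 16) * (1 / 14000) ^ 16 :=
            mul_le_mul h9 h8 (by positivity) (by positivity)
        _ = 10 ^ 61 := by norm_num
    have h10 := mul_le_mul_of_nonneg_right h7 (pow_nonneg hz.le 25)
    have e3 : DY40 * zL t ^ 16 * zL t ^ 25 = DY40 * zL t ^ 41 := by ring
    linarith
  have e4 : q t / Real.sqrt (-t / 2) - ev cY (zL t / 16) =
      (q t / Real.sqrt (-t / 2) - ev cY40 (zL t / 16)) +
        (ev cY40 (zL t / 16) - ev cY (zL t / 16)) := by ring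
  rw [e4]
  refine le_trans (abs_add_le _ _) ?_
  have h11 : (0 : ℝ) < zL t ^ 25 := by positivity
  linarith

/-- (B): values. -/
theorem boundB (hPCE : S_PCE) (hTHP : S_THP) {q : ℝ → ℝ} (bs : ℕ → List ℤ)
    (hdat : ∀ i < 198, chk i (bs i) (nV i) (nS i) (nV (i + 1)) (nS (i + 1)) = true)
    (hb : ∃ e1 e2 : ℝ, 0 ≤ e1 ∧ e1 ≤ 15 / 10 ^ 50 ∧ 0 ≤ e2 ∧ e2 ≤ 15 / 10 ^ 50 ∧
      ∀ i < 198, ∀ t ∈ Icc (nd i) (nd (i + 1)), Pe (-e2) i (bs i) t ≤ q t ∧
        q t ≤ Pe e1 i (bs i) t) (i : ℕ) (hi : i < 198) (t : ℝ) (ht : t ∈ Icc (nd i) (nd (i + 1))) :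
    |q t - pp i (bs i) t| ≤ 12 / 10 ^ 48 * (nV i / 2 ^ 400) := by
  obtain ⟨e1, e2, a1, a2, b1, b2, h⟩ := hb
  obtain ⟨p1, -, p3, p4, -⟩ := hPCE i (bs i) _ _ _ _ hi (hdat i hi)
  have hth := hTHP.2.2.2.2 i hi t ht
  have hpos := (p3 t ht).1
  have hle : pp i (bs i) t ≤ nV i / 2 ^ 400 := by
    rw [← p4]
    have hanti : AntitoneOn (pp i (bs i)) (Icc (nd i) (nd (i + 1))) := by
      apply antitoneOn_of_deriv_nonpos (convex_Icc _ _)
      · exact fun x _ => (p1 x).continuousAt.continuousWithinAt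
      · exact fun x _ => (p1 x).differentiableAt.differentiableWithinAt
      · intro x hx
        rw [interior_Icc] at hx
        rw [(p1 x).deriv]
        exact (p3 x ⟨hx.1.le, hx.2.le⟩).2.1.le
    exact hanti ⟨le_refl _, le_trans ht.1 ht.2⟩ ht ht.1
  obtain ⟨h1, h2⟩ := h i hi t ht
  rw [Pe] at h1 h2
  have h3 : e1 * th i t ≤ 12 / 10 ^ 48 := by
    calc e1 * th i t ≤ (15 / 10 ^ 50) * 76 := mul_le_mul a2 hth.2 (by linarith) (by norm_num)
      _ ≤ 12 / 10 ^ 48 := by norm_num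
  have h4 : e2 * th i t ≤ 12 / 10 ^ 48 := by
    calc e2 * th i t ≤ (15 / 10 ^ 50) * 76 := mul_le_mul b2 hth.2 (by linarith) (by norm_num)
      _ ≤ 12 / 10 ^ 48 := by norm_num
  have h5 : pp i (bs i) t * (e1 * th i t) ≤ 12 / 10 ^ 48 * (nV i / 2 ^ 400) := by
    rw [mul_comm]
    exact mul_le_mul h3 hle hpos.le (by norm_num)
  have h6 : pp i (bs i) t * (e2 * th i t) ≤ 12 / 10 ^ 48 * (nV i / 2 ^ 400) := by
    rw [mul_comm]
    exact mul_le_mul h4 hle hpos.le (by norm_num)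
  rw [abs_le]
  constructor
  · have e : pp i (bs i) t * (1 + -e2 * th i t) = pp i (bs i) t - pp i (bs i) t * (e2 * th i t) := by
      ring
    rw [e] at h1
    linarith
  · have e : pp i (bs i) t * (1 + e1 * th i t) = pp i (bs i) t + pp i (bs i) t * (e1 * th i t) := by
      ring
    rw [e] at h2
    linarith

end TWP.H
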