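import Mathlib
import Pool.Agent.TWP.StM

/-! TWP, block H: module CEN. -/

set_option autoImplicit false

namespace TWP.H

open Pool.Agent.TWP.Tail Filter Topology Set

theorem t_CEN (hPCE : S_PCE) : S_CEN := by
  intro q q1 i b V S V' S' Qc Lc c _ hi hchk hc hV1 hV2 hq hq1 hQ hL
  obtain ⟨_, _, hpt, _⟩ := hPCE i b V S V' S' hi hchk
  obtain ⟨hp, hp1, _, hp2⟩ := hpt c hc
  generalize pp i b c = p at *
  generalize pp1 i b c = p1 at *
  generalize (V : ℝ) / 2 ^ 400 = v at *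
  generalize (Qc : ℝ) / 2 ^ 200 = Q at *
  generalize (Lc : ℝ) / 2 ^ 200 = L at *
  generalize q c = x at *
  generalize q1 c = x1 at *
  have hv0 : 0 < v := by linarith
  have hx : p / 2 ≤ x := by
    have h1 := (abs_le.1 hq).1
    nlinarith
  have hx0 : 0 < x := by linarith
  constructor
  · calc |x - Q| = |(x - p) + (p - Q)| := by congr 1; ring
      _ ≤ |x - p| + |p - Q| := abs_add_le _ _
      _ ≤ 12 / 10 ^ 48 * v + 1 / 2 ^ 141 := add_le_add hq hQ
      _ ≤ 12 / 10 ^ 48 * (36 / 10) + 1 / 2 ^ 141 := by gcongr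
      _ ≤ 1 / 2 ^ 140 := by norm_num
  · have e1 : x1 / x - p1 / p = (x1 - p1) / x + (p1 / p) * ((p - x) / x) := by
      field_simp
      ring
    have e2 : |(x1 - p1) / x| ≤ 3 / 10 ^ 46 * 8 := by
      rw [abs_div, abs_of_pos hx0, div_le_iff₀ hx0]
      refine hq1.trans ?_
      nlinarith
    have e3 : |p1 / p| ≤ 32 := by
      rw [abs_div, abs_of_pos hp, abs_of_neg hp1, div_le_iff₀ hp]
      linarith
    have e4 : |(p - x) / x| ≤ 12 / 10 ^ 48 * 8 := by
      rw [abs_div, abs_of_pos hx0, div_le_iff₀ hx0, abs_sub_comm]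
      refine hq.trans ?_
      nlinarith
    have e5 : |x1 / x - p1 / p| ≤ 3 / 10 ^ 46 * 8 + 32 * (12 / 10 ^ 48 * 8) := by
      rw [e1]
      refine (abs_add_le _ _).trans (add_le_add e2 ?_)
      rw [abs_mul]
      exact mul_le_mul e3 e4 (abs_nonneg _) (by norm_num)
    calc |x1 / x - L| = |(x1 / x - p1 / p) + (p1 / p - L)| := by congr 1; ring
      _ ≤ |x1 / x - p1 / p| + |p1 / p - L| := abs_add_le _ _
      _ ≤ (3 / 10 ^ 46 * 8 + 32 * (12 / 10 ^ 48 * 8)) + 1 / 2 ^ 141 := add_le_add e5 hL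
      _ ≤ 1 / 2 ^ 140 := by norm_num

end TWP.H
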