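import Mathlib
import Pool.Agent.TWP.StH

/-! Module TWP_H_CMPL (helper52): comparison with a subsolution on a half line. -/

set_option autoImplicit false

namespace TWP.H

open Filter Topology Set

theorem t_CMPL (hCP : S_CP) (hNLM : S_NLM) : S_CMPL := by
  intro q q1 P T d hq hPc hPpos hSub hlim hPd hslope
  have hqc : Continuous q := continuous_iff_continuousAt.mpr fun t => (hq.d1 t).continuousAt
  have hmain := hCP P q T hPc hqc.continuousOn hPpos (fun t _ => hq.pos t) hlim (by
    intro t0 ht0 κ hκ hP0 hev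
    obtain ⟨φ, φ1, c, h1, h2, h3, h4, h5⟩ := hSub t0 ht0
    refine hNLM (fun t => κ * q t - P t) (fun t => κ * q t - φ t) (fun t => κ * q1 t - φ1 t)
      (κ * (t0 * q t0 + 2 * q t0 ^ 3) - c) t0 ?_ ?_ ?_ ?_ ?_ ?_
    · filter_upwards [h1] with t ht
      exact ((hq.d1 t).const_mul κ).sub ht
    · exact ((hq.d2 t0).const_mul κ).sub h2
    · rw [h3, hP0] at h5
      have hqp := hq.pos t0
      have hq3 : 0 < q t0 ^ 3 := by positivity
      have hk : 0 < κ * (κ ^ 2 - 1) := by
        have : 0 < κ ^ 2 - 1 := by nlinarith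
        have h0 : 0 < κ := by linarith
        positivity
      have hprod := mul_pos hk hq3
      have hid : κ * (t0 * q t0 + 2 * q t0 ^ 3) - (t0 * (κ * q t0) + 2 * (κ * q t0) ^ 3)
          = -(2 * (κ * (κ ^ 2 - 1) * q t0 ^ 3)) := by ring
      linarith
    · simp only [h3]
    · filter_upwards [h4] with t ht
      linarith
    · have h0 : κ * q t0 - P t0 = 0 := by rw [hP0]; ring
      show ∀ᶠ t in 𝓝 t0, κ * q t0 - P t0 ≤ κ * q t - P t
      filter_upwards [hev] with t ht
      rw [h0]
      linarith)
  rcases le_or_gt (P T / q T) 1 with hk | hk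
  · intro t ht
    have := hmain t ht
    rw [max_eq_left hk, one_mul] at this
    exact this
  · exfalso
    have hqT := hq.pos T
    set κ0 := P T / q T with hκ0
    have hPT : κ0 * q T = P T := div_mul_cancel₀ _ hqT.ne'
    have hder : HasDerivWithinAt (fun t => κ0 * q t - P t) (κ0 * q1 T - d) (Iic T) T :=
      ((hq.d1 T).hasDerivWithinAt.const_mul κ0).sub hPd
    rw [hasDerivWithinAt_iff_tendsto_slope, Set.Iic_sdiff_right] at hder
    have hle : κ0 * q1 T - d ≤ 0 := by
      refine le_of_tendsto hder ?_
      filter_upwards [self_mem_nhdsWithin] with t ht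
      have ht' : t < T := ht
      have h1 := hmain t ht'.le
      rw [max_eq_right hk.le] at h1
      rw [slope_def_field]
      refine div_nonpos_of_nonneg_of_nonpos ?_ (by linarith)
      rw [hPT]
      linarith
    have h2 : (κ0 * q1 T - d) * q T ≤ 0 := mul_nonpos_of_nonpos_of_nonneg hle hqT.le
    have h3 : (κ0 * q1 T - d) * q T = q1 T * P T - d * q T := by rw [← hPT]; ring
    linarith

end TWP.H
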