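import Pool.Agent.TWP.StH

/-!
# TWP, block H, module CMPU (helper14): comparison with a supersolution on a half line
-/

set_option autoImplicit false

namespace TWP.H

open Filter Topology Set

theorem left_deriv_nonpos {f : ℝ → ℝ} {T D : ℝ} (hf : HasDerivWithinAt f D (Iic T) T)
    (h0 : f T = 0) (hpos : ∀ t ≤ T, 0 ≤ f t) : D ≤ 0 := by
  have h1 : HasDerivWithinAt f D (Iio T) T := hf.mono Iio_subset_Iic_self
  rw [hasDerivWithinAt_iff_tendsto_slope' (self_notMem_Iio)] at h1
  refine le_of_tendsto h1 ?_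
  filter_upwards [self_mem_nhdsWithin] with t ht
  have ht' : t < T := ht
  rw [slope_def_field, h0, sub_zero]
  exact div_nonpos_of_nonneg_of_nonpos (hpos t ht'.le) (by linarith)

theorem t_CMPU (hCP : S_CP) (hNLM : S_NLM) : S_CMPU := by
  intro q q1 P T d hq hPc hPpos hSup hlim hPd hsl
  have hqc : Continuous q := continuous_iff_continuousAt.2 fun t => (hq.d1 t).continuousAt
  have key : ∀ t ≤ T, q t ≤ max 1 (q T / P T) * P t := by
    refine hCP q P T hqc.continuousOn hPc (fun t _ => hq.pos t) hPpos hlim ?_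
    intro t0 ht0 κ hκ h0 hle
    obtain ⟨φ, φ1, c, hφ, hφ1, hφ0, hPφ, hc⟩ := hSup t0 ht0
    have hP : 0 < P t0 := hPpos t0 ht0.le
    have hκ0 : 0 < κ := by linarith
    refine hNLM (fun t => κ * P t - q t) (fun t => κ * φ t - q t) (fun t => κ * φ1 t - q1 t)
      (κ * c - (t0 * q t0 + 2 * q t0 ^ 3)) t0 ?_ ?_ ?_ ?_ ?_ ?_
    · exact hφ.mono fun t h => (h.const_mul κ).sub (hq.d1 t)
    · exact (hφ1.const_mul κ).sub (hq.d2 t0)
    · rw [hφ0] at hc
      rw [h0]
      have h1 : κ * c ≤ κ * (t0 * P t0 + 2 * P t0 ^ 3) := mul_le_mul_of_nonneg_left hc hκ0.le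
      have h2 : 0 < κ * P t0 ^ 3 * (κ ^ 2 - 1) := by
        have : 0 < κ ^ 2 - 1 := by nlinarith
        positivity
      nlinarith [h1, h2]
    · show κ * P t0 - q t0 = κ * φ t0 - q t0
      rw [hφ0]
    · filter_upwards [hPφ] with t ht
      have := mul_le_mul_of_nonneg_left ht hκ0.le
      show κ * P t - q t ≤ κ * φ t - q t
      linarith
    · show ∀ᶠ t in 𝓝 t0, κ * P t0 - q t0 ≤ κ * P t - q t
      filter_upwards [hle] with t ht
      linarith
  by_cases h1 : q T / P T ≤ 1
  · intro t ht
    have := key t ht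
    rwa [max_eq_left h1, one_mul] at this
  · exfalso
    have h1' : 1 < q T / P T := not_le.1 h1
    have hPT : 0 < P T := hPpos T le_rfl
    have hmax : max 1 (q T / P T) = q T / P T := max_eq_right h1'.le
    rw [hmax] at key
    have hD : HasDerivWithinAt (fun t => q T / P T * P t - q t) (q T / P T * d - q1 T) (Iic T) T :=
      (hPd.const_mul _).sub (hq.d1 T).hasDerivWithinAt
    have h2 := left_deriv_nonpos hD (by
      show q T / P T * P T - q T = 0
      field_simp
      ring) (fun t ht => by have := key t ht; linarith)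
    have h3 : q T / P T * d * P T ≤ q1 T * P T :=
      mul_le_mul_of_nonneg_right (by linarith) hPT.le
    have h4 : q T / P T * d * P T = d * q T := by
      field_simp
    linarith

end TWP.H
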