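import Pool.Agent.TWP.StH

set_option autoImplicit false

namespace TWP.H

open Filter Topology Set

theorem t_CP : S_CP := by
  intro F G T hF hG hF0 hG0 hlim hcon t1 ht1
  by_contra hne
  have hG1 := hG0 t1 ht1
  have h1 : max 1 (F T / G T) < F t1 / G t1 := by
    rw [lt_div_iff₀ hG1]
    exact not_le.1 hne
  have h1a : 1 < F t1 / G t1 := lt_of_le_of_lt (le_max_left _ _) h1
  have h1b : F T / G T < F t1 / G t1 := lt_of_le_of_lt (le_max_right _ _) h1
  have hev : ∀ᶠ t in atBot, F t / G t < F t1 / G t1 := hlim.eventually (gt_mem_nhds h1a)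
  obtain ⟨A0, hA0⟩ := eventually_atBot.1 hev
  obtain ⟨A, hA⟩ : ∃ A : ℝ, A = min A0 t1 := ⟨_, rfl⟩
  have hAA0 : A ≤ A0 := by rw [hA]; exact min_le_left _ _
  have hAt1 : A ≤ t1 := by rw [hA]; exact min_le_right _ _
  have hcont : ContinuousOn (fun t => F t / G t) (Icc A T) := by
    refine ContinuousOn.div (hF.mono (fun t ht => ht.2)) (hG.mono (fun t ht => ht.2)) ?_
    intro t ht
    exact (hG0 t ht.2).ne'
  obtain ⟨t0, ht0, hmax⟩ := isCompact_Icc.exists_isMaxOn ⟨t1, ⟨hAt1, ht1⟩⟩ hcont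
  have hm1 : F t1 / G t1 ≤ F t0 / G t0 := hmax ⟨hAt1, ht1⟩
  have hall : ∀ t ≤ T, F t / G t ≤ F t0 / G t0 := by
    intro t ht
    rcases le_or_gt A t with h | h
    · exact hmax ⟨h, ht⟩
    · exact (hA0 t (h.le.trans hAA0)).le.trans hm1
  have hne0 : t0 ≠ T := by
    intro h
    rw [h] at hm1
    linarith
  have hlt : t0 < T := lt_of_le_of_ne ht0.2 hne0
  refine hcon t0 hlt (F t0 / G t0) (lt_of_lt_of_le h1a hm1) ?_ ?_
  · rw [div_mul_cancel₀ _ (hG0 t0 ht0.2).ne']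
  · filter_upwards [Iio_mem_nhds hlt] with t ht
    have hGt := hG0 t (le_of_lt ht)
    have := hall t (le_of_lt ht)
    rwa [div_le_iff₀ hGt] at this

end TWP.H
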