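import Mathlib
import Pool.Agent.TWP.StH

/-!
TWP, block H, module GLL: comparison with a piecewise subsolution.
-/

set_option autoImplicit false

namespace TWP.H

open Filter Topology Set

/-- The subsolution property at a node: the left piece is continued by a quadratic polynomial. -/
theorem gll_node (P Fm F1m G : ℝ → ℝ) (a b c g l : ℝ) (hla : l < a) (hab : a < b)
    (hl : ∀ t ∈ Ioc l a, HasDerivAt Fm (F1m t) t ∧ P t = Fm t) (hc : HasDerivAt F1m c a)
    (hle : a * P a + 2 * P a ^ 3 ≤ c) (hG : HasDerivAt G g a) (hGa : G a = P a)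
    (hlt : F1m a < g) (hr : ∀ t ∈ Ioc a b, P t = G t) : SubAt P a := by
  have haa : a ∈ Ioc l a := ⟨hla, le_rfl⟩
  obtain ⟨hFa, hPa⟩ := hl a haa
  set R : ℝ → ℝ := fun t => Fm a + F1m a * (t - a) + c / 2 * (t - a) ^ 2 with hR
  set R1 : ℝ → ℝ := fun t => F1m a + c * (t - a) with hR1
  have hRd : ∀ t, HasDerivAt R (R1 t) t := by
    intro t
    have h1 : HasDerivAt (fun t : ℝ => t - a) 1 t := (hasDerivAt_id t).sub_const a
    have h2 := (((h1.const_mul (F1m a)).const_add (Fm a)).add ((h1.pow 2).const_mul (c / 2)))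
    refine h2.congr_deriv ?_
    simp only [hR1]
    push_cast
    ring
  have hR1d : ∀ t, HasDerivAt R1 c t := by
    intro t
    have h1 : HasDerivAt (fun t : ℝ => t - a) 1 t := (hasDerivAt_id t).sub_const a
    have h2 := (h1.const_mul c).const_add (F1m a)
    refine h2.congr_deriv ?_
    ring
  have hRa : R a = Fm a := by simp [hR]
  have hR1a : R1 a = F1m a := by simp [hR1]
  refine ⟨fun t => if t ≤ a then Fm t else R t, fun t => if t ≤ a then F1m t else R1 t, c,
    ?_, ?_, ?_, ?_, ?_⟩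
  · filter_upwards [Ioi_mem_nhds hla] with t ht
    rcases lt_trichotomy t a with h | h | h
    · have h1 : (fun t => if t ≤ a then Fm t else R t) =ᶠ[𝓝 t] Fm := by
        filter_upwards [Iio_mem_nhds h] with s hs
        rw [if_pos (le_of_lt hs)]
      simp only [if_pos (le_of_lt h)]
      exact (hl t ⟨ht, le_of_lt h⟩).1.congr_of_eventuallyEq h1
    · subst h
      simp only [if_pos (le_refl t)]
      have h1 : HasDerivWithinAt (fun s => if s ≤ t then Fm s else R s) (F1m t) (Iic t) t := by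
        refine hFa.hasDerivWithinAt.congr (fun s hs => ?_) ?_
        · simp only [if_pos (mem_Iic.1 hs)]
        · simp only [if_pos (le_refl t)]
      have h2 : HasDerivWithinAt (fun s => if s ≤ t then Fm s else R s) (F1m t) (Ici t) t := by
        have h3 := (hRd t).hasDerivWithinAt (s := Ici t)
        rw [hR1a] at h3
        refine h3.congr (fun s hs => ?_) ?_
        · rcases eq_or_lt_of_le (mem_Ici.1 hs) with h4 | h4
          · rw [← h4]
            simp only [if_pos (le_refl t)]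
            exact hRa.symm
          · simp only [if_neg (not_le.2 h4)]
        · simp only [if_pos (le_refl t)]
          exact hRa.symm
      have h3 := h1.union h2
      rw [Iic_union_Ici] at h3
      exact h3.hasDerivAt univ_mem
    · have h1 : (fun t => if t ≤ a then Fm t else R t) =ᶠ[𝓝 t] R := by
        filter_upwards [Ioi_mem_nhds h] with s hs
        rw [if_neg (not_le.2 hs)]
      simp only [if_neg (not_le.2 h)]
      exact (hRd t).congr_of_eventuallyEq h1
  · have h1 : HasDerivWithinAt (fun s => if s ≤ a then F1m s else R1 s) c (Iic a) a := by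
      refine hc.hasDerivWithinAt.congr (fun s hs => ?_) ?_
      · simp only [if_pos (mem_Iic.1 hs)]
      · simp only [if_pos (le_refl a)]
    have h2 : HasDerivWithinAt (fun s => if s ≤ a then F1m s else R1 s) c (Ici a) a := by
      refine (hR1d a).hasDerivWithinAt.congr (fun s hs => ?_) ?_
      · rcases eq_or_lt_of_le (mem_Ici.1 hs) with h4 | h4
        · rw [← h4]
          simp only [if_pos (le_refl a)]
          exact hR1a.symm
        · simp only [if_neg (not_le.2 h4)]
      · simp only [if_pos (le_refl a)]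
        exact hR1a.symm
    have h3 := h1.union h2
    rw [Iic_union_Ici] at h3
    exact h3.hasDerivAt univ_mem
  · simp only [if_pos (le_refl a)]
    exact hPa.symm
  · have hs : HasDerivAt (fun t => G t - R t) (g - F1m a) a := by
      have := hG.sub (hRd a)
      rw [hR1a] at this
      exact this
    have hs2 := hasDerivAt_iff_tendsto_slope.1 hs
    have hs3 : ∀ᶠ t in 𝓝[≠] a, 0 < slope (fun t => G t - R t) a t :=
      hs2.eventually (lt_mem_nhds (sub_pos.2 hlt))
    rw [eventually_nhdsWithin_iff] at hs3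
    filter_upwards [hs3, Ioi_mem_nhds hla, Iio_mem_nhds hab] with t h1 h2 h3
    rcases le_or_gt t a with h | h
    · rw [if_pos h]
      exact le_of_eq (hl t ⟨h2, h⟩).2.symm
    · rw [if_neg (not_le.2 h), hr t ⟨h, le_of_lt h3⟩]
      have h4 := h1 (ne_of_gt h)
      rw [slope_def_field] at h4
      have h5 : 0 < t - a := sub_pos.2 h
      have h6 : 0 < (G t - R t) - (G a - R a) := by
        by_contra h7
        push Not at h7
        have := div_nonpos_of_nonpos_of_nonneg h7 (le_of_lt h5)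
        linarith
      rw [hGa, hRa, hPa] at h6
      linarith
  · simp only [if_pos (le_refl a)]
    rw [← hPa]
    exact hle

/-- `SubAt` is local. -/
theorem gll_congr (P Q : ℝ → ℝ) (t0 : ℝ) (h : ∀ᶠ t in 𝓝 t0, P t = Q t) (hP : SubAt P t0) :
    SubAt Q t0 := by
  obtain ⟨φ, φ1, c, h1, h2, h3, h4, h5⟩ := hP
  refine ⟨φ, φ1, c, h1, h2, h3.trans h.self_of_nhds, ?_, h5⟩
  filter_upwards [h, h4] with t ht ht2
  rwa [← ht]

/-- The glued function. -/
theorem gll_glue (x : ℕ → ℝ) (F F1 F2 : ℕ → ℝ → ℝ) (hx : StrictMono x)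
    (h0 : ∀ t ≤ x 0, 0 < F 0 t ∧ HasDerivAt (F 0) (F1 0 t) t ∧ HasDerivAt (F1 0) (F2 0 t) t ∧
      t * F 0 t + 2 * F 0 t ^ 3 ≤ F2 0 t) :
    ∀ M : ℕ, (∀ j < M, ∀ t ∈ Icc (x j) (x (j + 1)), 0 < F (j + 1) t ∧
      HasDerivAt (F (j + 1)) (F1 (j + 1) t) t ∧ HasDerivAt (F1 (j + 1)) (F2 (j + 1) t) t ∧
      t * F (j + 1) t + 2 * F (j + 1) t ^ 3 ≤ F2 (j + 1) t) →
    (∀ j < M, F (j + 1) (x j) = F j (x j)) → (∀ j < M, F1 j (x j) < F1 (j + 1) (x j)) →
    ∃ P : ℝ → ℝ, ContinuousOn P (Iic (x M)) ∧ (∀ t ≤ x M, 0 < P t) ∧ (∀ t < x M, SubAt P t) ∧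
      (∃ l < x M, ∀ t ∈ Ioc l (x M), HasDerivAt (F M) (F1 M t) t ∧ P t = F M t) ∧
      HasDerivAt (F1 M) (F2 M (x M)) (x M) ∧ x M * P (x M) + 2 * P (x M) ^ 3 ≤ F2 M (x M) ∧
      (∀ t ≤ x 0, P t = F 0 t) ∧ ∀ j < M, ∀ t ∈ Icc (x j) (x (j + 1)), P t = F (j + 1) t := by
  intro M
  induction M with
  | zero =>
    intro _ _ _
    refine ⟨F 0, fun t ht => (h0 t ht).2.1.continuousAt.continuousWithinAt,
      fun t ht => (h0 t ht).1, ?_, ⟨x 0 - 1, by linarith, fun t ht => ⟨(h0 t ht.2).2.1, rfl⟩⟩,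
      (h0 _ le_rfl).2.2.1, (h0 _ le_rfl).2.2.2, fun _ _ => rfl, fun j hj => by omega⟩
    intro t ht
    refine ⟨F 0, F1 0, F2 0 t, ?_, (h0 t ht.le).2.2.1, rfl, Eventually.of_forall fun _ => le_rfl,
      (h0 t ht.le).2.2.2⟩
    filter_upwards [Iio_mem_nhds ht] with s hs
    exact (h0 s (le_of_lt hs)).2.1
  | succ M ih =>
    intro h1 h2 h3
    obtain ⟨P, hcont, hpos, hsub, ⟨l, hl, hlP⟩, hd, hle, hP0, hPj⟩ :=
      ih (fun j hj => h1 j (by omega)) (fun j hj => h2 j (by omega)) (fun j hj => h3 j (by omega))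
    have hab : x M < x (M + 1) := hx (Nat.lt_succ_self M)
    have hb := h1 M (Nat.lt_succ_self M)
    have hPM : P (x M) = F M (x M) := (hlP (x M) ⟨hl, le_rfl⟩).2
    have hGa : F (M + 1) (x M) = P (x M) := (h2 M (Nat.lt_succ_self M)).trans hPM.symm
    set Q : ℝ → ℝ := fun t => if t ≤ x M then P t else F (M + 1) t with hQ
    have hQl : ∀ t ≤ x M, Q t = P t := fun t ht => if_pos ht
    have hQr : ∀ t, x M ≤ t → Q t = F (M + 1) t := by
      intro t ht
      rcases eq_or_lt_of_le ht with h | h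
      · rw [← h, hQl _ le_rfl, hGa]
      · exact if_neg (not_le.2 h)
    refine ⟨Q, ?_, ?_, ?_, ⟨x M, hab, fun t ht => ⟨(hb t ⟨ht.1.le, ht.2⟩).2.1, hQr t ht.1.le⟩⟩,
      (hb _ ⟨hab.le, le_rfl⟩).2.2.1, ?_, ?_, ?_⟩
    · have hc1 : ContinuousOn Q (Iic (x M)) := hcont.congr fun t ht => hQl t ht
      have hc2 : ContinuousOn Q (Icc (x M) (x (M + 1))) := by
        have : ContinuousOn (F (M + 1)) (Icc (x M) (x (M + 1))) :=
          fun t ht => (hb t ht).2.1.continuousAt.continuousWithinAt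
        exact this.congr fun t ht => hQr t ht.1
      have := hc1.union_of_isClosed hc2 isClosed_Iic isClosed_Icc
      rwa [Iic_union_Icc_eq_Iic hab.le] at this
    · intro t ht
      rcases le_or_gt t (x M) with h | h
      · rw [hQl t h]; exact hpos t h
      · rw [hQr t h.le]; exact (hb t ⟨h.le, ht⟩).1
    · intro t ht
      rcases lt_trichotomy t (x M) with h | h | h
      · refine gll_congr P Q t ?_ (hsub t h)
        filter_upwards [Iio_mem_nhds h] with s hs
        exact (hQl s (le_of_lt hs)).symm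
      · subst h
        refine gll_node Q (F M) (F1 M) (F (M + 1)) (x M) (x (M + 1)) (F2 M (x M))
          (F1 (M + 1) (x M)) l hl hab ?_ hd ?_ (hb _ ⟨le_rfl, hab.le⟩).2.1 ?_
          (h3 M (Nat.lt_succ_self M)) ?_
        · intro s hs
          exact ⟨(hlP s hs).1, (hQl s hs.2).trans (hlP s hs).2⟩
        · rw [hQl _ le_rfl]; exact hle
        · rw [hQl _ le_rfl]; exact hGa
        · intro s hs
          exact hQr s hs.1.le
      · refine ⟨F (M + 1), F1 (M + 1), F2 (M + 1) t, ?_, (hb t ⟨h.le, ht.le⟩).2.2.1,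
          (hQr t h.le).symm, ?_, ?_⟩
        · filter_upwards [Ioo_mem_nhds h ht] with s hs
          exact (hb s ⟨hs.1.le, hs.2.le⟩).2.1
        · filter_upwards [Ioi_mem_nhds h] with s hs
          exact le_of_eq (hQr s (le_of_lt hs)).symm
        · exact (hb t ⟨h.le, ht.le⟩).2.2.2
    · rw [hQr _ hab.le]
      exact (hb _ ⟨hab.le, le_rfl⟩).2.2.2
    · intro t ht
      rw [hQl t (ht.trans (hx.monotone (Nat.zero_le M)))]
      exact hP0 t ht
    · intro j hj t ht
      rcases Nat.lt_succ_iff_lt_or_eq.1 hj with h | h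
      · rw [hQl t (ht.2.trans (hx.monotone h))]
        exact hPj j h t ht
      · subst h
        exact hQr t ht.1

/-- GLL: comparison with a piecewise subsolution. -/
theorem t_GLL (hCMPL : S_CMPL) : S_GLL := by
  intro q q1 M x F F1 F2 hq hx h0 h1 h2 h3 hlim hslope
  obtain ⟨P, hcont, hpos, hsub, ⟨l, hl, hlP⟩, hd, hle, hP0, hPj⟩ :=
    gll_glue x F F1 F2 hx h0 M h1 h2 h3
  have hPM : P (x M) = F M (x M) := (hlP (x M) ⟨hl, le_rfl⟩).2
  have hlimP : Tendsto (fun t => P t / q t) atBot (𝓝 1) := by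
    refine hlim.congr' ?_
    filter_upwards [eventually_le_atBot (x 0)] with t ht
    rw [hP0 t ht]
  have hder : HasDerivWithinAt P (F1 M (x M)) (Iic (x M)) (x M) := by
    refine ((hlP (x M) ⟨hl, le_rfl⟩).1.hasDerivWithinAt (s := Iic (x M))).congr_of_eventuallyEq
      ?_ hPM
    filter_upwards [mem_nhdsWithin_of_mem_nhds (Ioi_mem_nhds hl), self_mem_nhdsWithin]
      with t ht1 ht2
    exact (hlP t ⟨ht1, ht2⟩).2
  have hmain := hCMPL q q1 P (x M) (F1 M (x M)) hq hcont hpos hsub hlimP hder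
    (by rw [hPM]; exact hslope)
  refine ⟨fun t ht => ?_, fun j hj t ht => ?_⟩
  · rw [← hP0 t ht]
    exact hmain t (ht.trans (hx.monotone (Nat.zero_le M)))
  · rw [← hPj j hj t ht]
    exact hmain t (ht.2.trans (hx.monotone hj))

end TWP.H
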