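import Mathlib
import Pool.Agent.TWP.StH

set_option autoImplicit false

namespace TWP.H

open Filter Topology Set

theorem glu_supAt_congr {P Q : ℝ → ℝ} {t0 : ℝ} (h : ∀ᶠ t in 𝓝 t0, Q t = P t) (hP : SupAt P t0) :
    SupAt Q t0 := by
  obtain ⟨φ, φ1, c, h1, h2, h3, h4, h5⟩ := hP
  refine ⟨φ, φ1, c, h1, h2, ?_, ?_, h5⟩
  · rw [h3, h.self_of_nhds]
  · filter_upwards [h, h4] with t ht1 ht2
    rw [ht1]; exact ht2

theorem glu_node (P f f1 g : ℝ → ℝ) (t0 c g1 : ℝ)
    (h1 : ∀ᶠ t in 𝓝[≤] t0, P t = f t) (h2 : ∀ᶠ t in 𝓝[≤] t0, HasDerivAt f (f1 t) t)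
    (h3 : HasDerivAt f1 c t0) (h4 : ∀ᶠ t in 𝓝[>] t0, P t = g t) (h5 : HasDerivAt g g1 t0)
    (h6 : g t0 = f t0) (h7 : g1 < f1 t0) (h8 : c ≤ t0 * f t0 + 2 * f t0 ^ 3) :
    SupAt P t0 := by
  have hmem : t0 ∈ Iic t0 := mem_Iic.2 le_rfl
  have hPt : P t0 = f t0 := h1.self_of_nhdsWithin hmem
  have hft : HasDerivAt f (f1 t0) t0 := h2.self_of_nhdsWithin hmem
  have hquad : ∀ t : ℝ, HasDerivAt (fun s : ℝ => f t0 + f1 t0 * (s - t0) + c / 2 * (s - t0) ^ 2)
      (f1 t0 + c * (t - t0)) t := by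
    intro t
    have ha : HasDerivAt (fun s : ℝ => s - t0) 1 t := (hasDerivAt_id t).sub_const t0
    have hb := ((ha.const_mul (f1 t0)).const_add (f t0)).add ((ha.pow 2).const_mul (c / 2))
    refine hb.congr_deriv ?_
    push_cast
    ring
  have hlin : HasDerivAt (fun s : ℝ => f1 t0 + c * (s - t0)) c t0 := by
    have ha : HasDerivAt (fun s : ℝ => s - t0) 1 t0 := (hasDerivAt_id t0).sub_const t0
    have hb := (ha.const_mul c).const_add (f1 t0)
    refine hb.congr_deriv ?_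
    ring
  let φ : ℝ → ℝ := fun t => if t ≤ t0 then f t else f t0 + f1 t0 * (t - t0) + c / 2 * (t - t0) ^ 2
  let φ1 : ℝ → ℝ := fun t => if t ≤ t0 then f1 t else f1 t0 + c * (t - t0)
  have hφt : φ t0 = f t0 := if_pos le_rfl
  have hφ1t : φ1 t0 = f1 t0 := if_pos le_rfl
  have hφL : ∀ t ≤ t0, φ t = f t := fun t ht => if_pos ht
  have hφ1L : ∀ t ≤ t0, φ1 t = f1 t := fun t ht => if_pos ht
  have hφR : ∀ t, t0 ≤ t → φ t = f t0 + f1 t0 * (t - t0) + c / 2 * (t - t0) ^ 2 := by
    intro t ht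
    rcases ht.eq_or_lt with h | h
    · subst h
      rw [hφt]; ring
    · exact if_neg (not_le.2 h)
  have hφ1R : ∀ t, t0 ≤ t → φ1 t = f1 t0 + c * (t - t0) := by
    intro t ht
    rcases ht.eq_or_lt with h | h
    · subst h
      rw [hφ1t]; ring
    · exact if_neg (not_le.2 h)
  refine ⟨φ, φ1, c, ?_, ?_, ?_, ?_, ?_⟩
  · -- derivative of φ near t0
    rw [eventually_nhdsWithin_iff] at h2
    filter_upwards [h2] with t ht
    rcases lt_trichotomy t t0 with h | h | h
    · have hd := ht (mem_Iic.2 h.le)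
      rw [hφ1L t h.le]
      refine hd.congr_of_eventuallyEq ?_
      filter_upwards [Iio_mem_nhds h] with s hs
      exact hφL s (le_of_lt hs)
    · rw [h, hφ1t]
      have hl : HasDerivWithinAt φ (f1 t0) (Iic t0) t0 :=
        hft.hasDerivWithinAt.congr (fun s hs => hφL s hs) hφt
      have hr : HasDerivWithinAt φ (f1 t0) (Ici t0) t0 := by
        have := (hquad t0).hasDerivWithinAt (s := Ici t0)
        have h' := this.congr (f₁ := φ) (fun s hs => hφR s hs) (hφR t0 le_rfl)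
        refine h'.congr_deriv ?_
        ring
      have hu := hl.union hr
      rw [Iic_union_Ici] at hu
      exact hu.hasDerivAt univ_mem
    · rw [hφ1R t h.le]
      refine (hquad t).congr_of_eventuallyEq ?_
      filter_upwards [Ioi_mem_nhds h] with s hs
      exact hφR s (le_of_lt hs)
  · have hl : HasDerivWithinAt φ1 c (Iic t0) t0 :=
      h3.hasDerivWithinAt.congr (fun s hs => hφ1L s hs) hφ1t
    have hr : HasDerivWithinAt φ1 c (Ici t0) t0 :=
      hlin.hasDerivWithinAt.congr (fun s hs => hφ1R s hs) (hφ1R t0 le_rfl)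
    have hu := hl.union hr
    rw [Iic_union_Ici] at hu
    exact hu.hasDerivAt univ_mem
  · rw [hφt, hPt]
  · -- P ≤ φ near t0
    have hh : HasDerivAt (fun s : ℝ => (f t0 + f1 t0 * (s - t0) + c / 2 * (s - t0) ^ 2) - g s)
        (f1 t0 + c * (t0 - t0) - g1) t0 := (hquad t0).sub h5
    have hpos : 0 < f1 t0 + c * (t0 - t0) - g1 := by
      have : f1 t0 + c * (t0 - t0) - g1 = f1 t0 - g1 := by ring
      rw [this]; linarith
    have hsl := hasDerivAt_iff_tendsto_slope.1 hh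
    have hev := hsl.eventually (lt_mem_nhds hpos)
    rw [eventually_nhdsWithin_iff] at hev h1 h4
    filter_upwards [hev, h1, h4] with t ht1 ht2 ht3
    rcases le_or_gt t t0 with h | h
    · rw [hφL t h, ht2 (mem_Iic.2 h)]
    · rw [hφR t h.le, ht3 h]
      have hne : t ∈ ({t0} : Set ℝ)ᶜ := by
        simp only [mem_compl_iff, mem_singleton_iff]
        exact ne_of_gt h
      have h' := ht1 hne
      rw [slope_def_field] at h'
      have hd : 0 < t - t0 := sub_pos.2 h
      have h'' := (div_pos_iff_of_pos_right hd).1 h'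
      have hz : f t0 + f1 t0 * (t0 - t0) + c / 2 * (t0 - t0) ^ 2 - g t0 = 0 := by
        rw [h6]; ring
      rw [hz] at h''
      linarith
  · rw [hφt]; exact h8

/-- The glued function. -/
noncomputable def gluF (x : ℕ → ℝ) (F : ℕ → ℝ → ℝ) : ℕ → ℝ → ℝ
  | 0 => F 0
  | (k + 1) => fun t => if t ≤ x k then gluF x F k t else F (k + 1) t

theorem gluF_le (x : ℕ → ℝ) (F : ℕ → ℝ → ℝ) (k : ℕ) (t : ℝ) (h : t ≤ x k) :
    gluF x F (k + 1) t = gluF x F k t := by
  simp only [gluF, if_pos h]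

theorem gluF_gt (x : ℕ → ℝ) (F : ℕ → ℝ → ℝ) (k : ℕ) (t : ℝ) (h : x k < t) :
    gluF x F (k + 1) t = F (k + 1) t := by
  simp only [gluF, if_neg (not_le.2 h)]

theorem glu_main (M : ℕ) (x : ℕ → ℝ) (F F1 F2 : ℕ → ℝ → ℝ) (hx : StrictMono x)
    (hA : ∀ t ≤ x 0, 0 < F 0 t ∧ HasDerivAt (F 0) (F1 0 t) t ∧ HasDerivAt (F1 0) (F2 0 t) t ∧
      F2 0 t ≤ t * F 0 t + 2 * F 0 t ^ 3)
    (hB : ∀ j < M, ∀ t ∈ Icc (x j) (x (j + 1)), 0 < F (j + 1) t ∧
      HasDerivAt (F (j + 1)) (F1 (j + 1) t) t ∧ HasDerivAt (F1 (j + 1)) (F2 (j + 1) t) t ∧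
      F2 (j + 1) t ≤ t * F (j + 1) t + 2 * F (j + 1) t ^ 3)
    (hC : ∀ j < M, F (j + 1) (x j) = F j (x j))
    (hD : ∀ j < M, F1 (j + 1) (x j) < F1 j (x j)) :
    ∀ k ≤ M, ContinuousOn (gluF x F k) (Iic (x k)) ∧ (∀ t ≤ x k, 0 < gluF x F k t) ∧
      (∀ t < x k, SupAt (gluF x F k) t) ∧
      (∀ᶠ t in 𝓝[≤] (x k), gluF x F k t = F k t) ∧
      (∀ᶠ t in 𝓝[≤] (x k), HasDerivAt (F k) (F1 k t) t) ∧
      HasDerivAt (F1 k) (F2 k (x k)) (x k) ∧
      F2 k (x k) ≤ x k * F k (x k) + 2 * F k (x k) ^ 3 ∧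
      (∀ t ≤ x 0, gluF x F k t = F 0 t) ∧
      (∀ j < k, ∀ t ∈ Icc (x j) (x (j + 1)), gluF x F k t = F (j + 1) t) := by
  intro k
  induction k with
  | zero =>
    intro _
    refine ⟨?_, fun t ht => (hA t ht).1, ?_, ?_, ?_, (hA _ le_rfl).2.2.1, (hA _ le_rfl).2.2.2,
      fun t _ => rfl, fun j hj => absurd hj (Nat.not_lt_zero _)⟩
    · intro t ht
      exact (hA t ht).2.1.continuousAt.continuousWithinAt
    · intro t ht
      refine ⟨F 0, F1 0, F2 0 t, ?_, (hA t ht.le).2.2.1, rfl, ?_, (hA t ht.le).2.2.2⟩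
      · filter_upwards [Iio_mem_nhds ht] with s hs
        exact (hA s (le_of_lt hs)).2.1
      · exact Eventually.of_forall fun s => le_rfl
    · exact Eventually.of_forall fun s => rfl
    · filter_upwards [self_mem_nhdsWithin] with s hs
      exact (hA s hs).2.1
  | succ k ih =>
    intro hk
    have hkM : k < M := hk
    obtain ⟨i1, i2, i3, i4, i5, i6, i7, i8, i9⟩ := ih hkM.le
    have hxk : x k < x (k + 1) := hx (Nat.lt_succ_self k)
    have hmemk : x k ∈ Iic (x k) := mem_Iic.2 le_rfl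
    have hGk : gluF x F k (x k) = F k (x k) := i4.self_of_nhdsWithin hmemk
    have hE : ∀ t ∈ Icc (x k) (x (k + 1)), gluF x F (k + 1) t = F (k + 1) t := by
      intro t ht
      rcases ht.1.eq_or_lt with h | h
      · rw [← h, gluF_le x F k (x k) le_rfl, hGk, hC k hkM]
      · exact gluF_gt x F k t h
    have hL : ∀ᶠ t in 𝓝[≤] (x (k + 1)), t ∈ Ioc (x k) (x (k + 1)) := by
      have : Ioc (x k) (x (k + 1)) ∈ 𝓝[≤] (x (k + 1)) := Ioc_mem_nhdsLE hxk
      exact this
    have hBk := hB k hkM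
    have hend : x (k + 1) ∈ Icc (x k) (x (k + 1)) := ⟨hxk.le, le_rfl⟩
    have hsta : x k ∈ Icc (x k) (x (k + 1)) := ⟨le_rfl, hxk.le⟩
    refine ⟨?_, ?_, ?_, ?_, ?_, (hBk _ hend).2.2.1, (hBk _ hend).2.2.2, ?_, ?_⟩
    · -- continuity
      have hc1 : ContinuousOn (gluF x F (k + 1)) (Iic (x k)) :=
        i1.congr fun t ht => gluF_le x F k t ht
      have hc2 : ContinuousOn (gluF x F (k + 1)) (Icc (x k) (x (k + 1))) := by
        have : ContinuousOn (F (k + 1)) (Icc (x k) (x (k + 1))) := fun t ht =>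
          (hBk t ht).2.1.continuousAt.continuousWithinAt
        exact this.congr fun t ht => hE t ht
      have hu := hc1.union_of_isClosed hc2 isClosed_Iic isClosed_Icc
      have hset : Iic (x (k + 1)) = Iic (x k) ∪ Icc (x k) (x (k + 1)) := by
        ext t
        simp only [mem_Iic, mem_union, mem_Icc]
        constructor
        · intro h
          rcases le_total t (x k) with h' | h'
          · exact Or.inl h'
          · exact Or.inr ⟨h', h⟩
        · rintro (h | h)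
          · exact h.trans hxk.le
          · exact h.2
      rw [hset]
      exact hu
    · intro t ht
      rcases le_total t (x k) with h' | h'
      · rw [gluF_le x F k t h']; exact i2 t h'
      · rw [hE t ⟨h', ht⟩]; exact (hBk t ⟨h', ht⟩).1
    · intro t ht
      rcases lt_trichotomy t (x k) with h | h | h
      · refine glu_supAt_congr ?_ (i3 t h)
        filter_upwards [Iio_mem_nhds h] with s hs
        exact gluF_le x F k s (le_of_lt hs)
      · rw [h]
        refine glu_node (gluF x F (k + 1)) (F k) (F1 k) (F (k + 1)) (x k) (F2 k (x k))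
          (F1 (k + 1) (x k)) ?_ i5 i6 ?_ (hBk _ hsta).2.1 (hC k hkM) (hD k hkM) i7
        · filter_upwards [i4, self_mem_nhdsWithin] with s hs hs'
          rw [gluF_le x F k s hs', hs]
        · filter_upwards [self_mem_nhdsWithin] with s hs
          exact gluF_gt x F k s hs
      · refine ⟨F (k + 1), F1 (k + 1), F2 (k + 1) t, ?_, (hBk t ⟨h.le, ht.le⟩).2.2.1, ?_, ?_,
          (hBk t ⟨h.le, ht.le⟩).2.2.2⟩
        · filter_upwards [Ioo_mem_nhds h ht] with s hs
          exact (hBk s ⟨hs.1.le, hs.2.le⟩).2.1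
        · exact (gluF_gt x F k t h).symm
        · filter_upwards [Ioi_mem_nhds h] with s hs
          exact (gluF_gt x F k s hs).le
    · filter_upwards [hL] with s hs
      exact hE s ⟨hs.1.le, hs.2⟩
    · filter_upwards [hL] with s hs
      exact (hBk s ⟨hs.1.le, hs.2⟩).2.1
    · intro t ht
      rw [gluF_le x F k t (ht.trans (hx.monotone (Nat.zero_le k)))]
      exact i8 t ht
    · intro j hj t ht
      rcases Nat.lt_succ_iff_lt_or_eq.1 hj with h | h
      · rw [gluF_le x F k t (ht.2.trans (hx.monotone h))]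
        exact i9 j h t ht
      · subst h
        exact hE t ht

theorem t_GLU (hCMPU : S_CMPU) : S_GLU := by
  intro q q1 M x F F1 F2 hHM hx hA hB hC hD hlim hslope
  obtain ⟨i1, i2, i3, i4, i5, i6, i7, i8, i9⟩ := glu_main M x F F1 F2 hx hA hB hC hD M le_rfl
  have hmem : x M ∈ Iic (x M) := mem_Iic.2 le_rfl
  have hGM : gluF x F M (x M) = F M (x M) := i4.self_of_nhdsWithin hmem
  have hFM : HasDerivAt (F M) (F1 M (x M)) (x M) := i5.self_of_nhdsWithin hmem
  have key : ∀ t ≤ x M, q t ≤ gluF x F M t := by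
    refine hCMPU q q1 (gluF x F M) (x M) (F1 M (x M)) hHM i1 i2 i3 ?_ ?_ ?_
    · refine hlim.congr' ?_
      filter_upwards [eventually_le_atBot (x 0)] with t ht
      rw [i8 t ht]
    · have h := hFM.hasDerivWithinAt (s := Iic (x M))
      exact h.congr_of_eventuallyEq i4 hGM
    · rw [hGM]; exact hslope
  refine ⟨?_, ?_⟩
  · intro t ht
    have h := key t (ht.trans (hx.monotone (Nat.zero_le M)))
    rw [i8 t ht] at h
    exact h
  · intro j hj t ht
    have h := key t (ht.2.trans (hx.monotone hj))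
    rw [i9 j hj t ht] at h
    exact h

end TWP.H
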