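import Pool.Agent.TWP.StH

/-! TWP.H, module LAN: Landau interpolation on a short interval (helper83). -/

set_option autoImplicit false

namespace TWP.H

open Filter Topology Set

/-- Taylor bound of order two, forward direction. -/
theorem lan_fwd (u v C : ℝ) (g g1 g2 : ℝ → ℝ) (huv : u ≤ v)
    (h1 : ∀ t ∈ Icc u v, HasDerivAt g (g1 t) t) (h2 : ∀ t ∈ Icc u v, HasDerivAt g1 (g2 t) t)
    (hC : ∀ t ∈ Icc u v, |g2 t| ≤ C) :
    |g v - g u - g1 u * (v - u)| ≤ C * (v - u) ^ 2 / 2 := by
  have hstep1 : ∀ s ∈ Icc u v, |g1 s - g1 u| ≤ C * (s - u) := by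
    intro s hs
    have := image_norm_le_of_norm_deriv_right_le_deriv_boundary (a := u) (b := v)
      (f := fun s => g1 s - g1 u) (f' := g2)
      (by
        intro x hx
        exact ((h2 x hx).continuousAt.continuousWithinAt).sub continuousWithinAt_const)
      (by
        intro x hx
        exact ((h2 x ⟨hx.1, hx.2.le⟩).sub_const _).hasDerivWithinAt)
      (B := fun s => C * (s - u)) (B' := fun _ => C)
      (by simp)
      (by
        intro x
        simpa using ((hasDerivAt_id x).sub_const u).const_mul C)
      (by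
        intro x hx
        simpa [Real.norm_eq_abs] using hC x ⟨hx.1, hx.2.le⟩)
      hs
    simpa [Real.norm_eq_abs] using this
  have := image_norm_le_of_norm_deriv_right_le_deriv_boundary (a := u) (b := v)
      (f := fun s => g s - g u - g1 u * (s - u)) (f' := fun s => g1 s - g1 u)
      (by
        intro x hx
        have := ((((h1 x hx).sub_const (g u)).sub
          (((hasDerivAt_id x).sub_const u).const_mul (g1 u))).continuousAt)
        exact this.continuousWithinAt)
      (by
        intro x hx
        have := ((((h1 x ⟨hx.1, hx.2.le⟩).sub_const (g u)).sub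
          (((hasDerivAt_id x).sub_const u).const_mul (g1 u))))
        refine (this.congr_deriv ?_).hasDerivWithinAt
        simp)
      (B := fun s => C * (s - u) ^ 2 / 2) (B' := fun s => C * (s - u))
      (by simp)
      (by
        intro x
        have := ((((hasDerivAt_id x).sub_const u).pow 2).const_mul C).div_const 2
        refine this.congr_deriv ?_
        simp
        ring)
      (by
        intro x hx
        simpa [Real.norm_eq_abs] using hstep1 x ⟨hx.1, hx.2.le⟩)
      (right_mem_Icc.2 huv)
  simpa [Real.norm_eq_abs] using this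

/-- Taylor bound of order two, backward direction. -/
theorem lan_bwd (u v C : ℝ) (g g1 g2 : ℝ → ℝ) (huv : u ≤ v)
    (h1 : ∀ t ∈ Icc u v, HasDerivAt g (g1 t) t) (h2 : ∀ t ∈ Icc u v, HasDerivAt g1 (g2 t) t)
    (hC : ∀ t ∈ Icc u v, |g2 t| ≤ C) :
    |g u - g v + g1 v * (v - u)| ≤ C * (v - u) ^ 2 / 2 := by
  have key := lan_fwd (-v) (-u) C (fun s => g (-s)) (fun s => -g1 (-s)) (fun s => g2 (-s))
    (by linarith)
    (by
      intro t ht
      have h := (h1 (-t) ⟨by linarith [ht.2], by linarith [ht.1]⟩)
      have := h.comp t (hasDerivAt_neg t)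
      simpa [Function.comp_def] using this)
    (by
      intro t ht
      have h := (h2 (-t) ⟨by linarith [ht.2], by linarith [ht.1]⟩)
      have := (h.comp t (hasDerivAt_neg t)).neg
      refine this.congr_deriv ?_
      simp)
    (by
      intro t ht
      exact hC (-t) ⟨by linarith [ht.2], by linarith [ht.1]⟩)
  simp only [neg_neg] at key
  have e1 : g u - g v - -g1 v * (-u - -v) = g u - g v + g1 v * (v - u) := by ring
  have e2 : C * (-u - -v) ^ 2 / 2 = C * (v - u) ^ 2 / 2 := by ring
  rw [e1, e2] at key
  exact key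

theorem t_LAN : S_LAN := by
  intro a b A C g g1 g2 hab h1 h2 hA hC t ht
  set δ : ℝ := (b - a) / 2 with hδ
  have hδ0 : 0 < δ := by rw [hδ]; linarith
  have hfin : |g1 t| * δ ≤ 2 * A + C * δ ^ 2 / 2 → |g1 t| ≤ 4 * A / (b - a) + C * (b - a) / 4 := by
    intro h
    have hba : b - a = 2 * δ := by rw [hδ]; ring
    rw [hba]
    have e : 4 * A / (2 * δ) + C * (2 * δ) / 4 = (2 * A + C * δ ^ 2 / 2) / δ := by
      field_simp
      ring
    rw [e, le_div_iff₀ hδ0]
    exact h
  apply hfin
  rcases le_total (t + δ) b with hc | hc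
  · have sub : Icc t (t + δ) ⊆ Icc a b := by
      intro s hs
      exact ⟨le_trans ht.1 hs.1, le_trans hs.2 hc⟩
    have key := lan_fwd t (t + δ) C g g1 g2 (by linarith)
      (fun s hs => h1 s (sub hs)) (fun s hs => h2 s (sub hs)) (fun s hs => hC s (sub hs))
    have e : t + δ - t = δ := by ring
    rw [e] at key
    have hA1 := hA t ht
    have hA2 := hA (t + δ) (sub (right_mem_Icc.2 (by linarith)))
    have : |g1 t| * δ = |g1 t * δ| := by rw [abs_mul, abs_of_pos hδ0]
    rw [this]
    rw [abs_le] at key hA1 hA2 ⊢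
    constructor <;> linarith [key.1, key.2, hA1.1, hA1.2, hA2.1, hA2.2]
  · have hle : a ≤ t - δ := by
      have : b = a + 2 * δ := by rw [hδ]; ring
      linarith
    have sub : Icc (t - δ) t ⊆ Icc a b := by
      intro s hs
      exact ⟨le_trans hle hs.1, le_trans hs.2 ht.2⟩
    have key := lan_bwd (t - δ) t C g g1 g2 (by linarith)
      (fun s hs => h1 s (sub hs)) (fun s hs => h2 s (sub hs)) (fun s hs => hC s (sub hs))
    have e : t - (t - δ) = δ := by ring
    rw [e] at key
    have hA1 := hA t ht
    have hA2 := hA (t - δ) (sub (left_mem_Icc.2 (by linarith)))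
    have : |g1 t| * δ = |g1 t * δ| := by rw [abs_mul, abs_of_pos hδ0]
    rw [this]
    rw [abs_le] at key hA1 hA2 ⊢
    constructor <;> linarith [key.1, key.2, hA1.1, hA1.2, hA2.1, hA2.2]

end TWP.H
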