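import Pool.Agent.TWP.StM

/-!
TWP, block H, module MIDL (helper37): the lower bound for `q` on the left tail and on all pieces.
-/

set_option autoImplicit false

namespace TWP.H

open Pool.Agent.TWP.Tail Filter Topology Set

theorem midl_alg (V S ε T s a b : ℝ) (hV : 0 < V) (hε : 0 < ε) (hk : 0 < 1 - ε * T)
    (hk1 : 1 - ε * T ≤ 1) (hs : 1 ≤ s) (ha : 0 < a) (h : 8 * S / V - ε / 2 < b / a) :
    (8 * S / 2 ^ 400 * (1 - ε * T) + V / 2 ^ 400 * (-ε * s)) * a <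
      b * (V / 2 ^ 400 * (1 - ε * T)) := by
  have h2 : (0 : ℝ) < 2 ^ 400 := by positivity
  have h3 : (8 * S / V - ε / 2) * a < b := by
    rwa [lt_div_iff₀ ha] at h
  have h4 : 8 * S * a - ε / 2 * V * a < b * V := by
    have h5 := mul_lt_mul_of_pos_right h3 hV
    have h6 : (8 * S / V - ε / 2) * a * V = 8 * S * a - ε / 2 * V * a := by
      field_simp
    rwa [h6] at h5
  have h7 : (8 * S * a - ε / 2 * V * a) * (1 - ε * T) < b * V * (1 - ε * T) :=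
    mul_lt_mul_of_pos_right h4 hk
  have hVa : 0 < ε * V * a := by positivity
  have h8 : ε / 2 * V * a * (1 - ε * T) ≤ V * (ε * s) * a := by
    have h9 : ε * V * a * (1 - ε * T) ≤ ε * V * a * 1 := mul_le_mul_of_nonneg_left hk1 hVa.le
    have h10 : ε * V * a * 1 ≤ ε * V * a * s := mul_le_mul_of_nonneg_left hs hVa.le
    have h11 : 0 ≤ ε * V * a * (1 - ε * T) := mul_nonneg hVa.le hk.le
    nlinarith
  have h12 : (8 * S * (1 - ε * T) + V * (-ε * s)) * a < b * (V * (1 - ε * T)) := by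
    nlinarith
  have e1 : (8 * S / 2 ^ 400 * (1 - ε * T) + V / 2 ^ 400 * (-ε * s)) * a =
      ((8 * S * (1 - ε * T) + V * (-ε * s)) * a) / 2 ^ 400 := by ring
  have e2 : b * (V / 2 ^ 400 * (1 - ε * T)) = (b * (V * (1 - ε * T))) / 2 ^ 400 := by ring
  rw [e1, e2]
  exact div_lt_div_of_pos_right h12 h2

theorem t_MIDL (hGLL : S_GLL) (hPCE : S_PCE) (hPSL : S_PSL) (hTHP : S_THP) : S_MIDL := by
  intro q q1 bs F0 F01 F02 ε hq hchk hε1 hε2 h0 hv hs hlim hend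
  obtain ⟨ht1, ht2, hsl, hsb, hthb⟩ := hTHP
  have hε0 : 0 < ε := lt_of_lt_of_le (by positivity) hε1
  have hpc := fun j (hj : j < 198) => hPCE j (bs j) (nV j) (nS j) (nV (j + 1)) (nS (j + 1)) hj
    (hchk j hj)
  have hnd : ∀ j : ℕ, nd j ≤ nd (j + 1) := by
    intro j
    unfold nd
    push_cast
    linarith
  -- values at the nodes
  have hL : ∀ j, j < 198 → Pe (-ε) j (bs j) (nd j) = (nV j : ℝ) / 2 ^ 400 * (1 + -ε * tn j) := by
    intro j hj
    unfold Pe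
    rw [(hpc j hj).2.2.2.1, ht1]
  have hL1 : ∀ j, j < 198 → Pe1 (-ε) j (bs j) (nd j) =
      8 * (nS j : ℝ) / 2 ^ 400 * (1 + -ε * tn j) + (nV j : ℝ) / 2 ^ 400 * (-ε * sl j) := by
    intro j hj
    unfold Pe1
    rw [(hpc j hj).2.2.2.1, (hpc j hj).2.2.2.2.1, ht1]
  have hR : ∀ j, j < 198 → Pe (-ε) j (bs j) (nd (j + 1)) =
      (nV (j + 1) : ℝ) / 2 ^ 400 * (1 + -ε * tn (j + 1)) := by
    intro j hj
    unfold Pe
    rw [(hpc j hj).2.2.2.2.2.1, ht2]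
  have hR1 : ∀ j, j < 198 → Pe1 (-ε) j (bs j) (nd (j + 1)) =
      8 * (nS (j + 1) : ℝ) / 2 ^ 400 * (1 + -ε * tn (j + 1)) +
        (nV (j + 1) : ℝ) / 2 ^ 400 * (-ε * sl j) := by
    intro j hj
    unfold Pe1
    rw [(hpc j hj).2.2.2.2.2.1, (hpc j hj).2.2.2.2.2.2, ht2]
  have hVpos : ∀ j, j < 198 → (0 : ℝ) < (nV (j + 1) : ℝ) := by
    intro j hj
    have h1 := ((hpc j hj).2.2.1 (nd (j + 1)) ⟨hnd j, le_rfl⟩).1
    rw [(hpc j hj).2.2.2.2.2.1] at h1
    by_contra h2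
    have h3 : (nV (j + 1) : ℝ) / 2 ^ 400 ≤ 0 :=
      div_nonpos_of_nonpos_of_nonneg (not_lt.1 h2) (by positivity)
    linarith
  have htn0 : tn 0 = 1 := by
    unfold tn
    norm_num
  have hsl0 : sl 0 = 2 := by
    unfold sl
    norm_num
  have hnd198 : nd 198 = 25 := by
    unfold nd
    norm_num
  have hmono : StrictMono nd := by
    refine strictMono_nat_of_lt_succ fun j => ?_
    unfold nd
    push_cast
    linarith
  obtain ⟨F, hF0, hFs⟩ : ∃ F : ℕ → ℝ → ℝ, F 0 = F0 ∧ ∀ j, F (j + 1) = Pe (-ε) j (bs j) :=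
    ⟨fun j => Nat.casesOn j F0 (fun j => Pe (-ε) j (bs j)), rfl, fun _ => rfl⟩
  obtain ⟨F1, hF10, hF1s⟩ : ∃ F : ℕ → ℝ → ℝ, F 0 = F01 ∧ ∀ j, F (j + 1) = Pe1 (-ε) j (bs j) :=
    ⟨fun j => Nat.casesOn j F01 (fun j => Pe1 (-ε) j (bs j)), rfl, fun _ => rfl⟩
  obtain ⟨F2, hF20, hF2s⟩ : ∃ F : ℕ → ℝ → ℝ, F 0 = F02 ∧ ∀ j, F (j + 1) = Pe2 (-ε) j (bs j) :=
    ⟨fun j => Nat.casesOn j F02 (fun j => Pe2 (-ε) j (bs j)), rfl, fun _ => rfl⟩
  have hmain := hGLL q q1 198 nd F F1 F2 hq hmono ?_ ?_ ?_ ?_ ?_ ?_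
  · rw [hF0] at hmain
    refine ⟨hmain.1, fun i hi t ht => ?_⟩
    have := hmain.2 i hi t ht
    rwa [hFs] at this
  · rw [hF0, hF10, hF20]
    exact h0
  · intro j hj t ht
    rw [hFs, hF1s, hF2s]
    exact hPSL j (bs j) (nV j) (nS j) (nV (j + 1)) (nS (j + 1)) ε hj (hchk j hj) hε1 hε2 t ht
  · intro j hj
    cases j with
    | zero =>
      rw [hFs, hF0, hL 0 hj, hv, htn0]
      ring
    | succ i =>
      rw [hFs, hFs, hL (i + 1) hj, hR i (by omega)]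
  · intro j hj
    cases j with
    | zero =>
      rw [hF1s, hF10, hL1 0 hj, htn0, hsl0]
      refine lt_of_lt_of_eq hs ?_
      ring
    | succ i =>
      rw [hF1s, hF1s, hL1 (i + 1) hj, hR1 i (by omega)]
      have h1 := hVpos i (by omega)
      have h2 := hsl i
      have h3 : (0 : ℝ) < (nV (i + 1) : ℝ) / 2 ^ 400 := by positivity
      have h4 : -ε * sl i < -ε * sl (i + 1) := by nlinarith
      have h5 := mul_lt_mul_of_pos_left h4 h3
      linarith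
  · rw [hF0]
    exact hlim
  · rw [show (198 : ℕ) = 197 + 1 from rfl, hF1s, hFs, hR1 197 (by norm_num), hR 197 (by norm_num)]
    have h1 := hVpos 197 (by norm_num)
    have h2 := hthb 197 (by norm_num) (nd (197 + 1)) ⟨hnd 197, le_rfl⟩
    rw [ht2] at h2
    have hk : 0 < 1 - ε * tn (197 + 1) := by nlinarith
    have hk1 : 1 - ε * tn (197 + 1) ≤ 1 := by nlinarith
    have h3 : q1 25 / q 25 = q1 (nd (197 + 1)) / q (nd (197 + 1)) := by
      rw [show (197 + 1 : ℕ) = 198 from rfl, hnd198]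
    rw [h3] at hend
    have h4 := midl_alg (nV (197 + 1) : ℝ) (nS (197 + 1) : ℝ) ε (tn (197 + 1)) (sl 197)
      (q (nd (197 + 1))) (q1 (nd (197 + 1))) h1 hε0 hk hk1 (hsb 197 (by norm_num)).1
      (hq.pos _) hend
    have e1 : (1 + -ε * tn (197 + 1)) = 1 - ε * tn (197 + 1) := by ring
    rw [e1]
    exact h4

end TWP.H
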