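import Pool.Agent.TWP.StM

/-!
TWP, block H, middle: the upper bound for `q` (module MIDU).
-/

set_option autoImplicit false

namespace TWP.H

open Pool.Agent.TWP.Tail Filter Topology Set

theorem midu_nd_lt (i : ℕ) : nd i < nd (i + 1) := by
  unfold nd
  push_cast
  linarith

theorem t_MIDU (hGLU : S_GLU) (hPCE : S_PCE) (hPSU : S_PSU) (hTHP : S_THP) : S_MIDU := by
  intro q q1 bs F0 F01 F02 ε hq hchk hε1 hε2 hF0 hv0 hs0 hlim hend
  have hε : 0 < ε := lt_of_lt_of_le (by positivity) hε1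
  obtain ⟨th1, th2, hsl, -, -⟩ := hTHP
  have hL : ∀ i, nd i ∈ Icc (nd i) (nd (i + 1)) := fun i => ⟨le_rfl, (midu_nd_lt i).le⟩
  have hR : ∀ i, nd (i + 1) ∈ Icc (nd i) (nd (i + 1)) := fun i => ⟨(midu_nd_lt i).le, le_rfl⟩
  -- values at the left and right ends of the pieces
  have hvL : ∀ i < 198, Pe ε i (bs i) (nd i) = (nV i : ℝ) / 2 ^ 400 * (1 + ε * tn i) := by
    intro i hi
    obtain ⟨-, -, -, h1, -, -, -⟩ := hPCE i (bs i) _ _ _ _ hi (hchk i hi)
    unfold Pe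
    rw [h1, th1]
  have hvR : ∀ i < 198, Pe ε i (bs i) (nd (i + 1)) =
      (nV (i + 1) : ℝ) / 2 ^ 400 * (1 + ε * tn (i + 1)) := by
    intro i hi
    obtain ⟨-, -, -, -, -, h1, -⟩ := hPCE i (bs i) _ _ _ _ hi (hchk i hi)
    unfold Pe
    rw [h1, th2]
  have hsL : ∀ i < 198, Pe1 ε i (bs i) (nd i) =
      8 * (nS i : ℝ) / 2 ^ 400 * (1 + ε * tn i) + (nV i : ℝ) / 2 ^ 400 * (ε * sl i) := by
    intro i hi
    obtain ⟨-, -, -, h1, h2, -, -⟩ := hPCE i (bs i) _ _ _ _ hi (hchk i hi)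
    unfold Pe1
    rw [h1, h2, th1]
  have hsR : ∀ i < 198, Pe1 ε i (bs i) (nd (i + 1)) =
      8 * (nS (i + 1) : ℝ) / 2 ^ 400 * (1 + ε * tn (i + 1)) +
        (nV (i + 1) : ℝ) / 2 ^ 400 * (ε * sl i) := by
    intro i hi
    obtain ⟨-, -, -, -, -, h1, h2⟩ := hPCE i (bs i) _ _ _ _ hi (hchk i hi)
    unfold Pe1
    rw [h1, h2, th2]
  have hVR : ∀ i < 198, 0 < (nV (i + 1) : ℝ) / 2 ^ 400 := by
    intro i hi
    obtain ⟨-, -, h0, -, -, h1, -⟩ := hPCE i (bs i) _ _ _ _ hi (hchk i hi)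
    rw [← h1]
    exact (h0 _ (hR i)).1
  have htn0 : tn 0 = 1 := by
    unfold tn
    norm_num
  have hsl0 : sl 0 = 2 := by
    unfold sl
    norm_num
  have hnd : nd 198 = 25 := by
    unfold nd
    norm_num
  have key := hGLU q q1 198 nd
    (fun j => match j with
      | 0 => F0
      | j + 1 => Pe ε j (bs j))
    (fun j => match j with
      | 0 => F01
      | j + 1 => Pe1 ε j (bs j))
    (fun j => match j with
      | 0 => F02
      | j + 1 => Pe2 ε j (bs j))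
    hq (strictMono_nat_of_lt_succ midu_nd_lt) hF0
    (fun j hj t ht => hPSU j (bs j) _ _ _ _ ε hj (hchk j hj) hε1 hε2 t ht)
    ?_ ?_ hlim ?_
  · exact key
  · intro j hj
    cases j with
    | zero =>
      show Pe ε 0 (bs 0) (nd 0) = F0 (nd 0)
      rw [hvL 0 (by norm_num), hv0, htn0, mul_one]
    | succ j =>
      show Pe ε (j + 1) (bs (j + 1)) (nd (j + 1)) = Pe ε j (bs j) (nd (j + 1))
      rw [hvL (j + 1) hj, hvR j (by omega)]
  · intro j hj
    cases j with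
    | zero =>
      show Pe1 ε 0 (bs 0) (nd 0) < F01 (nd 0)
      refine lt_of_eq_of_lt ?_ hs0
      rw [hsL 0 (by norm_num), htn0, hsl0, mul_one, mul_comm ε 2]
    | succ j =>
      show Pe1 ε (j + 1) (bs (j + 1)) (nd (j + 1)) < Pe1 ε j (bs j) (nd (j + 1))
      rw [hsL (j + 1) hj, hsR j (by omega)]
      have h1 := mul_lt_mul_of_pos_left (mul_lt_mul_of_pos_left (hsl j) hε)
        (hVR j (by omega))
      linarith only [h1]
  · show q1 (nd 198) * Pe ε 197 (bs 197) (nd 198) < Pe1 ε 197 (bs 197) (nd 198) * q (nd 198)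
    have e1 : Pe ε 197 (bs 197) (nd 198) = (nV 198 : ℝ) / 2 ^ 400 * (1 + ε * tn 198) :=
      hvR 197 (by norm_num)
    have e2 : Pe1 ε 197 (bs 197) (nd 198) = 8 * (nS 198 : ℝ) / 2 ^ 400 * (1 + ε * tn 198) +
        (nV 198 : ℝ) / 2 ^ 400 * (ε * sl 197) := hsR 197 (by norm_num)
    have e3 : 0 < (nV 198 : ℝ) / 2 ^ 400 := hVR 197 (by norm_num)
    rw [e1, e2, hnd]
    obtain ⟨n, hn⟩ : ∃ n : ℝ, n = (nV 198 : ℝ) := ⟨_, rfl⟩
    obtain ⟨s, hs⟩ : ∃ s : ℝ, s = (nS 198 : ℝ) := ⟨_, rfl⟩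
    obtain ⟨N, hN⟩ : ∃ N : ℝ, N = (2 : ℝ) ^ 400 := ⟨_, rfl⟩
    have hN0 : 0 < N := by rw [hN]; positivity
    rw [← hn, ← hs] at hend
    rw [← hn, ← hN] at e3
    rw [← hn, ← hs, ← hN]
    have hn0 : 0 < n := by
      have := mul_pos e3 hN0
      rwa [div_mul_cancel₀ n hN0.ne'] at this
    have hq0 : 0 < q 25 := hq.pos 25
    have htn : tn 198 = 1 + (396 - 198 * 197 / 400) / 4 := by
      unfold tn
      norm_num
    have hsl7 : sl 197 = 2 - 197 / 200 := by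
      unfold sl
      norm_num
    have hT : (1 + ε * tn 198) ≤ 2 * sl 197 := by
      rw [htn, hsl7]
      nlinarith only [hε2]
    have hT0 : 0 < 1 + ε * tn 198 := by
      rw [htn]
      nlinarith only [hε]
    rw [div_lt_iff₀ hq0] at hend
    have h2 : 0 < n / N * (1 + ε * tn 198) := mul_pos e3 hT0
    have h3 := mul_lt_mul_of_pos_right hend h2
    have h4 : 8 * s / n * (n / N) = 8 * s / N := by
      field_simp
    have h5 : (8 * s / n + ε / 2) * (n / N * (1 + ε * tn 198)) ≤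
        8 * s / N * (1 + ε * tn 198) + n / N * (ε * sl 197) := by
      have h6 : (8 * s / n + ε / 2) * (n / N * (1 + ε * tn 198)) =
          8 * s / n * (n / N) * (1 + ε * tn 198) + n / N * ε * (1 + ε * tn 198) / 2 := by ring
      rw [h6, h4]
      have h7 := mul_le_mul_of_nonneg_left hT (mul_pos e3 hε).le
      linarith only [h7]
    have h6 := mul_le_mul_of_nonneg_right h5 hq0.le
    linarith only [h3, h6]

end TWP.H
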