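import Mathlib
import Pool.Agent.TWP.StH

/-!
TWP, block H, NLM: no local minimum under a function with negative second derivative.
-/

set_option autoImplicit false

namespace TWP.H

open Filter Topology Set

theorem t_NLM : S_NLM := by
  intro f φ φ1 c t0 hφ hφ1 hc hf0 hle hmin
  -- `φ` has a local minimum at `t0`
  have hmin' : ∀ᶠ t in 𝓝 t0, φ t0 ≤ φ t := by
    filter_upwards [hle, hmin] with t h1 h2
    rw [← hf0]
    exact h2.trans h1
  have h0 : φ1 t0 = 0 := IsLocalMin.hasDerivAt_eq_zero hmin' hφ.self_of_nhds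
  -- the slope of `φ1` at `t0` is negative near `t0`
  have hsl : ∀ᶠ t in 𝓝[≠] t0, slope φ1 t0 t < 0 :=
    (hasDerivAt_iff_tendsto_slope.1 hφ1).eventually (gt_mem_nhds hc)
  have hsl' : ∀ᶠ t in 𝓝 t0, t ≠ t0 → slope φ1 t0 t < 0 := eventually_nhdsWithin_iff.1 hsl
  obtain ⟨δ, hδ, hball⟩ := Metric.eventually_nhds_iff.1 (hφ.and (hmin'.and hsl'))
  have hin : ∀ t, t0 ≤ t → t ≤ t0 + δ / 2 → dist t t0 < δ := by
    intro t h1 h2
    rw [Real.dist_eq, abs_of_nonneg (by linarith)]
    linarith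
  obtain ⟨s, hs, hs'⟩ := exists_hasDerivAt_eq_slope φ φ1 (a := t0) (b := t0 + δ / 2)
    (by linarith)
    (fun x hx => (hball (hin x hx.1 hx.2)).1.continuousAt.continuousWithinAt)
    (fun x hx => (hball (hin x hx.1.le hx.2.le)).1)
  -- `φ1 s` is negative
  have h1 : slope φ1 t0 s < 0 := (hball (hin s hs.1.le hs.2.le)).2.2 (ne_of_gt hs.1)
  rw [slope_def_field, h0, sub_zero] at h1
  have h2 : φ1 s < 0 := by
    by_contra hcon
    have h3 : 0 ≤ φ1 s / (s - t0) :=
      div_nonneg (le_of_not_gt hcon) (by linarith [hs.1])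
    linarith
  -- but it is nonnegative by the mean value theorem
  have h4 : φ t0 ≤ φ (t0 + δ / 2) := (hball (hin _ (by linarith) (le_refl _))).2.1
  have h5 : 0 ≤ (φ (t0 + δ / 2) - φ t0) / (t0 + δ / 2 - t0) :=
    div_nonneg (by linarith) (by linarith)
  rw [← hs'] at h5
  linarith

end TWP.H
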