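import Mathlib
import Pool.Agent.TWP.StM

/-!
TWP, block H, middle, module PCE: soundness of the kernel check of a piece (helper47).
-/

set_option autoImplicit false

namespace TWP.H

open Pool.Agent.TWP.Tail Filter Topology Set

namespace PCE

lemma ev_derL (l : List ℤ) (y : ℝ) : ev (derL l) y = dv l y := by
  unfold derL
  rw [ev_thL]
  cases l with
  | nil => simp [ev, dv]
  | cons a l => simp [dv]

lemma abs_ev_le_nrm {v : ℝ} (hv : |v| ≤ 1) (l : List ℤ) : |ev l v| ≤ (nrm l : ℝ) := by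
  induction l with
  | nil => simp [ev, nrm]
  | cons a l ih =>
    rw [ev_cons, nrm]
    push_cast
    have h1 : |(a : ℝ) + v * ev l v| ≤ |(a : ℝ)| + |v| * |ev l v| := by
      rw [← abs_mul]; exact abs_add_le _ _
    have h2 : |v| * |ev l v| ≤ 1 * |ev l v| := mul_le_mul_of_nonneg_right hv (abs_nonneg _)
    have h3 : ((a.natAbs : ℕ) : ℝ) = |(a : ℝ)| := by
      rw [← Int.cast_abs, Int.abs_eq_natAbs]
      simp
    rw [h3]
    linarith

lemma ev_head {v : ℝ} (hv : |v| ≤ 1) (l : List ℤ) :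
    |ev l v - (l.headD 0 : ℤ)| ≤ (nrm l.tail : ℝ) := by
  cases l with
  | nil => simp [ev, nrm]
  | cons a l =>
    rw [ev_cons]
    simp only [List.headD_cons, List.tail_cons]
    rw [add_sub_cancel_left, abs_mul]
    calc |v| * |ev l v| ≤ 1 * |ev l v| := mul_le_mul_of_nonneg_right hv (abs_nonneg _)
      _ = |ev l v| := one_mul _
      _ ≤ _ := abs_ev_le_nrm hv l

lemma ev_int (l : List ℤ) (y : ℤ) : ev l (y : ℝ) = ((evZ l y : ℤ) : ℝ) := by
  induction l with
  | nil => simp [ev, evZ]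
  | cons a l ih =>
    rw [ev_cons, evZ, ih]
    push_cast
    ring

lemma T8_cast : ((T8 : ℤ) : ℝ) = ((2 : ℝ) ^ 400) ^ 2 := by
  unfold T8
  rw [← pow_mul, Int.ofNat_eq_natCast, Int.cast_natCast, Nat.cast_pow, Nat.cast_ofNat]

lemma hasDerivAt_lv (i : ℕ) (t : ℝ) : HasDerivAt (lv i) 8 t := by
  have h : HasDerivAt (fun x : ℝ => 8 * (x - nd i) - 1) (8 * 1) t :=
    ((((hasDerivAt_id t).sub_const (nd i)).const_mul 8).sub_const 1)
  rw [mul_one] at h
  exact h

lemma deriv_comp (i : ℕ) (l : List ℤ) (t : ℝ) :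
    HasDerivAt (fun s => ev l (lv i s)) (ev (derL l) (lv i t) * 8) t := by
  rw [ev_derL]
  exact (hasDerivAt_ev l (lv i t)).comp t (hasDerivAt_lv i t)

lemma core {P I v t E0 E2 R : ℝ} (hP : 0 < P) (ht : 8 * t = 2 * I - 195 + v)
    (hR : R = 512 * P ^ 2 * E2 + -P ^ 2 * ((2 * I - 195 + v * 1) * E0) + -16 * (E0 * (E0 * E0))) :
    64 * E2 / P - t * (E0 / P) - 2 * (E0 / P) ^ 3 = R / (8 * P ^ 3) := by
  have h : t = (2 * I - 195 + v) / 8 := by linarith
  rw [hR, h]
  field_simp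
  ring

lemma core2 {P R N m E1 : ℝ} (hP : 0 < P) (hR : |R| ≤ N) (hN : N * (2 * 10 ^ 49) ≤ 64 * P ^ 2 * m)
    (hm : m ≤ -E1) : |R / (8 * P ^ 3)| ≤ -(8 * E1 / P) / (2 * 10 ^ 49) := by
  have hP3 : 0 < 8 * P ^ 3 := by positivity
  rw [abs_div, abs_of_pos hP3, div_le_div_iff₀ hP3 (by positivity)]
  have h1 : |R| * (2 * 10 ^ 49) ≤ 64 * P ^ 2 * (-E1) :=
    (mul_le_mul_of_nonneg_right hR (by positivity)).trans
      (hN.trans (mul_le_mul_of_nonneg_left hm (by positivity)))
  have h2 : -(8 * E1 / P) * (8 * P ^ 3) = 64 * P ^ 2 * (-E1) := by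
    field_simp
    ring
  rw [h2]
  exact h1

end PCE

open PCE in
theorem t_PCE : S_PCE := by
  intro i b V S V' S' hi hc
  unfold chk at hc
  simp only [Bool.and_eq_true, decide_eq_true_eq] at hc
  obtain ⟨c1, c2, c3, c4, c5, c6, c7, c8⟩ := hc
  have hP : (0 : ℝ) < 2 ^ 400 := by positivity
  have hnd : nd (i + 1) = nd i + 1 / 4 := by
    unfold nd
    push_cast
    ring
  have hl0 : lv i (nd i) = ((-1 : ℤ) : ℝ) := by
    unfold lv
    push_cast
    ring
  have hl1 : lv i (nd (i + 1)) = ((1 : ℤ) : ℝ) := by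
    unfold lv
    rw [hnd]
    push_cast
    ring
  refine ⟨fun t => ?_, fun t => ?_, fun t ht => ?_, ?_, ?_, ?_, ?_⟩
  · have h := (deriv_comp i b t).div_const (2 ^ 400)
    have e : pp1 i b t = ev (derL b) (lv i t) * 8 / 2 ^ 400 := by
      unfold pp1
      rw [mul_comm]
    rw [e]
    exact h
  · have h := ((deriv_comp i (derL b) t).const_mul 8).div_const (2 ^ 400)
    have e : pp2 i b t = 8 * (ev (derL (derL b)) (lv i t) * 8) / 2 ^ 400 := by
      unfold pp2
      congr 1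
      ring
    rw [e]
    exact h
  · obtain ⟨ht0, ht1⟩ := ht
    rw [hnd] at ht1
    have hv : |lv i t| ≤ 1 := by
      unfold lv
      rw [abs_le]
      constructor <;> linarith
    have h0 := abs_le.1 (ev_head hv b)
    have h1 := abs_le.1 (ev_head hv (derL b))
    have h1' := abs_le.1 (abs_ev_le_nrm hv (derL b))
    have hr := abs_ev_le_nrm hv (resL i b)
    set m : ℝ := -((derL b).headD 0 : ℤ) - (nrm (derL b).tail : ℝ) with hm
    have hm0 : 0 < m := by
      have : ((0 : ℤ) : ℝ) < ((-((derL b).headD 0) - (nrm (derL b).tail : ℤ) : ℤ) : ℝ) :=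
        Int.cast_lt.2 c1
      push_cast at this
      exact this
    have hE1 : m ≤ -ev (derL b) (lv i t) := by
      rw [hm]
      linarith [h1.2]
    have hE0 : 0 < ev b (lv i t) := by
      have : ((0 : ℤ) : ℝ) < ((b.headD 0 - (nrm b.tail : ℤ) : ℤ) : ℝ) := Int.cast_lt.2 c3
      push_cast at this
      linarith [h0.1]
    have hV : (nrm (derL b) : ℝ) ≤ (V : ℝ) := by
      have : (((nrm (derL b) : ℤ) : ℤ) : ℝ) ≤ ((V : ℤ) : ℝ) := Int.cast_le.2 c4
      push_cast at this
      exact this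
    refine ⟨div_pos hE0 hP, ?_, ?_, ?_⟩
    · unfold pp1
      refine div_neg_of_neg_of_pos ?_ hP
      linarith
    · have ht8 : 8 * t = 2 * (i : ℝ) - 195 + lv i t := by
        unfold lv nd
        ring
      have hR : ev (resL i b) (lv i t) = 512 * ((2 : ℝ) ^ 400) ^ 2 * ev (derL (derL b)) (lv i t) +
          -((2 : ℝ) ^ 400) ^ 2 * ((2 * (i : ℝ) - 195 + lv i t * 1) * ev b (lv i t)) +
          -16 * (ev b (lv i t) * (ev b (lv i t) * ev b (lv i t))) := by
        unfold resL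
        rw [ev_addL, ev_addL, ev_smulL, ev_smulL, ev_smulL, ev_mulL, ev_mulL, ev_mulL]
        rw [ev_cons, ev_cons, ev_nil, mul_zero, add_zero]
        rw [← T8_cast]
        push_cast
        ring
      have hN : (nrm (resL i b) : ℝ) * (2 * 10 ^ 49) ≤ 64 * ((2 : ℝ) ^ 400) ^ 2 * m := by
        have h2 : (((nrm (resL i b) : ℤ) * (2 * 10 ^ 49) : ℤ) : ℝ) ≤
            ((64 * T8 * (-((derL b).headD 0) - (nrm (derL b).tail : ℤ)) : ℤ) : ℝ) :=
          Int.cast_le.2 c2
        rw [Int.cast_mul, Int.cast_mul (64 * T8), Int.cast_mul 64 T8, T8_cast] at h2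
        push_cast at h2
        have h3 : (2 * 10 ^ 49 : ℝ) = 20000000000000000000000000000000000000000000000000 := by
          norm_num
        rw [h3]
        exact h2
      unfold pp2 pp pp1
      rw [core hP ht8 hR]
      exact core2 hP hr hN hE1
    · unfold pp1
      have h2 : -(8 * ev (derL b) (lv i t) / 2 ^ 400) = 8 * (-ev (derL b) (lv i t) / 2 ^ 400) := by
        rw [neg_div, mul_div_assoc, mul_neg]
      rw [h2]
      refine mul_le_mul_of_nonneg_left (div_le_div_of_nonneg_right ?_ hP.le) (by norm_num)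
      linarith [h1'.1]
  · unfold pp
    rw [hl0, ev_int, c5]
  · unfold pp1
    rw [hl0, ev_int, c6]
  · unfold pp
    rw [hl1, ev_int, c7]
  · unfold pp1
    rw [hl1, ev_int, c8]

end TWP.H
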