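import Pool.Agent.TWP.StM

set_option autoImplicit false

/-! TWP_H_PSL: the lower barrier is a subsolution on each piece. -/

namespace TWP.H

open Pool.Agent.TWP.Tail Filter Topology Set

theorem t_PSL (hPCE : S_PCE) (hTHP : S_THP) : S_PSL := by
  intro i b V S V' S' ε hi hchk he1 he2 t ht
  obtain ⟨hd0, hd1, hb, -⟩ := hPCE i b V S V' S' hi hchk
  obtain ⟨hp, hp1, hr, -⟩ := hb t ht
  obtain ⟨-, -, -, hsl, hth⟩ := hTHP
  obtain ⟨hs1, hs2⟩ := hsl i hi
  obtain ⟨ht1, ht2⟩ := hth i hi t ht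
  have hε : 0 < ε := lt_of_lt_of_le (by positivity) he1
  have hκ0 : 0 < 1 + -ε * th i t := by
    have : ε * th i t ≤ 1 / 100 * 76 := mul_le_mul he2 ht2 (by linarith) (by norm_num)
    linarith
  have hκ1 : 1 + -ε * th i t ≤ 1 := by
    have : 0 ≤ ε * th i t := mul_nonneg hε.le (by linarith)
    linarith
  have hdth : HasDerivAt (fun y => 1 + -ε * th i y) (-ε * sl i) t := by
    have h1 : HasDerivAt (fun y => th i y) (sl i) t := by
      have h2 : HasDerivAt (fun y : ℝ => tn i + sl i * (y - nd i)) (sl i * 1) t :=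
        (((hasDerivAt_id t).sub_const (nd i)).const_mul (sl i)).const_add (tn i)
      rw [mul_one] at h2
      exact h2
    exact (h1.const_mul (-ε)).const_add 1
  refine ⟨mul_pos hp hκ0, ?_, ?_, ?_⟩
  · have h := (hd0 t).mul hdth
    exact h
  · have h := ((hd1 t).mul hdth).add ((hd0 t).mul_const (-ε * sl i))
    have he : pp2 i b t * (1 + -ε * th i t) + pp1 i b t * (-ε * sl i) + pp1 i b t * (-ε * sl i) =
        Pe2 (-ε) i b t := by
      unfold Pe2; ring
    rw [he] at h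
    exact h
  · unfold Pe Pe2
    set κ := 1 + -ε * th i t with hκ
    set p := pp i b t with hpp
    set p1 := pp1 i b t with hpp1
    set p2 := pp2 i b t with hpp2
    obtain ⟨hr1, hr2⟩ := abs_le.1 hr
    have h1 : 0 ≤ 2 * p ^ 3 * κ * (1 - κ ^ 2) := by
      have : κ ^ 2 ≤ 1 := by
        have := mul_le_mul hκ1 hκ1 hκ0.le (by norm_num : (0:ℝ) ≤ 1)
        calc κ ^ 2 = κ * κ := by ring
          _ ≤ 1 := by linarith
      have h3 : 0 ≤ 2 * p ^ 3 * κ := by positivity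
      exact mul_nonneg h3 (by linarith)
    have h2 : -(-p1 / (2 * 10 ^ 49)) ≤ κ * (p2 - t * p - 2 * p ^ 3) := by
      have h4 : κ * (-(-p1 / (2 * 10 ^ 49))) ≤ κ * (p2 - t * p - 2 * p ^ 3) :=
        mul_le_mul_of_nonneg_left hr1 hκ0.le
      have h5 : κ * (-p1 / (2 * 10 ^ 49)) ≤ 1 * (-p1 / (2 * 10 ^ 49)) :=
        mul_le_mul_of_nonneg_right hκ1 (by apply div_nonneg <;> [linarith; positivity])
      linarith
    have h3 : 1 / (2 * 10 ^ 49) * (-p1) ≤ ε * sl i * (-p1) := by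
      apply mul_le_mul_of_nonneg_right _ (by linarith)
      calc (1 : ℝ) / (2 * 10 ^ 49) ≤ ε := he1
        _ = ε * 1 := by ring
        _ ≤ ε * sl i := mul_le_mul_of_nonneg_left hs1 hε.le
    have h4 : (1 : ℝ) / (2 * 10 ^ 49) * (-p1) = -p1 / (2 * 10 ^ 49) := by ring
    have h5 : 0 ≤ -p1 / (2 * 10 ^ 49) := by apply div_nonneg <;> [linarith; positivity]
    have h6 : p2 * κ + 2 * (p1 * (-ε * sl i)) - (t * (p * κ) + 2 * (p * κ) ^ 3) =
        2 * p ^ 3 * κ * (1 - κ ^ 2) + κ * (p2 - t * p - 2 * p ^ 3) + 2 * (ε * sl i * (-p1)) := by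
      ring
    linarith

end TWP.H
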