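import Pool.Agent.TWP.StM

set_option autoImplicit false

namespace TWP.H

open Pool.Agent.TWP.Tail Filter Topology Set

theorem psu_th (i : ℕ) (t : ℝ) : HasDerivAt (th i) (sl i) t := by
  unfold th
  have h1 : HasDerivAt (fun t : ℝ => t - nd i) 1 t := (hasDerivAt_id t).sub_const _
  have h2 := (h1.const_mul (sl i)).const_add (tn i)
  rw [mul_one] at h2
  exact h2

theorem psu_ineq (a p1 p2 t u e s K : ℝ) (ha : 0 < a) (hp1 : p1 < 0) (hu0 : 0 ≤ u) (hu1 : u ≤ 1)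
    (hK : 0 < K) (he : 1 / K ≤ e) (hs : 1 ≤ s)
    (hr : |p2 - t * a - 2 * a ^ 3| ≤ -p1 / K) :
    p2 * (1 + u) + 2 * (p1 * (e * s)) ≤ t * (a * (1 + u)) + 2 * (a * (1 + u)) ^ 3 := by
  have h1 : p2 - t * a - 2 * a ^ 3 ≤ -p1 / K := (le_abs_self _).trans hr
  have hd : 0 < -p1 := by linarith
  have h2 : -p1 / K ≤ -p1 * e := by
    rw [div_eq_mul_one_div]
    exact mul_le_mul_of_nonneg_left he hd.le
  have he0 : 0 < e := lt_of_lt_of_le (by positivity) he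
  have h3 : (1 + u) * (p2 - t * a - 2 * a ^ 3) ≤ 2 * (-p1 * e) := by
    calc (1 + u) * (p2 - t * a - 2 * a ^ 3) ≤ (1 + u) * (-p1 * e) :=
          mul_le_mul_of_nonneg_left (h1.trans h2) (by linarith)
      _ ≤ 2 * (-p1 * e) := mul_le_mul_of_nonneg_right (by linarith) (by positivity)
  have h4 : -p1 * e ≤ -p1 * e * s := le_mul_of_one_le_right (by positivity) hs
  have h5 : 0 ≤ 2 * a ^ 3 * (1 + u) * ((1 + u) ^ 2 - 1) := by
    have : 0 ≤ (1 + u) ^ 2 - 1 := by nlinarith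
    positivity
  have h6 : p2 * (1 + u) + 2 * (p1 * (e * s)) -
      (t * (a * (1 + u)) + 2 * (a * (1 + u)) ^ 3) =
      (1 + u) * (p2 - t * a - 2 * a ^ 3) - 2 * (-p1 * e * s) -
        2 * a ^ 3 * (1 + u) * ((1 + u) ^ 2 - 1) := by ring
  linarith

theorem t_PSU (hPCE : S_PCE) (hTHP : S_THP) : S_PSU := by
  intro i b V S V' S' ε hi hchk he1 he2 t ht
  obtain ⟨hd1, hd2, hb, -⟩ := hPCE i b V S V' S' hi hchk
  obtain ⟨hpos, hneg, hres, -⟩ := hb t ht
  obtain ⟨-, -, -, hsl, hth⟩ := hTHP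
  obtain ⟨hs1, hs2⟩ := hsl i hi
  obtain ⟨hth1, hth2⟩ := hth i hi t ht
  have hε : 0 < ε := lt_of_lt_of_le (by positivity) he1
  have hu0 : 0 < ε * th i t := mul_pos hε (by linarith)
  have hu1 : ε * th i t ≤ 1 := by
    calc ε * th i t ≤ 1 / 100 * 76 := mul_le_mul he2 hth2 (by linarith) (by norm_num)
      _ ≤ 1 := by norm_num
  have hD : ∀ x, HasDerivAt (fun x => 1 + ε * th i x) (ε * sl i) x := fun x =>
    ((psu_th i x).const_mul ε).const_add 1
  refine ⟨mul_pos hpos (by linarith), ?_, ?_, ?_⟩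
  · exact (hd1 t).mul (hD t)
  · have h1 := ((hd2 t).mul (hD t)).add ((hd1 t).mul_const (ε * sl i))
    have h2 : Pe2 ε i b t = pp2 i b t * (1 + ε * th i t) + pp1 i b t * (ε * sl i) +
        pp1 i b t * (ε * sl i) := by
      unfold Pe2; ring
    rw [h2]
    exact h1
  · exact psu_ineq (pp i b t) (pp1 i b t) (pp2 i b t) t (ε * th i t) ε (sl i) (2 * 10 ^ 49)
      hpos hneg hu0.le hu1 (by positivity) he1 hs1 hres

end TWP.H
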