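import Pool.Agent.TWP.StM

/-! Module THP of project TWP (MP_4cb661_pr): the weight. -/

set_option autoImplicit false

namespace TWP.H

open Pool.Agent.TWP.Tail Filter Topology Set

theorem t_THP : S_THP := by
  have hstep : ∀ i : ℕ, nd (i + 1) - nd i = 1 / 4 := by
    intro i
    unfold nd
    push_cast
    ring
  have htn : ∀ i : ℕ, tn i + sl i * (1 / 4) = tn (i + 1) := by
    intro i
    unfold tn sl
    push_cast
    ring
  have hsl : ∀ i < 198, 1 ≤ sl i ∧ sl i ≤ 2 := by
    intro i hi
    have hi' : (i : ℝ) ≤ 197 := by exact_mod_cast (by omega : i ≤ 197)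
    have h0 : (0 : ℝ) ≤ (i : ℝ) := Nat.cast_nonneg i
    unfold sl
    constructor <;> linarith
  refine ⟨?_, ?_, ?_, hsl, ?_⟩
  · intro i
    unfold th
    ring
  · intro i
    unfold th
    rw [hstep, htn]
  · intro i
    unfold sl
    push_cast
    linarith
  · intro i hi t ht
    have hi' : (i : ℝ) ≤ 197 := by exact_mod_cast (by omega : i ≤ 197)
    have h0 : (0 : ℝ) ≤ (i : ℝ) := Nat.cast_nonneg i
    obtain ⟨hs1, hs2⟩ := hsl i hi
    have ht0 : 0 ≤ t - nd i := by linarith [ht.1]
    have ht1 : t - nd i ≤ 1 / 4 := by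
      have := hstep i
      linarith [ht.2]
    have ha : 0 ≤ sl i * (t - nd i) := mul_nonneg (by linarith) ht0
    have hb : sl i * (t - nd i) ≤ sl i * (1 / 4) := mul_le_mul_of_nonneg_left ht1 (by linarith)
    constructor
    · unfold th
      have h1 : 1 ≤ tn i := by
        unfold tn
        nlinarith
      linarith
    · unfold th
      have h2 : tn (i + 1) ≤ 76 := by
        unfold tn
        push_cast
        nlinarith
      rw [← htn i] at h2
      linarith

end TWP.H
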