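import Mathlib
import Pool.Agent.TWP.HCEN
import Pool.Agent.TWP.HCMPL
import Pool.Agent.TWP.HCMPU
import Pool.Agent.TWP.HCP
import Pool.Agent.TWP.HGLL
import Pool.Agent.TWP.HGLU
import Pool.Agent.TWP.HLAN
import Pool.Agent.TWP.HMIDL
import Pool.Agent.TWP.HMIDU
import Pool.Agent.TWP.HNLM
import Pool.Agent.TWP.HPCE
import Pool.Agent.TWP.HPSL
import Pool.Agent.TWP.HPSU
import Pool.Agent.TWP.HTHP
import Pool.Agent.TWP.HBnd
import Pool.Agent.TWP.EHM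

/-!
TWP, block H: everything for the Hastings-McLeod solution `q` with `IsHM q`, from the table of the
pieces.
-/

set_option autoImplicit false

namespace TWP.H

open Pool.Agent.TWP.Tail Filter Topology Set

theorem g_CMPU : S_CMPU := t_CMPU t_CP t_NLM
theorem g_CMPL : S_CMPL := t_CMPL t_CP t_NLM
theorem g_PSU : S_PSU := t_PSU t_PCE t_THP
theorem g_PSL : S_PSL := t_PSL t_PCE t_THP
theorem g_MIDU : S_MIDU := t_MIDU (t_GLU g_CMPU) t_PCE g_PSU t_THP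
theorem g_MIDL : S_MIDL := t_MIDL (t_GLL g_CMPL) t_PCE g_PSL t_THP

/-- The data of the middle. -/
def Data (bs : ℕ → List ℤ) : Prop :=
  ∀ i < 198, chk i (bs i) (nV i) (nS i) (nV (i + 1)) (nS (i + 1)) = true

theorem h25 {q : ℝ → ℝ} (h : IsHM q) : |deriv q 25 / q 25 / (-Real.sqrt 25) -
    ev cS60 (zR 25 / 8)| ≤ 2 * 10 ^ 74 * zR 25 ^ 61 := by
  obtain ⟨C, hC⟩ := h.bdd
  exact H2_60 h.ode1 h.ode2 h.pos hC h.one_le 25 (le_refl _)

/-- (A) with `K = 40`. -/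
theorem fA40 (bs : ℕ → List ℤ) (hd : Data bs) {q : ℝ → ℝ} (h : IsHM q) :
    ∀ t, t ≤ -(49 / 2) →
      |q t / Real.sqrt (-t / 2) - ev cY40 (zL t / 16)| ≤ DY40 * zL t ^ 41 := by
  intro t ht
  have h1 := (bounds g_MIDU g_MIDL h.toH (h25 h) bs hd).1
  have ht' : t ≤ nd 0 := by rw [nd0]; linarith
  exact boundA h.toH ht' (h1 t ht')

/-- (A) with `K = 24`. -/
theorem fA24 (bs : ℕ → List ℤ) (hd : Data bs) {q : ℝ → ℝ} (h : IsHM q) :
    ∀ t, t ≤ -(49 / 2) →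
      |q t / Real.sqrt (-t / 2) - ev cY (zL t / 16)| ≤ 5 * 10 ^ 62 * zL t ^ 25 := by
  intro t ht
  have ht' : t ≤ nd 0 := by rw [nd0]; linarith
  exact boundA24 ht' (fA40 bs hd h t ht)

/-- (B), values. -/
theorem fB (bs : ℕ → List ℤ) (hd : Data bs) {q : ℝ → ℝ} (h : IsHM q) (i : ℕ) (hi : i < 198)
    (t : ℝ) (ht : t ∈ Icc (nd i) (nd (i + 1))) :
    |q t - pp i (bs i) t| ≤ 12 / 10 ^ 48 * (nV i / 2 ^ 400) :=
  boundB t_PCE t_THP bs hd (bounds g_MIDU g_MIDL h.toH (h25 h) bs hd).2 i hi t ht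

theorem nVle : ∀ i < 198, nV i * 10 ≤ 36 * 2 ^ 400 := by decide +kernel

theorem nVle' (i : ℕ) (hi : i < 198) : (nV i : ℝ) / 2 ^ 400 ≤ 36 / 10 := by
  have h1 : (nV i : ℝ) * 10 ≤ 36 * 2 ^ 400 := by exact_mod_cast nVle i hi
  have h2 : (0 : ℝ) < 2 ^ 400 := by positivity
  rw [div_le_div_iff₀ h2 (by norm_num)]
  exact h1

/-- (B), derivatives. -/
theorem fB1 (hDRV : S_DRV) (bs : ℕ → List ℤ) (hd : Data bs) {q : ℝ → ℝ} (h : IsHM q) (i : ℕ)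
    (hi : i < 198) (t : ℝ) (ht : t ∈ Icc (nd i) (nd (i + 1))) :
    |deriv q t - pp1 i (bs i) t| ≤ 3 / 10 ^ 46 * (nV i / 2 ^ 400) :=
  hDRV q (deriv q) i (bs i) _ _ _ _ h.toH hi (hd i hi) (nVle' i hi)
    (fun s hs => fB bs hd h i hi s hs) t ht

end TWP.H
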