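import Pool.Agent.TWP.Dat0
import Pool.Agent.TWP.Dat1
import Pool.Agent.TWP.Dat2
import Pool.Agent.TWP.Dat3
import Pool.Agent.TWP.Dat4
import Pool.Agent.TWP.Dat5
import Pool.Agent.TWP.Dat6
import Pool.Agent.TWP.Dat7
import Pool.Agent.TWP.Dat8
import Pool.Agent.TWP.Dat9
import Pool.Agent.TWP.Dat10
import Pool.Agent.TWP.Dat11
import Pool.Agent.TWP.Dat12
import Pool.Agent.TWP.Dat13
import Pool.Agent.TWP.Dat14
import Pool.Agent.TWP.Dat15
import Pool.Agent.TWP.Dat16
import Pool.Agent.TWP.Dat17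
import Pool.Agent.TWP.Dat18
import Pool.Agent.TWP.Dat19
import Pool.Agent.TWP.Dat20
import Pool.Agent.TWP.Dat21

set_option autoImplicit false

/-! TWP, block H: the 198 pieces as one function. -/

namespace TWP.H

/-- all pieces -/
def bsL : List (List ℤ) := [
  Dat.b0, Dat.b1, Dat.b2, Dat.b3, Dat.b4, Dat.b5, Dat.b6, Dat.b7, Dat.b8, Dat.b9, Dat.b10,
  Dat.b11, Dat.b12, Dat.b13, Dat.b14, Dat.b15, Dat.b16, Dat.b17, Dat.b18, Dat.b19, Dat.b20, Dat.b21,
  Dat.b22, Dat.b23, Dat.b24, Dat.b25, Dat.b26, Dat.b27, Dat.b28, Dat.b29, Dat.b30, Dat.b31, Dat.b32,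
  Dat.b33, Dat.b34, Dat.b35, Dat.b36, Dat.b37, Dat.b38, Dat.b39, Dat.b40, Dat.b41, Dat.b42, Dat.b43,
  Dat.b44, Dat.b45, Dat.b46, Dat.b47, Dat.b48, Dat.b49, Dat.b50, Dat.b51, Dat.b52, Dat.b53, Dat.b54,
  Dat.b55, Dat.b56, Dat.b57, Dat.b58, Dat.b59, Dat.b60, Dat.b61, Dat.b62, Dat.b63, Dat.b64, Dat.b65,
  Dat.b66, Dat.b67, Dat.b68, Dat.b69, Dat.b70, Dat.b71, Dat.b72, Dat.b73, Dat.b74, Dat.b75, Dat.b76,
  Dat.b77, Dat.b78, Dat.b79, Dat.b80, Dat.b81, Dat.b82, Dat.b83, Dat.b84, Dat.b85, Dat.b86, Dat.b87,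
  Dat.b88, Dat.b89, Dat.b90, Dat.b91, Dat.b92, Dat.b93, Dat.b94, Dat.b95, Dat.b96, Dat.b97, Dat.b98,
  Dat.b99, Dat.b100, Dat.b101, Dat.b102, Dat.b103, Dat.b104, Dat.b105, Dat.b106, Dat.b107, Dat.b108, Dat.b109,
  Dat.b110, Dat.b111, Dat.b112, Dat.b113, Dat.b114, Dat.b115, Dat.b116, Dat.b117, Dat.b118, Dat.b119, Dat.b120,
  Dat.b121, Dat.b122, Dat.b123, Dat.b124, Dat.b125, Dat.b126, Dat.b127, Dat.b128, Dat.b129, Dat.b130, Dat.b131,
  Dat.b132, Dat.b133, Dat.b134, Dat.b135, Dat.b136, Dat.b137, Dat.b138, Dat.b139, Dat.b140, Dat.b141, Dat.b142,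
  Dat.b143, Dat.b144, Dat.b145, Dat.b146, Dat.b147, Dat.b148, Dat.b149, Dat.b150, Dat.b151, Dat.b152, Dat.b153,
  Dat.b154, Dat.b155, Dat.b156, Dat.b157, Dat.b158, Dat.b159, Dat.b160, Dat.b161, Dat.b162, Dat.b163, Dat.b164,
  Dat.b165, Dat.b166, Dat.b167, Dat.b168, Dat.b169, Dat.b170, Dat.b171, Dat.b172, Dat.b173, Dat.b174, Dat.b175,
  Dat.b176, Dat.b177, Dat.b178, Dat.b179, Dat.b180, Dat.b181, Dat.b182, Dat.b183, Dat.b184, Dat.b185, Dat.b186,
  Dat.b187, Dat.b188, Dat.b189, Dat.b190, Dat.b191, Dat.b192, Dat.b193, Dat.b194, Dat.b195, Dat.b196, Dat.b197]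

/-- the piece `i` -/
def bs (i : ℕ) : List ℤ := bsL.getD i []

theorem bs_chk : ∀ i < 198, chk i (bs i) (nV i) (nS i) (nV (i + 1)) (nS (i + 1)) = true := by
  intro i hi
  interval_cases i
  · exact Dat.c0
  · exact Dat.c1
  · exact Dat.c2
  · exact Dat.c3
  · exact Dat.c4
  · exact Dat.c5
  · exact Dat.c6
  · exact Dat.c7
  · exact Dat.c8
  · exact Dat.c9
  · exact Dat.c10
  · exact Dat.c11
  · exact Dat.c12
  · exact Dat.c13
  · exact Dat.c14
  · exact Dat.c15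
  · exact Dat.c16
  · exact Dat.c17
  · exact Dat.c18
  · exact Dat.c19
  · exact Dat.c20
  · exact Dat.c21
  · exact Dat.c22
  · exact Dat.c23
  · exact Dat.c24
  · exact Dat.c25
  · exact Dat.c26
  · exact Dat.c27
  · exact Dat.c28
  · exact Dat.c29
  · exact Dat.c30
  · exact Dat.c31
  · exact Dat.c32
  · exact Dat.c33
  · exact Dat.c34
  · exact Dat.c35
  · exact Dat.c36
  · exact Dat.c37
  · exact Dat.c38
  · exact Dat.c39
  · exact Dat.c40
  · exact Dat.c41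
  · exact Dat.c42
  · exact Dat.c43
  · exact Dat.c44
  · exact Dat.c45
  · exact Dat.c46
  · exact Dat.c47
  · exact Dat.c48
  · exact Dat.c49
  · exact Dat.c50
  · exact Dat.c51
  · exact Dat.c52
  · exact Dat.c53
  · exact Dat.c54
  · exact Dat.c55
  · exact Dat.c56
  · exact Dat.c57
  · exact Dat.c58
  · exact Dat.c59
  · exact Dat.c60
  · exact Dat.c61
  · exact Dat.c62
  · exact Dat.c63
  · exact Dat.c64
  · exact Dat.c65
  · exact Dat.c66
  · exact Dat.c67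
  · exact Dat.c68
  · exact Dat.c69
  · exact Dat.c70
  · exact Dat.c71
  · exact Dat.c72
  · exact Dat.c73
  · exact Dat.c74
  · exact Dat.c75
  · exact Dat.c76
  · exact Dat.c77
  · exact Dat.c78
  · exact Dat.c79
  · exact Dat.c80
  · exact Dat.c81
  · exact Dat.c82
  · exact Dat.c83
  · exact Dat.c84
  · exact Dat.c85
  · exact Dat.c86
  · exact Dat.c87
  · exact Dat.c88
  · exact Dat.c89
  · exact Dat.c90
  · exact Dat.c91
  · exact Dat.c92
  · exact Dat.c93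
  · exact Dat.c94
  · exact Dat.c95
  · exact Dat.c96
  · exact Dat.c97
  · exact Dat.c98
  · exact Dat.c99
  · exact Dat.c100
  · exact Dat.c101
  · exact Dat.c102
  · exact Dat.c103
  · exact Dat.c104
  · exact Dat.c105
  · exact Dat.c106
  · exact Dat.c107
  · exact Dat.c108
  · exact Dat.c109
  · exact Dat.c110
  · exact Dat.c111
  · exact Dat.c112
  · exact Dat.c113
  · exact Dat.c114
  · exact Dat.c115
  · exact Dat.c116
  · exact Dat.c117
  · exact Dat.c118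
  · exact Dat.c119
  · exact Dat.c120
  · exact Dat.c121
  · exact Dat.c122
  · exact Dat.c123
  · exact Dat.c124
  · exact Dat.c125
  · exact Dat.c126
  · exact Dat.c127
  · exact Dat.c128
  · exact Dat.c129
  · exact Dat.c130
  · exact Dat.c131
  · exact Dat.c132
  · exact Dat.c133
  · exact Dat.c134
  · exact Dat.c135
  · exact Dat.c136
  · exact Dat.c137
  · exact Dat.c138
  · exact Dat.c139
  · exact Dat.c140
  · exact Dat.c141
  · exact Dat.c142
  · exact Dat.c143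
  · exact Dat.c144
  · exact Dat.c145
  · exact Dat.c146
  · exact Dat.c147
  · exact Dat.c148
  · exact Dat.c149
  · exact Dat.c150
  · exact Dat.c151
  · exact Dat.c152
  · exact Dat.c153
  · exact Dat.c154
  · exact Dat.c155
  · exact Dat.c156
  · exact Dat.c157
  · exact Dat.c158
  · exact Dat.c159
  · exact Dat.c160
  · exact Dat.c161
  · exact Dat.c162
  · exact Dat.c163
  · exact Dat.c164
  · exact Dat.c165
  · exact Dat.c166
  · exact Dat.c167
  · exact Dat.c168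
  · exact Dat.c169
  · exact Dat.c170
  · exact Dat.c171
  · exact Dat.c172
  · exact Dat.c173
  · exact Dat.c174
  · exact Dat.c175
  · exact Dat.c176
  · exact Dat.c177
  · exact Dat.c178
  · exact Dat.c179
  · exact Dat.c180
  · exact Dat.c181
  · exact Dat.c182
  · exact Dat.c183
  · exact Dat.c184
  · exact Dat.c185
  · exact Dat.c186
  · exact Dat.c187
  · exact Dat.c188
  · exact Dat.c189
  · exact Dat.c190
  · exact Dat.c191
  · exact Dat.c192
  · exact Dat.c193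
  · exact Dat.c194
  · exact Dat.c195
  · exact Dat.c196
  · exact Dat.c197

end TWP.H
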