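import Mathlib
import Pool.Agent.TWP.StM

/-!
TWP, block H: the check at a centre.
-/

set_option autoImplicit false

namespace TWP.H

open Pool.Agent.TWP.Tail Filter Topology Set

/-- `Σ a_n w ^ n 8 ^ (length - 1 - n)`. -/
def hw (w : ℤ) : List ℤ → ℤ
  | [] => 0
  | a :: l => a * 8 ^ l.length + w * hw w l

theorem ev_hw (w : ℤ) (l : List ℤ) : ev l ((w : ℝ) / 8) * 8 ^ l.length = 8 * hw w l := by
  induction l with
  | nil => simp [ev, hw]
  | cons a l ih =>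
    rw [ev_cons, List.length_cons, hw, pow_succ]
    push_cast
    calc ((a : ℝ) + (w : ℝ) / 8 * ev l ((w : ℝ) / 8)) * (8 ^ l.length * 8)
        = (a : ℝ) * (8 ^ l.length * 8) + w * (ev l ((w : ℝ) / 8) * 8 ^ l.length) := by ring
      _ = 8 * ((a : ℝ) * 8 ^ l.length + w * hw w l) := by rw [ih]; ring

/-- The check at the centre `cn / 64` in the piece `i`. -/
def cchk (i : ℕ) (b : List ℤ) (V cn w L Q : ℤ) : Bool :=
  decide (cn = 16 * (i : ℤ) - 1560 + w) && (decide (-8 ≤ w) && (decide (w ≤ 8) &&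
  (decide (0 < hw w b) && (decide (V * 8 ^ b.length ≤ 32 * hw w b) &&
  (decide (8 * hw w b - Q * 2 ^ 240 * 8 ^ b.length ≤ 2 ^ 259 * 8 ^ b.length) &&
  (decide (-(2 ^ 259 * 8 ^ b.length) ≤ 8 * hw w b - Q * 2 ^ 240 * 8 ^ b.length) &&
  (decide (64 * hw w (derL b) * 2 ^ 160 - L * hw w b ≤ 2 ^ 19 * hw w b) &&
  (decide (-(2 ^ 19 * hw w b) ≤ 64 * hw w (derL b) * 2 ^ 160 - L * hw w b) &&
  decide (b.length = (derL b).length + 1)))))))))

theorem cchk_spec {i : ℕ} {b : List ℤ} {V cn w L Q : ℤ} (h : cchk i b V cn w L Q = true) :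
    (cn : ℝ) / 64 ∈ Icc (nd i) (nd (i + 1)) ∧ (V : ℝ) / 2 ^ 400 ≤ 4 * pp i b (cn / 64) ∧
    0 < pp i b (cn / 64) ∧
    |pp i b (cn / 64) - ((Q * 2 ^ 40 : ℤ) : ℝ) / 2 ^ 200| ≤ 1 / 2 ^ 141 ∧
    |pp1 i b (cn / 64) / pp i b (cn / 64) - ((L * 2 ^ 40 : ℤ) : ℝ) / 2 ^ 200| ≤ 1 / 2 ^ 141 := by
  simp only [cchk, Bool.and_eq_true, decide_eq_true_eq] at h
  obtain ⟨h1, h2, h3, h4, h5, h6, h7, h8, h9, h10⟩ := h
  have h1' : (cn : ℝ) = 16 * i - 1560 + w := by exact_mod_cast h1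
  have h2' : (-8 : ℝ) ≤ w := by exact_mod_cast h2
  have h3' : (w : ℝ) ≤ 8 := by exact_mod_cast h3
  have h4' : (0 : ℝ) < hw w b := by exact_mod_cast h4
  have h5' : (V : ℝ) * 8 ^ b.length ≤ 32 * hw w b := by exact_mod_cast h5
  have h6' : (8 : ℝ) * hw w b - Q * 2 ^ 240 * 8 ^ b.length ≤ 2 ^ 259 * 8 ^ b.length := by
    exact_mod_cast h6
  have h7' : -((2 : ℝ) ^ 259 * 8 ^ b.length) ≤ 8 * hw w b - Q * 2 ^ 240 * 8 ^ b.length := by
    exact_mod_cast h7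
  have h8' : (64 : ℝ) * hw w (derL b) * 2 ^ 160 - L * hw w b ≤ 2 ^ 19 * hw w b := by
    exact_mod_cast h8
  have h9' : -((2 : ℝ) ^ 19 * hw w b) ≤ 64 * hw w (derL b) * 2 ^ 160 - L * hw w b := by
    exact_mod_cast h9
  have hlv : lv i ((cn : ℝ) / 64) = w / 8 := by
    rw [lv, nd, h1']; ring
  have e1 := ev_hw w b
  have e2 := ev_hw w (derL b)
  have hn : (0 : ℝ) < 8 ^ (derL b).length := by positivity
  have e8 : (8 : ℝ) ^ ((derL b).length + 1) = 8 ^ (derL b).length * 8 := pow_succ _ _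
  rw [h10, e8] at e1 h5' h6' h7'
  have hp : pp i b ((cn : ℝ) / 64) = hw w b / 8 ^ (derL b).length / 2 ^ 400 := by
    rw [pp, hlv]
    congr 1
    rw [eq_div_iff hn.ne']
    have : (8 : ℝ) * (ev b (w / 8) * 8 ^ (derL b).length) = 8 * hw w b := by rw [← e1]; ring
    exact mul_left_cancel₀ (by norm_num) this
  have hp1 : pp1 i b ((cn : ℝ) / 64) = 64 * hw w (derL b) / 8 ^ (derL b).length / 2 ^ 400 := by
    rw [pp1, hlv]
    congr 1
    rw [eq_div_iff hn.ne']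
    have : 8 * ev (derL b) ((w : ℝ) / 8) * 8 ^ (derL b).length = 8 * (8 * hw w (derL b)) := by
      rw [← e2]; ring
    rw [this]; ring
  generalize (hw w b : ℝ) = P at *
  generalize (hw w (derL b) : ℝ) = D at *
  generalize (8 : ℝ) ^ (derL b).length = N at *
  have p400 : (0 : ℝ) < 2 ^ 400 := by positivity
  have e400 : (2 : ℝ) ^ 400 = 2 ^ 240 * 2 ^ 160 := by rw [← pow_add]
  refine ⟨⟨?_, ?_⟩, ?_, ?_, ?_, ?_⟩
  · rw [nd, h1']; linarith
  · rw [nd, h1']; push_cast; linarith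
  · rw [hp]
    rw [← mul_div_assoc, div_le_div_iff_of_pos_right p400, ← mul_div_assoc, le_div_iff₀ hn]
    linarith
  · rw [hp]; positivity
  · rw [hp, e400]
    have e3 : ((Q * 2 ^ 40 : ℤ) : ℝ) / 2 ^ 200 = Q / 2 ^ 160 := by
      have e9 : (2 : ℝ) ^ 200 = 2 ^ 40 * 2 ^ 160 := by rw [← pow_add]
      rw [Int.cast_mul, Int.cast_pow, Int.cast_ofNat, e9, mul_comm ((2 : ℝ) ^ 40) (2 ^ 160),
        ← div_div, mul_div_assoc, mul_comm, ← div_mul_eq_mul_div]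
      field_simp
    rw [e3]
    have e4 : P / N / (2 ^ 240 * 2 ^ 160) - Q / 2 ^ 160 =
        (8 * P - Q * 2 ^ 240 * (N * 8)) / (N * 8 * 2 ^ 240 * 2 ^ 160) := by
      field_simp
    rw [e4, abs_le]
    constructor
    · rw [le_div_iff₀ (by positivity)]
      have e5 : -(1 / (2 : ℝ) ^ 141) * (N * 8 * 2 ^ 240 * 2 ^ 160) = -(2 ^ 259 * (N * 8)) := by
        rw [show (2 : ℝ) ^ 259 = 2 ^ 240 * 2 ^ 19 by rw [← pow_add],
          show (2 : ℝ) ^ 160 = 2 ^ 141 * 2 ^ 19 by rw [← pow_add]]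
        field_simp
      rw [e5]; linarith
    · rw [div_le_iff₀ (by positivity)]
      have e5 : (1 / (2 : ℝ) ^ 141) * (N * 8 * 2 ^ 240 * 2 ^ 160) = 2 ^ 259 * (N * 8) := by
        rw [show (2 : ℝ) ^ 259 = 2 ^ 240 * 2 ^ 19 by rw [← pow_add],
          show (2 : ℝ) ^ 160 = 2 ^ 141 * 2 ^ 19 by rw [← pow_add]]
        field_simp
      rw [e5]; linarith
  · rw [hp, hp1]
    have e3 : ((L * 2 ^ 40 : ℤ) : ℝ) / 2 ^ 200 = L / 2 ^ 160 := by
      have e9 : (2 : ℝ) ^ 200 = 2 ^ 40 * 2 ^ 160 := by rw [← pow_add]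
      rw [Int.cast_mul, Int.cast_pow, Int.cast_ofNat, e9, mul_comm ((2 : ℝ) ^ 40) (2 ^ 160),
        ← div_div, mul_div_assoc, mul_comm, ← div_mul_eq_mul_div]
      field_simp
    rw [e3]
    have e4 : 64 * D / N / 2 ^ 400 / (P / N / 2 ^ 400) - L / 2 ^ 160 =
        (64 * D * 2 ^ 160 - L * P) / (P * 2 ^ 160) := by
      have hP := h4'.ne'
      have hN := hn.ne'
      generalize (2 : ℝ) ^ 400 = K at *
      have hK := p400.ne'
      field_simp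
    rw [e4, abs_le]
    constructor
    · rw [le_div_iff₀ (by positivity)]
      have e5 : -(1 / (2 : ℝ) ^ 141) * (P * 2 ^ 160) = -(2 ^ 19 * P) := by
        rw [show (2 : ℝ) ^ 160 = 2 ^ 141 * 2 ^ 19 by rw [← pow_add]]
        field_simp
      rw [e5]; linarith
    · rw [div_le_iff₀ (by positivity)]
      have e5 : (1 / (2 : ℝ) ^ 141) * (P * 2 ^ 160) = 2 ^ 19 * P := by
        rw [show (2 : ℝ) ^ 160 = 2 ^ 141 * 2 ^ 19 by rw [← pow_add]]
        field_simp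
      rw [e5]; linarith

/-- The index of the piece of the centre `cn / 64`. -/
def ci (cn : ℤ) : ℕ := min 197 ((cn + 1568) / 16).toNat

/-- The check of a centre. -/
def cOK (bs : ℕ → List ℤ) (nv : ℕ → ℤ) (x : ℤ × ℤ × ℤ) : Bool :=
  cchk (ci x.1) (bs (ci x.1)) (nv (ci x.1)) x.1 (x.1 + 1560 - 16 * (ci x.1 : ℤ)) x.2.1 x.2.2

end TWP.H
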