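import Pool.Agent.TWP.HBs
import Pool.Agent.TWP.StM
import Pool.Agent.TWP.C.Cents

set_option autoImplicit false

/-! TWP, block H: the values at the 85 centres. -/

namespace TWP.H

open Pool.Agent.TWP.Tail Filter Topology Set

/-- `8^(length l) * ev l (m/8)` -/
def hom (m : ℤ) : List ℤ → ℤ
  | [] => 0
  | a :: l => 8 ^ (l.length + 1) * a + m * hom m l

theorem hom_spec (m : ℤ) (l : List ℤ) :
    (hom m l : ℝ) = 8 ^ l.length * ev l ((m : ℝ) / 8) := by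
  induction l with
  | nil => simp [hom, ev]
  | cons a l ih =>
    rw [hom, ev_cons, List.length_cons]
    push_cast
    rw [ih, pow_succ]
    ring

/-- `2^400` -/
def T4 : ℤ := Int.ofNat (2 ^ 400)

/-- the check at one centre -/
def cchk (m : ℤ) (b : List ℤ) (V Q0 L0 : ℤ) : Bool :=
  let H := hom m b
  let H1 := hom m (derL b)
  let P := 8 ^ b.length
  let P1 := 8 ^ (derL b).length
  decide (0 < H) && (decide (10 * V ≤ 36 * T4) && (decide (V * P ≤ 4 * H) &&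
  (decide ((H * 2 ^ 160 - Q0 * P * T4).natAbs * 2 ^ 141 ≤ (P * T4 * 2 ^ 160).natAbs) &&
  decide ((8 * H1 * P * 2 ^ 160 - L0 * P1 * H).natAbs * 2 ^ 141 ≤ (P1 * H * 2 ^ 160).natAbs))))

theorem cchk_spec (i : ℕ) (m : ℤ) (b : List ℤ) (V Q0 L0 : ℤ) (c : ℝ) (hc : lv i c = (m : ℝ) / 8)
    (h : cchk m b V Q0 L0 = true) :
    (V : ℝ) / 2 ^ 400 ≤ 36 / 10 ∧ (V : ℝ) / 2 ^ 400 ≤ 4 * pp i b c ∧
    |pp i b c - ((Q0 * 2 ^ 40 : ℤ) : ℝ) / 2 ^ 200| ≤ 1 / 2 ^ 141 ∧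
    |pp1 i b c / pp i b c - ((L0 * 2 ^ 40 : ℤ) : ℝ) / 2 ^ 200| ≤ 1 / 2 ^ 141 := by
  simp only [cchk, Bool.and_eq_true, decide_eq_true_eq] at h
  obtain ⟨h1, h2, h3, h4, h5⟩ := h
  have hT : ((T4 : ℤ) : ℝ) = 2 ^ 400 := by
    rw [T4]
    push_cast
    norm_num
  have e1 := hom_spec m b
  have e2 := hom_spec m (derL b)
  have hP : (0 : ℝ) < 8 ^ b.length := by positivity
  have hP1 : (0 : ℝ) < 8 ^ (derL b).length := by positivity
  have hH : (0 : ℝ) < (hom m b : ℝ) := by exact_mod_cast h1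
  have h2' : 10 * (V : ℝ) ≤ 36 * 2 ^ 400 := by rw [← hT]; exact_mod_cast h2
  have h3' : (V : ℝ) * 8 ^ b.length ≤ 4 * (hom m b : ℝ) := by exact_mod_cast h3
  have h4' : |(hom m b : ℝ) * 2 ^ 160 - Q0 * 8 ^ b.length * 2 ^ 400| * 2 ^ 141 ≤
      8 ^ b.length * 2 ^ 400 * 2 ^ 160 := by
    have h := (Nat.cast_le (α := ℝ)).2 h4
    rw [Nat.cast_mul, Nat.cast_natAbs, Nat.cast_natAbs] at h
    push_cast at h
    rw [hT] at h
    rw [abs_of_pos (show (0 : ℝ) < 8 ^ b.length * 2 ^ 400 *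
      1461501637330902918203684832716283019655932542976 by positivity)] at h
    refine le_trans (le_of_eq ?_) (h.trans (le_of_eq ?_))
    · norm_num
    · norm_num
  have h5' : |8 * (hom m (derL b) : ℝ) * 8 ^ b.length * 2 ^ 160 -
      L0 * 8 ^ (derL b).length * (hom m b : ℝ)| * 2 ^ 141 ≤
      8 ^ (derL b).length * (hom m b : ℝ) * 2 ^ 160 := by
    have h := (Nat.cast_le (α := ℝ)).2 h5
    rw [Nat.cast_mul, Nat.cast_natAbs, Nat.cast_natAbs] at h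
    push_cast at h
    rw [abs_of_pos (show (0 : ℝ) < 8 ^ (derL b).length * (hom m b : ℝ) *
      1461501637330902918203684832716283019655932542976 by positivity)] at h
    refine le_trans (le_of_eq ?_) (h.trans (le_of_eq ?_))
    · norm_num
    · norm_num
  have ep : pp i b c = (hom m b : ℝ) / (8 ^ b.length * 2 ^ 400) := by
    rw [pp, hc, e1]
    field_simp
  have ep1 : pp1 i b c = 8 * (hom m (derL b) : ℝ) / (8 ^ (derL b).length * 2 ^ 400) := by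
    rw [pp1, hc, e2]
    field_simp
  refine ⟨?_, ?_, ?_, ?_⟩
  · rw [div_le_div_iff₀ (by positivity) (by norm_num)]
    linarith
  · rw [ep, mul_div_assoc', div_le_div_iff₀ (by positivity) (by positivity)]
    calc (V : ℝ) * (8 ^ b.length * 2 ^ 400) = (V * 8 ^ b.length) * 2 ^ 400 := by ring
      _ ≤ (4 * (hom m b : ℝ)) * 2 ^ 400 := mul_le_mul_of_nonneg_right h3' (by positivity)
      _ = 4 * (hom m b : ℝ) * 2 ^ 400 := by ring
  · have e : pp i b c - ((Q0 * 2 ^ 40 : ℤ) : ℝ) / 2 ^ 200 =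
        ((hom m b : ℝ) * 2 ^ 160 - Q0 * 8 ^ b.length * 2 ^ 400) /
          (8 ^ b.length * 2 ^ 400 * 2 ^ 160) := by
      rw [ep]
      push_cast
      field_simp
      ring
    rw [e, abs_div, abs_of_pos (show (0 : ℝ) < 8 ^ b.length * 2 ^ 400 * 2 ^ 160 by positivity),
      div_le_div_iff₀ (by positivity) (by positivity), one_mul]
    exact h4'
  · have e : pp1 i b c / pp i b c - ((L0 * 2 ^ 40 : ℤ) : ℝ) / 2 ^ 200 =
        (8 * (hom m (derL b) : ℝ) * 8 ^ b.length * 2 ^ 160 -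
          L0 * 8 ^ (derL b).length * (hom m b : ℝ)) /
          (8 ^ (derL b).length * (hom m b : ℝ) * 2 ^ 160) := by
      rw [ep, ep1]
      push_cast
      field_simp
      ring
    rw [e, abs_div,
      abs_of_pos (show (0 : ℝ) < 8 ^ (derL b).length * (hom m b : ℝ) * 2 ^ 160 by positivity),
      div_le_div_iff₀ (by positivity) (by positivity), one_mul]
    exact h5'

/-- the piece of a centre -/
def ci (cn : ℤ) : ℕ := ((cn + 1568) / 16).toNat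

/-- the local variable (times 8) of a centre -/
def cm (cn : ℤ) : ℤ := (cn + 1568) % 16 - 8

theorem cents_ok : (TWP.C.cents.all fun x =>
    decide (0 ≤ x.1 + 1568) && (decide (ci x.1 < 198) &&
      cchk (cm x.1) (bs (ci x.1)) (nV (ci x.1)) x.2.2 x.2.1)) = true := by
  decide +kernel

theorem cent_lv (cn : ℤ) (h : 0 ≤ cn + 1568) :
    lv (ci cn) ((cn : ℝ) / 64) = (cm cn : ℝ) / 8 ∧
      (cn : ℝ) / 64 ∈ Icc (nd (ci cn)) (nd (ci cn + 1)) := by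
  have h1 : ((ci cn : ℕ) : ℤ) = (cn + 1568) / 16 := by
    rw [ci, Int.toNat_of_nonneg (Int.ediv_nonneg h (by norm_num))]
  have h2 := Int.mul_ediv_add_emod (cn + 1568) 16
  have h3 := Int.emod_nonneg (cn + 1568) (by norm_num : (16 : ℤ) ≠ 0)
  have h4 := Int.emod_lt_of_pos (cn + 1568) (by norm_num : (0 : ℤ) < 16)
  have e : (cn : ℤ) = 16 * (ci cn : ℤ) + (cm cn + 8) - 1568 := by
    rw [h1, cm]; omega
  have e' : (cn : ℝ) = 16 * (ci cn : ℝ) + ((cm cn : ℝ) + 8) - 1568 := by exact_mod_cast e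
  have h5 : (0 : ℝ) ≤ (cm cn : ℝ) + 8 := by
    have : (0 : ℤ) ≤ cm cn + 8 := by rw [cm]; omega
    exact_mod_cast this
  have h6 : (cm cn : ℝ) + 8 < 16 := by
    have : cm cn + 8 < (16 : ℤ) := by rw [cm]; omega
    exact_mod_cast this
  refine ⟨?_, ?_, ?_⟩
  · rw [lv, nd, e']; ring
  · rw [nd, e']; linarith
  · rw [nd, e']; push_cast; linarith

theorem cent_values (hDRV : S_DRV) (hCEN : S_CEN) (q q1 : ℝ → ℝ) (hq : HM q q1)
    (hB : ∀ i < 198, ∀ t ∈ Icc (nd i) (nd (i + 1)),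
      |q t - pp i (bs i) t| ≤ 12 / 10 ^ 48 * ((nV i : ℝ) / 2 ^ 400)) :
    ∀ x ∈ TWP.C.cents,
      |(2 : ℝ) ^ 160 * (q1 ((x.1 : ℝ) / 64) / q ((x.1 : ℝ) / 64)) - (x.2.1 : ℝ)| ≤ 2 ^ 20 ∧
      |(2 : ℝ) ^ 160 * q ((x.1 : ℝ) / 64) - (x.2.2 : ℝ)| ≤ 2 ^ 20 := by
  intro x hx
  have hall := List.all_eq_true.1 cents_ok x hx
  simp only [Bool.and_eq_true, decide_eq_true_eq] at hall
  obtain ⟨a1, a2, a3⟩ := hall
  obtain ⟨b1, b2⟩ := cent_lv x.1 a1
  obtain ⟨c1, c2, c3, c4⟩ := cchk_spec (ci x.1) (cm x.1) (bs (ci x.1)) (nV (ci x.1)) x.2.2 x.2.1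
    ((x.1 : ℝ) / 64) b1 a3
  have hq' := hB (ci x.1) a2
  have hd := hDRV q q1 (ci x.1) (bs (ci x.1)) _ _ _ _ hq a2 (bs_chk _ a2) c1 hq' _ b2
  obtain ⟨r1, r2⟩ := hCEN q q1 (ci x.1) (bs (ci x.1)) _ _ _ _ (x.2.2 * 2 ^ 40) (x.2.1 * 2 ^ 40)
    ((x.1 : ℝ) / 64) hq a2 (bs_chk _ a2) b2 c1 c2 (hq' _ b2) hd c3 c4
  have key : ∀ (y : ℝ) (k : ℤ), |y - ((k * 2 ^ 40 : ℤ) : ℝ) / 2 ^ 200| ≤ 1 / 2 ^ 140 →
      |(2 : ℝ) ^ 160 * y - (k : ℝ)| ≤ 2 ^ 20 := by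
    intro y k h
    have e : (2 : ℝ) ^ 160 * y - (k : ℝ) = 2 ^ 160 * (y - ((k * 2 ^ 40 : ℤ) : ℝ) / 2 ^ 200) := by
      push_cast
      ring
    rw [e, abs_mul, abs_of_pos (show (0 : ℝ) < 2 ^ 160 by positivity)]
    refine (mul_le_mul_of_nonneg_left h (by positivity)).trans ?_
    norm_num
  exact ⟨key _ _ r2, key _ _ r1⟩

end TWP.H
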