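import Pool.Agent.TWP.StM

set_option autoImplicit false

namespace TWP.H

open Pool.Agent.TWP.Tail Filter Topology Set

theorem t_DRV (hPCE : S_PCE) (hLAN : S_LAN) : S_DRV := by
  intro q q1 i b V S V' S' hq hi hc hV hE t ht
  obtain ⟨p1, p2, p3, p4, -, -, -⟩ := hPCE i b V S V' S' hi hc
  have hab : nd i < nd (i + 1) := by
    rw [nd, nd]; push_cast; linarith
  have hlen : nd (i + 1) - nd i = 1 / 4 := by
    rw [nd, nd]; push_cast; ring
  have hlo : -25 ≤ nd i := by
    rw [nd]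
    have : (0 : ℝ) ≤ i := Nat.cast_nonneg i
    linarith
  have hhi : nd (i + 1) ≤ 25 := by
    rw [nd]
    have h : ((i + 1 : ℕ) : ℝ) ≤ 198 := by exact_mod_cast hi
    linarith
  have hanti : AntitoneOn (pp i b) (Icc (nd i) (nd (i + 1))) := by
    refine antitoneOn_of_deriv_nonpos (convex_Icc _ _)
      (fun s _ => (p1 s).continuousAt.continuousWithinAt)
      (fun s _ => (p1 s).differentiableAt.differentiableWithinAt) ?_
    intro s hs
    rw [interior_Icc] at hs
    rw [(p1 s).deriv]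
    exact (p3 s ⟨hs.1.le, hs.2.le⟩).2.1.le
  set pm := (V : ℝ) / 2 ^ 400 with hpm
  have hle : ∀ s ∈ Icc (nd i) (nd (i + 1)), 0 < pp i b s ∧ pp i b s ≤ pm := by
    intro s hs
    refine ⟨(p3 s hs).1, ?_⟩
    rw [← p4]
    exact hanti ⟨le_rfl, hab.le⟩ hs hs.1
  have hpm0 : 0 < pm := (hle (nd i) ⟨le_rfl, hab.le⟩).1.trans_le (hle (nd i) ⟨le_rfl, hab.le⟩).2
  have main := hLAN (nd i) (nd (i + 1)) (12 / 10 ^ 48 * pm) (124 / 10 ^ 47 * pm)
    (fun s => q s - pp i b s) (fun s => q1 s - pp1 i b s)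
    (fun s => (s * q s + 2 * q s ^ 3) - pp2 i b s) hab
    (fun s _ => (hq.d1 s).sub (p1 s)) (fun s _ => (hq.d2 s).sub (p2 s)) hE ?_ t ht
  · rw [hlen] at main
    refine main.trans ?_
    have : 4 * (12 / 10 ^ 48 * pm) / (1 / 4) + 124 / 10 ^ 47 * pm * (1 / 4) / 4 =
        (16 * 12 / 10 ^ 48 + 124 / 16 / 10 ^ 47) * pm := by ring
    rw [this]
    exact mul_le_mul_of_nonneg_right (by norm_num) hpm0.le
  · intro s hs
    obtain ⟨h0, h1⟩ := hle s hs
    obtain ⟨-, h2, h3, h4⟩ := p3 s hs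
    have hEs := hE s hs
    have ht1 : |s| ≤ 25 := abs_le.2 ⟨by linarith [hs.1], by linarith [hs.2]⟩
    have hqb : |q s| ≤ 3601 / 1000 := by
      have e : q s = (q s - pp i b s) + pp i b s := by ring
      rw [e]
      refine (abs_add_le _ _).trans ?_
      rw [abs_of_pos h0]
      have : 12 / 10 ^ 48 * pm ≤ 1 / 1000 := by
        have : 12 / 10 ^ 48 * pm ≤ 12 / 10 ^ 48 * (36 / 10) :=
          mul_le_mul_of_nonneg_left hV (by norm_num)
        refine this.trans ?_
        norm_num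
      linarith
    have hq0 := hq.pos s
    rw [abs_of_pos hq0] at hqb
    set E := q s - pp i b s with hEdef
    have e : (s * q s + 2 * q s ^ 3) - pp2 i b s =
        s * E + 2 * (E * (q s ^ 2 + q s * pp i b s + pp i b s ^ 2)) -
          (pp2 i b s - s * pp i b s - 2 * pp i b s ^ 3) := by
      rw [hEdef]; ring
    show |(s * q s + 2 * q s ^ 3) - pp2 i b s| ≤ _
    rw [e]
    have hQ : |q s ^ 2 + q s * pp i b s + pp i b s ^ 2| ≤ 39 := by
      rw [abs_of_nonneg (by positivity)]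
      have hp : pp i b s ≤ 3601 / 1000 := by linarith
      nlinarith
    have a1 : |s * E| ≤ 25 * (12 / 10 ^ 48 * pm) := by
      rw [abs_mul]
      exact mul_le_mul ht1 hEs (abs_nonneg _) (by norm_num)
    have a2 : |2 * (E * (q s ^ 2 + q s * pp i b s + pp i b s ^ 2))| ≤
        2 * (12 / 10 ^ 48 * pm * 39) := by
      rw [abs_mul, abs_mul, abs_of_pos (show (0 : ℝ) < 2 by norm_num)]
      refine mul_le_mul_of_nonneg_left ?_ (by norm_num)
      exact mul_le_mul hEs hQ (abs_nonneg _) (by positivity)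
    have a3 : |pp2 i b s - s * pp i b s - 2 * pp i b s ^ 3| ≤ 8 * pm / (2 * 10 ^ 49) := by
      refine h3.trans ?_
      exact div_le_div_of_nonneg_right h4 (by norm_num)
    refine (abs_sub _ _).trans ?_
    have a4 := abs_add_le (s * E) (2 * (E * (q s ^ 2 + q s * pp i b s + pp i b s ^ 2)))
    calc _ ≤ (25 * (12 / 10 ^ 48 * pm) + 2 * (12 / 10 ^ 48 * pm * 39)) + 8 * pm / (2 * 10 ^ 49) := by
          linarith
      _ = (103 * 12 / 10 ^ 48 + 8 / (2 * 10 ^ 49)) * pm := by ring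
      _ ≤ 124 / 10 ^ 47 * pm := mul_le_mul_of_nonneg_right (by norm_num) hpm0.le

end TWP.H
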