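import Pool.Agent.TWP.HAll
import Pool.Agent.TWP.HCent
import Pool.Agent.TWP.HDRV

/-!
TWP, block H: values of `q'/q` and `q` at a centre of `[-49/2, 25]` with the error `2^12 / 2^160`.
-/

set_option autoImplicit false

namespace TWP.H

open Pool.Agent.TWP.Tail Filter Topology Set

/-- the sharp check at one centre -/
def cchk4 (m : ℤ) (b : List ℤ) (V Q0 L0 : ℤ) : Bool :=
  let H := hom m b
  let H1 := hom m (derL b)
  let P := 8 ^ b.length
  let P1 := 8 ^ (derL b).length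
  decide (0 < H) && (decide (10 * V ≤ 36 * T4) && (decide (V * P ≤ 4 * H) &&
  (decide (|H * 2 ^ 160 - Q0 * P * T4| ≤ 2 ^ 10 * (P * T4)) &&
  (decide (|8 * H1 * P * 2 ^ 160 - L0 * P1 * H| ≤ 2 ^ 10 * (P1 * H)) &&
  decide (|8 * H1 * P| ≤ 6 * (P1 * H))))))

theorem cchk4_spec (i : ℕ) (m : ℤ) (b : List ℤ) (V Q0 L0 : ℤ) (c : ℝ) (hc : lv i c = (m : ℝ) / 8)
    (h : cchk4 m b V Q0 L0 = true) :
    0 < pp i b c ∧ (V : ℝ) / 2 ^ 400 ≤ 36 / 10 ∧ (V : ℝ) / 2 ^ 400 ≤ 4 * pp i b c ∧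
    |2 ^ 160 * pp i b c - Q0| ≤ 2 ^ 10 ∧ |2 ^ 160 * (pp1 i b c / pp i b c) - L0| ≤ 2 ^ 10 ∧
    |pp1 i b c / pp i b c| ≤ 6 := by
  simp only [cchk4, Bool.and_eq_true, decide_eq_true_eq] at h
  obtain ⟨h1, h2, h3, h4, h5, h6⟩ := h
  have hT : ((T4 : ℤ) : ℝ) = 2 ^ 400 := by
    rw [T4]
    push_cast
    norm_num
  have e1 := hom_spec m b
  have e2 := hom_spec m (derL b)
  have hP : (0 : ℝ) < 8 ^ b.length := by positivity
  have hP1 : (0 : ℝ) < 8 ^ (derL b).length := by positivity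
  have hH : (0 : ℝ) < (hom m b : ℝ) := by exact_mod_cast h1
  have hTp : (0 : ℝ) < 2 ^ 400 := by positivity
  have h2' : 10 * (V : ℝ) ≤ 36 * 2 ^ 400 := by rw [← hT]; exact_mod_cast h2
  have h3' : (V : ℝ) * 8 ^ b.length ≤ 4 * (hom m b : ℝ) := by exact_mod_cast h3
  have h4' : |(hom m b : ℝ) * 2 ^ 160 - Q0 * 8 ^ b.length * 2 ^ 400| ≤
      2 ^ 10 * (8 ^ b.length * 2 ^ 400) := by
    rw [← hT]; exact_mod_cast h4
  have h5' : |8 * (hom m (derL b) : ℝ) * 8 ^ b.length * 2 ^ 160 -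
      L0 * 8 ^ (derL b).length * (hom m b : ℝ)| ≤
      2 ^ 10 * (8 ^ (derL b).length * (hom m b : ℝ)) := by
    exact_mod_cast h5
  have h6' : |8 * (hom m (derL b) : ℝ) * 8 ^ b.length| ≤
      6 * (8 ^ (derL b).length * (hom m b : ℝ)) := by
    exact_mod_cast h6
  have ep : pp i b c = (hom m b : ℝ) / (8 ^ b.length * 2 ^ 400) := by
    rw [pp, hc, e1]
    field_simp
  have ep1 : pp1 i b c = 8 * (hom m (derL b) : ℝ) / (8 ^ (derL b).length * 2 ^ 400) := by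
    rw [pp1, hc, e2]
    field_simp
  have eq : pp1 i b c / pp i b c =
      8 * (hom m (derL b) : ℝ) * 8 ^ b.length / (8 ^ (derL b).length * (hom m b : ℝ)) := by
    rw [ep, ep1]
    field_simp
  refine ⟨?_, ?_, ?_, ?_, ?_, ?_⟩
  · rw [ep]; positivity
  · rw [div_le_div_iff₀ hTp (by norm_num)]
    linarith
  · rw [ep, mul_div_assoc', div_le_div_iff₀ hTp (by positivity)]
    calc (V : ℝ) * (8 ^ b.length * 2 ^ 400) = (V * 8 ^ b.length) * 2 ^ 400 := by ring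
      _ ≤ (4 * (hom m b : ℝ)) * 2 ^ 400 := mul_le_mul_of_nonneg_right h3' hTp.le
      _ = 4 * (hom m b : ℝ) * 2 ^ 400 := by ring
  · have e : 2 ^ 160 * pp i b c - (Q0 : ℝ) =
        ((hom m b : ℝ) * 2 ^ 160 - Q0 * 8 ^ b.length * 2 ^ 400) / (8 ^ b.length * 2 ^ 400) := by
      rw [ep]
      field_simp
    rw [e, abs_div, abs_of_pos (show (0 : ℝ) < 8 ^ b.length * 2 ^ 400 by positivity),
      div_le_iff₀ (by positivity)]
    exact h4'
  · have e : 2 ^ 160 * (pp1 i b c / pp i b c) - (L0 : ℝ) =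
        (8 * (hom m (derL b) : ℝ) * 8 ^ b.length * 2 ^ 160 -
          L0 * 8 ^ (derL b).length * (hom m b : ℝ)) /
          (8 ^ (derL b).length * (hom m b : ℝ)) := by
      rw [eq]
      field_simp
    rw [e, abs_div,
      abs_of_pos (show (0 : ℝ) < 8 ^ (derL b).length * (hom m b : ℝ) by positivity),
      div_le_iff₀ (by positivity)]
    exact h5'
  · rw [eq, abs_div,
      abs_of_pos (show (0 : ℝ) < 8 ^ (derL b).length * (hom m b : ℝ) by positivity),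
      div_le_iff₀ (by positivity)]
    exact h6'

/-- the check of a centre `(cn, L0, Q0)`, `c = cn / 64` in `[-49/2, 25]` -/
def cOK4 (x : ℤ × ℤ × ℤ) : Bool :=
  if x.1 = 1600 then cchk4 8 (bs 197) (nV 197) x.2.2 x.2.1 else
  decide (0 ≤ x.1 + 1568) && (decide (x.1 < 1600) &&
      cchk4 (cm x.1) (bs (ci x.1)) (nV (ci x.1)) x.2.2 x.2.1)

theorem cOK4_spec (x : ℤ × ℤ × ℤ) (h : cOK4 x = true) : ∃ i < 198, ∃ m : ℤ,
    lv i ((x.1 : ℝ) / 64) = (m : ℝ) / 8 ∧ (x.1 : ℝ) / 64 ∈ Icc (nd i) (nd (i + 1)) ∧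
    cchk4 m (bs i) (nV i) x.2.2 x.2.1 = true := by
  rw [cOK4] at h
  split_ifs at h with hx
  · refine ⟨197, by norm_num, 8, ?_, ?_, h⟩
    · rw [hx, lv, nd]; norm_num
    · rw [hx, nd, nd]; norm_num
  · simp only [Bool.and_eq_true, decide_eq_true_eq] at h
    obtain ⟨h1, h2, h3⟩ := h
    obtain ⟨b1, b2⟩ := cent_lv x.1 h1
    refine ⟨ci x.1, ?_, cm x.1, b1, b2, h3⟩
    rw [ci]; omega

theorem cen4 {q : ℝ → ℝ} (h : IsHM q) (x : ℤ × ℤ × ℤ) (hx : cOK4 x = true) :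
    |(2 : ℝ) ^ 160 * (deriv q ((x.1 : ℝ) / 64) / q ((x.1 : ℝ) / 64)) - (x.2.1 : ℝ)| ≤ 2 ^ 12 ∧
    |(2 : ℝ) ^ 160 * q ((x.1 : ℝ) / 64) - (x.2.2 : ℝ)| ≤ 2 ^ 12 := by
  obtain ⟨i, hi, m, b1, b2, b3⟩ := cOK4_spec x hx
  obtain ⟨hp, hV1, hV2, hQ, hL, hr⟩ := cchk4_spec i m (bs i) (nV i) x.2.2 x.2.1 _ b1 b3
  have hq := fB bs bs_chk h i hi _ b2
  have hq1 := fB1 (t_DRV t_PCE t_LAN) bs bs_chk h i hi _ b2
  generalize pp i (bs i) ((x.1 : ℝ) / 64) = p at *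
  generalize pp1 i (bs i) ((x.1 : ℝ) / 64) = p1 at *
  generalize (nV i : ℝ) / 2 ^ 400 = v at *
  generalize (x.2.2 : ℝ) = Q at *
  generalize (x.2.1 : ℝ) = L at *
  generalize deriv q ((x.1 : ℝ) / 64) = x1 at *
  generalize q ((x.1 : ℝ) / 64) = y at *
  have hy : p * (99 / 100) ≤ y := by
    have h1 := (abs_le.1 hq).1
    have h2 : 12 / 10 ^ 48 * v ≤ 12 / 10 ^ 48 * (4 * p) :=
      mul_le_mul_of_nonneg_left hV2 (by norm_num)
    have h3 : 12 / 10 ^ 48 * (4 * p) ≤ p / 100 := by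
      have : (12 : ℝ) / 10 ^ 48 * (4 * p) = 48 / 10 ^ 48 * p := by ring
      rw [this]
      have h4 : (48 : ℝ) / 10 ^ 48 ≤ 1 / 100 := by norm_num
      nlinarith
    linarith
  have hy0 : 0 < y := by linarith
  have hvy : v ≤ 41 / 10 * y := by linarith
  constructor
  · have e1 : x1 / y - p1 / p = (x1 - p1) / y + (p1 / p) * ((p - y) / y) := by
      field_simp
      ring
    have e2 : |(x1 - p1) / y| ≤ 3 / 10 ^ 46 * (41 / 10) := by
      rw [abs_div, abs_of_pos hy0, div_le_iff₀ hy0]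
      refine hq1.trans ?_
      rw [mul_assoc]
      exact mul_le_mul_of_nonneg_left hvy (by norm_num)
    have e4 : |(p - y) / y| ≤ 12 / 10 ^ 48 * (41 / 10) := by
      rw [abs_div, abs_of_pos hy0, div_le_iff₀ hy0, abs_sub_comm]
      refine hq.trans ?_
      rw [mul_assoc]
      exact mul_le_mul_of_nonneg_left hvy (by norm_num)
    have e5 : |x1 / y - p1 / p| ≤ 3 / 10 ^ 46 * (41 / 10) + 6 * (12 / 10 ^ 48 * (41 / 10)) := by
      rw [e1]
      refine (abs_add_le _ _).trans (add_le_add e2 ?_)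
      rw [abs_mul]
      exact mul_le_mul hr e4 (abs_nonneg _) (by norm_num)
    have e6 : (2 : ℝ) ^ 160 * (x1 / y) - L =
        2 ^ 160 * (x1 / y - p1 / p) + (2 ^ 160 * (p1 / p) - L) := by ring
    rw [e6]
    refine (abs_add_le _ _).trans ?_
    rw [abs_mul, abs_of_pos (show (0 : ℝ) < 2 ^ 160 by positivity)]
    have e7 : (2 : ℝ) ^ 160 * |x1 / y - p1 / p| ≤
        2 ^ 160 * (3 / 10 ^ 46 * (41 / 10) + 6 * (12 / 10 ^ 48 * (41 / 10))) :=
      mul_le_mul_of_nonneg_left e5 (by positivity)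
    have e8 : (2 : ℝ) ^ 160 * (3 / 10 ^ 46 * (41 / 10) + 6 * (12 / 10 ^ 48 * (41 / 10))) ≤
        3000 := by norm_num
    norm_num only at hL ⊢
    linarith
  · have e6 : (2 : ℝ) ^ 160 * y - Q = 2 ^ 160 * (y - p) + (2 ^ 160 * p - Q) := by ring
    rw [e6]
    refine (abs_add_le _ _).trans ?_
    rw [abs_mul, abs_of_pos (show (0 : ℝ) < 2 ^ 160 by positivity)]
    have e7 : (2 : ℝ) ^ 160 * |y - p| ≤ 2 ^ 160 * (12 / 10 ^ 48 * (36 / 10)) :=
      mul_le_mul_of_nonneg_left (hq.trans (mul_le_mul_of_nonneg_left hV1 (by norm_num)))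
        (by positivity)
    have e8 : (2 : ℝ) ^ 160 * (12 / 10 ^ 48 * (36 / 10)) ≤ 3000 := by norm_num
    norm_num only at hQ ⊢
    linarith

end TWP.H
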