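import Mathlib
import Pool.Agent.TWP.Dat0
import Pool.Agent.TWP.Dat1
import Pool.Agent.TWP.Dat2
import Pool.Agent.TWP.Dat3
import Pool.Agent.TWP.Dat4
import Pool.Agent.TWP.Dat5
import Pool.Agent.TWP.Dat6
import Pool.Agent.TWP.Dat7
import Pool.Agent.TWP.Dat8
import Pool.Agent.TWP.Dat9
import Pool.Agent.TWP.Dat10
import Pool.Agent.TWP.Dat11
import Pool.Agent.TWP.Dat12
import Pool.Agent.TWP.Dat13
import Pool.Agent.TWP.Dat14
import Pool.Agent.TWP.Dat15
import Pool.Agent.TWP.Dat16
import Pool.Agent.TWP.Dat17
import Pool.Agent.TWP.Dat18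
import Pool.Agent.TWP.Dat19
import Pool.Agent.TWP.Dat20
import Pool.Agent.TWP.Dat21

/-!
TWP, block H: the table of the pieces.
-/

set_option autoImplicit false

namespace TWP.H

open Dat

/-- The pieces. -/
def tabB : List (List ℤ) := [b0, b1, b2, b3, b4, b5, b6, b7, b8, b9, b10, b11, b12, b13, b14, b15, b16, b17, b18, b19, b20, b21, b22, b23, b24, b25, b26, b27, b28, b29, b30, b31, b32, b33, b34, b35, b36, b37, b38, b39, b40, b41, b42, b43, b44, b45, b46, b47, b48, b49, b50, b51, b52, b53, b54, b55, b56, b57, b58, b59, b60, b61, b62, b63, b64, b65, b66, b67, b68, b69, b70, b71, b72, b73, b74, b75, b76, b77, b78, b79, b80, b81, b82, b83, b84, b85, b86, b87, b88, b89, b90, b91, b92, b93, b94, b95, b96, b97, b98, b99, b100, b101, b102, b103, b104, b105, b106, b107, b108, b109, b110, b111, b112, b113, b114, b115, b116, b117, b118, b119, b120, b121, b122, b123, b124, b125, b126, b127, b128, b129, b130, b131, b132, b133, b134, b135, b136, b137, b138, b139, b140, b141, b142, b143, b144, b145, b146, b147, b148, b149, b150, b151, b152, b153,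 b154, b155, b156, b157, b158, b159, b160, b161, b162, b163, b164, b165, b166, b167, b168, b169, b170, b171, b172, b173, b174, b175, b176, b177, b178, b179, b180, b181, b182, b183, b184, b185, b186, b187, b188, b189, b190, b191, b192, b193, b194, b195, b196, b197]

/-- The piece `i`. -/
def bsF (i : ℕ) : List ℤ := tabB.getD i []

theorem al0 : ∀ i, 0 ≤ i → i < 9 → chk i (bsF i) (nV i) (nS i) (nV (i + 1)) (nS (i + 1)) = true := by
  intro i h1 h2
  interval_cases i
  · exact c0
  · exact c1
  · exact c2
  · exact c3
  · exact c4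
  · exact c5
  · exact c6
  · exact c7
  · exact c8

theorem al1 : ∀ i, 9 ≤ i → i < 18 → chk i (bsF i) (nV i) (nS i) (nV (i + 1)) (nS (i + 1)) = true := by
  intro i h1 h2
  interval_cases i
  · exact c9
  · exact c10
  · exact c11
  · exact c12
  · exact c13
  · exact c14
  · exact c15
  · exact c16
  · exact c17

theorem al2 : ∀ i, 18 ≤ i → i < 27 → chk i (bsF i) (nV i) (nS i) (nV (i + 1)) (nS (i + 1)) = true := by
  intro i h1 h2
  interval_cases i
  · exact c18
  · exact c19
  · exact c20
  · exact c21
  · exact c22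
  · exact c23
  · exact c24
  · exact c25
  · exact c26

theorem al3 : ∀ i, 27 ≤ i → i < 36 → chk i (bsF i) (nV i) (nS i) (nV (i + 1)) (nS (i + 1)) = true := by
  intro i h1 h2
  interval_cases i
  · exact c27
  · exact c28
  · exact c29
  · exact c30
  · exact c31
  · exact c32
  · exact c33
  · exact c34
  · exact c35

theorem al4 : ∀ i, 36 ≤ i → i < 45 → chk i (bsF i) (nV i) (nS i) (nV (i + 1)) (nS (i + 1)) = true := by
  intro i h1 h2
  interval_cases i
  · exact c36
  · exact c37
  · exact c38
  · exact c39
  · exact c40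
  · exact c41
  · exact c42
  · exact c43
  · exact c44

theorem al5 : ∀ i, 45 ≤ i → i < 54 → chk i (bsF i) (nV i) (nS i) (nV (i + 1)) (nS (i + 1)) = true := by
  intro i h1 h2
  interval_cases i
  · exact c45
  · exact c46
  · exact c47
  · exact c48
  · exact c49
  · exact c50
  · exact c51
  · exact c52
  · exact c53

theorem al6 : ∀ i, 54 ≤ i → i < 63 → chk i (bsF i) (nV i) (nS i) (nV (i + 1)) (nS (i + 1)) = true := by
  intro i h1 h2
  interval_cases i
  · exact c54
  · exact c55
  · exact c56
  · exact c57
  · exact c58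
  · exact c59
  · exact c60
  · exact c61
  · exact c62

theorem al7 : ∀ i, 63 ≤ i → i < 72 → chk i (bsF i) (nV i) (nS i) (nV (i + 1)) (nS (i + 1)) = true := by
  intro i h1 h2
  interval_cases i
  · exact c63
  · exact c64
  · exact c65
  · exact c66
  · exact c67
  · exact c68
  · exact c69
  · exact c70
  · exact c71

theorem al8 : ∀ i, 72 ≤ i → i < 81 → chk i (bsF i) (nV i) (nS i) (nV (i + 1)) (nS (i + 1)) = true := by
  intro i h1 h2
  interval_cases i
  · exact c72
  · exact c73
  · exact c74
  · exact c75
  · exact c76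
  · exact c77
  · exact c78
  · exact c79
  · exact c80

theorem al9 : ∀ i, 81 ≤ i → i < 90 → chk i (bsF i) (nV i) (nS i) (nV (i + 1)) (nS (i + 1)) = true := by
  intro i h1 h2
  interval_cases i
  · exact c81
  · exact c82
  · exact c83
  · exact c84
  · exact c85
  · exact c86
  · exact c87
  · exact c88
  · exact c89

theorem al10 : ∀ i, 90 ≤ i → i < 99 → chk i (bsF i) (nV i) (nS i) (nV (i + 1)) (nS (i + 1)) = true := by
  intro i h1 h2
  interval_cases i
  · exact c90
  · exact c91
  · exact c92
  · exact c93
  · exact c94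
  · exact c95
  · exact c96
  · exact c97
  · exact c98

theorem al11 : ∀ i, 99 ≤ i → i < 108 → chk i (bsF i) (nV i) (nS i) (nV (i + 1)) (nS (i + 1)) = true := by
  intro i h1 h2
  interval_cases i
  · exact c99
  · exact c100
  · exact c101
  · exact c102
  · exact c103
  · exact c104
  · exact c105
  · exact c106
  · exact c107

theorem al12 : ∀ i, 108 ≤ i → i < 117 → chk i (bsF i) (nV i) (nS i) (nV (i + 1)) (nS (i + 1)) = true := by
  intro i h1 h2
  interval_cases i
  · exact c108
  · exact c109
  · exact c110
  · exact c111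
  · exact c112
  · exact c113
  · exact c114
  · exact c115
  · exact c116

theorem al13 : ∀ i, 117 ≤ i → i < 126 → chk i (bsF i) (nV i) (nS i) (nV (i + 1)) (nS (i + 1)) = true := by
  intro i h1 h2
  interval_cases i
  · exact c117
  · exact c118
  · exact c119
  · exact c120
  · exact c121
  · exact c122
  · exact c123
  · exact c124
  · exact c125

theorem al14 : ∀ i, 126 ≤ i → i < 135 → chk i (bsF i) (nV i) (nS i) (nV (i + 1)) (nS (i + 1)) = true := by
  intro i h1 h2
  interval_cases i
  · exact c126
  · exact c127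
  · exact c128
  · exact c129
  · exact c130
  · exact c131
  · exact c132
  · exact c133
  · exact c134

theorem al15 : ∀ i, 135 ≤ i → i < 144 → chk i (bsF i) (nV i) (nS i) (nV (i + 1)) (nS (i + 1)) = true := by
  intro i h1 h2
  interval_cases i
  · exact c135
  · exact c136
  · exact c137
  · exact c138
  · exact c139
  · exact c140
  · exact c141
  · exact c142
  · exact c143

theorem al16 : ∀ i, 144 ≤ i → i < 153 → chk i (bsF i) (nV i) (nS i) (nV (i + 1)) (nS (i + 1)) = true := by
  intro i h1 h2
  interval_cases i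
  · exact c144
  · exact c145
  · exact c146
  · exact c147
  · exact c148
  · exact c149
  · exact c150
  · exact c151
  · exact c152

theorem al17 : ∀ i, 153 ≤ i → i < 162 → chk i (bsF i) (nV i) (nS i) (nV (i + 1)) (nS (i + 1)) = true := by
  intro i h1 h2
  interval_cases i
  · exact c153
  · exact c154
  · exact c155
  · exact c156
  · exact c157
  · exact c158
  · exact c159
  · exact c160
  · exact c161

theorem al18 : ∀ i, 162 ≤ i → i < 171 → chk i (bsF i) (nV i) (nS i) (nV (i + 1)) (nS (i + 1)) = true := by
  intro i h1 h2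
  interval_cases i
  · exact c162
  · exact c163
  · exact c164
  · exact c165
  · exact c166
  · exact c167
  · exact c168
  · exact c169
  · exact c170

theorem al19 : ∀ i, 171 ≤ i → i < 180 → chk i (bsF i) (nV i) (nS i) (nV (i + 1)) (nS (i + 1)) = true := by
  intro i h1 h2
  interval_cases i
  · exact c171
  · exact c172
  · exact c173
  · exact c174
  · exact c175
  · exact c176
  · exact c177
  · exact c178
  · exact c179

theorem al20 : ∀ i, 180 ≤ i → i < 189 → chk i (bsF i) (nV i) (nS i) (nV (i + 1)) (nS (i + 1)) = true := by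
  intro i h1 h2
  interval_cases i
  · exact c180
  · exact c181
  · exact c182
  · exact c183
  · exact c184
  · exact c185
  · exact c186
  · exact c187
  · exact c188

theorem al21 : ∀ i, 189 ≤ i → i < 198 → chk i (bsF i) (nV i) (nS i) (nV (i + 1)) (nS (i + 1)) = true := by
  intro i h1 h2
  interval_cases i
  · exact c189
  · exact c190
  · exact c191
  · exact c192
  · exact c193
  · exact c194
  · exact c195
  · exact c196
  · exact c197

theorem all : ∀ i < 198, chk i (bsF i) (nV i) (nS i) (nV (i + 1)) (nS (i + 1)) = true := by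
  intro i hi
  rcases Nat.lt_or_ge i 9 with h0 | h0
  · exact al0 i (by omega) h0
  rcases Nat.lt_or_ge i 18 with h1 | h1
  · exact al1 i (by omega) h1
  rcases Nat.lt_or_ge i 27 with h2 | h2
  · exact al2 i (by omega) h2
  rcases Nat.lt_or_ge i 36 with h3 | h3
  · exact al3 i (by omega) h3
  rcases Nat.lt_or_ge i 45 with h4 | h4
  · exact al4 i (by omega) h4
  rcases Nat.lt_or_ge i 54 with h5 | h5
  · exact al5 i (by omega) h5
  rcases Nat.lt_or_ge i 63 with h6 | h6
  · exact al6 i (by omega) h6
  rcases Nat.lt_or_ge i 72 with h7 | h7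
  · exact al7 i (by omega) h7
  rcases Nat.lt_or_ge i 81 with h8 | h8
  · exact al8 i (by omega) h8
  rcases Nat.lt_or_ge i 90 with h9 | h9
  · exact al9 i (by omega) h9
  rcases Nat.lt_or_ge i 99 with h10 | h10
  · exact al10 i (by omega) h10
  rcases Nat.lt_or_ge i 108 with h11 | h11
  · exact al11 i (by omega) h11
  rcases Nat.lt_or_ge i 117 with h12 | h12
  · exact al12 i (by omega) h12
  rcases Nat.lt_or_ge i 126 with h13 | h13
  · exact al13 i (by omega) h13
  rcases Nat.lt_or_ge i 135 with h14 | h14
  · exact al14 i (by omega) h14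
  rcases Nat.lt_or_ge i 144 with h15 | h15
  · exact al15 i (by omega) h15
  rcases Nat.lt_or_ge i 153 with h16 | h16
  · exact al16 i (by omega) h16
  rcases Nat.lt_or_ge i 162 with h17 | h17
  · exact al17 i (by omega) h17
  rcases Nat.lt_or_ge i 171 with h18 | h18
  · exact al18 i (by omega) h18
  rcases Nat.lt_or_ge i 180 with h19 | h19
  · exact al19 i (by omega) h19
  rcases Nat.lt_or_ge i 189 with h20 | h20
  · exact al20 i (by omega) h20
  exact al21 i (by omega) hi

end TWP.H
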