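import Pool.Agent.TWP.HAll
import Pool.Agent.TWP.HCent
import Pool.Agent.TWP.HDRV
import Pool.Agent.TWP.BEnd
import Pool.Agent.TWP.Main12

/-!
TWP, block H: the end. Values at the 85 centres, the two tails and, for `beta = 4`, the bounds on
all pieces.
-/

set_option autoImplicit false

namespace TWP.H

open Pool.Agent.TWP.Tail Filter Topology Set

/-- The two derivative statements. -/
theorem g_DRV : S_DRV := t_DRV t_PCE t_LAN
theorem g_CEN : S_CEN := t_CEN t_PCE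

theorem data_bs : Data bs := bs_chk

/-- (B), values, `q` on `[-49/2, 25]`. -/
theorem hB {q : ℝ → ℝ} (h : IsHM q) (i : ℕ) (hi : i < 198) (t : ℝ)
    (ht : t ∈ Icc (nd i) (nd (i + 1))) :
    |q t - pp i (bs i) t| ≤ 12 / 10 ^ 48 * ((nV i : ℝ) / 2 ^ 400) :=
  fB bs data_bs h i hi t ht

/-- (B), derivatives. -/
theorem hB1 {q : ℝ → ℝ} (h : IsHM q) (i : ℕ) (hi : i < 198) (t : ℝ)
    (ht : t ∈ Icc (nd i) (nd (i + 1))) :
    |deriv q t - pp1 i (bs i) t| ≤ 3 / 10 ^ 46 * ((nV i : ℝ) / 2 ^ 400) :=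
  fB1 g_DRV bs data_bs h i hi t ht

/-- (A). -/
theorem hA {q : ℝ → ℝ} (h : IsHM q) (t : ℝ) (ht : t ≤ -(49 / 2)) :
    |q t / Real.sqrt (-t / 2) - ev cY40 (zL t / 16)| ≤ (dY40 : ℝ) * (zL t / 16) ^ 41 := by
  refine (fA40 bs data_bs h t ht).trans (le_of_eq ?_)
  rw [DY40, div_pow]
  ring

/-- The values of `l` and `q` at the 85 centres. -/
theorem hC {q : ℝ → ℝ} (h : IsHM q) : CentOK q (lq q) :=
  cent_values g_DRV g_CEN q (deriv q) h.toH (fun i hi t ht => hB h i hi t ht)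

end TWP.H

namespace TWP

/-- Middle, centres. -/
theorem hC_all (q : ℝ → ℝ) (h : IsHM q) : CentOK q (lq q) := H.hC h

/-- Right end. -/
theorem hR_all (q : ℝ → ℝ) (h : IsHM q) (t : ℝ) (ht : 127 / 5 ≤ t) : PosAt q t := hR_end q h t ht

/-- Left end. -/
theorem hL_all (q : ℝ → ℝ) (h : IsHM q) (t : ℝ) (ht : t ≤ -(49 / 2)) : PosAt q t :=
  hL_end q h (fun s hs => H.hA h s hs) t ht

/-- The theorem for `beta = 1, 2`, no hypotheses. -/
theorem main12_all : (∃! q : ℝ → ℝ, IsHM q) ∧ ∀ q, IsHM q →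
    IsGreatest {r | IsPF r (fTwo q)} 9 ∧ IsGreatest {r | IsPF r (fOne q)} 6 :=
  main12 hC_all hR_all hL_all

end TWP
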