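import Pool.Agent.TWP.HAll
import Pool.Agent.TWP.HDRV
import Pool.Agent.TWP.HCent
import Pool.Agent.TWP.BEnd
import Pool.Agent.TWP.Main12

set_option autoImplicit false

/-! TWP: the theorem for `β = 1, 2` without hypotheses. -/

namespace TWP

open Filter Topology Set

theorem hC21 (q : ℝ → ℝ) (h : IsHM q) : CentOK q (lq q) := by
  have hB := H.fB H.bs H.bs_chk h
  exact H.cent_values (H.t_DRV H.t_PCE H.t_LAN) (H.t_CEN H.t_PCE) q (deriv q) h.toH
    (fun i hi t ht => hB i hi t ht)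

theorem hR21 (q : ℝ → ℝ) (h : IsHM q) (t : ℝ) (ht : 127 / 5 ≤ t) : PosAt q t := hR_end q h t ht

theorem hL21 (q : ℝ → ℝ) (h : IsHM q) (t : ℝ) (ht : t ≤ -(49 / 2)) : PosAt q t :=
  tail_left bL q h (fun s hs => hA_of_40 _ s (by linarith) (H.fA40 H.bs H.bs_chk h s hs)) t ht

theorem main21 : (∃! q : ℝ → ℝ, IsHM q) ∧ ∀ q, IsHM q →
    IsGreatest {r | IsPF r (fTwo q)} 9 ∧ IsGreatest {r | IsPF r (fOne q)} 6 :=
  main12 hC21 hR21 hL21

end TWP
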