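import Pool.Agent.TWP.StL4
import Pool.Agent.TWP.F4

/-! TWP_LEB: the size of `e` on the left (`β = 4`). -/

set_option autoImplicit false

namespace TWP

open Filter Topology MeasureTheory Set

namespace LEBaux

private theorem pm_eq (s : ℝ) (hs : s ≤ -3 / 2) :
    Pool.Agent.TWP.E.Pm s = Real.sqrt 2 / 2 * Real.sqrt (-1 - s) := by
  unfold Pool.Agent.TWP.E.Pm
  rw [if_pos hs]
  have h0 : (0 : ℝ) ≤ -1 - s := by linarith
  have h2 : Real.sqrt 2 * Real.sqrt 2 = 2 := Real.mul_self_sqrt (by norm_num)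
  rw [Real.sqrt_div h0]
  have h3 : Real.sqrt 2 ≠ 0 := by positivity
  rw [div_eq_iff h3]
  linear_combination (-(1 / 2) * Real.sqrt (-1 - s)) * h2

private theorem q_ge {q : ℝ → ℝ} (h : IsHM q) (s : ℝ) (hs : s ≤ -(49 / 2)) : 3 ≤ q s := by
  have h1 := (h.band s).1
  have h2 : (3 : ℝ) ≤ Pool.Agent.TWP.E.Pm s := by
    unfold Pool.Agent.TWP.E.Pm
    rw [if_pos (by linarith)]
    apply Real.le_sqrt_of_sq_le
    linarith
  linarith

private theorem f_mono {q : ℝ → ℝ} (h : IsHM q) :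
    MonotoneOn (fun s => eF q s * (-s) ^ 36) (Iic (-(49 / 2))) := by
  have hd : ∀ s : ℝ, HasDerivAt (fun s => eF q s * (-s) ^ 36)
      (q s * eF q s * (-s) ^ 36 + eF q s * (36 * (-s) ^ 35 * -1)) s := by
    intro s
    have h1 : HasDerivAt (fun s : ℝ => (-s) ^ 36) (36 * (-s) ^ 35 * -1) s := by
      exact ((hasDerivAt_neg s).pow 36).congr_deriv (by norm_num)
    exact (h.eF_deriv s).mul h1
  refine monotoneOn_of_deriv_nonneg (convex_Iic _)
    (fun s _ => (hd s).continuousAt.continuousWithinAt)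
    (fun s _ => (hd s).differentiableAt.differentiableWithinAt) (fun s hs => ?_)
  rw [(hd s).deriv]
  have hs1 : s < -(49 / 2) := by simpa using hs
  have hq := q_ge h s hs1.le
  have he := eF_pos q s
  have hx : (49 / 2 : ℝ) ≤ -s := by linarith
  have h35 : (0 : ℝ) < (-s) ^ 35 := by positivity
  have e1 : q s * eF q s * (-s) ^ 36 + eF q s * (36 * (-s) ^ 35 * -1) =
      eF q s * (-s) ^ 35 * (q s * (-s) - 36) := by ring
  rw [e1]
  have h3 : 0 ≤ q s * (-s) - 36 := by nlinarith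
  positivity

private theorem w_mono {q : ℝ → ℝ} (h : IsHM q) :
    MonotoneOn (fun s => -(∫ x in Ioi s, q x) +
      Real.sqrt 2 / 3 * ((-1 - s) * Real.sqrt (-1 - s))) (Iic (-3 / 2)) := by
  have hd : ∀ s : ℝ, s ≤ -3 / 2 → HasDerivAt (fun s => -(∫ x in Ioi s, q x) +
      Real.sqrt 2 / 3 * ((-1 - s) * Real.sqrt (-1 - s)))
      (q s - Real.sqrt 2 / 2 * Real.sqrt (-1 - s)) s := by
    intro s hs
    have hu : 0 < -1 - s := by linarith
    have h1 : HasDerivAt (fun s : ℝ => -1 - s) (-1) s := by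
      simpa using (hasDerivAt_id s).const_sub (-1 : ℝ)
    have h2 : HasDerivAt (fun s : ℝ => Real.sqrt (-1 - s)) (-1 / (2 * Real.sqrt (-1 - s))) s :=
      h1.sqrt hu.ne'
    have h3 := ((h.mu_deriv s).neg).add ((h1.mul h2).const_mul (Real.sqrt 2 / 3))
    refine h3.congr_deriv ?_
    have h4 : Real.sqrt (-1 - s) * Real.sqrt (-1 - s) = -1 - s := Real.mul_self_sqrt hu.le
    have h5 : 0 < Real.sqrt (-1 - s) := Real.sqrt_pos.2 hu
    have h6 : (-1 - s) * (-1 / (2 * Real.sqrt (-1 - s))) = -(Real.sqrt (-1 - s) / 2) := by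
      field_simp
      linarith [h4]
    rw [h6]
    ring
  refine monotoneOn_of_deriv_nonneg (convex_Iic _)
    (fun s hs => (hd s hs).continuousAt.continuousWithinAt)
    (fun s hs => (hd s (mem_Iic.1 (interior_subset hs))).differentiableAt.differentiableWithinAt)
    (fun s hs => ?_)
  have hs1 : s ≤ -3 / 2 := mem_Iic.1 (interior_subset hs)
  rw [(hd s hs1).deriv]
  have h1 := (h.band s).1
  rw [pm_eq s hs1] at h1
  linarith

private theorem e_le {q : ℝ → ℝ} (h : IsHM q) : eF q (-(49 / 2)) ≤ 1 / 10 ^ 23 := by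
  have h1 := w_mono h (mem_Iic.2 (by norm_num : (-(49 / 2) : ℝ) ≤ -3 / 2))
    (mem_Iic.2 (le_refl (-3 / 2 : ℝ))) (by norm_num)
  simp only at h1
  have h2 : 0 ≤ ∫ x in Ioi (-3 / 2 : ℝ), q x :=
    setIntegral_nonneg measurableSet_Ioi fun x _ => (h.pos x).le
  have e1 : (-1 - -(49 / 2) : ℝ) = 47 / 2 := by norm_num
  have e2 : (-1 - -3 / 2 : ℝ) = 1 / 2 := by norm_num
  rw [e1, e2] at h1
  have h3 : Real.sqrt 2 * Real.sqrt (47 / 2) = Real.sqrt 47 := by
    rw [← Real.sqrt_mul (by norm_num)]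
    norm_num
  have h4 : Real.sqrt 2 * Real.sqrt (1 / 2) = 1 := by
    rw [← Real.sqrt_mul (by norm_num)]
    norm_num
  have h5 : (137 / 20 : ℝ) ≤ Real.sqrt 47 := by
    apply Real.le_sqrt_of_sq_le
    norm_num
  have e3 : Real.sqrt 2 / 3 * (47 / 2 * Real.sqrt (47 / 2)) = 47 / 6 * Real.sqrt 47 := by
    rw [← h3]; ring
  have e4 : Real.sqrt 2 / 3 * (1 / 2 * Real.sqrt (1 / 2)) = 1 / 6 := by
    linear_combination (1 / 6 : ℝ) * h4
  rw [e3, e4] at h1
  have h6 : -(∫ x in Ioi (-(49 / 2) : ℝ), q x) ≤ -53 := by nlinarith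
  unfold eF
  refine (Real.exp_le_exp.2 h6).trans ?_
  rw [Real.exp_neg, one_div]
  have h7 : (10 : ℝ) ^ 23 ≤ Real.exp 53 := by
    have h8 : Real.exp 53 = Real.exp 1 ^ 53 := by
      rw [← Real.exp_nat_mul]; norm_num
    rw [h8]
    have h9 : (2718 / 1000 : ℝ) ≤ Real.exp 1 := by
      have := Real.exp_one_gt_d9
      linarith
    calc (10 : ℝ) ^ 23 ≤ (2718 / 1000 : ℝ) ^ 53 := by norm_num
      _ ≤ Real.exp 1 ^ 53 := by gcongr
  exact inv_anti₀ (by positivity) h7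

private theorem y_eq (t : ℝ) (ht : t < 0) :
    (3 / (256 * yL t)) ^ 24 = (3 / 256) ^ 24 / 2 ^ 12 * (-t) ^ 36 := by
  unfold yL
  have hx : 0 < -t := by linarith
  set x := -t with hxd
  have h1 : Real.sqrt x ^ 2 = x := Real.sq_sqrt hx.le
  have h2 : Real.sqrt 2 ^ 2 = 2 := Real.sq_sqrt (by norm_num)
  have p1 : 0 < Real.sqrt x := Real.sqrt_pos.2 hx
  have p2 : 0 < Real.sqrt 2 := by positivity
  have e1 : 3 / (256 * (Real.sqrt 2 / (x * Real.sqrt x))) =
      3 / 256 * (x * Real.sqrt x) / Real.sqrt 2 := by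
    field_simp
  rw [e1, div_pow, mul_pow, mul_pow]
  have e2 : Real.sqrt x ^ 24 = x ^ 12 := by
    rw [show (24 : ℕ) = 2 * 12 by norm_num, pow_mul, h1]
  have e3 : Real.sqrt 2 ^ 24 = 2 ^ 12 := by
    rw [show (24 : ℕ) = 2 * 12 by norm_num, pow_mul, h2]
  rw [e2, e3]
  ring

end LEBaux

theorem t_LEB : S_LEB := by
  intro q h t ht
  have h1 := LEBaux.f_mono h (mem_Iic.2 ht) (mem_Iic.2 (le_refl (-(49 / 2) : ℝ))) ht
  simp only at h1
  have h2 := LEBaux.e_le h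
  rw [LEBaux.y_eq t (by linarith)]
  have h3 : (0 : ℝ) < (3 / 256) ^ 24 / 2 ^ 12 := by positivity
  calc eF q t * ((3 / 256) ^ 24 / 2 ^ 12 * (-t) ^ 36)
      = (3 / 256) ^ 24 / 2 ^ 12 * (eF q t * (-t) ^ 36) := by ring
    _ ≤ (3 / 256) ^ 24 / 2 ^ 12 * (eF q (-(49 / 2)) * (-(-(49 / 2))) ^ 36) := by gcongr
    _ ≤ (3 / 256) ^ 24 / 2 ^ 12 * (1 / 10 ^ 23 * (-(-(49 / 2))) ^ 36) := by gcongr
    _ ≤ 1 / 10 ^ 22 := by norm_num

end TWP
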