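import Pool.Agent.TWP.StB
import Pool.Agent.TWP.F4
import Pool.Agent.TWP.TailK4
import Pool.Agent.TWP.KNrm

/-! TWP, `β = 4`, block R4 (right tail), helper66: statements with paper proofs.
Every `S_xxx` is a module `TWP_xxx` (`theorem TWP.t_xxx : S_xxx`, file `Pool/Agent/TWP/xxx.lean`);
hypotheses of other modules are arguments (`(h : S_YYY)`).  All norms here: order 24, radius `3/8`.
Norm lemmas: `KNrm.lean`.  Chart: `psiT s = (2/3) s`, `ξ₁ = Tay z`, `z = zR s = s^(-3/2)`, `D ξ₁ = -ξ₁`.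

`S = -l/√t`, `W = q²/t`, `U = √t T/q` (`T = tF e`), `P`, `Q/2` the polynomials for `S`, `U`:
`ξ₁ ((3/2) D S + S/2) = S² - 1 - 2 W`, `ξ₁ (D W + (2/3) W) = -(4/3) S W`,
`ξ₁ ((3/2) D U - U/2) = S U - 1/2 + W U²/2`.
`B1 = ξ₁⁻¹ (S/2 + (3/2) D S + W ξ₁⁻¹ - U)`, so `(q/√t) z B1 = B = q g - T`, `B1 → 1/8`, and
`m_4/√t = W ξ₁ B1/2 - 2 S + ξ₁ (-2 + (3/2) D B1/B1)`, `α₁ = √t toda₁ = -((3/2) D μ + μ/2)`. -/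

set_option autoImplicit false

namespace TWP

open PowerSeries Finset Filter Topology
open scoped ContDiff

/-- `∏_(j<m) (1 + x/(j+1))` -/
noncomputable def piM (x : ℝ) (m : ℕ) : ℝ := ∏ j ∈ range m, (1 + x / ((j : ℝ) + 1))

/-- `√t (q g - T)/q · z⁻¹` as a series -/
noncomputable def B1s (S W U ξ₁ : ℝ⟦X⟧) : ℝ⟦X⟧ :=
  ξ₁⁻¹ * (C (1 / 2 : ℝ) * S + C (3 / 2 : ℝ) * D S + W * ξ₁⁻¹ - U)

/-- `m_4/√t` -/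
noncomputable def muR4 (S W B ξ₁ : ℝ⟦X⟧) : ℝ⟦X⟧ :=
  C (1 / 2 : ℝ) * (W * (ξ₁ * B)) + C (-2 : ℝ) * S + ξ₁ * (C (-2 : ℝ) + C (3 / 2 : ℝ) * (D B * B⁻¹))

noncomputable abbrev PS4 (ξ₁ : ℝ⟦X⟧) : ℝ⟦X⟧ := evZ (C (1 / 8 : ℝ) * ξ₁) Pool.Agent.TWP.Tail.cS60
noncomputable abbrev PN4 (ξ₁ : ℝ⟦X⟧) : ℝ⟦X⟧ := evZ (C (1 / 8 : ℝ) * ξ₁) K.cN4
noncomputable abbrev PB4 (ξ₁ : ℝ⟦X⟧) : ℝ⟦X⟧ :=
  C (1 / 16 : ℝ) * evZ (C (1 / 8 : ℝ) * ξ₁) K.bL4.tail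

/-- RGR (Gronwall with forcing). Proof. `A = a/(y - x1)`, `B = b/(x2 - y)`, `π` increasing in `m` and `x`. By
induction on `m ≤ M`: `N m ≤ (e0 + A) π_m(y) - A π_m(x1) + B (π_m(x2) - π_m(y))`. Step:
`-A π_m(x1) (1 + y/(m+1)) + a π_m(x1)/(m+1) = -A π_m(x1) (1 + x1/(m+1)) = -A π_(m+1)(x1)`, the same for `B`. -/
def S_RGR : Prop := ∀ (M : ℕ) (N : ℕ → ℝ) (e0 a b x1 x2 y δ : ℝ), 0 ≤ x1 → x1 < y → y < x2 →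
  0 ≤ a → 0 ≤ b → 0 ≤ e0 → N 0 ≤ e0 →
  (e0 + a / (y - x1)) * piM y M + b / (x2 - y) * piM x2 M ≤ δ →
  (∀ m < M, N m ≤ δ → N (m + 1) ≤ N m * (1 + y / ((m : ℝ) + 1)) +
    (a * piM x1 m + b * piM x2 m) / ((m : ℝ) + 1)) →
  ∀ m ≤ M, N m ≤ (e0 + a / (y - x1)) * piM y m + b / (x2 - y) * piM x2 m

/-- RJN. Proof. `nrm (m+1) r A = nrm m r A + |coeff (m+1) A| r^(m+1)`, `(m+1) |coeff (m+1) A| = |coeff m (D A)|`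
(`coeff_derivative`), `|coeff m (D A)| r^m ≤ nrm m r (D A)`. Second: `D ζ = -ζ` gives `D (ζ^k) = - C k * ζ^k`, so
`|coeff n (ζ^k)| = y^k k^n/n!`; with `σ_m = nrm m r (ζ^k)`: by the first part and `nrm m`: `y^k ∑_(n ≤ m) (k r)^n/n! ≤ y^k π_m(k r)`
by induction (`x^(m+1)/(m+1)! = (x/(m+1)) x^m/m! ≤ (x/(m+1)) e_m(x)`; or directly `σ_(m+1) ≤ σ_m (1 + k r/(m+1))`). Third:
a list starting with `k` zeros. Fourth: `exp (3/8) ≤ 1455/1000`. -/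
def S_RJN : Prop :=
  (∀ (m : ℕ) (r : ℝ) (A : ℝ⟦X⟧), 0 ≤ r →
    nrm (m + 1) r A ≤ nrm m r A + r / ((m : ℝ) + 1) * nrm m r (D A)) ∧
  (∀ (m k : ℕ) (r y : ℝ) (ζ : ℝ⟦X⟧), 0 ≤ r → 0 ≤ y → D ζ = -ζ → coeff 0 ζ = y →
    nrm m r (ζ ^ k) ≤ y ^ k * piM ((k : ℝ) * r) m) ∧
  (∀ (k : ℕ) (ζ : ℝ⟦X⟧) (l : List ℤ), (∀ a ∈ l.take k, a = 0) →
    evZ ζ l = ζ ^ k * evZ ζ (l.drop k)) ∧
  Real.exp (3 / 8) ≤ 1455 / 1000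

/-- RPR (the polynomials). `ζ = C (1/8) * ξ`: `D ζ = -ζ`, `coeff 0 ζ = z/8`, `nrm ζ ≤ (1455/8000) z ≤ 1/687` (BEX, RJN).
`nrm P ≤ 1 + nrm ζ * nrm (evZ ζ tail) ≤ 101/100` (BNB, `W = 687`; numbers `K.nbS4`, `K.nbN4`, `K.nbB4` of TC4.lean).
`D P = evZ ζ (derT cS60)` (BDE with `k = 1`, or DER), EVA: `evZ ζ K.residS4 = P² - 1 + ζ (-4 P - 12 D P)`, `ξ = 8 ζ`:
`R = -evZ ζ residS4`; `evZ ζ residN4 = P Q - 1 + ζ (4 Q - 12 D Q)`, `R' = -evZ ζ residN4`. First 61 entries `0` (`K.residS40`, `K.residN40` of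
TC4.lean): RJN third and second: `nrm m R ≤ (z/8)^61 π_m(61·3/8) nrm (evZ ζ (drop))`, and `nrm (evZ ζ (drop)) ≤ 687 nbK 687 (drop)/687^length`
`≤ 127·10^72·8^61` resp. `247·10^91·8^61` (`K.residS41`, `K.residN41` of TC4.lean). Last: `ξ * PB4 = C (1/2) ζ * evZ ζ bL4.tail = C (1/2) * evZ ζ bL4`
(head `0`: `K.bL40`), EVA; and `evZ ζ bL4.tail = 2 + ζ * evZ ζ bL4.tail.tail` (`K.bL41`, `K.nbB4`). -/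
def S_RPR : Prop := ∀ (z : ℝ) (ξ : ℝ⟦X⟧), 0 < z → z ≤ 1 / 125 → D ξ = -ξ → coeff 0 ξ = z →
  nrm 24 (3 / 8) (PS4 ξ) ≤ 101 / 100 ∧ nrm 24 (3 / 8) (PN4 ξ) ≤ 101 / 100 ∧
  nrm 24 (3 / 8) (PB4 ξ - C (1 / 8 : ℝ)) ≤ 1 / 100 ∧
  (∃ R : ℝ⟦X⟧, ξ * (C (3 / 2 : ℝ) * D (PS4 ξ) + C (1 / 2 : ℝ) * PS4 ξ) = PS4 ξ ^ 2 - 1 + R ∧
    ∀ m ≤ 24, nrm m (3 / 8) R ≤ 127 * 10 ^ 72 * z ^ 61 * piM (183 / 8) m) ∧
  (∃ R : ℝ⟦X⟧, ξ * (C (3 / 2 : ℝ) * D (PN4 ξ) - C (1 / 2 : ℝ) * PN4 ξ) = PS4 ξ * PN4 ξ - 1 + R ∧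
    ∀ m ≤ 24, nrm m (3 / 8) R ≤ 247 * 10 ^ 91 * z ^ 61 * piM (183 / 8) m) ∧
  ξ * PB4 ξ = C (1 / 2 : ℝ) * PS4 ξ + C (3 / 2 : ℝ) * D (PS4 ξ) - C (1 / 2 : ℝ) * PN4 ξ

/-- RSJ (jets of `S - P` and `W`). Proof. `E = S - P`, `η = ξ⁻¹`, `nrm m η ≤ (1455/1000)/z` for all `m` (BEX, RJN fourth),
`N m = nrm m E + 100 nrm m W`. Subtract: `D E = (2/3) η (2 P E + E² - 2 W - R) - E/3`, `D W = -(4/3) η (P + E) W - (2/3) W`.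
If `N m ≤ δ = 1/1000`: `nrm (D E) ≤ (97/100)/z (2021/1000 nrm E + 2 nrm W + nrm R) + nrm E/3`,
`100 nrm (D W) ≤ (194/100)/z (1011/1000) (100 nrm W) + (2/3) (100 nrm W)`, and `1 ≤ 1/(125 z)`: the sum is
`≤ (2/z) N m + ((97/100)/z) ρ π_m(183/8)`. By RJN first `N (m+1) ≤ N m + ((3/8)/(m+1)) (…)`: RGR with `y = 3/(4z)`, `x1 = 183/8`,
`x2 = y + 1`, `b = 0`, `a = (3/8) (97/100) ρ/z`, and `a/(y - x1) ≤ ρ` as `183/8 ≤ (183/1000)/z`. -/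
def S_RSJ : Prop := ∀ (z ρ e0 : ℝ) (ξ S W P R : ℝ⟦X⟧), 0 < z → z ≤ 1 / 125 → D ξ = -ξ →
  coeff 0 ξ = z → 0 ≤ ρ → 0 ≤ e0 →
  ξ * (C (3 / 2 : ℝ) * D S + C (1 / 2 : ℝ) * S) = S ^ 2 - 1 - 2 * W →
  ξ * (D W + C (2 / 3 : ℝ) * W) = -(C (4 / 3 : ℝ) * (S * W)) →
  ξ * (C (3 / 2 : ℝ) * D P + C (1 / 2 : ℝ) * P) = P ^ 2 - 1 + R →
  nrm 24 (3 / 8) P ≤ 101 / 100 → (∀ m ≤ 24, nrm m (3 / 8) R ≤ ρ * piM (183 / 8) m) →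
  |coeff 0 (S - P)| + 100 * |coeff 0 W| ≤ e0 →
  (e0 + ρ) * piM (3 / (4 * z)) 24 ≤ 1 / 1000 →
  ∀ m ≤ 24, nrm m (3 / 8) (S - P) + 100 * nrm m (3 / 8) W ≤ (e0 + ρ) * piM (3 / (4 * z)) m

/-- RUJ (jets of `U - Q/2`). Proof. `ε = U - Q/2`, `E = S - P`. Subtract half of the equation of `Q`:
`ξ ((3/2) D ε - ε/2) = P ε + E Q/2 + E ε + W U²/2 - R/2`, so `D ε = (2/3) η (…) + ε/3`. With `nrm m ε ≤ δ = 1/1000`,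
`s = nrm m E + 100 nrm m W ≤ φ π_m(3/(4z)) ≤ 1/1000`, `nrm U ≤ 506/1000`:
`nrm (D ε) ≤ (97/100)/z (1011/1000 nrm ε + 505/1000 nrm E + 129/1000 nrm W + nrm R/2) + nrm ε/3 ≤ nrm ε/z + (1/(2z)) (s + nrm R)`.
RJN, RGR with `y = 3/(8z)`, `x1 = 183/8`, `x2 = 3/(4z)`, `a = (3/16) ρ/z`, `b = (3/16) φ/z`: `a/(y - x1) ≤ ρ`
(`183/8 ≤ (183/1000)/z`), `b/(x2 - y) = φ/2 ≤ φ`. -/
def S_RUJ : Prop := ∀ (z ρ φ e0 : ℝ) (ξ S W U P Q R : ℝ⟦X⟧), 0 < z → z ≤ 1 / 125 → D ξ = -ξ →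
  coeff 0 ξ = z → 0 ≤ ρ → 0 ≤ φ → 0 ≤ e0 →
  ξ * (C (3 / 2 : ℝ) * D U - C (1 / 2 : ℝ) * U) = S * U - C (1 / 2 : ℝ) +
    C (1 / 2 : ℝ) * (W * U ^ 2) →
  ξ * (C (3 / 2 : ℝ) * D Q - C (1 / 2 : ℝ) * Q) = P * Q - 1 + R →
  nrm 24 (3 / 8) P ≤ 101 / 100 → nrm 24 (3 / 8) Q ≤ 101 / 100 →
  (∀ m ≤ 24, nrm m (3 / 8) R ≤ ρ * piM (183 / 8) m) →
  (∀ m ≤ 24, nrm m (3 / 8) (S - P) + 100 * nrm m (3 / 8) W ≤ φ * piM (3 / (4 * z)) m) →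
  φ * piM (3 / (4 * z)) 24 ≤ 1 / 1000 →
  |coeff 0 (U - C (1 / 2 : ℝ) * Q)| ≤ e0 →
  (e0 + ρ) * piM (3 / (8 * z)) 24 + φ * piM (3 / (4 * z)) 24 ≤ 1 / 1000 →
  ∀ m ≤ 24, nrm m (3 / 8) (U - C (1 / 2 : ℝ) * Q) ≤
    (e0 + ρ) * piM (3 / (8 * z)) m + φ * piM (3 / (4 * z)) m

/-- RBJ (error of `B1`). Proof. `E = S - P`, `ε = U - Q/2`, `η = ξ⁻¹`, `nrm η ≤ (1455/1000)/z`. `S/2 + (3/2) D S + W η =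
η (S² - 1 - W)`, `P/2 + (3/2) D P = η (P² - 1 + R)`, `PB = η (P/2 + (3/2) D P - Q/2)`:
`B1 - PB = η (η (2 P E + E² - W - R) - ε)`; `nrm (2 P E + E² - W - R) ≤ 203/100 s + ρ` as `nrm E ≤ s ≤ 1/1000`. -/
def S_RBJ : Prop := ∀ (z s ρ τ : ℝ) (ξ S W U P Q R PB : ℝ⟦X⟧), 0 < z → z ≤ 1 / 125 → D ξ = -ξ →
  coeff 0 ξ = z →
  ξ * (C (3 / 2 : ℝ) * D S + C (1 / 2 : ℝ) * S) = S ^ 2 - 1 - 2 * W →
  ξ * (C (3 / 2 : ℝ) * D P + C (1 / 2 : ℝ) * P) = P ^ 2 - 1 + R →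
  ξ * PB = C (1 / 2 : ℝ) * P + C (3 / 2 : ℝ) * D P - C (1 / 2 : ℝ) * Q →
  nrm 24 (3 / 8) P ≤ 101 / 100 → nrm 24 (3 / 8) R ≤ ρ →
  nrm 24 (3 / 8) (S - P) + 100 * nrm 24 (3 / 8) W ≤ s → s ≤ 1 / 1000 →
  nrm 24 (3 / 8) (U - C (1 / 2 : ℝ) * Q) ≤ τ →
  nrm 24 (3 / 8) (B1s S W U ξ - PB) ≤
    1455 / 1000 / z * (1455 / 1000 / z * (203 / 100 * s + ρ) + τ)

/-- RNU (numbers). `u = 1/(125 z) ≥ 1`: `piM (3/(4z)) 24 = piM (375/4 u) 24 ≤ u^24 piM (375/4) 24 ≤ u^24·6.5613·10^24`, in the same way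
`piM (3/(8z)) 24 = piM (375/8 u) 24 ≤ u^24·5.0358·10^18`, `piM (183/8) 24 ≤ 1.4765·10^13`; `z^k u^24 ≤ (1/125)^k` for `k ≥ 24`
(`k = 61, 60, 59`). Values at `z = 1/125`: first `3.46·10^-29`, second `2.3·10^-16`, third: `4.18·10^-14`, and
`4.18·10^-14 + 2^98/2^160 ≤ 2^116/2^160 = 5.68·10^-14`. Last: `κ ≤ Q = 85! (3/2)^85 z^85` (`exp x ≥ x^85/85!`, `x = 2/(3z)`:
`Real.pow_div_factorial_le_exp`; or BRN second), `100 Q² ≤ 10^74 z^61` since `z^170 ≤ z^61 125^-109`. -/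
def S_RNU : Prop := ∀ z : ℝ, 0 < z → z ≤ 1 / 125 →
  43 * 10 ^ 73 * z ^ 61 * piM (3 / (4 * z)) 24 ≤ 4 / 10 ^ 29 ∧
  372 * 10 ^ 91 * z ^ 61 * piM (3 / (8 * z)) 24 + 43 * 10 ^ 73 * z ^ 61 * piM (3 / (4 * z)) 24 ≤
    1 / 10 ^ 15 ∧
  (1455 / 1000 / z * (1455 / 1000 / z * (203 / 100 * (43 * 10 ^ 73 * z ^ 61 * piM (3 / (4 * z)) 24) +
      127 * 10 ^ 72 * z ^ 61 * piM (183 / 8) 24) +
    (372 * 10 ^ 91 * z ^ 61 * piM (3 / (8 * z)) 24 +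
      43 * 10 ^ 73 * z ^ 61 * piM (3 / (4 * z)) 24))) * 2 ^ 160 + 2 ^ 98 ≤ 2 ^ 116 ∧
  ∀ κ : ℝ, 0 ≤ κ → κ ≤ Real.exp (-(2 / 3) / z) → 100 * κ ^ 2 ≤ 10 ^ 74 * z ^ 61

/-- RFS (the series of `U`). `Uf s = √s tF e s/q s`. Proof. `tF e` has derivative `-(q/2)(1 - (tF e)²)` (from `e' = q e`, `e > 0`), so near `t > 0`:
`dl psiT Uf = (2/3) s Uf'`, `Uf' = Uf/(2s) - √s (1 - T²)/2 - l Uf`, `T = (q/√s) Uf`, `-l = √s S`, `zR s = 1/(s √s)`: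
`zR ((3/2) dl Uf - Uf/2) = S Uf - 1/2 + (q²/s) Uf²/2`. Smoothness: `e`, `q`, `l` smooth (QS; `e` from `e' = q e` or `contDiff` bootstrapping), TC, TA, TM as in BRF. -/
def S_RFS : Prop := ∀ (q l e : ℝ → ℝ) (t : ℝ), QL q l → (∀ s, 0 < e s) →
  (∀ s, HasDerivAt e (q s * e s) s) → 0 < t →
  coeff 0 (Tay psiT (fun s => Real.sqrt s * tF e s / q s) t) = Real.sqrt t * tF e t / q t ∧
  Tay psiT Pool.Agent.TWP.Tail.zR t *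
      (C (3 / 2 : ℝ) * D (Tay psiT (fun s => Real.sqrt s * tF e s / q s) t) -
        C (1 / 2 : ℝ) * Tay psiT (fun s => Real.sqrt s * tF e s / q s) t) =
    Tay psiT (fun s => -(l s) / Real.sqrt s) t * Tay psiT (fun s => Real.sqrt s * tF e s / q s) t -
      C (1 / 2 : ℝ) + C (1 / 2 : ℝ) * (Tay psiT (fun s => q s / Real.sqrt s) t ^ 2 *
        Tay psiT (fun s => Real.sqrt s * tF e s / q s) t ^ 2)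

/-- RMS (the series of `m_4/√s`). Proof. As BRM. `κ = q/√s`, `G = √s gf` (series `GR S κ ξ₁ = S/2 + (3/2) D S + κ² ξ₁⁻¹`),
`Bh = G - Uf`, `bF = κ Bh` (`κ G = q gf`, `κ Uf = tF e`), `bF' = -(q l gf) - (q/2)(1 + T²)` so `mFour = q bF/2 + l + bF'/bF` and, with
`κ' = κ (l - 1/(2s))`, `mFour = q bF/2 + 2 l - 1/(2s) + Bh'/Bh`; `mFour/√s = κ² Bh/2 - 2 S - zR/2 + (3/2) zR dl Bh/Bh`. `Bh = zR b` with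
`b` of series `B1s`, `dl Bh/Bh = -1 + dl b/b`. So the series of `mFour/√s` is `muR4` (TC, TA, TM, TI; `coeff 0 B1s ≠ 0`
gives `bF t ≠ 0`, so `mFour` is smooth at `t`). `√s toda m 1 = -√s deriv m = -((3/2) dl μ + μ/2)`. -/
def S_RMS : Prop := ∀ (q l e : ℝ → ℝ) (t : ℝ), QL q l → (∀ s, 0 < e s) →
  (∀ s, HasDerivAt e (q s * e s) s) → 0 < t →
  coeff 0 (B1s (Tay psiT (fun s => -(l s) / Real.sqrt s) t)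
    (Tay psiT (fun s => q s / Real.sqrt s) t ^ 2)
    (Tay psiT (fun s => Real.sqrt s * tF e s / q s) t) (Tay psiT Pool.Agent.TWP.Tail.zR t)) ≠ 0 →
  bF q l e t = q t / Real.sqrt t * (Pool.Agent.TWP.Tail.zR t *
    coeff 0 (B1s (Tay psiT (fun s => -(l s) / Real.sqrt s) t)
      (Tay psiT (fun s => q s / Real.sqrt s) t ^ 2)
      (Tay psiT (fun s => Real.sqrt s * tF e s / q s) t) (Tay psiT Pool.Agent.TWP.Tail.zR t))) ∧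
  ContDiffAt ℝ ∞ (mFour q l e) t ∧
  Tay psiT (fun s => Real.sqrt s * toda (mFour q l e) 1 s) t =
    -(C (3 / 2 : ℝ) * D (muR4 (Tay psiT (fun s => -(l s) / Real.sqrt s) t)
        (Tay psiT (fun s => q s / Real.sqrt s) t ^ 2)
        (B1s (Tay psiT (fun s => -(l s) / Real.sqrt s) t)
          (Tay psiT (fun s => q s / Real.sqrt s) t ^ 2)
          (Tay psiT (fun s => Real.sqrt s * tF e s / q s) t) (Tay psiT Pool.Agent.TWP.Tail.zR t))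
        (Tay psiT Pool.Agent.TWP.Tail.zR t)) +
      C (1 / 2 : ℝ) * muR4 (Tay psiT (fun s => -(l s) / Real.sqrt s) t)
        (Tay psiT (fun s => q s / Real.sqrt s) t ^ 2)
        (B1s (Tay psiT (fun s => -(l s) / Real.sqrt s) t)
          (Tay psiT (fun s => q s / Real.sqrt s) t ^ 2)
          (Tay psiT (fun s => Real.sqrt s * tF e s / q s) t) (Tay psiT Pool.Agent.TWP.Tail.zR t))
        (Tay psiT Pool.Agent.TWP.Tail.zR t))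

/-- RRA (soundness of `rightA4`). Hypotheses LIN, MULA, INVA (helper22). Proof. Unfold, split the matches. `B` at index 1
(LIN monotonicity): INVA gives `coeff 0 B ≠ 0` and `B⁻¹`; `derA` (LIN fifth) `D B` at `(23, r1)`; MULA: `D B * B⁻¹`; `sclA (3·2^159)` is
`C (3/2)`; `([-2·2^160], 0)` is `C (-2)` exactly and `([0, 107·2^147], 0)` is `ξ₁ = C (107/8192) ξ` exactly (last part of LIN); MULA;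
`intA (-2)`; the error list `([], eW)` for `C (1/2) * (W * (ξ₁ * B))`. Then `derA` at `OkD 23 r1 r2 c1`, `sclA (-(3·2^159))`,
`sclA (-(2^159))`. -/
def S_RRA : Prop := ∀ (N w1 c0 c1 eW : ℕ) (r1 r2 : ℝ) (ξ₁ ξ S W B : ℝ⟦X⟧) (s bb b : K.AP),
  Law true ξ → ξ₁ = C (107 / 8192 : ℝ) * ξ → nrm 24 (3 / 8) ξ ≤ 1 →
  Ap 24 (3 / 8) ξ S s → Ap 24 (3 / 8) ξ B bb →
  nrm 24 (3 / 8) (C (1 / 2 : ℝ) * (W * (ξ₁ * B))) * 2 ^ 160 ≤ (eW : ℝ) →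
  OkD 24 (3 / 8) r1 c0 → Okw 23 r1 ξ w1 → OkD 23 r1 r2 c1 →
  K.rightA4 N w1 c0 c1 eW s bb = some b →
  coeff 0 B ≠ 0 ∧ Ap 22 r2 ξ (-(C (3 / 2 : ℝ) * D (muR4 S W B ξ₁) + C (1 / 2 : ℝ) * muR4 S W B ξ₁)) b

/-- RUN (analysis; helper66 proves it): the value of `U`. -/
def S_RUN : Prop := ∀ (q l T : ℝ → ℝ), (∀ t, 0 < q t) → (∀ t, HasDerivAt q (l t * q t) t) →
  (∀ t, HasDerivAt T (-(q t / 2) * (1 - T t ^ 2)) t) → (∀ t, 0 ≤ T t ∧ T t ≤ 1) →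
  Tendsto T atTop (𝓝 0) →
  (∀ t : ℝ, 25 ≤ t → |l t / (-Real.sqrt t) -
    Pool.Agent.TWP.Tail.ev Pool.Agent.TWP.Tail.cS60 (Pool.Agent.TWP.Tail.zR t / 8)| ≤
      2 * 10 ^ 74 * Pool.Agent.TWP.Tail.zR t ^ 61) →
  (∀ t : ℝ, 1 ≤ t → q t ≤ Real.exp (-(2 / 3) * (t * Real.sqrt t))) →
  ∀ t : ℝ, 25 ≤ t → |Real.sqrt t * T t / q t -
    Pool.Agent.TWP.Tail.ev K.cN4 (Pool.Agent.TWP.Tail.zR t / 8) / 2| ≤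
      125 * 10 ^ 91 * Pool.Agent.TWP.Tail.zR t ^ 61

/-- RR (the right tail, `β = 4`). Hypotheses: all the others, BRF, BEX, BIC, BV0, BRT, BRS, CHAIN, TL, TA, TM. Proof. As BR. `z = zR t`, `ξ₁ = Tay zR`,
`ξ = C (8192/107) * ξ₁`, `S, κ, U` as in RFS, `W = κ²` (`ξ₁ (D W + (2/3) W) = 2 κ ξ₁ (D κ + κ/3) = -(4/3) S W`). `e0 = 3·10^74 z^61`: `|coeff 0 (S - P)| ≤ 2·10^74 z^61`
(BV0), `100 κ0² ≤ 10^74 z^61` (RNU fourth, `κ0 ≤ q t ≤ exp (-(2/3)/z)`). RPR, RSJ (`ρ = 127·10^72 z^61`, `φ = 43·10^73 z^61 ≥ e0 + ρ`), RUN, RUJ (`e0 = 125·10^91 z^61`,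
`ρ = 247·10^91 z^61`), RBJ, RNU. `Ap 24 (3/8) ξ S (spR, 2^68)`: BIC with `K.cmpS4`, `2^160·4/10^29 + 2^46 ≤ 2^68`. `Ap 24 (3/8) ξ B1 (spB4, 2^116)`:
`PB4 = C (2^160/(16·2^160)) …`: BIC with `p = 2^160`, `d = 16`, `K.cmpB4`, RNU third. `nrm (C (1/2) (W (ξ₁ B1))) ≤ 10^-30`: `nrm W ≤ 4·10^-31`, `nrm ξ₁ ≤ 1/80`, `nrm B1 ≤ 1/4`; `coeff 0 B1 ≥ 1/8 - 1/100 - 10^-13 > 0`. `TabOK ξ 24 (rs4) tabR4`: BRT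
(`K.rad4`). `K.okR4` gives `rightA4 = some b` and the chain; RRA, RMS, CHAIN, TL with `ρ = √`, BRS. -/
def S_RR : Prop := ∀ (q l e : ℝ → ℝ), QL q l → (∀ s, 0 < e s) → (∀ s, e s ≤ 1) →
  (∀ s, HasDerivAt e (q s * e s) s) → Tendsto e atTop (𝓝 1) →
  (∀ t : ℝ, 25 ≤ t → |l t / (-Real.sqrt t) -
    Pool.Agent.TWP.Tail.ev Pool.Agent.TWP.Tail.cS60 (Pool.Agent.TWP.Tail.zR t / 8)| ≤
      2 * 10 ^ 74 * Pool.Agent.TWP.Tail.zR t ^ 61) →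
  (∀ t : ℝ, 1 ≤ t → q t ≤ Real.exp (-(2 / 3) * (t * Real.sqrt t))) →
  ∀ t : ℝ, 0 < t → Pool.Agent.TWP.Tail.zR t ≤ 1 / 125 → 0 < bF q l e t ∧
    ∀ j, 1 ≤ j → j ≤ 12 → 0 < toda (mFour q l e) j t ∧ ContDiffAt ℝ ∞ (toda (mFour q l e) j) t

end TWP
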