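import Mathlib
import Pool.Agent.TWP.StR4
import Pool.Agent.TWP.BRF

set_option autoImplicit false

/-! TWP, module RFS: the series of `U`, right tail, `β = 4` (helper49, for helper66). -/

namespace TWP

open PowerSeries Finset Filter Topology
open scoped ContDiff

namespace RFSaux

theorem e_smooth {q e : ℝ → ℝ} (hq : ContDiff ℝ ∞ q)
    (he : ∀ s, HasDerivAt e (q s * e s) s) : ContDiff ℝ ∞ e := by
  have hde : Differentiable ℝ e := fun t => (he t).differentiableAt
  have key : ∀ n : ℕ, ContDiff ℝ n e := by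
    intro n
    induction n with
    | zero => exact contDiff_zero.2 hde.continuous
    | succ n ih =>
      have e1 : deriv e = fun t => q t * e t := funext fun t => (he t).deriv
      have hqn : ContDiff ℝ n q := contDiff_infty.1 hq n
      have c1 : ContDiff ℝ n (deriv e) := by
        rw [e1]
        exact hqn.mul ih
      have := (contDiff_succ_iff_deriv (n := (n : ℕ∞ω)) (f := e) (𝕜 := ℝ)).2
        ⟨hde, by intro hc; exact absurd hc (by simp), c1⟩
      exact_mod_cast this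
  exact contDiff_infty.2 key

theorem tF_deriv {q e : ℝ → ℝ} (hpos : ∀ s, 0 < e s)
    (he : ∀ s, HasDerivAt e (q s * e s) s) (s : ℝ) :
    HasDerivAt (tF e) (-(q s / 2) * (1 - tF e s ^ 2)) s := by
  have h1 : HasDerivAt (fun t => 1 - e t) (-(q s * e s)) s := (he s).const_sub 1
  have h2 : HasDerivAt (fun t => 1 + e t) (q s * e s) s := (he s).const_add 1
  have hne : 1 + e s ≠ 0 := by
    have := hpos s
    positivity
  have h3 := h1.div h2 hne
  have h4 : (-(q s * e s) * (1 + e s) - (1 - e s) * (q s * e s)) / (1 + e s) ^ 2 =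
      -(q s / 2) * (1 - tF e s ^ 2) := by
    unfold tF
    field_simp
    ring
  rw [h4] at h3
  exact h3

theorem tF_smooth {e : ℝ → ℝ} (hpos : ∀ s, 0 < e s) (hs : ContDiff ℝ ∞ e) :
    ContDiff ℝ ∞ (tF e) := by
  have h1 : ContDiff ℝ ∞ (fun t => 1 - e t) := contDiff_const.sub hs
  have h2 : ContDiff ℝ ∞ (fun t => 1 + e t) := contDiff_const.add hs
  refine h1.div h2 ?_
  intro s
  have := hpos s
  positivity

end RFSaux

open BRFaux in
theorem t_RFS : S_RFS := by
  intro q l e t hQL hepos he ht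
  obtain ⟨hq, hl⟩ := QS q l hQL
  have hψ := psi_smooth t
  have hz : ContDiffAt ℝ ∞ Pool.Agent.TWP.Tail.zR t := zR_smooth ht
  have hqt : ContDiffAt ℝ ∞ q t := hq.contDiffAt
  have hlt : ContDiffAt ℝ ∞ l t := hl.contDiffAt
  have hTt : ContDiffAt ℝ ∞ (tF e) t :=
    (RFSaux.tF_smooth hepos (RFSaux.e_smooth hq he)).contDiffAt
  have hS : ContDiffAt ℝ ∞ (fun s => -(l s) / Real.sqrt s) t := divsqrt_smooth ht hlt.neg
  have hκ : ContDiffAt ℝ ∞ (fun s => q s / Real.sqrt s) t := divsqrt_smooth ht hqt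
  have hU : ContDiffAt ℝ ∞ (fun s => Real.sqrt s * tF e s / q s) t :=
    ((sqrt_smooth ht).mul hTt).div hqt (hQL.pos t).ne'
  have hdU := TS.2.1 psiT _ t hψ hU
  have hpos : ∀ᶠ s : ℝ in 𝓝 t, 0 < s := eventually_gt_nhds ht
  refine ⟨(TC psiT _ _ t EventuallyEq.rfl).2.1, ?_⟩
  rw [(TC psiT (fun s => Real.sqrt s * tF e s / q s) (fun s => Real.sqrt s * tF e s / q s) t
    EventuallyEq.rfl).2.2]
  have e1 : Tay psiT (fun s => Pool.Agent.TWP.Tail.zR s *
      (3 / 2 * dl psiT (fun s => Real.sqrt s * tF e s / q s) s -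
        1 / 2 * (Real.sqrt s * tF e s / q s))) t =
      Tay psiT Pool.Agent.TWP.Tail.zR t *
      (C (3 / 2 : ℝ) * Tay psiT (dl psiT (fun s => Real.sqrt s * tF e s / q s)) t -
        C (1 / 2 : ℝ) * Tay psiT (fun s => Real.sqrt s * tF e s / q s) t) := by
    rw [tm psiT t hψ _ _ hz ((contDiffAt_const.mul hdU).sub (contDiffAt_const.mul hU)),
      (ta psiT t hψ).2.2 _ _ (contDiffAt_const.mul hdU) (contDiffAt_const.mul hU),
      tay_cmul hψ hdU, tay_cmul hψ hU]
  have e2 : Tay psiT (fun s => ((-(l s) / Real.sqrt s) * (Real.sqrt s * tF e s / q s) - 1 / 2) +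
      1 / 2 * (((q s / Real.sqrt s) * (q s / Real.sqrt s)) *
        ((Real.sqrt s * tF e s / q s) * (Real.sqrt s * tF e s / q s)))) t =
      Tay psiT (fun s => -(l s) / Real.sqrt s) t *
        Tay psiT (fun s => Real.sqrt s * tF e s / q s) t - C (1 / 2 : ℝ) +
      C (1 / 2 : ℝ) * (Tay psiT (fun s => q s / Real.sqrt s) t ^ 2 *
        Tay psiT (fun s => Real.sqrt s * tF e s / q s) t ^ 2) := by
    rw [(ta psiT t hψ).2.1 _ _ ((hS.mul hU).sub contDiffAt_const)
        (contDiffAt_const.mul ((hκ.mul hκ).mul (hU.mul hU))),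
      (ta psiT t hψ).2.2 _ _ (hS.mul hU) contDiffAt_const,
      tay_cmul hψ ((hκ.mul hκ).mul (hU.mul hU)), tm psiT t hψ _ _ (hκ.mul hκ) (hU.mul hU),
      tm psiT t hψ _ _ hS hU, tm psiT t hψ _ _ hκ hκ, tm psiT t hψ _ _ hU hU,
      (ta psiT t hψ).1]
    ring
  rw [← e1, ← e2]
  refine (TC psiT _ _ t ?_).1
  filter_upwards [hpos] with s hs
  have hsq : 0 < Real.sqrt s := Real.sqrt_pos.2 hs
  have hss : Real.sqrt s ^ 2 = s := Real.sq_sqrt hs.le
  have hqs := hQL.pos s
  have hd : deriv (fun s => Real.sqrt s * tF e s / q s) s =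
      ((1 / (2 * Real.sqrt s) * tF e s + Real.sqrt s * (-(q s / 2) * (1 - tF e s ^ 2))) * q s -
        Real.sqrt s * tF e s * (l s * q s)) / q s ^ 2 :=
    (((Real.hasDerivAt_sqrt hs.ne').mul (RFSaux.tF_deriv hepos he s)).div (hQL.dq s) hqs.ne').deriv
  show Pool.Agent.TWP.Tail.zR s *
    (3 / 2 * (2 / 3 * s * deriv (fun s => Real.sqrt s * tF e s / q s) s) -
      1 / 2 * (Real.sqrt s * tF e s / q s)) = _
  rw [hd]
  show 1 / (s * Real.sqrt s) * _ = _
  generalize Real.sqrt s = w at hsq hss ⊢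
  generalize tF e s = T
  generalize q s = Q at hqs ⊢
  subst hss
  field_simp
  ring

end TWP
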