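import Pool.Agent.TWP.StL4
import Pool.Agent.TWP.BLM
import Pool.Agent.TWP.RFS

set_option autoImplicit false

/-! TWP, module LFS: the series of `e` and `T`, left tail, `β = 4` (helper74, for helper66). -/

namespace TWP

open PowerSeries Finset Filter Topology
open scoped ContDiff

open BLMaux in
/-- LFS: the series of `e` and `T` on the left. -/
theorem t_LFS : S_LFS := by
  intro q l e t hQ hpos he ht
  have hes : ContDiffAt ℝ ∞ e t := (RFSaux.e_smooth (QS q l hQ).1 he).contDiffAt
  have re : Rp t e (Tay psiT e t) := ⟨hes, rfl⟩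
  have ry : Rp t yL (Tay psiT yL t) := ⟨smy ht, rfl⟩
  have rY : Rp t (YL q) (Tay psiT (YL q) t) := ⟨smY q l hQ ht, rfl⟩
  refine ⟨rval re, ?_, ?_⟩
  · have h1 := rmul ry (rD re)
    have h2 := rmul (rconst t (-(2 / 3 : ℝ))) (rmul rY re)
    have h3 : (fun s => yL s * dl psiT e s) =ᶠ[𝓝 t]
        fun s => -(2 / 3 : ℝ) * (YL q s * e s) := by
      filter_upwards [gt_mem_nhds ht] with s hs
      obtain ⟨r, hr, hr1, hr2, hr3⟩ := root hs
      show yL s * (2 / 3 * s * deriv e s) = -(2 / 3 : ℝ) * (q s / Real.sqrt (-s / 2) * e s)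
      rw [(he s).deriv, hr1, hr3]
      have e1 : (2 / 3 * s : ℝ) = 2 / 3 * (-2 * r ^ 2) := by rw [← hr2]
      rw [e1]
      field_simp
    have h4 := (TC psiT _ _ t h3).1
    rw [← h1.2, h4, h2.2, map_neg, neg_mul]
  · have h5 : 1 + e t ≠ 0 := by
      have := hpos t
      positivity
    have r1 : Rp t (fun _ => (1 : ℝ)) 1 := by
      have := rconst t 1
      rwa [map_one] at this
    have h6 := rmul (rsub r1 re) (rinv (radd r1 re) h5)
    rw [← h6.2]
    refine (TC psiT _ _ t (Eventually.of_forall fun s => ?_)).1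
    show (1 - e s) / (1 + e s) = (1 - e s) * (1 + e s)⁻¹
    rw [div_eq_mul_inv]

end TWP
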