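import Pool.Agent.TWP.TailL4
set_option autoImplicit false
namespace TWP.K
set_option maxRecDepth 100000 in
theorem okL4 : checkL4 11 40 2458 tabL4 (spL, 2 ^ 112) ([2 ^ 160], 2 ^ 141) = true := by
  decide +kernel
end TWP.K
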