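import Pool.Agent.TWP.TailL4
set_option autoImplicit false
namespace TWP.K
set_option maxRecDepth 100000 in
theorem radL4 : radT 3 5 24 rs4 tabL4 = true := by decide +kernel
theorem nbL4 : nbK 110000 cY.tail * 1000 ≤ 110000 ^ cY.tail.length := by decide +kernel
theorem residL41 : 110000 * nbK 110000 (residL.drop 31) ≤
    340 * 10 ^ 72 * 32 ^ 31 * 110000 ^ (residL.drop 31).length := by decide +kernel
end TWP.K
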