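import Pool.Agent.TWP.StL4
import Pool.Agent.TWP.BL
import Pool.Agent.TWP.TCL40
import Pool.Agent.TWP.TCL4

/-! TWP, `β = 4`, left tail: assembly (helper66). -/

set_option autoImplicit false

namespace TWP

open PowerSeries Finset Filter Topology
open scoped ContDiff

namespace LLaux

theorem checkL4_some (Kn N h w0 c0 w1 c1 : ℕ) (tab : K.Tab) (s tt : K.AP)
    (hok : K.checkL4 Kn N h ((w0, c0) :: (w1, c1) :: tab) s tt = true) :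
    ∃ b, K.leftA4 N w1 c0 c1 s tt = some b ∧
      K.chain true N h (25 * 2 ^ 142) 2 4 6 9 Kn tab b ([], 0) = true := by
  unfold K.checkL4 at hok
  simp only at hok
  split at hok
  · exact absurd hok (by simp)
  · rename_i a ha
    exact ⟨a, ha, hok⟩

end LLaux

open BLaux in
theorem LL_base (hEX : S_BEX) (hIC : S_BIC) (hDB : S_BDB) (hRT : S_BRT) (hPL : S_LPL)
    (hYJ : S_LYJ) (hTJ : S_LTJ) (hNU : S_LNU) (hLF : S_BLF) (hFS : S_LFS) (hLE : S_BLE)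
    (hTA : S_TA) (hTM : S_TM)
    (q l e : ℝ → ℝ) (hql : QL q l) (he0 : ∀ s, 0 < e s)
    (hed : ∀ s, HasDerivAt e (q s * e s) s) (t : ℝ) (ht : t ≤ -24)
    (hz : yL t ≤ 3 / 256) (het : e t * (3 / (256 * yL t)) ^ 24 ≤ 1 / 10 ^ 22)
    (h1 : |q t / Real.sqrt (-t / 2) -
      Pool.Agent.TWP.Tail.ev Pool.Agent.TWP.Tail.cY (Pool.Agent.TWP.Tail.zL t / 16)| ≤
      5 * 10 ^ 62 * Pool.Agent.TWP.Tail.zL t ^ 25)
    (h2 : |t * (l t * q t) / Real.sqrt (-t / 2) - q t / Real.sqrt (-t / 2) / 2 +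
      3 * (Pool.Agent.TWP.Tail.zL t / 16 * Pool.Agent.TWP.Tail.dv Pool.Agent.TWP.Tail.cY
        (Pool.Agent.TWP.Tail.zL t / 16))| ≤
      6 * (5 * 10 ^ 62 * Pool.Agent.TWP.Tail.zL t ^ 25) * ((-t) * Real.sqrt (-t))) :
    let υ := Tay psiT yL t
    let ξ := Tay psiT (fun s => yL s / (5 / 256)) t
    let Y := Tay psiT (YL q) t
    let T := Tay psiT (tF e) t
    υ = C (5 / 256 : ℝ) * ξ ∧ D ξ = -ξ ∧ |coeff 0 ξ| ≤ ((2458 : ℕ) : ℝ) / 4096 ∧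
    TabOK ξ 24 (K.rs4.map fun r => (r : ℝ) / 4096) K.tabL4 ∧
    Ap 24 (3 / 8) ξ Y (K.spL, 2 ^ 112) ∧ Ap 24 (3 / 8) ξ T ([2 ^ 160], 2 ^ 141) := by
  intro υ ξ Y T
  have ht0 : t < 0 := by linarith
  have hn : 0 < -t := by linarith
  have hsq : 0 < Real.sqrt (-t) := Real.sqrt_pos.2 hn
  have hy0 : 0 < yL t := by
    unfold yL
    positivity
  set y := yL t with hy
  obtain ⟨f1, f2, f3, f4, f5⟩ := hLF q l t hql ht0
  obtain ⟨g1, g2, g3⟩ := hFS q l e t hql he0 hed ht0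
  rw [← hy] at f2
  have hξ : ξ = υ * C (256 / 5 : ℝ) := by
    have := Tay_smul hTA hTM psiT yL t (256 / 5) (smooth_psiT t) (smooth_yL ht0)
    rw [← this]
    show Tay psiT _ t = Tay psiT _ t
    congr 1
    funext s
    ring
  have hξ1 : υ = C (5 / 256 : ℝ) * ξ := by
    rw [hξ, mul_comm υ, ← mul_assoc, ← map_mul]
    norm_num
  have hDξ : D ξ = -ξ := by
    rw [hξ, mul_comm, D_C_mul, f1, mul_neg]
  have hc0 : coeff 0 ξ = y * (256 / 5) := by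
    rw [hξ, mul_comm, coeff_C_mul, f2, mul_comm]
  have hc0' : coeff 0 ξ ≤ 3 / 5 := by
    rw [hc0]; linarith
  have hc0p : 0 < coeff 0 ξ := by rw [hc0]; positivity
  have hnr : ∀ (M : ℕ) (r : ℝ), 0 ≤ r → nrm M r ξ ≤ ((3 : ℕ) : ℝ) / ((5 : ℕ) : ℝ) * Real.exp r := by
    intro M r hr
    refine ((hEX ξ hDξ hc0p).2.2.2 M r hr).1.trans ?_
    refine mul_le_mul_of_nonneg_right ?_ (Real.exp_pos r).le
    push_cast
    exact hc0'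
  have hTab := hRT 3 5 24 K.rs4 K.tabL4 ξ (by norm_num) K.radL4 hnr
  have hw : nrm 24 (3 / 8) ξ ≤ 1 := by
    have := (unpack_tab ξ _ _ _ _ _ _ _ _ _ _ _ _ hTab).1.2.2
    have e : (((1536 : ℕ) : ℝ) / 4096) = 3 / 8 := by norm_num
    beta_reduce at this
    rw [e] at this
    refine this.trans ?_
    norm_num
  obtain ⟨p1, R, p2, p3⟩ := hPL y υ hy0 hz f1 f2
  set P := evZ (C (1 / 32 : ℝ) * υ ^ 2) K.cY with hP
  obtain ⟨n1, n2, n3⟩ := hNU y hy0 hz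
  have hE := hLE q l t hql ht hz h1 h2
  rw [← hy] at hE
  have hρ : 0 ≤ 340 * 10 ^ 72 * y ^ 62 := by positivity
  have hE0 : 0 ≤ 4 * 10 ^ 63 * (y ^ 2 / 2) ^ 25 := by positivity
  have hJ := hYJ y (340 * 10 ^ 72 * y ^ 62) (4 * 10 ^ 63 * (y ^ 2 / 2) ^ 25) υ Y P R hy0 hz f1 f2
    hρ hE0 f5 p2 p1 p3 hE n1
  have hh : (0 : ℝ) ≤ 3 / 8 := by norm_num
  have hY1 : nrm 24 (3 / 8) (Y - 1) ≤ 2 / 1000 := by
    have h6 := nrm_add 24 hh (Y - P) (P - 1)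
    rw [sub_add_sub_cancel] at h6
    linarith
  obtain ⟨m1, m2⟩ := n3 (e t) (he0 t).le het
  have hT := hTJ y (e t) υ Y (Tay psiT e t) hy0 hz f1 f2 (he0 t).le g2 hY1
    (by rw [g1, abs_of_pos (he0 t)]) m1
  refine ⟨hξ1, hDξ, ?_, hTab, ?_, ?_⟩
  · rw [abs_of_pos hc0p]
    refine hc0'.trans ?_
    norm_num
  · show nrm 24 (3 / 8) (C ((2 : ℝ) ^ 160) * Y - evZ ξ K.spL) ≤ (((2 ^ 112 : ℕ)) : ℝ)
    have hw2 : nrm 24 (3 / 8) (ξ ^ 2) ≤ 1 := nrm_pow_le_one 24 hh ξ hw 2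
    have hic := hIC 24 (3 / 8) (ξ ^ 2) 25 (2 ^ 21) (2 ^ 160) 1 K.cY K.spH hh hw2 (by norm_num)
      (by norm_num)
    have e2 : C ((((25 : ℤ) : ℝ)) / ((2 ^ 21 : ℤ) : ℝ)) * ξ ^ 2 = C (1 / 32 : ℝ) * υ ^ 2 := by
      rw [hξ1, mul_pow, ← mul_assoc, ← map_pow, ← map_mul]
      norm_num
    rw [e2, ← hP] at hic
    have e3 : ((((2 ^ 160 : ℤ) : ℝ)) / ((1 : ℤ) : ℝ)) = (2 : ℝ) ^ 160 := by
      push_cast; norm_num
    rw [e3, ← hDB ξ K.spH] at hic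
    have hcm : ((K.cmpL 25 (2 ^ 21) K.cY K.spH (2 ^ 160) 1 : ℕ) : ℝ) ≤ ((2 ^ 70 : ℕ) : ℝ) := by
      exact_mod_cast K.cmpLl
    have e4 : C ((2 : ℝ) ^ 160) * Y - evZ ξ K.spL =
        C ((2 : ℝ) ^ 160) * (Y - P) + (C ((2 : ℝ) ^ 160) * P - evZ ξ (K.dbl K.spH)) := by
      show C ((2 : ℝ) ^ 160) * Y - evZ ξ (K.dbl K.spH) = _
      ring
    rw [e4]
    refine (nrm_add 24 hh _ _).trans ?_
    rw [nrm_C_mul]
    have e5 : |(2 : ℝ) ^ 160| = 2 ^ 160 := abs_of_pos (by positivity)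
    rw [e5]
    have h6 : (2 : ℝ) ^ 160 * nrm 24 (3 / 8) (Y - P) ≤
        (4 * 10 ^ 63 * (y ^ 2 / 2) ^ 25 + 340 * 10 ^ 72 * y ^ 62) * piM (1 / y) 24 * 2 ^ 160 := by
      rw [mul_comm]
      exact mul_le_mul_of_nonneg_right hJ (by positivity)
    have h7 := hic.trans hcm
    have h8 : ((2 ^ 70 : ℕ) : ℝ) = (2 : ℝ) ^ 70 := by norm_num
    have h9 : ((2 ^ 112 : ℕ) : ℝ) = (2 : ℝ) ^ 112 := by norm_num
    rw [h8] at h7
    rw [h9]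
    exact (add_le_add h6 h7).trans n2
  · show nrm 24 (3 / 8) (C ((2 : ℝ) ^ 160) * T - evZ ξ [2 ^ 160]) ≤ (((2 ^ 141 : ℕ)) : ℝ)
    have e1 : evZ ξ [2 ^ 160] = C ((2 : ℝ) ^ 160) := by
      simp only [evZ, mul_zero, add_zero]
      congr 1
      norm_num
    have e4 : C ((2 : ℝ) ^ 160) * T - evZ ξ [2 ^ 160] = C ((2 : ℝ) ^ 160) * (T - 1) := by
      rw [e1]; ring
    rw [e4, nrm_C_mul]
    have e5 : |(2 : ℝ) ^ 160| = 2 ^ 160 := abs_of_pos (by positivity)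
    have h9 : ((2 ^ 141 : ℕ) : ℝ) = (2 : ℝ) ^ 141 := by norm_num
    have hTT : nrm 24 (3 / 8) (T - 1) ≤ 203 / 100 * (e t * piM (3 / (8 * y)) 24) := by
      have : T = (1 - Tay psiT e t) * (1 + Tay psiT e t)⁻¹ := g3
      rw [this]
      exact hT
    rw [e5, h9]
    refine le_trans ?_ m2
    rw [mul_comm]
    exact mul_le_mul_of_nonneg_right hTT (by positivity)

theorem t_LL (hEX : S_BEX) (hIC : S_BIC) (hDB : S_BDB) (hRT : S_BRT) (hPL : S_LPL)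
    (hYJ : S_LYJ) (hTJ : S_LTJ) (hNU : S_LNU) (hLF : S_BLF) (hFS : S_LFS) (hLE : S_BLE)
    (hMS : S_LMS) (hLA : S_LLA) (hLS : S_BLS)
    (hTA : S_TA) (hTM : S_TM) (hTL : S_TL) (hCH : S_CHAIN) : S_LL := by
  intro q l e hql he0 hed t ht hz het h1 h2
  obtain ⟨hξ1, hDξ, hc, hTab, hAp, hApT⟩ :=
    LL_base hEX hIC hDB hRT hPL hYJ hTJ hNU hLF hFS hLE hTA hTM q l e hql he0 hed t ht hz het h1 h2
  have ht0 : t < 0 := by linarith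
  have hn : 0 < -t := by linarith
  obtain ⟨w0, d0, w1, d1, hT2⟩ := BLaux.unpack_tab _ _ _ _ _ _ _ _ _ _ _ _ _ hTab
  have e : (((1536 : ℕ) : ℝ) / 4096) = 3 / 8 := by norm_num
  beta_reduce at w0 d0 w1 d1 hT2
  rw [e] at w0 d0
  have hLaw : Law true (Tay psiT (fun s => yL s / (5 / 256)) t) := by
    unfold Law; simpa using hDξ
  obtain ⟨b, hb1, hb2⟩ := LLaux.checkL4_some 11 40 2458 _ _ _ _ _
    (K.spL, 2 ^ 112) ([2 ^ 160], 2 ^ 141) K.okL4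
  obtain ⟨a1, a2⟩ := hLA 40 _ _ _ _ _ (Tay psiT yL t)
    (Tay psiT (fun s => yL s / (5 / 256)) t) (Tay psiT (YL q) t) _
    (K.spL, 2 ^ 112) ([2 ^ 160], 2 ^ 141) b hLaw hξ1 hAp hApT d0 w1 d1 hb1
  obtain ⟨m1, m2⟩ := hMS q l _ t hql he0 hed ht0 a1
  have hc14 := hCH true 40 2458 (25 * 2 ^ 142) 2 4 6 9 11 22 _
    _ 0 _ _ b ([], 0) (by norm_num) hb2 hT2 hLaw hc a2
    (by simp [Ap, evZ, nrm_zero])
  rw [← m2] at hc14
  have hρ : ContDiffAt ℝ ∞ (fun s : ℝ => 2 / (-s)) t :=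
    ContDiffAt.div contDiffAt_const contDiffAt_id.neg hn.ne'
  have hx : ContDiffAt ℝ ∞ (fun s => yL s / (5 / 256)) t :=
    (BLaux.smooth_yL ht0).div_const _
  intro j hj1 hj2
  exact hTL psiT (fun s => 2 / (-s)) (fun s => yL s / (5 / 256)) _ t
    (25 * 2 ^ 142) 2 4 6 9 11 (BLaux.smooth_psiT t) hρ hx m1 (div_pos (by norm_num) hn)
    (fun a ha hpos => hLS a t ht0 ha hpos) hc14 j hj1 (by omega)

end TWP
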