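import Pool.Agent.TWP.TailK4

/-! TWP, beta = 4, left tail: computable part (helper66). -/

namespace TWP.K

def tabL4 : Tab := [(3576, 14553), (3482, 15552), (3395, 16855), (3317, 18002), (3246, 19530), (3182, 21070), (3123, 22865), (3070, 24275), (3021, 26258), (2977, 28581), (2936, 30780), (2899, 32697), (2865, 35580), (2833, 37940), (2804, 40374), (2778, 42792), (2754, 45051), (2731, 46121), (2711, 46667), (2692, 46414), (2674, 44992), (2658, 41917), (2643, 36588), (2629, 28192), (2617, 0)]

/-- `α₁ = (2/x) toda₁` on the left (`β = 4`); `Y`, `T` at index 0 -/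
def leftA4 (N w1 c0 c1 : ℕ) (Y T : AP) : Option AP :=
  match invA w1 N Y with
  | none => none
  | some (iY, _) =>
  match mulA w1 N (derA true c0 Y) iY, mulA w1 N Y Y, mulA w1 N T T,
      mulA w1 N ([0, 5 * 2 ^ 152], 0) T with
  | some LY, some Y2, some T2, some yT =>
    let H := addA ([2 ^ 159], 0) (sclA (3 * 2 ^ 159) LY)
    match mulA w1 N H H with
    | none => none
    | some H2 =>
    match mulA w1 N ([0, 0, 25 * 2 ^ 143], 0) H2 with
    | none => none
    | some zH2 =>
    let G := addA (addA ([2 ^ 160], 0) (sclA (-(2 ^ 159)) Y2)) zH2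
    match mulA w1 N Y G with
    | none => none
    | some YG =>
    let B := addA YG (intA (-1) yT)
    match invA w1 N B with
    | none => none
    | some (iB, _) =>
    match mulA w1 N Y (sclA (2 ^ 159) (addA ([2 ^ 160], 0) T2)), mulA w1 N yT H, mulA w1 N Y B with
    | some n1, some n2, some YB =>
      match mulA w1 N (addA n1 (intA (-1) n2)) iB with
      | none => none
      | some q1 =>
      match mulA w1 N ([0, 0, 25 * 2 ^ 143], 0) q1 with
      | none => none
      | some t2 =>
        let mu := addA (sclA (2 ^ 158) YB) (intA (-1) t2)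
        some (addA (intA 4 mu) (intA 3 (derA true c1 mu)))
    | _, _, _ => none
  | _, _, _, _ => none

def checkL4 (K N h : ℕ) (tab : Tab) (Y T : AP) : Bool :=
  match tab with
  | (_, c0) :: (w1, c1) :: tab' =>
    match leftA4 N w1 c0 c1 Y T with
    | none => false
    | some a => chain true N h (25 * 2 ^ 142) 2 4 6 9 K tab' a ([], 0)
  | _ => false

end TWP.K
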