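import Pool.Agent.TWP.StR4
import Pool.Agent.TWP.TailL4

/-! TWP, `β = 4`, block L4 (left tail), helper66: statements with paper proofs.
Every `S_xxx` is a module `TWP_xxx` (`theorem TWP.t_xxx : S_xxx`, file `Pool/Agent/TWP/xxx.lean`); hypotheses
of other modules are arguments.  Norms: order 24, radius `3/8`.  Notation of StB.lean (left tail): `t < 0`,
`x = -t`, `υ = Tay yL`, `D υ = -υ`, `Y = Tay (YL q)`, `HLs`, `GLs`.  `e' = q e`, `T = tF e = (1-e)/(1+e)`,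
`bF = (Y G - y T)/y`, `m_4/t² = Y (Y G - y T)/4 - (y²/2) (Y (1 + T²)/2 - y T H)/(Y G - y T)`
(because `l B - q l g = - l T` for `B = q g - T`). -/

set_option autoImplicit false

namespace TWP

open PowerSeries Finset Filter Topology
open scoped ContDiff

/-- `Y G - y T` -/
noncomputable def BhL (Y T υ : ℝ⟦X⟧) : ℝ⟦X⟧ := Y * GLs Y υ - υ * T

/-- `m_4/t²` on the left -/
noncomputable def muL4 (Y T υ : ℝ⟦X⟧) : ℝ⟦X⟧ :=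
  C (1 / 4 : ℝ) * (Y * BhL Y T υ) -
    C (1 / 2 : ℝ) * υ ^ 2 * ((C (1 / 2 : ℝ) * (Y * (1 + T ^ 2)) - υ * T * HLs Y) * (BhL Y T υ)⁻¹)

/-- LPL. As BPL.lean, with order 24 and radius `3/8`. `ζ = C (1/32) * υ²`, `nrm υ² ≤ (1455/1000)² y²` (BEX, RJN fourth), so
`nrm ζ ≤ 1/110000`. `K.residL0` (TailC), RJN third: `evZ ζ residL = ζ^31 * evZ ζ (drop 31)`, `ζ^31 = C (32^31)⁻¹ * υ^62`, RJN second (`ζ = υ`,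
`k = 62`, `62·3/8 = 93/4`), BNB with `W = 110000`, `K.residL41`, `K.nbL4` (TCL40.lean). -/
def S_LPL : Prop := ∀ (y : ℝ) (υ : ℝ⟦X⟧), 0 < y → y ≤ 3 / 256 → D υ = -υ → coeff 0 υ = y →
  nrm 24 (3 / 8) (evZ (C (1 / 32 : ℝ) * υ ^ 2) K.cY - 1) ≤ 1 / 1000 ∧
  ∃ R : ℝ⟦X⟧, C (1 / 2 : ℝ) * υ ^ 2 * (C (9 / 4 : ℝ) * D (D (evZ (C (1 / 32 : ℝ) * υ ^ 2) K.cY)) -
      C (1 / 4 : ℝ) * evZ (C (1 / 32 : ℝ) * υ ^ 2) K.cY) =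
    evZ (C (1 / 32 : ℝ) * υ ^ 2) K.cY ^ 3 - evZ (C (1 / 32 : ℝ) * υ ^ 2) K.cY + R ∧
    ∀ m ≤ 24, nrm m (3 / 8) R ≤ 340 * 10 ^ 72 * y ^ 62 * piM (93 / 4) m

/-- LYJ (jets of `Y - P`). As BLJ.lean. `E = Y - P`, `F = υ * D E`, `η = υ⁻¹`, `nrm m η ≤ (1455/1000)/y`, `nrm m υ ≤ (1455/1000) y`;
`D E = η F`, `D F = -F + υ E/9 + (8/9) η ((3 P² - 1) E + 3 P E² + E³ - R)`. With `N m = nrm m E + nrm m F ≤ δ = 1/1000`: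
`nrm (3 P² - 1) ≤ 2007/1000`, `nrm (D E) + nrm (D F) ≤ ((1455/1000)/y + 1) nrm F + ((2600/1000)/y + 2/1000) nrm E + ((13/10)/y) nrm R
≤ ((262/100)/y) N m + ((13/10)/y) ρ π_m(93/4)`. RJN first, RGR with `y := 1/y`, `x1 = 93/4`, `x2 = 1/y + 1`, `b = 0`,
`a = (3/8) (13/10) ρ/y`: `(3/8)(262/100) ≤ 1` and `a/(1/y - 93/4) ≤ ρ` (`93/4 ≤ (279/1024)/y`). -/
def S_LYJ : Prop := ∀ (y ρ e0 : ℝ) (υ Y P R : ℝ⟦X⟧), 0 < y → y ≤ 3 / 256 → D υ = -υ →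
  coeff 0 υ = y → 0 ≤ ρ → 0 ≤ e0 →
  C (1 / 2 : ℝ) * υ ^ 2 * (C (9 / 4 : ℝ) * D (D Y) - C (1 / 4 : ℝ) * Y) = Y ^ 3 - Y →
  C (1 / 2 : ℝ) * υ ^ 2 * (C (9 / 4 : ℝ) * D (D P) - C (1 / 4 : ℝ) * P) = P ^ 3 - P + R →
  nrm 24 (3 / 8) (P - 1) ≤ 1 / 1000 → (∀ m ≤ 24, nrm m (3 / 8) R ≤ ρ * piM (93 / 4) m) →
  |coeff 0 (Y - P)| + |y * coeff 0 (D (Y - P))| ≤ e0 →
  (e0 + ρ) * piM (1 / y) 24 ≤ 1 / 1000 →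
  nrm 24 (3 / 8) (Y - P) ≤ (e0 + ρ) * piM (1 / y) 24

/-- LTJ (jets of `e` and `T`). `D e = -(2/3) η Y e`, `nrm m (D e) ≤ (2/3) (1455/1000)/y (1002/1000) nrm m e ≤ nrm m e/y`, so by RJN first
`nrm m e ≤ e0 π_m(3/(8y))` (induction; `|coeff 0 e| ≤ e0`). `q := nrm 24 e ≤ 1/100`: `nrm_inv` (`V = 1`): `nrm (1 + e)⁻¹ ≤ 1/(1 - q) ≤ 100/99`,
`(1 - e) (1 + e)⁻¹ - 1 = -2 e (1 + e)⁻¹`. -/
def S_LTJ : Prop := ∀ (y e0 : ℝ) (υ Y E : ℝ⟦X⟧), 0 < y → y ≤ 3 / 256 → D υ = -υ →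
  coeff 0 υ = y → 0 ≤ e0 → υ * D E = -(C (2 / 3 : ℝ) * (Y * E)) →
  nrm 24 (3 / 8) (Y - 1) ≤ 2 / 1000 → |coeff 0 E| ≤ e0 → e0 * piM (3 / (8 * y)) 24 ≤ 1 / 100 →
  nrm 24 (3 / 8) ((1 - E) * (1 + E)⁻¹ - 1) ≤ 203 / 100 * (e0 * piM (3 / (8 * y)) 24)

/-- LNU (numbers). `u = 3/(256 y) ≥ 1`, `piM (1/y) 24 = piM (256/3 u) 24 ≤ u^24 piM (256/3) 24 ≤ u^24·8.97·10^23`, in the same way
`piM (3/(8y)) 24 = piM (32 u) 24 ≤ u^24·4.3551·10^15`; `y^k u^24 ≤ (3/256)^k` (`k = 50, 62`). First value at `y = 3/256`: the product of the two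
factors is `2.98·10^-17`. -/
def S_LNU : Prop := ∀ y : ℝ, 0 < y → y ≤ 3 / 256 →
  (4 * 10 ^ 63 * (y ^ 2 / 2) ^ 25 + 340 * 10 ^ 72 * y ^ 62) * piM (1 / y) 24 ≤ 1 / 1000 ∧
  (4 * 10 ^ 63 * (y ^ 2 / 2) ^ 25 + 340 * 10 ^ 72 * y ^ 62) * piM (1 / y) 24 * 2 ^ 160 + 2 ^ 70 ≤
    2 ^ 112 ∧
  ∀ e0 : ℝ, 0 ≤ e0 → e0 * (3 / (256 * y)) ^ 24 ≤ 1 / 10 ^ 22 →
    e0 * piM (3 / (8 * y)) 24 ≤ 1 / 100 ∧
    203 / 100 * (e0 * piM (3 / (8 * y)) 24) * 2 ^ 160 ≤ 2 ^ 141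

/-- LFS (series of `e` and `T`). `t < 0`: `dl psiT e = (2/3) s q e`, `s q = -YL/yL` near `t` (`q = YL √(-s/2)`, `yL = √2/((-s) √(-s))`), so
`yL dl e = -(2/3) YL e`; `tF e = (1 - e)/(1 + e)`, `1 + e > 0`. Smoothness of `e` (from `e' = q e`, `q` smooth). TC, TA, TM, TI as in BLF, BLM. -/
def S_LFS : Prop := ∀ (q l e : ℝ → ℝ) (t : ℝ), QL q l → (∀ s, 0 < e s) →
  (∀ s, HasDerivAt e (q s * e s) s) → t < 0 →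
  coeff 0 (Tay psiT e t) = e t ∧
  Tay psiT yL t * D (Tay psiT e t) = -(C (2 / 3 : ℝ) * (Tay psiT (YL q) t * Tay psiT e t)) ∧
  Tay psiT (tF e) t = (1 - Tay psiT e t) * (1 + Tay psiT e t)⁻¹

/-- LMS (the series of `m_4/t²`). As BLM. Near `t < 0`: `bF = (YL G - yL T)/yL`, `mFour = q bF/2 - (l T + q (1 + T²)/2)/bF` where `bF ≠ 0`
(`l bF - q l g = - l T`), and `mFour/s²` is the function of `muL4` (`q = s² YL yL/2`, `l = H/s`, `1/(-s)³ = yL²/2`). `α_1 = 4 μ + 3 D μ`. -/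
def S_LMS : Prop := ∀ (q l e : ℝ → ℝ) (t : ℝ), QL q l → (∀ s, 0 < e s) →
  (∀ s, HasDerivAt e (q s * e s) s) → t < 0 →
  coeff 0 (BhL (Tay psiT (YL q) t) (Tay psiT (tF e) t) (Tay psiT yL t)) ≠ 0 →
  ContDiffAt ℝ ∞ (mFour q l e) t ∧
  Tay psiT (fun s => 2 / (-s) * toda (mFour q l e) 1 s) t =
    C (4 : ℝ) * muL4 (Tay psiT (YL q) t) (Tay psiT (tF e) t) (Tay psiT yL t) +
      C (3 : ℝ) * D (muL4 (Tay psiT (YL q) t) (Tay psiT (tF e) t) (Tay psiT yL t))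

/-- LLA (soundness of `leftA4`). As BLA.lean. Hypotheses LIN, MULA, INVA. `υ = C (5/256) ξ` is `([0, 5·2^152], 0)`, `C (1/2) υ² = C (25/2^17) ξ²` is
`([0,0,25·2^143], 0)`, `1` is `([2^160], 0)`, `C (1/2)` is `([2^159], 0)`. Everything at index 1, `derA` at `OkD 23 r1 r2 c1`. -/
def S_LLA : Prop := ∀ (N w1 c0 c1 : ℕ) (r1 r2 : ℝ) (υ ξ Y T : ℝ⟦X⟧) (s tt b : K.AP),
  Law true ξ → υ = C (5 / 256 : ℝ) * ξ → Ap 24 (3 / 8) ξ Y s → Ap 24 (3 / 8) ξ T tt →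
  OkD 24 (3 / 8) r1 c0 → Okw 23 r1 ξ w1 → OkD 23 r1 r2 c1 → K.leftA4 N w1 c0 c1 s tt = some b →
  coeff 0 (BhL Y T υ) ≠ 0 ∧
  Ap 22 r2 ξ (C (4 : ℝ) * muL4 Y T υ + C (3 : ℝ) * D (muL4 Y T υ)) b

/-- LEB (the size of `e` on the left). `F s = eF q s * (-s)^36` has `F' = e (-s)^35 (q (-s) - 36) ≥ 0` for `s ≤ -49/2` (`h.band`: `q s ≥ Pm s =
√((-1-s)/2) ≥ 3.4`), so `F t ≤ F (-49/2)`. `(3/(256 yL t))^24 = (3/(256 √2))^24 (-t)^36` (`yL t = √2/((-t) √(-t))`). At `-49/2`: `log eF q` has derivative `q ≥ √((-1-s)/2)` for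
`s ≤ -3/2`, so `log e(-49/2) ≤ log e(-3/2) - (√2/3) ((47/2)^(3/2) - (1/2)^(3/2)) ≤ -53` (the antiderivative of `√((-1-s)/2)` is
`-(√2/3) (-1-s)^(3/2)`, or monotonicity of `log e + (√2/3)(-1-s)√(-1-s)`; `e(-3/2) ≤ 1`), `exp 53 ≥ 10^23` (`exp 1 > 2.718`), and `(3/(256 √2))^24 (49/2)^36 ≤ 9/8`
(true value `1.1243`; square: `(3/256)^48/2^24 (49/2)^72 ≤ 81/64`). -/
def S_LEB : Prop := ∀ q : ℝ → ℝ, IsHM q → ∀ t : ℝ, t ≤ -(49 / 2) →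
  eF q t * (3 / (256 * yL t)) ^ 24 ≤ 1 / 10 ^ 22

/-- LL (the left tail, `β = 4`). As BL.lean. Hypotheses: all the others, BEX, BIC, BDB, BV0, BDE, BRT, BLF, BLE, BLN, BLS, CHAIN, TL, TA, TM, TI. -/
def S_LL : Prop := ∀ (q l e : ℝ → ℝ), QL q l → (∀ s, 0 < e s) →
  (∀ s, HasDerivAt e (q s * e s) s) → ∀ t : ℝ, t ≤ -24 → yL t ≤ 3 / 256 →
  e t * (3 / (256 * yL t)) ^ 24 ≤ 1 / 10 ^ 22 →
  |q t / Real.sqrt (-t / 2) - Pool.Agent.TWP.Tail.ev Pool.Agent.TWP.Tail.cY (Pool.Agent.TWP.Tail.zL t / 16)| ≤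
    5 * 10 ^ 62 * Pool.Agent.TWP.Tail.zL t ^ 25 →
  |t * (l t * q t) / Real.sqrt (-t / 2) - q t / Real.sqrt (-t / 2) / 2 +
      3 * (Pool.Agent.TWP.Tail.zL t / 16 * Pool.Agent.TWP.Tail.dv Pool.Agent.TWP.Tail.cY
        (Pool.Agent.TWP.Tail.zL t / 16))| ≤
    6 * (5 * 10 ^ 62 * Pool.Agent.TWP.Tail.zL t ^ 25) * ((-t) * Real.sqrt (-t)) →
    ∀ j, 1 ≤ j → j ≤ 12 → 0 < toda (mFour q l e) j t ∧ ContDiffAt ℝ ∞ (toda (mFour q l e) j) t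

end TWP
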