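import Pool.Agent.TWP.StL4
import Pool.Agent.TWP.BLM

/-! TWP, module LMS (helper34): the series of `m_4/t²` on the left. -/

set_option autoImplicit false

namespace TWP.LMSaux

open PowerSeries Filter Topology BLMaux
open scoped ContDiff

theorem smE (q l e : ℝ → ℝ) (hQ : QL q l) (he : ∀ s, HasDerivAt e (q s * e s) s) :
    ContDiff ℝ ∞ e := by
  have hd : deriv e = fun s => q s * e s := funext fun s => (he s).deriv
  have hq : ContDiff ℝ ∞ q := (QS q l hQ).1
  rw [contDiff_infty]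
  intro n
  induction n with
  | zero =>
    have hc : Continuous e := continuous_iff_continuousAt.2 fun s => (he s).continuousAt
    exact_mod_cast contDiff_zero.2 hc
  | succ n ih =>
    have h1 : ContDiff ℝ ((n : ℕ∞) + 1 : WithTop ℕ∞) e := by
      rw [contDiff_succ_iff_deriv]
      refine ⟨fun s => (he s).differentiableAt, by simp, ?_⟩
      rw [hd]
      exact (hq.of_le (by exact_mod_cast le_top)).mul ih
    exact_mod_cast h1

theorem smT (q l e : ℝ → ℝ) (hQ : QL q l) (hp : ∀ s, 0 < e s)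
    (he : ∀ s, HasDerivAt e (q s * e s) s) : ContDiff ℝ ∞ (tF e) := by
  unfold tF
  exact (contDiff_const.sub (smE q l e hQ he)).div (contDiff_const.add (smE q l e hQ he))
    fun s => by have := hp s; positivity

/-- `Y G - y T` as a function. -/
noncomputable def Bf (q l e : ℝ → ℝ) : ℝ → ℝ := fun s => YL q s * Gf q l s - yL s * tF e s

/-- `m_4/t²` as a function. -/
noncomputable def mu4 (q l e : ℝ → ℝ) : ℝ → ℝ := fun s =>
  1 / 4 * (YL q s * Bf q l e s) -
    1 / 2 * yL s ^ 2 * ((1 / 2 * (YL q s * (1 + tF e s ^ 2)) - yL s * tF e s * (s * l s)) *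
      (Bf q l e s)⁻¹)

theorem m_eq (q l e : ℝ → ℝ) {s : ℝ} (hs : s < 0) (hB : Bf q l e s ≠ 0) :
    mFour q l e s = s ^ 2 * mu4 q l e s := by
  obtain ⟨r, hr, h1, h2, h3⟩ := root hs
  have hg := gf_eq q l hr h1 h2 h3
  have e2 : s * l s = -2 * r ^ 2 * l s := by rw [← h2]
  have e4 : s ^ 2 = 4 * r ^ 4 := by rw [h2]; ring
  have hY : YL q s = q s / r := by unfold YL; rw [h1]
  have hq : q s = r * YL q s := by rw [hY]; field_simp
  have hb : bF q l e s = 2 * r ^ 3 * Bf q l e s := by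
    unfold bF Bf
    rw [hg, h3, hY]
    field_simp
  unfold mFour
  rw [hb, hg]
  unfold mu4
  rw [e4, e2, h3]
  have hB' : Bf q l e s = YL q s * Gf q l s - 1 / (2 * r ^ 3) * tF e s := by
    unfold Bf; rw [h3]
  have hG : r * YL q s * (2 * r ^ 2 * Gf q l s) = 2 * r ^ 3 * Bf q l e s + tF e s := by
    rw [hB']; field_simp; ring
  have e5 : q s * (l s * (2 * r ^ 2 * Gf q l s) + (1 + tF e s ^ 2) / 2) =
      l s * (2 * r ^ 3 * Bf q l e s + tF e s) + r * YL q s * (1 + tF e s ^ 2) / 2 := by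
    rw [← hG, hq]
    ring
  rw [e5, hq]
  generalize Bf q l e s = B at hB
  generalize YL q s = Y
  generalize tF e s = T
  field_simp
  ring

theorem rmu (q l e : ℝ → ℝ) (hQ : QL q l) (hp : ∀ s, 0 < e s)
    (he : ∀ s, HasDerivAt e (q s * e s) s) {t : ℝ} (ht : t < 0) :
    Rp t (Bf q l e) (BhL (Tay psiT (YL q) t) (Tay psiT (tF e) t) (Tay psiT yL t)) ∧
    (Bf q l e t ≠ 0 →
      Rp t (mu4 q l e) (muL4 (Tay psiT (YL q) t) (Tay psiT (tF e) t) (Tay psiT yL t))) := by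
  have rY : Rp t (YL q) (Tay psiT (YL q) t) := ⟨smY q l hQ ht, rfl⟩
  have ry : Rp t yL (Tay psiT yL t) := ⟨smy ht, rfl⟩
  have rT : Rp t (tF e) (Tay psiT (tF e) t) := ⟨(smT q l e hQ hp he).contDiffAt, rfl⟩
  have rB : Rp t (Bf q l e) (BhL (Tay psiT (YL q) t) (Tay psiT (tF e) t) (Tay psiT yL t)) :=
    rsub (rmul rY (rG q l hQ ht)) (rmul ry rT)
  refine ⟨rB, fun h0 => ?_⟩
  have r1 : Rp t (fun _ => (1 : ℝ)) (1 : ℝ⟦X⟧) := by
    have := rconst t 1
    rwa [map_one] at this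
  have h := rsub (rmul (rconst t (1 / 4)) (rmul rY rB))
    (rmul (rmul (rconst t (1 / 2)) (rsq ry))
      (rmul (rsub (rmul (rconst t (1 / 2)) (rmul rY (radd r1 (rsq rT))))
        (rmul (rmul ry rT) (rH q l hQ ht))) (rinv rB h0)))
  exact h

theorem alpha' (m μ : ℝ → ℝ) {t : ℝ} (ht : t < 0) {S : ℝ⟦X⟧} (hμ : Rp t μ S)
    (e : m =ᶠ[𝓝 t] fun s => s ^ 2 * μ s) :
    ContDiffAt ℝ ∞ m t ∧
      Tay psiT (fun s => 2 / (-s) * toda m 1 s) t = C (4 : ℝ) * S + C (3 : ℝ) * D S := by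
  refine ⟨((contDiffAt_id.pow 2).mul hμ.1).congr_of_eventuallyEq e, ?_⟩
  have h := radd (rmul (rconst t 4) hμ) (rmul (rconst t 3) (rD hμ))
  refine (rcongr h ?_).2
  have hd : ∀ᶠ s in 𝓝 t, DifferentiableAt ℝ μ s := by
    have h1 : ContDiffAt ℝ 1 μ t := hμ.1.of_le (by exact_mod_cast le_top)
    filter_upwards [h1.eventually (by simp)] with s hs
    exact hs.differentiableAt (by simp)
  filter_upwards [neg_nhds ht, e.deriv, hd] with s hs h1 h2
  have h3 : HasDerivAt (fun s : ℝ => s ^ 2 * μ s) (2 * s * μ s + s ^ 2 * deriv μ s) s := by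
    have := HasDerivAt.fun_mul (hasDerivAt_pow 2 s) h2.hasDerivAt
    simpa using this
  show 2 / (-s) * (- deriv m s) = 4 * μ s + 3 * (psiT s * deriv μ s)
  rw [h1, h3.deriv]
  unfold psiT
  have : s ≠ 0 := hs.ne
  field_simp
  ring

end TWP.LMSaux

namespace TWP

open PowerSeries Filter Topology
open scoped ContDiff

/-- **LMS**. -/
theorem t_LMS : S_LMS := by
  intro q l e t hQ hp he ht h0
  obtain ⟨rB, hmu⟩ := LMSaux.rmu q l e hQ hp he ht
  have hb : LMSaux.Bf q l e t ≠ 0 := by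
    rwa [BLMaux.rval rB] at h0
  have hev : ∀ᶠ s in 𝓝 t, LMSaux.Bf q l e s ≠ 0 :=
    rB.1.continuousAt.eventually_ne hb
  refine LMSaux.alpha' _ _ ht (hmu hb) ?_
  filter_upwards [BLMaux.neg_nhds ht, hev] with s hs hs0
  exact LMSaux.m_eq q l e hs hs0

end TWP
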