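import Pool.Agent.TWP.StL4

/-! TWP, module LNU: numbers for the fourth left tail (helper8). -/

set_option autoImplicit false

namespace TWP

open PowerSeries Finset Filter Topology
open scoped ContDiff

namespace LNUaux

theorem piM_scale (x u : ℝ) (hx : 0 ≤ x) (hu : 1 ≤ u) (m : ℕ) :
    piM (x * u) m ≤ u ^ m * piM x m := by
  unfold piM
  rw [← Finset.card_range m, ← Finset.prod_const, Finset.card_range, ← Finset.prod_mul_distrib]
  refine Finset.prod_le_prod (fun j _ => by positivity) (fun j _ => ?_)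
  have h1 : x * u / ((j : ℝ) + 1) = u * (x / ((j : ℝ) + 1)) := by ring
  rw [h1]
  nlinarith

theorem piM_nonneg (x : ℝ) (hx : 0 ≤ x) (m : ℕ) : 0 ≤ piM x m := by
  unfold piM
  exact Finset.prod_nonneg (fun j _ => by positivity)

theorem piM85 : piM (256 / 3) 24 ≤ 897 * 10 ^ 21 := by
  unfold piM
  norm_num [Finset.prod_range_succ]

theorem piM32 : piM 32 24 ≤ 43551 * 10 ^ 11 := by
  unfold piM
  norm_num [Finset.prod_range_succ]

theorem pw (y : ℝ) (hy : 0 < y) (hy1 : y ≤ 3 / 256) (k : ℕ) :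
    y ^ (24 + k) * (3 / (256 * y)) ^ 24 ≤ (3 / 256) ^ (24 + k) := by
  have h1 : y * (3 / (256 * y)) = 3 / 256 := by field_simp
  have h2 : y ^ (24 + k) * (3 / (256 * y)) ^ 24 = (y * (3 / (256 * y))) ^ 24 * y ^ k := by
    rw [mul_pow, pow_add]; ring
  rw [h2, h1, pow_add]
  exact mul_le_mul_of_nonneg_left (pow_le_pow_left₀ hy.le hy1 k) (by positivity)

theorem num1 : (4 * 10 ^ 63 / 2 ^ 25 * (3 / 256) ^ 50 + 340 * 10 ^ 72 * (3 / 256) ^ 62) *
    (897 * 10 ^ 21) ≤ (1 / 1000 : ℝ) := by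
  norm_num

theorem num2 : (4 * 10 ^ 63 / 2 ^ 25 * (3 / 256) ^ 50 + 340 * 10 ^ 72 * (3 / 256) ^ 62) *
    (897 * 10 ^ 21) * 2 ^ 160 + 2 ^ 70 ≤ (2 ^ 112 : ℝ) := by
  norm_num

theorem num3 : 203 / 100 * (1 / 10 ^ 22 * (43551 * 10 ^ 11)) * 2 ^ 160 ≤ (2 ^ 141 : ℝ) := by
  norm_num

end LNUaux

/-- **LNU**. -/
theorem t_LNU : S_LNU := by
  intro y hy hy1
  obtain ⟨u, hu⟩ : ∃ u : ℝ, u = 3 / (256 * y) := ⟨_, rfl⟩
  have hu1 : 1 ≤ u := by
    rw [hu, le_div_iff₀ (by positivity)]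
    linarith
  have eP : (1 / y : ℝ) = 256 / 3 * u := by rw [hu]; field_simp
  have eQ : (3 / (8 * y) : ℝ) = 32 * u := by rw [hu]; field_simp; norm_num
  have hP : piM (1 / y) 24 ≤ u ^ 24 * (897 * 10 ^ 21) := by
    rw [eP]
    exact (LNUaux.piM_scale (256 / 3) u (by norm_num) hu1 24).trans
      (mul_le_mul_of_nonneg_left LNUaux.piM85 (by positivity))
  have hQ : piM (3 / (8 * y)) 24 ≤ u ^ 24 * (43551 * 10 ^ 11) := by
    rw [eQ]
    exact (LNUaux.piM_scale 32 u (by norm_num) hu1 24).trans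
      (mul_le_mul_of_nonneg_left LNUaux.piM32 (by positivity))
  have h50 : y ^ 50 * u ^ 24 ≤ (3 / 256) ^ 50 := by
    rw [hu]; exact LNUaux.pw y hy hy1 26
  have h62 : y ^ 62 * u ^ 24 ≤ (3 / 256) ^ 62 := by
    rw [hu]; exact LNUaux.pw y hy hy1 38
  have hX0 : 0 ≤ 4 * 10 ^ 63 * (y ^ 2 / 2) ^ 25 + 340 * 10 ^ 72 * y ^ 62 := by positivity
  have hXP : (4 * 10 ^ 63 * (y ^ 2 / 2) ^ 25 + 340 * 10 ^ 72 * y ^ 62) * piM (1 / y) 24 ≤
      (4 * 10 ^ 63 / 2 ^ 25 * (3 / 256) ^ 50 + 340 * 10 ^ 72 * (3 / 256) ^ 62) *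
        (897 * 10 ^ 21) := by
    refine (mul_le_mul_of_nonneg_left hP hX0).trans ?_
    have e1 : (y ^ 2 / 2) ^ 25 = y ^ 50 / 2 ^ 25 := by rw [div_pow, ← pow_mul]
    have e2 : (4 * 10 ^ 63 * (y ^ 2 / 2) ^ 25 + 340 * 10 ^ 72 * y ^ 62) *
        (u ^ 24 * (897 * 10 ^ 21)) =
        (4 * 10 ^ 63 / 2 ^ 25 * (y ^ 50 * u ^ 24) + 340 * 10 ^ 72 * (y ^ 62 * u ^ 24)) *
          (897 * 10 ^ 21) := by
      rw [e1]; ring
    rw [e2]
    refine mul_le_mul_of_nonneg_right (add_le_add ?_ ?_) (by norm_num)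
    · exact mul_le_mul_of_nonneg_left h50 (by norm_num)
    · exact mul_le_mul_of_nonneg_left h62 (by norm_num)
  refine ⟨hXP.trans LNUaux.num1, ?_, ?_⟩
  · refine le_trans (add_le_add (mul_le_mul_of_nonneg_right hXP (by norm_num)) le_rfl) ?_
    exact LNUaux.num2
  · intro e0 he0 he
    rw [← hu] at he
    have h1 : e0 * piM (3 / (8 * y)) 24 ≤ 1 / 10 ^ 22 * (43551 * 10 ^ 11) := by
      calc e0 * piM (3 / (8 * y)) 24 ≤ e0 * (u ^ 24 * (43551 * 10 ^ 11)) :=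
            mul_le_mul_of_nonneg_left hQ he0
        _ = e0 * u ^ 24 * (43551 * 10 ^ 11) := by ring
        _ ≤ 1 / 10 ^ 22 * (43551 * 10 ^ 11) := mul_le_mul_of_nonneg_right he (by norm_num)
    refine ⟨h1.trans (by norm_num), ?_⟩
    refine le_trans (mul_le_mul_of_nonneg_right (mul_le_mul_of_nonneg_left h1 (by norm_num))
      (by norm_num)) ?_
    exact LNUaux.num3

end TWP
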