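import Mathlib
import Pool.Agent.TWP.StL4
import Pool.Agent.TWP.KNrm
import Pool.Agent.TWP.TailC
import Pool.Agent.TWP.TCL40
import Pool.Agent.TWP.BPL

/-!
# TWP, module LPL (helper52): the left polynomial and its defect, order 24
-/

set_option autoImplicit false

namespace TWP

open PowerSeries Finset Filter Topology
open scoped ContDiff

namespace LPLaux

theorem nrm_zeta (hEX : S_BEX) (hexp : Real.exp (3 / 8) ≤ 1455 / 1000) {y : ℝ} {υ : ℝ⟦X⟧}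
    (hy : 0 < y) (hy2 : y ≤ 3 / 256) (hD : D υ = -υ) (h0 : coeff 0 υ = y) (m : ℕ) :
    nrm m (3 / 8) (C (1 / 32 : ℝ) * υ ^ 2) * ((110000 : ℕ) : ℝ) ≤ 1 := by
  have hr : (0 : ℝ) ≤ 3 / 8 := by norm_num
  have h1 : nrm m (3 / 8) υ ≤ y * Real.exp (3 / 8) := by
    have h := ((hEX υ hD (by rw [h0]; exact hy)).2.2.2 m (3 / 8) hr).1
    rw [h0] at h
    exact h
  have h1' : nrm m (3 / 8) υ ≤ 3 / 256 * (1455 / 1000) := by
    refine h1.trans ?_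
    exact mul_le_mul hy2 hexp (Real.exp_pos _).le (by norm_num)
  have h2 : nrm m (3 / 8) (υ ^ 2) ≤ (3 / 256 * (1455 / 1000)) ^ 2 :=
    (BPLaux.nrm_pow m hr υ 2).trans (pow_le_pow_left₀ (nrm_nonneg m hr υ) h1' 2)
  rw [nrm_C_mul, abs_of_nonneg (by norm_num : (0 : ℝ) ≤ 1 / 32)]
  have h3 : 1 / 32 * nrm m (3 / 8) (υ ^ 2) * ((110000 : ℕ) : ℝ) ≤
      1 / 32 * (3 / 256 * (1455 / 1000)) ^ 2 * ((110000 : ℕ) : ℝ) := by
    refine mul_le_mul_of_nonneg_right ?_ (by positivity)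
    exact mul_le_mul_of_nonneg_left h2 (by norm_num)
  refine h3.trans ?_
  norm_num

theorem first (hNB : S_BNB) {ζ : ℝ⟦X⟧} (hζ : nrm 24 (3 / 8) ζ * ((110000 : ℕ) : ℝ) ≤ 1) :
    nrm 24 (3 / 8) (evZ ζ K.cY - 1) ≤ 1 / 1000 := by
  have hr : (0 : ℝ) ≤ 3 / 8 := by norm_num
  have h1 : evZ ζ K.cY - 1 = ζ * evZ ζ K.cY.tail := by
    have h2 : evZ ζ K.cY = C ((1 : ℤ) : ℝ) + ζ * evZ ζ K.cY.tail := by
      conv_lhs => rw [BPLaux.cY_cons]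
      rfl
    rw [h2, Int.cast_one, map_one]
    ring
  rw [h1]
  refine (nrm_mul 24 hr _ _).trans ?_
  have h3 := hNB 24 (3 / 8) ζ 110000 K.cY.tail hr (by norm_num) hζ
  have h4 : ((K.nbK 110000 K.cY.tail * 1000 : ℕ) : ℝ) ≤
      ((110000 ^ K.cY.tail.length : ℕ) : ℝ) := Nat.cast_le.2 K.nbL4
  generalize hL : K.nbK 110000 K.cY.tail = L at h3 h4
  generalize hn : K.cY.tail.length = n at h3 h4
  generalize hN : nrm 24 (3 / 8) (evZ ζ K.cY.tail) = N at h3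
  have hN0 : 0 ≤ N := by
    rw [← hN]
    exact nrm_nonneg 24 hr _
  rw [Nat.cast_mul, Nat.cast_pow] at h4
  have hWn : (0 : ℝ) < ((110000 : ℕ) : ℝ) ^ n := pow_pos (by norm_num) n
  have h5 : N * ((110000 : ℕ) : ℝ) ^ n * ((1000 : ℕ) : ℝ) ≤
      ((110000 : ℕ) : ℝ) * ((110000 : ℕ) : ℝ) ^ n := by
    refine (mul_le_mul_of_nonneg_right h3 (by norm_num)).trans ?_
    rw [mul_assoc]
    exact mul_le_mul_of_nonneg_left h4 (by norm_num)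
  have h6 : (N * ((1000 : ℕ) : ℝ)) * ((110000 : ℕ) : ℝ) ^ n ≤
      ((110000 : ℕ) : ℝ) * ((110000 : ℕ) : ℝ) ^ n := by
    have h7 : (N * ((1000 : ℕ) : ℝ)) * ((110000 : ℕ) : ℝ) ^ n =
        N * ((110000 : ℕ) : ℝ) ^ n * ((1000 : ℕ) : ℝ) := by ring
    rw [h7]
    exact h5
  have h8 : N * ((1000 : ℕ) : ℝ) ≤ ((110000 : ℕ) : ℝ) := le_of_mul_le_mul_right h6 hWn
  have hz0 : 0 ≤ nrm 24 (3 / 8) ζ := nrm_nonneg 24 hr ζ
  have h9 : nrm 24 (3 / 8) ζ * (N * ((1000 : ℕ) : ℝ)) ≤ nrm 24 (3 / 8) ζ * ((110000 : ℕ) : ℝ) :=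
    mul_le_mul_of_nonneg_left h8 hz0
  have h10 : nrm 24 (3 / 8) ζ * N * 1000 ≤ 1 := by
    have h11 : nrm 24 (3 / 8) ζ * (N * ((1000 : ℕ) : ℝ)) = nrm 24 (3 / 8) ζ * N * 1000 := by
      push_cast
      ring
    rw [← h11]
    exact h9.trans hζ
  linarith

theorem tailBound (hNB : S_BNB) {ζ : ℝ⟦X⟧} (m : ℕ)
    (hζ : nrm m (3 / 8) ζ * ((110000 : ℕ) : ℝ) ≤ 1) :
    nrm m (3 / 8) (evZ ζ (K.residL.drop 31)) ≤ 340 * 10 ^ 72 * 32 ^ 31 := by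
  have hr : (0 : ℝ) ≤ 3 / 8 := by norm_num
  have h3 := hNB m (3 / 8) ζ 110000 (K.residL.drop 31) hr (by norm_num) hζ
  have h4 : ((110000 * K.nbK 110000 (K.residL.drop 31) : ℕ) : ℝ) ≤
      ((340 * 10 ^ 72 * 32 ^ 31 * 110000 ^ (K.residL.drop 31).length : ℕ) : ℝ) :=
    Nat.cast_le.2 K.residL41
  generalize hL : K.nbK 110000 (K.residL.drop 31) = L at h3 h4
  generalize hn : (K.residL.drop 31).length = n at h3 h4
  generalize hN : nrm m (3 / 8) (evZ ζ (K.residL.drop 31)) = N at h3 ⊢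
  have hWn : (0 : ℝ) < ((110000 : ℕ) : ℝ) ^ n := pow_pos (by norm_num) n
  have h4' : ((110000 : ℕ) : ℝ) * (L : ℝ) ≤
      (340 * 10 ^ 72 * 32 ^ 31 : ℝ) * ((110000 : ℕ) : ℝ) ^ n := by
    have h5 := h4
    simp only [Nat.cast_mul, Nat.cast_pow, Nat.cast_ofNat] at h5 ⊢
    exact h5
  exact le_of_mul_le_mul_right (h3.trans h4') hWn

end LPLaux

open LPLaux in
theorem t_LPL (hEX : S_BEX) (hNB : S_BNB) (hDE : S_BDE) (hEVA : S_EVA) (hJN : S_RJN) : S_LPL := by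
  intro y υ hy hy2 hD h0
  have hr : (0 : ℝ) ≤ 3 / 8 := by norm_num
  obtain ⟨-, hJ2, hJ3, hexp⟩ := hJN
  have hζ : ∀ m, nrm m (3 / 8) (C (1 / 32 : ℝ) * υ ^ 2) * ((110000 : ℕ) : ℝ) ≤ 1 :=
    nrm_zeta hEX hexp hy hy2 hD h0
  refine ⟨first hNB (hζ 24), evZ (C (1 / 32 : ℝ) * υ ^ 2) K.residL, ?_, ?_⟩
  · have hDζ := BPLaux.D_zeta hD
    have h16 : C (1 / 2 : ℝ) * υ ^ 2 = C (16 : ℝ) * (C (1 / 32 : ℝ) * υ ^ 2) := by
      rw [← mul_assoc, ← map_mul]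
      norm_num
    generalize hz : C (1 / 32 : ℝ) * υ ^ 2 = ζ at hDζ h16
    rw [h16, BPLaux.resid hEVA ζ, hDE ζ 2 K.cY hDζ, BPLaux.D_C_mul, hDE ζ 2 (K.derT K.cY) hDζ]
    generalize evZ ζ (K.derT (K.derT K.cY)) = E2
    generalize evZ ζ K.cY = P
    have e1 : C (16 : ℝ) * ζ * (C (9 / 4 : ℝ) * (C (2 : ℝ) * (C (2 : ℝ) * E2)) -
        C (1 / 4 : ℝ) * P) =
        ζ * ((C (16 : ℝ) * C (9 / 4 : ℝ) * C (2 : ℝ) * C (2 : ℝ)) * E2 -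
          (C (16 : ℝ) * C (1 / 4 : ℝ)) * P) := by ring
    have e2 : (C (16 : ℝ) * C (9 / 4 : ℝ) * C (2 : ℝ) * C (2 : ℝ) : ℝ⟦X⟧) = C (144 : ℝ) := by
      rw [← map_mul, ← map_mul, ← map_mul]
      norm_num
    have e3 : (C (16 : ℝ) * C (1 / 4 : ℝ) : ℝ⟦X⟧) = C (4 : ℝ) := by
      rw [← map_mul]
      norm_num
    rw [e1, e2, e3]
    ring
  · intro m _
    have hT := tailBound hNB m (hζ m)
    have hU := hJ2 m 62 (3 / 8) y υ hr hy.le hD h0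
    have hx : ((62 : ℕ) : ℝ) * (3 / 8) = 93 / 4 := by norm_num
    rw [hx] at hU
    rw [hJ3 31 _ K.residL K.residL0]
    have hz : (C (1 / 32 : ℝ) * υ ^ 2) ^ 31 = C (((32 : ℝ) ^ 31)⁻¹) * υ ^ 62 := by
      rw [mul_pow, ← map_pow, ← pow_mul]
      congr 2
      rw [one_div, inv_pow]
    have hN0 : 0 ≤ nrm m (3 / 8) (evZ (C (1 / 32 : ℝ) * υ ^ 2) (K.residL.drop 31)) :=
      nrm_nonneg m hr _
    refine (nrm_mul m hr _ _).trans ?_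
    rw [hz, nrm_C_mul, abs_of_nonneg (by positivity : (0 : ℝ) ≤ ((32 : ℝ) ^ 31)⁻¹)]
    have hU0 : 0 ≤ nrm m (3 / 8) (υ ^ 62) := nrm_nonneg m hr _
    have k1 : ((32 : ℝ) ^ 31)⁻¹ * nrm m (3 / 8) (υ ^ 62) ≤
        ((32 : ℝ) ^ 31)⁻¹ * (y ^ 62 * piM (93 / 4) m) :=
      mul_le_mul_of_nonneg_left hU (by positivity)
    have k2 : ((32 : ℝ) ^ 31)⁻¹ * nrm m (3 / 8) (υ ^ 62) *
        nrm m (3 / 8) (evZ (C (1 / 32 : ℝ) * υ ^ 2) (K.residL.drop 31)) ≤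
        ((32 : ℝ) ^ 31)⁻¹ * (y ^ 62 * piM (93 / 4) m) * (340 * 10 ^ 72 * 32 ^ 31) := by
      refine mul_le_mul k1 hT hN0 ?_
      exact le_trans (mul_nonneg (by positivity) hU0) k1
    refine k2.trans (le_of_eq ?_)
    have k3 : ((32 : ℝ) ^ 31)⁻¹ * 32 ^ 31 = 1 := inv_mul_cancel₀ (by positivity)
    calc ((32 : ℝ) ^ 31)⁻¹ * (y ^ 62 * piM (93 / 4) m) * (340 * 10 ^ 72 * 32 ^ 31)
        = (((32 : ℝ) ^ 31)⁻¹ * 32 ^ 31) * (340 * 10 ^ 72 * y ^ 62 * piM (93 / 4) m) := by ring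
      _ = _ := by rw [k3, one_mul]

end TWP
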