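import Pool.Agent.TWP.StL4
import Pool.Agent.TWP.KNrm

set_option autoImplicit false

/-! TWP, module LTJ: jets of `e` and `T` (left tail, `β = 4`). -/

namespace TWP

open PowerSeries Finset

theorem t_LTJ (hEX : S_BEX) (hJN : S_RJN) : S_LTJ := by
  intro y e0 υ Y E hy hy2 hυ hυ0 he0 hE hY hE0 hsm
  have hr : (0 : ℝ) ≤ 3 / 8 := by norm_num
  obtain ⟨-, hinv, -, hn⟩ := hEX υ hυ (by rw [hυ0]; exact hy)
  rw [hυ0] at hn
  obtain ⟨hj, -, -, hexp⟩ := hJN
  have hyi : 0 < y⁻¹ := inv_pos.2 hy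
  have nη : ∀ m : ℕ, nrm m (3 / 8) υ⁻¹ ≤ 1455 / 1000 * y⁻¹ := fun m => by
    have := (hn m (3 / 8) hr).2
    nlinarith
  have hDE : D E = C (-(2 / 3) : ℝ) * (υ⁻¹ * (Y * E)) := by
    have h1 : D E = υ⁻¹ * (υ * D E) := by
      rw [← mul_assoc, mul_comm υ⁻¹ υ, hinv, one_mul]
    rw [h1, hE, map_neg]
    ring
  have nY : ∀ m ≤ 24, nrm m (3 / 8) Y ≤ 1002 / 1000 := by
    intro m hm
    have h1 := nrm_add m hr (Y - 1) 1
    rw [nrm_one, sub_add_cancel] at h1
    have h2 := nrm_mono_M hm hr (Y - 1)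
    linarith
  have nD : ∀ m ≤ 24, nrm m (3 / 8) (D E) ≤ y⁻¹ * nrm m (3 / 8) E := by
    intro m hm
    have e0' := nrm_nonneg m hr E
    rw [hDE, nrm_C_mul]
    have h1 : nrm m (3 / 8) (Y * E) ≤ 1002 / 1000 * nrm m (3 / 8) E :=
      (nrm_mul m hr _ _).trans (mul_le_mul_of_nonneg_right (nY m hm) e0')
    have h2 : nrm m (3 / 8) (υ⁻¹ * (Y * E)) ≤
        1455 / 1000 * y⁻¹ * (1002 / 1000 * nrm m (3 / 8) E) :=
      (nrm_mul m hr _ _).trans (mul_le_mul (nη m) h1 (nrm_nonneg m hr _) (by positivity))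
    have h3 : |(-(2 / 3) : ℝ)| = 2 / 3 := by norm_num
    rw [h3]
    have h4 : 0 ≤ y⁻¹ * nrm m (3 / 8) E := by positivity
    linarith
  have hpi : ∀ m, 0 ≤ piM (3 / (8 * y)) m := by
    intro m
    unfold piM
    exact prod_nonneg fun j _ => by positivity
  have hG : ∀ m ≤ 24, nrm m (3 / 8) E ≤ e0 * piM (3 / (8 * y)) m := by
    intro m
    induction m with
    | zero =>
      intro _
      have h1 : nrm 0 (3 / 8) E = |coeff 0 E| := by simp [nrm]
      have h2 : piM (3 / (8 * y)) 0 = 1 := by simp [piM]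
      rw [h1, h2, mul_one]
      exact hE0
    | succ m ih =>
      intro hm
      have h1 := ih (by omega)
      have h2 := hj m (3 / 8) E hr
      have h3 := nD m (by omega)
      have h4 : piM (3 / (8 * y)) (m + 1) =
          piM (3 / (8 * y)) m * (1 + 3 / (8 * y) / ((m : ℝ) + 1)) := by
        unfold piM
        rw [prod_range_succ]
      rw [h4]
      have hm1 : (0 : ℝ) < (m : ℝ) + 1 := by positivity
      have h5 : nrm (m + 1) (3 / 8) E ≤
          nrm m (3 / 8) E * (1 + 3 / (8 * y) / ((m : ℝ) + 1)) := by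
        refine h2.trans ?_
        have h6 : 3 / 8 / ((m : ℝ) + 1) * nrm m (3 / 8) (D E) ≤
            3 / 8 / ((m : ℝ) + 1) * (y⁻¹ * nrm m (3 / 8) E) :=
          mul_le_mul_of_nonneg_left h3 (by positivity)
        have h7 : 3 / 8 / ((m : ℝ) + 1) * (y⁻¹ * nrm m (3 / 8) E) =
            nrm m (3 / 8) E * (3 / (8 * y) / ((m : ℝ) + 1)) := by
          field_simp
        rw [mul_add, mul_one]
        linarith
      refine h5.trans ?_
      rw [← mul_assoc]
      exact mul_le_mul_of_nonneg_right h1 (by positivity)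
  have hq := hG 24 le_rfl
  set q : ℝ := e0 * piM (3 / (8 * y)) 24 with hqd
  have hq0 : 0 ≤ q := mul_nonneg he0 (hpi 24)
  have h1 : nrm 24 (3 / 8) (1 - 1 * (1 + E)) ≤ q := by
    have h2 : (1 : ℝ⟦X⟧) - 1 * (1 + E) = -E := by ring
    rw [h2, nrm_neg]
    exact hq
  obtain ⟨hc, hinv2, -⟩ := nrm_inv 24 hr (1 + E) 1 h1 (by linarith)
  rw [nrm_one] at hinv2
  have hc' : constantCoeff (1 + E) ≠ 0 := by simpa using hc
  have hm : (1 + E) * (1 + E)⁻¹ = 1 := PowerSeries.mul_inv_cancel _ hc'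
  have c2 : (C (-2 : ℝ) : ℝ⟦X⟧) = -2 := by
    rw [map_neg]
    exact congrArg Neg.neg (map_ofNat C 2)
  have he : (1 - E) * (1 + E)⁻¹ - 1 = C (-2 : ℝ) * (E * (1 + E)⁻¹) := by
    rw [c2]
    linear_combination hm
  rw [he, nrm_C_mul]
  have h3 : |(-2 : ℝ)| = 2 := by norm_num
  rw [h3]
  have h4 : (1 : ℝ) / (1 - q) ≤ 100 / 99 := by
    rw [div_le_div_iff₀ (by linarith) (by norm_num)]
    linarith
  have h5 : nrm 24 (3 / 8) (E * (1 + E)⁻¹) ≤ q * (100 / 99) :=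
    (nrm_mul 24 hr _ _).trans (mul_le_mul hq (hinv2.trans h4) (nrm_nonneg 24 hr _) hq0)
  linarith

end TWP
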