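import Pool.Agent.TWP.StL4
import Pool.Agent.TWP.KNrm

set_option autoImplicit false

/-! TWP, module LYJ: jets of the error, left tail, `β = 4`. -/

namespace TWP

open PowerSeries Finset

namespace LYJaux

theorem D_sub' (A B : ℝ⟦X⟧) : D (A - B) = D A - D B := by
  unfold D; exact map_sub _ A B

theorem D_mul (A B : ℝ⟦X⟧) : D (A * B) = D A * B + A * D B := by
  unfold D
  rw [Derivation.leibniz, smul_eq_mul, smul_eq_mul]; ring

/-- norm of the nonlinear term -/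
theorem nrmG (m : ℕ) (Q E R : ℝ⟦X⟧) (hQ : nrm m (3 / 8) Q ≤ 1 / 1000)
    (hE : nrm m (3 / 8) E ≤ 1 / 1000) :
    nrm m (3 / 8) ((C (2 : ℝ) + C (6 : ℝ) * Q + C (3 : ℝ) * (Q * Q)) * E +
      C (3 : ℝ) * ((1 + Q) * (E * E)) + E * (E * E) - R) ≤
      (20102 / 10000) * nrm m (3 / 8) E + nrm m (3 / 8) R := by
  have hr : (0 : ℝ) ≤ 3 / 8 := by norm_num
  have q0 := nrm_nonneg m hr Q
  have e0 := nrm_nonneg m hr E
  generalize ha : nrm m (3 / 8) Q = a at *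
  generalize hb : nrm m (3 / 8) E = b at *
  have h1 : nrm m (3 / 8) (Q * Q) ≤ a * a := by
    have := nrm_mul m hr Q Q; rwa [ha] at this
  have h2 : nrm m (3 / 8) (C (2 : ℝ) + C (6 : ℝ) * Q + C (3 : ℝ) * (Q * Q)) ≤ 2007 / 1000 := by
    have h3 := nrm_add m hr (C (2 : ℝ) + C (6 : ℝ) * Q) (C (3 : ℝ) * (Q * Q))
    have h4 := nrm_add m hr (C (2 : ℝ)) (C (6 : ℝ) * Q)
    rw [nrm_C_mul, nrm_C] at h4
    rw [nrm_C_mul] at h3
    rw [ha] at h4
    rw [abs_of_pos (by norm_num : (0 : ℝ) < 2), abs_of_pos (by norm_num : (0 : ℝ) < 6)] at h4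
    rw [abs_of_pos (by norm_num : (0 : ℝ) < 3)] at h3
    nlinarith
  have h5 : nrm m (3 / 8) ((C (2 : ℝ) + C (6 : ℝ) * Q + C (3 : ℝ) * (Q * Q)) * E) ≤
      2007 / 1000 * b := by
    refine (nrm_mul m hr _ _).trans ?_
    rw [hb]
    exact mul_le_mul_of_nonneg_right h2 e0
  have hEE : nrm m (3 / 8) (E * E) ≤ b * b := by
    have := nrm_mul m hr E E; rwa [hb] at this
  have h6 : nrm m (3 / 8) (1 + Q) ≤ 1001 / 1000 := by
    have := nrm_add m hr 1 Q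
    rw [nrm_one, ha] at this
    linarith
  have h7 : nrm m (3 / 8) (C (3 : ℝ) * ((1 + Q) * (E * E))) ≤ 31 / 10000 * b := by
    rw [nrm_C_mul, abs_of_pos (by norm_num : (0 : ℝ) < 3)]
    have h8 : nrm m (3 / 8) ((1 + Q) * (E * E)) ≤ 1001 / 1000 * (b * b) :=
      (nrm_mul m hr _ _).trans (mul_le_mul h6 hEE (nrm_nonneg m hr _) (by norm_num))
    have h9 : b * b ≤ 1 / 1000 * b := mul_le_mul_of_nonneg_right hE e0
    linarith
  have h10 : nrm m (3 / 8) (E * (E * E)) ≤ 1 / 1000000 * b := by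
    refine (nrm_mul m hr _ _).trans ?_
    rw [hb]
    have h9 : b * b ≤ 1 / 1000000 := by nlinarith
    have h11 : nrm m (3 / 8) (E * E) ≤ 1 / 1000000 := hEE.trans h9
    calc b * nrm m (3 / 8) (E * E) ≤ b * (1 / 1000000) := mul_le_mul_of_nonneg_left h11 e0
      _ = _ := by ring
  have k1 := nrm_sub m hr ((C (2 : ℝ) + C (6 : ℝ) * Q + C (3 : ℝ) * (Q * Q)) * E +
      C (3 : ℝ) * ((1 + Q) * (E * E)) + E * (E * E)) R
  have k2 := nrm_add m hr ((C (2 : ℝ) + C (6 : ℝ) * Q + C (3 : ℝ) * (Q * Q)) * E +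
      C (3 : ℝ) * ((1 + Q) * (E * E))) (E * (E * E))
  have k3 := nrm_add m hr ((C (2 : ℝ) + C (6 : ℝ) * Q + C (3 : ℝ) * (Q * Q)) * E)
      (C (3 : ℝ) * ((1 + Q) * (E * E)))
  linarith

theorem piM_nonneg {x : ℝ} (hx : 0 ≤ x) (m : ℕ) : 0 ≤ piM x m := by
  unfold piM
  refine Finset.prod_nonneg fun j _ => ?_
  positivity

theorem nrm_zero_index (r : ℝ) (A : ℝ⟦X⟧) : nrm 0 r A = |coeff 0 A| := by
  unfold nrm
  simp

end LYJaux

open LYJaux in
theorem t_LYJ (hEX : S_BEX) (hGR : S_RGR) (hJN : S_RJN) : S_LYJ := by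
  intro y ρ e0 υ Y P R hy hy2 hυ hυ0 hρ he0 hY hP hP1 hR hE0 hsmall
  have hr : (0 : ℝ) ≤ 3 / 8 := by norm_num
  obtain ⟨-, hinv, -, hn⟩ := hEX υ hυ (by rw [hυ0]; exact hy)
  rw [hυ0] at hn
  obtain ⟨hJ1, -, -, hexp⟩ := hJN
  set η : ℝ⟦X⟧ := υ⁻¹ with hη
  set E : ℝ⟦X⟧ := Y - P with hE
  set F : ℝ⟦X⟧ := υ * D E with hF
  obtain ⟨w, hw⟩ : ∃ w : ℝ, w = 1 / y := ⟨_, rfl⟩
  have hwi : y⁻¹ = w := by rw [hw, one_div]
  have hw0 : 0 < w := by rw [hw]; positivity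
  have hw1 : 256 / 3 ≤ w := by
    rw [hw, le_div_iff₀ hy]; linarith
  have nυ : ∀ m : ℕ, nrm m (3 / 8) υ ≤ 1455 / 1000 * y := fun m => by
    have := (hn m (3 / 8) hr).1
    nlinarith
  have nη : ∀ m : ℕ, nrm m (3 / 8) η ≤ 1455 / 1000 * w := fun m => by
    have := (hn m (3 / 8) hr).2
    rw [hwi] at this
    nlinarith
  -- the two equations
  have hDE : D E = η * F := by
    rw [hF, ← mul_assoc, mul_comm η υ, hinv, one_mul]
  set Q : ℝ⟦X⟧ := P - 1 with hQ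
  set G : ℝ⟦X⟧ := (C (2 : ℝ) + C (6 : ℝ) * Q + C (3 : ℝ) * (Q * Q)) * E +
      C (3 : ℝ) * ((1 + Q) * (E * E)) + E * (E * E) - R with hG
  have c2 : (C (2 : ℝ) : ℝ⟦X⟧) = 2 := map_ofNat C 2
  have c3 : (C (3 : ℝ) : ℝ⟦X⟧) = 3 := map_ofNat C 3
  have c6 : (C (6 : ℝ) : ℝ⟦X⟧) = 6 := map_ofNat C 6
  have hG2 : C (1 / 2 : ℝ) * υ ^ 2 * (C (9 / 4 : ℝ) * D (D E) - C (1 / 4 : ℝ) * E) = G := by
    have e1 : D (D E) = D (D Y) - D (D P) := by rw [hE, D_sub', D_sub']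
    rw [e1, hG, c2, c3, c6, hQ]
    linear_combination hY - hP
  have hc1 : (C (8 / 9 : ℝ) : ℝ⟦X⟧) * C (1 / 2 : ℝ) * C (9 / 4 : ℝ) = 1 := by
    rw [← map_mul, ← map_mul, ← map_one C]; congr 1; norm_num
  have hc2 : (C (8 / 9 : ℝ) : ℝ⟦X⟧) * C (1 / 2 : ℝ) * C (1 / 4 : ℝ) = C (1 / 9 : ℝ) := by
    rw [← map_mul, ← map_mul]; congr 1; norm_num
  have hDD : υ * D (D E) = C (8 / 9 : ℝ) * (η * G) + C (1 / 9 : ℝ) * (υ * E) := by
    rw [← hG2]
    linear_combination -((C (8 / 9 : ℝ) * C (1 / 2 : ℝ) * C (9 / 4 : ℝ) * υ * D (D E) -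
      C (8 / 9 : ℝ) * C (1 / 2 : ℝ) * C (1 / 4 : ℝ) * υ * E) * hinv + υ * D (D E) * hc1 -
      υ * E * hc2)
  have hDF : D F = -F + C (1 / 9 : ℝ) * (υ * E) + C (8 / 9 : ℝ) * (η * G) := by
    rw [hF, D_mul, hυ, hDD]; ring
  -- the bound for the derivatives
  have hder : ∀ m < 24, nrm m (3 / 8) E + nrm m (3 / 8) F ≤ 1 / 1000 →
      nrm m (3 / 8) (D E) + nrm m (3 / 8) (D F) ≤
        262 / 100 * w * (nrm m (3 / 8) E + nrm m (3 / 8) F) + 13 / 10 * w * nrm m (3 / 8) R := by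
    intro m hm hN
    have nE0 := nrm_nonneg m hr E
    have nF0 := nrm_nonneg m hr F
    have nR0 := nrm_nonneg m hr R
    have hE' : nrm m (3 / 8) E ≤ 1 / 1000 := by linarith
    have hQm : nrm m (3 / 8) Q ≤ 1 / 1000 := (nrm_mono_M hm.le hr _).trans hP1
    have hGn := nrmG m Q E R hQm hE'
    rw [← hG] at hGn
    have d1 : nrm m (3 / 8) (D E) ≤ 1455 / 1000 * w * nrm m (3 / 8) F := by
      rw [hDE]
      exact (nrm_mul m hr _ _).trans (mul_le_mul_of_nonneg_right (nη m) nF0)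
    have d2 : nrm m (3 / 8) (υ * E) ≤ 1455 / 1000 * y * nrm m (3 / 8) E :=
      (nrm_mul m hr _ _).trans (mul_le_mul_of_nonneg_right (nυ m) nE0)
    have d3 : nrm m (3 / 8) (η * G) ≤
        1455 / 1000 * w * (20102 / 10000 * nrm m (3 / 8) E + nrm m (3 / 8) R) :=
      (nrm_mul m hr _ _).trans (mul_le_mul (nη m) hGn (nrm_nonneg m hr _) (by positivity))
    have d4 : nrm m (3 / 8) (D F) ≤ nrm m (3 / 8) F + 1 / 9 * nrm m (3 / 8) (υ * E) +
        8 / 9 * nrm m (3 / 8) (η * G) := by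
      rw [hDF]
      have k1 := nrm_add m hr (-F + C (1 / 9 : ℝ) * (υ * E)) (C (8 / 9 : ℝ) * (η * G))
      have k2 := nrm_add m hr (-F) (C (1 / 9 : ℝ) * (υ * E))
      rw [nrm_neg, nrm_C_mul, abs_of_pos (by norm_num : (0 : ℝ) < 1 / 9)] at k2
      rw [nrm_C_mul, abs_of_pos (by norm_num : (0 : ℝ) < 8 / 9)] at k1
      linarith
    have hy1 : 1 ≤ 2 / 100 * w := by linarith
    have hy3 : 1 / 9 * (1455 / 1000 * y) ≤ 1 / 1000 * w := by linarith
    have m1 : 1 * nrm m (3 / 8) F ≤ 2 / 100 * w * nrm m (3 / 8) F :=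
      mul_le_mul_of_nonneg_right hy1 nF0
    have m2 : 1 / 9 * (1455 / 1000 * y) * nrm m (3 / 8) E ≤ 1 / 1000 * w * nrm m (3 / 8) E :=
      mul_le_mul_of_nonneg_right hy3 nE0
    have m3 : 0 ≤ w * nrm m (3 / 8) E := by positivity
    have m4 : 0 ≤ w * nrm m (3 / 8) R := by positivity
    have m5 : 0 ≤ w * nrm m (3 / 8) F := by positivity
    nlinarith
  -- the recursion
  have ha0 : 0 ≤ 3 / 8 * (13 / 10) * ρ * w := by positivity
  have hyx : (0 : ℝ) < w - 93 / 4 := by linarith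
  have hfrac : 3 / 8 * (13 / 10) * ρ * w / (w - 93 / 4) ≤ ρ := by
    rw [div_le_iff₀ hyx]
    nlinarith
  have hbound : ∀ m, (e0 + 3 / 8 * (13 / 10) * ρ * w / (w - 93 / 4)) *
      piM w m + 0 / (w + 1 - w) * piM (w + 1) m ≤ (e0 + ρ) * piM w m := by
    intro m
    rw [zero_div, zero_mul, add_zero]
    exact mul_le_mul_of_nonneg_right (by linarith) (piM_nonneg hw0.le m)
  rw [← hw] at hsmall ⊢
  have hc0 : |coeff 0 E| + |coeff 0 F| ≤ e0 := by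
    have e1 : coeff 0 F = y * coeff 0 (D E) := by
      rw [hF, ← hυ0]
      simp [coeff_mul]
    rw [e1]; exact hE0
  have hmain := hGR 24 (fun m => nrm m (3 / 8) E + nrm m (3 / 8) F) e0
    (3 / 8 * (13 / 10) * ρ * w) 0 (93 / 4) (w + 1) w (1 / 1000)
    (by norm_num) (by linarith) (by linarith) ha0 le_rfl he0
    (by
      show nrm 0 (3 / 8) E + nrm 0 (3 / 8) F ≤ e0
      rw [nrm_zero_index, nrm_zero_index]
      exact hc0)
    ((hbound 24).trans hsmall)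
    (by
      intro m hm hN
      have hN' : nrm m (3 / 8) E + nrm m (3 / 8) F ≤ 1 / 1000 := hN
      have j1 := hJ1 m (3 / 8) E hr
      have j2 := hJ1 m (3 / 8) F hr
      have j3 := hder m hm hN'
      have j4 := hR m (by omega)
      have hm1 : (0 : ℝ) < (m : ℝ) + 1 := by positivity
      have hc1 : (0 : ℝ) ≤ 3 / 8 / ((m : ℝ) + 1) := by positivity
      have nE0 := nrm_nonneg m hr E
      have nF0 := nrm_nonneg m hr F
      have j5 : 13 / 10 * w * nrm m (3 / 8) R ≤ 13 / 10 * w * (ρ * piM (93 / 4) m) :=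
        mul_le_mul_of_nonneg_left j4 (by positivity)
      have j7 : 262 / 100 * w * (nrm m (3 / 8) E + nrm m (3 / 8) F) ≤
          8 / 3 * w * (nrm m (3 / 8) E + nrm m (3 / 8) F) := by
        have : 0 ≤ w * (nrm m (3 / 8) E + nrm m (3 / 8) F) := by positivity
        linarith
      have j6 : 3 / 8 / ((m : ℝ) + 1) * (nrm m (3 / 8) (D E) + nrm m (3 / 8) (D F)) ≤
          3 / 8 / ((m : ℝ) + 1) * (8 / 3 * w * (nrm m (3 / 8) E + nrm m (3 / 8) F) +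
            13 / 10 * w * (ρ * piM (93 / 4) m)) :=
        mul_le_mul_of_nonneg_left (by linarith) hc1
      show nrm (m + 1) (3 / 8) E + nrm (m + 1) (3 / 8) F ≤
        (nrm m (3 / 8) E + nrm m (3 / 8) F) * (1 + w / ((m : ℝ) + 1)) +
        (3 / 8 * (13 / 10) * ρ * w * piM (93 / 4) m + 0 * piM (w + 1) m) / ((m : ℝ) + 1)
      have e : (nrm m (3 / 8) E + nrm m (3 / 8) F) * (1 + w / ((m : ℝ) + 1)) +
        (3 / 8 * (13 / 10) * ρ * w * piM (93 / 4) m + 0 * piM (w + 1) m) / ((m : ℝ) + 1) =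
          (nrm m (3 / 8) E + nrm m (3 / 8) F) +
          3 / 8 / ((m : ℝ) + 1) * (8 / 3 * w * (nrm m (3 / 8) E + nrm m (3 / 8) F) +
            13 / 10 * w * (ρ * piM (93 / 4) m)) := by
        ring
      rw [e]
      linarith)
  have h24 := (hmain 24 le_rfl).trans (hbound 24)
  have hF0 := nrm_nonneg 24 hr F
  linarith

end TWP
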