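import Pool.Agent.TWP.R4Fin
import Pool.Agent.TWP.BA
import Pool.Agent.TWP.LPL
import Pool.Agent.TWP.LYJ
import Pool.Agent.TWP.LTJ
import Pool.Agent.TWP.LNU
import Pool.Agent.TWP.LFS
import Pool.Agent.TWP.LMS
import Pool.Agent.TWP.LLA
import Pool.Agent.TWP.LEB
import Pool.Agent.TWP.LL

/-! TWP, `β = 4`: the left tail (helper66). -/

set_option autoImplicit false

namespace TWP

open Filter Topology MeasureTheory Set
open scoped ContDiff

theorem lPL : S_LPL := t_LPL t_BEX t_BNB t_BDE kEVA t_RJN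
theorem lYJ : S_LYJ := t_LYJ t_BEX t_RGR t_RJN
theorem lTJ : S_LTJ := t_LTJ t_BEX t_RJN
theorem lLA : S_LLA := t_LLA kLIN kMULA kINVA

theorem lL : S_LL :=
  t_LL t_BEX t_BIC t_BDB t_BRT lPL lYJ lTJ t_LNU t_BLF t_LFS bLE t_LMS lLA t_BLS bTA bTM bTL kCHAIN

section

variable {q : ℝ → ℝ} (h : IsHM q)

include h

theorem IsHM.bF_left (t : ℝ) (ht : t ≤ -24) :
    0 < bF q (fun t => deriv q t / q t) (eF q) t := by
  have hb := h.band t
  have e1 : Pool.Agent.TWP.E.Pm t = Real.sqrt ((-1 - t) / 2) := by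
    unfold Pool.Agent.TWP.E.Pm
    rw [if_pos (by linarith)]
  have e2 : Pool.Agent.TWP.E.Pp t = Real.sqrt ((1 - t) / 2) := by
    unfold Pool.Agent.TWP.E.Pp
    rw [if_pos (by linarith)]
  rw [e1, e2] at hb
  have hq0 := h.pos t
  have h1 : 3 ≤ q t := by
    refine le_trans ?_ hb.1
    apply Real.le_sqrt_of_sq_le
    linarith
  have h2 : q t ^ 2 ≤ (1 - t) / 2 := by
    have := pow_le_pow_left₀ hq0.le hb.2 2
    rwa [Real.sq_sqrt (by linarith)] at this
  have h3 : 11 ≤ gf q (fun t => deriv q t / q t) t := by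
    unfold gf
    have := sq_nonneg (deriv q t / q t)
    beta_reduce
    linarith
  have h4 := (h.tF_bounds t).2
  unfold bF
  nlinarith

/-- **L4**: the left tail, `β = 4` -/
theorem IsHM.left4 (hA : ∀ t, t ≤ -(49 / 2) → |q t / Real.sqrt (-t / 2) -
      Pool.Agent.TWP.Tail.ev Pool.Agent.TWP.Tail.cY40 (Pool.Agent.TWP.Tail.zL t / 16)| ≤
      (Pool.Agent.TWP.Tail.dY40 : ℝ) * (Pool.Agent.TWP.Tail.zL t / 16) ^ 41)
    (t : ℝ) (ht : t ≤ -(49 / 2)) :
    0 < bF q (fun t => deriv q t / q t) (eF q) t ∧ ∀ j, 1 ≤ j → j ≤ 12 →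
      0 < toda (mFour q (fun t => deriv q t / q t) (eF q)) j t ∧
      ContDiffAt ℝ ∞ (toda (mFour q (fun t => deriv q t / q t) (eF q)) j) t := by
  have hA' : ∀ s, s ≤ -(49 / 2) → |q s / Real.sqrt (-s / 2) -
      Pool.Agent.TWP.Tail.ev Pool.Agent.TWP.Tail.cY (Pool.Agent.TWP.Tail.zL s / 16)| ≤
      5 * 10 ^ 62 * Pool.Agent.TWP.Tail.zL s ^ 25 :=
    fun s hs => hA_of_int _ s (by linarith) (hA s hs)
  have hH3 := Pool.Agent.TWP.Tail.H3b h.ode1 h.ode2 (5 * 10 ^ 62) (-(49 / 2)) (by norm_num)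
    (by norm_num) (by norm_num) hA' t ht
  have e : t * (deriv q t / q t * q t) / Real.sqrt (-t / 2) = t * deriv q t / Real.sqrt (-t / 2) := by
    rw [div_mul_cancel₀ _ (h.pos t).ne']
  refine ⟨h.bF_left t (by linarith), ?_⟩
  exact lL q (fun t => deriv q t / q t) (eF q) h.ql (eF_pos q) h.eF_deriv t (by linarith)
    (yL_small ht) (t_LEB q h t ht) (hA' t ht) (by beta_reduce; rw [e]; exact hH3)

end

end TWP
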