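import Pool.Agent.TWP.StL

/-! TWP_L_FDL: the limit of the differences. -/

namespace TWP.L

open Filter Topology
open scoped ContDiff

theorem t_FDL (hMVD : S_MVD) : S_FDL := by
  intro N j g t0 hg
  have hex : ∀ h : ℝ, ∃ ξ : ℝ, 0 < h → t0 - j * h ≤ ξ ∧ ξ ≤ t0 - j * h + N * h ∧
      fd h N g (t0 - j * h) = h ^ N * iteratedDeriv N g ξ := by
    intro h
    by_cases hh : 0 < h
    · obtain ⟨ξ, h1⟩ := hMVD N g h (t0 - j * h) hg hh
      exact ⟨ξ, fun _ => h1⟩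
    · exact ⟨0, fun h2 => absurd h2 hh⟩
  choose ξ hξ using hex
  have hpos : ∀ᶠ h : ℝ in 𝓝[>] (0 : ℝ), 0 < h := self_mem_nhdsWithin
  have hlow : Tendsto (fun h : ℝ => t0 - j * h) (𝓝[>] (0 : ℝ)) (𝓝 t0) := by
    have h1 : Continuous fun h : ℝ => t0 - j * h := by fun_prop
    have h2 := (h1.tendsto 0).mono_left (nhdsWithin_le_nhds (s := Set.Ioi (0 : ℝ)))
    simpa using h2
  have hup : Tendsto (fun h : ℝ => t0 - j * h + N * h) (𝓝[>] (0 : ℝ)) (𝓝 t0) := by
    have h1 : Continuous fun h : ℝ => t0 - j * h + N * h := by fun_prop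
    have h2 := (h1.tendsto 0).mono_left (nhdsWithin_le_nhds (s := Set.Ioi (0 : ℝ)))
    simpa using h2
  have hlim : Tendsto ξ (𝓝[>] (0 : ℝ)) (𝓝 t0) :=
    tendsto_of_tendsto_of_tendsto_of_le_of_le' hlow hup
      (hpos.mono fun h hh => (hξ h hh).1) (hpos.mono fun h hh => (hξ h hh).2.1)
  have hc : Continuous (iteratedDeriv N g) :=
    hg.continuous_iteratedDeriv N (by exact_mod_cast le_top)
  have h3 := (hc.tendsto t0).comp hlim
  refine h3.congr' (hpos.mono fun h hh => ?_)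
  have h4 : h ^ N ≠ 0 := (pow_pos hh N).ne'
  show iteratedDeriv N g (ξ h) = fd h N g (t0 - j * h) / h ^ N
  rw [(hξ h hh).2.2, mul_div_cancel_left₀ _ h4]

end TWP.L
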