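import Pool.Agent.TWP.StL

set_option autoImplicit false

/-! TWP, block L: triangular row and column operations (module LU). -/

namespace TWP.L

open Finset

namespace LUaux

theorem fd_eq (h : ℝ) (N : ℕ) (g : ℝ → ℝ) : fd h N g = (fwdDiff h)^[N] g := by
  induction N with
  | zero => rfl
  | succ N ih =>
    rw [Function.iterate_succ_apply']
    funext t
    show fd h N g (t + h) - fd h N g t = fwdDiff h ((fwdDiff h)^[N] g) t
    rw [ih]
    rfl

theorem fd_fd (h : ℝ) (i j : ℕ) (g : ℝ → ℝ) : fd h j (fd h i g) = fd h (i + j) g := by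
  rw [fd_eq, fd_eq, fd_eq, add_comm i j, Function.iterate_add_apply]

theorem fd_sum (h : ℝ) (N : ℕ) (g : ℝ → ℝ) (t : ℝ) :
    ∑ k ∈ range (N + 1), (-1 : ℝ) ^ (N - k) * (N.choose k : ℝ) * g (t + k * h) = fd h N g t := by
  rw [fd_eq, fwdDiff_iter_eq_sum_shift]
  refine sum_congr rfl fun k _ => ?_
  rw [zsmul_eq_mul, nsmul_eq_mul]
  push_cast
  ring

theorem fd_sum' (h : ℝ) (N : ℕ) (g : ℝ → ℝ) (t : ℝ) :
    ∑ k ∈ range (N + 1), (-1 : ℝ) ^ (N - k) * (N.choose k : ℝ) * g (t - k * h) =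
      (-1 : ℝ) ^ N * fd h N g (t - N * h) := by
  rw [← fd_sum h N g, mul_sum, ← sum_range_reflect]
  refine sum_congr rfl fun k hk => ?_
  have hk' : k ≤ N := Nat.lt_succ_iff.1 (mem_range.1 hk)
  have e1 : N + 1 - 1 - k = N - k := by omega
  rw [e1, Nat.choose_symm hk', Nat.sub_sub_self hk', Nat.cast_sub hk']
  have e2 : t - ((N : ℝ) - (k : ℝ)) * h = t - N * h + k * h := by ring
  have e3 : (-1 : ℝ) ^ N * (-1 : ℝ) ^ (N - k) = (-1 : ℝ) ^ k := by
    rw [← pow_add]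
    have : N + (N - k) = k + 2 * (N - k) := by omega
    rw [this, pow_add, pow_mul]
    norm_num
  rw [e2, ← e3]
  ring

theorem sum_fin (n i : ℕ) (hi : i < n) (φ : ℕ → ℝ) :
    ∑ k : Fin n, (-1 : ℝ) ^ (i - (k : ℕ)) * (i.choose (k : ℕ) : ℝ) * φ (k : ℕ) =
      ∑ k ∈ range (i + 1), (-1 : ℝ) ^ (i - k) * (i.choose k : ℝ) * φ k := by
  rw [Fin.sum_univ_eq_sum_range (fun k => (-1 : ℝ) ^ (i - k) * (i.choose k : ℝ) * φ k) n]
  symm
  refine sum_subset (range_subset_range.2 hi) fun k _ hk => ?_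
  rw [mem_range, not_lt] at hk
  rw [Nat.choose_eq_zero_of_lt (by omega)]
  simp

/-- the lower triangular matrix -/
noncomputable def LL (n : ℕ) : Matrix (Fin n) (Fin n) ℝ :=
  Matrix.of fun i k => (-1 : ℝ) ^ ((i : ℕ) - (k : ℕ)) * ((i : ℕ).choose (k : ℕ) : ℝ)

theorem det_LL (n : ℕ) : (LL n).det = 1 := by
  rw [Matrix.det_of_lowerTriangular]
  · refine prod_eq_one fun i _ => ?_
    simp [LL]
  · intro i j hij
    have h1 : i < j := by simpa using hij
    have h2 : (i : ℕ) < (j : ℕ) := h1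
    simp [LL, Nat.choose_eq_zero_of_lt h2]

end LUaux

open LUaux

theorem t_LU : S_LU := by
  intro n g t0 h
  set F : Matrix (Fin n) (Fin n) ℝ :=
    Matrix.of fun i j : Fin n => g ((t0 + (i : ℕ) * h) - (j : ℕ) * h) with hF
  have h1 : (LL n * F * (LL n).transpose) =
      Matrix.of fun i j : Fin n => (-1) ^ (j : ℕ) * fd h ((i : ℕ) + (j : ℕ)) g (t0 - (j : ℕ) * h) := by
    have e1 : ∀ i k : Fin n, (LL n * F) i k = fd h (i : ℕ) g (t0 - (k : ℕ) * h) := by
      intro i k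
      rw [Matrix.mul_apply, ← fd_sum h (i : ℕ) g (t0 - (k : ℕ) * h),
        ← sum_fin n (i : ℕ) i.2 (fun l => g (t0 - (k : ℕ) * h + l * h))]
      refine sum_congr rfl fun l _ => ?_
      have : t0 + ((l : ℕ) : ℝ) * h - ((k : ℕ) : ℝ) * h = t0 - ((k : ℕ) : ℝ) * h + ((l : ℕ) : ℝ) * h := by
        ring
      simp only [LL, hF, Matrix.of_apply, this]
    ext i j
    rw [Matrix.mul_apply, Matrix.of_apply, ← fd_fd, ← fd_sum',
      ← sum_fin n (j : ℕ) j.2 (fun k => fd h (i : ℕ) g (t0 - k * h))]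
    refine sum_congr rfl fun k _ => ?_
    rw [e1 i k, Matrix.transpose_apply]
    simp only [LL, Matrix.of_apply]
    ring
  rw [← h1, Matrix.det_mul, Matrix.det_mul, Matrix.det_transpose, det_LL]
  ring

end TWP.L
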