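import Pool.Agent.TWP.StL

/-! TWP, module L_PFD: `PF_n` gives the sign of the determinant of the derivatives. -/

namespace TWP.L

open Filter Topology
open scoped ContDiff

theorem t_PFD (hFDL : S_FDL) (hLU : S_LU) : S_PFD := by
  intro n f hf hPF t0
  rcases Nat.eq_zero_or_pos n with hn | hn
  · subst hn
    simp
  -- the normalised matrices
  let A : ℝ → Matrix (Fin n) (Fin n) ℝ := fun h => Matrix.of fun i j : Fin n =>
    (-1) ^ (j : ℕ) * (fd h ((i : ℕ) + (j : ℕ)) f (t0 - (j : ℕ) * h) / h ^ ((i : ℕ) + (j : ℕ)))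
  have hpos : ∀ h : ℝ, 0 < h → 0 ≤ (A h).det := by
    intro h hh
    have h1 : 0 ≤ (Matrix.of fun i j : Fin n =>
        f ((t0 + ((i : ℕ) : ℝ) * h) - ((j : ℕ) : ℝ) * h)).det := by
      refine hPF.2 n hn le_rfl (fun i => t0 + ((i : ℕ) : ℝ) * h) (fun j => ((j : ℕ) : ℝ) * h) ?_ ?_
      · intro a b hab
        have : ((a : ℕ) : ℝ) < ((b : ℕ) : ℝ) := by exact_mod_cast hab
        show t0 + ((a : ℕ) : ℝ) * h < t0 + ((b : ℕ) : ℝ) * h
        nlinarith
      · intro a b hab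
        have : ((a : ℕ) : ℝ) < ((b : ℕ) : ℝ) := by exact_mod_cast hab
        show ((a : ℕ) : ℝ) * h < ((b : ℕ) : ℝ) * h
        nlinarith
    rw [hLU n f t0 h] at h1
    have h2 : (Matrix.of fun i j : Fin n =>
        (-1) ^ (j : ℕ) * fd h ((i : ℕ) + (j : ℕ)) f (t0 - (j : ℕ) * h)) =
        Matrix.of fun i j : Fin n => h ^ (i : ℕ) *
          (Matrix.of fun i j : Fin n => h ^ (j : ℕ) * A h i j) i j := by
      ext i j
      have hne : h ^ ((i : ℕ) + (j : ℕ)) ≠ 0 := (pow_pos hh _).ne'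
      simp only [Matrix.of_apply, A]
      rw [← mul_assoc, ← pow_add]
      field_simp
    rw [h2, Matrix.det_mul_column, Matrix.det_mul_row, ← mul_assoc] at h1
    have h3 : 0 < (∏ i : Fin n, h ^ (i : ℕ)) * (∏ i : Fin n, h ^ (i : ℕ)) :=
      mul_pos (Finset.prod_pos fun i _ => pow_pos hh _) (Finset.prod_pos fun i _ => pow_pos hh _)
    exact nonneg_of_mul_nonneg_right h1 h3
  have hlim : Tendsto (fun h => (A h).det) (𝓝[>] 0)
      (𝓝 (Matrix.of fun i j : Fin n =>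
        (-1 : ℝ) ^ (j : ℕ) * iteratedDeriv ((i : ℕ) + (j : ℕ)) f t0).det) := by
    have hA : Tendsto A (𝓝[>] 0) (𝓝 (Matrix.of fun i j : Fin n =>
        (-1 : ℝ) ^ (j : ℕ) * iteratedDeriv ((i : ℕ) + (j : ℕ)) f t0)) := by
      refine tendsto_pi_nhds.mpr fun i => tendsto_pi_nhds.mpr fun j => ?_
      exact (hFDL ((i : ℕ) + (j : ℕ)) (j : ℕ) f t0 hf).const_mul ((-1 : ℝ) ^ (j : ℕ))
    have hdet : Continuous fun M : Matrix (Fin n) (Fin n) ℝ => M.det :=
      Continuous.matrix_det continuous_id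
    exact (hdet.tendsto _).comp hA
  exact ge_of_tendsto hlim (by
    filter_upwards [self_mem_nhdsWithin] with h hh
    exact hpos h hh)

end TWP.L
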