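import Pool.Agent.TWP.StL

/-! TWP_L_SYL: local form of the reduction of the system of `f` to the Toda chain. -/

set_option autoImplicit false

namespace TWP.L
open Filter Topology Set
open scoped ContDiff

/-- quotient `sy f k j / sy f k 0` -/
noncomputable def sylP (f : ℝ → ℝ) (k j : ℕ) : ℝ → ℝ := fun s => P.sy f k j s / P.sy f k 0 s

/-- the quotients of the system before -/
noncomputable def sylQ (f : ℝ → ℝ) : ℕ → ℕ → ℝ → ℝ
  | 0 => fun _ _ => 0
  | k + 1 => fun j => sylP f k j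

/-- the invariant on an open set -/
structure SylInv (f m : ℝ → ℝ) (U : Set ℝ) (k : ℕ) : Prop where
  op : IsOpen U
  sm : ∀ j, ContDiffOn ℝ ∞ (P.sy f k j) U
  pos : ∀ t ∈ U, 0 < P.sy f k 0 t
  dp : ∀ j, ∀ t ∈ U, HasDerivAt (sylP f k j)
    (-(sylP f k (j + 1) t) + (sylP f k 1 t - sylQ f k 1 t) * sylP f k j t + sylQ f k (j + 1) t) t
  dq : ∀ j, ∀ t ∈ U, HasDerivAt (sylQ f k (j + 1)) (toda m k t * sylP f k j t) t
  lg : 1 ≤ k → ∃ g : ℝ → ℝ, (∀ t ∈ U, deriv (toda m k) t / toda m k t = - sylP f k 1 t + g t) ∧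
    ∀ t ∈ U, HasDerivAt g (2 * toda m k t - toda m (k - 1) t) t

theorem syl_succ (f : ℝ → ℝ) (k j : ℕ) : P.sy f (k + 1) j = deriv (sylP f k (j + 1)) := rfl

theorem syl_smooth {f : ℝ → ℝ} (hf : ContDiff ℝ ∞ f) (j : ℕ) : ContDiff ℝ ∞ (P.sy f 0 j) := by
  have hid : ContDiff ℝ ∞ (iteratedDeriv j f) := by
    rw [iteratedDeriv_eq_iterate]
    exact hf.iterate_deriv j
  exact contDiff_const.mul hid

theorem sylInv_zero {f m : ℝ → ℝ} (hf : ContDiff ℝ ∞ f) (hpos : ∀ t, 0 < f t) :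
    SylInv f m univ 0 := by
  have hid : ∀ j : ℕ, ContDiff ℝ ∞ (iteratedDeriv j f) := by
    intro j
    rw [iteratedDeriv_eq_iterate]
    exact hf.iterate_deriv j
  have h0 : ∀ t, P.sy f 0 0 t = f t := by
    intro t; simp [P.sy]
  have hd : ∀ j t, HasDerivAt (P.sy f 0 j) (-(P.sy f 0 (j + 1) t)) t := by
    intro j t
    have h1 : HasDerivAt (iteratedDeriv j f) (iteratedDeriv (j + 1) f t) t := by
      rw [iteratedDeriv_succ]
      exact ((hid j).differentiable (by simp) t).hasDerivAt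
    have h2 := h1.const_mul ((-1 : ℝ) ^ j)
    have e : (-1 : ℝ) ^ j * iteratedDeriv (j + 1) f t = -(P.sy f 0 (j + 1) t) := by
      simp only [P.sy, pow_succ]; ring
    rw [e] at h2
    exact h2
  have hp0 : ∀ t, 0 < P.sy f 0 0 t := fun t => by rw [h0]; exact hpos t
  refine ⟨isOpen_univ, fun j => (syl_smooth hf j).contDiffOn, fun t _ => hp0 t, ?_, ?_, ?_⟩
  · intro j t _
    have h1 := (hd j t).div (hd 0 t) (hp0 t).ne'
    have e : (-(P.sy f 0 (j + 1) t) * P.sy f 0 0 t - P.sy f 0 j t * -(P.sy f 0 (0 + 1) t)) /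
        P.sy f 0 0 t ^ 2 =
        (-(sylP f 0 (j + 1) t) + (sylP f 0 1 t - sylQ f 0 1 t) * sylP f 0 j t +
          sylQ f 0 (j + 1) t) := by
      have := (hp0 t).ne'
      simp only [sylP, sylQ]
      field_simp
      ring
    rw [e] at h1
    exact h1
  · intro j t _
    have : toda m 0 t * sylP f 0 j t = 0 := by simp [toda]
    rw [this]
    exact hasDerivAt_const t (0 : ℝ)
  · intro h; omega

theorem sylStep {f m : ℝ → ℝ} {U : Set ℝ} {k : ℕ} (hf : ∀ t, HasDerivAt f (m t * f t) t)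
    (hfp : ∀ t, 0 < f t) (H : SylInv f m U k) :
    (∀ j, ContDiffOn ℝ ∞ (P.sy f (k + 1) j) U) ∧
    (∀ t ∈ U, P.sy f (k + 1) 0 t = toda m (k + 1) t) ∧
    (∀ V : Set ℝ, IsOpen V → V ⊆ U → (∀ t ∈ V, 0 < toda m (k + 1) t) → SylInv f m V (k + 1)) := by
  have hsmP : ∀ j, ContDiffOn ℝ ∞ (sylP f k j) U := fun j =>
    (H.sm j).div (H.sm 0) (fun t ht => (H.pos t ht).ne')
  have hsm : ∀ j, ContDiffOn ℝ ∞ (P.sy f (k + 1) j) U := by
    intro j
    rw [syl_succ]
    exact ((contDiffOn_infty_iff_deriv_of_isOpen H.op).1 (hsmP (j + 1))).2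
  have hdP : ∀ j, ∀ t ∈ U, HasDerivAt (sylP f k (j + 1)) (P.sy f (k + 1) j t) t := by
    intro j t ht
    rw [syl_succ]
    exact ((((contDiffOn_infty_iff_deriv_of_isOpen H.op).1 (hsmP (j + 1))).1 t ht).differentiableAt
      (H.op.mem_nhds ht)).hasDerivAt
  have hval : ∀ j, ∀ t ∈ U, P.sy f (k + 1) j t =
      -(sylP f k (j + 2) t) + (sylP f k 1 t - sylQ f k 1 t) * sylP f k (j + 1) t +
        sylQ f k (j + 2) t := by
    intro j t ht
    exact (hdP j t ht).unique (H.dp (j + 1) t ht)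
  have hp0 : ∀ t ∈ U, sylP f k 0 t = 1 := fun t ht => div_self (H.pos t ht).ne'
  have hd : ∀ j, ∀ t ∈ U, HasDerivAt (P.sy f (k + 1) j)
      (-(P.sy f (k + 1) (j + 1) t) + P.sy f (k + 1) 0 t * sylP f k (j + 1) t +
        (sylP f k 1 t - sylQ f k 1 t) * P.sy f (k + 1) j t) t := by
    intro j t ht
    have h1 := (((hdP (j + 1) t ht).neg).add
      (((hdP 0 t ht).sub (H.dq 0 t ht)).mul (hdP j t ht))).add (H.dq (j + 1) t ht)
    have e2 : -(P.sy f (k + 1) (j + 1) t) + ((P.sy f (k + 1) 0 t - toda m k t * sylP f k 0 t) *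
        sylP f k (j + 1) t + (sylP f k (0 + 1) t - sylQ f k (0 + 1) t) * P.sy f (k + 1) j t) +
        toda m k t * sylP f k (j + 1) t =
        (-(P.sy f (k + 1) (j + 1) t) + P.sy f (k + 1) 0 t * sylP f k (j + 1) t +
        (sylP f k 1 t - sylQ f k 1 t) * P.sy f (k + 1) j t) := by
      rw [hp0 t ht]; ring
    rw [← e2]
    refine h1.congr_of_eventuallyEq ?_
    filter_upwards [H.op.mem_nhds ht] with s hs using hval j s hs
  have htod : ∀ t ∈ U, P.sy f (k + 1) 0 t = toda m (k + 1) t := by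
    rcases Nat.eq_zero_or_pos k with hk | hk
    · subst hk
      have hP : sylP f 0 1 = fun t => - m t := by
        funext t
        have hft : deriv f t = m t * f t := (hf t).deriv
        simp only [sylP, P.sy, pow_one, pow_zero, one_mul, iteratedDeriv_one, iteratedDeriv_zero,
          hft]
        have := (hfp t).ne'
        field_simp
      intro t _
      rw [syl_succ]
      show deriv (sylP f 0 1) t = _
      rw [hP]
      simp [toda]
    · obtain ⟨g, hg1, hg2⟩ := H.lg hk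
      obtain ⟨k', rfl⟩ : ∃ k', k = k' + 1 := ⟨k - 1, by omega⟩
      intro t ht
      have h1 : (fun s => deriv (toda m (k' + 1)) s / toda m (k' + 1) s) =ᶠ[𝓝 t]
          fun s => - sylP f (k' + 1) 1 s + g s := by
        filter_upwards [H.op.mem_nhds ht] with s hs using hg1 s hs
      have h2 : HasDerivAt (fun s => deriv (toda m (k' + 1)) s / toda m (k' + 1) s)
          (-(P.sy f (k' + 1 + 1) 0 t) + (2 * toda m (k' + 1) t - toda m (k' + 1 - 1) t)) t := by
        refine HasDerivAt.congr_of_eventuallyEq ?_ h1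
        exact ((hdP 0 t ht).neg).add (hg2 t ht)
      show _ = 2 * toda m (k' + 1) t - toda m k' t -
        deriv (fun s => deriv (toda m (k' + 1)) s / toda m (k' + 1) s) t
      rw [h2.deriv]
      simp only [Nat.add_sub_cancel]
      ring
  refine ⟨hsm, htod, ?_⟩
  intro V hV hVU hpos
  have hps : ∀ t ∈ V, 0 < P.sy f (k + 1) 0 t := fun t ht => by
    rw [htod t (hVU ht)]; exact hpos t ht
  refine ⟨hV, fun j => (hsm j).mono hVU, hps, ?_, ?_, ?_⟩
  · intro j t ht
    have h1 := (hd j t (hVU ht)).div (hd 0 t (hVU ht)) (hps t ht).ne'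
    have e : ((-(P.sy f (k + 1) (j + 1) t) + P.sy f (k + 1) 0 t * sylP f k (j + 1) t +
        (sylP f k 1 t - sylQ f k 1 t) * P.sy f (k + 1) j t) * P.sy f (k + 1) 0 t -
        P.sy f (k + 1) j t * (-(P.sy f (k + 1) (0 + 1) t) + P.sy f (k + 1) 0 t *
          sylP f k (0 + 1) t +
        (sylP f k 1 t - sylQ f k 1 t) * P.sy f (k + 1) 0 t)) / P.sy f (k + 1) 0 t ^ 2 =
        (-(sylP f (k + 1) (j + 1) t) + (sylP f (k + 1) 1 t - sylQ f (k + 1) 1 t) *
          sylP f (k + 1) j t + sylQ f (k + 1) (j + 1) t) := by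
      have h0 := (hps t ht).ne'
      have q1 : sylQ f (k + 1) 1 t = sylP f k 1 t := rfl
      have q2 : sylQ f (k + 1) (j + 1) t = sylP f k (j + 1) t := rfl
      rw [q1, q2]
      have r1 : sylP f (k + 1) (j + 1) t = P.sy f (k + 1) (j + 1) t / P.sy f (k + 1) 0 t := rfl
      have r2 : sylP f (k + 1) 1 t = P.sy f (k + 1) 1 t / P.sy f (k + 1) 0 t := rfl
      have r3 : sylP f (k + 1) j t = P.sy f (k + 1) j t / P.sy f (k + 1) 0 t := rfl
      rw [r1, r2, r3]
      field_simp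
      ring
    rw [e] at h1
    exact h1
  · intro j t ht
    have e : toda m (k + 1) t * sylP f (k + 1) j t = P.sy f (k + 1) j t := by
      rw [← htod t (hVU ht)]
      show P.sy f (k + 1) 0 t * (P.sy f (k + 1) j t / P.sy f (k + 1) 0 t) = _
      have h0 := (hps t ht).ne'
      field_simp
    rw [e]
    exact hdP j t (hVU ht)
  · intro _
    refine ⟨fun t => 2 * sylP f k 1 t - sylQ f k 1 t, ?_, ?_⟩
    · intro t ht
      have e1 : toda m (k + 1) =ᶠ[𝓝 t] P.sy f (k + 1) 0 := by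
        filter_upwards [H.op.mem_nhds (hVU ht)] with s hs using (htod s hs).symm
      rw [e1.deriv_eq, e1.eq_of_nhds, (hd 0 t (hVU ht)).deriv]
      have h0 := (hps t ht).ne'
      have r2 : sylP f (k + 1) 1 t = P.sy f (k + 1) 1 t / P.sy f (k + 1) 0 t := rfl
      rw [r2]
      simp only [Nat.zero_add]
      field_simp
      ring
    · intro t ht
      have h1 := ((hdP 0 t (hVU ht)).const_mul 2).sub (H.dq 0 t (hVU ht))
      have e : 2 * P.sy f (k + 1) 0 t - toda m k t * sylP f k 0 t =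
          2 * toda m (k + 1) t - toda m (k + 1 - 1) t := by
        rw [hp0 t (hVU ht), htod t (hVU ht)]; simp
      rw [e] at h1
      exact h1

theorem t_SYL : S_SYL := by
  intro f m n t0 hsmf hpos hder htoda
  have hinv : ∀ k, k < n → ∃ U : Set ℝ, t0 ∈ U ∧ SylInv f m U k := by
    intro k
    induction k with
    | zero => intro _; exact ⟨univ, mem_univ _, sylInv_zero hsmf hpos⟩
    | succ k ih =>
      intro hk
      obtain ⟨U, h0, H⟩ := ih (by omega)
      obtain ⟨h1, h2, h3⟩ := sylStep hder hpos H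
      have hc : ContinuousOn (P.sy f (k + 1) 0) U := (h1 0).continuousOn
      refine ⟨U ∩ (P.sy f (k + 1) 0) ⁻¹' Ioi 0, ⟨h0, ?_⟩, h3 _ ?_ inter_subset_left ?_⟩
      · show 0 < P.sy f (k + 1) 0 t0
        rw [h2 t0 h0]
        exact htoda (k + 1) (by omega) hk
      · exact hc.isOpen_inter_preimage H.op isOpen_Ioi
      · intro t ht
        rw [← h2 t ht.1]
        exact ht.2
  refine ⟨?_, ?_⟩
  · intro k hk j
    rcases Nat.eq_zero_or_pos k with h0 | h0
    · subst h0; exact (syl_smooth hsmf j).contDiffAt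
    · obtain ⟨k', rfl⟩ : ∃ k', k = k' + 1 := ⟨k - 1, by omega⟩
      obtain ⟨U, h0, H⟩ := hinv k' (by omega)
      exact ((sylStep hder hpos H).1 j).contDiffAt (H.op.mem_nhds h0)
  · intro k hk1 hk
    obtain ⟨k', rfl⟩ : ∃ k', k = k' + 1 := ⟨k - 1, by omega⟩
    obtain ⟨U, h0, H⟩ := hinv k' (by omega)
    exact (sylStep hder hpos H).2.1 t0 h0

end TWP.L
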