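import Pool.Agent.TWP.StL

/-! TWP, block L, module T2L: the local negative half (helper85) -/

namespace TWP.L

open Filter Topology
open scoped ContDiff

theorem T2L_iter (c : ℝ) (g : ℝ → ℝ) (i : ℕ) :
    iteratedDeriv i (fun t => c * g t) = fun t => c * iteratedDeriv i g t := by
  induction i with
  | zero =>
    rw [iteratedDeriv_zero, iteratedDeriv_zero]
  | succ i ih =>
    rw [iteratedDeriv_succ, iteratedDeriv_succ, ih]
    funext t
    exact deriv_const_mul_field c

theorem T2L_add (f : ℝ → ℝ) (i j : ℕ) :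
    iteratedDeriv i (iteratedDeriv j f) = iteratedDeriv (i + j) f := by
  rw [iteratedDeriv_eq_iterate, iteratedDeriv_eq_iterate, iteratedDeriv_eq_iterate,
    Function.iterate_add_apply]

theorem T2L_wr (f : ℝ → ℝ) (n : ℕ) (t0 : ℝ) :
    P.wr n (P.sy f 0) t0 =
      (Matrix.of fun i j : Fin n =>
        (-1) ^ (j : ℕ) * iteratedDeriv ((i : ℕ) + (j : ℕ)) f t0).det := by
  unfold P.wr
  congr 1
  ext i j
  rw [Matrix.of_apply, Matrix.of_apply]
  show iteratedDeriv (i : ℕ) (fun t => (-1) ^ (j : ℕ) * iteratedDeriv (j : ℕ) f t) t0 = _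
  rw [T2L_iter, T2L_add]

theorem t_T2L (hPFD : S_PFD) (hSYL : S_SYL) (hWS : S_WS) : S_T2L := by
  intro f m n t0 hn hf hpos hder htod hneg hPF
  obtain ⟨h1, h2⟩ := hSYL f m n t0 hf hpos hder htod
  have w : P.wr (n + 1) (P.sy f 0) t0 < 0 := by
    refine hWS f t0 n 0 ?_ ?_ ?_
    · intro l hl j
      rw [Nat.zero_add]
      exact h1 l hl j
    · intro l hl
      rw [Nat.zero_add]
      rcases Nat.eq_zero_or_pos l with rfl | hl0
      · show 0 < (-1 : ℝ) ^ 0 * iteratedDeriv 0 f t0
        rw [pow_zero, one_mul, iteratedDeriv_zero]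
        exact hpos t0
      · rw [h2 l hl0 hl.le]
        exact htod l hl0 hl
    · rw [Nat.zero_add, h2 n hn le_rfl]
      exact hneg
  have p := hPFD (n + 1) f hf hPF t0
  rw [← T2L_wr] at p
  exact absurd p (not_le.2 w)

end TWP.L
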