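import Pool.Agent.TWP.StL

set_option autoImplicit false

/-! TWP, module L_WRL: local Wronskian reduction. -/

namespace TWP.L

open Filter Topology
open scoped ContDiff

namespace WRLaux

/-- Leibniz rule for Wronskians, local form. -/
theorem wl (m : ℕ) (g : ℝ → ℝ) (h : ℕ → ℝ → ℝ) (x : ℝ) (hg : ContDiffAt ℝ ∞ g x)
    (hh : ∀ j, ContDiffAt ℝ ∞ (h j) x) :
    P.wr m (fun j s => g s * h j s) x = g x ^ m * P.wr m h x := by
  unfold P.wr
  have key : (Matrix.of fun i j : Fin m => iteratedDeriv (i : ℕ) (fun s => g s * h (j : ℕ) s) x) =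
      (Matrix.of fun i k : Fin m => if (k : ℕ) ≤ i then
        ((i : ℕ).choose k : ℝ) * iteratedDeriv ((i : ℕ) - k) g x else 0) *
      (Matrix.of fun i j : Fin m => iteratedDeriv (i : ℕ) (h (j : ℕ)) x) := by
    ext i j
    rw [Matrix.mul_apply]
    simp only [Matrix.of_apply]
    have hL : iteratedDeriv (i : ℕ) (fun s => g s * h (j : ℕ) s) x =
        ∑ k ∈ Finset.range ((i : ℕ) + 1), ((i : ℕ).choose k : ℝ) * iteratedDeriv k (h (j : ℕ)) x *
          iteratedDeriv ((i : ℕ) - k) g x := by
      have he : (fun s => g s * h (j : ℕ) s) = h (j : ℕ) * g := by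
        funext s; simp [mul_comm]
      rw [he]
      exact iteratedDeriv_mul ((hh j).of_le (by exact_mod_cast le_top))
        (hg.of_le (by exact_mod_cast le_top))
    rw [hL]
    have hS : ∀ k : Fin m, (if (k : ℕ) ≤ i then
        ((i : ℕ).choose k : ℝ) * iteratedDeriv ((i : ℕ) - k) g x else 0) *
          iteratedDeriv (k : ℕ) (h (j : ℕ)) x = (fun k : ℕ => if k ≤ (i : ℕ) then
            ((i : ℕ).choose k : ℝ) * iteratedDeriv k (h (j : ℕ)) x *
              iteratedDeriv ((i : ℕ) - k) g x else 0) (k : ℕ) := by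
      intro k
      by_cases hk : (k : ℕ) ≤ i
      · simp only [hk, if_true]; ring
      · simp only [hk, if_false]; ring
    rw [Finset.sum_congr rfl (fun k _ => hS k)]
    rw [Fin.sum_univ_eq_sum_range (fun k : ℕ => if k ≤ (i : ℕ) then
            ((i : ℕ).choose k : ℝ) * iteratedDeriv k (h (j : ℕ)) x *
              iteratedDeriv ((i : ℕ) - k) g x else 0) m]
    rw [← Finset.sum_filter]
    apply Finset.sum_congr _ (fun _ _ => rfl)
    ext k
    simp only [Finset.mem_range, Finset.mem_filter]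
    have := i.2
    omega
  rw [key, Matrix.det_mul]
  congr 1
  rw [Matrix.det_of_isLowerTriangular]
  · simp [iteratedDeriv_zero]
  · intro i j hij
    have hij' : (i : ℕ) < j := by
      have := hij
      simpa using this
    simp only [Matrix.of_apply]
    rw [if_neg (by omega)]

theorem iter_const (c : ℝ) (i : ℕ) (x : ℝ) :
    iteratedDeriv (i + 1) (fun _ : ℝ => c) x = 0 := by
  rw [iteratedDeriv_succ', deriv_const']
  induction i with
  | zero => rw [iteratedDeriv_zero]
  | succ i ih =>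
    rw [iteratedDeriv_succ', deriv_const']
    exact ih

/-- The Wronskian of `1, h 1, …, h m` near `x`. -/
theorem wc (m : ℕ) (h : ℕ → ℝ → ℝ) (x : ℝ) (h0 : h 0 =ᶠ[𝓝 x] fun _ => (1 : ℝ)) :
    P.wr (m + 1) h x = P.wr m (fun j => deriv (h (j + 1))) x := by
  unfold P.wr
  rw [Matrix.det_succ_column_zero, Fin.sum_univ_succ, Finset.sum_eq_zero, add_zero]
  · have e1 : (Matrix.of fun i j : Fin (m + 1) =>
        iteratedDeriv (i : ℕ) (h (j : ℕ)) x) 0 0 = 1 := by
      rw [Matrix.of_apply, Fin.val_zero, iteratedDeriv_zero]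
      exact h0.eq_of_nhds
    rw [e1, Fin.val_zero, pow_zero, one_mul, one_mul]
    congr 1
    ext i j
    rw [Matrix.submatrix_apply, Matrix.of_apply, Matrix.of_apply, Fin.zero_succAbove,
      Fin.val_succ, Fin.val_succ, iteratedDeriv_succ']
  · intro i _
    have e2 : (Matrix.of fun i j : Fin (m + 1) =>
        iteratedDeriv (i : ℕ) (h (j : ℕ)) x) i.succ 0 = 0 := by
      rw [Matrix.of_apply, Fin.val_zero, Fin.val_succ, h0.iteratedDeriv_eq]
      exact iter_const 1 i x
    rw [e2, mul_zero, zero_mul]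

end WRLaux

theorem t_WRL : S_WRL := by
  intro m u x hu hpos
  have hh : ∀ j, ContDiffAt ℝ ∞ (fun s => u j s / u 0 s) x := fun j =>
    (hu j).div (hu 0) hpos
  have hne : ∀ᶠ s in 𝓝 x, u 0 s ≠ 0 := (hu 0).continuousAt.eventually_ne hpos
  have h1 := WRLaux.wl (m + 1) (u 0) (fun j s => u j s / u 0 s) x (hu 0) hh
  have e1 : P.wr (m + 1) (fun (j : ℕ) (s : ℝ) => u 0 s * (u j s / u 0 s)) x =
      P.wr (m + 1) u x := by
    unfold P.wr
    congr 1
    ext i j
    rw [Matrix.of_apply, Matrix.of_apply]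
    apply Filter.EventuallyEq.iteratedDeriv_eq
    filter_upwards [hne] with s hs
    field_simp
  have h2 := WRLaux.wc m (fun j s => u j s / u 0 s) x
    (by filter_upwards [hne] with s hs; exact div_self hs)
  rw [← e1, h1, h2]
  rfl

end TWP.L
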