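import Pool.Agent.TWP.StL

/-! TWP_L_WS: sign of the Wronskian. -/

namespace TWP.L
open Filter Topology
open scoped ContDiff
theorem t_WS (hWRL : S_WRL) : S_WS := by
  intro f t0 n
  induction n with
  | zero =>
    intro k _ _ hneg
    have : P.wr (0 + 1) (P.sy f k) t0 = P.sy f k 0 t0 := by
      unfold P.wr
      simp
    rw [this]
    exact hneg
  | succ n ih =>
    intro k hsm hpos hneg
    have h0 : 0 < P.sy f k 0 t0 := by simpa using hpos 0 (Nat.succ_pos n)
    have h1 := hWRL (n + 1) (P.sy f k) t0 (fun j => by simpa using hsm 0 (Nat.zero_le _) j) h0.ne'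
    rw [h1]
    have h2 : P.red (P.sy f k) = P.sy f (k + 1) := rfl
    rw [h2]
    have h3 := ih (k + 1) (fun l hl j => by
      have := hsm (l + 1) (by omega) j
      rwa [show k + (l + 1) = k + 1 + l by ring] at this)
      (fun l hl => by
        have := hpos (l + 1) (by omega)
        rwa [show k + (l + 1) = k + 1 + l by ring] at this)
      (by rwa [show k + (n + 1) = k + 1 + n by ring] at hneg)
    exact mul_neg_of_pos_of_neg (pow_pos h0 _) h3
end TWP.L
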