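import Pool.Agent.TWP.LMVD
import Pool.Agent.TWP.LFDL
import Pool.Agent.TWP.LLU
import Pool.Agent.TWP.LPFD
import Pool.Agent.TWP.LWRL
import Pool.Agent.TWP.LSYL
import Pool.Agent.TWP.LWS
import Pool.Agent.TWP.LT2L

/-! TWP, block L: the local negative half (composition). -/

namespace TWP.L

theorem T2L : S_T2L := t_T2L (t_PFD (t_FDL t_MVD) t_LU) t_SYL (t_WS t_WRL)

end TWP.L
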