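import Pool.Agent.TWP.StL

/-! TWP.L, module MVD: mean value theorem for differences (helper83). -/

set_option autoImplicit false

namespace TWP.L

open Filter Topology
open scoped ContDiff

/-- Differences commute with the first difference of the function. -/
theorem mvd_comm (h : ℝ) (g : ℝ → ℝ) : ∀ (N : ℕ) (t : ℝ),
    fd h N (fun s => g (s + h) - g s) t = fd h (N + 1) g t := by
  intro N
  induction N with
  | zero => intro t; rfl
  | succ N ih =>
    intro t
    show fd h N (fun s => g (s + h) - g s) (t + h) - fd h N (fun s => g (s + h) - g s) t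
      = fd h (N + 1) g (t + h) - fd h (N + 1) g t
    rw [ih (t + h), ih t]

/-- Mean value theorem for the `N`-th derivative of the first difference. -/
theorem mvd_step (N : ℕ) (g : ℝ → ℝ) (h ξ : ℝ) (hg : ContDiff ℝ ∞ g) (hh : 0 < h) :
    ∃ η, ξ ≤ η ∧ η ≤ ξ + h ∧
      iteratedDeriv N (fun s => g (s + h) - g s) ξ = h * iteratedDeriv (N + 1) g η := by
  have hgs : ContDiff ℝ ∞ (fun s => g (s + h)) := hg.comp (contDiff_id.add contDiff_const)
  have e1 : iteratedDeriv N (fun s => g (s + h) - g s) ξ
      = iteratedDeriv N g (ξ + h) - iteratedDeriv N g ξ := by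
    have h1 : ContDiffAt ℝ N (fun s => g (s + h)) ξ := (contDiff_infty.1 hgs N).contDiffAt
    have h2 : ContDiffAt ℝ N g ξ := (contDiff_infty.1 hg N).contDiffAt
    have h3 := iteratedDeriv_sub h1 h2
    have h4 : (fun s => g (s + h) - g s) = (fun s => g (s + h)) - g := rfl
    rw [h4, h3]
    congr 1
    rw [iteratedDeriv_comp_add_const]
  have hdiff : Differentiable ℝ (iteratedDeriv N g) :=
    (contDiff_infty.1 hg (N + 1)).differentiable_iteratedDeriv' N
  obtain ⟨η, hη, he⟩ := exists_deriv_eq_slope (iteratedDeriv N g) (a := ξ) (b := ξ + h)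
    (by linarith) hdiff.continuous.continuousOn hdiff.differentiableOn
  refine ⟨η, hη.1.le, hη.2.le, ?_⟩
  rw [e1, iteratedDeriv_succ, he]
  have : ξ + h - ξ = h := by ring
  rw [this]
  field_simp

theorem t_MVD : S_MVD := by
  intro N
  induction N with
  | zero =>
    intro g h t _ _
    refine ⟨t, le_refl _, by simp, ?_⟩
    simp [fd]
  | succ N ih =>
    intro g h t hg hh
    have hG : ContDiff ℝ ∞ (fun s => g (s + h) - g s) :=
      (hg.comp (contDiff_id.add contDiff_const)).sub hg
    obtain ⟨ξ, h1, h2, h3⟩ := ih (fun s => g (s + h) - g s) h t hG hh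
    obtain ⟨η, k1, k2, k3⟩ := mvd_step N g h ξ hg hh
    refine ⟨η, le_trans h1 k1, ?_, ?_⟩
    · push_cast
      linarith
    · rw [← mvd_comm, h3, k3]
      ring

end TWP.L
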