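import Mathlib
import Pool.Agent.TWP.TLib

/-!
TWP, block H, middle: the kernel check of a piece.  Integer polynomials are coefficient lists
(constant term first), see `TLib`.
-/

set_option autoImplicit false

namespace TWP.H

open Pool.Agent.TWP.Tail

/-- Value at an integer. -/
def evZ : List ℤ → ℤ → ℤ
  | [], _ => 0
  | a :: A, y => a + y * evZ A y

/-- Derivative. -/
def derL (l : List ℤ) : List ℤ := thL 1 l.tail

/-- Sum of the absolute values of the coefficients. -/
def nrm : List ℤ → ℕ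
  | [] => 0
  | a :: A => a.natAbs + nrm A

/-- `2 ^ 800`. -/
def T8 : ℤ := Int.ofNat (2 ^ 800)

/-- The residual polynomial of the piece `i`. -/
def resL (i : ℕ) (b : List ℤ) : List ℤ :=
  addL (addL (smulL (512 * T8) (derL (derL b))) (smulL (-T8) (mulL [2 * (i : ℤ) - 195, 1] b)))
    (smulL (-16) (mulL b (mulL b b)))

/-- The kernel check of the piece `i`. -/
def chk (i : ℕ) (b : List ℤ) (V S V' S' : ℤ) : Bool :=
  decide (0 < -((derL b).headD 0) - (nrm (derL b).tail : ℤ)) &&
  (decide ((nrm (resL i b) : ℤ) * (2 * 10 ^ 49) ≤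
    64 * T8 * (-((derL b).headD 0) - (nrm (derL b).tail : ℤ))) &&
  (decide (0 < b.headD 0 - (nrm b.tail : ℤ)) && (decide ((nrm (derL b) : ℤ) ≤ V) &&
  (decide (evZ b (-1) = V) && (decide (evZ (derL b) (-1) = S) &&
  (decide (evZ b 1 = V') && decide (evZ (derL b) 1 = S')))))))

/-- The node `x i = -49/2 + i/4`. -/
noncomputable def nd (i : ℕ) : ℝ := -(49 / 2) + i / 4

/-- The local variable of the piece `i` (between -1 and 1 on `[nd i, nd (i+1)]`). -/
noncomputable def lv (i : ℕ) (t : ℝ) : ℝ := 8 * (t - nd i) - 1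

/-- The approximation of `q` on `[nd i, nd (i+1)]`. -/
noncomputable def pp (i : ℕ) (b : List ℤ) (t : ℝ) : ℝ := ev b (lv i t) / 2 ^ 400

/-- Its derivative. -/
noncomputable def pp1 (i : ℕ) (b : List ℤ) (t : ℝ) : ℝ := 8 * ev (derL b) (lv i t) / 2 ^ 400

/-- Its second derivative. -/
noncomputable def pp2 (i : ℕ) (b : List ℤ) (t : ℝ) : ℝ :=
  64 * ev (derL (derL b)) (lv i t) / 2 ^ 400

/-- The slope of the weight on the piece `i`. -/
noncomputable def sl (i : ℕ) : ℝ := 2 - i / 200

/-- The weight at the node `i`. -/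
noncomputable def tn (i : ℕ) : ℝ := 1 + (2 * i - i * (i - 1) / 400) / 4

/-- The (concave, piecewise linear) weight. -/
noncomputable def th (i : ℕ) (t : ℝ) : ℝ := tn i + sl i * (t - nd i)

end TWP.H
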