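import Pool.Agent.TWP.KFin
import Pool.Agent.TWP.FTC
import Pool.Agent.TWP.FTS
import Pool.Agent.TWP.FTA
import Pool.Agent.TWP.FTM
import Pool.Agent.TWP.FTI
import Pool.Agent.TWP.TL
import Pool.Agent.TWP.FTLM
import Pool.Agent.TWP.FTLN
import Pool.Agent.TWP.FTLMN
import Pool.Agent.TWP.FXI
import Pool.Agent.TWP.FGR
import Pool.Agent.TWP.MJE
import Pool.Agent.TWP.FPU
import Pool.Agent.TWP.FQS
import Pool.Agent.TWP.FRT
import Pool.Agent.TWP.FGA
import Pool.Agent.TWP.FGB
import Pool.Agent.TWP.FGI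
import Pool.Agent.TWP.FGJ
import Pool.Agent.TWP.FCB
import Pool.Agent.TWP.FCMN2

/-! TWP, middle charts: the soundness theorems without hypotheses. -/

namespace TWP

theorem TC_all : S_TC := TC
theorem TS_all : S_TS := TS
theorem TA_all : S_TA := TA TC TS
theorem TM_all : S_TM := TM TC TS TA_all
theorem TI_all : S_TI := TI TC TS TA_all TM_all
theorem TL_all : S_TL := TL TC TS TA_all TM_all TI_all
theorem TLM_all : S_TLM := TLM TC TS TA_all TM_all TI_all TL_all
theorem TLN_all : S_TLN := TLN TC TS TA_all TM_all TI_all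
theorem TLMN_all : S_TLMN := TLMN TC TS TA_all TM_all TI_all TLN_all

end TWP
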