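import Pool.Agent.TWP.R4Fin

/-! TWP, `β = 4`: the value of `ν` at `25` as an integer (helper66). -/

set_option autoImplicit false

namespace TWP

open Pool.Agent.TWP.Tail

namespace R4Vaux

def evI : List ℤ → ℤ
  | [] => 0
  | a :: l => a * 1000 ^ (l.length + 1) + evI l

theorem evI_eq (l : List ℤ) : ev l (1 / 1000) * 1000 ^ l.length = (evI l : ℝ) := by
  induction l with
  | nil => simp [ev, evI]
  | cons a l ih =>
    rw [ev_cons, List.length_cons, evI]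
    push_cast
    rw [← ih, pow_succ]
    ring

/-- `2^160 ν(25)`, approximately -/
def V25 : ℤ := 145289987022874009020948873804517952191795068090

theorem num : |2 ^ 160 * evI K.cN4 - 10 * V25 * 1000 ^ 61| ≤ 2 ^ 42 * 10 * 1000 ^ 61 := by
  decide +kernel

theorem len : K.cN4.length = 61 := by decide +kernel

end R4Vaux

open R4Vaux in
/-- `|2^160 ν(25) - V25| ≤ 2^45` -/
theorem IsHM.nu25' {q : ℝ → ℝ} (h : IsHM q) :
    |(2 : ℝ) ^ 160 * nuF q 25 -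
      ((145289987022874009020948873804517952191795068090 : ℤ) : ℝ)| ≤ 2 ^ 45 := by
  have h1 := h.nu25
  have h2 := evI_eq K.cN4
  rw [len] at h2
  have h3 : |(2 : ℝ) ^ 160 * (evI K.cN4 : ℝ) - 10 * (V25 : ℝ) * 1000 ^ 61| ≤
      2 ^ 42 * 10 * 1000 ^ 61 := by
    exact_mod_cast num
  rw [← h2] at h3
  have e : (2 : ℝ) ^ 160 * (ev K.cN4 (1 / 1000) * 1000 ^ 61) - 10 * (V25 : ℝ) * 1000 ^ 61 =
      (2 ^ 160 * (ev K.cN4 (1 / 1000) / 10) - (V25 : ℝ)) * (10 * 1000 ^ 61) := by ring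
  rw [e, abs_mul, abs_of_pos (by positivity : (0 : ℝ) < 10 * 1000 ^ 61), mul_assoc (2 ^ 42 : ℝ)] at h3
  have h4 : |(2 : ℝ) ^ 160 * (ev K.cN4 (1 / 1000) / 10) - (V25 : ℝ)| ≤ 2 ^ 42 :=
    le_of_mul_le_mul_right h3 (by positivity)
  have h5 : |(2 : ℝ) ^ 160 * nuF q 25 - (V25 : ℝ)| ≤ 2 ^ 44 + 2 ^ 42 := by
    have := abs_add_le ((2 : ℝ) ^ 160 * nuF q 25 - 2 ^ 160 * (ev K.cN4 (1 / 1000) / 10))
      (2 ^ 160 * (ev K.cN4 (1 / 1000) / 10) - (V25 : ℝ))
    rw [sub_add_sub_cancel] at this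
    exact this.trans (add_le_add h1 h4)
  have h6 : (V25 : ℝ) = ((145289987022874009020948873804517952191795068090 : ℤ) : ℝ) := rfl
  rw [← h6]
  refine h5.trans ?_
  norm_num

end TWP
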