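import Pool.Agent.TWP.St4V
import Pool.Agent.TWP.KNrm

/-! TWP, module VBS: soundness of `baseS`. -/

set_option autoImplicit false

namespace TWP

open PowerSeries

namespace VBSaux

theorem ev0 (hGA : S_GA) (u : ℝ) (P : List ℤ) : coeff 0 (evZ (C u : ℝ⟦X⟧) P) = evR u P :=
  (hGA u P).1 (C u) (by simp)

theorem evR_add (hGA : S_GA) (hEVA : S_EVA) (u : ℝ) (P Q : List ℤ) :
    evR u (K.addL P Q) = evR u P + evR u Q := by
  rw [← ev0 hGA, ← ev0 hGA, ← ev0 hGA, (hEVA (C u) P Q 0 0).1, map_add]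

theorem evR_sub (hGA : S_GA) (hEVA : S_EVA) (u : ℝ) (P Q : List ℤ) :
    evR u (K.subL P Q) = evR u P - evR u Q := by
  rw [← ev0 hGA, ← ev0 hGA, ← ev0 hGA, (hEVA (C u) P Q 0 0).2.2.1, map_sub]

theorem evR_smul (hGA : S_GA) (hEVA : S_EVA) (u : ℝ) (k : ℤ) (P : List ℤ) :
    evR u (K.smulL k P) = (k : ℝ) * evR u P := by
  rw [← ev0 hGA, ← ev0 hGA, (hEVA (C u) P [] k 0).2.1, coeff_C_mul]

theorem evR_mul (hGA : S_GA) (hMUL : S_MUL) (u : ℝ) (P Q : List ℤ) (h : K.okMul P Q = true) :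
    evR u (K.mulL P Q) = evR u P * evR u Q := by
  have h1 := hMUL (C u) P Q h
  rw [← ev0 hGA, ← ev0 hGA, ← ev0 hGA, h1]
  simp only [coeff_zero_eq_constantCoeff, coeff_zero_eq_constantCoeff_apply, map_mul]

theorem evR_zero (L : List ℤ) : evR 0 L = ((L.headD 0 : ℤ) : ℝ) := by
  cases L with
  | nil => simp [evR]
  | cons a P => simp [evR]

theorem divR (n d : ℕ) (hd : 0 < d) : (n : ℝ) ≤ ((n / d + 1 : ℕ) : ℝ) * (d : ℝ) := by
  have h : n ≤ (n / d + 1) * d := by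
    have := Nat.lt_div_mul_add (a := n) hd
    rw [add_mul, one_mul]; exact this.le
  exact_mod_cast h

theorem oneR : ((K.ONE : ℕ) : ℝ) = 2 ^ 160 := by
  unfold K.ONE
  rw [Nat.cast_pow, Nat.cast_ofNat]

theorem onepos : 0 < K.ONE := by
  unfold K.ONE
  exact pow_pos (by norm_num) _

theorem pow320 : (2 : ℝ) ^ 320 = 2 ^ 160 * 2 ^ 160 := by
  rw [← pow_add]

/-- from the identity for the residual list to the bound -/
theorem res (hVNL : S_VNL) (u S : ℝ) (h : ℕ) (P : List ℤ) (s : ℕ) (hs : 0 < s)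
    (hu : |u| ≤ (h : ℝ) / 4096) (hev : evR u P = ((s : ℝ) * (2 ^ 160 * 2 ^ 160)) * S) :
    |S| ≤ ((K.nL h P / (s * K.ONE) + 1 : ℕ) : ℝ) / 2 ^ 160 := by
  have h1 : |evR u P| ≤ (K.nL h P : ℝ) := hVNL u h P hu
  have hspos : (0 : ℝ) < (s : ℝ) := Nat.cast_pos.2 hs
  obtain ⟨T, hT⟩ : ∃ T : ℝ, T = (2 : ℝ) ^ 160 := ⟨_, rfl⟩
  have hp : (0 : ℝ) < T := by rw [hT]; positivity
  have h2 := divR (K.nL h P) (s * K.ONE) (Nat.mul_pos hs onepos)
  rw [Nat.cast_mul, oneR] at h2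
  rw [← hT] at hev h2 ⊢
  rw [hev, abs_mul, abs_of_pos (by positivity)] at h1
  rw [le_div_iff₀ hp]
  have h3 : (s : ℝ) * (T * T) * |S| ≤
      ((K.nL h P / (s * K.ONE) + 1 : ℕ) : ℝ) * ((s : ℝ) * T) := h1.trans h2
  have h5 : (0 : ℝ) < (s : ℝ) * T := mul_pos hspos hp
  refine le_of_mul_le_mul_left ?_ h5
  calc (s : ℝ) * T * (|S| * T) = (s : ℝ) * (T * T) * |S| := by ring
    _ ≤ _ := h3
    _ = _ := by ring

end VBSaux

open VBSaux in
theorem t_VBS (hGR : S_GR) (hGA : S_GA) (hEVA : S_EVA) (hMUL : S_MUL) (hVNL : S_VNL) : S_VBS := by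
  intro q l h cn ln eta k L Q G hQL hh0 hh1 hln hG hl hq u hu
  unfold K.baseS at hG
  dsimp only at hG
  by_cases h1 : (K.okMul L L && K.okMul Q Q && K.okMul L Q) = true
  swap
  · rw [if_neg h1] at hG
    exact absurd hG (by simp)
  rw [if_pos h1] at hG
  obtain ⟨resl, hresl⟩ : ∃ x, x = K.subL (K.smulL (4096 * 2 ^ 160) (K.derM L))
      (K.addL (K.smulL (64 * ln) (K.subL (K.smulL 2 (K.mulL Q Q)) (K.mulL L L)))
        [ln * cn * 2 ^ 320, ln * ln * 2 ^ 320]) := ⟨_, rfl⟩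
  obtain ⟨resq, hresq⟩ : ∃ x, x = K.subL (K.smulL (64 * 2 ^ 160) (K.derM Q))
      (K.smulL ln (K.mulL L Q)) := ⟨_, rfl⟩
  rw [← hresl, ← hresq] at hG
  obtain ⟨Lam, hLam⟩ : ∃ x, x = max K.ONE (ln * (4 * K.nL h Q + 2 * K.nL h L) / 64 + 1 +
      (K.ONE / 1000 + 1)) := ⟨_, rfl⟩
  rw [← hLam] at hG
  obtain ⟨r1, hr1⟩ : ∃ x, x = K.nL h resl / (4096 * K.ONE) + 1 := ⟨_, rfl⟩
  obtain ⟨r2, hr2⟩ : ∃ x, x = K.nL h resq / (64 * K.ONE) + 1 := ⟨_, rfl⟩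
  rw [← hr1, ← hr2] at hG
  simp only [Bool.and_eq_true] at h1
  obtain ⟨⟨hLL, hQQ⟩, hLQ⟩ := h1
  obtain ⟨G', hG'⟩ : ∃ x, x = (2 * eta + (r1 + r2)) * 3 ^ k := ⟨_, rfl⟩
  rw [← hG'] at hG
  by_cases h2 : (Nat.ble (Lam * h) (k * K.ONE * 4096) && Nat.ble (2000 * ln * G') (64 * K.ONE))
      = true
  swap
  · rw [if_neg h2] at hG
    exact absurd hG (by simp)
  rw [if_pos h2] at hG
  have hGG : G' = G := Option.some.inj hG
  subst hGG
  simp only [Bool.and_eq_true, Nat.ble_eq] at h2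
  obtain ⟨h3, h4⟩ := h2
  obtain ⟨T, hT⟩ : ∃ T : ℝ, T = (2 : ℝ) ^ 160 := ⟨_, rfl⟩
  have hTpos : 0 < T := by rw [hT]; positivity
  have hTne : T ≠ 0 := hTpos.ne'
  have hlnR : (0 : ℝ) < (ln : ℝ) := by exact_mod_cast hln
  have hhR : (0 : ℝ) < (h : ℝ) := by exact_mod_cast hh0
  -- the two residuals
  have hres1 : ∀ v : ℝ, |v| ≤ (h : ℝ) / 4096 →
      |evR v (K.derM L) / T - (ln : ℝ) / 64 * ((cn : ℝ) / 64 + (ln : ℝ) / 64 * v +
            2 * (evR v Q / T) ^ 2 - (evR v L / T) ^ 2)| ≤ (r1 : ℝ) / T := by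
    intro v hv
    rw [hr1, hT]
    refine res hVNL v _ h resl 4096 (by norm_num) hv ?_
    rw [hresl, evR_sub hGA hEVA, evR_smul hGA hEVA, evR_add hGA hEVA, evR_smul hGA hEVA,
      evR_sub hGA hEVA, evR_smul hGA hEVA, evR_mul hGA hMUL v Q Q hQQ, evR_mul hGA hMUL v L L hLL]
    simp only [evR]
    have c1 : (((4096 * 2 ^ 160 : ℤ)) : ℝ) = 4096 * T := by
      rw [hT, Int.cast_mul, Int.cast_pow, Int.cast_ofNat, Int.cast_ofNat]
    have c2 : (((ln * cn * 2 ^ 320 : ℤ)) : ℝ) = (ln : ℝ) * cn * (T * T) := by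
      rw [hT, ← pow320, Int.cast_mul, Int.cast_mul, Int.cast_pow, Int.cast_ofNat, Int.cast_natCast]
    have c3 : (((ln * ln * 2 ^ 320 : ℤ)) : ℝ) = (ln : ℝ) * ln * (T * T) := by
      rw [hT, ← pow320, Int.cast_mul, Int.cast_mul, Int.cast_pow, Int.cast_ofNat, Int.cast_natCast]
    have c4 : (((64 * ln : ℤ)) : ℝ) = 64 * (ln : ℝ) := by
      rw [Int.cast_mul, Int.cast_ofNat, Int.cast_natCast]
    have c5 : (((4096 : ℕ)) : ℝ) = 4096 := by norm_num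
    rw [c1, c2, c3, c4, c5, ← hT, Int.cast_ofNat]
    clear hT
    field_simp
    ring
  have hres2 : ∀ v : ℝ, |v| ≤ (h : ℝ) / 4096 →
      |evR v (K.derM Q) / T - (ln : ℝ) / 64 * ((evR v L / T) * (evR v Q / T))| ≤ (r2 : ℝ) / T := by
    intro v hv
    rw [hr2, hT]
    refine res hVNL v _ h resq 64 (by norm_num) hv ?_
    rw [hresq, evR_sub hGA hEVA, evR_smul hGA hEVA, evR_smul hGA hEVA,
      evR_mul hGA hMUL v L Q hLQ]
    have c1 : (((64 * 2 ^ 160 : ℤ)) : ℝ) = 64 * T := by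
      rw [hT, Int.cast_mul, Int.cast_pow, Int.cast_ofNat, Int.cast_ofNat]
    have c5 : (((64 : ℕ)) : ℝ) = 64 := by norm_num
    rw [c1, c5, ← hT, Int.cast_natCast]
    clear hT
    field_simp
  have hlam1 : T ≤ (Lam : ℝ) := by
    have : K.ONE ≤ Lam := by rw [hLam]; exact le_max_left _ _
    have h5 : ((K.ONE : ℕ) : ℝ) ≤ (Lam : ℝ) := Nat.cast_le.2 this
    rwa [oneR, ← hT] at h5
  have hlam2 : (ln : ℝ) / 64 * (4 * K.nL h Q + 2 * K.nL h L) + T / 1000 ≤ (Lam : ℝ) := by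
    have h5 : ln * (4 * K.nL h Q + 2 * K.nL h L) / 64 + 1 + (K.ONE / 1000 + 1) ≤ Lam := by
      rw [hLam]; exact le_max_right _ _
    have h6 : ((ln * (4 * K.nL h Q + 2 * K.nL h L) / 64 + 1 : ℕ) : ℝ) +
        ((K.ONE / 1000 + 1 : ℕ) : ℝ) ≤ (Lam : ℝ) := by
      rw [← Nat.cast_add]
      exact Nat.cast_le.2 h5
    have h7 := divR (ln * (4 * K.nL h Q + 2 * K.nL h L)) 64 (by norm_num)
    have h8 := divR K.ONE 1000 (by norm_num)
    rw [oneR, ← hT] at h8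
    obtain ⟨A, hA⟩ : ∃ x : ℝ, x = ((ln * (4 * K.nL h Q + 2 * K.nL h L) / 64 + 1 : ℕ) : ℝ) :=
      ⟨_, rfl⟩
    obtain ⟨B, hB⟩ : ∃ x : ℝ, x = ((K.ONE / 1000 + 1 : ℕ) : ℝ) := ⟨_, rfl⟩
    rw [← hA] at h6 h7
    rw [← hB] at h6 h8
    have h9 : (ln : ℝ) / 64 * (4 * K.nL h Q + 2 * K.nL h L) ≤ A := by
      have h10 : ((ln * (4 * K.nL h Q + 2 * K.nL h L) : ℕ) : ℝ) =
          (ln : ℝ) * (4 * K.nL h Q + 2 * K.nL h L) := by push_cast; ring
      rw [h10] at h7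
      have h11 : ((64 : ℕ) : ℝ) = 64 := by norm_num
      rw [h11] at h7
      linarith
    have h12 : T / 1000 ≤ B := by
      have h11 : ((1000 : ℕ) : ℝ) = 1000 := by norm_num
      rw [h11] at h8
      rw [div_le_iff₀ (by norm_num)]
      exact h8
    linarith
  have hlam3 : (Lam : ℝ) * h ≤ k * T * 4096 := by
    have h5 : ((Lam * h : ℕ) : ℝ) ≤ ((k * K.ONE * 4096 : ℕ) : ℝ) := Nat.cast_le.2 h3
    rw [Nat.cast_mul, Nat.cast_mul, Nat.cast_mul, oneR, ← hT] at h5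
    have h11 : ((4096 : ℕ) : ℝ) = 4096 := by norm_num
    rw [h11] at h5
    exact h5
  have hfin : 2 * ((ln : ℝ) / 64) * G' ≤ T / 1000 := by
    have h5 : ((2000 * ln * G' : ℕ) : ℝ) ≤ ((64 * K.ONE : ℕ) : ℝ) := Nat.cast_le.2 h4
    rw [Nat.cast_mul, Nat.cast_mul, Nat.cast_mul, oneR, ← hT] at h5
    have h11 : ((2000 : ℕ) : ℝ) = 2000 := by norm_num
    have h12 : ((64 : ℕ) : ℝ) = 64 := by norm_num
    rw [h11, h12] at h5
    rw [le_div_iff₀ (by norm_num)]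
    have : 2 * ((ln : ℝ) / 64) * G' * 1000 = 2000 * ln * G' / 64 := by ring
    rw [this, div_le_iff₀ (by norm_num)]
    linarith
  have hcast : (G' : ℝ) = (2 * (eta : ℝ) + ((r1 : ℝ) + r2)) * 3 ^ k := by
    rw [hG']; push_cast; ring
  have key := hGR q l ((cn : ℝ) / 64) ((ln : ℝ) / 64) ((h : ℝ) / 4096) (2 * (eta : ℝ) / T)
    ((r1 : ℝ) / T) ((r2 : ℝ) / T) ((K.nL h L : ℝ) / T) ((K.nL h Q : ℝ) / T) ((Lam : ℝ) / T) k
    (fun v => evR v L / T) (fun v => evR v Q / T) (fun v => evR v (K.derM L) / T)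
    (fun v => evR v (K.derM Q) / T) hQL (div_pos hlnR (by norm_num)) (div_pos hhR (by norm_num))
    (div_nonneg (Nat.cast_nonneg _) hTpos.le) (div_nonneg (Nat.cast_nonneg _) hTpos.le)
    (div_nonneg (mul_nonneg (by norm_num) (Nat.cast_nonneg _)) hTpos.le)
    (fun v => (hGA v L).2.1.div_const T) (fun v => (hGA v Q).2.1.div_const T)
    ?_ ?_ ?_ ?_ ?_ ?_ u hu
  · -- conclusion
    rw [hcast, ← hT]
    have e1 : T * l ((cn : ℝ) / 64 + (ln : ℝ) / 64 * u) - evR u L =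
        T * (l ((cn : ℝ) / 64 + (ln : ℝ) / 64 * u) - evR u L / T) := by
      field_simp
    have e2 : T * q ((cn : ℝ) / 64 + (ln : ℝ) / 64 * u) - evR u Q =
        T * (q ((cn : ℝ) / 64 + (ln : ℝ) / 64 * u) - evR u Q / T) := by
      field_simp
    rw [e1, e2, abs_mul, abs_mul, abs_of_pos hTpos, ← mul_add]
    refine le_trans (mul_le_mul_of_nonneg_left key hTpos.le) (le_of_eq ?_)
    field_simp
  · -- bounds on the interval
    intro v hv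
    refine ⟨?_, ?_, hres1 v hv, hres2 v hv⟩
    · show |evR v L / T| ≤ _
      rw [abs_div, abs_of_pos hTpos]
      exact div_le_div_of_nonneg_right (hVNL v h L hv) hTpos.le
    · show |evR v Q / T| ≤ _
      rw [abs_div, abs_of_pos hTpos]
      exact div_le_div_of_nonneg_right (hVNL v h Q hv) hTpos.le
  · -- the centre
    show |l ((cn : ℝ) / 64) - evR 0 L / T| + |q ((cn : ℝ) / 64) - evR 0 Q / T| ≤ 2 * (eta : ℝ) / T
    rw [evR_zero, evR_zero]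
    rw [← hT] at hl hq
    have e1 : l ((cn : ℝ) / 64) - ((L.headD 0 : ℤ) : ℝ) / T =
        (T * l ((cn : ℝ) / 64) - ((L.headD 0 : ℤ) : ℝ)) / T := by field_simp
    have e2 : q ((cn : ℝ) / 64) - ((Q.headD 0 : ℤ) : ℝ) / T =
        (T * q ((cn : ℝ) / 64) - ((Q.headD 0 : ℤ) : ℝ)) / T := by field_simp
    rw [e1, e2, abs_div, abs_div, abs_of_pos hTpos, ← add_div]
    exact div_le_div_of_nonneg_right (by linarith) hTpos.le
  · rw [le_div_iff₀ hTpos, one_mul]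
    exact hlam1
  · rw [le_div_iff₀ hTpos]
    refine le_trans (le_of_eq ?_) hlam2
    field_simp
  · rw [div_mul_div_comm, div_le_iff₀ (by positivity)]
    refine le_trans hlam3 (le_of_eq ?_)
    ring
  · have e : 2 * ((ln : ℝ) / 64) * ((2 * (eta : ℝ) / T + ((r1 : ℝ) / T + (r2 : ℝ) / T)) * 3 ^ k) =
        (2 * ((ln : ℝ) / 64) * (((2 * (eta : ℝ) + ((r1 : ℝ) + r2)) * 3 ^ k))) / T := by
      field_simp
    rw [e, div_le_iff₀ hTpos, ← hcast]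
    refine le_trans hfin (le_of_eq ?_)
    ring

end TWP
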