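import Pool.Agent.TWP.St4V

/-! TWP, `β = 4`: the chain of charts (VCH). -/

set_option autoImplicit false

namespace TWP

namespace VCHaux

theorem chart (hVST : S_VST) (hVES : S_VES) (q l ν : ℝ → ℝ) (N : ℕ) (c : K.Ch4)
    (hQ : QLN q l ν) (hν : ∀ t, 0 < ν t) (hok : K.okV N c = true) (hc : CenL q l c) :
    (∀ x : ℕ, |(2 : ℝ) ^ 160 * ν ((4 * (c.cn : ℝ) + (c.ln : ℝ)) / 256) - evR (1 / 4) c.T| ≤
      (x : ℝ) → |(2 : ℝ) ^ 160 * ν ((c.cn : ℝ) / 64) - ((c.T.headD 0 : ℤ) : ℝ)| ≤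
        ((K.conS c.s x + c.RV : ℕ) : ℝ)) ∧
    (∀ x : ℕ, |(2 : ℝ) ^ 160 * ν ((c.cn : ℝ) / 64) - ((c.T.headD 0 : ℤ) : ℝ)| ≤ (x : ℝ) →
      |(2 : ℝ) ^ 160 * ν ((4 * (c.cn : ℝ) - (c.ln : ℝ)) / 256) - evR (-(1 / 4)) c.T| ≤
        ((K.conS c.s x + c.RV : ℕ) : ℝ)) := by
  unfold K.okV at hok
  rw [Bool.and_eq_true] at hok
  obtain ⟨h1, h2⟩ := hok
  have hln : 0 < c.ln := Nat.le_of_ble_eq_true h1
  cases hs : K.stepV N 1024 c.cn c.ln c.eta c.k c.s c.L c.Q c.T with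
  | none =>
    rw [hs] at h2
    exact absurd h2 (by simp)
  | some R =>
    rw [hs] at h2
    have hR : R ≤ c.RV := Nat.le_of_ble_eq_true h2
    have hR' : (R : ℝ) ≤ (c.RV : ℝ) := by exact_mod_cast hR
    obtain ⟨hA, hB⟩ := hVST q l ν N 1024 c.cn c.ln c.eta c.k c.s c.L c.Q c.T R hQ hν
      (by norm_num) (by norm_num) hln hs hc.1 hc.2
    have h4 : (((1024 : ℕ) : ℝ) / 4096) = 1 / 4 := by norm_num
    rw [h4] at hA hB
    have e1 : (c.cn : ℝ) / 64 + (c.ln : ℝ) / 64 * (1 / 4) =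
        (4 * (c.cn : ℝ) + (c.ln : ℝ)) / 256 := by ring
    have e2 : (c.cn : ℝ) / 64 + (c.ln : ℝ) / 64 * (-(1 / 4)) =
        (4 * (c.cn : ℝ) - (c.ln : ℝ)) / 256 := by ring
    rw [e1] at hA
    rw [e2] at hB
    constructor
    · intro x hx
      have h5 := hVES c.s x _ hx (abs_nonneg _)
      push_cast
      linarith
    · intro x hx
      have h5 := hVES c.s x _ hx (abs_nonneg _)
      push_cast
      linarith

theorem natAbs_le_real (z : ℤ) (n : ℕ) (h : z.natAbs ≤ n) : |(z : ℝ)| ≤ (n : ℝ) := by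
  have h1 : |z| ≤ (n : ℤ) := by
    rw [Int.abs_eq_natAbs]
    exact_mod_cast h
  have h2 : ((|z| : ℤ) : ℝ) ≤ ((n : ℤ) : ℝ) := by exact_mod_cast h1
  rw [Int.cast_abs] at h2
  exact_mod_cast h2

/-- the condition at the right end -/
theorem endc (hVHO : S_VHO) (P : List ℤ) (V1 : ℤ) (e : ℕ)
    (h : (K.hor 1 P - V1 * 4 ^ P.length).natAbs ≤ e * 4 ^ P.length) :
    |evR (1 / 4) P - (V1 : ℝ)| ≤ (e : ℝ) := by
  have h1 := natAbs_le_real _ _ h
  have h2 := hVHO 1 P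
  have h3 : ((1 : ℤ) : ℝ) / 4 = 1 / 4 := by norm_num
  rw [h3] at h2
  push_cast at h1
  rw [← h2] at h1
  have h5 : (0 : ℝ) < (4 : ℝ) ^ P.length := by positivity
  have h6 : (4 : ℝ) ^ P.length * evR (1 / 4) P - (V1 : ℝ) * (4 : ℝ) ^ P.length =
      (evR (1 / 4) P - (V1 : ℝ)) * (4 : ℝ) ^ P.length := by ring
  rw [h6, abs_mul, abs_of_pos h5] at h1
  exact le_of_mul_le_mul_right h1 h5

/-- the condition of `link` -/
theorem linkc (hVHO : S_VHO) (P P' : List ℤ) (e : ℕ)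
    (h : (K.hor 1 P * 4 ^ P'.length - K.hor (-1) P' * 4 ^ P.length).natAbs ≤
      e * 4 ^ (P.length + P'.length)) :
    |evR (1 / 4) P - evR (-(1 / 4)) P'| ≤ (e : ℝ) := by
  have h1 := natAbs_le_real _ _ h
  have h2 := hVHO 1 P
  have h2' := hVHO (-1) P'
  have h3 : ((1 : ℤ) : ℝ) / 4 = 1 / 4 := by norm_num
  have h3' : ((-1 : ℤ) : ℝ) / 4 = -(1 / 4) := by norm_num
  rw [h3] at h2
  rw [h3'] at h2'
  push_cast at h1
  rw [← h2, ← h2'] at h1
  have h5 : (0 : ℝ) < (4 : ℝ) ^ (P.length + P'.length) := by positivity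
  have h6 : (4 : ℝ) ^ P.length * evR (1 / 4) P * (4 : ℝ) ^ P'.length -
      (4 : ℝ) ^ P'.length * evR (-(1 / 4)) P' * (4 : ℝ) ^ P.length =
      (evR (1 / 4) P - evR (-(1 / 4)) P') * (4 : ℝ) ^ (P.length + P'.length) := by
    rw [pow_add]; ring
  rw [h6, abs_mul, abs_of_pos h5] at h1
  exact le_of_mul_le_mul_right h1 h5

theorem tri (a b c : ℝ) (x y : ℝ) (h1 : |a - b| ≤ x) (h2 : |c - b| ≤ y) : |a - c| ≤ x + y := by
  have h3 := abs_le.1 h1
  have h4 := abs_le.1 h2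
  rw [abs_le]
  constructor <;> linarith

theorem main (hVST : S_VST) (hVHO : S_VHO) (hVES : S_VES) (q l ν : ℝ → ℝ) (N e : ℕ)
    (xn V1 : ℤ) (e1 : ℕ) (hQ : QLN q l ν) (hν : ∀ t, 0 < ν t)
    (hend : |(2 : ℝ) ^ 160 * ν ((xn : ℝ) / 256) - V1| ≤ e1) :
    ∀ chs : List K.Ch4, (∀ c ∈ chs, K.okV N c = true) → (∀ c ∈ chs, CenL q l c) →
      K.chainV e xn V1 e1 chs = true → ∀ c ∈ chs, CenT ν c
  | [], _, _, _ => fun c hc => absurd hc (by simp)
  | [c], hok, hcen, hch => by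
    intro d hd
    rw [List.mem_singleton] at hd
    subst hd
    unfold K.chainV at hch
    rw [Bool.and_eq_true, Bool.and_eq_true, decide_eq_true_eq, decide_eq_true_eq] at hch
    obtain ⟨⟨h1, h2⟩, h3⟩ := hch
    have h3' : K.conS d.s (e1 + e) + d.RV ≤ d.etaT := Nat.le_of_ble_eq_true h3
    have h3r : ((K.conS d.s (e1 + e) + d.RV : ℕ) : ℝ) ≤ (d.etaT : ℝ) := by exact_mod_cast h3'
    obtain ⟨hA, _⟩ := chart hVST hVES q l ν N d hQ hν (hok d (by simp)) (hcen d (by simp))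
    have h4 := endc hVHO d.T V1 e h2
    have h1r : (4 * (d.cn : ℝ) + (d.ln : ℝ)) = (xn : ℝ) := by exact_mod_cast h1
    rw [h1r] at hA
    have h5 := tri _ _ _ _ _ hend h4
    have h6 := hA (e1 + e) (by push_cast; exact h5)
    unfold CenT
    exact le_trans h6 h3r
  | c :: c' :: cs, hok, hcen, hch => by
    unfold K.chainV at hch
    rw [Bool.and_eq_true] at hch
    obtain ⟨hlk, hrest⟩ := hch
    have ih := main hVST hVHO hVES q l ν N e xn V1 e1 hQ hν hend (c' :: cs)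
      (fun d hd => hok d (List.mem_cons_of_mem _ hd))
      (fun d hd => hcen d (List.mem_cons_of_mem _ hd)) hrest
    intro d hd
    rcases List.mem_cons.1 hd with hd' | hd'
    · subst hd'
      unfold K.link at hlk
      rw [Bool.and_eq_true, Bool.and_eq_true, decide_eq_true_eq, decide_eq_true_eq] at hlk
      obtain ⟨⟨h1, h2⟩, h3⟩ := hlk
      have h3' : K.conS d.s (K.conS c'.s c'.etaT + c'.RV + e) + d.RV ≤ d.etaT :=
        Nat.le_of_ble_eq_true h3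
      have h3r : ((K.conS d.s (K.conS c'.s c'.etaT + c'.RV + e) + d.RV : ℕ) : ℝ) ≤
          (d.etaT : ℝ) := by exact_mod_cast h3'
      obtain ⟨hA, _⟩ := chart hVST hVES q l ν N d hQ hν (hok d (by simp)) (hcen d (by simp))
      obtain ⟨_, hB⟩ := chart hVST hVES q l ν N c' hQ hν (hok c' (by simp)) (hcen c' (by simp))
      have hT := ih c' (by simp)
      unfold CenT at hT
      have h4 := linkc hVHO d.T c'.T e h2
      have h1r : (4 * (d.cn : ℝ) + (d.ln : ℝ)) = 4 * (c'.cn : ℝ) - (c'.ln : ℝ) := by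
        exact_mod_cast h1
      rw [h1r] at hA
      have hB' := hB c'.etaT hT
      have h5 := tri _ _ _ _ _ hB' h4
      have h6 := hA (K.conS c'.s c'.etaT + c'.RV + e) (by push_cast at h5 ⊢; exact h5)
      unfold CenT
      exact le_trans h6 h3r
    · exact ih d hd'

end VCHaux

theorem t_VCH (hVST : S_VST) (hVHO : S_VHO) (hVES : S_VES) : S_VCH := by
  intro q l ν N e xn V1 e1 chs hQ hν hok hcen hch hend
  exact VCHaux.main hVST hVHO hVES q l ν N e xn V1 e1 hQ hν hend chs hok hcen hch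

end TWP
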