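import Mathlib
import Pool.Agent.TWP.St4V

/-! TWP: module VCO2. -/

set_option autoImplicit false

namespace TWP

theorem t_VCO2 (hVCON : S_VCON) : S_VCO2 := by
  intro δ a r ρ u0 u1 α h01 hα hδ ha hr
  have hE : ∀ u, HasDerivAt (fun u => Real.exp (-(α * (u - u0))))
      (Real.exp (-(α * (u - u0))) * (-α)) u := by
    intro u
    have h1 : HasDerivAt (fun u : ℝ => -(α * (u - u0))) (-α) u := by
      have h2 : HasDerivAt (fun u : ℝ => -(α * (u - u0))) (-(α * 1)) u :=
        (((hasDerivAt_id u).sub_const u0).const_mul α).neg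
      rw [mul_one] at h2
      exact h2
    exact h1.exp
  have key := hVCON (fun u => δ u * Real.exp (-(α * (u - u0)))) (fun u => a u - α)
    (fun u => r u * Real.exp (-(α * (u - u0)))) ρ u0 u1 h01
    (fun u hu0 hu1 => by
      have h1 := (hδ u hu0 hu1).mul (hE u)
      have h2 : (a u * δ u + r u) * Real.exp (-(α * (u - u0))) +
          δ u * (Real.exp (-(α * (u - u0))) * (-α)) =
          (a u - α) * (δ u * Real.exp (-(α * (u - u0)))) +
            r u * Real.exp (-(α * (u - u0))) := by ring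
      rw [h2] at h1
      exact h1)
    (fun u hu0 hu1 => sub_nonneg.2 (ha u hu0 hu1))
    (fun u hu0 hu1 => by
      show |r u * Real.exp (-(α * (u - u0)))| ≤ ρ
      rw [abs_mul, Real.abs_exp]
      have h1 : Real.exp (-(α * (u - u0))) ≤ 1 := by
        rw [Real.exp_le_one_iff]
        have := mul_nonneg hα (sub_nonneg.2 hu0)
        linarith
      calc |r u| * Real.exp (-(α * (u - u0))) ≤ |r u| * 1 :=
            mul_le_mul_of_nonneg_left h1 (abs_nonneg _)
        _ = |r u| := mul_one _
        _ ≤ ρ := hr u hu0 hu1)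
  have e0 : |δ u0 * Real.exp (-(α * (u0 - u0)))| = |δ u0| := by
    rw [sub_self, mul_zero, neg_zero, Real.exp_zero, mul_one]
  have e1 : |δ u1 * Real.exp (-(α * (u1 - u0)))| = |δ u1| * Real.exp (-(α * (u1 - u0))) := by
    rw [abs_mul, Real.abs_exp]
  calc |δ u0| = |δ u0 * Real.exp (-(α * (u0 - u0)))| := e0.symm
    _ ≤ |δ u1 * Real.exp (-(α * (u1 - u0)))| + ρ * (u1 - u0) := key
    _ = |δ u1| * Real.exp (-(α * (u1 - u0))) + ρ * (u1 - u0) := by rw [e1]

end TWP
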