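import Mathlib
import Pool.Agent.TWP.St4V

/-!
# TWP, module VCON (helper52): contraction from right to left
-/

set_option autoImplicit false

namespace TWP

open Filter Topology
open scoped ContDiff

namespace VCONaux

theorem sqrt_facts (x κ : ℝ) (hκ : 0 < κ) : 0 < Real.sqrt (x ^ 2 + κ ^ 2) ∧
    |x| ≤ Real.sqrt (x ^ 2 + κ ^ 2) ∧ Real.sqrt (x ^ 2 + κ ^ 2) ≤ |x| + κ := by
  refine ⟨Real.sqrt_pos.mpr (by positivity), Real.abs_le_sqrt (by nlinarith [sq_nonneg κ]), ?_⟩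
  rw [Real.sqrt_le_left (by positivity)]
  have h1 : |x| ^ 2 = x ^ 2 := sq_abs x
  nlinarith [abs_nonneg x, mul_nonneg (abs_nonneg x) hκ.le]

theorem step (δ a r : ℝ → ℝ) (ρ u0 u1 κ : ℝ) (hκ : 0 < κ) (hu : u0 ≤ u1)
    (h1 : ∀ u, u0 ≤ u → u ≤ u1 → HasDerivAt δ (a u * δ u + r u) u)
    (h2 : ∀ u, u0 ≤ u → u ≤ u1 → 0 ≤ a u) (h3 : ∀ u, u0 ≤ u → u ≤ u1 → |r u| ≤ ρ) :
    Real.sqrt (δ u0 ^ 2 + κ ^ 2) + ρ * u0 ≤ Real.sqrt (δ u1 ^ 2 + κ ^ 2) + ρ * u1 := by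
  have hF : ∀ u, u0 ≤ u → u ≤ u1 → HasDerivAt (fun u => Real.sqrt (δ u ^ 2 + κ ^ 2) + ρ * u)
      (2 * δ u * (a u * δ u + r u) / (2 * Real.sqrt (δ u ^ 2 + κ ^ 2)) + ρ) u := by
    intro u hu0 hu1
    have d1 : HasDerivAt (fun u => δ u ^ 2 + κ ^ 2) (2 * δ u * (a u * δ u + r u)) u := by
      have := ((h1 u hu0 hu1).pow 2).add_const (κ ^ 2)
      simpa using this
    have d2 := d1.sqrt (by positivity)
    have d3 : HasDerivAt (fun u : ℝ => ρ * u) ρ u := by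
      simpa using (hasDerivAt_id u).const_mul ρ
    exact d2.add d3
  have hmono : MonotoneOn (fun u => Real.sqrt (δ u ^ 2 + κ ^ 2) + ρ * u) (Set.Icc u0 u1) := by
    refine monotoneOn_of_deriv_nonneg (convex_Icc u0 u1) ?_ ?_ ?_
    · intro u hu
      exact (hF u hu.1 hu.2).continuousAt.continuousWithinAt
    · intro u hu
      rw [interior_Icc] at hu
      exact (hF u hu.1.le hu.2.le).differentiableAt.differentiableWithinAt
    · intro u hu
      rw [interior_Icc] at hu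
      rw [(hF u hu.1.le hu.2.le).deriv]
      obtain ⟨s0, s1, -⟩ := sqrt_facts (δ u) κ hκ
      have ha := h2 u hu.1.le hu.2.le
      have hr := h3 u hu.1.le hu.2.le
      have hρ : 0 ≤ ρ := (abs_nonneg _).trans hr
      have k1 : -ρ ≤ 2 * δ u * (a u * δ u + r u) / (2 * Real.sqrt (δ u ^ 2 + κ ^ 2)) := by
        rw [le_div_iff₀ (by positivity)]
        have k2 : -(|δ u| * ρ) ≤ δ u * r u := by
          have k3 : |δ u * r u| ≤ |δ u| * ρ := by
            rw [abs_mul]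
            exact mul_le_mul_of_nonneg_left hr (abs_nonneg _)
          exact neg_le_of_abs_le k3
        have k4 : |δ u| * ρ ≤ Real.sqrt (δ u ^ 2 + κ ^ 2) * ρ := mul_le_mul_of_nonneg_right s1 hρ
        have k5 : 0 ≤ a u * (δ u * δ u) := mul_nonneg ha (mul_self_nonneg _)
        nlinarith
      linarith
  exact hmono (Set.left_mem_Icc.mpr hu) (Set.right_mem_Icc.mpr hu) hu

end VCONaux

theorem t_VCON : S_VCON := by
  intro δ a r ρ u0 u1 hu h1 h2 h3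
  refine le_of_forall_pos_le_add fun κ hκ => ?_
  have h := VCONaux.step δ a r ρ u0 u1 κ hκ hu h1 h2 h3
  obtain ⟨-, e1, -⟩ := VCONaux.sqrt_facts (δ u0) κ hκ
  obtain ⟨-, -, e2⟩ := VCONaux.sqrt_facts (δ u1) κ hκ
  linarith

end TWP
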