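import Pool.Agent.TWP.St4V

/-! TWP, `β = 4`: VCV (the charts cover the interval). -/

set_option autoImplicit false

namespace TWP

private theorem VCVaux_one (c : K.Ch4) (t : ℝ)
    (h1 : ((4 * c.cn - c.ln : ℤ) : ℝ) / 256 ≤ t)
    (h2 : t ≤ ((4 * c.cn + c.ln : ℤ) : ℝ) / 256) : |256 * t - 4 * (c.cn : ℝ)| ≤ (c.ln : ℝ) := by
  push_cast at h1 h2
  rw [abs_le]
  constructor <;> linarith

theorem t_VCV : S_VCV := by
  intro e xn V1 e1 c0 chs
  induction chs generalizing c0 with
  | nil =>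
    intro hch t h1 h2
    unfold K.chainV at hch
    simp only [Bool.and_eq_true, decide_eq_true_eq] at hch
    refine ⟨c0, List.mem_singleton.mpr rfl, ?_⟩
    apply VCVaux_one c0 t h1
    rw [hch.1.1]
    exact h2
  | cons c' cs ih =>
    intro hch t h1 h2
    unfold K.chainV at hch
    rw [Bool.and_eq_true] at hch
    obtain ⟨hl, hc⟩ := hch
    unfold K.link at hl
    simp only [Bool.and_eq_true, decide_eq_true_eq] at hl
    by_cases ht : t ≤ ((4 * c0.cn + c0.ln : ℤ) : ℝ) / 256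
    · exact ⟨c0, by simp, VCVaux_one c0 t h1 ht⟩
    · have h3 : ((4 * c'.cn - c'.ln : ℤ) : ℝ) / 256 ≤ t := by
        have h4 : (4 * c0.cn + c0.ln : ℤ) = 4 * c'.cn - c'.ln := by
          omega
        rw [← h4]
        exact (not_le.mp ht).le
      obtain ⟨c, hcm, hcc⟩ := ih c' hc t h3 h2
      exact ⟨c, List.mem_cons_of_mem _ hcm, hcc⟩

end TWP
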