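import Pool.Agent.TWP.St4V

/-! TWP, `β = 4`: module VES. -/

set_option autoImplicit false

namespace TWP

theorem t_VES : S_VES := by
  intro s x y hyx hy0
  have hE : (0 : ℝ) < (K.expS s : ℕ) := by
    have : 0 < K.expS s := by unfold K.expS; positivity
    exact_mod_cast this
  have h1 : ((K.expS s : ℕ) : ℝ) / (24 * 16 ^ 4) ≤ Real.exp ((s : ℝ) / 16) := by
    have h := Real.sum_le_exp_of_nonneg (x := (s : ℝ) / 16) (by positivity) 5
    refine le_trans (le_of_eq ?_) h
    simp only [Finset.sum_range_succ, Finset.sum_range_zero, Nat.factorial, K.expS]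
    push_cast
    ring
  have h2 : Real.exp (-((s : ℝ) / 16)) ≤ (24 * 16 ^ 4) / ((K.expS s : ℕ) : ℝ) := by
    have h := inv_anti₀ (by positivity) h1
    rw [inv_div] at h
    rw [Real.exp_neg]
    exact h
  have h3 : ((x * (24 * 16 ^ 4) : ℕ) : ℝ) / ((K.expS s : ℕ) : ℝ) ≤ ((K.conS s x : ℕ) : ℝ) := by
    rw [div_le_iff₀ hE]
    have hpos : 0 < K.expS s := by exact_mod_cast hE
    have h4 : x * (24 * 16 ^ 4) ≤ K.conS s x * K.expS s := by
      unfold K.conS
      have := Nat.lt_div_mul_add (a := x * (24 * 16 ^ 4)) hpos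
      nlinarith [this]
    exact_mod_cast h4
  calc y * Real.exp (-((s : ℝ) / 16)) ≤ x * ((24 * 16 ^ 4) / ((K.expS s : ℕ) : ℝ)) :=
        mul_le_mul hyx h2 (Real.exp_pos _).le (by positivity)
    _ = ((x * (24 * 16 ^ 4) : ℕ) : ℝ) / ((K.expS s : ℕ) : ℝ) := by push_cast; ring
    _ ≤ _ := h3

end TWP
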