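import Pool.Agent.TWP.St4V

/-! TWP, module VHO: evaluation of a list at `s / 4`. -/

set_option autoImplicit false

namespace TWP

theorem t_VHO : S_VHO := by
  intro s P
  induction P with
  | nil =>
    simp [evR, K.hor]
  | cons a P ih =>
    rw [List.length_cons]
    show (4 : ℝ) ^ (P.length + 1) * ((a : ℝ) + (s : ℝ) / 4 * evR ((s : ℝ) / 4) P) =
      ((a * 4 ^ (P.length + 1) + s * K.hor s P : ℤ) : ℝ)
    push_cast
    rw [← ih]
    ring

end TWP
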