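import Pool.Agent.TWP.St4V

/-! TWP, module VNL: the value of a list of integer coefficients at a real number. -/

namespace TWP

set_option linter.unusedVariables false in
theorem t_VNL (hNL : S_NL) (hGA : S_GA) : S_VNL := by
  intro u h P hu
  induction P with
  | nil => simp [evR, K.nL]
  | cons a P ih =>
    rw [evR, K.nL]
    have h0 : (0 : ℝ) ≤ (K.nL h P : ℝ) := Nat.cast_nonneg _
    have h1 : |(a : ℝ) + u * evR u P| ≤ |(a : ℝ)| + |u| * |evR u P| := by
      rw [← abs_mul]; exact abs_add_le _ _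
    have h2 : |u| * |evR u P| ≤ (h : ℝ) / 4096 * (K.nL h P : ℝ) :=
      mul_le_mul hu ih (abs_nonneg _) (by positivity)
    have h3 : K.nL h P * h ≤ (K.nL h P * h / 4096 + 1) * 4096 := by
      have := Nat.div_add_mod (K.nL h P * h) 4096
      have := Nat.mod_lt (K.nL h P * h) (show 0 < 4096 by norm_num)
      omega
    have h4 : ((K.nL h P * h : ℕ) : ℝ) ≤ (((K.nL h P * h / 4096 + 1) * 4096 : ℕ) : ℝ) := by
      exact_mod_cast h3
    have h5 : (h : ℝ) / 4096 * (K.nL h P : ℝ) ≤ ((K.nL h P * h / 4096 + 1 : ℕ) : ℝ) := by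
      push_cast at h4 ⊢
      linarith
    have h6 : |(a : ℝ)| = (a.natAbs : ℝ) := by
      rw [Nat.cast_natAbs, Int.cast_abs]
    have h7 : ((a.natAbs + (K.nL h P * h / 4096 + 1) : ℕ) : ℝ) =
        (a.natAbs : ℝ) + ((K.nL h P * h / 4096 + 1 : ℕ) : ℝ) := by push_cast; ring
    rw [h7, ← h6]
    linarith

end TWP
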