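import Pool.Agent.TWP.St4V

set_option autoImplicit false

/-! TWP: module TWP_VPO (helper83). -/

namespace TWP

open PowerSeries

theorem t_VPO (hPOS : S_POS) (hLIN : S_LIN) (hGA : S_GA) : S_VPO := by
  intro h T u hp hu
  have hc : coeff 0 (C u : ℝ⟦X⟧) = u := by simp
  have h1 := hLIN.2.2.2.2.2 0 0 (C u : ℝ⟦X⟧) T (le_refl 0)
  have h2 := hPOS 0 0 (C u : ℝ⟦X⟧) _ h (T, 0) (le_refl 0) (by rw [hc]; exact hu) h1 hp
  rw [coeff_C_mul, (hGA u T).1 (C u : ℝ⟦X⟧) hc] at h2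
  exact pos_of_mul_pos_right h2 (by positivity)

end TWP
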