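import Pool.Agent.TWP.St4V
import Pool.Agent.TWP.KNrm

set_option autoImplicit false

/-! TWP, `β = 4`: soundness of `resT` at a point. -/

namespace TWP

open PowerSeries

namespace VRTaux

theorem nrm01 (S : ℝ⟦X⟧) : nrm 0 1 S = |coeff 0 S| := by
  simp [nrm]

theorem evZ_C (u : ℝ) (P : List ℤ) : evZ (C u : ℝ⟦X⟧) P = C (evR u P) := by
  induction P with
  | nil => simp [evZ, evR]
  | cons a P ih =>
    simp only [evZ, evR, ih, map_add, map_mul]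

theorem ap0 (hLIN : S_LIN) (u : ℝ) (P : List ℤ) :
    Ap 0 1 (C u : ℝ⟦X⟧) (C (evR u P / 2 ^ 160)) (P, 0) := by
  have h := hLIN.2.2.2.2.2 0 1 (C u : ℝ⟦X⟧) P zero_le_one
  rw [evZ_C, ← map_mul] at h
  have e : ((2 : ℝ) ^ 160)⁻¹ * evR u P = evR u P / 2 ^ 160 := by
    rw [div_eq_mul_inv, mul_comm]
  rw [e] at h
  exact h

theorem fin (hVNL : S_VNL) (u : ℝ) (h : ℕ) (s : ℝ) (R : K.AP) (hu : |u| ≤ (h : ℝ) / 4096)
    (hA : Ap 0 1 (C u : ℝ⟦X⟧) (C s) R) : |(2 : ℝ) ^ 160 * s| ≤ (K.nL h R.1 : ℝ) + R.2 := by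
  unfold Ap at hA
  rw [nrm01, evZ_C, ← map_mul, ← map_sub, coeff_zero_C] at hA
  have h1 := hVNL u h R.1 hu
  have h2 : (2 : ℝ) ^ 160 * s = evR u R.1 + ((2 : ℝ) ^ 160 * s - evR u R.1) := by ring
  calc |(2 : ℝ) ^ 160 * s| = |evR u R.1 + ((2 : ℝ) ^ 160 * s - evR u R.1)| := by rw [← h2]
    _ ≤ |evR u R.1| + |(2 : ℝ) ^ 160 * s - evR u R.1| := abs_add_le _ _
    _ ≤ _ := add_le_add h1 hA

end VRTaux

open VRTaux in
theorem t_VRT (hLIN : S_LIN) (hMULA : S_MULA) (hVNL : S_VNL) (hGA : S_GA) : S_VRT := by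
  intro N h ln L Q T R hh hR u hu
  have _ := hGA
  have hok : Okw 0 1 (C u : ℝ⟦X⟧) h := ⟨one_pos, hh, by rw [nrm_C]; exact hu⟩
  have hx1 : nrm 0 1 (C u : ℝ⟦X⟧) ≤ 1 := hok.2.2.trans (by
    rw [div_le_one (by norm_num)]; exact_mod_cast hh)
  have aQ := ap0 hLIN u Q
  have aT := ap0 hLIN u T
  have aL := ap0 hLIN u L
  have aD := ap0 hLIN u (K.derM T)
  have a0 := ap0 hLIN u [(ln : ℤ) * 2 ^ 153]
  unfold K.resT at hR
  split at hR
  case h_2 => exact absurd hR (by simp)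
  case h_1 X Y hX hY =>
    have aX := hMULA 0 1 (C u) _ _ h N _ _ X hok hX aQ aT
    have aY := hMULA 0 1 (C u) _ _ h N _ _ Y hok hY aL aT
    split at hR
    case h_2 => exact absurd hR (by simp)
    case h_1 X2 hX2 =>
      have aX2 := hMULA 0 1 (C u) _ _ h N _ _ X2 hok hX2 aX aX
      have b1 := hLIN.2.2.1 0 1 (C u) _ _ (-((ln : ℤ) * 2 ^ 153)) zero_le_one hx1 aX2
      have b2 := hLIN.2.2.1 0 1 (C u) _ _ ((ln : ℤ) * 2 ^ 154) zero_le_one hx1 aY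
      have c1 := hLIN.1 0 1 (C u) _ _ _ _ zero_le_one b1 b2
      have c2 := hLIN.1 0 1 (C u) _ _ _ _ zero_le_one a0 c1
      have c3 := hLIN.1 0 1 (C u) _ _ _ _ zero_le_one aD c2
      have hR' := Option.some.inj hR
      rw [hR'] at c3
      rw [← map_mul, ← map_mul, ← map_mul, ← map_mul, ← map_mul, ← map_add, ← map_add,
        ← map_add] at c3
      have key := fin hVNL u h _ R hu c3
      have e : evR u (K.derM T) / 2 ^ 160 + (evR u [(ln : ℤ) * 2 ^ 153] / 2 ^ 160 +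
          ((((-((ln : ℤ) * 2 ^ 153) : ℤ) : ℝ) / 2 ^ 160) *
            (evR u Q / 2 ^ 160 * (evR u T / 2 ^ 160) * (evR u Q / 2 ^ 160 * (evR u T / 2 ^ 160))) +
            (((ln : ℤ) * 2 ^ 154 : ℤ) : ℝ) / 2 ^ 160 * (evR u L / 2 ^ 160 * (evR u T / 2 ^ 160)))) =
          evR u (K.derM T) / 2 ^ 160 + (ln : ℝ) / 64 * (1 / 2 -
            (evR u Q / 2 ^ 160 * (evR u T / 2 ^ 160)) ^ 2 / 2 +
              evR u L / 2 ^ 160 * (evR u T / 2 ^ 160)) := by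
        have e1 : evR u [(ln : ℤ) * 2 ^ 153] / 2 ^ 160 = (ln : ℝ) / 64 * (1 / 2) := by
          simp only [evR]; push_cast; ring
        have e2 : (((-((ln : ℤ) * 2 ^ 153) : ℤ) : ℝ) / 2 ^ 160) = -((ln : ℝ) / 64 * (1 / 2)) := by
          push_cast; ring
        have e3 : (((ln : ℤ) * 2 ^ 154 : ℤ) : ℝ) / 2 ^ 160 = (ln : ℝ) / 64 := by
          push_cast; ring
        rw [e1, e2, e3]
        ring
      rw [← e]
      exact key

end TWP
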