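import Pool.Agent.TWP.St4V

/-! Module TWP_VST (MP_4cb661_pr): soundness of `stepV`. -/

set_option autoImplicit false

namespace TWP

open Filter Topology
open scoped ContDiff

namespace VSTaux

theorem div_le (a b : ℕ) (hb : 0 < b) : (a : ℝ) / b ≤ ((a / b : ℕ) : ℝ) + 1 := by
  have h : a < b * (a / b + 1) := Nat.lt_mul_div_succ a hb
  have hb' : (0 : ℝ) < b := by exact_mod_cast hb
  rw [div_le_iff₀ hb']
  have h2 : (a : ℝ) ≤ ((b * (a / b + 1) : ℕ) : ℝ) := by exact_mod_cast h.le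
  rw [Nat.cast_mul, Nat.cast_add, Nat.cast_one] at h2
  linarith

theorem one_cast : ((K.ONE : ℕ) : ℝ) = (2 : ℝ) ^ 160 := by
  unfold K.ONE
  rw [Nat.cast_pow]
  rfl

theorem one_pos : 0 < K.ONE := by
  unfold K.ONE
  exact Nat.pow_pos (by norm_num)

theorem unf (N h : ℕ) (cn : ℤ) (ln eta k s : ℕ) (L Q T : List ℤ) (RR : ℕ)
    (hs : K.stepV N h cn ln eta k s L Q T = some RR) :
    ∃ (G : ℕ) (R : K.AP), K.baseS h cn ln eta k L Q = some G ∧ K.resT h N ln L Q T = some R ∧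
      K.posA h (T, 0) = true ∧
      K.posA h (K.subL (K.smulL (-1) L)
        [((s * 4 * 4096 * K.ONE / (ln * h) + 1 + G : ℕ) : ℤ)], 0) = true ∧
      RR = (ln * ((G * K.nL h T / K.ONE + 1) +
        ((G * K.nL h T / K.ONE + 1) * ((2 * K.nL h Q + G) * K.nL h T / K.ONE + 1) /
          (2 * K.ONE) + 1)) / 64 + 1 + (K.nL h R.1 + R.2)) * h / 4096 + 1 := by
  unfold K.stepV at hs
  split at hs
  · rename_i G R hG hR
    simp only at hs
    split at hs
    · rename_i hp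
      rw [Bool.and_eq_true] at hp
      refine ⟨G, R, hG, hR, hp.1, hp.2, ?_⟩
      exact (Option.some.inj hs).symm
    · exact absurd hs (by simp)
  · exact absurd hs (by simp)

theorem evR_zero (T : List ℤ) : evR 0 T = ((T.headD 0 : ℤ) : ℝ) := by
  cases T with
  | nil => simp [evR]
  | cons a P => simp [evR]

theorem evR_addL (u : ℝ) (P Q : List ℤ) : evR u (K.addL P Q) = evR u P + evR u Q := by
  induction P generalizing Q with
  | nil => simp [K.addL, evR]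
  | cons a P ih =>
    cases Q with
    | nil => simp [K.addL, evR]
    | cons b Q =>
      simp only [K.addL, evR, ih]
      push_cast
      ring

theorem evR_smulL (u : ℝ) (m : ℤ) (P : List ℤ) : evR u (K.smulL m P) = m * evR u P := by
  induction P with
  | nil => simp [K.smulL, evR]
  | cons a P ih =>
    simp only [K.smulL, evR, ih]
    push_cast
    ring

theorem evR_sub1 (u : ℝ) (P : List ℤ) (z : ℤ) :
    evR u (K.subL (K.smulL (-1) P) [z]) = -evR u P - z := by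
  unfold K.subL
  rw [evR_addL, evR_smulL, evR_smulL]
  simp only [evR]
  push_cast
  ring

/-- the bound of the inhomogeneous part, all quantities real -/
theorem rbound (O G nt nQ A B C lam nR l pl q pq pt res : ℝ) (hO : 0 < O)
    (hG : 0 ≤ G) (hnt : 0 ≤ nt) (hnQ : 0 ≤ nQ) (hlam : 0 ≤ lam)
    (hl : |l - pl| ≤ G / O) (hq : |q - pq| ≤ G / O) (hpt : |pt| ≤ nt / O) (hpq : |pq| ≤ nQ / O)
    (hA : G * nt / O ≤ A) (hC : (2 * nQ + G) * nt / O ≤ C) (hB : A * C / (2 * O) ≤ B)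
    (hres : |O * res| ≤ nR) :
    O * |lam * (-((l - pl) * pt) + (q ^ 2 - pq ^ 2) * pt ^ 2 / 2) - res| ≤
      lam * (A + B) + nR := by
  have hGO : 0 ≤ G / O := div_nonneg hG hO.le
  have h1 : |(l - pl) * pt| ≤ G / O * (nt / O) := by
    rw [abs_mul]
    exact mul_le_mul hl hpt (abs_nonneg _) hGO
  have h2 : |q ^ 2 - pq ^ 2| ≤ G / O * ((2 * nQ + G) / O) := by
    have e : q ^ 2 - pq ^ 2 = (q - pq) * (2 * pq + (q - pq)) := by ring
    rw [e, abs_mul]
    apply mul_le_mul hq _ (abs_nonneg _) hGO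
    calc |2 * pq + (q - pq)| ≤ |2 * pq| + |q - pq| := abs_add_le _ _
      _ = 2 * |pq| + |q - pq| := by rw [abs_mul, abs_two]
      _ ≤ 2 * (nQ / O) + G / O := by linarith
      _ = (2 * nQ + G) / O := by ring
  have h3 : |(q ^ 2 - pq ^ 2) * pt ^ 2 / 2| ≤
      G / O * ((2 * nQ + G) / O) * (nt / O) ^ 2 / 2 := by
    rw [abs_div, abs_two, abs_mul, abs_pow]
    apply div_le_div_of_nonneg_right _ (by norm_num)
    apply mul_le_mul h2 _ (by positivity) (by positivity)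
    exact pow_le_pow_left₀ (abs_nonneg _) hpt 2
  have h4 : |lam * (-((l - pl) * pt) + (q ^ 2 - pq ^ 2) * pt ^ 2 / 2) - res| ≤
      lam * (G / O * (nt / O) + G / O * ((2 * nQ + G) / O) * (nt / O) ^ 2 / 2) + |res| := by
    calc |lam * (-((l - pl) * pt) + (q ^ 2 - pq ^ 2) * pt ^ 2 / 2) - res|
        ≤ |lam * (-((l - pl) * pt) + (q ^ 2 - pq ^ 2) * pt ^ 2 / 2)| + |res| := abs_sub _ _
      _ = lam * |-((l - pl) * pt) + (q ^ 2 - pq ^ 2) * pt ^ 2 / 2| + |res| := by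
          rw [abs_mul, abs_of_nonneg hlam]
      _ ≤ lam * (|(l - pl) * pt| + |(q ^ 2 - pq ^ 2) * pt ^ 2 / 2|) + |res| := by
          gcongr
          calc |-((l - pl) * pt) + (q ^ 2 - pq ^ 2) * pt ^ 2 / 2|
              ≤ |-((l - pl) * pt)| + |(q ^ 2 - pq ^ 2) * pt ^ 2 / 2| := abs_add_le _ _
            _ = |(l - pl) * pt| + |(q ^ 2 - pq ^ 2) * pt ^ 2 / 2| := by rw [abs_neg]
      _ ≤ _ := by gcongr
  have h5 : O * (G / O * (nt / O) + G / O * ((2 * nQ + G) / O) * (nt / O) ^ 2 / 2) =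
      G * nt / O + (G * nt / O) * ((2 * nQ + G) * nt / O) / (2 * O) := by
    field_simp
  have hA0 : 0 ≤ G * nt / O := by positivity
  have h6 : (G * nt / O) * ((2 * nQ + G) * nt / O) / (2 * O) ≤ B := by
    refine le_trans ?_ hB
    apply div_le_div_of_nonneg_right _ (by positivity)
    exact mul_le_mul hA hC (by positivity) (hA0.trans hA)
  have h7 : O * |res| ≤ nR := by
    rw [abs_mul, abs_of_pos hO] at hres
    exact hres
  calc O * |lam * (-((l - pl) * pt) + (q ^ 2 - pq ^ 2) * pt ^ 2 / 2) - res|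
      ≤ O * (lam * (G / O * (nt / O) + G / O * ((2 * nQ + G) / O) * (nt / O) ^ 2 / 2) + |res|) :=
        mul_le_mul_of_nonneg_left h4 hO.le
    _ = lam * (O * (G / O * (nt / O) + G / O * ((2 * nQ + G) / O) * (nt / O) ^ 2 / 2)) +
        O * |res| := by ring
    _ ≤ lam * (A + B) + nR := by
        rw [h5]
        gcongr

end VSTaux

theorem t_VST (hVCO2 : S_VCO2) (_hEVA : S_EVA) (hVNL : S_VNL) (hVBS : S_VBS) (hVRT : S_VRT)
    (hVPO : S_VPO) (hGA : S_GA) : S_VST := by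
  intro q l ν N h cn ln eta k s L Q T RR hQLN hν0 hh0 hh hln hs hcl hcq
  obtain ⟨G, R, hG, hR, hp, hp2, hRR⟩ := VSTaux.unf N h cn ln eta k s L Q T RR hs
  obtain ⟨O, hOdef⟩ : ∃ O : ℝ, O = (2 : ℝ) ^ 160 := ⟨_, rfl⟩
  have hO : 0 < O := by rw [hOdef]; positivity
  have hOne : ((K.ONE : ℕ) : ℝ) = O := by rw [VSTaux.one_cast, hOdef]
  obtain ⟨lam, hlam⟩ : ∃ lam : ℝ, lam = (ln : ℝ) / 64 := ⟨_, rfl⟩
  obtain ⟨c, hc⟩ : ∃ c : ℝ, c = (cn : ℝ) / 64 := ⟨_, rfl⟩
  have hlam0 : 0 ≤ lam := by rw [hlam]; positivity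
  obtain ⟨w, hw⟩ : ∃ w : ℝ, w = (h : ℝ) / 4096 := ⟨_, rfl⟩
  have hw0 : 0 ≤ w := by rw [hw]; positivity
  have hBS := hVBS q l h cn ln eta k L Q G hQLN.ql hh0 hh hln hG hcl hcq
  have hRT := hVRT N h ln L Q T R hh hR
  rw [← hOdef, ← hc, ← hlam, ← hw] at hBS
  rw [← hOdef, ← hlam, ← hw] at hRT
  rw [← hOdef, ← hc, ← hlam, ← hw]
  -- the natural numbers
  obtain ⟨A, hAdef⟩ : ∃ A : ℕ, A = G * K.nL h T / K.ONE + 1 := ⟨_, rfl⟩
  obtain ⟨C, hCdef⟩ : ∃ C : ℕ, C = (2 * K.nL h Q + G) * K.nL h T / K.ONE + 1 := ⟨_, rfl⟩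
  obtain ⟨B, hBdef⟩ : ∃ B : ℕ, B = A * C / (2 * K.ONE) + 1 := ⟨_, rfl⟩
  obtain ⟨ρ, hρ⟩ : ∃ ρ : ℕ, ρ = ln * (A + B) / 64 + 1 + (K.nL h R.1 + R.2) := ⟨_, rfl⟩
  have hRR' : RR = ρ * h / 4096 + 1 := by
    rw [hRR, hρ, hBdef, hAdef, hCdef]
  have hA : (G : ℝ) * (K.nL h T : ℝ) / O ≤ (A : ℝ) := by
    have := VSTaux.div_le (G * K.nL h T) K.ONE VSTaux.one_pos
    rw [hOne, Nat.cast_mul] at this
    rw [hAdef, Nat.cast_add, Nat.cast_one]
    exact this
  have hC : (2 * (K.nL h Q : ℝ) + (G : ℝ)) * (K.nL h T : ℝ) / O ≤ (C : ℝ) := by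
    have := VSTaux.div_le ((2 * K.nL h Q + G) * K.nL h T) K.ONE VSTaux.one_pos
    rw [hOne, Nat.cast_mul, Nat.cast_add, Nat.cast_mul, Nat.cast_ofNat] at this
    rw [hCdef, Nat.cast_add, Nat.cast_one]
    exact this
  have hB : (A : ℝ) * (C : ℝ) / (2 * O) ≤ (B : ℝ) := by
    have := VSTaux.div_le (A * C) (2 * K.ONE) (by have := VSTaux.one_pos; omega)
    rw [Nat.cast_mul, Nat.cast_mul, hOne, Nat.cast_ofNat] at this
    rw [hBdef, Nat.cast_add, Nat.cast_one]
    exact this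
  have hρ' : lam * ((A : ℝ) + (B : ℝ)) + ((K.nL h R.1 : ℝ) + (R.2 : ℝ)) ≤ (ρ : ℝ) := by
    have := VSTaux.div_le (ln * (A + B)) 64 (by norm_num)
    rw [Nat.cast_mul, Nat.cast_add, Nat.cast_ofNat] at this
    rw [hρ, Nat.cast_add, Nat.cast_add, Nat.cast_one, Nat.cast_add, hlam]
    have e : (ln : ℝ) / 64 * ((A : ℝ) + (B : ℝ)) = (ln : ℝ) * ((A : ℝ) + (B : ℝ)) / 64 := by ring
    rw [e]
    linarith
  -- the functions
  have hder : ∀ u : ℝ, HasDerivAt (fun u => ν (c + lam * u) - evR u T / O)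
      (lam * (-l (c + lam * u) + q (c + lam * u) ^ 2 * (ν (c + lam * u) + evR u T / O) / 2) *
          (ν (c + lam * u) - evR u T / O) +
        (lam * (-((l (c + lam * u) - evR u L / O) * (evR u T / O)) +
            (q (c + lam * u) ^ 2 - (evR u Q / O) ^ 2) * (evR u T / O) ^ 2 / 2) -
          (evR u (K.derM T) / O + lam * (1 / 2 - (evR u Q / O * (evR u T / O)) ^ 2 / 2 +
            evR u L / O * (evR u T / O))))) u := by
    intro u
    have d1 : HasDerivAt (fun u : ℝ => c + lam * u) lam u := by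
      have := ((hasDerivAt_id u).const_mul lam).const_add c
      simpa using this
    have d2 := (hQLN.dn (c + lam * u)).comp u d1
    have d3 := ((hGA u T).2.1).div_const O
    have d4 := d2.sub d3
    refine d4.congr_deriv ?_
    ring
  have hbd : ∀ u : ℝ, |u| ≤ w →
      |lam * (-((l (c + lam * u) - evR u L / O) * (evR u T / O)) +
            (q (c + lam * u) ^ 2 - (evR u Q / O) ^ 2) * (evR u T / O) ^ 2 / 2) -
          (evR u (K.derM T) / O + lam * (1 / 2 - (evR u Q / O * (evR u T / O)) ^ 2 / 2 +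
            evR u L / O * (evR u T / O)))| ≤ (ρ : ℝ) / O := by
    intro u hu
    have b1 := hBS u hu
    have b2 := hRT u hu
    have hul : ∀ x y : ℝ, |O * x - y| ≤ (G : ℝ) → |x - y / O| ≤ (G : ℝ) / O := by
      intro x y hxy
      have e : x - y / O = (O * x - y) / O := by field_simp
      rw [e, abs_div, abs_of_pos hO]
      exact div_le_div_of_nonneg_right hxy hO.le
    have c1 : |l (c + lam * u) - evR u L / O| ≤ (G : ℝ) / O := by
      apply hul
      have := abs_nonneg (O * q (c + lam * u) - evR u Q)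
      linarith
    have c2 : |q (c + lam * u) - evR u Q / O| ≤ (G : ℝ) / O := by
      apply hul
      have := abs_nonneg (O * l (c + lam * u) - evR u L)
      linarith
    have hu' : |u| ≤ (h : ℝ) / 4096 := by rw [← hw]; exact hu
    have c3 : |evR u T / O| ≤ (K.nL h T : ℝ) / O := by
      rw [abs_div, abs_of_pos hO]
      exact div_le_div_of_nonneg_right (hVNL u h T hu') hO.le
    have c4 : |evR u Q / O| ≤ (K.nL h Q : ℝ) / O := by
      rw [abs_div, abs_of_pos hO]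
      exact div_le_div_of_nonneg_right (hVNL u h Q hu') hO.le
    have key := VSTaux.rbound O G (K.nL h T) (K.nL h Q) A B C lam
      ((K.nL h R.1 : ℝ) + (R.2 : ℝ)) (l (c + lam * u)) (evR u L / O) (q (c + lam * u))
      (evR u Q / O) (evR u T / O)
      (evR u (K.derM T) / O + lam * (1 / 2 - (evR u Q / O * (evR u T / O)) ^ 2 / 2 +
            evR u L / O * (evR u T / O))) hO (Nat.cast_nonneg _) (Nat.cast_nonneg _)
      (Nat.cast_nonneg _) hlam0 c1 c2 c3 c4 hA hC hB b2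
    rw [le_div_iff₀ hO, mul_comm]
    exact key.trans hρ'
  have hhR : (0 : ℝ) < (h : ℝ) := by exact_mod_cast hh0
  have hlnR : (0 : ℝ) < (ln : ℝ) := by exact_mod_cast hln
  obtain ⟨α, hα⟩ : ∃ α : ℝ, α = (s : ℝ) / 16 * (4096 / (h : ℝ)) := ⟨_, rfl⟩
  have hα0 : 0 ≤ α := by rw [hα]; positivity
  have hαw : α * w = (s : ℝ) / 16 := by
    rw [hα, hw]
    field_simp
  obtain ⟨Z, hZ⟩ : ∃ Z : ℕ, Z = s * 4 * 4096 * K.ONE / (ln * h) + 1 + G := ⟨_, rfl⟩
  have hZ' : (s : ℝ) * 16384 * O / ((ln : ℝ) * (h : ℝ)) + (G : ℝ) ≤ (Z : ℝ) := by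
    have := VSTaux.div_le (s * 4 * 4096 * K.ONE) (ln * h) (Nat.mul_pos hln hh0)
    rw [Nat.cast_mul, hOne, Nat.cast_mul, Nat.cast_mul, Nat.cast_mul, Nat.cast_ofNat,
      Nat.cast_ofNat] at this
    rw [hZ, Nat.cast_add, Nat.cast_add, Nat.cast_one]
    have e : (s : ℝ) * 4 * 4096 = (s : ℝ) * 16384 := by ring
    rw [e] at this
    linarith
  rw [← hZ] at hp2
  have ha : ∀ u : ℝ, |u| ≤ w →
      α ≤ lam * (-l (c + lam * u) + q (c + lam * u) ^ 2 * (ν (c + lam * u) + evR u T / O) / 2) := by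
    intro u hu
    have hu' : |u| ≤ (h : ℝ) / 4096 := by rw [← hw]; exact hu
    have p1 : 0 < evR u T := hVPO h T u hp hu'
    have p2 := hν0 (c + lam * u)
    have p4 : 0 < evR u T / O := div_pos p1 hO
    have p6 := hVPO h _ u hp2 hu'
    rw [VSTaux.evR_sub1, Int.cast_natCast] at p6
    have b1 := hBS u hu
    have b2 : |O * l (c + lam * u) - evR u L| ≤ (G : ℝ) := by
      have := abs_nonneg (O * q (c + lam * u) - evR u Q)
      linarith
    have b3 := (abs_le.1 b2).2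
    have b4 : (s : ℝ) * 16384 * O / ((ln : ℝ) * (h : ℝ)) ≤ O * (-l (c + lam * u)) := by linarith
    have b5 : (s : ℝ) * 16384 / ((ln : ℝ) * (h : ℝ)) ≤ -l (c + lam * u) := by
      have e : (s : ℝ) * 16384 * O / ((ln : ℝ) * (h : ℝ)) =
          O * ((s : ℝ) * 16384 / ((ln : ℝ) * (h : ℝ))) := by ring
      rw [e] at b4
      exact le_of_mul_le_mul_left b4 hO
    have p5 : 0 ≤ q (c + lam * u) ^ 2 * (ν (c + lam * u) + evR u T / O) / 2 := by positivity
    have b6 : lam * ((s : ℝ) * 16384 / ((ln : ℝ) * (h : ℝ))) = α := by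
      rw [hα, hlam]
      field_simp
      ring
    rw [← b6]
    apply mul_le_mul_of_nonneg_left _ hlam0
    linarith
  have hfin : (ρ : ℝ) * w ≤ (RR : ℝ) := by
    have := VSTaux.div_le (ρ * h) 4096 (by norm_num)
    rw [Nat.cast_mul, Nat.cast_ofNat] at this
    rw [hRR', Nat.cast_add, Nat.cast_one, hw]
    have e : (ρ : ℝ) * ((h : ℝ) / 4096) = (ρ : ℝ) * (h : ℝ) / 4096 := by ring
    rw [e]
    exact this
  have hscale : ∀ u : ℝ, |O * ν (c + lam * u) - evR u T| = O * |ν (c + lam * u) - evR u T / O| := by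
    intro u
    have e : O * ν (c + lam * u) - evR u T = O * (ν (c + lam * u) - evR u T / O) := by
      rw [mul_sub, mul_div_cancel₀ _ hO.ne']
    rw [e, abs_mul, abs_of_pos hO]
  have h0 : |O * ν c - ((T.headD 0 : ℤ) : ℝ)| = O * |ν (c + lam * 0) - evR 0 T / O| := by
    rw [← hscale 0, VSTaux.evR_zero, mul_zero, add_zero]
  constructor
  · have key := hVCO2 (fun u => ν (c + lam * u) - evR u T / O) _ _ ((ρ : ℝ) / O) 0 w α hw0 hα0
      (fun u _ _ => hder u) (fun u h1 h2 => ha u (abs_le.2 ⟨by linarith, h2⟩))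
      (fun u h1 h2 => hbd u (abs_le.2 ⟨by linarith, h2⟩))
    rw [sub_zero, hαw] at key
    rw [h0, hscale w]
    have k2 := mul_le_mul_of_nonneg_left key hO.le
    have k3 : O * ((ρ : ℝ) / O * w) = (ρ : ℝ) * w := by
      rw [← mul_assoc, mul_div_cancel₀ _ hO.ne']
    rw [mul_add, k3, ← mul_assoc] at k2
    linarith
  · have key := hVCO2 (fun u => ν (c + lam * u) - evR u T / O) _ _ ((ρ : ℝ) / O) (-w) 0 α
      (by linarith) hα0
      (fun u _ _ => hder u) (fun u h1 h2 => ha u (abs_le.2 ⟨h1, by linarith⟩))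
      (fun u h1 h2 => hbd u (abs_le.2 ⟨h1, by linarith⟩))
    rw [zero_sub, neg_neg, hαw] at key
    rw [h0, hscale (-w)]
    have k2 := mul_le_mul_of_nonneg_left key hO.le
    have k3 : O * ((ρ : ℝ) / O * w) = (ρ : ℝ) * w := by
      rw [← mul_assoc, mul_div_cancel₀ _ hO.ne']
    rw [mul_add, k3, ← mul_assoc] at k2
    linarith

end TWP
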