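import Pool.Agent.TWP.X4Fin
import Pool.Agent.TWP.R4V
import Pool.Agent.TWP.L4Fin
import Pool.Agent.TWP.HFin21
import Pool.Agent.TWP.HCen4
import Pool.Agent.TWP.VCON
import Pool.Agent.TWP.VCO2
import Pool.Agent.TWP.VES
import Pool.Agent.TWP.VNL
import Pool.Agent.TWP.VBS
import Pool.Agent.TWP.VRT
import Pool.Agent.TWP.VPO
import Pool.Agent.TWP.VST
import Pool.Agent.TWP.VHO
import Pool.Agent.TWP.VCH
import Pool.Agent.TWP.VCV

/-! TWP, `β = 4`: the final theorem from a list of checked charts (assembly, helper66). -/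

set_option autoImplicit false

namespace TWP

open Filter Topology Set
open scoped ContDiff

theorem VNL_all : S_VNL := t_VNL kNL t_GA

theorem VST_all : S_VST :=
  t_VST (t_VCO2 t_VCON) kEVA VNL_all (t_VBS GR_gron t_GA kEVA kMUL VNL_all)
    (t_VRT kLIN kMULA VNL_all t_GA) (t_VPO kPOS kLIN t_GA) t_GA

theorem VCH_all : S_VCH := t_VCH VST_all t_VHO t_VES

open R4Vaux Pool.Agent.TWP.Tail in
/-- the value of `ν` at `25`, with `2^44 + 2^42` -/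
theorem IsHM.nu25s {q : ℝ → ℝ} (h : IsHM q) :
    |(2 : ℝ) ^ 160 * nuF q 25 - (R4Vaux.V25 : ℝ)| ≤ 2 ^ 44 + 2 ^ 42 := by
  have h1 := h.nu25
  have h2 := evI_eq K.cN4
  rw [len] at h2
  have h3 : |(2 : ℝ) ^ 160 * (evI K.cN4 : ℝ) - 10 * (V25 : ℝ) * 1000 ^ 61| ≤
      2 ^ 42 * 10 * 1000 ^ 61 := by
    exact_mod_cast num
  rw [← h2] at h3
  have e : (2 : ℝ) ^ 160 * (ev K.cN4 (1 / 1000) * 1000 ^ 61) - 10 * (V25 : ℝ) * 1000 ^ 61 =
      (2 ^ 160 * (ev K.cN4 (1 / 1000) / 10) - (V25 : ℝ)) * (10 * 1000 ^ 61) := by ring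
  rw [e, abs_mul, abs_of_pos (by positivity : (0 : ℝ) < 10 * 1000 ^ 61), mul_assoc (2 ^ 42 : ℝ)] at h3
  have h4 : |(2 : ℝ) ^ 160 * (ev K.cN4 (1 / 1000) / 10) - (V25 : ℝ)| ≤ 2 ^ 42 :=
    le_of_mul_le_mul_right h3 (by positivity)
  have := abs_add_le ((2 : ℝ) ^ 160 * nuF q 25 - 2 ^ 160 * (ev K.cN4 (1 / 1000) / 10))
    (2 ^ 160 * (ev K.cN4 (1 / 1000) / 10) - (V25 : ℝ))
  rw [sub_add_sub_cancel] at this
  exact this.trans (add_le_add h1 h4)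

theorem IsHM.nu25v {q : ℝ → ℝ} (h : IsHM q) (V1 : ℤ) (hV : |V1 - R4Vaux.V25| ≤ 1000) :
    |(2 : ℝ) ^ 160 * nuF q 25 - (V1 : ℝ)| ≤ 2 ^ 45 := by
  have h1 := h.nu25s
  have h2 : |(V1 : ℝ) - (R4Vaux.V25 : ℝ)| ≤ 1000 := by exact_mod_cast hV
  generalize (R4Vaux.V25 : ℝ) = v at h1 h2
  generalize (V1 : ℝ) = w at h2 ⊢
  generalize (2 : ℝ) ^ 160 * nuF q 25 = x at h1 ⊢
  rw [abs_le] at h1 h2 ⊢
  norm_num at h1 h2 ⊢
  constructor <;> linarith [h1.1, h1.2, h2.1, h2.2]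

namespace M4

/-- the check of the values of `q'/q` and `q` at the centre of a chart -/
def cenOK (c : K.Ch4) : Bool :=
  H.cOK4 (c.cn, c.L.headD 0, c.Q.headD 0) && Nat.ble (2 ^ 12) c.eta

theorem cenL {q : ℝ → ℝ} (h : IsHM q) (c : K.Ch4) (hc : cenOK c = true) :
    CenL q (fun t => deriv q t / q t) c := by
  rw [cenOK, Bool.and_eq_true] at hc
  obtain ⟨h1, h2⟩ := hc
  have h3 : ((2 : ℝ) ^ 12) ≤ (c.eta : ℝ) := by
    have : 2 ^ 12 ≤ c.eta := Nat.le_of_ble_eq_true h2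
    exact_mod_cast this
  obtain ⟨a, b⟩ := H.cen4 h _ h1
  exact ⟨a.trans h3, b.trans h3⟩

/-- the data of the middle interval -/
structure OK (M N NV : ℕ) (tab : K.Tab) (rs : List ℕ) (e : ℕ) (V1 : ℤ) (e1 : ℕ) (c0 : K.Ch4)
    (chs : List K.Ch4) : Prop where
  rad : radOK 1024 M rs tab = true
  rad0 : rs.headD 0 = 3072
  len : 24 ≤ tab.length
  pos : ∀ c ∈ c0 :: chs, 0 < c.ln
  chk : ∀ c ∈ c0 :: chs,
    K.checkM4 11 M N 1024 3072 tab c.cn c.ln c.eta c.k c.etaT c.k4 c.L c.Q c.T = true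
  okv : ∀ c ∈ c0 :: chs, K.okV NV c = true
  cen : ∀ c ∈ c0 :: chs, cenOK c = true
  chain : K.chainV e 6400 V1 e1 (c0 :: chs) = true
  v1 : |V1 - R4Vaux.V25| ≤ 1000
  e1 : 2 ^ 45 ≤ e1
  cov : 4 * c0.cn - c0.ln ≤ -6272

section

variable {M N NV : ℕ} {tab : K.Tab} {rs : List ℕ} {e : ℕ} {V1 : ℤ} {e1 : ℕ} {c0 : K.Ch4} {chs : List K.Ch4}

theorem OK.cenT (hO : OK M N NV tab rs e V1 e1 c0 chs) {q : ℝ → ℝ} (h : IsHM q) (c : K.Ch4)
    (hc : c ∈ c0 :: chs) : CenT (nuF q) c := by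
  refine VCH_all q (fun t => deriv q t / q t) (nuF q) NV e 6400 _ e1 (c0 :: chs) h.qln h.nu_pos
    hO.okv (fun c hc => cenL h c (hO.cen c hc)) hO.chain ?_ c hc
  have h1 := h.nu25v V1 hO.v1
  have h2 : (((6400 : ℤ) : ℝ) / 256) = 25 := by norm_num
  rw [h2]
  have h3 : ((2 : ℝ) ^ 45) ≤ (e1 : ℝ) := by exact_mod_cast hO.e1
  exact h1.trans h3

theorem OK.mid (hO : OK M N NV tab rs e V1 e1 c0 chs) {q : ℝ → ℝ} (h : IsHM q) (t : ℝ)
    (h1 : -(49 / 2) ≤ t) (h2 : t ≤ 25) :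
    bNu q (fun t => deriv q t / q t) (nuF q) t ≠ 0 ∧ ∀ j, 1 ≤ j → j ≤ 12 →
      0 < toda (mNu q (fun t => deriv q t / q t) (nuF q)) j t := by
  have hcov : ((4 * c0.cn - c0.ln : ℤ) : ℝ) / 256 ≤ t := by
    have : ((4 * c0.cn - c0.ln : ℤ) : ℝ) ≤ -6272 := by exact_mod_cast hO.cov
    rw [div_le_iff₀ (by norm_num)]
    linarith
  obtain ⟨c, hc, ht⟩ := t_VCV e 6400 _ e1 c0 chs hO.chain t hcov (by push_cast; linarith)
  have hln := hO.pos c hc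
  have hlnR : (0 : ℝ) < c.ln := by exact_mod_cast hln
  obtain ⟨hL, hQ⟩ := cenL h c (hO.cen c hc)
  have hT := hO.cenT h c hc
  have hu : |(t - (c.cn : ℝ) / 64) / ((c.ln : ℝ) / 64)| ≤ ((1024 : ℕ) : ℝ) / 4096 := by
    rw [abs_div, abs_of_pos (show (0 : ℝ) < (c.ln : ℝ) / 64 by positivity), div_le_iff₀ (by positivity)]
    have e2 : t - (c.cn : ℝ) / 64 = (256 * t - 4 * (c.cn : ℝ)) / 256 := by ring
    rw [e2, abs_div, abs_of_pos (show (0 : ℝ) < 256 by norm_num), div_le_iff₀ (by norm_num)]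
    push_cast
    linarith
  obtain ⟨a1, _, a3⟩ := cm4 q (fun t => deriv q t / q t) (nuF q) 11 M N 1024 3072 rs tab c.cn c.ln c.eta
    c.k c.etaT c.k4 c.L c.Q c.T h.qln (by norm_num) (by norm_num) (by norm_num) hln hO.rad hO.rad0
    (by have := hO.len; omega) (hO.chk c hc) hL hQ hT t hu
  exact ⟨a1, fun j hj1 hj2 => (a3 j hj1 (by omega)).1⟩

end

theorem left4' {q : ℝ → ℝ} (h : IsHM q) (t : ℝ) (ht : t ≤ -(49 / 2)) :
    0 < bF q (fun t => deriv q t / q t) (eF q) t ∧ ∀ j, 1 ≤ j → j ≤ 12 →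
      0 < toda (mFour q (fun t => deriv q t / q t) (eF q)) j t := by
  have hA : ∀ t, t ≤ -(49 / 2) → |q t / Real.sqrt (-t / 2) -
      Pool.Agent.TWP.Tail.ev Pool.Agent.TWP.Tail.cY40 (Pool.Agent.TWP.Tail.zL t / 16)| ≤
      (Pool.Agent.TWP.Tail.dY40 : ℝ) * (Pool.Agent.TWP.Tail.zL t / 16) ^ 41 := by
    intro s hs
    refine (H.fA40 H.bs H.bs_chk h s hs).trans (le_of_eq ?_)
    rw [Pool.Agent.TWP.Tail.DY40, div_pow]
    ring
  obtain ⟨h1, h2⟩ := h.left4 hA t ht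
  exact ⟨h1, fun j a b => (h2 j a b).1⟩

theorem right4' {q : ℝ → ℝ} (h : IsHM q) (t : ℝ) (ht : 25 ≤ t) :
    0 < bF q (fun t => deriv q t / q t) (eF q) t ∧ ∀ j, 1 ≤ j → j ≤ 12 →
      0 < toda (mFour q (fun t => deriv q t / q t) (eF q)) j t := by
  obtain ⟨h1, h2⟩ := h.right4 t ht
  exact ⟨h1, fun j a b => (h2 j a b).1⟩

theorem bNu_cont {q : ℝ → ℝ} (h : IsHM q) :
    Continuous (bNu q (fun t => deriv q t / q t) (nuF q)) := by
  unfold bNu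
  exact h.gf_smooth.continuous.sub h.nu_smooth.continuous

theorem b_pos_of_bF {q : ℝ → ℝ} (h : IsHM q) (t : ℝ)
    (hb : 0 < bF q (fun t => deriv q t / q t) (eF q) t) :
    0 < bNu q (fun t => deriv q t / q t) (nuF q) t := by
  rw [h.bF_eq t] at hb
  exact (pos_iff_pos_of_mul_pos hb).1 (h.pos t)

theorem pos_of_ne (f : ℝ → ℝ) (hf : Continuous f) (a : ℝ) (ha : 0 < f a) (hne : ∀ t, f t ≠ 0) (t : ℝ) :
    0 < f t := by
  by_contra hcon
  have ht : f t ≤ 0 := not_lt.1 hcon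
  have hc : IsPreconnected (Set.univ : Set ℝ) := isPreconnected_univ
  obtain ⟨s, _, hs⟩ := hc.intermediate_value (Set.mem_univ t) (Set.mem_univ a) hf.continuousOn
    (Set.mem_Icc.2 ⟨ht, ha.le⟩)
  exact hne s hs

variable {M N NV : ℕ} {tab : K.Tab} {rs : List ℕ} {e : ℕ} {V1 : ℤ} {e1 : ℕ} {c0 : K.Ch4} {chs : List K.Ch4}

theorem OK.bpos (hO : OK M N NV tab rs e V1 e1 c0 chs) {q : ℝ → ℝ} (h : IsHM q) (t : ℝ) :
    0 < bNu q (fun t => deriv q t / q t) (nuF q) t := by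
  refine pos_of_ne _ (bNu_cont h) 25 (b_pos_of_bF h 25 (right4' h 25 le_rfl).1) (fun s => ?_) t
  rcases le_total s (-(49 / 2)) with h1 | h1
  · exact (b_pos_of_bF h s (left4' h s h1).1).ne'
  rcases le_total 25 s with h2 | h2
  · exact (b_pos_of_bF h s (right4' h s h2).1).ne'
  · exact (hO.mid h s h1 h2).1

theorem OK.posAll (hO : OK M N NV tab rs e V1 e1 c0 chs) {q : ℝ → ℝ} (h : IsHM q) (t : ℝ) :
    ∀ j, 1 ≤ j → j ≤ 12 → 0 < toda (mNu q (fun t => deriv q t / q t) (nuF q)) j t := by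
  have e : mFour q (fun t => deriv q t / q t) (eF q) =
      mNu q (fun t => deriv q t / q t) (nuF q) := funext fun t => h.mFour_eq (hO.bpos h) t
  rcases le_total t (-(49 / 2)) with h1 | h1
  · rw [← e]
    exact (left4' h t h1).2
  rcases le_total 25 t with h2 | h2
  · rw [← e]
    exact (right4' h t h2).2
  · exact (hO.mid h t h1 h2).2

/-- the negative term: a chart with the centre of a chart of the chain -/
structure Neg (M' N' : ℕ) (tab' : K.Tab) (rs' : List ℕ) (c d : K.Ch4) : Prop where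
  rad : radOK 1024 M' rs' tab' = true
  rad0 : rs'.headD 0 = 3072
  len : 26 ≤ tab'.length
  pos : 0 < d.ln
  cn : d.cn = c.cn
  hL : d.L.headD 0 = c.L.headD 0
  hQ : d.Q.headD 0 = c.Q.headD 0
  hT : d.T.headD 0 = c.T.headD 0
  eta : c.eta ≤ d.eta
  etaT : c.etaT ≤ d.etaT
  chk : K.checkMN4 12 M' N' 1024 3072 tab' d.cn d.ln d.eta d.k d.etaT d.k4 d.L d.Q d.T = true

theorem OK.neg (hO : OK M N NV tab rs e V1 e1 c0 chs) {q : ℝ → ℝ} (h : IsHM q)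
    {M' N' : ℕ} {tab' : K.Tab} {rs' : List ℕ} {c d : K.Ch4} (hc : c ∈ c0 :: chs)
    (hN : Neg M' N' tab' rs' c d) :
    toda (mNu q (fun t => deriv q t / q t) (nuF q)) 13 ((d.cn : ℝ) / 64) < 0 := by
  obtain ⟨hL, hQ⟩ := cenL h c (hO.cen c hc)
  have hT := hO.cenT h c hc
  have h1 : (c.eta : ℝ) ≤ d.eta := by exact_mod_cast hN.eta
  have h2 : (c.etaT : ℝ) ≤ d.etaT := by exact_mod_cast hN.etaT
  have hL' := hL.trans h1
  have hQ' := hQ.trans h1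
  have hT' := (show |(2 : ℝ) ^ 160 * nuF q ((c.cn : ℝ) / 64) - (c.T.headD 0 : ℤ)| ≤ c.etaT from hT).trans h2
  rw [← hN.cn, ← hN.hL] at hL'
  rw [← hN.cn, ← hN.hQ] at hQ'
  rw [← hN.cn, ← hN.hT] at hT'
  exact (cmn4 q (fun t => deriv q t / q t) (nuF q) 12 M' N' 1024 3072 rs' tab' d.cn d.ln d.eta
    d.k d.etaT d.k4 d.L d.Q d.T h.qln (by norm_num) (by norm_num) (by norm_num) hN.pos hN.rad hN.rad0
    (by have := hN.len; omega) hN.chk hL' hQ' hT' ((d.cn : ℝ) / 64)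
    (by rw [sub_self, zero_div, abs_zero]; positivity)).2.2

theorem OK.main (hO : OK M N NV tab rs e V1 e1 c0 chs) 
    {M' N' : ℕ} {tab' : K.Tab} {rs' : List ℕ} {c d : K.Ch4} (hc : c ∈ c0 :: chs)
    (hN : Neg M' N' tab' rs' c d) (q : ℝ → ℝ) (h : IsHM q) :
    IsGreatest {r : ℕ | IsPF r (fFour q)} 13 := by
  have hb := hO.bpos h
  have e4 : (fun t => deriv (fFour q) t / fFour q t) = mNu q (fun t => deriv q t / q t) (nuF q) := by
    funext t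
    rw [(h.fFour_deriv' hb t).deriv, mul_div_assoc, div_self (h.fFour_pos' hb t).ne', mul_one]
  apply isGreatest_pf
  · refine T1_all (fFour q) 13 (by norm_num) h.fFour_smooth (h.fFour_pos' hb) ?_
    rw [e4]
    exact fun k h1 h2 t => hO.posAll h t k h1 (by omega)
  · refine T2_all (fFour q) 13 ((d.cn : ℝ) / 64) (by norm_num) h.fFour_smooth (h.fFour_pos' hb) ?_ ?_
    · rw [e4]
      exact fun k h1 h2 t => hO.posAll h t k h1 (by omega)
    · rw [e4]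
      exact hO.neg h hc hN

end M4

end TWP
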