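import Pool.Agent.TWP.Main4G
import Pool.Agent.TWP.C4.All
import Pool.Agent.TWP.C4.KN
import Pool.Agent.TWP.FamC
import Pool.Agent.TWP.HFin21

set_option autoImplicit false

namespace TWP

namespace M4x

theorem chainx : K.chainV 32 6400 145289987022874009020948873804517952191795068090 (2 ^ 45) C4.chs = true := by
  decide +kernel

theorem cenx : (C4.chs.all M4.cenOK) = true := by decide +kernel

theorem okx : M4.OK 23 60 60 C4.tab4 C4.rad4 32 (2 ^ 45) C4.ch0 C4.chs.tail where
  rad := C4.rad_ok4
  rad0 := by decide +kernel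
  len := by decide +kernel
  pos := fun c hc => C4.chs_pos c hc
  chk := fun c hc => C4.chs_chk c hc
  okv := fun c hc => C4.chs_ok c hc
  cen := fun c hc => List.all_eq_true.1 cenx c hc
  chain := chainx
  e1 := le_rfl
  cov := C4.ch0_left.le

def chN : K.Ch4 where
  cn := -84
  ln := 16
  eta := 4096
  k := 1
  etaT := C4.ch21.etaT
  k4 := 1
  s := 0
  RV := 0
  L := C4.LN
  Q := C4.QN
  T := C4.TN

theorem negx : M4.Neg 25 60 C4.tabN C4.radN C4.ch21 chN where
  rad := C4.rad_okN
  rad0 := by decide +kernel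
  len := by decide +kernel
  pos := by decide +kernel
  cn := by decide +kernel
  hL := by decide +kernel
  hQ := by decide +kernel
  hT := by decide +kernel
  eta := by decide +kernel
  etaT := le_rfl
  chk := C4.kN

theorem main4x (q : ℝ → ℝ) (h : IsHM q) : IsGreatest {r : ℕ | IsPF r (fFour q)} 13 :=
  okx.main (c := C4.ch21) (d := chN) C4.mem21 negx q h

theorem finalx : (∃! q : ℝ → ℝ, IsHM q) ∧ ∀ q : ℝ → ℝ, IsHM q → ∀ β ∈ ({1, 2, 4} : Finset ℕ),
      IsGreatest {r : ℕ | IsPF r (classicalDensity q β)} (classicalOrder β) := famC main21 main4x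

end M4x

end TWP
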