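import Pool.Agent.TWP.StT

/-! TWP, block P, DD (helper66): the determinants of the derivatives of `f`. -/

namespace TWP.P

open Filter Topology
open scoped ContDiff

theorem t_DD (hSY : S_SY) (hSZ : S_SZ) : S_DD := by
  intro f m n hn hC
  obtain ⟨hsm, hf0, hto⟩ := hSY f m n hC
  have hz : ∀ (j : ℕ) (t : ℝ), (-1 : ℝ) ^ j * sy f 0 j t = iteratedDeriv j f t := by
    intro j t
    have h1 : sy f 0 j t = (-1 : ℝ) ^ j * iteratedDeriv j f t := rfl
    rw [h1, ← mul_assoc, ← mul_pow]
    norm_num
  have hmat : ∀ (N : ℕ) (z : Fin N → ℝ),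
      (Matrix.of fun i j : Fin N => (-1 : ℝ) ^ (j : ℕ) * sy f 0 (j : ℕ) (z i)) =
        Matrix.of fun i j : Fin N => iteratedDeriv (j : ℕ) f (z i) := by
    intro N z
    ext i j
    simp only [Matrix.of_apply]
    exact hz _ _
  have hpos : ∀ l, l < n → ∀ t, 0 < sy f (0 + l) 0 t := by
    intro l hl t
    rw [zero_add]
    rcases Nat.eq_zero_or_pos l with h0 | h0
    · rw [h0, hf0]; exact hC.pos t
    · rw [hto l h0 hl.le]; exact hC.tod l h0 hl t
  constructor
  · intro N hN1 hNn z hanti
    have h1 := hSZ f N hN1 0 1 Set.univ Set.ordConnected_univ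
      (fun l hl j => by rw [zero_add]; exact hsm l (by omega) j)
      (fun l hl t => hpos l (by omega) t)
      (fun t _ => by
        rw [one_mul]
        exact hpos (N - 1) (by omega) t) z hanti (fun i => Set.mem_univ _)
    rw [hmat, one_mul] at h1
    exact h1
  · intro σ J hJ hs z hanti hzJ
    have h1 := hSZ f (n + 1) (by omega) 0 σ J hJ
      (fun l hl j => by rw [zero_add]; exact hsm l (by omega) j)
      (fun l hl t => hpos l (by omega) t)
      (fun t ht => by
        have e : 0 + (n + 1 - 1) = n := by omega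
        rw [e, hto n hn le_rfl]
        exact hs t ht) z hanti hzJ
    rw [hmat] at h1
    exact h1

end TWP.P
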