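import Pool.Agent.TWP.StT

/-! TWP, block P, module EC: positive Wronskians give positive collocation determinants. -/

namespace TWP.P

open Filter Topology
open scoped ContDiff

theorem t_EC (hRD : S_RD) (hSM : S_SM) (hWR : S_WR) : S_EC := by
  intro m hm
  induction m, hm using Nat.le_induction with
  | base =>
    intro u σ I _ _ _ hσ x _ hI
    have h1 := hσ (x 0) (hI 0)
    have e1 : wr 1 u (x 0) = u 0 (x 0) := by
      simp [wr]
    have e2 : co 1 u x = u 0 (x 0) := by
      simp [co]
    rw [e2, ← e1]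
    exact h1
  | succ m hm ih =>
    intro u σ I hoc hsm hpos hσ x hx hI
    have e1 : ∀ t, wr 1 u t = u 0 t := by
      intro t
      simp [wr]
    have hu0 : ∀ t, 0 < u 0 t := by
      intro t
      have := hpos 1 le_rfl (by omega) t
      rwa [e1 t] at this
    obtain ⟨ξ, hξ, hbt, c, hc, hco⟩ := hRD m u x hx hsm hu0
    have hsm' := hSM u hsm hu0
    have hwr : ∀ k t, wr (k + 1) u t = u 0 t ^ (k + 1) * wr k (red u) t :=
      fun k t => hWR k u hsm hu0 t
    have hpos' : ∀ k, 1 ≤ k → k < m → ∀ t, 0 < wr k (red u) t := by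
      intro k hk hkm t
      have h1 := hpos (k + 1) (by omega) (by omega) t
      rw [hwr k t] at h1
      exact (mul_pos_iff_of_pos_left (pow_pos (hu0 t) (k + 1))).1 h1
    have hσ' : ∀ t ∈ I, 0 < σ * wr m (red u) t := by
      intro t ht
      have h1 := hσ t ht
      rw [hwr m t] at h1
      have h2 : σ * (u 0 t ^ (m + 1) * wr m (red u) t) =
          u 0 t ^ (m + 1) * (σ * wr m (red u) t) := by ring
      rw [h2] at h1
      exact (mul_pos_iff_of_pos_left (pow_pos (hu0 t) (m + 1))).1 h1
    have hξI : ∀ i, ξ i ∈ I := by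
      intro i
      exact hoc.out (hI i.castSucc) (hI i.succ) ⟨(hbt i).1.le, (hbt i).2.le⟩
    have h1 := ih (red u) σ I hoc hsm' hpos' hσ' ξ hξ hξI
    rw [hco]
    have h2 : σ * (c * co m (red u) ξ) = c * (σ * co m (red u) ξ) := by ring
    rw [h2]
    exact mul_pos hc h1

end TWP.P
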