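import Pool.Agent.TWP.StT

/-! TWP, block P, module RD: one reduction step for collocation determinants. -/

namespace TWP.P

open Filter Topology
open scoped ContDiff

/-- The determinant of a matrix with first column `1` is the determinant of the differences of
consecutive rows. -/
theorem det_diff_rows (m : ℕ) (A : Matrix (Fin (m + 1)) (Fin (m + 1)) ℝ) (h1 : ∀ i, A i 0 = 1) :
    A.det = (Matrix.of fun i j : Fin m => A i.succ j.succ - A i.castSucc j.succ).det := by
  set B : Matrix (Fin (m + 1)) (Fin (m + 1)) ℝ :=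
    Matrix.of fun i j => Fin.cases (motive := fun _ => ℝ) (A 0 j)
      (fun i' : Fin m => A i'.succ j - A i'.castSucc j) i with hB
  have hB0 : ∀ j, B 0 j = A 0 j := fun j => rfl
  have hBs : ∀ (i : Fin m) (j), B i.succ j = A i.succ j - A i.castSucc j := fun i j => rfl
  have hAB : A.det = B.det := by
    refine Matrix.det_eq_of_forall_row_eq_smul_add_pred (fun _ => (1 : ℝ)) ?_ ?_
    · intro j
      rw [hB0]
    · intro i j
      rw [hBs]
      ring
  rw [hAB, Matrix.det_succ_column_zero, Fin.sum_univ_succ]
  have h0 : ∀ i : Fin m, (-1 : ℝ) ^ ((i.succ : Fin (m + 1)) : ℕ) * B i.succ 0 *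
      (B.submatrix i.succ.succAbove Fin.succ).det = 0 := by
    intro i
    rw [hBs, h1, h1]
    ring
  rw [Finset.sum_eq_zero (fun i _ => h0 i), hB0, h1]
  have hsub : B.submatrix (Fin.succAbove 0) Fin.succ =
      (Matrix.of fun i j : Fin m => A i.succ j.succ - A i.castSucc j.succ) := by
    ext i j
    rw [Matrix.submatrix_apply, Fin.succAbove_zero, hBs]
    rfl
  rw [hsub]
  simp

/-- RD: one reduction step. -/
theorem t_RD (hMV : S_MV) : S_RD := by
  intro m u x hx hu hpos
  have hdiff : ∀ j : ℕ, Differentiable ℝ (fun s => u (j + 1) s / u 0 s) := by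
    intro j
    exact ((hu (j + 1)).differentiable (by simp)).div ((hu 0).differentiable (by simp))
      (fun t => (hpos t).ne')
  obtain ⟨ξ, hξ, hdet⟩ := hMV m (fun j t => u ((j : ℕ) + 1) t / u 0 t)
    (fun j t => red u (j : ℕ) t) x hx (fun j t => (hdiff (j : ℕ) t).hasDerivAt)
  refine ⟨ξ, ?_, hξ, (∏ i : Fin (m + 1), u 0 (x i)) *
    (∏ i : Fin m, (x i.succ - x i.castSucc)), ?_, ?_⟩
  · intro i j hij
    have h1 := (hξ i).2
    have h2 := (hξ j).1
    have h3 : x i.succ ≤ x j.castSucc := by
      apply hx.monotone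
      rw [Fin.le_def]
      have : (i : ℕ) < (j : ℕ) := hij
      simp only [Fin.val_succ, Fin.val_castSucc]
      omega
    linarith
  · apply mul_pos
    · exact Finset.prod_pos (fun i _ => hpos (x i))
    · refine Finset.prod_pos (fun i _ => ?_)
      have := hx (Fin.castSucc_lt_succ (i := i))
      linarith
  · have h1 : co (m + 1) u x = (∏ i : Fin (m + 1), u 0 (x i)) *
        (Matrix.of fun i j : Fin (m + 1) => u (j : ℕ) (x i) / u 0 (x i)).det := by
      unfold co
      rw [← Matrix.det_mul_column]
      refine congrArg Matrix.det ?_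
      ext i j
      simp only [Matrix.of_apply]
      have := (hpos (x i)).ne'
      field_simp
    have h2 := det_diff_rows m
      (Matrix.of fun i j : Fin (m + 1) => u (j : ℕ) (x i) / u 0 (x i))
      (fun i => div_self (hpos (x i)).ne')
    rw [h1, h2]
    have h3 : (Matrix.of fun i j : Fin m =>
        (Matrix.of fun i j : Fin (m + 1) => u (j : ℕ) (x i) / u 0 (x i)) i.succ j.succ -
        (Matrix.of fun i j : Fin (m + 1) => u (j : ℕ) (x i) / u 0 (x i)) i.castSucc j.succ) =
        (Matrix.of fun i j : Fin m => u ((j : ℕ) + 1) (x i.succ) / u 0 (x i.succ) -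
          u ((j : ℕ) + 1) (x i.castSucc) / u 0 (x i.castSucc)) := by
      ext i j
      rfl
    rw [h3]
    unfold co
    rw [mul_assoc]
    exact congrArg _ hdet

end TWP.P
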