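import Pool.Agent.TWP.StT

/-! TWP_P_SM: smoothness of the reduced system. -/

namespace TWP.P
open Filter Topology
open scoped ContDiff

theorem t_SM : S_SM := by
  intro u hu hpos j
  have h1 : ContDiff ℝ ∞ (fun s => u (j + 1) s / u 0 s) :=
    (hu (j + 1)).div (hu 0) (fun t => (hpos t).ne')
  exact (contDiff_infty_iff_deriv.1 h1).2

end TWP.P
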