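import Pool.Agent.TWP.StT

/-! TWP_P_SY: the reduced system of f starts with the Toda chain. -/

namespace TWP.P
open Filter Topology
open scoped ContDiff

/-- quotient `sy f k j / sy f k 0` -/
noncomputable def syP (f : ℝ → ℝ) (k j : ℕ) : ℝ → ℝ := fun s => sy f k j s / sy f k 0 s

noncomputable def syQ (f : ℝ → ℝ) : ℕ → ℕ → ℝ → ℝ
  | 0 => fun _ _ => 0
  | k + 1 => fun j => syP f k j

structure SyInv (f m : ℝ → ℝ) (k : ℕ) : Prop where
  sm : ∀ j, ContDiff ℝ ∞ (sy f k j)
  pos : ∀ t, 0 < sy f k 0 t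
  dp : ∀ j t, HasDerivAt (syP f k j)
    (-(syP f k (j + 1) t) + (syP f k 1 t - syQ f k 1 t) * syP f k j t + syQ f k (j + 1) t) t
  dq : ∀ j t, HasDerivAt (syQ f k (j + 1)) (toda m k t * syP f k j t) t
  tod : 1 ≤ k → ∀ t, sy f k 0 t = toda m k t
  lg : 1 ≤ k → ∃ g : ℝ → ℝ, (∀ t, deriv (toda m k) t / toda m k t = - syP f k 1 t + g t) ∧
    ∀ t, HasDerivAt g (2 * toda m k t - toda m (k - 1) t) t

theorem sy_succ (f : ℝ → ℝ) (k j : ℕ) : sy f (k + 1) j = deriv (syP f k (j + 1)) := rfl

theorem syInv_zero {f m : ℝ → ℝ} (hf : ContDiff ℝ ∞ f) (hpos : ∀ t, 0 < f t) : SyInv f m 0 := by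
  have hid : ∀ j : ℕ, ContDiff ℝ ∞ (iteratedDeriv j f) := by
    intro j
    rw [iteratedDeriv_eq_iterate]
    exact hf.iterate_deriv j
  have h0 : ∀ t, sy f 0 0 t = f t := by
    intro t; simp [sy]
  have hsm : ∀ j, ContDiff ℝ ∞ (sy f 0 j) := by
    intro j
    exact contDiff_const.mul (hid j)
  have hd : ∀ j t, HasDerivAt (sy f 0 j) (-(sy f 0 (j + 1) t)) t := by
    intro j t
    have h1 : HasDerivAt (iteratedDeriv j f) (iteratedDeriv (j + 1) f t) t := by
      rw [iteratedDeriv_succ]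
      exact ((hid j).differentiable (by simp) t).hasDerivAt
    have h2 := h1.const_mul ((-1 : ℝ) ^ j)
    have e : (-1 : ℝ) ^ j * iteratedDeriv (j + 1) f t = -(sy f 0 (j + 1) t) := by
      simp only [sy, pow_succ]; ring
    rw [e] at h2
    exact h2
  have hp0 : ∀ t, 0 < sy f 0 0 t := fun t => by rw [h0]; exact hpos t
  refine ⟨hsm, hp0, ?_, ?_, ?_, ?_⟩
  · intro j t
    have h1 := (hd j t).div (hd 0 t) (hp0 t).ne'
    have e : (-(sy f 0 (j + 1) t) * sy f 0 0 t - sy f 0 j t * -(sy f 0 (0 + 1) t)) / sy f 0 0 t ^ 2 =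
        (-(syP f 0 (j + 1) t) + (syP f 0 1 t - syQ f 0 1 t) * syP f 0 j t + syQ f 0 (j + 1) t) := by
      have := (hp0 t).ne'
      simp only [syP, syQ]
      field_simp
      ring
    rw [e] at h1
    exact h1
  · intro j t
    have : toda m 0 t * syP f 0 j t = 0 := by simp [toda]
    rw [this]
    exact hasDerivAt_const t (0 : ℝ)
  · intro h; omega
  · intro h; omega

theorem syStep {f m : ℝ → ℝ} {k : ℕ} (hf : ∀ t, HasDerivAt f (m t * f t) t) (hfp : ∀ t, 0 < f t)
    (H : SyInv f m k) :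
    (∀ j, ContDiff ℝ ∞ (sy f (k + 1) j)) ∧ (∀ t, sy f (k + 1) 0 t = toda m (k + 1) t) ∧
    ((∀ t, 0 < toda m (k + 1) t) → SyInv f m (k + 1)) := by
  have hsmP : ∀ j, ContDiff ℝ ∞ (syP f k j) := fun j =>
    (H.sm j).div (H.sm 0) (fun t => (H.pos t).ne')
  have hsm : ∀ j, ContDiff ℝ ∞ (sy f (k + 1) j) := by
    intro j
    rw [sy_succ]
    exact (contDiff_infty_iff_deriv.1 (hsmP (j + 1))).2
  have hdP : ∀ j t, HasDerivAt (syP f k (j + 1)) (sy f (k + 1) j t) t := by
    intro j t
    rw [sy_succ]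
    exact ((hsmP (j + 1)).differentiable (by simp) t).hasDerivAt
  have hval : ∀ j t, sy f (k + 1) j t =
      -(syP f k (j + 2) t) + (syP f k 1 t - syQ f k 1 t) * syP f k (j + 1) t + syQ f k (j + 2) t := by
    intro j t
    exact (hdP j t).unique (H.dp (j + 1) t)
  have hp0 : ∀ t, syP f k 0 t = 1 := fun t => div_self (H.pos t).ne'
  have hd : ∀ j t, HasDerivAt (sy f (k + 1) j)
      (-(sy f (k + 1) (j + 1) t) + sy f (k + 1) 0 t * syP f k (j + 1) t +
        (syP f k 1 t - syQ f k 1 t) * sy f (k + 1) j t) t := by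
    intro j t
    have h1 := (((hdP (j + 1) t).neg).add
      (((hdP 0 t).sub (H.dq 0 t)).mul (hdP j t))).add (H.dq (j + 1) t)
    have e2 : -(sy f (k + 1) (j + 1) t) + ((sy f (k + 1) 0 t - toda m k t * syP f k 0 t) *
        syP f k (j + 1) t + (syP f k (0 + 1) t - syQ f k (0 + 1) t) * sy f (k + 1) j t) +
        toda m k t * syP f k (j + 1) t =
        (-(sy f (k + 1) (j + 1) t) + sy f (k + 1) 0 t * syP f k (j + 1) t +
        (syP f k 1 t - syQ f k 1 t) * sy f (k + 1) j t) := by
      rw [hp0]; ring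
    rw [← e2]
    exact h1.congr_of_eventuallyEq (Filter.Eventually.of_forall (hval j))
  have htod : ∀ t, sy f (k + 1) 0 t = toda m (k + 1) t := by
    rcases Nat.eq_zero_or_pos k with hk | hk
    · subst hk
      have hP : syP f 0 1 = fun t => - m t := by
        funext t
        have hft : deriv f t = m t * f t := (hf t).deriv
        simp only [syP, sy, pow_one, pow_zero, one_mul, iteratedDeriv_one, iteratedDeriv_zero, hft]
        have := (hfp t).ne'
        field_simp
      intro t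
      rw [sy_succ]
      show deriv (syP f 0 1) t = _
      rw [hP]
      simp [toda]
    · obtain ⟨g, hg1, hg2⟩ := H.lg hk
      obtain ⟨k', rfl⟩ : ∃ k', k = k' + 1 := ⟨k - 1, by omega⟩
      intro t
      have h1 : (fun s => deriv (toda m (k' + 1)) s / toda m (k' + 1) s) =
          fun s => - syP f (k' + 1) 1 s + g s := funext hg1
      have h2 : HasDerivAt (fun s => deriv (toda m (k' + 1)) s / toda m (k' + 1) s)
          (-(sy f (k' + 1 + 1) 0 t) + (2 * toda m (k' + 1) t - toda m (k' + 1 - 1) t)) t := by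
        rw [h1]
        exact ((hdP 0 t).neg).add (hg2 t)
      show _ = 2 * toda m (k' + 1) t - toda m k' t -
        deriv (fun s => deriv (toda m (k' + 1)) s / toda m (k' + 1) s) t
      rw [h2.deriv]
      simp only [Nat.add_sub_cancel]
      ring
  refine ⟨hsm, htod, ?_⟩
  intro hpos
  have hps : ∀ t, 0 < sy f (k + 1) 0 t := fun t => by rw [htod]; exact hpos t
  refine ⟨hsm, hps, ?_, ?_, ?_, ?_⟩
  · intro j t
    have h1 := (hd j t).div (hd 0 t) (hps t).ne'
    have e : ((-(sy f (k + 1) (j + 1) t) + sy f (k + 1) 0 t * syP f k (j + 1) t +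
        (syP f k 1 t - syQ f k 1 t) * sy f (k + 1) j t) * sy f (k + 1) 0 t -
        sy f (k + 1) j t * (-(sy f (k + 1) (0 + 1) t) + sy f (k + 1) 0 t * syP f k (0 + 1) t +
        (syP f k 1 t - syQ f k 1 t) * sy f (k + 1) 0 t)) / sy f (k + 1) 0 t ^ 2 =
        (-(syP f (k + 1) (j + 1) t) + (syP f (k + 1) 1 t - syQ f (k + 1) 1 t) * syP f (k + 1) j t +
          syQ f (k + 1) (j + 1) t) := by
      have h0 := (hps t).ne'
      have q1 : syQ f (k + 1) 1 t = syP f k 1 t := rfl
      have q2 : syQ f (k + 1) (j + 1) t = syP f k (j + 1) t := rfl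
      rw [q1, q2]
      have r1 : syP f (k + 1) (j + 1) t = sy f (k + 1) (j + 1) t / sy f (k + 1) 0 t := rfl
      have r2 : syP f (k + 1) 1 t = sy f (k + 1) 1 t / sy f (k + 1) 0 t := rfl
      have r3 : syP f (k + 1) j t = sy f (k + 1) j t / sy f (k + 1) 0 t := rfl
      rw [r1, r2, r3]
      field_simp
      ring
    rw [e] at h1
    exact h1
  · intro j t
    have e : toda m (k + 1) t * syP f (k + 1) j t = sy f (k + 1) j t := by
      rw [← htod]
      show sy f (k + 1) 0 t * (sy f (k + 1) j t / sy f (k + 1) 0 t) = _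
      have h0 := (hps t).ne'
      field_simp
    rw [e]
    exact hdP j t
  · intro _ t
    exact htod t
  · intro _
    refine ⟨fun t => 2 * syP f k 1 t - syQ f k 1 t, ?_, ?_⟩
    · intro t
      have e1 : toda m (k + 1) = sy f (k + 1) 0 := (funext htod).symm
      rw [e1, (hd 0 t).deriv]
      have h0 := (hps t).ne'
      have r2 : syP f (k + 1) 1 t = sy f (k + 1) 1 t / sy f (k + 1) 0 t := rfl
      rw [r2]
      simp only [Nat.zero_add]
      field_simp
      ring
    · intro t
      have h1 := ((hdP 0 t).const_mul 2).sub (H.dq 0 t)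
      have e : 2 * sy f (k + 1) 0 t - toda m k t * syP f k 0 t =
          2 * toda m (k + 1) t - toda m (k + 1 - 1) t := by
        rw [hp0, htod]; simp
      rw [e] at h1
      exact h1

theorem t_SY (_hSM : S_SM) : S_SY := by
  intro f m n h
  have hinv : ∀ k, k < n → SyInv f m k := by
    intro k
    induction k with
    | zero => intro _; exact syInv_zero h.smf h.pos
    | succ k ih =>
      intro hk
      exact (syStep h.der h.pos (ih (by omega))).2.2 (h.tod (k + 1) (by omega) hk)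
  have hz : SyInv f m 0 := syInv_zero h.smf h.pos
  refine ⟨?_, ?_, ?_⟩
  · intro k hk
    rcases Nat.eq_zero_or_pos k with h0 | h0
    · subst h0; exact hz.sm
    · obtain ⟨k', rfl⟩ : ∃ k', k = k' + 1 := ⟨k - 1, by omega⟩
      exact (syStep h.der h.pos (hinv k' (by omega))).1
  · intro t; simp [sy]
  · intro k hk1 hk
    obtain ⟨k', rfl⟩ : ∃ k', k = k' + 1 := ⟨k - 1, by omega⟩
    exact (syStep h.der h.pos (hinv k' (by omega))).2.1
end TWP.P
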