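import Pool.Agent.TWP.StT

set_option autoImplicit false

/-! TWP, module P SZ: collocation of a reduced system at decreasing points. -/

namespace TWP.P

open Filter Topology
open scoped ContDiff

/-- the reflected system -/
noncomputable def SZu (f : ℝ → ℝ) (k : ℕ) : ℕ → ℝ → ℝ := fun j y => (-1) ^ j * sy f k j (-y)

theorem SZ_red (f : ℝ → ℝ) (k j : ℕ) (y : ℝ) :
    red (SZu f k) j y = (-1) ^ j * sy f (k + 1) j (-y) := by
  unfold red SZu
  have e1 : (fun s => (-1 : ℝ) ^ (j + 1) * sy f k (j + 1) (-s) / ((-1) ^ 0 * sy f k 0 (-s))) =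
      fun s => (-1 : ℝ) ^ (j + 1) * (fun v => sy f k (j + 1) v / sy f k 0 v) (-s) := by
    funext s
    simp only [pow_zero, one_mul]
    ring
  have e3 : deriv (fun s => (fun v => sy f k (j + 1) v / sy f k 0 v) (-s)) y =
      - deriv (fun v => sy f k (j + 1) v / sy f k 0 v) (-y) :=
    deriv_comp_neg (fun v => sy f k (j + 1) v / sy f k 0 v) y
  rw [e1, deriv_const_mul_field, e3]
  have e2 : sy f (k + 1) j (-y) = deriv (fun v => sy f k (j + 1) v / sy f k 0 v) (-y) := rfl
  rw [e2, pow_succ]
  ring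

theorem SZ_co (f : ℝ → ℝ) (k N : ℕ) (z : Fin N → ℝ) :
    co N (SZu f k) (fun i => - z i) =
      (Matrix.of fun i j : Fin N => (-1) ^ (j : ℕ) * sy f k (j : ℕ) (z i)).det := by
  unfold co SZu
  simp only [neg_neg]

theorem t_SZ (hRD : S_RD) : S_SZ := by
  intro f N hN
  induction N, hN using Nat.le_induction with
  | base =>
    intro k σ J hJ hsm hpos hs z hz hzJ
    have h1 := hs (z 0) (hzJ 0)
    rw [Matrix.det_unique]
    simpa using h1
  | succ N hN ih =>
    intro k σ J hJ hsm hpos hs z hz hzJ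
    have hx : StrictMono (fun i => - z i) := fun a b hab => neg_lt_neg (hz hab)
    have hu : ∀ j, ContDiff ℝ ∞ (SZu f k j) := by
      intro j
      unfold SZu
      exact contDiff_const.mul ((hsm 0 (Nat.succ_pos N) j).comp contDiff_neg)
    have hu0 : ∀ t, 0 < SZu f k 0 t := by
      intro t
      unfold SZu
      rw [pow_zero, one_mul]
      exact hpos 0 (by omega) (-t)
    obtain ⟨ξ, hξ, hbt, c, hc, hco⟩ := hRD N (SZu f k) (fun i => - z i) hx hu hu0
    rw [SZ_co] at hco
    rw [hco]
    have e1 : co N (red (SZu f k)) ξ =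
        (Matrix.of fun i j : Fin N => (-1) ^ (j : ℕ) * sy f (k + 1) (j : ℕ) (- ξ i)).det := by
      unfold co
      congr 1
      funext i j
      rw [Matrix.of_apply, Matrix.of_apply, SZ_red]
    rw [e1]
    have h2 := ih (k + 1) σ J hJ
      (fun l hl j => by
        have h3 := hsm (l + 1) (by omega) j
        rwa [show k + (l + 1) = k + 1 + l by omega] at h3)
      (fun l hl t => by
        have h3 := hpos (l + 1) (by omega) t
        rwa [show k + (l + 1) = k + 1 + l by omega] at h3)
      (fun t ht => by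
        have h3 := hs t ht
        rwa [show k + (N + 1 - 1) = k + 1 + (N - 1) by omega] at h3)
      (fun i => - ξ i) (fun a b hab => neg_lt_neg (hξ hab))
      (fun i => by
        obtain ⟨h4, h5⟩ := hbt i
        exact hJ.out (hzJ i.succ) (hzJ i.castSucc) ⟨by linarith, by linarith⟩)
    have e2 : σ * (c * (Matrix.of fun i j : Fin N =>
        (-1) ^ (j : ℕ) * sy f (k + 1) (j : ℕ) (- ξ i)).det) =
        c * (σ * (Matrix.of fun i j : Fin N =>
        (-1) ^ (j : ℕ) * sy f (k + 1) (j : ℕ) (- ξ i)).det) := by ring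
    rw [e2]
    exact mul_pos hc h2

end TWP.P
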