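import Pool.Agent.TWP.StT

/-! Module TWP_P_TF (helper64): the Toda chain decides the Polya frequency order. -/

set_option autoImplicit false

namespace TWP.P

open Filter Topology
open scoped ContDiff

theorem t_T1 (hTT : S_TT) : S_T1 := by
  intro f m n hn h
  refine ⟨h.smf.continuous.measurable, ?_⟩
  intro N hN1 hNn x y hx hy
  exact ((hTT f m n hn h).1 N hN1 hNn x y hx hy).le

theorem t_T2 (hTT : S_TT) (hSY : S_SY) : S_T2 := by
  intro f m n hn h t0 ht0 hPF
  obtain ⟨hsm, -, hsy⟩ := hSY f m n h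
  have hcont : Continuous (toda m n) := by
    have h1 : toda m n = sy f n 0 := by
      funext t
      exact (hsy n hn le_rfl t).symm
    rw [h1]
    exact (hsm n le_rfl 0).continuous
  have hnhds : {t | toda m n t < 0} ∈ 𝓝 t0 := (isOpen_lt hcont continuous_const).mem_nhds ht0
  obtain ⟨δ, hδ, hball⟩ := Metric.mem_nhds_iff.1 hnhds
  set η : ℝ := δ / ((n : ℝ) + 2) with hη
  have hn2 : (0 : ℝ) < (n : ℝ) + 2 := by positivity
  have hη0 : 0 < η := by positivity
  have hηn : (n : ℝ) * η < δ := by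
    rw [hη, mul_div_assoc', div_lt_iff₀ hn2]
    nlinarith
  have hJ : ∀ t ∈ Set.Ioo (t0 - δ) (t0 + δ), 0 < (-1 : ℝ) * toda m n t := by
    intro t ht
    have h1 : t ∈ Metric.ball t0 δ := by
      rw [Real.ball_eq_Ioo]
      exact ht
    have h2 : toda m n t < 0 := hball h1
    linarith
  have hmono : ∀ c : ℝ, StrictMono (fun i : Fin (n + 1) => c + ((i : ℕ) : ℝ) * η) := by
    intro c i j hij
    have h1 : ((i : ℕ) : ℝ) < ((j : ℕ) : ℝ) := by exact_mod_cast hij
    have h2 := mul_lt_mul_of_pos_right h1 hη0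
    show c + _ < c + _
    linarith
  have hx := hmono t0
  have hy : StrictMono (fun i : Fin (n + 1) => ((i : ℕ) : ℝ) * η) := by
    have := hmono 0
    simpa using this
  have hmem : ∀ i j : Fin (n + 1), (t0 + ((i : ℕ) : ℝ) * η) - ((j : ℕ) : ℝ) * η ∈
      Set.Ioo (t0 - δ) (t0 + δ) := by
    intro i j
    have hi : ((i : ℕ) : ℝ) ≤ n := by exact_mod_cast Nat.lt_succ_iff.1 i.2
    have hj : ((j : ℕ) : ℝ) ≤ n := by exact_mod_cast Nat.lt_succ_iff.1 j.2
    have hi0 : (0 : ℝ) ≤ ((i : ℕ) : ℝ) := by positivity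
    have hj0 : (0 : ℝ) ≤ ((j : ℕ) : ℝ) := by positivity
    have h1 := mul_le_mul_of_nonneg_right hi hη0.le
    have h2 := mul_le_mul_of_nonneg_right hj hη0.le
    have h3 := mul_nonneg hi0 hη0.le
    have h4 := mul_nonneg hj0 hη0.le
    constructor <;> linarith
  have hneg := (hTT f m n hn h).2 (-1) (Set.Ioo (t0 - δ) (t0 + δ)) Set.ordConnected_Ioo hJ
    (fun i : Fin (n + 1) => t0 + ((i : ℕ) : ℝ) * η) (fun i : Fin (n + 1) => ((i : ℕ) : ℝ) * η)
    hx hy hmem
  have hpos := hPF.2 (n + 1) (by omega) le_rfl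
    (fun i : Fin (n + 1) => t0 + ((i : ℕ) : ℝ) * η) (fun i : Fin (n + 1) => ((i : ℕ) : ℝ) * η)
    hx hy
  linarith

end TWP.P
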