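import Mathlib
import Pool.Agent.TWP.StT

set_option autoImplicit false

/-! TWP: module P_TT. -/

namespace TWP.P

open Filter Topology
open scoped ContDiff

/-- the translates of `f`, continued by the constant `1` -/
noncomputable def tt_u (f : ℝ → ℝ) (N : ℕ) (y : Fin N → ℝ) : ℕ → ℝ → ℝ := fun j x =>
  if h : j < N then f (x - y ⟨j, h⟩) else 1

theorem tt_u_of_lt (f : ℝ → ℝ) (N : ℕ) (y : Fin N → ℝ) (j : ℕ) (h : j < N) :
    tt_u f N y j = fun x => f (x - y ⟨j, h⟩) := by
  funext x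
  simp [tt_u, h]

theorem tt_u_smooth (f : ℝ → ℝ) (N : ℕ) (y : Fin N → ℝ) (hf : ContDiff ℝ ∞ f) (j : ℕ) :
    ContDiff ℝ ∞ (tt_u f N y j) := by
  by_cases h : j < N
  · rw [tt_u_of_lt f N y j h]
    exact hf.comp (contDiff_id.sub contDiff_const)
  · have : tt_u f N y j = fun _ => (1 : ℝ) := by
      funext x
      simp [tt_u, h]
    rw [this]
    exact contDiff_const

theorem tt_wr (f : ℝ → ℝ) (N k : ℕ) (hk : k ≤ N) (y : Fin N → ℝ) (x : ℝ) :
    wr k (tt_u f N y) x =
      (Matrix.of fun i j : Fin k => iteratedDeriv (j : ℕ) f (x - y (Fin.castLE hk i))).det := by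
  rw [wr, ← Matrix.det_transpose]
  congr 1
  ext i j
  have hi : (i : ℕ) < N := lt_of_lt_of_le i.2 hk
  rw [Matrix.transpose_apply, Matrix.of_apply, Matrix.of_apply, tt_u_of_lt f N y i hi,
    iteratedDeriv_comp_sub_const]
  rfl

theorem tt_co (f : ℝ → ℝ) (N : ℕ) (y x : Fin N → ℝ) :
    co N (tt_u f N y) x = (Matrix.of fun i j : Fin N => f (x i - y j)).det := by
  rw [co]
  congr 1
  ext i j
  rw [Matrix.of_apply, Matrix.of_apply, tt_u_of_lt f N y j j.2]

theorem tt_anti (N k : ℕ) (hk : k ≤ N) (y : Fin N → ℝ) (hy : StrictMono y) (x : ℝ) :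
    StrictAnti (fun i : Fin k => x - y (Fin.castLE hk i)) := by
  intro i j hij
  have h0 : Fin.castLE hk i < Fin.castLE hk j := by
    rw [Fin.lt_def] at hij ⊢
    exact hij
  have : y (Fin.castLE hk i) < y (Fin.castLE hk j) := hy h0
  show x - y (Fin.castLE hk j) < x - y (Fin.castLE hk i)
  linarith

theorem t_TT (hDD : S_DD) (hEC : S_EC) : S_TT := by
  intro f m n hn hch
  obtain ⟨hA, hB⟩ := hDD f m n hn hch
  have hwr : ∀ (N : ℕ) (y : Fin N → ℝ), StrictMono y → ∀ k, 1 ≤ k → k ≤ N → k ≤ n → ∀ t,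
      0 < wr k (tt_u f N y) t := by
    intro N y hy k hk1 hkN hkn t
    rw [tt_wr f N k hkN y t]
    exact hA k hk1 hkn _ (tt_anti N k hkN y hy t)
  constructor
  · intro N hN1 hNn x y hx hy
    have := hEC N hN1 (tt_u f N y) 1 Set.univ Set.ordConnected_univ (tt_u_smooth f N y hch.smf)
      (fun k hk1 hkN t => hwr N y hy k hk1 hkN.le (by omega) t)
      (fun t _ => by rw [one_mul]; exact hwr N y hy N hN1 le_rfl hNn t)
      x hx (fun i => Set.mem_univ _)
    rw [one_mul, tt_co] at this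
    exact this
  · intro σ J hJ hσ x y hx hy hxy
    have hI : Set.OrdConnected {t : ℝ | ∀ j : Fin (n + 1), t - y j ∈ J} := by
      refine ⟨fun a ha b hb c hc j => hJ.out (ha j) (hb j) ⟨?_, ?_⟩⟩
      · linarith [hc.1]
      · linarith [hc.2]
    have := hEC (n + 1) (by omega) (tt_u f (n + 1) y) σ
      {t : ℝ | ∀ j : Fin (n + 1), t - y j ∈ J} hI (tt_u_smooth f (n + 1) y hch.smf)
      (fun k hk1 hkN t => hwr (n + 1) y hy k hk1 hkN.le (by omega) t)
      (fun t ht => by
        rw [tt_wr f (n + 1) (n + 1) le_rfl y t]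
        exact hB σ J hJ hσ _ (tt_anti (n + 1) (n + 1) le_rfl y hy t) (fun i => ht _))
      x hx (fun i j => hxy i j)
    rw [tt_co] at this
    exact this

end TWP.P
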