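import Pool.Agent.TWP.StT

/-! TWP, module WC (helper37): the Wronskian of `1, h 1, …, h m`. -/

namespace TWP.P

namespace WCaux

theorem iter_one (h : ℝ → ℝ) (h1 : ∀ t, h t = 1) (i : ℕ) (x : ℝ) :
    iteratedDeriv (i + 1) h x = 0 := by
  have h2 : h = fun _ => (1 : ℝ) := funext h1
  rw [h2, iteratedDeriv_succ', deriv_const']
  induction i with
  | zero => rw [iteratedDeriv_zero]
  | succ i ih =>
    rw [iteratedDeriv_succ', deriv_const']
    exact ih

end WCaux

theorem t_WC : S_WC := by
  intro m h h0 x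
  unfold wr
  rw [Matrix.det_succ_column_zero, Fin.sum_univ_succ, Finset.sum_eq_zero, add_zero]
  · have e1 : (Matrix.of fun i j : Fin (m + 1) =>
        iteratedDeriv (i : ℕ) (h (j : ℕ)) x) 0 0 = 1 := by
      rw [Matrix.of_apply, Fin.val_zero, iteratedDeriv_zero, h0]
    rw [e1, Fin.val_zero, pow_zero, one_mul, one_mul]
    congr 1
    ext i j
    rw [Matrix.submatrix_apply, Matrix.of_apply, Matrix.of_apply, Fin.zero_succAbove,
      Fin.val_succ, Fin.val_succ, iteratedDeriv_succ']
  · intro i _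
    have e2 : (Matrix.of fun i j : Fin (m + 1) =>
        iteratedDeriv (i : ℕ) (h (j : ℕ)) x) i.succ 0 = 0 := by
      rw [Matrix.of_apply, Fin.val_zero, Fin.val_succ]
      exact WCaux.iter_one (h 0) h0 i x
    rw [e2, mul_zero, zero_mul]

end TWP.P
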