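import Pool.Agent.TWP.StT

set_option autoImplicit false

/-! Leibniz rule for Wronskians. -/

namespace TWP.P

open Filter Topology
open scoped ContDiff

theorem t_WL : S_WL := by
  intro m g h hg hh x
  unfold wr
  have key : (Matrix.of fun i j : Fin m => iteratedDeriv (i : ℕ) (fun s => g s * h (j : ℕ) s) x) =
      (Matrix.of fun i k : Fin m => if (k : ℕ) ≤ i then
        ((i : ℕ).choose k : ℝ) * iteratedDeriv ((i : ℕ) - k) g x else 0) *
      (Matrix.of fun i j : Fin m => iteratedDeriv (i : ℕ) (h (j : ℕ)) x) := by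
    ext i j
    rw [Matrix.mul_apply]
    simp only [Matrix.of_apply]
    have hL : iteratedDeriv (i : ℕ) (fun s => g s * h (j : ℕ) s) x =
        ∑ k ∈ Finset.range ((i : ℕ) + 1), ((i : ℕ).choose k : ℝ) * iteratedDeriv k (h (j : ℕ)) x *
          iteratedDeriv ((i : ℕ) - k) g x := by
      have he : (fun s => g s * h (j : ℕ) s) = h (j : ℕ) * g := by
        funext s; simp [mul_comm]
      rw [he]
      exact iteratedDeriv_mul ((hh j).contDiffAt.of_le (by exact_mod_cast le_top))
        (hg.contDiffAt.of_le (by exact_mod_cast le_top))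
    rw [hL]
    have hS : ∀ k : Fin m, (if (k : ℕ) ≤ i then
        ((i : ℕ).choose k : ℝ) * iteratedDeriv ((i : ℕ) - k) g x else 0) *
          iteratedDeriv (k : ℕ) (h (j : ℕ)) x = (fun k : ℕ => if k ≤ (i : ℕ) then
            ((i : ℕ).choose k : ℝ) * iteratedDeriv k (h (j : ℕ)) x *
              iteratedDeriv ((i : ℕ) - k) g x else 0) (k : ℕ) := by
      intro k
      by_cases hk : (k : ℕ) ≤ i
      · simp only [hk, if_true]; ring
      · simp only [hk, if_false]; ring
    rw [Finset.sum_congr rfl (fun k _ => hS k)]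
    rw [Fin.sum_univ_eq_sum_range (fun k : ℕ => if k ≤ (i : ℕ) then
            ((i : ℕ).choose k : ℝ) * iteratedDeriv k (h (j : ℕ)) x *
              iteratedDeriv ((i : ℕ) - k) g x else 0) m]
    rw [← Finset.sum_filter]
    apply Finset.sum_congr _ (fun _ _ => rfl)
    ext k
    simp only [Finset.mem_range, Finset.mem_filter]
    have := i.2
    omega
  rw [key, Matrix.det_mul]
  congr 1
  rw [Matrix.det_of_isLowerTriangular]
  · simp [iteratedDeriv_zero]
  · intro i j hij
    have hij' : (i : ℕ) < j := by
      have := hij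
      simpa using this
    simp only [Matrix.of_apply]
    rw [if_neg (by omega)]

end TWP.P
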