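import Pool.Agent.TWP.StT

/-! Module TWP_P_WR (helper91): Wronskian and reduction. -/

set_option autoImplicit false

namespace TWP.P

open scoped ContDiff

theorem t_WR (hWL : S_WL) (hWC : S_WC) : S_WR := by
  intro m u hu hpos x
  have hh : ∀ j, ContDiff ℝ ∞ (fun s => u j s / u 0 s) := fun j =>
    (hu j).div (hu 0) (fun s => (hpos s).ne')
  have e1 : (fun (j : ℕ) (s : ℝ) => u 0 s * (u j s / u 0 s)) = u := by
    funext j s
    have := (hpos s).ne'
    field_simp
  have h1 := hWL (m + 1) (u 0) (fun j s => u j s / u 0 s) (hu 0) hh x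
  rw [e1] at h1
  rw [h1, hWC m (fun j s => u j s / u 0 s) (fun t => div_self (hpos t).ne') x]
  rfl

end TWP.P
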