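import Pool.Agent.TWP.PMV
import Pool.Agent.TWP.PRD
import Pool.Agent.TWP.PSM
import Pool.Agent.TWP.PWL
import Pool.Agent.TWP.PWC
import Pool.Agent.TWP.PWR
import Pool.Agent.TWP.PEC
import Pool.Agent.TWP.PSY
import Pool.Agent.TWP.PSZ
import Pool.Agent.TWP.PDD
import Pool.Agent.TWP.PTT
import Pool.Agent.TWP.PTF

/-! TWP, block P: the Toda chain decides the Polya frequency order (composition). -/

namespace TWP.P

theorem rd : S_RD := t_RD t_MV

theorem sy_all : S_SY := t_SY t_SM

theorem tt : S_TT := t_TT (t_DD sy_all (t_SZ rd)) (t_EC rd t_SM (t_WR t_WL t_WC))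

/-- the positive half -/
theorem T1 : S_T1 := t_T1 tt

/-- the negative half -/
theorem T2 : S_T2 := t_T2 tt sy_all

end TWP.P
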