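import Pool.Agent.TWP.StT

/-!
TWP, module P_MV: mean value theorem for determinants, row by row.
-/

namespace TWP.P

open Filter Topology
open scoped ContDiff

namespace MVAux

theorem row_mv {m : ℕ} (h v : Fin m → ℝ → ℝ) (B : Matrix (Fin m) (Fin m) ℝ) (a : Fin m)
    (p q : ℝ) (hpq : p < q) (hd : ∀ j t, HasDerivAt (h j) (v j t) t)
    (hB : B a = fun j => h j q - h j p) :
    ∃ c : ℝ, p < c ∧ c < q ∧ B.det = (q - p) * (B.updateRow a (fun j => v j c)).det := by
  let L : (Fin m → ℝ) →ₗ[ℝ] ℝ :=
    (Matrix.detRowAlternating (R := ℝ) (n := Fin m)).toMultilinearMap.toLinearMap B a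
  have hL : ∀ w : Fin m → ℝ, L w = (B.updateRow a w).det := fun w => rfl
  let L' : (Fin m → ℝ) →L[ℝ] ℝ := LinearMap.toContinuousLinearMap L
  have hL' : ∀ w : Fin m → ℝ, L' w = (B.updateRow a w).det := fun w => rfl
  have hder : ∀ t : ℝ, HasDerivAt (fun y => L' (fun j => h j y)) (L' (fun j => v j t)) t := by
    intro t
    have h1 : HasDerivAt (fun y : ℝ => fun j : Fin m => h j y) (fun j => v j t) t :=
      hasDerivAt_pi.mpr (fun j => hd j t)
    exact L'.hasFDerivAt.comp_hasDerivAt t h1
  have hcont : ContinuousOn (fun y => L' (fun j => h j y)) (Set.Icc p q) :=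
    fun t _ => (hder t).continuousAt.continuousWithinAt
  obtain ⟨c, hc, hc'⟩ := exists_hasDerivAt_eq_slope (fun y => L' (fun j => h j y))
    (fun t => L' (fun j => v j t)) hpq hcont (fun t _ => hder t)
  refine ⟨c, hc.1, hc.2, ?_⟩
  have hdiff : L' (fun j => h j q) - L' (fun j => h j p) = B.det := by
    rw [← map_sub]
    have : ((fun j => h j q) - fun j => h j p) = B a := by
      rw [hB]; rfl
    rw [this, hL', Matrix.updateRow_eq_self]
  have hqp : (q - p) ≠ 0 := (sub_pos.mpr hpq).ne'
  have hc2 : L' (fun j => v j c) = B.det / (q - p) := by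
    rw [← hdiff]; exact hc'
  rw [← hL', hc2]
  field_simp

end MVAux

theorem t_MV : S_MV := by
  intro m h v x hx hd
  set A : Matrix (Fin m) (Fin m) ℝ :=
    Matrix.of fun i j : Fin m => h j (x i.succ) - h j (x i.castSucc) with hA
  have key : ∀ s : Finset (Fin m), ∃ ξ : Fin m → ℝ,
      (∀ i ∈ s, x i.castSucc < ξ i ∧ ξ i < x i.succ) ∧
      A.det = (∏ i ∈ s, (x i.succ - x i.castSucc)) *
        (Matrix.of fun i j : Fin m => if i ∈ s then v j (ξ i) else A i j).det := by
    intro s
    induction s using Finset.induction_on with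
    | empty =>
      refine ⟨fun _ => 0, by simp, ?_⟩
      have : (Matrix.of fun i j : Fin m =>
          if i ∈ (∅ : Finset (Fin m)) then v j ((fun _ => (0 : ℝ)) i) else A i j) = A := by
        ext i j
        simp
      rw [this]
      simp
    | insert a s ha ih =>
      obtain ⟨ξ, hξ, hdet⟩ := ih
      set B : Matrix (Fin m) (Fin m) ℝ :=
        Matrix.of fun i j : Fin m => if i ∈ s then v j (ξ i) else A i j with hBdef
      have hBa : B a = fun j => h j (x a.succ) - h j (x a.castSucc) := by
        funext j
        simp [hBdef, ha, hA]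
      have hlt : x a.castSucc < x a.succ := hx Fin.castSucc_lt_succ
      obtain ⟨c, hc1, hc2, hc3⟩ := MVAux.row_mv h v B a _ _ hlt hd hBa
      refine ⟨Function.update ξ a c, ?_, ?_⟩
      · intro i hi
        by_cases hia : i = a
        · subst hia
          simp only [Function.update_self]
          exact ⟨hc1, hc2⟩
        · rw [Function.update_of_ne hia]
          exact hξ i (Finset.mem_of_mem_insert_of_ne hi hia)
      · have hnew : (Matrix.of fun i j : Fin m =>
            if i ∈ insert a s then v j (Function.update ξ a c i) else A i j) =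
            B.updateRow a (fun j => v j c) := by
          ext i j
          by_cases hia : i = a
          · subst hia
            simp
          · rw [Matrix.updateRow_ne hia]
            simp [hBdef, hia, Function.update_of_ne hia]
        rw [hnew, Finset.prod_insert ha, hdet, hc3]
        ring
  obtain ⟨ξ, hξ, hdet⟩ := key Finset.univ
  refine ⟨ξ, fun i => hξ i (Finset.mem_univ i), ?_⟩
  have hlast : (Matrix.of fun i j : Fin m =>
      if i ∈ (Finset.univ : Finset (Fin m)) then v j (ξ i) else A i j) =
      Matrix.of fun i j : Fin m => v j (ξ i) := by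
    ext i j
    simp
  rw [hlast] at hdet
  exact hdet

end TWP.P
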