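import Pool.Agent.TWP.StR4

/-! TWP, `β = 4`, module RBJ: the error of `B1`. -/

set_option autoImplicit false

namespace TWP

open PowerSeries Finset Filter Topology
open scoped ContDiff

namespace RBJaux

theorem C2 : (C (2 : ℝ) : ℝ⟦X⟧) = 2 := map_ofNat C 2

/-- the difference of `B1` and its approximation -/
theorem eqB {ξ η E P W U Q R PB DS DP : ℝ⟦X⟧} (hη : ξ * η = 1)
    (hS : ξ * (C (3 / 2 : ℝ) * DS + C (1 / 2 : ℝ) * (P + E)) = (P + E) ^ 2 - 1 - 2 * W)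
    (hP : ξ * (C (3 / 2 : ℝ) * DP + C (1 / 2 : ℝ) * P) = P ^ 2 - 1 + R)
    (hB : ξ * PB = C (1 / 2 : ℝ) * P + C (3 / 2 : ℝ) * DP - C (1 / 2 : ℝ) * Q) :
    η * (C (1 / 2 : ℝ) * (P + E) + C (3 / 2 : ℝ) * DS + W * η - U) - PB =
      η * (η * (C (2 : ℝ) * (P * E) + E * E - W - R) - (U - C (1 / 2 : ℝ) * Q)) := by
  have h1 : C (1 / 2 : ℝ) * (P + E) + C (3 / 2 : ℝ) * DS = η * ((P + E) ^ 2 - 1 - 2 * W) := by
    linear_combination η * hS - (C (3 / 2 : ℝ) * DS + C (1 / 2 : ℝ) * (P + E)) * hη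
  have h2 : C (1 / 2 : ℝ) * P + C (3 / 2 : ℝ) * DP = η * (P ^ 2 - 1 + R) := by
    linear_combination η * hP - (C (3 / 2 : ℝ) * DP + C (1 / 2 : ℝ) * P) * hη
  have h3 : PB = η * (η * (P ^ 2 - 1 + R) - C (1 / 2 : ℝ) * Q) := by
    linear_combination η * hB - PB * hη + η * h2
  rw [h1, h3, C2]
  ring

theorem num {p a w r ρ s : ℝ} (hp : p ≤ 101 / 100) (ha0 : 0 ≤ a) (hw0 : 0 ≤ w)
    (hs : a + 100 * w ≤ s) (hs1 : s ≤ 1 / 1000) (hr : r ≤ ρ) :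
    2 * (p * a) + a * a + w + r ≤ 203 / 100 * s + ρ := by
  have ha1 : a ≤ 1 / 1000 := by linarith
  have f1 : p * a ≤ 101 / 100 * a := mul_le_mul_of_nonneg_right hp ha0
  have f2 : a * a ≤ 1 / 1000 * a := mul_le_mul_of_nonneg_right ha1 ha0
  linarith

end RBJaux

open RBJaux in
theorem t_RBJ (hEX : S_BEX) (hJN : S_RJN) : S_RBJ := by
  intro z s ρ τ ξ S W U P Q R PB hz hz1 hDξ hξ0 hS hP hB hPn hRn hN hs1 hUn
  obtain ⟨E, rfl⟩ : ∃ E, S = P + E := ⟨S - P, by ring⟩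
  rw [add_sub_cancel_left] at hN
  obtain ⟨-, hξη, -, hηn⟩ := hEX ξ hDξ (by rw [hξ0]; exact hz)
  obtain ⟨-, -, -, hexp⟩ := hJN
  have hr : (0 : ℝ) ≤ 3 / 8 := by norm_num
  set h : ℝ := 1455 / 1000 / z with hh
  have hη' : nrm 24 (3 / 8) ξ⁻¹ ≤ h := by
    have h0 := (hηn 24 (3 / 8) hr).2
    rw [hξ0] at h0
    refine h0.trans ?_
    rw [hh, div_eq_mul_inv (1455 / 1000 : ℝ) z, mul_comm]
    exact mul_le_mul_of_nonneg_right hexp (by positivity)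
  have hη0 : 0 ≤ nrm 24 (3 / 8) ξ⁻¹ := nrm_nonneg 24 hr _
  have hh0 : 0 ≤ h := hη0.trans hη'
  unfold B1s
  rw [eqB hξη hS hP hB]
  -- the inner series
  have q1 : nrm 24 (3 / 8) (C (2 : ℝ) * (P * E) + E * E - W - R) ≤ 203 / 100 * s + ρ := by
    have q0 : nrm 24 (3 / 8) (C (2 : ℝ) * (P * E) + E * E - W - R) ≤
        2 * (nrm 24 (3 / 8) P * nrm 24 (3 / 8) E) + nrm 24 (3 / 8) E * nrm 24 (3 / 8) E +
          nrm 24 (3 / 8) W + nrm 24 (3 / 8) R := by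
      refine (nrm_sub 24 hr _ _).trans ?_
      refine add_le_add ((nrm_sub 24 hr _ _).trans (add_le_add ((nrm_add 24 hr _ _).trans
        (add_le_add ?_ (nrm_mul 24 hr _ _))) le_rfl)) le_rfl
      rw [nrm_C_mul, abs_of_pos (by norm_num : (0 : ℝ) < 2)]
      exact mul_le_mul_of_nonneg_left (nrm_mul 24 hr _ _) (by norm_num)
    exact q0.trans (num hPn (nrm_nonneg 24 hr _) (nrm_nonneg 24 hr _) hN hs1 hRn)
  have q1' : 0 ≤ 203 / 100 * s + ρ := (nrm_nonneg 24 hr _).trans q1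
  have q2 : nrm 24 (3 / 8) (ξ⁻¹ * (C (2 : ℝ) * (P * E) + E * E - W - R)) ≤
      h * (203 / 100 * s + ρ) :=
    (nrm_mul 24 hr _ _).trans (mul_le_mul hη' q1 (nrm_nonneg 24 hr _) hh0)
  have q3 : nrm 24 (3 / 8) (ξ⁻¹ * (C (2 : ℝ) * (P * E) + E * E - W - R) -
      (U - C (1 / 2 : ℝ) * Q)) ≤ h * (203 / 100 * s + ρ) + τ :=
    (nrm_sub 24 hr _ _).trans (add_le_add q2 hUn)
  exact (nrm_mul 24 hr _ _).trans (mul_le_mul hη' q3 (nrm_nonneg 24 hr _) hh0)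

end TWP
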