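import Pool.Agent.TWP.StR4

set_option autoImplicit false

namespace TWP

open PowerSeries Finset Filter Topology
open scoped ContDiff

namespace RGRaux

theorem piM_zero (x : ℝ) : piM x 0 = 1 := by
  unfold piM
  simp

theorem piM_succ (x : ℝ) (m : ℕ) : piM x (m + 1) = piM x m * (1 + x / ((m : ℝ) + 1)) := by
  unfold piM
  rw [prod_range_succ]

theorem piM_nonneg {x : ℝ} (hx : 0 ≤ x) (m : ℕ) : 0 ≤ piM x m := by
  unfold piM
  exact prod_nonneg fun j _ => by positivity

theorem piM_mono {x : ℝ} (hx : 0 ≤ x) {m m' : ℕ} (h : m ≤ m') : piM x m ≤ piM x m' := by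
  induction h with
  | refl => exact le_rfl
  | @step k h ih =>
    refine ih.trans ?_
    rw [piM_succ]
    have h1 := piM_nonneg hx
    have h2 : 0 ≤ x / ((k : ℝ) + 1) := by positivity
    exact le_mul_of_one_le_right (h1 _) (by linarith)

end RGRaux

open RGRaux in
theorem t_RGR : S_RGR := by
  intro M N e0 a b x1 x2 y δ hx1 h1y hy2 ha hb he0 hN0 hδ hstep
  have hy0 : 0 ≤ y := hx1.trans h1y.le
  have hx2 : 0 ≤ x2 := hy0.trans hy2.le
  have d1 : 0 < y - x1 := by linarith
  have d2 : 0 < x2 - y := by linarith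
  obtain ⟨A, hA⟩ : ∃ A, A = a / (y - x1) := ⟨_, rfl⟩
  obtain ⟨B, hB⟩ : ∃ B, B = b / (x2 - y) := ⟨_, rfl⟩
  rw [← hA, ← hB] at hδ ⊢
  have hA0 : 0 ≤ A := by rw [hA]; positivity
  have hB0 : 0 ≤ B := by rw [hB]; positivity
  have hAe : A * (y - x1) = a := by rw [hA]; field_simp
  have hBe : B * (x2 - y) = b := by rw [hB]; field_simp
  have key : ∀ m ≤ M, N m ≤ (e0 + A) * piM y m - A * piM x1 m + B * (piM x2 m - piM y m) := by
    intro m
    induction m with
    | zero =>
      intro _
      rw [piM_zero, piM_zero, piM_zero]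
      linarith
    | succ m ih =>
      intro hm
      have hm' : m ≤ M := by omega
      have ihm := ih hm'
      have p1 := piM_nonneg hx1 m
      have p2 := piM_nonneg hy0 m
      have p3 := piM_nonneg hx2 m
      have hNδ : N m ≤ δ := by
        have q1 : (e0 + A) * piM y m ≤ (e0 + A) * piM y M :=
          mul_le_mul_of_nonneg_left (piM_mono hy0 hm') (by linarith)
        have q2 : B * piM x2 m ≤ B * piM x2 M :=
          mul_le_mul_of_nonneg_left (piM_mono hx2 hm') hB0
        have q3 : 0 ≤ A * piM x1 m := mul_nonneg hA0 p1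
        have q4 : 0 ≤ B * piM y m := mul_nonneg hB0 p2
        linarith
      refine (hstep m (by omega) hNδ).trans ?_
      have hk : (0 : ℝ) < (m : ℝ) + 1 := by positivity
      have hf : 0 ≤ 1 + y / ((m : ℝ) + 1) := by positivity
      have r1 := mul_le_mul_of_nonneg_right ihm hf
      refine (add_le_add r1 le_rfl).trans (le_of_eq ?_)
      rw [piM_succ, piM_succ, piM_succ, ← hAe, ← hBe]
      field_simp
      ring
  intro m hm
  have h := key m hm
  have q3 : 0 ≤ A * piM x1 m := mul_nonneg hA0 (piM_nonneg hx1 m)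
  have q4 : 0 ≤ B * piM y m := mul_nonneg hB0 (piM_nonneg hy0 m)
  linarith

end TWP
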