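import Pool.Agent.TWP.StR4

/-! TWP, module RJN (`β = 4`, right tail): jets, powers of `ζ`, lists starting with zeros, `exp (3/8)`
(helper79, for helper66). -/

set_option autoImplicit false

namespace TWP

open PowerSeries Finset Filter Topology
open scoped ContDiff

namespace RJNaux

theorem step (m : ℕ) (r : ℝ) (A : ℝ⟦X⟧) (hr : 0 ≤ r) :
    nrm (m + 1) r A ≤ nrm m r A + r / ((m : ℝ) + 1) * nrm m r (D A) := by
  have h1 : nrm (m + 1) r A = nrm m r A + |coeff (m + 1) A| * r ^ (m + 1) := by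
    unfold nrm
    rw [sum_range_succ]
  have h2 : |coeff m (D A)| * r ^ m ≤ nrm m r (D A) :=
    single_le_sum (f := fun m => |coeff m (D A)| * r ^ m)
      (fun m _ => mul_nonneg (abs_nonneg _) (pow_nonneg hr m)) (mem_range.2 (Nat.lt_succ_self m))
  have h3 : |coeff m (D A)| = |coeff (m + 1) A| * ((m : ℝ) + 1) := by
    unfold D
    rw [coeff_derivative, abs_mul, abs_of_nonneg (by positivity : (0 : ℝ) ≤ (m : ℝ) + 1)]
  have hm : (0 : ℝ) < (m : ℝ) + 1 := by positivity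
  have h4 : |coeff (m + 1) A| * r ^ (m + 1) = r / ((m : ℝ) + 1) * (|coeff m (D A)| * r ^ m) := by
    rw [h3, pow_succ]
    field_simp
  rw [h1, h4]
  have h5 : 0 ≤ r / ((m : ℝ) + 1) := div_nonneg hr hm.le
  linarith [mul_le_mul_of_nonneg_left h2 h5]

theorem D_pow {ζ : ℝ⟦X⟧} (h : D ζ = -ζ) (k : ℕ) : D (ζ ^ k) = -(C (k : ℝ) * ζ ^ k) := by
  have h0 : derivative ℝ ζ = -ζ := h
  unfold D
  rw [Derivation.leibniz_pow, h0]
  cases k with
  | zero => simp
  | succ k =>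
    rw [Nat.add_sub_cancel, pow_succ, smul_eq_mul, nsmul_eq_mul]
    have : (C ((k + 1 : ℕ) : ℝ) : ℝ⟦X⟧) = ((k + 1 : ℕ) : ℝ⟦X⟧) := map_natCast C (k + 1)
    rw [this]
    ring

theorem pows (m k : ℕ) (r y : ℝ) (ζ : ℝ⟦X⟧) (hr : 0 ≤ r) (hy : 0 ≤ y) (hD : D ζ = -ζ)
    (h0 : coeff 0 ζ = y) : nrm m r (ζ ^ k) ≤ y ^ k * piM ((k : ℝ) * r) m := by
  induction m with
  | zero =>
    have h1 : coeff 0 (ζ ^ k) = y ^ k := by
      rw [coeff_zero_eq_constantCoeff_apply] at h0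
      rw [coeff_zero_eq_constantCoeff_apply, map_pow, h0]
    unfold nrm piM
    simp only [zero_add, range_one, sum_singleton, pow_zero, mul_one, range_zero, prod_empty]
    rw [h1, abs_of_nonneg (pow_nonneg hy k)]
  | succ m ih =>
    have h1 := step m r (ζ ^ k) hr
    rw [D_pow hD, nrm_neg, nrm_C_mul, abs_of_nonneg (Nat.cast_nonneg k)] at h1
    have hm : (0 : ℝ) < (m : ℝ) + 1 := by positivity
    have h2 : nrm m r (ζ ^ k) + r / ((m : ℝ) + 1) * ((k : ℝ) * nrm m r (ζ ^ k)) =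
        nrm m r (ζ ^ k) * (1 + (k : ℝ) * r / ((m : ℝ) + 1)) := by
      field_simp
    rw [h2] at h1
    have h3 : 0 ≤ 1 + (k : ℝ) * r / ((m : ℝ) + 1) := by positivity
    refine h1.trans ((mul_le_mul_of_nonneg_right ih h3).trans (le_of_eq ?_))
    unfold piM
    rw [prod_range_succ]
    ring

theorem zeros (k : ℕ) (ζ : ℝ⟦X⟧) : ∀ (l : List ℤ), (∀ a ∈ l.take k, a = 0) →
    evZ ζ l = ζ ^ k * evZ ζ (l.drop k) := by
  induction k with
  | zero => intro l _; simp
  | succ k ih =>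
    intro l hl
    cases l with
    | nil => simp [evZ]
    | cons a l =>
      have ha : a = 0 := hl a (by simp)
      have h1 := ih l (fun b hb => hl b (by simp [hb]))
      subst ha
      rw [List.drop_succ_cons]
      simp only [evZ]
      rw [h1]
      simp
      ring

theorem expb : Real.exp (3 / 8) ≤ 1455 / 1000 := by
  have h1 : Real.exp (3 / 8) ^ 8 = Real.exp 1 ^ 3 := by
    rw [← Real.exp_nat_mul, ← Real.exp_nat_mul]
    norm_num
  have h2 : Real.exp 1 ^ 3 ≤ (2.7182818286 : ℝ) ^ 3 :=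
    pow_le_pow_left₀ (Real.exp_pos 1).le Real.exp_one_lt_d9.le 3
  have h3 : (2.7182818286 : ℝ) ^ 3 ≤ (1455 / 1000) ^ 8 := by norm_num
  have h4 : Real.exp (3 / 8) ^ 8 ≤ (1455 / 1000 : ℝ) ^ 8 := by
    rw [h1]; exact h2.trans h3
  exact le_of_pow_le_pow_left₀ (by norm_num) (by norm_num) h4

end RJNaux

/-- **RJN**. -/
theorem t_RJN : S_RJN :=
  ⟨RJNaux.step, RJNaux.pows, fun k ζ l h => RJNaux.zeros k ζ l h, RJNaux.expb⟩

end TWP
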