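import Pool.Agent.TWP.StR4
import Pool.Agent.TWP.BRF
import Pool.Agent.TWP.BRM
import Pool.Agent.TWP.RFS

set_option autoImplicit false

/-! TWP, module RMS: the series of `m_4/√s`, right tail, `β = 4` (helper40, for helper66). -/

namespace TWP

open PowerSeries Finset Filter Topology
open scoped ContDiff

namespace RMSaux

open Pool.Agent.TWP.Tail (zR zR_pos hasDerivAt_zR)

theorem gf_deriv {q l : ℝ → ℝ} (h : QL q l) (s : ℝ) :
    HasDerivAt (gf q l) (-2 * l s * gf q l s - 1) s := by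
  have h1 := (((h.dl s).pow 2).sub (hasDerivAt_id s)).sub ((h.dq s).pow 2)
  refine h1.congr_deriv ?_
  unfold gf
  simp only [Nat.cast_ofNat, Nat.reduceSub, pow_one]
  ring

theorem bF_deriv {q l e : ℝ → ℝ} (h : QL q l) (hpos : ∀ s, 0 < e s)
    (he : ∀ s, HasDerivAt e (q s * e s) s) (s : ℝ) :
    HasDerivAt (bF q l e)
      (-(q s * (l s * gf q l s + (1 + tF e s ^ 2) / 2))) s := by
  have h1 := ((h.dq s).mul (gf_deriv h s)).sub (RFSaux.tF_deriv hpos he s)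
  refine h1.congr_deriv ?_
  ring

end RMSaux

open BRMaux RMSaux in
open Pool.Agent.TWP.Tail (zR zR_pos hasDerivAt_zR) in
theorem t_RMS : S_RMS := by
  intro q l e t hq hepos he ht hne
  obtain ⟨hqs, hls⟩ := QS q l hq
  have hψ := psi_smooth t
  set Sf : ℝ → ℝ := fun s => -(l s) / Real.sqrt s with hSf
  set κf : ℝ → ℝ := fun s => q s / Real.sqrt s with hκf
  set Uf : ℝ → ℝ := fun s => Real.sqrt s * tF e s / q s with hUf
  have hsq : Real.sqrt t ≠ 0 := (Real.sqrt_pos.2 ht).ne'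
  have hSs : ContDiffAt ℝ ∞ Sf t := (hls.contDiffAt.neg).div (sqrt_smooth t ht) hsq
  have hκs : ContDiffAt ℝ ∞ κf t := hqs.contDiffAt.div (sqrt_smooth t ht) hsq
  have hTt : ContDiffAt ℝ ∞ (tF e) t :=
    (RFSaux.tF_smooth hepos (RFSaux.e_smooth hqs he)).contDiffAt
  have hUs : ContDiffAt ℝ ∞ Uf t :=
    ((sqrt_smooth t ht).mul hTt).div hqs.contDiffAt (hq.pos t).ne'
  have hzs := zR_smooth t ht
  have hzp := zR_pos t ht
  have hdS : ContDiffAt ℝ ∞ (dl psiT Sf) t := ts.2.1 psiT Sf t hψ hSs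
  set S : ℝ⟦X⟧ := Tay psiT Sf t with hS
  set κ : ℝ⟦X⟧ := Tay psiT κf t with hκ
  set U : ℝ⟦X⟧ := Tay psiT Uf t with hU
  set ξ : ℝ⟦X⟧ := Tay psiT zR t with hξ
  -- the function `b`
  set bh : ℝ → ℝ := fun s => (zR s)⁻¹ * (1 / 2 * Sf s + 3 / 2 * dl psiT Sf s +
    κf s * κf s * (zR s)⁻¹ - Uf s) with hbh
  have hzi : ContDiffAt ℝ ∞ (fun s => (zR s)⁻¹) t := hzs.inv hzp.ne'
  have hA1 : ContDiffAt ℝ ∞ (fun s => 1 / 2 * Sf s + 3 / 2 * dl psiT Sf s) t :=
    (contDiffAt_const.mul hSs).add (contDiffAt_const.mul hdS)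
  have hA2 : ContDiffAt ℝ ∞ (fun s => κf s * κf s * (zR s)⁻¹) t := (hκs.mul hκs).mul hzi
  have hA3 : ContDiffAt ℝ ∞ (fun s => 1 / 2 * Sf s + 3 / 2 * dl psiT Sf s +
    κf s * κf s * (zR s)⁻¹) t := hA1.add hA2
  have hbs : ContDiffAt ℝ ∞ bh t := hzi.mul (hA3.sub hUs)
  have hTb : Tay psiT bh t = B1s S (κ ^ 2) U ξ := by
    rw [hbh, tm psiT t hψ (fun s => (zR s)⁻¹) (fun s => 1 / 2 * Sf s + 3 / 2 * dl psiT Sf s +
      κf s * κf s * (zR s)⁻¹ - Uf s) hzi (hA3.sub hUs),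
      (ti psiT t hψ zR zR hzs hzs hzp.ne').1,
      (ta psiT t hψ).2.2 (fun s => 1 / 2 * Sf s + 3 / 2 * dl psiT Sf s +
        κf s * κf s * (zR s)⁻¹) Uf hA3 hUs,
      (ta psiT t hψ).2.1 (fun s => 1 / 2 * Sf s + 3 / 2 * dl psiT Sf s)
        (fun s => κf s * κf s * (zR s)⁻¹) hA1 hA2,
      (ta psiT t hψ).2.1 (fun s => 1 / 2 * Sf s) (fun s => 3 / 2 * dl psiT Sf s)
        (contDiffAt_const.mul hSs) (contDiffAt_const.mul hdS),
      tay_cmul t _ _ hSs, tay_cmul t _ _ hdS,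
      tm psiT t hψ (fun s => κf s * κf s) (fun s => (zR s)⁻¹) (hκs.mul hκs) hzi,
      (ti psiT t hψ zR zR hzs hzs hzp.ne').1, tm psiT t hψ κf κf hκs hκs,
      ← (tc psiT Sf Sf t (Filter.EventuallyEq.refl _ _)).2.2]
    unfold B1s
    rw [sq]
  have hb0 : coeff 0 (B1s S (κ ^ 2) U ξ) = bh t := by
    rw [← hTb]; exact (tc psiT bh bh t (Filter.EventuallyEq.refl _ _)).2.1
  -- values of `b`
  have hbval : ∀ s : ℝ, 0 < s → bh s = s ^ 2 * bF q l e s / q s := by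
    intro s hs
    have hsq0 : 0 < Real.sqrt s := Real.sqrt_pos.2 hs
    have hss : Real.sqrt s ^ 2 = s := Real.sq_sqrt hs.le
    have hqp := hq.pos s
    have hd : deriv Sf s =
      (-(s + 2 * q s ^ 2 - l s ^ 2) * Real.sqrt s - (-(l s)) * (1 / (2 * Real.sqrt s))) /
        Real.sqrt s ^ 2 := BRFaux.deriv_divsqrt hs (hq.dl s).neg
    have hzz : zR s = 1 / (s * Real.sqrt s) := rfl
    simp only [hbh, dl, hd, psiT]
    simp only [hSf, hκf, hUf, hzz, bF, gf]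
    generalize Real.sqrt s = w at hsq0 hss ⊢
    generalize tF e s = T
    generalize q s = Q at hqp ⊢
    subst hss
    field_simp
    ring
  rw [hb0] at hne
  have hfst : bF q l e t = q t / Real.sqrt t * (zR t * bh t) := by
    rw [hbval t ht]
    have hsq0 : 0 < Real.sqrt t := Real.sqrt_pos.2 ht
    have hss : Real.sqrt t ^ 2 = t := Real.sq_sqrt ht.le
    have hqp := hq.pos t
    have hzz : zR t = 1 / (t * Real.sqrt t) := rfl
    rw [hzz]
    generalize bF q l e t = B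
    generalize Real.sqrt t = w at hsq0 hss ⊢
    generalize q t = Q at hqp ⊢
    subst hss
    field_simp
  -- the function `μ`
  have hdb : ContDiffAt ℝ ∞ (dl psiT bh) t := ts.2.1 psiT bh t hψ hbs
  have hbi : ContDiffAt ℝ ∞ (fun s => (bh s)⁻¹) t := hbs.inv hne
  set μ : ℝ → ℝ := fun s => 1 / 2 * (κf s * κf s * (zR s * bh s)) + (-2) * Sf s +
    zR s * (-2 + 3 / 2 * (dl psiT bh s * (bh s)⁻¹)) with hμ
  have hB1 : ContDiffAt ℝ ∞ (fun s => κf s * κf s * (zR s * bh s)) t :=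
    (hκs.mul hκs).mul (hzs.mul hbs)
  have hB2 : ContDiffAt ℝ ∞ (fun s => 1 / 2 * (κf s * κf s * (zR s * bh s)) + (-2) * Sf s) t :=
    (contDiffAt_const.mul hB1).add (contDiffAt_const.mul hSs)
  have hB3 : ContDiffAt ℝ ∞ (fun s => dl psiT bh s * (bh s)⁻¹) t := hdb.mul hbi
  have hB4 : ContDiffAt ℝ ∞ (fun s => -2 + 3 / 2 * (dl psiT bh s * (bh s)⁻¹)) t :=
    contDiffAt_const.add (contDiffAt_const.mul hB3)
  have hμs : ContDiffAt ℝ ∞ μ t := hB2.add (hzs.mul hB4)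
  have hTμ : Tay psiT μ t = muR4 S (κ ^ 2) (B1s S (κ ^ 2) U ξ) ξ := by
    rw [hμ, (ta psiT t hψ).2.1 (fun s => 1 / 2 * (κf s * κf s * (zR s * bh s)) + (-2) * Sf s)
        (fun s => zR s * (-2 + 3 / 2 * (dl psiT bh s * (bh s)⁻¹))) hB2 (hzs.mul hB4),
      (ta psiT t hψ).2.1 (fun s => 1 / 2 * (κf s * κf s * (zR s * bh s))) (fun s => (-2) * Sf s)
        (contDiffAt_const.mul hB1) (contDiffAt_const.mul hSs),
      tay_cmul t _ _ hB1, tay_cmul t _ _ hSs,
      tm psiT t hψ (fun s => κf s * κf s) (fun s => zR s * bh s) (hκs.mul hκs) (hzs.mul hbs),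
      tm psiT t hψ κf κf hκs hκs, tm psiT t hψ zR bh hzs hbs,
      tm psiT t hψ zR (fun s => -2 + 3 / 2 * (dl psiT bh s * (bh s)⁻¹)) hzs hB4,
      (ta psiT t hψ).2.1 (fun _ => -2) (fun s => 3 / 2 * (dl psiT bh s * (bh s)⁻¹))
        contDiffAt_const (contDiffAt_const.mul hB3),
      (ta psiT t hψ).1 (-2), tay_cmul t _ _ hB3,
      tm psiT t hψ (dl psiT bh) (fun s => (bh s)⁻¹) hdb hbi,
      (ti psiT t hψ bh bh hbs hbs hne).1,
      ← (tc psiT bh bh t (Filter.EventuallyEq.refl _ _)).2.2, hTb]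
    unfold muR4
    rw [sq]
  have hm : mFour q l e =ᶠ[𝓝 t] fun s => Real.sqrt s * μ s := by
    have hp : ∀ᶠ s in 𝓝 t, 0 < s := lt_mem_nhds ht
    have hn : ∀ᶠ s in 𝓝 t, bh s ≠ 0 := hbs.continuousAt.eventually_ne hne
    filter_upwards [hp, hn] with s hs hbn
    have hev : bh =ᶠ[𝓝 s] fun s => s ^ 2 * bF q l e s / q s := by
      filter_upwards [lt_mem_nhds hs] with r hr
      exact hbval r hr
    have hqp := hq.pos s
    have hd : deriv bh s = ((2 * s * bF q l e s +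
        s ^ 2 * -(q s * (l s * gf q l s + (1 + tF e s ^ 2) / 2))) * q s -
        s ^ 2 * bF q l e s * (l s * q s)) / q s ^ 2 := by
      rw [hev.deriv_eq]
      have h1 : HasDerivAt (fun r : ℝ => r ^ 2) (2 * s) s := by
        have := hasDerivAt_pow 2 s
        simpa using this
      exact ((h1.mul (bF_deriv hq hepos he s)).div (hq.dq s) hqp.ne').deriv
    have hbF : bF q l e s ≠ 0 := by
      intro h0
      apply hbn
      rw [hbval s hs, h0]
      simp
    have hsq0 : 0 < Real.sqrt s := Real.sqrt_pos.2 hs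
    have hss : Real.sqrt s ^ 2 = s := Real.sq_sqrt hs.le
    have hzz : zR s = 1 / (s * Real.sqrt s) := rfl
    have hlhs : mFour q l e s = q s * bF q l e s / 2 + l s -
      q s * (l s * gf q l s + (1 + tF e s ^ 2) / 2) / bF q l e s := rfl
    simp only [hμ, dl, hd, psiT]
    rw [hlhs, hbval s hs]
    simp only [hSf, hκf, hzz]
    generalize bF q l e s = B at hbF ⊢
    generalize gf q l s = g
    generalize tF e s = T
    generalize Real.sqrt s = w at hsq0 hss ⊢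
    generalize q s = Q at hqp ⊢
    subst hss
    field_simp
    ring
  have hst := step (mFour q l e) μ t ht hμs hm
  rw [hTμ] at hst
  exact ⟨by rw [hb0]; exact hfst, hst.1, hst.2⟩

end TWP
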