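import Pool.Agent.TWP.StR4

/-! TWP, module RNU: numbers for the fourth right tail (helper34). -/

set_option autoImplicit false

namespace TWP

open PowerSeries Finset Filter Topology
open scoped ContDiff

namespace RNUaux

theorem piM_scale (x u : ℝ) (hx : 0 ≤ x) (hu : 1 ≤ u) (m : ℕ) :
    piM (x * u) m ≤ u ^ m * piM x m := by
  unfold piM
  rw [← Finset.card_range m, ← Finset.prod_const, Finset.card_range, ← Finset.prod_mul_distrib]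
  refine Finset.prod_le_prod (fun j _ => by positivity) (fun j _ => ?_)
  have h1 : x * u / ((j : ℝ) + 1) = u * (x / ((j : ℝ) + 1)) := by ring
  rw [h1]
  nlinarith

theorem piM_nonneg (x : ℝ) (hx : 0 ≤ x) (m : ℕ) : 0 ≤ piM x m := by
  unfold piM
  exact Finset.prod_nonneg (fun j _ => by positivity)

theorem piM96 : piM (375 / 4) 24 ≤ 65614 * 10 ^ 20 := by
  unfold piM
  norm_num [Finset.prod_range_succ]

theorem piM48 : piM (375 / 8) 24 ≤ 50359 * 10 ^ 14 := by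
  unfold piM
  norm_num [Finset.prod_range_succ]

theorem piM183 : piM (183 / 8) 24 ≤ 14765 * 10 ^ 9 := by
  unfold piM
  norm_num [Finset.prod_range_succ]

theorem pw (v : ℝ) (hv : 0 < v) (hv1 : v ≤ 1) (k : ℕ) :
    (v / 125) ^ (24 + k) * (1 / v) ^ 24 ≤ (1 / 125) ^ (24 + k) := by
  have h1 : (v / 125) ^ (24 + k) * (1 / v) ^ 24 = (1 / 125) ^ (24 + k) * v ^ k := by
    rw [div_pow, div_pow, div_pow, one_pow, one_pow, pow_add v 24 k]
    field_simp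
  rw [h1]
  have h2 : v ^ k ≤ 1 := pow_le_one₀ hv.le hv1
  exact mul_le_of_le_one_right (by positivity) h2

theorem pz (z x c : ℝ) (hz : 0 < z) (hz1 : z ≤ 1 / 125) (hx : 0 ≤ x) (hc : piM x 24 ≤ c) (k : ℕ) :
    z ^ (24 + k) * piM (x / 125 / z) 24 ≤ (1 / 125) ^ (24 + k) * c := by
  obtain ⟨v, hv⟩ : ∃ v : ℝ, v = 125 * z := ⟨_, rfl⟩
  have hv0 : 0 < v := by rw [hv]; positivity
  have hv1 : v ≤ 1 := by rw [hv]; linarith
  have hzv : z = v / 125 := by rw [hv]; ring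
  have hu : 1 ≤ 1 / v := by rw [le_div_iff₀ hv0]; linarith
  have h1 : x / 125 / z = x * (1 / v) := by rw [hzv]; field_simp
  have h2 := piM_scale x (1 / v) hx hu 24
  have h3 := pw v hv0 hv1 k
  have hc0 : 0 ≤ c := (piM_nonneg x hx 24).trans hc
  rw [h1, hzv]
  calc (v / 125) ^ (24 + k) * piM (x * (1 / v)) 24
      ≤ (v / 125) ^ (24 + k) * ((1 / v) ^ 24 * c) :=
        mul_le_mul_of_nonneg_left (h2.trans (mul_le_mul_of_nonneg_left hc (by positivity)))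
          (by positivity)
    _ = (v / 125) ^ (24 + k) * (1 / v) ^ 24 * c := by ring
    _ ≤ (1 / 125) ^ (24 + k) * c := mul_le_mul_of_nonneg_right h3 hc0

theorem pc (z : ℝ) (hz : 0 < z) (hz1 : z ≤ 1 / 125) (k : ℕ) :
    z ^ k * piM (183 / 8) 24 ≤ (1 / 125) ^ k * (14765 * 10 ^ 9) :=
  mul_le_mul (pow_le_pow_left₀ hz.le hz1 k) piM183 (piM_nonneg _ (by norm_num) 24) (by positivity)

theorem pexp (z : ℝ) (hz : 0 < z) :
    Real.exp (-(2 / 3) / z) ≤ (Nat.factorial 85 : ℝ) * (3 / 2) ^ 85 * z ^ 85 := by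
  have hx : 0 < 2 / 3 / z := by positivity
  have h1 := Real.pow_div_factorial_le_exp (2 / 3 / z) hx.le 85
  have h2 : -(2 / 3) / z = -(2 / 3 / z) := by ring
  rw [h2, Real.exp_neg]
  have h3 : 0 < (2 / 3 / z) ^ 85 / (Nat.factorial 85 : ℝ) := by positivity
  refine (inv_anti₀ h3 h1).trans (le_of_eq ?_)
  rw [inv_div, div_pow, div_pow, div_pow]
  field_simp

theorem num1 : 43 * 10 ^ 73 * ((1 / 125) ^ 61 * (65614 * 10 ^ 20)) ≤ (4 / 10 ^ 29 : ℝ) := by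
  norm_num

theorem num2 : 372 * 10 ^ 91 * ((1 / 125) ^ 61 * (50359 * 10 ^ 14)) +
    43 * 10 ^ 73 * ((1 / 125) ^ 61 * (65614 * 10 ^ 20)) ≤ (1 / 10 ^ 15 : ℝ) := by
  norm_num

theorem num3 : ((1455 / 1000) ^ 2 * (203 / 100) * (43 * 10 ^ 73) *
      ((1 / 125) ^ 59 * (65614 * 10 ^ 20)) +
    (1455 / 1000) ^ 2 * (127 * 10 ^ 72) * ((1 / 125) ^ 59 * (14765 * 10 ^ 9)) +
    (1455 / 1000) * (372 * 10 ^ 91) * ((1 / 125) ^ 60 * (50359 * 10 ^ 14)) +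
    (1455 / 1000) * (43 * 10 ^ 73) * ((1 / 125) ^ 60 * (65614 * 10 ^ 20))) * 2 ^ 160 + 2 ^ 98 ≤
    (2 ^ 116 : ℝ) := by
  norm_num

theorem num4 : 100 * ((Nat.factorial 85 : ℝ) * (3 / 2) ^ 85) ^ 2 * (1 / 125) ^ 109 ≤ 10 ^ 74 := by
  norm_num [Nat.factorial]

end RNUaux

/-- **RNU**. -/
theorem t_RNU : S_RNU := by
  intro z hz hz1
  obtain ⟨A, hA⟩ : ∃ A : ℝ, A = piM (3 / (4 * z)) 24 := ⟨_, rfl⟩
  obtain ⟨B, hB⟩ : ∃ B : ℝ, B = piM (3 / (8 * z)) 24 := ⟨_, rfl⟩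
  obtain ⟨M, hM⟩ : ∃ M : ℝ, M = piM (183 / 8) 24 := ⟨_, rfl⟩
  have eA : (3 / (4 * z) : ℝ) = 375 / 4 / 125 / z := by field_simp; norm_num
  have eB : (3 / (8 * z) : ℝ) = 375 / 8 / 125 / z := by field_simp; norm_num
  have a61 : z ^ 61 * A ≤ (1 / 125) ^ 61 * (65614 * 10 ^ 20) := by
    rw [hA, eA]; exact RNUaux.pz z (375 / 4) _ hz hz1 (by norm_num) RNUaux.piM96 37
  have a60 : z ^ 60 * A ≤ (1 / 125) ^ 60 * (65614 * 10 ^ 20) := by
    rw [hA, eA]; exact RNUaux.pz z (375 / 4) _ hz hz1 (by norm_num) RNUaux.piM96 36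
  have a59 : z ^ 59 * A ≤ (1 / 125) ^ 59 * (65614 * 10 ^ 20) := by
    rw [hA, eA]; exact RNUaux.pz z (375 / 4) _ hz hz1 (by norm_num) RNUaux.piM96 35
  have b61 : z ^ 61 * B ≤ (1 / 125) ^ 61 * (50359 * 10 ^ 14) := by
    rw [hB, eB]; exact RNUaux.pz z (375 / 8) _ hz hz1 (by norm_num) RNUaux.piM48 37
  have b60 : z ^ 60 * B ≤ (1 / 125) ^ 60 * (50359 * 10 ^ 14) := by
    rw [hB, eB]; exact RNUaux.pz z (375 / 8) _ hz hz1 (by norm_num) RNUaux.piM48 36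
  have m59 : z ^ 59 * M ≤ (1 / 125) ^ 59 * (14765 * 10 ^ 9) := by
    rw [hM]; exact RNUaux.pc z hz hz1 59
  rw [← hA, ← hB, ← hM]
  refine ⟨?_, ?_, ?_, fun κ hκ0 hκ => ?_⟩
  · calc 43 * 10 ^ 73 * z ^ 61 * A = 43 * 10 ^ 73 * (z ^ 61 * A) := by ring
      _ ≤ 43 * 10 ^ 73 * ((1 / 125) ^ 61 * (65614 * 10 ^ 20)) :=
        mul_le_mul_of_nonneg_left a61 (by norm_num)
      _ ≤ _ := RNUaux.num1
  · calc 372 * 10 ^ 91 * z ^ 61 * B + 43 * 10 ^ 73 * z ^ 61 * A =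
          372 * 10 ^ 91 * (z ^ 61 * B) + 43 * 10 ^ 73 * (z ^ 61 * A) := by ring
      _ ≤ 372 * 10 ^ 91 * ((1 / 125) ^ 61 * (50359 * 10 ^ 14)) +
          43 * 10 ^ 73 * ((1 / 125) ^ 61 * (65614 * 10 ^ 20)) :=
        add_le_add (mul_le_mul_of_nonneg_left b61 (by norm_num))
          (mul_le_mul_of_nonneg_left a61 (by norm_num))
      _ ≤ _ := RNUaux.num2
  · have e61 : z ^ 61 = z ^ 59 * z ^ 2 := by rw [← pow_add]
    have e61' : z ^ 61 = z ^ 60 * z := by rw [← pow_succ]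
    have h1 : 1455 / 1000 / z * (1455 / 1000 / z * (203 / 100 * (43 * 10 ^ 73 * z ^ 61 * A) +
        127 * 10 ^ 72 * z ^ 61 * M)) =
        (1455 / 1000) ^ 2 * (203 / 100) * (43 * 10 ^ 73) * (z ^ 59 * A) +
        (1455 / 1000) ^ 2 * (127 * 10 ^ 72) * (z ^ 59 * M) := by
      rw [e61]
      field_simp
    have h2 : 1455 / 1000 / z * (372 * 10 ^ 91 * z ^ 61 * B + 43 * 10 ^ 73 * z ^ 61 * A) =
        (1455 / 1000) * (372 * 10 ^ 91) * (z ^ 60 * B) +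
        (1455 / 1000) * (43 * 10 ^ 73) * (z ^ 60 * A) := by
      rw [e61']
      field_simp
    have h3 : (1455 / 1000 / z * (1455 / 1000 / z * (203 / 100 * (43 * 10 ^ 73 * z ^ 61 * A) +
        127 * 10 ^ 72 * z ^ 61 * M) + (372 * 10 ^ 91 * z ^ 61 * B + 43 * 10 ^ 73 * z ^ 61 * A))) =
        (1455 / 1000) ^ 2 * (203 / 100) * (43 * 10 ^ 73) * (z ^ 59 * A) +
        (1455 / 1000) ^ 2 * (127 * 10 ^ 72) * (z ^ 59 * M) +
        (1455 / 1000) * (372 * 10 ^ 91) * (z ^ 60 * B) +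
        (1455 / 1000) * (43 * 10 ^ 73) * (z ^ 60 * A) := by
      rw [mul_add, h1, h2]
      ring
    rw [h3]
    have k1 := mul_le_mul_of_nonneg_left a59
      (by norm_num : (0 : ℝ) ≤ (1455 / 1000) ^ 2 * (203 / 100) * (43 * 10 ^ 73))
    have k2 := mul_le_mul_of_nonneg_left m59
      (by norm_num : (0 : ℝ) ≤ (1455 / 1000) ^ 2 * (127 * 10 ^ 72))
    have k3 := mul_le_mul_of_nonneg_left b60
      (by norm_num : (0 : ℝ) ≤ (1455 / 1000) * (372 * 10 ^ 91))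
    have k4 := mul_le_mul_of_nonneg_left a60
      (by norm_num : (0 : ℝ) ≤ (1455 / 1000) * (43 * 10 ^ 73))
    refine le_trans (add_le_add (mul_le_mul_of_nonneg_right
      (add_le_add (add_le_add (add_le_add k1 k2) k3) k4) (by norm_num)) le_rfl) RNUaux.num3
  · have h1 := hκ.trans (RNUaux.pexp z hz)
    have h2 : κ ^ 2 ≤ ((Nat.factorial 85 : ℝ) * (3 / 2) ^ 85 * z ^ 85) ^ 2 :=
      pow_le_pow_left₀ hκ0 h1 2
    have h3 : z ^ 109 ≤ (1 / 125) ^ 109 := pow_le_pow_left₀ hz.le hz1 109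
    have h4 : ((Nat.factorial 85 : ℝ) * (3 / 2) ^ 85 * z ^ 85) ^ 2 =
        ((Nat.factorial 85 : ℝ) * (3 / 2) ^ 85) ^ 2 * (z ^ 109 * z ^ 61) := by
      rw [mul_pow _ (z ^ 85), ← pow_mul, ← pow_add]
    have h5 : (0 : ℝ) ≤ 100 * ((Nat.factorial 85 : ℝ) * (3 / 2) ^ 85) ^ 2 := by positivity
    have hz61 : 0 ≤ z ^ 61 := by positivity
    calc 100 * κ ^ 2 ≤ 100 * (((Nat.factorial 85 : ℝ) * (3 / 2) ^ 85) ^ 2 * (z ^ 109 * z ^ 61)) := by
          rw [← h4]; exact mul_le_mul_of_nonneg_left h2 (by norm_num)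
      _ = 100 * ((Nat.factorial 85 : ℝ) * (3 / 2) ^ 85) ^ 2 * z ^ 109 * z ^ 61 := by ring
      _ ≤ 100 * ((Nat.factorial 85 : ℝ) * (3 / 2) ^ 85) ^ 2 * (1 / 125) ^ 109 * z ^ 61 :=
        mul_le_mul_of_nonneg_right (mul_le_mul_of_nonneg_left h3 h5) hz61
      _ ≤ 10 ^ 74 * z ^ 61 := mul_le_mul_of_nonneg_right RNUaux.num4 hz61

end TWP
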