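import Pool.Agent.TWP.TailK4
set_option autoImplicit false
namespace TWP.K
set_option maxRecDepth 100000 in
theorem rad4 : radT 8192 13375 24 rs4 tabR4 = true := by decide +kernel
set_option maxRecDepth 100000 in
theorem cmpS4 : cmpL 107 65536 Pool.Agent.TWP.Tail.cS60 spR (2 ^ 160) 1 ≤ 2 ^ 46 := by decide +kernel
set_option maxRecDepth 100000 in
theorem cmpB4 : cmpL 107 65536 bL4.tail spB4 (2 ^ 160) 16 ≤ 2 ^ 98 := by decide +kernel
theorem bL40 : bL4.head? = some 0 := by decide +kernel
theorem residS40 : ∀ a ∈ residS4.take 61, a = 0 := by decide +kernel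
theorem residN40 : ∀ a ∈ residN4.take 61, a = 0 := by decide +kernel
theorem nbS4 : nbK 687 Pool.Agent.TWP.Tail.cS60.tail * 100 ≤
    687 ^ Pool.Agent.TWP.Tail.cS60.tail.length := by decide +kernel
theorem nbN4 : nbK 687 cN4.tail * 100 ≤ 687 ^ cN4.tail.length := by decide +kernel
theorem bL41 : bL4.tail.head? = some 2 := by decide +kernel
theorem nbB4 : nbK 687 bL4.tail.tail * 100 ≤ 16 * 687 ^ bL4.tail.tail.length := by decide +kernel
theorem residS41 : 687 * nbK 687 (residS4.drop 61) ≤
    127 * 10 ^ 72 * 8 ^ 61 * 687 ^ (residS4.drop 61).length := by decide +kernel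
theorem residN41 : 687 * nbK 687 (residN4.drop 61) ≤
    247 * 10 ^ 91 * 8 ^ 61 * 687 ^ (residN4.drop 61).length := by decide +kernel
end TWP.K
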