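import Pool.Agent.TWP.StR4
import Pool.Agent.TWP.TC4
import Pool.Agent.TWP.BPR

/-! TWP, `β = 4`, right tail: the polynomials and their defects. -/

set_option autoImplicit false

namespace TWP

open PowerSeries Finset

namespace RPRaux

theorem small (k W N Lq : ℕ) (x e : ℝ) (hL : 0 < Lq) (hx0 : 0 ≤ x) (hx : x * W ≤ 1)
    (h : N * 100 ≤ k * Lq) (he : e * (Lq : ℝ) ≤ W * (N : ℝ)) :
    x * e ≤ k / 100 := by
  have hLr : (0 : ℝ) < (Lq : ℝ) := Nat.cast_pos.2 hL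
  have h1 : (N : ℝ) * 100 ≤ k * Lq := by exact_mod_cast h
  have h2 : x * e * Lq ≤ N := by
    calc x * e * Lq = x * (e * Lq) := by ring
      _ ≤ x * (W * N) := mul_le_mul_of_nonneg_left he hx0
      _ = (x * W) * N := by ring
      _ ≤ 1 * N := mul_le_mul_of_nonneg_right hx (Nat.cast_nonneg _)
      _ = N := one_mul _
  have h3 : x * e * Lq ≤ k / 100 * Lq := by linarith
  exact le_of_mul_le_mul_right h3 hLr

/-- `nrm (evZ (a :: l) - a) ≤ k/100` -/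
theorem near (hNB : S_BNB) (ζ : ℝ⟦X⟧) (k W : ℕ) (hW : 0 < W) (a : ℤ) (l : List ℤ)
    (hζ : nrm 24 (3 / 8) ζ * W ≤ 1) (h : K.nbK W l * 100 ≤ k * W ^ l.length) :
    nrm 24 (3 / 8) (evZ ζ (a :: l) - C (a : ℝ)) ≤ k / 100 := by
  have hr : (0 : ℝ) ≤ 3 / 8 := by norm_num
  have e1 : evZ ζ (a :: l) - C (a : ℝ) = ζ * evZ ζ l := by
    simp only [evZ]; ring
  rw [e1]
  refine (nrm_mul 24 hr ζ (evZ ζ l)).trans ?_
  have hb := hNB 24 (3 / 8) ζ W l hr hW hζ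
  refine small k W (K.nbK W l) (W ^ l.length) _ _ (pow_pos hW _) (nrm_nonneg 24 hr ζ) hζ h ?_
  rw [Nat.cast_pow]
  exact hb

/-- the defect -/
theorem defect (hNB : S_BNB) (hJN : S_RJN) (z : ℝ) (hz : 0 ≤ z) (ζ : ℝ⟦X⟧) (W : ℕ) (hW : 0 < W)
    (hDζ : D ζ = -ζ) (hc : coeff 0 ζ = z / 8) (hζ : nrm 24 (3 / 8) ζ * W ≤ 1) (l : List ℤ)
    (A : ℕ) (h0 : ∀ a ∈ l.take 61, a = 0)
    (h : W * K.nbK W (l.drop 61) ≤ A * 8 ^ 61 * W ^ (l.drop 61).length) :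
    ∀ m ≤ 24, nrm m (3 / 8) (evZ ζ l) ≤ A * z ^ 61 * piM (183 / 8) m := by
  intro m hm
  have hr : (0 : ℝ) ≤ 3 / 8 := by norm_num
  rw [hJN.2.2.1 61 ζ l h0]
  refine (nrm_mul m hr _ _).trans ?_
  have h1 := hJN.2.1 m 61 (3 / 8) (z / 8) ζ hr (by positivity) hDζ hc
  have e1 : ((61 : ℕ) : ℝ) * (3 / 8) = 183 / 8 := by norm_num
  rw [e1] at h1
  have hζm : nrm m (3 / 8) ζ * W ≤ 1 :=
    (mul_le_mul_of_nonneg_right (nrm_mono_M hm hr ζ) (Nat.cast_nonneg _)).trans hζ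
  have hb := hNB m (3 / 8) ζ W (l.drop 61) hr hW hζm
  have hWr : (0 : ℝ) < (W : ℝ) ^ (l.drop 61).length := pow_pos (Nat.cast_pos.2 hW) _
  have h2 : (W : ℝ) * (K.nbK W (l.drop 61) : ℝ) ≤ A * 8 ^ 61 * (W : ℝ) ^ (l.drop 61).length := by
    exact_mod_cast h
  have h3 : nrm m (3 / 8) (evZ ζ (l.drop 61)) ≤ A * 8 ^ 61 :=
    le_of_mul_le_mul_right (hb.trans h2) hWr
  have h4 := mul_le_mul h1 h3 (nrm_nonneg m hr _) ((nrm_nonneg m hr _).trans h1)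
  refine h4.trans (le_of_eq ?_)
  rw [div_pow]
  field_simp

end RPRaux

open RPRaux in
theorem t_RPR (hEX : S_BEX) (hNB : S_BNB) (hDE : S_BDE) (hEVA : S_EVA) (hJN : S_RJN) : S_RPR := by
  intro z ξ hz hz1 hD h0
  have hr : (0 : ℝ) ≤ 3 / 8 := by norm_num
  have hξ : nrm 24 (3 / 8) ξ ≤ 1455 / 1000 * z := by
    have h1 := ((hEX ξ hD (by rw [h0]; exact hz)).2.2.2 24 (3 / 8) hr).1
    rw [h0] at h1
    have h2 := mul_le_mul_of_nonneg_left hJN.2.2.2 hz.le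
    linarith
  obtain ⟨ζ, hζ⟩ : ∃ ζ : ℝ⟦X⟧, ζ = C (1 / 8 : ℝ) * ξ := ⟨_, rfl⟩
  have hPS : PS4 ξ = evZ ζ Pool.Agent.TWP.Tail.cS60 := by rw [hζ]
  have hPN : PN4 ξ = evZ ζ K.cN4 := by rw [hζ]
  have hPB : PB4 ξ = C (1 / 16 : ℝ) * evZ ζ K.bL4.tail := by rw [hζ]
  rw [hPS, hPN, hPB]
  have hζn : nrm 24 (3 / 8) ζ ≤ 1455 / 8000 * z := by
    rw [hζ, nrm_C_mul, abs_of_pos (by norm_num)]
    linarith
  have hζ0 : 0 ≤ nrm 24 (3 / 8) ζ := nrm_nonneg 24 hr ζ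
  have hζW : nrm 24 (3 / 8) ζ * ((687 : ℕ) : ℝ) ≤ 1 := by
    rw [Nat.cast_ofNat]
    linarith
  have hDζ : D ζ = -ζ := by
    rw [hζ, BPRaux.D_C_mul, hD]
    ring
  have hDζ' : D ζ = -(C (1 : ℝ) * ζ) := by rw [hDζ, map_one, one_mul]
  have hcζ : coeff 0 ζ = z / 8 := by
    rw [hζ, coeff_C_mul, h0]; ring
  have hξ8 : ξ = C (8 : ℝ) * ζ := by
    rw [hζ, ← mul_assoc, ← map_mul]
    have : (8 : ℝ) * (1 / 8) = 1 := by norm_num
    rw [this, map_one, one_mul]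
  -- norms of P, Q
  have hnorm : ∀ l : List ℤ, K.nbK 687 l * 100 ≤ 687 ^ l.length →
      nrm 24 (3 / 8) (evZ ζ (1 :: l)) ≤ 101 / 100 := by
    intro l hl
    have h1 := near hNB ζ 1 687 (by norm_num) 1 l hζW (by rw [one_mul]; exact hl)
    have h2 := nrm_add 24 hr (evZ ζ (1 :: l) - C (((1 : ℤ)) : ℝ)) (C (((1 : ℤ)) : ℝ))
    rw [sub_add_cancel, nrm_C, Int.cast_one, abs_one] at h2
    rw [Int.cast_one, Nat.cast_one] at h1
    linarith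
  refine ⟨?_, ?_, ?_, ⟨-evZ ζ K.residS4, ?_, ?_⟩, ⟨-evZ ζ K.residN4, ?_, ?_⟩, ?_⟩
  · have hcons : ∃ l, Pool.Agent.TWP.Tail.cS60 = 1 :: l ∧ Pool.Agent.TWP.Tail.cS60.tail = l :=
      ⟨_, rfl, rfl⟩
    obtain ⟨l, hl1, hl2⟩ := hcons
    have hn := K.nbS4
    rw [hl2] at hn
    rw [hl1]
    exact hnorm l hn
  · have hcons : ∃ l, K.cN4 = 1 :: l ∧ K.cN4.tail = l := ⟨_, rfl, rfl⟩
    obtain ⟨l, hl1, hl2⟩ := hcons
    have hn := K.nbN4
    rw [hl2] at hn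
    rw [hl1]
    exact hnorm l hn
  · have hn := K.nbB4
    have hd := K.bL41
    generalize K.bL4.tail = L at hn hd ⊢
    cases L with
    | nil => simp at hd
    | cons a l =>
      rw [List.head?_cons, Option.some.injEq] at hd
      rw [List.tail_cons] at hn
      subst hd
      have h1 := near hNB ζ 16 687 (by norm_num) 2 l hζW hn
      have e1 : C (1 / 16 : ℝ) * evZ ζ (2 :: l) - C (1 / 8 : ℝ) =
          C (1 / 16 : ℝ) * (evZ ζ (2 :: l) - C (((2 : ℤ)) : ℝ)) := by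
        rw [mul_sub, ← map_mul]
        congr 2
        push_cast
        norm_num
      rw [e1, nrm_C_mul, abs_of_pos (by norm_num : (0 : ℝ) < 1 / 16)]
      push_cast at h1 ⊢
      linarith
  · have e1 := (hEVA ζ (K.addL (K.conv Pool.Agent.TWP.Tail.cS60 Pool.Agent.TWP.Tail.cS60) [-1])
      (0 :: K.addL (K.smulL (-4) Pool.Agent.TWP.Tail.cS60)
        (K.smulL (-12) (K.derT Pool.Agent.TWP.Tail.cS60))) 0 0).1
    have e2 := (hEVA ζ (K.conv Pool.Agent.TWP.Tail.cS60 Pool.Agent.TWP.Tail.cS60) [-1] 0 0).1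
    have e3 := (hEVA ζ Pool.Agent.TWP.Tail.cS60 Pool.Agent.TWP.Tail.cS60 0 0).2.2.2.2
    have e4 := (hEVA ζ (K.smulL (-4) Pool.Agent.TWP.Tail.cS60)
      (K.smulL (-12) (K.derT Pool.Agent.TWP.Tail.cS60)) 0 0).1
    have e5 := (hEVA ζ Pool.Agent.TWP.Tail.cS60 [] (-4) 0).2.1
    have e6 := (hEVA ζ (K.derT Pool.Agent.TWP.Tail.cS60) [] (-12) 0).2.1
    have e7 := hDE ζ 1 Pool.Agent.TWP.Tail.cS60 hDζ'
    rw [map_one, one_mul] at e7
    have hres : evZ ζ K.residS4 = evZ ζ (K.addL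
      (K.addL (K.conv Pool.Agent.TWP.Tail.cS60 Pool.Agent.TWP.Tail.cS60) [-1])
      (0 :: K.addL (K.smulL (-4) Pool.Agent.TWP.Tail.cS60)
        (K.smulL (-12) (K.derT Pool.Agent.TWP.Tail.cS60)))) := rfl
    rw [hres, e1, e2, e3]
    have h6 : evZ ζ [-1] = -1 := by
      simp only [evZ, mul_zero, add_zero]
      rw [Int.cast_neg, Int.cast_one, map_neg, map_one]
    have h7 : evZ ζ (0 :: K.addL (K.smulL (-4) Pool.Agent.TWP.Tail.cS60)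
        (K.smulL (-12) (K.derT Pool.Agent.TWP.Tail.cS60))) =
        ζ * (C (((-4 : ℤ)) : ℝ) * evZ ζ Pool.Agent.TWP.Tail.cS60 +
          C (((-12 : ℤ)) : ℝ) * D (evZ ζ Pool.Agent.TWP.Tail.cS60)) := by
      have h8 : evZ ζ (0 :: K.addL (K.smulL (-4) Pool.Agent.TWP.Tail.cS60)
          (K.smulL (-12) (K.derT Pool.Agent.TWP.Tail.cS60))) =
        C (((0 : ℤ)) : ℝ) +
          ζ * evZ ζ (K.addL (K.smulL (-4) Pool.Agent.TWP.Tail.cS60)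
            (K.smulL (-12) (K.derT Pool.Agent.TWP.Tail.cS60))) := rfl
      rw [h8, e4, e5, e6, ← e7, Int.cast_zero, map_zero, zero_add]
    rw [h6, h7, hξ8]
    generalize evZ ζ Pool.Agent.TWP.Tail.cS60 = P
    generalize D P = Q
    have c1 : (C (8 : ℝ) : ℝ⟦X⟧) * C (3 / 2 : ℝ) = 12 := by
      rw [← map_mul]
      have : (8 : ℝ) * (3 / 2) = 12 := by norm_num
      rw [this, map_ofNat]
    have c2 : (C (8 : ℝ) : ℝ⟦X⟧) * C (1 / 2 : ℝ) = 4 := by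
      rw [← map_mul]
      have : (8 : ℝ) * (1 / 2) = 4 := by norm_num
      rw [this, map_ofNat]
    have c3 : (C (((-4 : ℤ)) : ℝ) : ℝ⟦X⟧) = -4 := by
      rw [Int.cast_neg, map_neg, Int.cast_ofNat, map_ofNat]
    have c4 : (C (((-12 : ℤ)) : ℝ) : ℝ⟦X⟧) = -12 := by
      rw [Int.cast_neg, map_neg, Int.cast_ofNat, map_ofNat]
    rw [c3, c4]
    linear_combination ζ * Q * c1 + ζ * P * c2
  · intro m hm
    rw [nrm_neg]
    have := defect hNB hJN z hz.le ζ 687 (by norm_num) hDζ hcζ hζW K.residS4 (127 * 10 ^ 72)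
      K.residS40 K.residS41 m hm
    have e : ((127 * 10 ^ 72 : ℕ) : ℝ) = 127 * 10 ^ 72 := by norm_num
    rwa [e] at this
  · have e1 := (hEVA ζ (K.addL (K.conv Pool.Agent.TWP.Tail.cS60 K.cN4) [-1])
      (0 :: K.addL (K.smulL 4 K.cN4) (K.smulL (-12) (K.derT K.cN4))) 0 0).1
    have e2 := (hEVA ζ (K.conv Pool.Agent.TWP.Tail.cS60 K.cN4) [-1] 0 0).1
    have e3 := (hEVA ζ Pool.Agent.TWP.Tail.cS60 K.cN4 0 0).2.2.2.2
    have e4 := (hEVA ζ (K.smulL 4 K.cN4) (K.smulL (-12) (K.derT K.cN4)) 0 0).1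
    have e5 := (hEVA ζ K.cN4 [] 4 0).2.1
    have e6 := (hEVA ζ (K.derT K.cN4) [] (-12) 0).2.1
    have e7 := hDE ζ 1 K.cN4 hDζ'
    rw [map_one, one_mul] at e7
    have hres : evZ ζ K.residN4 = evZ ζ (K.addL
      (K.addL (K.conv Pool.Agent.TWP.Tail.cS60 K.cN4) [-1])
      (0 :: K.addL (K.smulL 4 K.cN4) (K.smulL (-12) (K.derT K.cN4)))) := rfl
    rw [hres, e1, e2, e3]
    have h6 : evZ ζ [-1] = -1 := by
      simp only [evZ, mul_zero, add_zero]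
      rw [Int.cast_neg, Int.cast_one, map_neg, map_one]
    have h7 : evZ ζ (0 :: K.addL (K.smulL 4 K.cN4) (K.smulL (-12) (K.derT K.cN4))) =
        ζ * (C (((4 : ℤ)) : ℝ) * evZ ζ K.cN4 + C (((-12 : ℤ)) : ℝ) * D (evZ ζ K.cN4)) := by
      have h8 : evZ ζ (0 :: K.addL (K.smulL 4 K.cN4) (K.smulL (-12) (K.derT K.cN4))) =
        C (((0 : ℤ)) : ℝ) +
          ζ * evZ ζ (K.addL (K.smulL 4 K.cN4) (K.smulL (-12) (K.derT K.cN4))) := rfl
      rw [h8, e4, e5, e6, ← e7, Int.cast_zero, map_zero, zero_add]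
    rw [h6, h7, hξ8]
    generalize evZ ζ K.cN4 = P
    generalize evZ ζ Pool.Agent.TWP.Tail.cS60 = P'
    generalize D P = Q
    have c1 : (C (8 : ℝ) : ℝ⟦X⟧) * C (3 / 2 : ℝ) = 12 := by
      rw [← map_mul]
      have : (8 : ℝ) * (3 / 2) = 12 := by norm_num
      rw [this, map_ofNat]
    have c2 : (C (8 : ℝ) : ℝ⟦X⟧) * C (1 / 2 : ℝ) = 4 := by
      rw [← map_mul]
      have : (8 : ℝ) * (1 / 2) = 4 := by norm_num
      rw [this, map_ofNat]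
    have c3 : (C (((4 : ℤ)) : ℝ) : ℝ⟦X⟧) = 4 := by
      rw [Int.cast_ofNat, map_ofNat]
    have c4 : (C (((-12 : ℤ)) : ℝ) : ℝ⟦X⟧) = -12 := by
      rw [Int.cast_neg, map_neg, Int.cast_ofNat, map_ofNat]
    rw [c3, c4]
    linear_combination ζ * Q * c1 - ζ * P * c2
  · intro m hm
    rw [nrm_neg]
    have := defect hNB hJN z hz.le ζ 687 (by norm_num) hDζ hcζ hζW K.residN4 (247 * 10 ^ 91)
      K.residN40 K.residN41 m hm
    have e : ((247 * 10 ^ 91 : ℕ) : ℝ) = 247 * 10 ^ 91 := by norm_num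
    rwa [e] at this
  · -- the relation of PB
    have e1 := (hEVA ζ (K.addL Pool.Agent.TWP.Tail.cS60 (K.smulL 3 (K.derT Pool.Agent.TWP.Tail.cS60)))
      (K.smulL (-1) K.cN4) 0 0).1
    have e2 := (hEVA ζ Pool.Agent.TWP.Tail.cS60 (K.smulL 3 (K.derT Pool.Agent.TWP.Tail.cS60)) 0 0).1
    have e3 := (hEVA ζ (K.derT Pool.Agent.TWP.Tail.cS60) [] 3 0).2.1
    have e4 := (hEVA ζ K.cN4 [] (-1) 0).2.1
    have e7 := hDE ζ 1 Pool.Agent.TWP.Tail.cS60 hDζ'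
    rw [map_one, one_mul] at e7
    have hb : evZ ζ K.bL4 = evZ ζ Pool.Agent.TWP.Tail.cS60 +
        C (((3 : ℤ)) : ℝ) * D (evZ ζ Pool.Agent.TWP.Tail.cS60) + C (((-1 : ℤ)) : ℝ) * evZ ζ K.cN4 := by
      have hres : evZ ζ K.bL4 = evZ ζ (K.addL (K.addL Pool.Agent.TWP.Tail.cS60
        (K.smulL 3 (K.derT Pool.Agent.TWP.Tail.cS60))) (K.smulL (-1) K.cN4)) := rfl
      rw [hres, e1, e2, e3, e4, e7]
    have hb2 : evZ ζ K.bL4 = ζ * evZ ζ K.bL4.tail := by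
      have hd := K.bL40
      generalize K.bL4 = L at hd ⊢
      cases L with
      | nil => simp at hd
      | cons a l =>
        rw [List.head?_cons, Option.some.injEq] at hd
        subst hd
        rw [List.tail_cons]
        simp only [evZ]
        rw [Int.cast_zero, map_zero, zero_add]
    rw [hξ8]
    rw [hb2] at hb
    generalize evZ ζ K.bL4.tail = B at hb ⊢
    generalize evZ ζ K.cN4 = N at hb ⊢
    generalize evZ ζ Pool.Agent.TWP.Tail.cS60 = P at hb ⊢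
    have c1 : (C (8 : ℝ) : ℝ⟦X⟧) * C (1 / 16 : ℝ) = C (1 / 2 : ℝ) := by
      rw [← map_mul]; norm_num
    have c2 : (C (3 / 2 : ℝ) : ℝ⟦X⟧) = C (1 / 2 : ℝ) * 3 := by
      rw [← map_ofNat (C : ℝ →+* ℝ⟦X⟧) 3, ← map_mul]; norm_num
    have c3 : (C (((3 : ℤ)) : ℝ) : ℝ⟦X⟧) = 3 := by
      rw [Int.cast_ofNat, map_ofNat]
    have c4 : (C (((-1 : ℤ)) : ℝ) : ℝ⟦X⟧) = -1 := by
      rw [Int.cast_neg, Int.cast_one, map_neg, map_one]
    rw [c3, c4] at hb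
    rw [c2]
    linear_combination ζ * B * c1 + C (1 / 2 : ℝ) * hb

end TWP
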