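import Pool.Agent.TWP.TailK4
set_option autoImplicit false
namespace TWP.K
set_option maxRecDepth 100000 in
theorem okR4 : checkR4 11 40 2509 (2 ^ 62) tabR4 (spR, 2 ^ 68) (spB4, 2 ^ 116) = true := by
  decide +kernel
end TWP.K
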