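import Pool.Agent.TWP.StR4
import Pool.Agent.TWP.BR
import Pool.Agent.TWP.TC4
import Pool.Agent.TWP.TCR4

/-! TWP, `β = 4`, right tail: assembly (helper66). -/

set_option autoImplicit false

namespace TWP

open PowerSeries Finset Filter Topology
open scoped ContDiff

namespace RRaux

theorem D_mul (A B : ℝ⟦X⟧) : D (A * B) = A * D B + B * D A := by
  unfold D
  rw [Derivation.leibniz]
  simp [smul_eq_mul]

theorem checkR4_some (Kn N h eW w0 c0 w1 c1 : ℕ) (tab : K.Tab) (s bb : K.AP)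
    (hok : K.checkR4 Kn N h eW ((w0, c0) :: (w1, c1) :: tab) s bb = true) :
    ∃ b, K.rightA4 N w1 c0 c1 eW s bb = some b ∧
      K.chain true N h (107 * 2 ^ 145) 1 (-2) 6 9 Kn tab b ([], 0) = true := by
  unfold K.checkR4 at hok
  simp only at hok
  split at hok
  · exact absurd hok (by simp)
  · rename_i a ha
    exact ⟨a, ha, hok⟩

end RRaux

open BRaux RRaux in
theorem RR_base (hEX : S_BEX) (hIC : S_BIC) (hV0 : S_BV0) (hRT : S_BRT) (hPR : S_RPR)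
    (hSJ : S_RSJ) (hUJ : S_RUJ) (hBJ : S_RBJ) (hNU : S_RNU) (hRF : S_BRF) (hFS : S_RFS)
    (hTA : S_TA) (hTM : S_TM) (q l e : ℝ → ℝ) (hql : QL q l)
    (he0 : ∀ s, 0 < e s) (hed : ∀ s, HasDerivAt e (q s * e s) s)
    (t : ℝ) (ht : 0 < t)
    (h1 : |l t / (-Real.sqrt t) -
      Pool.Agent.TWP.Tail.ev Pool.Agent.TWP.Tail.cS60 (Pool.Agent.TWP.Tail.zR t / 8)| ≤
      2 * 10 ^ 74 * Pool.Agent.TWP.Tail.zR t ^ 61)
    (hU : |Real.sqrt t * tF e t / q t -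
      Pool.Agent.TWP.Tail.ev K.cN4 (Pool.Agent.TWP.Tail.zR t / 8) / 2| ≤
      125 * 10 ^ 91 * Pool.Agent.TWP.Tail.zR t ^ 61)
    (h2 : q t ≤ Real.exp (-(2 / 3) * (t * Real.sqrt t))) (h3 : 1 ≤ t)
    (hz : Pool.Agent.TWP.Tail.zR t ≤ 1 / 125) :
    let ξ₁ := Tay psiT Pool.Agent.TWP.Tail.zR t
    let ξ := Tay psiT (fun s => Pool.Agent.TWP.Tail.zR s / (107 / 8192)) t
    let S := Tay psiT (fun s => -(l s) / Real.sqrt s) t
    let κ := Tay psiT (fun s => q s / Real.sqrt s) t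
    let U := Tay psiT (fun s => Real.sqrt s * tF e s / q s) t
    let z := Pool.Agent.TWP.Tail.zR t
    0 < z ∧ D ξ₁ = -ξ₁ ∧ coeff 0 ξ₁ = z ∧ ξ₁ = C (107 / 8192 : ℝ) * ξ ∧
    D ξ = -ξ ∧ |coeff 0 ξ| ≤ ((2509 : ℕ) : ℝ) / 4096 ∧
    TabOK ξ 24 (K.rs4.map fun r => (r : ℝ) / 4096) K.tabR4 ∧
    nrm 24 (3 / 8) (C (1 / 2 : ℝ) * (κ ^ 2 * (ξ₁ * B1s S (κ ^ 2) U ξ₁))) * 2 ^ 160 ≤
      ((2 ^ 62 : ℕ) : ℝ) ∧
    Ap 24 (3 / 8) ξ S (K.spR, 2 ^ 68) ∧ Ap 24 (3 / 8) ξ (B1s S (κ ^ 2) U ξ₁) (K.spB4, 2 ^ 116) ∧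
    0 < coeff 0 (B1s S (κ ^ 2) U ξ₁) := by
  intro ξ₁ ξ S κ U z
  have hsq : 0 < Real.sqrt t := Real.sqrt_pos.2 ht
  have hz0 : 0 < z := by
    show 0 < 1 / (t * Real.sqrt t)
    positivity
  obtain ⟨f1, f2, f3, f4, f5, f6⟩ := hRF q l t hql ht
  obtain ⟨u1, u2⟩ := hFS q l e t hql he0 hed ht
  have hξ : ξ = ξ₁ * C (8192 / 107 : ℝ) := by
    have := Tay_smul hTA hTM psiT Pool.Agent.TWP.Tail.zR t (8192 / 107) (smooth_psiT t)
      (smooth_zR ht)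
    rw [← this]
    show Tay psiT _ t = Tay psiT _ t
    congr 1
    funext s
    ring
  have hξ1 : ξ₁ = C (107 / 8192 : ℝ) * ξ := by
    rw [hξ, mul_comm ξ₁, ← mul_assoc, ← map_mul]
    norm_num
  have hDξ : D ξ = -ξ := by
    rw [hξ, mul_comm, D_C_mul, f1, mul_neg]
  have hc0 : coeff 0 ξ = z * (8192 / 107) := by
    rw [hξ, mul_comm, coeff_C_mul, f2, mul_comm]
  have hc0' : coeff 0 ξ ≤ 8192 / 13375 := by
    rw [hc0]
    have : z ≤ 1 / 125 := hz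
    linarith
  have hc0p : 0 < coeff 0 ξ := by rw [hc0]; positivity
  have hn : ∀ (M : ℕ) (r : ℝ), 0 ≤ r →
      nrm M r ξ ≤ ((8192 : ℕ) : ℝ) / ((13375 : ℕ) : ℝ) * Real.exp r := by
    intro M r hr
    refine ((hEX ξ hDξ hc0p).2.2.2 M r hr).1.trans ?_
    refine mul_le_mul_of_nonneg_right ?_ (Real.exp_pos r).le
    push_cast
    exact hc0'
  have hTab := hRT 8192 13375 24 K.rs4 K.tabR4 ξ (by norm_num) K.rad4 hn
  have hw : nrm 24 (3 / 8) ξ ≤ 1 := by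
    have := (unpack_tab ξ _ _ _ _ _ _ _ _ _ _ _ _ hTab).1.2.2
    have e : (((1536 : ℕ) : ℝ) / 4096) = 3 / 8 := by norm_num
    beta_reduce at this
    rw [e] at this
    refine this.trans ?_
    norm_num
  obtain ⟨p1, p2, p3, ⟨R, p4, p5⟩, ⟨R', p6, p7⟩, p8⟩ := hPR z ξ₁ hz0 hz f1 f2
  obtain ⟨n1, n2, n3, n4⟩ := hNU z hz0 hz
  have hh : (0 : ℝ) ≤ 3 / 8 := by norm_num
  -- values
  have hS0 : |coeff 0 (S - PS4 ξ₁)| ≤ 2 * 10 ^ 74 * z ^ 61 := by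
    have e1 : coeff 0 (S - PS4 ξ₁) = -(l t) / Real.sqrt t -
        Pool.Agent.TWP.Tail.ev Pool.Agent.TWP.Tail.cS60 (z / 8) := by
      rw [map_sub, f3, hV0, coeff_C_mul, f2]
      congr 2
      ring
    rw [e1, neg_div, ← div_neg]
    exact h1
  have htt : t * Real.sqrt t = 1 / z := by
    show t * Real.sqrt t = 1 / (1 / (t * Real.sqrt t))
    rw [one_div_one_div]
  have hκ0 : 100 * |coeff 0 (κ ^ 2)| ≤ 10 ^ 74 * z ^ 61 := by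
    have e2 : coeff 0 (κ ^ 2) = (q t / Real.sqrt t) ^ 2 := by
      rw [← f4, coeff_zero_eq_constantCoeff_apply, coeff_zero_eq_constantCoeff_apply, map_pow]
    rw [e2, abs_of_nonneg (sq_nonneg _)]
    refine n4 _ (div_pos (hql.pos t) hsq).le ?_
    have hs1 : 1 ≤ Real.sqrt t := Real.one_le_sqrt.mpr h3
    refine (div_le_self (hql.pos t).le hs1).trans (h2.trans ?_)
    have : -(2 / 3) * (t * Real.sqrt t) = -(2 / 3) / z := by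
      rw [htt]; ring
    rw [this]
  have hU0 : |coeff 0 (U - C (1 / 2 : ℝ) * PN4 ξ₁)| ≤ 125 * 10 ^ 91 * z ^ 61 := by
    have e1 : coeff 0 (U - C (1 / 2 : ℝ) * PN4 ξ₁) = Real.sqrt t * tF e t / q t -
        Pool.Agent.TWP.Tail.ev K.cN4 (z / 8) / 2 := by
      rw [map_sub, u1, coeff_C_mul, hV0, coeff_C_mul, f2]
      have : (1 / 8 * z : ℝ) = z / 8 := by ring
      rw [this]
      ring
    rw [e1]
    exact hU
  -- the equation of W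
  have hWeq : ξ₁ * (D (κ ^ 2) + C (2 / 3 : ℝ) * κ ^ 2) = -(C (4 / 3 : ℝ) * (S * κ ^ 2)) := by
    have hD : D (κ ^ 2) = 2 * κ * D κ := by
      rw [pow_two, D_mul]; ring
    have c1 : C (2 / 3 : ℝ) = 2 * C (1 / 3 : ℝ) := by
      have : (2 : ℝ⟦X⟧) = C (2 : ℝ) := (map_ofNat (C : ℝ →+* ℝ⟦X⟧) 2).symm
      rw [this, ← map_mul]; norm_num
    have c2 : C (4 / 3 : ℝ) = 2 * C (2 / 3 : ℝ) := by
      have : (2 : ℝ⟦X⟧) = C (2 : ℝ) := (map_ofNat (C : ℝ →+* ℝ⟦X⟧) 2).symm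
      rw [this, ← map_mul]; norm_num
    rw [hD, c2]
    have hf6 : ξ₁ * (D κ + C (1 / 3 : ℝ) * κ) = -(C (2 / 3 : ℝ) * (S * κ)) := f6
    rw [c1] at hf6 ⊢
    linear_combination (2 * κ) * hf6
  have hz61 : 0 ≤ z ^ 61 := pow_nonneg hz0.le _
  have pp : ∀ (x : ℝ) (m : ℕ), 0 ≤ x → 0 ≤ piM x m := by
    intro x m hx
    refine Finset.prod_nonneg fun j _ => ?_
    positivity
  have hz3 : (0 : ℝ) ≤ 3 / (4 * z) := by positivity
  have hz4 : (0 : ℝ) ≤ 3 / (8 * z) := by positivity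
  have hφ : (3 * 10 ^ 74 * z ^ 61 + 127 * 10 ^ 72 * z ^ 61) ≤ 43 * 10 ^ 73 * z ^ 61 := by
    nlinarith
  have hS : ∀ m ≤ 24, nrm m (3 / 8) (S - PS4 ξ₁) + 100 * nrm m (3 / 8) (κ ^ 2) ≤
      43 * 10 ^ 73 * z ^ 61 * piM (3 / (4 * z)) m := by
    intro m hm
    refine (hSJ z (127 * 10 ^ 72 * z ^ 61) (3 * 10 ^ 74 * z ^ 61) ξ₁ S (κ ^ 2) (PS4 ξ₁) R hz0 hz f1
      f2 (by positivity) (by positivity) f5 hWeq p4 p1 p5 ?_ ?_ m hm).trans ?_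
    · linarith
    · refine (mul_le_mul_of_nonneg_right hφ (pp _ _ hz3)).trans (n1.trans ?_)
      norm_num
    · exact mul_le_mul_of_nonneg_right hφ (pp _ _ hz3)
  have hs24 := hS 24 le_rfl
  have hsm : 43 * 10 ^ 73 * z ^ 61 * piM (3 / (4 * z)) 24 ≤ 1 / 1000 := n1.trans (by norm_num)
  have e372 : (125 * 10 ^ 91 * z ^ 61 + 247 * 10 ^ 91 * z ^ 61) = 372 * 10 ^ 91 * z ^ 61 := by ring
  have hUn := hUJ z (247 * 10 ^ 91 * z ^ 61) (43 * 10 ^ 73 * z ^ 61) (125 * 10 ^ 91 * z ^ 61) ξ₁ S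
    (κ ^ 2) U (PS4 ξ₁) (PN4 ξ₁) R' hz0 hz f1 f2 (by positivity) (by positivity) (by positivity) u2 p6
    p1 p2 p7 hS hsm hU0 (by rw [e372]; exact n2.trans (by norm_num)) 24 le_rfl
  rw [e372] at hUn
  have hBn := hBJ z (43 * 10 ^ 73 * z ^ 61 * piM (3 / (4 * z)) 24)
    (127 * 10 ^ 72 * z ^ 61 * piM (183 / 8) 24) _ ξ₁ S (κ ^ 2) U (PS4 ξ₁) (PN4 ξ₁) R (PB4 ξ₁) hz0 hz
    f1 f2 f5 p4 p8 p1 (p5 24 le_rfl) hs24 hsm hUn
  set B := B1s S (κ ^ 2) U ξ₁ with hB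
  set β := 1455 / 1000 / z * (1455 / 1000 / z * (203 / 100 *
    (43 * 10 ^ 73 * z ^ 61 * piM (3 / (4 * z)) 24) + 127 * 10 ^ 72 * z ^ 61 * piM (183 / 8) 24) +
    (372 * 10 ^ 91 * z ^ 61 * piM (3 / (8 * z)) 24 +
      43 * 10 ^ 73 * z ^ 61 * piM (3 / (4 * z)) 24)) with hβ
  have hβ1 : β ≤ 1 / 1000 := by
    have : β * 2 ^ 160 ≤ 2 ^ 116 := by linarith [n3, show (0 : ℝ) ≤ 2 ^ 98 by positivity]
    have h6 : (2 : ℝ) ^ 116 ≤ 1 / 1000 * 2 ^ 160 := by norm_num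
    have h7 : (0 : ℝ) < 2 ^ 160 := by positivity
    exact le_of_mul_le_mul_right (this.trans h6) h7
  have hWn : nrm 24 (3 / 8) (κ ^ 2) ≤ 1 / 10 ^ 30 := by
    have := nrm_nonneg 24 hh (S - PS4 ξ₁)
    have h6 := hs24.trans n1
    have h7 : (4 : ℝ) / 10 ^ 29 / 100 ≤ 1 / 10 ^ 30 := by norm_num
    linarith
  have hSP : nrm 24 (3 / 8) (S - PS4 ξ₁) ≤ 4 / 10 ^ 29 := by
    have := nrm_nonneg 24 hh (κ ^ 2)
    have h6 := hs24.trans n1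
    linarith
  have hBP : nrm 24 (3 / 8) (B - C (1 / 8 : ℝ)) ≤ 1 / 50 := by
    have h6 := nrm_add 24 hh (B - PB4 ξ₁) (PB4 ξ₁ - C (1 / 8 : ℝ))
    rw [sub_add_sub_cancel] at h6
    refine h6.trans ?_
    linarith
  have hBnn : nrm 24 (3 / 8) B ≤ 1 := by
    have h6 := nrm_add 24 hh (B - C (1 / 8 : ℝ)) (C (1 / 8 : ℝ))
    rw [sub_add_cancel, nrm_C] at h6
    have : |(1 / 8 : ℝ)| = 1 / 8 := abs_of_pos (by norm_num)
    linarith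
  refine ⟨hz0, f1, f2, hξ1, hDξ, ?_, hTab, ?_, ?_, ?_, ?_⟩
  · rw [abs_of_pos hc0p]
    refine hc0'.trans ?_
    norm_num
  · have hξn : nrm 24 (3 / 8) ξ₁ ≤ 1 := by
      rw [hξ1, nrm_C_mul, abs_of_pos (by norm_num : (0 : ℝ) < 107 / 8192)]
      have := nrm_nonneg 24 hh ξ
      nlinarith
    have h6 : nrm 24 (3 / 8) (ξ₁ * B) ≤ 1 := by
      refine (nrm_mul 24 hh _ _).trans ?_
      have g1 := nrm_nonneg 24 hh ξ₁
      have g2 := nrm_nonneg 24 hh B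
      nlinarith
    have h7 : nrm 24 (3 / 8) (κ ^ 2 * (ξ₁ * B)) ≤ 1 / 10 ^ 30 := by
      refine (nrm_mul 24 hh _ _).trans ?_
      have g1 := nrm_nonneg 24 hh (κ ^ 2)
      have g2 := nrm_nonneg 24 hh (ξ₁ * B)
      nlinarith
    rw [nrm_C_mul, abs_of_pos (by norm_num : (0 : ℝ) < 1 / 2)]
    have h8 : (1 / 2 : ℝ) * nrm 24 (3 / 8) (κ ^ 2 * (ξ₁ * B)) * 2 ^ 160 ≤
        1 / 2 * (1 / 10 ^ 30) * 2 ^ 160 := by
      gcongr
    refine h8.trans ?_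
    push_cast
    norm_num
  · show nrm 24 (3 / 8) (C ((2 : ℝ) ^ 160) * S - evZ ξ K.spR) ≤ (((2 ^ 68 : ℕ)) : ℝ)
    have hic := hIC 24 (3 / 8) ξ 107 65536 (2 ^ 160) 1 Pool.Agent.TWP.Tail.cS60 K.spR hh hw
      (by norm_num) (by norm_num)
    have e2 : C ((((107 : ℤ) : ℝ)) / ((65536 : ℤ) : ℝ)) * ξ = C (1 / 8 : ℝ) * ξ₁ := by
      rw [hξ1, ← mul_assoc, ← map_mul]
      norm_num
    rw [e2] at hic
    have e3 : ((((2 ^ 160 : ℤ) : ℝ)) / ((1 : ℤ) : ℝ)) = (2 : ℝ) ^ 160 := by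
      push_cast; norm_num
    rw [e3] at hic
    have hcm : ((K.cmpL 107 65536 Pool.Agent.TWP.Tail.cS60 K.spR (2 ^ 160) 1 : ℕ) : ℝ) ≤
        ((2 ^ 46 : ℕ) : ℝ) := by
      exact_mod_cast K.cmpS4
    have e4 : C ((2 : ℝ) ^ 160) * S - evZ ξ K.spR =
        C ((2 : ℝ) ^ 160) * (S - PS4 ξ₁) + (C ((2 : ℝ) ^ 160) * PS4 ξ₁ - evZ ξ K.spR) := by ring
    rw [e4]
    refine (nrm_add 24 hh _ _).trans ?_
    rw [nrm_C_mul]
    have e5 : |(2 : ℝ) ^ 160| = 2 ^ 160 := abs_of_pos (by positivity)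
    rw [e5]
    have h6 : (2 : ℝ) ^ 160 * nrm 24 (3 / 8) (S - PS4 ξ₁) ≤ 2 ^ 160 * (4 / 10 ^ 29) :=
      mul_le_mul_of_nonneg_left hSP (by positivity)
    have h7 := hic.trans hcm
    push_cast at h7 ⊢
    refine (add_le_add h6 h7).trans ?_
    norm_num
  · show nrm 24 (3 / 8) (C ((2 : ℝ) ^ 160) * B - evZ ξ K.spB4) ≤ (((2 ^ 116 : ℕ)) : ℝ)
    have hic := hIC 24 (3 / 8) ξ 107 65536 (2 ^ 160) 16 K.bL4.tail K.spB4 hh hw
      (by norm_num) (by norm_num)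
    have e2 : C ((((107 : ℤ) : ℝ)) / ((65536 : ℤ) : ℝ)) * ξ = C (1 / 8 : ℝ) * ξ₁ := by
      rw [hξ1, ← mul_assoc, ← map_mul]
      norm_num
    rw [e2] at hic
    have e3 : C ((((2 ^ 160 : ℤ) : ℝ)) / ((16 : ℤ) : ℝ)) *
        evZ (C (1 / 8 : ℝ) * ξ₁) K.bL4.tail = C ((2 : ℝ) ^ 160) * PB4 ξ₁ := by
      rw [PB4, ← mul_assoc, ← map_mul]
      congr 2
      push_cast
      norm_num
    rw [e3] at hic
    have hcm : ((K.cmpL 107 65536 K.bL4.tail K.spB4 (2 ^ 160) 16 : ℕ) : ℝ) ≤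
        ((2 ^ 98 : ℕ) : ℝ) := by
      exact_mod_cast K.cmpB4
    have e4 : C ((2 : ℝ) ^ 160) * B - evZ ξ K.spB4 =
        C ((2 : ℝ) ^ 160) * (B - PB4 ξ₁) + (C ((2 : ℝ) ^ 160) * PB4 ξ₁ - evZ ξ K.spB4) := by ring
    rw [e4]
    refine (nrm_add 24 hh _ _).trans ?_
    rw [nrm_C_mul]
    have e5 : |(2 : ℝ) ^ 160| = 2 ^ 160 := abs_of_pos (by positivity)
    rw [e5]
    have h6 : (2 : ℝ) ^ 160 * nrm 24 (3 / 8) (B - PB4 ξ₁) ≤ β * 2 ^ 160 := by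
      rw [mul_comm]
      exact mul_le_mul_of_nonneg_right hBn (by positivity)
    have h7 := hic.trans hcm
    have h8 : ((2 ^ 98 : ℕ) : ℝ) = (2 : ℝ) ^ 98 := by norm_num
    have h9 : ((2 ^ 116 : ℕ) : ℝ) = (2 : ℝ) ^ 116 := by norm_num
    rw [h8] at h7
    rw [h9]
    exact (add_le_add h6 h7).trans n3
  · have h6 := (nrm_coeff_zero 24 hh (B - C (1 / 8 : ℝ))).trans hBP
    rw [map_sub] at h6
    have h7 : coeff 0 (C (1 / 8 : ℝ) : ℝ⟦X⟧) = 1 / 8 := by simp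
    rw [h7] at h6
    have h8 := (abs_le.1 h6).1
    linarith

theorem t_RR (hEX : S_BEX) (hIC : S_BIC) (hV0 : S_BV0) (hRT : S_BRT) (hPR : S_RPR)
    (hSJ : S_RSJ) (hUJ : S_RUJ) (hBJ : S_RBJ) (hNU : S_RNU) (hRF : S_BRF) (hFS : S_RFS)
    (hMS : S_RMS) (hRA : S_RRA) (hUN : S_RUN) (hRS : S_BRS)
    (hTA : S_TA) (hTM : S_TM) (hTL : S_TL) (hCH : S_CHAIN) : S_RR := by
  intro q l e hql he0 he1 hed heT h1 h2 t ht hz
  have hsq : 0 < Real.sqrt t := Real.sqrt_pos.2 ht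
  have h128 : 125 ≤ t * Real.sqrt t := by
    have hz' : 1 / (t * Real.sqrt t) ≤ 1 / 125 := hz
    exact (one_div_le_one_div (by positivity) (by norm_num)).1 hz'
  have h25 : 25 ≤ t := by
    by_contra hlt
    push Not at hlt
    have : Real.sqrt t < 5 := by
      rw [Real.sqrt_lt' (by norm_num)]
      linarith
    nlinarith
  have h1' := h1 t h25
  have h2' := h2 t (by linarith)
  have hTd : ∀ s, HasDerivAt (tF e) (-(q s / 2) * (1 - tF e s ^ 2)) s := by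
    intro s
    have hne : (1 + e s) ≠ 0 := by have := he0 s; positivity
    have h := ((hed s).const_sub 1).div ((hed s).const_add 1) hne
    refine h.congr_deriv ?_
    unfold tF
    field_simp
    ring
  have hTb : ∀ s, 0 ≤ tF e s ∧ tF e s ≤ 1 := by
    intro s
    have g1 := he0 s
    have g2 := he1 s
    unfold tF
    constructor
    · exact div_nonneg (by linarith) (by linarith)
    · rw [div_le_one (by linarith)]
      linarith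
  have hT0 : Tendsto (tF e) atTop (𝓝 0) := by
    have h : Tendsto (fun x => (1 - e x) / (1 + e x)) atTop (𝓝 ((1 - 1) / (1 + 1))) :=
      (heT.const_sub 1).div (heT.const_add 1) (by norm_num)
    have e0 : ((1 : ℝ) - 1) / (1 + 1) = 0 := by norm_num
    rw [e0] at h
    exact h
  have hUv := hUN q l (tF e) hql.pos hql.dq hTd hTb hT0 h1 h2 t h25
  obtain ⟨hz0, f1, f2, hξ1, hDξ, hc, hTab, hW, hApS, hApB, hBpos⟩ :=
    RR_base hEX hIC hV0 hRT hPR hSJ hUJ hBJ hNU hRF hFS hTA hTM q l e hql he0 hed t ht h1' hUv h2'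
      (by linarith) hz
  obtain ⟨w0, d0, w1, d1, hT2⟩ := BRaux.unpack_tab _ _ _ _ _ _ _ _ _ _ _ _ _ hTab
  have e : (((1536 : ℕ) : ℝ) / 4096) = 3 / 8 := by norm_num
  beta_reduce at w0 d0 w1 d1 hT2
  rw [e] at w0 d0
  have hLaw : Law true (Tay psiT (fun s => Pool.Agent.TWP.Tail.zR s / (107 / 8192)) t) := by
    unfold Law; simpa using hDξ
  obtain ⟨b, hb1, hb2⟩ := RRaux.checkR4_some 11 40 2509 (2 ^ 62) _ _ _ _ _ (K.spR, 2 ^ 68)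
    (K.spB4, 2 ^ 116) K.okR4
  have hw1 : nrm 24 (3 / 8) (Tay psiT (fun s => Pool.Agent.TWP.Tail.zR s / (107 / 8192)) t) ≤ 1 := by
    refine w0.2.2.trans ?_
    norm_num
  obtain ⟨a1, a2⟩ := hRA 40 _ _ _ (2 ^ 62) _ _ _ _ _ _ _ (K.spR, 2 ^ 68) (K.spB4, 2 ^ 116) b
    hLaw hξ1 hw1 hApS hApB hW d0 w1 d1 hb1
  obtain ⟨m0, m1, m2⟩ := hMS q l _ t hql he0 hed ht a1
  have hc14 := hCH true 40 2509 (107 * 2 ^ 145) 1 (-2) 6 9 11 22 _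
    _ 0 _ _ b ([], 0) (by norm_num) hb2 hT2 hLaw hc a2
    (by simp [Ap, evZ, nrm_zero])
  rw [← m2] at hc14
  have hρ : ContDiffAt ℝ ∞ Real.sqrt t := Real.contDiffAt_sqrt ht.ne'
  have hx : ContDiffAt ℝ ∞ (fun s => Pool.Agent.TWP.Tail.zR s / (107 / 8192)) t :=
    (BRaux.smooth_zR ht).div_const _
  constructor
  · rw [m0]
    have := hql.pos t
    positivity
  · intro j hj1 hj2
    exact hTL psiT Real.sqrt (fun s => Pool.Agent.TWP.Tail.zR s / (107 / 8192)) _ t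
      (107 * 2 ^ 145) 1 (-2) 6 9 11 (BRaux.smooth_psiT t) hρ hx m1 (Real.sqrt_pos.2 ht)
      (fun a ha hpos => hRS a t ht ha hpos) hc14 j hj1 (by omega)

end TWP
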