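import Mathlib
import Pool.Agent.TWP.StR4
import Pool.Agent.TWP.KNrm

set_option autoImplicit false

/-! TWP, block R4: soundness of `rightA4` (module TWP_RRA). -/

namespace TWP

open PowerSeries

namespace RRAaux

theorem exact0 (hLIN : S_LIN) (M : ℕ) (r : ℝ) (ξ : ℝ⟦X⟧) (p : ℤ) (x : ℝ) (hr : 0 ≤ r)
    (hx : ((2 : ℝ) ^ 160)⁻¹ * (p : ℝ) = x) : Ap M r ξ (C x) ([p], 0) := by
  have h := hLIN.2.2.2.2.2 M r ξ [p] hr
  have e : C (((2 : ℝ) ^ 160)⁻¹) * evZ ξ [p] = C x := by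
    simp only [evZ]
    rw [mul_zero, add_zero, ← map_mul, hx]
  rwa [e] at h

theorem exact1 (hLIN : S_LIN) (M : ℕ) (r : ℝ) (ξ : ℝ⟦X⟧) (p : ℤ) (x : ℝ) (hr : 0 ≤ r)
    (hx : ((2 : ℝ) ^ 160)⁻¹ * (p : ℝ) = x) : Ap M r ξ (C x * ξ) ([0, p], 0) := by
  have h := hLIN.2.2.2.2.2 M r ξ [0, p] hr
  have e : C (((2 : ℝ) ^ 160)⁻¹) * evZ ξ [0, p] = C x * ξ := by
    simp only [evZ]
    rw [mul_zero, add_zero, ← hx, map_mul]
    have : (C (((0 : ℤ) : ℝ)) : ℝ⟦X⟧) = 0 := by rw [Int.cast_zero, map_zero]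
    rw [this, zero_add]; ring
  rwa [e] at h

/-- rational scaling with a given value -/
theorem scl' (hLIN : S_LIN) {M : ℕ} {r : ℝ} {ξ S : ℝ⟦X⟧} {a : K.AP} (p : ℤ) (x : ℝ) (hr : 0 ≤ r)
    (hξ : nrm M r ξ ≤ 1) (hx : (p : ℝ) / 2 ^ 160 = x) (h : Ap M r ξ S a) :
    Ap M r ξ (C x * S) (K.sclA p a) := by
  have := hLIN.2.2.1 M r ξ S a p hr hξ h
  rwa [hx] at this

end RRAaux

open RRAaux in
theorem t_RRA (hLIN : S_LIN) (hMULA : S_MULA) (hINVA : S_INVA) : S_RRA := by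
  intro N w1 c0 c1 eW r1 r2 ξ₁ ξ S W B s bb b hlaw hξ₁ hξ hS hB hW hD0 hw hD1 hb
  obtain ⟨hr, hw4, hx⟩ := id hw
  have hx1 : nrm 23 r1 ξ ≤ 1 := hx.trans (by
    rw [div_le_one (by norm_num)]; exact_mod_cast hw4)
  have hr2 : 0 ≤ r2 := hD1.1.le
  have hx2 : nrm 22 r2 ξ ≤ 1 :=
    ((nrm_mono_M (by norm_num : 22 ≤ 23) hr2 ξ).trans (nrm_mono_r 23 hr2 hD1.2.1 ξ)).trans hx1
  have aS : Ap 23 r1 ξ S s := hLIN.2.2.2.1 24 23 (3 / 8) r1 ξ S s (by norm_num) hr.le hD0.2.1 hS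
  have aB : Ap 23 r1 ξ B bb := hLIN.2.2.2.1 24 23 (3 / 8) r1 ξ B bb (by norm_num) hr.le hD0.2.1 hB
  have aDB : Ap 23 r1 ξ (D B) (K.derA true c0 bb) :=
    hLIN.2.2.2.2.1 true 24 c0 (3 / 8) r1 ξ B bb hlaw hD0 hB
  have aξ : Ap 23 r1 ξ ξ₁ ([0, 107 * 2 ^ 147], 0) := by
    rw [hξ₁]
    exact exact1 hLIN 23 r1 ξ (107 * 2 ^ 147) (107 / 8192) hr.le (by push_cast; norm_num)
  have am2 : Ap 23 r1 ξ (C (-2 : ℝ)) ([-2 * 2 ^ 160], 0) :=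
    exact0 hLIN 23 r1 ξ (-2 * 2 ^ 160) (-2) hr.le (by push_cast; norm_num)
  have aW : Ap 23 r1 ξ (C (1 / 2 : ℝ) * (W * (ξ₁ * B))) ([], eW) := by
    have h : Ap 24 (3 / 8) ξ (C (1 / 2 : ℝ) * (W * (ξ₁ * B))) ([], eW) := by
      unfold Ap
      simp only [evZ]
      rw [sub_zero, nrm_C_mul, abs_of_pos (by positivity), mul_comm]
      exact hW
    exact hLIN.2.2.2.1 24 23 (3 / 8) r1 ξ _ _ (by norm_num) hr.le hD0.2.1 h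
  have add : ∀ {S T : ℝ⟦X⟧} {a b : K.AP}, Ap 23 r1 ξ S a → Ap 23 r1 ξ T b →
      Ap 23 r1 ξ (S + T) (K.addA a b) := fun h1 h2 => hLIN.1 23 r1 ξ _ _ _ _ hr.le h1 h2
  have mul : ∀ {S T : ℝ⟦X⟧} {a b c : K.AP}, K.mulA w1 N a b = some c → Ap 23 r1 ξ S a →
      Ap 23 r1 ξ T b → Ap 23 r1 ξ (S * T) c := fun hc h1 h2 =>
    hMULA 23 r1 ξ _ _ w1 N _ _ _ hw hc h1 h2
  have am2S : Ap 23 r1 ξ (C (-2 : ℝ) * S) (K.intA (-2) s) := by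
    have h := hLIN.2.1 23 r1 ξ S s (-2) hr.le aS
    have e : (C (((-2 : ℤ) : ℝ)) : ℝ⟦X⟧) = C (-2 : ℝ) := by push_cast; rfl
    rwa [e] at h
  -- the last step
  have last : ∀ (μ : ℝ⟦X⟧) (mu : K.AP), Ap 23 r1 ξ μ mu →
      Ap 22 r2 ξ (-(C (3 / 2 : ℝ) * D μ + C (1 / 2 : ℝ) * μ))
        (K.addA (K.sclA (-(3 * 2 ^ 159)) (K.derA true c1 mu)) (K.sclA (-(2 ^ 159)) mu)) := by
    intro μ mu h
    have h1 : Ap 22 r2 ξ μ mu := hLIN.2.2.2.1 23 22 r1 r2 ξ μ mu (by norm_num) hr2 hD1.2.1 h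
    have h2 : Ap 22 r2 ξ (D μ) (K.derA true c1 mu) :=
      hLIN.2.2.2.2.1 true 23 c1 r1 r2 ξ μ mu hlaw hD1 h
    have h3 := scl' hLIN (-(3 * 2 ^ 159)) (-(3 / 2)) hr2 hx2 (by push_cast; norm_num) h2
    have h4 := scl' hLIN (-(2 ^ 159)) (-(1 / 2)) hr2 hx2 (by push_cast; norm_num) h1
    have h5 := hLIN.1 22 r2 ξ _ _ _ _ hr2 h3 h4
    have e : C (-(3 / 2) : ℝ) * D μ + C (-(1 / 2) : ℝ) * μ =
        -(C (3 / 2 : ℝ) * D μ + C (1 / 2 : ℝ) * μ) := by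
      rw [map_neg, map_neg]; ring
    rwa [e] at h5
  unfold K.rightA4 at hb
  simp only at hb
  split at hb
  case h_1 => exact absurd hb (by simp)
  case h_2 iB niB hiB =>
  have hB0 := (hINVA 23 r1 ξ B w1 N _ _ _ hw hiB aB).1
  have aiB := (hINVA 23 r1 ξ B w1 N _ _ _ hw hiB aB).2.1
  refine ⟨hB0, ?_⟩
  split at hb
  case h_1 => exact absurd hb (by simp)
  case h_2 LB hLB =>
  have aLB := mul hLB aDB aiB
  split at hb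
  case h_1 => exact absurd hb (by simp)
  case h_2 t ht =>
  have at' := mul ht aξ (add am2
    (scl' hLIN (3 * 2 ^ 159) (3 / 2) hr.le hx1 (by push_cast; norm_num) aLB))
  have amu := add (add am2S at') aW
  have emu : C (-2 : ℝ) * S + ξ₁ * (C (-2 : ℝ) + C (3 / 2 : ℝ) * (D B * B⁻¹)) +
      C (1 / 2 : ℝ) * (W * (ξ₁ * B)) = muR4 S W B ξ₁ := by
    unfold muR4
    ring
  rw [emu] at amu
  have e2 : b = K.addA (K.sclA (-(3 * 2 ^ 159)) (K.derA true c1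
      (K.addA (K.addA (K.intA (-2) s) t) ([], eW))))
      (K.sclA (-(2 ^ 159)) (K.addA (K.addA (K.intA (-2) s) t) ([], eW))) := by
    simpa using hb.symm
  rw [e2]
  exact last _ _ amu

end TWP
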