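import Mathlib
import Pool.Agent.TWP.StR4
import Pool.Agent.TWP.KNrm

/-!
# TWP, module RSJ (helper52): jets of `S - P` and `W`
-/

set_option autoImplicit false

namespace TWP

open PowerSeries Finset Filter Topology
open scoped ContDiff

namespace RSJaux

theorem D_add (A B : ℝ⟦X⟧) : D (A + B) = D A + D B := by
  unfold D
  exact map_add _ _ _

theorem C2 : (C (2 : ℝ) : ℝ⟦X⟧) = 2 := map_ofNat C 2

theorem Cab : (C (2 / 3 : ℝ) : ℝ⟦X⟧) * C (3 / 2 : ℝ) = 1 := by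
  rw [← map_mul]
  norm_num

theorem Cac : (C (2 / 3 : ℝ) : ℝ⟦X⟧) * C (1 / 2 : ℝ) = C (1 / 3 : ℝ) := by
  rw [← map_mul]
  norm_num

/-- the equation for the derivative of the error -/
theorem eqE {ξ η E W P R : ℝ⟦X⟧} (hη : ξ * η = 1)
    (hS : ξ * (C (3 / 2 : ℝ) * D (P + E) + C (1 / 2 : ℝ) * (P + E)) = (P + E) ^ 2 - 1 - 2 * W)
    (hP : ξ * (C (3 / 2 : ℝ) * D P + C (1 / 2 : ℝ) * P) = P ^ 2 - 1 + R) :
    D E = C (2 / 3 : ℝ) * (η * (C (2 : ℝ) * (P * E) + E * E - C (2 : ℝ) * W - R)) -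
      C (1 / 3 : ℝ) * E := by
  rw [D_add] at hS
  have h1 : ξ * (C (3 / 2 : ℝ) * D E + C (1 / 2 : ℝ) * E) =
      C (2 : ℝ) * (P * E) + E * E - C (2 : ℝ) * W - R := by
    rw [C2]
    linear_combination hS - hP
  have h2 : C (3 / 2 : ℝ) * D E + C (1 / 2 : ℝ) * E =
      η * (C (2 : ℝ) * (P * E) + E * E - C (2 : ℝ) * W - R) := by
    linear_combination η * h1 - (C (3 / 2 : ℝ) * D E + C (1 / 2 : ℝ) * E) * hη
  linear_combination (C (2 / 3 : ℝ) : ℝ⟦X⟧) * h2 - D E * Cab - E * Cac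

/-- the equation for the derivative of `W` -/
theorem eqW {ξ η E W P : ℝ⟦X⟧} (hη : ξ * η = 1)
    (hW : ξ * (D W + C (2 / 3 : ℝ) * W) = -(C (4 / 3 : ℝ) * ((P + E) * W))) :
    D W = -(C (4 / 3 : ℝ) * (η * (P * W + E * W))) - C (2 / 3 : ℝ) * W := by
  linear_combination η * hW - (D W + C (2 / 3 : ℝ) * W) * hη

theorem num1 {a b p h k H w : ℝ} (ha0 : 0 ≤ a) (hb0 : 0 ≤ b) (hab : a + 100 * b ≤ 1 / 1000)
    (hp : p ≤ 101 / 100) (hp0 : 0 ≤ p) (hh0 : 0 ≤ h) (hh : h ≤ H) (hH : H = 1455 / 1000 * w)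
    (hk0 : 0 ≤ k) (hw : 125 ≤ w) :
    (2 / 3 * (h * (2 * (p * a) + a * a + 2 * b + k)) + 1 / 3 * a) +
      100 * (4 / 3 * (h * (p * b + a * b)) + 2 / 3 * b) ≤
      2 * w * (a + 100 * b) + 97 / 100 * w * k := by
  have ha1 : a ≤ 1 / 1000 := by linarith
  have e1 : 2 * (p * a) + a * a + 2 * b + k ≤ 2021 / 1000 * a + 2 * b + k := by
    have f1 : p * a ≤ 101 / 100 * a := mul_le_mul_of_nonneg_right hp ha0
    have f2 : a * a ≤ 1 / 1000 * a := mul_le_mul_of_nonneg_right ha1 ha0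
    linarith
  have e2 : p * b + a * b ≤ 1011 / 1000 * b := by
    have f1 : p * b ≤ 101 / 100 * b := mul_le_mul_of_nonneg_right hp hb0
    have f2 : a * b ≤ 1 / 1000 * b := mul_le_mul_of_nonneg_right ha1 hb0
    linarith
  have hH0 : 0 ≤ H := hh0.trans hh
  have g1 : h * (2 * (p * a) + a * a + 2 * b + k) ≤ H * (2021 / 1000 * a + 2 * b + k) :=
    mul_le_mul hh e1 (by positivity) hH0
  have g2 : h * (p * b + a * b) ≤ H * (1011 / 1000 * b) := mul_le_mul hh e2 (by positivity) hH0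
  rw [hH] at g1 g2
  have hA : 125 * a ≤ w * a := mul_le_mul_of_nonneg_right hw ha0
  have hB : 125 * b ≤ w * b := mul_le_mul_of_nonneg_right hw hb0
  nlinarith

theorem piM_nonneg {x : ℝ} (hx : 0 ≤ x) (m : ℕ) : 0 ≤ piM x m := by
  unfold piM
  refine Finset.prod_nonneg fun j _ => ?_
  positivity

theorem nrm_zero_index (r : ℝ) (A : ℝ⟦X⟧) : nrm 0 r A = |coeff 0 A| := by
  unfold nrm
  simp

end RSJaux

open RSJaux in
theorem t_RSJ (hEX : S_BEX) (hGR : S_RGR) (hJN : S_RJN) : S_RSJ := by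
  intro z ρ e0 ξ S W P R hz hz1 hDξ hξ0 hρ he0 hS hW hP hPn hRn hc hδ
  obtain ⟨E, rfl⟩ : ∃ E, S = P + E := ⟨S - P, by ring⟩
  rw [add_sub_cancel_left] at hc ⊢
  obtain ⟨-, hξη, -, hηn⟩ := hEX ξ hDξ (by rw [hξ0]; exact hz)
  obtain ⟨hJ1, -, -, hexp⟩ := hJN
  have hr : (0 : ℝ) ≤ 3 / 8 := by norm_num
  have hηn' : ∀ M, nrm M (3 / 8) ξ⁻¹ ≤ 1455 / 1000 * (1 / z) := by
    intro M
    have h := (hηn M (3 / 8) hr).2
    rw [hξ0] at h
    refine h.trans ?_
    have hz' : 1 / z = z⁻¹ := one_div z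
    rw [hz', mul_comm]
    exact mul_le_mul_of_nonneg_right hexp (by positivity)
  have hDE := eqE hξη hS hP
  have hDW := eqW hξη hW
  have hw : 125 ≤ 1 / z := by
    rw [le_div_iff₀ hz]
    linarith
  have hw0 : 0 ≤ 1 / z := by positivity
  -- the bound for the derivatives
  have hder : ∀ m < 24, nrm m (3 / 8) E + 100 * nrm m (3 / 8) W ≤ 1 / 1000 →
      nrm m (3 / 8) (D E) + 100 * nrm m (3 / 8) (D W) ≤
        2 * (1 / z) * (nrm m (3 / 8) E + 100 * nrm m (3 / 8) W) +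
          97 / 100 * (1 / z) * nrm m (3 / 8) R := by
    intro m hm hN
    have n1 : nrm m (3 / 8) (D E) ≤
        2 / 3 * (nrm m (3 / 8) ξ⁻¹ * (2 * (nrm m (3 / 8) P * nrm m (3 / 8) E) +
          nrm m (3 / 8) E * nrm m (3 / 8) E + 2 * nrm m (3 / 8) W +
          nrm m (3 / 8) R)) + 1 / 3 * nrm m (3 / 8) E := by
      rw [hDE]
      refine (nrm_sub m hr _ _).trans ?_
      rw [nrm_C_mul, nrm_C_mul, abs_of_pos (by norm_num : (0 : ℝ) < 2 / 3),
        abs_of_pos (by norm_num : (0 : ℝ) < 1 / 3)]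
      have q1 : nrm m (3 / 8) (C (2 : ℝ) * (P * E) + E * E - C (2 : ℝ) * W - R) ≤
          2 * (nrm m (3 / 8) P * nrm m (3 / 8) E) +
          nrm m (3 / 8) E * nrm m (3 / 8) E + 2 * nrm m (3 / 8) W +
          nrm m (3 / 8) R := by
        refine (nrm_sub m hr _ _).trans ?_
        refine add_le_add ((nrm_sub m hr _ _).trans (add_le_add ((nrm_add m hr _ _).trans
          (add_le_add ?_ (nrm_mul m hr _ _))) ?_)) le_rfl
        · rw [nrm_C_mul, abs_of_pos (by norm_num : (0 : ℝ) < 2)]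
          exact mul_le_mul_of_nonneg_left (nrm_mul m hr _ _) (by norm_num)
        · rw [nrm_C_mul, abs_of_pos (by norm_num : (0 : ℝ) < 2)]
      have q2 := (nrm_mul m hr ξ⁻¹ (C (2 : ℝ) * (P * E) + E * E - C (2 : ℝ) * W - R)).trans
        (mul_le_mul_of_nonneg_left q1 (nrm_nonneg m hr _))
      linarith
    have n2 : nrm m (3 / 8) (D W) ≤
        4 / 3 * (nrm m (3 / 8) ξ⁻¹ * (nrm m (3 / 8) P * nrm m (3 / 8) W +
          nrm m (3 / 8) E * nrm m (3 / 8) W)) + 2 / 3 * nrm m (3 / 8) W := by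
      rw [hDW]
      refine (nrm_sub m hr _ _).trans ?_
      rw [nrm_neg, nrm_C_mul, nrm_C_mul, abs_of_pos (by norm_num : (0 : ℝ) < 4 / 3),
        abs_of_pos (by norm_num : (0 : ℝ) < 2 / 3)]
      have q1 : nrm m (3 / 8) (P * W + E * W) ≤ nrm m (3 / 8) P * nrm m (3 / 8) W +
          nrm m (3 / 8) E * nrm m (3 / 8) W :=
        (nrm_add m hr _ _).trans (add_le_add (nrm_mul m hr _ _) (nrm_mul m hr _ _))
      have q2 := (nrm_mul m hr ξ⁻¹ (P * W + E * W)).trans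
        (mul_le_mul_of_nonneg_left q1 (nrm_nonneg m hr _))
      linarith
    have hPm : nrm m (3 / 8) P ≤ 101 / 100 := (nrm_mono_M (by omega) hr P).trans hPn
    have key := num1 (nrm_nonneg m hr E) (nrm_nonneg m hr W) hN hPm (nrm_nonneg m hr P)
      (nrm_nonneg m hr ξ⁻¹) (hηn' m) rfl (nrm_nonneg m hr R) hw
    linarith
  -- the recursion
  have hy : 3 / (4 * z) = 3 / 4 * (1 / z) := by
    field_simp
  have ha0 : 0 ≤ 3 / 8 * (97 / 100) * ρ * (1 / z) := by positivity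
  have hyx : (0 : ℝ) < 3 / (4 * z) - 183 / 8 := by
    rw [hy]; linarith
  have hy0 : (0 : ℝ) ≤ 3 / (4 * z) := by positivity
  have hfrac : 3 / 8 * (97 / 100) * ρ * (1 / z) / (3 / (4 * z) - 183 / 8) ≤ ρ := by
    rw [div_le_iff₀ hyx, hy]
    nlinarith
  have hbound : ∀ m, (e0 + 3 / 8 * (97 / 100) * ρ * (1 / z) / (3 / (4 * z) - 183 / 8)) *
      piM (3 / (4 * z)) m + 0 / (3 / (4 * z) + 1 - 3 / (4 * z)) * piM (3 / (4 * z) + 1) m ≤
      (e0 + ρ) * piM (3 / (4 * z)) m := by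
    intro m
    rw [zero_div, zero_mul, add_zero]
    exact mul_le_mul_of_nonneg_right (by linarith) (piM_nonneg hy0 m)
  have hmain := hGR 24 (fun m => nrm m (3 / 8) E + 100 * nrm m (3 / 8) W) e0
    (3 / 8 * (97 / 100) * ρ * (1 / z)) 0 (183 / 8) (3 / (4 * z) + 1) (3 / (4 * z)) (1 / 1000)
    (by norm_num) (by linarith) (by linarith) ha0 le_rfl he0
    (by
      show nrm 0 (3 / 8) E + 100 * nrm 0 (3 / 8) W ≤ e0
      rw [nrm_zero_index, nrm_zero_index]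
      exact hc)
    ((hbound 24).trans hδ)
    (by
      intro m hm hN
      have hN' : nrm m (3 / 8) E + 100 * nrm m (3 / 8) W ≤ 1 / 1000 := hN
      have j1 := hJ1 m (3 / 8) E hr
      have j2 := hJ1 m (3 / 8) W hr
      have j3 := hder m hm hN'
      have j4 := hRn m (by omega)
      have hm1 : (0 : ℝ) < (m : ℝ) + 1 := by positivity
      have hc0 : (0 : ℝ) ≤ 3 / 8 / ((m : ℝ) + 1) := by positivity
      have j5 : 97 / 100 * (1 / z) * nrm m (3 / 8) R ≤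
          97 / 100 * (1 / z) * (ρ * piM (183 / 8) m) :=
        mul_le_mul_of_nonneg_left j4 (by positivity)
      have j6 : 3 / 8 / ((m : ℝ) + 1) * (nrm m (3 / 8) (D E) + 100 * nrm m (3 / 8) (D W)) ≤
          3 / 8 / ((m : ℝ) + 1) * (2 * (1 / z) * (nrm m (3 / 8) E + 100 * nrm m (3 / 8) W) +
            97 / 100 * (1 / z) * (ρ * piM (183 / 8) m)) :=
        mul_le_mul_of_nonneg_left (by linarith) hc0
      show nrm (m + 1) (3 / 8) E + 100 * nrm (m + 1) (3 / 8) W ≤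
        (nrm m (3 / 8) E + 100 * nrm m (3 / 8) W) * (1 + 3 / (4 * z) / ((m : ℝ) + 1)) +
        (3 / 8 * (97 / 100) * ρ * (1 / z) * piM (183 / 8) m + 0 * piM (3 / (4 * z) + 1) m) /
          ((m : ℝ) + 1)
      have e : (nrm m (3 / 8) E + 100 * nrm m (3 / 8) W) * (1 + 3 / (4 * z) / ((m : ℝ) + 1)) +
        (3 / 8 * (97 / 100) * ρ * (1 / z) * piM (183 / 8) m + 0 * piM (3 / (4 * z) + 1) m) /
          ((m : ℝ) + 1) = (nrm m (3 / 8) E + 100 * nrm m (3 / 8) W) +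
          3 / 8 / ((m : ℝ) + 1) * (2 * (1 / z) * (nrm m (3 / 8) E + 100 * nrm m (3 / 8) W) +
            97 / 100 * (1 / z) * (ρ * piM (183 / 8) m)) := by
        rw [hy]
        ring
      rw [e]
      linarith)
  intro m hm
  exact (hmain m hm).trans (hbound m)

end TWP
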