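import Pool.Agent.TWP.StR4
import Pool.Agent.TWP.KNrm

set_option autoImplicit false

/-! TWP, `β = 4`, module RUJ: jets of `U - Q/2`. -/

namespace TWP

open PowerSeries Finset Filter Topology
open scoped ContDiff

namespace RUJaux

theorem D_add (A B : ℝ⟦X⟧) : D (A + B) = D A + D B := by
  unfold D
  exact map_add _ _ _

theorem D_C_mul (c : ℝ) (A : ℝ⟦X⟧) : D (C c * A) = C c * D A := by
  unfold D
  rw [Derivation.leibniz]
  simp

theorem Cab : (C (2 / 3 : ℝ) : ℝ⟦X⟧) * C (3 / 2 : ℝ) = 1 := by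
  rw [← map_mul]
  norm_num

theorem Cac : (C (2 / 3 : ℝ) : ℝ⟦X⟧) * C (1 / 2 : ℝ) = C (1 / 3 : ℝ) := by
  rw [← map_mul]
  norm_num

/-- the equation for the derivative of the error -/
theorem eqE {ξ η E ε W U P Q R : ℝ⟦X⟧} (hη : ξ * η = 1) (hUe : U = C (1 / 2 : ℝ) * Q + ε)
    (hU : ξ * (C (3 / 2 : ℝ) * D U - C (1 / 2 : ℝ) * U) = (P + E) * U - C (1 / 2 : ℝ) +
      C (1 / 2 : ℝ) * (W * U ^ 2))
    (hQ : ξ * (C (3 / 2 : ℝ) * D Q - C (1 / 2 : ℝ) * Q) = P * Q - 1 + R) :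
    D ε = C (2 / 3 : ℝ) * (η * (P * ε + C (1 / 2 : ℝ) * (E * Q) + E * ε +
      C (1 / 2 : ℝ) * (W * (U * U)) - C (1 / 2 : ℝ) * R)) + C (1 / 3 : ℝ) * ε := by
  have hDU : D U = C (1 / 2 : ℝ) * D Q + D ε := by
    rw [hUe, D_add, D_C_mul]
  have h1 : ξ * (C (3 / 2 : ℝ) * D ε - C (1 / 2 : ℝ) * ε) =
      P * ε + C (1 / 2 : ℝ) * (E * Q) + E * ε +
      C (1 / 2 : ℝ) * (W * (U * U)) - C (1 / 2 : ℝ) * R := by
    rw [hDU] at hU
    have hU' : ξ * (C (3 / 2 : ℝ) * (C (1 / 2 : ℝ) * D Q + D ε) -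
        C (1 / 2 : ℝ) * (C (1 / 2 : ℝ) * Q + ε)) =
        (P + E) * (C (1 / 2 : ℝ) * Q + ε) - C (1 / 2 : ℝ) +
        C (1 / 2 : ℝ) * (W * (U * U)) := by
      have := hU
      rw [pow_two] at this
      calc ξ * (C (3 / 2 : ℝ) * (C (1 / 2 : ℝ) * D Q + D ε) -
          C (1 / 2 : ℝ) * (C (1 / 2 : ℝ) * Q + ε)) =
          ξ * (C (3 / 2 : ℝ) * (C (1 / 2 : ℝ) * D Q + D ε) - C (1 / 2 : ℝ) * U) := by rw [hUe]
        _ = (P + E) * U - C (1 / 2 : ℝ) + C (1 / 2 : ℝ) * (W * (U * U)) := this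
        _ = (P + E) * (C (1 / 2 : ℝ) * Q + ε) - C (1 / 2 : ℝ) +
            C (1 / 2 : ℝ) * (W * (U * U)) := by
          conv_lhs => rw [show (P + E) * U = (P + E) * (C (1 / 2 : ℝ) * Q + ε) by rw [← hUe]]
    linear_combination hU' - C (1 / 2 : ℝ) * hQ
  have h2 : C (3 / 2 : ℝ) * D ε - C (1 / 2 : ℝ) * ε =
      η * (P * ε + C (1 / 2 : ℝ) * (E * Q) + E * ε +
      C (1 / 2 : ℝ) * (W * (U * U)) - C (1 / 2 : ℝ) * R) := by
    linear_combination η * h1 - (C (3 / 2 : ℝ) * D ε - C (1 / 2 : ℝ) * ε) * hη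
  linear_combination (C (2 / 3 : ℝ) : ℝ⟦X⟧) * h2 - D ε * Cab + ε * Cac

theorem piM_pos {x : ℝ} (hx : 0 ≤ x) (m : ℕ) : 0 < piM x m := by
  unfold piM
  exact prod_pos fun j _ => by positivity

theorem piM_succ (x : ℝ) (m : ℕ) : piM x (m + 1) = piM x m * (1 + x / ((m : ℝ) + 1)) := by
  unfold piM
  rw [prod_range_succ]

theorem piM_mono {x : ℝ} (hx : 0 ≤ x) {m n : ℕ} (h : m ≤ n) : piM x m ≤ piM x n := by
  induction h with
  | refl => exact le_rfl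
  | step _ ih =>
    rename_i k _
    refine ih.trans ?_
    rw [piM_succ]
    have h1 : 0 ≤ x / ((k : ℝ) + 1) := by positivity
    have h2 := (piM_pos hx k).le
    nlinarith [mul_nonneg h2 h1]

/-- the numerical estimate: `a = nrm ε`, `e = nrm E`, `w = nrm W`, `h = nrm η`, `k = nrm R`. -/
theorem num1 {a e w p q u h k v : ℝ} (ha0 : 0 ≤ a) (ha1 : a ≤ 1 / 1000) (he0 : 0 ≤ e)
    (hw0 : 0 ≤ w) (he1 : e + 100 * w ≤ 1 / 1000) (hp0 : 0 ≤ p) (hp : p ≤ 101 / 100)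
    (hq0 : 0 ≤ q) (hq : q ≤ 101 / 100) (hu0 : 0 ≤ u) (hu : u ≤ 1 / 2 * q + a) (hh0 : 0 ≤ h)
    (hh : h ≤ 1455 / 1000 * v) (hk0 : 0 ≤ k) (hv : 125 ≤ v) :
    2 / 3 * (h * (p * a + 1 / 2 * (e * q) + e * a + 1 / 2 * (w * (u * u)) + 1 / 2 * k)) +
      1 / 3 * a ≤ v * a + 1 / 2 * v * (e + 100 * w + k) := by
  have hu1 : u ≤ 506 / 1000 := by linarith
  have hu2 : u * u ≤ 258 / 1000 := by nlinarith
  have e1 : p * a ≤ 101 / 100 * a := mul_le_mul_of_nonneg_right hp ha0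
  have e2 : e * q ≤ e * (101 / 100) := mul_le_mul_of_nonneg_left hq he0
  have e3 : e * a ≤ 1 / 1000 * a := mul_le_mul_of_nonneg_right (by linarith) ha0
  have e4 : w * (u * u) ≤ w * (258 / 1000) := mul_le_mul_of_nonneg_left hu2 hw0
  have hX : p * a + 1 / 2 * (e * q) + e * a + 1 / 2 * (w * (u * u)) + 1 / 2 * k ≤
      1011 / 1000 * a + 505 / 1000 * e + 129 / 1000 * w + 1 / 2 * k := by linarith
  have hv0 : 0 ≤ v := by linarith
  have g1 : h * (p * a + 1 / 2 * (e * q) + e * a + 1 / 2 * (w * (u * u)) + 1 / 2 * k) ≤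
      1455 / 1000 * v * (1011 / 1000 * a + 505 / 1000 * e + 129 / 1000 * w + 1 / 2 * k) :=
    mul_le_mul hh hX (by positivity) (by positivity)
  have f1 : 125 * a ≤ v * a := mul_le_mul_of_nonneg_right hv ha0
  have f2 : 0 ≤ v * e := mul_nonneg hv0 he0
  have f3 : 0 ≤ v * w := mul_nonneg hv0 hw0
  have f4 : 0 ≤ v * k := mul_nonneg hv0 hk0
  nlinarith

end RUJaux

open RUJaux in
/-- RUJ (jets of `U - Q/2`) -/
theorem t_RUJ (hEX : S_BEX) (hGR : S_RGR) (hJN : S_RJN) : S_RUJ := by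
  intro z ρ φ e0 ξ S W U P Q R hz hz1 hDξ hξ0 hρ hφ he0 hU hQ hPn hQn hRn hSn hs1 hc hδ
  obtain ⟨E, rfl⟩ : ∃ E, S = P + E := ⟨S - P, by ring⟩
  obtain ⟨ε, hε⟩ : ∃ ε, U = C (1 / 2 : ℝ) * Q + ε := ⟨U - C (1 / 2 : ℝ) * Q, by ring⟩
  have hεU : U - C (1 / 2 : ℝ) * Q = ε := by
    rw [hε]
    ring
  rw [hεU] at hc ⊢
  simp only [add_sub_cancel_left] at hSn
  obtain ⟨-, hξη, -, hηn⟩ := hEX ξ hDξ (by rw [hξ0]; exact hz)
  obtain ⟨hJ1, -, -, hexp⟩ := hJN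
  have hr : (0 : ℝ) ≤ 3 / 8 := by norm_num
  have hz0 : z ≠ 0 := hz.ne'
  have hηn' : ∀ M, nrm M (3 / 8) ξ⁻¹ ≤ 1455 / 1000 * (1 / z) := by
    intro M
    have h := (hηn M (3 / 8) hr).2
    rw [hξ0] at h
    refine h.trans ?_
    have hz' : 1 / z = z⁻¹ := one_div z
    rw [hz', mul_comm]
    exact mul_le_mul_of_nonneg_right hexp (by positivity)
  have hDε := eqE hξη hε hU hQ
  have hv : 125 ≤ 1 / z := by
    rw [le_div_iff₀ hz]
    linarith
  have hx2 : (0 : ℝ) ≤ 3 / (4 * z) := by positivity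
  have hy0 : (0 : ℝ) ≤ 3 / (8 * z) := by positivity
  have hx1 : (0 : ℝ) ≤ 183 / 8 := by norm_num
  -- the bound for the derivative
  have hder : ∀ m < 24, nrm m (3 / 8) ε ≤ 1 / 1000 →
      nrm m (3 / 8) (D ε) ≤ 1 / z * nrm m (3 / 8) ε + 1 / 2 * (1 / z) *
        (φ * piM (3 / (4 * z)) m + ρ * piM (183 / 8) m) := by
    intro m hm hN
    have n1 : nrm m (3 / 8) (D ε) ≤
        2 / 3 * (nrm m (3 / 8) ξ⁻¹ * (nrm m (3 / 8) P * nrm m (3 / 8) ε +
          1 / 2 * (nrm m (3 / 8) E * nrm m (3 / 8) Q) + nrm m (3 / 8) E * nrm m (3 / 8) ε +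
          1 / 2 * (nrm m (3 / 8) W * (nrm m (3 / 8) U * nrm m (3 / 8) U)) +
          1 / 2 * nrm m (3 / 8) R)) + 1 / 3 * nrm m (3 / 8) ε := by
      rw [hDε]
      refine (nrm_add m hr _ _).trans ?_
      rw [nrm_C_mul, nrm_C_mul, abs_of_pos (by norm_num : (0 : ℝ) < 2 / 3),
        abs_of_pos (by norm_num : (0 : ℝ) < 1 / 3)]
      have q1 : nrm m (3 / 8) (P * ε + C (1 / 2 : ℝ) * (E * Q) + E * ε +
          C (1 / 2 : ℝ) * (W * (U * U)) - C (1 / 2 : ℝ) * R) ≤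
          nrm m (3 / 8) P * nrm m (3 / 8) ε +
          1 / 2 * (nrm m (3 / 8) E * nrm m (3 / 8) Q) + nrm m (3 / 8) E * nrm m (3 / 8) ε +
          1 / 2 * (nrm m (3 / 8) W * (nrm m (3 / 8) U * nrm m (3 / 8) U)) +
          1 / 2 * nrm m (3 / 8) R := by
        refine (nrm_sub m hr _ _).trans ?_
        refine add_le_add ((nrm_add m hr _ _).trans (add_le_add ((nrm_add m hr _ _).trans
          (add_le_add ((nrm_add m hr _ _).trans (add_le_add (nrm_mul m hr _ _) ?_))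
          (nrm_mul m hr _ _))) ?_)) ?_
        · rw [nrm_C_mul, abs_of_pos (by norm_num : (0 : ℝ) < 1 / 2)]
          exact mul_le_mul_of_nonneg_left (nrm_mul m hr _ _) (by norm_num)
        · rw [nrm_C_mul, abs_of_pos (by norm_num : (0 : ℝ) < 1 / 2)]
          refine mul_le_mul_of_nonneg_left ((nrm_mul m hr _ _).trans ?_) (by norm_num)
          exact mul_le_mul_of_nonneg_left (nrm_mul m hr _ _) (nrm_nonneg m hr _)
        · rw [nrm_C_mul, abs_of_pos (by norm_num : (0 : ℝ) < 1 / 2)]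
      have q2 := (nrm_mul m hr ξ⁻¹ (P * ε + C (1 / 2 : ℝ) * (E * Q) + E * ε +
          C (1 / 2 : ℝ) * (W * (U * U)) - C (1 / 2 : ℝ) * R)).trans
        (mul_le_mul_of_nonneg_left q1 (nrm_nonneg m hr _))
      linarith
    have hPm : nrm m (3 / 8) P ≤ 101 / 100 := (nrm_mono_M (by omega) hr P).trans hPn
    have hQm : nrm m (3 / 8) Q ≤ 101 / 100 := (nrm_mono_M (by omega) hr Q).trans hQn
    have hRm := hRn m (by omega)
    have hSm := hSn m (by omega)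
    have hS1 : nrm m (3 / 8) E + 100 * nrm m (3 / 8) W ≤ 1 / 1000 := by
      refine hSm.trans (le_trans ?_ hs1)
      exact mul_le_mul_of_nonneg_left (piM_mono hx2 (by omega)) hφ
    have hUm : nrm m (3 / 8) U ≤ 1 / 2 * nrm m (3 / 8) Q + nrm m (3 / 8) ε := by
      rw [hε]
      refine (nrm_add m hr _ _).trans ?_
      rw [nrm_C_mul, abs_of_pos (by norm_num : (0 : ℝ) < 1 / 2)]
    have key := num1 (nrm_nonneg m hr ε) hN (nrm_nonneg m hr E) (nrm_nonneg m hr W) hS1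
      (nrm_nonneg m hr P) hPm (nrm_nonneg m hr Q) hQm (nrm_nonneg m hr U) hUm
      (nrm_nonneg m hr ξ⁻¹) (hηn' m) (nrm_nonneg m hr R) hv
    refine n1.trans (key.trans ?_)
    have hv2 : 0 ≤ 1 / 2 * (1 / z) := by positivity
    have := mul_le_mul_of_nonneg_left (add_le_add hSm hRm) hv2
    linarith
  -- Gronwall
  have hxy : (183 / 8 : ℝ) < 3 / (8 * z) := by
    rw [lt_div_iff₀ (by positivity)]
    linarith
  have hyx : 3 / (8 * z) < 3 / (4 * z) := by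
    have h1 : 3 / (4 * z) = 2 * (3 / (8 * z)) := by
      field_simp
      norm_num
    have h2 : (0 : ℝ) < 3 / (8 * z) := by positivity
    linarith
  have ha : 3 / 16 * (ρ / z) / (3 / (8 * z) - 183 / 8) ≤ ρ := by
    rw [div_le_iff₀ (by linarith)]
    have h1 : ρ * (3 / (8 * z) - 183 / 8) = ρ / z * (3 / 8 - 183 / 8 * z) := by
      field_simp
    rw [h1, mul_comm (3 / 16 : ℝ)]
    exact mul_le_mul_of_nonneg_left (by linarith) (by positivity)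
  have hb : 3 / 16 * (φ / z) / (3 / (4 * z) - 3 / (8 * z)) ≤ φ := by
    have h1 : 3 / 16 * (φ / z) / (3 / (4 * z) - 3 / (8 * z)) = φ / 2 := by
      have h2 : 3 / (4 * z) - 3 / (8 * z) = 3 / (8 * z) := by
        field_simp
        norm_num
      rw [h2]
      field_simp
      ring
    rw [h1]
    linarith
  have hbound : ∀ m, (e0 + 3 / 16 * (ρ / z) / (3 / (8 * z) - 183 / 8)) * piM (3 / (8 * z)) m +
      3 / 16 * (φ / z) / (3 / (4 * z) - 3 / (8 * z)) * piM (3 / (4 * z)) m ≤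
      (e0 + ρ) * piM (3 / (8 * z)) m + φ * piM (3 / (4 * z)) m := by
    intro m
    refine add_le_add ?_ ?_
    · exact mul_le_mul_of_nonneg_right (by linarith) (piM_pos hy0 m).le
    · exact mul_le_mul_of_nonneg_right hb (piM_pos hx2 m).le
  have hmain := hGR 24 (fun m => nrm m (3 / 8) ε) e0 (3 / 16 * (ρ / z)) (3 / 16 * (φ / z))
    (183 / 8) (3 / (4 * z)) (3 / (8 * z)) (1 / 1000) hx1 hxy hyx (by positivity) (by positivity)
    he0 ?_ ((hbound 24).trans hδ) ?_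
  · intro m hm
    exact (hmain m hm).trans (hbound m)
  · show nrm 0 (3 / 8) ε ≤ e0
    refine le_trans (le_of_eq ?_) hc
    unfold nrm
    simp
  · intro m hm hN
    show nrm (m + 1) (3 / 8) ε ≤ nrm m (3 / 8) ε * (1 + 3 / (8 * z) / ((m : ℝ) + 1)) +
      (3 / 16 * (ρ / z) * piM (183 / 8) m + 3 / 16 * (φ / z) * piM (3 / (4 * z)) m) /
        ((m : ℝ) + 1)
    have h1 := hJ1 m (3 / 8) ε hr
    have h2 := hder m hm hN
    have hm0 : (0 : ℝ) < (m : ℝ) + 1 := by positivity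
    have h3 : 3 / 8 / ((m : ℝ) + 1) * nrm m (3 / 8) (D ε) ≤
        3 / 8 / ((m : ℝ) + 1) * (1 / z * nrm m (3 / 8) ε + 1 / 2 * (1 / z) *
        (φ * piM (3 / (4 * z)) m + ρ * piM (183 / 8) m)) :=
      mul_le_mul_of_nonneg_left h2 (by positivity)
    refine h1.trans ((add_le_add le_rfl h3).trans (le_of_eq ?_))
    field_simp
    ring

end TWP
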