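import Pool.Agent.TWP.StR4

/-! TWP, `β = 4`, right tail: the value of `U = √t T/q` (helper66). -/

set_option autoImplicit false

namespace TWP
namespace RUNaux

open Pool.Agent.TWP.Tail Filter Topology Set

def defN : List ℤ :=
  addL (addL (mulL cS60 K.cN4) [-1]) (0 :: addL (smulL 4 K.cN4) (smulL 12 (thL 0 K.cN4)))

theorem ev_defN (y : ℝ) : ev defN y =
    ev cS60 y * ev K.cN4 y - 1 + y * (4 * ev K.cN4 y + 12 * (y * dv K.cN4 y)) := by
  simp only [defN, ev_addL, ev_mulL, ev_smulL, ev_thL, ev_cons, ev_nil]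
  push_cast
  ring

theorem defN_zero : ∀ a ∈ defN.take 61, a = 0 := by decide +kernel
theorem defN_bd : 1000 * nb 1000 (defN.drop 61) ≤
    247 * 10 ^ 91 * 8 ^ 61 * 1000 ^ (defN.drop 61).length := by decide +kernel
theorem cN_norm : 4 * nb 1000 K.cN4.tail ≤ 1 * 1000 ^ K.cN4.tail.length := by decide +kernel
theorem cN_headD : K.cN4.headD 0 = 1 := by decide +kernel
theorem cS_headD : cS60.headD 0 = 1 := by decide +kernel
theorem cS_headD2 : cS60.tail.headD 0 = 2 := by decide +kernel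
theorem cS_norm2 : 4 * nb 1000 cS60.tail.tail ≤ 1 * 1000 ^ cS60.tail.tail.length := by
  decide +kernel

theorem abs_defN (y : ℝ) (hy0 : 0 ≤ y) (hy : y * 1000 ≤ 1) :
    |ev defN y| ≤ 247 * 10 ^ 91 * (8 ^ 61 * y ^ 61) := by
  rw [ev_split 61, ev_zeros _ _ defN_zero, zero_add, abs_mul, abs_of_nonneg (pow_nonneg hy0 _)]
  have h1 := abs_ev_le 1000 (by norm_num) (defN.drop 61) y
    (by rw [abs_of_nonneg hy0]; exact_mod_cast hy)
  have h2 : ((1000 : ℤ) : ℝ) * nb 1000 (defN.drop 61) ≤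
      247 * 10 ^ 91 * 8 ^ 61 * ((1000 : ℤ) : ℝ) ^ (defN.drop 61).length := by
    exact_mod_cast defN_bd
  have h3 : (0 : ℝ) < ((1000 : ℤ) : ℝ) ^ (defN.drop 61).length := by positivity
  have h4 : |ev (defN.drop 61) y| ≤ 247 * 10 ^ 91 * 8 ^ 61 :=
    le_of_mul_le_mul_right (h1.trans h2) h3
  calc y ^ 61 * |ev (defN.drop 61) y| ≤ y ^ 61 * (247 * 10 ^ 91 * 8 ^ 61) :=
        mul_le_mul_of_nonneg_left h4 (pow_nonneg hy0 _)
    _ = _ := by ring

theorem cN_near (y : ℝ) (hy0 : 0 ≤ y) (hy : y * 1000 ≤ 1) : |ev K.cN4 y - 1| ≤ 1 / 4 := by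
  rw [ev_head K.cN4, cN_headD]
  have h1 := y_ev_le 1000 (by norm_num) 4 _ (by norm_num) _ cN_norm y hy0
    (by exact_mod_cast hy)
  push_cast at h1 ⊢
  rw [add_sub_cancel_left]
  linarith

theorem cS_ge (y : ℝ) (hy0 : 0 ≤ y) (hy : y * 1000 ≤ 1) : 1 + y ≤ ev cS60 y := by
  rw [ev_head cS60, cS_headD, ev_head cS60.tail, cS_headD2]
  have h1 := y_ev_le 1000 (by norm_num) 4 _ (by norm_num) _ cS_norm2 y hy0
    (by exact_mod_cast hy)
  push_cast at h1 ⊢
  have h2 := neg_abs_le (y * ev cS60.tail.tail y)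
  nlinarith

theorem nn (f f' : ℝ → ℝ) (h : ∀ t, 25 ≤ t → HasDerivAt f (f' t) t) (hn : ∀ t, 25 ≤ t → f' t ≤ 0)
    (h0 : Tendsto f atTop (𝓝 0)) (t : ℝ) (ht : 25 ≤ t) : 0 ≤ f t := by
  have hanti : AntitoneOn f (Ici 25) := antitoneOn_of_deriv_nonpos (convex_Ici 25)
    (fun s hs => (h s hs).continuousAt.continuousWithinAt)
    (fun s hs => (h s (interior_subset hs)).differentiableAt.differentiableWithinAt)
    (fun s hs => by
      rw [(h s (interior_subset hs)).deriv]
      exact hn s (interior_subset hs))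
  refine le_of_tendsto h0 ?_
  filter_upwards [eventually_ge_atTop t] with s hs
  exact hanti ht (le_trans ht hs) hs

end RUNaux

open RUNaux Pool.Agent.TWP.Tail Filter Topology Set

theorem t_RUN : S_RUN := by
  intro q l T hpos hq hT hTb hT0 hl hC
  have hz : ∀ t, 25 ≤ t → 0 < zR t ∧ zR t ≤ 1 / 125 := fun t ht =>
    ⟨zR_pos t (by linarith), zR_le t ht⟩
  have hy : ∀ t, 25 ≤ t → 0 ≤ zR t / 8 ∧ zR t / 8 * 1000 ≤ 1 := by
    intro t ht
    have := hz t ht
    constructor <;> linarith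
  have hs : ∀ t, 25 ≤ t → 5 ≤ Real.sqrt t := by
    intro t ht
    apply Real.le_sqrt_of_sq_le; norm_num; exact ht
  -- S = - l / √t
  set S : ℝ → ℝ := fun t => -(l t) / Real.sqrt t with hS
  have hSc : ∀ t, 25 ≤ t → |S t - ev cS60 (zR t / 8)| ≤ 2 * 10 ^ 74 * zR t ^ 61 := by
    intro t ht
    have h1 := hl t ht
    have e : l t / (-Real.sqrt t) = S t := by rw [hS]; simp only; rw [div_neg, neg_div]
    rwa [e] at h1
  have hz61 : ∀ t, 25 ≤ t → 2 * 10 ^ 74 * zR t ^ 61 ≤ zR t / 8 := by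
    intro t ht
    obtain ⟨h1, h2⟩ := hz t ht
    have h3 : zR t ^ 60 ≤ (1 / 125) ^ 60 := pow_le_pow_left₀ h1.le h2 60
    have h4 : (2 : ℝ) * 10 ^ 74 * (1 / 125) ^ 60 ≤ 1 / 8 := by norm_num
    have h5 : 2 * 10 ^ 74 * zR t ^ 61 = zR t * (2 * 10 ^ 74 * zR t ^ 60) := by ring
    rw [h5]
    have h6 : 2 * 10 ^ 74 * zR t ^ 60 ≤ 1 / 8 := by
      refine le_trans ?_ h4
      gcongr
    nlinarith
  have hS1 : ∀ t, 25 ≤ t → 1 ≤ S t := by
    intro t ht
    have h1 := (abs_le.1 (hSc t ht)).1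
    have h2 := cS_ge _ (hy t ht).1 (hy t ht).2
    have h3 := hz61 t ht
    linarith
  -- κ = q / √t
  set κ : ℝ → ℝ := fun t => q t / Real.sqrt t with hκ
  have hκpos : ∀ t, 25 ≤ t → 0 < κ t := fun t ht => div_pos (hpos t) (by linarith [hs t ht])
  have hκd : ∀ t, 25 ≤ t → HasDerivAt κ (-(q t * (S t + zR t / 2))) t := by
    intro t ht
    have ht0 : 0 < t := by linarith
    have h1 := hs t ht
    have h2 := (hq t).div (Real.hasDerivAt_sqrt ht0.ne') (by linarith)
    refine h2.congr_deriv ?_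
    have h3 : Real.sqrt t ^ 2 = t := Real.sq_sqrt ht0.le
    have hs0 : Real.sqrt t ≠ 0 := by linarith
    rw [hS]
    simp only [zR]
    generalize Real.sqrt t = s at *
    subst h3
    field_simp
    ring
  have hq1 : ∀ t, 25 ≤ t → q t ≤ 1 := by
    intro t ht
    refine (hC t (by linarith)).trans (Real.exp_le_one_iff.2 ?_)
    have := hs t ht
    nlinarith
  have hκ0 : Tendsto κ atTop (𝓝 0) := by
    have h1 : Tendsto (fun t : ℝ => 1 / Real.sqrt t) atTop (𝓝 0) := by
      have h := (tendsto_inv_atTop_zero (𝕜 := ℝ)).comp Real.tendsto_sqrt_atTop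
      simpa [Function.comp_def] using h
    refine tendsto_of_tendsto_of_tendsto_of_le_of_le' tendsto_const_nhds h1 ?_ ?_
    · filter_upwards [eventually_ge_atTop (25 : ℝ)] with t ht
      exact (hκpos t ht).le
    · filter_upwards [eventually_ge_atTop (25 : ℝ)] with t ht
      have := hs t ht
      exact div_le_div_of_nonneg_right (hq1 t ht) (by linarith)
  -- T ≤ κ / 2
  have hTκ : ∀ t, 25 ≤ t → T t ≤ κ t / 2 := by
    intro t ht
    have h := nn (fun t => κ t / 2 - T t)
      (fun t => -(q t * (S t + zR t / 2)) / 2 - -(q t / 2) * (1 - T t ^ 2))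
      (fun s hs' => ((hκd s hs').div_const 2).sub (hT s))
      (fun s hs' => by
        have h1 := hS1 s hs'
        have h2 := (hz s hs').1
        have h3 := hpos s
        have h4 := sq_nonneg (T s)
        have h5 : 0 ≤ q s * (S s - 1 + zR s / 2 + T s ^ 2) := by
          apply mul_nonneg h3.le
          linarith
        nlinarith)
      (by
        have := (hκ0.div_const 2).sub hT0
        simpa using this) t ht
    linarith
  have hκ2 : ∀ t, 25 ≤ t → κ t ^ 2 ≤ 10 ^ 70 * zR t ^ 61 := by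
    intro t ht
    have h1 := small_q60 hpos hC t ht
    have h2 : κ t ^ 2 = q t ^ 2 / t := by
      rw [hκ]
      simp only
      rw [div_pow, Real.sq_sqrt (by linarith)]
    rw [h2, div_le_iff₀ (by linarith)]
    have h3 := sq_nonneg (q t)
    nlinarith
  -- P
  set P : ℝ → ℝ := fun t => ev K.cN4 (zR t / 8) / 2 with hP
  have hPd : ∀ t, 25 ≤ t →
      HasDerivAt P (dv K.cN4 (zR t / 8) * (-(3 / 2) * (zR t / t) / 8) / 2) t := by
    intro t ht
    have h1 := (hasDerivAt_zR t (by linarith)).div_const 8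
    exact (HasDerivAt.comp t (hasDerivAt_ev K.cN4 (zR t / 8)) h1).div_const 2
  have hPb : ∀ t, 25 ≤ t → |P t| ≤ 1 := by
    intro t ht
    have h1 := abs_le.1 (cN_near _ (hy t ht).1 (hy t ht).2)
    rw [abs_le]
    constructor <;> simp only [hP] <;> linarith [h1.1, h1.2]
  -- the derivative of V = T - κ P
  have hV : ∀ t, 25 ≤ t → ∃ r : ℝ, |r| ≤ 125 * 10 ^ 91 * zR t ^ 61 ∧
      HasDerivAt (fun t => T t - κ t * P t) (q t * r) t := by
    intro t ht
    have ht0 : 0 < t := by linarith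
    refine ⟨T t ^ 2 / 2 + (ev defN (zR t / 8) + (S t - ev cS60 (zR t / 8)) *
      ev K.cN4 (zR t / 8)) / 2, ?_, ?_⟩
    · have h1 := abs_defN _ (hy t ht).1 (hy t ht).2
      have h2 : (8 : ℝ) ^ 61 * (zR t / 8) ^ 61 = zR t ^ 61 := by
        rw [div_pow]; field_simp
      rw [h2] at h1
      have h3 := hSc t ht
      have h4 : |ev K.cN4 (zR t / 8)| ≤ 5 / 4 := by
        have := abs_le.1 (cN_near _ (hy t ht).1 (hy t ht).2)
        rw [abs_le]; constructor <;> linarith [this.1, this.2]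
      have h5 : |(S t - ev cS60 (zR t / 8)) * ev K.cN4 (zR t / 8)| ≤
          2 * 10 ^ 74 * zR t ^ 61 * (5 / 4) := by
        rw [abs_mul]
        exact mul_le_mul h3 h4 (abs_nonneg _) (by have := (hz t ht).1; positivity)
      have h6 : 0 ≤ T t ^ 2 ∧ T t ^ 2 ≤ 10 ^ 70 * zR t ^ 61 := by
        have h7 := hTκ t ht
        have h8 := (hTb t).1
        have h9 := (hκpos t ht).le
        have h10 := hκ2 t ht
        constructor
        · positivity
        · nlinarith
      have h7 : 0 ≤ zR t ^ 61 := pow_nonneg (hz t ht).1.le _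
      have h8 := abs_le.1 h1
      have h9 := abs_le.1 h5
      rw [abs_le]
      constructor <;> nlinarith [h8.1, h8.2, h9.1, h9.2, h6.1, h6.2]
    · have h1 := (hT t).sub ((hκd t ht).mul (hPd t ht))
      refine h1.congr_deriv ?_
      rw [ev_defN]
      have h3 : Real.sqrt t ^ 2 = t := Real.sq_sqrt ht0.le
      have hs0 : Real.sqrt t ≠ 0 := by linarith [hs t ht]
      have e1 : zR t / t = zR t / t := rfl
      have e2 : κ t * (zR t / t) = q t * zR t ^ 2 := by
        rw [hκ]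
        simp only [zR]
        generalize Real.sqrt t = s at *
        subst h3
        field_simp
      simp only [hP]
      linear_combination (-(dv K.cN4 (zR t / 8)) * (-(3 / 2) / 8) / 2) * e2
  -- Φ = C z^61 κ
  have hΦd : ∀ t, 25 ≤ t → ∃ w : ℝ, w ≤ -(q t * (125 * 10 ^ 91 * zR t ^ 61)) ∧
      HasDerivAt (fun t => 125 * 10 ^ 91 * zR t ^ 61 * κ t) w t := by
    intro t ht
    have ht0 : 0 < t := by linarith
    have h1 := (((hasDerivAt_zR t ht0).pow 61).const_mul (125 * 10 ^ 91 : ℝ)).mul (hκd t ht)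
    refine ⟨_, ?_, h1⟩
    have h2 := hS1 t ht
    have h3 := (hz t ht).1
    have h4 := hκpos t ht
    have h5 := hpos t
    have h6 : 0 ≤ zR t ^ 61 := pow_nonneg h3.le _
    have h7 : 0 ≤ 125 * 10 ^ 91 * zR t ^ 61 * (q t * (S t + zR t / 2 - 1)) := by
      apply mul_nonneg (by positivity)
      apply mul_nonneg h5.le
      linarith
    have h8 : 0 ≤ 125 * 10 ^ 91 * (61 * zR t ^ 60 * (3 / 2 * (zR t / t))) * κ t := by
      positivity
    have e : ((61 : ℕ) : ℝ) = 61 := by norm_num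
    simp only [Nat.add_one_sub_one, e]
    norm_num at h7 h8 ⊢
    nlinarith
  have hκP0 : Tendsto (fun t => T t - κ t * P t) atTop (𝓝 0) := by
    have h1 : Tendsto (fun t => κ t * P t) atTop (𝓝 0) := by
      rw [tendsto_zero_iff_abs_tendsto_zero]
      refine tendsto_of_tendsto_of_tendsto_of_le_of_le' tendsto_const_nhds hκ0 ?_ ?_
      · exact Eventually.of_forall fun t => abs_nonneg _
      · filter_upwards [eventually_ge_atTop (25 : ℝ)] with t ht
        have h2 := hPb t ht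
        have h3 := (hκpos t ht).le
        simp only [Function.comp]
        rw [abs_mul, abs_of_nonneg h3]
        nlinarith
    simpa using hT0.sub h1
  have hΦ0 : Tendsto (fun t => 125 * 10 ^ 91 * zR t ^ 61 * κ t) atTop (𝓝 0) := by
    have h1 : Tendsto (fun t => (125 * 10 ^ 91 : ℝ) * κ t) atTop (𝓝 0) := by
      simpa using hκ0.const_mul (125 * 10 ^ 91 : ℝ)
    refine tendsto_of_tendsto_of_tendsto_of_le_of_le' tendsto_const_nhds h1 ?_ ?_
    · filter_upwards [eventually_ge_atTop (25 : ℝ)] with t ht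
      have h2 := (hz t ht).1
      have h3 := hκpos t ht
      positivity
    · filter_upwards [eventually_ge_atTop (25 : ℝ)] with t ht
      have h2 := hz t ht
      have h3 := hκpos t ht
      have h4 : zR t ^ 61 ≤ 1 := pow_le_one₀ h2.1.le (by linarith [h2.2])
      have h5 : 0 ≤ (125 * 10 ^ 91 : ℝ) * κ t := by positivity
      calc 125 * 10 ^ 91 * zR t ^ 61 * κ t = (125 * 10 ^ 91 * κ t) * zR t ^ 61 := by ring
        _ ≤ (125 * 10 ^ 91 * κ t) * 1 := mul_le_mul_of_nonneg_left h4 h5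
        _ = _ := by ring
  intro t ht
  choose! r hr1 hr2 using hV
  choose! w hw1 hw2 using hΦd
  have hp := nn (fun t => 125 * 10 ^ 91 * zR t ^ 61 * κ t + (T t - κ t * P t))
    (fun t => w t + q t * r t) (fun s hs' => (hw2 s hs').add (hr2 s hs'))
    (fun s hs' => by
      have h1 := hw1 s hs'
      have h2 := (abs_le.1 (hr1 s hs')).2
      have h3 := (hpos s).le
      nlinarith) (by simpa using hΦ0.add hκP0) t ht
  have hm := nn (fun t => 125 * 10 ^ 91 * zR t ^ 61 * κ t - (T t - κ t * P t))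
    (fun t => w t - q t * r t) (fun s hs' => (hw2 s hs').sub (hr2 s hs'))
    (fun s hs' => by
      have h1 := hw1 s hs'
      have h2 := (abs_le.1 (hr1 s hs')).1
      have h3 := (hpos s).le
      nlinarith) (by simpa using hΦ0.sub hκP0) t ht
  have hk := hκpos t ht
  have hs0 := hs t ht
  have e : Real.sqrt t * T t / q t = T t / κ t := by
    rw [hκ]
    simp only
    have := (hpos t).ne'
    field_simp
  have e2 : Real.sqrt t * T t / q t - ev K.cN4 (zR t / 8) / 2 = (T t - κ t * P t) / κ t := by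
    rw [e, sub_div, mul_div_cancel_left₀ _ hk.ne']
  rw [e2, abs_div, abs_of_pos hk, div_le_iff₀ hk, abs_le]
  constructor <;> linarith

end TWP
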