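import Pool.Agent.TWP.BFin
import Pool.Agent.TWP.BTail
import Pool.Agent.TWP.RGR
import Pool.Agent.TWP.RJN
import Pool.Agent.TWP.RPR
import Pool.Agent.TWP.RSJ
import Pool.Agent.TWP.RUJ
import Pool.Agent.TWP.RBJ
import Pool.Agent.TWP.RNU
import Pool.Agent.TWP.RFS
import Pool.Agent.TWP.RMS
import Pool.Agent.TWP.RRA
import Pool.Agent.TWP.RUN
import Pool.Agent.TWP.RR
import Pool.Agent.TWP.F4N

/-! TWP, `β = 4`: the right tail without hypotheses, and the value of `ν` at `25` (helper66). -/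

set_option autoImplicit false

namespace TWP

open Filter Topology MeasureTheory Set
open scoped ContDiff

theorem rPR : S_RPR := t_RPR t_BEX t_BNB t_BDE kEVA t_RJN
theorem rSJ : S_RSJ := t_RSJ t_BEX t_RGR t_RJN
theorem rUJ : S_RUJ := t_RUJ t_BEX t_RGR t_RJN
theorem rBJ : S_RBJ := t_RBJ t_BEX t_RJN
theorem rRA : S_RRA := t_RRA kLIN kMULA kINVA

theorem rR : S_RR :=
  t_RR t_BEX t_BIC t_BV0 t_BRT rPR rSJ rUJ rBJ t_RNU t_BRF t_RFS t_RMS rRA t_RUN t_BRS bTA bTM bTL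
    kCHAIN

section

variable {q : ℝ → ℝ} (h : IsHM q)

include h

theorem IsHM.eF_le_one (t : ℝ) : eF q t ≤ 1 := by
  unfold eF
  refine Real.exp_le_one_iff.2 ?_
  have : 0 ≤ ∫ x in Ioi t, q x := setIntegral_nonneg measurableSet_Ioi fun x _ => (h.pos x).le
  linarith

theorem IsHM.eF_tendsto : Tendsto (eF q) atTop (𝓝 1) := by
  have h0 : Tendsto (fun t => ∫ x in Ioi t, q x) atTop (𝓝 0) := F12.tail_tendsto h.q_int
  have h1 : Tendsto (fun t => Real.exp (-∫ x in Ioi t, q x)) atTop (𝓝 (Real.exp (-0))) :=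
    (Real.continuous_exp.tendsto _).comp h0.neg
  rw [neg_zero, Real.exp_zero] at h1
  exact h1

/-- the hypotheses on `l` and `q` of the right tail -/
theorem IsHM.l60 (t : ℝ) (ht : 25 ≤ t) : |deriv q t / q t / (-Real.sqrt t) -
    Pool.Agent.TWP.Tail.ev Pool.Agent.TWP.Tail.cS60 (Pool.Agent.TWP.Tail.zR t / 8)| ≤
      2 * 10 ^ 74 * Pool.Agent.TWP.Tail.zR t ^ 61 := by
  obtain ⟨C, hC⟩ := h.bdd
  exact Pool.Agent.TWP.Tail.H2_60 h.ode1 h.ode2 h.pos hC h.one_le t ht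

/-- **R4**: the right tail, `β = 4` -/
theorem IsHM.right4 (t : ℝ) (ht : 25 ≤ t) :
    0 < bF q (fun t => deriv q t / q t) (eF q) t ∧ ∀ j, 1 ≤ j → j ≤ 12 →
      0 < toda (mFour q (fun t => deriv q t / q t) (eF q)) j t ∧
      ContDiffAt ℝ ∞ (toda (mFour q (fun t => deriv q t / q t) (eF q)) j) t :=
  rR q (fun t => deriv q t / q t) (eF q) h.ql (eF_pos q) h.eF_le_one h.eF_deriv h.eF_tendsto h.l60
    h.upb t (by linarith) (Pool.Agent.TWP.Tail.zR_le t ht)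

/-- the value of `ν` on the right -/
theorem IsHM.nu_right (t : ℝ) (ht : 25 ≤ t) : |Real.sqrt t * nuF q t -
    Pool.Agent.TWP.Tail.ev K.cN4 (Pool.Agent.TWP.Tail.zR t / 8) / 2| ≤
      125 * 10 ^ 91 * Pool.Agent.TWP.Tail.zR t ^ 61 := by
  have hT0 : Tendsto (tF (eF q)) atTop (𝓝 0) := by
    have h1 : Tendsto (fun x => (1 - eF q x) / (1 + eF q x)) atTop (𝓝 ((1 - 1) / (1 + 1))) :=
      (h.eF_tendsto.const_sub 1).div (h.eF_tendsto.const_add 1) (by norm_num)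
    have e0 : ((1 : ℝ) - 1) / (1 + 1) = 0 := by norm_num
    rw [e0] at h1
    exact h1
  have hTd : ∀ s, HasDerivAt (tF (eF q)) (-(q s / 2) * (1 - tF (eF q) s ^ 2)) s := by
    intro s
    have hne : (1 + eF q s) ≠ 0 := by have := eF_pos q s; positivity
    have h := ((h.eF_deriv s).const_sub 1).div ((h.eF_deriv s).const_add 1) hne
    refine h.congr_deriv ?_
    unfold tF
    field_simp
    ring
  have h1 := t_RUN q (fun t => deriv q t / q t) (tF (eF q)) h.pos h.ql.dq hTd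
    (fun s => ⟨(h.tF_bounds s).1.le, (h.tF_bounds s).2.le⟩) hT0 h.l60 h.upb t ht
  have e : Real.sqrt t * tF (eF q) t / q t = Real.sqrt t * nuF q t := by
    unfold nuF
    ring
  rwa [e] at h1

/-- at `t = 25`: `|2^160 ν(25) - 2^160 ev cN4 (1/1000)/10| ≤ 2^44` -/
theorem IsHM.nu25 : |(2 : ℝ) ^ 160 * nuF q 25 -
    2 ^ 160 * (Pool.Agent.TWP.Tail.ev K.cN4 (1 / 1000) / 10)| ≤ 2 ^ 44 := by
  have h1 := h.nu_right 25 le_rfl
  have h5 : Real.sqrt 25 = 5 := by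
    rw [show (25 : ℝ) = 5 ^ 2 by norm_num]
    exact Real.sqrt_sq (by norm_num)
  have hz : Pool.Agent.TWP.Tail.zR 25 = 1 / 125 := by
    unfold Pool.Agent.TWP.Tail.zR
    rw [h5]; norm_num
  rw [h5, hz] at h1
  have e1 : (1 / 125 / 8 : ℝ) = 1 / 1000 := by norm_num
  rw [e1] at h1
  have e2 : (2 : ℝ) ^ 160 * nuF q 25 - 2 ^ 160 * (Pool.Agent.TWP.Tail.ev K.cN4 (1 / 1000) / 10) =
      2 ^ 160 / 5 * (5 * nuF q 25 - Pool.Agent.TWP.Tail.ev K.cN4 (1 / 1000) / 2) := by ring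
  rw [e2, abs_mul, abs_of_pos (by positivity : (0 : ℝ) < 2 ^ 160 / 5)]
  refine (mul_le_mul_of_nonneg_left h1 (by positivity)).trans ?_
  norm_num

end

end TWP
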