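import Pool.Agent.TWP.Defs
import Pool.Agent.TWP.StT

/-! TWP, block L: the LOCAL negative half (upper bound of the Polya frequency order from ONE point).
Every `S_xxx` is a module `TWP_L_xxx` (`theorem TWP.L.t_xxx : … → S_xxx`, file `Pool/Agent/TWP/Lxxx.lean`).
`TWP.P.wr`, `TWP.P.red`, `TWP.P.sy` are in `StT.lean`. -/

namespace TWP.L

open Filter Topology
open scoped ContDiff

/-- `N`-th forward difference with step `h` -/
noncomputable def fd (h : ℝ) : ℕ → (ℝ → ℝ) → ℝ → ℝ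
  | 0 => fun g => g
  | N + 1 => fun g t => fd h N g (t + h) - fd h N g t

/-- MVD: mean value theorem for differences. Proof. Induction on `N` for all `g`, `t`:
`fd h (N+1) g t = fd h N G t` with `G s = g (s + h) - g s` (linearity/commutation, a small induction), so
`= h^N * iteratedDeriv N G ξ`, `ξ ∈ [t, t + N h]`, and `iteratedDeriv N G ξ = iteratedDeriv N g (ξ + h) -
iteratedDeriv N g ξ = h * iteratedDeriv (N+1) g η`, `η ∈ (ξ, ξ + h)`. -/
def S_MVD : Prop := ∀ (N : ℕ) (g : ℝ → ℝ) (h t : ℝ), ContDiff ℝ ∞ g → 0 < h →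
  ∃ ξ, t ≤ ξ ∧ ξ ≤ t + N * h ∧ fd h N g t = h ^ N * iteratedDeriv N g ξ

/-- FDL: the limit of the differences. Proof. MVD and continuity of `iteratedDeriv N g` (squeeze for `ξ`). -/
def S_FDL : Prop := ∀ (N j : ℕ) (g : ℝ → ℝ) (t0 : ℝ), ContDiff ℝ ∞ g →
  Tendsto (fun h : ℝ => fd h N g (t0 - j * h) / h ^ N) (𝓝[>] 0) (𝓝 (iteratedDeriv N g t0))

/-- LU: triangular row and column operations. Proof. Let `L i k = (-1)^(i-k) * (i.choose k)` for `k ≤ i`, `0` else: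
lower triangular with diagonal 1, `det L = 1`. For every `g`: `∑ k, L i k * g (t + k h) = fd h i g t`
(binomial formula for the differences, induction on `i`). With `F i j = g (t0 + (i - j) h)`:
`(L * F) i j = fd h i g (t0 - j h)` and `(L * F * Lᵀ) i j = ∑ k, L j k * fd h i g (t0 - k h) =
(-1)^j * fd h (i + j) g (t0 - j h)` (the same formula for the function `s ↦ fd h i g (2 t0 - s)`-type reflection:
`∑ k ≤ j, (-1)^(j-k) (j.choose k) G (t0 - k h) = (-1)^j fd h j G (t0 - j h)`, by `k ↦ j - k`), and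
`fd h j (fd h i g) = fd h (i + j) g`. -/
def S_LU : Prop := ∀ (n : ℕ) (g : ℝ → ℝ) (t0 h : ℝ),
  (Matrix.of fun i j : Fin n => g ((t0 + (i : ℕ) * h) - (j : ℕ) * h)).det =
    (Matrix.of fun i j : Fin n => (-1) ^ (j : ℕ) * fd h ((i : ℕ) + (j : ℕ)) g (t0 - (j : ℕ) * h)).det

/-- PFD: `PF_n` gives the sign of the determinant of the derivatives. Proof. For `h > 0` take `x i = t0 + i h`,
`y j = j h`: the left side of LU is `≥ 0`. Divide by `h ^ (∑ i + ∑ j) > 0` (`Matrix.det_mul_row`/`det_mul_column`: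
`det (r i * A i j * c j) = (∏ r i) (det A) (∏ c j)`): `0 ≤ det ((-1)^j * fd h (i+j) g (t0 - j h) / h^(i+j))` for all
`h > 0`; let `h → 0+` (FDL, continuity of `det`: `Continuous.matrix_det` / `tendsto` of a finite sum of products),
`ge_of_tendsto`. The case `n = 0` is trivial (`det = 1`). -/
def S_PFD : Prop := ∀ (n : ℕ) (f : ℝ → ℝ), ContDiff ℝ ∞ f → IsPF n f →
  ∀ t0, 0 ≤ (Matrix.of fun i j : Fin n => (-1) ^ (j : ℕ) * iteratedDeriv ((i : ℕ) + (j : ℕ)) f t0).det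

/-- WRL: local Wronskian reduction. Proof. As `S_WL`, `S_WC`, `S_WR` of StT.lean (proved in PWL, PWC, PWR: copy the
proofs), with germs: near `x` `u 0 ≠ 0` and `u j = u 0 * (u j / u 0)`, `u 0 / u 0 = 1`;
`iteratedDeriv_mul` needs only `ContDiffAt` at `x`; `Filter.EventuallyEq.iteratedDeriv_eq` (the value of
`iteratedDeriv i` at `x` depends only on the germ); `iteratedDeriv (i+1) g = iteratedDeriv i (deriv g)`. -/
def S_WRL : Prop := ∀ (m : ℕ) (u : ℕ → ℝ → ℝ) (x : ℝ), (∀ j, ContDiffAt ℝ ∞ (u j) x) → u 0 x ≠ 0 →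
  P.wr (m + 1) u x = u 0 x ^ (m + 1) * P.wr m (P.red u) x

/-- SYL: local form of `S_SY` (PSY.lean, `SyInv`, `syStep`: copy the proof; every `∀ t` becomes
`∀ᶠ t in 𝓝 t0`, every `ContDiff` becomes `ContDiffAt … t0`, positivity only at `t0`, hence near `t0`; the
derivative of a function which is eventually equal to another is eventually equal, `Filter.EventuallyEq.deriv`). -/
def S_SYL : Prop := ∀ (f m : ℝ → ℝ) (n : ℕ) (t0 : ℝ), ContDiff ℝ ∞ f → (∀ t, 0 < f t) →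
  (∀ t, HasDerivAt f (m t * f t) t) → (∀ k, 1 ≤ k → k < n → 0 < toda m k t0) →
  (∀ k, k ≤ n → ∀ j, ContDiffAt ℝ ∞ (P.sy f k j) t0) ∧ (∀ k, 1 ≤ k → k ≤ n → P.sy f k 0 t0 = toda m k t0)

/-- WS: sign of the Wronskian of a system whose reduced systems start positive, the last one negative.
Proof. Induction on `n`, for all `k`: `wr (n+1) (sy f k) t0 = (sy f k 0 t0)^(n+1) * wr n (sy f (k+1)) t0` (WRL,
`sy f (k+1) = red (sy f k)`); `n = 0`: `wr 1 (sy f k) t0 = sy f k 0 t0 < 0`. -/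
def S_WS : Prop := ∀ (f : ℝ → ℝ) (t0 : ℝ) (n k : ℕ),
  (∀ l, l ≤ n → ∀ j, ContDiffAt ℝ ∞ (P.sy f (k + l) j) t0) →
  (∀ l, l < n → 0 < P.sy f (k + l) 0 t0) → P.sy f (k + n) 0 t0 < 0 → P.wr (n + 1) (P.sy f k) t0 < 0

/-- T2L: the local negative half. Proof. Otherwise PFD (`n + 1`) gives `0 ≤ det ((-1)^j f^(i+j)(t0))`, and this
determinant is `wr (n+1) (sy f 0) t0` (`iteratedDeriv i (fun t => (-1)^j * iteratedDeriv j f t) t0 =
(-1)^j * iteratedDeriv (i+j) f t0`), which is negative by WS (`k = 0`: `sy f 0 0 = f > 0`,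
`sy f l 0 t0 = toda m l t0` for `l ≥ 1`, SYL). -/
def S_T2L : Prop := ∀ (f m : ℝ → ℝ) (n : ℕ) (t0 : ℝ), 1 ≤ n → ContDiff ℝ ∞ f → (∀ t, 0 < f t) →
  (∀ t, HasDerivAt f (m t * f t) t) → (∀ k, 1 ≤ k → k < n → 0 < toda m k t0) → toda m n t0 < 0 →
  ¬ IsPF (n + 1) f

end TWP.L
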