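import Pool.Agent.TWP.StMid
import Pool.Agent.TWP.F4N
import Pool.Agent.TWP.Eng4

/-! TWP, middle charts of `β = 4`: statements (the soundness of `baseT`, `checkM4`, `checkMN4`).
Every `S_xxx` is a module `TWP_xxx` (`theorem TWP.t_xxx : … → S_xxx`). Put all auxiliary lemmas in the
namespace `TWP.xxxm` (a name of your own). The norm lemmas are in `KNrm.lean`, the soundness of the engine
without hypotheses (`kEVA, kMUL, kDER, kNL, kLIN, kMULA, kINVA, kCHAIN, kCHAINN`) is `KFin.lean`. -/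

namespace TWP

open PowerSeries Filter Topology
open scoped ContDiff

/-- what `baseT N M h r0 ln etaT k4 L Q T G = some GT` says (`r3` residual bound, `Lam` Lipschitz constant,
`R4` the right side; everything in units of `2^-160`). -/
structure TBS (M h r0 ln etaT k4 : ℕ) (L Q T : List ℤ) (G GT r3 Lam R4 : ℕ) : Prop where
  res3 : ∀ (M' : ℕ) (r : ℝ) (ξ : ℝ⟦X⟧), 0 < r → nrm M' r ξ ≤ 1 →
    nrm M' r (pZ ξ (K.derM T) + (C ((ln : ℝ) / 128) + (-(C ((ln : ℝ) / 128)) * (pZ ξ Q * pZ ξ T) ^ 2 +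
      C ((ln : ℝ) / 64) * (pZ ξ L * pZ ξ T)))) ≤ (r3 : ℝ) / 2 ^ 160
  lam1 : (2 : ℝ) ^ 160 ≤ Lam
  lam2 : (ln : ℝ) / 64 * (((K.nL 4096 Q : ℝ) / 2 ^ 160 + 1 / 1000) *
    ((K.nL 4096 Q : ℝ) / 2 ^ 160 * ((K.nL 4096 T : ℝ) / 2 ^ 160) + 1 / 1000) +
    (K.nL 4096 L : ℝ) / 2 ^ 160 + 1 / 1000) ≤ (Lam : ℝ) / 2 ^ 160
  r4 : (ln : ℝ) / 64 * ((K.nL 4096 T : ℝ) / 2 ^ 160 * ((G : ℝ) / 2 ^ 160) *
    ((K.nL 4096 Q : ℝ) / 2 ^ 160 * ((K.nL 4096 T : ℝ) / 2 ^ 160) + 1 / 1000 + 1)) +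
    (r3 : ℝ) / 2 ^ 160 ≤ (R4 : ℝ) / 2 ^ 160
  r4pos : 0 < R4
  lam3 : (Lam : ℝ) * h ≤ k4 * 2 ^ 160 * 4096
  eps1 : (G : ℝ) / 2 ^ 160 ≤ 1 / 1000
  fin : ((K.nL 4096 Q : ℝ) / 2 ^ 160 + (G : ℝ) / 2 ^ 160) * ((GT : ℝ) / 2 ^ 160) +
    (K.nL 4096 T : ℝ) / 2 ^ 160 * ((G : ℝ) / 2 ^ 160) ≤ 1 / 1000
  eqG : GT = K.prodUp (Lam * r0 / 4096 + 1) M ((etaT + R4) * 3 ^ k4 + R4)

/-- TB. Hypotheses LIN, MULA, NL. Proof. Unfold `baseT`, `resT` (split the matches);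
`r3 = nL 4096 R.1 + R.2`, `e = ONE/1000 + 1 ≥ 2^160/1000`,
`qt = nL 4096 Q * nL 4096 T / ONE + 1 + e ≥ 2^160 (nq nt + 1/1000)` (`nq = nL 4096 Q / 2^160`, …), natural
divisions `a / b + 1 ≥ a/b` (`GB_div` in `FGB.lean`). `res3`: with `w = 4096` (`Okw M' r ξ 4096` from `0 < r`,
`nrm ξ ≤ 1`): LIN (6) `Ap M' r ξ (pZ ξ P) (P, 0)` for `P = L, Q, T, derM T`, and
`Ap (C (ln/128)) ([ln * 2^153], 0)` (`C (2^160)⁻¹ * evZ ξ [ln*2^153] = C (ln/128)`), MULA three times, LIN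
(`addA`, `sclA`: `-(ln*2^153)/2^160 = -(ln/128)`, `ln*2^154/2^160 = ln/64`); the sum `S` has `Ap M' r ξ S R`, so
`2^160 nrm S ≤ nrm (evZ ξ R.1) + R.2 ≤ nL 4096 R.1 + R.2` (NL). -/
def S_TB : Prop := ∀ (N M h r0 ln etaT k4 : ℕ) (L Q T : List ℤ) (G GT : ℕ),
  K.baseT N M h r0 ln etaT k4 L Q T G = some GT →
  ∃ r3 Lam R4 : ℕ, TBS M h r0 ln etaT k4 L Q T G GT r3 Lam R4

/-- GR4: Gronwall on the real interval for `ν`, with a bootstrap. Proof. `E u = nu (c + λ u) - pt u`,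
`F = q nu - pq pt = q E + (q - pq) pt`, `|F| ≤ (nq + eps) |E| + nt eps`,
`l nu - pl pt = l E + (l - pl) pt`, `|·| ≤ (nl + eps) |E| + nt eps`,
`(q nu)² - (pq pt)² = F (2 pq pt + F)`. `E' = -λ (l nu - pl pt) + (λ/2) F (2 pq pt + F) - (residual)`, so as
long as `|F| ≤ 1/1000`: `|E'| ≤ Lam |E| + R4`. Boundary function (Mathlib
`image_norm_le_of_norm_deriv_right_lt_deriv_boundary'`, as in `gr_aux` of `FGR.lean`)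
`B x = (e0 + R4) exp ((Lam + θ) x) - R4` with `θ = k (log 3 - 1)/h > 0` (`k ≥ 1` because `0 < Lam h ≤ k`),
`(Lam + θ) h ≤ k log 3`, so `B x ≤ (e0 + R4) 3^k` on `[0,h]`; at a point with `|E| = B x` the last hypothesis
gives `|F| ≤ 1/1000`, so `|E'| ≤ Lam B + R4 < (Lam + θ) (B + R4) = B'` (`Lam ≥ 1`, `R4 > 0`). On `[-h,0]` by
reflection `u ↦ -u` (as in `GR_gron`). -/
def S_GR4 : Prop := ∀ (q l nu : ℝ → ℝ) (c lam h e0 r3 nl nq nt eps Lam R4 : ℝ) (k : ℕ)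
  (pl pq pt pt' : ℝ → ℝ),
  QLN q l nu → 0 < lam → 0 < h → 0 ≤ r3 → 0 ≤ e0 → 0 ≤ eps → eps ≤ 1 / 1000 →
  (∀ u, HasDerivAt pt (pt' u) u) →
  (∀ u, |u| ≤ h → |pl u| ≤ nl ∧ |pq u| ≤ nq ∧ |pt u| ≤ nt ∧
    |l (c + lam * u) - pl u| ≤ eps ∧ |q (c + lam * u) - pq u| ≤ eps ∧
    |pt' u + (lam / 2 + (-(lam / 2) * (pq u * pt u) ^ 2 + lam * (pl u * pt u)))| ≤ r3) →
  |nu c - pt 0| ≤ e0 →
  1 ≤ Lam → lam * ((nq + 1 / 1000) * (nq * nt + 1 / 1000) + nl + 1 / 1000) ≤ Lam →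
  lam * (nt * eps * (nq * nt + 1 / 1000 + 1)) + r3 ≤ R4 → 0 < R4 → Lam * h ≤ k →
  (nq + eps) * ((e0 + R4) * 3 ^ k) + nt * eps ≤ 1 / 1000 →
  ∀ u, |u| ≤ h → |nu (c + lam * u) - pt u| ≤ (e0 + R4) * 3 ^ k

/-- JE4: jets from the constant coefficients, for `ν`. Proof: as `JE` (`MJE.lean`). `E = v - pT`,
`F = q v - pQ pT = q E + (q - pQ) pT`; `D E = -C λ (l E + (l - pL) pT) + C (λ/2) F (2 pQ pT + F) - (residual)`.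
`N_m = nrm m r E`; `N_m + R4 ≤ (G0 + R4) ∏_(j<m) (1 + r Lam/(j+1))` by induction on `m ≤ M`: `nrm m F ≤ (nq + eps)
N_m + nt eps ≤ 1/1000` (last hypothesis, the product is increasing), so `nrm m (D E) ≤ Lam N_m + R4 ≤
Lam (N_m + R4)`, and `(m+1) |coeff (m+1) E| r^(m+1) ≤ r nrm m (D E)`. -/
def S_JE4 : Prop := ∀ (M : ℕ) (r lam r3 nl nq nt eps Lam R4 G0 : ℝ) (l q v pL pQ pT : ℝ⟦X⟧),
  0 < r → r ≤ 1 → 0 < lam → 0 ≤ r3 → 0 ≤ G0 → 0 ≤ eps → eps ≤ 1 / 1000 →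
  D v = C lam * (C (1 / 2 : ℝ) * (q * v) ^ 2 - C (1 / 2 : ℝ) - l * v) →
  nrm M r (D pT + (C (lam / 2) + (-(C (lam / 2)) * (pQ * pT) ^ 2 + C lam * (pL * pT)))) ≤ r3 →
  nrm M r pL ≤ nl → nrm M r pQ ≤ nq → nrm M r pT ≤ nt →
  nrm M r (l - pL) ≤ eps → nrm M r (q - pQ) ≤ eps →
  1 ≤ Lam → lam * ((nq + 1 / 1000) * (nq * nt + 1 / 1000) + nl + 1 / 1000) ≤ Lam →
  lam * (nt * eps * (nq * nt + 1 / 1000 + 1)) + r3 ≤ R4 →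
  |coeff 0 (v - pT)| ≤ G0 →
  (nq + eps) * ((G0 + R4) * ∏ m ∈ Finset.range M, (1 + r * Lam / (m + 1))) + nt * eps ≤ 1 / 1000 →
  nrm M r (v - pT) ≤ (G0 + R4) * ∏ m ∈ Finset.range M, (1 + r * Lam / (m + 1))

/-- GI4: the interval part. Hypotheses GA, GR4. Proof. As GI (`FGI.lean`): GR4 with `lam = ln/64`, `c = cn/64`,
`h/4096`, `e0 = etaT/2^160`, `eps = G/2^160`, `nl = nL 4096 L/2^160`, …, `pl u = evR u L/2^160`, …, `pt' u =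
evR u (derM T)/2^160` (GA); the residual at `u` is `res3` for `M' = 0`, `r = 1`, `ξ = C u`
(`nrm 0 r S = |coeff 0 S|`). The last hypothesis of GR4 from `fin` and `(etaT + R4) 3^k4 ≤ GT`
(`prodUp x M p ≥ p`: `GIm.prodUp_ge`). -/
def S_GI4 : Prop := ∀ (q l nu : ℝ → ℝ) (M h r0 : ℕ) (cn : ℤ) (ln etaT k4 : ℕ) (L Q T : List ℤ)
  (G GT r3 Lam R4 : ℕ), QLN q l nu → h + r0 = 4096 → 0 < r0 → 0 < h → 0 < ln →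
  TBS M h r0 ln etaT k4 L Q T G GT r3 Lam R4 →
  (∀ u : ℝ, |u| ≤ (h : ℝ) / 4096 →
    |(2 : ℝ) ^ 160 * l ((cn : ℝ) / 64 + (ln : ℝ) / 64 * u) - evR u L| ≤ (G : ℝ) ∧
    |(2 : ℝ) ^ 160 * q ((cn : ℝ) / 64 + (ln : ℝ) / 64 * u) - evR u Q| ≤ (G : ℝ)) →
  |(2 : ℝ) ^ 160 * nu ((cn : ℝ) / 64) - (T.headD 0 : ℤ)| ≤ etaT →
  ∀ u : ℝ, |u| ≤ (h : ℝ) / 4096 →
    |(2 : ℝ) ^ 160 * nu ((cn : ℝ) / 64 + (ln : ℝ) / 64 * u) - evR u T| ≤ ((etaT + R4) * 3 ^ k4 : ℕ)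

/-- QS4: smoothness of `ν` (bootstrap, as `QS` in `FQS.lean`, with `QS` for `q`, `l`). -/
def S_QS4 : Prop := ∀ q l nu : ℝ → ℝ, QLN q l nu → ContDiff ℝ ∞ nu

/-- GJ4: the jets. Hypotheses GA, DER, NL, PU, JE4, QS4. Proof. As GJ (`FGJ.lean`: copy it, with the ODE of
the Taylor series `D (Tay λ nu t) = C λ * (C (1/2) * (Tay λ q t * Tay λ nu t)^2 - C (1/2) - Tay λ l t * Tay λ nu t)`
from TC, TA, TM, `QLN.dn`). -/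
def S_GJ4 : Prop := ∀ (q l nu : ℝ → ℝ) (M h r0 : ℕ) (cn : ℤ) (ln etaT k4 : ℕ) (L Q T : List ℤ)
  (G GT r3 Lam R4 : ℕ), QLN q l nu → h + r0 = 4096 → 0 < r0 → 0 < h → 0 < ln →
  TBS M h r0 ln etaT k4 L Q T G GT r3 Lam R4 →
  ∀ t u : ℝ, u = (t - (cn : ℝ) / 64) / ((ln : ℝ) / 64) → |u| ≤ (h : ℝ) / 4096 →
    Ap M ((r0 : ℝ) / 4096) (Tay (fun _ => (ln : ℝ) / 64) (fun s => (s - (cn : ℝ) / 64) / ((ln : ℝ) / 64)) t)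
      (Tay (fun _ => (ln : ℝ) / 64) l t) (L, G) →
    Ap M ((r0 : ℝ) / 4096) (Tay (fun _ => (ln : ℝ) / 64) (fun s => (s - (cn : ℝ) / 64) / ((ln : ℝ) / 64)) t)
      (Tay (fun _ => (ln : ℝ) / 64) q t) (Q, G) →
    |(2 : ℝ) ^ 160 * nu t - evR u T| ≤ ((etaT + R4) * 3 ^ k4 : ℕ) →
    Ap M ((r0 : ℝ) / 4096) (Tay (fun _ => (ln : ℝ) / 64) (fun s => (s - (cn : ℝ) / 64) / ((ln : ℝ) / 64)) t)
      (Tay (fun _ => (ln : ℝ) / 64) nu t) (T, GT)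

/-- GS4: soundness of `baseT`. Hypotheses GS, GA, TB, GI4, GJ4. Proof. GS for all `t` of the chart gives `Ap` for
`l`, `q`; `|coeff 0 S| ≤ nrm M r S`, `coeff 0 (Tay λ l t) = l t` (TC), `coeff 0 (evZ ξ L) = evR u L` (GA, XI) give
the hypothesis of GI4 (`t = cn/64 + ln/64 * u`); then GJ4. -/
def S_GS4 : Prop := ∀ (q l nu : ℝ → ℝ) (M N h r0 : ℕ) (cn : ℤ) (ln eta k etaT k4 : ℕ) (L Q T : List ℤ)
  (G GT : ℕ), QLN q l nu → h + r0 = 4096 → 0 < r0 → 0 < h → 0 < ln → 1 ≤ M →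
  K.baseG M h r0 cn ln eta k L Q = some G → K.baseT N M h r0 ln etaT k4 L Q T G = some GT →
  |(2 : ℝ) ^ 160 * l ((cn : ℝ) / 64) - (L.headD 0 : ℤ)| ≤ eta →
  |(2 : ℝ) ^ 160 * q ((cn : ℝ) / 64) - (Q.headD 0 : ℤ)| ≤ eta →
  |(2 : ℝ) ^ 160 * nu ((cn : ℝ) / 64) - (T.headD 0 : ℤ)| ≤ etaT →
  ∀ t : ℝ, |(t - (cn : ℝ) / 64) / ((ln : ℝ) / 64)| ≤ (h : ℝ) / 4096 →
    Ap M ((r0 : ℝ) / 4096) (Tay (fun _ => (ln : ℝ) / 64) (fun s => (s - (cn : ℝ) / 64) / ((ln : ℝ) / 64)) t)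
      (Tay (fun _ => (ln : ℝ) / 64) l t) (L, G) ∧
    Ap M ((r0 : ℝ) / 4096) (Tay (fun _ => (ln : ℝ) / 64) (fun s => (s - (cn : ℝ) / 64) / ((ln : ℝ) / 64)) t)
      (Tay (fun _ => (ln : ℝ) / 64) q t) (Q, G) ∧
    Ap M ((r0 : ℝ) / 4096) (Tay (fun _ => (ln : ℝ) / 64) (fun s => (s - (cn : ℝ) / 64) / ((ln : ℝ) / 64)) t)
      (Tay (fun _ => (ln : ℝ) / 64) nu t) (T, GT)

/-- M4: soundness of `m0four`. Hypotheses LIN, MULA, INVA. Proof. As `t_M1` (`KM1.lean`), `t_M2` (`KM2.lean`):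
`B = l² - (C c + C λ ξ) - q² - v`. -/
def S_M4 : Prop := ∀ (M : ℕ) (r : ℝ) (ξ l q v B : ℝ⟦X⟧) (w N : ℕ) (cn : ℤ) (ln : ℕ) (L Q T b : K.AP),
  0 < r → w ≤ 4096 → nrm M r ξ ≤ (w : ℝ) / 4096 → K.m0four w N cn ln L Q T = some b →
  Ap M r ξ l L → Ap M r ξ q Q → Ap M r ξ v T →
  B = l ^ 2 - (C ((cn : ℝ) / 64) + C ((ln : ℝ) / 64) * ξ) - q ^ 2 - v →
  coeff 0 B ≠ 0 ∧
  Ap M r ξ (C ((ln : ℝ) / 64) * (C (1 / 2 : ℝ) * (q ^ 2 * B) -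
    (C (1 / 2 : ℝ) * (1 + q ^ 2 * v ^ 2) + l * v) * B⁻¹)) b

/-- CB4: the first term of the chain, common to `checkM4` and `checkMN4`. Hypotheses GS4, M4, LIN, QS4. Proof. As
`t_CB` (`FCB.lean`; copy it). `Tay λ (bNu q l nu) t = B` of M4 (TA, TM, XI, `CB.tay_gf`), `bNu t = coeff 0 B ≠ 0`.
Near `t` (where `bNu ≠ 0`): `mNu = q² b/2 - ((1 + q² ν²)/2 + l ν)/b` because
`l g / b = l (b + ν)/b = l + l ν / b` (`g = b + ν`); `Tay` depends only on the germ (TC). -/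
def S_CB4 : Prop := ∀ (q l nu : ℝ → ℝ) (M N h r0 : ℕ) (rs : List ℕ) (w0 c0 : ℕ) (tab' : K.Tab)
  (cn : ℤ) (ln eta k etaT k4 : ℕ) (L Q T : List ℤ) (G GT : ℕ) (m : K.AP),
  QLN q l nu → h + r0 = 4096 → 0 < r0 → 0 < h → 0 < ln →
  radOK h M rs ((w0, c0) :: tab') = true → rs.headD 0 = r0 → tab' ≠ [] →
  K.baseG M h r0 cn ln eta k L Q = some G → K.baseT N M h r0 ln etaT k4 L Q T G = some GT →
  K.m0four w0 N cn ln (L, G) (Q, G) (T, GT) = some m →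
  |(2 : ℝ) ^ 160 * l ((cn : ℝ) / 64) - (L.headD 0 : ℤ)| ≤ eta →
  |(2 : ℝ) ^ 160 * q ((cn : ℝ) / 64) - (Q.headD 0 : ℤ)| ≤ eta →
  |(2 : ℝ) ^ 160 * nu ((cn : ℝ) / 64) - (T.headD 0 : ℤ)| ≤ etaT →
  ∀ (t : ℝ) (ξ : ℝ⟦X⟧), |(t - (cn : ℝ) / 64) / ((ln : ℝ) / 64)| ≤ (h : ℝ) / 4096 →
    ξ = Tay (fun _ => (ln : ℝ) / 64) (fun s => (s - (cn : ℝ) / 64) / ((ln : ℝ) / 64)) t →
    bNu q l nu t ≠ 0 ∧ ContDiffAt ℝ ∞ (mNu q l nu) t ∧ Law false ξ ∧ |coeff 0 ξ| ≤ (h : ℝ) / 4096 ∧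
    ∃ rs' : List ℝ, TabOK ξ (M - 1) rs' tab' ∧
      Ap (M - 1) (rs'.headD 1) ξ
        (- D (C ((ln : ℝ) / 64) * Tay (fun _ => (ln : ℝ) / 64) (mNu q l nu) t))
        (K.intA (-1) (K.derA false c0 m))

/-- CM4: soundness of `checkM4`. From CB4, CHAIN (`S' = 0`: `Ap … 0 ([], 0)`), TLM (as `t_CMN2` in
`FCMN2.lean`, and the proof of `S_CM2`). -/
def S_CM4 : Prop := ∀ (q l nu : ℝ → ℝ) (k0 M N h r0 : ℕ) (rs : List ℕ) (tab : K.Tab) (cn : ℤ)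
  (ln eta k etaT k4 : ℕ) (L Q T : List ℤ), QLN q l nu → h + r0 = 4096 → 0 < r0 → 0 < h → 0 < ln →
  radOK h M rs tab = true → rs.headD 0 = r0 → 2 * k0 + 2 ≤ tab.length →
  K.checkM4 k0 M N h r0 tab cn ln eta k etaT k4 L Q T = true →
  |(2 : ℝ) ^ 160 * l ((cn : ℝ) / 64) - (L.headD 0 : ℤ)| ≤ eta →
  |(2 : ℝ) ^ 160 * q ((cn : ℝ) / 64) - (Q.headD 0 : ℤ)| ≤ eta →
  |(2 : ℝ) ^ 160 * nu ((cn : ℝ) / 64) - (T.headD 0 : ℤ)| ≤ etaT →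
  ∀ t : ℝ, |(t - (cn : ℝ) / 64) / ((ln : ℝ) / 64)| ≤ (h : ℝ) / 4096 →
    bNu q l nu t ≠ 0 ∧ ContDiffAt ℝ ∞ (mNu q l nu) t ∧
    ∀ j, 1 ≤ j → j ≤ k0 + 1 →
      0 < toda (mNu q l nu) j t ∧ ContDiffAt ℝ ∞ (toda (mNu q l nu) j) t

/-- CMN4: soundness of `checkMN4`. From CB4, CHAINN, TLMN (as `t_CMN2`). -/
def S_CMN4 : Prop := ∀ (q l nu : ℝ → ℝ) (k0 M N h r0 : ℕ) (rs : List ℕ) (tab : K.Tab) (cn : ℤ)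
  (ln eta k etaT k4 : ℕ) (L Q T : List ℤ), QLN q l nu → h + r0 = 4096 → 0 < r0 → 0 < h → 0 < ln →
  radOK h M rs tab = true → rs.headD 0 = r0 → 2 * k0 + 2 ≤ tab.length →
  K.checkMN4 k0 M N h r0 tab cn ln eta k etaT k4 L Q T = true →
  |(2 : ℝ) ^ 160 * l ((cn : ℝ) / 64) - (L.headD 0 : ℤ)| ≤ eta →
  |(2 : ℝ) ^ 160 * q ((cn : ℝ) / 64) - (Q.headD 0 : ℤ)| ≤ eta →
  |(2 : ℝ) ^ 160 * nu ((cn : ℝ) / 64) - (T.headD 0 : ℤ)| ≤ etaT →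
  ∀ t : ℝ, |(t - (cn : ℝ) / 64) / ((ln : ℝ) / 64)| ≤ (h : ℝ) / 4096 →
    bNu q l nu t ≠ 0 ∧ ContDiffAt ℝ ∞ (mNu q l nu) t ∧
    toda (mNu q l nu) (k0 + 1) t < 0

end TWP
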