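import Pool.Agent.TWP.FMV
import Pool.Agent.TWP.FREC
import Pool.Agent.TWP.FDAR
import Pool.Agent.TWP.FTV
import Pool.Agent.TWP.FWR
import Pool.Agent.TWP.FWPOS
import Pool.Agent.TWP.FT1
import Pool.Agent.TWP.FT2

/-! TWP, block T: the two theorems without hypotheses. -/

namespace TWP

theorem T1_all : S_T1 := t_T1 (t_TV (t_REC t_MV) t_DAR) (t_WPOS t_WR) (t_REC t_MV)

theorem T2_all : S_T2 := t_T2 (t_TV (t_REC t_MV) t_DAR) (t_WPOS t_WR) (t_REC t_MV) t_DAR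

end TWP
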