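import Pool.Agent.TWP.StM4
import Pool.Agent.TWP.KNrm
import Pool.Agent.TWP.FTS
import Pool.Agent.TWP.FTA
import Pool.Agent.TWP.FTM
import Pool.Agent.TWP.FTI
import Pool.Agent.TWP.FQS
import Pool.Agent.TWP.FXI
import Pool.Agent.TWP.FRT
import Pool.Agent.TWP.FCB

set_option autoImplicit false

/-! TWP, module CB4: the first term of the chain in the middle charts of `β = 4`. -/

namespace TWP

open PowerSeries Filter Topology
open scoped ContDiff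

namespace CB4m

variable (q l nu : ℝ → ℝ) (lam c t : ℝ)

/-- the series of `b = g - ν` -/
theorem tay_b (h : QL q l) (hnu : ContDiff ℝ ∞ nu) (hlam : 0 < lam) (ξ : ℝ⟦X⟧)
    (hξ : ξ = Tay (fun _ => lam) (fun s => (s - c) / lam) t) :
    ContDiffAt ℝ ∞ (bNu q l nu) t ∧
    Tay (fun _ => lam) (bNu q l nu) t =
      Tay (fun _ => lam) l t ^ 2 - (C c + C lam * ξ) - Tay (fun _ => lam) q t ^ 2 -
        Tay (fun _ => lam) nu t := by
  obtain ⟨hg, eg⟩ := CB.tay_gf q l lam c t h hlam ξ hξ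
  have hnu' : ContDiffAt ℝ ∞ nu t := hnu.contDiffAt
  have hψ : ContDiffAt ℝ ∞ (fun _ : ℝ => lam) t := contDiffAt_const
  have e0 : bNu q l nu = fun s => gf q l s - nu s := rfl
  rw [e0]
  refine ⟨hg.sub hnu', ?_⟩
  rw [(CB.ta (fun _ => lam) t hψ).2.2 (gf q l) nu hg hnu', eg]

/-- the series of `mNu` -/
theorem tay_m (h : QL q l) (hnu : ContDiff ℝ ∞ nu) (B : ℝ⟦X⟧)
    (hs : ContDiffAt ℝ ∞ (bNu q l nu) t) (hB : Tay (fun _ => lam) (bNu q l nu) t = B)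
    (hB0 : coeff 0 B ≠ 0) :
    bNu q l nu t ≠ 0 ∧ ContDiffAt ℝ ∞ (mNu q l nu) t ∧
    Tay (fun _ => lam) (mNu q l nu) t =
      C (1 / 2 : ℝ) * (Tay (fun _ => lam) q t ^ 2 * B) -
        (C (1 / 2 : ℝ) * (1 + Tay (fun _ => lam) q t ^ 2 * Tay (fun _ => lam) nu t ^ 2) +
          Tay (fun _ => lam) l t * Tay (fun _ => lam) nu t) * B⁻¹ := by
  obtain ⟨hq, hl⟩ := QS q l h
  have hq' : ContDiffAt ℝ ∞ q t := hq.contDiffAt
  have hl' : ContDiffAt ℝ ∞ l t := hl.contDiffAt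
  have hn' : ContDiffAt ℝ ∞ nu t := hnu.contDiffAt
  have hψ : ContDiffAt ℝ ∞ (fun _ : ℝ => lam) t := contDiffAt_const
  have hone : ContDiffAt ℝ ∞ (fun _ : ℝ => (1 : ℝ)) t := contDiffAt_const
  have hhalf : ContDiffAt ℝ ∞ (fun _ : ℝ => (1 / 2 : ℝ)) t := contDiffAt_const
  have hbt : bNu q l nu t ≠ 0 := by
    have := (CB.tc (fun _ => lam) (bNu q l nu) (bNu q l nu) t EventuallyEq.rfl).2.1
    rw [hB] at this
    rwa [this] at hB0
  have hqq : ContDiffAt ℝ ∞ (fun s => q s * q s) t := hq'.mul hq'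
  have hnn : ContDiffAt ℝ ∞ (fun s => nu s * nu s) t := hn'.mul hn'
  have hqb : ContDiffAt ℝ ∞ (fun s => (q s * q s) * bNu q l nu s) t := hqq.mul hs
  have hf1 : ContDiffAt ℝ ∞ (fun s => (1 / 2 : ℝ) * ((q s * q s) * bNu q l nu s)) t :=
    hhalf.mul hqb
  have hqn : ContDiffAt ℝ ∞ (fun s => (q s * q s) * (nu s * nu s)) t := hqq.mul hnn
  have hqn1 : ContDiffAt ℝ ∞ (fun s => 1 + (q s * q s) * (nu s * nu s)) t := hone.add hqn
  have hf2 : ContDiffAt ℝ ∞ (fun s => (1 / 2 : ℝ) * (1 + (q s * q s) * (nu s * nu s))) t :=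
    hhalf.mul hqn1
  have hln : ContDiffAt ℝ ∞ (fun s => l s * nu s) t := hl'.mul hn'
  have hf3 : ContDiffAt ℝ ∞ (fun s => (1 / 2 : ℝ) * (1 + (q s * q s) * (nu s * nu s)) +
      l s * nu s) t := hf2.add hln
  have hf4 : ContDiffAt ℝ ∞ (fun s => ((1 / 2 : ℝ) * (1 + (q s * q s) * (nu s * nu s)) +
      l s * nu s) / bNu q l nu s) t := hf3.div hs hbt
  have hF : ContDiffAt ℝ ∞ (fun s => (1 / 2 : ℝ) * ((q s * q s) * bNu q l nu s) -
      ((1 / 2 : ℝ) * (1 + (q s * q s) * (nu s * nu s)) + l s * nu s) / bNu q l nu s) t :=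
    hf1.sub hf4
  have hev : mNu q l nu =ᶠ[𝓝 t] fun s => (1 / 2 : ℝ) * ((q s * q s) * bNu q l nu s) -
      ((1 / 2 : ℝ) * (1 + (q s * q s) * (nu s * nu s)) + l s * nu s) / bNu q l nu s := by
    have hne : ∀ᶠ s in 𝓝 t, bNu q l nu s ≠ 0 := hs.continuousAt.eventually_ne hbt
    filter_upwards [hne] with s hs0
    have eg : gf q l s = bNu q l nu s + nu s := by unfold bNu; ring
    unfold mNu
    rw [eg]
    field_simp
    ring
  refine ⟨hbt, hF.congr_of_eventuallyEq hev, ?_⟩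
  rw [(CB.tc (fun _ => lam) (mNu q l nu) _ t hev).1]
  rw [(CB.ta (fun _ => lam) t hψ).2.2 (fun s => (1 / 2 : ℝ) * ((q s * q s) * bNu q l nu s))
    (fun s => ((1 / 2 : ℝ) * (1 + (q s * q s) * (nu s * nu s)) + l s * nu s) / bNu q l nu s) hf1 hf4,
    CB.tm (fun _ => lam) t hψ (fun _ => (1 / 2 : ℝ)) (fun s => (q s * q s) * bNu q l nu s) hhalf hqb,
    (CB.ta (fun _ => lam) t hψ).1 (1 / 2),
    CB.tm (fun _ => lam) t hψ (fun s => q s * q s) (bNu q l nu) hqq hs,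
    CB.tm (fun _ => lam) t hψ q q hq' hq', hB,
    (CB.ti (fun _ => lam) t hψ (fun s => (1 / 2 : ℝ) * (1 + (q s * q s) * (nu s * nu s)) + l s * nu s)
      (bNu q l nu) hf3 hs hbt).2, hB,
    (CB.ta (fun _ => lam) t hψ).2.1 (fun s => (1 / 2 : ℝ) * (1 + (q s * q s) * (nu s * nu s)))
      (fun s => l s * nu s) hf2 hln,
    CB.tm (fun _ => lam) t hψ (fun _ => (1 / 2 : ℝ)) (fun s => 1 + (q s * q s) * (nu s * nu s))
      hhalf hqn1,
    (CB.ta (fun _ => lam) t hψ).1 (1 / 2),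
    (CB.ta (fun _ => lam) t hψ).2.1 (fun _ => (1 : ℝ)) (fun s => (q s * q s) * (nu s * nu s)) hone hqn,
    (CB.ta (fun _ => lam) t hψ).1 1,
    CB.tm (fun _ => lam) t hψ (fun s => q s * q s) (fun s => nu s * nu s) hqq hnn,
    CB.tm (fun _ => lam) t hψ q q hq' hq', CB.tm (fun _ => lam) t hψ nu nu hn' hn',
    CB.tm (fun _ => lam) t hψ l nu hl' hn', map_one]
  ring

end CB4m

theorem t_CB4 (hGS4 : S_GS4) (hM4 : S_M4) (hLIN : S_LIN) (hQS4 : S_QS4) : S_CB4 := by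
  intro q l nu M N h r0 rs w0 c0 tab' cn ln eta k etaT k4 L Q T G GT m hQL hhr hr0 hh hln hrad hrs
    htab hbase hbaseT hm hl0 hq0 hn0 t ξ hu hξ
  have hlam : (0 : ℝ) < (ln : ℝ) / 64 := by
    have : (0 : ℝ) < ln := by exact_mod_cast hln
    positivity
  obtain ⟨hx1, hx2, hx3, hx4⟩ := XI ((ln : ℝ) / 64) ((cn : ℝ) / 64) t hlam
  have hlaw : Law false ξ := by
    unfold Law
    rw [hξ]
    exact hx3
  have hc0 : |coeff 0 ξ| ≤ (h : ℝ) / 4096 := by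
    rw [hξ, hx1]
    simpa using hu
  -- the table
  rcases rs with _ | ⟨r, _ | ⟨r', rs⟩⟩
  · simp [radOK] at hrad
  · rcases tab' with _ | ⟨wc, tab'⟩
    · exact absurd rfl htab
    · simp [radOK] at hrad
  rcases tab' with _ | ⟨wc, tab'⟩
  · exact absurd rfl htab
  have hr : r = r0 := hrs
  subst hr
  have hT := RT_aux h (r :: r' :: rs) M ((w0, c0) :: wc :: tab') ξ
    ((t - (cn : ℝ) / 64) / ((ln : ℝ) / 64)) hrad (by
      intro M r hr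
      rw [hξ]
      exact hx4 M r hr) hu
  simp only [List.map_cons, TabOK] at hT
  obtain ⟨hT1, hT2, hT3, hT4, hT5, hT6, hT7, hT8⟩ := hT
  obtain ⟨hAl, hAq, hAn⟩ := hGS4 q l nu M N h r cn ln eta k etaT k4 L Q T G GT hQL hhr hr0 hh hln
    hT7 hbase hbaseT hl0 hq0 hn0 t hu
  rw [← hξ] at hAl hAq hAn
  have hnu := hQS4 q l nu hQL
  obtain ⟨hsb, hb⟩ := CB4m.tay_b q l nu ((ln : ℝ) / 64) ((cn : ℝ) / 64) t hQL.ql hnu hlam ξ hξ
  obtain ⟨h1, h2⟩ := hM4 M ((r : ℝ) / 4096) ξ _ _ _ _ w0 N cn ln (L, G) (Q, G) (T, GT) m hT1 hT2 hT3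
    hm hAl hAq hAn rfl
  obtain ⟨h5, h3, h4⟩ := CB4m.tay_m q l nu ((ln : ℝ) / 64) t hQL.ql hnu _ hsb hb h1
  have key : Ap M ((r : ℝ) / 4096) ξ (C ((ln : ℝ) / 64) *
        Tay (fun _ => (ln : ℝ) / 64) (mNu q l nu) t) m := by
    rw [h4]
    exact h2
  refine ⟨h5, h3, hlaw, hc0, ((r' : ℝ) / 4096) :: List.map (fun r : ℕ => (r : ℝ) / 4096) rs,
    hT8, ?_⟩
  obtain ⟨hadd, hint, hscl, hmono, hder, hlist⟩ := hLIN
  have hD := hder false M c0 ((r : ℝ) / 4096) ((r' : ℝ) / 4096) ξ _ m hlaw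
    ⟨hT4, hT5, hT6, hT7⟩ key
  have hI := hint (M - 1) ((r' : ℝ) / 4096) ξ _ _ (-1) hT4.le hD
  have e1 : C (((-1 : ℤ)) : ℝ) * D (C ((ln : ℝ) / 64) *
      Tay (fun _ => (ln : ℝ) / 64) (mNu q l nu) t) =
      - D (C ((ln : ℝ) / 64) * Tay (fun _ => (ln : ℝ) / 64) (mNu q l nu) t) := by
    rw [Int.cast_neg, Int.cast_one, map_neg, map_one, neg_one_mul]
  rw [e1] at hI
  exact hI

end TWP
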