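import Pool.Agent.TWP.StM4
import Pool.Agent.TWP.KNrm
import Pool.Agent.TWP.FTC
import Pool.Agent.TWP.FTS
import Pool.Agent.TWP.FTA
import Pool.Agent.TWP.FTM
import Pool.Agent.TWP.FTI
import Pool.Agent.TWP.TL
import Pool.Agent.TWP.FTLM

/-!
# TWP, module CM4 (helper52): soundness of the middle chart check, beta = 4
-/

set_option autoImplicit false

namespace TWP

open PowerSeries Filter Topology
open scoped ContDiff

namespace XCM4m

theorem ap_zero (M : ℕ) (r : ℝ) (ξ : ℝ⟦X⟧) : Ap M r ξ 0 ([], 0) := by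
  have h : nrm M r (C ((2 : ℝ) ^ 160) * 0 - evZ ξ []) = 0 := by
    show nrm M r (C ((2 : ℝ) ^ 160) * 0 - 0) = 0
    rw [mul_zero, sub_zero]
    exact nrm_zero M r
  show nrm M r (C ((2 : ℝ) ^ 160) * 0 - evZ ξ []) ≤ ((0 : ℕ) : ℝ)
  rw [h, Nat.cast_zero]

theorem tlm : S_TLM := by
  have hTA := TA TC TS
  have hTM := TM TC TS hTA
  have hTI := TI TC TS hTA hTM
  exact TLM TC TS hTA hTM hTI (TL TC TS hTA hTM hTI)

end XCM4m

theorem t_CM4 (hCB4 : S_CB4) (hCHAIN : S_CHAIN) : S_CM4 := by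
  intro q l nu k0 M N h r0 rs tab cn ln eta k etaT k4 L Q T hql hr hr0 hh hln hrad hrs hlen hchk
    hL hQ hT t ht
  unfold K.checkM4 at hchk
  rcases hG : K.baseG M h r0 cn ln eta k L Q with _ | G
  · rw [hG] at hchk
    exact absurd hchk Bool.false_ne_true
  rw [hG] at hchk
  rcases hGT : K.baseT N M h r0 ln etaT k4 L Q T G with _ | GT
  · simp only [hGT] at hchk
    exact absurd hchk Bool.false_ne_true
  simp only [hGT] at hchk
  rcases tab with _ | ⟨⟨w0, c0⟩, tab'⟩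
  · exact absurd hchk Bool.false_ne_true
  rcases hm : K.m0four w0 N cn ln (L, G) (Q, G) (T, GT) with _ | m
  · simp only [hm] at hchk
    exact absurd hchk Bool.false_ne_true
  simp only [hm] at hchk
  have hlen' : 2 * k0 + 1 ≤ tab'.length := by
    rw [List.length_cons] at hlen
    omega
  have htab' : tab' ≠ [] := by
    intro h0
    rw [h0, List.length_nil] at hlen'
    omega
  obtain ⟨hb, hsm, hlaw, hξ0, rs', hTab, hAp⟩ := hCB4 q l nu M N h r0 rs w0 c0 tab' cn ln eta k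
    etaT k4 L Q T G GT m hql hr hr0 hh hln hrad hrs htab' hG hGT hm hL hQ hT t _ ht rfl
  have hchain := hCHAIN false N h (2 ^ 160) 0 0 0 1 k0 (M - 1) _ _ 0 rs' tab' _ ([], 0) hlen' hchk
    hTab hlaw hξ0 hAp (XCM4m.ap_zero _ _ _)
  have hlam : (0 : ℝ) < (ln : ℝ) / 64 := div_pos (Nat.cast_pos.2 hln) (by norm_num)
  exact ⟨hb, hsm, XCM4m.tlm ((ln : ℝ) / 64) ((cn : ℝ) / 64) (mNu q l nu) t k0 hlam hsm hchain⟩

end TWP
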