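import Pool.Agent.TWP.StM4
import Pool.Agent.TWP.FCMN2

/-! TWP: soundness of `checkMN4` (module CMN4, helper3). -/

namespace TWP

open PowerSeries Filter Topology
open scoped ContDiff

open FCMN2 in
theorem t_CMN4 (hCB4 : S_CB4) (hCHAINN : S_CHAINN) : S_CMN4 := by
  have hTC : S_TC := tc
  intro q l nu k0 M N h r0 rs tab cn ln eta k etaT k4 L Q T hql hr hr0 hh hln hrad hrs hlen hchk
    hL hQ hT t ht
  unfold K.checkMN4 at hchk
  rcases hG : K.baseG M h r0 cn ln eta k L Q with _ | G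
  · rw [hG] at hchk
    exact absurd hchk Bool.false_ne_true
  rw [hG] at hchk
  simp only at hchk
  rcases hGT : K.baseT N M h r0 ln etaT k4 L Q T G with _ | GT
  · rw [hGT] at hchk
    exact absurd hchk Bool.false_ne_true
  rw [hGT] at hchk
  rcases tab with _ | ⟨⟨w0, c0⟩, tab'⟩
  · exact absurd hchk Bool.false_ne_true
  rcases hm : K.m0four w0 N cn ln (L, G) (Q, G) (T, GT) with _ | m
  · simp only [hm] at hchk
    exact absurd hchk Bool.false_ne_true
  simp only [hm] at hchk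
  have hlen' : 2 * k0 + 1 ≤ tab'.length := by
    rw [List.length_cons] at hlen
    omega
  have htab' : tab' ≠ [] := by
    intro h0
    rw [h0, List.length_nil] at hlen'
    omega
  obtain ⟨hb, hsm, hlaw, hξ0, rs', hTab, hAp⟩ := hCB4 q l nu M N h r0 rs w0 c0 tab' cn ln eta k
    etaT k4 L Q T G GT m hql hr hr0 hh hln hrad hrs htab' hG hGT hm hL hQ hT t _ ht rfl
  have hchain := hCHAINN false N h (2 ^ 160) 0 0 0 1 k0 (M - 1) _ _ 0 rs' tab' _ ([], 0) hlen' hchk
    hTab hlaw hξ0 hAp (ap_zero _ _ _)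
  have hTA := TA hTC TS
  have hTM := TM hTC TS hTA
  have hTI := TI hTC TS hTA hTM
  have hTLN := TLN hTC TS hTA hTM hTI
  have hlam : (0 : ℝ) < (ln : ℝ) / 64 := div_pos (Nat.cast_pos.2 hln) (by norm_num)
  have hfin := (TLMN hTC TS hTA hTM hTI hTLN) ((ln : ℝ) / 64) ((cn : ℝ) / 64) (mNu q l nu) t k0
    hlam hsm hchain.1
  have hneg := hchain.2
  rw [hfin.1] at hneg
  refine ⟨hb, hsm, ?_⟩
  by_contra hcon
  have h1 : 0 ≤ ((ln : ℝ) / 64) ^ 2 * toda (mNu q l nu) (k0 + 1) t :=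
    mul_nonneg (pow_nonneg hlam.le 2) (le_of_not_gt hcon)
  linarith

end TWP
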