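import Mathlib
import Pool.Agent.TWP.StM4
import Pool.Agent.TWP.KNrm

set_option autoImplicit false

/-! TWP, module GI4: the interval part for `ν` (helper13, for helper22). -/

namespace TWP

open PowerSeries Filter Topology
open scoped ContDiff

namespace GI4m

theorem prodUp_ge (x : ℕ) : ∀ (M p : ℕ), p ≤ K.prodUp x M p := by
  intro M
  induction M with
  | zero => intro p; exact le_refl p
  | succ m ih =>
    intro p
    show p ≤ K.prodUp x m (p + p * x / (K.ONE * (m + 1)) + 1)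
    exact le_trans (by rw [add_assoc]; exact Nat.le_add_right p _) (ih _)

theorem evR_zero (L : List ℤ) : evR 0 L = ((L.headD 0 : ℤ) : ℝ) := by
  cases L with
  | nil => simp [evR]
  | cons a P => simp [evR]

theorem nrm01 (S : ℝ⟦X⟧) : nrm 0 1 S = |coeff 0 S| := by
  simp [nrm]

theorem coeff_pZ (hGA : S_GA) (u : ℝ) (P : List ℤ) :
    coeff 0 (pZ (C u) P) = evR u P / 2 ^ 160 := by
  have h1 : coeff 0 (evZ (C u : ℝ⟦X⟧) P) = evR u P :=
    (hGA u P).1 (C u) (by simp)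
  unfold pZ
  rw [coeff_C_mul, h1]
  ring

end GI4m

open GI4m in
theorem t_GI4 (hGA : S_GA) (hGR4 : S_GR4) : S_GI4 := by
  intro q l nu M h r0 cn ln etaT k4 L Q T0 G GT r3 Lam R4 hQL hh hr0 hh0 hln hTB hlq hnu u hu
  obtain ⟨T, hT⟩ : ∃ T : ℝ, T = (2 : ℝ) ^ 160 := ⟨_, rfl⟩
  have hTpos : 0 < T := by rw [hT]; positivity
  have hTne : T ≠ 0 := hTpos.ne'
  have hh1 : (h : ℝ) / 4096 ≤ 1 := by
    have : h ≤ 4096 := by omega
    have h2 : (h : ℝ) ≤ 4096 := by exact_mod_cast this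
    rw [div_le_one (by norm_num)]
    exact h2
  have hlnR : (0 : ℝ) < (ln : ℝ) := by exact_mod_cast hln
  have hres3 := fun v (hv : |v| ≤ (1 : ℝ)) =>
    hTB.res3 0 1 (C v) one_pos (by rw [nrm_C]; exact hv)
  have hG : ((etaT + R4) * 3 ^ k4 + R4 : ℕ) ≤ GT := by
    rw [hTB.eqG]
    exact prodUp_ge _ _ _
  have hG' : (((etaT + R4) * 3 ^ k4 : ℕ) : ℝ) ≤ (GT : ℝ) := by
    exact_mod_cast (le_trans (Nat.le_add_right _ _) hG)
  have hcast : (((etaT + R4) * 3 ^ k4 : ℕ) : ℝ) = ((etaT : ℝ) + R4) * 3 ^ k4 := by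
    push_cast; ring
  have key := hGR4 q l nu ((cn : ℝ) / 64) ((ln : ℝ) / 64) ((h : ℝ) / 4096) ((etaT : ℝ) / T)
    ((r3 : ℝ) / T) ((K.nL 4096 L : ℝ) / T) ((K.nL 4096 Q : ℝ) / T) ((K.nL 4096 T0 : ℝ) / T)
    ((G : ℝ) / T) ((Lam : ℝ) / T) ((R4 : ℝ) / T) k4
    (fun v => evR v L / T) (fun v => evR v Q / T) (fun v => evR v T0 / T)
    (fun v => evR v (K.derM T0) / T) hQL (by positivity)
    (by
      have : (0 : ℝ) < (h : ℝ) := by exact_mod_cast hh0
      positivity)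
    (by positivity) (by positivity) (by positivity)
    (by have := hTB.eps1; rw [← hT] at this; exact this)
    (fun v => (hGA v T0).2.1.div_const T)
    ?_ ?_ ?_ ?_ ?_ ?_ ?_ ?_ u hu
  · -- conclusion
    rw [hcast, ← hT]
    have e1 : T * nu ((cn : ℝ) / 64 + (ln : ℝ) / 64 * u) - evR u T0 =
        T * (nu ((cn : ℝ) / 64 + (ln : ℝ) / 64 * u) - evR u T0 / T) := by
      field_simp
    rw [e1, abs_mul, abs_of_pos hTpos]
    refine le_trans (mul_le_mul_of_nonneg_left key hTpos.le) (le_of_eq ?_)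
    field_simp
  · -- bounds on the interval
    intro v hv
    have hv1 : |v| ≤ 1 := hv.trans hh1
    have hb : ∀ P : List ℤ, |evR v P / T| ≤ (K.nL 4096 P : ℝ) / T := by
      intro P
      rw [abs_div, abs_of_pos hTpos]
      exact div_le_div_of_nonneg_right ((hGA v P).2.2 hv1) hTpos.le
    have hd : ∀ (f : ℝ → ℝ) (P : List ℤ),
        |(2 : ℝ) ^ 160 * f ((cn : ℝ) / 64 + (ln : ℝ) / 64 * v) - evR v P| ≤ (G : ℝ) →
        |f ((cn : ℝ) / 64 + (ln : ℝ) / 64 * v) - evR v P / T| ≤ (G : ℝ) / T := by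
      intro f P hf
      rw [← hT] at hf
      have e : f ((cn : ℝ) / 64 + (ln : ℝ) / 64 * v) - evR v P / T =
          (T * f ((cn : ℝ) / 64 + (ln : ℝ) / 64 * v) - evR v P) / T := by field_simp
      rw [e, abs_div, abs_of_pos hTpos]
      exact div_le_div_of_nonneg_right hf hTpos.le
    refine ⟨hb L, hb Q, hb T0, hd l L (hlq v hv).1, hd q Q (hlq v hv).2, ?_⟩
    have h1 := hres3 v hv1
    rw [nrm01] at h1
    have h2 : coeff 0 (pZ (C v) (K.derM T0) + (C ((ln : ℝ) / 128) +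
        (-(C ((ln : ℝ) / 128)) * (pZ (C v) Q * pZ (C v) T0) ^ 2 +
          C ((ln : ℝ) / 64) * (pZ (C v) L * pZ (C v) T0)))) =
        evR v (K.derM T0) / 2 ^ 160 + ((ln : ℝ) / 64 / 2 +
          (-((ln : ℝ) / 64 / 2) * (evR v Q / 2 ^ 160 * (evR v T0 / 2 ^ 160)) ^ 2 +
            (ln : ℝ) / 64 * (evR v L / 2 ^ 160 * (evR v T0 / 2 ^ 160)))) := by
      have hcp := coeff_pZ hGA v
      simp only [coeff_zero_eq_constantCoeff, coeff_zero_eq_constantCoeff_apply] at hcp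
      simp only [coeff_zero_eq_constantCoeff, coeff_zero_eq_constantCoeff_apply, map_neg,
        map_add, map_mul, map_pow, hcp, constantCoeff_C]
      ring
    rw [h2] at h1
    rw [← hT] at h1
    exact h1
  · -- the centre
    show |nu ((cn : ℝ) / 64) - evR 0 T0 / T| ≤ (etaT : ℝ) / T
    rw [evR_zero]
    rw [← hT] at hnu
    have e1 : nu ((cn : ℝ) / 64) - ((T0.headD 0 : ℤ) : ℝ) / T =
        (T * nu ((cn : ℝ) / 64) - ((T0.headD 0 : ℤ) : ℝ)) / T := by field_simp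
    rw [e1, abs_div, abs_of_pos hTpos]
    exact div_le_div_of_nonneg_right hnu hTpos.le
  · rw [le_div_iff₀ hTpos, one_mul, hT]
    exact hTB.lam1
  · have h1 := hTB.lam2
    rw [← hT] at h1
    exact h1
  · have h1 := hTB.r4
    rw [← hT] at h1
    exact h1
  · have : (0 : ℝ) < (R4 : ℝ) := by exact_mod_cast hTB.r4pos
    positivity
  · have h1 := hTB.lam3
    rw [← hT] at h1
    rw [div_mul_div_comm, div_le_iff₀ (by positivity)]
    refine le_trans h1 (le_of_eq ?_)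
    ring
  · have h1 := hTB.fin
    rw [← hT] at h1
    have e : ((etaT : ℝ) / T + (R4 : ℝ) / T) * 3 ^ k4 = (((etaT : ℝ) + R4) * 3 ^ k4) / T := by
      field_simp
    rw [e, ← hcast]
    refine le_trans (add_le_add ?_ le_rfl) h1
    exact mul_le_mul_of_nonneg_left (div_le_div_of_nonneg_right hG' hTpos.le) (by positivity)

end TWP
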