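import Pool.Agent.TWP.StM4
import Pool.Agent.TWP.FTC
import Pool.Agent.TWP.FTS
import Pool.Agent.TWP.FTA
import Pool.Agent.TWP.FTM
import Pool.Agent.TWP.FQS
import Pool.Agent.TWP.FXI
import Pool.Agent.TWP.KNrm

set_option autoImplicit false

/-! TWP, module GJ4: the jets of `ν` in the middle charts. -/

namespace TWP

open PowerSeries Filter Topology
open scoped ContDiff

namespace GJ4m

theorem D_C_mul (a : ℝ) (S : ℝ⟦X⟧) : D (C a * S) = C a * D S := by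
  unfold D
  rw [← smul_eq_C_mul, ← smul_eq_C_mul]
  exact Derivation.map_smul _ _ _

/-- the differential equation for the Taylor series of `ν` -/
theorem ode4 (hQS4 : S_QS4) (q l nu : ℝ → ℝ) (lam t : ℝ) (h : QLN q l nu) :
    D (Tay (fun _ => lam) nu t) = C lam * (C (1 / 2 : ℝ) *
      (Tay (fun _ => lam) q t * Tay (fun _ => lam) nu t) ^ 2 - C (1 / 2 : ℝ) -
      Tay (fun _ => lam) l t * Tay (fun _ => lam) nu t) := by
  obtain ⟨hq, hl⟩ := QS q l h.ql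
  have hnu : ContDiff ℝ ∞ nu := hQS4 q l nu h
  have ta : S_TA := TA TC TS
  have tm : S_TM := TM TC TS ta
  have hq' : ContDiffAt ℝ ∞ q t := hq.contDiffAt
  have hl' : ContDiffAt ℝ ∞ l t := hl.contDiffAt
  have hnu' : ContDiffAt ℝ ∞ nu t := hnu.contDiffAt
  have hψ : ContDiffAt ℝ ∞ (fun _ : ℝ => lam) t := contDiffAt_const
  have h2' : ContDiffAt ℝ ∞ (fun _ : ℝ => (1 / 2 : ℝ)) t := contDiffAt_const
  have hqn : ContDiffAt ℝ ∞ (fun s => q s * nu s) t := hq'.mul hnu'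
  have hqq : ContDiffAt ℝ ∞ (fun s => (q s * nu s) * (q s * nu s)) t := hqn.mul hqn
  have hln : ContDiffAt ℝ ∞ (fun s => l s * nu s) t := hl'.mul hnu'
  have h2qq : ContDiffAt ℝ ∞ (fun s => (1 / 2 : ℝ) * ((q s * nu s) * (q s * nu s))) t :=
    h2'.mul hqq
  have hd1 : ContDiffAt ℝ ∞
      (fun s => (1 / 2 : ℝ) * ((q s * nu s) * (q s * nu s)) - (1 / 2 : ℝ)) t := h2qq.sub h2'
  have hd2 : ContDiffAt ℝ ∞
      (fun s => ((1 / 2 : ℝ) * ((q s * nu s) * (q s * nu s)) - (1 / 2 : ℝ)) - l s * nu s) t :=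
    hd1.sub hln
  have e1 : dl (fun _ => lam) nu = fun s => lam *
      (((1 / 2 : ℝ) * ((q s * nu s) * (q s * nu s)) - (1 / 2 : ℝ)) - l s * nu s) := by
    funext s
    unfold dl
    rw [(h.dn s).deriv]
    ring
  rw [(TC (fun _ => lam) nu nu t EventuallyEq.rfl).2.2, e1,
    tm (fun _ => lam) t hψ (fun _ => lam)
      (fun s => ((1 / 2 : ℝ) * ((q s * nu s) * (q s * nu s)) - (1 / 2 : ℝ)) - l s * nu s)
      hψ hd2,
    (ta (fun _ => lam) t hψ).1 lam,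
    (ta (fun _ => lam) t hψ).2.2
      (fun s => (1 / 2 : ℝ) * ((q s * nu s) * (q s * nu s)) - (1 / 2 : ℝ))
      (fun s => l s * nu s) hd1 hln,
    (ta (fun _ => lam) t hψ).2.2
      (fun s => (1 / 2 : ℝ) * ((q s * nu s) * (q s * nu s))) (fun _ => (1 / 2 : ℝ)) h2qq h2',
    tm (fun _ => lam) t hψ (fun _ => (1 / 2 : ℝ))
      (fun s => (q s * nu s) * (q s * nu s)) h2' hqq,
    (ta (fun _ => lam) t hψ).1 (1 / 2),
    tm (fun _ => lam) t hψ (fun s => q s * nu s) (fun s => q s * nu s) hqn hqn,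
    tm (fun _ => lam) t hψ q nu hq' hnu', tm (fun _ => lam) t hψ l nu hl' hnu']
  ring

end GJ4m

open GJ4m in
theorem t_GJ4 (hGA : S_GA) (hDER : S_DER) (hNL : S_NL) (hPU : S_PU) (hJE4 : S_JE4)
    (hQS4 : S_QS4) : S_GJ4 := by
  intro q l nu M h r0 cn ln etaT k4 L Q T' G GT r3 Lam R4 hQLN hh hr0 hh0 hln hTBS t u hu huh
    hApL hApQ hval
  obtain ⟨T, hT⟩ : ∃ T : ℝ, T = (2 : ℝ) ^ 160 := ⟨_, rfl⟩
  have hTpos : 0 < T := by rw [hT]; positivity
  have hTne : T ≠ 0 := hTpos.ne'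
  obtain ⟨lam, hlamdef⟩ : ∃ lam : ℝ, lam = (ln : ℝ) / 64 := ⟨_, rfl⟩
  obtain ⟨c, hcdef⟩ : ∃ c : ℝ, c = (cn : ℝ) / 64 := ⟨_, rfl⟩
  have hlnR : (0 : ℝ) < (ln : ℝ) := by exact_mod_cast hln
  have hlam : 0 < lam := by rw [hlamdef]; positivity
  have hlam2' : (ln : ℝ) / 128 = lam / 2 := by rw [hlamdef]; ring
  have hres3 := hTBS.res3
  have hlam1 := hTBS.lam1
  have hlam2 := hTBS.lam2
  have hr4 := hTBS.r4
  have heps := hTBS.eps1
  have hfin := hTBS.fin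
  rw [← hlamdef, ← hcdef] at hu hApL hApQ ⊢
  simp only [← hlamdef, hlam2', ← hT] at hres3 hlam1 hlam2 hr4 heps hfin hval
  obtain ⟨ξ, hξ⟩ : ∃ ξ : ℝ⟦X⟧, ξ = Tay (fun _ => lam) (fun s => (s - c) / lam) t := ⟨_, rfl⟩
  obtain ⟨hX1, -, hX3, hX4⟩ := XI lam c t hlam
  have hode := ode4 hQS4 q l nu lam t hQLN
  rw [← hξ] at hX1 hX3 hX4 hApL hApQ ⊢
  rw [← hu] at hX1 hX4
  obtain ⟨lh, hlh⟩ : ∃ S : ℝ⟦X⟧, S = Tay (fun _ => lam) l t := ⟨_, rfl⟩
  obtain ⟨qh, hqh⟩ : ∃ S : ℝ⟦X⟧, S = Tay (fun _ => lam) q t := ⟨_, rfl⟩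
  obtain ⟨vh, hvh⟩ : ∃ S : ℝ⟦X⟧, S = Tay (fun _ => lam) nu t := ⟨_, rfl⟩
  have hv0 : coeff 0 vh = nu t := by
    rw [hvh]; exact (TC (fun _ => lam) nu nu t EventuallyEq.rfl).2.1
  rw [← hlh, ← hqh, ← hvh] at hode
  rw [← hlh] at hApL
  rw [← hqh] at hApQ
  rw [← hvh]
  obtain ⟨r, hrdef⟩ : ∃ r : ℝ, r = (r0 : ℝ) / 4096 := ⟨_, rfl⟩
  rw [← hrdef] at hApL hApQ ⊢
  have hr0R : (0 : ℝ) < (r0 : ℝ) := by exact_mod_cast hr0
  have hr : 0 < r := by rw [hrdef]; positivity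
  have hhR : (h : ℝ) + (r0 : ℝ) = 4096 := by exact_mod_cast hh
  have hhR0 : (0 : ℝ) ≤ (h : ℝ) := Nat.cast_nonneg h
  have hr1 : r ≤ 1 := by
    rw [hrdef, div_le_one (by norm_num)]
    linarith
  have hnξ : nrm M r ξ ≤ 1 := by
    refine (hX4 M r hr.le).trans ?_
    have h1 : |u| + r ≤ (h : ℝ) / 4096 + (r0 : ℝ) / 4096 := by
      rw [hrdef]
      linarith
    refine h1.trans (le_of_eq ?_)
    rw [← add_div, hhR]
    norm_num
  have hcξ : coeff 0 ξ = u := by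
    rw [hX1]
    simp
  have hLaw : Law false ξ := by
    unfold Law
    simpa using hX3
  -- the polynomials
  have hpZ : ∀ P : List ℤ, pZ ξ P = C (T⁻¹) * evZ ξ P := fun P => by
    unfold pZ
    rw [hT]
  have hDp : ∀ P : List ℤ, D (pZ ξ P) = pZ ξ (K.derM P) := by
    intro P
    have h1 := hDER false ξ P hLaw
    have h2 : K.der false P = K.derM P := by
      unfold K.der
      simp
    rw [hpZ, hpZ, D_C_mul, h1, h2]
  have hnp : ∀ P : List ℤ, nrm M r (pZ ξ P) ≤ (K.nL 4096 P : ℝ) / T := by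
    intro P
    have h1 := hNL M r ξ 4096 P hr.le (by
      refine hnξ.trans (le_of_eq ?_)
      norm_num)
    rw [hpZ, nrm_C_mul, abs_of_pos (inv_pos.2 hTpos), div_eq_inv_mul]
    exact mul_le_mul_of_nonneg_left h1 (inv_pos.2 hTpos).le
  have hcp : ∀ P : List ℤ, coeff 0 (pZ ξ P) = evR u P / T := by
    intro P
    rw [hpZ, coeff_C_mul, (hGA u P).1 ξ hcξ, div_eq_inv_mul]
  -- back and forth
  have hmul : ∀ (S : ℝ⟦X⟧) (P : List ℤ), C T * S - evZ ξ P = C T * (S - pZ ξ P) := by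
    intro S P
    rw [hpZ, mul_sub, ← mul_assoc, ← map_mul, mul_inv_cancel₀ hTne, map_one, one_mul]
  have hback : ∀ (S : ℝ⟦X⟧) (P : List ℤ) (g : ℕ), nrm M r (S - pZ ξ P) ≤ (g : ℝ) / T →
      Ap M r ξ S (P, g) := by
    intro S P g hS
    unfold Ap
    rw [← hT, hmul, nrm_C_mul, abs_of_pos hTpos]
    rw [le_div_iff₀ hTpos] at hS
    rw [mul_comm]
    exact hS
  have hforth : ∀ (S : ℝ⟦X⟧) (P : List ℤ) (g : ℕ), Ap M r ξ S (P, g) →
      nrm M r (S - pZ ξ P) ≤ (g : ℝ) / T := by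
    intro S P g hS
    unfold Ap at hS
    rw [← hT, hmul, nrm_C_mul, abs_of_pos hTpos] at hS
    rw [le_div_iff₀ hTpos, mul_comm]
    exact hS
  obtain ⟨G0, hG0⟩ : ∃ G0 : ℕ, G0 = (etaT + R4) * 3 ^ k4 := ⟨_, rfl⟩
  have hGeq := hTBS.eqG
  rw [← hG0] at hval hGeq
  -- the product
  have hLamR : (0 : ℝ) ≤ (Lam : ℝ) := Nat.cast_nonneg _
  have hPUx := hPU (Lam * r0 / 4096 + 1) M (G0 + R4) (r * ((Lam : ℝ) / T))
    (by
      rw [← hT]
      have h1 : (Lam : ℝ) * (r0 : ℝ) / 4096 ≤ ((Lam * r0 / 4096 + 1 : ℕ) : ℝ) := by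
        have h2 : Lam * r0 < (Lam * r0 / 4096 + 1) * 4096 := by
          have := Nat.div_add_mod (Lam * r0) 4096
          have h3 := Nat.mod_lt (Lam * r0) (show 4096 > 0 by norm_num)
          omega
        have h4 : (Lam : ℝ) * (r0 : ℝ) ≤ ((Lam * r0 / 4096 + 1 : ℕ) : ℝ) * 4096 := by
          exact_mod_cast h2.le
        rw [div_le_iff₀ (by norm_num)]
        exact h4
      have h5 : r * ((Lam : ℝ) / T) = ((Lam : ℝ) * (r0 : ℝ) / 4096) / T := by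
        rw [hrdef]
        ring
      rw [h5]
      exact div_le_div_of_nonneg_right h1 hTpos.le)
    (by positivity)
  rw [← hGeq] at hPUx
  have hprod : ((G0 : ℝ) / T + (R4 : ℝ) / T) *
      ∏ m ∈ Finset.range M, (1 + r * ((Lam : ℝ) / T) / (m + 1)) ≤ (GT : ℝ) / T := by
    have h1 : (G0 : ℝ) / T + (R4 : ℝ) / T = ((G0 + R4 : ℕ) : ℝ) / T := by
      push_cast
      ring
    rw [h1, div_mul_eq_mul_div]
    exact div_le_div_of_nonneg_right hPUx hTpos.le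
  -- the application of JE4
  have hJE := hJE4 M r lam ((r3 : ℝ) / T) ((K.nL 4096 L : ℝ) / T) ((K.nL 4096 Q : ℝ) / T)
    ((K.nL 4096 T' : ℝ) / T) ((G : ℝ) / T) ((Lam : ℝ) / T) ((R4 : ℝ) / T) ((G0 : ℝ) / T)
    lh qh vh (pZ ξ L) (pZ ξ Q) (pZ ξ T') hr hr1 hlam (by positivity) (by positivity)
    (by positivity) heps hode
    (by rw [hDp]; exact hres3 M r ξ hr hnξ)
    (hnp L) (hnp Q) (hnp T') (hforth lh L G hApL) (hforth qh Q G hApQ)
    (by rw [le_div_iff₀ hTpos, one_mul]; exact hlam1) hlam2 hr4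
    (by
      rw [map_sub, hv0, hcp]
      have h1 : |nu t - evR u T' / T| = |T * nu t - evR u T'| / T := by
        rw [show nu t - evR u T' / T = (T * nu t - evR u T') / T by field_simp, abs_div,
          abs_of_pos hTpos]
      rw [h1]
      exact div_le_div_of_nonneg_right hval hTpos.le)
    (by
      refine le_trans ?_ hfin
      have h1 : (0 : ℝ) ≤ (K.nL 4096 Q : ℝ) / T + (G : ℝ) / T := by positivity
      have h2 := mul_le_mul_of_nonneg_left hprod h1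
      linarith)
  exact hback vh T' GT (hJE.trans hprod)

end TWP
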