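import Pool.Agent.TWP.StM4

/-! TWP_GR4: Gronwall with a bootstrap for `ν` (`β = 4`, middle charts). -/

namespace TWP

namespace XGR4m

/-- the one-sided comparison -/
private theorem aux (E E' : ℝ → ℝ) (h e0 R4 Lam : ℝ) (k : ℕ) (hh : 0 < h) (he0 : 0 ≤ e0)
    (hR : 0 < R4) (hLam : 1 ≤ Lam) (hk : Lam * h ≤ k) (hd : ∀ u, HasDerivAt E (E' u) u)
    (hb : ∀ u, 0 ≤ u → u ≤ h → |E u| ≤ (e0 + R4) * 3 ^ k → |E' u| ≤ Lam * |E u| + R4)
    (h0 : |E 0| ≤ e0) : ∀ u, 0 ≤ u → u ≤ h → |E u| ≤ (e0 + R4) * 3 ^ k := by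
  have hLh : 0 < Lam * h := by positivity
  have hk0 : (0 : ℝ) < k := lt_of_lt_of_le hLh hk
  have hlog : 1 < Real.log 3 :=
    (Real.lt_log_iff_exp_lt (by norm_num)).2 (lt_trans Real.exp_one_lt_d9 (by norm_num))
  obtain ⟨μ, hμ⟩ : ∃ μ : ℝ, μ = k * Real.log 3 / h := ⟨_, rfl⟩
  have hμL : Lam < μ := by
    rw [hμ, lt_div_iff₀ hh]
    nlinarith
  have hμ0 : 0 < μ := by linarith
  have hc : 0 < e0 + R4 := by linarith
  have hexp : ∀ x : ℝ, x ≤ h → Real.exp (μ * x) ≤ 3 ^ k := by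
    intro x hx
    have e1 : μ * h = k * Real.log 3 := by
      rw [hμ]; field_simp
    have e2 : Real.exp (μ * h) = 3 ^ k := by
      rw [e1, Real.exp_nat_mul, Real.exp_log (by norm_num)]
    rw [← e2]
    exact Real.exp_le_exp.2 (mul_le_mul_of_nonneg_left hx hμ0.le)
  have hB : ∀ u, HasDerivAt (fun u => (e0 + R4) * Real.exp (μ * u) - R4)
      (μ * ((e0 + R4) * Real.exp (μ * u))) u := by
    intro u
    have h1 : HasDerivAt (fun u : ℝ => μ * u) μ u := by
      simpa using (hasDerivAt_id u).const_mul μ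
    have h2 := ((h1.exp).const_mul (e0 + R4)).sub_const R4
    exact h2.congr_deriv (by ring)
  have main := image_norm_le_of_norm_deriv_right_lt_deriv_boundary' (a := 0) (b := h) (f := E)
    (f' := E')
    (fun x _ => (hd x).continuousAt.continuousWithinAt)
    (fun x _ => (hd x).hasDerivWithinAt)
    (B := fun u => (e0 + R4) * Real.exp (μ * u) - R4)
    (B' := fun u => μ * ((e0 + R4) * Real.exp (μ * u)))
    (by
      simp only [mul_zero, Real.exp_zero, mul_one, Real.norm_eq_abs]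
      linarith)
    (fun x _ => (hB x).continuousAt.continuousWithinAt)
    (fun x _ => (hB x).hasDerivWithinAt)
    (by
      intro x hx hfx
      have hx0 : 0 ≤ x := hx.1
      have hxh : x ≤ h := hx.2.le
      rw [Real.norm_eq_abs] at hfx
      have h1 : (e0 + R4) * Real.exp (μ * x) ≤ (e0 + R4) * 3 ^ k :=
        mul_le_mul_of_nonneg_left (hexp x hxh) hc.le
      have h2 := hb x hx0 hxh (by rw [hfx]; linarith)
      have hpos : 0 < (e0 + R4) * Real.exp (μ * x) := mul_pos hc (Real.exp_pos _)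
      show ‖E' x‖ < μ * ((e0 + R4) * Real.exp (μ * x))
      rw [Real.norm_eq_abs]
      rw [hfx] at h2
      generalize (e0 + R4) * Real.exp (μ * x) = b at h2 hpos ⊢
      nlinarith)
  intro u hu0 huh
  have h6 := main (x := u) ⟨hu0, huh⟩
  rw [Real.norm_eq_abs] at h6
  have h7 : |E u| ≤ (e0 + R4) * Real.exp (μ * u) - R4 := h6
  have h1 : (e0 + R4) * Real.exp (μ * u) ≤ (e0 + R4) * 3 ^ k :=
    mul_le_mul_of_nonneg_left (hexp u huh) hc.le
  linarith

/-- the estimate of the derivative -/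
private theorem est (lam r3 nl nq nt eps Lam R4 l q n pl pq pt pt' G : ℝ) (hlam : 0 < lam)
    (heps : 0 ≤ eps) (heps1 : eps ≤ 1 / 1000) (hpl : |pl| ≤ nl) (hpq : |pq| ≤ nq)
    (hpt : |pt| ≤ nt) (hl : |l - pl| ≤ eps) (hq : |q - pq| ≤ eps)
    (hr : |pt' + (lam / 2 + (-(lam / 2) * (pq * pt) ^ 2 + lam * (pl * pt)))| ≤ r3)
    (hLam : lam * ((nq + 1 / 1000) * (nq * nt + 1 / 1000) + nl + 1 / 1000) ≤ Lam)
    (hR : lam * (nt * eps * (nq * nt + 1 / 1000 + 1)) + r3 ≤ R4)
    (hG : |n - pt| ≤ G) (hfin : (nq + eps) * G + nt * eps ≤ 1 / 1000) :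
    |(-(l * n) - 1 / 2 + q ^ 2 * n ^ 2 / 2) * lam - pt'| ≤ Lam * |n - pt| + R4 := by
  have hnl : 0 ≤ nl := (abs_nonneg _).trans hpl
  have hnq : 0 ≤ nq := (abs_nonneg _).trans hpq
  have hnt : 0 ≤ nt := (abs_nonneg _).trans hpt
  obtain ⟨a, ha⟩ : ∃ a, a = |n - pt| := ⟨_, rfl⟩
  have ha0 : 0 ≤ a := by rw [ha]; exact abs_nonneg _
  have hl1 : |l| ≤ nl + eps := by
    have : l = pl + (l - pl) := by ring
    rw [this]
    exact (abs_add_le _ _).trans (add_le_add hpl hl)
  have hq1 : |q| ≤ nq + eps := by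
    have : q = pq + (q - pq) := by ring
    rw [this]
    exact (abs_add_le _ _).trans (add_le_add hpq hq)
  have b1 : |l * n - pl * pt| ≤ (nl + eps) * a + nt * eps := by
    have e : l * n - pl * pt = l * (n - pt) + (l - pl) * pt := by ring
    rw [e]
    refine (abs_add_le _ _).trans (add_le_add ?_ ?_)
    · rw [abs_mul, ha]
      exact mul_le_mul_of_nonneg_right hl1 (abs_nonneg _)
    · rw [abs_mul, mul_comm nt eps]
      exact mul_le_mul hl hpt (abs_nonneg _) heps
  have b2 : |q * n - pq * pt| ≤ (nq + eps) * a + nt * eps := by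
    have e : q * n - pq * pt = q * (n - pt) + (q - pq) * pt := by ring
    rw [e]
    refine (abs_add_le _ _).trans (add_le_add ?_ ?_)
    · rw [abs_mul, ha]
      exact mul_le_mul_of_nonneg_right hq1 (abs_nonneg _)
    · rw [abs_mul, mul_comm nt eps]
      exact mul_le_mul hq hpt (abs_nonneg _) heps
  have b3 : |q * n - pq * pt| ≤ 1 / 1000 := by
    refine b2.trans (le_trans ?_ hfin)
    have : (nq + eps) * a ≤ (nq + eps) * G := mul_le_mul_of_nonneg_left (ha ▸ hG) (by positivity)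
    linarith
  have b4 : |2 * (pq * pt) + (q * n - pq * pt)| ≤ 2 * (nq * nt) + 1 / 1000 := by
    refine (abs_add_le _ _).trans (add_le_add ?_ b3)
    rw [abs_mul, abs_two, abs_mul]
    exact mul_le_mul_of_nonneg_left (mul_le_mul hpq hpt (abs_nonneg _) hnq) (by norm_num)
  have b5 : |(q * n - pq * pt) * (2 * (pq * pt) + (q * n - pq * pt))| ≤
      ((nq + eps) * a + nt * eps) * (2 * (nq * nt) + 1 / 1000) := by
    rw [abs_mul]
    exact mul_le_mul b2 b4 (abs_nonneg _) (by positivity)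
  have e1 : (-(l * n) - 1 / 2 + q ^ 2 * n ^ 2 / 2) * lam - pt' =
      -(lam * (l * n - pl * pt)) +
        lam / 2 * ((q * n - pq * pt) * (2 * (pq * pt) + (q * n - pq * pt))) -
      (pt' + (lam / 2 + (-(lam / 2) * (pq * pt) ^ 2 + lam * (pl * pt)))) := by ring
  rw [e1, ← ha]
  refine (abs_sub _ _).trans ?_
  have c1 : |-(lam * (l * n - pl * pt)) +
      lam / 2 * ((q * n - pq * pt) * (2 * (pq * pt) + (q * n - pq * pt)))| ≤
      lam * ((nl + eps) * a + nt * eps) +
        lam / 2 * (((nq + eps) * a + nt * eps) * (2 * (nq * nt) + 1 / 1000)) := by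
    refine (abs_add_le _ _).trans (add_le_add ?_ ?_)
    · rw [abs_neg, abs_mul, abs_of_pos hlam]
      exact mul_le_mul_of_nonneg_left b1 hlam.le
    · rw [abs_mul, abs_of_pos (by positivity : 0 < lam / 2)]
      exact mul_le_mul_of_nonneg_left b5 (by positivity)
  have d1 : (nl + eps) + (nq + eps) * (nq * nt + 1 / 2000) ≤
      (nq + 1 / 1000) * (nq * nt + 1 / 1000) + nl + 1 / 1000 := by
    have t1 : (nq + eps) * (nq * nt + 1 / 2000) ≤ (nq + 1 / 1000) * (nq * nt + 1 / 1000) :=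
      mul_le_mul (by linarith) (by linarith) (by positivity) (by positivity)
    linarith
  have d2 : lam * ((nl + eps) + (nq + eps) * (nq * nt + 1 / 2000)) * a ≤ Lam * a :=
    mul_le_mul_of_nonneg_right ((mul_le_mul_of_nonneg_left d1 hlam.le).trans hLam) ha0
  have d3 : lam * (nt * eps * (nq * nt + 1 / 2000 + 1)) ≤
      lam * (nt * eps * (nq * nt + 1 / 1000 + 1)) := by
    refine mul_le_mul_of_nonneg_left (mul_le_mul_of_nonneg_left (by linarith) (by positivity))
      hlam.le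
  have e2 : lam * ((nl + eps) * a + nt * eps) +
      lam / 2 * (((nq + eps) * a + nt * eps) * (2 * (nq * nt) + 1 / 1000)) =
      lam * ((nl + eps) + (nq + eps) * (nq * nt + 1 / 2000)) * a +
        lam * (nt * eps * (nq * nt + 1 / 2000 + 1)) := by ring
  rw [e2] at c1
  linarith

end XGR4m

theorem t_GR4 : S_GR4 := by
  intro q l nu c lam h e0 r3 nl nq nt eps Lam R4 k pl pq pt pt' hQ hlam hh hr3 he0 heps heps1
    hpt hall h0 hLam1 hLam hR hR0 hk hfin
  have hlin : ∀ u : ℝ, HasDerivAt (fun u : ℝ => c + lam * u) lam u := by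
    intro u
    have h1 := ((hasDerivAt_id u).const_mul lam).const_add c
    simpa using h1
  have hd : ∀ u : ℝ, HasDerivAt (fun u => nu (c + lam * u) - pt u)
      ((-(l (c + lam * u) * nu (c + lam * u)) - 1 / 2 +
        q (c + lam * u) ^ 2 * nu (c + lam * u) ^ 2 / 2) * lam - pt' u) u := by
    intro u
    exact ((hQ.dn (c + lam * u)).comp u (hlin u)).sub (hpt u)
  have hb : ∀ u : ℝ, |u| ≤ h → |nu (c + lam * u) - pt u| ≤ (e0 + R4) * 3 ^ k →
      |(-(l (c + lam * u) * nu (c + lam * u)) - 1 / 2 +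
        q (c + lam * u) ^ 2 * nu (c + lam * u) ^ 2 / 2) * lam - pt' u| ≤
        Lam * |nu (c + lam * u) - pt u| + R4 := by
    intro u hu hG
    obtain ⟨h1, h2, h3, h4, h5, h6⟩ := hall u hu
    exact XGR4m.est lam r3 nl nq nt eps Lam R4 _ _ _ _ _ _ _ _ hlam heps heps1 h1 h2 h3 h4 h5 h6
      hLam hR hG hfin
  intro u hu
  rcases le_total 0 u with hu0 | hu0
  · refine XGR4m.aux (fun u => nu (c + lam * u) - pt u) _ h e0 R4 Lam k hh he0 hR0 hLam1 hk hd
      ?_ ?_ u hu0 (le_trans (le_abs_self u) hu)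
    · intro v hv0 hvh hG
      exact hb v (by rw [abs_of_nonneg hv0]; exact hvh) hG
    · simpa using h0
  · have hneg : ∀ u : ℝ, HasDerivAt (fun u : ℝ => -u) (-1) u := fun u => (hasDerivAt_id u).neg
    have hd' : ∀ u : ℝ, HasDerivAt (fun u => nu (c + lam * (-u)) - pt (-u))
        (((-(l (c + lam * (-u)) * nu (c + lam * (-u))) - 1 / 2 +
          q (c + lam * (-u)) ^ 2 * nu (c + lam * (-u)) ^ 2 / 2) * lam - pt' (-u)) * (-1)) u :=
      fun u => (hd (-u)).comp u (hneg u)
    have h9 := XGR4m.aux (fun u => nu (c + lam * (-u)) - pt (-u)) _ h e0 R4 Lam k hh he0 hR0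
      hLam1 hk hd' (by
        intro v hv0 hvh hG
        have := hb (-v) (by rw [abs_neg, abs_of_nonneg hv0]; exact hvh) hG
        rw [abs_mul, abs_neg, abs_one, mul_one]
        exact this) (by simpa using h0) (-u) (by linarith)
      (by have := neg_abs_le u; linarith)
    simpa using h9

end TWP
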