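import Pool.Agent.TWP.StM4
import Pool.Agent.TWP.KNrm

set_option autoImplicit false

/-! TWP, module GS4: soundness of `baseT`. -/

namespace TWP

open PowerSeries Filter Topology
open scoped ContDiff

namespace XGS4m

theorem coeff_Tay (ψ f : ℝ → ℝ) (t : ℝ) : coeff 0 (Tay ψ f t) = f t := by
  unfold Tay
  rw [coeff_mk]
  simp

/-- from `Ap` to the value at the point -/
theorem val (hGA : S_GA) (M r0 : ℕ) (lam c : ℝ) (f : ℝ → ℝ) (t u : ℝ) (P : List ℤ) (G : ℕ)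
    (hu : (t - c) / lam = u)
    (h : Ap M ((r0 : ℝ) / 4096) (Tay (fun _ => lam) (fun s => (s - c) / lam) t)
      (Tay (fun _ => lam) f t) (P, G)) :
    |(2 : ℝ) ^ 160 * f t - evR u P| ≤ (G : ℝ) := by
  unfold Ap at h
  have h1 := (nrm_coeff_zero M (by positivity : (0 : ℝ) ≤ (r0 : ℝ) / 4096) _).trans h
  rw [map_sub, coeff_C_mul, coeff_Tay,
    (hGA u P).1 (Tay (fun _ => lam) (fun s => (s - c) / lam) t) (by rw [coeff_Tay, hu])] at h1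
  exact h1

end XGS4m

theorem t_GS4 (hGS : S_GS) (hGA : S_GA) (hTB : S_TB) (hGI4 : S_GI4) (hGJ4 : S_GJ4) : S_GS4 := by
  intro q l nu M N h r0 cn ln eta k etaT k4 L Q T G GT hQLN hh hr0 hh0 hln hM hG hGT hl hq hnu
    t ht
  obtain ⟨r3, Lam, R4, hTBS⟩ := hTB N M h r0 ln etaT k4 L Q T G GT hGT
  have hgs := hGS q l M h r0 cn ln eta k L Q G hQLN.ql hh hr0 hh0 hln hM hG hl hq
  have hln' : (0 : ℝ) < (ln : ℝ) / 64 := by
    have : (0 : ℝ) < (ln : ℝ) := by exact_mod_cast hln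
    positivity
  have hval : ∀ u : ℝ, |u| ≤ (h : ℝ) / 4096 →
      |(2 : ℝ) ^ 160 * l ((cn : ℝ) / 64 + (ln : ℝ) / 64 * u) - evR u L| ≤ (G : ℝ) ∧
      |(2 : ℝ) ^ 160 * q ((cn : ℝ) / 64 + (ln : ℝ) / 64 * u) - evR u Q| ≤ (G : ℝ) := by
    intro u hu
    have e : ((cn : ℝ) / 64 + (ln : ℝ) / 64 * u - (cn : ℝ) / 64) / ((ln : ℝ) / 64) = u := by
      rw [add_sub_cancel_left, mul_div_cancel_left₀ _ hln'.ne']
    obtain ⟨h1, h2⟩ := hgs ((cn : ℝ) / 64 + (ln : ℝ) / 64 * u) (by rw [e]; exact hu)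
    exact ⟨XGS4m.val hGA M r0 _ _ l _ u L G e h1, XGS4m.val hGA M r0 _ _ q _ u Q G e h2⟩
  have e2 : (cn : ℝ) / 64 + (ln : ℝ) / 64 * ((t - (cn : ℝ) / 64) / ((ln : ℝ) / 64)) = t := by
    rw [mul_div_cancel₀ _ hln'.ne']; ring
  have h3 := hGI4 q l nu M h r0 cn ln etaT k4 L Q T G GT r3 Lam R4 hQLN hh hr0 hh0 hln hTBS hval
    hnu ((t - (cn : ℝ) / 64) / ((ln : ℝ) / 64)) ht
  rw [e2] at h3
  obtain ⟨h1, h2⟩ := hgs t ht
  exact ⟨h1, h2, hGJ4 q l nu M h r0 cn ln etaT k4 L Q T G GT r3 Lam R4 hQLN hh hr0 hh0 hln hTBS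
    t _ rfl ht h1 h2 h3⟩

end TWP
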