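import Pool.Agent.TWP.StM4
import Pool.Agent.TWP.KM1

set_option autoImplicit false

/-! TWP: soundness of `m0four` (`β = 4`). -/

namespace TWP

open PowerSeries

theorem t_M4 (hLIN : S_LIN) (hMULA : S_MULA) (hINVA : S_INVA) : S_M4 := by
  intro M r ξ l q v B w N cn ln L Q T b hr hw hx hb hl hq hv hB
  have hok : Okw M r ξ w := ⟨hr, hw, hx⟩
  have hx1 : nrm M r ξ ≤ 1 := hx.trans (by
    rw [div_le_one (by norm_num)]; exact_mod_cast hw)
  unfold K.m0four at hb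
  split at hb
  case h_2 => exact absurd hb (by simp)
  case h_1 L2 W T2 LT hL2 hW hT2 hLT =>
    have aL2 : Ap M r ξ (l * l) L2 := hMULA M r ξ l l w N L L L2 hok hL2 hl hl
    have aW : Ap M r ξ (q * q) W := hMULA M r ξ q q w N Q Q W hok hW hq hq
    have aT2 : Ap M r ξ (v * v) T2 := hMULA M r ξ v v w N T T T2 hok hT2 hv hv
    have aLT : Ap M r ξ (l * v) LT := hMULA M r ξ l v w N L T LT hok hLT hl hv
    have aNW := hLIN.2.1 M r ξ (q * q) W (-1) hr.le aW
    have a1 := hLIN.1 M r ξ _ _ _ _ hr.le aL2 aNW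
    have a2 := hLIN.1 M r ξ _ _ _ _ hr.le a1 (Ap_lin hLIN M r ξ cn ln hr.le)
    have aNT := hLIN.2.1 M r ξ v T (-1) hr.le hv
    have a3 := hLIN.1 M r ξ _ _ _ _ hr.le a2 aNT
    have eg : l * l + C (((-1 : ℤ) : ℝ)) * (q * q) +
        -(C ((cn : ℝ) / 64) + C ((ln : ℝ) / 64) * ξ) + C (((-1 : ℤ) : ℝ)) * v = B := by
      rw [hB]; push_cast; rw [map_neg, map_one]; ring
    rw [eg] at a3
    simp only at hb
    split at hb
    case h_2 => exact absurd hb (by simp)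
    case h_1 V ni WB WT hV hWB hWT =>
      obtain ⟨h0, av, _⟩ := hINVA M r ξ B w N ni _ V hok hV a3
      have aWB : Ap M r ξ (q * q * B) WB := hMULA M r ξ _ _ w N _ _ WB hok hWB aW a3
      have aWT : Ap M r ξ (q * q * (v * v)) WT := hMULA M r ξ _ _ w N _ _ WT hok hWT aW aT2
      try simp only at hb
      split at hb
      case h_2 => exact absurd hb (by simp)
      case h_1 A hA =>
        have b1 := hLIN.1 M r ξ _ _ _ _ hr.le aWT (Ap_one hLIN M r ξ hr.le)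
        have b2 := hLIN.2.2.1 M r ξ _ _ (2 ^ 159) hr.le hx1 b1
        have b3 := hLIN.1 M r ξ _ _ _ _ hr.le b2 aLT
        have aA := hMULA M r ξ _ _ w N _ _ A hok hA b3 av
        have c1 := hLIN.2.2.1 M r ξ _ WB (ln * 2 ^ 153) hr.le hx1 aWB
        have c2 := hLIN.2.2.1 M r ξ _ A (-(ln * 2 ^ 154)) hr.le hx1 aA
        have c3 := hLIN.1 M r ξ _ _ _ _ hr.le c1 c2
        refine ⟨h0, ?_⟩
        have h1 : (((ln : ℤ) * 2 ^ 153 : ℤ) : ℝ) / 2 ^ 160 = (ln : ℝ) / 64 * (1 / 2) := by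
          push_cast; ring
        have h2 : (((2 ^ 159 : ℤ) : ℝ) / 2 ^ 160) = 1 / 2 := by
          push_cast; norm_num
        have h3 : ((-((ln : ℤ) * 2 ^ 154) : ℤ) : ℝ) / 2 ^ 160 = -((ln : ℝ) / 64) := by
          push_cast; ring
        have e5 : C ((((ln : ℤ) * 2 ^ 153 : ℤ) : ℝ) / 2 ^ 160) * (q * q * B) +
            C (((-((ln : ℤ) * 2 ^ 154) : ℤ) : ℝ) / 2 ^ 160) *
              ((C (((2 ^ 159 : ℤ) : ℝ) / 2 ^ 160) * (q * q * (v * v) + 1) + l * v) * B⁻¹) =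
            C ((ln : ℝ) / 64) * (C (1 / 2 : ℝ) * (q ^ 2 * B) -
              (C (1 / 2 : ℝ) * (1 + q ^ 2 * v ^ 2) + l * v) * B⁻¹) := by
          rw [h1, h2, h3, map_mul C ((ln : ℝ) / 64), map_neg]; ring
        rw [e5] at c3
        have : b = K.addA (K.sclA (ln * 2 ^ 153) WB) (K.sclA (-(ln * 2 ^ 154)) A) := by
          simpa using hb.symm
        rw [this]
        exact c3

end TWP
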