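import Pool.Agent.TWP.StM4
import Pool.Agent.TWP.FQS

/-! TWP_QS4: smoothness of `ν`. -/

set_option autoImplicit false

namespace TWP

open PowerSeries Filter Topology
open scoped ContDiff

theorem t_QS4 : S_QS4 := by
  intro q l nu h
  obtain ⟨hq, hl⟩ := QS q l h.ql
  have hdn : Differentiable ℝ nu := fun t => (h.dn t).differentiableAt
  have e1 : deriv nu = fun t => -(l t * nu t) - 1 / 2 + q t ^ 2 * nu t ^ 2 / 2 :=
    funext fun t => (h.dn t).deriv
  have key : ∀ n : ℕ, ContDiff ℝ n nu := by
    intro n
    induction n with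
    | zero => exact contDiff_zero.2 hdn.continuous
    | succ n ih =>
      have hqn : ContDiff ℝ n q := contDiff_infty.1 hq n
      have hln : ContDiff ℝ n l := contDiff_infty.1 hl n
      have c1 : ContDiff ℝ n (deriv nu) := by
        rw [e1]
        exact (((hln.mul ih).neg.sub contDiff_const).add
          (((hqn.pow 2).mul (ih.pow 2)).div_const 2))
      have := (contDiff_succ_iff_deriv (n := (n : ℕ∞ω)) (f := nu) (𝕜 := ℝ)).2
        ⟨hdn, by intro hc; exact absurd hc (by simp), c1⟩
      exact_mod_cast this
  exact contDiff_infty.2 key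

end TWP
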