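import Pool.Agent.TWP.StM4
import Pool.Agent.TWP.KNrm
import Pool.Agent.TWP.FGB

/-! TWP, module TB (`β = 4`): what `baseT` says. -/

set_option autoImplicit false

namespace TWP

open PowerSeries Finset

namespace XTBx

/-- from an approximation to the bound of the norm -/
theorem nrm_of_Ap (hNL : S_NL) (M : ℕ) (r : ℝ) (ξ S : ℝ⟦X⟧) (R : K.AP) (hr : 0 ≤ r)
    (hξ : nrm M r ξ ≤ 1) (h : Ap M r ξ S R) :
    nrm M r S ≤ ((K.nL 4096 R.1 + R.2 : ℕ) : ℝ) / 2 ^ 160 := by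
  have h1 : nrm M r (evZ ξ R.1) ≤ (K.nL 4096 R.1 : ℝ) := by
    refine hNL M r ξ 4096 R.1 hr ?_
    have : ((4096 : ℕ) : ℝ) / 4096 = 1 := by norm_num
    rw [this]; exact hξ
  have h2 : nrm M r (C ((2 : ℝ) ^ 160) * S - evZ ξ R.1) ≤ (R.2 : ℝ) := h
  have h3 := nrm_add M hr (C ((2 : ℝ) ^ 160) * S - evZ ξ R.1) (evZ ξ R.1)
  rw [sub_add_cancel] at h3
  have hp : (0 : ℝ) < (2 : ℝ) ^ 160 := by positivity
  rw [nrm_C_mul, abs_of_pos hp] at h3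
  rw [le_div_iff₀ hp, Nat.cast_add]
  linarith

theorem Ap_const (hLIN : S_LIN) (M : ℕ) (r : ℝ) (ξ : ℝ⟦X⟧) (ln : ℕ) (hr : 0 ≤ r) :
    Ap M r ξ (C ((ln : ℝ) / 128)) ([(ln : ℤ) * 2 ^ 153], 0) := by
  have h := hLIN.2.2.2.2.2 M r ξ [(ln : ℤ) * 2 ^ 153] hr
  have e : C (((2 : ℝ) ^ 160)⁻¹) * evZ ξ [(ln : ℤ) * 2 ^ 153] = C ((ln : ℝ) / 128) := by
    simp only [evZ]
    rw [mul_zero, add_zero, ← map_mul]
    congr 1
    push_cast
    ring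
  rwa [e] at h

theorem res (hLIN : S_LIN) (hMULA : S_MULA) (N ln : ℕ) (L Q T : List ℤ) (R : K.AP)
    (hR : K.resT 4096 N ln L Q T = some R) (M : ℕ) (r : ℝ) (ξ : ℝ⟦X⟧) (hr : 0 < r)
    (hξ : nrm M r ξ ≤ 1) :
    Ap M r ξ (pZ ξ (K.derM T) + (C ((ln : ℝ) / 128) + (-(C ((ln : ℝ) / 128)) * (pZ ξ Q * pZ ξ T) ^ 2 +
      C ((ln : ℝ) / 64) * (pZ ξ L * pZ ξ T)))) R := by
  have hok : Okw M r ξ 4096 := ⟨hr, le_refl _, by
    have : ((4096 : ℕ) : ℝ) / 4096 = 1 := by norm_num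
    rw [this]; exact hξ⟩
  have aP : ∀ P : List ℤ, Ap M r ξ (pZ ξ P) (P, 0) := fun P => hLIN.2.2.2.2.2 M r ξ P hr.le
  unfold K.resT at hR
  split at hR
  case h_2 => exact absurd hR (by simp)
  case h_1 X Y hX hY =>
    have aX : Ap M r ξ (pZ ξ Q * pZ ξ T) X := hMULA M r ξ _ _ 4096 N _ _ X hok hX (aP Q) (aP T)
    have aY : Ap M r ξ (pZ ξ L * pZ ξ T) Y := hMULA M r ξ _ _ 4096 N _ _ Y hok hY (aP L) (aP T)
    split at hR
    case h_2 => exact absurd hR (by simp)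
    case h_1 X2 hX2 =>
      have aX2 := hMULA M r ξ _ _ 4096 N _ _ X2 hok hX2 aX aX
      have a1 := hLIN.2.2.1 M r ξ _ X2 (-((ln : ℤ) * 2 ^ 153)) hr.le hξ aX2
      have a2 := hLIN.2.2.1 M r ξ _ Y ((ln : ℤ) * 2 ^ 154) hr.le hξ aY
      have a3 := hLIN.1 M r ξ _ _ _ _ hr.le a1 a2
      have a4 := hLIN.1 M r ξ _ _ _ _ hr.le (Ap_const hLIN M r ξ ln hr.le) a3
      have a5 := hLIN.1 M r ξ _ _ _ _ hr.le (aP (K.derM T)) a4
      have e1 : ((-((ln : ℤ) * 2 ^ 153) : ℤ) : ℝ) / 2 ^ 160 = -((ln : ℝ) / 128) := by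
        push_cast; ring
      have e2 : (((ln : ℤ) * 2 ^ 154 : ℤ) : ℝ) / 2 ^ 160 = (ln : ℝ) / 64 := by
        push_cast; ring
      rw [e1, e2, map_neg, ← pow_two] at a5
      have hR' : R = K.addA (K.derM T, 0) (K.addA ([(ln : ℤ) * 2 ^ 153], 0)
          (K.addA (K.sclA (-((ln : ℤ) * 2 ^ 153)) X2) (K.sclA ((ln : ℤ) * 2 ^ 154) Y))) := by
        simpa using hR.symm
      rw [hR']
      exact a5

/-- the numerical part -/
theorem numLam (Z nq nt nl lam e qt Lam1 : ℝ) (hZ : 0 < Z) (hlam : 0 ≤ lam) (hq : 0 ≤ nq)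
    (ht : 0 ≤ nt) (he : Z / 1000 ≤ e) (hqt : nq * nt / Z + Z / 1000 ≤ qt)
    (hL : lam / 64 * ((nq + e) * qt / Z + nl + e) ≤ Lam1) :
    lam / 64 * ((nq / Z + 1 / 1000) * (nq / Z * (nt / Z) + 1 / 1000) + nl / Z + 1 / 1000) ≤
      Lam1 / Z := by
  rw [le_div_iff₀ hZ]
  refine le_trans ?_ hL
  have h1 : (nq + Z / 1000) * (nq * nt / Z + Z / 1000) ≤ (nq + e) * qt := by
    apply mul_le_mul (by linarith) hqt (by positivity)
    have : 0 < Z / 1000 := by positivity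
    linarith
  have h2 : (nq + Z / 1000) * (nq * nt / Z + Z / 1000) / Z ≤ (nq + e) * qt / Z :=
    div_le_div_of_nonneg_right h1 hZ.le
  have h3 : lam / 64 * ((nq / Z + 1 / 1000) * (nq / Z * (nt / Z) + 1 / 1000) + nl / Z + 1 / 1000) * Z
      = lam / 64 * ((nq + Z / 1000) * (nq * nt / Z + Z / 1000) / Z + nl + Z / 1000) := by
    field_simp
  rw [h3]
  apply mul_le_mul_of_nonneg_left _ (by positivity)
  linarith

theorem numR4 (Z nq nt g lam qt a r3 R4 : ℝ) (hZ : 0 < Z) (hlam : 0 ≤ lam) (hq : 0 ≤ nq)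
    (ht : 0 ≤ nt) (hg : 0 ≤ g) (hqt : nq * nt / Z + Z / 1000 ≤ qt)
    (ha : nt * g / Z ≤ a) (hL : lam / 64 * (a * (qt + Z) / Z) + r3 ≤ R4) :
    lam / 64 * (nt / Z * (g / Z) * (nq / Z * (nt / Z) + 1 / 1000 + 1)) + r3 / Z ≤ R4 / Z := by
  rw [le_div_iff₀ hZ]
  refine le_trans ?_ hL
  have h1 : nt * g / Z * (nq * nt / Z + Z / 1000 + Z) ≤ a * (qt + Z) := by
    apply mul_le_mul ha (by linarith) (by positivity)
    exact le_trans (by positivity) ha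
  have h2 : nt * g / Z * (nq * nt / Z + Z / 1000 + Z) / Z ≤ a * (qt + Z) / Z :=
    div_le_div_of_nonneg_right h1 hZ.le
  have h3 : (lam / 64 * (nt / Z * (g / Z) * (nq / Z * (nt / Z) + 1 / 1000 + 1)) + r3 / Z) * Z
      = lam / 64 * (nt * g / Z * (nq * nt / Z + Z / 1000 + Z) / Z) + r3 := by
    field_simp
  rw [h3]
  have h4 := mul_le_mul_of_nonneg_left h2 (show (0 : ℝ) ≤ lam / 64 by positivity)
  linarith

end XTBx

open XTBx in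
theorem t_TB (hLIN : S_LIN) (hMULA : S_MULA) (hNL : S_NL) : S_TB := by
  intro N M h r0 ln etaT k4 L Q T G GT hG
  unfold K.baseT at hG
  split at hG
  case h_1 => exact absurd hG (by simp)
  case h_2 R hR =>
    dsimp only at hG
    obtain ⟨r3, hr3⟩ : ∃ x, x = K.nL 4096 R.1 + R.2 := ⟨_, rfl⟩
    rw [← hr3] at hG
    obtain ⟨e, he⟩ : ∃ x, x = K.ONE / 1000 + 1 := ⟨_, rfl⟩
    rw [← he] at hG
    obtain ⟨qt, hqt⟩ : ∃ x, x = K.nL 4096 Q * K.nL 4096 T / K.ONE + 1 + e := ⟨_, rfl⟩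
    rw [← hqt] at hG
    obtain ⟨Lam, hLam⟩ : ∃ x, x = max K.ONE (ln * ((K.nL 4096 Q + e) * qt / K.ONE + 1 +
      K.nL 4096 L + e) / 64 + 1) := ⟨_, rfl⟩
    rw [← hLam] at hG
    obtain ⟨R4, hR4⟩ : ∃ x, x = ln * ((K.nL 4096 T * G / K.ONE + 1) * (qt + K.ONE) / K.ONE + 1) / 64 +
      1 + r3 := ⟨_, rfl⟩
    rw [← hR4] at hG
    obtain ⟨GT', hGT'⟩ : ∃ x, x = K.prodUp (Lam * r0 / 4096 + 1) M ((etaT + R4) * 3 ^ k4 + R4) :=
      ⟨_, rfl⟩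
    rw [← hGT'] at hG
    by_cases h2 : (Nat.ble (Lam * h) (k4 * K.ONE * 4096) && Nat.ble (1000 * G) K.ONE &&
        Nat.ble (1000 * ((K.nL 4096 Q + G) * GT' + K.nL 4096 T * G)) (K.ONE * K.ONE)) = true
    swap
    · rw [if_neg h2] at hG
      exact absurd hG (by simp)
    rw [if_pos h2] at hG
    have hGG : GT' = GT := Option.some.inj hG
    subst hGG
    simp only [Bool.and_eq_true, Nat.ble_eq] at h2
    obtain ⟨⟨h3, h4⟩, h5⟩ := h2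
    have hp : (0 : ℝ) < (2 : ℝ) ^ 160 := by positivity
    have hthou : ((1000 : ℕ) : ℝ) = 1000 := by norm_num
    have h64 : ((64 : ℕ) : ℝ) = 64 := by norm_num
    -- the bound for `e`
    have heR : (2 : ℝ) ^ 160 / 1000 ≤ (e : ℝ) := by
      have h8 := GB_div K.ONE 1000 (by norm_num)
      rw [GB_one, ← he, hthou] at h8
      rw [div_le_iff₀ (by norm_num)]
      exact h8
    have hqtR : (K.nL 4096 Q : ℝ) * K.nL 4096 T / 2 ^ 160 + 2 ^ 160 / 1000 ≤ (qt : ℝ) := by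
      have h8 := GB_div (K.nL 4096 Q * K.nL 4096 T) K.ONE GB_onepos
      rw [GB_one, Nat.cast_mul, ← div_le_iff₀ hp] at h8
      rw [hqt, Nat.cast_add]
      linarith
    have hlamR : (ln : ℝ) / 64 * (((K.nL 4096 Q : ℝ) + e) * qt / 2 ^ 160 + K.nL 4096 L + e) ≤
        (Lam : ℝ) := by
      have h8 := GB_div ((K.nL 4096 Q + e) * qt) K.ONE GB_onepos
      rw [GB_one, Nat.cast_mul, Nat.cast_add (K.nL 4096 Q) e, ← div_le_iff₀ hp] at h8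
      have h9 := GB_div (ln * ((K.nL 4096 Q + e) * qt / K.ONE + 1 + K.nL 4096 L + e)) 64 (by norm_num)
      have h10 : ln * ((K.nL 4096 Q + e) * qt / K.ONE + 1 + K.nL 4096 L + e) / 64 + 1 ≤ Lam := by
        rw [hLam]; exact le_max_right _ _
      have h11 : ((ln * ((K.nL 4096 Q + e) * qt / K.ONE + 1 + K.nL 4096 L + e) / 64 + 1 : ℕ) : ℝ) ≤
          (Lam : ℝ) := Nat.cast_le.2 h10
      rw [h64, Nat.cast_mul, Nat.cast_add _ e, Nat.cast_add _ (K.nL 4096 L)] at h9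
      have h12 : (ln : ℝ) * (((K.nL 4096 Q : ℝ) + e) * qt / 2 ^ 160 + K.nL 4096 L + e) ≤
          (ln : ℝ) * ((((K.nL 4096 Q + e) * qt / K.ONE + 1 : ℕ) : ℝ) + (K.nL 4096 L : ℝ) + (e : ℝ)) := by
        apply mul_le_mul_of_nonneg_left _ (Nat.cast_nonneg _)
        linarith
      have h13 : (ln : ℝ) / 64 * (((K.nL 4096 Q : ℝ) + e) * qt / 2 ^ 160 + K.nL 4096 L + e) =
          (ln : ℝ) * (((K.nL 4096 Q : ℝ) + e) * qt / 2 ^ 160 + K.nL 4096 L + e) / 64 := by ring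
      rw [h13, div_le_iff₀ (by norm_num)]
      linarith
    have hr4R : (ln : ℝ) / 64 * (((K.nL 4096 T * G / K.ONE + 1 : ℕ) : ℝ) * ((qt : ℝ) + 2 ^ 160) / 2 ^ 160) +
        (r3 : ℝ) ≤ (R4 : ℝ) := by
      have h8 := GB_div ((K.nL 4096 T * G / K.ONE + 1) * (qt + K.ONE)) K.ONE GB_onepos
      rw [GB_one, Nat.cast_mul, Nat.cast_add qt K.ONE, GB_one, ← div_le_iff₀ hp] at h8
      have h9 := GB_div (ln * ((K.nL 4096 T * G / K.ONE + 1) * (qt + K.ONE) / K.ONE + 1)) 64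
        (by norm_num)
      rw [h64, Nat.cast_mul] at h9
      have h12 := mul_le_mul_of_nonneg_left h8 (Nat.cast_nonneg (α := ℝ) ln)
      have h14 : (R4 : ℝ) = ((ln * ((K.nL 4096 T * G / K.ONE + 1) * (qt + K.ONE) / K.ONE + 1) / 64 +
          1 : ℕ) : ℝ) + (r3 : ℝ) := by
        rw [hR4, Nat.cast_add _ r3]
      rw [h14]
      have h13 : (ln : ℝ) / 64 * (((K.nL 4096 T * G / K.ONE + 1 : ℕ) : ℝ) * ((qt : ℝ) + 2 ^ 160) / 2 ^ 160)
          = (ln : ℝ) * (((K.nL 4096 T * G / K.ONE + 1 : ℕ) : ℝ) * ((qt : ℝ) + 2 ^ 160) / 2 ^ 160) / 64 := by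
        ring
      rw [h13]
      have h15 : (ln : ℝ) * (((K.nL 4096 T * G / K.ONE + 1 : ℕ) : ℝ) * ((qt : ℝ) + 2 ^ 160) / 2 ^ 160) / 64
          ≤ ((ln * ((K.nL 4096 T * G / K.ONE + 1) * (qt + K.ONE) / K.ONE + 1) / 64 + 1 : ℕ) : ℝ) := by
        rw [div_le_iff₀ (by norm_num)]
        exact h12.trans h9
      linarith
    refine ⟨r3, Lam, R4, ?_, ?_, ?_, ?_, ?_, ?_, ?_, ?_, hGT'⟩
    · intro M' r ξ hr hξ
      rw [hr3]
      exact nrm_of_Ap hNL M' r ξ _ R hr.le hξ (res hLIN hMULA N ln L Q T R hR M' r ξ hr hξ)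
    · have h6 : K.ONE ≤ Lam := by rw [hLam]; exact le_max_left _ _
      have h7 : ((K.ONE : ℕ) : ℝ) ≤ (Lam : ℝ) := Nat.cast_le.2 h6
      rwa [GB_one] at h7
    · exact numLam _ _ _ _ _ (e : ℝ) (qt : ℝ) (Lam : ℝ) hp (Nat.cast_nonneg _) (Nat.cast_nonneg _)
        (Nat.cast_nonneg _) heR hqtR hlamR
    · refine numR4 _ _ _ _ _ (qt : ℝ) ((K.nL 4096 T * G / K.ONE + 1 : ℕ) : ℝ) (r3 : ℝ) (R4 : ℝ) hp
        (Nat.cast_nonneg _) (Nat.cast_nonneg _) (Nat.cast_nonneg _) (Nat.cast_nonneg _) hqtR ?_ hr4R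
      have h8 := GB_div (K.nL 4096 T * G) K.ONE GB_onepos
      rw [GB_one, Nat.cast_mul, ← div_le_iff₀ hp] at h8
      exact h8
    · rw [hR4]
      omega
    · have h6 : ((Lam * h : ℕ) : ℝ) ≤ ((k4 * K.ONE * 4096 : ℕ) : ℝ) := Nat.cast_le.2 h3
      rw [Nat.cast_mul, Nat.cast_mul, Nat.cast_mul, GB_one] at h6
      have h11 : ((4096 : ℕ) : ℝ) = 4096 := by norm_num
      rw [h11] at h6
      exact h6
    · have h6 : ((1000 * G : ℕ) : ℝ) ≤ ((K.ONE : ℕ) : ℝ) := Nat.cast_le.2 h4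
      rw [Nat.cast_mul, GB_one, hthou] at h6
      rw [div_le_div_iff₀ hp (by norm_num)]
      linarith
    · have h6 : ((1000 * ((K.nL 4096 Q + G) * GT' + K.nL 4096 T * G) : ℕ) : ℝ) ≤
          ((K.ONE * K.ONE : ℕ) : ℝ) := Nat.cast_le.2 h5
      rw [Nat.cast_mul, Nat.cast_mul, GB_one, hthou, Nat.cast_add, Nat.cast_mul, Nat.cast_mul,
        Nat.cast_add] at h6
      obtain ⟨Z, hZ⟩ : ∃ x : ℝ, x = (2 : ℝ) ^ 160 := ⟨_, rfl⟩
      rw [← hZ] at h6 hp ⊢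
      have h7 : ((K.nL 4096 Q : ℝ) / Z + (G : ℝ) / Z) * ((GT' : ℝ) / Z) +
          (K.nL 4096 T : ℝ) / Z * ((G : ℝ) / Z) =
          (((K.nL 4096 Q : ℝ) + G) * GT' + (K.nL 4096 T : ℝ) * G) / (Z * Z) := by
        field_simp
      rw [h7, div_le_div_iff₀ (mul_pos hp hp) (by norm_num)]
      linarith

end TWP
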