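import Pool.Agent.TWP.StM4
import Pool.Agent.TWP.MJE

set_option autoImplicit false

/-! TWP, module JE4 (backup copy): jets of the error of `ν`. -/

namespace TWP

open PowerSeries Finset Pool.Agent.TWPx

theorem t_JE4' : S_JE4 := by
  intro M r lam r3 nl nq nt eps Lam R4 G0 l q v pL pQ pT hr hr1 hlam h3 hG heps heps1 hDv hR3
    hnl hnq hnt hel heq hLam hL hR4 hG0 hsm
  have hr0 : 0 ≤ r := hr.le
  set P : ℕ → ℝ := fun m => ∏ j ∈ Finset.range m, (1 + r * Lam / ((j : ℝ) + 1)) with hP
  have hfac : ∀ j : ℕ, 1 ≤ 1 + r * Lam / ((j : ℝ) + 1) := by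
    intro j
    have : 0 ≤ r * Lam / ((j : ℝ) + 1) := by positivity
    linarith
  have hPpos : ∀ m, 0 ≤ P m := fun m => prod_nonneg fun j _ => by linarith [hfac j]
  have hPsucc : ∀ m, P (m + 1) = P m * (1 + r * Lam / ((m : ℝ) + 1)) := fun m => by
    simp only [hP, prod_range_succ]
  have hPmono : Monotone P := monotone_nat_of_le_succ fun m => by
    rw [hPsucc]
    exact le_mul_of_one_le_right (hPpos m) (hfac m)
  have hnl0 : 0 ≤ nl := (Nm_nonneg M hr0 pL).trans hnl
  have hnq0 : 0 ≤ nq := (Nm_nonneg M hr0 pQ).trans hnq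
  have hnt0 : 0 ≤ nt := (Nm_nonneg M hr0 pT).trans hnt
  have hR40 : 0 ≤ R4 := le_trans (by positivity) hR4
  set E := v - pT with hE
  set F := q * E + (q - pQ) * pT with hF
  set Rs := D pT + (C (lam / 2) + (-(C (lam / 2)) * (pQ * pT) ^ 2 + C lam * (pL * pT))) with hRs
  have hD1 : D E = C (lam / 2) * (F * (pQ * pT + pQ * pT + F)) - C lam * (l * E + (l - pL) * pT) -
      Rs := by
    have h : D E = D v - D pT := by
      unfold D
      rw [hE, map_sub]
    have hc : (C (lam / 2) : ℝ⟦X⟧) = C lam * C (1 / 2 : ℝ) := by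
      rw [← map_mul]; congr 1; ring
    rw [h, hDv, hRs, hF, hE, hc]
    ring
  have key : ∀ m, m ≤ M → Nm m r F ≤ 1 / 1000 → Nm m r (D E) ≤ Lam * Nm m r E + R4 := by
    intro m hm hFs
    have hl : Nm m r pL ≤ nl := (Nm_mono_M hm hr0 pL).trans hnl
    have hq : Nm m r pQ ≤ nq := (Nm_mono_M hm hr0 pQ).trans hnq
    have ht : Nm m r pT ≤ nt := (Nm_mono_M hm hr0 pT).trans hnt
    have hdl : Nm m r (l - pL) ≤ eps := (Nm_mono_M hm hr0 _).trans hel
    have hdq : Nm m r (q - pQ) ≤ eps := (Nm_mono_M hm hr0 _).trans heq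
    have hRr : Nm m r Rs ≤ r3 := (Nm_mono_M hm hr0 _).trans hR3
    have he0 := Nm_nonneg m hr0 E
    have hF0 := Nm_nonneg m hr0 F
    have hlb : Nm m r l ≤ nl + eps := by
      have e : l = pL + (l - pL) := by ring
      have := Nm_add m hr0 pL (l - pL)
      rw [← e] at this
      linarith
    have hqb : Nm m r q ≤ nq + eps := by
      have e : q = pQ + (q - pQ) := by ring
      have := Nm_add m hr0 pQ (q - pQ)
      rw [← e] at this
      linarith
    have hqE : Nm m r (q * E) ≤ (nq + eps) * Nm m r E :=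
      (Nm_mul m hr0 _ _).trans (mul_le_mul_of_nonneg_right hqb he0)
    have hqT : Nm m r ((q - pQ) * pT) ≤ eps * nt :=
      (Nm_mul m hr0 _ _).trans (mul_le_mul hdq ht (Nm_nonneg m hr0 _) heps)
    have hlE : Nm m r (l * E) ≤ (nl + eps) * Nm m r E :=
      (Nm_mul m hr0 _ _).trans (mul_le_mul_of_nonneg_right hlb he0)
    have hlT : Nm m r ((l - pL) * pT) ≤ eps * nt :=
      (Nm_mul m hr0 _ _).trans (mul_le_mul hdl ht (Nm_nonneg m hr0 _) heps)
    have hFb : Nm m r F ≤ (nq + eps) * Nm m r E + eps * nt := by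
      have := Nm_add m hr0 (q * E) ((q - pQ) * pT)
      rw [← hF] at this
      linarith
    have hQT : Nm m r (pQ * pT) ≤ nq * nt :=
      (Nm_mul m hr0 _ _).trans (mul_le_mul hq ht (Nm_nonneg m hr0 _) hnq0)
    have hin : Nm m r (pQ * pT + pQ * pT + F) ≤ 2 * (nq * nt) + 1 / 1000 := by
      have a := Nm_add m hr0 (pQ * pT + pQ * pT) F
      have b := Nm_add m hr0 (pQ * pT) (pQ * pT)
      linarith
    have hprod : Nm m r (F * (pQ * pT + pQ * pT + F)) ≤
        ((nq + eps) * Nm m r E + eps * nt) * (2 * (nq * nt) + 1 / 1000) :=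
      (Nm_mul m hr0 _ _).trans (mul_le_mul hFb hin (Nm_nonneg m hr0 _) (by positivity))
    have h1 : Nm m r (C (lam / 2) * (F * (pQ * pT + pQ * pT + F))) ≤
        lam / 2 * (((nq + eps) * Nm m r E + eps * nt) * (2 * (nq * nt) + 1 / 1000)) := by
      rw [je_C_mul m r (lam / 2) (by positivity)]
      exact mul_le_mul_of_nonneg_left hprod (by positivity)
    have h2 : Nm m r (C lam * (l * E + (l - pL) * pT)) ≤
        lam * ((nl + eps) * Nm m r E + eps * nt) := by
      rw [je_C_mul m r lam hlam.le]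
      refine mul_le_mul_of_nonneg_left ?_ hlam.le
      have := Nm_add m hr0 (l * E) ((l - pL) * pT)
      linarith
    have h4 : Nm m r (D E) ≤
        lam / 2 * (((nq + eps) * Nm m r E + eps * nt) * (2 * (nq * nt) + 1 / 1000)) +
        lam * ((nl + eps) * Nm m r E + eps * nt) + r3 := by
      rw [hD1]
      have a := Nm_sub m hr0 (C (lam / 2) * (F * (pQ * pT + pQ * pT + F)) -
        C lam * (l * E + (l - pL) * pT)) Rs
      have b := Nm_sub m hr0 (C (lam / 2) * (F * (pQ * pT + pQ * pT + F)))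
        (C lam * (l * E + (l - pL) * pT))
      linarith
    -- algebra
    have h5 : lam / 2 * (((nq + eps) * Nm m r E + eps * nt) * (2 * (nq * nt) + 1 / 1000)) ≤
        lam * (((nq + 1 / 1000) * Nm m r E + eps * nt) * (nq * nt + 1 / 1000)) := by
      have a : (nq + eps) * Nm m r E + eps * nt ≤ (nq + 1 / 1000) * Nm m r E + eps * nt := by
        have := mul_le_mul_of_nonneg_right heps1 he0
        linarith
      have b : 0 ≤ (nq + 1 / 1000) * Nm m r E + eps * nt := by positivity
      have c0 : 0 ≤ nq * nt := by positivity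
      have c : ((nq + eps) * Nm m r E + eps * nt) * (2 * (nq * nt) + 1 / 1000) ≤
          ((nq + 1 / 1000) * Nm m r E + eps * nt) * (2 * (nq * nt) + 1 / 1000) :=
        mul_le_mul_of_nonneg_right a (by positivity)
      have d : ((nq + 1 / 1000) * Nm m r E + eps * nt) * (2 * (nq * nt) + 1 / 1000) ≤
          ((nq + 1 / 1000) * Nm m r E + eps * nt) * (2 * (nq * nt + 1 / 1000)) :=
        mul_le_mul_of_nonneg_left (by linarith) b
      have e := mul_le_mul_of_nonneg_left (c.trans d) (by positivity : 0 ≤ lam / 2)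
      refine e.trans (le_of_eq ?_)
      ring
    have h6 : lam * ((nl + eps) * Nm m r E + eps * nt) ≤
        lam * ((nl + 1 / 1000) * Nm m r E + eps * nt) := by
      refine mul_le_mul_of_nonneg_left ?_ hlam.le
      have := mul_le_mul_of_nonneg_right heps1 he0
      linarith
    have h7 := mul_le_mul_of_nonneg_right hL he0
    have h8 : lam * (((nq + 1 / 1000) * Nm m r E + eps * nt) * (nq * nt + 1 / 1000)) +
        lam * ((nl + 1 / 1000) * Nm m r E + eps * nt) + r3 =
        lam * ((nq + 1 / 1000) * (nq * nt + 1 / 1000) + nl + 1 / 1000) * Nm m r E +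
        (lam * (nt * eps * (nq * nt + 1 / 1000 + 1)) + r3) := by ring
    linarith
  have hFsm : ∀ m, m ≤ M → Nm m r E + R4 ≤ (G0 + R4) * P m → Nm m r F ≤ 1 / 1000 := by
    intro m hm hmain
    have hdq : Nm m r (q - pQ) ≤ eps := (Nm_mono_M hm hr0 _).trans heq
    have hq : Nm m r pQ ≤ nq := (Nm_mono_M hm hr0 pQ).trans hnq
    have ht : Nm m r pT ≤ nt := (Nm_mono_M hm hr0 pT).trans hnt
    have he0 := Nm_nonneg m hr0 E
    have hqb : Nm m r q ≤ nq + eps := by
      have e : q = pQ + (q - pQ) := by ring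
      have := Nm_add m hr0 pQ (q - pQ)
      rw [← e] at this
      linarith
    have hqE : Nm m r (q * E) ≤ (nq + eps) * Nm m r E :=
      (Nm_mul m hr0 _ _).trans (mul_le_mul_of_nonneg_right hqb he0)
    have hqT : Nm m r ((q - pQ) * pT) ≤ eps * nt :=
      (Nm_mul m hr0 _ _).trans (mul_le_mul hdq ht (Nm_nonneg m hr0 _) heps)
    have hb : (G0 + R4) * P m ≤ (G0 + R4) * P M :=
      mul_le_mul_of_nonneg_left (hPmono hm) (by positivity)
    have hEb : Nm m r E ≤ (G0 + R4) * P M := by linarith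
    have h1 : (nq + eps) * Nm m r E ≤ (nq + eps) * ((G0 + R4) * P M) :=
      mul_le_mul_of_nonneg_left hEb (by positivity)
    have h2 := Nm_add m hr0 (q * E) ((q - pQ) * pT)
    rw [← hF] at h2
    have h3 : (nq + eps) * ((G0 + R4) * P M) + nt * eps ≤ 1 / 1000 := hsm
    linarith
  have main : ∀ m, m ≤ M → Nm m r E + R4 ≤ (G0 + R4) * P m := by
    intro m
    induction m with
    | zero =>
      intro _
      have e1 : ∀ S : ℝ⟦X⟧, Nm 0 r S = |coeff 0 S| := by
        intro S
        unfold Nm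
        simp
      rw [e1]
      simp only [hP, prod_range_zero, mul_one]
      linarith
    | succ m ih =>
      intro hm
      have hm' : m ≤ M := by omega
      have ih' := ih hm'
      have hN0 : 0 ≤ Nm m r E := Nm_nonneg m hr0 _
      have hk := key m hm' (hFsm m hm' ih')
      have hk2 : Nm m r (D E) ≤ Lam * (Nm m r E + R4) := by
        have hb : R4 ≤ Lam * R4 := le_mul_of_one_le_left hR40 hLam
        linarith
      have hc1 := je_coeff m r E
      have hd1 := mul_le_mul_of_nonneg_left (je_last m r hr0 (D E)) hr0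
      have hm1 : (0 : ℝ) < (m : ℝ) + 1 := by positivity
      have hstep : ((m : ℝ) + 1) * (|coeff (m + 1) E| * r ^ (m + 1)) ≤
          r * Lam * (Nm m r E + R4) := by
        have ha := mul_le_mul_of_nonneg_left hk2 hr0
        linarith
      have hstep2 : |coeff (m + 1) E| * r ^ (m + 1) ≤
          r * Lam / ((m : ℝ) + 1) * (Nm m r E + R4) := by
        rw [div_mul_eq_mul_div, le_div_iff₀ hm1]
        linarith
      have hfm : 0 ≤ 1 + r * Lam / ((m : ℝ) + 1) := by linarith [hfac m]
      have hlast := mul_le_mul_of_nonneg_right ih' hfm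
      rw [je_succ, hPsucc, ← mul_assoc]
      linarith
  have hfin := main M le_rfl
  show Nm M r E ≤ (G0 + R4) * P M
  linarith

end TWP
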