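import Pool.Agent.TWP.MFin2
import Pool.Agent.TWP.XM4
import Pool.Agent.TWP.XTB
import Pool.Agent.TWP.XGR4
import Pool.Agent.TWP.YJE4
import Pool.Agent.TWP.XGI4
import Pool.Agent.TWP.XQS4
import Pool.Agent.TWP.XGJ4
import Pool.Agent.TWP.XGS4
import Pool.Agent.TWP.XCB4
import Pool.Agent.TWP.XCM4
import Pool.Agent.TWP.XCMN4

/-! TWP, middle charts of `β = 4`: `checkM4` and `checkMN4` are sound (no hypotheses). -/

namespace TWP

theorem GS4_all : S_GS4 := t_GS4 GS_all t_GA (t_TB kLIN kMULA kNL) (t_GI4 t_GA t_GR4)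
  (t_GJ4 t_GA kDER kNL PU t_JE4' t_QS4)

theorem CB4_all : S_CB4 := t_CB4 GS4_all (t_M4 kLIN kMULA kINVA) kLIN t_QS4

theorem cm4 : S_CM4 := t_CM4 CB4_all kCHAIN

theorem cmn4 : S_CMN4 := t_CMN4 CB4_all kCHAINN

end TWP
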